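import Pool.Agent.P.MP_7d29e8_ag.FDefs

set_option autoImplicit false

/-! Arbitrary cocharacters and the list of shift vectors. -/

namespace Pool.Agent.P.MP_7d29e8_ag

open scoped Classical
open Matrix

/-- `μ` is a cocharacter of `G` -/
def Coch {Ω n : Type} [Field Ω] [Fintype n] [DecidableEq n] (G : Subgroup (GL n Ω))
    (μ : Ω → Matrix n n Ω) : Prop :=
  (∃ (k : GL n Ω) (h : n → ℤ), ∀ t ≠ 0, μ t = k.val * diagonal (fun i => t ^ h i) * (k⁻¹).val) ∧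
  ∀ t ≠ 0, ∃ g ∈ G, g.val = μ t

/-- the fractional part of `- W j` (zero if there is no node `j`) -/
noncomputable def fr {n : ℕ} (W : Fin n → ℚ) (j : ℕ) : ℚ :=
  ∑ l : Fin n with l.val = j, Int.fract (- W l)

open CartanMatrix in
/-- `(C, R)` is one of the listed types (nodes numbered from `0`) and `E` is its shift vector -/
def Shift (n : ℕ) (C : Matrix (Fin n) (Fin n) ℤ) (R : Fin n → Fin n → Prop)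
    (E : (Fin n → ℚ) → Fin n → ℚ) : Prop :=
  (C = A n ∧ R = Eq ∧ ∀ W k, E W k =
    (⌊(k + 2 : ℕ) * fr W 0⌋ - 2 * ⌊(k + 1 : ℕ) * fr W 0⌋ + ⌊(k : ℕ) * fr W 0⌋ : ℤ)) ∨
  (C = A n ∧ (∀ k l, R k l ↔ l = k ∨ l = k.rev) ∧ ∀ W k, E W k =
    ∑ m : Fin n with m.rev = m, 2 * fr W m.val * if k = m then 1 else (C k m : ℚ)) ∨
  (C = B n ∧ 2 ≤ n ∧ R = Eq ∧ ∀ W k, E W k =
    2 * fr W (n - 1) * if (k : ℕ) + 1 = n then 1 else if (k : ℕ) + 2 = n then -1 else 0) ∨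
  (C = CartanMatrix.C n ∧ 2 ≤ n ∧ R = Eq ∧ ∀ W k, E W k = 2 * fr W 0 * (-1) ^ (k : ℕ)) ∨
  (C = D n ∧ 4 ≤ n ∧ R = Eq ∧ ∀ W k, E W k =
    if (k : ℕ) + 3 < n then 2 * fr W 0 * (-1) ^ (k : ℕ)
    else if (k : ℕ) + 3 = n then
      2 * fr W 0 * min ((-1) ^ (k : ℕ)) 0 - (⌊2 * fr W (k + 1)⌋ * ⌊2 * fr W (k + 2)⌋ : ℤ)
    else (⌊2 * fr W k⌋ : ℤ)) ∨
  (C = D n ∧ 4 ≤ n ∧ ∃ S : Finset (Fin n), 2 ≤ S.card ∧ (∀ k ∈ S, Ends n k) ∧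
    (∀ k l, R k l ↔ l = k ∨ (k ∈ S ∧ l ∈ S)) ∧ ∀ W k, E W k = (-1) ^ min (k : ℕ) (n - 2) *
      ∑ j : Fin n with j ∉ S ∧ (j.val = 0 ∨ Ends n j), 2 * fr W j.val) ∨
  (n = 6 ∧ HEq C E₆ ∧ R = Eq ∧ ∀ W k, E W k =
    if fr W 0 = 1 / 3 then [0, 0, 1, -1, 0, 1].getD k 0
    else if fr W 0 = 2 / 3 then [1, 0, 0, -1, 1, 0].getD k 0 else 0) ∨
  (n = 7 ∧ HEq C E₇ ∧ R = Eq ∧ ∀ W k, E W k = 2 * fr W 6 * [0, 1, 0, -1, 1, -1, 1].getD k 0) ∨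
  (((n = 6 ∧ HEq C E₆ ∧ ∀ k l : Fin n, R k l ↔ l = k ∨ (l : ℕ) = [5, 1, 4, 3, 2, 0].getD k 0) ∨
    (n = 8 ∧ HEq C E₈) ∨ (n = 4 ∧ HEq C F₄) ∨ (n = 2 ∧ HEq C G₂)) ∧ E = 0)

end Pool.Agent.P.MP_7d29e8_ag
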