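import Pool.Agent.P.MP_7d29e8_ag.FDefs

set_option autoImplicit false
set_option linter.unusedSectionVars false
set_option linter.unusedVariables false

/-! Definitions for the classification of Cartan matrices. -/

namespace Pool.Agent.P.MP_7d29e8_ag

open Finset
open scoped Classical

variable {ι : Type} {S : Finset ι} {c : ι → ι → ℤ}

/-- abstract Cartan matrix of finite type on `S` -/
structure CM (S : Finset ι) (c : ι → ι → ℤ) : Prop where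
  diag : ∀ i ∈ S, c i i = 2
  off : ∀ i ∈ S, ∀ j ∈ S, i ≠ j → c i j ≤ 0
  sym : ∀ i ∈ S, ∀ j ∈ S, c i j = 0 → c j i = 0
  fb : ∀ x : ι → ℕ, (∀ i ∈ S, 0 < x i → ∑ j ∈ S, c i j * x j ≤ 0) → ∀ i ∈ S, x i = 0

/-- `v 0, …, v (k - 1)` are distinct nodes -/
structure Nds (S : Finset ι) (k : ℕ) (v : ℕ → ι) : Prop where
  mem : ∀ a < k, v a ∈ S
  inj : ∀ a < k, ∀ b < k, v a = v b → a = b

/-- a path -/
structure Pth (S : Finset ι) (c : ι → ι → ℤ) (k : ℕ) (v : ℕ → ι) : Prop extends Nds S k v where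
  adj : ∀ a, a + 1 < k → c (v a) (v (a + 1)) ≠ 0

/-- `w` hangs on the node `u` and supplies weight two: a multiple bond or a fork -/
def Gad (S : Finset ι) (c : ι → ι → ℤ) (u : ι) (w : Finset ι) : Prop :=
  w ⊆ S ∧ ((∃ a, w = {a} ∧ 2 ≤ c u a * c a u) ∨
    ∃ a b, a ≠ b ∧ w = {a, b} ∧ c u a ≠ 0 ∧ c u b ≠ 0)

open CartanMatrix in
/-- the Cartan-Killing list -/
def Typ (m : ℕ) (C : Matrix (Fin m) (Fin m) ℤ) : Prop :=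
  C = A m ∨ ((C = B m ∨ C = CartanMatrix.C m) ∧ 2 ≤ m) ∨ (C = CartanMatrix.D m ∧ 4 ≤ m) ∨
    (m = 6 ∧ HEq C E₆) ∨ (m = 7 ∧ HEq C E₇) ∨ (m = 8 ∧ HEq C E₈) ∨ (m = 4 ∧ HEq C F₄) ∨
    (m = 2 ∧ HEq C G₂)

/-- the set `A` of nodes carries a diagram of the list -/
def IsTyp (c : ι → ι → ℤ) (A : Set ι) : Prop :=
  ∃ (m : ℕ) (e : Fin m → ι) (C : Matrix (Fin m) (Fin m) ℤ), Function.Injective e ∧
    Set.range e = A ∧ (∀ k l, c (e k) (e l) = C k l) ∧ Typ m C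

open CartanMatrix in
/-- the list of types with Galois orbits -/
def Lst (n : ℕ) (C : Matrix (Fin n) (Fin n) ℤ) (R : Fin n → Fin n → Prop) : Prop :=
  (C = A n ∧ R = Eq) ∨ (C = A n ∧ ∀ k l, R k l ↔ l = k ∨ l = k.rev) ∨
  (C = CartanMatrix.D n ∧ 4 ≤ n ∧ R = Eq) ∨
  ((C = B n ∨ C = CartanMatrix.C n) ∧ 2 ≤ n ∧ R = Eq) ∨
    (C = CartanMatrix.D n ∧ 4 ≤ n ∧ ∃ S : Finset (Fin n), 2 ≤ S.card ∧ (∀ k ∈ S, Ends n k) ∧
      ∀ k l, R k l ↔ l = k ∨ (k ∈ S ∧ l ∈ S)) ∨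
    (n = 6 ∧ HEq C E₆ ∧
      (R = Eq ∨ ∀ k l : Fin n, R k l ↔ l = k ∨ (l : ℕ) = [5, 1, 4, 3, 2, 0].getD k 0)) ∨
    (n = 7 ∧ HEq C E₇ ∧ R = Eq) ∨ (n = 8 ∧ HEq C E₈) ∨ (n = 4 ∧ HEq C F₄) ∨
    (n = 2 ∧ HEq C G₂)

lemma Lst.row {n : ℕ} {C : Matrix (Fin n) (Fin n) ℤ} {R : Fin n → Fin n → Prop}
    {D W W' : Fin n → ℚ} {Q : Prop} (h : Lst n C R) (T : Table n C R D W W' Q) :
    Row n C R D W W' Q := by
  rcases h with h | h | h | h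
  · exact Or.inl ⟨h.1, h.2, T.1 h.1 h.2⟩
  · exact Or.inr (Or.inl ⟨h.1, h.2, T.2.1 h.1 h.2⟩)
  · exact Or.inr (Or.inr (Or.inl ⟨h.1, h.2.1, h.2.2, T.2.2.1 h.1 h.2.1 h.2.2⟩))
  · exact Or.inr (Or.inr (Or.inr ⟨h, T.2.2.2 h⟩))

end Pool.Agent.P.MP_7d29e8_ag
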