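import Pool.Agent.P.MP_7d29e8_ag.Mat

set_option autoImplicit false

namespace Pool.Agent.P.MP_7d29e8_ag

open scoped Classical
open Finset

/-- the vector node -/
def na (m : ℕ) : Fin (m + 4) := ⟨0, by omega⟩
/-- the first spin node -/
def nb (m : ℕ) : Fin (m + 4) := ⟨m + 2, by omega⟩
/-- the second spin node -/
def nc (m : ℕ) : Fin (m + 4) := ⟨m + 3, by omega⟩

variable {m : ℕ} {R : Fin (m + 4) → Fin (m + 4) → Prop} {D y c c' : Fin (m + 4) → ℚ}

lemma na_ne_nb : na m ≠ nb m := by simp [na, nb]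
lemma na_ne_nc : na m ≠ nc m := by simp [na, nc]
lemma nb_ne_nc : nb m ≠ nc m := by simp [nb, nc]

lemma ends_iff (k : Fin (m + 4)) : Ends (m + 4) k ↔ k = nb m ∨ k = nc m ∨ (m = 0 ∧ k = na m) := by
  have := k.2
  simp only [Ends, na, nb, nc, Fin.ext_iff]
  omega

lemma D_other (hD : ∀ k, ¬ Ends (m + 4) k → (k : ℕ) ≠ 0 → D k = 0) {k : Fin (m + 4)}
    (h1 : k ≠ na m) (h2 : k ≠ nb m) (h3 : k ≠ nc m) : D k = 0 :=
  hD k (by rw [ends_iff]; tauto) (fun e => h1 (Fin.ext e))

lemma Dsolve (h : Dat (CartanMatrix.D (m + 4)) R D y c c')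
    (hD : ∀ k, ¬ Ends (m + 4) k → (k : ℕ) ≠ 0 → D k = 0) :
    (∀ j, j ≤ m + 1 → U y (1 + j) = D (na m) + (D (nb m) + D (nc m)) * (j + 1) / 2) ∧
    y (nb m) = D (na m) / 2 + D (nb m) * (m + 4) / 4 + D (nc m) * (m + 2) / 4 ∧
    y (nc m) = D (na m) / 2 + D (nb m) * (m + 2) / 4 + D (nc m) * (m + 4) / 4 := by
  have hc := chain (U y) 1 (m + 2) (fun i hi1 hi => by
    have := h.hD ⟨i, by omega⟩
    rw [rowD1 _ _ (by simp; omega), hD _ (by simp [Ends]; omega) (by simp; omega)] at this
    simp only at this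
    linarith)
  have h0 := h.hD (na m)
  rw [rowD1 _ _ (by simp [na])] at h0
  have h1 := h.hD ⟨m + 1, by omega⟩
  rw [rowD2 _ _ (by simp), hD _ (by simp [Ends]) (by simp)] at h1
  have h2 := h.hD (nb m)
  rw [rowD3 _ _ (m + 1) (by omega) (by simp [nb]), U_succ] at h2
  have h3 := h.hD (nc m)
  rw [rowD3 _ _ (m + 1) (by omega) (by simp [nc]), U_succ] at h3
  have e2 : U y (m + 1 + 2) = y (nb m) := U_succ y (nb m)
  have e3 : U y (m + 1 + 3) = y (nc m) := U_succ y (nc m)
  have e0 : ((na m : Fin (m + 4)) : ℕ) = 0 := rfl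
  simp only [e0, zero_add, U_zero] at h0
  simp only [e2, e3] at h1
  have c1 := hc (m + 1) (by omega)
  have c0 := hc m (by omega)
  rw [show 1 + (m + 1) = m + 1 + 1 by omega] at c1
  rw [show 1 + m = m + 1 by omega] at c0
  push_cast at c1
  have hd : U y (1 + 1) - U y 1 = (D (nb m) + D (nc m)) / 2 := by linarith
  have hU : U y 1 = D (na m) + (D (nb m) + D (nc m)) / 2 := by
    have : U y (1 + 1) = U y 2 := rfl
    linarith
  rw [hd, hU] at c1
  refine ⟨fun j hj => ?_, by linarith, by linarith⟩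
  rw [hc j (by omega), hd, hU]; ring

lemma Dhalf (h : Dat (CartanMatrix.D (m + 4)) R D y c c')
    (hD : ∀ k, ¬ Ends (m + 4) k → (k : ℕ) ≠ 0 → D k = 0)
    (hs : D (na m) + D (nb m) + D (nc m) = 0) (hp : m ≠ 0 → D (na m) = 0) (k : Fin (m + 4)) :
    y k = D k / 2 := by
  obtain ⟨h1, h2, h3⟩ := Dsolve h hD
  have hm : D (na m) * m = 0 := by
    by_cases h0 : m = 0
    · simp [h0]
    · simp [hp h0]
  have hs' : D (nb m) + D (nc m) = - D (na m) := by linarith
  by_cases hb : k = nb m
  · rw [hb, h2]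
    have : D (nc m) = - D (na m) - D (nb m) := by linarith
    rw [this]; linarith
  by_cases hc : k = nc m
  · rw [hc, h3]
    have : D (nb m) = - D (na m) - D (nc m) := by linarith
    rw [this]; linarith
  have hk : (k : ℕ) ≤ m + 1 := by
    have := k.2
    simp only [nb, nc, Fin.ext_iff] at hb hc
    omega
  have := h1 k hk
  rw [add_comm 1, U_succ, hs'] at this
  by_cases ha : k = na m
  · rw [this, ha]; simp [na]; ring
  · rw [this, D_other hD ha hb hc]
    by_cases h0 : m = 0
    · have : (k : ℕ) = 1 := by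
        simp only [na, Fin.ext_iff] at ha
        omega
      rw [this]; push_cast; ring
    · simp [hp h0]

lemma Dint {c : Fin (m + 4) → ℚ}
    (hc : ∀ k, IsZ (∑ l, (CartanMatrix.D (m + 4) k l : ℚ) * c l)) :
    IsZ (2 * c (na m)) ∧ (∀ j, j ≤ m + 2 → IsZ (U c j - j * c (na m))) ∧
      IsZ (c (nb m) + c (nc m) - (m + 3) * c (na m)) ∧
      IsZ (2 * c (nb m) - (m + 2) * c (na m)) ∧ IsZ (2 * c (nc m) - (m + 2) * c (na m)) := by
  have h0 := chainZ (U c) (m + 2) (U_zero c) (fun i hi => by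
    have := hc ⟨i, by omega⟩
    rwa [rowD1 _ _ (by simp; omega)] at this)
  have e0 : U c 1 = c (na m) := U_succ c (na m)
  rw [e0] at h0
  have h1 := hc ⟨m + 1, by omega⟩
  rw [rowD2 _ _ (by simp)] at h1
  have h2 := hc (nb m)
  rw [rowD3 _ _ (m + 1) (by omega) (by simp [nb]), U_succ] at h2
  have h3 := hc (nc m)
  rw [rowD3 _ _ (m + 1) (by omega) (by simp [nc]), U_succ] at h3
  have e2 : U c (m + 1 + 2) = c (nb m) := U_succ c (nb m)
  have e3 : U c (m + 1 + 3) = c (nc m) := U_succ c (nc m)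
  simp only [e2, e3] at h1
  have c1 := h0 (m + 1 + 1) (by omega)
  have c0 := h0 (m + 1) (by omega)
  refine ⟨?_, h0, ?_, ?_, ?_⟩
  · exact (((((h1.add h1).add h2).add h3).sub (c1.add c1)).add (c0.add c0)).of_eq
      (by push_cast; ring)
  · exact (((c1.add c1).sub c0).sub h1).of_eq (by push_cast; ring)
  · exact (h2.add c1).of_eq (by push_cast; ring)
  · exact (h3.add c1).of_eq (by push_cast; ring)

lemma Dnec (h : Dat (CartanMatrix.D (m + 4)) R D y c c')
    (hD : ∀ k, ¬ Ends (m + 4) k → (k : ℕ) ≠ 0 → D k = 0)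
    (hR : ∀ k, ¬ Ends (m + 4) k → ∀ l, R k l ↔ l = k) (hq : QQ R y c c') :
    D (na m) + D (nb m) + D (nc m) = 0 ∧ (m ≠ 0 → D (na m) = 0) := by
  obtain ⟨h1, -, -⟩ := Dsolve h hD
  have hlt := hq.lt ⟨1, by omega⟩
  rw [oS_single (hR _ (by simp [Ends])), ← U_mk y, h1 1 (by omega)] at hlt
  have hs : D (na m) + D (nb m) + D (nc m) = 0 :=
    (((h.zD _).add (h.zD _)).add (h.zD _)).eq_zero (by push_cast at hlt; linarith [hlt.1])
      (by push_cast at hlt; linarith [hlt.2])
  refine ⟨hs, fun hm => ?_⟩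
  have o0 := oS_single (hR (na m) (by simp [Ends, na]; omega))
  have o2 := oS_single (hR ⟨2, by omega⟩ (by simp [Ends]; omega))
  have hint : ∀ {c : Fin (m + 4) → ℚ},
      (∀ k, IsZ (∑ l, (CartanMatrix.D (m + 4) k l : ℚ) * c l)) →
      IsZ (oS R c ⟨2, by omega⟩ - oS R c (na m)) := by
    intro c hc
    obtain ⟨a1, a2, -⟩ := Dint hc
    rw [o0, o2, ← U_mk c]
    exact ((a2 (2 + 1) (by omega)).add a1).of_eq (by push_cast; ring)
  have he := hq.eq (hint h.zc) (hint h.zc')
  have e0 : U y (1 + 0) = y (na m) := U_succ y (na m)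
  rw [o0, o2, ← U_mk y, ← e0, show 2 + 1 = 1 + 2 from rfl, h1 2 (by omega), h1 0 (by omega)] at he
  push_cast at he
  linarith

lemma typeD (h : Dat (CartanMatrix.D (m + 4)) Eq D y c c')
    (hD : ∀ k, ¬ Ends (m + 4) k → (k : ℕ) ≠ 0 → D k = 0) :
    QQ Eq y c c' ↔ D = 0 ∨ ∃ i j, Ends (m + 4) i ∧ Ends (m + 4) j ∧
      D = Pi.single i 1 - Pi.single j 1 ∧
      Int.fract (- c j) < 1 / 2 ∧ 1 / 2 ≤ Int.fract (- c i) := by
  have hab := @na_ne_nb m
  have hac := @na_ne_nc m
  have hbc := @nb_ne_nc m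
  constructor
  · intro hq
    obtain ⟨hs, hp⟩ := Dnec h hD (fun k _ l => eq_comm) hq
    have hy := Dhalf h hD hs hp
    have htri : ∀ k, D k = -1 ∨ D k = 0 ∨ D k = 1 := fun k => by
      have := hq.lt k
      rw [oS_eq, hy] at this
      exact (h.zD k).tri (by linarith [this.1]) (by linarith [this.2])
    have hend : ∀ k, D k ≠ 0 → Ends (m + 4) k := fun k hk => by
      by_contra hne
      by_cases h0 : (k : ℕ) = 0
      · have e : k = na m := Fin.ext h0
        rw [ends_iff] at hne
        by_cases hm : m = 0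
        · exact hne (Or.inr (Or.inr ⟨hm, e⟩))
        · exact hk (e ▸ hp hm)
      · exact hk (hD k hne h0)
    have key : ∀ i j, D i = 1 → D j = -1 → (∀ k, k ≠ i → k ≠ j → D k = 0) →
        ∃ i j, Ends (m + 4) i ∧ Ends (m + 4) j ∧ D = Pi.single i 1 - Pi.single j 1 ∧
        Int.fract (- c j) < 1 / 2 ∧ 1 / 2 ≤ Int.fract (- c i) := by
      intro i j hi hj hk
      have hij : i ≠ j := fun e => by rw [e, hj] at hi; norm_num at hi
      refine ⟨i, j, hend i (by rw [hi]; norm_num), hend j (by rw [hj]; norm_num), ?_, ?_, ?_⟩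
      · funext k
        by_cases h1 : k = i
        · simp [h1, hi, hij]
        by_cases h2 : k = j
        · simp [h2, hj, hij.symm]
        · simp [h1, h2, hk k h1 h2]
      · have := hq j
        rw [oS_eq, oS_eq, oS_eq, hy, hj] at this
        linarith [Int.fract_lt_one (- c' j)]
      · have := hq i
        rw [oS_eq, oS_eq, oS_eq, hy, hi] at this
        linarith [Int.fract_nonneg (- c' i)]
    have hz : ∀ u v w : Fin (m + 4), D w = 0 → (∀ k, k ≠ u → k ≠ v → k ≠ w → D k = 0) →
        ∀ k, k ≠ u → k ≠ v → D k = 0 := fun u v w hw hk k h1 h2 => by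
      by_cases h3 : k = w
      · rw [h3, hw]
      · exact hk k h1 h2 h3
    rcases htri (na m) with ha | ha | ha <;> rcases htri (nb m) with hb | hb | hb <;>
      rcases htri (nc m) with hc | hc | hc <;>
      first
      | (exfalso; rw [ha, hb, hc] at hs; norm_num at hs; done)
      | exact Or.inr (key _ _ ha hb (hz _ _ _ hc fun k h1 h2 h3 => D_other hD h1 h2 h3))
      | exact Or.inr (key _ _ hb ha (hz _ _ _ hc fun k h1 h2 h3 => D_other hD h2 h1 h3))
      | exact Or.inr (key _ _ ha hc (hz _ _ _ hb fun k h1 h2 h3 => D_other hD h1 h3 h2))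
      | exact Or.inr (key _ _ hc ha (hz _ _ _ hb fun k h1 h2 h3 => D_other hD h2 h3 h1))
      | exact Or.inr (key _ _ hb hc (hz _ _ _ ha fun k h1 h2 h3 => D_other hD h3 h1 h2))
      | exact Or.inr (key _ _ hc hb (hz _ _ _ ha fun k h1 h2 h3 => D_other hD h3 h2 h1))
      | exact Or.inl (funext fun k => by
          by_cases h1 : k = na m
          · rw [h1, ha]; rfl
          · by_cases h2 : k = nb m
            · rw [h2, hb]; rfl
            · exact hz _ _ _ hc (fun k h1 h2 h3 => D_other hD h1 h2 h3) k h1 h2)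
  · rintro (h0 | ⟨i, j, hi, hj, hDij, h1, h2⟩)
    · exact h.D_zero h0
    have hij : i ≠ j := fun e => by rw [e] at h2; linarith
    have hone : ∀ i, Ends (m + 4) i → (Pi.single i 1 : Fin (m + 4) → ℚ) (na m) +
        (Pi.single i 1 : Fin (m + 4) → ℚ) (nb m) + (Pi.single i 1 : Fin (m + 4) → ℚ) (nc m) = 1 ∧
        (m ≠ 0 → (Pi.single i 1 : Fin (m + 4) → ℚ) (na m) = 0) := by
      intro i hi
      rcases (ends_iff i).mp hi with rfl | rfl | ⟨hm, rfl⟩
      · simp [hab, hbc.symm]
      · simp [hac, hbc]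
      · simp [hab.symm, hac.symm, hm]
    have hy := Dhalf h hD (by
      rw [hDij]; simp only [Pi.sub_apply]; linarith [(hone i hi).1, (hone j hj).1])
      (fun hm => by rw [hDij, Pi.sub_apply, (hone i hi).2 hm, (hone j hj).2 hm, sub_self])
    intro k
    by_cases hki : k = i
    · have hK := h.K k
      simp only [oS_eq] at hK ⊢
      have : y k = 1 / 2 := by rw [hy, hDij, hki]; simp [hij]
      rw [this] at hK ⊢
      exact half_pos' hK (hki ▸ h2)
    by_cases hkj : k = j
    · have hK := h.K k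
      simp only [oS_eq] at hK ⊢
      have : y k = - (1 / 2) := by rw [hy, hDij, hkj]; simp [hij.symm]; norm_num
      rw [this] at hK ⊢
      exact half_neg' hK (hkj ▸ h1)
    · exact h.at_zero (by rw [oS_eq, hy, hDij]; simp [hki, hkj])

lemma typeD' (h : Dat (CartanMatrix.D (m + 4)) R D y c c')
    (hD : ∀ k, ¬ Ends (m + 4) k → (k : ℕ) ≠ 0 → D k = 0) (S : Finset (Fin (m + 4)))
    (h2 : 2 ≤ S.card) (hS : ∀ k ∈ S, Ends (m + 4) k)
    (hR : ∀ k l, R k l ↔ l = k ∨ (k ∈ S ∧ l ∈ S)) :
    QQ R y c c' ↔ ∀ k, oS R D k = 0 := by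
  have hab := @na_ne_nb m
  have hac := @na_ne_nc m
  have hbc := @nb_ne_nc m
  have hin : ∀ k ∈ S, ∀ z, oS R z k = ∑ l ∈ S, z l := fun k hk =>
    oS_set fun l => by rw [hR]; constructor
                       · rintro (rfl | h)
                         · exact hk
                         · exact h.2
                       · exact fun hl => Or.inr ⟨hk, hl⟩
  have hout : ∀ k ∉ S, ∀ z, oS R z k = z k := fun k hk =>
    oS_single fun l => by rw [hR]; simp [hk]
  have hcases : S = {nb m, nc m} ∨ (m = 0 ∧ (S = {na m, nb m} ∨ S = {na m, nc m} ∨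
      S = {na m, nb m, nc m})) := by
    by_cases hm : m = 0
    · subst hm
      have : ∀ S : Finset (Fin 4), 2 ≤ S.card → 1 ∉ S →
          S = {2, 3} ∨ S = {0, 2} ∨ S = {0, 3} ∨ S = {0, 2, 3} := by decide
      have := this S h2 (fun h1 => by have := hS 1 h1; simp [Ends] at this)
      simpa [na, nb, nc] using this
    · left
      refine eq_of_subset_of_card_le (fun k hk => ?_) (by rw [card_pair hbc]; exact h2)
      have := (ends_iff k).mp (hS k hk)
      simp only [mem_insert, mem_singleton]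
      tauto
  constructor
  · intro hq
    obtain ⟨hs, hp⟩ := Dnec h hD (fun k hk l => by
      rw [hR]; exact ⟨fun h => h.resolve_right fun h' => hk (hS k h'.1), Or.inl⟩) hq
    have hy := Dhalf h hD hs hp
    suffices hfin : ∑ l ∈ S, D l = 0 ∧ ∀ k ∉ S, D k = 0 by
      intro k
      by_cases hk : k ∈ S
      · rw [hin k hk, hfin.1]
      · rw [hout k hk, hfin.2 k hk]
    have key : ∀ u v w : Fin (m + 4), S = {u, v} → u ≠ v → w ≠ u → w ≠ v → D u + D v + D w = 0 →
        (∀ k, k ≠ u → k ≠ v → k ≠ w → D k = 0) →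
        (D w = 0 ∨ ∀ {c : Fin (m + 4) → ℚ},
          (∀ k, IsZ (∑ l, (CartanMatrix.D (m + 4) k l : ℚ) * c l)) → IsZ (c u + c v - c w)) →
        ∑ l ∈ S, D l = 0 ∧ ∀ k ∉ S, D k = 0 := by
      intro u v w hSuv huv hwu hwv hsum hoth hw
      have hw0 : D w = 0 := by
        rcases hw with hw | hw
        · exact hw
        have hu : u ∈ S := by simp [hSuv]
        have hw' : w ∉ S := by simp [hSuv, hwu, hwv]
        have he := hq.eq (k := u) (l := w)
          (by rw [hin u hu, hout w hw', hSuv, sum_pair huv]; exact hw h.zc)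
          (by rw [hin u hu, hout w hw', hSuv, sum_pair huv]; exact hw h.zc')
        rw [hin u hu, hout w hw', hSuv, sum_pair huv, hy, hy, hy] at he
        linarith
      refine ⟨by rw [hSuv, sum_pair huv]; linarith, fun k hk => ?_⟩
      simp only [hSuv, mem_insert, mem_singleton, not_or] at hk
      by_cases hkw : k = w
      · rw [hkw, hw0]
      · exact hoth k hk.1 hk.2 hkw
    rcases hcases with hS' | ⟨hm, hS' | hS' | hS'⟩
    · refine key _ _ (na m) hS' hbc hab hac (by linarith)
        (fun k h1 h2 h3 => D_other hD h3 h1 h2) ?_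
      by_cases hm : m = 0
      · right
        intro c hc
        obtain ⟨a1, -, a3, -⟩ := Dint hc
        have hm' : (m : ℚ) = 0 := by exact_mod_cast hm
        exact (a3.add a1).of_eq (by rw [hm']; ring)
      · exact Or.inl (hp hm)
    · refine key _ _ (nc m) hS' hab hac.symm hbc.symm (by linarith)
        (fun k h1 h2 h3 => D_other hD h1 h2 h3) (Or.inr ?_)
      intro c hc
      obtain ⟨a1, -, a3, a4, a5⟩ := Dint hc
      exact ((a3.sub a5).add a1).of_eq (by ring)
    · refine key _ _ (nb m) hS' hac hab.symm hbc (by linarith)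
        (fun k h1 h2 h3 => D_other hD h1 h3 h2) (Or.inr ?_)
      intro c hc
      obtain ⟨a1, -, a3, a4, a5⟩ := Dint hc
      exact ((a3.sub a4).add a1).of_eq (by ring)
    · refine ⟨?_, fun k hk => ?_⟩
      · rw [hS', sum_insert (by simp [hab, hac]), sum_pair hbc]; linarith
      · simp only [hS', mem_insert, mem_singleton, not_or] at hk
        exact D_other hD hk.1 hk.2.1 hk.2.2
  · intro hk
    have hsp : D (na m) + D (nb m) + D (nc m) = 0 ∧ (m ≠ 0 → D (na m) = 0) := by
      rcases hcases with hS' | ⟨hm, hS' | hS' | hS'⟩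
      · have e1 := hk (na m)
        have e2 := hk (nb m)
        rw [hout _ (by simp [hS', hab, hac])] at e1
        rw [hin _ (by simp [hS']), hS', sum_pair hbc] at e2
        exact ⟨by linarith, fun _ => e1⟩
      · have e1 := hk (nc m)
        have e2 := hk (nb m)
        rw [hout _ (by simp [hS', hbc.symm, hac.symm])] at e1
        rw [hin _ (by simp [hS']), hS', sum_pair hab] at e2
        exact ⟨by linarith, fun h => absurd hm h⟩
      · have e1 := hk (nb m)
        have e2 := hk (nc m)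
        rw [hout _ (by simp [hS', hbc, hab.symm])] at e1
        rw [hin _ (by simp [hS']), hS', sum_pair hac] at e2
        exact ⟨by linarith, fun h => absurd hm h⟩
      · have e2 := hk (nc m)
        rw [hin _ (by simp [hS']), hS', sum_insert (by simp [hab, hac]), sum_pair hbc] at e2
        exact ⟨by linarith, fun h => absurd hm h⟩
    have hy := Dhalf h hD hsp.1 hsp.2
    refine h.of_zero fun k => ?_
    have := hk k
    simp only [oS, hy, ← sum_div] at this ⊢
    rw [this, zero_div]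

end Pool.Agent.P.MP_7d29e8_ag
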