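import Pool.Agent.P.MP_7d29e8_ag.Types
import Pool.Agent.P.MP_7d29e8_ag.TypeD
import Pool.Agent.P.MP_7d29e8_ag.FK0
import Pool.Agent.P.MP_7d29e8_ag.ADefs

set_option autoImplicit false

/-! The shift vectors of all types. -/

namespace Pool.Agent.P.MP_7d29e8_ag.All

open scoped Classical
open Finset

variable {n : ℕ}

/-- product of the Cartan matrix with a vector -/
def cm (C : Matrix (Fin n) (Fin n) ℤ) (x : Fin n → ℚ) (k : Fin n) : ℚ := ∑ l, (C k l : ℚ) * x l

/-- `E` is the right shift vector -/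
def Good (C : Matrix (Fin n) (Fin n) ℤ) (R : Fin n → Fin n → Prop)
    (E : (Fin n → ℚ) → Fin n → ℚ) : Prop :=
  (∀ V W : Fin n → ℚ, (∀ k, (∀ l, R k l ↔ l = k) → V k = W k) → E V = E W) ∧
  ∀ c, (∀ k, IsZ (cm C c k)) → ∃ x : Fin n → ℚ, (∀ k l, R k l → x k = x l) ∧
    (∀ k l, R k l → cm C x k = cm C x l) ∧ (∀ k, oS R x k = Int.fract (- oS R c k)) ∧
    ∀ k, oS R (cm C x) k = E c k

lemma good_eq {C : Matrix (Fin n) (Fin n) ℤ} {E : (Fin n → ℚ) → Fin n → ℚ}
    (h : ∀ c, (∀ k, IsZ (cm C c k)) → ∀ k, cm C (fun l => Int.fract (- c l)) k = E c k) :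
    Good C Eq E :=
  ⟨fun V W hV => by rw [funext fun k => hV k fun _ => eq_comm], fun c hc =>
    ⟨fun l => Int.fract (- c l), fun _ _ e => e ▸ rfl, fun _ _ e => e ▸ rfl,
      fun k => by rw [oS_eq, oS_eq], fun k => by rw [oS_eq, h c hc]⟩⟩

lemma good_zero {C : Matrix (Fin n) (Fin n) ℤ} {R : Fin n → Fin n → Prop}
    (h : ∀ c, (∀ k, IsZ (cm C c k)) → ∀ k, IsZ (oS R c k)) : Good C R 0 :=
  ⟨fun _ _ _ => rfl, fun c hc => ⟨0, fun _ _ _ => rfl, fun _ _ _ => by simp [cm],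
    fun k => by rw [fract_of_isZ (h c hc k)]; simp [oS], fun k => by simp [oS, cm]⟩⟩

lemma fr_mk (W : Fin n → ℚ) (k : Fin n) : fr W k = Int.fract (- W k) := by
  rw [fr, sum_eq_single k] <;> simp +contextual [Fin.ext_iff]

lemma fr_U (W : Fin n → ℚ) (j : ℕ) : fr W j = Int.fract (- U W (j + 1)) := by
  by_cases h : j < n
  · rw [U_mk W h, ← fr_mk]
  · rw [U_gt W (by omega), fr, sum_eq_zero fun l hl => absurd (mem_filter.1 hl).2 (by omega)]
    simp

lemma U_fr (W : Fin n → ℚ) (j : ℕ) : U (fun l => Int.fract (- W l)) j = Int.fract (- U W j) := by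
  rcases j with _ | j
  · simp [U_zero]
  · by_cases h : j < n
    · rw [U_mk _ h, U_mk _ h]
    · rw [U_gt _ (by omega), U_gt _ (by omega)]
      simp

lemma fr_mul {a c : ℚ} (j : ℕ) (h : IsZ (a - j * c)) :
    Int.fract (- a) = Int.fract (j * Int.fract (- c)) := by
  rw [fract_congr (b := - (j * Int.fract (- c))) ((h.sub ((IsZ.nat j).mul ⟨⌊-c⌋, rfl⟩)).of_eq
    (by rw [Int.fract]; ring)), neg_neg]

lemma half_cases {c : ℚ} (h : IsZ (2 * c)) : Int.fract (- c) = 0 ∨ Int.fract (- c) = 1 / 2 := by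
  have h1 : IsZ (2 * Int.fract (- c) - 1) :=
    ((h.neg.sub ((IsZ.nat 2).mul ⟨⌊-c⌋, rfl⟩)).sub (IsZ.nat 1)).of_eq (by rw [Int.fract]; push_cast; ring)
  have h2 := Int.fract_nonneg (-c)
  have h3 := Int.fract_lt_one (-c)
  rcases h1.tri (by linarith) (by linarith) with e | e | e
  · left; linarith
  · right; linarith
  · linarith

lemma fr_half {a c : ℚ} (h2 : IsZ (2 * c)) (j : ℕ) (h : IsZ (a - j * c)) :
    Int.fract (- a) = Int.fract (- c) * (1 - (-1) ^ j) / 2 := by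
  rcases Nat.even_or_odd' j with ⟨i, rfl | rfl⟩
  · rw [fract_of_isZ ((h.add ((IsZ.nat i).mul h2)).of_eq (by push_cast; ring))]
    simp
  · rw [fract_congr (b := c) ((h.add ((IsZ.nat i).mul h2)).of_eq (by push_cast; ring))]
    simp [pow_succ]
    ring

lemma isZ_comb {C : Matrix (Fin n) (Fin n) ℤ} {c : Fin n → ℚ} (hc : ∀ k, IsZ (cm C c k))
    (a : Fin n → ℤ) {q : ℚ} (h : q = ∑ k, (a k : ℚ) * cm C c k) : IsZ q :=
  (IsZ.sum fun k _ => IsZ.mul ⟨a k, rfl⟩ (hc k)).of_eq h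

lemma isZ_fr {C : Matrix (Fin n) (Fin n) ℤ} {c : Fin n → ℚ} (hc : ∀ k, IsZ (cm C c k)) (k : Fin n) :
    IsZ (cm C (fun l => Int.fract (- c l)) k) := by
  refine (((hc k).neg).sub (IsZ.sum (s := univ) fun l _ =>
    IsZ.mul ⟨C k l, rfl⟩ ⟨⌊- c l⌋, rfl⟩)).of_eq ?_
  simp only [cm, Int.fract, ← sum_neg_distrib, ← sum_sub_distrib]
  exact sum_congr rfl fun l _ => by ring

lemma floor_two {p u : ℚ} (h : IsZ (2 * p - u)) (h0 : 0 ≤ u) (h1 : u < 1) :
    ((⌊2 * p⌋ : ℤ) : ℚ) = 2 * p - u := by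
  obtain ⟨z, hz⟩ := h
  rw [hz, Int.floor_eq_iff.2 ⟨by linarith, by linarith⟩]

lemma goodA {E : (Fin n → ℚ) → Fin n → ℚ} (hE : ∀ W k, E W k =
    (⌊(k + 2 : ℕ) * fr W 0⌋ - 2 * ⌊(k + 1 : ℕ) * fr W 0⌋ + ⌊(k : ℕ) * fr W 0⌋ : ℤ)) :
    Good (CartanMatrix.A n) Eq E := good_eq fun c hc k => by
  have h1 := chainZ (U c) (n + 1) (U_zero c) (fun i hi => by
    have := hc ⟨i, by omega⟩
    rwa [cm, rowA] at this)
  have hk := k.2
  rw [cm, rowA, U_fr, U_fr, U_fr, fr_mul _ (h1 (k + 1) (by omega)), fr_mul _ (h1 k (by omega)),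
    fr_mul _ (h1 (k + 2) (by omega)), hE, fr_U, zero_add]
  generalize Int.fract (- U c 1) = x
  simp only [Int.fract]
  push_cast
  ring

lemma goodC {E : (Fin n → ℚ) → Fin n → ℚ} (hn : 2 ≤ n)
    (hE : ∀ W k, E W k = 2 * fr W 0 * (-1) ^ (k : ℕ)) : Good (CartanMatrix.C n) Eq E :=
  good_eq fun c hc k => by
    obtain ⟨m, rfl⟩ : ∃ m, n = m + 2 := ⟨n - 2, by omega⟩
    have h1 := chainZ (U c) (m + 2) (U_zero c) (fun i hi => by
      have := hc ⟨i, by omega⟩
      rwa [cm, rowC, if_neg (by simp; omega), one_mul] at this)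
    have h2 := hc ⟨m + 1, by omega⟩
    rw [cm, rowC, if_pos rfl, U_gt c (i := m + 1 + 2) (by omega)] at h2
    have a1 := h1 (m + 1 + 1) le_rfl
    have a2 := h1 (m + 1) (by omega)
    have h3 : IsZ (2 * U c 1) :=
      ((h2.sub (a1.add a1)).add (a2.add a2)).of_eq (by push_cast; ring)
    have hk := k.2
    rw [cm, rowC, U_fr, U_fr, U_fr, fr_half h3 _ (h1 (k + 1) (by omega)),
      fr_half h3 _ (h1 k (by omega)), hE, fr_U]
    split_ifs with h
    · rw [U_gt c (i := k + 2) (by omega)]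
      simp only [neg_zero, Int.fract_zero, zero_add]
      ring
    · rw [fr_half h3 _ (h1 (k + 2) (by omega))]
      simp only [zero_add]
      ring

lemma goodB {E : (Fin n → ℚ) → Fin n → ℚ} (hn : 2 ≤ n) (hE : ∀ W k, E W k =
    2 * fr W (n - 1) * if (k : ℕ) + 1 = n then 1 else if (k : ℕ) + 2 = n then -1 else 0) :
    Good (CartanMatrix.B n) Eq E :=
  good_eq fun c hc k => by
    obtain ⟨m, rfl⟩ : ∃ m, n = m + 2 := ⟨n - 2, by omega⟩
    have h1 := chainZ (U c) (m + 1) (U_zero c) (fun i hi => by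
      have := hc ⟨i, by omega⟩
      rwa [cm, rowB, if_neg (by simp; omega), one_mul] at this)
    have h2 := hc ⟨m + 1, by omega⟩
    rw [cm, rowB, U_gt c (i := m + 1 + 2) (by omega)] at h2
    have h3 := hc ⟨m, by omega⟩
    rw [cm, rowB, if_pos rfl] at h3
    have a1 := h1 (m + 1) le_rfl
    have a2 := h1 m (by omega)
    have h4 : IsZ (U c 1) := (((h2.add h3).sub a1).add a2).of_eq (by push_cast; ring)
    have h5 : ∀ j ≤ m + 1, Int.fract (- U c j) = 0 := fun j hj =>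
      fract_of_isZ (((h1 j hj).add ((IsZ.nat j).mul h4)).of_eq (by ring))
    have hk := k.2
    rw [cm, rowB, U_fr, U_fr, U_fr, hE, fr_U, h5 k (by omega), show m + 2 - 1 + 1 = m + 2 from rfl]
    split_ifs with h h' h'
    · omega
    · rw [h5 _ (by omega), h]
      ring
    · rw [U_gt c (i := k + 2) (by omega), h']
      simp
    · rw [h5 _ (by omega), h5 _ (by omega)]
      ring

lemma goodA' {R : Fin n → Fin n → Prop} {E : (Fin n → ℚ) → Fin n → ℚ}
    (hR : ∀ k l, R k l ↔ l = k ∨ l = k.rev) (hE : ∀ W k, E W k =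
      ∑ m : Fin n with m.rev = m, 2 * fr W m.val * if k = m then 1 else (CartanMatrix.A n k m : ℚ)) :
    Good (CartanMatrix.A n) R E := by
  have hoS : ∀ (z : Fin n → ℚ) k, oS R z k = if k.rev = k then z k else z k + z k.rev := by
    intro z k
    split_ifs with hk
    · exact oS_single (fun l => by rw [hR, hk, or_self]) z
    · rw [oS_set (S := {k, k.rev}) (fun l => by simp [hR]), sum_pair (Ne.symm hk)]
  refine ⟨fun V W h => funext fun k => ?_, fun c hc => ?_⟩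
  · rw [hE, hE]
    refine sum_congr rfl fun m hm => ?_
    rw [fr_mk, fr_mk, h m fun l => by rw [hR, (mem_filter.1 hm).2, or_self]]
  have hint : ∀ k : Fin n, IsZ (c k + c k.rev) := by
    intro k
    have hk := k.2
    obtain ⟨h1, h2⟩ := congA hc ⟨n - 1, by omega⟩ (by simp; omega)
    have h3 := h2 (k + 1) (by omega)
    have h4 := h2 (k.rev + 1) (by have := k.rev.2; omega)
    rw [U_succ] at h3 h4
    refine ((h3.add h4).sub h1).of_eq ?_
    have : (((k.rev : ℕ) + 1 : ℕ) : ℚ) = n - k := by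
      rw [Fin.val_rev, show n - (k + 1) + 1 = n - k by omega, Nat.cast_sub hk.le]
    rw [this]; push_cast; ring
  set x : Fin n → ℚ := fun m => if m.rev = m then Int.fract (- c m) else 0 with hx
  have h0 : ∀ k : Fin n, k.rev ≠ k → x k = 0 ∧ x k.rev = 0 := fun k hk =>
    ⟨if_neg hk, if_neg (by rw [Fin.rev_rev]; exact hk.symm)⟩
  have h1 : ∀ k, cm (CartanMatrix.A n) x k =
      ∑ m : Fin n with m.rev = m, (CartanMatrix.A n k m : ℚ) * fr c m.val := fun k => by
    rw [cm, sum_filter]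
    refine sum_congr rfl fun l _ => ?_
    simp only [hx, fr_mk]
    split_ifs <;> simp
  have h2 : ∀ k, cm (CartanMatrix.A n) x k.rev = cm (CartanMatrix.A n) x k := fun k => by
    rw [h1, h1]
    refine sum_congr rfl fun m hm => ?_
    rw [← A_rev k m, (mem_filter.1 hm).2]
  refine ⟨x, fun k l h => ?_, fun k l h => ?_, fun k => ?_, fun k => ?_⟩
  · rcases (hR k l).1 h with rfl | rfl
    · rfl
    · by_cases hk : k.rev = k
      · rw [hk]
      · rw [(h0 k hk).1, (h0 k hk).2]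
  · rcases (hR k l).1 h with rfl | rfl
    · rfl
    · exact (h2 k).symm
  · rw [hoS, hoS]
    split_ifs with hk
    · exact if_pos hk
    · rw [(h0 k hk).1, (h0 k hk).2, fract_of_isZ (hint k), add_zero]
  · rw [hoS, h2, h1, hE]
    split_ifs with hk
    · refine sum_congr rfl fun m hm => ?_
      have : k = m := by
        have a1 := congrArg Fin.val hk
        have a2 := congrArg Fin.val (mem_filter.1 hm).2
        have := k.2
        have := m.2
        simp only [Fin.val_rev] at a1 a2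
        exact Fin.ext (by omega)
      subst this
      simp [CartanMatrix.A]
    · rw [← sum_add_distrib]
      refine sum_congr rfl fun m hm => ?_
      rw [if_neg fun e : k = m => hk (e ▸ (mem_filter.1 hm).2)]
      ring

section D

variable {m : ℕ}

lemma goodD {E : (Fin (m + 4) → ℚ) → Fin (m + 4) → ℚ} (hE : ∀ W k, E W k =
    if (k : ℕ) + 3 < m + 4 then 2 * fr W 0 * (-1) ^ (k : ℕ)
    else if (k : ℕ) + 3 = m + 4 then
      2 * fr W 0 * min ((-1) ^ (k : ℕ)) 0 - (⌊2 * fr W (k + 1)⌋ * ⌊2 * fr W (k + 2)⌋ : ℤ)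
    else (⌊2 * fr W k⌋ : ℤ)) : Good (CartanMatrix.D (m + 4)) Eq E :=
  good_eq fun c hc k => by
    obtain ⟨a1, a2, -, -, -⟩ := Dint hc
    have e0 : fr c 0 = Int.fract (- c (na m)) := fr_mk c (na m)
    have hu : ∀ j ≤ m + 2, Int.fract (- U c j) = fr c 0 * (1 - (-1) ^ j) / 2 := fun j hj => by
      rw [fr_half a1 j (a2 j hj), e0]
    have hend : ∀ l : Fin (m + 4), m + 1 < l → cm (CartanMatrix.D (m + 4))
        (fun l => Int.fract (- c l)) l = 2 * fr c l - Int.fract (- U c (m + 2)) := fun l hl => by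
      rw [cm, rowD3 _ _ (m + 1) (by omega) hl, U_fr, U_fr, fr_U]
    have hfl : ∀ l : Fin (m + 4), m + 1 < l →
        ((⌊2 * fr c l⌋ : ℤ) : ℚ) = 2 * fr c l - Int.fract (- U c (m + 2)) := fun l hl =>
      floor_two (hend l hl ▸ isZ_fr hc l) (Int.fract_nonneg _) (Int.fract_lt_one _)
    have hk := k.2
    rw [hE]
    split_ifs with h h'
    · rw [cm, rowD1 _ _ h, U_fr, U_fr, U_fr, hu _ (by omega), hu _ (by omega), hu _ (by omega)]
      ring
    · have hz := isZ_fr hc k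
      have hk' : (k : ℕ) = m + 1 := by omega
      have hp := hfl (nb m) (by simp [nb])
      have hq := hfl (nc m) (by simp [nc])
      have b1 : ∀ j, ⌊2 * fr c j⌋ = 0 ∨ ⌊2 * fr c j⌋ = 1 := fun j => by
        have c1 : 0 ≤ ⌊2 * fr c j⌋ := Int.floor_nonneg.2 (by
          rw [fr_U]; linarith [Int.fract_nonneg (- U c (j + 1))])
        have c2 : ⌊2 * fr c j⌋ < 2 := Int.floor_lt.2 (by
          rw [fr_U]; push_cast; linarith [Int.fract_lt_one (- U c (j + 1))])
        omega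
      rw [cm, rowD2 _ _ h', U_fr, U_fr, U_fr, U_fr, hk', ← fr_U c (m + 2), ← fr_U c (m + 3),
        hu (m + 1) (by omega)] at hz ⊢
      change ((⌊2 * fr c (m + 2)⌋ : ℤ) : ℚ) = 2 * fr c (m + 2) - _ at hp
      change ((⌊2 * fr c (m + 3)⌋ : ℤ) : ℚ) = 2 * fr c (m + 3) - _ at hq
      rw [hu (m + 2) le_rfl, pow_succ _ (m + 1)] at hp hq hz ⊢
      have hx := half_cases a1
      rw [← e0] at hx
      have hodd : ∀ {v : ℚ}, IsZ v → v = 1 / 2 ∨ v = - (1 / 2) ∨ v = - (3 / 2) → False := by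
        rintro v ⟨z, rfl⟩ hv
        have : (2 * z : ℤ) = 1 ∨ (2 * z : ℤ) = -1 ∨ (2 * z : ℤ) = -3 := by
          rcases hv with e | e | e
          · left; exact_mod_cast (by linarith : (2 * z : ℚ) = 1)
          · right; left; exact_mod_cast (by linarith : (2 * z : ℚ) = -1)
          · right; right; exact_mod_cast (by linarith : (2 * z : ℚ) = -3)
        omega
      rcases neg_one_pow_eq_or ℚ (m + 1) with s | s <;> rcases hx with x | x <;>
        rcases b1 (m + 2) with p | p <;> rcases b1 (m + 3) with q | q <;>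
        rw [p] at hp ⊢ <;> rw [q] at hq ⊢ <;> rw [s, x] at hp hq hz ⊢ <;> push_cast at hp hq ⊢ <;>
        first
          | (norm_num; linarith)
          | exact (hodd hz (Or.inl (by linarith))).elim
          | exact (hodd hz (Or.inr (Or.inl (by linarith)))).elim
          | exact (hodd hz (Or.inr (Or.inr (by linarith)))).elim
    · rw [hend k (by omega), hfl k (by omega)]

lemma goodD' {R : Fin (m + 4) → Fin (m + 4) → Prop} {E : (Fin (m + 4) → ℚ) → Fin (m + 4) → ℚ}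
    (S : Finset (Fin (m + 4))) (h2 : 2 ≤ S.card) (hS : ∀ k ∈ S, Ends (m + 4) k)
    (hR : ∀ k l, R k l ↔ l = k ∨ (k ∈ S ∧ l ∈ S)) (hE : ∀ W k, E W k =
      (-1) ^ min (k : ℕ) (m + 4 - 2) *
        ∑ j : Fin (m + 4) with j ∉ S ∧ (j.val = 0 ∨ Ends (m + 4) j), 2 * fr W j.val) :
    Good (CartanMatrix.D (m + 4)) R E := by
  have hab := @na_ne_nb m
  have hac := @na_ne_nc m
  have hbc := @nb_ne_nc m
  have hin : ∀ k ∈ S, ∀ z, oS R z k = ∑ l ∈ S, z l := fun k hk =>
    oS_set fun l => by rw [hR]; constructor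
                       · rintro (rfl | h)
                         · exact hk
                         · exact h.2
                       · exact fun hl => Or.inr ⟨hk, hl⟩
  have hout : ∀ k ∉ S, ∀ z, oS R z k = z k := fun k hk =>
    oS_single fun l => by rw [hR]; simp [hk]
  refine ⟨fun V W h => funext fun k => ?_, fun c hc => ?_⟩
  · rw [hE, hE]
    congr 1
    refine sum_congr rfl fun j hj => ?_
    rw [fr_mk, fr_mk, h j fun l => by rw [hR]; simp [(mem_filter.1 hj).2.1]]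
  obtain ⟨a1, a2, a3, a4, a5⟩ := Dint hc
  set σ := Int.fract (- ∑ l ∈ S, c l) with hσ
  have hc0 : (S.card : ℚ) ≠ 0 := by
    have : 0 < S.card := by omega
    positivity
  set x : Fin (m + 4) → ℚ := fun k => if k ∈ S then σ / S.card else Int.fract (- c k) with hx
  have hxS : ∀ k ∈ S, x k = σ / S.card := fun k hk => if_pos hk
  have hxo : ∀ k ∉ S, x k = Int.fract (- c k) := fun k hk => if_neg hk
  have hrow : ∀ k, Ends (m + 4) k → cm (CartanMatrix.D (m + 4)) x k = 2 * x k - U x (m + 2) := by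
    intro k hk
    rcases (ends_iff k).1 hk with rfl | rfl | ⟨rfl, rfl⟩
    · rw [cm, rowD3 _ _ (m + 1) (by omega) (by simp [nb]), U_succ]
    · rw [cm, rowD3 _ _ (m + 1) (by omega) (by simp [nc]), U_succ]
    · rw [cm, rowD1 _ _ (by simp [na]), U_succ]
      simp [na, U_zero]
  refine ⟨x, fun k l h => ?_, fun k l h => ?_, fun k => ?_, fun k => ?_⟩
  · rcases (hR k l).1 h with rfl | h
    · rfl
    · rw [hxS k h.1, hxS l h.2]
  · rcases (hR k l).1 h with rfl | h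
    · rfl
    · rw [hrow k (hS k h.1), hrow l (hS l h.2), hxS k h.1, hxS l h.2]
  · by_cases hk : k ∈ S
    · rw [hin k hk, hin k hk, sum_congr rfl hxS, sum_const, nsmul_eq_mul]
      field_simp
      rfl
    · rw [hout k hk, hout k hk, hxo k hk]
  have hSsum : ∑ l ∈ S, cm (CartanMatrix.D (m + 4)) x l = 2 * σ - S.card * U x (m + 2) := by
    rw [sum_congr rfl fun l hl => (hrow l (hS l hl)).trans (by rw [hxS l hl]), sum_const,
      nsmul_eq_mul]
    field_simp
  have hcases : S = {nb m, nc m} ∨ (m = 0 ∧ (S = {na m, nb m} ∨ S = {na m, nc m} ∨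
      S = {na m, nb m, nc m})) := by
    by_cases hm : m = 0
    · subst hm
      have : ∀ S : Finset (Fin 4), 2 ≤ S.card → 1 ∉ S →
          S = {2, 3} ∨ S = {0, 2} ∨ S = {0, 3} ∨ S = {0, 2, 3} := by decide
      have := this S h2 (fun h1 => by have := hS 1 h1; simp [Ends] at this)
      simpa [na, nb, nc] using this
    · left
      refine eq_of_subset_of_card_le (fun k hk => ?_) (by rw [card_pair hbc]; exact h2)
      have := (ends_iff k).mp (hS k hk)
      simp only [mem_insert, mem_singleton]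
      tauto
  have hk := k.2
  rw [hE]
  rcases hcases with hS' | ⟨rfl, hS'⟩
  · have hmem : ∀ j : Fin (m + 4), j ∈ S ↔ m + 1 < j := fun j => by
      have := j.2
      simp only [hS', mem_insert, mem_singleton, nb, nc, Fin.ext_iff]
      omega
    have e1 : ∑ j : Fin (m + 4) with j ∉ S ∧ (j.val = 0 ∨ Ends (m + 4) j), 2 * fr c j.val =
        2 * Int.fract (- c (na m)) := by
      rw [sum_eq_single (na m), fr_mk]
      · intro j hj hne
        have := (mem_filter.1 hj).2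
        simp only [hmem, Ends, na, Ne, Fin.ext_iff] at this hne
        omega
      · intro h
        exact absurd (mem_filter.2 ⟨mem_univ _, by simp [hmem, na], Or.inl rfl⟩) h
    have hu : ∀ j ≤ m + 2, U x j = Int.fract (- c (na m)) * (1 - (-1) ^ j) / 2 := by
      intro j hj
      rw [← fr_half a1 j (a2 j hj)]
      rcases j with _ | j
      · simp [U_zero]
      · rw [U_mk x (by omega), U_mk c (by omega), hxo _ (by simp [hmem]; omega)]
    have e2 : σ = Int.fract (- c (na m)) * (1 - (-1) ^ (m + 3)) / 2 := by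
      rw [hσ, hS', sum_pair hbc]
      exact fr_half a1 (m + 3) (a3.of_eq (by push_cast; ring))
    have e3 : (S.card : ℚ) = 2 := by rw [hS', card_pair hbc]; rfl
    rw [e1]
    by_cases hkS : k ∈ S
    · rw [hin k hkS, hSsum, hu _ le_rfl, e2, e3,
        min_eq_right (by have := (hmem k).1 hkS; omega), show m + 4 - 2 = m + 2 from rfl]
      ring
    · have hk' : (k : ℕ) ≤ m + 1 := not_lt.1 fun h => hkS ((hmem k).2 h)
      rw [hout k hkS, min_eq_left (by omega)]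
      rcases hk'.eq_or_lt with h | h
      · have b1 : U x (m + 1 + 2) = x (nb m) := U_succ x (nb m)
        have b2 : U x (m + 1 + 3) = x (nc m) := U_succ x (nc m)
        rw [cm, rowD2 _ _ (by omega), h, b1, b2, hxS _ (by simp [hS']), hxS _ (by simp [hS']),
          hu _ le_rfl, hu _ (by omega), e2, e3]
        ring
      · rw [cm, rowD1 _ _ (by omega), hu _ (by omega), hu _ (by omega), hu _ (by omega)]
        ring
  · have n1 : (1 : Fin 4) ∉ S := fun h1 => by have := hS 1 h1; simp [Ends] at this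
    have u2 : U x (0 + 2) = 0 := by
      have b := a2 2 le_rfl
      rw [U_mk c (by omega)] at b
      rw [U_mk x (by omega)]
      exact (hxo 1 n1).trans (fract_of_isZ ((b.add a1).of_eq (by push_cast; ring_nf)))
    have hsum : x (na 0) + x (nb 0) + x (nc 0) =
        ∑ j : Fin (0 + 4) with j ∉ S ∧ (j.val = 0 ∨ Ends (0 + 4) j), 2 * fr c j.val ∧
        2 * σ = ∑ j : Fin (0 + 4) with j ∉ S ∧ (j.val = 0 ∨ Ends (0 + 4) j), 2 * fr c j.val ∧
        ∀ k ∉ S, Ends (0 + 4) k →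
          2 * x k = ∑ j : Fin (0 + 4) with j ∉ S ∧ (j.val = 0 ∨ Ends (0 + 4) j), 2 * fr c j.val := by
      have key : ∀ u v w : Fin (0 + 4), S = {u, v} → u ≠ v → w ∉ S → IsZ (c u + c v - c w) →
          (∀ j : Fin (0 + 4), (j ∉ S ∧ ((j : ℕ) = 0 ∨ Ends (0 + 4) j)) ↔ j = w) →
          x u + x v + x w = ∑ j : Fin (0 + 4) with j ∉ S ∧ (j.val = 0 ∨ Ends (0 + 4) j), 2 * fr c j.val ∧
          2 * σ = ∑ j : Fin (0 + 4) with j ∉ S ∧ (j.val = 0 ∨ Ends (0 + 4) j), 2 * fr c j.val ∧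
          ∀ k ∉ S, Ends (0 + 4) k →
            2 * x k = ∑ j : Fin (0 + 4) with j ∉ S ∧ (j.val = 0 ∨ Ends (0 + 4) j), 2 * fr c j.val := by
        intro u v w e huv hw hz hj
        have b1 : σ = Int.fract (- c w) := by
          rw [hσ, e, sum_pair huv]
          exact fract_congr hz
        have b2 : (S.card : ℚ) = 2 := by rw [e, card_pair huv]; rfl
        rw [filter_congr fun j _ => hj j, filter_eq', if_pos (mem_univ _), sum_singleton, fr_mk]
        refine ⟨?_, by rw [b1], fun k hk hk' => ?_⟩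
        · rw [hxS u (by simp [e]), hxS v (by simp [e]), hxo w hw, b1, b2]
          ring
        · rw [(hj k).1 ⟨hk, Or.inr hk'⟩, hxo w hw]
      rcases hS' with e | e | e
      · exact key _ _ (nc 0) e hab (by rw [e]; decide) (((a3.sub a5).add a1).of_eq (by ring))
          (by rw [e]; unfold Ends; decide)
      · have := key _ _ (nb 0) e hac (by rw [e]; decide) (((a3.sub a4).add a1).of_eq (by ring))
          (by rw [e]; unfold Ends; decide)
        exact ⟨by linarith [this.1], this.2⟩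
      · have b0 : ∀ j : Fin (0 + 4), ¬ (j ∉ S ∧ ((j : ℕ) = 0 ∨ Ends (0 + 4) j)) := by
          rw [e]; unfold Ends; decide
        have b1 : σ = 0 := by
          rw [hσ, e, sum_insert (by simp [hab, hac]), sum_pair hbc]
          exact fract_of_isZ (((a3.add a1).add a1).of_eq (by push_cast; ring))
        rw [filter_false_of_mem fun j _ => b0 j, sum_empty, hxS _ (by simp [e]),
          hxS _ (by simp [e]), hxS _ (by simp [e]), b1]
        exact ⟨by simp, by simp, fun k hk hk' => absurd ⟨hk, Or.inr hk'⟩ (b0 k)⟩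
    have hsg : ∀ k : Fin (0 + 4), Ends (0 + 4) k → (-1 : ℚ) ^ min (k : ℕ) (0 + 4 - 2) = 1 := by
      intro k hk
      rcases (ends_iff k).1 hk with rfl | rfl | ⟨-, rfl⟩ <;> simp [na, nb, nc]
    by_cases hkS : k ∈ S
    · rw [hin k hkS, hSsum, u2, hsg k (hS k hkS), ← hsum.2.1]
      ring
    rw [hout k hkS]
    by_cases hke : Ends (0 + 4) k
    · rw [hrow k hke, u2, hsg k hke, ← hsum.2.2 k hkS hke]
      ring
    · have hk1 : (k : ℕ) = 1 := by
        simp only [Ends, true_and, not_or] at hke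
        omega
      have b0 : U x 1 = x (na 0) := U_succ x (na 0)
      have b1 : U x (1 + 2) = x (nb 0) := U_succ x (nb 0)
      have b2 : U x (1 + 3) = x (nc 0) := U_succ x (nc 0)
      rw [cm, rowD2 _ _ (by omega), hk1, b0, b1, b2, show 1 + 1 = 0 + 2 from rfl, u2, ← hsum.1]
      norm_num
      ring

end D

lemma goodE8 (R : Fin 8 → Fin 8 → Prop) : Good CartanMatrix.E₈ R 0 :=
  good_zero fun c hc _ => IsZ.sum fun l _ => by
    have h0 : IsZ (c 0) :=
      isZ_comb hc ![4, 5, 7, 10, 8, 6, 4, 2] (by simp [cm, CartanMatrix.E₈, Fin.sum_univ_succ]; ring)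
    have h1 : IsZ (c 1) :=
      isZ_comb hc ![5, 8, 10, 15, 12, 9, 6, 3] (by simp [cm, CartanMatrix.E₈, Fin.sum_univ_succ]; ring)
    have h2 : IsZ (c 2) :=
      isZ_comb hc ![7, 10, 14, 20, 16, 12, 8, 4] (by simp [cm, CartanMatrix.E₈, Fin.sum_univ_succ]; ring)
    have h3 : IsZ (c 3) :=
      isZ_comb hc ![10, 15, 20, 30, 24, 18, 12, 6] (by simp [cm, CartanMatrix.E₈, Fin.sum_univ_succ]; ring)
    have h4 : IsZ (c 4) :=
      isZ_comb hc ![8, 12, 16, 24, 20, 15, 10, 5] (by simp [cm, CartanMatrix.E₈, Fin.sum_univ_succ]; ring)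
    have h5 : IsZ (c 5) :=
      isZ_comb hc ![6, 9, 12, 18, 15, 12, 8, 4] (by simp [cm, CartanMatrix.E₈, Fin.sum_univ_succ]; ring)
    have h6 : IsZ (c 6) :=
      isZ_comb hc ![4, 6, 8, 12, 10, 8, 6, 3] (by simp [cm, CartanMatrix.E₈, Fin.sum_univ_succ]; ring)
    have h7 : IsZ (c 7) :=
      isZ_comb hc ![2, 3, 4, 6, 5, 4, 3, 2] (by simp [cm, CartanMatrix.E₈, Fin.sum_univ_succ]; ring)
    fin_cases l <;> assumption

lemma goodF4 (R : Fin 4 → Fin 4 → Prop) : Good CartanMatrix.F₄ R 0 :=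
  good_zero fun c hc _ => IsZ.sum fun l _ => by
    have h0 : IsZ (c 0) :=
      isZ_comb hc ![2, 3, 4, 2] (by simp [cm, CartanMatrix.F₄, Fin.sum_univ_succ]; ring)
    have h1 : IsZ (c 1) :=
      isZ_comb hc ![3, 6, 8, 4] (by simp [cm, CartanMatrix.F₄, Fin.sum_univ_succ]; ring)
    have h2 : IsZ (c 2) :=
      isZ_comb hc ![2, 4, 6, 3] (by simp [cm, CartanMatrix.F₄, Fin.sum_univ_succ]; ring)
    have h3 : IsZ (c 3) :=
      isZ_comb hc ![1, 2, 3, 2] (by simp [cm, CartanMatrix.F₄, Fin.sum_univ_succ]; ring)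
    fin_cases l <;> assumption

lemma goodG2 (R : Fin 2 → Fin 2 → Prop) : Good CartanMatrix.G₂ R 0 :=
  good_zero fun c hc _ => IsZ.sum fun l _ => by
    have h0 : IsZ (c 0) :=
      isZ_comb hc ![2, 3] (by simp [cm, CartanMatrix.G₂, Fin.sum_univ_succ]; ring)
    have h1 : IsZ (c 1) :=
      isZ_comb hc ![1, 2] (by simp [cm, CartanMatrix.G₂, Fin.sum_univ_succ]; ring)
    fin_cases l <;> assumption

lemma goodE7 {E : (Fin 7 → ℚ) → Fin 7 → ℚ}
    (hE : ∀ W k, E W k = 2 * fr W 6 * [0, 1, 0, -1, 1, -1, 1].getD k 0) :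
    Good CartanMatrix.E₇ Eq E := good_eq fun c hc k => by
  have h0 : Int.fract (- c 0) = 0 := fract_of_isZ
    (isZ_comb hc ![2, 2, 3, 4, 3, 2, 1] (by simp [cm, CartanMatrix.E₇, Fin.sum_univ_succ]; ring))
  have h1 : Int.fract (- c 1) = Int.fract (- c 6) := fract_congr
    (isZ_comb hc ![1, 2, 2, 3, 2, 1, 0] (by simp [cm, CartanMatrix.E₇, Fin.sum_univ_succ]; ring))
  have h2 : Int.fract (- c 2) = 0 := fract_of_isZ
    (isZ_comb hc ![3, 4, 6, 8, 6, 4, 2] (by simp [cm, CartanMatrix.E₇, Fin.sum_univ_succ]; ring))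
  have h3 : Int.fract (- c 3) = 0 := fract_of_isZ
    (isZ_comb hc ![4, 6, 8, 12, 9, 6, 3] (by simp [cm, CartanMatrix.E₇, Fin.sum_univ_succ]; ring))
  have h4 : Int.fract (- c 4) = Int.fract (- c 6) := fract_congr
    (isZ_comb hc ![2, 3, 4, 6, 5, 3, 1] (by simp [cm, CartanMatrix.E₇, Fin.sum_univ_succ]; ring))
  have h5 : Int.fract (- c 5) = 0 := fract_of_isZ
    (isZ_comb hc ![2, 3, 4, 6, 5, 4, 2] (by simp [cm, CartanMatrix.E₇, Fin.sum_univ_succ]; ring))
  have e : fr c 6 = Int.fract (- c 6) := fr_mk c 6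
  rw [hE, e]
  fin_cases k <;> simp [cm, CartanMatrix.E₇, Fin.sum_univ_succ, h0, h1, h2, h3, h4, h5] <;> ring

lemma goodE6 {E : (Fin 6 → ℚ) → Fin 6 → ℚ} (hE : ∀ W k, E W k =
    if fr W 0 = 1 / 3 then [0, 0, 1, -1, 0, 1].getD k 0
    else if fr W 0 = 2 / 3 then [1, 0, 0, -1, 1, 0].getD k 0 else 0) :
    Good CartanMatrix.E₆ Eq E := good_eq fun c hc k => by
  have h1 : Int.fract (- c 1) = 0 := fract_of_isZ
    (isZ_comb hc ![1, 2, 2, 3, 2, 1] (by simp [cm, CartanMatrix.E₆, Fin.sum_univ_succ]; ring))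
  have h2 := fr_mul (a := c 2) (c := c 0) 2
    (isZ_comb hc ![-1, 0, 0, 0, 0, 0] (by simp [cm, CartanMatrix.E₆, Fin.sum_univ_succ]; ring))
  have h3 : Int.fract (- c 3) = 0 := fract_of_isZ
    (isZ_comb hc ![2, 3, 4, 6, 4, 2] (by simp [cm, CartanMatrix.E₆, Fin.sum_univ_succ]; ring))
  have h4 : Int.fract (- c 4) = Int.fract (- c 0) := fract_congr
    (isZ_comb hc ![0, 1, 1, 2, 2, 1] (by simp [cm, CartanMatrix.E₆, Fin.sum_univ_succ]; ring))
  have h5 := fr_mul (a := c 5) (c := c 0) 2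
    (isZ_comb hc ![-2, -1, -2, -2, -1, 0] (by simp [cm, CartanMatrix.E₆, Fin.sum_univ_succ]; ring))
  have h0 : IsZ (3 * c 0) :=
    isZ_comb hc ![4, 3, 5, 6, 4, 2] (by simp [cm, CartanMatrix.E₆, Fin.sum_univ_succ]; ring)
  have e : fr c 0 = Int.fract (- c 0) := fr_mk c 0
  have h6 : IsZ (3 * Int.fract (- c 0) - 1) :=
    ((h0.neg.sub ((IsZ.nat 3).mul ⟨⌊- c 0⌋, rfl⟩)).sub (IsZ.nat 1)).of_eq
      (by rw [Int.fract]; push_cast; ring)
  have h7 : Int.fract (- c 0) = 0 ∨ Int.fract (- c 0) = 1 / 3 ∨ Int.fract (- c 0) = 2 / 3 := by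
    rcases h6.tri (by linarith [Int.fract_nonneg (- c 0)]) (by linarith [Int.fract_lt_one (- c 0)])
      with e | e | e
    · left; linarith
    · right; left; linarith
    · right; right; linarith
  have t1 : Int.fract (((2 : ℕ) : ℚ) * (1 / 3)) = 2 / 3 :=
    Int.fract_eq_iff.2 ⟨by norm_num, by norm_num, 0, by norm_num⟩
  have t2 : Int.fract (((2 : ℕ) : ℚ) * (2 / 3)) = 1 / 3 :=
    Int.fract_eq_iff.2 ⟨by norm_num, by norm_num, 1, by norm_num⟩
  rw [hE, e]
  rcases h7 with x | x | x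
  · rw [x, mul_zero, Int.fract_zero] at h2 h5
    rw [x] at h4
    rw [x, if_neg (by norm_num), if_neg (by norm_num)]
    fin_cases k <;> simp [cm, CartanMatrix.E₆, Fin.sum_univ_succ, h1, h2, h3, h4, h5, x]
  · rw [x, t1] at h2 h5
    rw [x] at h4
    fin_cases k <;> simp [cm, CartanMatrix.E₆, Fin.sum_univ_succ, h1, h2, h3, h4, h5, x] <;> norm_num
  · rw [x, t2] at h2 h5
    rw [x] at h4
    rw [x, if_neg (by norm_num), if_pos rfl]
    fin_cases k <;> simp [cm, CartanMatrix.E₆, Fin.sum_univ_succ, h1, h2, h3, h4, h5, x] <;> norm_num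

lemma goodE6' {R : Fin 6 → Fin 6 → Prop}
    (hR : ∀ k l : Fin 6, R k l ↔ l = k ∨ (l : ℕ) = [5, 1, 4, 3, 2, 0].getD k 0) :
    Good CartanMatrix.E₆ R 0 := good_zero fun c hc k => by
  have h0 : IsZ (c 0 + c 5) :=
    isZ_comb hc ![2, 2, 3, 4, 3, 2] (by simp [cm, CartanMatrix.E₆, Fin.sum_univ_succ]; ring)
  have h2 : IsZ (c 2 + c 4) :=
    isZ_comb hc ![3, 4, 6, 8, 6, 3] (by simp [cm, CartanMatrix.E₆, Fin.sum_univ_succ]; ring)
  have h1 : IsZ (c 1) :=
    isZ_comb hc ![1, 2, 2, 3, 2, 1] (by simp [cm, CartanMatrix.E₆, Fin.sum_univ_succ]; ring)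
  have h3 : IsZ (c 3) :=
    isZ_comb hc ![2, 3, 4, 6, 4, 2] (by simp [cm, CartanMatrix.E₆, Fin.sum_univ_succ]; ring)
  have o0 : oS R c 0 = c 0 + c 5 := by
    rw [oS_set (S := {0, 5}) (fun l => by rw [hR]; revert l; decide), sum_pair (by decide)]
  have o5 : oS R c 5 = c 0 + c 5 := by
    rw [oS_set (S := {0, 5}) (fun l => by rw [hR]; revert l; decide), sum_pair (by decide)]
  have o2 : oS R c 2 = c 2 + c 4 := by
    rw [oS_set (S := {2, 4}) (fun l => by rw [hR]; revert l; decide), sum_pair (by decide)]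
  have o4 : oS R c 4 = c 2 + c 4 := by
    rw [oS_set (S := {2, 4}) (fun l => by rw [hR]; revert l; decide), sum_pair (by decide)]
  have o1 : oS R c 1 = c 1 := oS_single (fun l => by rw [hR]; revert l; decide) c
  have o3 : oS R c 3 = c 3 := oS_single (fun l => by rw [hR]; revert l; decide) c
  fin_cases k
  · exact h0.of_eq o0
  · exact h1.of_eq o1
  · exact h2.of_eq o2
  · exact h3.of_eq o3
  · exact h2.of_eq o4
  · exact h0.of_eq o5

theorem shift_good {C : Matrix (Fin n) (Fin n) ℤ} {R : Fin n → Fin n → Prop}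
    {E : (Fin n → ℚ) → Fin n → ℚ} (h : Shift n C R E) : Good C R E := by
  rcases h with ⟨rfl, rfl, h⟩ | ⟨rfl, hR, h⟩ | ⟨rfl, hn, rfl, h⟩ | ⟨rfl, hn, rfl, h⟩ |
    ⟨rfl, hn, rfl, h⟩ | ⟨rfl, hn, S, h2, hS, hR, h⟩ | ⟨rfl, hC, rfl, h⟩ | ⟨rfl, hC, rfl, h⟩ |
    ⟨⟨rfl, hC, hR⟩ | ⟨rfl, hC⟩ | ⟨rfl, hC⟩ | ⟨rfl, hC⟩, rfl⟩
  · exact goodA h
  · exact goodA' hR h
  · exact goodB hn h
  · exact goodC hn h
  · obtain ⟨m, rfl⟩ : ∃ m, n = m + 4 := ⟨n - 4, by omega⟩
    exact goodD h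
  · obtain ⟨m, rfl⟩ : ∃ m, n = m + 4 := ⟨n - 4, by omega⟩
    exact goodD' S h2 hS hR h
  · exact eq_of_heq hC ▸ goodE6 h
  · exact eq_of_heq hC ▸ goodE7 h
  · exact eq_of_heq hC ▸ goodE6' hR
  · exact eq_of_heq hC ▸ goodE8 R
  · exact eq_of_heq hC ▸ goodF4 R
  · exact eq_of_heq hC ▸ goodG2 R

theorem lst_shift {C : Matrix (Fin n) (Fin n) ℤ} {R : Fin n → Fin n → Prop} (h : Lst n C R) :
    ∃ E, Shift n C R E := by
  unfold Shift
  rcases h with h | h | h | ⟨h | h, h'⟩ | ⟨h, hn, S, h2, hS, hR⟩ | ⟨h, hC, hR | hR⟩ | h | h | h | h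
  · exact ⟨_, .inl ⟨h.1, h.2, fun _ _ => rfl⟩⟩
  · exact ⟨_, .inr (.inl ⟨h.1, h.2, fun _ _ => rfl⟩)⟩
  · exact ⟨_, .inr (.inr (.inr (.inr (.inl ⟨h.1, h.2.1, h.2.2, fun _ _ => rfl⟩))))⟩
  · exact ⟨_, .inr (.inr (.inl ⟨h, h'.1, h'.2, fun _ _ => rfl⟩))⟩
  · exact ⟨_, .inr (.inr (.inr (.inl ⟨h, h'.1, h'.2, fun _ _ => rfl⟩)))⟩
  · exact ⟨_, .inr (.inr (.inr (.inr (.inr (.inl ⟨h, hn, S, h2, hS, hR, fun _ _ => rfl⟩)))))⟩
  · exact ⟨_, .inr (.inr (.inr (.inr (.inr (.inr (.inl ⟨h, hC, hR, fun _ _ => rfl⟩))))))⟩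
  · exact ⟨0, .inr (.inr (.inr (.inr (.inr (.inr (.inr (.inr ⟨.inl ⟨h, hC, hR⟩, rfl⟩)))))))⟩
  · exact ⟨_, .inr (.inr (.inr (.inr (.inr (.inr (.inr (.inl
      ⟨h.1, h.2.1, h.2.2, fun _ _ => rfl⟩)))))))⟩
  · exact ⟨0, .inr (.inr (.inr (.inr (.inr (.inr (.inr (.inr ⟨.inr (.inl h), rfl⟩)))))))⟩
  · exact ⟨0, .inr (.inr (.inr (.inr (.inr (.inr (.inr (.inr ⟨.inr (.inr (.inl h)), rfl⟩)))))))⟩
  · exact ⟨0, .inr (.inr (.inr (.inr (.inr (.inr (.inr (.inr ⟨.inr (.inr (.inr h)), rfl⟩)))))))⟩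

end Pool.Agent.P.MP_7d29e8_ag.All
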