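import Pool.Agent.P.MP_7d29e8_ag.Defs

set_option autoImplicit false

namespace Pool.Agent.P.MP_7d29e8_ag

open scoped Classical
open Finset

variable {ι M N : Type*} [AddCommGroup M] [Module ℚ M] [AddCommGroup N] [Module ℚ N]
  {P : RootPairing ι ℚ M N}

lemma pair_act (g : P.Aut) (m : M) (x : N) :
    P.toLinearMap m (g.coweightMap x) = P.toLinearMap (g.weightMap m) x := by
  have h := RootPairing.Hom.weight_coweight_transpose_apply P P x g.toHom
  have := congrArg (fun f => f m) h
  simpa using this.symm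

lemma root_act (g : P.Aut) (i : ι) (x : N) :
    P.root' i (g.coweightMap x) = P.root' (g.indexEquiv i) x := by
  have h := pair_act g (P.root i) x
  rw [RootPairing.Hom.root_weightMap_apply] at h
  exact h

lemma coroot_act (g : P.Aut) (i : ι) :
    g.coweightMap (P.coroot i) = P.coroot (g.indexEquiv.symm i) :=
  RootPairing.Hom.coroot_coweightMap_apply P P i g.toHom

lemma cw_mul (g h : P.Aut) (x : N) :
    (g * h).coweightMap x = h.coweightMap (g.coweightMap x) := rfl

lemma idx_mul (g h : P.Aut) (i : ι) :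
    (g * h).indexEquiv i = g.indexEquiv (h.indexEquiv i) := rfl

lemma idx_one (i : ι) : (1 : P.Aut).indexEquiv i = i := rfl

lemma idx_inv (g : P.Aut) (i : ι) : (g⁻¹).indexEquiv i = g.indexEquiv.symm i := rfl

section Avg

variable (Γ : Subgroup P.Aut) [Finite Γ]

lemma avg_eq (x : N) :
    letI := Fintype.ofFinite Γ
    avg Γ x = (Nat.card Γ : ℚ)⁻¹ • ∑ g : Γ, (g : P.Aut).coweightMap x := by
  letI := Fintype.ofFinite Γ
  rw [avg, finsum_eq_sum_of_fintype]

/-- the average as a linear map -/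
noncomputable def avgL : N →ₗ[ℚ] N :=
  letI := Fintype.ofFinite Γ
  (Nat.card Γ : ℚ)⁻¹ • ∑ g : Γ, (g : P.Aut).coweightMap

lemma avgL_apply (x : N) : avgL Γ x = avg Γ x := by
  rw [avg_eq]; simp [avgL, LinearMap.sum_apply]

lemma avg_add (x y : N) : avg Γ (x + y) = avg Γ x + avg Γ y := by
  simp only [← avgL_apply, map_add]

lemma avg_sub (x y : N) : avg Γ (x - y) = avg Γ x - avg Γ y := by
  simp only [← avgL_apply, map_sub]

lemma avg_act {h : P.Aut} (hh : h ∈ Γ) (x : N) : avg Γ (h.coweightMap x) = avg Γ x := by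
  letI := Fintype.ofFinite Γ
  rw [avg_eq, avg_eq]
  congr 1
  exact Fintype.sum_equiv (Equiv.mulLeft (⟨h, hh⟩ : Γ)) _ _ (fun g => by
    simp [cw_mul])

lemma act_avg {h : P.Aut} (hh : h ∈ Γ) (x : N) : h.coweightMap (avg Γ x) = avg Γ x := by
  letI := Fintype.ofFinite Γ
  rw [avg_eq, map_smul, map_sum]
  congr 1
  exact Fintype.sum_equiv (Equiv.mulRight (⟨h, hh⟩ : Γ)) _ _ (fun g => by
    simp [cw_mul])

lemma card_ne : (Nat.card Γ : ℚ) ≠ 0 := by
  have : 0 < Nat.card Γ := Nat.card_pos
  positivity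

lemma map_avg (f : N →ₗ[ℚ] ℚ) (x : N) (c : ℚ) (h : ∀ g ∈ Γ, f (g.coweightMap x) = c) :
    f (avg Γ x) = c := by
  letI := Fintype.ofFinite Γ
  rw [avg_eq, map_smul, map_sum]
  rw [Finset.sum_congr rfl (fun g _ => h g.1 g.2)]
  have := card_ne Γ
  simp only [sum_const, card_univ, nsmul_eq_mul, smul_eq_mul, ← Nat.card_eq_fintype_card]
  field_simp

lemma map_avg_nonneg (f : N →ₗ[ℚ] ℚ) (x : N) (h : ∀ g ∈ Γ, 0 ≤ f (g.coweightMap x)) :
    0 ≤ f (avg Γ x) := by
  letI := Fintype.ofFinite Γ
  rw [avg_eq, map_smul, map_sum, smul_eq_mul]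
  exact mul_nonneg (by positivity) (Finset.sum_nonneg fun g _ => h g.1 g.2)

lemma avg_mem (S : Submodule ℚ N) (x : N) (h : ∀ g ∈ Γ, g.coweightMap x ∈ S) : avg Γ x ∈ S := by
  letI := Fintype.ofFinite Γ
  rw [avg_eq]
  exact S.smul_mem _ (S.sum_mem fun g _ => h g.1 g.2)

lemma avg_of_inv (x : N) (h : ∀ g ∈ Γ, g.coweightMap x = x) : avg Γ x = x := by
  letI := Fintype.ofFinite Γ
  rw [avg_eq, Finset.sum_congr rfl (fun g _ => h g.1 g.2)]
  have := card_ne Γ
  simp only [sum_const, card_univ, ← Nat.card_eq_fintype_card]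
  rw [← Nat.cast_smul_eq_nsmul ℚ, smul_smul, inv_mul_cancel₀ this, one_smul]

end Avg

section Pos

variable [Finite ι] [P.IsCrystallographic] (b : P.Base)

lemma pairing_nonpos {i j : ι} (hi : i ∈ b.support) (hj : j ∈ b.support) (hij : i ≠ j) :
    P.pairing i j ≤ 0 := by
  have h := b.pairingIn_le_zero_of_ne hij hi hj
  have h2 := P.algebraMap_pairingIn ℤ i j
  rw [← h2]
  simpa using h

omit [P.IsCrystallographic] in
lemma form_coroot [Fintype ι] (i : ι) (y : N) :
    2 * P.CorootForm (P.coroot i) y = P.CorootForm (P.coroot i) (P.coroot i) * P.root' i y := by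
  have h := congrArg (fun m => P.toLinearMap m y) (P.corootForm_self_smul_root i)
  simp only [map_smul, LinearMap.smul_apply, smul_eq_mul, map_nsmul, nsmul_eq_mul,
    RootPairing.toLinearMap_apply_CoPolarization] at h
  have e : P.root' i y = P.toLinearMap (P.root i) y := rfl
  rw [e, h]; norm_num

omit [P.IsCrystallographic] in
lemma form_pos [Fintype ι] {x : N} (hx : x ∈ Submodule.span ℚ (Set.range P.coroot)) (h : x ≠ 0) :
    0 < P.CorootForm x x :=
  P.flip.rootForm_pos_of_ne_zero hx h

/-- the positivity property of the Cartan matrix -/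
lemma coeff_nonneg (c : ι → ℚ)
    (h : ∀ i ∈ b.support, 0 ≤ c i ∨ 0 ≤ P.root' i (∑ j ∈ b.support, c j • P.coroot j)) :
    ∀ i ∈ b.support, 0 ≤ c i := by
  letI := Fintype.ofFinite ι
  by_contra hcon
  push Not at hcon
  obtain ⟨i0, hi0, hc0⟩ := hcon
  set S := b.support.filter (fun i => c i < 0) with hS
  set v := ∑ j ∈ b.support, c j • P.coroot j with hv
  set w := ∑ j ∈ S, c j • P.coroot j with hw
  have hwmem : w ∈ Submodule.span ℚ (Set.range P.coroot) :=
    Submodule.sum_mem _ fun j _ => Submodule.smul_mem _ _ (Submodule.subset_span ⟨j, rfl⟩)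
  have hw0 : w ≠ 0 := by
    intro h0
    have hli := b.linearIndepOn_coroot
    have hsub : (S : Set ι) ⊆ b.support := fun j hj => (mem_filter.mp hj).1
    have := (linearIndepOn_finset_iff.mp (hli.mono hsub)) c h0 i0 (mem_filter.mpr ⟨hi0, hc0⟩)
    exact hc0.ne this
  have hpos := form_pos hwmem hw0
  have hself : ∀ i, 0 < P.CorootForm (P.coroot i) (P.coroot i) := fun i =>
    form_pos (Submodule.subset_span ⟨i, rfl⟩) (P.ne_zero' i)
  have hsplit : v = w + ∑ j ∈ b.support.filter (fun i => ¬ c i < 0), c j • P.coroot j := by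
    rw [hv, hw, hS, sum_filter_add_sum_filter_not]
  have h1 : P.CorootForm w v ≤ 0 := by
    rw [hw, map_sum P.CorootForm, LinearMap.sum_apply]
    refine sum_nonpos fun i hi => ?_
    obtain ⟨his, hci⟩ := mem_filter.mp hi
    have h2 := form_coroot (P := P) i v
    have h3 : 0 ≤ P.root' i v := (h i his).resolve_left (not_le.mpr hci)
    have h4 : 0 ≤ P.CorootForm (P.coroot i) v := by
      have := mul_nonneg (hself i).le h3
      linarith
    rw [map_smul, LinearMap.smul_apply, smul_eq_mul]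
    exact mul_nonpos_of_nonpos_of_nonneg hci.le h4
  have h5 : 0 ≤ P.CorootForm w
      (∑ j ∈ b.support.filter (fun i => ¬ c i < 0), c j • P.coroot j) := by
    rw [hw, map_sum P.CorootForm, LinearMap.sum_apply]
    refine sum_nonneg fun i hi => ?_
    obtain ⟨his, hci⟩ := mem_filter.mp hi
    rw [map_smul, LinearMap.smul_apply, smul_eq_mul, map_sum]
    refine mul_nonneg_of_nonpos_of_nonpos hci.le (sum_nonpos fun j hj => ?_)
    obtain ⟨hjs, hcj⟩ := mem_filter.mp hj
    have hij : i ≠ j := fun e => hcj (e ▸ hci)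
    have h2 := form_coroot (P := P) i (P.coroot j)
    rw [RootPairing.root'_coroot_eq_pairing] at h2
    have h3 := mul_nonpos_of_nonneg_of_nonpos (hself i).le (pairing_nonpos b his hjs hij)
    rw [map_smul, smul_eq_mul]
    exact mul_nonpos_of_nonneg_of_nonpos (not_lt.mp hcj) (by linarith)
  rw [hsplit, map_add] at h1
  linarith

lemma exists_sum {x : N} (hx : x ∈ Submodule.span ℚ (Set.range P.coroot)) :
    ∃ c : ι → ℚ, x = ∑ j ∈ b.support, c j • P.coroot j := by
  replace hx : x ∈ P.corootSpan ℚ := hx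
  rw [← b.span_coroot_support] at hx
  obtain ⟨c, hc⟩ := (Submodule.mem_span_image_finset_iff_exists_fun' ℚ).mp hx
  exact ⟨c, hc.symm⟩

lemma sum_eq_zero_of {c : ι → ℚ}
    (h : ∀ i ∈ b.support, c i = 0 ∨ P.root' i (∑ j ∈ b.support, c j • P.coroot j) = 0) :
    ∀ i ∈ b.support, c i = 0 := by
  have h1 := coeff_nonneg b c (fun i hi => (h i hi).imp (fun e => e.ge) (fun e => e.ge))
  have h2 := coeff_nonneg b (fun i => - c i) (fun i hi => (h i hi).imp (fun e => by simp [e])
    (fun e => by simp only [neg_smul, sum_neg_distrib, map_neg, e]; simp))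
  intro i hi
  have := h1 i hi
  have := h2 i hi
  linarith

lemma eq_zero_of_central {z : N} (hz : z ∈ Submodule.span ℚ (Set.range P.coroot))
    (h : ∀ i ∈ b.support, P.root' i z = 0) : z = 0 := by
  obtain ⟨c, rfl⟩ := exists_sum b hz
  have := sum_eq_zero_of b (c := c) (fun i hi => Or.inr (h i hi))
  exact sum_eq_zero fun j hj => by rw [this j hj, zero_smul]

lemma eq_zero_of_central' {m : M} (hm : m ∈ Submodule.span ℚ (Set.range P.root))
    (h : ∀ i ∈ b.support, P.toLinearMap m (P.coroot i) = 0) : m = 0 :=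
  eq_zero_of_central (P := P.flip) b.flip hm h

omit [Finite ι] [P.IsCrystallographic] in
lemma central_all {z : N} (h : ∀ i ∈ b.support, P.root' i z = 0) {m : M}
    (hm : m ∈ Submodule.span ℚ (Set.range P.root)) : P.toLinearMap m z = 0 := by
  replace hm : m ∈ P.rootSpan ℚ := hm
  rw [← b.span_root_support] at hm
  induction hm using Submodule.span_induction with
  | mem x hx => obtain ⟨i, hi, rfl⟩ := hx; exact h i hi
  | zero => simp
  | add x y _ _ hx hy => simp [hx, hy]
  | smul a x _ hx => simp [hx]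

/-- projection killing the simple roots in `J` -/
lemma exists_proj (J : Finset ι) (hJ : J ⊆ b.support) (v : N) :
    ∃ d : ι → ℚ, ∀ i ∈ J, P.root' i (v - ∑ j ∈ J, d j • P.coroot j) = 0 := by
  let φ : (J → ℚ) →ₗ[ℚ] (J → ℚ) :=
    { toFun := fun d i => P.root' i (∑ j : J, d j • P.coroot j)
      map_add' := fun d e => by ext i; simp [add_smul, sum_add_distrib]
      map_smul' := fun a d => by ext i; simp [mul_sum, mul_assoc] }
  have hinj : Function.Injective φ := by
    rw [injective_iff_map_eq_zero]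
    intro d hd
    let c : ι → ℚ := fun i => if h : i ∈ J then d ⟨i, h⟩ else 0
    have hsum : ∑ j ∈ b.support, c j • P.coroot j = ∑ j : J, d j • P.coroot j := by
      rw [← sum_subset hJ (fun j _ hj => by simp [c, hj]), ← sum_coe_sort J]
      exact sum_congr rfl fun j _ => by simp [c, j.2]
    have := sum_eq_zero_of b (c := c) (fun i _ => by
      by_cases hi : i ∈ J
      · right; rw [hsum]; exact congrFun hd ⟨i, hi⟩
      · left; simp [c, hi])
    ext j
    simpa [c, j.2] using this j (hJ j.2)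
  obtain ⟨d, hd⟩ := (LinearMap.injective_iff_surjective.mp hinj) (fun i => P.root' i v)
  refine ⟨fun i => if h : i ∈ J then d ⟨i, h⟩ else 0, fun i hi => ?_⟩
  have hsum : ∑ j ∈ J, (if h : j ∈ J then d ⟨j, h⟩ else 0) • P.coroot j =
      ∑ j : J, d j • P.coroot j := by
    rw [← sum_coe_sort J]
    exact sum_congr rfl fun j _ => by simp [j.2]
  rw [map_sub, hsum]
  have := congrFun hd ⟨i, hi⟩
  simp only [φ, LinearMap.coe_mk, AddHom.coe_mk] at this
  rw [this, sub_self]

lemma eq_zero_of_J (J : Finset ι) (hJ : J ⊆ b.support) {z : N}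
    (hz : z ∈ Submodule.span ℚ (P.coroot '' (J : Set ι))) (h : ∀ i ∈ J, P.root' i z = 0) :
    z = 0 := by
  obtain ⟨d, hd⟩ := (Submodule.mem_span_image_finset_iff_exists_fun' ℚ).mp hz
  let c : ι → ℚ := fun i => if i ∈ J then d i else 0
  have hsum : ∑ j ∈ b.support, c j • P.coroot j = z := by
    rw [← sum_subset hJ (fun j _ hj => by simp [c, hj]), ← hd]
    exact sum_congr rfl fun j hj => by simp [c, hj]
  have := sum_eq_zero_of b (c := c) (fun i _ => by
    by_cases hi : i ∈ J
    · right; rw [hsum]; exact h i hi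
    · left; simp [c, hi])
  rw [← hsum]
  exact sum_eq_zero fun j hj => by rw [this j hj, zero_smul]

end Pos

/-- the standing hypotheses -/
structure Setup (b : P.Base) (Γ : Subgroup P.Aut) (L : AddSubgroup N) (ω : ι → M) : Prop where
  stab : ∀ g ∈ Γ, ∀ i ∈ b.support, g.indexEquiv i ∈ b.support
  co : ∀ i, P.coroot i ∈ L
  wmem : ∀ i ∈ b.support, ω i ∈ Submodule.span ℚ (Set.range P.root)
  wdual : ∀ i ∈ b.support, ∀ j ∈ b.support,
    P.toLinearMap (ω i) (P.coroot j) = if i = j then 1 else 0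

section Weights

variable [Finite ι] [P.IsCrystallographic] {b : P.Base} {Γ : Subgroup P.Aut} {L : AddSubgroup N}
  {ω : ι → M} (S : Setup b Γ L ω)
include S

lemma Setup.stab' {g : P.Aut} (hg : g ∈ Γ) {i : ι} (hi : i ∈ b.support) :
    g.indexEquiv.symm i ∈ b.support := S.stab g⁻¹ (Γ.inv_mem hg) i hi

lemma Setup.w_sum (c : ι → ℚ) {i : ι} (hi : i ∈ b.support) :
    P.toLinearMap (ω i) (∑ j ∈ b.support, c j • P.coroot j) = c i := by
  rw [map_sum, sum_congr rfl (fun j hj => by rw [map_smul, S.wdual i hi j hj])]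
  simp [hi]

lemma Setup.expand {x : N} (hx : x ∈ Submodule.span ℚ (Set.range P.coroot)) :
    x = ∑ j ∈ b.support, P.toLinearMap (ω j) x • P.coroot j := by
  obtain ⟨c, rfl⟩ := exists_sum b hx
  exact sum_congr rfl fun j hj => by rw [S.w_sum c hj]

lemma Setup.root_eq (i : ι) (x : N) :
    P.root' i x = ∑ j ∈ b.support, P.pairing i j * P.toLinearMap (ω j) x := by
  have h : P.root i - ∑ j ∈ b.support, P.pairing i j • ω j = 0 := by
    refine eq_zero_of_central' b (Submodule.sub_mem _ (Submodule.subset_span ⟨i, rfl⟩)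
      (Submodule.sum_mem _ fun j hj => Submodule.smul_mem _ _ (S.wmem j hj))) fun k hk => ?_
    rw [map_sub, map_sum, LinearMap.sub_apply, LinearMap.sum_apply,
      sum_congr rfl (fun j hj => by rw [map_smul, LinearMap.smul_apply, S.wdual j hj k hk])]
    simp [hk]
  have e : P.root' i x = P.toLinearMap (P.root i) x := rfl
  rw [e, sub_eq_zero.mp h, map_sum, LinearMap.sum_apply]
  simp

lemma Setup.root_proj (i : ι) (x : N) :
    P.root' i (∑ j ∈ b.support, P.toLinearMap (ω j) x • P.coroot j) = P.root' i x := by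
  rw [S.root_eq i x, map_sum]
  exact sum_congr rfl fun j _ => by simp [mul_comm]

lemma Setup.w_nonneg {x : N} (hx : ∀ i ∈ b.support, 0 ≤ P.root' i x) :
    ∀ i ∈ b.support, 0 ≤ P.toLinearMap (ω i) x :=
  coeff_nonneg b _ fun i hi => Or.inr (by rw [S.root_proj]; exact hx i hi)

lemma Setup.w_act {g : P.Aut} (hg : g ∈ Γ) {i : ι} (hi : i ∈ b.support) (x : N) :
    P.toLinearMap (ω i) (g.coweightMap x) = P.toLinearMap (ω (g.indexEquiv i)) x := by
  have h : g.weightMap (ω i) - ω (g.indexEquiv i) = 0 := by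
    refine eq_zero_of_central' b (Submodule.sub_mem _ ?_ (S.wmem _ (S.stab g hg i hi)))
      fun k hk => ?_
    · have hmap : ∀ m ∈ Submodule.span ℚ (Set.range P.root),
          g.weightMap m ∈ Submodule.span ℚ (Set.range P.root) := by
        intro m hm
        induction hm using Submodule.span_induction with
        | mem x hx =>
          obtain ⟨i, rfl⟩ := hx
          rw [RootPairing.Hom.root_weightMap_apply]
          exact Submodule.subset_span ⟨_, rfl⟩
        | zero => simp
        | add x y _ _ hx hy => rw [map_add]; exact Submodule.add_mem _ hx hy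
        | smul a x _ hx => rw [map_smul]; exact Submodule.smul_mem _ _ hx
      exact hmap _ (S.wmem i hi)
    · rw [map_sub, LinearMap.sub_apply, ← pair_act, coroot_act, S.wdual i hi _ (S.stab' hg hk),
        S.wdual _ (S.stab g hg i hi) k hk]
      simp [Equiv.eq_symm_apply]
  rw [pair_act, sub_eq_zero.mp h]

end Weights

end Pool.Agent.P.MP_7d29e8_ag
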