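import Pool.Agent.P.MP_7d29e8_ag.FK2

set_option autoImplicit false
set_option linter.unusedSectionVars false
set_option linter.unusedVariables false

/-! Path diagrams. -/

namespace Pool.Agent.P.MP_7d29e8_ag

open Finset
open scoped Classical

variable {ι : Type} {S : Finset ι} {c : ι → ι → ℤ} {k : ℕ} {v : ℕ → ι}

lemma mk_FK4 (hv : Pth S c k v) (C : Matrix (Fin k) (Fin k) ℤ) (hT : Typ k C)
    (hC : ∀ i j : Fin k, c (v i) (v j) = C i j) : IsTyp c (v '' Set.Iio k) := by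
  refine ⟨k, fun i => v i, C, ?_, ?_, hC, hT⟩
  · intro i j hij
    exact Fin.ext (hv.inj i i.2 j j.2 hij)
  · ext x
    constructor
    · rintro ⟨i, rfl⟩
      exact ⟨i, i.2, rfl⟩
    · rintro ⟨a, ha, rfl⟩
      exact ⟨⟨a, ha⟩, rfl⟩

lemma ent_FK4 (h : CM S c) (hv : Pth S c k v) {a b : ℕ} (ha : a < k) (hb : b < k) :
    c (v a) (v b) = if a = b then 2 else if a + 1 = b then c (v a) (v (a + 1))
      else if b + 1 = a then c (v (b + 1)) (v b) else 0 := by
  split_ifs with h1 h2 h3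
  · subst h1
    exact h.diag _ (hv.mem a ha)
  · subst h2
    rfl
  · subst h3
    rfl
  · rcases lt_or_gt_of_ne h1 with h4 | h4
    · exact (h.chord hv (by omega) hb).1
    · exact (h.chord hv (by omega) ha).2

lemma img_FK4 (v : ℕ → ι) (k : ℕ) :
    (fun a => v (k - 1 - a)) '' Set.Iio k = v '' Set.Iio k := by
  ext x
  constructor
  · rintro ⟨a, ha, rfl⟩
    refine ⟨k - 1 - a, ?_, rfl⟩
    simp only [Set.mem_Iio] at ha ⊢
    omega
  · rintro ⟨a, ha, rfl⟩
    simp only [Set.mem_Iio] at ha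
    refine ⟨k - 1 - a, ?_, ?_⟩
    · simp only [Set.mem_Iio]
      omega
    · show v (k - 1 - (k - 1 - a)) = v a
      congr 1
      omega

lemma bond_FK4 (h : CM S c) (hv : Pth S c k v) {a : ℕ} (ha : a + 1 < k) :
    c (v a) (v (a + 1)) ≤ -1 ∧ c (v (a + 1)) (v a) ≤ -1 ∧
      c (v a) (v (a + 1)) * c (v (a + 1)) (v a) ≤ 3 := by
  have hne : v a ≠ v (a + 1) := fun e => by
    have := hv.inj a (by omega) (a + 1) ha e
    omega
  have h1 := h.le_neg (hv.mem a (by omega)) (hv.mem (a + 1) ha) hne (hv.adj a ha)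
  exact ⟨h1.1, h1.2, h.prod_le (hv.mem a (by omega)) (hv.mem (a + 1) ha) hne⟩

lemma cases_FK4 {p q : ℤ} (hp : p ≤ -1) (hq : q ≤ -1) (h : p * q ≤ 3) :
    (p = -1 ∧ q = -1) ∨ (p = -2 ∧ q = -1) ∨ (p = -1 ∧ q = -2) ∨ (p = -3 ∧ q = -1) ∨
      (p = -1 ∧ q = -3) := by
  have h1 : -3 ≤ p := by nlinarith
  have h2 : -3 ≤ q := by nlinarith
  interval_cases p <;> interval_cases q <;> omega

lemma simple_FK4 (h : CM S c) (hv : Pth S c k v) {a : ℕ} (ha : a + 1 < k)
    (hs : ¬ 2 ≤ c (v a) (v (a + 1)) * c (v (a + 1)) (v a)) :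
    c (v a) (v (a + 1)) = -1 ∧ c (v (a + 1)) (v a) = -1 := by
  obtain ⟨h1, h2, h3⟩ := bond_FK4 h hv ha
  rcases cases_FK4 h1 h2 h3 with h4 | h4 | h4 | h4 | h4
  · exact h4
  all_goals
    rw [h4.1, h4.2] at hs
    exact absurd (by norm_num) hs

lemma two_FK4 (h : CM S c) (hv : Pth S c k v) {a b : ℕ} (hab : a < b) (hb : b + 1 < k)
    (h1 : 2 ≤ c (v a) (v (a + 1)) * c (v (a + 1)) (v a))
    (h2 : 2 ≤ c (v b) (v (b + 1)) * c (v (b + 1)) (v b)) : False := by
  obtain ⟨d, rfl⟩ : ∃ d, b = a + 1 + d := ⟨b - (a + 1), by omega⟩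
  have hs := hv.sub (a + 1) (d + 1) (by omega)
  refine h.gad hs (w := {v a}) (w' := {v (a + 1 + d + 1)}) ?_ ?_ ?_ ?_
  · refine ⟨?_, Or.inl ⟨v a, rfl, ?_⟩⟩
    · simpa using hv.mem a (by omega)
    · rw [mul_comm]
      exact h1
  · refine ⟨?_, Or.inl ⟨v (a + 1 + d + 1), rfl, h2⟩⟩
    simpa using hv.mem _ hb
  · rw [Finset.disjoint_singleton]
    intro e
    have := hv.inj a (by omega) _ hb e
    omega
  · intro t ht
    simp only [Finset.mem_singleton]
    constructor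
    · intro e
      have := hv.inj (a + 1 + t) (by omega) a (by omega) e
      omega
    · intro e
      have := hv.inj (a + 1 + t) (by omega) _ hb e
      omega

lemma oth_FK4 (h : CM S c) (hv : Pth S c k v) {a : ℕ} (ha : a + 1 < k)
    (h1 : 2 ≤ c (v a) (v (a + 1)) * c (v (a + 1)) (v a)) {b : ℕ} (hb : b + 1 < k) (hab : b ≠ a) :
    c (v b) (v (b + 1)) = -1 ∧ c (v (b + 1)) (v b) = -1 := by
  refine simple_FK4 h hv hb fun h2 => ?_
  rcases lt_or_gt_of_ne hab with h3 | h3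
  · exact two_FK4 h hv h3 ha h2 h1
  · exact two_FK4 h hv h3 hb h1 h2

lemma typA_FK4 (h : CM S c) (hv : Pth S c k v)
    (hs : ∀ a, a + 1 < k → c (v a) (v (a + 1)) = -1 ∧ c (v (a + 1)) (v a) = -1) :
    IsTyp c (v '' Set.Iio k) := by
  refine mk_FK4 hv (CartanMatrix.A k) (Or.inl rfl) fun i j => ?_
  rw [ent_FK4 h hv i.2 j.2]
  simp only [CartanMatrix.A, Matrix.of_apply, Fin.ext_iff]
  have hi := i.2
  have hj := j.2
  by_cases h1 : (i : ℕ) = j
  · simp only [h1, if_true]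
  · by_cases h2 : (i : ℕ) + 1 = j
    · rw [if_neg h1, if_pos h2, if_neg h1, if_pos (Or.inl h2)]
      exact (hs i (by omega)).1
    · by_cases h3 : (j : ℕ) + 1 = i
      · rw [if_neg h1, if_neg h2, if_pos h3, if_neg h1, if_pos (Or.inr h3)]
        exact (hs j (by omega)).2
      · rw [if_neg h1, if_neg h2, if_neg h3, if_neg h1, if_neg (by omega)]

lemma typBC_FK4 (h : CM S c) {a : ℕ} (hv : Pth S c (a + 2) v)
    (h1 : c (v a) (v (a + 1)) * c (v (a + 1)) (v a) = 2) : IsTyp c (v '' Set.Iio (a + 2)) := by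
  have ho : ∀ b, b + 1 < a + 2 → b ≠ a →
      c (v b) (v (b + 1)) = -1 ∧ c (v (b + 1)) (v b) = -1 :=
    fun b hb hab => oth_FK4 h hv (by omega) h1.ge hb hab
  obtain ⟨p1, p2, p3⟩ := bond_FK4 h hv (show a + 1 < a + 2 by omega)
  have h4 : (c (v a) (v (a + 1)) = -2 ∧ c (v (a + 1)) (v a) = -1) ∨
      (c (v a) (v (a + 1)) = -1 ∧ c (v (a + 1)) (v a) = -2) := by
    rcases cases_FK4 p1 p2 p3 with h4 | h4 | h4 | h4 | h4
    · rw [h4.1, h4.2] at h1
      omega
    · exact Or.inl h4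
    · exact Or.inr h4
    · rw [h4.1, h4.2] at h1
      omega
    · rw [h4.1, h4.2] at h1
      omega
  rcases h4 with h4 | h4
  · refine mk_FK4 hv (CartanMatrix.B (a + 2)) (Or.inr (Or.inl ⟨Or.inl rfl, by omega⟩))
      fun i j => ?_
    rw [ent_FK4 h hv i.2 j.2]
    simp only [CartanMatrix.B, Matrix.of_apply, Fin.ext_iff]
    have hi := i.2
    have hj := j.2
    by_cases h1 : (i : ℕ) = j
    · simp only [h1, if_true]
    · by_cases h2 : (i : ℕ) + 1 = j
      · rw [if_neg h1, if_pos h2, if_neg h1, if_pos h2]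
        by_cases h5 : (i : ℕ) = a
        · rw [if_pos (by omega), h5]
          exact h4.1
        · rw [if_neg (by omega)]
          exact (ho i (by omega) h5).1
      · by_cases h3 : (j : ℕ) + 1 = i
        · rw [if_neg h1, if_neg h2, if_pos h3, if_neg h1, if_neg h2, if_pos h3]
          by_cases h5 : (j : ℕ) = a
          · rw [h5]
            exact h4.2
          · exact (ho j (by omega) h5).2
        · rw [if_neg h1, if_neg h2, if_neg h3, if_neg h1, if_neg h2, if_neg h3]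
  · refine mk_FK4 hv (CartanMatrix.C (a + 2)) (Or.inr (Or.inl ⟨Or.inr rfl, by omega⟩))
      fun i j => ?_
    rw [ent_FK4 h hv i.2 j.2]
    simp only [CartanMatrix.C, Matrix.of_apply, Fin.ext_iff]
    have hi := i.2
    have hj := j.2
    by_cases h1 : (i : ℕ) = j
    · simp only [h1, if_true]
    · by_cases h2 : (i : ℕ) + 1 = j
      · rw [if_neg h1, if_pos h2, if_neg h1, if_pos h2]
        by_cases h5 : (i : ℕ) = a
        · rw [h5]
          exact h4.1
        · exact (ho i (by omega) h5).1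
      · by_cases h3 : (j : ℕ) + 1 = i
        · rw [if_neg h1, if_neg h2, if_pos h3, if_neg h1, if_neg h2, if_pos h3]
          by_cases h5 : (j : ℕ) = a
          · rw [if_pos (by omega), h5]
            exact h4.2
          · rw [if_neg (by omega)]
            exact (ho j (by omega) h5).2
        · rw [if_neg h1, if_neg h2, if_neg h3, if_neg h1, if_neg h2, if_neg h3]

lemma typG_FK4 (h : CM S c) (hv : Pth S c 2 v) (h1 : c (v 0) (v 1) = -3)
    (h2 : c (v 1) (v 0) = -1) : IsTyp c (v '' Set.Iio 2) := by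
  refine mk_FK4 hv CartanMatrix.G₂
    (Or.inr (Or.inr (Or.inr (Or.inr (Or.inr (Or.inr (Or.inr ⟨rfl, HEq.rfl⟩))))))) fun i j => ?_
  have d0 := h.diag _ (hv.mem 0 (by omega))
  have d1 := h.diag _ (hv.mem 1 (by omega))
  fin_cases i <;> fin_cases j <;> simp [CartanMatrix.G₂, h1, h2, d0, d1]

lemma typF_FK4 (h : CM S c) (hv : Pth S c 4 v) (h1 : c (v 1) (v 2) = -2)
    (h2 : c (v 2) (v 1) = -1) : IsTyp c (v '' Set.Iio 4) := by
  refine mk_FK4 hv CartanMatrix.F₄
    (Or.inr (Or.inr (Or.inr (Or.inr (Or.inr (Or.inr (Or.inl ⟨rfl, HEq.rfl⟩))))))) fun i j => ?_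
  have hm : 2 ≤ c (v 1) (v (1 + 1)) * c (v (1 + 1)) (v 1) := by
    show 2 ≤ c (v 1) (v 2) * c (v 2) (v 1)
    rw [h1, h2]
    norm_num
  have d0 := h.diag _ (hv.mem 0 (by omega))
  have d1 := h.diag _ (hv.mem 1 (by omega))
  have d2 := h.diag _ (hv.mem 2 (by omega))
  have d3 := h.diag _ (hv.mem 3 (by omega))
  have b0 : c (v 0) (v 1) = -1 ∧ c (v 1) (v 0) = -1 :=
    oth_FK4 h hv (by omega) hm (b := 0) (by omega) (by omega)
  have b2 : c (v 2) (v 3) = -1 ∧ c (v 3) (v 2) = -1 :=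
    oth_FK4 h hv (by omega) hm (b := 2) (by omega) (by omega)
  have z02 := h.chord hv (a := 0) (b := 2) (by omega) (by omega)
  have z03 := h.chord hv (a := 0) (b := 3) (by omega) (by omega)
  have z13 := h.chord hv (a := 1) (b := 3) (by omega) (by omega)
  fin_cases i <;> fin_cases j <;>
    simp [CartanMatrix.F₄, h1, h2, d0, d1, d2, d3, b0.1, b0.2, b2.1, b2.2, z02.1, z02.2, z03.1,
      z03.2, z13.1, z13.2]

lemma half_FK4 (h : CM S c) (hv : Pth S c k v) {a : ℕ} (ha : a + 1 < k)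
    (h1 : 2 ≤ c (v a) (v (a + 1)) * c (v (a + 1)) (v a)) (hh : k - 2 - a ≤ a) :
    IsTyp c (v '' Set.Iio k) := by
  obtain ⟨p1, p2, p3⟩ := bond_FK4 h hv ha
  have hr := hv.rev h
  by_cases h3 : c (v a) (v (a + 1)) * c (v (a + 1)) (v a) = 3
  · have k1 : ¬ a + 3 ≤ k := fun hk => h.no_G (hv.sub a 3 hk) h3
    have k2 : a = 0 := by
      by_contra h0
      refine h.no_G (hr.sub 0 3 (by omega)) ?_
      show c (v (k - 1 - (0 + 0))) (v (k - 1 - (0 + 1))) *
        c (v (k - 1 - (0 + 1))) (v (k - 1 - (0 + 0))) = 3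
      rw [show k - 1 - (0 + 0) = a + 1 by omega, show k - 1 - (0 + 1) = a by omega, mul_comm]
      exact h3
    subst k2
    obtain rfl : k = 2 := by omega
    rcases cases_FK4 p1 p2 p3 with h4 | h4 | h4 | h4 | h4
    · rw [h4.1, h4.2] at h3
      omega
    · rw [h4.1, h4.2] at h3
      omega
    · rw [h4.1, h4.2] at h3
      omega
    · exact typG_FK4 h hv h4.1 h4.2
    · rw [← img_FK4]
      exact typG_FK4 h hr h4.2 h4.1
  · have h2 : c (v a) (v (a + 1)) * c (v (a + 1)) (v a) = 2 := by omega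
    by_cases hk : k = a + 2
    · subst hk
      exact typBC_FK4 h hv h2
    · have k2 : a = 1 := by
        by_contra h0
        have := h.no_F (hr.sub (k - 3 - a) 5 (by omega))
        change c (v (k - 1 - (k - 3 - a + 1))) (v (k - 1 - (k - 3 - a + 2))) *
          c (v (k - 1 - (k - 3 - a + 2))) (v (k - 1 - (k - 3 - a + 1))) < 2 at this
        rw [show k - 1 - (k - 3 - a + 1) = a + 1 by omega,
          show k - 1 - (k - 3 - a + 2) = a by omega, mul_comm] at this
        omega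
      subst k2
      obtain rfl : k = 4 := by omega
      rcases cases_FK4 p1 p2 p3 with h4 | h4 | h4 | h4 | h4
      · rw [h4.1, h4.2] at h2
        omega
      · exact typF_FK4 h hv h4.1 h4.2
      · rw [← img_FK4]
        exact typF_FK4 h hr h4.2 h4.1
      · rw [h4.1, h4.2] at h2
        omega
      · rw [h4.1, h4.2] at h2
        omega

theorem CM.typ_path (h : CM S c) (hv : Pth S c k v) : IsTyp c (v '' Set.Iio k) := by
  by_cases hm : ∃ a, a + 1 < k ∧ 2 ≤ c (v a) (v (a + 1)) * c (v (a + 1)) (v a)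
  · obtain ⟨a, ha, h1⟩ := hm
    by_cases hh : k - 2 - a ≤ a
    · exact half_FK4 h hv ha h1 hh
    · rw [← img_FK4]
      refine half_FK4 h (hv.rev h) (a := k - 2 - a) (by omega) ?_ (by omega)
      show 2 ≤ c (v (k - 1 - (k - 2 - a))) (v (k - 1 - (k - 2 - a + 1))) *
        c (v (k - 1 - (k - 2 - a + 1))) (v (k - 1 - (k - 2 - a)))
      rw [show k - 1 - (k - 2 - a) = a + 1 by omega,
        show k - 1 - (k - 2 - a + 1) = a by omega, mul_comm]
      exact h1
  · exact typA_FK4 h hv fun a ha => simple_FK4 h hv ha fun h1 => hm ⟨a, ha, h1⟩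

end Pool.Agent.P.MP_7d29e8_ag
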