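import Pool.Agent.P.MP_7d29e8_ag.FK2

set_option autoImplicit false
set_option linter.unusedSectionVars false
set_option linter.unusedVariables false

/-! Branched diagrams. -/

namespace Pool.Agent.P.MP_7d29e8_ag

open Finset
open scoped Classical

variable {ι : Type} {S : Finset ι} {c : ι → ι → ℤ} {k : ℕ} {v : ℕ → ι}

lemma ne_sym_FK5 (h : CM S c) {i j : ι} (hi : i ∈ S) (hj : j ∈ S) (h0 : c i j ≠ 0) :
    c j i ≠ 0 := fun h1 => h0 (h.sym j hj i hi h1)

lemma fork_FK5 (h : CM S c) {x a b : ι} (ha : a ∈ S) (hb : b ∈ S) (hab : a ≠ b)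
    (h1 : c x a ≠ 0) (h2 : c x b ≠ 0) : Gad S c x {a, b} := by
  refine ⟨?_, Or.inr ⟨a, b, hab, rfl, h1, h2⟩⟩
  intro y hy
  rcases Finset.mem_insert.1 hy with rfl | hy
  · exact ha
  · rw [Finset.mem_singleton.1 hy]; exact hb

lemma bond_FK5 {x a : ι} (ha : a ∈ S) (h1 : 2 ≤ c x a * c a x) : Gad S c x {a} := by
  refine ⟨?_, Or.inl ⟨a, rfl, h1⟩⟩
  intro y hy
  rw [Finset.mem_singleton.1 hy]; exact ha

lemma right_FK5 (h : CM S c) (hv : Pth S c k v) {u : ι} (hu : u ∈ S) {j : ℕ} (h0 : 0 < j)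
    (h1 : j + 1 < k) (hn : ∀ a < k, v a ≠ u) (h2 : c u (v j) ≠ 0) {a : ℕ} (hja : j ≤ a)
    (hak : a + 1 < k) : c (v a) (v (a + 1)) * c (v (a + 1)) (v a) < 2 := by
  by_contra hc
  have hc' : 2 ≤ c (v a) (v (a + 1)) * c (v (a + 1)) (v a) := not_lt.1 hc
  have hp : Pth S c (a - j + 1) fun b => v (j + b) := hv.sub j (a - j + 1) (by omega)
  have hadj : c (v j) (v (j - 1)) ≠ 0 := by
    have h3 := hv.adj (j - 1) (by omega)
    have e : j - 1 + 1 = j := by omega
    rw [e] at h3
    exact ne_sym_FK5 h (hv.mem _ (by omega)) (hv.mem _ (by omega)) h3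
  have g1 : Gad S c (v (j + 0)) {u, v (j - 1)} :=
    fork_FK5 h hu (hv.mem _ (by omega)) (fun e => hn (j - 1) (by omega) e.symm)
      (ne_sym_FK5 h hu (hv.mem _ (by omega)) h2) hadj
  have g2 : Gad S c (v (j + (a - j))) {v (a + 1)} := by
    have e : j + (a - j) = a := by omega
    rw [e]
    exact bond_FK5 (hv.mem _ hak) hc'
  refine h.gad hp g1 g2 ?_ ?_
  · rw [Finset.disjoint_singleton_right]
    intro hm
    rcases Finset.mem_insert.1 hm with e | e
    · exact hn _ hak e
    · have := hv.inj _ hak _ (by omega) (Finset.mem_singleton.1 e)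
      omega
  · intro b hb
    constructor
    · intro hm
      rcases Finset.mem_insert.1 hm with e | e
      · exact hn _ (by omega) e
      · have := hv.inj _ (by omega) _ (by omega) (Finset.mem_singleton.1 e)
        omega
    · intro hm
      have := hv.inj _ (by omega) _ hak (Finset.mem_singleton.1 hm)
      omega

lemma all_FK5 (h : CM S c) (hv : Pth S c k v) {u : ι} (hu : u ∈ S) {j : ℕ} (h0 : 0 < j)
    (h1 : j + 1 < k) (hn : ∀ a < k, v a ≠ u) (h2 : c u (v j) ≠ 0) {a : ℕ}
    (hak : a + 1 < k) : c (v a) (v (a + 1)) * c (v (a + 1)) (v a) < 2 := by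
  rcases le_or_gt j a with hja | hja
  · exact right_FK5 h hv hu h0 h1 hn h2 hja hak
  · have h3 := right_FK5 h (hv.rev h) hu (j := k - 1 - j) (by omega) (by omega)
      (fun b hb => hn _ (by omega))
      (by
        have e : k - 1 - (k - 1 - j) = j := by omega
        simp only [e]
        exact h2) (a := k - 2 - a) (by omega) (by omega)
    have e1 : k - 1 - (k - 2 - a) = a + 1 := by omega
    have e2 : k - 1 - (k - 2 - a + 1) = a := by omega
    simp only [e1, e2] at h3
    rw [mul_comm]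
    exact h3

lemma ubond_FK5 (h : CM S c) (hv : Pth S c k v) {u : ι} (hu : u ∈ S) {j : ℕ} (h0 : 0 < j)
    (h1 : j + 1 < k) (hn : ∀ a < k, v a ≠ u) : c (v j) u * c u (v j) < 2 := by
  by_contra hc
  have hc' : 2 ≤ c (v j) u * c u (v j) := not_lt.1 hc
  have hp : Pth S c (0 + 1) fun b => v (j + b) := hv.sub j (0 + 1) (by omega)
  have hadj : c (v j) (v (j - 1)) ≠ 0 := by
    have h3 := hv.adj (j - 1) (by omega)
    have e : j - 1 + 1 = j := by omega
    rw [e] at h3
    exact ne_sym_FK5 h (hv.mem _ (by omega)) (hv.mem _ (by omega)) h3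
  have g1 : Gad S c (v (j + 0)) {v (j - 1), v (j + 1)} :=
    fork_FK5 h (hv.mem _ (by omega)) (hv.mem _ h1)
      (fun e => by
        have := hv.inj _ (by omega) _ h1 e
        omega) hadj (hv.adj j h1)
  have g2 : Gad S c (v (j + 0)) {u} := bond_FK5 hu hc'
  refine h.gad hp g1 g2 ?_ ?_
  · rw [Finset.disjoint_singleton_right]
    intro hm
    rcases Finset.mem_insert.1 hm with e | e
    · exact hn _ (by omega) e.symm
    · exact hn _ h1 (Finset.mem_singleton.1 e).symm
  · intro b hb
    constructor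
    · intro hm
      rcases Finset.mem_insert.1 hm with e | e
      · have := hv.inj _ (by omega) _ (by omega) e
        omega
      · have := hv.inj _ (by omega) _ h1 (Finset.mem_singleton.1 e)
        omega
    · intro hm
      exact hn _ (by omega) (Finset.mem_singleton.1 hm)

lemma one_FK5 {x y : ℤ} (hx : x ≤ -1) (hy : y ≤ -1) (h : x * y < 2) : x = -1 ∧ y = -1 := by
  constructor <;> nlinarith

/-- the table of values of a branched diagram -/
def tb_FK5 (k j a b : ℕ) : ℤ :=
  if a = b then 2 else if a < k ∧ b < k then (if a + 1 = b ∨ b + 1 = a then -1 else 0)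
  else if a = j ∨ b = j then -1 else 0

lemma table_FK5 (h : CM S c) (hv : Pth S c k v) {u : ι} (hu : u ∈ S) {j : ℕ} (h0 : 0 < j)
    (h1 : j + 1 < k) (hn : ∀ a < k, v a ≠ u) (h2 : c u (v j) ≠ 0) {a b : ℕ} (ha : a ≤ k)
    (hb : b ≤ k) :
    c (if a < k then v a else u) (if b < k then v b else u) = tb_FK5 k j a b := by
  have hadj : ∀ a, a + 1 < k → c (v a) (v (a + 1)) = -1 ∧ c (v (a + 1)) (v a) = -1 := by
    intro a hak
    have h3 := h.le_neg (hv.mem a (by omega)) (hv.mem (a + 1) hak)
      (fun e => by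
        have := hv.inj _ (by omega) _ hak e
        omega) (hv.adj a hak)
    exact one_FK5 h3.1 h3.2 (all_FK5 h hv hu h0 h1 hn h2 hak)
  have hu1 : c (v j) u = -1 ∧ c u (v j) = -1 := by
    have h3 := h.le_neg hu (hv.mem j (by omega)) (fun e => hn j (by omega) e.symm) h2
    exact one_FK5 h3.2 h3.1 (ubond_FK5 h hv hu h0 h1 hn)
  have hu0 : ∀ a < k, a ≠ j → c (v a) u = 0 ∧ c u (v a) = 0 := by
    intro a hak haj
    have h3 : c u (v a) = 0 := by
      by_contra h4
      exact haj (h.one_nbr hv hu hn hak (by omega) h4 h2)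
    exact ⟨h.sym u hu _ (hv.mem a hak) h3, h3⟩
  unfold tb_FK5
  by_cases hak : a < k
  · by_cases hbk : b < k
    · rw [if_pos hak, if_pos hbk]
      by_cases hab : a = b
      · rw [if_pos hab, ← hab]
        exact h.diag _ (hv.mem a hak)
      · rw [if_neg hab, if_pos ⟨hak, hbk⟩]
        by_cases h3 : a + 1 = b ∨ b + 1 = a
        · rw [if_pos h3]
          rcases h3 with h3 | h3
          · rw [← h3]; exact (hadj a (by omega)).1
          · rw [← h3]; exact (hadj b (by omega)).2
        · rw [if_neg h3]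
          rcases lt_or_gt_of_ne hab with h4 | h4
          · exact (h.chord hv (a := a) (b := b) (by omega) hbk).1
          · exact (h.chord hv (a := b) (b := a) (by omega) hak).2
    · rw [if_pos hak, if_neg hbk, if_neg (by omega), if_neg (fun e => hbk e.2)]
      by_cases h3 : a = j
      · rw [if_pos (Or.inl h3), h3]; exact hu1.1
      · rw [if_neg (by omega)]; exact (hu0 a hak h3).1
  · by_cases hbk : b < k
    · rw [if_neg hak, if_pos hbk, if_neg (by omega), if_neg (fun e => hak e.1)]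
      by_cases h3 : b = j
      · rw [if_pos (Or.inr h3), h3]; exact hu1.2
      · rw [if_neg (by omega)]; exact (hu0 b hbk h3).2
    · rw [if_neg hak, if_neg hbk, if_pos (by omega)]
      exact h.diag _ hu

lemma mk_FK5 (h : CM S c) (hv : Pth S c k v) {u : ι} (hu : u ∈ S) {j : ℕ} (h0 : 0 < j)
    (h1 : j + 1 < k) (hn : ∀ a < k, v a ≠ u) (h2 : c u (v j) ≠ 0)
    (σ : Fin (k + 1) → Fin (k + 1)) (hσ : Function.Injective σ)
    (C : Matrix (Fin (k + 1)) (Fin (k + 1)) ℤ)
    (hC : ∀ l l', tb_FK5 k j (σ l) (σ l') = C l l') (hT : Typ (k + 1) C) :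
    IsTyp c (insert u (v '' Set.Iio k)) := by
  have hs : Function.Surjective σ := Finite.injective_iff_surjective.1 hσ
  refine ⟨k + 1, fun l => if (σ l : ℕ) < k then v (σ l) else u, C, ?_, ?_, ?_, hT⟩
  · intro l l' e
    apply hσ
    apply Fin.ext
    have b1 := (σ l).2
    have b2 := (σ l').2
    by_cases c1 : (σ l : ℕ) < k
    · by_cases c2 : (σ l' : ℕ) < k
      · simp only [if_pos c1, if_pos c2] at e
        exact hv.inj _ c1 _ c2 e
      · simp only [if_pos c1, if_neg c2] at e
        exact absurd e (hn _ c1)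
    · by_cases c2 : (σ l' : ℕ) < k
      · simp only [if_neg c1, if_pos c2] at e
        exact absurd e.symm (hn _ c2)
      · omega
  · ext x
    constructor
    · rintro ⟨l, rfl⟩
      by_cases c1 : (σ l : ℕ) < k
      · simp only [if_pos c1]
        exact Or.inr ⟨_, c1, rfl⟩
      · simp only [if_neg c1]
        exact Or.inl rfl
    · rintro (rfl | ⟨a, ha, rfl⟩)
      · obtain ⟨l, hl⟩ := hs (Fin.last k)
        refine ⟨l, ?_⟩
        simp only [hl, Fin.val_last, lt_irrefl, if_false]
      · have ha' : a < k := ha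
        obtain ⟨l, hl⟩ := hs ⟨a, by omega⟩
        refine ⟨l, ?_⟩
        simp only [hl, if_pos ha']
  · intro l l'
    rw [← hC]
    exact table_FK5 h hv hu h0 h1 hn h2 (Nat.lt_succ_iff.1 (σ l).2) (Nat.lt_succ_iff.1 (σ l').2)

lemma half_FK5 (h : CM S c) (hv : Pth S c k v) {u : ι} (hu : u ∈ S) {j : ℕ} (h0 : 0 < j)
    (h1 : j + 1 < k) (hn : ∀ a < k, v a ≠ u) (h2 : c u (v j) ≠ 0) (hj : 2 * j + 1 ≤ k) :
    IsTyp c (insert u (v '' Set.Iio k)) := by
  rcases Nat.lt_or_ge j 3 with h3 | h3
  · have hj' : j = 1 ∨ j = 2 := by omega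
    rcases hj' with rfl | rfl
    · refine mk_FK5 h hv hu h0 h1 hn h2
        (fun l => ⟨if (l : ℕ) < k then k - 1 - l else k, by split_ifs <;> omega⟩) ?_
        (CartanMatrix.D (k + 1)) ?_ (Or.inr (Or.inr (Or.inl ⟨rfl, by omega⟩)))
      · intro l l' e
        have e' := congrArg Fin.val e
        have b1 := l.2
        have b2 := l'.2
        apply Fin.ext
        simp only at e'
        split_ifs at e' <;> omega
      · intro l l'
        have b1 := l.2
        have b2 := l'.2
        simp only [tb_FK5, CartanMatrix.D, Matrix.of_apply, Fin.ext_iff]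
        split_ifs <;> omega
    · have hk : k < 8 := by
        by_contra h4
        have hp : Pth S c 8 fun b => v (0 + b) := hv.sub 0 8 (by omega)
        exact h2 (h.no_E8 hp hu fun a ha => hn _ (by omega))
      have hk' : k = 5 ∨ k = 6 ∨ k = 7 := by omega
      rcases hk' with rfl | rfl | rfl
      · exact mk_FK5 h hv hu h0 h1 hn h2 ![0, 5, 1, 2, 3, 4] (by decide) CartanMatrix.E₆
          (by decide) (Or.inr (Or.inr (Or.inr (Or.inl ⟨rfl, HEq.rfl⟩))))
      · exact mk_FK5 h hv hu h0 h1 hn h2 ![0, 6, 1, 2, 3, 4, 5] (by decide) CartanMatrix.E₇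
          (by decide) (Or.inr (Or.inr (Or.inr (Or.inr (Or.inl ⟨rfl, HEq.rfl⟩)))))
      · exact mk_FK5 h hv hu h0 h1 hn h2 ![0, 7, 1, 2, 3, 4, 5, 6] (by decide) CartanMatrix.E₈
          (by decide) (Or.inr (Or.inr (Or.inr (Or.inr (Or.inr (Or.inl ⟨rfl, HEq.rfl⟩))))))
  · exfalso
    have hp : Pth S c 7 fun b => v (j - 3 + b) := hv.sub (j - 3) 7 (by omega)
    have h4 := h.no_E7 hp hu fun a ha => hn _ (by omega)
    have e : j - 3 + 3 = j := by omega
    simp only [e] at h4
    exact h2 h4

theorem CM.typ_branch (h : CM S c) (hv : Pth S c k v) {u : ι} (hu : u ∈ S) {j : ℕ} (h0 : 0 < j)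
    (h1 : j + 1 < k) (hn : ∀ a < k, v a ≠ u) (h2 : c u (v j) ≠ 0) :
    IsTyp c (insert u (v '' Set.Iio k)) := by
  rcases Nat.lt_or_ge k (2 * j + 1) with hj | hj
  · have h3 := half_FK5 h (hv.rev h) hu (j := k - 1 - j) (by omega) (by omega)
      (fun b hb => hn _ (by omega))
      (by
        have e : k - 1 - (k - 1 - j) = j := by omega
        simp only [e]
        exact h2) (by omega)
    have e : (fun a => v (k - 1 - a)) '' Set.Iio k = v '' Set.Iio k := by
      ext x
      constructor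
      · rintro ⟨a, ha, rfl⟩
        have ha' : a < k := ha
        exact ⟨k - 1 - a, show k - 1 - a < k by omega, rfl⟩
      · rintro ⟨a, ha, rfl⟩
        have ha' : a < k := ha
        refine ⟨k - 1 - a, show k - 1 - a < k by omega, ?_⟩
        have e : k - 1 - (k - 1 - a) = a := by omega
        simp only [e]
    rw [e] at h3
    exact h3
  · exact half_FK5 h hv hu h0 h1 hn h2 hj

end Pool.Agent.P.MP_7d29e8_ag
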