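import Pool.Agent.P.MP_7d29e8_ag.FK0

set_option autoImplicit false
set_option linter.unusedSectionVars false
set_option linter.unusedVariables false

/-! Diagram automorphisms. -/

namespace Pool.Agent.P.MP_7d29e8_ag

open Finset
open scoped Classical

variable {m : ℕ} {C : Matrix (Fin m) (Fin m) ℤ}

lemma path_FK6 (p : Fin m → ℕ) (hinj : Function.Injective p)
    (hadj : ∀ k l : Fin m, k.val + 1 = l.val → p k + 1 = p l ∨ p l + 1 = p k)
    (h0 : ∀ k : Fin m, k.val = 0 → p k = 0) (k : Fin m) : p k = k.val := by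
  obtain ⟨k, hk⟩ := k
  induction k using Nat.strong_induction_on with
  | _ k ih =>
    rcases k with _ | k
    · exact h0 _ rfl
    · have h1 : p ⟨k, by omega⟩ = k := ih k (by omega) (by omega)
      rcases hadj ⟨k, by omega⟩ ⟨k + 1, hk⟩ rfl with h2 | h2
      · simp only
        omega
      · exfalso
        rcases k with _ | k
        · omega
        · have h3 : p ⟨k, by omega⟩ = k := ih k (by omega) (by omega)
          have h4 : p ⟨k + 1 + 1, hk⟩ = p ⟨k, by omega⟩ := by omega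
          have h5 := congrArg Fin.val (hinj h4)
          simp only at h5
          omega

lemma A_adj_FK6 (i j : Fin m) :
    CartanMatrix.A m i j = -1 ↔ i.val + 1 = j.val ∨ j.val + 1 = i.val := by
  simp only [CartanMatrix.A, Matrix.of_apply, Fin.ext_iff]
  split_ifs <;> constructor <;> intro h <;> first | omega | exact h.elim

lemma D_adj_FK6 (hm : 4 ≤ m) (i j : Fin m) :
    CartanMatrix.D m i j = -1 ↔ (i.val + 1 = j.val ∧ j.val + 2 < m) ∨
      (j.val + 1 = i.val ∧ i.val + 2 < m) ∨ (i.val + 3 = m ∧ (j.val + 2 = m ∨ j.val + 1 = m)) ∨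
      (j.val + 3 = m ∧ (i.val + 2 = m ∨ i.val + 1 = m)) := by
  simp only [CartanMatrix.D, Matrix.of_apply, Fin.ext_iff]
  split_ifs <;> constructor <;> intro h <;> first | omega | exact h.elim

lemma B_adj_FK6 (hC : C = CartanMatrix.B m ∨ C = CartanMatrix.C m) (i j : Fin m) :
    C i j < 0 ↔ i.val + 1 = j.val ∨ j.val + 1 = i.val := by
  rcases hC with rfl | rfl
  · simp only [CartanMatrix.B, Matrix.of_apply, Fin.ext_iff]
    split_ifs <;> constructor <;> intro h <;> omega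
  · simp only [CartanMatrix.C, Matrix.of_apply, Fin.ext_iff]
    split_ifs <;> constructor <;> intro h <;> omega

theorem aut_A {π : Equiv.Perm (Fin m)}
    (h : ∀ k l, CartanMatrix.A m (π k) (π l) = CartanMatrix.A m k l) :
    (∀ k, π k = k) ∨ ∀ k, π k = k.rev := by
  have hadj : ∀ k l : Fin m, (k.val + 1 = l.val ∨ l.val + 1 = k.val) ↔
      ((π k).val + 1 = (π l).val ∨ (π l).val + 1 = (π k).val) := by
    intro k l
    rw [← A_adj_FK6, ← A_adj_FK6, h]
  by_cases h0 : ∀ k : Fin m, k.val = 0 → (π k).val = 0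
  · left
    intro k
    refine Fin.ext (path_FK6 (fun k => (π k).val) ?_ ?_ h0 k)
    · exact fun a b hab => π.injective (Fin.ext hab)
    · exact fun a b hab => (hadj a b).1 (Or.inl hab)
  · right
    push Not at h0
    obtain ⟨z, hz, hz0⟩ := h0
    have hlt := (π z).2
    have hend : (π z).val + 1 = m := by
      by_contra hne
      have ha := (hadj z (π.symm ⟨(π z).val - 1, by omega⟩)).2 (by
        rw [Equiv.apply_symm_apply]; simp only; omega)
      have hb := (hadj z (π.symm ⟨(π z).val + 1, by omega⟩)).2 (by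
        rw [Equiv.apply_symm_apply]; exact Or.inl rfl)
      have hab : π.symm ⟨(π z).val - 1, by omega⟩ = π.symm ⟨(π z).val + 1, by omega⟩ :=
        Fin.ext (by omega)
      have := congrArg Fin.val (π.symm.injective hab)
      simp only at this
      omega
    intro k
    have key := path_FK6 (fun k => m - 1 - (π k).val) ?_ ?_ ?_ k
    · have := (π k).2
      apply Fin.ext
      rw [Fin.val_rev]
      omega
    · intro a b hab
      have h1 := (π a).2
      have h2 := (π b).2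
      simp only at hab
      exact π.injective (Fin.ext (by omega))
    · intro a b hab
      have h1 := (π a).2
      have h2 := (π b).2
      have := (hadj a b).1 (Or.inl hab)
      omega
    · intro a ha
      have : a = z := Fin.ext (by omega)
      subst this
      omega

theorem aut_B (hm : 2 ≤ m) (hC : C = CartanMatrix.B m ∨ C = CartanMatrix.C m)
    {π : Equiv.Perm (Fin m)} (h : ∀ k l, C (π k) (π l) = C k l) (k : Fin m) : π k = k := by
  have hadj : ∀ k l : Fin m, (k.val + 1 = l.val ∨ l.val + 1 = k.val) ↔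
      ((π k).val + 1 = (π l).val ∨ (π l).val + 1 = (π k).val) := by
    intro k l
    rw [← B_adj_FK6 hC, ← B_adj_FK6 hC, h]
  have hend : (π ⟨m - 1, by omega⟩).val + 1 = m := by
    rcases hC with rfl | rfl
    · have h1 := h ⟨m - 2, by omega⟩ ⟨m - 1, by omega⟩
      simp only [CartanMatrix.B, Matrix.of_apply, Fin.ext_iff] at h1
      split_ifs at h1 <;> omega
    · have h1 := h ⟨m - 1, by omega⟩ ⟨m - 2, by omega⟩
      simp only [CartanMatrix.C, Matrix.of_apply, Fin.ext_iff] at h1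
      split_ifs at h1 <;> omega
  have key := path_FK6 (fun k : Fin m => m - 1 - (π k.rev).val) ?_ ?_ ?_ k.rev
  · have h1 := (π k).2
    have h2 := k.2
    apply Fin.ext
    simp only [Fin.rev_rev, Fin.val_rev] at key
    omega
  · intro a b hab
    have h1 := (π a.rev).2
    have h2 := (π b.rev).2
    simp only at hab
    exact Fin.rev_injective (π.injective (Fin.ext (by omega)))
  · intro a b hab
    have h1 := (π a.rev).2
    have h2 := (π b.rev).2
    have h3 := b.2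
    have := (hadj a.rev b.rev).1 (by rw [Fin.val_rev, Fin.val_rev]; omega)
    omega
  · intro a ha
    have : a.rev = ⟨m - 1, by omega⟩ := Fin.ext (by rw [Fin.val_rev]; simp only; omega)
    rw [this]
    omega

theorem aut_D (hm : 4 ≤ m) {π : Equiv.Perm (Fin m)}
    (h : ∀ k l, CartanMatrix.D m (π k) (π l) = CartanMatrix.D m k l) (k : Fin m)
    (hk : ¬ Ends m k) : π k = k := by
  have hinj : ∀ a b : Fin m, a.val ≠ b.val → (π a).val ≠ (π b).val :=
    fun a b hab h' => hab (congrArg Fin.val (π.injective (Fin.ext h')))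
  have hadj : ∀ a b : Fin m, (a.val + 1 = b.val ∧ b.val + 2 < m) ∨
      (b.val + 3 = m ∧ (a.val + 2 = m ∨ a.val + 1 = m)) →
      (((π a).val + 1 = (π b).val ∧ (π b).val + 2 < m) ∨
      ((π b).val + 1 = (π a).val ∧ (π a).val + 2 < m) ∨
      ((π a).val + 3 = m ∧ ((π b).val + 2 = m ∨ (π b).val + 1 = m)) ∨
      ((π b).val + 3 = m ∧ ((π a).val + 2 = m ∨ (π a).val + 1 = m))) := by
    intro a b hab
    rw [← D_adj_FK6 hm, h, D_adj_FK6 hm]
    tauto
  have h3 : (π ⟨m - 3, by omega⟩).val = m - 3 := by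
    have a1 := hadj ⟨m - 4, by omega⟩ ⟨m - 3, by omega⟩ (by simp only; omega)
    have a2 := hadj ⟨m - 2, by omega⟩ ⟨m - 3, by omega⟩ (by simp only; omega)
    have a3 := hadj ⟨m - 1, by omega⟩ ⟨m - 3, by omega⟩ (by simp only; omega)
    have b1 := hinj ⟨m - 4, by omega⟩ ⟨m - 2, by omega⟩ (by simp only; omega)
    have b2 := hinj ⟨m - 4, by omega⟩ ⟨m - 1, by omega⟩ (by simp only; omega)
    have b3 := hinj ⟨m - 2, by omega⟩ ⟨m - 1, by omega⟩ (by simp only; omega)
    omega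
  have key : ∀ i : ℕ, ∀ a : Fin m, a.val + i + 3 = m → ¬ Ends m a → (π a).val = a.val := by
    intro i
    induction i using Nat.strong_induction_on with
    | _ i ih =>
      intro a ha hE
      unfold Ends at hE
      rcases i with _ | _ | i
      · have : a = ⟨m - 3, by omega⟩ := Fin.ext (by simp only; omega)
        rw [this, h3]
      · have a1 := hadj a ⟨m - 3, by omega⟩ (by simp only; omega)
        have a2 := hadj ⟨m - 5, by omega⟩ a (by simp only; omega)
        have b1 := hinj ⟨m - 5, by omega⟩ ⟨m - 3, by omega⟩ (by simp only; omega)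
        omega
      · have c1 := ih (i + 1) (by omega) ⟨a.val + 1, by omega⟩ (by simp only; omega)
          (by unfold Ends; simp only; omega)
        have c2 := ih i (by omega) ⟨a.val + 2, by omega⟩ (by simp only; omega)
          (by unfold Ends; simp only; omega)
        have a1 := hadj a ⟨a.val + 1, by omega⟩ (Or.inl ⟨rfl, by simp only; omega⟩)
        have b1 := hinj a ⟨a.val + 2, by omega⟩ (by simp only; omega)
        simp only at c1 c2
        omega
  have hk' := hk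
  unfold Ends at hk'
  exact Fin.ext (key (m - 3 - k.val) k (by omega) hk)

lemma e6a_FK6 : ∀ a b c d : Fin 6, [CartanMatrix.E₆ a b, CartanMatrix.E₆ a c,
    CartanMatrix.E₆ a d, CartanMatrix.E₆ b c, CartanMatrix.E₆ b d, CartanMatrix.E₆ c d] =
    [-1, -1, -1, 0, 0, 0] → a = 3 := by decide +kernel

lemma e6b_FK6 : ∀ a b : Fin 6, CartanMatrix.E₆ a 3 = -1 → CartanMatrix.E₆ b a = -1 →
    CartanMatrix.E₆ b 3 = 0 → (a = 2 ∧ b = 0) ∨ (a = 4 ∧ b = 5) := by decide +kernel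

lemma e6c_FK6 : ∀ a : Fin 6, CartanMatrix.E₆ a 3 = -1 → CartanMatrix.E₆ a 2 = 0 →
    CartanMatrix.E₆ a 4 = 0 → a = 1 := by decide +kernel

theorem aut_E6 {π : Equiv.Perm (Fin 6)}
    (h : ∀ k l, CartanMatrix.E₆ (π k) (π l) = CartanMatrix.E₆ k l) :
    (∀ k, π k = k) ∨ ∀ k, (π k : ℕ) = [5, 1, 4, 3, 2, 0].getD k 0 := by
  have h3 : π 3 = 3 := e6a_FK6 _ (π 1) (π 2) (π 4) (by rw [h, h, h, h, h, h]; rfl)
  have h2 := e6b_FK6 (π 2) (π 0) (h3 ▸ h 2 3) (h 0 2) (h3 ▸ h 0 3)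
  have h4 := e6b_FK6 (π 4) (π 5) (h3 ▸ h 4 3) (h 5 4) (h3 ▸ h 5 3)
  have h24 : π 2 ≠ π 4 := fun e => absurd (π.injective e) (by decide)
  rcases h2 with ⟨a2, a0⟩ | ⟨a2, a0⟩ <;> rcases h4 with ⟨a4, a5⟩ | ⟨a4, a5⟩
  · exact absurd (a2.trans a4.symm) h24
  · have a1 : π 1 = 1 := e6c_FK6 _ (h3 ▸ h 1 3) (a2 ▸ h 1 2) (a4 ▸ h 1 4)
    left
    intro k
    fin_cases k
    exacts [a0, a1, a2, h3, a4, a5]
  · have a1 : π 1 = 1 := e6c_FK6 _ (h3 ▸ h 1 3) (a4 ▸ h 1 4) (a2 ▸ h 1 2)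
    right
    intro k
    fin_cases k
    exacts [congrArg Fin.val a0, congrArg Fin.val a1, congrArg Fin.val a2, congrArg Fin.val h3,
      congrArg Fin.val a4, congrArg Fin.val a5]
  · exact absurd (a2.trans a4.symm) h24

lemma e7a_FK6 : ∀ a b c d : Fin 7, [CartanMatrix.E₇ a b, CartanMatrix.E₇ a c,
    CartanMatrix.E₇ a d, CartanMatrix.E₇ b c, CartanMatrix.E₇ b d, CartanMatrix.E₇ c d] =
    [-1, -1, -1, 0, 0, 0] → a = 3 := by decide +kernel

lemma e7b_FK6 : ∀ a b c : Fin 7, [CartanMatrix.E₇ a 3, CartanMatrix.E₇ b a,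
    CartanMatrix.E₇ b 3, CartanMatrix.E₇ c b, CartanMatrix.E₇ c a] = [-1, -1, 0, -1, 0] →
    a = 4 ∧ b = 5 ∧ c = 6 := by decide +kernel

lemma e7c_FK6 : ∀ a b : Fin 7, CartanMatrix.E₇ a 3 = -1 → CartanMatrix.E₇ b a = -1 →
    CartanMatrix.E₇ b 3 = 0 → CartanMatrix.E₇ a 4 = 0 → a = 2 ∧ b = 0 := by decide +kernel

lemma e7d_FK6 : ∀ a : Fin 7, CartanMatrix.E₇ a 3 = -1 → CartanMatrix.E₇ a 2 = 0 →
    CartanMatrix.E₇ a 4 = 0 → a = 1 := by decide +kernel

theorem aut_E7 {π : Equiv.Perm (Fin 7)}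
    (h : ∀ k l, CartanMatrix.E₇ (π k) (π l) = CartanMatrix.E₇ k l) (k : Fin 7) : π k = k := by
  have h3 : π 3 = 3 := e7a_FK6 _ (π 1) (π 2) (π 4) (by rw [h, h, h, h, h, h]; rfl)
  obtain ⟨a4, a5, a6⟩ :=
    e7b_FK6 (π 4) (π 5) (π 6) (by rw [← h3, h, h, h, h, h]; rfl)
  obtain ⟨a2, a0⟩ := e7c_FK6 (π 2) (π 0) (h3 ▸ h 2 3) (h 0 2) (h3 ▸ h 0 3) (a4 ▸ h 2 4)
  have a1 : π 1 = 1 := e7d_FK6 _ (h3 ▸ h 1 3) (a2 ▸ h 1 2) (a4 ▸ h 1 4)
  fin_cases k
  exacts [a0, a1, a2, h3, a4, a5, a6]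

lemma triv_FK6 (H : Subgroup (Equiv.Perm (Fin m))) (h : ∀ π ∈ H, ∀ k, π k = k) :
    (fun k l => ∃ π ∈ H, π k = l) = Eq := by
  funext k l
  apply propext
  constructor
  · rintro ⟨π, hπ, rfl⟩
    exact (h π hπ k).symm
  · rintro rfl
    exact ⟨1, H.one_mem, rfl⟩

theorem Typ.lst (hT : Typ m C) (H : Subgroup (Equiv.Perm (Fin m)))
    (hH : ∀ π ∈ H, ∀ k l, C (π k) (π l) = C k l) : Lst m C fun k l => ∃ π ∈ H, π k = l := by
  unfold Lst
  rcases hT with rfl | ⟨hC, hm⟩ | ⟨rfl, hm⟩ | ⟨rfl, hC⟩ | ⟨rfl, hC⟩ | hT | hT | hT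
  · by_cases hall : ∀ π ∈ H, ∀ k, π k = k
    · exact Or.inl ⟨rfl, triv_FK6 H hall⟩
    · push Not at hall
      obtain ⟨σ, hσ, z, hz⟩ := hall
      have hr : ∀ k, σ k = k.rev := (aut_A (hH σ hσ)).resolve_left fun h => hz (h z)
      refine Or.inr (Or.inl ⟨rfl, fun k l => ⟨?_, ?_⟩⟩)
      · rintro ⟨π, hπ, rfl⟩
        exact (aut_A (hH π hπ)).imp (fun h => h k) fun h => h k
      · rintro (rfl | rfl)
        · exact ⟨1, H.one_mem, rfl⟩
        · exact ⟨σ, hσ, hr k⟩
  · exact Or.inr (Or.inr (Or.inr (Or.inl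
      ⟨hC, hm, triv_FK6 H fun π hπ k => aut_B hm hC (hH π hπ) k⟩)))
  · by_cases hall : ∀ π ∈ H, ∀ k, π k = k
    · exact Or.inr (Or.inr (Or.inl ⟨rfl, hm, triv_FK6 H hall⟩))
    · push Not at hall
      obtain ⟨σ, hσ, z, hz⟩ := hall
      have hS : ∀ k : Fin m, k ∈ univ.filter (fun k : Fin m => ∃ π ∈ H, π k ≠ k) ↔
          ∃ π ∈ H, π k ≠ k := fun k => by simp
      have hi : ∀ (π : Equiv.Perm (Fin m)) k, π⁻¹ (π k) = k := fun π k => π.symm_apply_apply k
      have hinv : ∀ π ∈ H, ∀ k, π k ≠ k → ∃ ρ ∈ H, ρ (π k) ≠ π k := fun π hπ k hk =>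
        ⟨π⁻¹, H.inv_mem hπ, by rw [hi]; exact hk.symm⟩
      have hE : ∀ k : Fin m, (∃ π ∈ H, π k ≠ k) → Ends m k := by
        rintro k ⟨π, hπ, hk⟩
        by_contra hne
        exact hk (aut_D hm (hH π hπ) k hne)
      refine Or.inr (Or.inr (Or.inr (Or.inr (Or.inl ⟨rfl, hm,
        univ.filter (fun k : Fin m => ∃ π ∈ H, π k ≠ k), ?_, fun k hk => hE k ((hS k).1 hk),
        fun k l => ⟨?_, ?_⟩⟩))))
      · exact Finset.one_lt_card.2 ⟨σ z, (hS _).2 (hinv σ hσ z hz), z, (hS _).2 ⟨σ, hσ, hz⟩, hz⟩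
      · rintro ⟨π, hπ, rfl⟩
        by_cases hk : π k = k
        · exact Or.inl hk
        · exact Or.inr ⟨(hS _).2 ⟨π, hπ, hk⟩, (hS _).2 (hinv π hπ k hk)⟩
      · rintro (rfl | ⟨hk, hl⟩)
        · exact ⟨1, H.one_mem, rfl⟩
        · obtain ⟨π, hπ, hk⟩ := (hS k).1 hk
          obtain ⟨ρ, hρ, hl⟩ := (hS l).1 hl
          by_cases e1 : k = l
          · exact ⟨1, H.one_mem, e1⟩
          by_cases e2 : π k = l
          · exact ⟨π, hπ, e2⟩
          by_cases e3 : ρ l = k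
          · exact ⟨ρ⁻¹, H.inv_mem hρ, by rw [← e3, hi]⟩
          by_cases e4 : π k = ρ l
          · exact ⟨ρ⁻¹ * π, H.mul_mem (H.inv_mem hρ) hπ, by
              rw [Equiv.Perm.mul_apply, e4, hi]⟩
          exfalso
          have f1 := hE k ⟨π, hπ, hk⟩
          have f2 := hE l ⟨ρ, hρ, hl⟩
          have f3 := hE _ (hinv π hπ k hk)
          have f4 := hE _ (hinv ρ hρ l hl)
          unfold Ends at f1 f2 f3 f4
          rw [Ne, Fin.ext_iff] at hk hl
          rw [Fin.ext_iff] at e1 e2 e3 e4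
          have g1 := k.2
          have g2 := l.2
          have g3 := (π k).2
          have g4 := (ρ l).2
          omega
  · obtain rfl := eq_of_heq hC
    refine Or.inr (Or.inr (Or.inr (Or.inr (Or.inr (Or.inl ⟨rfl, HEq.rfl, ?_⟩)))))
    by_cases hall : ∀ π ∈ H, ∀ k, π k = k
    · exact Or.inl (triv_FK6 H hall)
    · push Not at hall
      obtain ⟨σ, hσ, z, hz⟩ := hall
      have hr := (aut_E6 (hH σ hσ)).resolve_left fun h => hz (h z)
      refine Or.inr fun k l => ⟨?_, ?_⟩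
      · rintro ⟨π, hπ, rfl⟩
        exact (aut_E6 (hH π hπ)).imp (fun h => h k) fun h => h k
      · rintro (rfl | hl)
        · exact ⟨1, H.one_mem, rfl⟩
        · exact ⟨σ, hσ, Fin.ext ((hr k).trans hl.symm)⟩
  · obtain rfl := eq_of_heq hC
    exact Or.inr (Or.inr (Or.inr (Or.inr (Or.inr (Or.inr (Or.inl
      ⟨rfl, HEq.rfl, triv_FK6 H fun π hπ k => aut_E7 (hH π hπ) k⟩))))))
  · exact Or.inr (Or.inr (Or.inr (Or.inr (Or.inr (Or.inr (Or.inr (Or.inl hT)))))))
  · exact Or.inr (Or.inr (Or.inr (Or.inr (Or.inr (Or.inr (Or.inr (Or.inr (Or.inl hT))))))))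
  · exact Or.inr (Or.inr (Or.inr (Or.inr (Or.inr (Or.inr (Or.inr (Or.inr (Or.inr hT))))))))

end Pool.Agent.P.MP_7d29e8_ag
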