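import Pool.Agent.P.MP_7d29e8_ag.FK3
import Pool.Agent.P.MP_7d29e8_ag.FK4
import Pool.Agent.P.MP_7d29e8_ag.FK5
import Pool.Agent.P.MP_7d29e8_ag.FK6
import Pool.Agent.P.MP_7d29e8_ag.Core

set_option autoImplicit false
set_option linter.unusedSectionVars false
set_option linter.unusedVariables false

/-! Decomposition into simple factors. -/

namespace Pool.Agent.P.MP_7d29e8_ag

open Finset
open scoped Classical

variable {ι M N : Type} [AddCommGroup M] [Module ℚ M] [AddCommGroup N] [Module ℚ N]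
  {P : RootPairing ι ℚ M N} [Finite ι] [P.IsCrystallographic]

lemma cm_base (b : P.Base) : CM b.support (P.pairingIn ℤ) := by
  have hc : ∀ i j, ((P.pairingIn ℤ i j : ℤ) : ℚ) = P.pairing i j := fun i j => by
    simpa using P.algebraMap_pairingIn ℤ i j
  refine ⟨fun i _ => P.pairingIn_same ℤ i, fun i hi j hj hij => ?_, fun i _ j _ h => ?_,
    fun x hx i hi => ?_⟩
  · have h := pairing_nonpos b hi hj hij
    rw [← hc] at h
    exact_mod_cast h
  · exact (P.pairingIn_eq_zero_iff).mp h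
  · have h := coeff_nonneg b (fun j => - (x j : ℚ)) (fun k hk => by
      rcases Nat.eq_zero_or_pos (x k) with h0 | h0
      · left; simp [h0]
      · right
        have h1 := hx k hk h0
        have h2 : ((∑ j ∈ b.support, P.pairingIn ℤ k j * (x j : ℤ) : ℤ) : ℚ) ≤ 0 := by
          exact_mod_cast h1
        push_cast at h2
        simp only [hc] at h2
        simp only [map_sum, map_smul, RootPairing.root'_coroot_eq_pairing, smul_eq_mul, neg_mul,
          sum_neg_distrib]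
        have h3 : ∑ j ∈ b.support, (x j : ℚ) * P.pairing k j =
            ∑ j ∈ b.support, P.pairing k j * (x j : ℚ) := sum_congr rfl fun j _ => mul_comm _ _
        rw [h3]
        linarith) i hi
    have h4 : (x i : ℚ) ≤ 0 := by linarith
    exact_mod_cast le_antisymm h4 (Nat.cast_nonneg _)

lemma pairing_act_FK7 (g : P.Aut) (i j : ι) :
    P.pairing (g.indexEquiv i) (g.indexEquiv j) = P.pairing i j := by
  have h := root_act g i (P.coroot (g.indexEquiv j))
  rw [coroot_act, Equiv.symm_apply_apply, RootPairing.root'_coroot_eq_pairing,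
    RootPairing.root'_coroot_eq_pairing] at h
  exact h.symm

lemma pairingIn_act_FK7 (g : P.Aut) (i j : ι) :
    P.pairingIn ℤ (g.indexEquiv i) (g.indexEquiv j) = P.pairingIn ℤ i j := by
  have hc : ∀ i j, ((P.pairingIn ℤ i j : ℤ) : ℚ) = P.pairing i j := fun i j => by
    simpa using P.algebraMap_pairingIn ℤ i j
  have h := pairing_act_FK7 g i j
  rw [← hc, ← hc] at h
  exact_mod_cast h

lemma stab_FK7 {S : Finset ι} {c : ι → ι → ℤ} (h : CM S c) {A : Set ι} {i : ι} (hi : i ∈ S)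
    (hcl : ∀ a ∈ A, ∀ j ∈ S, j ∉ A → c a j = 0)
    (hre : ∀ a ∈ A, Relation.ReflTransGen (fun x y => y ∈ S ∧ c x y ≠ 0) i a)
    {f : ι → ι} (hf : ∀ j ∈ S, f j ∈ S) (hfc : ∀ x y, c (f x) (f y) = c x y)
    {a : ι} (ha : a ∈ A) (hfa : f a ∈ A) : ∀ a' ∈ A, f a' ∈ A := by
  have key : ∀ y, Relation.ReflTransGen (fun x y => y ∈ S ∧ c x y ≠ 0) i y →
      y ∈ S ∧ (f i ∈ A ↔ f y ∈ A) := by
    intro y hy
    induction hy with
    | refl => exact ⟨hi, Iff.rfl⟩
    | @tail x y _ hxy ih =>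
      refine ⟨hxy.1, ih.2.trans ⟨fun h1 => ?_, fun h1 => ?_⟩⟩
      · by_contra h2
        exact hxy.2 (by rw [← hfc]; exact hcl _ h1 _ (hf _ hxy.1) h2)
      · by_contra h2
        have h3 := hcl _ h1 _ (hf _ ih.1) h2
        rw [hfc] at h3
        exact hxy.2 (h.sym _ hxy.1 _ ih.1 h3)
  intro a' ha'
  exact (key a' (hre a' ha')).2.mp ((key a (hre a ha)).2.mpr hfa)

theorem exists_fct (b : P.Base) {Γ : Subgroup P.Aut}
    (hΓ : ∀ g ∈ Γ, ∀ i ∈ b.support, g.indexEquiv i ∈ b.support) {i : ι} (hi : i ∈ b.support) :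
    ∃ (T : Type) (_ : Fintype T) (r : ℕ) (e : T × Fin r → ι) (C : Matrix (Fin r) (Fin r) ℤ)
      (R : Fin r → Fin r → Prop), i ∈ Set.range e ∧ Fct b Γ e C R ∧ Lst r C R := by
  have hc : ∀ i j, ((P.pairingIn ℤ i j : ℤ) : ℚ) = P.pairing i j := fun i j => by
    simpa using P.algebraMap_pairingIn ℤ i j
  have hCM := cm_base b
  obtain ⟨A, k0, v, hiA, hAS, hcl, hre, hv, hA⟩ := hCM.shape hi
  have hT : IsTyp (P.pairingIn ℤ) A := by
    rcases hA with hA | ⟨u, hu, j, h0, h1, hn, h2, hA⟩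
    · rw [hA]; exact hCM.typ_path hv
    · rw [hA]; exact hCM.typ_branch hv hu h0 h1 hn h2
  obtain ⟨m, e0, C, he0, hrange, hC, hTyp⟩ := hT
  have hmemA : ∀ k, e0 k ∈ A := fun k => hrange ▸ Set.mem_range_self k
  have hsub : ∀ g ∈ Γ, ∀ a ∈ A, g.indexEquiv a ∈ A → ∀ a' ∈ A, g.indexEquiv a' ∈ A :=
    fun g hg a ha hga => stab_FK7 hCM hi hcl hre (hΓ g hg) (pairingIn_act_FK7 g) ha hga
  have hinv : ∀ (g : P.Aut) (x : ι), (g⁻¹).indexEquiv (g.indexEquiv x) = x := fun g x => by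
    rw [idx_inv, Equiv.symm_apply_apply]
  have hinv' : ∀ (g : P.Aut) (x : ι), g.indexEquiv ((g⁻¹).indexEquiv x) = x := fun g x => by
    rw [idx_inv, Equiv.apply_symm_apply]
  have himg : ∀ g ∈ Γ, ∀ g' ∈ Γ, ∀ a ∈ A, ∀ a' ∈ A, g.indexEquiv a = g'.indexEquiv a' →
      g.indexEquiv '' A ⊆ g'.indexEquiv '' A := by
    intro g hg g' hg' a ha a' ha' hE
    rintro _ ⟨x, hx, rfl⟩
    have h1 := hsub (g'⁻¹ * g) (Γ.mul_mem (Γ.inv_mem hg') hg) a ha
      (by rw [idx_mul, hE, hinv]; exact ha') x hx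
    exact ⟨_, h1, by rw [idx_mul, hinv']⟩
  let T : Type := {B : Set ι // ∃ g ∈ Γ, B = g.indexEquiv '' A}
  have hch : ∀ t : T, ∃ g ∈ Γ, t.1 = g.indexEquiv '' A := fun t => t.2
  choose G hG hGt using hch
  let H : Subgroup (Equiv.Perm (Fin m)) :=
    { carrier := {π | ∃ g ∈ Γ, ∀ k, g.indexEquiv (e0 k) = e0 (π k)}
      mul_mem' := by
        rintro π ρ ⟨g, hg, h1⟩ ⟨g', hg', h2⟩
        exact ⟨g * g', Γ.mul_mem hg hg', fun k => by rw [idx_mul, h2, h1]; rfl⟩
      one_mem' := ⟨1, Γ.one_mem, fun k => rfl⟩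
      inv_mem' := by
        rintro π ⟨g, hg, h1⟩
        refine ⟨g⁻¹, Γ.inv_mem hg, fun k => ?_⟩
        have h2 := h1 (π⁻¹ k)
        have h3 : π (π⁻¹ k) = k := π.apply_symm_apply k
        rw [h3] at h2
        rw [← h2, hinv] }
  have hH : ∀ π ∈ H, ∀ k l, C (π k) (π l) = C k l := by
    rintro π ⟨g, hg, h1⟩ k l
    rw [← hC, ← hC, ← h1, ← h1, pairingIn_act_FK7]
  refine ⟨T, Fintype.ofFinite T, m, fun q => (G q.1).indexEquiv (e0 q.2), C,
    fun k l => ∃ π ∈ H, π k = l, ?_, ⟨?_, ?_, ?_, ?_, ?_⟩, hTyp.lst H hH⟩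
  · let t : T := ⟨A, 1, Γ.one_mem, by ext x; simp⟩
    have h1 : i ∈ (G t).indexEquiv '' A := by rw [← hGt t]; exact hiA
    obtain ⟨a, ha, h2⟩ := h1
    rw [← hrange] at ha
    obtain ⟨k, rfl⟩ := ha
    exact ⟨(t, k), h2⟩
  · rintro ⟨t, k⟩ ⟨t', l⟩ hE
    have hE' : (G t).indexEquiv (e0 k) = (G t').indexEquiv (e0 l) := hE
    have h1 : t = t' := by
      apply Subtype.ext
      rw [hGt t, hGt t']
      exact Set.Subset.antisymm (himg _ (hG t) _ (hG t') _ (hmemA k) _ (hmemA l) hE')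
        (himg _ (hG t') _ (hG t) _ (hmemA l) _ (hmemA k) hE'.symm)
    subst h1
    rw [he0 ((G t).indexEquiv.injective hE')]
  · rintro ⟨t, k⟩
    exact hΓ _ (hG t) _ (hAS (hmemA k))
  · intro t k l
    show P.pairing ((G t).indexEquiv (e0 k)) ((G t).indexEquiv (e0 l)) = _
    rw [pairing_act_FK7, ← hc, hC]
  · intro t k j hj hne
    show P.pairing ((G t).indexEquiv (e0 k)) j = 0
    have hj' := hΓ _ (Γ.inv_mem (hG t)) j hj
    have hnA : ((G t)⁻¹).indexEquiv j ∉ A := by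
      intro h1
      rw [← hrange] at h1
      obtain ⟨l, hl⟩ := h1
      exact hne l (by show j = (G t).indexEquiv (e0 l); rw [hl, hinv'])
    have h2 := hcl _ (hmemA k) _ hj' hnA
    rw [← hinv' (G t) j, pairing_act_FK7, ← hc, h2]
    simp
  · rintro ⟨t, k⟩ j
    constructor
    · rintro ⟨g, hg, hj⟩
      have hj' : (g * G t).indexEquiv (e0 k) = j := hj
      have hg' : g * G t ∈ Γ := Γ.mul_mem hg (hG t)
      let t' : T := ⟨(g * G t).indexEquiv '' A, g * G t, hg', rfl⟩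
      have h1 : ∀ l, ∃ l', ((G t')⁻¹ * (g * G t)).indexEquiv (e0 l) = e0 l' := by
        intro l
        have h2 : (g * G t).indexEquiv (e0 l) ∈ (G t').indexEquiv '' A := by
          rw [← hGt t']; exact ⟨_, hmemA l, rfl⟩
        obtain ⟨a, ha, h3⟩ := h2
        rw [← hrange] at ha
        obtain ⟨l', rfl⟩ := ha
        exact ⟨l', by rw [idx_mul, ← h3, hinv]⟩
      choose f hf using h1
      have hfi : Function.Injective f := fun l l' h2 => by
        apply he0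
        apply ((G t')⁻¹ * (g * G t)).indexEquiv.injective
        rw [hf, hf, h2]
      let π : Equiv.Perm (Fin m) := Equiv.ofBijective f (Finite.injective_iff_bijective.mp hfi)
      refine ⟨(t', f k), ?_, π, ⟨_, Γ.mul_mem (Γ.inv_mem (hG t')) hg', hf⟩, rfl⟩
      show j = (G t').indexEquiv (e0 (f k))
      rw [← hf, idx_mul, hinv', hj']
    · rintro ⟨⟨t', l⟩, hj, π, ⟨g, hg, h1⟩, h2⟩
      refine ⟨G t' * g * (G t)⁻¹, Γ.mul_mem (Γ.mul_mem (hG t') hg) (Γ.inv_mem (hG t)), ?_⟩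
      have h2' : π k = l := h2
      show (G t' * g * (G t)⁻¹).indexEquiv ((G t).indexEquiv (e0 k)) = j
      rw [idx_mul, idx_mul, hinv, h1, h2', hj]

end Pool.Agent.P.MP_7d29e8_ag
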