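import Pool.Agent.P.MP_7d29e8_ag.FD7

set_option autoImplicit false
set_option linter.unusedSectionVars false
set_option linter.unusedVariables false

/-! The maximal unramified extension satisfies `HF`. -/

namespace Pool.Agent.P.MP_7d29e8_ag

open Finset
open scoped Classical

variable {p : ℕ} [Fact p.Prime] {K Ω : Type} [Field K] [Field Ω]
  [Algebra (WittVector p (AlgebraicClosure (ZMod p))) K]
  [IsFractionRing (WittVector p (AlgebraicClosure (ZMod p))) K] [Algebra K Ω] [IsAlgClosure K Ω]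
  {σ : K ≃+* K} {s : Ω ≃+* Ω} {v : Ω → ℚ}

lemma neg_FD8 (hv : Val v) {C : ℚ} {a : Ω} (h : Ge v C a) : Ge v C (-a) :=
  h.imp neg_eq_zero.2 fun e => by rwa [mulv_neg hv.mul]

lemma sub_FD8 (hv : Val v) {C : ℚ} {a b : Ω} (ha : Ge v C a) (hb : Ge v C b) : Ge v C (a - b) :=
  sub_eq_add_neg a b ▸ ha.add hv (neg_FD8 hv hb)

lemma nat_FD8 (hv : Val v) (m : ℕ) : Ge v 0 (m : Ω) := by
  induction m with
  | zero => exact Or.inl Nat.cast_zero
  | succ m ih => exact Nat.cast_succ (R := Ω) m ▸ ih.add hv (Or.inr (mulv_one hv.mul).ge)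

lemma tel_FD8 (hv : Val v) {a : ℕ → Ω} {C : ℚ} {J : ℕ}
    (h : ∀ j, J ≤ j → Ge v C (a (j + 1) - a j)) {j : ℕ} (hj : J ≤ j) : Ge v C (a j - a J) := by
  induction j, hj using Nat.le_induction with
  | base => exact Or.inl (sub_self _)
  | succ j hj ih =>
    have := (h j hj).add hv ih
    rwa [sub_add_sub_cancel] at this

lemma int_FD8 (hv : Val v) (hp : v (p : Ω) = 1)
    (hO : ∀ a : K, a ≠ 0 → ((∃ o : WittVector p (AlgebraicClosure (ZMod p)), algebraMap _ K o = a) ↔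
      0 ≤ v (algebraMap K Ω a))) (m : ℕ) (a : K) : Ge v m (algebraMap K Ω a) ↔
      ∃ o : WittVector p (AlgebraicClosure (ZMod p)), algebraMap _ K ((p : _) ^ m * o) = a := by
  have := charZero_K p K
  have := charZero_of_injective_algebraMap (algebraMap K Ω).injective
  have hp0 : (p : Ω) ≠ 0 := Nat.cast_ne_zero.2 (Fact.out : p.Prime).ne_zero
  have hpK : (p : K) ^ m ≠ 0 := pow_ne_zero _ (Nat.cast_ne_zero.2 (Fact.out : p.Prime).ne_zero)
  by_cases ha : a = 0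
  · subst ha
    exact ⟨fun _ => ⟨0, by simp⟩, fun _ => Or.inl (map_zero _)⟩
  have ha' : algebraMap K Ω a ≠ 0 := (map_ne_zero _).2 ha
  have h := hO (a / (p : K) ^ m) (div_ne_zero ha hpK)
  rw [map_div₀, map_pow, map_natCast, div_eq_mul_inv (algebraMap K Ω a),
    hv.mul _ _ ha' (inv_ne_zero (pow_ne_zero _ hp0)), mulv_inv hv.mul (pow_ne_zero _ hp0),
    mulv_pow hv.mul hp0, hp] at h
  constructor
  · intro g
    obtain ⟨o, ho⟩ := h.2 (by linarith [g.resolve_left ha'])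
    exact ⟨o, by rw [map_mul, map_pow, map_natCast, ho]; field_simp⟩
  · rintro ⟨o, ho⟩
    refine Or.inr (by
      have := h.1 ⟨o, by rw [← ho, map_mul, map_pow, map_natCast]; field_simp⟩
      linarith)

theorem cpl_K (hv : Val v) (hp : v (p : Ω) = 1)
    (hO : ∀ a : K, a ≠ 0 → ((∃ o : WittVector p (AlgebraicClosure (ZMod p)), algebraMap _ K o = a) ↔
      0 ≤ v (algebraMap K Ω a))) : Cpl v (Set.range (algebraMap K Ω)) := by
  intro a ha hc
  choose b hb using ha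
  choose J hJ using fun m : ℕ => hc m
  let L : ℕ → ℕ := fun m => (range (m + 1)).sup J
  have hL : ∀ m k, m ≤ k → J m ≤ L k := fun m k h =>
    Finset.le_sup (f := J) (mem_range.2 (Nat.lt_succ_of_le h))
  have key : ∀ (m : ℕ) i j, J m ≤ i → J m ≤ j → Ge v m (algebraMap K Ω (b i - b j)) := by
    intro m i j hi hj
    have := sub_FD8 hv (tel_FD8 hv (hJ m) hi) (tel_FD8 hv (hJ m) hj)
    rwa [sub_sub_sub_cancel_right, ← hb, ← hb, ← map_sub] at this
  have h0 : ∀ m, ∃ o : WittVector p (AlgebraicClosure (ZMod p)),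
      algebraMap _ K o = b (L m) - b (L 0) := fun m => by
    obtain ⟨o, ho⟩ := (int_FD8 hv hp hO 0 _).1
      (key 0 (L m) (L 0) (hL 0 m m.zero_le) (hL 0 0 le_rfl))
    exact ⟨o, by simpa using ho⟩
  choose o ho using h0
  obtain ⟨x, hx⟩ := IsPrecomplete.prec (I := Ideal.span {(p : WittVector p (AlgebraicClosure (ZMod p)))})
    inferInstance (f := o) (fun {m k} h => by
      obtain ⟨c, hc⟩ := (int_FD8 hv hp hO m _).1 (key m (L m) (L k) (hL m m le_rfl) (hL m k h))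
      rw [SModEq.sub_mem, smul_eq_mul, Ideal.mul_top, Ideal.span_singleton_pow,
        Ideal.mem_span_singleton]
      refine ⟨c, IsFractionRing.injective _ K ?_⟩
      rw [hc, map_sub, ho, ho, sub_sub_sub_cancel_right])
  refine ⟨algebraMap K Ω (b (L 0) + algebraMap _ K x), ⟨_, rfl⟩, fun C => ?_⟩
  obtain ⟨m, hm⟩ := exists_nat_ge C
  refine ⟨J m, fun j hj => Ge.mono ?_ hm⟩
  have h1 := hx m
  rw [SModEq.sub_mem, smul_eq_mul, Ideal.mul_top, Ideal.span_singleton_pow,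
    Ideal.mem_span_singleton] at h1
  obtain ⟨c, hc'⟩ := h1
  have h2 := (int_FD8 hv hp hO m _).2 ⟨c, rfl⟩
  rw [← hc', map_sub, ho] at h2
  have h3 := sub_FD8 hv (key m (L m) j (hL m m le_rfl) hj) h2
  rw [← map_sub] at h3
  rw [← hb, ← map_sub]
  convert h3 using 2
  ring

theorem v_fac (hv : Val v) (hp : v (p : Ω) = 1) [CharZero Ω] (j : ℕ) :
    v (j.factorial : Ω) ≤ j := by
  have hP : p.Prime := Fact.out
  have hp0 : (p : Ω) ≠ 0 := Nat.cast_ne_zero.2 hP.ne_zero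
  have hu : ∀ u : ℕ, ¬ p ∣ u → v (u : Ω) ≤ 0 := by
    intro u hu
    by_contra hc
    push Not at hc
    obtain ⟨x, y, hxy⟩ := Nat.isCoprime_iff_coprime.2 ((Nat.Prime.coprime_iff_not_dvd hP).2 hu)
    have hi : ∀ z : ℤ, Ge v 0 (z : Ω) := fun z => by
      obtain ⟨k, rfl | rfl⟩ := z.eq_nat_or_neg
      · simpa using nat_FD8 hv k
      · simpa using neg_FD8 hv (nat_FD8 hv k)
    have h1 : Ge v (min 1 (v u)) ((x : Ω) * p + (y : Ω) * u) :=
      (((hi x).mul hv (Ge.self (p : Ω))).mono (by rw [hp, zero_add]; exact min_le_left _ _)).add hv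
        (((hi y).mul hv (Ge.self (u : Ω))).mono (by rw [zero_add]; exact min_le_right _ _))
    have h2 : (x : Ω) * p + (y : Ω) * u = 1 := by exact_mod_cast congrArg (Int.cast : ℤ → Ω) hxy
    rw [h2] at h1
    have h3 := h1.resolve_left one_ne_zero
    rw [mulv_one hv.mul] at h3
    exact absurd h3 (not_le.2 (lt_min one_pos hc))
  obtain ⟨e, u, hu', he⟩ := Nat.exists_eq_pow_mul_and_not_dvd j.factorial_ne_zero p hP.ne_one
  have hu0 : (u : Ω) ≠ 0 := Nat.cast_ne_zero.2 fun h => hu' (h ▸ dvd_zero p)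
  have hej : e ≤ j := by
    have h1 : e ≤ padicValNat p j.factorial :=
      (padicValNat_dvd_iff_le j.factorial_ne_zero).1 ⟨u, he⟩
    exact h1.trans (padicValNat_factorial_le p j)
  rw [he, Nat.cast_mul, Nat.cast_pow, hv.mul _ _ (pow_ne_zero _ hp0) hu0, mulv_pow hv.mul hp0, hp]
  have : (e : ℚ) ≤ j := by exact_mod_cast hej
  linarith [hu u hu']

theorem hf_FF (hσ : ∀ o : WittVector p (AlgebraicClosure (ZMod p)),
      σ (algebraMap _ K o) = algebraMap _ K (WittVector.frobenius o))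
    (hs : ∀ a, s (algebraMap K Ω a) = algebraMap K Ω (σ a)) (hv : Val v)
    (hτ : ∀ (τ : Ω ≃ₐ[K] Ω) a, v (τ a) = v a) (hvs : ∀ a, v (s a) = v a) (hp : v (p : Ω) = 1)
    (hO : ∀ a : K, a ≠ 0 → ((∃ o : WittVector p (AlgebraicClosure (ZMod p)), algebraMap _ K o = a) ↔
      0 ≤ v (algebraMap K Ω a)))
    (hZ : ∀ a : K, a ≠ 0 → ∃ m : ℤ, v (algebraMap K Ω a) = m) {Θ : Subgroup (Ω ≃+* Ω)}
    (h1 : ∀ τ : Ω ≃ₐ[K] Ω, (τ : Ω ≃+* Ω) ∈ Θ) (h2 : s ∈ Θ) : HF (FF K s) v Θ := by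
  have := charZero_K p K
  have := charZero_of_injective_algebraMap (algebraMap K Ω).injective
  have hp0 : (p : Ω) ≠ 0 := Nat.cast_ne_zero.2 (Fact.out : p.Prime).ne_zero
  have := IsAlgClosure.isAlgClosed K (K := Ω)
  refine ⟨hv, v_fac hv hp, ⟨p, natCast_mem _ p, hp0, by rw [hp]; exact one_pos⟩, fun S hS hF => ?_,
    ac1_FF hσ hs hv hp hO hZ⟩
  obtain ⟨r, hr, hrS⟩ : ∃ r : ℕ, 0 < r ∧ ∀ a ∈ S, (s ^ r) a = a := by
    induction S, hS using Set.Finite.induction_on with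
    | empty => exact ⟨1, one_pos, fun _ h => h.elim⟩
    | insert _ _ ih =>
      obtain ⟨r, hr, h⟩ := ih fun a ha => hF (Set.mem_insert_of_mem _ ha)
      obtain ⟨-, r', hr', h'⟩ := hF (Set.mem_insert _ _)
      refine ⟨r * r', mul_pos hr hr', ?_⟩
      rintro a (rfl | ha)
      · rw [mul_comm]; exact pow_fix h' r
      · exact pow_fix (h a ha) r'
  have hvr : ∀ (k : ℕ) a, v ((s ^ k) a) = v a := fun k => by
    induction k with
    | zero => exact fun _ => rfl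
    | succ k ih => exact fun a => by rw [pow_succ]; exact (ih (s a)).trans (hvs a)
  let Γ : Subgroup (Ω ≃+* Ω) :=
    { carrier := {θ | θ ∈ Θ ∧ (∀ a, v (θ a) = v a) ∧
        ∀ a, (∀ τ : Ω ≃ₐ[K] Ω, τ a = a) → (s ^ r) a = a → θ a = a}
      mul_mem' := fun {x y} ⟨a1, a2, a3⟩ ⟨b1, b2, b3⟩ => ⟨mul_mem a1 b1,
        fun a => (a2 (y a)).trans (b2 a),
        fun a h h' => (congrArg x (b3 a h h')).trans (a3 a h h')⟩
      one_mem' := ⟨one_mem _, fun _ => rfl, fun _ _ _ => rfl⟩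
      inv_mem' := fun {x} ⟨a1, a2, a3⟩ => ⟨inv_mem a1,
        fun a => (a2 (x.symm a)).symm.trans (congrArg v (x.apply_symm_apply a)),
        fun a h h' => x.symm_apply_eq.2 (a3 a h h').symm⟩ }
  have g1 : ∀ τ : Ω ≃ₐ[K] Ω, (τ : Ω ≃+* Ω) ∈ Γ := fun τ => ⟨h1 τ, hτ τ, fun a h _ => h τ⟩
  have g2 : s ^ r ∈ Γ := ⟨pow_mem h2 r, hvr r, fun a _ h => h⟩
  refine ⟨Γ, fun θ h => h.1, fun θ h => h.2.1, fun a ha θ h => h.2.2 a (hF ha).1 (hrS a ha),
    fun a h => ⟨fun τ => h _ (g1 τ), r, hr, h _ g2⟩, fun a ha hc => ?_⟩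
  obtain ⟨x, ⟨k, rfl⟩, hx⟩ := cpl_K hv hp hO a (fun j => fixed_mem _ fun τ => ha j _ (g1 τ)) hc
  refine ⟨_, fun θ h => ?_, hx⟩
  refine sub_eq_zero.1 (ge_all (v := v) (c := 0) one_pos fun i => ?_)
  obtain ⟨J, hJ⟩ := hx (i * 1 + 0)
  have e1 := hJ J le_rfl
  have e2 : Ge v (i * 1 + 0) (θ (algebraMap K Ω k - a J)) :=
    e1.imp (fun e => by rw [e, map_zero]) fun e => by rwa [h.2.1]
  have e3 := sub_FD8 hv e2 e1
  rwa [map_sub, ha J θ h, sub_sub_sub_cancel_right] at e3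

end Pool.Agent.P.MP_7d29e8_ag
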