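import Pool.Agent.P.MP_7d29e8_ag.FD5

set_option autoImplicit false
set_option linter.unusedSectionVars false
set_option linter.unusedVariables false

/-! Anisotropic Lie algebras are abelian. -/

namespace Pool.Agent.P.MP_7d29e8_ag

open Finset
open scoped Classical

variable {Ω : Type} [Field Ω] [CharZero Ω] [IsAlgClosed Ω] {F : Subfield Ω} {v : Ω → ℚ}
  {Θ : Subgroup (Ω ≃+* Ω)} {L : Type} [LieRing L] [LieAlgebra F L] [FiniteDimensional F L]

attribute [local instance 100] LieRing.ofAssociativeRing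

lemma ge_one_FD6 (hv : Val v) : Ge v 0 (1 : Ω) := Or.inr (mulv_one hv.mul).ge

lemma ge_pow_FD6 (hv : Val v) {t : Ω} {c : ℚ} (ht : Ge v c t) (n : ℕ) : Ge v (n * c) (t ^ n) := by
  induction n with
  | zero => simpa using ge_one_FD6 hv
  | succ n ih =>
    rw [pow_succ]
    exact (ih.mul hv ht).mono (by push_cast; linarith)

lemma poly_bd_FD6 (hv : Val v) (q : Polynomial F) :
    ∃ c : ℚ, ∀ t : F, Ge v 0 (t : Ω) → Ge v c (q.eval t : F) := by
  induction q using Polynomial.induction_on' with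
  | add p q hp hq =>
    obtain ⟨c, hc⟩ := hp
    obtain ⟨c', hc'⟩ := hq
    refine ⟨min c c', fun t ht => ?_⟩
    rw [Polynomial.eval_add, Subfield.coe_add]
    exact ((hc t ht).mono (min_le_left _ _)).add hv ((hc' t ht).mono (min_le_right _ _))
  | monomial n a =>
    refine ⟨v a, fun t ht => ?_⟩
    rw [Polynomial.eval_monomial, Subfield.coe_mul, SubmonoidClass.coe_pow]
    exact ((Ge.self (a : Ω)).mul hv (ge_pow_FD6 hv ht n)).mono (by simp)

lemma big_FD6 {ε : ℚ} (hε : 0 < ε) (C : ℚ) : ∃ a0 : ℕ, ∀ a, a0 ≤ a → C ≤ a * ε := by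
  obtain ⟨a0, h⟩ := exists_nat_ge (C / ε)
  refine ⟨a0, fun a ha => ?_⟩
  rw [div_le_iff₀ hε] at h
  exact h.trans (mul_le_mul_of_nonneg_right (by exact_mod_cast ha) hε.le)

lemma unit_FD6 (hv : Val v) {a b : Ω} (ha : a ≠ 0) (h0 : v a = 0) (hb : Ge v 1 b) :
    a + b ≠ 0 ∧ v (a + b) = 0 := by
  have h1 : Ge v 0 (a + b) := Ge.add hv (Or.inr h0.ge) (hb.mono zero_le_one)
  have h2 : ∀ δ : ℚ, 0 < δ → ¬Ge v δ (a + b) := fun δ hδ h => by
    have := (h.mono (min_le_left δ 1)).sub hv (hb.mono (min_le_right δ 1))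
    rw [add_sub_cancel_right] at this
    have h3 := this.resolve_left ha
    rw [h0] at h3
    exact absurd h3 (not_le.2 (lt_min hδ one_pos))
  have h4 : a + b ≠ 0 := fun e => h2 1 one_pos (Or.inl e)
  refine ⟨h4, le_antisymm (not_lt.1 fun h => h2 _ h (Ge.self _)) (h1.resolve_left h4)⟩

lemma HF.ac1' (H : HF F v Θ) {N d : ℕ} {D : MvPolynomial (Fin N) F} (hd0 : 0 < d) (hd : d < N)
    (hD : D.IsHomogeneous d) (h0 : D ≠ 0) (C : ℚ) :
    ∃ x : Fin N → F, (∃ i, (x i : Ω) ≠ 0 ∧ v (x i) = 0) ∧ MvPolynomial.eval x D ≠ 0 ∧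
      Ge v C (MvPolynomial.eval x D : F) := by
  have hv := H.val
  obtain ⟨x, -, ⟨i0, hi0, hv0⟩, hx⟩ := H.ac1 N d D hd0 hd hD C
  obtain ⟨π, hπF, hπ0, hπ⟩ := H.unif
  obtain ⟨y, hy⟩ : ∃ y : Fin N → F, MvPolynomial.eval y D ≠ 0 := by
    by_contra hn
    push Not at hn
    exact h0 (MvPolynomial.funext fun y => by rw [hn y, map_zero])
  set p : Polynomial F := MvPolynomial.aeval
    (fun i => Polynomial.C (x i) + Polynomial.X * Polynomial.C (y i - x i)) D with hp
  have hev : ∀ t : F, p.eval t = MvPolynomial.eval (fun i => x i + t * (y i - x i)) D := fun t => by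
    have := MvPolynomial.map_aeval
      (fun i => Polynomial.C (x i) + Polynomial.X * Polynomial.C (y i - x i))
      (Polynomial.evalRingHom t) D
    rw [Polynomial.coe_evalRingHom] at this
    rw [hp, this, ← MvPolynomial.eval₂_id, MvPolynomial.coe_eval₂Hom]
    congr 1
    · ext a; simp
    · funext i; simp
  have hp0 : p ≠ 0 := fun e => hy (by
    have := hev 1
    rw [e, Polynomial.eval_zero] at this
    simpa using this.symm)
  let t : ℕ → F := fun a => (⟨π, hπF⟩ : F) ^ a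
  have htv : ∀ a : ℕ, Ge v (a * v π) (t a : Ω) := fun a => ge_pow_FD6 hv (Ge.self π) a
  have hinj : Function.Injective t := fun a b hab => by
    have e : π ^ a = π ^ b := congrArg Subtype.val hab
    have e2 := congrArg v e
    rw [mulv_pow hv.mul hπ0, mulv_pow hv.mul hπ0] at e2
    exact_mod_cast mul_right_cancel₀ hπ.ne' e2
  have hfin : (t ⁻¹' {z | p.IsRoot z}).Finite :=
    (Polynomial.finite_setOfPred_isRoot hp0).preimage hinj.injOn
  obtain ⟨c, hc⟩ := poly_bd_FD6 hv p.divX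
  obtain ⟨a1, h1⟩ := big_FD6 hπ (C - c)
  obtain ⟨a2, h2⟩ := big_FD6 hπ (1 - v ((y i0 - x i0 : F) : Ω))
  obtain ⟨a, ha, hlt⟩ := hfin.infinite_compl.exists_gt (max a1 a2)
  refine ⟨fun i => x i + t a * (y i - x i), ⟨i0, ?_⟩, ?_, ?_⟩
  · rw [Subfield.coe_add, Subfield.coe_mul]
    refine unit_FD6 hv hi0 hv0 (((htv a).mul hv (Ge.self _)).mono ?_)
    linarith [h2 a ((le_max_right _ _).trans hlt.le)]
  · rw [← hev]
    exact ha
  · have e0 : p.coeff 0 = MvPolynomial.eval x D := by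
      rw [Polynomial.coeff_zero_eq_eval_zero, hev]
      simp
    have e1 : p.eval (t a) = t a * p.divX.eval (t a) + MvPolynomial.eval x D := by
      conv_lhs => rw [← Polynomial.X_mul_divX_add p]
      rw [Polynomial.eval_add, Polynomial.eval_mul, Polynomial.eval_X, Polynomial.eval_C, e0]
    rw [← hev, e1, Subfield.coe_add, Subfield.coe_mul]
    refine Ge.add hv (((htv a).mul hv (hc _ ((htv a).mono (by positivity)))).mono ?_) hx
    linarith [h1 a ((le_max_left _ _).trans hlt.le)]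

/-- an element with a small and a large nonzero eigenvalue -/
theorem two_slopes (H : HF F v Θ) (hS : SS L) (hL : ∃ X Y : L, ⁅X, Y⁆ ≠ 0) :
    ∃ (X : L) (R : ℚ) (a b : Ω), 0 < R ∧ a ≠ 0 ∧ b ≠ 0 ∧ R ≤ v a ∧ v b < R ∧
      ((LieAlgebra.ad F L X).charpoly.map F.subtype).IsRoot a ∧
      ((LieAlgebra.ad F L X).charpoly.map F.subtype).IsRoot b := by
  have hv := H.val
  obtain ⟨A, B, hAB⟩ := hL
  let z : Submodule F L := LinearMap.ker (LieAlgebra.ad F L).toLinearMap
  have hz : ∀ X : L, X ∈ z ↔ ∀ Y : L, ⁅X, Y⁆ = 0 := fun X => by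
    rw [LinearMap.mem_ker, LinearMap.ext_iff]
    rfl
  obtain ⟨W, hW⟩ := z.exists_isCompl
  let w := Module.finBasis F W
  let φ : W →ₗ[F] Module.End F L := (LieAlgebra.ad F L).toLinearMap ∘ₗ W.subtype
  have hφ : ∀ X : W, φ X = LieAlgebra.ad F L (X : L) := fun X => rfl
  have hle := φ.nilRank_le_finrank
  have hr : φ.nilRank < Module.finrank F L := by
    refine lt_of_le_of_ne hle fun e => hAB ?_
    have key : ∀ X ∈ W, X ∈ z := fun X hX => by
      have h1 := φ.nilRank_le_natTrailingDegree_charpoly ⟨X, hX⟩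
      have h2 := (φ ⟨X, hX⟩).finrank_maxGenEigenspace_zero_eq
      have h3 := ((φ ⟨X, hX⟩).maxGenEigenspace 0).finrank_le
      have h4 : IsNilpotent (φ ⟨X, hX⟩) :=
        ((φ ⟨X, hX⟩).charpoly_nilpotent_tfae.out 3 0).1 (by omega)
      exact (hz X).2 (hS.nil h4)
    have hA : A ∈ z ⊔ W := by rw [hW.sup_eq_top]; trivial
    rw [sup_eq_left.2 key] at hA
    exact (hz A).1 hA B
  have hzr : Module.finrank F z < φ.nilRank := by
    obtain ⟨X, hX⟩ := φ.exists_isNilRegular
    rw [LinearMap.isNilRegular_iff_natTrailingDegree_charpoly_eq_nilRank] at hX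
    have hXz : (X : L) ∉ z := fun h => by
      have e : φ X = 0 := h
      have h4 : (φ X).charpoly.natTrailingDegree = Module.finrank F L :=
        ((φ X).charpoly_nilpotent_tfae.out 0 3).1 (by rw [e]; exact IsNilpotent.zero)
      omega
    rw [← hX, ← (φ X).finrank_maxGenEigenspace_zero_eq]
    have hm : ∀ Y : L, ⁅(X : L), Y⁆ = 0 → Y ∈ (φ X).maxGenEigenspace 0 := fun Y hY =>
      (Module.End.mem_maxGenEigenspace _ _ _).2 ⟨1, by simpa [hφ] using hY⟩
    refine Submodule.finrank_lt_finrank_of_lt (lt_of_le_of_ne (fun Y hY => hm Y ?_) fun e => hXz ?_)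
    · rw [← lie_skew, (hz Y).1 hY, neg_zero]
    · rw [e]
      exact hm _ (lie_self _)
  have hdim := Submodule.finrank_add_eq_of_isCompl hW
  obtain ⟨R, hR, hb⟩ := bound H hS
  have hb' : ∀ i, ∃ c : ℚ, ∀ X : L, EG F v R (LieAlgebra.ad F L X) →
      Ge v c ((w.coord i ∘ₗ W.projectionOnto z hW.symm) X : F) := fun i =>
    hb _ fun Z hZ => by
      rw [LinearMap.comp_apply, Submodule.projectionOnto_apply_of_mem_right hW.symm ((hz Z).2 hZ),
        map_zero]
  choose c hc using hb'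
  obtain ⟨c0, hc0⟩ := Finite.exists_ge c
  obtain ⟨π, hπF, hπ0, hπ⟩ := H.unif
  obtain ⟨a, ha⟩ := big_FD6 hπ (1 - c0)
  have ha' := ha a le_rfl
  have hpos : 0 ≤ (a : ℚ) * v π := by positivity
  obtain ⟨x, ⟨i0, hi0, hv0⟩, hx1, hx2⟩ := H.ac1' (d := Module.finrank F L - φ.nilRank)
    (D := (φ.polyCharpoly w).coeff φ.nilRank) (by omega) (by omega)
    (φ.polyCharpoly_coeff_isHomogeneous w _ _ (by omega)) (φ.polyCharpoly_coeff_nilRank_ne_zero w)
    (Module.finrank F L * (R + a * v π))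
  let X : W := w.equivFun.symm x
  have hX : ⇑(w.repr X) = x := by
    rw [← w.equivFun_apply]
    exact w.equivFun.apply_symm_apply x
  rw [← hX, φ.polyCharpoly_coeff_eval] at hx1 hx2
  obtain ⟨α, hα0, hα1, hα2⟩ := big_root hv hr (fun i hi =>
    Polynomial.coeff_eq_zero_of_lt_natTrailingDegree
      (hi.trans_le (φ.nilRank_le_natTrailingDegree_charpoly X))) hx1 (by linarith) hx2
  have hn : ¬EG F v (R + a * v π) (LieAlgebra.ad F L (X : L)) := fun hE => by
    let u : F := (⟨π, hπF⟩ : F)⁻¹ ^ a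
    have hu0 : (u : Ω) = π⁻¹ ^ a := rfl
    have hu1 : (u : Ω) ≠ 0 := hu0 ▸ pow_ne_zero _ (inv_ne_zero hπ0)
    have hu : v u = -(a * v π) := by
      rw [hu0, mulv_pow hv.mul (inv_ne_zero hπ0), mulv_inv hv.mul hπ0, mul_neg]
    have g1 := ((eg_iff H (by linarith)).1 hE).scale hv (C' := -(a * v π)) (a := fun j => u ^ j)
      (c := 0) fun j => by
        rw [add_zero, ← hu]
        exact ge_pow_FD6 hv (Ge.self _) j
    have g2 : EG F v R (LieAlgebra.ad F L (u • (X : L))) := by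
      rw [eg_iff H (by linarith), map_smul]
      simp only [smul_pow]
      simpa using g1
    have g3 := hc i0 _ g2
    rw [map_smul, LinearMap.comp_apply, Submodule.projectionOnto_apply_left, w.coord_apply, hX,
      smul_eq_mul, Subfield.coe_mul] at g3
    have g4 := g3.resolve_left (mul_ne_zero hu1 hi0)
    rw [hv.mul _ _ hu1 hi0, hu, hv0] at g4
    linarith [hc0 i0]
  obtain ⟨β, hβ⟩ := not_forall.1 hn
  obtain ⟨hβ1, hβ2⟩ := Classical.not_imp.1 hβ
  obtain ⟨hβ3, hβ4⟩ := not_or.1 hβ2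
  exact ⟨X, R + a * v π, α, β, by linarith, hα0, hβ3, hα2, not_le.1 hβ4, hα1, hβ1⟩

/-- the growth subalgebra -/
theorem exists_sub (hv : Val v) (X : L) (R : ℚ) : ∃ L' : LieSubalgebra F L,
    ∀ Y, Y ∈ L' ↔ Gr F v R fun j => (LieAlgebra.ad F L X ^ j) Y := by
  refine ⟨
    { carrier := {Y | Gr F v R fun j => (LieAlgebra.ad F L X ^ j) Y}
      add_mem' := fun {Y Z} hY hZ => ?_
      zero_mem' := fun l => ⟨0, fun j => Or.inl (by simp)⟩
      smul_mem' := fun c Y hY => ?_
      lie_mem' := fun {Y Z} hY hZ l => ?_ }, fun Y => Iff.rfl⟩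
  · simpa only [Set.mem_ofPred_eq, map_add] using Gr.add hv hY hZ
  · simpa only [Set.mem_ofPred_eq, map_smul, LinearMap.lsmul_apply] using
      Gr.map hY (LinearMap.lsmul F L c)
  · obtain ⟨c, hc⟩ := bil_bd hv (LieAlgebra.ad F L).toLinearMap hY hZ l
    refine ⟨c, fun j => ?_⟩
    beta_reduce
    rw [LieAlgebra.ad_pow_lie, map_sum, AddSubmonoidClass.coe_finsetSum]
    refine Ge.sum hv fun q hq => ?_
    rw [map_nsmul, nsmul_eq_mul, Subfield.coe_mul, SubringClass.coe_natCast]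
    refine ((Ge.nat hv _).mul hv (hc q.1 q.2)).mono (le_of_eq ?_)
    rw [← mem_antidiagonal.1 hq]
    push_cast
    ring

lemma abel_FD6 (H : HF F v Θ) (n : ℕ) : ∀ (L : Type) [LieRing L] [LieAlgebra F L]
    [FiniteDimensional F L], Module.finrank F L = n → SS L → ∀ X Y : L, ⁅X, Y⁆ = 0 := by
  have hv := H.val
  induction n using Nat.strong_induction_on with
  | _ n ih =>
    intro L _ _ _ hn hS A B
    by_contra hAB
    obtain ⟨X, R, a, b, hR, ha0, hb0, ha, hb, ra, rb⟩ := two_slopes H hS ⟨A, B, hAB⟩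
    obtain ⟨L', hL'⟩ := exists_sub (F := F) hv X R
    have hne : L'.toSubmodule ≠ ⊤ := fun e => by
      obtain ⟨Q, hQ, hr, w, hw, hQw⟩ := slope H _ hb0 rb
      have hm : w ∈ L'.toSubmodule := by rw [e]; trivial
      exact hw (zero_of_gr hv hQ (fun z hz => ⟨(hr z hz).1, (hr z hz).2 ▸ hb⟩) hQw ((hL' w).1 hm))
    have hlt : Module.finrank F L' < n := hn ▸ Submodule.finrank_lt hne
    have hab := ih _ hlt L' rfl fun A B h => Subtype.ext (hS A B (congrArg Subtype.val h))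
    obtain ⟨Q, hQ, hr, w, hw, hQw⟩ := slope H _ ha0 ra
    have hwL : w ∈ L' :=
      (hL' w).2 (gr_of_root hv hQ hR.le (fun z hz => Or.inr ((hr z hz).2 ▸ ha)) hQw)
    have hXL : X ∈ L' := (hL' X).2 fun l => ⟨v (l X : F), fun j => by
      cases j with
      | zero => simpa using Ge.self _
      | succ j => exact Or.inl (by simp [pow_succ])⟩
    have hXw : ⁅X, w⁆ = 0 := congrArg Subtype.val (hab ⟨X, hXL⟩ ⟨w, hwL⟩)
    rw [← Polynomial.divX_mul_X_add Q] at hQw
    simp only [map_add, map_mul, Polynomial.aeval_X, Polynomial.aeval_C, LinearMap.add_apply,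
      Module.End.mul_apply, LieAlgebra.ad_apply, hXw, map_zero, zero_add,
      Module.algebraMap_end_apply] at hQw
    have h0 : Q.coeff 0 = 0 := (smul_eq_zero.1 hQw).resolve_right hw
    refine (hr 0 ?_).1 rfl
    rw [Polynomial.IsRoot.def, ← Polynomial.coeff_zero_eq_eval_zero, Polynomial.coeff_map, h0,
      map_zero]

theorem abelian_of (H : HF F v Θ) (hS : SS L) (X Y : L) : ⁅X, Y⁆ = 0 :=
  abel_FD6 H _ L rfl hS X Y

end Pool.Agent.P.MP_7d29e8_ag
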