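import Pool.Agent.P.MP_7d29e8_ag.FE1
import Pool.Agent.P.MP_7d29e8_ag.FD6

set_option autoImplicit false
set_option linter.unusedSectionVars false
set_option linter.unusedVariables false

/-! Existence of a rational regular split element. -/

namespace Pool.Agent.P.MP_7d29e8_ag

open Finset SemidirectProduct
open scoped Classical

variable {Ω : Type} [Field Ω] [CharZero Ω] {n : Type} [Fintype n] [DecidableEq n]
  {G : Subgroup (GL n Ω)} [IsAlgClosed Ω] {F : Subfield Ω} {v : Ω → ℚ}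

lemma lie_theta_FE2 {θ : Ω ≃+* Ω} (hθ : θ ∈ Stb G) {X : Matrix n n Ω} (hX : X ∈ lie (GS G) Ω) :
    X.map θ ∈ lie (GS G) Ω := by
  rw [← ac_inr]
  exact lie_ac (fun g hg => (hθ g).mpr hg) hX

lemma lev_FE2 (H : HF F v (Stb G)) {X : Matrix n n Ω} (hF : ∀ i j, X i j ∈ F) :
    ∃ Γ ≤ Stb G, (∀ θ ∈ Γ, X.map θ = X) ∧
      ∀ Y : Matrix n n Ω, (∀ θ ∈ Γ, Y.map θ = Y) → ∀ i j, Y i j ∈ F := by
  obtain ⟨Γ, h1, -, h3, h4, -⟩ := H.lev (Set.range fun p : n × n => X p.1 p.2)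
    (Set.finite_range _) (by rintro _ ⟨p, rfl⟩; exact hF _ _)
  refine ⟨Γ, h1, fun θ hθ => ?_, fun Y hY i j => h4 _ fun θ hθ => ?_⟩
  · ext i j
    exact h3 _ ⟨(i, j), rfl⟩ θ hθ
  · exact congrFun (congrFun (hY θ hθ) i) j

lemma semi_FE2 (H : HF F v (Stb G)) (hG : ND G) {ρ : Matrix n n Ω} (hρ : RSF F G ρ)
    (hm : ∀ H, RSF F G H → Commute H ρ → ∀ X ∈ lie (GS G) Ω, Commute X ρ → Commute X H)
    {X : Matrix n n Ω} (hX : X ∈ lie (GS G) Ω) (hF : ∀ i j, X i j ∈ F) (hc : Commute X ρ) :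
    ∃ k d, X = cd k d := by
  obtain ⟨k, d, Z, h1, h2, h3, h4⟩ := jordan X
  obtain ⟨Γ, -, g2, g3⟩ := lev_FE2 H hF
  have hS : ∀ i j, cd k d i j ∈ F := g3 _ fun θ hθ => jordan_fix h1 h2 h3 h4 θ (g2 θ hθ)
  have hl : cd k d ∈ lie (GS G) Ω := lie_rep (h1 ▸ hX) h2 h3 (AddMonoidHom.id Ω)
  have hZ : Z = X - cd k d := by rw [h1]; abel
  have h0 : Z = 0 := by
    refine no_nil H hG hρ hm (e := Z) ?_ ?_ ?_ h2
    · rw [hZ]; exact (lie (GS G) Ω).sub_mem hX hl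
    · intro i j
      rw [hZ, Matrix.sub_apply]
      exact F.sub_mem (hF i j) (hS i j)
    · rw [hZ]
      exact hc.sub_left (h4 ρ hc.symm).symm
  exact ⟨k, d, by rw [h1, h0, add_zero]⟩

attribute [local instance 100] LieRing.ofAssociativeRing

/-- the rational points of the centraliser -/
def LL_FE2 (F : Subfield Ω) (G : Subgroup (GL n Ω)) (ρ : Matrix n n Ω) :
    LieSubalgebra F (Matrix n n F) where
  carrier := {X | X.map F.subtype ∈ lie (GS G) Ω ∧ Commute (X.map F.subtype) ρ}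
  add_mem' := by
    rintro a b ⟨a1, a2⟩ ⟨b1, b2⟩
    refine ⟨?_, ?_⟩ <;> rw [Matrix.map_add _ (map_add _)]
    · exact (lie (GS G) Ω).add_mem a1 b1
    · exact a2.add_left b2
  zero_mem' := by
    refine ⟨?_, ?_⟩ <;> rw [Matrix.map_zero _ (map_zero _)]
    · exact (lie (GS G) Ω).zero_mem
    · exact Commute.zero_left _
  smul_mem' := by
    rintro c a ⟨a1, a2⟩
    have e : (c • a).map F.subtype = (c : Ω) • a.map F.subtype := by
      ext i j; simp
    refine ⟨?_, ?_⟩ <;> rw [e]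
    · exact (lie (GS G) Ω).smul_mem _ a1
    · exact a2.smul_left _
  lie_mem' := by
    rintro a b ⟨a1, a2⟩ ⟨b1, b2⟩
    have e : (⁅a, b⁆ : Matrix n n F).map F.subtype =
        a.map F.subtype * b.map F.subtype - b.map F.subtype * a.map F.subtype := by
      rw [Ring.lie_def, Matrix.map_sub _ (map_sub _), Matrix.map_mul, Matrix.map_mul]
    refine ⟨?_, ?_⟩ <;> rw [e]
    · exact lie.bracket (GS_one G) (GS_mul G) a1 b1
    · exact (a2.mul_left b2).sub_left (b2.mul_left a2)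

lemma map_lie_FE2 (a b : Matrix n n F) : (⁅a, b⁆ : Matrix n n F).map F.subtype =
    a.map F.subtype * b.map F.subtype - b.map F.subtype * a.map F.subtype := by
  rw [Ring.lie_def, Matrix.map_sub _ (map_sub _), Matrix.map_mul, Matrix.map_mul]

lemma comm_FE2 (H : HF F v (Stb G)) (hG : ND G) {ρ : Matrix n n Ω} (hρ : RSF F G ρ)
    (hm : ∀ H, RSF F G H → Commute H ρ → ∀ X ∈ lie (GS G) Ω, Commute X ρ → Commute X H)
    {X Y : Matrix n n Ω} (hX : X ∈ lie (GS G) Ω) (hF : ∀ i j, X i j ∈ F) (hc : Commute X ρ)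
    (hY : Y ∈ lie (GS G) Ω) (hF' : ∀ i j, Y i j ∈ F) (hc' : Commute Y ρ) : Commute X Y := by
  have hinj : Function.Injective fun A : Matrix n n F => A.map F.subtype :=
    Matrix.map_injective F.subtype_injective
  have hS : SS (LL_FE2 F G ρ) := by
    intro a b hab
    obtain ⟨k, d, hk⟩ := semi_FE2 H hG hρ hm a.2.1 (fun i j => (a.1 i j).2) a.2.2
    have h1 := congrArg (fun A : LL_FE2 F G ρ => (A : Matrix n n F).map F.subtype) hab
    simp only [LieSubalgebra.coe_bracket, map_lie_FE2, ZeroMemClass.coe_zero,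
      Matrix.map_zero _ (map_zero F.subtype)] at h1
    apply Subtype.ext
    apply hinj
    simp only [LieSubalgebra.coe_bracket, map_lie_FE2, ZeroMemClass.coe_zero,
      Matrix.map_zero _ (map_zero F.subtype)]
    rw [hk] at h1 ⊢
    exact sub_eq_zero.mpr (cd_sem (sub_eq_zero.mp h1))
  let X0 : Matrix n n F := Matrix.of fun i j => ⟨X i j, hF i j⟩
  let Y0 : Matrix n n F := Matrix.of fun i j => ⟨Y i j, hF' i j⟩
  have eX : X0.map F.subtype = X := rfl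
  have eY : Y0.map F.subtype = Y := rfl
  have h := abelian_of H hS (⟨X0, hX, hc⟩ : LL_FE2 F G ρ) ⟨Y0, hY, hc'⟩
  have h1 := congrArg (fun A : LL_FE2 F G ρ => (A : Matrix n n F).map F.subtype) h
  simp only [LieSubalgebra.coe_bracket, map_lie_FE2, ZeroMemClass.coe_zero,
    Matrix.map_zero _ (map_zero F.subtype), eX, eY] at h1
  exact sub_eq_zero.mp h1

theorem exists_torus (H : HF F v (Stb G)) (hG : ND G) :
    ∃ (y : GL n Ω) (h : n → ℚ), cd y (fun i => (h i : Ω)) ∈ lie (GS G) Ω ∧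
      (∀ i j, cd y (fun i => (h i : Ω)) i j ∈ F) ∧
      ∀ X ∈ lie (GS G) Ω, Commute X (cd y fun i => (h i : Ω)) → ∃ d, X = cd y d := by
  obtain ⟨ρ, hρ, hm⟩ := exists_min F G
  obtain ⟨y, hy⟩ := simdiag {X | X ∈ lie (GS G) Ω ∧ (∀ i j, X i j ∈ F) ∧ Commute X ρ}
    (fun X hX Y hY => comm_FE2 H hG hρ hm hX.1 hX.2.1 hX.2.2 hY.1 hY.2.1 hY.2.2)
    (fun X hX => semi_FE2 H hG hρ hm hX.1 hX.2.1 hX.2.2)
  obtain ⟨d, hd⟩ := hy ρ ⟨hρ.1, hρ.2.1, Commute.refl ρ⟩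
  obtain ⟨k, q, hq⟩ := hρ.2.2
  choose σ hσ using cd_range (hd.symm.trans hq)
  have e : cd y (fun i => (q (σ i) : Ω)) = ρ := by
    rw [hd]; congr 1; funext i; exact (hσ i).symm
  refine ⟨y, fun i => q (σ i), by rw [e]; exact hρ.1, by rw [e]; exact hρ.2.1, ?_⟩
  rw [e]
  obtain ⟨Γ, g1, g2, g3⟩ := lev_FE2 H hρ.2.1
  let V : Submodule Ω (Matrix n n Ω) :=
    { carrier := {X | X ∈ lie (GS G) Ω ∧ Commute X ρ}
      add_mem' := fun ha hb => ⟨(lie (GS G) Ω).add_mem ha.1 hb.1, ha.2.add_left hb.2⟩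
      zero_mem' := ⟨(lie (GS G) Ω).zero_mem, Commute.zero_left _⟩
      smul_mem' := fun c a ha => ⟨(lie (GS G) Ω).smul_mem c ha.1, ha.2.smul_left c⟩ }
  have hV := desc_mat (Γ : Set (Ω ≃+* Ω)) V (fun θ hθ X hX => ⟨lie_theta_FE2 (g1 hθ) hX.1, by
    have h1 := congrArg (fun A : Matrix n n Ω => A.map θ) hX.2.eq
    simp only [Matrix.map_mul, g2 θ hθ] at h1
    exact h1⟩)
  intro X hX hc
  have hX' := hV (show X ∈ V from ⟨hX, hc⟩)
  clear hX hc
  induction hX' using Submodule.span_induction with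
  | mem Y hY => exact hy Y ⟨hY.1.1, g3 Y hY.2, hY.1.2⟩
  | zero => exact ⟨0, (cd_zero y).symm⟩
  | add a b _ _ ha hb =>
    obtain ⟨da, rfl⟩ := ha
    obtain ⟨db, rfl⟩ := hb
    exact ⟨da + db, (cd_add y da db).symm⟩
  | smul c a _ ha =>
    obtain ⟨da, rfl⟩ := ha
    exact ⟨c • da, (cd_smul y c da).symm⟩

end Pool.Agent.P.MP_7d29e8_ag
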