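import Pool.Agent.P.MP_7d29e8_ag.F0

set_option autoImplicit false
set_option linter.unusedSectionVars false
set_option linter.unusedVariables false

/-! Conjugates of diagonal matrices. -/

namespace Pool.Agent.P.MP_7d29e8_ag

open Finset SemidirectProduct
open scoped Classical

variable {Ω : Type} [Field Ω] {n : Type} [Fintype n] [DecidableEq n] {k k' : GL n Ω} {d d' : n → Ω}

lemma cd_eq_ac (k : GL n Ω) (d : n → Ω) : cd k d = ac (inl k) (Matrix.diagonal d) := rfl

lemma ac_inj_FA2 (φ : SL n Ω) {X Y : Matrix n n Ω} (h : ac φ X = ac φ Y) : X = Y := by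
  rw [← ac_inv_ac φ X, h, ac_inv_ac]

lemma ac_surj_FA2 (φ : SL n Ω) (Y : Matrix n n Ω) : ∃ X, Y = ac φ X :=
  ⟨ac φ⁻¹ Y, (ac_ac_inv φ Y).symm⟩

lemma ac_smul_FA2 (k : GL n Ω) (c : Ω) (X : Matrix n n Ω) :
    ac (inl k : SL n Ω) (c • X) = c • ac (inl k : SL n Ω) X := by
  simp only [ac_inl, Matrix.mul_smul, Matrix.smul_mul]

lemma ad_FA2 (k : GL n Ω) (d : n → Ω) (Y : Matrix n n Ω) :
    cd k d * ac (inl k : SL n Ω) Y - ac (inl k : SL n Ω) Y * cd k d =
      ac (inl k : SL n Ω) (Matrix.of fun i j => (d i - d j) * Y i j) := by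
  rw [cd_eq_ac, ← map_mul, ← map_mul, ← map_sub]
  congr 1
  ext i j
  simp only [Matrix.sub_apply, Matrix.diagonal_mul, Matrix.mul_diagonal, Matrix.of_apply]
  ring

lemma eig_iff_FA2 (k : GL n Ω) (d : n → Ω) (Y : Matrix n n Ω) (c : Ω) :
    cd k d * ac (inl k : SL n Ω) Y - ac (inl k : SL n Ω) Y * cd k d =
      c • ac (inl k : SL n Ω) Y ↔ ∀ i j, (d i - d j - c) * Y i j = 0 := by
  rw [ad_FA2, ← ac_smul_FA2]
  constructor
  · intro h i j
    have := congrFun (congrFun (ac_inj_FA2 _ h) i) j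
    simp only [Matrix.of_apply, Matrix.smul_apply, smul_eq_mul] at this
    linear_combination this
  · intro h
    congr 1
    ext i j
    simp only [Matrix.of_apply, Matrix.smul_apply, smul_eq_mul]
    linear_combination h i j

lemma comm_iff_FA2 (k : GL n Ω) (d : n → Ω) (Y : Matrix n n Ω) :
    Commute (cd k d) (ac (inl k : SL n Ω) Y) ↔ ∀ i j, (d i - d j) * Y i j = 0 := by
  have h := eig_iff_FA2 k d Y 0
  simp only [zero_smul, sub_zero] at h
  rw [← h, sub_eq_zero]
  rfl

lemma cd_iff_FA2 (k k' : GL n Ω) (d d' : n → Ω) :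
    cd k d = cd k' d' ↔ ∀ i j, (d' i - d j) * (k'⁻¹ * k).val i j = 0 := by
  have key : cd k d = cd k' d' ↔
      (k'⁻¹ * k).val * Matrix.diagonal d = Matrix.diagonal d' * (k'⁻¹ * k).val := by
    constructor
    · intro h
      have h2 : (k'⁻¹).val * cd k d * k.val = (k'⁻¹).val * cd k' d' * k.val := by rw [h]
      simpa only [cd, Units.val_mul, mul_assoc, Units.inv_mul, mul_one,
        Units.inv_mul_cancel_left] using h2
    · intro h
      have h2 : k'.val * ((k'⁻¹ * k).val * Matrix.diagonal d) * (k⁻¹).val =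
          k'.val * (Matrix.diagonal d' * (k'⁻¹ * k).val) * (k⁻¹).val := by rw [h]
      simpa only [cd, Units.val_mul, mul_assoc, Units.mul_inv, mul_one,
        Units.mul_inv_cancel_left] using h2
  rw [key]
  constructor
  · intro h i j
    have := congrFun (congrFun h i) j
    simp only [Matrix.diagonal_mul, Matrix.mul_diagonal] at this
    linear_combination -this
  · intro h
    ext i j
    simp only [Matrix.diagonal_mul, Matrix.mul_diagonal]
    linear_combination -h i j

lemma cd_one (d : n → Ω) : cd 1 d = Matrix.diagonal d := by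
  simp [cd]

lemma ac_cd (g k : GL n Ω) (d : n → Ω) : ac (inl g) (cd k d) = cd (g * k) d := by
  simp only [ac_inl, cd, mul_inv_rev, Units.val_mul, mul_assoc]

lemma cd_add (k : GL n Ω) (d d' : n → Ω) : cd k (d + d') = cd k d + cd k d' := by
  rw [cd_eq_ac, cd_eq_ac, cd_eq_ac, ← map_add, Matrix.diagonal_add]
  rfl

lemma cd_smul (k : GL n Ω) (c : Ω) (d : n → Ω) : cd k (c • d) = c • cd k d := by
  rw [cd_eq_ac, cd_eq_ac, ← ac_smul_FA2, Matrix.diagonal_smul]

lemma cd_mul (k : GL n Ω) (d d' : n → Ω) : cd k (d * d') = cd k d * cd k d' := by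
  rw [cd_eq_ac, cd_eq_ac, cd_eq_ac, ← map_mul, Matrix.diagonal_mul_diagonal]
  rfl

lemma cd_zero (k : GL n Ω) : cd k (0 : n → Ω) = 0 := by
  have : Matrix.diagonal (0 : n → Ω) = 0 := Matrix.diagonal_zero
  rw [cd_eq_ac, this, map_zero]

lemma cd_sum {α : Type} (k : GL n Ω) (s : Finset α) (f : α → n → Ω) :
    cd k (∑ a ∈ s, f a) = ∑ a ∈ s, cd k (f a) := by
  induction s using Finset.induction_on with
  | empty => simp [cd_zero]
  | insert a s ha ih => rw [Finset.sum_insert ha, Finset.sum_insert ha, cd_add, ih]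

lemma cd_inj (h : cd k d = cd k d') : d = d' := by
  rw [cd_eq_ac, cd_eq_ac] at h
  exact Matrix.diagonal_injective (ac_inj_FA2 _ h)

lemma trace_cd (k : GL n Ω) (d : n → Ω) : (cd k d).trace = ∑ i, d i := by
  rw [cd, Matrix.trace_mul_cycle, Units.inv_mul, one_mul, Matrix.trace_diagonal]

lemma cd_entry (h : cd k d = cd k' d') {i j : n} (h0 : (k'⁻¹ * k).val i j ≠ 0) : d' i = d j :=
  sub_eq_zero.1 ((mul_eq_zero.1 ((cd_iff_FA2 k k' d d').1 h i j)).resolve_right h0)

lemma cd_fun (h : cd k d = cd k' d') (f : Ω → Ω) : cd k (f ∘ d) = cd k' (f ∘ d') := by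
  rw [cd_iff_FA2]
  intro i j
  by_cases h0 : (k'⁻¹ * k).val i j = 0
  · rw [h0, mul_zero]
  · simp only [Function.comp_apply, cd_entry h h0, sub_self, zero_mul]

lemma cd_range (h : cd k d = cd k' d') (j : n) : ∃ i, d j = d' i := by
  by_contra hne
  push Not at hne
  have h0 : ∀ i, (k'⁻¹ * k).val i j = 0 := fun i => by
    by_contra h1
    exact hne i (cd_entry h h1).symm
  have h1 : (((k'⁻¹ * k)⁻¹).val * (k'⁻¹ * k).val) j j = 0 := by
    rw [Matrix.mul_apply]
    exact Finset.sum_eq_zero fun i _ => by rw [h0 i, mul_zero]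
  rw [Units.inv_mul, Matrix.one_apply_eq] at h1
  exact one_ne_zero h1

lemma cd_comm {Y : Matrix n n Ω} (h : Commute Y (cd k d)) (f : Ω → Ω) :
    Commute Y (cd k (f ∘ d)) := by
  obtain ⟨X, rfl⟩ := ac_surj_FA2 (inl k : SL n Ω) Y
  have h1 := (comm_iff_FA2 k d X).1 h.symm
  refine ((comm_iff_FA2 k (f ∘ d) X).2 fun i j => ?_).symm
  rcases mul_eq_zero.1 (h1 i j) with h2 | h2
  · simp only [Function.comp_apply, sub_eq_zero.1 h2, sub_self, zero_mul]
  · rw [h2, mul_zero]

lemma cd_map (θ : Ω ≃+* Ω) (k : GL n Ω) (d : n → Ω) :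
    (cd k d).map θ = cd (ga n Ω θ k) (θ ∘ d) := by
  have h1 : (Matrix.diagonal d).map θ = Matrix.diagonal (θ ∘ d) :=
    Matrix.diagonal_map (map_zero θ)
  simp only [cd, ← map_inv, ga_val, ← h1]
  rw [Matrix.map_mul, Matrix.map_mul]

/-- additive functional calculus acts on eigenvectors of the adjoint action -/
lemma cd_eig {Y : Matrix n n Ω} {c : Ω} (h : cd k d * Y - Y * cd k d = c • Y) (φ : Ω →+ Ω) :
    cd k (φ ∘ d) * Y - Y * cd k (φ ∘ d) = φ c • Y := by
  obtain ⟨X, rfl⟩ := ac_surj_FA2 (inl k : SL n Ω) Y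
  have h1 := (eig_iff_FA2 k d X c).1 h
  refine (eig_iff_FA2 k (φ ∘ d) X (φ c)).2 fun i j => ?_
  rcases mul_eq_zero.1 (h1 i j) with h2 | h2
  · simp only [Function.comp_apply, ← map_sub, h2, map_zero, zero_mul]
  · rw [h2, mul_zero]

lemma cd_sem {Y : Matrix n n Ω}
    (h : Commute (cd k d) (cd k d * Y - Y * cd k d)) : Commute (cd k d) Y := by
  obtain ⟨X, rfl⟩ := ac_surj_FA2 (inl k : SL n Ω) Y
  rw [ad_FA2] at h
  have h1 := (comm_iff_FA2 k d _).1 h
  refine (comm_iff_FA2 k d X).2 fun i j => ?_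
  rcases mul_eq_zero.1 (h1 i j) with h2 | h2
  · rw [h2, zero_mul]
  · exact h2

/-- an eigenvector of `ad (S + Z)` is an eigenvector of `ad S` -/
lemma cd_eig_jordan {Z Y : Matrix n n Ω} {c : Ω} (hZ : IsNilpotent Z) (hc : Commute Z (cd k d))
    (h : (cd k d + Z) * Y - Y * (cd k d + Z) = c • Y) : cd k d * Y - Y * cd k d = c • Y := by
  set S := cd k d with hS
  let A : Module.End Ω (Matrix n n Ω) :=
    LinearMap.mulLeft Ω S - LinearMap.mulRight Ω S - c • (1 : Module.End Ω (Matrix n n Ω))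
  let B : Module.End Ω (Matrix n n Ω) := LinearMap.mulRight Ω Z - LinearMap.mulLeft Ω Z
  have hA : ∀ X, A X = S * X - X * S - c • X := fun X => rfl
  have hB : ∀ X, B X = X * Z - Z * X := fun X => rfl
  have hBn : IsNilpotent B :=
    (LinearMap.commute_mulLeft_right Z Z).symm.isNilpotent_sub
      ((LinearMap.isNilpotent_mulRight_iff Ω Z).2 hZ)
      ((LinearMap.isNilpotent_mulLeft_iff Ω Z).2 hZ)
  have hAB : ∀ X, A (B X) = B (A X) := fun X => by
    have e := hc.eq
    simp only [hA, hB, mul_sub, sub_mul, smul_sub, Matrix.mul_smul, Matrix.smul_mul]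
    have e1 : X * Z * S = X * S * Z := by rw [mul_assoc, mul_assoc, e]
    have e2 : S * (Z * X) = Z * (S * X) := by rw [← mul_assoc, ← mul_assoc, e]
    rw [e1, e2, ← mul_assoc S X Z, mul_assoc Z X S]
    abel
  have hY : A Y = B Y := by
    rw [hA, hB, ← h]
    simp only [add_mul, mul_add]
    abel
  have hcomm : Commute A B := LinearMap.ext hAB
  have hpow : ∀ m : ℕ, (A ^ m) Y = (B ^ m) Y := fun m => by
    induction m with
    | zero => rfl
    | succ m ih =>
      have e1 : (A ^ (m + 1)) Y = (A ^ m * B) Y := by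
        rw [pow_succ, Module.End.mul_apply, hY, Module.End.mul_apply]
      rw [e1, (hcomm.pow_left m).eq, Module.End.mul_apply, ih, pow_succ', Module.End.mul_apply]
  obtain ⟨N, hN⟩ := hBn
  have hAN : (A ^ N) Y = 0 := by rw [hpow, hN]; rfl
  obtain ⟨X, rfl⟩ := ac_surj_FA2 (inl k : SL n Ω) Y
  have hform : ∀ m : ℕ, (A ^ m) (ac (inl k : SL n Ω) X) =
      ac (inl k : SL n Ω) (Matrix.of fun i j => (d i - d j - c) ^ m * X i j) := fun m => by
    induction m with
    | zero =>
      simp only [pow_zero, one_mul]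
      rfl
    | succ m ih =>
      rw [pow_succ', Module.End.mul_apply, ih, hA, hS, ad_FA2, ← ac_smul_FA2, ← map_sub]
      congr 1
      ext i j
      simp only [Matrix.sub_apply, Matrix.of_apply, Matrix.smul_apply, smul_eq_mul]
      ring
  rw [hform, ← map_zero (ac (inl k : SL n Ω))] at hAN
  have h0 := ac_inj_FA2 _ hAN
  refine (eig_iff_FA2 k d X c).2 fun i j => ?_
  have h1 : (d i - d j - c) ^ N * X i j = 0 := congrFun (congrFun h0 i) j
  rcases mul_eq_zero.1 h1 with h2 | h2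
  · rw [pow_eq_zero_iff'.1 h2 |>.1, zero_mul]
  · rw [h2, mul_zero]

lemma basis_of_span (S : Set (n → Ω)) (h : Submodule.span Ω S = ⊤) :
    ∃ k : GL n Ω, ∀ l, (fun i => k.val i l) ∈ S := by
  obtain ⟨b, hbS, hbsp, hbli⟩ := exists_linearIndependent Ω S
  have hsp : ⊤ ≤ Submodule.span Ω (Set.range ((↑) : b → n → Ω)) := by
    rw [Subtype.range_coe, hbsp, h]
  let B0 : Module.Basis b Ω (n → Ω) := Module.Basis.mk hbli hsp
  let e : b ≃ n := B0.indexEquiv (Pi.basisFun Ω n)
  let B : Module.Basis n Ω (n → Ω) := B0.reindex e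
  let _ := (Pi.basisFun Ω n).invertibleToMatrix B
  refine ⟨unitOfInvertible ((Pi.basisFun Ω n).toMatrix B), fun l => ?_⟩
  have h1 : (fun i => (unitOfInvertible ((Pi.basisFun Ω n).toMatrix B)).val i l) = B l := by
    funext i
    simp [Module.Basis.toMatrix_apply]
  rw [h1]
  have h2 : B l = (e.symm l : b).val := by
    simp only [B, B0, Module.Basis.reindex_apply, Module.Basis.mk_apply]
  rw [h2]
  exact hbS (e.symm l).2

lemma cd_of_eig {X : Matrix n n Ω}
    (h : ∀ l, X.mulVec (fun i => k.val i l) = d l • fun i => k.val i l) : X = cd k d := by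
  have h1 : X * k.val = k.val * Matrix.diagonal d := by
    ext i l
    have := congrFun (h l) i
    simp only [Matrix.mulVec, dotProduct, Pi.smul_apply, smul_eq_mul] at this
    rw [Matrix.mul_apply, Matrix.mul_diagonal, this, mul_comm]
  rw [cd, ← h1, mul_assoc, Units.mul_inv, mul_one]

end Pool.Agent.P.MP_7d29e8_ag
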