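import Pool.Agent.P.MP_7d29e8_ag.FA1
import Pool.Agent.P.MP_7d29e8_ag.FA2

set_option autoImplicit false
set_option linter.unusedSectionVars false
set_option linter.unusedVariables false

/-! Reflections from triples, regular elements, rational diagonal elements. -/

namespace Pool.Agent.P.MP_7d29e8_ag

open Finset SemidirectProduct
open scoped Classical

variable {Ω : Type} [Field Ω] [CharZero Ω] {n : Type} [Fintype n] [DecidableEq n]
  {ι M N : Type} [AddCommGroup M] [Module ℚ M] [AddCommGroup N] [Module ℚ N]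
  {P : RootPairing ι ℚ M N} {wt : n → M} {G : Subgroup (GL n Ω)}

theorem sl2_nrm {E : Type} [Field E] [CharZero E] {α : M} {z : N} (hz : P.toLinearMap α z = 2)
    {e f : Matrix n n E} (we : Wt wt α e) (wf : Wt wt (-α) f)
    (hef : e * f - f * e = DD P wt E z) : IsNilpotent e ∧ IsNilpotent f ∧
    Nrm P wt (inl (ex e * ex (-f) * ex e)) fun x => x - P.toLinearMap α x • z := by
  have ne : IsNilpotent e := (we.pos (P := P) (x := z) (by rw [hz]; norm_num)).nilpotent
  have nf : IsNilpotent f := (wf.pos (P := P) (x := -z) (by simp [hz])).nilpotent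
  refine ⟨ne, nf, fun x => ?_⟩
  have h1 := sl2_conj ne nf hef (by
    rw [wt_iff.mp we, hz, Rat.cast_smul_eq_qsmul]) (by
    rw [wt_iff.mp wf, map_neg, LinearMap.neg_apply, hz, Rat.cast_smul_eq_qsmul])
  set x₀ := x - (P.toLinearMap α x / 2) • z with hx₀
  have h0 : P.toLinearMap α x₀ = 0 := by
    simp [hx₀, hz]
  have c1 : Commute e (DD P wt E x₀) := by
    have := (wt_iff (P := P)).mp we x₀
    rw [h0, Rat.cast_zero, zero_smul, sub_eq_zero] at this
    exact this.symm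
  have c2 : Commute (-f) (DD P wt E x₀) := by
    have := (wt_iff (P := P)).mp wf x₀
    rw [map_neg, LinearMap.neg_apply, h0, neg_zero, Rat.cast_zero, zero_smul,
      sub_eq_zero] at this
    exact (Commute.symm this).neg_left
  have c3 := ((exp_comm ne c1).mul_left (exp_comm nf.neg c2)).mul_left (exp_comm ne c1)
  have e1 : x = x₀ + (P.toLinearMap α x / 2) • z := by simp [hx₀]
  have e2 : x - P.toLinearMap α x • z = x₀ + (P.toLinearMap α x / 2) • (-z) := by
    rw [hx₀]; module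
  show ac _ (DD P wt E x) = DD P wt E (x - P.toLinearMap α x • z)
  rw [ac_inl, Units.mul_inv_eq_iff_eq_mul, e2, Units.val_mul, Units.val_mul, ex_val ne,
    ex_val nf.neg]
  conv_lhs => rw [e1]
  rw [DD_add, DD_add, DD_smul, DD_smul, DD_neg, mul_add, add_mul, c3.eq, Matrix.mul_smul,
    Matrix.smul_mul, h1]

lemma add_rat_FF0 (φ : Ω →+ ℚ) (a : Ω) (q : ℚ) : φ (a * q) = φ a * q := by
  have h := map_rat_smul φ q a
  rw [Rat.smul_def, smul_eq_mul, mul_comm] at h
  rw [h, mul_comm]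

lemma span_key_FF0 {X : Matrix n n Ω} (h : X ∈ Submodule.span Ω (Set.range (DD P wt Ω))) :
    ∃ d, X = Matrix.diagonal d ∧ ∀ φ : Ω →+ ℚ, ∃ x, ∀ i, φ (d i) = hh P wt x i := by
  induction h using Submodule.span_induction with
  | mem Y hY =>
    obtain ⟨x, rfl⟩ := hY
    refine ⟨_, rfl, fun φ => ⟨φ 1 • x, fun i => ?_⟩⟩
    rw [hh_smul, ← add_rat_FF0, one_mul]
  | zero => exact ⟨0, by simp, fun φ => ⟨0, fun i => by simp [hh_zero]⟩⟩
  | add Y Z _ _ h1 h2 =>
    obtain ⟨d, rfl, hd⟩ := h1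
    obtain ⟨d', rfl, hd'⟩ := h2
    refine ⟨d + d', by rw [Matrix.diagonal_add]; rfl, fun φ => ?_⟩
    obtain ⟨x, hx⟩ := hd φ
    obtain ⟨y, hy⟩ := hd' φ
    exact ⟨x + y, fun i => by rw [Pi.add_apply, map_add, hx, hy, hh_add]⟩
  | smul a Y _ h1 =>
    obtain ⟨d, rfl, hd⟩ := h1
    refine ⟨a • d, by rw [Matrix.diagonal_smul], fun φ => ?_⟩
    obtain ⟨x, hx⟩ := hd (φ.comp (AddMonoidHom.mulLeft a))
    exact ⟨x, fun i => hx i⟩

lemma span_DD_diag {X : Matrix n n Ω} (h : X ∈ Submodule.span Ω (Set.range (DD P wt Ω))) :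
    ∃ d, X = Matrix.diagonal d :=
  let ⟨d, hd, _⟩ := span_key_FF0 h
  ⟨d, hd⟩

lemma span_DD_rat {q : n → ℚ} (h : Matrix.diagonal (fun i => (q i : Ω)) ∈
    Submodule.span Ω (Set.range (DD P wt Ω))) : ∃ x, hh P wt x = q := by
  obtain ⟨d, hd, h1⟩ := span_key_FF0 h
  obtain ⟨φ, hφ⟩ := exists_retr (Ω := Ω)
  obtain ⟨x, hx⟩ := h1 φ
  refine ⟨x, funext fun i => ?_⟩
  rw [← hx, ← congrFun (Matrix.diagonal_injective hd) i]
  exact (hφ (q i) 0).2

lemma span_DD_zero {X : Matrix n n Ω} (h : X ∈ Submodule.span Ω (Set.range (DD P wt Ω)))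
    (h0 : ∀ x, (X * DD P wt Ω x).trace = 0) : X = 0 := by
  obtain ⟨d, rfl, h1⟩ := span_key_FF0 h
  have hd : ∀ i, d i = 0 := by
    intro i
    by_contra hc
    obtain ⟨φ, hφ⟩ := exists_add hc
    obtain ⟨x, hx⟩ := h1 φ
    have h2 := h0 x
    rw [DD, Matrix.diagonal_mul_diagonal, Matrix.trace_diagonal] at h2
    have h3 := congrArg φ h2
    rw [map_sum, map_zero] at h3
    simp only [add_rat_FF0, ← hx] at h3
    have h4 := (sum_eq_zero_iff_of_nonneg (fun j _ => mul_self_nonneg (φ (d j)))).mp h3 i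
      (mem_univ i)
    exact hφ (mul_self_eq_zero.mp h4)
  rw [show d = 0 from funext hd]
  simp

lemma DS.cent_reg [Finite ι] (D : DS G P wt) {ρ : N} (hρ : ∀ i, P.root' i ρ ≠ 0)
    {X : Matrix n n Ω} (hX : X ∈ lie (GS G) Ω) (hz : Zer (hh P wt ρ) X) :
    X ∈ Submodule.span Ω (Set.range (DD P wt Ω)) := by
  refine D.cent X hX fun i j hij => ?_
  by_contra h0
  have h1 := D.comp_mem hX (wt i - wt j)
  obtain ⟨k, hk⟩ := D.roots (wt i - wt j) hij _ h1 (fun h2 => h0 (by
    have := congrFun (congrFun h2 i) j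
    simpa using this)) (fun a b hab => by simp [hab])
  refine h0 (hz i j ?_)
  intro h3
  apply hρ k
  change P.toLinearMap (P.root k) ρ = 0
  rw [hk, map_sub, LinearMap.sub_apply]
  exact sub_eq_zero.mpr h3

/-- an element whose centraliser is commutative is regular -/
lemma DS.reg_of_comm (D : DS G P wt) {x : N}
    (h : ∀ X ∈ lie (GS G) Ω, ∀ Y ∈ lie (GS G) Ω, Zer (hh P wt x) X → Zer (hh P wt x) Y →
      Commute X Y) (i : ι) : P.root' i x ≠ 0 := by
  intro h0
  obtain ⟨-, e, he, f, hf, we, wf, hef⟩ := D.sl2 i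
  have h0' : P.toLinearMap (P.root i) x = 0 := h0
  have hc := h e he f hf (we.zer h0') (wf.zer (by rw [map_neg, LinearMap.neg_apply, h0', neg_zero]))
  have : DD P wt Ω (P.coroot i) = DD P wt Ω 0 := by
    rw [← hef, hc.eq]; simp [DD, hh_zero]
  exact P.ne_zero' i (DD_inj D.span this)

lemma same_pairing {ι' : Type} {P' : RootPairing ι' ℚ M N} (h : P'.toLinearMap = P.toLinearMap) :
    hh P' wt = hh P wt ∧ DD P' wt Ω = DD P wt Ω ∧ lat P' wt = lat P wt := by
  have h1 : hh P' wt = hh P wt := by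
    funext x i
    simp only [hh, h]
  refine ⟨h1, ?_, ?_⟩
  · funext x
    simp only [DD, h1]
  · ext x
    rw [mem_lat, mem_lat, h1]

end Pool.Agent.P.MP_7d29e8_ag
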