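import Pool.Agent.P.MP_7d29e8_ag.F0

set_option autoImplicit false
set_option linter.unusedSectionVars false
set_option linter.unusedVariables false

/-! A root pairing from a finite set stable under reflections. -/

namespace Pool.Agent.P.MP_7d29e8_ag

open Finset SemidirectProduct
open scoped Classical

variable {n : Type} [Fintype n] [DecidableEq n]
  {ι M N : Type} [AddCommGroup M] [Module ℚ M] [AddCommGroup N] [Module ℚ N]
  {P : RootPairing ι ℚ M N} {wt : n → M}

lemma comm_FF1 (x y : N) : BB P wt x y = BB P wt y x := by simp only [BB, mul_comm]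

lemma smul_FF1 (c : ℚ) (x y : N) : BB P wt (c • x) y = c * BB P wt x y := by
  simp only [BB, hh_smul, mul_sum, mul_assoc]

lemma smul'_FF1 (c : ℚ) (x y : N) : BB P wt x (c • y) = c * BB P wt x y := by
  rw [comm_FF1, smul_FF1, comm_FF1]

lemma sub_FF1 (x y z : N) : BB P wt (x - y) z = BB P wt x z - BB P wt y z := by
  simp only [BB, hh_sub, sub_mul, sum_sub_distrib]

lemma sub'_FF1 (x y z : N) : BB P wt z (x - y) = BB P wt z x - BB P wt z y := by
  simp only [BB, hh_sub, mul_sub, sum_sub_distrib]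

lemma uniq_FF1 (hs : Submodule.span ℚ (Set.range wt) = ⊤) {α : M} {z z' : N}
    (h1 : P.toLinearMap α z = 2) (h2 : ∀ x, 2 * BB P wt z x = BB P wt z z * P.toLinearMap α x)
    (h3 : P.toLinearMap α z' = 2)
    (h4 : ∀ x, 2 * BB P wt z' x = BB P wt z' z' * P.toLinearMap α x) : z = z' := by
  refine sub_eq_zero.mp (BB_self (P := P) hs ?_)
  have a := h2 z'
  have b := h4 z
  rw [h3] at a
  rw [h1] at b
  rw [sub_FF1, sub'_FF1, sub'_FF1]
  linarith [comm_FF1 (P := P) (wt := wt) z z']

theorem exists_cv (hs : Submodule.span ℚ (Set.range wt) = ⊤) : ∃ cv, CV P wt cv := by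
  have : FiniteDimensional ℚ N := FiniteDimensional.of_injective
    (LinearMap.pi fun i => P.toLinearMap (wt i)) fun x y h => hh_inj (P := P) hs (congrFun h)
  let L : N →ₗ[ℚ] Module.Dual ℚ N :=
    ∑ i, (P.toLinearMap (wt i)).smulRight (P.toLinearMap (wt i))
  have hL : ∀ x y, L x y = BB P wt x y := fun x y => by
    simp [L, BB, LinearMap.sum_apply, hh]
  have hi : Function.Injective L := (injective_iff_map_eq_zero L).mpr fun x hx =>
    BB_self (P := P) hs (by rw [← hL, hx]; rfl)
  have hsj := (LinearMap.injective_iff_surjective_of_finrank_eq_finrank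
    Subspace.dual_finrank_eq.symm).mp hi
  choose t ht using fun α : M => hsj (P.toLinearMap α)
  have ht' : ∀ α x, BB P wt (t α) x = P.toLinearMap α x := fun α x => by rw [← hL, ht]
  have h0 : ∀ α ≠ 0, BB P wt (t α) (t α) ≠ 0 := fun α hα h => hα (pair_ext (P := P) fun x => by
    rw [← ht', BB_self hs h]; simp [BB, hh_zero])
  refine ⟨fun α => (2 / BB P wt (t α) (t α)) • t α, fun α hα => ?_, fun α hα x => ?_⟩
  · rw [map_smul, smul_eq_mul, ← ht', div_mul_cancel₀ _ (h0 α hα)]
  · rw [smul_FF1, smul_FF1, smul'_FF1, div_mul_cancel₀ _ (h0 α hα), ht' α x]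
    ring

lemma CV.smul (hs : Submodule.span ℚ (Set.range wt) = ⊤) {cv : M → N} (C : CV P wt cv) {α : M}
    (h : α ≠ 0) {c : ℚ} (hc : c ≠ 0) : cv (c • α) = c⁻¹ • cv α := by
  have h' : c • α ≠ 0 := smul_ne_zero hc h
  refine uniq_FF1 hs (C.two _ h') (C.form _ h') ?_ fun x => ?_
  · simp only [map_smul, LinearMap.smul_apply, smul_eq_mul, C.two _ h]
    field_simp
  · simp only [map_smul, LinearMap.smul_apply, smul_eq_mul, smul_FF1, smul'_FF1]
    rw [mul_left_comm, C.form _ h x]
    field_simp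

theorem exists_pairing (hs : Submodule.span ℚ (Set.range wt) = ⊤) {cv : M → N} (C : CV P wt cv)
    {Φ : Set M} (hf : Φ.Finite) (h0 : (0 : M) ∉ Φ)
    (hr : ∀ α ∈ Φ, ∀ β ∈ Φ, β - P.toLinearMap β (cv α) • α ∈ Φ) :
    ∃ Q : RootPairing Φ ℚ M N, Q.toLinearMap = P.toLinearMap ∧ (∀ i, Q.root i = i.1) ∧
      ∀ i, Q.coroot i = cv i.1 := by
  have := hf.to_subtype
  have hn : ∀ α ∈ Φ, α ≠ 0 := fun α h e => h0 (e ▸ h)
  have hB : ∀ α ≠ 0, BB P wt (cv α) (cv α) ≠ 0 := fun α h e => by
    have := C.two α h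
    rw [BB_self hs e, map_zero] at this
    norm_num at this
  have hinj : Function.Injective fun i : Φ => cv i.1 := fun i j e => by
    refine Subtype.ext (pair_ext (P := P) fun x => ?_)
    have a := C.form _ (hn _ i.2) x
    have b := C.form _ (hn _ j.2) x
    simp only at e
    rw [← e] at b
    exact mul_left_cancel₀ (hB _ (hn _ i.2)) (a.symm.trans b)
  have key : ∀ α ∈ Φ, ∀ β ∈ Φ, cv (β - P.toLinearMap β (cv α) • α) =
      cv β - P.toLinearMap α (cv β) • cv α := fun α hα β hβ => by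
    have h' := hn _ (hr α hα β hβ)
    have a1 := C.two _ (hn _ hα)
    have a2 := C.two _ (hn _ hβ)
    have b1 := C.form _ (hn _ hα)
    have b2 := C.form _ (hn _ hβ)
    refine uniq_FF1 hs (C.two _ h') (C.form _ h') ?_ fun x => ?_
    · simp only [map_sub, map_smul, LinearMap.sub_apply, LinearMap.smul_apply, smul_eq_mul, a1, a2]
      ring
    · simp only [map_sub, map_smul, LinearMap.sub_apply, LinearMap.smul_apply, smul_eq_mul,
        sub_FF1, sub'_FF1, smul_FF1, smul'_FF1]
      have c1 := b1 (cv β)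
      have c2 := b2 (cv α)
      have c3 := comm_FF1 (P := P) (wt := wt) (cv α) (cv β)
      rw [← c3] at c2 ⊢
      linear_combination b2 x - P.toLinearMap α (cv β) * b1 x +
        (P.toLinearMap α (cv β) * (P.toLinearMap β x -
          P.toLinearMap β (cv α) * P.toLinearMap α x) + P.toLinearMap α x) * c1 -
        P.toLinearMap α x * c2
  refine ⟨RootPairing.mk' P.toLinearMap (Function.Embedding.subtype _) ⟨_, hinj⟩
    (fun i => C.two _ (hn _ i.2)) ?_ ?_, rfl, fun _ => rfl, fun _ => rfl⟩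
  · rintro i _ ⟨j, rfl⟩
    exact ⟨⟨_, hr _ i.2 _ j.2⟩, by rw [Module.preReflection_apply]; rfl⟩
  · rintro i _ ⟨j, rfl⟩
    exact ⟨⟨_, hr _ i.2 _ j.2⟩, by rw [Module.preReflection_apply]; exact key _ i.2 _ j.2⟩

end Pool.Agent.P.MP_7d29e8_ag
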