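import Pool.Agent.P.MP_7d29e8_ag.FB2
import Pool.Agent.P.MP_7d29e8_ag.FF0
import Pool.Agent.P.MP_7d29e8_ag.FF1

set_option autoImplicit false
set_option linter.unusedSectionVars false
set_option linter.unusedVariables false

/-! Triples attached to the weights. -/

namespace Pool.Agent.P.MP_7d29e8_ag

open Finset SemidirectProduct
open scoped Classical

variable {Ω : Type} [Field Ω] [CharZero Ω] {n : Type} [Fintype n] [DecidableEq n]
  {ι M N : Type} [AddCommGroup M] [Module ℚ M] [AddCommGroup N] [Module ℚ N]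
  {P : RootPairing ι ℚ M N} {wt : n → M} {G : Subgroup (GL n Ω)} {cv : M → N}

lemma PD.comp (D : PD G P wt) {X : Matrix n n Ω} (hX : X ∈ lie (GS G) Ω) (m : M) :
    (Matrix.of fun i j => if wt i - wt j = m then X i j else 0) ∈ lie (GS G) Ω := by
  have hx : ∀ q : n × n, ∃ x : N, wt q.1 - wt q.2 ≠ m →
      P.toLinearMap m x ≠ P.toLinearMap (wt q.1 - wt q.2) x := fun q => by
    by_cases h : wt q.1 - wt q.2 = m
    · exact ⟨0, fun h' => absurd h h'⟩
    · by_contra hc
      push Not at hc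
      exact h (pair_ext (P := P) fun x => (hc x).2.symm)
  choose x hx using hx
  let φ : n × n → n → n → Ω := fun q i j =>
    ((hh P wt (x q) i - hh P wt (x q) j - P.toLinearMap (wt q.1 - wt q.2) (x q) : ℚ) : Ω) /
      ((P.toLinearMap m (x q) - P.toLinearMap (wt q.1 - wt q.2) (x q) : ℚ) : Ω)
  have key : ∀ s : Finset (n × n),
      (Matrix.of fun i j => (∏ q ∈ s, φ q i j) * X i j) ∈ lie (GS G) Ω := by
    intro s
    induction s using Finset.induction_on with
    | empty => simp only [prod_empty, one_mul]; exact hX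
    | insert q s hq ih =>
      have := (lie (GS G) Ω).smul_mem
        ((P.toLinearMap m (x q) - P.toLinearMap (wt q.1 - wt q.2) (x q) : ℚ) : Ω)⁻¹
        ((lie (GS G) Ω).sub_mem (lie.bracket (GS_one G) (GS_mul G) (D.mem (x q)) ih)
          ((lie (GS G) Ω).smul_mem ((P.toLinearMap (wt q.1 - wt q.2) (x q) : ℚ) : Ω) ih))
      refine (congrArg (· ∈ lie (GS G) Ω) ?_).mp this
      ext i j
      rw [Matrix.smul_apply, Matrix.sub_apply, DD_comm]
      simp only [Matrix.of_apply, prod_insert hq, φ, Matrix.smul_apply, smul_eq_mul]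
      push_cast
      ring
  refine (congrArg (· ∈ lie (GS G) Ω) ?_).mp (key (univ.filter fun q => wt q.1 - wt q.2 ≠ m))
  ext i j
  simp only [Matrix.of_apply]
  split_ifs with h
  · rw [prod_eq_one, one_mul]
    intro q hq
    have h1 := hx q (by simpa using hq)
    have h2 : hh P wt (x q) i - hh P wt (x q) j = P.toLinearMap m (x q) := by simp [hh, ← h]
    simp only [φ, h2]
    exact div_self (by exact_mod_cast sub_ne_zero.mpr h1)
  · rw [prod_eq_zero (i := (i, j)) (by simpa using h), zero_mul]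
    simp [φ, hh]

lemma sup_comm_FF4 {e : Matrix n n Ω} {q : n → ℚ} {c : ℚ} (h : Sup (fun i j => q i - q j = c) e) :
    Matrix.diagonal (fun i => (q i : Ω)) * e - e * Matrix.diagonal (fun i => (q i : Ω)) =
      (c : Ω) • e := by
  ext i j
  rw [Matrix.sub_apply, Matrix.diagonal_mul, Matrix.mul_diagonal, Matrix.smul_apply, smul_eq_mul]
  by_cases hc : q i - q j = c
  · rw [← hc]; push_cast; ring
  · rw [h i j hc]; simp

attribute [local instance 100] LieRing.ofAssociativeRing in
lemma sl2_int_FF4 {e f : Matrix n n Ω} {q : n → ℚ} (he : IsNilpotent e)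
    (h1 : e * f - f * e = Matrix.diagonal fun i => (q i : Ω))
    (h2 : Sup (fun i j => q i - q j = 2) e) (h3 : Sup (fun i j => q i - q j = -2) f) (i : n) :
    ∃ z : ℤ, q i = z := by
  by_cases h0 : q i = 0
  · exact ⟨0, by simp [h0]⟩
  have t : IsSl2Triple (Matrix.diagonal fun i => (q i : Ω)) e f :=
    { h_ne_zero := fun h => h0 (by
        have := congrFun (congrFun h i) i
        simpa using this)
      lie_e_f := h1
      lie_h_e_nsmul := by
        rw [Ring.lie_def, sup_comm_FF4 h2, two_smul]; push_cast; rw [two_smul]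
      lie_h_f_nsmul := by
        rw [Ring.lie_def, sup_comm_FF4 h3, two_smul]; push_cast; rw [neg_smul, two_smul] }
  let v : n → Ω := Pi.single i 1
  have hv : ⁅(Matrix.diagonal fun i => (q i : Ω)), v⁆ = (q i : Ω) • v := by
    rw [Matrix.lie_apply]
    ext j
    by_cases hj : j = i
    · subst hj; simp [v]
    · simp [v, Matrix.mulVec_diagonal, hj]
  have hp : ∀ k : ℕ, ((LieModule.toEnd Ω (Matrix n n Ω) (n → Ω) e) ^ k) v = (e ^ k).mulVec v := by
    intro k
    induction k with
    | zero => simp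
    | succ k ih =>
      rw [pow_succ', Module.End.mul_apply, ih, LieModule.toEnd_apply_apply, Matrix.lie_apply,
        Matrix.mulVec_mulVec, ← pow_succ']
  have hz : ∃ k : ℕ, ((LieModule.toEnd Ω (Matrix n n Ω) (n → Ω) e) ^ k) v = 0 := by
    obtain ⟨k, hk⟩ := he
    exact ⟨k, by rw [hp, hk, Matrix.zero_mulVec]⟩
  obtain ⟨k, hk1, hk2⟩ := Nat.exists_not_and_succ_of_not_zero_of_exists (by
    simp only [pow_zero, Module.End.one_apply]
    intro h
    have := congrFun h i
    simp [v] at this) hz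
  have Q : t.HasPrimitiveVectorWith (((LieModule.toEnd Ω (Matrix n n Ω) (n → Ω) e) ^ k) v)
      ((q i : Ω) + 2 * k) :=
    { ne_zero := hk1
      lie_h := t.lie_h_pow_toEnd_e hv k
      lie_e := by rw [IsSl2Triple.lie_e_pow_toEnd_e (R := Ω) k]; exact hk2 }
  obtain ⟨m, hm⟩ := Q.exists_nat
  refine ⟨(m : ℤ) - 2 * k, ?_⟩
  have : ((q i : ℚ) : Ω) = (((((m : ℤ) - 2 * k : ℤ) : ℚ)) : Ω) := by
    push_cast; rw [← hm]; ring
  exact Rat.cast_injective this

/-- the eigenvalues of the middle element of a triple are integers -/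
lemma sl2_int {e f : Matrix n n Ω} {q : n → ℚ} (he : IsNilpotent e)
    (h1 : e * f - f * e = Matrix.diagonal fun i => (q i : Ω))
    (h2 : Sup (fun i j => q i - q j = 2) e) (h3 : Sup (fun i j => q i - q j = -2) f) (i : n) :
    ∃ z : ℤ, q i = z := sl2_int_FF4 he h1 h2 h3 i

theorem PD.sl2 (D : PD G P wt) (C : CV P wt cv) {α : M} (hα : α ∈ WS G wt) :
    cv α ∈ lat P wt ∧ ∃ e ∈ lie (GS G) Ω, ∃ f ∈ lie (GS G) Ω, Wt wt α e ∧ Wt wt (-α) f ∧
      e * f - f * e = DD P wt Ω (cv α) := by
  obtain ⟨h0, e, he, e0, we⟩ := hα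
  have two := C.two α h0
  obtain ⟨Y, hY, tY⟩ : ∃ Y ∈ lie (GS G) Ω, (e * Y).trace ≠ 0 := by
    by_contra h
    push Not at h
    exact e0 (D.nd.nd e he h)
  obtain ⟨f0, hf0⟩ : ∃ f0 : Matrix n n Ω,
      f0 = Matrix.of fun i j => if wt i - wt j = -α then Y i j else 0 := ⟨_, rfl⟩
  have mf0 : f0 ∈ lie (GS G) Ω := hf0 ▸ D.comp hY (-α)
  have wf0 : Wt wt (-α) f0 := fun i j h => by simp [hf0, h]
  have tr0 : (e * f0).trace = (e * Y).trace := by
    simp only [Matrix.trace, Matrix.diag_apply, Matrix.mul_apply]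
    refine sum_congr rfl fun i _ => sum_congr rfl fun j _ => ?_
    by_cases h : wt i - wt j = α
    · have : wt j - wt i = -α := by rw [← h]; abel
      simp [hf0, this]
    · simp [we i j h]
  have hB : BB P wt (cv α) (cv α) ≠ 0 := fun h => by
    rw [BB_self D.span h] at two
    simp at two
  have hB' : ((BB P wt (cv α) (cv α) : ℚ) : Ω) ≠ 0 := by exact_mod_cast hB
  have hc : (e * f0).trace ≠ 0 := tr0 ▸ tY
  have eB : ∀ x y, (DD P wt Ω x * DD P wt Ω y).trace = ((BB P wt x y : ℚ) : Ω) := fun x y => by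
    simp [DD, BB, Matrix.diagonal_mul_diagonal]
  have hH : e * f0 - f0 * e ∈ Submodule.span Ω (Set.range (DD P wt Ω)) :=
    D.cent _ (lie.bracket (GS_one G) (GS_mul G) he mf0) (by
      have h1 := we.mul wf0
      have h2 := wf0.mul we
      rw [add_neg_cancel] at h1
      rw [neg_add_cancel] at h2
      exact Sup.sub h1 h2)
  have key : e * f0 - f0 * e -
      (2 * (e * f0).trace / ((BB P wt (cv α) (cv α) : ℚ) : Ω)) • DD P wt Ω (cv α) = 0 := by
    refine span_DD_zero (P := P) (wt := wt) (Submodule.sub_mem _ hH (Submodule.smul_mem _ _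
      (Submodule.subset_span ⟨_, rfl⟩))) fun x => ?_
    have h1 : ((e * f0 - f0 * e) * DD P wt Ω x).trace =
        ((P.toLinearMap α x : ℚ) : Ω) * (e * f0).trace := by
      have h2 := congrArg (fun Z => (Z * f0).trace) ((wt_iff (P := P)).mp we x)
      simp only [Matrix.smul_mul, Matrix.trace_smul, smul_eq_mul] at h2
      rw [← h2, Matrix.sub_mul, Matrix.sub_mul, Matrix.trace_sub, Matrix.trace_sub,
        Matrix.trace_mul_comm (e * f0), Matrix.mul_assoc f0, Matrix.trace_mul_comm f0,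
        Matrix.mul_assoc (DD P wt Ω x)]
    have h3 : (2 : Ω) * ((BB P wt (cv α) x : ℚ) : Ω) =
        ((BB P wt (cv α) (cv α) : ℚ) : Ω) * ((P.toLinearMap α x : ℚ) : Ω) := by
      exact_mod_cast C.form α h0 x
    rw [Matrix.sub_mul, Matrix.trace_sub, h1, Matrix.smul_mul, Matrix.trace_smul, eB, smul_eq_mul]
    field_simp
    linear_combination (-(e * f0).trace) * h3
  have wf : Wt wt (-α) ((((BB P wt (cv α) (cv α) : ℚ) : Ω) / (2 * (e * f0).trace)) • f0) :=
    Sup.smul wf0 _
  have hef : e * ((((BB P wt (cv α) (cv α) : ℚ) : Ω) / (2 * (e * f0).trace)) • f0) -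
      ((((BB P wt (cv α) (cv α) : ℚ) : Ω) / (2 * (e * f0).trace)) • f0) * e =
      DD P wt Ω (cv α) := by
    rw [Matrix.mul_smul, Matrix.smul_mul, ← smul_sub, sub_eq_zero.mp key, smul_smul]
    have : ((BB P wt (cv α) (cv α) : ℚ) : Ω) / (2 * (e * f0).trace) *
        (2 * (e * f0).trace / ((BB P wt (cv α) (cv α) : ℚ) : Ω)) = 1 := by field_simp
    rw [this, one_smul]
  refine ⟨mem_lat.mpr fun i => ?_, e, he, _, (lie (GS G) Ω).smul_mem _ mf0, we, wf, hef⟩
  refine sl2_int (q := hh P wt (cv α)) (sl2_nrm two we wf hef).1 hef ?_ ?_ i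
  · have := we.hh (P := P) (cv α)
    rwa [two] at this
  · have := wf.hh (P := P) (cv α)
    rwa [map_neg, LinearMap.neg_apply, two] at this

end Pool.Agent.P.MP_7d29e8_ag
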