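import Pool.Agent.P.MP_7d29e8_ag.FF3
import Pool.Agent.P.MP_7d29e8_ag.FF4

set_option autoImplicit false
set_option linter.unusedSectionVars false
set_option linter.unusedVariables false

/-! The root datum of a split maximal torus. -/

namespace Pool.Agent.P.MP_7d29e8_ag

open Finset SemidirectProduct
open scoped Classical

variable {Ω : Type} [Field Ω] [CharZero Ω] {n : Type} [Fintype n] [DecidableEq n]
  {ι M N : Type} [AddCommGroup M] [Module ℚ M] [AddCommGroup N] [Module ℚ N]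
  {P : RootPairing ι ℚ M N} {wt : n → M} {G : Subgroup (GL n Ω)} {cv : M → N}

lemma entry_FF5 {m : M} {X : Matrix n n Ω} (h0 : X ≠ 0) (hX : Wt wt m X) :
    ∃ i j, wt i - wt j = m := by
  by_contra h
  push Not at h
  exact h0 (Matrix.ext fun i j => hX i j (h i j))

lemma WS_finite (G : Subgroup (GL n Ω)) (wt : n → M) : (WS G wt).Finite := by
  refine (Set.finite_range fun q : n × n => wt q.1 - wt q.2).subset ?_
  rintro m ⟨-, X, -, h0, hX⟩
  obtain ⟨i, j, h⟩ := entry_FF5 h0 hX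
  exact ⟨(i, j), h⟩

lemma PD.int (D : PD G P wt) (C : CV P wt cv) {α β : M} (hα : α ∈ WS G wt) (hβ : β ∈ WS G wt) :
    ∃ z : ℤ, P.toLinearMap β (cv α) = z := by
  obtain ⟨-, X, -, h0, hX⟩ := hβ
  obtain ⟨i, j, h⟩ := entry_FF5 h0 hX
  have hl := mem_lat.mp (D.sl2 C hα).1
  obtain ⟨a, ha⟩ := hl i
  obtain ⟨b, hb⟩ := hl j
  refine ⟨a - b, ?_⟩
  rw [← h, map_sub, LinearMap.sub_apply]
  simp only [hh] at ha hb
  rw [ha, hb]
  push_cast
  rfl

lemma PD.refl (D : PD G P wt) (C : CV P wt cv) {α β : M} (hα : α ∈ WS G wt) (hβ : β ∈ WS G wt) :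
    β - P.toLinearMap β (cv α) • α ∈ WS G wt := by
  obtain ⟨-, e, he, f, hf, we, wf, hef⟩ := D.sl2 C hα
  have hz := C.two α hα.1
  obtain ⟨ne, nf, hN⟩ := sl2_nrm hz we wf hef
  have hw : ex e * ex (-f) * ex e ∈ GE G Ω := by
    have h1 := ex_smul_mem he ne 1
    have h2 := ex_smul_mem hf nf (-1)
    rw [one_smul] at h1
    rw [neg_one_smul] at h2
    exact mul_mem (mul_mem h1 h2) h1
  have hs : Function.Surjective fun x : N => x - P.toLinearMap α x • cv α := fun x =>
    ⟨x - P.toLinearMap α x • cv α, by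
      simp only [map_sub, map_smul, hz, smul_eq_mul]
      module⟩
  have hm : ∀ x, P.toLinearMap (β - P.toLinearMap β (cv α) • α) (x - P.toLinearMap α x • cv α) =
      P.toLinearMap β x := fun x => by
    simp only [map_sub, map_smul, hz, smul_eq_mul, LinearMap.sub_apply, LinearMap.smul_apply]
    ring
  obtain ⟨hb, X, hX, h0, wX⟩ := hβ
  refine ⟨fun h => hb (pair_ext (P := P) fun x => ?_), ac (inl (ex e * ex (-f) * ex e)) X,
    lie_conj hw hX, fun h => h0 (ac_inj _ (h.trans (map_zero _).symm)), hN.wt' hs hm wX⟩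
  rw [← hm x, h]
  simp

lemma PD.neg_FF5 (D : PD G P wt) (C : CV P wt cv) {α : M} (hα : α ∈ WS G wt) :
    -α ∈ WS G wt := by
  have h := D.refl C hα hα
  rw [C.two α hα.1] at h
  convert h using 1
  module

lemma PD.two (D : PD G P wt) (C : CV P wt cv) {α : M} (hα : α ∈ WS G wt) :
    (2 : ℚ) • α ∉ WS G wt := by
  rintro ⟨-, X, hX, hX0, wX⟩
  obtain ⟨-, e, he, f, hf, we, wf, hef⟩ := D.sl2 C hα
  have hz := C.two α hα.1
  have hsp : ∀ Y ∈ Submodule.span Ω (Set.range (DD P wt Ω)), ∃ c : Ω, Y * e - e * Y = c • e := by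
    intro Y hY
    induction hY using Submodule.span_induction with
    | mem Y hY => obtain ⟨x, rfl⟩ := hY; exact ⟨_, wt_iff.mp we x⟩
    | zero => exact ⟨0, by simp⟩
    | add Y Z _ _ h1 h2 =>
      obtain ⟨c, h1⟩ := h1
      obtain ⟨d, h2⟩ := h2
      exact ⟨c + d, by rw [add_smul, ← h1, ← h2]; noncomm_ring⟩
    | smul a Y _ h1 =>
      obtain ⟨c, h1⟩ := h1
      exact ⟨a * c, by rw [mul_smul, ← h1, smul_sub, Matrix.smul_mul, Matrix.mul_smul]⟩
  have br : ∀ {m m' : M} {A B : Matrix n n Ω}, Wt wt m A → Wt wt m' B →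
      Wt wt (m + m') (A * B - B * A) := fun {m m' A B} h1 h2 => by
    have h3 := h2.mul h1
    rw [add_comm] at h3
    exact Sup.sub (h1.mul h2) h3
  have h0 : e * X - X * e = 0 := by
    by_contra h0
    have h3 : (3 : ℚ) • α ∈ WS G wt := by
      refine ⟨smul_ne_zero (by norm_num) hα.1, _, lie.bracket (GS_one G) (GS_mul G) he hX, h0, ?_⟩
      convert br we wX using 1
      module
    obtain ⟨z, hz'⟩ := D.int C h3 hα
    rw [CV.smul D.span C hα.1 (by norm_num : (3 : ℚ) ≠ 0), map_smul, hz, smul_eq_mul] at hz'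
    have h4 : (3 * z : ℤ) = 2 := by
      have : (3 * z : ℚ) = 2 := by rw [← hz']; norm_num
      exact_mod_cast this
    omega
  have w1 : Wt wt α (f * X - X * f) := by
    convert br wf wX using 1
    module
  have w2 : Wt wt 0 (f * (f * X - X * f) - (f * X - X * f) * f) := by
    convert br wf w1 using 1
    module
  have m1 := lie.bracket (GS_one G) (GS_mul G) hf hX
  obtain ⟨c, hc⟩ := hsp _ (D.cent _ (lie.bracket (GS_one G) (GS_mul G) hf m1) w2)
  have a1 := (wt_iff (P := P)).mp wX (cv α)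
  have a2 := (wt_iff (P := P)).mp w1 (cv α)
  rw [← hef, map_smul, LinearMap.smul_apply, hz] at a1
  rw [← hef, hz] at a2
  have b1 : e * (f * X - X * f) - (f * X - X * f) * e = (4 : Ω) • X := by
    have e1 : e * (f * X - X * f) - (f * X - X * f) * e =
        ((e * f - f * e) * X - X * (e * f - f * e)) +
          (f * (e * X - X * e) - (e * X - X * e) * f) := by
      noncomm_ring
    rw [e1, h0, a1]
    norm_num
  generalize hY : f * X - X * f = Y at hc a2 b1
  have b2 : (6 : Ω) • Y = (-c) • e := by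
    have e1 : (f * Y - Y * f) * e - e * (f * Y - Y * f) =
        -(((e * f - f * e) * Y - Y * (e * f - f * e)) +
          (f * (e * Y - Y * e) - (e * Y - Y * e) * f)) := by
      noncomm_ring
    rw [e1, a2, b1, Matrix.mul_smul, Matrix.smul_mul, ← smul_sub, hY] at hc
    rw [neg_smul, ← hc, neg_neg, ← add_smul]
    norm_num
  have b3 : Y = (-c / 6) • e := by
    rw [div_eq_inv_mul, mul_smul, ← b2, smul_smul]
    simp
  rw [b3, Matrix.mul_smul, Matrix.smul_mul, sub_self] at b1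
  exact hX0 ((smul_eq_zero.mp b1.symm).resolve_left (by norm_num))

lemma PD.red (D : PD G P wt) (C : CV P wt cv) {α : M} (hα : α ∈ WS G wt) {c : ℚ}
    (h : c • α ∈ WS G wt) : c = 1 ∨ c = -1 := by
  have hc : c ≠ 0 := by
    rintro rfl
    exact h.1 (zero_smul _ _)
  have hz := C.two α hα.1
  obtain ⟨a, ha⟩ := D.int C hα h
  obtain ⟨b, hb⟩ := D.int C h hα
  rw [map_smul, LinearMap.smul_apply, hz, smul_eq_mul] at ha
  rw [CV.smul D.span C hα.1 hc, map_smul, hz, smul_eq_mul] at hb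
  have hab : a * b = 4 := by
    have : (a * b : ℚ) = 4 := by rw [← ha, ← hb]; field_simp; norm_num
    exact_mod_cast this
  have hd : a.natAbs ≤ 4 := Nat.le_of_dvd (by norm_num) (Int.natAbs_dvd_natAbs.mpr ⟨b, hab.symm⟩)
  have hc' : c = a / 2 := by rw [← ha]; ring
  have h4 : -4 ≤ a ∧ a ≤ 4 := by omega
  obtain ⟨h5, h6⟩ := h4
  interval_cases a
  · refine absurd ?_ (D.two C (D.neg_FF5 C hα))
    convert h using 1
    rw [hc']; push_cast; module
  · omega
  · right; rw [hc']; norm_num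
  · refine absurd ?_ (D.two C (D.neg_FF5 C h))
    convert hα using 1
    rw [hc']; push_cast; module
  · omega
  · refine absurd ?_ (D.two C h)
    convert hα using 1
    rw [hc']; push_cast; module
  · left; rw [hc']; norm_num
  · omega
  · refine absurd ?_ (D.two C hα)
    convert h using 1
    rw [hc']; push_cast; module

theorem exists_DS (hG : ND G) {h₀ : n → ℚ}
    (h1 : Matrix.diagonal (fun i => (h₀ i : Ω)) ∈ lie (GS G) Ω)
    (h2 : ∀ X ∈ lie (GS G) Ω, Commute X (Matrix.diagonal fun i => (h₀ i : Ω)) →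
      ∃ d, X = Matrix.diagonal d) :
    ∃ (ι M N : Type) (_ : AddCommGroup M) (_ : Module ℚ M) (_ : AddCommGroup N) (_ : Module ℚ N)
      (P : RootPairing ι ℚ M N) (wt : n → M) (ρ : N), Finite ι ∧ P.IsCrystallographic ∧
      P.IsReduced ∧ DS G P wt ∧ hh P wt ρ = h₀ ∧ ∀ i, P.root' i ρ ≠ 0 := by
  obtain ⟨M, N, i1, i2, i3, i4, P, wt, ρ, D, hρ⟩ := exists_PD hG h1 h2
  obtain ⟨cv, C⟩ := exists_cv (P := P) D.span
  obtain ⟨Q, hQ, hr, hc⟩ := exists_pairing D.span C (WS_finite G wt) (fun h => h.1 rfl)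
    fun α hα β hβ => D.refl C hα hβ
  obtain ⟨e1, e2, e3⟩ := same_pairing (Ω := Ω) (wt := wt) hQ
  refine ⟨WS G wt, M, N, i1, i2, i3, i4, Q, wt, ρ, (WS_finite G wt).to_subtype, ?_, ?_, ?_,
    e1 ▸ hρ, fun i h0 => ?_⟩
  · refine ⟨fun i j => ?_⟩
    obtain ⟨z, hz⟩ := D.int C j.2 i.2
    refine ⟨z, ?_⟩
    rw [← RootPairing.root_coroot_eq_pairing, hQ, hr, hc, hz]
    simp
  · refine ⟨fun i j h => ?_⟩
    rw [LinearIndependent.pair_iff' (Q.ne_zero i)] at h
    push Not at h
    obtain ⟨c, hc⟩ := h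
    have h3 : c • i.1 ∈ WS G wt := by rw [← hr, hc, hr]; exact j.2
    rcases D.red C i.2 h3 with rfl | rfl
    · left; rw [← hc, one_smul]
    · right; rw [← hc, neg_one_smul, neg_neg]
  · refine ⟨D.nd.closed, D.nd.prime, D.span, ?_, ?_, fun m hm X hX h0 wX => ?_, fun i => ?_⟩
    · rw [e1, e3]; exact D.tor
    · rw [e2]; exact D.cent
    · exact ⟨⟨m, hm, X, hX, h0, wX⟩, hr _⟩
    · rw [e2, e3, hr, hc]; exact D.sl2 C i.2
  · obtain ⟨hb, X, hX, hX0, wX⟩ := i.2
    have h3 : P.toLinearMap i.1 ρ = 0 := by rw [← hr, ← hQ]; exact h0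
    have h4 := wX.zer h3
    rw [hρ, zer_iff] at h4
    obtain ⟨d, rfl⟩ := h2 X hX h4
    refine hX0 (Matrix.ext fun a b => ?_)
    by_cases hab : a = b
    · subst hab
      exact wX a a fun h => hb (h.symm.trans (sub_self _))
    · simp [Matrix.diagonal_apply_ne _ hab]

end Pool.Agent.P.MP_7d29e8_ag
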