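import Pool.Agent.P.MP_7d29e8_ag.FA2

set_option autoImplicit false
set_option linter.unusedSectionVars false
set_option linter.unusedVariables false

/-! Simultaneous diagonalisation and the Jordan decomposition. -/

namespace Pool.Agent.P.MP_7d29e8_ag

open Finset SemidirectProduct
open scoped Classical

variable {Ω : Type} [Field Ω] {n : Type} [Fintype n] [DecidableEq n]

lemma cd_const_FA3 (k : GL n Ω) (c : Ω) : cd k (fun _ => c) = c • (1 : Matrix n n Ω) := by
  have h : (Matrix.diagonal fun _ : n => c) = c • (1 : Matrix n n Ω) := by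
    rw [Matrix.smul_one_eq_diagonal]
  unfold cd
  rw [h, Matrix.mul_smul, Matrix.mul_one, Matrix.smul_mul, Units.mul_inv]

lemma cd_pow_FA3 (k : GL n Ω) (e : n → Ω) (m : ℕ) : cd k e ^ m = cd k (e ^ m) := by
  induction m with
  | zero =>
    have h := cd_const_FA3 k (1 : Ω)
    rw [one_smul] at h
    rw [pow_zero, pow_zero]
    exact h.symm
  | succ m ih => rw [pow_succ, pow_succ, cd_mul, ih]

lemma cd_sub_FA3 (k : GL n Ω) (d d' : n → Ω) : cd k (d - d') = cd k d - cd k d' := by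
  rw [eq_sub_iff_add_eq, ← cd_add, sub_add_cancel]

lemma cd_mulVec_FA3 (k : GL n Ω) (e : n → Ω) (v : n → Ω) :
    (cd k e).mulVec v = 0 ↔ ∀ i, e i * ((k⁻¹).val.mulVec v) i = 0 := by
  unfold cd
  rw [← Matrix.mulVec_mulVec, ← Matrix.mulVec_mulVec]
  constructor
  · intro h i
    have h2 := congrArg (fun w => (k⁻¹).val.mulVec w) h
    simp only [Matrix.mulVec_zero] at h2
    rw [Matrix.mulVec_mulVec, Units.inv_mul, Matrix.one_mulVec] at h2
    have h3 := congrFun h2 i
    rwa [Matrix.mulVec_diagonal] at h3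
  · intro h
    have h2 : (Matrix.diagonal e).mulVec ((k⁻¹).val.mulVec v) = 0 := by
      funext i
      rw [Matrix.mulVec_diagonal]
      exact h i
    rw [h2, Matrix.mulVec_zero]

lemma gen_eig_FA3 (k : GL n Ω) (d : n → Ω) (μ : Ω) (v : n → Ω)
    (hv : v ∈ Module.End.maxGenEigenspace (Matrix.toLin' (cd k d)) μ) :
    (cd k d).mulVec v = μ • v := by
  rw [Module.End.mem_maxGenEigenspace] at hv
  obtain ⟨m, hm⟩ := hv
  have h1 : Matrix.toLin' (cd k d) - μ • (1 : Module.End Ω (n → Ω)) =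
      Matrix.toLin' (cd k (d - fun _ => μ)) := by
    rw [cd_sub_FA3, cd_const_FA3, map_sub, map_smul, Matrix.toLin'_one]
    rfl
  rw [h1, ← Matrix.toLin'_pow, cd_pow_FA3, Matrix.toLin'_apply, cd_mulVec_FA3] at hm
  have h2 : (cd k (d - fun _ => μ)).mulVec v = 0 := by
    rw [cd_mulVec_FA3]
    intro i
    have h3 := hm i
    rw [Pi.pow_apply] at h3
    rcases mul_eq_zero.mp h3 with h4 | h4
    · rw [pow_eq_zero_iff'] at h4
      rw [h4.1, zero_mul]
    · rw [h4, mul_zero]
  rw [cd_sub_FA3, cd_const_FA3, Matrix.sub_mulVec, Matrix.smul_mulVec, Matrix.one_mulVec,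
    sub_eq_zero] at h2
  exact h2

lemma col_eig_FA3 (k : GL n Ω) (d : n → Ω) (l : n) :
    (cd k d).mulVec (fun i => k.val i l) = d l • fun i => k.val i l := by
  have h : cd k d * k.val = k.val * Matrix.diagonal d := by
    unfold cd
    rw [Matrix.mul_assoc, Units.inv_mul, Matrix.mul_one]
  funext i
  have h2 := congrFun (congrFun h i) l
  rw [Matrix.mul_diagonal] at h2
  rw [Pi.smul_apply, smul_eq_mul, mul_comm, ← h2]
  rfl

lemma top_FA3 (k : GL n Ω) (d : n → Ω) :
    ⨆ μ, Module.End.maxGenEigenspace (Matrix.toLin' (cd k d)) μ = ⊤ := by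
  rw [eq_top_iff]
  intro v _
  have hv : v = ∑ l, ((k⁻¹).val.mulVec v) l • fun i => k.val i l := by
    have h1 : v = k.val.mulVec ((k⁻¹).val.mulVec v) := by
      rw [Matrix.mulVec_mulVec, Units.mul_inv, Matrix.one_mulVec]
    funext i
    rw [Finset.sum_apply]
    conv_lhs => rw [h1]
    simp only [Matrix.mulVec, dotProduct, Pi.smul_apply, smul_eq_mul]
    exact Finset.sum_congr rfl fun l _ => mul_comm _ _
  rw [hv]
  refine Submodule.sum_mem _ fun l _ => Submodule.smul_mem _ _ ?_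
  refine Submodule.mem_iSup_of_mem (d l) ?_
  rw [Module.End.mem_maxGenEigenspace]
  refine ⟨1, ?_⟩
  rw [pow_one, LinearMap.sub_apply, Matrix.toLin'_apply, col_eig_FA3, LinearMap.smul_apply,
    Module.End.one_apply, sub_self]

lemma comm_toLin_FA3 {X Y : Matrix n n Ω} :
    Commute (Matrix.toLin' X) (Matrix.toLin' Y) ↔ Commute X Y := by
  constructor
  · intro h
    apply Matrix.toLin'.injective
    rw [Matrix.toLin'_mul, Matrix.toLin'_mul]
    exact h.eq
  · intro h
    have h2 := congrArg Matrix.toLin' h.eq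
    rw [Matrix.toLin'_mul, Matrix.toLin'_mul] at h2
    exact h2

theorem simdiag (A : Set (Matrix n n Ω)) (hc : ∀ X ∈ A, ∀ Y ∈ A, Commute X Y)
    (hd : ∀ X ∈ A, ∃ k d, X = cd k d) : ∃ k, ∀ X ∈ A, ∃ d, X = cd k d := by
  have h1 := Module.End.iSup_iInf_maxGenEigenspace_eq_top_of_iSup_maxGenEigenspace_eq_top_of_commute
    (fun X : A => (Matrix.toLin' X.1 : Module.End Ω (n → Ω)))
    (fun X Y _ => comm_toLin_FA3.mpr (hc X.1 X.2 Y.1 Y.2))
    (fun X => by
      obtain ⟨k, d, h⟩ := hd X.1 X.2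
      rw [h]
      exact top_FA3 k d)
  obtain ⟨k, hk⟩ := basis_of_span {v : n → Ω | ∀ X ∈ A, ∃ c : Ω, X.mulVec v = c • v} (by
    rw [eq_top_iff, ← h1]
    refine iSup_le fun χ v hv => Submodule.subset_span fun X hX => ⟨χ ⟨X, hX⟩, ?_⟩
    have h2 := (Submodule.mem_iInf _).mp hv ⟨X, hX⟩
    obtain ⟨k, d, h⟩ := hd X hX
    subst h
    exact gen_eig_FA3 k d _ v h2)
  refine ⟨k, fun X hX => ?_⟩
  choose d hd' using fun l => hk l X hX
  exact ⟨d, cd_of_eig hd'⟩

theorem jordan [IsAlgClosed Ω] (X : Matrix n n Ω) : ∃ (k : GL n Ω) (d : n → Ω) (Z : Matrix n n Ω),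
    X = cd k d + Z ∧ IsNilpotent Z ∧ Commute Z (cd k d) ∧
    ∀ Y, Commute Y X → Commute Y (cd k d) := by
  obtain ⟨z, hz, s, hs, hzn, hss, hX⟩ :=
    Module.End.exists_isNilpotent_isSemisimple (f := (Matrix.toLin' X : Module.End Ω (n → Ω)))
  obtain ⟨k, hk⟩ := basis_of_span {v : n → Ω | ∃ c : Ω, s v = c • v} (by
    rw [eq_top_iff, ← hss.iSup_eigenspace_eq_top]
    exact iSup_le fun μ v hv => Submodule.subset_span ⟨μ, Module.End.mem_eigenspace_iff.mp hv⟩)
  choose d hd using hk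
  have hS : LinearMap.toMatrix' s = cd k d := cd_of_eig fun l => by
    rw [LinearMap.toMatrix'_mulVec]
    exact hd l
  have hs' : s = Matrix.toLin' (cd k d) := by rw [← hS, Matrix.toLin'_toMatrix']
  have hY : ∀ Y : Matrix n n Ω, Commute Y X → Commute Y (cd k d) := fun Y hY => by
    rw [← comm_toLin_FA3, ← hs']
    exact (Algebra.commute_of_mem_adjoin_singleton_of_commute hs (comm_toLin_FA3.mpr hY))
  have hX' : X = cd k d + LinearMap.toMatrix' z := by
    rw [← hS, ← map_add, add_comm, ← hX, LinearMap.toMatrix'_toLin']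
  refine ⟨k, d, LinearMap.toMatrix' z, hX', ?_, ?_, hY⟩
  · obtain ⟨m, hm⟩ := hzn
    refine ⟨m, ?_⟩
    apply Matrix.toLin'.injective
    rw [Matrix.toLin'_pow, Matrix.toLin'_toMatrix', hm, map_zero]
  · have h1 : LinearMap.toMatrix' z = X - cd k d := by rw [hX']; simp
    rw [h1]
    exact (hY X (Commute.refl X)).sub_left (Commute.refl _)

theorem cd_nil {k k' : GL n Ω} {d d' : n → Ω} (hc : Commute (cd k d) (cd k' d'))
    (hn : IsNilpotent (cd k d - cd k' d')) : cd k d = cd k' d' := by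
  obtain ⟨y, hy⟩ := simdiag {cd k d, cd k' d'}
    (by
      rintro X (rfl | rfl) Y (rfl | rfl)
      · exact Commute.refl _
      · exact hc
      · exact hc.symm
      · exact Commute.refl _)
    (by
      rintro X (rfl | rfl)
      · exact ⟨k, d, rfl⟩
      · exact ⟨k', d', rfl⟩)
  obtain ⟨e, he⟩ := hy (cd k d) (Or.inl rfl)
  obtain ⟨e', he'⟩ := hy (cd k' d') (Or.inr rfl)
  rw [he, he'] at hn ⊢
  obtain ⟨m, hm⟩ := hn
  rw [← cd_sub_FA3, cd_pow_FA3, ← cd_zero y] at hm
  have h1 := cd_inj hm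
  congr 1
  funext i
  have h2 := congrFun h1 i
  rw [Pi.pow_apply, Pi.zero_apply, pow_eq_zero_iff', Pi.sub_apply, sub_eq_zero] at h2
  exact h2.1

/-- the semisimple part of a fixed matrix is fixed -/
theorem jordan_fix {X Z : Matrix n n Ω} {k : GL n Ω} {d : n → Ω} (h : X = cd k d + Z)
    (hZ : IsNilpotent Z) (hc : Commute Z (cd k d)) (hY : ∀ Y, Commute Y X → Commute Y (cd k d))
    (θ : Ω ≃+* Ω) (hθ : X.map θ = X) : (cd k d).map θ = cd k d := by
  let f : Matrix n n Ω →+* Matrix n n Ω := (θ : Ω →+* Ω).mapMatrix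
  have hf : ∀ Y : Matrix n n Ω, f Y = Y.map θ := fun Y => rfl
  have hX : f X = X := hθ
  have hsum : f (cd k d) + f Z = cd k d + Z := by rw [← map_add, ← h, hX]
  have hSX : Commute (cd k d) X := by
    rw [h]
    exact (Commute.refl _).add_right hc.symm
  have hZX : Commute Z X := by
    rw [h]
    exact hc.add_right (Commute.refl _)
  have h1 : Commute (f (cd k d)) X := by
    have h2 := hSX.map f
    rwa [hX] at h2
  have h2 : Commute (f Z) X := by
    have h3 := hZX.map f
    rwa [hX] at h3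
  have h3 : Commute (f Z) Z := by
    have h4 : Z = X - cd k d := by rw [h]; simp
    have h5 := h2.sub_right (hY _ h2)
    rwa [← h4] at h5
  have h4 : f (cd k d) - cd k d = Z - f Z := by
    rw [sub_eq_sub_iff_add_eq_add, hsum, add_comm]
  have h5 : IsNilpotent (f (cd k d) - cd k d) := by
    rw [h4]
    exact h3.symm.isNilpotent_sub hZ (hZ.map f)
  have h6 := hY _ h1
  rw [hf, cd_map] at h5 h6
  rw [cd_map]
  exact cd_nil h6 h5

end Pool.Agent.P.MP_7d29e8_ag
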