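import Pool.Agent.P.MP_7d29e8_ag.FA1
import Pool.Agent.P.MP_7d29e8_ag.FA2

set_option autoImplicit false
set_option linter.unusedSectionVars false
set_option linter.unusedVariables false

/-! Stability properties of the Lie algebra. -/

namespace Pool.Agent.P.MP_7d29e8_ag

open Finset SemidirectProduct
open scoped Classical

variable {Ω : Type} [Field Ω] [CharZero Ω] {n : Type} [Fintype n] [DecidableEq n]
  {G : Subgroup (GL n Ω)}

open DualNumber in
lemma diag_lie_FB2 {h : n → ℤ}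
    (H : ∀ t : Ω, t ≠ 0 → Matrix.diagonal (fun i => t ^ h i) ∈ Cl (GS G) Ω) :
    Matrix.diagonal (fun i => (h i : Ω)) ∈ lie (GS G) Ω := by
  refine lie.of_dual (GS_one G) ?_
  let t : (DualNumber Ω)ˣ := ⟨1 + ε, 1 - ε, by
    rw [mul_sub, add_mul, add_mul, eps_mul_eps]; simp, by
    rw [mul_add, sub_mul, sub_mul, eps_mul_eps]; simp⟩
  have ht : ∀ z : ℤ, ((t ^ z : (DualNumber Ω)ˣ) : DualNumber Ω) = 1 + ε * (z : DualNumber Ω) := by
    intro z
    induction z using Int.induction_on with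
    | zero => simp
    | succ k ih =>
      rw [zpow_add_one, Units.val_mul, ih]
      simp only [t]; push_cast
      linear_combination (k : DualNumber Ω) * (eps_mul_eps (R := Ω))
    | pred k ih =>
      rw [zpow_sub_one, Units.val_mul, ih]
      simp only [t, Units.inv_mk]; push_cast
      linear_combination (k : DualNumber Ω) * (eps_mul_eps (R := Ω))
  convert Cl.cochar h H t using 1
  refine Matrix.ext fun i j => ?_
  by_cases hij : i = j
  · subst hij
    simp [ht]
  · simp [hij]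

theorem cochar_lie {k : GL n Ω} {h : n → ℤ}
    (H : ∀ t : Ω, t ≠ 0 → cd k (fun i => t ^ h i) ∈ Cl (GS G) Ω) :
    cd k (fun i => (h i : Ω)) ∈ lie (GS G) Ω := by
  rw [cd_eq_ac, ← lie_Gd]
  refine diag_lie_FB2 fun t ht => ?_
  have := conj_cl (G₁ := G) (G₂ := Gd G k) (y := k⁻¹)
    (fun g hg => by rwa [map_inv, mem_Gd']) (H t ht)
  convert this using 1
  simp [cd, mul_assoc]

lemma ev_theta_FB2 (θ : Ω ≃+* Ω) (g : Matrix n n Ω) (f : MvPolynomial (n × n) Ω) :
    θ (ev g (MvPolynomial.map (θ.symm : Ω →+* Ω) f)) = ev (g.map θ) f := by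
  induction f using MvPolynomial.induction_on with
  | C a => simp
  | add f g h1 h2 => simp [h1, h2]
  | mul_X f q h1 => simp [h1]

lemma lie_inr_FB2 {G₁ G₂ : Subgroup (GL n Ω)} {θ : Ω ≃+* Ω}
    (h : ∀ g ∈ G₁, acu (inr θ) g ∈ G₂) {X : Matrix n n Ω} (hX : X ∈ lie (GS G₁) Ω) :
    X.map θ ∈ lie (GS G₂) Ω := by
  intro f hf
  have h1 := hX (MvPolynomial.map (θ.symm : Ω →+* Ω) f) (by
    rintro _ ⟨g, hg, rfl⟩
    apply θ.injective
    rw [ev_theta_FB2, map_zero]
    exact hf _ ⟨_, h g hg, by rw [acu_val, ac_inr]⟩)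
  have h2 := congrArg θ h1
  rw [map_zero, dOne, map_sum] at h2
  rw [← h2, dOne]
  refine sum_congr rfl fun p _ => ?_
  rw [MvPolynomial.pderiv_map, smul_eq_mul, smul_eq_mul, map_mul, ev_theta_FB2,
    Matrix.map_one _ (map_zero θ) (map_one θ), Matrix.map_apply]

theorem lie_ac {φ : SL n Ω} (h : ∀ g ∈ G, acu φ g ∈ G) {X : Matrix n n Ω}
    (hX : X ∈ lie (GS G) Ω) : ac φ X ∈ lie (GS G) Ω := by
  have e : φ = inl φ.left * inr φ.right := (inl_left_mul_inr_right φ).symm
  rw [e, ac_mul, ← lie_Gd, ac_inr]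
  refine lie_inr_FB2 (fun g hg => ?_) hX
  rw [mem_Gd, ← acu_mul, ← e]
  exact h g hg

theorem lie_comp {d : n → Ω} (hd : Matrix.diagonal d ∈ lie (GS G) Ω) {X : Matrix n n Ω}
    (hX : X ∈ lie (GS G) Ω) (c : Ω) :
    (Matrix.of fun i j => if d i - d j = c then X i j else 0) ∈ lie (GS G) Ω := by
  let s : Finset Ω := insert c (univ.image fun q : n × n => d q.1 - d q.2)
  let T : Module.End Ω (Matrix n n Ω) :=
    LinearMap.mulLeft Ω (Matrix.diagonal d) - LinearMap.mulRight Ω (Matrix.diagonal d)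
  refine comp_mem T (lie (GS G) Ω)
    (fun Y hY => lie.bracket (GS_one G) (GS_mul G) hd hY) s
    (fun w => Matrix.of fun i j => if d i - d j = w then X i j else 0)
    (fun w _ => ⟨1, ?_⟩) ?_ c (mem_insert_self _ _)
  · ext i j
    simp only [T, pow_one, LinearMap.sub_apply, LinearMap.mulLeft_apply, LinearMap.mulRight_apply,
      Module.algebraMap_end_apply, Matrix.sub_apply, Matrix.diagonal_mul, Matrix.mul_diagonal,
      Matrix.of_apply, Matrix.smul_apply, smul_eq_mul, Matrix.zero_apply]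
    split_ifs with hw
    · rw [← hw]; ring
    · simp
  · convert hX using 1
    ext i j
    rw [Matrix.sum_apply]
    simp only [Matrix.of_apply]
    rw [sum_ite_eq, if_pos (mem_insert_of_mem (mem_image.mpr ⟨(i, j), mem_univ _, rfl⟩))]

theorem ND.gd (h : ND G) (y : GL n Ω) : ND (Gd G y) where
  closed g hg := h.closed _ (by simpa [ac_inl] using conj_cl (G₂ := G) (y := y) (fun _ h => h) hg)
  prime := prime_Gd y h.prime
  nd X hX h0 := by
    apply ac_inj (inl y)
    rw [map_zero]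
    refine h.nd _ (lie_Gd.mp hX) fun Y hY => ?_
    have := h0 (ac (inl y)⁻¹ Y) (lie_Gd.mpr (by rwa [ac_ac_inv]))
    rw [← ac_ac_inv (inl y) Y, ← map_mul, trace_ac, this, map_zero]

lemma cent_diag_FB2 (h : ND G) {d : n → Ω} (hd : Matrix.diagonal d ∈ lie (GS G) Ω)
    {X : Matrix n n Ω} (hX : X ∈ lie (GS G) Ω) (hc : Commute X (Matrix.diagonal d))
    (h0 : ∀ Y ∈ lie (GS G) Ω, Commute Y (Matrix.diagonal d) → (X * Y).trace = 0) : X = 0 := by
  refine h.nd X hX fun Y hY => ?_
  have h1 := h0 _ (lie_comp hd hY 0) (by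
    ext i j
    simp only [Matrix.diagonal_mul, Matrix.mul_diagonal, Matrix.of_apply]
    split_ifs with hw
    · rw [sub_eq_zero.mp hw, mul_comm]
    · simp)
  rw [← h1]
  simp only [Matrix.trace, Matrix.diag_apply, Matrix.mul_apply, Matrix.of_apply]
  refine sum_congr rfl fun i _ => sum_congr rfl fun j _ => ?_
  split_ifs with hw
  · rfl
  · have h2 := congrFun (congrFun hc.eq i) j
    rw [Matrix.diagonal_mul, Matrix.mul_diagonal] at h2
    have h3 : X i j * (d j - d i) = 0 := by linear_combination h2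
    rw [(mul_eq_zero.mp h3).resolve_right hw]
    simp

theorem ND.cent (h : ND G) {k : GL n Ω} {d : n → Ω} (hd : cd k d ∈ lie (GS G) Ω)
    {X : Matrix n n Ω} (hX : X ∈ lie (GS G) Ω) (hc : Commute X (cd k d))
    (h0 : ∀ Y ∈ lie (GS G) Ω, Commute Y (cd k d) → (X * Y).trace = 0) : X = 0 := by
  apply ac_inj (inl k)⁻¹
  rw [map_zero]
  rw [cd_eq_ac] at hd hc h0
  refine cent_diag_FB2 (h.gd k) (lie_Gd.mpr hd) (lie_Gd.mpr (by rwa [ac_ac_inv])) ?_
    fun Y hY hYc => ?_
  · have := hc.map (ac (inl k)⁻¹)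
    rwa [ac_inv_ac] at this
  · have := h0 _ (lie_Gd.mp hY) (hYc.map (ac (inl k)))
    rw [← ac_inv_ac (inl k) Y, ← map_mul, trace_ac, this, map_zero]

end Pool.Agent.P.MP_7d29e8_ag
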