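import Pool.Agent.P.MP_7d29e8_ag.FG2
import Pool.Agent.P.MP_7d29e8_ag.FA3
import Pool.Agent.P.MP_7d29e8_ag.FB2

set_option autoImplicit false
set_option linter.unusedSectionVars false
set_option linter.unusedVariables false

/-! Split semisimple elements are conjugate into the torus. -/

namespace Pool.Agent.P.MP_7d29e8_ag

open Finset SemidirectProduct
open scoped Classical

variable {Ω : Type} [Field Ω] [CharZero Ω] {n : Type} [Fintype n] [DecidableEq n]
  {ι M N : Type} [AddCommGroup M] [Module ℚ M] [AddCommGroup N] [Module ℚ N]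
  {P : RootPairing ι ℚ M N} {wt : n → M} {G : Subgroup (GL n Ω)}
  [Finite ι] [P.IsCrystallographic] [P.IsReduced] {b : P.Base} {ρ : N}

lemma step_FG3 (D : DS G P wt) (r : n → ℕ) {d : n → Ω} (hd : Matrix.diagonal d ∈ lie (GS G) Ω)
    (m : ℕ) {X : Matrix n n Ω} (hX : X ∈ lie (GS G) Ω)
    (h1 : Sup (fun i j => r j + 1 ≤ r i) (X - Matrix.diagonal d))
    (h2 : Sup (fun i j => d i = d j ∨ r j + (m + 1) ≤ r i) X) :
    ∃ u ∈ G, Sup (fun i j => r j + 1 ≤ r i) (ac (inl u) X - Matrix.diagonal d) ∧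
      Sup (fun i j => d i = d j ∨ r j + (m + 2) ≤ r i) (ac (inl u) X) := by
  set Z : Matrix n n Ω := Matrix.of fun i j => (d i - d j)⁻¹ * X i j with hZ
  have hZl : Z ∈ lie (GS G) Ω := by
    have := (lie (GS G) Ω).sum_mem (t := univ.image fun q : n × n => d q.1 - d q.2)
      fun c _ => (lie (GS G) Ω).smul_mem c⁻¹ (lie_comp hd hX c)
    have e : Z = ∑ c ∈ univ.image (fun q : n × n => d q.1 - d q.2),
        c⁻¹ • (Matrix.of fun i j => if d i - d j = c then X i j else 0) := by
      ext i j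
      rw [Matrix.sum_apply, sum_eq_single (d i - d j)]
      · simp [hZ]
      · intro c _ hc
        simp [hc.symm]
      · intro hc
        exact absurd (mem_image.mpr ⟨(i, j), mem_univ _, rfl⟩) hc
    rw [e]; exact this
  have sZ : Sup (fun i j => r j + (m + 1) ≤ r i) Z := fun i j hij => by
    by_cases e : d i = d j
    · simp [hZ, e]
    · simp [hZ, h2 i j (by tauto)]
  have nZ : IsNilpotent Z := Pos.nilpotent (h := fun i => (r i : ℚ))
    (sZ.mono fun i j h => Nat.cast_lt.mpr (by omega : r j < r i))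
  have sD : Sup (fun i j => r j ≤ r i) (Matrix.diagonal d) :=
    Sup.diagonal (p := fun i j => r j ≤ r i) (fun _ => le_rfl) _
  have sX : Sup (fun i j => r j ≤ r i) X := by
    have := (h1.mono (q := fun i j => r j ≤ r i) fun i j h => by omega).add sD
    rwa [sub_add_cancel] at this
  have sA : Sup (fun i j => r j + (m + 2) ≤ r i) (IsNilpotent.exp Z - 1 - Z) :=
    exp_sup nZ sZ (fun _ _ _ _ _ => by omega) (fun _ _ _ _ _ => by omega)
  have sA' : Sup (fun i j => r j + (m + 2) ≤ r i) (IsNilpotent.exp (-Z) - 1 - -Z) :=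
    exp_sup nZ.neg sZ.neg (fun _ _ _ _ _ => by omega) (fun _ _ _ _ _ => by omega)
  have sE : Sup (fun i j => r j ≤ r i) (IsNilpotent.exp (-Z)) := by
    have := ((sA'.mono (q := fun i j => r j ≤ r i) fun i j h => by omega).add
      (sZ.neg.mono fun i j h => by omega)).add (Sup.one fun _ => le_rfl)
    simpa using this
  have sZX : Sup (fun i j => r j + (m + 1) ≤ r i) (Z * X) := sZ.mul sX fun _ _ _ _ _ => by omega
  have sR : Sup (fun i j => r j + (m + 2) ≤ r i) (IsNilpotent.exp Z * X * IsNilpotent.exp (-Z) -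
      (X + (Z * Matrix.diagonal d - Matrix.diagonal d * Z))) := by
    have := (((((sZ.mul h1 (r := fun i j => r j + (m + 2) ≤ r i) fun _ _ _ _ _ => by omega).sub
      (h1.mul sZ fun _ _ _ _ _ => by omega)).add (sX.mul sA' fun _ _ _ _ _ => by omega)).sub
      (sZX.mul sZ fun _ _ _ _ _ => by omega)).add (sZX.mul sA' fun _ _ _ _ _ => by omega)).add
      ((sA.mul sX (r := fun i j => r j + (m + 2) ≤ r i) fun _ _ _ _ _ => by omega).mul sE
        fun _ _ _ _ _ => by omega)
    have e : IsNilpotent.exp Z * X * IsNilpotent.exp (-Z) -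
        (X + (Z * Matrix.diagonal d - Matrix.diagonal d * Z)) =
        Z * (X - Matrix.diagonal d) - (X - Matrix.diagonal d) * Z +
          X * (IsNilpotent.exp (-Z) - 1 - -Z) - Z * X * Z +
          Z * X * (IsNilpotent.exp (-Z) - 1 - -Z) +
          (IsNilpotent.exp Z - 1 - Z) * X * IsNilpotent.exp (-Z) := by noncomm_ring
    rw [e]; exact this
  have sW : Sup (fun i j => d i = d j) (X + (Z * Matrix.diagonal d - Matrix.diagonal d * Z)) :=
    fun i j hij => by
      have h0 : d i - d j ≠ 0 := sub_ne_zero.mpr hij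
      simp only [hZ, Matrix.add_apply, Matrix.sub_apply, Matrix.mul_diagonal, Matrix.diagonal_mul,
        Matrix.of_apply]
      field_simp
      ring
  have hu : ex Z ∈ G := by
    have := ex_smul_mem hZl nZ 1
    rw [one_smul] at this
    exact D.mem_iff.mp this
  have e : ac (inl (ex Z)) X = IsNilpotent.exp Z * X * IsNilpotent.exp (-Z) := by
    rw [ac_inl, ex_inv nZ, ex_val nZ, ex_val nZ.neg]
  refine ⟨ex Z, hu, ?_, ?_⟩
  · have := ((sR.mono (q := fun i j => r j + 1 ≤ r i) fun i j h => by omega).add h1).add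
      ((sZ.mul sD fun _ _ _ _ _ => by omega).sub (sD.mul sZ fun _ _ _ _ _ => by omega))
    rw [e]
    have e2 : IsNilpotent.exp Z * X * IsNilpotent.exp (-Z) - Matrix.diagonal d =
        IsNilpotent.exp Z * X * IsNilpotent.exp (-Z) -
          (X + (Z * Matrix.diagonal d - Matrix.diagonal d * Z)) + (X - Matrix.diagonal d) +
          (Z * Matrix.diagonal d - Matrix.diagonal d * Z) := by abel
    rw [e2]; exact this
  · have := (sR.mono (q := fun i j => d i = d j ∨ r j + (m + 2) ≤ r i) fun i j h => Or.inr h).add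
      (sW.mono fun i j h => Or.inl h)
    rw [sub_add_cancel] at this
    rw [e]; exact this

theorem DS.conj_unip (D : DS G P wt) (hρ : ∀ i, P.root' i ρ ≠ 0) {k : GL n Ω} {h : n → ℚ}
    (hH : cd k (fun i => (h i : Ω)) ∈ lie (GS G) Ω)
    (hN : NN (hh P wt ρ) (cd k fun i => (h i : Ω))) :
    ∃ g ∈ G, ∃ x, cd k (fun i => (h i : Ω)) = ac (inl g) (DD P wt Ω x) := by
  set H := cd k fun i => (h i : Ω) with hHd
  set w := hh P wt ρ with hw
  have h0 : pi0 w H ∈ lie (GS G) Ω := by
    have := lie_comp (d := fun i => (w i : Ω)) (D.DD_mem ρ) hH 0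
    have e : pi0 w H = Matrix.of fun i j => if (w i : Ω) - (w j : Ω) = 0 then H i j else 0 := by
      ext i j
      simp [pi0, sub_eq_zero]
    rw [e]; exact this
  have hsp := D.cent_reg hρ h0 (pi0_zer H)
  obtain ⟨d, hd⟩ := span_DD_diag hsp
  let r : n → ℕ := fun i => (univ.filter fun l => w l < w i).card
  have hr : ∀ i j, w j < w i → r j + 1 ≤ r i := fun i j hij =>
    card_lt_card ⟨fun l hl => by
      simp only [mem_filter, mem_univ, true_and] at hl ⊢; exact hl.trans hij,
      fun hs => by simpa using hs (x := j) (by simpa using hij)⟩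
  have h1 : Sup (fun i j => r j + 1 ≤ r i) (H - Matrix.diagonal d) := by
    rw [← hd]
    intro i j hij
    by_cases e : w i = w j
    · simp [pi0, e]
    · have := hN i j fun h2 => hij (hr i j (lt_of_le_of_ne h2 (Ne.symm e)))
      simp [pi0, this]
  rw [hd] at h0 hsp
  have key : ∀ m : ℕ, ∃ u ∈ G,
      Sup (fun i j => r j + 1 ≤ r i) (ac (inl u) H - Matrix.diagonal d) ∧
      Sup (fun i j => d i = d j ∨ r j + (m + 1) ≤ r i) (ac (inl u) H) := by
    intro m
    induction m with
    | zero =>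
      refine ⟨1, one_mem _, by simpa using h1, ?_⟩
      have := (h1.mono (q := fun i j => d i = d j ∨ r j + (0 + 1) ≤ r i)
        fun i j h => Or.inr h).add (Sup.diagonal
          (p := fun i j => d i = d j ∨ r j + (0 + 1) ≤ r i) (fun _ => Or.inl rfl) d)
      simpa using this
    | succ m ih =>
      obtain ⟨u, hu, s1, s2⟩ := ih
      obtain ⟨u', hu', s3, s4⟩ := step_FG3 D r h0 m (lie_conj (D.mem_iff.mpr hu) hH) s1 s2
      refine ⟨u' * u, mul_mem hu' hu, ?_, ?_⟩
      · rw [map_mul, ac_mul]; exact s3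
      · rw [map_mul, ac_mul]; exact s4
  obtain ⟨u, hu, s1, s2⟩ := key (Fintype.card n)
  rw [hHd, ac_cd, ← cd_one d] at s1
  rw [hHd, ac_cd] at s2
  have hc : Commute (cd (u * k) fun i => (h i : Ω)) (cd 1 d) := by
    rw [cd_one]
    ext i j
    rw [Matrix.mul_diagonal, Matrix.diagonal_mul]
    by_cases e : d i = d j
    · rw [e, mul_comm]
    · have : r i ≤ Fintype.card n := card_le_univ _
      rw [s2 i j (by rintro (h2 | h2); exact e h2; omega), zero_mul, mul_zero]
  have e := cd_nil hc (Pos.nilpotent (h := fun i => (r i : ℚ))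
    (s1.mono fun i j h => Nat.cast_lt.mpr (by omega : r j < r i)))
  choose l hl using cd_range e.symm
  have hq : d = fun j => ((h (l j) : ℚ) : Ω) := funext hl
  rw [hq] at hsp
  obtain ⟨x, hx⟩ := span_DD_rat hsp
  refine ⟨u⁻¹, inv_mem hu, x, ?_⟩
  have e2 : DD P wt Ω x = ac (inl u) H := by
    rw [hHd, ac_cd, e, cd_one, hq, DD, hx]
  rw [e2, map_inv, ac_inv_ac]

theorem DS.conj (D : DS G P wt) (b : P.Base) {k : GL n Ω} {h : n → ℚ}
    (hH : cd k (fun i => (h i : Ω)) ∈ lie (GS G) Ω) :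
    ∃ g ∈ G, ∃ x, (∀ i ∈ b.support, 0 ≤ P.root' i x) ∧
      cd k (fun i => (h i : Ω)) = ac (inl g) (DD P wt Ω x) := by
  obtain ⟨ρ, -, hρ⟩ := exists_coweight b (fun _ => 1)
  have hρ' : ∀ i ∈ b.support, 0 < P.root' i ρ := fun i hi => by rw [hρ i hi]; exact one_pos
  obtain ⟨g, hg, hN⟩ := D.conj_borel hρ' hH
  have hreg : ∀ i, P.root' i (-ρ) ≠ 0 := fun i => by
    rw [map_neg, neg_ne_zero]
    exact reg_ne hρ' i
  have hH' : cd (g * k) (fun i => (h i : Ω)) ∈ lie (GS G) Ω := by
    rw [← ac_cd]; exact lie_conj (D.mem_iff.mpr hg) hH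
  obtain ⟨g', hg', x, e⟩ := D.conj_unip hreg hH' hN
  obtain ⟨l, -, hl⟩ := climb (b := b) (J := b.support) subset_rfl x
  obtain ⟨w, h1, -, h2⟩ := D.exists_NW (E := Ω) l
  refine ⟨g⁻¹ * g' * w⁻¹, mul_mem (mul_mem (inv_mem hg) hg') (inv_mem (D.mem_iff.mp h1)),
    wN P l x, hl, ?_⟩
  rw [← h2 x, map_mul, map_mul, ac_mul, ac_mul, map_inv, map_inv, ac_inv_ac, ← e, ← ac_cd,
    ac_inv_ac]

end Pool.Agent.P.MP_7d29e8_ag
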