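import Pool.Agent.P.MP_7d29e8_ag.FH1
import Pool.Agent.P.MP_7d29e8_ag.FG3

set_option autoImplicit false
set_option linter.unusedSectionVars false
set_option linter.unusedVariables false

/-! Existence of frames. -/

namespace Pool.Agent.P.MP_7d29e8_ag

open Finset SemidirectProduct
open scoped Classical

variable {p : ℕ} [Fact p.Prime] {O K Ω : Type} [CommRing O] [Field K] [Field Ω] [Algebra O K]
  [Algebra K Ω] [IsAlgClosure K Ω] [CharZero K] [CharZero Ω] {σ : K ≃+* K}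
  {n n' : Type} [Fintype n] [DecidableEq n] [Fintype n'] [DecidableEq n']
  {ι M N : Type} [AddCommGroup M] [Module ℚ M] [AddCommGroup N] [Module ℚ N]
  {P : RootPairing ι ℚ M N} {wt : n → M} {wt' : n' → M} {G : Subgroup (GL n Ω)}
  {G' : Subgroup (GL n' Ω)} {y g₀ : GL n Ω} {y' : GL n' Ω} {s : Ω ≃+* Ω}
  {v : Ω → ℚ} {hv : Val v} {pw : ℚ → Ωˣ} {b : P.Base} {a₀ : P.Aut} {ρ : N}
  [Finite ι] [P.IsCrystallographic] [P.IsReduced]

lemma Nrm.act {g : GL n Ω} {θ : Ω ≃+* Ω} {a : P.Aut}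
    (h1 : ∀ i ∈ b.support, a.indexEquiv i ∈ b.support)
    (h2 : Nrm P wt (Yc y (inl g * inr θ)) a.coweightMap) : Act P b y wt g θ a := by
  refine ⟨h1, fun x => ?_⟩
  have h := h2 x
  rw [ac_Yc_iff, ac_mul, ac_inr, ac_inl, ← dd_eq, ← dd_eq, Units.mul_inv_eq_iff_eq_mul] at h
  exact h

lemma DS.frame (D : DS (Gd G y) P wt) (gal : ∀ τ : Ω ≃ₐ[K] Ω, ∃ a, Act P b y wt 1 τ a)
    (h0 : g₀ ∈ G) (h1 : Act P b y wt g₀ s a₀) : Frame K P G b y wt s g₀ a₀ where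
  span := D.span
  tor x hx t ht := by
    obtain ⟨g, hg, e⟩ := D.tor x hx t ht
    exact ⟨acu (inl y) g, hg, by rw [acu_val, e]; rfl⟩
  cent X hX wX := by
    rw [← ac_ac_inv (inl y) X] at hX wX ⊢
    have := D.cent _ (lie_Gd.mpr (lieG_iff.mp hX)) (isWt_iff.mp wX)
    generalize ac (inl y)⁻¹ X = Z at this
    induction this using Submodule.span_induction with
    | mem Z hZ =>
      obtain ⟨x, rfl⟩ := hZ
      exact Submodule.subset_span ⟨x, rfl⟩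
    | zero => simp
    | add _ _ _ _ h1 h2 => rw [map_add]; exact add_mem h1 h2
    | smul c _ _ h => rw [ac_smul]; exact Submodule.smul_mem _ _ h
  roots m hm X hX h0 wX := by
    rw [← ac_ac_inv (inl y) X] at hX wX h0
    exact D.roots m hm _ (lie_Gd.mpr (lieG_iff.mp hX)) (fun h => h0 (by rw [h, map_zero]))
      (isWt_iff.mp wX)
  sl2 i := by
    obtain ⟨h0, e, he, f, hf, we, wf, h⟩ := D.sl2 i
    refine ⟨h0, _, lieG_iff.mpr (lie_Gd.mp he), _, lieG_iff.mpr (lie_Gd.mp hf), isWt_iff.mpr we,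
      isWt_iff.mpr wf, ?_⟩
    rw [← map_mul, ← map_mul, ← map_sub, h, dd_eq]
  gal := gal
  fr := ⟨h0, h1⟩

lemma stab_iff_FH2 {φ : SL n Ω} (h1 : ∀ g ∈ G, acu φ g ∈ G) (h2 : ∀ g ∈ G, acu φ⁻¹ g ∈ G)
    (g : GL n Ω) : acu φ g ∈ G ↔ g ∈ G :=
  ⟨fun h => by have := h2 _ h; rwa [acu_inv_acu] at this, h1 g⟩

lemma desc_FH2 (V : Submodule Ω (Matrix n n Ω)) (hV : ∀ τ ∈ II K y, ∀ X ∈ V, ac τ X ∈ V) :
    V ≤ Submodule.span Ω {X | X ∈ V ∧ ∀ τ ∈ II K y, ac τ X = X} := fun X hX => by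
  let L : Matrix n n Ω →ₗ[Ω] Matrix n n Ω :=
    { toFun := ac (inl y)⁻¹, map_add' := map_add _, map_smul' := fun c X => by
        rw [ac_smul]; simp }
  have h4 := descent (K := K) (V.comap L) (fun τ X hX => by
    have := hV _ ⟨τ, rfl⟩ _ hX
    rwa [Yc, ac_mul, ac_mul, show ac (inl y) (L X) = X from ac_ac_inv _ _, ac_inr] at this)
    (show ac (inl y) X ∈ V.comap L by
      change ac _ _ ∈ V
      rwa [ac_inv_ac])
  have h5 := Submodule.mem_map_of_mem (f := L) h4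
  rw [Submodule.map_span, show L (ac (inl y) X) = X from ac_inv_ac _ _] at h5
  refine Submodule.span_mono ?_ h5
  rintro _ ⟨Z, ⟨a1, a2⟩, rfl⟩
  exact ⟨a1, II_fix.mpr (by rwa [show ac (inl y) (L Z) = Z from ac_ac_inv _ _])⟩

lemma norm_FH2 (hs : ∀ a, s (algebraMap K Ω a) = algebraMap K Ω (σ a)) {φ : SL n Ω}
    (hφ : φ ∈ II K y) : (Yc y (inr s))⁻¹ * φ * Yc y (inr s) ∈ II K y := by
  obtain ⟨τ, rfl⟩ := hφ
  refine ⟨AlgEquiv.ofRingEquiv (f := s⁻¹ * τ * s) fun a => s.injective ?_, ?_⟩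
  · change s (s.symm (τ (s _))) = _
    rw [s.apply_symm_apply, hs, τ.commutes]
  · rw [← Yc_inv, ← Yc_mul, ← Yc_mul]
    congr 1
    change _ = inr (s⁻¹ * τ * s)
    simp only [map_mul, map_inv]

lemma reg_FH2 (D : DS G P wt) (hρ : ∀ i, P.root' i ρ ≠ 0) {ψ : SL n Ω}
    (hψ : ∀ g ∈ G, acu ψ g ∈ G) {ρ' : N} (h : ac ψ (DD P wt Ω ρ') = DD P wt Ω ρ) (i : ι) :
    P.root' i ρ' ≠ 0 := by
  have key : ∀ X ∈ lie (GS G) Ω, Zer (hh P wt ρ') X → ∃ d, ac ψ X = Matrix.diagonal d := by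
    intro X hX hz
    refine span_DD_diag (D.cent_reg hρ (lie_ac hψ hX) (zer_iff.mpr ?_))
    change ac ψ X * DD P wt Ω ρ = DD P wt Ω ρ * ac ψ X
    rw [← h, ← map_mul, ← map_mul]
    exact congrArg _ (zer_iff.mp hz)
  refine D.reg_of_comm (fun X hX Y hY hx hy => ?_) i
  obtain ⟨d, hd⟩ := key X hX hx
  obtain ⟨d', hd'⟩ := key Y hY hy
  refine ac_inj ψ ?_
  rw [map_mul, map_mul, hd, hd']
  exact Matrix.commute_diagonal d d'

theorem exists_fr (hG : IsRed σ G) (hs : ∀ a, s (algebraMap K Ω a) = algebraMap K Ω (σ a))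
    (D : DS (Gd G y) P wt) (hρ : ∀ i ∈ b.support, 0 < P.root' i ρ)
    (fρ : ∀ τ : Ω ≃ₐ[K] Ω, (dd P y wt ρ).map τ = dd P y wt ρ) :
    ∃ g₀ a₀, Frame K P G b y wt s g₀ a₀ ∧ acu (inl y)⁻¹ g₀ ∈ Gp (Gd G y) (II K y) := by
  have stab : ∀ τ ∈ II K y, ∀ g ∈ Gd G y, acu τ g ∈ Gd G y := by
    rintro _ ⟨τ, rfl⟩
    exact Yc_stab (hG.gal τ)
  have fI : ∀ τ ∈ II K y, ac τ (DD P wt Ω ρ) = DD P wt Ω ρ := II_fix.mpr fρ
  have aI : ∀ τ ∈ II K y, ∃ a : P.Aut, (∀ i ∈ b.support, a.indexEquiv i ∈ b.support) ∧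
      Nrm P wt τ a.coweightMap := fun τ hτ =>
    D.aut (stab_iff_FH2 (stab τ hτ) (stab _ (inv_mem hτ))) hρ hρ (fI τ hτ)
  have gal : ∀ τ : Ω ≃ₐ[K] Ω, ∃ a, Act P b y wt 1 τ a := fun τ => by
    obtain ⟨a, h1, h2⟩ := aI _ ⟨τ, rfl⟩
    exact ⟨a, Nrm.act h1 (by rwa [map_one, one_mul])⟩
  have s1 : ∀ g ∈ Gd G y, acu (Yc y (inr s)) g ∈ Gd G y :=
    Yc_stab fun g hg => (hG.frob hs).mpr hg
  have s2 : ∀ g ∈ Gd G y, acu (Yc y (inr s))⁻¹ g ∈ Gd G y :=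
    Yc_inv y _ ▸ Yc_stab fun g hg => by rwa [← hG.frob hs, acu_acu_inv]
  have nI := fun τ => norm_FH2 (y := y) (φ := τ) hs
  have eY : ∀ k : GL n Ω, Yc y (inl (acu (inl y) k) * inr s) = inl k * Yc y (inr s) := fun k => by
    rw [Yc_mul, Yc_inl, acu_inv_acu]
  generalize Yc y (inr s) = φ at s1 s2 nI eY
  have e0 : ac φ (DD P wt Ω ρ) = cd φ.left fun i => (hh P wt ρ i : Ω) := ac_diag φ _
  obtain ⟨k, hk, ρ', dom, e⟩ := D.conj b (e0 ▸ lie_ac s1 (D.DD_mem ρ))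
  rw [← e0] at e
  have reg := reg_FH2 D (reg_ne hρ) (ψ := φ⁻¹ * inl k) (ρ' := ρ') (fun g hg => by
    rw [acu_mul, acu_inl]
    exact s2 _ (mul_mem (mul_mem hk hg) (inv_mem hk))) (by rw [ac_mul, ← e, ac_inv_ac])
  have hρ' : ∀ i ∈ b.support, 0 < P.root' i ρ' := fun i hi => (dom i hi).lt_of_ne (reg i).symm
  have hH : ∀ τ ∈ II K y, ac τ (ac (inl k) (DD P wt Ω ρ')) = ac (inl k) (DD P wt Ω ρ') :=
    fun τ hτ => by
      have := fI _ (nI τ hτ)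
      rw [ac_mul, ac_mul] at this
      rw [← e]
      exact (ac_ac_inv φ _).symm.trans (congrArg _ this)
  have f1 : ∀ τ ∈ II K y, ac τ (DD P wt Ω ρ') = DD P wt Ω ρ' := fun τ hτ => by
    obtain ⟨a, h1, h2⟩ := aI τ hτ
    rw [h2, D.conj_dom b (k := k⁻¹ * acu τ k) (x := a.coweightMap ρ') (y := ρ')
      (mul_mem (inv_mem hk) (stab τ hτ k hk)) ?_
      (fun i hi => by rw [root_act]; exact dom _ (h1 i hi)) dom]
    rw [← h2, map_mul, ac_mul, ← ac_ac_inl, hH τ hτ, map_inv, ac_inv_ac]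
  obtain ⟨k', hk', e'⟩ := D.conj_rat stab desc_FH2 f1 hk hH
  have hk1 := (Gp_mem (Gp_inv hk')).1
  obtain ⟨a, h1, h2⟩ := D.aut (φ := inl k'⁻¹ * φ) (fun g => by
    rw [acu_mul, acu_inl, mul_mem_cancel_right (inv_mem hk1), mul_mem_cancel_left hk1]
    exact stab_iff_FH2 s1 s2 g) hρ hρ' (by rw [ac_mul, e, ← e', map_inv, ac_inv_ac])
  refine ⟨acu (inl y) k'⁻¹, a, D.frame gal hk1 (Nrm.act h1 (by rwa [eY])), ?_⟩
  rw [acu_inv_acu]
  exact Gp_inv hk'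

end Pool.Agent.P.MP_7d29e8_ag
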