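import Pool.Agent.P.MP_7d29e8_ag.FH1

set_option autoImplicit false
set_option linter.unusedSectionVars false
set_option linter.unusedVariables false

/-! The Newton point of the base element. -/

namespace Pool.Agent.P.MP_7d29e8_ag

open Finset SemidirectProduct
open scoped Classical

variable {p : ℕ} [Fact p.Prime] {O K Ω : Type} [CommRing O] [Field K] [Field Ω] [Algebra O K]
  [Algebra K Ω] [IsAlgClosure K Ω] [CharZero K] [CharZero Ω] {σ : K ≃+* K}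
  {n n' : Type} [Fintype n] [DecidableEq n] [Fintype n'] [DecidableEq n']
  {ι M N : Type} [AddCommGroup M] [Module ℚ M] [AddCommGroup N] [Module ℚ N]
  {P : RootPairing ι ℚ M N} {wt : n → M} {wt' : n' → M} {G : Subgroup (GL n Ω)}
  {G' : Subgroup (GL n' Ω)} {y g₀ : GL n Ω} {y' : GL n' Ω} {s : Ω ≃+* Ω}
  {v : Ω → ℚ} {hv : Val v} {pw : ℚ → Ωˣ} {b : P.Base} {a₀ : P.Aut} {ρ : N}
  [Finite ι] [P.IsCrystallographic] [P.IsReduced]

theorem exists_nu (hG : IsRed σ G) (hs : ∀ a, s (algebraMap K Ω a) = algebraMap K Ω (σ a))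
    (hpw : Pw v pw) (hτ : ∀ (τ : Ω ≃ₐ[K] Ω) a, v (τ a) = v a) (hvs : ∀ a, v (s a) = v a)
    (hF : Frame K P G b y wt s g₀ a₀) (r₀ : Rt K g₀) (hρ : ∀ i, P.root' i ρ ≠ 0) {r : ℕ}
    (hr : 0 < r) (fρ : (dd P y wt ρ).map (s ^ r : Ω ≃+* Ω) = dd P y wt ρ) :
    ∃ ν₀, Nt K hv pw P y wt (inr s) g₀ 1 ν₀ := by
  have := IsAlgClosure.isAlgClosed K (K := Ω)
  have D := hF.ds hG
  obtain ⟨φ, hφ⟩ : ∃ φ : SL n Ω, φ = Yc y (inr s) := ⟨_, rfl⟩
  obtain ⟨g, hg⟩ : ∃ g : GL n Ω, g = acu (inl y)⁻¹ g₀ := ⟨_, rfl⟩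
  have e0 : Yc y (inl g₀ * inr s) = inl g * φ := by rw [Yc_mul, Yc_inl, hφ, hg]
  have iso : Iso v φ := fun z => by rw [hφ, Yc_right]; exact hvs z
  have stab : ∀ k ∈ Gd G y, acu φ k ∈ Gd G y :=
    hφ ▸ Yc_stab fun k hk => (hG.frob hs).mpr hk
  have stabp : ∀ j : ℕ, ∀ k ∈ Gd G y, acu (φ ^ j) k ∈ Gd G y := fun j => by
    induction j with
    | zero =>
      intro k hk
      rwa [pow_zero, show acu 1 k = k from Units.ext (ac_one _)]
    | succ j ih =>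
      intro k hk
      rw [pow_succ, acu_mul]
      exact ih _ (stab k hk)
  have ypow : ∀ j : ℕ, φ ^ j = Yc y (inr (s ^ j)) := fun j => by
    induction j with
    | zero => simp [Yc]
    | succ j ih => rw [pow_succ, ih, pow_succ, map_mul, Yc_mul, hφ]
  have h1 : ac (φ ^ r) (DD P wt Ω ρ) = DD P wt Ω ρ := by
    rw [ypow, ac_Yc_iff, ac_inr, ← dd_eq]; exact fρ
  obtain ⟨a, ha⟩ := D.nrm_of (stabp r) hρ h1
  obtain ⟨s₂, p2, m2⟩ := ha.fin
  have n1 : Nrm P wt (inl g * φ) a₀.coweightMap := e0 ▸ hF.fr.2.nrm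
  obtain ⟨s₁, p1, m1⟩ := n1.fin
  have m3 := m1.pow_id (r * s₂)
  rw [← pow_mul] at m2
  have m4 := m2.pow_id s₁
  rw [← pow_mul] at m3 m4
  rw [mul_comm] at m4
  have rg : ∀ τ ∈ II K y, acu τ g = g := rt_II.mpr (by rwa [hg, acu_acu_inv])
  have nm : ∀ τ ∈ II K y, φ⁻¹ * τ * φ ∈ II K y := by
    rintro _ ⟨τ, rfl⟩
    refine ⟨AlgEquiv.ofRingEquiv (f := s⁻¹ * τ * s) fun a => s.injective ?_, ?_⟩
    · change s (s.symm (τ (s _))) = _
      rw [s.apply_symm_apply, hs, τ.commutes]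
    · rw [hφ, ← Yc_inv, ← Yc_mul, ← Yc_mul, ← map_inv, ← map_mul, ← map_mul]
      rfl
  have hP : ∀ j, PP φ g j ∈ Gd G y ∧ ∀ τ ∈ II K y, acu τ (PP φ g j) = PP φ g j := by
    intro j
    induction j with
    | zero => exact ⟨one_mem _, fun τ _ => map_one _⟩
    | succ j ih =>
      refine ⟨mul_mem (hg ▸ mem_Gd'.mpr hF.fr.1) (stab _ ih.1), fun τ h => ?_⟩
      rw [PP, map_mul, rg τ h]
      congr 1
      conv_rhs => rw [← ih.2 _ (nm τ h), ← acu_mul]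
      rw [← acu_mul, ← mul_assoc, mul_inv_cancel_left]
  have m5 : Nrm P wt (inl (PP φ g (s₁ * (r * s₂)))) id := by
    have := m3.mul (m4.inv (a' := id) fun _ => rfl)
    rwa [PP_spec, mul_inv_cancel_right] at this
  obtain ⟨x, hx⟩ := D.cent_tor hρ hv.mul (D.mem_iff.mpr (hP _).1) (nrm_iff_zer.mp m5 ρ)
  have H0 : NP hv pw φ 1 (hh P wt 0) := by
    have b := mul_mem (inv_mem (Bdd.const (hv := hv) y))
      (bdd_ga (Bdd.const (hv := hv) y) (fun j : ℕ => s ^ j) fun j => by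
        have := iso.pow j
        rw [ypow] at this
        intro z
        simpa only [Yc_right, right_inr] using this z)
    have e : (fun j : ℕ => (1 * dU fun i => pw (j * hh P wt 0 i))⁻¹ * (φ ^ j).left) =
        (fun _ : ℕ => y)⁻¹ * fun j : ℕ => ga n Ω (s ^ j) y := by
      funext j
      simp only [hh_zero, mul_zero, pw_zero hpw, ypow, Pi.mul_apply, Pi.inv_apply]
      rw [show (fun _ : n => (1 : Ωˣ)) = 1 from rfl, Yc, ← map_inv (inl : GL n Ω →* SL n Ω)]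
      simp only [mul_left, mul_right, left_inl, right_inl, left_inr, right_inr, map_one, one_mul,
        mul_one, inv_one]
    rw [NP, e]
    exact b
  have H1 := H0.torus hpw iso (Nat.mul_pos p1 (Nat.mul_pos hr p2)) m4 hx
  refine ⟨0 + ((s₁ * (r * s₂) : ℕ) : ℚ)⁻¹ • x, (nt_diag hvs).mpr ⟨r₀, ?_, ?_, ?_⟩⟩
  · rintro _ ⟨τ, rfl⟩
    obtain ⟨c, hc⟩ := hF.gal τ
    have h2 : Nrm P wt (Yc y (inr (τ : Ω ≃+* Ω))) c.coweightMap := by simpa using hc.nrm
    have h3 := h2.tor (cw_surj c) (fun z => by rw [Yc_right]; exact hτ τ z) hx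
    rw [(hP _).2 _ ⟨τ, rfl⟩] at h3
    simp only [map_one, ac_one]
    rw [h2, map_add, map_zero, map_smul, h3.unique D.span hx]
  · simp only [map_one, ac_one]
    rw [e0, n1, H1.fix hpw D.span ((Iso.inl _).mul iso) n1 (cw_surj a₀)]
  · rw [e0, map_one]
    exact H1

end Pool.Agent.P.MP_7d29e8_ag
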