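import Pool.Agent.P.MP_7d29e8_ag.FA2

set_option autoImplicit false
set_option linter.unusedSectionVars false
set_option linter.unusedVariables false

/-! The image of the torus. -/

namespace Pool.Agent.P.MP_7d29e8_ag

open Finset SemidirectProduct
open scoped Classical

variable {Ω : Type} [Field Ω] [CharZero Ω] {n n' : Type} [Fintype n] [DecidableEq n] [Fintype n']
  [DecidableEq n'] {G : Subgroup (GL n Ω)} {G' : Subgroup (GL n' Ω)}
  {ι M N : Type} [AddCommGroup M] [Module ℚ M] [AddCommGroup N] [Module ℚ N]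
  {P : RootPairing ι ℚ M N} {wt : n → M} {y : GL n Ω}

/-- a representation whose entries are combinations of characters is diagonalisable -/
theorem diag_chars {A : Type} [Group A] (S : Set (A →* Ω)) (r : A →* GL n' Ω)
    (h : ∀ i j, (fun a => (r a).val i j) ∈ Submodule.span Ω ((fun χ : A →* Ω => (χ : A → Ω)) '' S)) :
    ∃ (k : GL n' Ω) (χ : n' → A →* Ω), (∀ i, χ i ∈ S) ∧ ∀ a, (r a).val = cd k fun i => χ i a := by
  choose l hl1 hl2 using fun i j => (Finsupp.mem_span_image_iff_linearCombination Ω).mp (h i j)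
  let s : Finset (A →* Ω) := univ.biUnion fun q : n' × n' => (l q.1 q.2).support
  let B : (A →* Ω) → Matrix n' n' Ω := fun χ => Matrix.of fun i j => l i j χ
  have hsS : ∀ χ ∈ s, χ ∈ S := fun χ hχ => by
    obtain ⟨q, -, hq⟩ := mem_biUnion.mp hχ
    exact hl1 q.1 q.2 hq
  have hr : ∀ a, (r a).val = ∑ χ ∈ s, χ a • B χ := fun a => by
    ext i j
    have := congrFun (hl2 i j) a
    rw [Finsupp.linearCombination_apply, Finsupp.sum_of_support_subset _
      (subset_biUnion_of_mem (fun q : n' × n' => (l q.1 q.2).support) (mem_univ (i, j))) _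
      (by simp)] at this
    rw [← this, Finset.sum_apply, Matrix.sum_apply]
    exact sum_congr rfl fun χ _ => mul_comm _ _
  have key : ∀ χ ∈ s, ∀ a, (r a).val * B χ = χ a • B χ := fun χ hχ a => by
    ext i j
    refine sub_eq_zero.mp (linearIndependent_iff'.mp (linearIndependent_monoidHom A Ω) s
      (fun χ => ((r a).val * B χ) i j - (χ a • B χ) i j) (funext fun c => ?_) χ hχ)
    have e : ∑ χ ∈ s, χ c • ((r a).val * B χ - χ a • B χ) = 0 := by
      simp only [smul_sub, sum_sub_distrib, ← Matrix.mul_smul, ← Matrix.mul_sum, ← hr c, smul_smul]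
      rw [← Units.val_mul, ← map_mul, hr, sub_eq_zero]
      exact sum_congr rfl fun χ _ => by rw [map_mul, mul_comm]
    have := congrFun (congrFun e i) j
    rw [Matrix.sum_apply] at this
    rw [Finset.sum_apply]
    exact (sum_congr rfl fun χ _ => mul_comm _ _).trans this
  obtain ⟨k, hk⟩ := basis_of_span {v | ∃ χ ∈ S, ∀ a, (r a).val.mulVec v = χ a • v} (by
    rw [eq_top_iff]
    intro v _
    have e : v = ∑ χ ∈ s, (B χ).mulVec v := by
      have := hr 1
      simp only [map_one, one_smul, Units.val_one] at this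
      rw [← Matrix.sum_mulVec, ← this, Matrix.one_mulVec]
    rw [e]
    exact Submodule.sum_mem _ fun χ hχ => Submodule.subset_span ⟨χ, hsS χ hχ, fun a => by
      rw [Matrix.mulVec_mulVec, key χ hχ, Matrix.smul_mulVec]⟩)
  choose χ h1 h2 using hk
  exact ⟨k, χ, h1, fun a => cd_of_eig fun i => h2 i a⟩

lemma mem_congr_FI2 {A : Type} {W : Submodule Ω (A → Ω)} {u w : A → Ω} (h : u ∈ W)
    (e : ∀ a, u a = w a) : w ∈ W := funext e ▸ h

/-- monomial characters of a group of diagonal matrices -/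
noncomputable def ch_FI2 (A : Subgroup (n → Ωˣ)) (m : n → ℤ) : A →* Ω where
  toFun a := ((∏ i, a.1 i ^ m i : Ωˣ) : Ω)
  map_one' := by simp
  map_mul' a c := by simp [mul_zpow, prod_mul_distrib]

lemma ch_add_FI2 (A : Subgroup (n → Ωˣ)) (m m' : n → ℤ) :
    (ch_FI2 A (m + m') : A → Ω) = (ch_FI2 A m : A → Ω) * (ch_FI2 A m' : A → Ω) := by
  funext a
  simp [ch_FI2, zpow_add, prod_mul_distrib]

lemma ch_single_FI2 (A : Subgroup (n → Ωˣ)) (l : n) (z : ℤ) (a : A) :
    ch_FI2 A (Pi.single l z) a = ((a.1 l ^ z : Ωˣ) : Ω) := by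
  change ((∏ i, a.1 i ^ (Pi.single l z : n → ℤ) i : Ωˣ) : Ω) = _
  rw [prod_eq_single l (fun i _ hi => by simp [hi]) (by simp), Pi.single_eq_same]

lemma zpow_sum_FI2 {α : Type} (u : Ωˣ) (s : Finset α) (f : α → ℤ) :
    u ^ ∑ i ∈ s, f i = ∏ i ∈ s, u ^ f i := by
  induction s using Finset.induction_on with
  | empty => simp
  | insert a s ha ih => rw [sum_insert ha, prod_insert ha, zpow_add, ih]

lemma aeval_FI2 (A : Subgroup (n → Ωˣ)) {α : Type} (x : α → A → Ω)
    (hx : ∀ q, x q ∈ Submodule.span Ω ((fun χ : A →* Ω => (χ : A → Ω)) '' Set.range (ch_FI2 A)))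
    (f : MvPolynomial α Ω) : (fun a => MvPolynomial.aeval (fun q => x q a) f) ∈
      Submodule.span Ω ((fun χ : A →* Ω => (χ : A → Ω)) '' Set.range (ch_FI2 A)) := by
  induction f using MvPolynomial.induction_on with
  | C c =>
    have := Submodule.smul_mem _ c (Submodule.subset_span (R := Ω)
      (s := (fun χ : A →* Ω => (χ : A → Ω)) '' Set.range (ch_FI2 A)) ⟨_, ⟨0, rfl⟩, rfl⟩)
    refine mem_congr_FI2 this fun a => ?_
    simp [ch_FI2]
  | add f g h1 h2 =>
    refine mem_congr_FI2 (add_mem h1 h2) fun a => ?_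
    simp
  | mul_X f q h1 =>
    have := Submodule.mul_mem_mul h1 (hx q)
    rw [Submodule.span_mul_span] at this
    refine mem_congr_FI2 (Submodule.span_mono ?_ this) fun a => ?_
    · rintro _ ⟨_, ⟨_, ⟨m, rfl⟩, rfl⟩, _, ⟨_, ⟨m', rfl⟩, rfl⟩, rfl⟩
      exact ⟨_, ⟨m + m', rfl⟩, ch_add_FI2 A m m'⟩
    · simp

lemma ent_FI2 (A : Subgroup (n → Ωˣ)) (y : GL n Ω) (z : ℤ) (i j : n) :
    (fun a : A => (acu (inl y) (dU (a.1 ^ z))).val i j) ∈
      Submodule.span Ω ((fun χ : A →* Ω => (χ : A → Ω)) '' Set.range (ch_FI2 A)) := by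
  have : (fun a : A => (acu (inl y) (dU (a.1 ^ z))).val i j) =
      ∑ l, (y.val i l * (y⁻¹).val l j) • (ch_FI2 A (Pi.single l z) : A → Ω) := by
    funext a
    rw [acu_val, ac_inl, dU_val, Matrix.mul_apply, Finset.sum_apply]
    refine sum_congr rfl fun l _ => ?_
    rw [Matrix.mul_diagonal, Pi.smul_apply, ch_single_FI2, smul_eq_mul, Pi.pow_apply]
    ring
  rw [this]
  exact Submodule.sum_mem _ fun l _ => Submodule.smul_mem _ _
    (Submodule.subset_span ⟨_, ⟨_, rfl⟩, rfl⟩)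

lemma cd_eq_one_FI2 {k : GL n Ω} {d : n → Ω} : cd k d = 1 ↔ ∀ i, d i = 1 := by
  have e : cd k (fun _ => (1 : Ω)) = 1 := by simp [cd]
  constructor
  · intro h i
    exact congrFun (cd_inj (h.trans e.symm)) i
  · intro h
    rw [show d = fun _ => 1 from funext h, e]

theorem exists_wt' [IsAlgClosed Ω] (hs : Submodule.span ℚ (Set.range wt) = ⊤)
    (tor : ∀ x ∈ lat P wt, ∀ t, cou P y wt x t ∈ G) (ψ : G ≃* G') (hψ : Reg Ω ψ) :
    ∃ (y' : GL n' Ω) (wt' : n' → M), Submodule.span ℚ (Set.range wt') = ⊤ ∧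
      lat P wt' = lat P wt ∧ ∀ x ∈ lat P wt, ∀ t ≠ 0, ∀ g : G, g.val.val = co P y wt x t →
        (ψ g).val.val = co P y' wt' x t := by
  let A : Subgroup (n → Ωˣ) := G.comap ((acu (inl y)).comp dU)
  let j : A →* G := (((acu (inl y)).comp dU).comp A.subtype).codRestrict G fun a => a.2
  let r : A →* GL n' Ω := G'.subtype.comp (ψ.toMonoidHom.comp j)
  obtain ⟨k, χ, h1, h2⟩ := diag_chars (Set.range (ch_FI2 A)) r fun i i' => by
    obtain ⟨f, hf⟩ := hψ i i'
    have := aeval_FI2 A (Sum.elim (fun (q : n × n) (a : A) => (j a).val.val q.1 q.2)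
      (fun (q : n × n) (a : A) => ((j a)⁻¹).val.val q.1 q.2)) (by
        rintro (q | q)
        · have := ent_FI2 A y 1 q.1 q.2
          simp only [zpow_one] at this
          exact this
        · have := ent_FI2 A y (-1) q.1 q.2
          simp only [zpow_neg_one, map_inv] at this
          exact this) f
    refine mem_congr_FI2 this fun a => ?_
    refine Eq.trans ?_ (hf (j a)).symm
    congr 2
    funext q
    cases q <;> rfl
  choose m hm using h1
  let wt' : n' → M := fun i => ∑ l, (m i l : ℚ) • wt l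
  have hint : ∀ x ∈ lat P wt, ∀ i,
      P.toLinearMap (wt' i) x = ((∑ l, ⌊hh P wt x l⌋ * m i l : ℤ) : ℚ) := fun x hx i => by
    simp only [wt', map_sum, map_smul, LinearMap.sum_apply, LinearMap.smul_apply, smul_eq_mul]
    push_cast
    refine sum_congr rfl fun l _ => ?_
    obtain ⟨z, hz⟩ := mem_lat.mp hx l
    rw [hz, Int.floor_intCast, mul_comm, ← hz]
    rfl
  have hco : ∀ x ∈ lat P wt, ∀ t ≠ 0, ∀ g : G, g.val.val = co P y wt x t →
      (ψ g).val.val = co P k wt' x t := fun x hx t ht g hg => by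
    let a : A := ⟨fun i => Units.mk0 t ht ^ ⌊hh P wt x i⌋, tor x hx (Units.mk0 t ht)⟩
    have e : j a = g := Subtype.ext (Units.ext ((cou_val x (Units.mk0 t ht)).trans hg.symm))
    rw [← e]
    refine (h2 a).trans (congrArg (cd k) (funext fun i => ?_))
    rw [← hm, hint x hx, Int.floor_intCast]
    change ((∏ l, (Units.mk0 t ht ^ ⌊hh P wt x l⌋) ^ m i l : Ωˣ) : Ω) = _
    simp only [← zpow_mul]
    rw [← zpow_sum_FI2, Units.val_zpow_eq_zpow_val, Units.val_mk0]
  have inj : ∀ x ∈ lat P wt, ∀ t : Ω, t ≠ 0 → (∀ i, t ^ ⌊hh P wt' x i⌋ = 1) →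
      ∀ i, t ^ ⌊hh P wt x i⌋ = 1 := fun x hx t ht h => by
    have e := hco x hx t ht ⟨_, tor x hx (Units.mk0 t ht)⟩ (cou_val x _)
    have e1 : ψ ⟨_, tor x hx (Units.mk0 t ht)⟩ = 1 :=
      Subtype.ext (Units.ext (e.trans (cd_eq_one_FI2.mpr h)))
    have e2 := congrArg (fun g : G => g.val.val) (ψ.map_eq_one_iff.mp e1)
    exact cd_eq_one_FI2.mp ((cou_val x (Units.mk0 t ht)).symm.trans e2)
  refine ⟨k, wt', ?_, le_antisymm (fun x hx => ?_) fun x hx i => ⟨_, hint x hx i⟩, hco⟩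
  · by_contra hne
    obtain ⟨φ, h0, hφ⟩ := Submodule.exists_le_ker_of_lt_top _ (lt_top_iff_ne_top.mpr hne)
    obtain ⟨x, rfl⟩ := (LinearMap.IsPerfPair.bijective_right P.toLinearMap).2 φ
    obtain ⟨c, hc, hx⟩ := exists_lat (P := P) (wt := wt) x
    have h3 := inj _ hx 2 two_ne_zero fun i => by
      have : hh P wt' x i = 0 := hφ (Submodule.subset_span ⟨i, rfl⟩)
      rw [hh_smul, this, mul_zero, Int.floor_zero, zpow_zero]
    refine h0 (by
      rw [hh_inj (P := P) hs (x := x) (y := 0) fun i => ?_, map_zero]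
      obtain ⟨z, hz⟩ := mem_lat.mp hx i
      have h4 := h3 i
      rw [hz, Int.floor_intCast] at h4
      have h5 : (2 : ℚ) ^ z = 1 := by exact_mod_cast (show (((2 : ℚ) ^ z : ℚ) : Ω) = (1 : ℚ) by
        push_cast; exact h4)
      rw [zpow_eq_one_iff_right₀ (by norm_num) (by norm_num)] at h5
      rw [h5, hh_smul, Int.cast_zero, mul_eq_zero] at hz
      rw [hh_zero]
      exact hz.resolve_left (by exact_mod_cast hc.ne'))
  · obtain ⟨c, hc, hcx⟩ := exists_lat (P := P) (wt := wt) x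
    have : NeZero (c : Ω) := ⟨by exact_mod_cast hc.ne'⟩
    obtain ⟨ζ, hζ⟩ := HasEnoughRootsOfUnity.exists_primitiveRoot Ω c
    have h3 := inj _ hcx ζ (hζ.ne_zero hc.ne') fun i => by
      obtain ⟨z, hz⟩ := mem_lat.mp hx i
      rw [hh_smul, hz, hζ.zpow_eq_one_iff_dvd,
        show (c : ℚ) * z = ((c * z : ℤ) : ℚ) by push_cast; rfl, Int.floor_intCast]
      exact dvd_mul_right _ _
    refine mem_lat.mpr fun i => ?_
    obtain ⟨z, hz⟩ := mem_lat.mp hcx i
    have h4 := h3 i
    rw [hz, Int.floor_intCast, hζ.zpow_eq_one_iff_dvd] at h4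
    obtain ⟨w, rfl⟩ := h4
    rw [hh_smul, Int.cast_mul, Int.cast_natCast] at hz
    exact ⟨w, mul_left_cancel₀ (by exact_mod_cast hc.ne') hz⟩

end Pool.Agent.P.MP_7d29e8_ag
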