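import Pool.Agent.P.MP_7d29e8_ag.FI1

set_option autoImplicit false
set_option linter.unusedSectionVars false
set_option linter.unusedVariables false

/-! Transport of the root datum. -/

namespace Pool.Agent.P.MP_7d29e8_ag

open Finset SemidirectProduct
open scoped Classical

variable {Ω : Type} [Field Ω] [CharZero Ω] {n n' : Type} [Fintype n] [DecidableEq n] [Fintype n']
  [DecidableEq n'] {G : Subgroup (GL n Ω)} {G' : Subgroup (GL n' Ω)}
  {ι M N : Type} [AddCommGroup M] [Module ℚ M] [AddCommGroup N] [Module ℚ N]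
  {P : RootPairing ι ℚ M N} {wt : n → M} {y : GL n Ω}

lemma RL.sub {ψ : G → G'} {Rl : Matrix n n Ω → Matrix n' n' Ω → Prop} (R : RL G G' ψ Rl)
    {X Y : Matrix n n Ω} {X' Y' : Matrix n' n' Ω} (h : Rl X X') (h' : Rl Y Y') :
    Rl (X - Y) (X' - Y') := by
  simpa [sub_eq_add_neg] using R.add h (R.smul (-1) h')

theorem DS.transfer (D : DS (Gd G y) P wt) {ψ : G → G'} {Rl : Matrix n n Ω → Matrix n' n' Ω → Prop}
    (R : RL G G' ψ Rl) (hc : ∀ g : GL n' Ω, g.val ∈ Cl (GS G') Ω → g ∈ G')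
    (hp : (van (GS G')).IsPrime) {y' : GL n' Ω} {wt' : n' → M}
    (hs : Submodule.span ℚ (Set.range wt') = ⊤) (hL : lat P wt' = lat P wt)
    (hco : ∀ x ∈ lat P wt, ∀ t ≠ 0, ∀ g : G, g.val.val = co P y wt x t →
      (ψ g).val.val = co P y' wt' x t) : DS (Gd G' y') P wt' := by
  have tor : ∀ x ∈ lat P wt, ∀ t ≠ 0, ∃ g : G, g.val.val = co P y wt x t := fun x hx t ht => by
    obtain ⟨g, hg, e⟩ := D.tor x hx t ht
    exact ⟨⟨_, hg⟩, by rw [acu_val, e]; rfl⟩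
  have hd : ∀ x, Rl (dd P y wt x) (dd P y' wt' x) := fun x => by
    obtain ⟨r, hr, hx⟩ := exists_lat (P := P) (wt := wt) x
    have h1 := R.co y y' (fun i => ⌊hh P wt ((r : ℚ) • x) i⌋) (fun i => ⌊hh P wt' ((r : ℚ) • x) i⌋)
      fun t ht => let ⟨g, e⟩ := tor _ hx t ht; ⟨g, e, hco _ hx t ht g e⟩
    have key : ∀ {m : Type} [Fintype m] [DecidableEq m] (k : GL m Ω) (w : m → M),
        (r : ℚ) • x ∈ lat P w → (r : Ω)⁻¹ • (cd k fun i => (⌊hh P w ((r : ℚ) • x) i⌋ : Ω)) =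
          dd P k w x := fun k w h => by
      have : (fun i => (⌊hh P w ((r : ℚ) • x) i⌋ : Ω)) = (r : Ω) • fun i => (hh P w x i : Ω) := by
        funext i
        obtain ⟨z, hz⟩ := mem_lat.mp h i
        rw [hz, Int.floor_intCast, ← Rat.cast_intCast, ← hz, hh_smul]
        simp
      rw [this, cd_smul, smul_smul, inv_mul_cancel₀ (by exact_mod_cast hr.ne'), one_smul]
      rfl
    have := R.smul (r : Ω)⁻¹ h1
    rwa [key y wt hx, key y' wt' (hL ▸ hx)] at this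
  have hw : ∀ {X X'}, Rl X X' → ∀ m, IsWt P y wt m X ↔ IsWt P y' wt' m X' := fun h m =>
    forall_congr' fun x => by
      have := (R.mem (R.sub (R.br (hd x) h) (R.smul (P.toLinearMap m x : Ω) h))).2.2
      rwa [sub_eq_zero, sub_eq_zero] at this
  have fn : ∀ {X X' X''}, Rl X X' → Rl X X'' → X' = X'' := fun h h' =>
    sub_eq_zero.mp ((R.mem (R.sub h h')).2.2.mp (sub_self _))
  have back : ∀ X' ∈ lie (GS (Gd G' y')) Ω, ∃ X ∈ lie (GS (Gd G y)) Ω,
      Rl (ac (inl y) X) (ac (inl y') X') := fun X' hX' => by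
    obtain ⟨X, h⟩ := R.tot' _ (lie_Gd.mp hX')
    exact ⟨ac (inl y)⁻¹ X, lie_Gd.mpr (by rw [ac_ac_inv]; exact (R.mem h).1), by rwa [ac_ac_inv]⟩
  have fwd : ∀ X ∈ lie (GS (Gd G y)) Ω, ∃ X' ∈ lie (GS (Gd G' y')) Ω,
      Rl (ac (inl y) X) (ac (inl y') X') := fun X hX => by
    obtain ⟨X', h⟩ := R.tot _ (lie_Gd.mp hX)
    exact ⟨ac (inl y')⁻¹ X', lie_Gd.mpr (by rw [ac_ac_inv]; exact (R.mem h).2.1), by
      rwa [ac_ac_inv]⟩
  refine ⟨fun g hg => hc _ (by simpa [ac_inl] using conj_cl (G₂ := G') (y := y') (fun _ h => h) hg),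
    prime_Gd y' hp, hs, fun x hx t ht => ?_, fun X' hX' wX => ?_, fun m hm X' hX' h0 wX => ?_,
    fun i => ?_⟩
  · obtain ⟨g, e⟩ := tor x (hL ▸ hx) t ht
    exact ⟨_, mem_Gd'.mpr (ψ g).2, by rw [acu_val, hco x (hL ▸ hx) t ht g e]; exact ac_inv_ac _ _⟩
  · obtain ⟨X, hX, h⟩ := back X' hX'
    have h1 := D.cent X hX (isWt_iff.mp ((hw h 0).mpr (isWt_iff.mpr wX)))
    have h2 : ∀ Z ∈ Submodule.span Ω (Set.range (DD P wt Ω)),
        ∃ Z' ∈ Submodule.span Ω (Set.range (DD P wt' Ω)), Rl (ac (inl y) Z) (ac (inl y') Z') := by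
      intro Z hZ
      induction hZ using Submodule.span_induction with
      | mem Z hZ =>
        obtain ⟨x, rfl⟩ := hZ
        exact ⟨_, Submodule.subset_span ⟨x, rfl⟩, hd x⟩
      | zero => exact ⟨0, zero_mem _, by simpa using R.smul 0 (hd 0)⟩
      | add _ _ _ _ h1 h2 =>
        obtain ⟨a, a1, a2⟩ := h1
        obtain ⟨c, c1, c2⟩ := h2
        exact ⟨a + c, add_mem a1 c1, by rw [map_add, map_add]; exact R.add a2 c2⟩
      | smul c _ _ h =>
        obtain ⟨a, a1, a2⟩ := h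
        exact ⟨c • a, Submodule.smul_mem _ _ a1, by rw [ac_smul, ac_smul]; exact R.smul c a2⟩
    obtain ⟨Z', z1, z2⟩ := h2 X h1
    exact ac_inj _ (fn h z2) ▸ z1
  · obtain ⟨X, hX, h⟩ := back X' hX'
    refine D.roots m hm X hX (fun e => h0 (ac_inj (inl y') ?_))
      (isWt_iff.mp ((hw h m).mpr (isWt_iff.mpr wX)))
    rw [map_zero]
    exact (R.mem h).2.2.mp (by rw [e, map_zero])
  · obtain ⟨h0, e, he, f, hf, we, wf, h⟩ := D.sl2 i
    obtain ⟨e', he', re⟩ := fwd e he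
    obtain ⟨f', hf', rf⟩ := fwd f hf
    refine ⟨hL ▸ h0, e', he', f', hf', isWt_iff.mp ((hw re _).mp (isWt_iff.mpr we)),
      isWt_iff.mp ((hw rf _).mp (isWt_iff.mpr wf)), ac_inj (inl y') ?_⟩
    have := R.br re rf
    rw [← map_mul, ← map_mul, ← map_sub, h, ← map_mul, ← map_mul, ← map_sub] at this
    exact fn this (hd _)

end Pool.Agent.P.MP_7d29e8_ag
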