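import Pool.Agent.P.MP_7d29e8_ag.FG3
import Pool.Agent.P.MP_7d29e8_ag.FB2

set_option autoImplicit false
set_option linter.unusedSectionVars false
set_option linter.unusedVariables false

/-! Basic elements and minuscule cocharacters in coordinates. -/

namespace Pool.Agent.P.MP_7d29e8_ag

open Finset SemidirectProduct
open scoped Classical

variable {p : ℕ} [Fact p.Prime] {O K Ω : Type} [CommRing O] [Field K] [Field Ω] [Algebra O K]
  [Algebra K Ω] [IsAlgClosure K Ω] [CharZero K] [CharZero Ω] {σ : K ≃+* K}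
  {n n' : Type} [Fintype n] [DecidableEq n] [Fintype n'] [DecidableEq n']
  {ι M N : Type} [AddCommGroup M] [Module ℚ M] [AddCommGroup N] [Module ℚ N]
  {P : RootPairing ι ℚ M N} {wt : n → M} {wt' : n' → M} {G : Subgroup (GL n Ω)}
  {G' : Subgroup (GL n' Ω)} {y g₀ : GL n Ω} {y' : GL n' Ω} {s : Ω ≃+* Ω}
  {v : Ω → ℚ} {hv : Val v} {pw : ℚ → Ωˣ} {b : P.Base} {a₀ : P.Aut} {ρ : N}
  [Finite ι] [P.IsCrystallographic] [P.IsReduced]

lemma ac_inv_cd_FJ (y k : GL n Ω) (d : n → Ω) :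
    ac (inl y : SL n Ω)⁻¹ (cd k d) = cd (y⁻¹ * k) d := by
  rw [← map_inv, ac_cd]

lemma co_eq_FJ (x : N) (t : Ω) :
    co P y wt x t = cd y fun i => t ^ ⌊hh P wt x i⌋ := rfl

theorem basic_nu (D : DS (Gd G y) P wt) (b : P.Base) {β : Matrix n n Ω} (h : Basic O p σ G β) :
    ∃ ν, Newton O p σ β (dd P y wt ν) ∧ ∀ i, P.root' i ν = 0 := by
  obtain ⟨k, h, H, hH, hl, hc, hN⟩ := h
  have e0 : ac (inl y : SL n Ω)⁻¹ H = cd (y⁻¹ * k) fun i => (h i : Ω) := by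
    rw [← ac_inv_cd_FJ, hH]; rfl
  have hl' : cd (y⁻¹ * k) (fun i => (h i : Ω)) ∈ lie (GS (Gd G y)) Ω := by
    rw [← e0, lie_Gd, ac_ac_inv]; exact lieG_iff.mp hl
  have hfix : ∀ g ∈ Gd G y, ac (inl g) (ac (inl y : SL n Ω)⁻¹ H) = ac (inl y : SL n Ω)⁻¹ H := by
    intro g hg
    have h1 := congrArg (ac (inl y : SL n Ω)⁻¹) (hc _ (mem_Gd.mp hg))
    rw [map_mul, map_mul, acu_val, ac_inv_ac] at h1
    rw [ac_inl, h1, mul_assoc, Units.mul_inv, mul_one]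
  obtain ⟨g, hg, x, -, hx⟩ := D.conj b hl'
  have e1 : ac (inl y : SL n Ω)⁻¹ H = DD P wt Ω x := by
    rw [← hfix _ ((Gd G y).inv_mem hg), e0, hx, map_inv, ac_inv_ac]
  refine ⟨x, ?_, fun i => ?_⟩
  · rwa [dd_eq, ← e1, ac_ac_inv]
  · obtain ⟨w, hw, -, hn, -⟩ := D.weyl (E := Ω) i
    have h1 := hn x
    rw [← e1, hfix _ (D.mem_iff.mp hw), e1] at h1
    have h2 := DD_inj D.span h1
    rw [RootPairing.coreflection_apply, eq_comm, sub_eq_self, smul_eq_zero] at h2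
    exact h2.resolve_right (P.ne_zero' i)

theorem minu_rep (D : DS (Gd G y) P wt) (b : P.Base) {μ : Ω → Matrix n n Ω} (h : Minu G μ) :
    ∃ m ∈ lat P wt, (∀ i ∈ b.support, 0 ≤ P.root' i m) ∧
      ∃ g ∈ G, ∀ t ≠ 0, μ t⁻¹ = g.val * co P y wt m t * (g⁻¹).val := by
  obtain ⟨⟨k, h, hμ⟩, hG, -⟩ := h
  have hμ' : ∀ t : Ω, t ≠ 0 → μ t⁻¹ = cd k fun i => t ^ (-h i) := fun t ht => by
    rw [hμ _ (inv_ne_zero ht)]
    simp only [cd, inv_zpow', zpow_neg]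
  have h1 : cd (y⁻¹ * k) (fun i => ((-h i : ℤ) : Ω)) ∈ lie (GS (Gd G y)) Ω := by
    refine cochar_lie (h := fun i => -h i) fun t ht => Cl.self ?_
    obtain ⟨g, hg, e⟩ := hG _ (inv_ne_zero ht)
    exact ⟨_, mem_Gd'.mpr hg, by rw [acu_val, e, hμ' t ht, ac_inv_cd_FJ]⟩
  have h2 : cd (y⁻¹ * k) (fun i => (((-h i : ℤ) : ℚ) : Ω)) ∈ lie (GS (Gd G y)) Ω := by
    simpa only [Rat.cast_intCast] using h1
  obtain ⟨g, hg, x, hx, e⟩ := D.conj b h2
  have e' : cd (y⁻¹ * k) (fun i => (((-h i : ℤ) : ℚ) : Ω)) = cd g fun i => (hh P wt x i : Ω) := e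
  have hL : x ∈ lat P wt := mem_lat.mpr fun i => by
    obtain ⟨j, hj⟩ := cd_range e'.symm i
    exact ⟨_, Rat.cast_injective hj⟩
  refine ⟨x, hL, hx, _, mem_Gd.mp hg, fun t ht => ?_⟩
  have hf : ∀ z : ℤ, Function.extend (Int.cast : ℤ → Ω) (fun z => t ^ z) 0 (z : Ω) = t ^ z :=
    fun z => Int.cast_injective.extend_apply _ _ _
  have e2 := cd_fun e' (Function.extend (Int.cast : ℤ → Ω) (fun z => t ^ z) 0)
  have e3 : cd (y⁻¹ * k) (fun i => t ^ (-h i)) = cd g fun i => t ^ ⌊hh P wt x i⌋ := by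
    convert e2 using 2
    · funext i
      rw [Function.comp_apply, Rat.cast_intCast, hf]
    · funext i
      obtain ⟨z, hz⟩ := mem_lat.mp hL i
      rw [Function.comp_apply, hz, Rat.cast_intCast, hf, Int.floor_intCast]
  rw [← ac_inl, co_eq_FJ, ac_cd, acu_inl, inv_mul_cancel_right, ← ac_cd, ← e3, ac_cd,
    mul_inv_cancel_left, hμ' t ht]

theorem minu_le (D : DS (Gd G y) P wt) {μ : Ω → Matrix n n Ω} (h : Minu G μ) {m : N}
    (hm : m ∈ lat P wt) (hr : ∃ g ∈ G, ∀ t ≠ 0, μ t⁻¹ = g.val * co P y wt m t * (g⁻¹).val) (i : ι) :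
    |P.root' i m| ≤ 1 := by
  obtain ⟨-, -, h⟩ := h
  obtain ⟨g, hg, hr⟩ := hr
  obtain ⟨-, e, he, f, -, we, -, hef⟩ := D.sl2 i
  have h0 : e ≠ 0 := by
    rintro rfl
    have : DD P wt Ω (P.coroot i) = DD P wt Ω 0 := by
      rw [← hef]; simp [DD, hh_zero]
    exact P.ne_zero' i (DD_inj D.span this)
  obtain ⟨z, hz⟩ := D.root_int hm i
  have hX : ac (inl (g * y)) e ∈ lieG G := by
    rw [lieG_iff, map_mul, ac_mul]
    exact conj_lie (fun a ha => by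
      rw [acu_inl]; exact G.mul_mem (G.mul_mem hg ha) (G.inv_mem hg)) (lie_Gd.mp he)
  have hX0 : ac (inl (g * y) : SL n Ω) e ≠ 0 := fun h1 => h0 (ac_inj _ (h1.trans (map_zero _).symm))
  have key := h _ hX hX0 (-z) fun t ht => by
    have h1 := hr t⁻¹ (inv_ne_zero ht)
    rw [inv_inv, ← ac_inl, co_eq_FJ, ac_cd, cd_eq_ac] at h1
    have h2 : Matrix.diagonal (fun i => t⁻¹ ^ ⌊hh P wt m i⌋) * e =
        t ^ (-z) • (e * Matrix.diagonal fun i => t⁻¹ ^ ⌊hh P wt m i⌋) := by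
      ext a c
      rw [Matrix.smul_apply, Matrix.diagonal_mul, Matrix.mul_diagonal, smul_eq_mul]
      by_cases h3 : hh P wt m a - hh P wt m c = P.toLinearMap (P.root i) m
      · obtain ⟨u, hu⟩ := mem_lat.mp hm a
        obtain ⟨w, hw⟩ := mem_lat.mp hm c
        have h4 : u = z + w := by
          have : (u : ℚ) - w = z := by rw [← hu, ← hw, h3, ← hz]
          have : (u : ℚ) = z + w := by linarith
          exact_mod_cast this
        rw [hu, hw, Int.floor_intCast, Int.floor_intCast, h4, zpow_add₀ (inv_ne_zero ht),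
          inv_zpow' t z]
        ring
      · simp [we.hh m a c h3]
    rw [h1, ← map_mul, ← map_mul, h2, ac_smul]
    rfl
  rw [abs_neg] at key
  rw [hz]
  exact_mod_cast key

end Pool.Agent.P.MP_7d29e8_ag
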