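import Pool.Agent.P.MP_7d29e8_ag.FC
import Pool.Agent.P.MP_7d29e8_ag.FD8
import Pool.Agent.P.MP_7d29e8_ag.FE2
import Pool.Agent.P.MP_7d29e8_ag.FF5
import Pool.Agent.P.MP_7d29e8_ag.FH2
import Pool.Agent.P.MP_7d29e8_ag.FH3
import Pool.Agent.P.MP_7d29e8_ag.FI2
import Pool.Agent.P.MP_7d29e8_ag.FI3
import Pool.Agent.P.MP_7d29e8_ag.FJ

set_option autoImplicit false
set_option linter.unusedSectionVars false
set_option linter.unusedVariables false

/-! Existence of coordinates. -/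

namespace Pool.Agent.P.MP_7d29e8_ag

open Finset SemidirectProduct
open scoped Classical

variable {p : ℕ} [Fact p.Prime] {K Ω : Type} [Field K] [Field Ω]
  [Algebra (WittVector p (AlgebraicClosure (ZMod p))) K]
  [IsFractionRing (WittVector p (AlgebraicClosure (ZMod p))) K] [Algebra K Ω] [IsAlgClosure K Ω]
  {σ : K ≃+* K} {s : Ω ≃+* Ω} {n n' : Type} [Fintype n] [DecidableEq n] [Fintype n']
  [DecidableEq n'] {G : Subgroup (GL n Ω)} {G' : Subgroup (GL n' Ω)}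

lemma Frame.stab {ι M N : Type} [AddCommGroup M] [Module ℚ M] [AddCommGroup N] [Module ℚ N]
    {P : RootPairing ι ℚ M N} {b : P.Base} {y g₀ : GL n Ω} {wt : n → M} {a₀ : P.Aut}
    (hF : Frame K P G b y wt s g₀ a₀) :
    ∀ a ∈ Gam K P b y wt a₀, ∀ i ∈ b.support, a.indexEquiv i ∈ b.support := fun a ha => by
  induction ha using Subgroup.closure_induction with
  | mem a ha =>
    rcases ha with ⟨τ, h⟩ | rfl
    · exact h.1
    · exact hF.fr.2.1
  | one => exact fun i hi => hi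
  | mul a c _ _ h h' => exact fun i hi => h _ (h' i hi)
  | inv a _ h =>
    intro i hi
    obtain ⟨j, hj, rfl⟩ := surj_on_of_inj_on_of_card_le (s := b.support)
      (fun j _ => a.indexEquiv j) h (fun _ _ _ _ e => a.indexEquiv.injective e) le_rfl i hi
    rwa [idx_inv, Equiv.symm_apply_apply]

theorem exists_coord (hσ : ∀ o : WittVector p (AlgebraicClosure (ZMod p)),
      σ (algebraMap _ K o) = algebraMap _ K (WittVector.frobenius o))
    (hs : ∀ a, s (algebraMap K Ω a) = algebraMap K Ω (σ a)) (hG : IsRed σ G) (hG' : IsRed σ G')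
    (β : G) (ψ : G ≃* G') (hψ : Reg K ψ) (hψ' : Reg K ψ.symm)
    (hψs : ∀ g h : G, h.val.val = β.val.val * g.val.val.map s * (β⁻¹).val.val →
      (ψ h).val.val = (ψ g).val.val.map s)
    {μ : Ω → Matrix n n Ω} {μ' : Ω → Matrix n' n' Ω} (hμ : Minu G μ) (hμ' : Minu G' μ') :
    ∃ (ι M N : Type) (_ : AddCommGroup M) (_ : Module ℚ M) (_ : AddCommGroup N) (_ : Module ℚ N)
      (P : RootPairing ι ℚ M N), Finite ι ∧ P.IsCrystallographic ∧ P.IsReduced ∧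
      ∃ (b : P.Base) (ω : ι → M) (y : GL n Ω) (wt : n → M) (g₀ : GL n Ω) (a₀ : P.Aut)
        (y' : GL n' Ω) (wt' : n' → M) (g₀' : GL n' Ω) (a₀' : P.Aut) (ν₀ x₀ m m' : N),
        Coord (WittVector p (AlgebraicClosure (ZMod p))) p σ s G G' ψ μ μ' b ω y wt g₀ a₀ y' wt' g₀'
          a₀' ν₀ x₀ m m' := by
  have := charZero_K p K
  have := charZero_of_injective_algebraMap (algebraMap K Ω).injective
  have := IsAlgClosure.isAlgClosed K (K := Ω)
  obtain ⟨v, pw, hv, hpw, hτ, hvs, hp, hO, hZ⟩ := exists_val σ hσ s hs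
  have H : HF (FF K s) v (Stb G) := hf_FF hσ hs hv hτ hvs hp hO hZ
    (fun τ g => ⟨fun h => by
      have := hG.gal τ⁻¹ _ h
      rwa [← acu_mul, ← map_mul, show ((τ⁻¹ : Ω ≃ₐ[K] Ω) : Ω ≃+* Ω) * (τ : Ω ≃+* Ω) = 1 from
        RingEquiv.ext fun a => τ.symm_apply_apply a, map_one,
        show acu 1 g = g from Units.ext (ac_one _)] at this, hG.gal τ g⟩)
    (fun g => hG.frob hs)
  have nd : ND G := ⟨fun g => hG.closed, vanG_eq G ▸ hG.conn,
    fun X => nd_of_red (fun g => hG.closed) hG.red⟩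
  obtain ⟨y, h₀, h1, h2, h3⟩ := exists_torus H nd
  obtain ⟨ι, M, N, _, _, _, _, P, wt, ρ, _, _, _, D, hρ, hr⟩ := exists_DS (nd.gd y) (h₀ := h₀)
    (lie_Gd.mpr h1) (fun X hX hc => by
      obtain ⟨d, hd⟩ := h3 _ (lie_Gd.mp hX) (hc.map (ac (inl y)))
      exact ⟨d, ac_inj _ hd⟩)
  obtain ⟨b, hb⟩ := exists_base hr
  obtain ⟨ω, hω, hω'⟩ := exists_omega b
  have e : dd P y wt ρ = cd y fun i => (h₀ i : Ω) := by rw [← hρ]; rfl
  have fρ : ∀ τ : Ω ≃ₐ[K] Ω, (dd P y wt ρ).map τ = dd P y wt ρ := fun τ =>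
    Matrix.ext fun i j => by rw [e]; exact (h2 i j).1 τ
  obtain ⟨g₀, a₀, hF, hg⟩ := exists_fr hG hs D hb fρ
  have r₀ : Rt K g₀ := by simpa [acu_acu_inv] using rt_II.mp (Gp_mem hg).2
  choose r hr0 hr1 using fun i j => (h2 i j).2
  obtain ⟨ν₀, hν⟩ := exists_nu (hv := hv) hG hs hpw hτ hvs hF r₀ hr (r := ∏ q : n × n, r q.1 q.2)
    (prod_pos fun q _ => hr0 _ _) (Matrix.ext fun i j => by
      obtain ⟨c, hc⟩ := dvd_prod_of_mem (fun q : n × n => r q.1 q.2) (mem_univ (i, j))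
      rw [e, hc]
      exact pow_fix (hr1 i j) c)
  obtain ⟨y', wt', s', hL, hco⟩ := exists_wt' D.span hF.tor' ψ hψ.up
  obtain ⟨Rl, hR⟩ := graph_lie ψ hψ.up hψ'.up
  have D' := D.transfer hR (fun g => hG'.closed) (vanG_eq G' ▸ hG'.conn) s' hL hco
  have T := graph_td hG hs hF.tor' β ψ hψ hψ' hψs hL hco
  obtain ⟨g₀', a₀', hF', -⟩ := exists_fr hG' hs D' hb fun τ =>
    (ac_inr (τ : Ω ≃+* Ω) _).symm.trans (T.fix' (T.gal τ) ((ac_inr _ _).trans (fρ τ)))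
  obtain ⟨m, m1, m2, m3⟩ := minu_rep D b hμ
  obtain ⟨m', n1, n2, n3⟩ := minu_rep D' b hμ'
  exact ⟨ι, M, N, _, _, _, _, P, ‹_›, ‹_›, ‹_›, b, ω, y, wt, g₀, a₀, y', wt', g₀', a₀', ν₀, 0, m, m',
    hω, hω', hF, hF', by simpa using (newton_nt hs hv hpw hvs hp hO g₀ 1 ν₀).mpr hν,
    acu_acu_inv (inl y) g₀ ▸ Kap.Gp hg,
    hL, hco, ⟨m1, hL ▸ n1⟩, fun i hi => ⟨m2 i hi, n2 i hi⟩, m3, n3⟩

end Pool.Agent.P.MP_7d29e8_ag
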