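import Pool.Agent.P.MP_7d29e8_ag.HGroups
import Pool.Agent.P.MP_7d29e8_ag.FL
import Pool.Agent.P.MP_7d29e8_ag.FK7
import Pool.Agent.P.MP_7d29e8_ag.AllT

set_option autoImplicit false
set_option linter.unusedSectionVars false
set_option linter.unusedVariables false

/-! Equality of Kottwitz sets for arbitrary cocharacters. -/

namespace Pool.Agent.P.MP_7d29e8_ag.All

open scoped Classical

section mat

open Finset

variable {n : ℕ} {C : Matrix (Fin n) (Fin n) ℤ} {R : Fin n → Fin n → Prop}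

lemma oS_const (hr : ∀ k, R k k) {z z' : Fin n → ℚ} (hz : ∀ k l, R k l → z k = z l)
    (hz' : ∀ k l, R k l → z' k = z' l) : (∀ k, oS R z k = oS R z' k) ↔ z = z' := by
  refine ⟨fun h => funext fun k => ?_, fun h k => by rw [h]⟩
  have := h k
  rw [oS, oS, sum_congr rfl fun l hl => (hz k l (mem_filter.1 hl).2).symm,
    sum_congr rfl fun l hl => (hz' k l (mem_filter.1 hl).2).symm, sum_const, sum_const,
    nsmul_eq_mul, nsmul_eq_mul] at this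
  refine mul_left_cancel₀ ?_ this
  exact Nat.cast_ne_zero.2 (card_pos.2 ⟨k, mem_filter.2 ⟨mem_univ _, hr k⟩⟩).ne'

lemma oS_sub (z z' : Fin n → ℚ) (k : Fin n) : oS R (z - z') k = oS R z k - oS R z' k := by
  simp [oS]

lemma cm_sub (z z' : Fin n → ℚ) : cm C (z - z') = cm C z - cm C z' := by
  funext k
  simp [cm, mul_sub]

lemma good_iff {E : (Fin n → ℚ) → Fin n → ℚ} (hE : Good C R E) (hr : ∀ k, R k k)
    (inj : ∀ z : Fin n → ℚ, (∀ k, ∑ l, (C k l : ℚ) * z l = 0) → z = 0) {y c c' : Fin n → ℚ}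
    (hy : ∀ k l, R k l → y k = y l) (hy' : ∀ k l, R k l → cm C y k = cm C y l)
    (hc : ∀ k, IsZ (cm C c k)) (hc' : ∀ k, IsZ (cm C c' k)) :
    QQ R y c c' ↔ ∀ k, oS R (cm C y) k = E c k - E c' k := by
  obtain ⟨x, a1, a2, a3, a4⟩ := hE.2 c hc
  obtain ⟨x', b1, b2, b3, b4⟩ := hE.2 c' hc'
  simp only [QQ, ← a3, ← b3, ← a4, ← b4, ← oS_sub]
  rw [oS_const hr hy fun k l h => by simp only [Pi.sub_apply, a1 k l h, b1 k l h],
    oS_const hr hy' fun k l h => by simp only [Pi.sub_apply, a2 k l h, b2 k l h], ← cm_sub]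
  refine ⟨fun h => by rw [h], fun h => sub_eq_zero.1 (inj _ fun k => ?_)⟩
  have := congrFun (cm_sub (C := C) y (x - x')) k
  rw [h, sub_self] at this
  exact this

variable {ι M N : Type} [AddCommGroup M] [Module ℚ M] [AddCommGroup N] [Module ℚ N]
  {P : RootPairing ι ℚ M N} [Finite ι] [P.IsCrystallographic] {b : P.Base} {Γ : Subgroup P.Aut}
  {L : AddSubgroup N} {ω : ι → M} [Finite Γ] {T : Type} [Fintype T] [Nonempty T]
  {e : T × Fin n → ι}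

lemma orb_root_avg (S : Setup b Γ L ω) (i : ι) (x : N) :
    orb b Γ P.root i (avg Γ x) = orb b Γ P.root i x := by
  rw [← orbL_apply, ← orbL_apply]
  refine map_avg Γ _ x _ fun g hg => ?_
  rw [orbL_apply', orbL_apply']
  refine (sum_congr rfl fun j _ => root_act g j x).trans ?_
  refine sum_bij (fun j _ => g.indexEquiv j) (fun j hj => S.act_mem_O hg hj)
    (fun j _ k _ h => g.indexEquiv.injective h) (fun k hk => ?_) (fun _ _ => rfl)
  exact ⟨g.indexEquiv.symm k, S.act_mem_O (Γ.inv_mem hg) hk, by simp⟩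

theorem shift_iff (S : Setup b Γ L ω) (hf : Fct b Γ e C R) {E : (Fin n → ℚ) → Fin n → ℚ}
    (hE : Good C R E) (hL : ∀ y ∈ L, ∀ i, ∃ z : ℤ, P.root' i y = z) {γ γ₀ μ μ' : N}
    (hγZ : ∀ i, ∃ z : ℤ, P.root' i γ = z) (h₀ : ∀ i, orb b Γ ω i γ₀ = orb b Γ ω i γ)
    (hx : μ - μ' ∈ L) :
    (∀ q, Crit b Γ ω γ₀ (γ₀ + (μ - μ')) μ μ' (e q)) ↔
      ∀ k, ∑ l with R k l, ∑ t, P.root' (e (t, l)) (μ - μ') =
        E (fun k => ∑ t, P.toLinearMap (ω (e (t, k))) γ₀) k -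
        E (fun k => ∑ t, P.toLinearMap (ω (e (t, k))) (γ₀ + (μ - μ'))) k := by
  have F : Factor b Γ e C R := by
    refine ⟨hf.inj, hf.mem, ?_, ?_, hf.orbit⟩
    · rintro ⟨t, k⟩ ⟨t', l⟩
      split_ifs with h
      · obtain rfl : t = t' := h
        simpa using hf.car t k l
      · simpa using hf.orth t k _ (hf.mem _) fun l' he => h (congrArg Prod.fst (hf.inj he)).symm
    · rintro ⟨t, k⟩ j hj hj'
      exact hf.orth t k j hj fun l he => hj' ⟨_, he.symm⟩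
  obtain ⟨t0⟩ := ‹Nonempty T›
  let w : N → Fin n → ℚ := fun v k => ∑ t, P.toLinearMap (ω (e (t, k))) v
  have hsum : ∀ (v : N) (k : Fin n), ∑ t, P.root' (e (t, k)) v = cm C (w v) k := fun v k => by
    simp only [cm, w, mul_sum]
    rw [sum_comm]
    exact sum_congr rfl fun t _ => by rw [S.root_eq, F.sum_pairing]
  have hr : ∀ k, R k k := fun k => by
    obtain ⟨q, h1, h2⟩ := (F.hR (t0, k) _).1 ⟨1, Γ.one_mem, rfl⟩
    rwa [← F.inj (show e (t0, k) = e q from h1)] at h2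
  have h₁ : ∀ i, orb b Γ ω i (γ₀ + (μ - μ')) = orb b Γ ω i (γ + (μ - μ')) := fun i => by
    have := h₀ i
    simp only [← orbL_apply] at this ⊢
    rw [map_add, map_add, this]
  have hcong : ∀ {u v : N}, (∀ i, orb b Γ ω i u = orb b Γ ω i v) → E (w u) = E (w v) :=
    fun h => hE.1 _ _ fun k hk => by
      have a1 := h (e (t0, k))
      simpa only [F.orb_eq, oS_single hk] using a1
  have hmv : ∀ k l, R k l → ∀ t, ∃ g ∈ Γ, g.indexEquiv (e (t, k)) = e (t, l) := fun k l h t =>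
    (F.hR (t, k) _).2 ⟨(t, l), rfl, h⟩
  have key := good_iff hE hr (F.injC t0) (y := w (avg Γ (μ - μ'))) (c := w γ)
    (c' := w (γ + (μ - μ')))
    (fun k l h => sum_congr rfl fun t _ => by
      obtain ⟨g, hg, h1⟩ := hmv k l h t
      rw [← h1, ← S.w_act hg (F.mem _), act_avg Γ hg])
    (fun k l h => by
      rw [← hsum, ← hsum]
      refine sum_congr rfl fun t _ => ?_
      obtain ⟨g, hg, h1⟩ := hmv k l h t
      rw [← h1, ← root_act, act_avg Γ hg])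
    (fun k => by rw [← hsum]; exact IsZ.sum fun t _ => hγZ _)
    (fun k => by
      rw [← hsum]
      exact IsZ.sum fun t _ => by rw [map_add]; exact IsZ.add (hγZ _) (hL _ hx _))
  have h2 : ∀ p : T × Fin n, Crit b Γ ω γ₀ (γ₀ + (μ - μ')) μ μ' (e p) ↔
      oS R (w (avg Γ (μ - μ'))) p.2 = Int.fract (- oS R (w γ) p.2) -
        Int.fract (- oS R (w (γ + (μ - μ'))) p.2) := fun p => by
    rw [← F.orb_eq ω p, ← F.orb_eq ω p, ← F.orb_eq ω p, Crit, h₀, h₁]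
    simp only [← orbL_apply]
    rw [S.orb_avg, map_sub]
    constructor <;> intro h <;> linarith
  have h3 : ∀ k, ∑ l with R k l, ∑ t, P.root' (e (t, l)) (μ - μ') =
      oS R (cm C (w (avg Γ (μ - μ')))) k := fun k => by
    have a1 := orb_root_avg S (e (t0, k)) (μ - μ')
    rw [F.orb_eq, F.orb_eq] at a1
    rw [← funext (hsum (avg Γ (μ - μ')))]
    exact a1.symm
  change _ ↔ ∀ k, _ = E (w γ₀) k - E (w (γ₀ + (μ - μ'))) k
  simp only [h2, h3, hcong h₀, hcong h₁]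
  rw [← key]
  exact ⟨fun h k => h (t0, k), fun h p => h p.2⟩

end mat

theorem groups_all
    (p : ℕ) [Fact p.Prime] (K Ω : Type) [Field K] [Field Ω]
    [Algebra (WittVector p (AlgebraicClosure (ZMod p))) K]
    [IsFractionRing (WittVector p (AlgebraicClosure (ZMod p))) K] [Algebra K Ω] [IsAlgClosure K Ω]
    (σ : K ≃+* K) (hσ : ∀ o : WittVector p (AlgebraicClosure (ZMod p)),
      σ (algebraMap _ K o) = algebraMap _ K (WittVector.frobenius o))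
    (s : Ω ≃+* Ω) (hs : ∀ a, s (algebraMap K Ω a) = algebraMap K Ω (σ a))
    {ι M N : Type} [AddCommGroup M] [Module ℚ M] [AddCommGroup N] [Module ℚ N]
    (P : RootPairing ι ℚ M N) [Finite ι] [P.IsCrystallographic] [P.IsReduced] (b : P.Base)
    (ω : ι → M) (hω : ∀ i ∈ b.support, ω i ∈ Submodule.span ℚ (Set.range P.root))
    (hω' : ∀ i ∈ b.support, ∀ j ∈ b.support,
      (i = j → P.toLinearMap (ω i) (P.coroot j) = 1) ∧
      (i ≠ j → P.toLinearMap (ω i) (P.coroot j) = 0))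
    {n n' : ℕ} (G : Subgroup (GL (Fin n) Ω)) (G' : Subgroup (GL (Fin n') Ω))
    (hG : IsRed σ G) (_hG' : IsRed σ G')
    (y : GL (Fin n) Ω) (wt : Fin n → M) (g₀ : GL (Fin n) Ω) (a₀ : P.Aut)
    (hF : Frame K P G b y wt s g₀ a₀)
    (y' : GL (Fin n') Ω) (wt' : Fin n' → M) (g₀' : GL (Fin n') Ω) (a₀' : P.Aut)
    (hF' : Frame K P G' b y' wt' s g₀' a₀')
    (ν₀ x₀ : N)
    (hν₀ : Newton (WittVector p (AlgebraicClosure (ZMod p))) p σ g₀.val (dd P y wt ν₀))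
    (hx₀ : Kap (WittVector p (AlgebraicClosure (ZMod p))) K P p G y wt g₀ x₀)
    (β : G) (νβ : N)
    (hβ : Newton (WittVector p (AlgebraicClosure (ZMod p))) p σ β.val.val (dd P y wt νβ))
    (hβ' : ∀ i, P.root' i νβ = 0)
    (ψ : G ≃* G') (hψ : Reg K ψ) (hψ' : Reg K ψ.symm)
    (hψs : ∀ g h : G, h.val.val = β.val.val * g.val.val.map s * (β⁻¹).val.val →
      (ψ h).val.val = (ψ g).val.val.map s)
    (hL : lat P wt' = lat P wt)
    (hco : ∀ x ∈ lat P wt, ∀ t ≠ 0, ∀ g : G, g.val.val = co P y wt x t →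
      (ψ g).val.val = co P y' wt' x t)
    (μ μ' : N) (hμL : μ ∈ lat P wt) (hμL' : μ' ∈ lat P wt)
    (hμ : ∀ i ∈ b.support, 0 ≤ P.root' i μ) (hμ' : ∀ i ∈ b.support, 0 ≤ P.root' i μ') :
    ((fun g => ψ (g * β⁻¹)) ''
        Kot (WittVector p (AlgebraicClosure (ZMod p))) P p σ G b y wt (Gam K P b y wt a₀) μ =
        Kot (WittVector p (AlgebraicClosure (ZMod p))) P p σ G' b y' wt'
          (Gam K P b y' wt' a₀') μ' ↔
      (∃ z, Kap (WittVector p (AlgebraicClosure (ZMod p))) K P p G y wt β.val z ∧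
          z - (μ - μ') ∈ rel (Gam K P b y wt a₀) (lat P wt)) ∧
        ∀ i ∈ b.support, Crit b (Gam K P b y wt a₀) ω (ν₀ - x₀) (ν₀ - x₀ + (μ - μ')) μ μ' i) ∧
    ∀ (T : Type) [Fintype T] [Nonempty T] (m : ℕ) (e : T × Fin m → ι)
      (C : Matrix (Fin m) (Fin m) ℤ) (R : Fin m → Fin m → Prop) (E : (Fin m → ℚ) → Fin m → ℚ),
      Fct b (Gam K P b y wt a₀) e C R → Good C R E →
      ((∀ q, Crit b (Gam K P b y wt a₀) ω (ν₀ - x₀) (ν₀ - x₀ + (μ - μ')) μ μ' (e q)) ↔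
        ∀ k, ∑ l with R k l, ∑ t, P.root' (e (t, l)) (μ - μ') =
          E (fun k => ∑ t, P.toLinearMap (ω (e (t, k))) (ν₀ - x₀)) k -
          E (fun k => ∑ t, P.toLinearMap (ω (e (t, k))) (ν₀ - x₀ + (μ - μ'))) k) := by
  have := charZero_K p K
  have := charZero_of_injective_algebraMap (algebraMap K Ω).injective
  have := IsAlgClosure.isAlgClosed K (K := Ω)
  obtain ⟨v, pw, hv, hpw, hτ, hvs, hp, hO, hZ⟩ := exists_val σ hσ s hs
  have nn := newton_nt (P := P) (y := y) (wt := wt) hs hv hpw hvs hp hO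
  have nn' := newton_nt (P := P) (y := y') (wt := wt') hs hv hpw hvs hp hO
  have H₀ := (nn g₀ 1 ν₀).mp (by simpa using hν₀)
  have Hβ := (nn β 1 νβ).mp (by simpa using hβ)
  have A := hF.as hG hs hω hω' (rt_iff.mp H₀.rt) hτ hvs hZ
  have := A.finite
  have T := graph_td hG hs hF.tor' β ψ hψ hψ' hψs hL hco
  obtain ⟨γ, h1, h2, h3⟩ := A.gamma' hpw hvs hp hO H₀ hx₀
  have h₀ : ∀ i, orb b (Gam K P b y wt a₀) ω i (ν₀ - x₀) = orb b (Gam K P b y wt a₀) ω i γ := fun i => by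
    simp only [← orbL_apply]
    rw [← A.su.orb_avg i γ, h3, map_sub, map_sub, A.su.orb_avg]
  refine ⟨?_, fun T _ _ m e C R E hf hE =>
    shift_iff A.su hf hE (fun x hx => A.ds.root_int hx) h2 h₀ (sub_mem hμL hμL')⟩
  rw [A.gam_eq β.2 T hF.fr.1 hF'.fr.1 hF'.fr.2]
  have tw := fun (g k : G) (ν : N) => Nt.twist hpw hF.tor' (fun g hg => (hG.frob hs).mpr hg) β.2 Hβ
    (A.central hβ') g.2 k.2 (ν := ν)
  have hR : ∀ g : G, ∃ h : G, g.val * β.val⁻¹ = h.val ∧ (ψ (g * β⁻¹)).val = (ψ h).val :=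
    fun g => ⟨g * β⁻¹, rfl, rfl⟩
  rw [← A.su.groups
    (D := fun (g : G) ν z => (∃ k : G, Nt K hv pw P y wt (SemidirectProduct.inr s) g k ν) ∧
      (∀ i ∈ b.support, 0 ≤ P.root' i ν) ∧
      Kap (WittVector p (AlgebraicClosure (ZMod p))) K P p G y wt g z)
    (D' := fun (g : G) ν z => (∃ k : G', Nt K hv pw P y' wt' (SemidirectProduct.inr s)
      (ψ (g * β⁻¹)) k ν) ∧ (∀ i ∈ b.support, 0 ≤ P.root' i ν) ∧
      Kap (WittVector p (AlgebraicClosure (ZMod p))) K P p G' y' wt' (ψ (g * β⁻¹)) z)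
    h1 h₀ hμL hμL' hμ hμ' (fun i _ => hβ' i)
    (fun g ν z ⟨⟨k, a1⟩, a2, a3⟩ => A.mem_BG hpw hvs hp hO H₀ hx₀ h3 k.2 a1 a2 a3)
    (fun ν κ h => let ⟨g, a1, z, a2, a3, a4⟩ := A.of_BG hpw hvs hp hO H₀ hx₀ exists_transversal hF.fr.1 h3 h
      ⟨⟨g, a1⟩, z, ⟨⟨1, a2⟩, h.1, a3⟩, a4⟩)
    (fun g ν z ν' z' ⟨⟨k, a1⟩, a2, _⟩ ⟨⟨k', b1⟩, b2, _⟩ => A.uniq hpw hvs k.2 k'.2 a1 b1 a2 b2)
    (fun x hx g ν z ⟨⟨k, a1⟩, a2, a3⟩ => ⟨⟨ψ k, T.nt hpw (hR g) ⟨k, rfl, rfl⟩ ((tw g k ν).mp a1)⟩,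
      fun i hi => by rw [map_sub, hβ', sub_zero]; exact a2 i hi,
      T.kap' (hR g) (sub_eq_add_neg z x ▸ Kap.mul _ _ _ _ a3 hx.inv)⟩)
    (fun x hx g ν z ⟨⟨k, a1⟩, a2, a3⟩ => ⟨⟨ψ.symm k, (tw g _ _).mpr (by
        rw [add_sub_cancel_right]
        exact T.symm.nt hpw (hR g) ⟨ψ.symm k, rfl, by simp⟩ a1)⟩,
      fun i hi => by rw [map_add, hβ', add_zero]; exact a2 i hi, by
        simpa using Kap.mul _ _ _ _ (T.symm.kap' (hR g) a3) hx⟩)
    (fun g ν z ν' z' ⟨_, _, a3⟩ ⟨_, _, b3⟩ => by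
      simpa [neg_add_eq_sub] using Kap.mul _ _ _ _ (T.symm.kap' (hR g) b3).inv a3)
    (fun x hx => ⟨(A.dec hv hp hO hx).1, A.mem_BG hpw hvs hp hO H₀ hx₀ h3 (one_mem _) Hβ
      (fun i _ => (hβ' i).ge) hx⟩)]
  refine (((Equiv.mulRight β⁻¹).trans ψ.toEquiv).eq_preimage_iff_image_eq _ _).symm.trans
    (Set.ext_iff.trans (forall_congr' fun g => iff_congr ?_ ?_))
  · exact ⟨fun ⟨k, ν, z, c, a1, a2, a3, a4, a5, a6⟩ =>
      ⟨ν, z, ⟨⟨k, (nn _ _ _).mp a1⟩, a2, a5⟩, ⟨c, a3, a4⟩, a6⟩,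
      fun ⟨ν, z, ⟨⟨k, a1⟩, a2, a5⟩, ⟨c, a3, a4⟩, a6⟩ =>
      ⟨k, ν, z, c, (nn _ _ _).mpr a1, a2, a3, a4, a5, a6⟩⟩
  · rw [← hL]
    exact ⟨fun ⟨k, ν, z, c, a1, a2, a3, a4, a5, a6⟩ =>
      ⟨ν, z, ⟨⟨k, (nn' _ _ _).mp a1⟩, a2, a5⟩, ⟨c, a3, a4⟩, a6⟩,
      fun ⟨ν, z, ⟨⟨k, a1⟩, a2, a5⟩, ⟨c, a3, a4⟩, a6⟩ =>
      ⟨k, ν, z, c, (nn' _ _ _).mpr a1, a2, a3, a4, a5, a6⟩⟩

section coch

open Finset SemidirectProduct

variable {p : ℕ} [Fact p.Prime] {O K Ω : Type} [CommRing O] [Field K] [Field Ω] [Algebra O K]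
  [Algebra K Ω] [IsAlgClosure K Ω] [CharZero K] [CharZero Ω] {σ : K ≃+* K}
  {n n' : Type} [Fintype n] [DecidableEq n] [Fintype n'] [DecidableEq n']
  {ι M N : Type} [AddCommGroup M] [Module ℚ M] [AddCommGroup N] [Module ℚ N]
  {P : RootPairing ι ℚ M N} {wt : n → M} {wt' : n' → M} {G : Subgroup (GL n Ω)}
  {G' : Subgroup (GL n' Ω)} {y g₀ : GL n Ω} {y' : GL n' Ω} {s : Ω ≃+* Ω}
  {v : Ω → ℚ} {hv : Val v} {pw : ℚ → Ωˣ} {b : P.Base} {a₀ : P.Aut} {ρ : N}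
  [Finite ι] [P.IsCrystallographic] [P.IsReduced]

theorem coch_rep (D : DS (Gd G y) P wt) (b : P.Base) {μ : Ω → Matrix n n Ω} (h : Coch G μ) :
    ∃ m ∈ lat P wt, (∀ i ∈ b.support, 0 ≤ P.root' i m) ∧
      ∃ g ∈ G, ∀ t ≠ 0, μ t⁻¹ = g.val * co P y wt m t * (g⁻¹).val := by
  obtain ⟨⟨k, h, hμ⟩, hG⟩ := h
  have hμ' : ∀ t : Ω, t ≠ 0 → μ t⁻¹ = cd k fun i => t ^ (-h i) := fun t ht => by
    rw [hμ _ (inv_ne_zero ht)]
    simp only [cd, inv_zpow', zpow_neg]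
  have h1 : cd (y⁻¹ * k) (fun i => ((-h i : ℤ) : Ω)) ∈ lie (GS (Gd G y)) Ω := by
    refine cochar_lie (h := fun i => -h i) fun t ht => Cl.self ?_
    obtain ⟨g, hg, e⟩ := hG _ (inv_ne_zero ht)
    exact ⟨_, mem_Gd'.mpr hg, by rw [acu_val, e, hμ' t ht, ac_inv_cd_FJ]⟩
  have h2 : cd (y⁻¹ * k) (fun i => (((-h i : ℤ) : ℚ) : Ω)) ∈ lie (GS (Gd G y)) Ω := by
    simpa only [Rat.cast_intCast] using h1
  obtain ⟨g, hg, x, hx, e⟩ := D.conj b h2
  have e' : cd (y⁻¹ * k) (fun i => (((-h i : ℤ) : ℚ) : Ω)) = cd g fun i => (hh P wt x i : Ω) := e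
  have hL : x ∈ lat P wt := mem_lat.mpr fun i => by
    obtain ⟨j, hj⟩ := cd_range e'.symm i
    exact ⟨_, Rat.cast_injective hj⟩
  refine ⟨x, hL, hx, _, mem_Gd.mp hg, fun t ht => ?_⟩
  have hf : ∀ z : ℤ, Function.extend (Int.cast : ℤ → Ω) (fun z => t ^ z) 0 (z : Ω) = t ^ z :=
    fun z => Int.cast_injective.extend_apply _ _ _
  have e2 := cd_fun e' (Function.extend (Int.cast : ℤ → Ω) (fun z => t ^ z) 0)
  have e3 : cd (y⁻¹ * k) (fun i => t ^ (-h i)) = cd g fun i => t ^ ⌊hh P wt x i⌋ := by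
    convert e2 using 2
    · funext i
      rw [Function.comp_apply, Rat.cast_intCast, hf]
    · funext i
      obtain ⟨z, hz⟩ := mem_lat.mp hL i
      rw [Function.comp_apply, hz, Rat.cast_intCast, hf, Int.floor_intCast]
  rw [← ac_inl, co_eq_FJ, ac_cd, acu_inl, inv_mul_cancel_right, ← ac_cd, ← e3, ac_cd,
    mul_inv_cancel_left, hμ' t ht]

end coch

theorem minu_one {Ω n : Type} [Field Ω] [CharZero Ω] [Fintype n] [DecidableEq n]
    (G : Subgroup (GL n Ω)) : Minu G fun _ => 1 := by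
  refine ⟨⟨1, 0, fun t _ => by simp⟩, fun t _ => ⟨1, G.one_mem, rfl⟩, fun X _ hX j h => ?_⟩
  have h1 := h 2 two_ne_zero
  rw [one_mul, mul_one] at h1
  have h2 : ((2 : Ω) ^ j - 1) • X = 0 := by rw [sub_smul, one_smul, ← h1, sub_self]
  have h3 : ((2 : ℚ) ^ j : ℚ) = 1 := by
    have := sub_eq_zero.1 ((smul_eq_zero.1 h2).resolve_right hX)
    exact Rat.cast_injective (α := Ω) (by push_cast; exact this)
  rw [(zpow_eq_one_iff_right₀ (by norm_num) (by norm_num)).1 h3]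
  simp

end Pool.Agent.P.MP_7d29e8_ag.All
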