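import Pool.Agent.P.MP_7d29e8_ag.Core

set_option autoImplicit false

namespace Pool.Agent.P.MP_7d29e8_ag

open scoped Classical
open Finset

variable {ι M N : Type*} [AddCommGroup M] [Module ℚ M] [AddCommGroup N] [Module ℚ N]
  {P : RootPairing ι ℚ M N}

/-- the orbit of a simple root -/
noncomputable def O (b : P.Base) (Γ : Subgroup P.Aut) (i : ι) : Finset ι :=
  b.support.filter (fun j => ∃ g ∈ Γ, g.indexEquiv i = j)

/-- `orb` as a linear map -/
noncomputable def orbL (b : P.Base) (Γ : Subgroup P.Aut) (ω : ι → M) (i : ι) : N →ₗ[ℚ] ℚ :=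
  ∑ j ∈ O b Γ i, P.toLinearMap (ω j)

lemma orbL_apply (b : P.Base) (Γ : Subgroup P.Aut) (ω : ι → M) (i : ι) (x : N) :
    orbL b Γ ω i x = orb b Γ ω i x := by
  simp [orbL, orb, O, LinearMap.sum_apply]

lemma orbL_apply' (b : P.Base) (Γ : Subgroup P.Aut) (ω : ι → M) (i : ι) (x : N) :
    orbL b Γ ω i x = ∑ j ∈ O b Γ i, P.toLinearMap (ω j) x := by
  simp [orbL, LinearMap.sum_apply]

lemma O_sub (b : P.Base) (Γ : Subgroup P.Aut) (i : ι) : O b Γ i ⊆ b.support := filter_subset _ _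

lemma mem_O_self {b : P.Base} {Γ : Subgroup P.Aut} {i : ι} (hi : i ∈ b.support) : i ∈ O b Γ i :=
  mem_filter.mpr ⟨hi, 1, Γ.one_mem, rfl⟩

lemma O_eq {b : P.Base} {Γ : Subgroup P.Aut} {i j : ι} (hj : j ∈ O b Γ i) : O b Γ j = O b Γ i := by
  obtain ⟨_, g, hg, rfl⟩ := mem_filter.mp hj
  ext k
  simp only [O, mem_filter]
  refine and_congr_right fun _ => ⟨?_, ?_⟩
  · rintro ⟨h, hh, rfl⟩
    exact ⟨h * g, Γ.mul_mem hh hg, rfl⟩
  · rintro ⟨h, hh, rfl⟩
    refine ⟨h * g⁻¹, Γ.mul_mem hh (Γ.inv_mem hg), ?_⟩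
    rw [idx_mul, idx_inv, Equiv.symm_apply_apply]

lemma act_span (g : P.Aut) {x : N} (hx : x ∈ Submodule.span ℚ (Set.range P.coroot)) :
    g.coweightMap x ∈ Submodule.span ℚ (Set.range P.coroot) := by
  induction hx using Submodule.span_induction with
  | mem x hx =>
    obtain ⟨i, rfl⟩ := hx
    rw [coroot_act]
    exact Submodule.subset_span ⟨_, rfl⟩
  | zero => simp
  | add x y _ _ hx hy => rw [map_add]; exact Submodule.add_mem _ hx hy
  | smul a x _ hx => rw [map_smul]; exact Submodule.smul_mem _ _ hx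

lemma avg_span {Γ : Subgroup P.Aut} [Finite Γ] {x : N}
    (hx : x ∈ Submodule.span ℚ (Set.range P.coroot)) :
    avg Γ x ∈ Submodule.span ℚ (Set.range P.coroot) :=
  avg_mem Γ _ x fun g _ => act_span g hx

lemma avg_rel {Γ : Subgroup P.Aut} [Finite Γ] {L : AddSubgroup N} {x : N} (hx : x ∈ rel Γ L) :
    avg Γ x ∈ Submodule.span ℚ (Set.range P.coroot) := by
  induction hx using AddSubgroup.closure_induction with
  | mem x hx =>
    rcases hx with ⟨i, rfl⟩ | ⟨g, hg, y, _, rfl⟩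
    · exact avg_span (Submodule.subset_span ⟨i, rfl⟩)
    · rw [avg_sub, avg_act Γ hg, sub_self]; exact Submodule.zero_mem _
  | zero => rw [← avgL_apply, map_zero]; exact Submodule.zero_mem _
  | add x y _ _ hx hy => rw [avg_add]; exact Submodule.add_mem _ hx hy
  | neg x _ hx => rw [← avgL_apply, map_neg, avgL_apply]; exact Submodule.neg_mem _ hx

lemma span_mono_range (s : Set ι) :
    Submodule.span ℚ (P.coroot '' s) ≤ Submodule.span ℚ (Set.range P.coroot) :=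
  Submodule.span_mono (Set.image_subset_range _ _)

variable [Finite ι] [P.IsCrystallographic] {b : P.Base} {Γ : Subgroup P.Aut} {L : AddSubgroup N}
  {ω : ι → M} (S : Setup b Γ L ω)
include S

lemma Setup.act_mem_O {g : P.Aut} (hg : g ∈ Γ) {i j : ι} (hj : j ∈ O b Γ i) :
    g.indexEquiv j ∈ O b Γ i := by
  obtain ⟨hjs, h, hh, rfl⟩ := mem_filter.mp hj
  exact mem_filter.mpr ⟨S.stab g hg _ hjs, g * h, Γ.mul_mem hg hh, rfl⟩

lemma Setup.orb_act {g : P.Aut} (hg : g ∈ Γ) (i : ι) (x : N) :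
    orbL b Γ ω i (g.coweightMap x) = orbL b Γ ω i x := by
  rw [orbL_apply', orbL_apply', sum_congr rfl (fun j hj => S.w_act hg (O_sub b Γ i hj) x)]
  refine sum_bij (fun j _ => g.indexEquiv j) (fun j hj => S.act_mem_O hg hj)
    (fun j _ k _ h => g.indexEquiv.injective h) (fun k hk => ?_) (fun _ _ => rfl)
  exact ⟨g.indexEquiv.symm k, S.act_mem_O (Γ.inv_mem hg) hk, by simp⟩

lemma Setup.orb_avg [Finite Γ] (i : ι) (x : N) : orbL b Γ ω i (avg Γ x) = orbL b Γ ω i x :=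
  map_avg Γ _ x _ fun _ hg => S.orb_act hg i x

lemma Setup.orb_coroot (i : ι) {j : ι} (hj : j ∈ b.support) :
    orbL b Γ ω i (P.coroot j) = if j ∈ O b Γ i then 1 else 0 := by
  rw [orbL_apply', sum_congr rfl (fun k hk => S.wdual k (O_sub b Γ i hk) j hj)]
  simp

lemma Setup.orb_central (i : ι) {z : N} (hz : ∀ j ∈ b.support, P.root' j z = 0) :
    orbL b Γ ω i z = 0 := by
  rw [orbL_apply']
  exact sum_eq_zero fun j hj => central_all b hz (S.wmem j (O_sub b Γ i hj))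

lemma Setup.orb_coroot_int (i j : ι) : ∃ n : ℤ, orbL b Γ ω i (P.coroot j) = n := by
  have h := b.coroot_mem_span_int j
  generalize P.coroot j = x at h
  induction h using Submodule.span_induction with
  | mem x hx =>
    obtain ⟨k, hk, rfl⟩ := hx
    rw [S.orb_coroot i hk]
    split_ifs
    · exact ⟨1, by simp⟩
    · exact ⟨0, by simp⟩
  | zero => exact ⟨0, by simp⟩
  | add x y _ _ hx hy =>
    obtain ⟨m, hm⟩ := hx
    obtain ⟨n, hn⟩ := hy
    exact ⟨m + n, by rw [map_add, hm, hn]; simp⟩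
  | smul a x _ hx =>
    obtain ⟨m, hm⟩ := hx
    exact ⟨a * m, by rw [map_zsmul, hm]; simp⟩

lemma Setup.orb_rel (i : ι) {x : N} (hx : x ∈ rel Γ L) : ∃ n : ℤ, orbL b Γ ω i x = n := by
  induction hx using AddSubgroup.closure_induction with
  | mem x hx =>
    rcases hx with ⟨j, rfl⟩ | ⟨g, hg, y, _, rfl⟩
    · exact S.orb_coroot_int i j
    · exact ⟨0, by rw [map_sub, S.orb_act hg]; simp⟩
  | zero => exact ⟨0, by simp⟩
  | add x y _ _ hx hy =>
    obtain ⟨m, hm⟩ := hx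
    obtain ⟨n, hn⟩ := hy
    exact ⟨m + n, by rw [map_add, hm, hn]; simp⟩
  | neg x _ hx =>
    obtain ⟨m, hm⟩ := hx
    exact ⟨-m, by rw [map_neg, hm]; simp⟩

lemma Setup.orb_inv {i : ι} (hi : i ∈ b.support) {v : N} (hv : ∀ g ∈ Γ, g.coweightMap v = v) :
    orbL b Γ ω i v = (O b Γ i).card * P.toLinearMap (ω i) v := by
  rw [orbL_apply', sum_congr rfl (g := fun _ => P.toLinearMap (ω i) v)]
  · simp
  · intro j hj
    obtain ⟨_, g, hg, rfl⟩ := mem_filter.mp hj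
    rw [← S.w_act hg hi, hv g hg]

lemma Setup.w_nonneg_of_orb {i : ι} (hi : i ∈ b.support) {v : N}
    (hv : ∀ g ∈ Γ, g.coweightMap v = v) (h : 0 ≤ orbL b Γ ω i v) :
    0 ≤ P.toLinearMap (ω i) v := by
  rw [S.orb_inv hi hv] at h
  have : (0 : ℚ) < (O b Γ i).card := by
    exact_mod_cast card_pos.mpr ⟨i, mem_O_self hi⟩
  exact nonneg_of_mul_nonneg_right h this |> fun h' => by
    by_contra hc
    push Not at hc
    nlinarith

lemma Setup.orb_sum_nonneg (i : ι) {c : ι → ℚ} (hc : ∀ j, 0 ≤ c j) :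
    0 ≤ orbL b Γ ω i (∑ j ∈ b.support, c j • P.coroot j) := by
  rw [orbL_apply']
  exact sum_nonneg fun j hj => by rw [S.w_sum c (O_sub b Γ i hj)]; exact hc j

lemma Setup.orb_nonneg (i : ι) {x : N} (hx : ∀ j ∈ b.support, 0 ≤ P.root' j x) :
    0 ≤ orbL b Γ ω i x := by
  rw [orbL_apply']
  exact sum_nonneg fun j hj => S.w_nonneg hx j (O_sub b Γ i hj)

lemma Setup.orb_span {i : ι} {s : Set ι} (hs : s ⊆ b.support) (hd : ∀ j ∈ s, j ∉ O b Γ i)
    {x : N} (hx : x ∈ Submodule.span ℚ (P.coroot '' s)) : orbL b Γ ω i x = 0 := by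
  induction hx using Submodule.span_induction with
  | mem x hx =>
    obtain ⟨j, hj, rfl⟩ := hx
    rw [S.orb_coroot i (hs hj), if_neg (hd j hj)]
  | zero => simp
  | add x y _ _ hx hy => rw [map_add, hx, hy, add_zero]
  | smul a x _ hx => rw [map_smul, hx, smul_zero]

lemma Setup.avg_dom [Finite Γ] {x : N} (hx : ∀ j ∈ b.support, 0 ≤ P.root' j x) :
    ∀ j ∈ b.support, 0 ≤ P.root' j (avg Γ x) := fun j hj =>
  map_avg_nonneg Γ _ x fun g hg => by rw [root_act]; exact hx _ (S.stab g hg j hj)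

lemma Setup.avg_central [Finite Γ] {x : N} (hx : ∀ j ∈ b.support, P.root' j x = 0) :
    ∀ j ∈ b.support, P.root' j (avg Γ x) = 0 := fun j hj =>
  map_avg Γ _ x _ fun g hg => by rw [root_act]; exact hx _ (S.stab g hg j hj)

/-- criterion for being below in the dominance order -/
lemma Setup.le_of {v : N} (hv : v ∈ Submodule.span ℚ (Set.range P.coroot))
    (hinv : ∀ g ∈ Γ, g.coweightMap v = v)
    (h : ∀ i ∈ b.support, 0 ≤ orbL b Γ ω i v ∨ 0 ≤ P.root' i v) :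
    ∃ c : ι → ℚ, (∀ i, 0 ≤ c i) ∧ v = ∑ i ∈ b.support, c i • P.coroot i := by
  have h1 := coeff_nonneg b (fun j => P.toLinearMap (ω j) v) (fun i hi => by
    rw [S.root_proj]
    exact (h i hi).imp (S.w_nonneg_of_orb hi hinv) id)
  refine ⟨fun j => if j ∈ b.support then P.toLinearMap (ω j) v else 0, fun j => ?_, ?_⟩
  · by_cases hj : j ∈ b.support
    · simpa [hj] using h1 j hj
    · simp [hj]
  · refine (S.expand hv).trans (sum_congr rfl fun j hj => ?_)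
    simp [hj]

/-- the largest admissible height below `μ` -/
noncomputable def yy (b : P.Base) (Γ : Subgroup P.Aut) (ω : ι → M) (γ μ : N) (i : ι) : ℚ :=
  orbL b Γ ω i μ - Int.fract (- orbL b Γ ω i γ)

omit S [Finite ι] [P.IsCrystallographic] in
lemma yy_eq (γ μ : N) (i : ι) :
    yy b Γ ω γ μ i = orbL b Γ ω i μ + orbL b Γ ω i γ + (⌊- orbL b Γ ω i γ⌋ : ℤ) := by
  rw [yy, Int.fract]; ring

lemma Setup.transfer [Finite Γ] {γ γ' μ μ' x νb : N}
    (hγ' : γ' ∈ Submodule.span ℚ (Set.range P.coroot))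
    (hμ' : ∀ i ∈ b.support, 0 ≤ P.root' i μ') (hx : x ∈ L)
    (hc : ∀ i ∈ b.support, P.root' i νb = 0) (hinv : ∀ g ∈ Γ, g.coweightMap νb = νb)
    (hz : avg Γ (γ' - γ - x) = - νb)
    (hκ : (x : N ⧸ rel Γ L) = (μ : N ⧸ rel Γ L) - (μ' : N ⧸ rel Γ L))
    (hy : ∀ i ∈ b.support, yy b Γ ω γ μ i = yy b Γ ω γ' μ' i)
    {p : N × (N ⧸ rel Γ L)} (hp : p ∈ BGmu b Γ L γ μ) :
    p - (νb, (x : N ⧸ rel Γ L)) ∈ BGmu b Γ L γ' μ' := by
  obtain ⟨ν, κ⟩ := p
  obtain ⟨⟨hdom, hνinv, x0, hx0, hκ0, hspan⟩, hκμ, c, hc0, hle⟩ := hp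
  simp only at hdom hνinv hκ0 hspan hκμ hle
  have hroot : ∀ i ∈ b.support, P.root' i (ν - νb) = P.root' i ν := fun i hi => by
    rw [map_sub, hc i hi, sub_zero]
  have hJ : {i | i ∈ b.support ∧ P.root' i (ν - νb) = 0} = {i | i ∈ b.support ∧ P.root' i ν = 0} := by
    ext i
    exact and_congr_right fun hi => by rw [hroot i hi]
  have heq : avg Γ (x0 - x + γ') - (ν - νb) = avg Γ (x0 + γ) - ν := by
    have : x0 - x + γ' = (x0 + γ) + (γ' - γ - x) := by abel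
    rw [this, avg_add, hz]; abel
  have hinv' : ∀ g ∈ Γ, g.coweightMap (ν - νb) = ν - νb := fun g hg => by
    rw [map_sub, hνinv g hg, hinv g hg]
  have hκ' : κ - (x : N ⧸ rel Γ L) = (μ' : N ⧸ rel Γ L) := by rw [hκμ, hκ]; abel
  refine ⟨⟨fun i hi => by rw [Prod.fst_sub, hroot i hi]; exact hdom i hi, hinv', x0 - x,
    L.sub_mem hx0 hx, by simp [hκ0], ?_⟩, hκ', ?_⟩
  · simp only [Prod.fst_sub]
    rw [hJ, heq]; exact hspan
  · simp only [Prod.fst_sub]
    have hrel : μ' - (x0 - x) ∈ rel Γ L := by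
      rw [← QuotientAddGroup.eq_iff_sub_mem]
      simp [hκ0, hκ']
    have hrel0 : x0 - μ ∈ rel Γ L := by
      rw [← QuotientAddGroup.eq_iff_sub_mem, hκ0, hκμ]
    refine S.le_of ?_ (fun g hg => by rw [map_sub, act_avg Γ hg, hinv' g hg]) fun i hi => ?_
    · have : avg Γ μ' - (ν - νb) =
          avg Γ (μ' - (x0 - x)) + (avg Γ (x0 - x + γ') - (ν - νb)) - avg Γ γ' := by
        rw [avg_add, avg_sub Γ μ']; abel
      rw [this, heq]
      exact Submodule.sub_mem _ (Submodule.add_mem _ (avg_rel hrel) (span_mono_range _ hspan))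
        (avg_span hγ')
    · by_cases h0 : P.root' i ν = 0
      · right
        rw [map_sub, hroot i hi, h0, sub_zero]
        exact S.avg_dom hμ' i hi
      · left
        have h1 : orbL b Γ ω i (avg Γ (x0 + γ) - ν) = 0 := by
          refine S.orb_span (fun j hj => hj.1) (fun j hj hjO => h0 ?_) hspan
          obtain ⟨_, g, hg, rfl⟩ := mem_filter.mp hjO
          have := hj.2
          rwa [← root_act, hνinv g hg] at this
        obtain ⟨n, hn⟩ := S.orb_rel i hrel0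
        have h2 := S.orb_sum_nonneg i hc0
        rw [← hle] at h2
        rw [map_sub, S.orb_avg, map_add] at h1
        rw [map_sub, S.orb_avg] at h2
        rw [map_sub] at hn
        have h3 : n ≤ ⌊- orbL b Γ ω i γ⌋ := Int.le_floor.mpr (by linarith)
        have h4 : (n : ℚ) ≤ (⌊- orbL b Γ ω i γ⌋ : ℤ) := by exact_mod_cast h3
        have h5 := hy i hi
        rw [yy_eq, yy] at h5
        have h6 := Int.fract_nonneg (- orbL b Γ ω i γ')
        rw [map_sub, map_sub, S.orb_avg, S.orb_central i hc]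
        linarith

/-- the element of `B(G)` that is basic in the Levi subgroup of type `J` -/
lemma Setup.exists_pt [Finite Γ] (J : Finset ι) (hJ : J ⊆ b.support)
    (hJΓ : ∀ g ∈ Γ, ∀ i ∈ J, g.indexEquiv i ∈ J) (v : N) :
    ∃ ν : N, (∀ g ∈ Γ, g.coweightMap ν = ν) ∧ (∀ i ∈ J, P.root' i ν = 0) ∧
      avg Γ v - ν ∈ Submodule.span ℚ (P.coroot '' (J : Set ι)) := by
  obtain ⟨d, hd⟩ := exists_proj b J hJ (avg Γ v)
  have hmem : ∑ j ∈ J, d j • P.coroot j ∈ Submodule.span ℚ (P.coroot '' (J : Set ι)) :=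
    Submodule.sum_mem _ fun j hj => Submodule.smul_mem _ _ (Submodule.subset_span ⟨j, hj, rfl⟩)
  refine ⟨_, fun g hg => ?_, hd, by simpa using hmem⟩
  rw [← sub_eq_zero]
  refine eq_zero_of_J b J hJ ?_ fun i hi => ?_
  · have : g.coweightMap (avg Γ v - ∑ j ∈ J, d j • P.coroot j) -
        (avg Γ v - ∑ j ∈ J, d j • P.coroot j) =
        ∑ j ∈ J, d j • P.coroot j - ∑ j ∈ J, d j • P.coroot (g.indexEquiv.symm j) := by
      rw [map_sub, act_avg Γ hg, map_sum]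
      simp only [map_smul, coroot_act]
      abel
    rw [this]
    exact Submodule.sub_mem _ hmem (Submodule.sum_mem _ fun j hj => Submodule.smul_mem _ _
      (Submodule.subset_span ⟨_, hJΓ g⁻¹ (Γ.inv_mem hg) j hj, rfl⟩))
  · rw [map_sub, root_act, hd i hi, hd _ (hJΓ g hg i hi), sub_zero]

lemma Setup.basic_mem [Finite Γ] {γ μ : N} (hγ : γ ∈ Submodule.span ℚ (Set.range P.coroot))
    (hμL : μ ∈ L) (hμ : ∀ i ∈ b.support, 0 ≤ P.root' i μ) :
    ∃ ν, (ν, (μ : N ⧸ rel Γ L)) ∈ BGmu b Γ L γ μ := by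
  obtain ⟨ν, h1, h2, h3⟩ := S.exists_pt b.support subset_rfl S.stab (μ + γ)
  refine ⟨ν, ⟨fun i hi => (h2 i hi).ge, h1, μ, hμL, rfl, Submodule.span_mono
    (Set.image_mono fun i hi => And.intro hi (h2 i hi)) h3⟩, rfl, ?_⟩
  refine S.le_of ?_ (fun g hg => by rw [map_sub, act_avg Γ hg, h1 g hg]) fun i hi => ?_
  · have : avg Γ μ - ν = (avg Γ (μ + γ) - ν) - avg Γ γ := by rw [avg_add]; abel
    rw [this]
    exact Submodule.sub_mem _ (span_mono_range _ h3) (avg_span hγ)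
  · right
    rw [map_sub, h2 i hi, sub_zero]
    exact S.avg_dom hμ i hi

lemma Setup.break_mem [Finite Γ] {γ μ : N} (hγ : γ ∈ Submodule.span ℚ (Set.range P.coroot))
    (hμL : μ ∈ L) (hμ : ∀ i ∈ b.support, 0 ≤ P.root' i μ) {i0 : ι} (hi0 : i0 ∈ b.support)
    (hpos : 0 < yy b Γ ω γ μ i0) :
    ∃ ν, (ν, (μ : N ⧸ rel Γ L)) ∈ BGmu b Γ L γ μ ∧ orbL b Γ ω i0 ν = yy b Γ ω γ μ i0 := by
  set n := ⌊- orbL b Γ ω i0 γ⌋ with hn
  set J := b.support \ O b Γ i0 with hJ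
  have hJΓ : ∀ g ∈ Γ, ∀ i ∈ J, g.indexEquiv i ∈ J := by
    intro g hg i hi
    obtain ⟨his, hiO⟩ := mem_sdiff.mp hi
    refine mem_sdiff.mpr ⟨S.stab g hg i his, fun h => hiO ?_⟩
    have := S.act_mem_O (Γ.inv_mem hg) h
    rwa [idx_inv, Equiv.symm_apply_apply] at this
  obtain ⟨ν, h1, h2, h3⟩ := S.exists_pt J sdiff_subset hJΓ (μ + n • P.coroot i0 + γ)
  have horb : orbL b Γ ω i0 ν = yy b Γ ω γ μ i0 := by
    have := S.orb_span (i := i0) (s := (J : Set ι)) (fun j hj => (mem_sdiff.mp hj).1)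
      (fun j hj => (mem_sdiff.mp hj).2) h3
    rw [map_sub, S.orb_avg, map_add, map_add, map_zsmul, S.orb_coroot i0 hi0,
      if_pos (mem_O_self hi0)] at this
    rw [yy_eq]
    simp only [zsmul_eq_mul, mul_one] at this
    linarith
  have hsame : ∀ i ∈ O b Γ i0, P.root' i ν = P.root' i0 ν := by
    intro i hi
    obtain ⟨_, g, hg, rfl⟩ := mem_filter.mp hi
    rw [← root_act, h1 g hg]
  have ht : 0 ≤ P.root' i0 ν := by
    by_contra hneg
    push Not at hneg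
    have := S.orb_nonneg i0 (x := -ν) (fun j hj => by
      rw [map_neg]
      by_cases hjO : j ∈ O b Γ i0
      · rw [hsame j hjO]; linarith
      · rw [h2 j (mem_sdiff.mpr ⟨hj, hjO⟩)]; simp)
    rw [map_neg, horb] at this
    linarith
  have hrel : n • P.coroot i0 ∈ rel Γ L :=
    AddSubgroup.zsmul_mem _
      (AddSubgroup.subset_closure (Set.mem_union_left _ (Set.mem_range_self i0))) n
  refine ⟨ν, ⟨⟨fun i hi => ?_, h1, μ + n • P.coroot i0,
    L.add_mem hμL (L.zsmul_mem (S.co i0) n), ?_, Submodule.span_mono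
    (Set.image_mono fun i hi => And.intro (mem_sdiff.mp hi).1 (h2 i hi)) h3⟩, rfl, ?_⟩, horb⟩
  · by_cases hiO : i ∈ O b Γ i0
    · rw [hsame i hiO]; exact ht
    · rw [h2 i (mem_sdiff.mpr ⟨hi, hiO⟩)]
  · rw [QuotientAddGroup.eq_iff_sub_mem]; simpa using hrel
  · refine S.le_of ?_ (fun g hg => by rw [map_sub, act_avg Γ hg, h1 g hg]) fun i hi => ?_
    · have : avg Γ μ - ν =
          (avg Γ (μ + n • P.coroot i0 + γ) - ν) - avg Γ γ - avg Γ (n • P.coroot i0) := by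
        rw [avg_add, avg_add]; abel
      rw [this]
      exact Submodule.sub_mem _ (Submodule.sub_mem _ (span_mono_range _ h3) (avg_span hγ))
        (avg_rel hrel)
    · by_cases hiO : i ∈ O b Γ i0
      · left
        have : orbL b Γ ω i = orbL b Γ ω i0 := by rw [orbL, orbL, O_eq hiO]
        rw [this, map_sub, S.orb_avg, horb, yy]
        have := Int.fract_nonneg (- orbL b Γ ω i0 γ)
        linarith
      · right
        rw [map_sub, h2 i (mem_sdiff.mpr ⟨hi, hiO⟩), sub_zero]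
        exact S.avg_dom hμ i hi

lemma Setup.yy_int {γ γ' μ μ' x : N}
    (hγx : ∀ i ∈ b.support, P.root' i (γ' - γ - x) = 0)
    (hκ : (x : N ⧸ rel Γ L) = (μ : N ⧸ rel Γ L) - (μ' : N ⧸ rel Γ L)) (i : ι) :
    ∃ n : ℤ, orbL b Γ ω i μ + orbL b Γ ω i γ = orbL b Γ ω i μ' + orbL b Γ ω i γ' + n := by
  have hrel : (μ - μ') - x ∈ rel Γ L := by
    rw [← QuotientAddGroup.eq_iff_sub_mem]; simp [hκ]
  obtain ⟨n, hn⟩ := S.orb_rel i hrel
  have h := S.orb_central i hγx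
  simp only [map_sub] at hn h
  exact ⟨n, by linarith⟩

lemma Setup.necess [Finite Γ] {γ γ' μ μ' x νb : N}
    (hγ : γ ∈ Submodule.span ℚ (Set.range P.coroot)) (hμL : μ ∈ L)
    (hμ : ∀ i ∈ b.support, 0 ≤ P.root' i μ) (hμ' : ∀ i ∈ b.support, 0 ≤ P.root' i μ')
    (hc : ∀ i ∈ b.support, P.root' i νb = 0)
    (hγx : ∀ i ∈ b.support, P.root' i (γ' - γ - x) = 0)
    (h : ∀ p ∈ BGmu b Γ L γ μ, p - (νb, (x : N ⧸ rel Γ L)) ∈ BGmu b Γ L γ' μ') :
    (x : N ⧸ rel Γ L) = (μ : N ⧸ rel Γ L) - (μ' : N ⧸ rel Γ L) ∧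
      ∀ i ∈ b.support, yy b Γ ω γ μ i ≤ yy b Γ ω γ' μ' i := by
  have hκ : (x : N ⧸ rel Γ L) = (μ : N ⧸ rel Γ L) - (μ' : N ⧸ rel Γ L) := by
    obtain ⟨ν, hν⟩ := S.basic_mem hγ hμL hμ
    have := (h _ hν).2.1
    simp only [Prod.snd_sub] at this
    rw [← this]; abel
  refine ⟨hκ, fun i hi => ?_⟩
  by_contra hlt
  push Not at hlt
  obtain ⟨n, hn⟩ := S.yy_int hγx hκ i
  have h1 : yy b Γ ω γ' μ' i + 1 ≤ yy b Γ ω γ μ i := by
    rw [yy_eq, yy_eq] at hlt ⊢
    have : ⌊- orbL b Γ ω i γ'⌋ < ⌊- orbL b Γ ω i γ⌋ + n := by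
      have : ((⌊- orbL b Γ ω i γ'⌋ : ℤ) : ℚ) < (⌊- orbL b Γ ω i γ⌋ : ℤ) + n := by linarith
      exact_mod_cast this
    have : ((⌊- orbL b Γ ω i γ'⌋ : ℤ) : ℚ) + 1 ≤ (⌊- orbL b Γ ω i γ⌋ : ℤ) + n := by
      exact_mod_cast this
    linarith
  have h2 : orbL b Γ ω i μ' < yy b Γ ω γ μ i := by
    have := Int.fract_lt_one (- orbL b Γ ω i γ')
    rw [yy] at h1
    linarith
  have h3 := S.orb_nonneg i hμ'
  obtain ⟨ν, hν, horb⟩ := S.break_mem hγ hμL hμ hi (by linarith)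
  obtain ⟨c, hc0, hle⟩ := (h _ hν).2.2
  have h4 := S.orb_sum_nonneg i hc0
  rw [← hle] at h4
  simp only [Prod.fst_sub, map_sub, S.orb_avg, S.orb_central i hc] at h4
  linarith

lemma Setup.hz [Finite Γ] {γ γ' x νb : N}
    (hγ : γ ∈ Submodule.span ℚ (Set.range P.coroot))
    (hγ' : γ' ∈ Submodule.span ℚ (Set.range P.coroot))
    (hb : (νb, (x : N ⧸ rel Γ L)) ∈ BG b Γ L γ) (hc : ∀ i ∈ b.support, P.root' i νb = 0)
    (hγx : ∀ i ∈ b.support, P.root' i (γ' - γ - x) = 0) : avg Γ (γ' - γ - x) = - νb := by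
  obtain ⟨_, _, x1, _, hκ, hspan⟩ := hb
  have hrel : x1 - x ∈ rel Γ L := QuotientAddGroup.eq_iff_sub_mem.mp hκ
  rw [← add_eq_zero_iff_eq_neg]
  refine eq_zero_of_central b ?_ fun i hi => ?_
  · have : avg Γ (γ' - γ - x) + νb = avg Γ γ' + avg Γ (x1 - x) - (avg Γ (x1 + γ) - νb) := by
      rw [avg_sub, avg_sub, avg_sub, avg_add]; abel
    rw [this]
    exact Submodule.sub_mem _ (Submodule.add_mem _ (avg_span hγ') (avg_rel hrel))
      (span_mono_range _ hspan)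
  · rw [map_add, hc i hi, S.avg_central hγx i hi, add_zero]

theorem Setup.criterion [Finite Γ] {γ γ' μ μ' x νb : N}
    (hγ : γ ∈ Submodule.span ℚ (Set.range P.coroot))
    (hγ' : γ' ∈ Submodule.span ℚ (Set.range P.coroot))
    (hμL : μ ∈ L) (hμL' : μ' ∈ L) (hx : x ∈ L)
    (hμ : ∀ i ∈ b.support, 0 ≤ P.root' i μ) (hμ' : ∀ i ∈ b.support, 0 ≤ P.root' i μ')
    (hb : (νb, (x : N ⧸ rel Γ L)) ∈ BG b Γ L γ) (hc : ∀ i ∈ b.support, P.root' i νb = 0)
    (hγx : ∀ i ∈ b.support, P.root' i γ' = P.root' i (γ + x)) :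
    (fun p => p - (νb, (x : N ⧸ rel Γ L))) '' BGmu b Γ L γ μ = BGmu b Γ L γ' μ' ↔
      (x : N ⧸ rel Γ L) = (μ : N ⧸ rel Γ L) - (μ' : N ⧸ rel Γ L) ∧
        ∀ i ∈ b.support, yy b Γ ω γ μ i = yy b Γ ω γ' μ' i := by
  have hγx1 : ∀ i ∈ b.support, P.root' i (γ' - γ - x) = 0 := fun i hi => by
    have := hγx i hi
    simp only [map_add, map_sub] at this ⊢
    linarith
  have hγx2 : ∀ i ∈ b.support, P.root' i (γ - γ' - (-x)) = 0 := fun i hi => by
    have := hγx i hi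
    simp only [map_add, map_sub, map_neg] at this ⊢
    linarith
  have hz := S.hz hγ hγ' hb hc hγx1
  have hz' : avg Γ (γ - γ' - (-x)) = - (-νb) := by
    have : γ - γ' - (-x) = -(γ' - γ - x) := by abel
    rw [this, ← avgL_apply, map_neg, avgL_apply, hz]
  have hc' : ∀ i ∈ b.support, P.root' i (-νb) = 0 := fun i hi => by rw [map_neg, hc i hi, neg_zero]
  have hneg : ∀ p : N × (N ⧸ rel Γ L), p - (-νb, ((-x : N) : N ⧸ rel Γ L)) =
      p + (νb, (x : N ⧸ rel Γ L)) := fun p => by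
    ext <;> simp
  constructor
  · intro h
    obtain ⟨hκ, h1⟩ := S.necess hγ hμL hμ hμ' hc hγx1 (fun p hp => h ▸ ⟨p, hp, rfl⟩)
    obtain ⟨_, h2⟩ := S.necess (x := -x) (νb := -νb) hγ' hμL' hμ' hμ hc' hγx2 (fun p hp => by
      rw [← h] at hp
      obtain ⟨q, hq, rfl⟩ := hp
      rw [hneg]; simpa using hq)
    exact ⟨hκ, fun i hi => le_antisymm (h1 i hi) (h2 i hi)⟩
  · rintro ⟨hκ, hy⟩
    ext p
    constructor
    · rintro ⟨q, hq, rfl⟩
      exact S.transfer hγ' hμ' hx hc hb.2.1 hz hκ hy hq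
    · intro hp
      refine ⟨p + (νb, (x : N ⧸ rel Γ L)), ?_, by simp⟩
      rw [← hneg]
      refine S.transfer hγ hμ (L.neg_mem hx) hc'
        (fun g hg => by rw [map_neg, hb.2.1 g hg]) hz' ?_ (fun i hi => (hy i hi).symm) hp
      rw [QuotientAddGroup.mk_neg, hκ]; abel

end Pool.Agent.P.MP_7d29e8_ag
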