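import Mathlib

set_option autoImplicit false

/-! Kottwitz sets in terms of the based root datum with Galois action. -/

namespace Pool.Agent.P.MP_7d29e8_ag

open scoped Classical

variable {ι M N : Type*} [AddCommGroup M] [Module ℚ M] [AddCommGroup N] [Module ℚ N]
  {P : RootPairing ι ℚ M N}

/-- the Galois average of a rational cocharacter -/
noncomputable def avg (Γ : Subgroup P.Aut) (x : N) : N :=
  (Nat.card Γ : ℚ)⁻¹ • ∑ᶠ g : Γ, (g : P.Aut).coweightMap x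

/-- the subgroup generated by the coroots and all `g y - y`, `y ∈ L`;
`L ⧸ rel = π₁(G)_Γ` -/
def rel (Γ : Subgroup P.Aut) (L : AddSubgroup N) : AddSubgroup N :=
  AddSubgroup.closure (Set.range P.coroot ∪ {x | ∃ g ∈ Γ, ∃ y ∈ L, x = g.coweightMap y - y})

/-- `B(G)` as the set of pairs (Newton point, Kottwitz invariant), for the inner form `G` of class
`γ` of the quasi-split group -/
def BG (b : P.Base) (Γ : Subgroup P.Aut) (L : AddSubgroup N) (γ : N) :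
    Set (N × (N ⧸ rel Γ L)) :=
  {p | (∀ i ∈ b.support, 0 ≤ P.root' i p.1) ∧ (∀ g ∈ Γ, g.coweightMap p.1 = p.1) ∧
    ∃ x ∈ L, (x : N ⧸ rel Γ L) = p.2 ∧ avg Γ (x + γ) - p.1 ∈
      Submodule.span ℚ (P.coroot '' {i | i ∈ b.support ∧ P.root' i p.1 = 0})}

/-- the Kottwitz set `B(G, μ)` -/
def BGmu (b : P.Base) (Γ : Subgroup P.Aut) (L : AddSubgroup N) (γ μ : N) :
    Set (N × (N ⧸ rel Γ L)) :=
  {p ∈ BG b Γ L γ | p.2 = (μ : N ⧸ rel Γ L) ∧
    ∃ c : ι → ℚ, (∀ i, 0 ≤ c i) ∧ avg Γ μ - p.1 = ∑ i ∈ b.support, c i • P.coroot i}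

/-- pairing with the sum of the weights `ω j` over the Galois orbit of the simple root `i` -/
noncomputable def orb (b : P.Base) (Γ : Subgroup P.Aut) (ω : ι → M) (i : ι) (x : N) : ℚ :=
  ∑ j ∈ b.support with (∃ g ∈ Γ, g.indexEquiv i = j), P.toLinearMap (ω j) x

/-- the numerical condition at the Galois orbit of the simple root `i` -/
def Crit (b : P.Base) (Γ : Subgroup P.Aut) (ω : ι → M) (γ γ' μ μ' : N) (i : ι) : Prop :=
  orb b Γ ω i μ - Int.fract (- orb b Γ ω i γ) = orb b Γ ω i μ' - Int.fract (- orb b Γ ω i γ')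

/-- the end nodes of the diagram `D n` that are moved by diagram automorphisms -/
def Ends (n : ℕ) (k : Fin n) : Prop := n ≤ (k : ℕ) + 2 ∨ (n = 4 ∧ (k : ℕ) = 0)

open CartanMatrix in
/-- The list of solutions for a simple factor with Cartan matrix `C` and Galois orbit relation `R`
on the nodes (numbered from `0`): `Q` is the condition to be solved. -/
def Table (n : ℕ) (C : Matrix (Fin n) (Fin n) ℤ) (R : Fin n → Fin n → Prop)
    (D W W' : Fin n → ℚ) (Q : Prop) : Prop :=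
  (C = A n → R = Eq → ∀ m : Fin n, (m : ℕ) + 1 = n → ∀ f : ℕ → ℤ,
    (∀ i, f i = ⌊i * W m⌋ - ⌊i * W' m⌋) →
    (Q ↔ ∀ k : Fin n, D k = f (k + 2) - 2 * f (k + 1) + f k)) ∧
  (C = A n → (∀ k l, R k l ↔ l = k ∨ l = k.rev) → (Q ↔ ∀ k : Fin n, D k + D k.rev =
    2 * ∑ m with m.rev = m, C k m * (Int.fract (- W m) - Int.fract (- W' m)))) ∧
  (C = CartanMatrix.D n → 4 ≤ n → R = Eq →
    (Q ↔ D = 0 ∨ ∃ i j, Ends n i ∧ Ends n j ∧ D = Pi.single i 1 - Pi.single j 1 ∧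
      Int.fract (- W j) < 1 / 2 ∧ 1 / 2 ≤ Int.fract (- W i))) ∧
  ((((C = B n ∨ C = CartanMatrix.C n) ∧ 2 ≤ n ∧ R = Eq) ∨
    (C = CartanMatrix.D n ∧ 4 ≤ n ∧ ∃ S : Finset (Fin n), 2 ≤ S.card ∧ (∀ k ∈ S, Ends n k) ∧
      ∀ k l, R k l ↔ l = k ∨ (k ∈ S ∧ l ∈ S)) ∨
    (n = 6 ∧ HEq C E₆ ∧
      (R = Eq ∨ ∀ k l : Fin n, R k l ↔ l = k ∨ (l : ℕ) = [5, 1, 4, 3, 2, 0].getD k 0)) ∨
    (n = 7 ∧ HEq C E₇ ∧ R = Eq) ∨ (n = 8 ∧ HEq C E₈) ∨ (n = 4 ∧ HEq C F₄) ∨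
    (n = 2 ∧ HEq C G₂)) → (Q ↔ ∀ k, ∑ l with R k l, D l = 0))

end Pool.Agent.P.MP_7d29e8_ag
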