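import Pool.Agent.P.MP_7d29e8_ag.HDefs

set_option autoImplicit false

/-! Basic elements, minuscule cocharacters, coordinates, simple factors and the list of solutions. -/

namespace Pool.Agent.P.MP_7d29e8_ag

open scoped Classical
open Matrix

variable (O K : Type) {Ω : Type} [CommRing O] [Field K] [Field Ω] [Algebra O K] [Algebra K Ω]
  {n n' : Type} [Fintype n] [DecidableEq n] [Fintype n'] [DecidableEq n']

variable {K} in
/-- `β` is basic: its Newton cocharacter is a central rational cocharacter of `G` -/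
def Basic (p : ℕ) (σ : K ≃+* K) (G : Subgroup (GL n Ω)) (β : Matrix n n Ω) : Prop :=
  ∃ (k : GL n Ω) (h : n → ℚ) (H : Matrix n n Ω),
    H = k.val * diagonal (fun i => (h i : Ω)) * (k⁻¹).val ∧ H ∈ lieG G ∧
    (∀ g ∈ G, g.val * H = H * g.val) ∧ Newton O p σ β H

/-- `μ` is a minuscule cocharacter of `G`: its weights on the Lie algebra are `-1, 0, 1` -/
def Minu (G : Subgroup (GL n Ω)) (μ : Ω → Matrix n n Ω) : Prop :=
  (∃ (k : GL n Ω) (h : n → ℤ), ∀ t ≠ 0, μ t = k.val * diagonal (fun i => t ^ h i) * (k⁻¹).val) ∧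
  (∀ t ≠ 0, ∃ g ∈ G, g.val = μ t) ∧
  ∀ X ∈ lieG G, X ≠ 0 → ∀ j : ℤ, (∀ t ≠ 0, μ t * X = t ^ j • (X * μ t)) → |j| ≤ 1

variable {ι M N : Type} [AddCommGroup M] [Module ℚ M] [AddCommGroup N] [Module ℚ N]

variable {K} in
/-- coordinates: frames of `G` and `G'` with the same based root datum and matched tori,
fundamental weights `ω`, the invariants `ν₀, x₀` of `g₀`, and the dominant representatives `m, m'`
of `μ⁻¹, μ'⁻¹` -/
structure Coord (p : ℕ) (σ : K ≃+* K) (s : Ω ≃+* Ω) (G : Subgroup (GL n Ω))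
    (G' : Subgroup (GL n' Ω)) (ψ : G → G') (μ : Ω → Matrix n n Ω) (μ' : Ω → Matrix n' n' Ω)
    {P : RootPairing ι ℚ M N} (b : P.Base) (ω : ι → M) (y : GL n Ω) (wt : n → M) (g₀ : GL n Ω)
    (a₀ : P.Aut) (y' : GL n' Ω) (wt' : n' → M) (g₀' : GL n' Ω) (a₀' : P.Aut) (ν₀ x₀ m m' : N) :
    Prop where
  hω : ∀ i ∈ b.support, ω i ∈ Submodule.span ℚ (Set.range P.root)
  hω' : ∀ i ∈ b.support, ∀ j ∈ b.support, (i = j → P.toLinearMap (ω i) (P.coroot j) = 1) ∧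
    (i ≠ j → P.toLinearMap (ω i) (P.coroot j) = 0)
  fr : Frame K P G b y wt s g₀ a₀
  fr' : Frame K P G' b y' wt' s g₀' a₀'
  nu : Newton O p σ g₀.val (dd P y wt ν₀)
  ka : Kap O K P p G y wt g₀ x₀
  hL : lat P wt' = lat P wt
  hco : ∀ x ∈ lat P wt, ∀ t ≠ 0, ∀ g : G, g.val.val = co P y wt x t →
    (ψ g).val.val = co P y' wt' x t
  mem : m ∈ lat P wt ∧ m' ∈ lat P wt
  dom : ∀ i ∈ b.support, 0 ≤ P.root' i m ∧ 0 ≤ P.root' i m'
  rep : ∃ g ∈ G, ∀ t ≠ 0, μ t⁻¹ = g.val * co P y wt m t * (g⁻¹).val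
  rep' : ∃ g ∈ G', ∀ t ≠ 0, μ' t⁻¹ = g.val * co P y' wt' m' t * (g⁻¹).val

/-- `e` lists the simple roots of a `ℚ_p`-simple factor: copies `t` of a diagram with Cartan
matrix `C`, and `R` describes the Galois orbits -/
structure Fct {P : RootPairing ι ℚ M N} (b : P.Base) (Γ : Subgroup P.Aut) {T : Type} {r : ℕ}
    (e : T × Fin r → ι) (C : Matrix (Fin r) (Fin r) ℤ) (R : Fin r → Fin r → Prop) : Prop where
  inj : Function.Injective e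
  mem : ∀ q, e q ∈ b.support
  car : ∀ t k l, P.pairing (e (t, k)) (e (t, l)) = C k l
  orth : ∀ t k, ∀ j ∈ b.support, (∀ l, j ≠ e (t, l)) → P.pairing (e (t, k)) j = 0
  orbit : ∀ q j, (∃ g ∈ Γ, g.indexEquiv (e q) = j) ↔ ∃ q', j = e q' ∧ R q.2 q'.2

open CartanMatrix in
/-- `(C, R)` is one of the listed types (nodes numbered from `0`), and the condition `Q` has the
solution given for this type -/
def Row (n : ℕ) (C : Matrix (Fin n) (Fin n) ℤ) (R : Fin n → Fin n → Prop)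
    (D W W' : Fin n → ℚ) (Q : Prop) : Prop :=
  (C = A n ∧ R = Eq ∧ ∀ m : Fin n, (m : ℕ) + 1 = n → ∀ f : ℕ → ℤ,
    (∀ i, f i = ⌊i * W m⌋ - ⌊i * W' m⌋) →
    (Q ↔ ∀ k : Fin n, D k = f (k + 2) - 2 * f (k + 1) + f k)) ∨
  (C = A n ∧ (∀ k l, R k l ↔ l = k ∨ l = k.rev) ∧ (Q ↔ ∀ k : Fin n, D k + D k.rev =
    2 * ∑ m with m.rev = m, C k m * (Int.fract (- W m) - Int.fract (- W' m)))) ∨
  (C = CartanMatrix.D n ∧ 4 ≤ n ∧ R = Eq ∧
    (Q ↔ D = 0 ∨ ∃ i j, Ends n i ∧ Ends n j ∧ D = Pi.single i 1 - Pi.single j 1 ∧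
      Int.fract (- W j) < 1 / 2 ∧ 1 / 2 ≤ Int.fract (- W i))) ∨
  ((((C = B n ∨ C = CartanMatrix.C n) ∧ 2 ≤ n ∧ R = Eq) ∨
    (C = CartanMatrix.D n ∧ 4 ≤ n ∧ ∃ S : Finset (Fin n), 2 ≤ S.card ∧ (∀ k ∈ S, Ends n k) ∧
      ∀ k l, R k l ↔ l = k ∨ (k ∈ S ∧ l ∈ S)) ∨
    (n = 6 ∧ HEq C E₆ ∧
      (R = Eq ∨ ∀ k l : Fin n, R k l ↔ l = k ∨ (l : ℕ) = [5, 1, 4, 3, 2, 0].getD k 0)) ∨
    (n = 7 ∧ HEq C E₇ ∧ R = Eq) ∨ (n = 8 ∧ HEq C E₈) ∨ (n = 4 ∧ HEq C F₄) ∨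
    (n = 2 ∧ HEq C G₂)) ∧ (Q ↔ ∀ k, ∑ l with R k l, D l = 0))

end Pool.Agent.P.MP_7d29e8_ag
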