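import Pool.Agent.P.MP_7d29e8_ag.HMain
import Pool.Agent.P.MP_7d29e8_ag.FDefs

set_option autoImplicit false

/-! Working definitions for the existence of coordinates. -/

namespace Pool.Agent.P.MP_7d29e8_ag

open SemidirectProduct

variable {Ω : Type} [Field Ω] {n n' : Type} [Fintype n] [DecidableEq n] [Fintype n']
  [DecidableEq n'] {ι M N : Type} [AddCommGroup M] [Module ℚ M] [AddCommGroup N] [Module ℚ N]

/-- conjugate of a diagonal matrix -/
def cd (k : GL n Ω) (d : n → Ω) : Matrix n n Ω := k.val * Matrix.diagonal d * (k⁻¹).val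

/-- closed connected group with nondegenerate trace form -/
structure ND (G : Subgroup (GL n Ω)) : Prop where
  closed : ∀ g : GL n Ω, g.val ∈ Cl (GS G) Ω → g ∈ G
  prime : (van (GS G)).IsPrime
  nd : ∀ X ∈ lie (GS G) Ω, (∀ Y ∈ lie (GS G) Ω, (X * Y).trace = 0) → X = 0

/-- field automorphisms preserving `G` -/
def Stb (G : Subgroup (GL n Ω)) : Subgroup (Ω ≃+* Ω) where
  carrier := {θ | ∀ g, acu (inr θ) g ∈ G ↔ g ∈ G}
  mul_mem' {a b} ha hb g := by rw [map_mul, acu_mul, ha, hb]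
  one_mem' g := by rw [map_one]; exact (Units.ext (ac_one _) : acu 1 g = g).symm ▸ Iff.rfl
  inv_mem' {a} ha g := by rw [← ha, map_inv, acu_acu_inv]

/-- rational semisimple elements of the Lie algebra with entries in `F` -/
def RSF (F : Subfield Ω) (G : Subgroup (GL n Ω)) (X : Matrix n n Ω) : Prop :=
  X ∈ lie (GS G) Ω ∧ (∀ i j, X i j ∈ F) ∧ ∃ (k : GL n Ω) (h : n → ℚ), X = cd k fun i => (h i : Ω)

/-- a diagonal maximal torus, before the roots are known -/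
structure PD (G : Subgroup (GL n Ω)) (P : RootPairing ι ℚ M N) (wt : n → M) : Prop where
  nd : ND G
  span : Submodule.span ℚ (Set.range wt) = ⊤
  tor : ∀ x ∈ lat P wt, ∀ t : Ω, t ≠ 0 → Matrix.diagonal (fun i => t ^ ⌊hh P wt x i⌋) ∈ GS G
  cent : ∀ X ∈ lie (GS G) Ω, Wt wt 0 X → X ∈ Submodule.span Ω (Set.range (DD P wt Ω))
  mem : ∀ x, DD P wt Ω x ∈ lie (GS G) Ω

/-- nonzero weights on the Lie algebra -/
def WS (G : Subgroup (GL n Ω)) (wt : n → M) : Set M :=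
  {m | m ≠ 0 ∧ ∃ X ∈ lie (GS G) Ω, X ≠ 0 ∧ Wt wt m X}

/-- coroots defined by the trace form -/
structure CV (P : RootPairing ι ℚ M N) (wt : n → M) (cv : M → N) : Prop where
  two : ∀ α ≠ 0, P.toLinearMap α (cv α) = 2
  form : ∀ α ≠ 0, ∀ x, 2 * BB P wt (cv α) x = BB P wt (cv α) (cv α) * P.toLinearMap α x

/-- graph of the differential of `ψ` -/
structure RL (G : Subgroup (GL n Ω)) (G' : Subgroup (GL n' Ω)) (ψ : G → G')
    (Rl : Matrix n n Ω → Matrix n' n' Ω → Prop) : Prop where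
  tot : ∀ X ∈ lie (GS G) Ω, ∃ X', Rl X X'
  tot' : ∀ X' ∈ lie (GS G') Ω, ∃ X, Rl X X'
  mem : ∀ {X X'}, Rl X X' → X ∈ lie (GS G) Ω ∧ X' ∈ lie (GS G') Ω ∧ (X = 0 ↔ X' = 0)
  add : ∀ {X X' Y Y'}, Rl X X' → Rl Y Y' → Rl (X + Y) (X' + Y')
  smul : ∀ (c : Ω) {X X'}, Rl X X' → Rl (c • X) (c • X')
  br : ∀ {X X' Y Y'}, Rl X X' → Rl Y Y' → Rl (X * Y - Y * X) (X' * Y' - Y' * X')
  co : ∀ (k : GL n Ω) (k' : GL n' Ω) (h : n → ℤ) (h' : n' → ℤ),
    (∀ t : Ω, t ≠ 0 → ∃ g : G, g.val.val = cd k (fun i => t ^ h i) ∧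
      (ψ g).val.val = cd k' fun i => t ^ h' i) →
    Rl (cd k fun i => (h i : Ω)) (cd k' fun i => (h' i : Ω))

end Pool.Agent.P.MP_7d29e8_ag
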