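import Pool.Agent.P.MP_7d29e8_ag.HBdd

set_option autoImplicit false
set_option linter.unusedSectionVars false
set_option linter.unusedVariables false

/-! Linear algebra: descent, components, rational functionals. -/

namespace Pool.Agent.P.MP_7d29e8_ag

open Finset
open scoped Classical

variable {Ω : Type} [Field Ω] {n : Type} [Fintype n] [DecidableEq n]

theorem desc_set {α : Type} [Fintype α] (Γ : Set (Ω ≃+* Ω)) (V : Submodule Ω (α → Ω))
    (hV : ∀ θ ∈ Γ, ∀ x ∈ V, (fun i => θ (x i)) ∈ V) :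
    V ≤ Submodule.span Ω {x | x ∈ V ∧ ∀ θ ∈ Γ, ∀ i, θ (x i) = x i} := by
  have key : ∀ (k : ℕ) (x : α → Ω), x ∈ V → (univ.filter fun i => x i ≠ 0).card = k →
      x ∈ Submodule.span Ω {x | x ∈ V ∧ ∀ θ ∈ Γ, ∀ i, θ (x i) = x i} := by
    intro k
    induction k using Nat.strong_induction_on with
    | _ k ih =>
      intro x hx hk
      by_cases h0 : x = 0
      · rw [h0]; exact zero_mem _
      obtain ⟨i, hi⟩ := Function.ne_iff.mp h0
      replace hi : x i ≠ 0 := hi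
      have lt : ∀ z : α → Ω, (∀ j, x j = 0 → z j = 0) → ∀ j, x j ≠ 0 → z j = 0 →
          (univ.filter fun i => z i ≠ 0).card < k := fun z h1 j h2 h3 =>
        hk ▸ card_lt_card ((ssubset_iff_of_subset fun l hl => by
          simp only [mem_filter, mem_univ, true_and] at hl ⊢
          exact fun h => hl (h1 l h)).mpr ⟨j, by simpa using h2, by simpa using h3⟩)
      by_cases h1 : ∃ z ∈ V, z ≠ 0 ∧ (∀ j, x j = 0 → z j = 0) ∧ ∃ j, x j ≠ 0 ∧ z j = 0
      · obtain ⟨z, hz, z0, z1, j, z2, z3⟩ := h1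
        obtain ⟨l, hl⟩ := Function.ne_iff.mp z0
        replace hl : z l ≠ 0 := hl
        have a1 := ih _ (lt z z1 j z2 z3) z hz rfl
        have a2 := ih _ (lt (x - (x l / z l) • z) (fun j h => by simp [h, z1 j h]) l
          (fun h => hl (z1 l h)) (by simp [hl])) _ (sub_mem hx (V.smul_mem _ hz)) rfl
        simpa using add_mem a2 (Submodule.smul_mem _ (x l / z l) a1)
      have hz : (x i)⁻¹ • x ∈ V := V.smul_mem _ hx
      have h2 : ∀ θ ∈ Γ, ∀ j, θ (((x i)⁻¹ • x) j) = ((x i)⁻¹ • x) j := fun θ hθ => by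
        by_contra hc
        refine h1 ⟨_, sub_mem (hV θ hθ _ hz) hz, fun h => hc fun j => sub_eq_zero.mp (congrFun h j),
          fun j h => by simp [h], i, hi, by simp [hi]⟩
      have := Submodule.smul_mem _ (x i) (Submodule.subset_span (R := Ω)
        (s := {x | x ∈ V ∧ ∀ θ ∈ Γ, ∀ i, θ (x i) = x i}) ⟨hz, h2⟩)
      rwa [smul_smul, mul_inv_cancel₀ hi, one_smul] at this
  exact fun x hx => key _ x hx rfl

theorem desc_mat (Γ : Set (Ω ≃+* Ω)) (V : Submodule Ω (Matrix n n Ω))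
    (hV : ∀ θ ∈ Γ, ∀ X ∈ V, X.map θ ∈ V) :
    V ≤ Submodule.span Ω {X | X ∈ V ∧ ∀ θ ∈ Γ, X.map θ = X} := by
  obtain ⟨e, he⟩ : ∃ e : (n × n → Ω) →ₗ[Ω] Matrix n n Ω, ∀ x i j, e x i j = x (i, j) :=
    ⟨{ toFun := fun x => Matrix.of fun i j => x (i, j)
       map_add' := fun _ _ => rfl
       map_smul' := fun _ _ => rfl }, fun _ _ _ => rfl⟩
  intro X hX
  have e1 : e (fun q : n × n => X q.1 q.2) = X := Matrix.ext fun i j => he _ _ _
  have h := desc_set Γ (V.comap e) (fun θ hθ x hx => by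
    have := hV θ hθ _ hx
    rwa [show (e x).map θ = e fun q => θ (x q) from Matrix.ext fun i j => by simp [he]] at this)
    (show (fun q : n × n => X q.1 q.2) ∈ V.comap e by rwa [Submodule.mem_comap, e1])
  have := Submodule.apply_mem_span_image_of_mem_span e h
  rw [e1] at this
  refine Submodule.span_mono ?_ this
  rintro _ ⟨x, ⟨h1, h2⟩, rfl⟩
  exact ⟨h1, fun θ hθ => Matrix.ext fun i j => by simp [he, h2 θ hθ]⟩

open Polynomial in
theorem comp_mem {V : Type} [AddCommGroup V] [Module Ω V] (T : Module.End Ω V) (I : Submodule Ω V)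
    (hI : ∀ x ∈ I, T x ∈ I) (s : Finset Ω) (f : Ω → V)
    (hf : ∀ w ∈ s, ∃ m : ℕ, ((T - algebraMap Ω (Module.End Ω V) w) ^ m) (f w) = 0)
    (h : ∑ w ∈ s, f w ∈ I) : ∀ w ∈ s, f w ∈ I := by
  intro w hw
  choose! m hm using hf
  have hp : ∀ (q : Polynomial Ω), ∀ x ∈ I, aeval T q x ∈ I := fun q x hx =>
    aeval_apply_smul_mem_of_le_comap hx q T hI
  have kill : ∀ u ∈ s, ∀ q : Polynomial Ω, (X - C u) ^ m u ∣ q → aeval T q (f u) = 0 := by
    rintro u hu _ ⟨q, rfl⟩
    rw [mul_comm, map_mul, Module.End.mul_apply, map_pow, map_sub, aeval_X, aeval_C, hm u hu,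
      map_zero]
  obtain ⟨a, c, hac⟩ : IsCoprime (∏ u ∈ s.erase w, (X - C u) ^ m u) ((X - C w) ^ m w) :=
    IsCoprime.prod_left fun u hu => (isCoprime_X_sub_C_of_isUnit_sub
      (sub_ne_zero.mpr (ne_of_mem_erase hu)).isUnit).pow
  obtain ⟨q, hq, h1⟩ : ∃ q : Polynomial Ω, q = 1 - c * (X - C w) ^ m w ∧
      ∀ u ∈ s, u ≠ w → aeval T q (f u) = 0 :=
    ⟨_, eq_sub_of_add_eq hac, fun u hu hne => kill u hu _ (Dvd.dvd.mul_left
      (dvd_prod_of_mem (fun u => (X - C u) ^ m u) (mem_erase.mpr ⟨hne, hu⟩)) _)⟩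
  have := hp q _ h
  rw [map_sum, sum_eq_single_of_mem w hw h1, hq, map_sub,
    LinearMap.sub_apply, kill w hw _ (dvd_mul_left _ _)] at this
  simpa using this

theorem exists_add [CharZero Ω] {c : Ω} (hc : c ≠ 0) : ∃ φ : Ω →+ ℚ, φ c ≠ 0 := by
  by_contra h
  push Not at h
  exact hc ((Module.forall_dual_apply_eq_zero_iff ℚ c).mp fun φ => h φ.toAddMonoidHom)

theorem rat_span [CharZero Ω] {α : Type} [Fintype α] (d : α → Ω) :
    ∃ (s : Finset (Ω →+ ℚ)) (c : (Ω →+ ℚ) → Ω), ∀ i, d i = ∑ φ ∈ s, c φ * (φ (d i) : Ω) := by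
  let B := Module.Basis.ofVectorSpace ℚ Ω
  let F := fun j => (B.coord j).toAddMonoidHom
  have hF : Function.Injective F := fun j l h => by
    have := DFunLike.congr_fun h (B j)
    by_contra hne
    simp [F, hne] at this
  let t := univ.biUnion fun i => (B.repr (d i)).support
  refine ⟨t.image F, Function.extend F B 0, fun i => ?_⟩
  rw [sum_image fun _ _ _ _ h => hF h]
  conv_lhs => rw [← B.linearCombination_repr (d i), Finsupp.linearCombination_apply,
    Finsupp.sum_of_support_subset _ (s := t)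
      (subset_biUnion_of_mem (fun i => (B.repr (d i)).support) (mem_univ i)) _ (by simp)]
  refine sum_congr rfl fun j _ => ?_
  rw [hF.extend_apply, mul_comm, Rat.smul_def]
  rfl

theorem exists_retr [CharZero Ω] : ∃ φ : Ω →+ ℚ, ∀ (q : ℚ) (a : Ω), φ (a * q) = φ a * q ∧ φ q = q := by
  obtain ⟨φ, h⟩ := exists_add (one_ne_zero (α := Ω))
  have h1 : ∀ (q : ℚ) (a : Ω), φ (a * q) = φ a * q := fun q a => by
    rw [mul_comm, ← Rat.smul_def, map_rat_smul, smul_eq_mul, mul_comm]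
  refine ⟨(AddMonoidHom.mulLeft (φ 1)⁻¹).comp φ, fun q a => ⟨by simp [h1, mul_assoc], ?_⟩⟩
  have := h1 q 1
  rw [one_mul] at this
  simp [this, h]

end Pool.Agent.P.MP_7d29e8_ag
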