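import Pool.Agent.P.MP_7d29e8_ag.FA1
import Pool.Agent.P.MP_7d29e8_ag.FA2

set_option autoImplicit false
set_option linter.unusedSectionVars false
set_option linter.unusedVariables false

/-! The Lie algebra contains the replicas of its elements. -/

namespace Pool.Agent.P.MP_7d29e8_ag

open Finset SemidirectProduct
open scoped Classical

variable {Ω : Type} [Field Ω] [CharZero Ω] {n : Type} [Fintype n] [DecidableEq n]
  {G : Subgroup (GL n Ω)}

section Aux

open MvPolynomial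

/-- the left invariant derivation -/
noncomputable def dl_FB1 (A : Matrix n n Ω) :
    Derivation Ω (MvPolynomial (n × n) Ω) (MvPolynomial (n × n) Ω) :=
  mkDerivation Ω (fun p => (gen Ω n * A.map C : Matrix n n _) p.1 p.2)

lemma dl_X_FB1 (A : Matrix n n Ω) (p : n × n) :
    dl_FB1 A (X p) = (gen Ω n * A.map C : Matrix n n _) p.1 p.2 := by
  simp [dl_FB1, mkDerivation_X]

lemma dl_C_FB1 (A : Matrix n n Ω) (c : Ω) : dl_FB1 A (C c) = 0 := (dl_FB1 A).map_algebraMap c

lemma ev_dl_X_FB1 (A : Matrix n n Ω) {R : Type} [CommRing R] [Algebra Ω R] (γ : Matrix n n R)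
    (p : n × n) : ev γ (dl_FB1 A (X p)) = (γ * A.map (algebraMap Ω R)) p.1 p.2 := by
  simp [dl_X_FB1, Matrix.mul_apply, gen]

open DualNumber in
lemma keep_FB1 {S : Set (Matrix n n Ω)} (h1 : (1 : Matrix n n Ω) ∈ S)
    (hm : ∀ a ∈ S, ∀ b ∈ S, a * b ∈ S) {e : Matrix n n Ω} (hl : e ∈ lie S Ω)
    (f : MvPolynomial (n × n) Ω) (hf : ∀ g ∈ S, ev g f = 0) :
    ∀ g ∈ S, ev g (dl_FB1 e f) = 0 := by
  intro g hg
  let φ : Ω →ₐ[Ω] DualNumber Ω := Algebra.ofId _ _
  have key : ∀ f : MvPolynomial (n × n) Ω,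
      ev (g.map φ * (1 + (ε : DualNumber Ω) • e.map φ)) f =
        φ (ev g f) + ε * φ (ev g (dl_FB1 e f)) := by
    intro f
    induction f using MvPolynomial.induction_on with
    | C c => simp [φ]
    | add f f' hf hf' => simp only [map_add, hf, hf']; ring
    | mul_X f p hf =>
      have e1 : (g.map φ * (1 + (ε : DualNumber Ω) • e.map φ)) p.1 p.2 =
          φ (g p.1 p.2) + ε * φ (ev g (dl_FB1 e (X p))) := by
        rw [ev_dl_X_FB1, mul_add, mul_one, Matrix.mul_smul, ← Matrix.map_mul (f := φ)]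
        simp only [Matrix.add_apply, Matrix.smul_apply, Matrix.map_apply, smul_eq_mul]
        simp
      rw [map_mul, hf, ev_X, e1, Derivation.leibniz]
      simp only [smul_eq_mul, map_add, map_mul, ev_X]
      linear_combination
        (φ (ev g (dl_FB1 e f)) * φ (ev g (dl_FB1 e (X p)))) * (eps_mul_eps (R := Ω))
  have h2 := Cl.mul (fun a ha b hb => Cl.self (hm a ha b hb)) (Cl.map (Cl.self hg) φ)
    (lie.curve h1 (lie.map hl φ.toLinearMap) (eps_mul_eps (R := Ω))) f hf
  have h3 := (key f).symm.trans h2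
  have := congrArg TrivSqZeroExt.snd h3
  simpa [φ, TrivSqZeroExt.algebraMap_eq_inl] using this

lemma ev_one_dl_FB1 (A : Matrix n n Ω) (f : MvPolynomial (n × n) Ω) :
    ev (1 : Matrix n n Ω) (dl_FB1 A f) = dOne f A := by
  induction f using MvPolynomial.induction_on with
  | C c => simp [dOne]
  | add f f' hf hf' => simp only [map_add, hf, hf', dOne_add_left]
  | mul_X f p hf =>
    rw [Derivation.leibniz, dOne_mul_X]
    simp only [smul_eq_mul, map_add, map_mul, ev_X, hf, ev_dl_X_FB1, one_mul]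
    simp [add_comm]

lemma grade_FB1 {W : Type} [AddCommMonoid W] (u : n × n → W)
    (Q : W → MvPolynomial (n × n) Ω → Prop) (h0 : ∀ c, Q 0 (C c))
    (hm : ∀ w w' f g, Q w f → Q w' g → Q (w + w') (f * g)) (hX : ∀ q, Q (u q) (X q))
    (α : n × n →₀ ℕ) (c : Ω) : Q (∑ q, α q • u q) (monomial α c) := by
  have h1 : Q 0 1 := by simpa using h0 1
  have key : ∀ α : n × n →₀ ℕ, Q (∑ q, α q • u q) (monomial α 1) := by
    intro α
    induction α using Finsupp.induction_linear with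
    | zero => simpa using h1
    | add a b ha hb =>
      have := hm _ _ _ _ ha hb
      rw [monomial_mul, one_mul, ← sum_add_distrib] at this
      simpa only [Finsupp.add_apply, add_smul] using this
    | single a b =>
      have e : ∑ q, (Finsupp.single a b) q • u q = b • u a := by
        rw [sum_eq_single a]
        · simp
        · intro q _ hq; simp [hq.symm]
        · simp
      rw [e, ← X_pow_eq_monomial]
      clear e
      induction b with
      | zero => simpa using h1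
      | succ b ih => rw [succ_nsmul, pow_succ]; exact hm _ _ _ _ ih (hX a)
  have := hm _ _ _ _ (h0 c) (key α)
  rwa [zero_add, C_mul_monomial, mul_one] at this

lemma dl_diag_FB1 (d : n → Ω) (α : n × n →₀ ℕ) (c : Ω) :
    dl_FB1 (Matrix.diagonal d) (monomial α c) = (∑ q, α q • d q.2) • monomial α c := by
  refine grade_FB1 (fun q => d q.2) (fun w f => dl_FB1 (Matrix.diagonal d) f = w • f)
    (fun c => by simp) (fun w w' f g hf hg => ?_) (fun q => ?_) α c
  · rw [Derivation.leibniz, hf, hg, add_smul]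
    simp only [smul_eq_mul, mul_smul_comm]
    rw [add_comm, mul_comm g f]
  · rw [dl_X_FB1, Matrix.diagonal_map (map_zero _), Matrix.mul_diagonal, smul_eq_C_mul, mul_comm]
    simp [gen]

lemma ge_mul_FB1 (A : Matrix n n Ω) (w w' : Ω) (N : ℕ) : ∀ (m m' : ℕ)
    (f g : MvPolynomial (n × n) Ω), m + m' = N →
    (((dl_FB1 A).toLinearMap - algebraMap Ω (Module.End Ω (MvPolynomial (n × n) Ω)) w) ^ m) f = 0 →
    (((dl_FB1 A).toLinearMap - algebraMap Ω (Module.End Ω (MvPolynomial (n × n) Ω)) w') ^ m') g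
      = 0 →
    (((dl_FB1 A).toLinearMap - algebraMap Ω (Module.End Ω (MvPolynomial (n × n) Ω)) (w + w')) ^ N)
      (f * g) = 0 := by
  induction N with
  | zero =>
    intro m m' f g h hf hg
    have : m = 0 := by omega
    subst this
    have : f = 0 := by simpa using hf
    simp [this]
  | succ N ih =>
    intro m m' f g h hf hg
    rcases m with _ | m
    · have : f = 0 := by simpa using hf
      simp [this]
    rcases m' with _ | m'
    · have : g = 0 := by simpa using hg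
      simp [this]
    have e : ((dl_FB1 A).toLinearMap -
        algebraMap Ω (Module.End Ω (MvPolynomial (n × n) Ω)) (w + w')) (f * g) =
        ((dl_FB1 A).toLinearMap - algebraMap Ω (Module.End Ω (MvPolynomial (n × n) Ω)) w) f * g +
        f * ((dl_FB1 A).toLinearMap -
          algebraMap Ω (Module.End Ω (MvPolynomial (n × n) Ω)) w') g := by
      simp only [LinearMap.sub_apply, Module.algebraMap_end_apply, Derivation.coeFn_coe,
        Derivation.leibniz, smul_eq_mul]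
      simp only [smul_eq_C_mul, map_add]
      ring
    rw [pow_succ, Module.End.mul_apply, e, map_add,
      ih m (m' + 1) _ _ (by omega) (by rwa [pow_succ, Module.End.mul_apply] at hf) hg,
      ih (m + 1) m' _ _ (by omega) hf (by rwa [pow_succ, Module.End.mul_apply] at hg), add_zero]

lemma ge_X_FB1 {d : n → Ω} {Z : Matrix n n Ω} (hZ : IsNilpotent Z)
    (hc : Commute Z (Matrix.diagonal d)) (q : n × n) :
    ∃ m : ℕ, (((dl_FB1 (Matrix.diagonal d + Z)).toLinearMap -
      algebraMap Ω (Module.End Ω (MvPolynomial (n × n) Ω)) (d q.2)) ^ m) (X q) = 0 := by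
  have step : ∀ B : Matrix n n Ω, Commute B (Matrix.diagonal d) →
      ((dl_FB1 (Matrix.diagonal d + Z)).toLinearMap -
        algebraMap Ω (Module.End Ω (MvPolynomial (n × n) Ω)) (d q.2))
        ((gen Ω n * B.map C : Matrix n n _) q.1 q.2) =
        (gen Ω n * (Z * B).map C : Matrix n n _) q.1 q.2 := by
    intro B hB
    have e1 : dl_FB1 (Matrix.diagonal d + Z) ((gen Ω n * B.map C : Matrix n n _) q.1 q.2) =
        (gen Ω n * ((Matrix.diagonal d + Z) * B).map C : Matrix n n _) q.1 q.2 := by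
      rw [Matrix.map_mul, ← mul_assoc, Matrix.mul_apply, Matrix.mul_apply, map_sum]
      refine sum_congr rfl fun l _ => ?_
      have := dl_X_FB1 (Matrix.diagonal d + Z) (q.1, l)
      rw [Derivation.leibniz, Matrix.map_apply, dl_C_FB1, smul_zero, zero_add, smul_eq_mul,
        mul_comm, ← this]
      rfl
    rw [LinearMap.sub_apply, Derivation.coeFn_coe, e1, Module.algebraMap_end_apply, add_mul,
      ← hB.eq, Matrix.map_add _ (map_add _), mul_add, Matrix.add_apply, Matrix.map_mul,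
      ← mul_assoc, Matrix.diagonal_map (map_zero _), Matrix.mul_diagonal, smul_eq_C_mul]
    ring
  have key : ∀ m : ℕ, (((dl_FB1 (Matrix.diagonal d + Z)).toLinearMap -
      algebraMap Ω (Module.End Ω (MvPolynomial (n × n) Ω)) (d q.2)) ^ m) (X q) =
      (gen Ω n * (Z ^ m).map C : Matrix n n _) q.1 q.2 := by
    intro m
    induction m with
    | zero => simp [gen]
    | succ m ih => rw [pow_succ', Module.End.mul_apply, ih, step _ (hc.pow_left m), pow_succ']
  obtain ⟨m, hm⟩ := hZ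
  exact ⟨m, by rw [key, hm]; simp⟩

/-- the part of a polynomial of a given weight -/
noncomputable def pt_FB1 (d : n → Ω) (f : MvPolynomial (n × n) Ω) (w : Ω) :
    MvPolynomial (n × n) Ω :=
  ∑ α ∈ f.support with ∑ q, α q • d q.2 = w, monomial α (coeff α f)

lemma sum_pt_FB1 (d : n → Ω) (f : MvPolynomial (n × n) Ω) :
    ∑ w ∈ f.support.image (fun α => ∑ q, α q • d q.2), pt_FB1 d f w = f := by
  unfold pt_FB1
  exact (sum_fiberwise_of_maps_to (g := fun α : n × n →₀ ℕ => ∑ q, α q • d q.2)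
    (fun α hα => mem_image_of_mem (fun α : n × n →₀ ℕ => ∑ q, α q • d q.2) hα) _).trans
    f.as_sum.symm

lemma comps_FB1 {S : Set (Matrix n n Ω)} (h1 : (1 : Matrix n n Ω) ∈ S)
    (hm : ∀ a ∈ S, ∀ b ∈ S, a * b ∈ S) {d : n → Ω} {Z : Matrix n n Ω}
    (hX : Matrix.diagonal d + Z ∈ lie S Ω) (hZ : IsNilpotent Z)
    (hc : Commute Z (Matrix.diagonal d)) (f : MvPolynomial (n × n) Ω)
    (hf : ∀ g ∈ S, ev g f = 0) :
    ∀ w ∈ f.support.image (fun α => ∑ q, α q • d q.2), ev (1 : Matrix n n Ω) (pt_FB1 d f w) = 0 := by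
  intro w hw
  refine comp_mem (dl_FB1 (Matrix.diagonal d + Z)).toLinearMap ((van S).restrictScalars Ω)
    (fun x hx => keep_FB1 h1 hm hX x hx) _ (pt_FB1 d f) (fun w _ => ?_)
    (by rw [sum_pt_FB1]; exact hf) w hw 1 h1
  have e : ∀ (w : Ω) (x : MvPolynomial (n × n) Ω),
      (∃ m : ℕ, (((dl_FB1 (Matrix.diagonal d + Z)).toLinearMap -
        algebraMap Ω (Module.End Ω (MvPolynomial (n × n) Ω)) w) ^ m) x = 0) ↔
      x ∈ Module.End.maxGenEigenspace (dl_FB1 (Matrix.diagonal d + Z)).toLinearMap w := by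
    intro w x
    rw [Module.End.mem_maxGenEigenspace, Algebra.algebraMap_eq_smul_one]
  rw [e]
  refine Submodule.sum_mem _ fun α hα => ?_
  rw [← (mem_filter.mp hα).2, ← e]
  refine grade_FB1 (fun q => d q.2) (fun w x => ∃ m : ℕ,
    (((dl_FB1 (Matrix.diagonal d + Z)).toLinearMap -
      algebraMap Ω (Module.End Ω (MvPolynomial (n × n) Ω)) w) ^ m) x = 0)
    (fun c => ⟨1, by simp⟩) ?_ (ge_X_FB1 hZ hc) α _
  rintro w w' f g ⟨m, hf⟩ ⟨m', hg⟩
  exact ⟨m + m', ge_mul_FB1 _ w w' _ m m' f g rfl hf hg⟩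

lemma rep_FB1 {S : Set (Matrix n n Ω)} (h1 : (1 : Matrix n n Ω) ∈ S)
    (hm : ∀ a ∈ S, ∀ b ∈ S, a * b ∈ S) {d : n → Ω} {Z : Matrix n n Ω}
    (hX : Matrix.diagonal d + Z ∈ lie S Ω) (hZ : IsNilpotent Z)
    (hc : Commute Z (Matrix.diagonal d)) (φ : Ω →+ Ω) : Matrix.diagonal (φ ∘ d) ∈ lie S Ω := by
  intro f hf
  rw [← ev_one_dl_FB1, ← sum_pt_FB1 d f, map_sum, map_sum]
  refine sum_eq_zero fun w hw => ?_
  have e : dl_FB1 (Matrix.diagonal (φ ∘ d)) (pt_FB1 d f w) = φ w • pt_FB1 d f w := by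
    unfold pt_FB1
    rw [map_sum, smul_sum]
    refine sum_congr rfl fun α hα => ?_
    rw [dl_diag_FB1, ← (mem_filter.mp hα).2, map_sum]
    simp only [map_nsmul, Function.comp_apply]
  rw [e, map_smul, comps_FB1 h1 hm hX hZ hc f hf w hw, smul_zero]

lemma ev_diag_FB1 (h : n → ℤ) {t : Ω} (ht : t ≠ 0) (α : n × n →₀ ℕ) (c : Ω) :
    ev (Matrix.diagonal (fun i => t ^ h i)) (monomial α c) =
      t ^ (∑ q, α q • h q.2) * ev (1 : Matrix n n Ω) (monomial α c) := by
  refine grade_FB1 (fun q => h q.2) (fun z x => ev (Matrix.diagonal (fun i => t ^ h i)) x =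
    t ^ z * ev (1 : Matrix n n Ω) x) (fun c => by simp) (fun z z' x y hx hy => ?_)
    (fun q => ?_) α c
  · rw [map_mul, map_mul, hx, hy, zpow_add₀ ht]; ring
  · rw [ev_X, ev_X]
    by_cases hq : q.1 = q.2
    · rw [hq, Matrix.diagonal_apply_eq, Matrix.one_apply_eq, mul_one]
    · rw [Matrix.diagonal_apply_ne _ hq, Matrix.one_apply_ne hq, mul_zero]

lemma cast_wt_FB1 (h : n → ℤ) (α : n × n →₀ ℕ) :
    ((∑ q, α q • h q.2 : ℤ) : Ω) = ∑ q, α q • (h q.2 : Ω) := by
  simp

lemma cochar_FB1 {S : Set (Matrix n n Ω)} (h1 : (1 : Matrix n n Ω) ∈ S)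
    (hm : ∀ a ∈ S, ∀ b ∈ S, a * b ∈ S) {h : n → ℤ}
    (hX : Matrix.diagonal (fun i => (h i : Ω)) ∈ lie S Ω) {t : Ω} (ht : t ≠ 0) :
    Matrix.diagonal (fun i => t ^ h i) ∈ Cl S Ω := by
  intro f hf
  have hX' : Matrix.diagonal (fun i => (h i : Ω)) + 0 ∈ lie S Ω := by rw [add_zero]; exact hX
  have h0 := comps_FB1 h1 hm hX' IsNilpotent.zero (Commute.zero_left _) f hf
  rw [← sum_pt_FB1 (fun i => (h i : Ω)) f, map_sum]
  refine sum_eq_zero fun w hw => ?_
  obtain ⟨β, -, hβ⟩ := mem_image.mp hw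
  have e : ev (Matrix.diagonal (fun i => t ^ h i)) (pt_FB1 (fun i => (h i : Ω)) f w) =
      t ^ (∑ q, β q • h q.2) * ev (1 : Matrix n n Ω) (pt_FB1 (fun i => (h i : Ω)) f w) := by
    unfold pt_FB1
    rw [map_sum, map_sum, mul_sum]
    refine sum_congr rfl fun α hα => ?_
    have e1 : ∑ q, β q • h q.2 = ∑ q, α q • h q.2 := by
      apply Int.cast_injective (α := Ω)
      rw [cast_wt_FB1, cast_wt_FB1]
      exact hβ.trans (mem_filter.mp hα).2.symm
    rw [e1, ev_diag_FB1 h ht]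
  rw [e, h0 w hw, mul_zero]

end Aux

theorem lie_rep {k : GL n Ω} {d : n → Ω} {Z : Matrix n n Ω} (hX : cd k d + Z ∈ lie (GS G) Ω)
    (hZ : IsNilpotent Z) (hc : Commute Z (cd k d)) (φ : Ω →+ Ω) :
    cd k (φ ∘ d) ∈ lie (GS G) Ω := by
  have e : ac (inl k)⁻¹ (cd k d) = Matrix.diagonal d := by rw [cd_eq_ac, ac_inv_ac]
  have h1 : Matrix.diagonal d + ac (inl k)⁻¹ Z ∈ lie (GS (Gd G k)) Ω := by
    rw [lie_Gd, map_add, ac_ac_inv]; exact hX
  have h2 : Commute (ac (inl k)⁻¹ Z) (Matrix.diagonal d) := e ▸ hc.map (ac (inl k)⁻¹)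
  exact lie_Gd.mp (rep_FB1 (GS_one _) (GS_mul _) h1 (hZ.map _) h2 φ)

theorem lie_cochar {k : GL n Ω} {h : n → ℤ} (hX : cd k (fun i => (h i : Ω)) ∈ lie (GS G) Ω)
    {t : Ω} (ht : t ≠ 0) : cd k (fun i => t ^ h i) ∈ Cl (GS G) Ω := by
  have h1 : Matrix.diagonal (fun i => (h i : Ω)) ∈ lie (GS (Gd G k)) Ω := lie_Gd.mpr hX
  have := conj_cl (G₂ := G) (y := k) (fun _ h => h) (cochar_FB1 (GS_one _) (GS_mul _) h1 ht)
  simpa [cd] using this

end Pool.Agent.P.MP_7d29e8_ag
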