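import Pool.Agent.P.MP_7d29e8_ag.FB1
import Pool.Agent.P.MP_7d29e8_ag.FA3

set_option autoImplicit false
set_option linter.unusedSectionVars false
set_option linter.unusedVariables false

/-! The trace form of a reductive group is nondegenerate. -/

namespace Pool.Agent.P.MP_7d29e8_ag

open Finset SemidirectProduct
open scoped Classical

variable {Ω : Type} [Field Ω] [CharZero Ω] {n : Type} [Fintype n] [DecidableEq n]
  {G : Subgroup (GL n Ω)}

lemma nil_FC [IsAlgClosed Ω] {X : Matrix n n Ω} (hX : X ∈ lie (GS G) Ω)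
    (h0 : ∀ Y ∈ lie (GS G) Ω, (X * Y).trace = 0) : IsNilpotent X := by
  obtain ⟨k, d, Z, rfl, hZ, hc, -⟩ := jordan X
  have hd : d = 0 := by
    funext i
    by_contra hi
    obtain ⟨φ, hφ⟩ := exists_add (Ω := Ω) hi
    let ψ : Ω →+ Ω := (Rat.castHom Ω).toAddMonoidHom.comp φ
    have h1 := h0 _ (lie_rep hX hZ hc ψ)
    have h2 : (Z * cd k (ψ ∘ d)).trace = 0 :=
      (Matrix.isNilpotent_trace_of_isNilpotent
        ((cd_comm hc ψ).isNilpotent_mul_right hZ)).eq_zero
    rw [add_mul, Matrix.trace_add, h2, add_zero, ← cd_mul, trace_cd] at h1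
    have h3 := congrArg φ h1
    rw [map_sum, map_zero] at h3
    have h4 : ∀ j, φ ((d * (ψ ∘ d)) j) = φ (d j) * φ (d j) := fun j => by
      have : (d * (ψ ∘ d)) j = φ (d j) • d j := by
        simp [ψ, Rat.smul_def, mul_comm]
      rw [this, map_rat_smul, smul_eq_mul]
    simp only [h4] at h3
    have h5 := (sum_eq_zero_iff_of_nonneg (fun j _ => mul_self_nonneg (φ (d j)))).mp h3 i
      (mem_univ i)
    exact hφ (mul_self_eq_zero.mp h5)
  rw [hd, cd_zero, zero_add]
  exact hZ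

attribute [local instance 100] LieRing.ofAssociativeRing

/-- the radical of the trace form -/
def rad_FC (G : Subgroup (GL n Ω)) : LieSubalgebra Ω (Matrix n n Ω) where
  carrier := {X | X ∈ lie (GS G) Ω ∧ ∀ Y ∈ lie (GS G) Ω, (X * Y).trace = 0}
  add_mem' ha hb := ⟨add_mem ha.1 hb.1, fun Y hY => by
    rw [add_mul, Matrix.trace_add, ha.2 Y hY, hb.2 Y hY, add_zero]⟩
  zero_mem' := ⟨zero_mem _, fun Y _ => by simp⟩
  smul_mem' c X hX := ⟨Submodule.smul_mem _ c hX.1, fun Y hY => by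
    rw [smul_mul_assoc, Matrix.trace_smul, hX.2 Y hY, smul_zero]⟩
  lie_mem' {X Y} hX hY := ⟨lie.bracket (GS_one G) (GS_mul G) hX.1 hY.1, fun Z hZ => by
    have h1 := hX.2 _ (lie.bracket (GS_one G) (GS_mul G) hY.1 hZ)
    rw [mul_sub, Matrix.trace_sub] at h1
    rw [LieRing.of_associative_ring_bracket, sub_mul, Matrix.trace_sub, mul_assoc, mul_assoc,
      Matrix.trace_mul_comm Y, mul_assoc]
    exact h1⟩

lemma rad_conj_FC {g : GL n Ω} (hg : g ∈ G) {X : Matrix n n Ω} (hX : X ∈ rad_FC G) :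
    g.val * X * (g⁻¹).val ∈ rad_FC G := by
  have hg' : g ∈ GE G Ω := Cl.self ⟨g, hg, rfl⟩
  refine ⟨lie_conj hg' hX.1, fun Y hY => ?_⟩
  have h1 := hX.2 _ (lie_conj (inv_mem hg') hY)
  rw [inv_inv] at h1
  rw [mul_assoc, mul_assoc, Matrix.trace_mul_comm, mul_assoc, ← h1, mul_assoc]

lemma flag_FC [IsAlgClosed Ω] : ∃ (V : ℕ → Submodule Ω (n → Ω)) (N : ℕ), V 0 = ⊤ ∧ V N = ⊥ ∧
    (∀ k, V (k + 1) ≤ V k) ∧ (∀ X ∈ rad_FC G, ∀ k, ∀ v ∈ V k, X.mulVec v ∈ V (k + 1)) ∧
    ∀ g ∈ G, ∀ k, ∀ v ∈ V k, g.val.mulVec v ∈ V k := by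
  have hn : LieModule.IsNilpotent (rad_FC G) (n → Ω) := by
    rw [LieModule.isNilpotent_iff_forall' (R := Ω)]
    intro x
    have h1 := (nil_FC x.2.1 x.2.2).map (Matrix.toLinAlgEquiv' (R := Ω) (n := n))
    have h2 : LieModule.toEnd Ω (rad_FC G) (n → Ω) x = Matrix.toLinAlgEquiv' x.1 := by
      ext1 v; rfl
    rwa [h2]
  obtain ⟨N, hN⟩ := LieModule.IsNilpotent.nilpotent Ω (rad_FC G) (n → Ω)
  refine ⟨fun k => (LieModule.lowerCentralSeries Ω (rad_FC G) (n → Ω) k).toSubmodule, N, by simp,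
    by simp [hN], fun k => ?_, fun X hX k v hv => ?_, fun g hg k => ?_⟩
  · exact LieModule.antitone_lowerCentralSeries Ω (rad_FC G) (n → Ω) (Nat.le_succ k)
  · simp only [LieModule.lowerCentralSeries_succ]
    exact LieSubmodule.lie_mem_lie (x := (⟨X, hX⟩ : rad_FC G)) (LieSubmodule.mem_top _) hv
  · induction k with
    | zero => intro v _; simp
    | succ k ih =>
      intro v hv
      simp only [LieModule.lowerCentralSeries_succ] at hv ⊢
      have hv' := hv
      rw [LieSubmodule.lieIdeal_oper_eq_linear_span'] at hv'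
      clear hv
      induction hv' using Submodule.span_induction with
      | mem w hw =>
        obtain ⟨x, -, u, hu, rfl⟩ := hw
        have h1 := LieSubmodule.lie_mem_lie (x := (⟨_, rad_conj_FC hg x.2⟩ : rad_FC G))
          (LieSubmodule.mem_top (R := Ω) _) (ih u hu)
        have h2 : g.val.mulVec ⁅x, u⁆ =
            ⁅(⟨_, rad_conj_FC hg x.2⟩ : rad_FC G), g.val.mulVec u⁆ := by
          change g.val.mulVec (x.1.mulVec u) = (g.val * x.1 * (g⁻¹).val).mulVec (g.val.mulVec u)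
          rw [Matrix.mulVec_mulVec, Matrix.mulVec_mulVec, mul_assoc, ← Units.val_mul,
            inv_mul_cancel, Units.val_one, mul_one]
        rw [h2]
        exact h1
      | zero => simp
      | add a b _ _ ha hb => rw [Matrix.mulVec_add]; exact add_mem ha hb
      | smul c a _ ha => rw [Matrix.mulVec_smul]; exact Submodule.smul_mem _ c ha

theorem nd_of_red [IsAlgClosed Ω] (hc : ∀ g : GL n Ω, g.val ∈ Cl (GS G) Ω → g ∈ G)
    (red : ∀ U ≤ G, (∀ g ∈ G, ∀ u ∈ U, g * u * g⁻¹ ∈ U) →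
      (∀ u ∈ U, IsNilpotent (u.val - 1)) → U = ⊥)
    {X : Matrix n n Ω} (hX : X ∈ lie (GS G) Ω)
    (h0 : ∀ Y ∈ lie (GS G) Ω, (X * Y).trace = 0) : X = 0 := by
  obtain ⟨V, N, hV0, hVN, hVa, hVr, hVg⟩ := flag_FC (G := G)
  have hn := nil_FC hX h0
  let U : Subgroup (GL n Ω) :=
    { carrier := {g | g ∈ G ∧ ∀ k, ∀ v ∈ V k, (g.val - 1).mulVec v ∈ V (k + 1)}
      mul_mem' := fun {a b} ha hb => ⟨mul_mem ha.1 hb.1, fun k v hv => by
        have e : (a * b).val - 1 = (a.val - 1) * b.val + (b.val - 1) := by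
          rw [Units.val_mul]; noncomm_ring
        rw [e, Matrix.add_mulVec, ← Matrix.mulVec_mulVec]
        exact add_mem (ha.2 k _ (hVg b hb.1 k v hv)) (hb.2 k v hv)⟩
      one_mem' := ⟨one_mem _, fun k v hv => by simp⟩
      inv_mem' := fun {a} ha => ⟨inv_mem ha.1, fun k v hv => by
        have e : (a⁻¹).val - 1 = -((a⁻¹).val * (a.val - 1)) := by
          rw [mul_sub, ← Units.val_mul, inv_mul_cancel, Units.val_one, mul_one, neg_sub]
        rw [e, Matrix.neg_mulVec, ← Matrix.mulVec_mulVec]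
        exact neg_mem (hVg _ (inv_mem ha.1) _ _ (ha.2 k v hv))⟩ }
  have hU : U = ⊥ := by
    refine red U (fun g hg => hg.1) (fun g hg u hu => ⟨mul_mem (mul_mem hg hu.1) (inv_mem hg),
      fun k v hv => ?_⟩) fun u hu => ⟨N, ?_⟩
    · have e : (g * u * g⁻¹).val - 1 = g.val * ((u.val - 1) * (g⁻¹).val) := by
        rw [sub_mul, mul_sub, one_mul, ← Units.val_mul g g⁻¹, mul_inv_cancel, Units.val_one,
          Units.val_mul, Units.val_mul, mul_assoc]
      rw [e, ← Matrix.mulVec_mulVec, ← Matrix.mulVec_mulVec]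
      exact hVg g hg _ _ (hu.2 k _ (hVg _ (inv_mem hg) k v hv))
    · have h1 : ∀ k v, ((u.val - 1) ^ k).mulVec v ∈ V k := fun k v => by
        induction k with
        | zero => rw [hV0]; trivial
        | succ k ih => rw [_root_.pow_succ', ← Matrix.mulVec_mulVec]; exact hu.2 k _ ih
      apply Matrix.toLin'.injective
      refine LinearMap.ext fun v => ?_
      have h2 := h1 N v
      rw [hVN, Submodule.mem_bot] at h2
      rw [Matrix.toLin'_apply, h2, map_zero, LinearMap.zero_apply]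
  obtain ⟨m, hm⟩ := hn
  have hn : IsNilpotent X := ⟨m, hm⟩
  have hm' : X ^ (m + 2) = 0 := by rw [pow_add, hm, zero_mul]
  let W : Matrix n n Ω := ∑ j ∈ range m, ((j + 1 + 1).factorial : ℚ)⁻¹ • X ^ j
  have hW : IsNilpotent.exp X - 1 = X * (1 + X * W) := by
    rw [IsNilpotent.exp_eq_sum hm', sum_range_succ', sum_range_succ']
    simp only [W, mul_add, mul_sum, mul_smul_comm, ← _root_.pow_succ']
    simp [add_comm]
  have hcW : Commute X W :=
    Commute.sum_right _ _ _ fun j _ => ((Commute.refl X).pow_right j).smul_right _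
  have hWV : ∀ k, ∀ v ∈ V k, W.mulVec v ∈ V k := fun k v hv => by
    have h1 : ∀ j, (X ^ j).mulVec v ∈ V k := fun j => by
      induction j with
      | zero => simpa using hv
      | succ j ih =>
        rw [_root_.pow_succ', ← Matrix.mulVec_mulVec]
        exact hVa k (hVr X ⟨hX, h0⟩ k _ ih)
    simp only [W]
    rw [Matrix.sum_mulVec]
    refine Submodule.sum_mem _ fun j _ => ?_
    rw [Matrix.smul_mulVec, ← Rat.cast_smul_eq_qsmul Ω]
    exact Submodule.smul_mem _ _ (h1 j)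
  have hXU : ex X ∈ U := by
    have h1 := ex_smul_mem hX hn 1
    rw [one_smul] at h1
    refine ⟨hc _ h1, fun k v hv => ?_⟩
    rw [ex_val hn, hW, ← Matrix.mulVec_mulVec, Matrix.add_mulVec, Matrix.one_mulVec,
      ← Matrix.mulVec_mulVec]
    exact hVr X ⟨hX, h0⟩ k _ (add_mem hv (hVa k (hVr X ⟨hX, h0⟩ k _ (hWV k v hv))))
  rw [hU, Subgroup.mem_bot] at hXU
  have h2 := congrArg Units.val hXU
  rw [ex_val hn, Units.val_one] at h2
  rw [h2, sub_self] at hW
  have h3 : IsUnit (1 + X * W) := (hcW.isNilpotent_mul_right hn).isUnit_one_add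
  exact (h3.mul_left_eq_zero).mp hW.symm

end Pool.Agent.P.MP_7d29e8_ag
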