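import Pool.Agent.P.MP_7d29e8_ag.HBdd

set_option autoImplicit false

/-! Definitions for the theorem on anisotropic Lie algebras. -/

namespace Pool.Agent.P.MP_7d29e8_ag

open Finset

variable {Ω : Type} [Field Ω]

/-- `x` is the limit of `a` -/
def Lm (v : Ω → ℚ) (a : ℕ → Ω) (x : Ω) : Prop := ∀ C : ℚ, ∃ J, ∀ j, J ≤ j → Ge v C (x - a j)

/-- completeness -/
def Cpl (v : Ω → ℚ) (A : Set Ω) : Prop :=
  ∀ a : ℕ → Ω, (∀ j, a j ∈ A) → (∀ C : ℚ, ∃ J, ∀ j, J ≤ j → Ge v C (a (j + 1) - a j)) →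
    ∃ x ∈ A, Lm v a x

/-- approximate `C₁` property -/
def AC1 (F : Subfield Ω) (v : Ω → ℚ) : Prop :=
  ∀ (N d : ℕ) (D : MvPolynomial (Fin N) F), 0 < d → d < N → D.IsHomogeneous d → ∀ C : ℚ,
    ∃ x : Fin N → F, (∀ i, Ge v 0 (x i : Ω)) ∧ (∃ i, (x i : Ω) ≠ 0 ∧ v (x i) = 0) ∧
      Ge v C (MvPolynomial.eval x D : F)

/-- what is used about the maximal unramified extension -/
structure HF (F : Subfield Ω) (v : Ω → ℚ) (Θ : Subgroup (Ω ≃+* Ω)) : Prop where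
  val : Val v
  fac : ∀ j : ℕ, v (j.factorial : Ω) ≤ j
  unif : ∃ π ∈ F, π ≠ 0 ∧ 0 < v π
  lev : ∀ S : Set Ω, S.Finite → S ⊆ F → ∃ Γ ≤ Θ, (∀ θ ∈ Γ, ∀ a, v (θ a) = v a) ∧
    (∀ a ∈ S, ∀ θ ∈ Γ, θ a = a) ∧ (∀ a, (∀ θ ∈ Γ, θ a = a) → a ∈ F) ∧
    Cpl v {a | ∀ θ ∈ Γ, θ a = a}
  ac1 : AC1 F v

/-- the shift of sequences -/
def shf (Ω : Type) [Field Ω] : Module.End Ω (ℕ → Ω) := LinearMap.funLeft Ω Ω Nat.succ

variable (F : Subfield Ω) (v : Ω → ℚ) {V : Type} [AddCommGroup V] [Module F V]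

/-- growth of rate `C` -/
def Gr (C : ℚ) (x : ℕ → V) : Prop :=
  ∀ l : Module.Dual F V, ∃ c : ℚ, ∀ j : ℕ, Ge v (j * C + c) (l (x j) : F)

/-- null sequences -/
def Sml (x : ℕ → V) : Prop :=
  ∀ (l : Module.Dual F V) (C : ℚ), ∃ J, ∀ j, J ≤ j → Ge v C (l (x j) : F)

/-- sum of a series -/
def HasS (x : ℕ → V) (X : V) : Prop := Sml F v fun j => X - ∑ i ∈ range j, x i

/-- all eigenvalues have valuation at least `C` -/
def EG [FiniteDimensional F V] (C : ℚ) (f : Module.End F V) : Prop :=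
  ∀ a : Ω, (f.charpoly.map F.subtype).IsRoot a → Ge v C a

/-- automorphisms fixing the centre -/
def Au (L : Type) [LieRing L] [LieAlgebra F L] : Submonoid (Module.End F L) where
  carrier := {γ | IsUnit γ ∧ (∀ Y Z, γ ⁅Y, Z⁆ = ⁅γ Y, γ Z⁆) ∧ ∀ z : L, (∀ Y : L, ⁅z, Y⁆ = 0) → γ z = z}
  mul_mem' := fun ⟨a1, a2, a3⟩ ⟨b1, b2, b3⟩ => ⟨a1.mul b1, fun Y Z => by
    simp only [Module.End.mul_apply, b2, a2], fun z hz => by
    simp only [Module.End.mul_apply, b3 z hz, a3 z hz]⟩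
  one_mem' := ⟨isUnit_one, fun _ _ => rfl, fun _ _ => rfl⟩

/-- all inner derivations are semisimple at `0` -/
def SS (L : Type) [LieRing L] : Prop := ∀ X Y : L, ⁅X, ⁅X, Y⁆⁆ = 0 → ⁅X, Y⁆ = 0

lemma pow_fix {s : Ω ≃+* Ω} {a : Ω} {r : ℕ} (h : (s ^ r) a = a) (k : ℕ) : (s ^ (r * k)) a = a := by
  induction k with
  | zero => rfl
  | succ k ih => rw [Nat.mul_succ, pow_add]; exact (congrArg (s ^ (r * k)) h).trans ih

/-- the maximal unramified extension of `ℚ_p` -/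
def FF (K : Type) [Field K] [Algebra K Ω] (s : Ω ≃+* Ω) : Subfield Ω where
  carrier := {a | (∀ τ : Ω ≃ₐ[K] Ω, τ a = a) ∧ ∃ r : ℕ, 0 < r ∧ (s ^ r) a = a}
  mul_mem' := fun ⟨h, r, hr, e⟩ ⟨h', r', hr', e'⟩ => ⟨fun τ => by rw [map_mul, h, h'], r * r',
    mul_pos hr hr', by rw [map_mul, pow_fix e, mul_comm r, pow_fix e']⟩
  one_mem' := ⟨fun τ => map_one τ, 1, one_pos, map_one _⟩
  add_mem' := fun ⟨h, r, hr, e⟩ ⟨h', r', hr', e'⟩ => ⟨fun τ => by rw [map_add, h, h'], r * r',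
    mul_pos hr hr', by rw [map_add, pow_fix e, mul_comm r, pow_fix e']⟩
  zero_mem' := ⟨fun τ => map_zero τ, 1, one_pos, map_zero _⟩
  neg_mem' := fun ⟨h, r, hr, e⟩ => ⟨fun τ => by rw [map_neg, h], r, hr, by rw [map_neg, e]⟩
  inv_mem' := fun _ ⟨h, r, hr, e⟩ => ⟨fun τ => by rw [map_inv₀, h], r, hr, by rw [map_inv₀, e]⟩

end Pool.Agent.P.MP_7d29e8_ag
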