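import Pool.Agent.P.MP_7d29e8_ag.FD0

set_option autoImplicit false
set_option linter.unusedSectionVars false
set_option linter.unusedVariables false

/-! Linear recurrences and valuations. -/

namespace Pool.Agent.P.MP_7d29e8_ag

open Finset Polynomial
open scoped Classical

variable {Ω : Type} [Field Ω] [CharZero Ω] [IsAlgClosed Ω] {v : Ω → ℚ}

lemma ge_all {a : Ω} {ε c : ℚ} (hε : 0 < ε) (h : ∀ j : ℕ, Ge v (j * ε + c) a) : a = 0 := by
  by_contra ha
  obtain ⟨j, hj⟩ := exists_nat_gt ((v a - c) / ε)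
  have h1 := (h j).resolve_left ha
  rw [div_lt_iff₀ hε] at hj
  linarith

lemma Ge.neg (hv : Val v) {C : ℚ} {a : Ω} (h : Ge v C a) : Ge v C (-a) := by
  rcases h with h | h
  · exact Or.inl (by simp [h])
  · exact Or.inr (by rw [mulv_neg hv.mul]; exact h)

lemma Ge.sub (hv : Val v) {C : ℚ} {a b : Ω} (ha : Ge v C a) (hb : Ge v C b) : Ge v C (a - b) := by
  rw [sub_eq_add_neg]
  exact ha.add hv (hb.neg hv)

lemma Ge.sum (hv : Val v) {α : Type} {s : Finset α} {f : α → Ω} {C : ℚ}
    (h : ∀ a ∈ s, Ge v C (f a)) : Ge v C (∑ a ∈ s, f a) := by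
  induction s using Finset.induction_on with
  | empty => exact Or.inl (by simp)
  | insert a s ha ih =>
    rw [sum_insert ha]
    exact (h a (mem_insert_self _ _)).add hv (ih fun b hb => h b (mem_insert_of_mem hb))

lemma Ge.nat (hv : Val v) (m : ℕ) : Ge v 0 (m : Ω) := by
  induction m with
  | zero => exact Or.inl (by simp)
  | succ m ih =>
    rw [Nat.cast_succ]
    exact ih.add hv (Or.inr (by rw [mulv_one hv.mul]))

lemma split_FD1 {Q : Polynomial Ω} (hQ : Q.Monic) {m : ℕ} (hm : Q.natDegree = m + 1) {a : ℕ → Ω}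
    (ha : aeval (shf Ω) Q a = 0) :
    ∃ (r : Ω) (Q' : Polynomial Ω), Q.IsRoot r ∧ Q'.Monic ∧ Q'.natDegree = m ∧
      (∀ x, Q'.IsRoot x → Q.IsRoot x) ∧
      aeval (shf Ω) Q' (fun j => a (j + 1) - r * a j) = 0 := by
  have hd : Q.degree ≠ 0 := by
    intro h
    rw [natDegree_eq_zero_iff_degree_le_zero.mpr h.le] at hm
    omega
  obtain ⟨r, hr⟩ := IsAlgClosed.exists_root Q hd
  obtain ⟨Q', hQ'⟩ := dvd_iff_isRoot.mpr hr
  have hm' : Q'.Monic := by
    have := hQ
    rw [hQ'] at this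
    exact (monic_X_sub_C r).of_mul_monic_left this
  refine ⟨r, Q', hr, hm', ?_, ?_, ?_⟩
  · have := (monic_X_sub_C r).natDegree_mul hm'
    rw [← hQ', hm, natDegree_X_sub_C] at this
    omega
  · intro x hx
    rw [hQ']
    simp [IsRoot.def.mp hx]
  · rw [hQ', mul_comm, map_mul, Module.End.mul_apply] at ha
    convert ha using 2
    ext j
    simp [shf, Module.algebraMap_end_apply]

lemma zero_FD1 {Q : Polynomial Ω} (hQ : Q.Monic) (hm : Q.natDegree = 0) {a : ℕ → Ω}
    (ha : aeval (shf Ω) Q a = 0) : a = 0 := by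
  rw [hQ.natDegree_eq_zero.mp hm] at ha
  simpa using ha

theorem seq_up (hv : Val v) {Q : Polynomial Ω} (hQ : Q.Monic) {R : ℚ} (hR : 0 ≤ R)
    (hr : ∀ a, Q.IsRoot a → Ge v R a) {a : ℕ → Ω} (ha : aeval (shf Ω) Q a = 0) {μ : ℚ}
    (h0 : ∀ j < Q.natDegree, Ge v μ (a j)) (j : ℕ) :
    Ge v (μ + ((j + 1 - Q.natDegree : ℕ) : ℚ) * R) (a j) := by
  obtain ⟨m, hm⟩ : ∃ m, Q.natDegree = m := ⟨_, rfl⟩
  rw [hm] at h0 ⊢
  induction m generalizing Q a j with
  | zero => exact Or.inl (by rw [zero_FD1 hQ hm ha]; rfl)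
  | succ m ih =>
    obtain ⟨r, Q', h1, h2, h3, h4, h5⟩ := split_FD1 hQ hm ha
    have hb := fun j => ih h2 (fun x hx => hr x (h4 x hx)) h5 j (fun i hi =>
      (h0 (i + 1) (by omega)).sub hv
        (((hr r h1).mul hv (h0 i (by omega))).mono (by linarith))) h3
    induction j with
    | zero => simpa using h0 0 (by omega)
    | succ j ihj =>
      have e : a (j + 1) = (a (j + 1) - r * a j) + r * a j := by ring
      rw [e]
      refine Ge.add hv ?_ (((hr r h1).mul hv ihj).mono ?_)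
      · have := hb j
        rwa [show j + 1 - m = j + 1 + 1 - (m + 1) by omega] at this
      · have h6 : ((j + 1 + 1 - (m + 1) : ℕ) : ℚ) ≤ ((j + 1 - (m + 1) : ℕ) : ℚ) + 1 := by
          exact_mod_cast (by omega : j + 1 + 1 - (m + 1) ≤ j + 1 - (m + 1) + 1)
        nlinarith

theorem seq_down (hv : Val v) {Q : Polynomial Ω} (hQ : Q.Monic) {R : ℚ}
    (hr : ∀ a, Q.IsRoot a → a ≠ 0 ∧ v a < R) {a : ℕ → Ω} (ha : aeval (shf Ω) Q a = 0) {c : ℚ}
    (h : ∀ j : ℕ, Ge v (j * R + c) (a j)) : a = 0 := by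
  obtain ⟨m, hm⟩ : ∃ m, Q.natDegree = m := ⟨_, rfl⟩
  induction m generalizing Q a c with
  | zero => exact zero_FD1 hQ hm ha
  | succ m ih =>
    obtain ⟨r, Q', h1, h2, h3, h4, h5⟩ := split_FD1 hQ hm ha
    obtain ⟨hr0, hrR⟩ := hr r h1
    have hb := ih h2 (fun x hx => hr x (h4 x hx)) h5 (c := min (R + c) (v r + c)) (fun j =>
      ((h (j + 1)).mono (by push_cast; linarith [min_le_left (R + c) (v r + c)])).sub hv
        (((Ge.self r).mul hv (h j)).mono (by linarith [min_le_right (R + c) (v r + c)]))) h3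
    have hp : ∀ j, a j = r ^ j * a 0 := by
      intro j
      induction j with
      | zero => simp
      | succ j ihj =>
        have := congrFun hb j
        simp only [Pi.zero_apply] at this
        rw [sub_eq_zero.mp this, ihj]; ring
    have h00 : a 0 = 0 := by
      by_contra h0
      refine h0 (ge_all (v := v) (ε := R - v r) (c := c) (by linarith) fun j => Or.inr ?_)
      have := (h j).resolve_left (by rw [hp j]; exact mul_ne_zero (pow_ne_zero _ hr0) h0)
      rw [hp j, hv.mul _ _ (pow_ne_zero _ hr0) h0, mulv_pow hv.mul hr0] at this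
      linarith
    ext j
    rw [hp j, h00]; simp

theorem interp (hv : Val v) (hf : ∀ j : ℕ, v (j.factorial : Ω) ≤ j) (m : ℕ) :
    ∃ R c : ℚ, 2 ≤ R ∧ ∀ Q : Polynomial Ω, Q.Monic → Q.natDegree = m → (∀ a, Q.IsRoot a → Ge v R a) →
      ∀ u : ℕ → Ω, aeval (shf Ω) Q u = 0 → ∀ C : ℚ,
      (∀ s < m, ∃ w, Ge v C w ∧
        Lm v (fun j => ∑ i ∈ range j, (s : Ω) ^ i / (i.factorial : Ω) * u i) w) →
      ∀ j, Ge v (C - c) (u j) := by
  set V : Matrix (Fin m) (Fin m) Ω := Matrix.vandermonde fun s : Fin m => ((s : ℕ) : Ω) with hV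
  have hdet : IsUnit V.det := by
    rw [isUnit_iff_ne_zero, hV, Matrix.det_vandermonde_ne_zero_iff]
    intro s t hst
    exact Fin.ext (Nat.cast_injective hst)
  obtain ⟨c1, hc1⟩ := Finite.exists_le (fun q : Fin m × Fin m => -v (V⁻¹ q.1 q.2))
  set c0 : ℚ := max c1 0 with hc0
  have hc00 : 0 ≤ c0 := le_max_right _ _
  have hW : ∀ i s, Ge v (-c0) (V⁻¹ i s) := fun i s =>
    Or.inr (by have := hc1 (i, s); have := le_max_left c1 0; simp only at *; linarith)
  have hm0 : (0 : ℚ) ≤ m := Nat.cast_nonneg m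
  refine ⟨m + c0 + 2, c0, by linarith, fun Q hQ hm hr u hu C hw => ?_⟩
  have hfne : ∀ i : ℕ, (i.factorial : Ω) ≠ 0 := fun i =>
    Nat.cast_ne_zero.mpr (Nat.factorial_ne_zero i)
  have step : ∀ μ : ℚ, (∀ j < m, Ge v μ (u j)) → ∀ j < m, Ge v (min (C - c0) (μ + 2)) (u j) := by
    intro μ hμ
    have hup := seq_up hv hQ (by linarith) hr hu (μ := μ) (by rw [hm]; exact hμ)
    rw [hm] at hup
    set D : ℚ := min C (μ + c0 + 2) with hD
    have hy : ∀ s : Fin m, Ge v D
        (∑ i ∈ range m, ((s : ℕ) : Ω) ^ i / (i.factorial : Ω) * u i) := by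
      intro s
      obtain ⟨w, hw1, hw2⟩ := hw s s.2
      obtain ⟨J, hJ⟩ := hw2 D
      have h1 := hJ (max J m) (le_max_left _ _)
      have h2 : Ge v D
          (∑ i ∈ Ico m (max J m), ((s : ℕ) : Ω) ^ i / (i.factorial : Ω) * u i) := by
        refine Ge.sum hv fun i hi => ?_
        have hi' : m ≤ i := (mem_Ico.mp hi).1
        have h3 : Ge v 0 (((s : ℕ) : Ω) ^ i) := by
          have := Ge.nat hv ((s : ℕ) ^ i)
          rwa [Nat.cast_pow] at this
        have h4 : Ge v (-(i : ℚ)) ((i.factorial : Ω)⁻¹) :=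
          Or.inr (by rw [mulv_inv hv.mul (hfne i)]; linarith [hf i])
        rw [div_eq_mul_inv]
        refine ((h3.mul hv h4).mul hv (hup i)).mono ?_
        have h5 : ((i + 1 - m : ℕ) : ℚ) = i + 1 - m := by
          rw [Nat.cast_sub (by omega)]; push_cast; ring
        have h6 : (m : ℚ) ≤ i := by exact_mod_cast hi'
        rw [h5]
        have h7 : D ≤ μ + c0 + 2 := min_le_right _ _
        nlinarith [mul_nonneg (sub_nonneg.mpr h6) (by linarith : (0 : ℚ) ≤ m + c0 + 1)]
      have h3 := ((hw1.mono (min_le_left C (μ + c0 + 2))).sub hv h1).sub hv h2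
      convert h3 using 1
      simp only
      rw [← sum_range_add_sum_Ico _ (le_max_right J m)]
      ring
    intro j hj
    set x : Fin m → Ω := fun i => u i / ((i : ℕ).factorial : Ω) with hx
    have hVx : ∀ s, Ge v D (V.mulVec x s) := by
      intro s
      convert hy s using 1
      rw [← Fin.sum_univ_eq_sum_range
        (fun i => ((s : ℕ) : Ω) ^ i / (i.factorial : Ω) * u i)]
      simp only [Matrix.mulVec, dotProduct, hV, Matrix.vandermonde_apply, hx]
      refine sum_congr rfl fun i _ => ?_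
      ring
    have hxe : x = V⁻¹.mulVec (V.mulVec x) := by
      rw [Matrix.mulVec_mulVec, Matrix.nonsing_inv_mul _ hdet, Matrix.one_mulVec]
    have hxj : Ge v (-c0 + D) (x ⟨j, hj⟩) := by
      rw [hxe]
      exact Ge.sum hv (s := univ) (f := fun s => V⁻¹ ⟨j, hj⟩ s * V.mulVec x s)
        fun s _ => (hW _ s).mul hv (hVx s)
    have e : u j = (j.factorial : Ω) * x ⟨j, hj⟩ := by
      simp only [hx]
      rw [mul_div_cancel₀ _ (hfne j)]
    rw [e]
    refine ((Ge.nat hv _).mul hv hxj).mono ?_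
    rcases le_total C (μ + c0 + 2) with h | h
    · rw [hD, min_eq_left h]; linarith [min_le_left (C - c0) (μ + 2)]
    · rw [hD, min_eq_right h]; linarith [min_le_right (C - c0) (μ + 2)]
  have low : ∀ j < m, Ge v (C - c0) (u j) := by
    by_cases hne : ((range m).filter fun j => u j ≠ 0).Nonempty
    · obtain ⟨j0, hj0, hmin⟩ := exists_min_image _ (fun j => v (u j)) hne
      have hall : ∀ j < m, Ge v (v (u j0)) (u j) := by
        intro j hj
        by_cases h : u j = 0
        · exact Or.inl h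
        · exact Or.inr (hmin j (mem_filter.mpr ⟨mem_range.mpr hj, h⟩))
      have h1 := (step _ hall j0 (mem_range.mp (mem_filter.mp hj0).1)).resolve_left
        (mem_filter.mp hj0).2
      have h2 : C - c0 ≤ v (u j0) := by
        rcases min_le_iff.mp h1 with h | h
        · exact h
        · linarith
      exact fun j hj => (hall j hj).mono h2
    · intro j hj
      by_contra h
      exact hne ⟨j, mem_filter.mpr ⟨mem_range.mpr hj, fun h0 => h (Or.inl h0)⟩⟩
  intro j
  refine (seq_up hv hQ (by linarith) hr hu (μ := C - c0) (by rw [hm]; exact low) j).mono ?_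
  have : (0 : ℚ) ≤ ((j + 1 - Q.natDegree : ℕ) : ℚ) * (m + c0 + 2) :=
    mul_nonneg (Nat.cast_nonneg _) (by linarith)
  linarith

end Pool.Agent.P.MP_7d29e8_ag
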