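import Pool.Agent.P.MP_7d29e8_ag.FD1

set_option autoImplicit false
set_option linter.unusedSectionVars false
set_option linter.unusedVariables false

/-! Growth of sequences of vectors, and series. -/

namespace Pool.Agent.P.MP_7d29e8_ag

open Finset Polynomial
open scoped Classical

variable {Ω : Type} [Field Ω] [CharZero Ω] [IsAlgClosed Ω] {F : Subfield Ω} {v : Ω → ℚ}
  {Θ : Subgroup (Ω ≃+* Ω)} {V W U : Type} [AddCommGroup V] [Module F V] [FiniteDimensional F V]
  [AddCommGroup W] [Module F W] [FiniteDimensional F W] [AddCommGroup U] [Module F U]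

lemma Gr.map {C : ℚ} {x : ℕ → V} (h : Gr F v C x) (f : V →ₗ[F] U) :
    Gr F v C fun j => f (x j) := fun l => h (l ∘ₗ f)

lemma Sml.map {x : ℕ → V} (h : Sml F v x) (f : V →ₗ[F] U) : Sml F v fun j => f (x j) :=
  fun l => h (l ∘ₗ f)

lemma HasS.map {x : ℕ → V} {X : V} (h : HasS F v x X) (f : V →ₗ[F] U) :
    HasS F v (fun j => f (x j)) (f X) := by
  have := Sml.map h f
  simpa only [HasS, map_sub, map_sum] using this

lemma Gr.add (hv : Val v) {C : ℚ} {x y : ℕ → U} (h : Gr F v C x) (h' : Gr F v C y) :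
    Gr F v C fun j => x j + y j := fun l => by
  obtain ⟨c, hc⟩ := h l
  obtain ⟨c', hc'⟩ := h' l
  refine ⟨min c c', fun j => ?_⟩
  simp only [map_add, Subfield.coe_add]
  exact ((hc j).mono (by linarith [min_le_left c c'])).add hv
    ((hc' j).mono (by linarith [min_le_right c c']))

lemma Gr.scale (hv : Val v) {C C' : ℚ} {x : ℕ → U} (h : Gr F v C x) {a : ℕ → F} {c : ℚ}
    (ha : ∀ j : ℕ, Ge v (j * C' + c) (a j : Ω)) : Gr F v (C + C') fun j => a j • x j := fun l => by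
  obtain ⟨c', hc'⟩ := h l
  refine ⟨c + c', fun j => ?_⟩
  simp only [map_smul, smul_eq_mul, Subfield.coe_mul]
  exact ((ha j).mul hv (hc' j)).mono (le_of_eq (by ring))

lemma low_FD2 {ι : Type} [Finite ι] (c : ι → ℚ) : ∃ m, ∀ i, m ≤ c i := by
  obtain ⟨m, hm⟩ := Finite.exists_le fun i => -c i
  exact ⟨-m, fun i => by linarith [hm i]⟩

lemma key_FD2 (hv : Val v) (β : V →ₗ[F] W →ₗ[F] U) (l : Module.Dual F U) :
    ∃ c : ℚ, ∀ (A B : ℚ) (x : V) (y : W),
      (∀ i, Ge v A ((Module.finBasis F V).coord i x : F)) →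
      (∀ k, Ge v B ((Module.finBasis F W).coord k y : F)) → Ge v (A + B + c) (l (β x y) : F) := by
  set b := Module.finBasis F V
  set b' := Module.finBasis F W
  obtain ⟨m, hm⟩ := low_FD2 fun q : Fin (Module.finrank F V) × Fin (Module.finrank F W) =>
    v (l (β (b q.1) (b' q.2)) : F)
  refine ⟨m, fun A B x y hx hy => ?_⟩
  have e : l (β x y) = ∑ i, ∑ k, b.coord i x * b'.coord k y * l (β (b i) (b' k)) := by
    conv_lhs => rw [← b.sum_repr x, ← b'.sum_repr y]
    simp only [map_sum, map_smul, LinearMap.sum_apply, LinearMap.smul_apply, smul_eq_mul,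
      Module.Basis.coord_apply, Finset.mul_sum]
    rw [Finset.sum_comm]
    exact sum_congr rfl fun i _ => sum_congr rfl fun k _ => by ring
  rw [e]
  push_cast
  refine Ge.sum hv fun i _ => Ge.sum hv fun k _ => ?_
  exact ((hx i).mul hv (hy k)).mul hv ((Ge.self _).mono (hm (i, k)))

lemma unif_FD2 {C : ℚ} {x : ℕ → V} (h : Gr F v C x) :
    ∃ c : ℚ, ∀ (j : ℕ) i, Ge v (j * C + c) ((Module.finBasis F V).coord i (x j) : F) := by
  choose c hc using fun i => h ((Module.finBasis F V).coord i)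
  obtain ⟨m, hm⟩ := low_FD2 c
  exact ⟨m, fun j i => (hc i j).mono (by linarith [hm i])⟩

lemma sml_bil_FD2 (hv : Val v) (β : V →ₗ[F] W →ₗ[F] U) {x : ℕ → V} {y : ℕ → W}
    (h : Sml F v x) (h' : Gr F v 0 y) : Sml F v fun j => β (x j) (y j) := fun l C => by
  obtain ⟨c, hc⟩ := key_FD2 hv β l
  obtain ⟨c', hc'⟩ := unif_FD2 h'
  choose J hJ using fun i => h ((Module.finBasis F V).coord i) (C - c' - c)
  obtain ⟨M, hM⟩ := Finite.exists_le J
  refine ⟨M, fun j hj => ?_⟩
  exact (hc _ _ _ _ (fun i => hJ i j ((hM i).trans hj)) (hc' j)).mono (le_of_eq (by ring))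

/-- uniform bound for bilinear maps -/
lemma bil_bd (hv : Val v) (β : V →ₗ[F] W →ₗ[F] U) {C C' : ℚ} {x : ℕ → V} {y : ℕ → W}
    (h : Gr F v C x) (h' : Gr F v C' y) (l : Module.Dual F U) :
    ∃ c : ℚ, ∀ a b : ℕ, Ge v (a * C + b * C' + c) (l (β (x a) (y b)) : F) := by
  obtain ⟨c, hc⟩ := key_FD2 hv β l
  obtain ⟨c1, h1⟩ := unif_FD2 h
  obtain ⟨c2, h2⟩ := unif_FD2 h'
  exact ⟨c1 + c2 + c, fun a b => (hc _ _ _ _ (h1 a) (h2 b)).mono (le_of_eq (by ring))⟩

lemma Gr.bil (hv : Val v) (β : V →ₗ[F] W →ₗ[F] U) {C C' : ℚ} {x : ℕ → V} {y : ℕ → W}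
    (h : Gr F v C x) (h' : Gr F v C' y) : Gr F v (C + C') fun j => β (x j) (y j) := fun l => by
  obtain ⟨c, hc⟩ := bil_bd hv β h h' l
  exact ⟨c, fun j => (hc j j).mono (le_of_eq (by ring))⟩

lemma Gr.const {ε : ℚ} (hε : 0 < ε) {u : U} (h : Gr F v ε fun _ => u) : u = 0 := by
  refine (Module.forall_dual_apply_eq_zero_iff F u).mp fun l => ?_
  obtain ⟨c, hc⟩ := h l
  exact Subtype.ext (ge_all hε hc)

lemma HasS.unique (hv : Val v) {x : ℕ → U} {X Y : U} (h : HasS F v x X) (h' : HasS F v x Y) :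
    X = Y := by
  rw [← sub_eq_zero]
  refine (Module.forall_dual_apply_eq_zero_iff F _).mp fun l => ?_
  refine Subtype.ext (ge_all (v := v) (c := 0) one_pos fun j => ?_)
  obtain ⟨J, hJ⟩ := h l (j * 1 + 0)
  obtain ⟨J', hJ'⟩ := h' l (j * 1 + 0)
  have := (hJ _ (le_max_left J J')).sub hv (hJ' _ (le_max_right J J'))
  convert this using 1
  rw [← Subfield.coe_sub, ← map_sub, sub_sub_sub_cancel_right]

lemma hasS_single (u : U) : HasS F v (fun j => if j = 0 then u else 0) u := fun l C =>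
  ⟨1, fun j hj => Or.inl (by
    have : (0 : ℕ) ∈ range j := mem_range.mpr hj
    simp [sum_ite_eq', this])⟩

lemma gr_sum_FD2 (hv : Val v) {x : ℕ → V} (gx : Gr F v 1 x) :
    Gr F v 0 fun j => ∑ i ∈ range j, x i := fun l => by
  obtain ⟨c, hc⟩ := gx l
  refine ⟨c, fun j => ?_⟩
  simp only [map_sum]
  push_cast
  exact Ge.sum hv fun i _ => (hc i).mono (by have : (0 : ℚ) ≤ i := Nat.cast_nonneg i; linarith)

lemma tri_FD2 (g : ℕ × ℕ → U) (j : ℕ) :
    ∑ k ∈ range j, ∑ q ∈ antidiagonal k, g q =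
      ∑ q ∈ (range j ×ˢ range j).filter fun q => q.1 + q.2 < j, g q := by
  rw [← sum_fiberwise_of_maps_to (s := (range j ×ˢ range j).filter fun q => q.1 + q.2 < j)
    (t := range j) (g := fun q => q.1 + q.2) fun q hq => mem_range.mpr (mem_filter.mp hq).2]
  refine sum_congr rfl fun k hk => sum_congr ?_ fun _ _ => rfl
  have := mem_range.mp hk
  ext q
  simp only [HasAntidiagonal.mem_antidiagonal, mem_filter, mem_product, mem_range]
  omega

theorem HasS.cauchy (hv : Val v) (β : V →ₗ[F] W →ₗ[F] U) {x : ℕ → V} {y : ℕ → W} {X : V} {Y : W}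
    (gx : Gr F v 1 x) (gy : Gr F v 1 y) (h : HasS F v x X) (h' : HasS F v y Y) :
    HasS F v (fun k => ∑ q ∈ antidiagonal k, β (x q.1) (y q.2)) (β X Y) := fun l C => by
  have gY : Gr F v 0 fun _ : ℕ => Y := fun l => ⟨v (l Y : F), fun j => (Ge.self _).mono (by simp)⟩
  obtain ⟨J1, h1⟩ := sml_bil_FD2 hv β h gY l C
  obtain ⟨J2, h2⟩ := sml_bil_FD2 hv β.flip h' (gr_sum_FD2 hv gx) l C
  obtain ⟨c, hc⟩ := bil_bd hv β gx gy l
  obtain ⟨J3, h3⟩ := exists_nat_ge (C - c)
  refine ⟨max J1 (max J2 J3), fun j hj => ?_⟩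
  have e : β X Y - ∑ k ∈ range j, ∑ q ∈ antidiagonal k, β (x q.1) (y q.2) =
      β (X - ∑ i ∈ range j, x i) Y + β.flip (Y - ∑ i ∈ range j, y i) (∑ i ∈ range j, x i) +
        ∑ q ∈ (range j ×ˢ range j).filter fun q => ¬ q.1 + q.2 < j, β (x q.1) (y q.2) := by
    have e2 : β (∑ i ∈ range j, x i) (∑ i ∈ range j, y i) =
        ∑ q ∈ range j ×ˢ range j, β (x q.1) (y q.2) := by
      rw [sum_product, map_sum β, LinearMap.sum_apply]
      exact sum_congr rfl fun a _ => map_sum _ _ _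
    rw [tri_FD2 (fun q => β (x q.1) (y q.2)), LinearMap.flip_apply, map_sub β, map_sub (β _),
      LinearMap.sub_apply, e2,
      ← sum_filter_add_sum_filter_not (range j ×ˢ range j) (fun q => q.1 + q.2 < j)]
    abel
  simp only [e, map_add, Subfield.coe_add]
  refine ((h1 j (le_of_max_le_left hj)).add hv
    (h2 j (le_of_max_le_left (le_of_max_le_right hj)))).add hv ?_
  rw [map_sum]
  push_cast
  refine Ge.sum hv fun q hq => (hc q.1 q.2).mono ?_
  have h4 : J3 ≤ q.1 + q.2 := (le_of_max_le_right (le_of_max_le_right hj)).trans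
    (not_lt.mp (mem_filter.mp hq).2)
  have h5 : (J3 : ℚ) ≤ q.1 + q.2 := by exact_mod_cast h4
  linarith

lemma shf_pow_FD2 (k : ℕ) (a : ℕ → Ω) (j : ℕ) : ((shf Ω ^ k) a) j = a (j + k) := by
  induction k generalizing a with
  | zero => rfl
  | succ k ih => rw [pow_succ, Module.End.mul_apply, ih]; rfl

lemma link_FD2 (f : Module.End F V) (Q : F[X]) (x : V) (l : Module.Dual F V) (j : ℕ) :
    aeval (shf Ω) (Q.map F.subtype) (fun j => (l ((f ^ j) x) : Ω)) j =
      (l ((f ^ j) (aeval f Q x)) : Ω) := by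
  induction Q using Polynomial.induction_on' with
  | add p q hp hq =>
    simp only [Polynomial.map_add, map_add, LinearMap.add_apply, Pi.add_apply, hp, hq,
      Subfield.coe_add]
  | monomial k a =>
    simp only [Polynomial.map_monomial, aeval_monomial, Module.End.mul_apply,
      Module.algebraMap_end_apply, Pi.smul_apply, shf_pow_FD2, map_smul, smul_eq_mul,
      Subfield.coe_mul, pow_add]
    rfl

lemma seq_link {f : Module.End F V} {Q : F[X]} {x : V} (h : aeval f Q x = 0)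
    (l : Module.Dual F V) :
    aeval (shf Ω) (Q.map F.subtype) (fun j => (l ((f ^ j) x) : Ω)) = 0 := by
  funext j
  rw [link_FD2, h]
  simp

lemma gr_of_root (hv : Val v) {f : Module.End F V} {Q : F[X]} (hQ : Q.Monic) {R : ℚ} (hR : 0 ≤ R)
    (hr : ∀ a, (Q.map F.subtype).IsRoot a → Ge v R a) {x : V} (h : aeval f Q x = 0) :
    Gr F v R fun j => (f ^ j) x := fun l => by
  set d := (Q.map F.subtype).natDegree
  obtain ⟨m, hm⟩ := low_FD2 fun i : Fin d => v (l ((f ^ (i : ℕ)) x) : F)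
  refine ⟨m - d * R, fun j => ?_⟩
  refine (seq_up hv (hQ.map _) hR hr (seq_link h l) (μ := m)
    (fun i hi => (Ge.self _).mono (hm ⟨i, hi⟩)) j).mono ?_
  have h1 : j ≤ (j + 1 - d) + d := by omega
  have h2 : (j : ℚ) ≤ ((j + 1 - d : ℕ) : ℚ) + d := by exact_mod_cast h1
  nlinarith [mul_le_mul_of_nonneg_right h2 hR]

lemma zero_of_gr (hv : Val v) {f : Module.End F V} {Q : F[X]} (hQ : Q.Monic) {R : ℚ}
    (hr : ∀ a, (Q.map F.subtype).IsRoot a → a ≠ 0 ∧ v a < R) {x : V} (h : aeval f Q x = 0)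
    (hg : Gr F v R fun j => (f ^ j) x) : x = 0 := by
  refine (Module.forall_dual_apply_eq_zero_iff F x).mp fun l => ?_
  obtain ⟨c, hc⟩ := hg l
  have := congrFun (seq_down hv (hQ.map _) hr (seq_link h l) hc) 0
  exact Subtype.ext (by simpa using this)

end Pool.Agent.P.MP_7d29e8_ag
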