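import Pool.Agent.P.MP_7d29e8_ag.FD2
import Pool.Agent.P.MP_7d29e8_ag.FA3

set_option autoImplicit false
set_option linter.unusedSectionVars false
set_option linter.unusedVariables false

/-! Slopes of an endomorphism. -/

namespace Pool.Agent.P.MP_7d29e8_ag

open Finset Polynomial
open scoped Classical

variable {Ω : Type} [Field Ω] [CharZero Ω] [IsAlgClosed Ω] {F : Subfield Ω} {v : Ω → ℚ}
  {Θ : Subgroup (Ω ≃+* Ω)} {V W U : Type} [AddCommGroup V] [Module F V] [FiniteDimensional F V]
  [AddCommGroup W] [Module F W] [FiniteDimensional F W] [AddCommGroup U] [Module F U]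

lemma root_iff_FD3 {n : Type} [Fintype n] [DecidableEq n] (M : Matrix n n Ω) (a : Ω) :
    M.charpoly.IsRoot a ↔ ∃ u : n → Ω, u ≠ 0 ∧ M.mulVec u = a • u := by
  rw [IsRoot.def, Matrix.eval_charpoly, ← Matrix.exists_mulVec_eq_zero_iff]
  refine exists_congr fun u => and_congr_right fun _ => ?_
  rw [Matrix.sub_mulVec, sub_eq_zero, eq_comm]
  have : (Matrix.scalar n a).mulVec u = a • u := by
    ext i; simp [Matrix.scalar_apply, Matrix.mulVec_diagonal]
  rw [this]

lemma cp_FD3 (f : Module.End F V) :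
    f.charpoly.map F.subtype =
      ((LinearMap.toMatrix (Module.finBasis F V) (Module.finBasis F V) f).map F.subtype).charpoly := by
  rw [Matrix.charpoly_map, LinearMap.charpoly_toMatrix]

lemma aeval_eig_FD3 {n : Type} [Fintype n] [DecidableEq n] {M : Matrix n n Ω} {a : Ω} {u : n → Ω}
    (h : M.mulVec u = a • u) (Q : Polynomial Ω) : (aeval M Q).mulVec u = Q.eval a • u := by
  have hp : ∀ k : ℕ, (M ^ k).mulVec u = a ^ k • u := by
    intro k
    induction k with
    | zero => simp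
    | succ k ih => rw [pow_succ, ← Matrix.mulVec_mulVec, h, Matrix.mulVec_smul, ih, smul_smul,
        pow_succ']
  induction Q using Polynomial.induction_on' with
  | add p q hp' hq => rw [map_add, Matrix.add_mulVec, hp', hq, eval_add, add_smul]
  | monomial k c =>
    rw [aeval_monomial, ← Algebra.smul_def, Matrix.smul_mulVec, hp, eval_monomial, smul_smul]

theorem slope (H : HF F v Θ) (f : Module.End F V) {a : Ω} (h0 : a ≠ 0)
    (ha : (f.charpoly.map F.subtype).IsRoot a) : ∃ Q : F[X], Q.Monic ∧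
      (∀ b, (Q.map F.subtype).IsRoot b → b ≠ 0 ∧ v b = v a) ∧ ∃ w : V, w ≠ 0 ∧ aeval f Q w = 0 := by
  set P : Polynomial Ω := f.charpoly.map F.subtype with hP
  have hPm : P.Monic := f.charpoly_monic.map _
  obtain ⟨Γ, -, hv, hS, hF, -⟩ := H.lev (↑(P.support.image P.coeff) : Set Ω) (Finset.finite_toSet _)
    (by
      intro x hx
      simp only [coe_image, Set.mem_image] at hx
      obtain ⟨i, -, rfl⟩ := hx
      rw [hP, coeff_map]; exact (f.charpoly.coeff i).2)
  have hfix : ∀ θ ∈ Γ, P.map (θ : Ω →+* Ω) = P := by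
    intro θ hθ
    ext i
    rw [coeff_map]
    by_cases hi : P.coeff i = 0
    · simp [hi]
    · exact hS _ (by simp only [coe_image, Set.mem_image]; exact ⟨i, by simpa using hi, rfl⟩) θ hθ
  have hroot : ∀ θ ∈ Γ, P.IsRoot (θ a) := by
    intro θ hθ
    have := ha.map (f := (θ : Ω →+* Ω))
    rw [hfix θ hθ] at this
    exact this
  set O : Finset Ω := P.roots.toFinset.filter (fun μ => ∃ θ ∈ Γ, θ a = μ) with hO
  have hmem : ∀ μ, μ ∈ O ↔ ∃ θ ∈ Γ, θ a = μ := by
    intro μ
    simp only [hO, mem_filter, Multiset.mem_toFinset, mem_roots hPm.ne_zero]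
    exact ⟨fun h => h.2, fun ⟨θ, hθ, e⟩ => ⟨e ▸ hroot θ hθ, θ, hθ, e⟩⟩
  set Q0 : Polynomial Ω := ∏ μ ∈ O, (X - C μ) with hQ0
  have hQm : Q0.Monic := monic_prod_of_monic _ _ fun μ _ => monic_X_sub_C μ
  have hQfix : ∀ θ ∈ Γ, Q0.map (θ : Ω →+* Ω) = Q0 := by
    intro θ hθ
    rw [hQ0, Polynomial.map_prod]
    refine Finset.prod_nbij' (fun μ => θ μ) (fun μ => θ.symm μ) ?_ ?_ ?_ ?_ ?_
    · intro μ hμ
      obtain ⟨η, hη, rfl⟩ := (hmem μ).1 hμ
      exact (hmem _).2 ⟨θ * η, Γ.mul_mem hθ hη, rfl⟩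
    · intro μ hμ
      obtain ⟨η, hη, rfl⟩ := (hmem μ).1 hμ
      exact (hmem _).2 ⟨θ⁻¹ * η, Γ.mul_mem (Γ.inv_mem hθ) hη, rfl⟩
    · intro μ _; simp
    · intro μ _; simp
    · intro μ _; simp
  have hl : Q0 ∈ lifts F.subtype := by
    rw [lifts_iff_coeff_lifts]
    intro i
    refine ⟨⟨Q0.coeff i, hF _ fun θ hθ => ?_⟩, rfl⟩
    have := congrArg (fun p => p.coeff i) (hQfix θ hθ)
    simpa [coeff_map] using this
  obtain ⟨Q, hQ, -, hQmon⟩ := lifts_and_natDegree_eq_and_monic hl hQm
  have hrt : ∀ b, Q0.IsRoot b ↔ b ∈ O := by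
    intro b
    rw [IsRoot.def, hQ0, eval_prod, Finset.prod_eq_zero_iff]
    simp [sub_eq_zero]
  refine ⟨Q, hQmon, ?_, ?_⟩
  · intro b hb
    rw [hQ] at hb
    obtain ⟨θ, hθ, rfl⟩ := (hmem b).1 ((hrt b).1 hb)
    exact ⟨by simpa using h0, hv θ hθ a⟩
  · set b := Module.finBasis F V
    set A := LinearMap.toMatrix b b f with hA
    have ha' : (A.map F.subtype).charpoly.IsRoot a := by
      rw [hA, ← cp_FD3]; exact ha
    obtain ⟨u, hu, he⟩ := (root_iff_FD3 _ _).1 ha'
    have h1 := aeval_eig_FD3 he Q0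
    have h2 : Q0.eval a = 0 := (hrt a).2 ((hmem a).2 ⟨1, Γ.one_mem, rfl⟩)
    rw [h2, zero_smul] at h1
    have h3 : (aeval (A.map F.subtype) Q0).det = 0 :=
      Matrix.exists_mulVec_eq_zero_iff.1 ⟨u, hu, h1⟩
    have h4 : (F.subtype.mapMatrix : Matrix _ _ F →+* Matrix _ _ Ω) (aeval A Q) =
        aeval (A.map F.subtype) Q0 := by
      rw [← hQ]
      refine map_aeval_eq_aeval_map (φ := F.subtype) ?_ Q A
      ext x i j
      by_cases e : i = j <;> simp [Matrix.algebraMap_matrix_apply, e]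
    rw [← h4, ← RingHom.map_det] at h3
    have h5 : (aeval A Q).det = 0 := F.subtype.injective (by rw [h3, map_zero])
    have h6 : LinearMap.toMatrix b b (aeval f Q) = aeval A Q :=
      (aeval_algHom_apply (LinearMap.toMatrixAlgEquiv b) f Q).symm
    rw [← h6, LinearMap.det_toMatrix] at h5
    obtain ⟨w, hw, hw0⟩ := (Submodule.ne_bot_iff _).1 (LinearMap.bot_lt_ker_of_det_eq_zero h5).ne'
    exact ⟨w, hw0, hw⟩

theorem eg_iff (H : HF F v Θ) {R : ℚ} (hR : 0 ≤ R) {f : Module.End F V} :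
    EG F v R f ↔ Gr F v R fun j => f ^ j := by
  constructor
  · intro h
    have h1 : aeval (LinearMap.mulLeft F f : Module.End F (Module.End F V)) f.charpoly
        (1 : Module.End F V) = 0 := by
      have : aeval (LinearMap.mulLeft F f : Module.End F (Module.End F V)) f.charpoly =
          Algebra.lmul F (Module.End F V) (aeval f f.charpoly) :=
        aeval_algHom_apply (Algebra.lmul F (Module.End F V)) f f.charpoly
      rw [this, LinearMap.aeval_self_charpoly, map_zero]; rfl
    have h2 := gr_of_root H.val f.charpoly_monic hR h h1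
    simpa [LinearMap.pow_mulLeft] using h2
  · intro h a ha
    by_cases h0 : a = 0
    · exact Or.inl h0
    refine Or.inr (not_lt.1 fun hlt => ?_)
    obtain ⟨Q, hQ, hr, w, hw, he⟩ := slope H f h0 ha
    exact hw (zero_of_gr H.val hQ (fun b hb => ⟨(hr b hb).1, (hr b hb).2 ▸ hlt⟩) he
      (h.map (LinearMap.applyₗ w)))

theorem EG.trace (hv : Val v) {f : Module.End F V} (h : EG F v 0 f) :
    Ge v 0 (LinearMap.trace F V f : F) := by
  set b := Module.finBasis F V
  have h1 : ((LinearMap.trace F V f : F) : Ω) =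
      ((LinearMap.toMatrix b b f).map F.subtype).trace := by
    rw [LinearMap.trace_eq_matrix_trace F b f]
    exact AddMonoidHom.map_trace F.subtype _
  rw [h1, Matrix.trace_eq_sum_roots_charpoly, ← cp_FD3]
  have key : ∀ s : Multiset Ω, (∀ a ∈ s, Ge v 0 a) → Ge v 0 s.sum := by
    intro s
    induction s using Multiset.induction_on with
    | empty => intro _; exact Or.inl rfl
    | cons a s ih =>
      intro hs
      rw [Multiset.sum_cons]
      exact (hs a (by simp)).add hv (ih fun c hc => hs c (by simp [hc]))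
  exact key _ fun a ha => h a (isRoot_of_mem_roots ha)

theorem root_inv {f g : Module.End F V} (h : f * g = 1) {a : Ω}
    (ha : (f.charpoly.map F.subtype).IsRoot a) :
    a ≠ 0 ∧ (g.charpoly.map F.subtype).IsRoot a⁻¹ := by
  rw [cp_FD3] at ha ⊢
  set b := Module.finBasis F V
  have h1 : (LinearMap.toMatrix b b f).map F.subtype * (LinearMap.toMatrix b b g).map F.subtype
      = 1 := by
    rw [← Matrix.map_mul, ← LinearMap.toMatrix_mul, h, LinearMap.toMatrix_one]
    exact Matrix.map_one _ (map_zero _) (map_one _)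
  have h2 := mul_eq_one_comm.1 h1
  obtain ⟨u, hu, he⟩ := (root_iff_FD3 _ _).1 ha
  have h3 : u = a • ((LinearMap.toMatrix b b g).map F.subtype).mulVec u := by
    rw [← Matrix.mulVec_smul, ← he, Matrix.mulVec_mulVec, h2, Matrix.one_mulVec]
  have h0 : a ≠ 0 := by
    rintro rfl
    exact hu (by rw [h3, zero_smul])
  refine ⟨h0, (root_iff_FD3 _ _).2 ⟨u, hu, ?_⟩⟩
  conv_rhs => rw [h3, smul_smul, inv_mul_cancel₀ h0, one_smul]

lemma pow_sum_FD3 {n : Type} [Fintype n] {d : n → Ω} (h : ∀ j : ℕ, ∑ i, d i ^ (j + 1) = 0) :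
    d = 0 := by
  have key : ∀ p : Polynomial Ω, ∑ i, d i * p.eval (d i) = 0 := by
    intro p
    induction p using Polynomial.induction_on' with
    | add p q hp hq => simp only [eval_add, mul_add, sum_add_distrib, hp, hq, add_zero]
    | monomial k c =>
      have : ∀ i, d i * (monomial k c).eval (d i) = c * d i ^ (k + 1) := by
        intro i; rw [eval_monomial]; ring
      simp only [this, ← mul_sum, h, mul_zero]
  funext i0
  by_contra h0
  set p : Polynomial Ω := ∏ μ ∈ (univ.image d).erase (d i0), (X - C μ) with hp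
  have h1 : ∀ i, d i ≠ d i0 → p.eval (d i) = 0 := by
    intro i hi
    rw [hp, eval_prod]
    exact prod_eq_zero (i := d i) (by simp [hi]) (by simp)
  have h2 : p.eval (d i0) ≠ 0 := by
    rw [hp, eval_prod]
    refine prod_ne_zero_iff.2 fun μ hμ => ?_
    have := (mem_erase.1 hμ).1
    simpa [sub_eq_zero] using this.symm
  have h3 : ∑ i, d i * p.eval (d i) =
      ∑ i ∈ univ.filter (fun i => d i = d i0), d i0 * p.eval (d i0) := by
    rw [sum_filter]
    refine sum_congr rfl fun i _ => ?_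
    by_cases hi : d i = d i0
    · rw [if_pos hi, hi]
    · rw [if_neg hi, h1 i hi, mul_zero]
  rw [key, sum_const, nsmul_eq_mul] at h3
  have h4 : ((univ.filter (fun i => d i = d i0)).card : Ω) ≠ 0 :=
    Nat.cast_ne_zero.2 (card_ne_zero.2 ⟨i0, by simp⟩)
  exact mul_ne_zero h4 (mul_ne_zero h0 h2) h3.symm

theorem nil_of_trace {f : Module.End F V} (h : ∀ j : ℕ, LinearMap.trace F V (f ^ (j + 1)) = 0) :
    IsNilpotent f := by
  set b := Module.finBasis F V
  set A := LinearMap.toMatrix b b f with hA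
  obtain ⟨k, d, Z, he, hZ, hc, -⟩ := jordan (A.map F.subtype)
  have h1 : ∀ j : ℕ, ((A.map F.subtype) ^ (j + 1)).trace = 0 := by
    intro j
    have e1 : (A.map F.subtype) ^ (j + 1) = (A ^ (j + 1)).map F.subtype :=
      (map_pow (F.subtype.mapMatrix : Matrix _ _ F →+* Matrix _ _ Ω) A (j + 1)).symm
    have e2 : ((A ^ (j + 1)).map F.subtype).trace = F.subtype (A ^ (j + 1)).trace :=
      (AddMonoidHom.map_trace F.subtype _).symm
    rw [e1, e2, hA, LinearMap.toMatrix_pow, ← LinearMap.trace_eq_matrix_trace F b, h j, map_zero]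
  have h2 : ∀ m : ℕ, ∃ Y, (cd k d + Z) ^ m = cd k d ^ m + Z * Y ∧ Commute Z Y := by
    intro m
    induction m with
    | zero => exact ⟨0, by simp, Commute.zero_right _⟩
    | succ m ih =>
      obtain ⟨Y, e, c⟩ := ih
      refine ⟨cd k d ^ m + Y * (cd k d + Z), ?_,
        (hc.pow_right m).add_right (c.mul_right (hc.add_right (Commute.refl Z)))⟩
      rw [pow_succ, e, pow_succ, add_mul, mul_add (cd k d ^ m), mul_add Z, (hc.pow_right m).eq,
        mul_assoc, add_assoc]
  have h3 : ∀ j : ℕ, cd k d ^ (j + 1) = cd k (d ^ (j + 1)) := by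
    intro j
    induction j with
    | zero => simp
    | succ j ih => rw [pow_succ, ih, ← cd_mul, ← pow_succ]
  have h4 : d = 0 := by
    refine pow_sum_FD3 fun j => ?_
    obtain ⟨Y, e, c⟩ := h2 (j + 1)
    have := h1 j
    rw [he, e, Matrix.trace_add, h3, trace_cd,
      (Matrix.isNilpotent_trace_of_isNilpotent (c.isNilpotent_mul_right hZ)).eq_zero,
      add_zero] at this
    simpa using this
  rw [h4, cd_zero, zero_add] at he
  rw [← he] at hZ
  have h5 : IsNilpotent A := by
    obtain ⟨m, hm⟩ := hZ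
    refine ⟨m, Matrix.map_injective F.subtype.injective ?_⟩
    have e1 : (A.map F.subtype) ^ m = (A ^ m).map F.subtype :=
      (map_pow (F.subtype.mapMatrix : Matrix _ _ F →+* Matrix _ _ Ω) A m).symm
    show (A ^ m).map F.subtype = (0 : Matrix _ _ F).map F.subtype
    rw [← e1, hm, Matrix.map_zero _ (map_zero _)]
  exact (LinearMap.isNilpotent_toMatrix_iff b f).1 h5

lemma prod_lt_FD3 (hv : Val v) {R : ℚ} (s : Multiset Ω) (hs : ∀ a ∈ s, a ≠ 0 ∧ v a < R) :
    s.prod ≠ 0 ∧ v s.prod ≤ s.card * R ∧ (s ≠ 0 → v s.prod < s.card * R) := by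
  induction s using Multiset.induction_on with
  | empty => simp [mulv_one hv.mul]
  | cons a s ih =>
    obtain ⟨h1, h2, -⟩ := ih fun c hc => hs c (by simp [hc])
    obtain ⟨h3, h4⟩ := hs a (by simp)
    have h5 : v (a ::ₘ s).prod < (a ::ₘ s).card * R := by
      rw [Multiset.prod_cons, hv.mul _ _ h3 h1, Multiset.card_cons]
      push_cast; linarith
    exact ⟨by rw [Multiset.prod_cons]; exact mul_ne_zero h3 h1, h5.le, fun _ => h5⟩

theorem big_root (hv : Val v) {f : Module.End F V} {r : ℕ} (hr : r < Module.finrank F V)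
    (h0 : ∀ i < r, f.charpoly.coeff i = 0) (h1 : f.charpoly.coeff r ≠ 0) {R : ℚ} (hR : 0 ≤ R)
    (h2 : Ge v (Module.finrank F V * R) (f.charpoly.coeff r : F)) :
    ∃ a : Ω, a ≠ 0 ∧ (f.charpoly.map F.subtype).IsRoot a ∧ R ≤ v a := by
  obtain ⟨q, hq⟩ := X_pow_dvd_iff.2 h0
  have hqm : q.Monic := (monic_X_pow r).of_mul_monic_left (hq ▸ f.charpoly_monic)
  have hd : r + q.natDegree = Module.finrank F V := by
    rw [← f.charpoly_natDegree, hq, (monic_X_pow r).natDegree_mul hqm, natDegree_X_pow]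
  have hc : f.charpoly.coeff r = q.coeff 0 := by
    rw [hq]; simpa using coeff_X_pow_mul q r 0
  set q' : Polynomial Ω := q.map F.subtype with hq'
  have hq'm : q'.Monic := hqm.map _
  have hsp : q'.Splits := IsAlgClosed.splits q'
  have hcard : q'.roots.card = q.natDegree := by
    rw [← hsp.natDegree_eq_card_roots, hq', natDegree_map]
  have hc0 : ((f.charpoly.coeff r : F) : Ω) = (-1) ^ q'.natDegree * q'.roots.prod := by
    rw [← hsp.coeff_zero_eq_prod_roots_of_monic hq'm, hq', coeff_map, hc]; rfl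
  have hne : ((f.charpoly.coeff r : F) : Ω) ≠ 0 := fun e => h1 (Subtype.ext e)
  by_contra hcon
  have hall : ∀ a ∈ q'.roots, a ≠ 0 ∧ v a < R := by
    intro a ha
    have ha0 : a ≠ 0 := by
      rintro rfl
      exact hne (by rw [hc0, Multiset.prod_eq_zero ha, mul_zero])
    refine ⟨ha0, not_le.1 fun hle => hcon ⟨a, ha0, ?_, hle⟩⟩
    rw [hq, Polynomial.map_mul]
    exact (isRoot_of_mem_roots ha).dvd (dvd_mul_left _ _)
  obtain ⟨p1, -, p3⟩ := prod_lt_FD3 hv q'.roots hall
  have p4 := p3 (by rw [← Multiset.card_pos, hcard]; omega)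
  have p5 : v ((f.charpoly.coeff r : F) : Ω) = v q'.roots.prod := by
    rw [hc0]
    rcases neg_one_pow_eq_or Ω q'.natDegree with e | e
    · rw [e, one_mul]
    · rw [e, neg_one_mul, mulv_neg hv.mul]
  rcases h2 with e | e
  · exact hne e
  · rw [p5] at e
    rw [hcard] at p4
    have : (q.natDegree : ℚ) * R ≤ (Module.finrank F V : ℚ) * R :=
      mul_le_mul_of_nonneg_right (by exact_mod_cast (by omega : q.natDegree ≤ Module.finrank F V)) hR
    linarith

end Pool.Agent.P.MP_7d29e8_ag
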