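import Pool.Agent.P.MP_7d29e8_ag.FD3

set_option autoImplicit false
set_option linter.unusedSectionVars false
set_option linter.unusedVariables false

/-! The exponential of a small inner derivation. -/

namespace Pool.Agent.P.MP_7d29e8_ag

open Finset
open scoped Classical

variable {Ω : Type} [Field Ω] [CharZero Ω] [IsAlgClosed Ω] {F : Subfield Ω} {v : Ω → ℚ}
  {Θ : Subgroup (Ω ≃+* Ω)} {L : Type} [LieRing L] [LieAlgebra F L] [FiniteDimensional F L]

lemma ge_int_FD4 (hv : Val v) (m : ℤ) : Ge v 0 (m : Ω) := by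
  obtain ⟨k, rfl | rfl⟩ := m.eq_nat_or_neg
  · simpa using Ge.nat hv k
  · simpa using (Ge.nat hv k).neg hv

lemma sml_basis_FD4 (hv : Val v) {U κ : Type} [AddCommGroup U] [Module F U] [Fintype κ]
    (B : Module.Basis κ F U) {x : ℕ → U}
    (h : ∀ (k : κ) (C : ℚ), ∃ J, ∀ j, J ≤ j → Ge v C (B.repr (x j) k : F)) : Sml F v x := by
  intro l C
  choose J hJ using fun k : κ => h k (C - v (l (B k) : F))
  refine ⟨univ.sup J, fun j hj => ?_⟩
  have e : l (x j) = ∑ k, B.repr (x j) k * l (B k) := by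
    conv_lhs => rw [← B.sum_repr (x j), map_sum]
    simp only [map_smul, smul_eq_mul]
  rw [e]
  push_cast
  refine Ge.sum hv fun k _ => ?_
  have := (hJ k j ((le_sup (mem_univ k)).trans hj)).mul hv (Ge.self (v := v) (l (B k) : F))
  simpa using this

lemma coef_FD4 (s t : F) (k : ℕ) :
    ∑ q ∈ antidiagonal k, s ^ q.1 / (q.1.factorial : F) * (t ^ q.2 / (q.2.factorial : F)) =
      (s + t) ^ k / (k.factorial : F) := by
  rw [(Commute.all s t).add_pow', Finset.sum_div]
  refine sum_congr rfl fun q hq => ?_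
  have hk : q.1 + q.2 = k := mem_antidiagonal.1 hq
  have h1 : (q.1.factorial : F) ≠ 0 := Nat.cast_ne_zero.2 (Nat.factorial_ne_zero _)
  have h2 : (q.2.factorial : F) ≠ 0 := Nat.cast_ne_zero.2 (Nat.factorial_ne_zero _)
  have h3 : (k.factorial : F) ≠ 0 := Nat.cast_ne_zero.2 (Nat.factorial_ne_zero _)
  rw [nsmul_eq_mul, ← hk, Nat.cast_add_choose, hk]
  field_simp

theorem exists_exp (H : HF F v Θ) {V : Type} [AddCommGroup V] [Module F V] [FiniteDimensional F V]
    {Z : Module.End F V} (hZ : Gr F v 2 fun j => Z ^ j) (s : ℤ) :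
    Gr F v 1 (fun j => ((s : F) ^ j / (j.factorial : F)) • Z ^ j) ∧
    ∃ E, HasS F v (fun j => ((s : F) ^ j / (j.factorial : F)) • Z ^ j) E := by
  have hv := H.val
  have hG : Gr F v 1 (fun j => ((s : F) ^ j / (j.factorial : F)) • Z ^ j) := by
    have := Gr.scale hv (C' := -1) hZ (a := fun j => (s : F) ^ j / (j.factorial : F)) (c := 0)
      fun j => by
        have h1 : (j.factorial : Ω) ≠ 0 := Nat.cast_ne_zero.2 (Nat.factorial_ne_zero _)
        have h2 : Ge v (-j) (j.factorial : Ω)⁻¹ :=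
          Or.inr (by rw [mulv_inv hv.mul h1]; linarith [H.fac j])
        have h3 := (ge_int_FD4 hv (s ^ j)).mul hv h2
        push_cast at h3 ⊢
        rw [div_eq_mul_inv]
        exact h3.mono (by linarith)
    rwa [show (2 : ℚ) + -1 = 1 by norm_num] at this
  refine ⟨hG, ?_⟩
  set x : ℕ → Module.End F V := fun j => ((s : F) ^ j / (j.factorial : F)) • Z ^ j with hx
  let b := Module.finBasis F V
  let ι := Fin (Module.finrank F V)
  let B : Module.Basis (ι × ι) F (Module.End F V) := Module.Basis.ofEquivFun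
    ((LinearMap.toMatrix b b).trans
      ((Matrix.ofLinearEquiv F).symm.trans (LinearEquiv.curry F F ι ι).symm))
  have hB : ∀ (f : Module.End F V) (q : ι × ι), B.repr f q = LinearMap.toMatrix b b f q.1 q.2 :=
    fun f q => rfl
  obtain ⟨Γ, -, -, hS, hF, hC⟩ := H.lev (Set.range fun q : ι × ι => (B.repr Z q : Ω))
    (Set.finite_range _) (by rintro _ ⟨q, rfl⟩; exact (B.repr Z q).2)
  have hpow : ∀ (j : ℕ) (q : ι × ι), ∀ θ ∈ Γ, θ (B.repr (Z ^ j) q : Ω) = B.repr (Z ^ j) q := by
    intro j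
    induction j with
    | zero =>
      intro q θ _
      rw [pow_zero, hB, LinearMap.toMatrix_one, Matrix.one_apply]
      split_ifs <;> simp
    | succ j ih =>
      intro q θ hθ
      rw [pow_succ, hB, LinearMap.toMatrix_mul, Matrix.mul_apply]
      push_cast
      rw [map_sum]
      refine sum_congr rfl fun k _ => ?_
      have h1 := ih (q.1, k) θ hθ
      have h2 := hS _ ⟨(k, q.2), rfl⟩ θ hθ
      rw [hB] at h1
      simp only [hB] at h2
      rw [map_mul, h1, h2]
  have hfix : ∀ (j : ℕ) (q : ι × ι), ∀ θ ∈ Γ,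
      θ (B.repr (∑ i ∈ range j, x i) q : Ω) = B.repr (∑ i ∈ range j, x i) q := by
    intro j q θ hθ
    induction j with
    | zero => simp
    | succ j ih =>
      rw [sum_range_succ, map_add, Finsupp.add_apply]
      push_cast
      rw [map_add, ih]
      congr 1
      simp only [hx, map_smul, Finsupp.smul_apply, smul_eq_mul]
      push_cast
      rw [map_mul, hpow j q θ hθ]
      simp
  have hlim : ∀ q : ι × ι, ∃ y : F, Lm v (fun j => (B.repr (∑ i ∈ range j, x i) q : Ω)) y := by
    intro q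
    obtain ⟨y, hy, hl⟩ := hC (fun j => (B.repr (∑ i ∈ range j, x i) q : Ω))
      (fun j => hfix j q) fun C => by
        obtain ⟨c, hc⟩ := hG (B.coord q)
        obtain ⟨J, hJ⟩ := exists_nat_ge (C - c)
        refine ⟨J, fun j hj => ?_⟩
        have h1 : (J : ℚ) ≤ j := Nat.cast_le.2 hj
        have := (hc j).mono (C' := C) (by linarith)
        rw [sum_range_succ, map_add, Finsupp.add_apply]
        push_cast
        rw [add_sub_cancel_left]
        exact this
    exact ⟨⟨y, hF y hy⟩, hl⟩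
  choose y hy using hlim
  refine ⟨B.equivFun.symm y, sml_basis_FD4 hv B fun q C => ?_⟩
  obtain ⟨J, hJ⟩ := hy q C
  refine ⟨J, fun j hj => ?_⟩
  have e : B.repr (B.equivFun.symm y) q = y q := congrFun (B.equivFun.apply_symm_apply y) q
  rw [map_sub, Finsupp.sub_apply, e]
  push_cast
  exact hJ j hj

theorem exp_au (H : HF F v Θ) {X : L} {R : ℚ} (hR : 2 ≤ R) (hX : EG F v R (LieAlgebra.ad F L X))
    (s : ℕ) : ∃ E ∈ Au F L,
      HasS F v (fun j => ((s : F) ^ j / (j.factorial : F)) • LieAlgebra.ad F L X ^ j) E := by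
  have hv := H.val
  set D := LieAlgebra.ad F L X with hD
  have h2 : Gr F v 2 fun j => D ^ j := fun l => by
    obtain ⟨c, hc⟩ := (eg_iff H (by linarith)).1 hX l
    exact ⟨c, fun j => (hc j).mono (by
      have : (0 : ℚ) ≤ j := Nat.cast_nonneg j
      nlinarith)⟩
  obtain ⟨g, E, hE⟩ := exists_exp H h2 (s : ℤ)
  obtain ⟨g', E', hE'⟩ := exists_exp H h2 (-(s : ℤ))
  simp only [Int.cast_natCast, Int.cast_neg] at g hE g' hE'
  have inv : ∀ {a a' : F} {A A' : Module.End F L}, a + a' = 0 →
      Gr F v 1 (fun j => (a ^ j / (j.factorial : F)) • D ^ j) →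
      Gr F v 1 (fun j => (a' ^ j / (j.factorial : F)) • D ^ j) →
      HasS F v (fun j => (a ^ j / (j.factorial : F)) • D ^ j) A →
      HasS F v (fun j => (a' ^ j / (j.factorial : F)) • D ^ j) A' → A * A' = 1 := by
    intro a a' A A' h0 g g' h h'
    have hc := HasS.cauchy hv (LinearMap.mul F (Module.End F L)) g g' h h'
    refine HasS.unique hv hc ?_
    convert hasS_single (F := F) (v := v) (1 : Module.End F L) using 2 with k
    have : ∀ q ∈ antidiagonal k, LinearMap.mul F (Module.End F L)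
        ((a ^ q.1 / (q.1.factorial : F)) • D ^ q.1) ((a' ^ q.2 / (q.2.factorial : F)) • D ^ q.2) =
        (a ^ q.1 / (q.1.factorial : F) * (a' ^ q.2 / (q.2.factorial : F))) • D ^ k := by
      intro q hq
      rw [LinearMap.mul_apply', smul_mul_smul_comm, ← pow_add, mem_antidiagonal.1 hq]
    rw [sum_congr rfl this, ← sum_smul, coef_FD4, h0]
    split_ifs with hk
    · simp [hk]
    · simp [hk]
  refine ⟨E, ⟨⟨⟨E, E', inv (add_neg_cancel _) g g' hE hE', inv (neg_add_cancel _) g' g hE' hE⟩,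
    rfl⟩, fun Y Z => ?_, fun z hz => ?_⟩, hE⟩
  · let β : L →ₗ[F] L →ₗ[F] L :=
      LinearMap.mk₂ F (fun a b => ⁅a, b⁆) add_lie smul_lie lie_add lie_smul
    have hc := HasS.cauchy hv β (g.map (LinearMap.applyₗ Y))
      (g.map (LinearMap.applyₗ Z)) (hE.map (LinearMap.applyₗ Y)) (hE.map (LinearMap.applyₗ Z))
    refine HasS.unique hv (hE.map (LinearMap.applyₗ ⁅Y, Z⁆)) ?_
    have hb : ∀ a b, β a b = ⁅a, b⁆ := fun a b => rfl
    simp only [hb, LinearMap.applyₗ_apply_apply] at hc
    convert hc using 2 with k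
    simp only [LinearMap.applyₗ_apply_apply, LinearMap.smul_apply, lie_smul, smul_lie]
    rw [hD, LieAlgebra.ad_pow_lie, smul_sum]
    refine sum_congr rfl fun q hq => ?_
    have hk : q.1 + q.2 = k := mem_antidiagonal.1 hq
    have h1 : (q.1.factorial : F) ≠ 0 := Nat.cast_ne_zero.2 (Nat.factorial_ne_zero _)
    have h2 : (q.2.factorial : F) ≠ 0 := Nat.cast_ne_zero.2 (Nat.factorial_ne_zero _)
    have h3 : (k.factorial : F) ≠ 0 := Nat.cast_ne_zero.2 (Nat.factorial_ne_zero _)
    rw [← Nat.cast_smul_eq_nsmul F, smul_smul, smul_smul]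
    congr 1
    rw [← hk, Nat.cast_add_choose, pow_add, hk]
    field_simp
  · refine HasS.unique hv (hE.map (LinearMap.applyₗ z)) ?_
    convert hasS_single (F := F) (v := v) z using 2 with k
    have h0 : D z = 0 := by rw [hD, LieAlgebra.ad_apply, ← lie_skew, hz, neg_zero]
    rcases k with _ | k
    · simp
    · simp [pow_succ, h0]

end Pool.Agent.P.MP_7d29e8_ag
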