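import Pool.Agent.P.MP_7d29e8_ag.FD4

set_option autoImplicit false
set_option linter.unusedSectionVars false
set_option linter.unusedVariables false

/-! Boundedness for anisotropic Lie algebras. -/

namespace Pool.Agent.P.MP_7d29e8_ag

open Finset
open scoped Classical

variable {Ω : Type} [Field Ω] [CharZero Ω] [IsAlgClosed Ω] {F : Subfield Ω} {v : Ω → ℚ}
  {Θ : Subgroup (Ω ≃+* Ω)} {L : Type} [LieRing L] [LieAlgebra F L] [FiniteDimensional F L]

lemma SS.nil (hS : SS L) {e : L} (h : IsNilpotent (LieAlgebra.ad F L e)) (Y : L) : ⁅e, Y⁆ = 0 := by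
  obtain ⟨n, hn⟩ := h
  have key : ∀ k : ℕ, (LieAlgebra.ad F L e ^ (k + 1)) Y = 0 → ⁅e, Y⁆ = 0 := by
    intro k
    induction k with
    | zero => intro h; simpa using h
    | succ k ih =>
      intro h
      apply ih
      rw [pow_succ', pow_succ', Module.End.mul_apply, Module.End.mul_apply, LieAlgebra.ad_apply,
        LieAlgebra.ad_apply] at h
      rw [pow_succ', Module.End.mul_apply, LieAlgebra.ad_apply]
      exact hS _ _ h
  apply key n
  rw [pow_succ', hn, mul_zero, LinearMap.zero_apply]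

lemma adl_FD5 : ∃ D : L →ₗ[F] Module.End F L, ∀ X, D X = LieAlgebra.ad F L X :=
  ⟨{ toFun := fun X => LieAlgebra.ad F L X
     map_add' := fun X Y => by ext Z; simp
     map_smul' := fun t X => by ext Z; simp }, fun _ => rfl⟩

lemma tr_conj_FD5 {δ δ' A : Module.End F L} (h' : δ' * δ = 1) (h : δ * δ' = 1) (k : ℕ) :
    LinearMap.trace F L ((δ * A * δ') ^ k) = LinearMap.trace F L (A ^ k) := by
  have e : (δ * A * δ') ^ k = δ * A ^ k * δ' := by
    induction k with
    | zero => simp [h]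
    | succ k ih =>
      rw [pow_succ, ih, pow_succ]
      calc δ * A ^ k * δ' * (δ * A * δ') = δ * A ^ k * (δ' * δ) * A * δ' := by
            simp only [mul_assoc]
        _ = δ * (A ^ k * A) * δ' := by rw [h']; simp only [mul_one, mul_assoc]
  rw [e, LinearMap.trace_mul_comm, ← mul_assoc, h', one_mul]

lemma ad_au_FD5 {δ δ' : Module.End F L} (hδ : δ ∈ Au F L) (h : δ * δ' = 1) (w : L) :
    LieAlgebra.ad F L (δ w) = δ * LieAlgebra.ad F L w * δ' := by
  ext Y
  have e : δ (δ' Y) = Y := by rw [← Module.End.mul_apply, h, Module.End.one_apply]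
  rw [Module.End.mul_apply, Module.End.mul_apply, LieAlgebra.ad_apply, LieAlgebra.ad_apply,
    hδ.2.1, e]

lemma inv_au_FD5 {γ γ' : Module.End F L} (hγ : γ ∈ Au F L) (h : γ * γ' = 1) (h' : γ' * γ = 1) :
    γ' ∈ Au F L := by
  have e : ∀ Y, γ (γ' Y) = Y := fun Y => by rw [← Module.End.mul_apply, h, Module.End.one_apply]
  have e' : ∀ Y, γ' (γ Y) = Y := fun Y => by rw [← Module.End.mul_apply, h', Module.End.one_apply]
  refine ⟨⟨⟨γ', γ, h', h⟩, rfl⟩, fun Y Z => ?_, fun z hz => ?_⟩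
  · rw [← e' ⁅γ' Y, γ' Z⁆, hγ.2.1, e, e]
  · have := e' z
    rwa [hγ.2.2 z hz] at this

theorem au_eg (H : HF F v Θ) (hS : SS L) {γ : Module.End F L} (hγ : γ ∈ Au F L) : EG F v 0 γ := by
  intro a ha
  by_contra hn
  have hv := H.val
  have hlt : v a < 0 := lt_of_not_ge fun h => hn (Or.inr h)
  obtain ⟨u, rfl⟩ := hγ.1
  have h1 : (u : Module.End F L) * (u⁻¹ : (Module.End F L)ˣ) = 1 := u.mul_inv
  have h2 : ((u⁻¹ : (Module.End F L)ˣ) : Module.End F L) * u = 1 := u.inv_mul
  generalize ((u⁻¹ : (Module.End F L)ˣ) : Module.End F L) = g at h1 h2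
  generalize (u : Module.End F L) = γ at h1 h2 hγ ha
  have hg : g ∈ Au F L := inv_au_FD5 hγ h1 h2
  obtain ⟨a0, hr⟩ := root_inv h1 ha
  obtain ⟨Q, hQ, hQr, w, w0, hw⟩ := slope H g (inv_ne_zero a0) hr
  have hε : 0 < v a⁻¹ := by rw [mulv_inv hv.mul a0]; linarith
  have G : Gr F v (v a⁻¹) fun j => (g ^ j) w :=
    gr_of_root hv hQ hε.le (fun b hb => Or.inr (hQr b hb).2.ge) hw
  obtain ⟨D, hD⟩ := adl_FD5 (F := F) (L := L)
  have G1 : Gr F v (v a⁻¹) fun j => LieAlgebra.ad F L ((g ^ j) w) := by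
    simpa only [hD] using G.map D
  have G2 : ∀ k : ℕ, Gr F v ((k + 1) * v a⁻¹) fun j => LieAlgebra.ad F L ((g ^ j) w) ^ (k + 1) := by
    intro k
    induction k with
    | zero => simpa using G1
    | succ k ih =>
      have := Gr.bil hv (LinearMap.mul F (Module.End F L)) ih G1
      have e : ((k : ℚ) + 1) * v a⁻¹ + v a⁻¹ = ((k + 1 : ℕ) + 1) * v a⁻¹ := by push_cast; ring
      rw [e] at this
      simpa only [LinearMap.mul_apply', ← pow_succ] using this
  have hc : Commute g γ := h2.trans h1.symm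
  have T : ∀ k : ℕ, LinearMap.trace F L (LieAlgebra.ad F L w ^ (k + 1)) = 0 := by
    intro k
    have G3 := (G2 k).map (LinearMap.trace F L)
    refine Gr.const (F := F) (v := v) (ε := (k + 1) * v a⁻¹) (by positivity) ?_
    convert G3 using 2 with j
    have p1 : g ^ j * γ ^ j = 1 := by rw [← hc.mul_pow, h2, one_pow]
    have p2 : γ ^ j * g ^ j = 1 := by rw [← hc.symm.mul_pow, h1, one_pow]
    rw [ad_au_FD5 (pow_mem hg j) p1, tr_conj_FD5 p2 p1]
  have hz : ∀ Y : L, ⁅w, Y⁆ = 0 := hS.nil (nil_of_trace T)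
  refine w0 (Gr.const (F := F) (v := v) hε ?_)
  convert G using 2 with j
  exact ((pow_mem hg j).2.2 w hz).symm

lemma root_smul_FD5 (A : Module.End F L) {t : F} (ht : t ≠ 0) {a : Ω}
    (ha : ((t • A).charpoly.map F.subtype).IsRoot a) :
    (A.charpoly.map F.subtype).IsRoot (a / t) := by
  have b := Module.finBasis F L
  have ht' : (t : Ω) ≠ 0 := fun h => ht (Subtype.ext h)
  rw [← LinearMap.charpoly_toMatrix _ b, ← Matrix.charpoly_map, Polynomial.IsRoot,
    Matrix.eval_charpoly] at ha ⊢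
  have e : Matrix.scalar _ a - (LinearMap.toMatrix b b (t • A)).map F.subtype =
      (t : Ω) • (Matrix.scalar _ (a / t) - (LinearMap.toMatrix b b A).map F.subtype) := by
    ext i j
    by_cases hij : i = j
    · subst hij
      simp [mul_sub, mul_div_cancel₀ _ ht']
    · simp [hij]
  rw [e, Matrix.det_smul] at ha
  exact (mul_eq_zero.1 ha).resolve_left (pow_ne_zero _ ht')

lemma exists_scale_FD5 (H : HF F v Θ) (A : Module.End F L) (R : ℚ) :
    ∃ t : F, t ≠ 0 ∧ EG F v R (t • A) := by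
  obtain ⟨π, hπ, π0, hp⟩ := H.unif
  obtain ⟨M, hM⟩ := Finset.exists_le
    ((A.charpoly.map F.subtype).roots.toFinset.image fun r => (R - v r) / v π)
  obtain ⟨k, hk⟩ := exists_nat_ge M
  have t0 : (⟨π, hπ⟩ : F) ^ k ≠ 0 := pow_ne_zero _ fun h => π0 (congrArg Subtype.val h)
  refine ⟨⟨π, hπ⟩ ^ k, t0, fun a ha => ?_⟩
  by_cases a0 : a = 0
  · exact Or.inl a0
  have hr := root_smul_FD5 A t0 ha
  have e : (((⟨π, hπ⟩ : F) ^ k : F) : Ω) = π ^ k := by simp
  rw [e] at hr
  have h1 := hM _ (mem_image_of_mem _ (Multiset.mem_toFinset.2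
    ((Polynomial.mem_roots (A.charpoly_monic.map F.subtype).ne_zero).2 hr)))
  have h2 := (div_le_iff₀ hp).1 (h1.trans hk)
  have pk : π ^ k ≠ 0 := pow_ne_zero _ π0
  have h3 := H.val.mul (a / π ^ k) (π ^ k) (div_ne_zero a0 pk) pk
  rw [div_mul_cancel₀ _ pk, mulv_pow H.val.mul π0] at h3
  exact Or.inr (by linarith)

lemma key_FD5 (H : HF F v Θ) : ∃ R c : ℚ, 2 ≤ R ∧ ∀ X : L, EG F v R (LieAlgebra.ad F L X) →
    ∀ (l : Module.Dual F (Module.End F L)) (C : ℚ), (∀ E ∈ Au F L, Ge v C (l E : F)) →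
      ∀ j : ℕ, Ge v (C - c) (l (LieAlgebra.ad F L X ^ j) : F) := by
  obtain ⟨R, c, hR, hI⟩ := interp H.val H.fac (Module.finrank F L)
  refine ⟨R, c, hR, fun X hX l C hC => ?_⟩
  refine hI ((LieAlgebra.ad F L X).charpoly.map F.subtype)
    ((LinearMap.charpoly_monic _).map F.subtype) ?_ hX
    (fun j => (l (LieAlgebra.ad F L X ^ j) : F)) ?_ C fun s hs => ?_
  · rw [Polynomial.natDegree_map, LinearMap.charpoly_natDegree]
  · have h0 : Polynomial.aeval (Algebra.lmul F (Module.End F L) (LieAlgebra.ad F L X))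
        (LieAlgebra.ad F L X).charpoly (1 : Module.End F L) = 0 := by
      rw [Polynomial.aeval_algHom_apply, LinearMap.aeval_self_charpoly, map_zero,
        LinearMap.zero_apply]
    have := seq_link h0 l
    simp only [← map_pow] at this
    simpa only [Algebra.coe_lmul_eq_mul, LinearMap.mul_apply', mul_one] using this
  · obtain ⟨E, hE, hs⟩ := exp_au H hR hX s
    refine ⟨(l E : F), hC E hE, fun C' => ?_⟩
    obtain ⟨J, hJ⟩ := hs l C'
    refine ⟨J, fun j hj => ?_⟩
    have := hJ j hj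
    simpa [map_sub, map_sum, map_smul, smul_eq_mul] using this

theorem bound (H : HF F v Θ) (hS : SS L) : ∃ R : ℚ, 2 ≤ R ∧ ∀ l : Module.Dual F L,
    (∀ z : L, (∀ Y : L, ⁅z, Y⁆ = 0) → l z = 0) →
    ∃ c : ℚ, ∀ X : L, EG F v R (LieAlgebra.ad F L X) → Ge v c (l X : F) := by
  obtain ⟨R, c, hR, key⟩ := key_FD5 (L := L) H
  have hv := H.val
  refine ⟨R, hR, fun l hl => ?_⟩
  obtain ⟨D, hD⟩ := adl_FD5 (F := F) (L := L)
  obtain ⟨φ, hφ⟩ : ∃ φ : Au F L → Module.Dual F L,
      ∀ b X, φ b X = LinearMap.trace F L (LieAlgebra.ad F L X * b) :=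
    ⟨fun b => LinearMap.trace F L ∘ₗ LinearMap.mulRight F (b : Module.End F L) ∘ₗ D,
      fun b X => by rw [← hD]; rfl⟩
  have hsp : l ∈ Submodule.span F (Set.range φ) := by
    refine FiniteDimensional.mem_span_of_iInf_ker_le_ker fun X hX => ?_
    rw [Submodule.mem_iInf] at hX
    refine hl X (hS.nil (F := F) (nil_of_trace fun j => ?_))
    obtain ⟨t, t0, ht⟩ := exists_scale_FD5 H (LieAlgebra.ad F L X) R
    have e : LieAlgebra.ad F L (t • X) = t • LieAlgebra.ad F L X := by rw [← hD, ← hD, map_smul]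
    rw [← e] at ht
    have h1 : ((LinearMap.trace F L (LieAlgebra.ad F L X * LieAlgebra.ad F L (t • X) ^ j) : F) : Ω)
        = 0 := by
      refine ge_all (v := v) (c := -c) one_pos fun i => ?_
      have := key _ ht (LinearMap.trace F L ∘ₗ LinearMap.mulLeft F (LieAlgebra.ad F L X)) (i * 1)
        (fun E hE => Or.inl (congrArg Subtype.val ((hφ ⟨E, hE⟩ X).symm.trans (hX ⟨E, hE⟩)))) j
      rw [sub_eq_add_neg] at this
      exact this
    have h2 : LinearMap.trace F L (LieAlgebra.ad F L X * LieAlgebra.ad F L (t • X) ^ j) = 0 :=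
      Subtype.ext h1
    rw [e, smul_pow, mul_smul_comm, map_smul, ← pow_succ', smul_eq_mul] at h2
    exact (mul_eq_zero.1 h2).resolve_left (pow_ne_zero _ t0)
  clear hl
  induction hsp using Submodule.span_induction with
  | mem x hx =>
    obtain ⟨b, rfl⟩ := hx
    refine ⟨0 - c, fun X hX => ?_⟩
    have := key X hX (LinearMap.trace F L ∘ₗ LinearMap.mulRight F (b : Module.End F L)) 0
      (fun E hE => (au_eg H hS (mul_mem hE b.2)).trace hv) 1
    rw [pow_one] at this
    rw [hφ]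
    exact this
  | zero => exact ⟨0, fun X _ => Or.inl rfl⟩
  | add x y _ _ hx hy =>
    obtain ⟨c1, h1⟩ := hx
    obtain ⟨c2, h2⟩ := hy
    refine ⟨min c1 c2, fun X hX => ?_⟩
    have := ((h1 X hX).mono (min_le_left c1 c2)).add hv ((h2 X hX).mono (min_le_right c1 c2))
    simpa using this
  | smul t x _ hx =>
    obtain ⟨c1, h1⟩ := hx
    refine ⟨v t + c1, fun X hX => ?_⟩
    have := (Ge.self (v := v) (t : Ω)).mul hv (h1 X hX)
    simpa using this

end Pool.Agent.P.MP_7d29e8_ag
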