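import Mathlib

set_option autoImplicit false

/-! Bounded sequences of matrices over a valued field, and semilinear automorphisms. -/

namespace Pool.Agent.P.MP_7d29e8_ag

open Finset

variable {Ω : Type} [Field Ω] {n n' : Type} [Fintype n] [DecidableEq n] [Fintype n']
  [DecidableEq n']

/-- an additive valuation on nonzero elements -/
structure Val (v : Ω → ℚ) : Prop where
  mul : ∀ a b, a ≠ 0 → b ≠ 0 → v (a * b) = v a + v b
  add : ∀ a b, a ≠ 0 → b ≠ 0 → a + b ≠ 0 → min (v a) (v b) ≤ v (a + b)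

/-- valuation bounded below -/
def Ge (v : Ω → ℚ) (C : ℚ) (a : Ω) : Prop := a = 0 ∨ C ≤ v a

section Val

variable {v : Ω → ℚ}

lemma mulv_one (hv : ∀ a b, a ≠ 0 → b ≠ 0 → v (a * b) = v a + v b) : v 1 = 0 := by
  have := hv 1 1 one_ne_zero one_ne_zero
  rw [mul_one] at this; linarith

lemma mulv_inv (hv : ∀ a b, a ≠ 0 → b ≠ 0 → v (a * b) = v a + v b) {a : Ω} (ha : a ≠ 0) :
    v a⁻¹ = - v a := by
  have := hv a a⁻¹ ha (inv_ne_zero ha)
  rw [mul_inv_cancel₀ ha, mulv_one hv] at this; linarith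

lemma mulv_pow (hv : ∀ a b, a ≠ 0 → b ≠ 0 → v (a * b) = v a + v b) {a : Ω} (ha : a ≠ 0) (k : ℕ) :
    v (a ^ k) = k * v a := by
  induction k with
  | zero => simp [mulv_one hv]
  | succ k ih => rw [pow_succ, hv _ _ (pow_ne_zero _ ha) ha, ih]; push_cast; ring

lemma mulv_zpow (hv : ∀ a b, a ≠ 0 → b ≠ 0 → v (a * b) = v a + v b) {a : Ω} (ha : a ≠ 0) (k : ℤ) :
    v (a ^ k) = k * v a := by
  obtain ⟨m, rfl | rfl⟩ := k.eq_nat_or_neg
  · simp [mulv_pow hv ha]
  · simp [mulv_inv hv (pow_ne_zero _ ha), mulv_pow hv ha]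

lemma mulv_prod (hv : ∀ a b, a ≠ 0 → b ≠ 0 → v (a * b) = v a + v b) {α : Type*} (s : Finset α)
    {f : α → Ω} (hf : ∀ a ∈ s, f a ≠ 0) : v (∏ a ∈ s, f a) = ∑ a ∈ s, v (f a) := by
  classical
  induction s using Finset.induction_on with
  | empty => simp [mulv_one hv]
  | insert a s ha ih =>
    rw [prod_insert ha, sum_insert ha, hv _ _ (hf a (mem_insert_self _ _))
      (prod_ne_zero_iff.mpr fun b hb => hf b (mem_insert_of_mem hb)),
      ih fun b hb => hf b (mem_insert_of_mem hb)]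

lemma mulv_neg (hv : ∀ a b, a ≠ 0 → b ≠ 0 → v (a * b) = v a + v b) (a : Ω) : v (-a) = v a := by
  have h1 : v (-1) = 0 := by
    have := hv (-1) (-1) (by simp) (by simp)
    rw [neg_mul_neg, mul_one, mulv_one hv] at this; linarith
  by_cases ha : a = 0
  · simp [ha]
  · rw [← neg_one_mul, hv _ _ (by simp) ha, h1, zero_add]

lemma Ge.mono {C C' : ℚ} {a : Ω} (h : Ge v C a) (hC : C' ≤ C) : Ge v C' a :=
  h.imp_right hC.trans

lemma Ge.self (a : Ω) : Ge v (v a) a := Or.inr le_rfl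

lemma Ge.add (hv : Val v) {C : ℚ} {a b : Ω} (ha : Ge v C a) (hb : Ge v C b) : Ge v C (a + b) := by
  by_cases h1 : a = 0
  · simpa [h1] using hb
  by_cases h2 : b = 0
  · simpa [h2] using ha
  by_cases h3 : a + b = 0
  · exact Or.inl h3
  exact Or.inr ((le_min (ha.resolve_left h1) (hb.resolve_left h2)).trans (hv.add a b h1 h2 h3))

lemma Ge.mul (hv : Val v) {C C' : ℚ} {a b : Ω} (ha : Ge v C a) (hb : Ge v C' b) :
    Ge v (C + C') (a * b) := by
  by_cases h1 : a = 0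
  · exact Or.inl (by simp [h1])
  by_cases h2 : b = 0
  · exact Or.inl (by simp [h2])
  exact Or.inr (by rw [hv.mul a b h1 h2]; exact add_le_add (ha.resolve_left h1) (hb.resolve_left h2))

/-- bounded sequences -/
def BS (hv : Val v) : Subalgebra Ω (ℕ → Ω) where
  carrier := {a | ∃ C, ∀ j, Ge v C (a j)}
  mul_mem' := fun ⟨C, h⟩ ⟨C', h'⟩ => ⟨C + C', fun j => (h j).mul hv (h' j)⟩
  add_mem' := fun ⟨C, h⟩ ⟨C', h'⟩ => ⟨min C C', fun j =>
    ((h j).mono (min_le_left _ _)).add hv ((h' j).mono (min_le_right _ _))⟩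
  algebraMap_mem' c := ⟨v c, fun _ => Ge.self c⟩

lemma BS.nonneg {hv : Val v} {a : ℕ → Ω} (ha : a ∈ BS hv) {q c : ℚ}
    (h : ∀ j, a j ≠ 0 ∧ v (a j) = j * q + c) : 0 ≤ q := by
  obtain ⟨C, hC⟩ := ha
  by_contra hq
  push Not at hq
  obtain ⟨j, hj⟩ := exists_nat_gt ((c - C) / (-q))
  have h1 := (hC j).resolve_left (h j).1
  rw [(h j).2] at h1
  rw [div_lt_iff₀ (by linarith)] at hj
  linarith

lemma BS.of_v {hv : Val v} {a b : ℕ → Ω} (ha : a ∈ BS hv)
    (h : ∀ j, b j ≠ 0 → a j ≠ 0 ∧ v (a j) ≤ v (b j)) : b ∈ BS hv := by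
  obtain ⟨C, hC⟩ := ha
  refine ⟨C, fun j => ?_⟩
  by_cases h0 : b j = 0
  · exact Or.inl h0
  · exact Or.inr (((hC j).resolve_left (h j h0).1).trans (h j h0).2)

lemma BS.comp {hv : Val v} {a : ℕ → Ω} (ha : a ∈ BS hv) (f : ℕ → ℕ) :
    (fun j => a (f j)) ∈ BS hv :=
  let ⟨C, hC⟩ := ha; ⟨C, fun j => hC _⟩

lemma BS.of_mod {hv : Val v} {a : ℕ → Ω} {r : ℕ} (hr : 0 < r)
    (h : ∀ i < r, (fun j => a (r * j + i)) ∈ BS hv) : a ∈ BS hv := by
  choose! C hC using h
  refine ⟨-∑ i ∈ range r, |C i|, fun j => ?_⟩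
  have hj := Nat.mod_lt j hr
  have := hC _ hj (j / r)
  simp only [Nat.div_add_mod] at this
  refine this.mono ?_
  have := single_le_sum (f := fun i => |C i|) (fun i _ => abs_nonneg _) (mem_range.mpr hj)
  linarith [neg_abs_le (C (j % r))]

/-- bounded sequences of matrices -/
def MB (hv : Val v) (a : ℕ → Matrix n n' Ω) : Prop := ∀ i l, (fun j => a j i l) ∈ BS hv

variable {hv : Val v}

omit [Fintype n] [DecidableEq n] [Fintype n'] [DecidableEq n'] in
lemma MB.const (a : Matrix n n' Ω) : MB hv fun _ => a := fun i l => (BS hv).algebraMap_mem (a i l)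

omit [DecidableEq n] in
lemma MB.mul {a b : ℕ → Matrix n n Ω} (ha : MB hv a) (hb : MB hv b) : MB hv fun j => a j * b j :=
  fun i l => by
    have := (BS hv).sum_mem (t := univ) fun k _ => (BS hv).mul_mem (ha i k) (hb k l)
    convert this using 1
    funext j; simp [Matrix.mul_apply]

omit [Fintype n] [DecidableEq n] in
lemma MB.add {a b : ℕ → Matrix n n Ω} (ha : MB hv a) (hb : MB hv b) : MB hv fun j => a j + b j :=
  fun i l => (BS hv).add_mem (ha i l) (hb i l)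

lemma MB.det {a : ℕ → Matrix n n Ω} (ha : MB hv a) : (fun j => (a j).det) ∈ BS hv := by
  have := (BS hv).sum_mem (t := univ) fun (σ : Equiv.Perm n) _ => (BS hv).mul_mem
    ((BS hv).algebraMap_mem ((Equiv.Perm.sign σ : ℤ) : Ω))
    ((BS hv).prod_mem (t := univ) fun i _ => ha (σ i) i)
  convert this using 1
  funext j; simp [Matrix.det_apply']

omit [Fintype n] [DecidableEq n] in
lemma MB.map {a : ℕ → Matrix n n Ω} (ha : MB hv a) (θ : ℕ → Ω ≃+* Ω)
    (hθ : ∀ j z, v (θ j z) = v z) : MB hv fun j => (a j).map (θ j) := fun i l =>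
  BS.of_v (ha i l) fun j h => ⟨fun h0 => h (by simp [h0]), by simp [hθ]⟩

lemma BS.aeval {K σ : Type} [CommRing K] [Algebra K Ω] {a : ℕ → σ → Ω}
    (ha : ∀ q, (fun j => a j q) ∈ BS hv) (f : MvPolynomial σ K) :
    (fun j => MvPolynomial.aeval (a j) f) ∈ BS hv := by
  induction f using MvPolynomial.induction_on with
  | C c => simp only [MvPolynomial.aeval_C]; exact (BS hv).algebraMap_mem (algebraMap K Ω c)
  | add f g hf hg => simp only [map_add]; exact (BS hv).add_mem hf hg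
  | mul_X f q hf => simp only [map_mul, MvPolynomial.aeval_X]; exact (BS hv).mul_mem hf (ha q)

/-- sequences bounded together with their inverses -/
def Bdd (hv : Val v) : Subgroup (ℕ → GL n Ω) where
  carrier := {c | (MB hv fun j => (c j).val) ∧ MB hv fun j => ((c j)⁻¹).val}
  mul_mem' := fun ⟨h1, h2⟩ ⟨h3, h4⟩ => ⟨by simpa using h1.mul h3, by simpa using h4.mul h2⟩
  one_mem' := ⟨MB.const 1, MB.const 1⟩
  inv_mem' := fun ⟨h1, h2⟩ => ⟨h2, by simpa using h1⟩

lemma Bdd.const (g : GL n Ω) : (fun _ => g) ∈ Bdd hv := ⟨MB.const _, MB.const _⟩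

lemma Bdd.comp {c : ℕ → GL n Ω} (hc : c ∈ Bdd hv) (f : ℕ → ℕ) : (fun j => c (f j)) ∈ Bdd hv :=
  ⟨fun i l => BS.comp (hc.1 i l) f, fun i l => BS.comp (hc.2 i l) f⟩

lemma Bdd.of_mod {c : ℕ → GL n Ω} {r : ℕ} (hr : 0 < r)
    (h : ∀ i < r, (fun j => c (r * j + i)) ∈ Bdd hv) : c ∈ Bdd hv :=
  ⟨fun i l => BS.of_mod hr fun k hk => (h k hk).1 i l,
    fun i l => BS.of_mod hr fun k hk => (h k hk).2 i l⟩

end Val

/-- diagonal units -/
noncomputable def dU {R : Type} [CommRing R] : (n → Rˣ) →* GL n R :=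
  (Units.map (Matrix.diagonalRingHom n R).toMonoidHom).comp MulEquiv.piUnits.symm.toMonoidHom

@[simp] lemma dU_val {R : Type} [CommRing R] (t : n → Rˣ) :
    (dU t).val = Matrix.diagonal fun i => (t i : R) := rfl

/-- the action of field automorphisms on `GL n` -/
def ga (n : Type) [Fintype n] [DecidableEq n] (Ω : Type) [Field Ω] :
    (Ω ≃+* Ω) →* MulAut (GL n Ω) where
  toFun θ := Units.mapEquiv θ.mapMatrix.toMulEquiv
  map_one' := rfl
  map_mul' _ _ := rfl

@[simp] lemma ga_val (θ : Ω ≃+* Ω) (g : GL n Ω) : (ga n Ω θ g).val = g.val.map θ := rfl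

lemma bdd_ga {v : Ω → ℚ} {hv : Val v} {c : ℕ → GL n Ω} (hc : c ∈ Bdd hv) (θ : ℕ → Ω ≃+* Ω)
    (hθ : ∀ j z, v (θ j z) = v z) : (fun j => ga n Ω (θ j) (c j)) ∈ Bdd hv :=
  ⟨hc.1.map θ hθ, by simp only [← map_inv]; exact hc.2.map θ hθ⟩

lemma bdd_dU {v : Ω → ℚ} {hv : Val v} {t : ℕ → n → Ωˣ} (ht : ∀ j i, v (t j i) = 0) :
    (fun j => dU (t j)) ∈ Bdd hv := by
  have key : ∀ {t : ℕ → n → Ωˣ}, (∀ j i, v (t j i) = 0) → MB hv fun j => (dU (t j)).val :=
    fun ht i l => ⟨0, fun j => by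
      by_cases h : i = l
      · subst h; exact Or.inr (by simp [ht])
      · exact Or.inl (by simp [h])⟩
  refine ⟨key ht, ?_⟩
  simp only [← map_inv]
  exact key fun j i => by simp [mulv_inv hv.mul, ht]

/-- semilinear automorphisms of `Ωⁿ` -/
abbrev SL (n : Type) [Fintype n] [DecidableEq n] (Ω : Type) [Field Ω] : Type :=
  GL n Ω ⋊[ga n Ω] (Ω ≃+* Ω)

/-- the action of a semilinear automorphism on matrices -/
def ac (φ : SL n Ω) : Matrix n n Ω →+* Matrix n n Ω where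
  toFun X := φ.left.val * X.map φ.right * (φ.left⁻¹).val
  map_one' := by simp
  map_mul' X Y := by
    simp only [Matrix.map_mul, mul_assoc, Units.inv_mul_cancel_left]
  map_zero' := by simp
  map_add' X Y := by simp [Matrix.map_add, mul_add, add_mul]

lemma ac_apply (φ : SL n Ω) (X : Matrix n n Ω) :
    ac φ X = φ.left.val * X.map φ.right * (φ.left⁻¹).val := rfl

lemma ac_mul (φ φ' : SL n Ω) (X : Matrix n n Ω) : ac (φ * φ') X = ac φ (ac φ' X) := by
  simp only [ac_apply, SemidirectProduct.mul_left, SemidirectProduct.mul_right, mul_inv_rev,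
    Units.val_mul, ← map_inv, ga_val, Matrix.map_mul, mul_assoc]
  rfl

@[simp] lemma ac_one (X : Matrix n n Ω) : ac 1 X = X := by
  simp only [ac_apply, SemidirectProduct.one_left, SemidirectProduct.one_right, inv_one,
    Units.val_one, one_mul, mul_one]
  rfl

lemma ac_inl (g : GL n Ω) (X : Matrix n n Ω) :
    ac (SemidirectProduct.inl g) X = g.val * X * (g⁻¹).val := rfl

lemma ac_inr (θ : Ω ≃+* Ω) (X : Matrix n n Ω) : ac (SemidirectProduct.inr θ) X = X.map θ := by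
  simp [ac_apply]

lemma ac_inv_ac (φ : SL n Ω) (X : Matrix n n Ω) : ac φ⁻¹ (ac φ X) = X := by
  rw [← ac_mul, inv_mul_cancel, ac_one]

lemma ac_ac_inv (φ : SL n Ω) (X : Matrix n n Ω) : ac φ (ac φ⁻¹ X) = X := by
  rw [← ac_mul, mul_inv_cancel, ac_one]

lemma ac_smul (φ : SL n Ω) (c : Ω) (X : Matrix n n Ω) : ac φ (c • X) = φ.right c • ac φ X := by
  have : (c • X).map φ.right = φ.right c • X.map φ.right := by ext; simp
  simp [ac_apply, this]

/-- the action on `GL n` -/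
def acu (φ : SL n Ω) : GL n Ω →* GL n Ω := Units.map (ac φ).toMonoidHom

@[simp] lemma acu_val (φ : SL n Ω) (g : GL n Ω) : (acu φ g).val = ac φ g.val := rfl

lemma acu_eq (φ : SL n Ω) (g : GL n Ω) : acu φ g = φ.left * ga n Ω φ.right g * φ.left⁻¹ :=
  Units.ext rfl

lemma inl_acu (φ : SL n Ω) (g : GL n Ω) :
    (SemidirectProduct.inl (acu φ g) : SL n Ω) = φ * SemidirectProduct.inl g * φ⁻¹ := by
  rw [eq_mul_inv_iff_mul_eq]
  ext <;> simp [acu_eq]

lemma acu_mul (φ φ' : SL n Ω) (g : GL n Ω) : acu (φ * φ') g = acu φ (acu φ' g) :=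
  Units.ext (ac_mul _ _ _)

lemma acu_inl (k g : GL n Ω) : acu (SemidirectProduct.inl k) g = k * g * k⁻¹ := Units.ext rfl

lemma acu_inr (θ : Ω ≃+* Ω) (g : GL n Ω) : acu (SemidirectProduct.inr θ) g = ga n Ω θ g :=
  Units.ext (ac_inr _ _)

/-- a compatible system of rational powers of an element of valuation one -/
structure Pw (v : Ω → ℚ) (pw : ℚ → Ωˣ) : Prop where
  add : ∀ a b, pw (a + b) = pw a * pw b
  val : ∀ a, v (pw a) = a

/-- the powers of `φ` grow like `k · p ^ (j h)` -/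
def NP {v : Ω → ℚ} (hv : Val v) (pw : ℚ → Ωˣ) (φ : SL n Ω) (k : GL n Ω) (h : n → ℚ) : Prop :=
  (fun j : ℕ => (k * dU fun i => pw (j * h i))⁻¹ * (φ ^ j).left) ∈ Bdd hv

end Pool.Agent.P.MP_7d29e8_ag
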