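import Pool.Agent.P.MP_7d29e8_ag.HValA

set_option autoImplicit false

/-! Rational powers, uniformizers with norm of valuation one, Galois descent. -/

namespace Pool.Agent.P.MP_7d29e8_ag

theorem hvb_pw {Ω : Type} [Field Ω] [IsAlgClosed Ω] {v : Ω → ℚ} (hv : Val v) {c : Ω} (hc : c ≠ 0)
    (h1 : v c = 1) : ∃ pw : ℚ → Ωˣ, Pw v pw := by
  let _ : DivisibleBy (Additive Ωˣ) ℕ := divisibleByOfSMulRightSurj (Additive Ωˣ) ℕ
    fun {n} hn x => by
      obtain ⟨z, hz⟩ := IsAlgClosed.exists_pow_nat_eq ((Additive.toMul x : Ωˣ) : Ω)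
        (Nat.pos_of_ne_zero hn)
      have hz0 : z ≠ 0 := by
        rintro rfl
        rw [zero_pow hn] at hz
        exact (Additive.toMul x).ne_zero hz.symm
      refine ⟨Additive.ofMul (Units.mk0 z hz0), ?_⟩
      apply Additive.toMul.injective
      ext
      simpa using hz
  let _ : DivisibleBy (Additive Ωˣ) ℤ := AddGroup.divisibleByIntOfDivisibleByNat _
  obtain ⟨h, hh⟩ := (Module.Baer.of_divisible (Additive Ωˣ)).extension_property_addMonoidHom
    (Int.castAddHom ℚ) Int.cast_injective (zmultiplesHom _ (Additive.ofMul (Units.mk0 c hc)))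
  refine ⟨fun a => Additive.toMul (h a), fun a b => by simp, fun a => ?_⟩
  have e1 : ((Additive.toMul (h a) : Ωˣ) : Ω) ^ a.den = c ^ a.num := by
    have e2 : h (a.num : ℚ) = a.num • Additive.ofMul (Units.mk0 c hc) := by
      simpa using DFunLike.congr_fun hh a.num
    have e3 : (a.num : ℚ) = a.den • a := by
      rw [nsmul_eq_mul, mul_comm, Rat.mul_den_eq_num]
    rw [e3, map_nsmul] at e2
    have e4 := congrArg (fun x => ((Additive.toMul x : Ωˣ) : Ω)) e2
    simpa using e4
  have e5 := congrArg v e1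
  rw [mulv_pow hv.mul (Units.ne_zero _), mulv_zpow hv.mul hc, h1, mul_one,
    ← Rat.mul_den_eq_num, mul_comm a] at e5
  exact mul_left_cancel₀ (Nat.cast_ne_zero.2 a.den_nz) e5

theorem hvb_unif {O : Type} [CommRing O] [IsDomain O] [IsDiscreteValuationRing O] [CharZero O]
    {π : O} (hπ : Irreducible π) {k : Type} [Field k] [IsAlgClosed k]
    (e : O ⧸ Ideal.span {π} ≃+* k) (K L : Type) [Field K] [Algebra O K] [IsFractionRing O K]
    [CharZero K] [Field L] [Algebra O L] [Algebra K L] [IsScalarTower O K L]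
    [FiniteDimensional K L] :
    ∃ (x : L) (u : Oˣ), Algebra.norm K x =
      algebraMap O K (u * π) := by
  let B := integralClosure O L
  have : IsDedekindDomain B := IsIntegralClosure.isDedekindDomain O K L B
  have : Module.Finite O B := IsIntegralClosure.finite O K L B
  have hinj : Function.Injective (algebraMap O L) := by
    rw [IsScalarTower.algebraMap_eq O K L]
    exact (algebraMap K L).injective.comp (IsFractionRing.injective O _)
  have : FaithfulSMul O L := (faithfulSMul_iff_algebraMap_injective O L).2 hinj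
  have : Module.IsTorsionFree O B := inferInstance
  have hm : Ideal.span {π} = IsLocalRing.maximalIdeal O :=
    ((IsDiscreteValuationRing.irreducible_iff_uniformizer π).1 hπ).symm
  have : (Ideal.span {π}).IsMaximal := hm ▸ inferInstance
  obtain ⟨P, hP, hPp⟩ : ∃ P : Ideal B, P.IsMaximal ∧ P.LiesOver (Ideal.span {π}) :=
    Ideal.exists_maximal_ideal_liesOver_of_isIntegral _
  have : IsPrincipalIdealRing B := by
    refine IsPrincipalIdealRing.of_finite_maximals
      ((Algebra.QuasiFinite.finite_primesOver (S := B) (Ideal.span {π})).subset fun Q hQ => ?_)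
    have hQ' : Q.IsMaximal := hQ
    refine ⟨hQ'.isPrime, ⟨?_⟩⟩
    rw [hm]
    exact (IsLocalRing.eq_maximalIdeal
      (Ideal.isMaximal_comap_of_isIntegral_of_isMaximal (R := O) Q)).symm
  have hf : P.inertiaDeg O = 1 := by
    rw [Ideal.inertiaDeg_eq_of_isMaximal (Ideal.span {π}) P]
    let _ : Field (O ⧸ Ideal.span {π}) := Ideal.Quotient.field _
    have : IsAlgClosed (O ⧸ Ideal.span {π}) := IsAlgClosed.of_ringEquiv k _ e.symm
    have hb := IsAlgClosed.algebraMap_bijective_of_isIntegral (k := O ⧸ Ideal.span {π})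
      (K := B ⧸ P)
    rw [← (LinearEquiv.ofBijective (Algebra.linearMap (O ⧸ Ideal.span {π}) (B ⧸ P)) hb).finrank_eq,
      Module.finrank_self]
  have hN := Ideal.relNorm_eq_pow_of_isMaximal P (Ideal.span {π})
  obtain ⟨x, hx⟩ := (IsPrincipalIdealRing.principal P).principal
  rw [hf, pow_one, hx, Ideal.submodule_span_eq, Ideal.relNorm_singleton,
    Ideal.span_singleton_eq_span_singleton] at hN
  obtain ⟨u, hu⟩ := hN.symm
  refine ⟨algebraMap B L x, u, ?_⟩
  rw [← Algebra.algebraMap_intNorm (A := O) (K := K) (L := L) x, ← hu, mul_comm]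

theorem hvb_transversal {K Ω : Type} [Field K] [CharZero K] [Field Ω] [Algebra K Ω]
    [IsAlgClosure K Ω] {n : Type} [Fintype n] (A : Matrix n n Ω)
    (x : IntermediateField.adjoin K (Set.range fun q : n × n => A q.1 q.2)) :
    ∃ l : List (Ω ≃ₐ[K] Ω), l.Nodup ∧
      (∀ τ : Ω ≃ₐ[K] Ω, ∃! ρ, ρ ∈ l ∧ ρ x = τ x ∧ A.map ρ = A.map τ) ∧
      (l.map fun ρ => ρ x).prod = algebraMap K Ω (Algebra.norm K x) := by
  classical
  have : IsAlgClosed Ω := IsAlgClosure.isAlgClosed K
  let L := IntermediateField.adjoin K (Set.range fun q : n × n => A q.1 q.2)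
  have : FiniteDimensional K L :=
    IntermediateField.finiteDimensional_adjoin fun y _ => Algebra.IsIntegral.isIntegral y
  have hex : ∀ σ : L →ₐ[K] Ω, ∃ ρ : Ω ≃ₐ[K] Ω, ∀ y : L, ρ y = σ y := fun σ =>
    ⟨AlgEquiv.ofBijective (σ.liftNormal Ω) (AlgHom.normal_bijective K Ω Ω _), fun y =>
      σ.liftNormal_commutes Ω y⟩
  choose ex hex using hex
  have hinj : Function.Injective ex := fun σ σ' h => AlgHom.ext fun y => by
    rw [← hex, ← hex, h]
  have hA : ∀ i j, A i j ∈ L := fun i j => IntermediateField.subset_adjoin K _ ⟨(i, j), rfl⟩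
  refine ⟨Finset.univ.toList.map ex, (Finset.nodup_toList _).map hinj, fun τ => ?_, ?_⟩
  · refine ⟨ex (τ.toAlgHom.comp L.val), ⟨List.mem_map_of_mem (by simp), hex _ x, ?_⟩, ?_⟩
    · ext i j
      exact hex _ ⟨A i j, hA i j⟩
    · rintro ρ ⟨hρ, -, hρA⟩
      obtain ⟨σ, -, rfl⟩ := List.mem_map.1 hρ
      congr 1
      refine IntermediateField.adjoin_algHom_ext K ?_
      rintro _ ⟨⟨i, j⟩, rfl⟩
      rw [← hex]
      exact congrFun (congrFun hρA i) j
  · rw [List.map_map, Finset.prod_map_toList, Algebra.norm_eq_prod_embeddings]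
    exact Finset.prod_congr rfl fun σ _ => hex σ x

theorem hvb_descent {K Ω : Type} [Field K] [Field Ω] [CharZero Ω] [Algebra K Ω]
    [Algebra.IsAlgebraic K Ω] {n : Type} [Fintype n] (V : Submodule Ω (Matrix n n Ω))
    (hV : ∀ τ : Ω ≃ₐ[K] Ω, ∀ X ∈ V, X.map τ ∈ V) :
    V ≤ Submodule.span Ω {X | X ∈ V ∧ ∀ τ : Ω ≃ₐ[K] Ω, X.map τ = X} := by
  classical
  suffices h : ∀ (m : ℕ) (X : Matrix n n Ω), X ∈ V →
      (Finset.univ.filter fun q : n × n => X q.1 q.2 ≠ 0).card ≤ m →
      X ∈ Submodule.span Ω {X | X ∈ V ∧ ∀ τ : Ω ≃ₐ[K] Ω, X.map τ = X} from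
    fun X hX => h _ X hX le_rfl
  intro m
  induction m with
  | zero =>
    intro X _ hX
    have : X = 0 := by
      ext i j
      by_contra h
      have := Finset.card_eq_zero.1 (Nat.le_zero.1 hX)
      exact Finset.notMem_empty (i, j) (this ▸ Finset.mem_filter.2 ⟨Finset.mem_univ _, h⟩)
    rw [this]; exact zero_mem _
  | succ m ih =>
    intro X hX hc
    by_cases h0 : X = 0
    · rw [h0]; exact zero_mem _
    obtain ⟨i, j, hij⟩ : ∃ i j, X i j ≠ 0 := by
      by_contra h
      push Not at h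
      exact h0 (Matrix.ext h)
    set Y := (X i j)⁻¹ • X with hY
    have hYV : Y ∈ V := V.smul_mem _ hX
    have hfin : (Set.range fun τ : Ω ≃ₐ[K] Ω => Y.map τ).Finite := by
      refine (Set.Finite.pi' fun a : n => Set.Finite.pi' fun b : n =>
        Polynomial.rootSet_finite (minpoly K (Y a b)) Ω).subset ?_
      rintro _ ⟨τ, rfl⟩ a b
      rw [Polynomial.mem_rootSet]
      refine ⟨minpoly.ne_zero (Algebra.IsIntegral.isIntegral _), ?_⟩
      change Polynomial.aeval (τ (Y a b)) _ = 0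
      rw [Polynomial.aeval_algHom_apply, minpoly.aeval, map_zero]
    set Z := ∑ W ∈ hfin.toFinset, W with hZ
    have hZV : Z ∈ V := V.sum_mem fun W hW => by
      obtain ⟨τ, rfl⟩ := hfin.mem_toFinset.1 hW
      exact hV τ Y hYV
    have hZf : ∀ τ : Ω ≃ₐ[K] Ω, Z.map τ = Z := by
      intro τ
      have e : Z.map τ = ∑ W ∈ hfin.toFinset, W.map τ := by
        ext a b
        simp [hZ, Matrix.sum_apply]
      rw [e]
      refine Finset.sum_nbij' (fun W => W.map τ) (fun W => W.map τ.symm) ?_ ?_ ?_ ?_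
        fun _ _ => rfl
      · intro W hW
        obtain ⟨ρ, rfl⟩ := hfin.mem_toFinset.1 hW
        exact hfin.mem_toFinset.2 ⟨ρ.trans τ, rfl⟩
      · intro W hW
        obtain ⟨ρ, rfl⟩ := hfin.mem_toFinset.1 hW
        exact hfin.mem_toFinset.2 ⟨ρ.trans τ.symm, rfl⟩
      · intro W _; ext a b; simp
      · intro W _; ext a b; simp
    have hZij : Z i j = hfin.toFinset.card := by
      rw [hZ, Matrix.sum_apply, Finset.sum_congr rfl (g := fun _ => (1 : Ω)) fun W hW => ?_]
      · simp
      · obtain ⟨τ, rfl⟩ := hfin.mem_toFinset.1 hW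
        simp [hY, inv_mul_cancel₀ hij]
    have hZ0 : Z i j ≠ 0 := by
      rw [hZij, Nat.cast_ne_zero, ← Nat.pos_iff_ne_zero, Finset.card_pos]
      exact ⟨_, hfin.mem_toFinset.2 ⟨AlgEquiv.refl, rfl⟩⟩
    have hZs : ∀ a b, X a b = 0 → Z a b = 0 := fun a b h => by
      rw [hZ, Matrix.sum_apply]
      refine Finset.sum_eq_zero fun W hW => ?_
      obtain ⟨τ, rfl⟩ := hfin.mem_toFinset.1 hW
      simp [hY, h]
    have h1 := ih (X - (X i j / Z i j) • Z) (V.sub_mem hX (V.smul_mem _ hZV)) (by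
      refine Nat.le_of_lt_succ (lt_of_lt_of_le (Finset.card_lt_card ⟨?_, fun h => ?_⟩) hc)
      · intro q hq
        simp only [Finset.mem_filter, Finset.mem_univ, true_and] at hq ⊢
        intro h
        exact hq (by simp [h, hZs _ _ h])
      · have := h (Finset.mem_filter.2 ⟨Finset.mem_univ (i, j), hij⟩)
        simp only [Finset.mem_filter, Finset.mem_univ, true_and] at this
        exact this (by simp [div_mul_cancel₀ _ hZ0]))
    have h2 : (X i j / Z i j) • Z ∈
        Submodule.span Ω {X | X ∈ V ∧ ∀ τ : Ω ≃ₐ[K] Ω, X.map τ = X} :=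
      Submodule.smul_mem _ _ (Submodule.subset_span ⟨hZV, hZf⟩)
    simpa using add_mem h1 h2

end Pool.Agent.P.MP_7d29e8_ag
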