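import Pool.Agent.P.MP_7d29e8_ag.HDefs
import Pool.Agent.P.MP_7d29e8_ag.HBdd
import Pool.Agent.P.MP_7d29e8_ag.HValB

set_option autoImplicit false

/-! The valuation on the algebraic closure of `K = Frac W(𝔽̄_p)`, uniformizers, Galois descent. -/

namespace Pool.Agent.P.MP_7d29e8_ag

variable {p : ℕ} [Fact p.Prime]

lemma charZero_W : CharZero (WittVector p (AlgebraicClosure (ZMod p))) := by
  refine charZero_of_inj_zero fun n hn => ?_
  by_contra h0
  obtain ⟨k, m, hm, rfl⟩ := Nat.exists_eq_pow_mul_and_not_dvd h0 p (Fact.out : p.Prime).ne_one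
  rw [Nat.cast_mul, Nat.cast_pow, mul_eq_zero] at hn
  rcases hn with hn | hn
  · exact pow_ne_zero _ (WittVector.p_nonzero p _) hn
  · have := congrArg (WittVector.constantCoeff : WittVector p (AlgebraicClosure (ZMod p)) →+* _) hn
    rw [map_natCast, map_zero, CharP.cast_eq_zero_iff _ p] at this
    exact hm this

section Gen

variable {K Ω : Type} [Field K] [Field Ω] [Algebra K Ω] [IsAlgClosure K Ω] [CharZero K]

theorem fixed_mem (a : Ω) (h : ∀ τ : Ω ≃ₐ[K] Ω, τ a = a) : ∃ k : K, algebraMap K Ω k = a :=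
  (InfiniteGalois.mem_range_algebraMap_iff_fixed a).2 h

theorem descent [CharZero Ω] {n : Type} [Fintype n] (V : Submodule Ω (Matrix n n Ω))
    (hV : ∀ τ : Ω ≃ₐ[K] Ω, ∀ X ∈ V, X.map τ ∈ V) :
    V ≤ Submodule.span Ω {X | X ∈ V ∧ ∀ τ : Ω ≃ₐ[K] Ω, X.map τ = X} :=
  hvb_descent V hV

end Gen

variable {K Ω : Type} [Field K] [Field Ω] [Algebra (WittVector p (AlgebraicClosure (ZMod p))) K]
  [IsFractionRing (WittVector p (AlgebraicClosure (ZMod p))) K] [Algebra K Ω] [IsAlgClosure K Ω]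

lemma charZero_K (p : ℕ) [Fact p.Prime] (K : Type) [Field K]
    [Algebra (WittVector p (AlgebraicClosure (ZMod p))) K]
    [IsFractionRing (WittVector p (AlgebraicClosure (ZMod p))) K] : CharZero K :=
  haveI := charZero_W (p := p)
  charZero_of_injective_algebraMap
    (IsFractionRing.injective (WittVector p (AlgebraicClosure (ZMod p))) K)

theorem exists_val (σ : K ≃+* K) (hσ : ∀ o : WittVector p (AlgebraicClosure (ZMod p)),
      σ (algebraMap _ K o) = algebraMap _ K (WittVector.frobenius o)) (s : Ω ≃+* Ω)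
    (hs : ∀ a, s (algebraMap K Ω a) = algebraMap K Ω (σ a)) :
    ∃ (v : Ω → ℚ) (pw : ℚ → Ωˣ), Val v ∧ Pw v pw ∧
      (∀ (τ : Ω ≃ₐ[K] Ω) a, v (τ a) = v a) ∧ (∀ a, v (s a) = v a) ∧ v (p : Ω) = 1 ∧
      (∀ a : K, a ≠ 0 → ((∃ o : WittVector p (AlgebraicClosure (ZMod p)), algebraMap _ K o = a) ↔
        0 ≤ v (algebraMap K Ω a))) ∧
      (∀ a : K, a ≠ 0 → ∃ m : ℤ, v (algebraMap K Ω a) = m) := by
  have := charZero_K p K
  have := charZero_of_injective_algebraMap (algebraMap K Ω).injective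
  have := IsAlgClosure.isAlgClosed K (K := Ω)
  have hπ : Irreducible (p : WittVector p (AlgebraicClosure (ZMod p))) := WittVector.irreducible p
  obtain ⟨v, hv, h1, h2⟩ := hva_val (K := K) hπ Ω
  obtain ⟨ord, -, hord⟩ := hva_ord (K := K) hπ
  have hp : v (p : Ω) = 1 := by simpa using h1 1 1
  obtain ⟨pw, hpw⟩ := hvb_pw hv (Nat.cast_ne_zero.2 (Fact.out : p.Prime).ne_zero) hp
  refine ⟨v, pw, hv, hpw, fun τ => h2 τ.toRingEquiv fun u m => ⟨u, τ.commutes _⟩,
    h2 s fun u m => ⟨Units.map (WittVector.frobenius (p := p)).toMonoidHom u, ?_⟩,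
    hp, fun a ha => ⟨?_, fun h => ?_⟩, fun a ha => ?_⟩
  · rw [hs, map_mul, map_zpow₀, map_natCast, map_natCast, hσ]
    rfl
  · rintro ⟨o, rfl⟩
    have ho : o ≠ 0 := fun h => ha (by rw [h, map_zero])
    obtain ⟨k, u, rfl⟩ := IsDiscreteValuationRing.eq_unit_mul_pow_irreducible ho hπ
    rw [map_mul, map_pow, ← zpow_natCast, h1]
    simp
  · obtain ⟨u, hu⟩ := hord a ha
    rw [hu, h1] at h
    obtain ⟨k, hk⟩ := Int.eq_ofNat_of_zero_le (Int.cast_nonneg_iff.1 h)
    exact ⟨u * p ^ k, by rw [hu, hk, map_mul, map_pow, zpow_natCast]⟩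
  · obtain ⟨u, hu⟩ := hord a ha
    exact ⟨ord a, by rw [hu, h1, ← hu]⟩

theorem exists_transversal {n : Type} [Fintype n] (A : Matrix n n Ω) :
    ∃ (e : Ω) (l : List (Ω ≃ₐ[K] Ω)) (u : (WittVector p (AlgebraicClosure (ZMod p)))ˣ),
      e ≠ 0 ∧ l.Nodup ∧ (∀ τ : Ω ≃ₐ[K] Ω, ∃! ρ, ρ ∈ l ∧ ρ e = τ e ∧ A.map ρ = A.map τ) ∧
      (l.map fun ρ => ρ e).prod = algebraMap K Ω (algebraMap _ K u.val) * (p : Ω) ^ (1 : ℤ) := by
  have := charZero_K p K
  have := charZero_W (p := p)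
  have hπ : Irreducible (p : WittVector p (AlgebraicClosure (ZMod p))) := WittVector.irreducible p
  let L := IntermediateField.adjoin K (Set.range fun q : n × n => A q.1 q.2)
  have : FiniteDimensional K L :=
    IntermediateField.finiteDimensional_adjoin fun y _ => Algebra.IsIntegral.isIntegral y
  let _ : Algebra (WittVector p (AlgebraicClosure (ZMod p))) L :=
    ((algebraMap K L).comp (algebraMap _ K)).toAlgebra
  have : IsScalarTower (WittVector p (AlgebraicClosure (ZMod p))) K L :=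
    IsScalarTower.of_algebraMap_eq fun _ => rfl
  obtain ⟨x, u, hx⟩ := hvb_unif hπ WittVector.quotientPEquiv K L
  obtain ⟨l, h1, h2, h3⟩ := hvb_transversal A x
  refine ⟨x, l, u, fun h0 => ?_, h1, h2, ?_⟩
  · have hx0 : x = 0 := Subtype.ext h0
    rw [hx0, Algebra.norm_zero, eq_comm, map_eq_zero_iff _ (IsFractionRing.injective _ _)] at hx
    exact mul_ne_zero u.ne_zero hπ.ne_zero hx
  · rw [h3, hx, map_mul, map_mul, map_natCast, map_natCast, zpow_one]

end Pool.Agent.P.MP_7d29e8_ag
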