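import Pool.Agent.P.MP_7d29e8_ag.FD1
import Pool.Agent.P.MP_7d29e8_ag.HVal

set_option autoImplicit false
set_option linter.unusedSectionVars false
set_option linter.unusedVariables false

/-! Approximate solutions of homogeneous equations over the maximal unramified extension. -/

namespace Pool.Agent.P.MP_7d29e8_ag

open Finset
open scoped Classical

variable {p : ℕ} [Fact p.Prime] {K Ω : Type} [Field K] [Field Ω]
  [Algebra (WittVector p (AlgebraicClosure (ZMod p))) K]
  [IsFractionRing (WittVector p (AlgebraicClosure (ZMod p))) K] [Algebra K Ω] [IsAlgClosure K Ω]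
  {σ : K ≃+* K} {s : Ω ≃+* Ω} {v : Ω → ℚ}

/-- coordinate primes -/
noncomputable def cp_FD7 (k : Type) {α : Type} [Field k] (T : Finset α) :
    Ideal (MvPolynomial α k) :=
  RingHom.ker (MvPolynomial.aeval (R := k)
    (fun i => if i ∈ T then (0 : MvPolynomial α k) else MvPolynomial.X i)).toRingHom

lemma cp_prime_FD7 (k : Type) {α : Type} [Field k] (T : Finset α) : (cp_FD7 k T).IsPrime :=
  RingHom.ker_isPrime _

lemma cp_mem_FD7 {k α : Type} [Field k] (T : Finset α) (f : MvPolynomial α k) :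
    f ∈ cp_FD7 k T ↔ MvPolynomial.aeval (R := k)
      (fun i => if i ∈ T then (0 : MvPolynomial α k) else MvPolynomial.X i) f = 0 := Iff.rfl

lemma cp_comp_FD7 {k α A : Type} [Field k] [CommRing A] [Algebra k A] (T : Finset α)
    (g : α → A) (hg : ∀ i ∈ T, g i = 0) {f : MvPolynomial α k} (hf : f ∈ cp_FD7 k T) :
    MvPolynomial.aeval g f = 0 := by
  have h : (MvPolynomial.aeval (R := k) g).comp (MvPolynomial.aeval (R := k)
      (fun i => if i ∈ T then (0 : MvPolynomial α k) else MvPolynomial.X i)) =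
      MvPolynomial.aeval g := by
    refine MvPolynomial.algHom_ext fun i => ?_
    by_cases hi : i ∈ T
    · simp [hi, hg i hi]
    · simp [hi]
  rw [← h, AlgHom.comp_apply, (cp_mem_FD7 T f).1 hf, map_zero]

lemma cp_height_FD7 (k : Type) {α : Type} [Field k] (T : Finset α) :
    (T.card : ℕ∞) ≤ (cp_FD7 k T).height := by
  induction T using Finset.induction_on with
  | empty => simp
  | insert a T ha ih =>
    have h1 := cp_prime_FD7 k T
    have h2 := cp_prime_FD7 k (insert a T)
    have hlt : cp_FD7 k T < cp_FD7 k (insert a T) := by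
      refine lt_of_le_of_ne (fun f hf => ?_) fun h => ?_
      · rw [cp_mem_FD7]
        exact cp_comp_FD7 T _ (fun i hi => by simp [hi]) hf
      · have : MvPolynomial.X a ∈ cp_FD7 k (insert a T) := by
          rw [cp_mem_FD7]; simp
        rw [← h, cp_mem_FD7] at this
        simp [ha] at this
    rw [card_insert_of_notMem ha, Nat.cast_add, Nat.cast_one]
    exact (add_le_add ih le_rfl).trans (Ideal.height_add_one_le_of_lt_of_isPrime hlt)

/-- fewer equations than unknowns -/
theorem exists_zero {k α : Type} [Field k] [IsAlgClosed k] [Fintype α] {r : ℕ}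
    (hr : r < Fintype.card α) (f : Fin r → MvPolynomial α k)
    (h0 : ∀ i, MvPolynomial.eval 0 (f i) = 0) :
    ∃ ξ : α → k, ξ ≠ 0 ∧ ∀ i, MvPolynomial.eval ξ (f i) = 0 := by
  by_contra hne
  push Not at hne
  set I : Ideal (MvPolynomial α k) := Ideal.span ((univ.image f : Finset _) : Set _) with hI
  have hz : MvPolynomial.zeroLocus k I = {0} := by
    rw [hI, MvPolynomial.zeroLocus_span]
    ext ξ
    simp only [coe_image, coe_univ, Set.image_univ, Set.mem_range, forall_exists_index,
      forall_apply_eq_imp_iff, Set.mem_setOf_eq, Set.mem_singleton_iff,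
      MvPolynomial.coe_aeval_eq_eval]
    refine ⟨fun h => ?_, fun h => h ▸ h0⟩
    by_contra hξ
    obtain ⟨i, hi⟩ := hne ξ hξ
    exact hi (h i)
  have hrad : MvPolynomial.vanishingIdeal k ({0} : Set (α → k)) = I.radical := by
    rw [← hz, MvPolynomial.vanishingIdeal_zeroLocus_eq_radical]
  have hmin : MvPolynomial.vanishingIdeal k ({0} : Set (α → k)) ∈ I.minimalPrimes := by
    rw [← Ideal.radical_minimalPrimes, ← hrad, Ideal.minimalPrimes_eq_subsingleton_self]
    rfl
  have h1 := Ideal.height_le_card_of_mem_minimalPrimes_span_finset hmin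
  have h2 : cp_FD7 k (univ : Finset α) ≤ MvPolynomial.vanishingIdeal k ({0} : Set (α → k)) := by
    intro g hg
    rw [MvPolynomial.mem_vanishingIdeal_singleton_iff]
    exact cp_comp_FD7 univ _ (fun _ _ => rfl) hg
  have h3 := ((cp_height_FD7 k (univ : Finset α)).trans (Ideal.height_mono h2)).trans h1
  have h4 : (univ.image f).card ≤ r := card_image_le.trans (by simp)
  rw [Nat.cast_le, card_univ] at h3
  omega

/-- approximate zeros in Witt vectors of finite length -/
theorem witt_zero {N d : ℕ} (hN : 0 < N) (hd : 0 < d)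
    (D : MvPolynomial (Fin N) (WittVector p (AlgebraicClosure (ZMod p))))
    (hD : D.IsHomogeneous d) (m : ℕ) (hm : 0 < m) :
    ∃ x : Fin N → WittVector p (AlgebraicClosure (ZMod p)), x ≠ 0 ∧
      (∀ i j, m ≤ j → (x i).coeff j = 0) ∧
      ∀ j < N * m - 1, (MvPolynomial.eval x D).coeff j = 0 := by
  let U : Fin N → WittVector p (MvPolynomial (Fin N × Fin m) (AlgebraicClosure (ZMod p))) :=
    fun i => WittVector.mk p fun j => if h : j < m then MvPolynomial.X (i, ⟨j, h⟩) else 0
  let x : (Fin N × Fin m → AlgebraicClosure (ZMod p)) → Fin N →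
      WittVector p (AlgebraicClosure (ZMod p)) :=
    fun ξ i => WittVector.map (MvPolynomial.eval ξ) (U i)
  have hx : ∀ ξ i j, (x ξ i).coeff j = if h : j < m then ξ (i, ⟨j, h⟩) else 0 := by
    intro ξ i j
    simp only [x, U, WittVector.map_coeff, WittVector.coeff_mk]
    split_ifs <;> simp
  let P : ℕ → MvPolynomial (Fin N × Fin m) (AlgebraicClosure (ZMod p)) :=
    fun j => (MvPolynomial.eval₂ (WittVector.map MvPolynomial.C) U D).coeff j
  have hP : ∀ ξ j, MvPolynomial.eval ξ (P j) = (MvPolynomial.eval (x ξ) D).coeff j := by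
    intro ξ j
    have e : (WittVector.map (p := p) (MvPolynomial.eval ξ)).comp
        (WittVector.map (p := p) MvPolynomial.C) = RingHom.id _ := by
      ext a l
      simp [WittVector.map_coeff]
    simp only [P]
    rw [← WittVector.map_coeff, MvPolynomial.eval₂_comp_left, e]
    rfl
  have hcard : N * m - 1 < Fintype.card (Fin N × Fin m) := by
    have := Nat.mul_pos hN hm
    simp only [Fintype.card_prod, Fintype.card_fin]
    omega
  obtain ⟨ξ, h0, hξ⟩ := exists_zero hcard (fun j => P j) fun j => by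
    have e : x 0 = 0 := by
      funext i
      ext l
      rw [hx]
      simp
    rw [hP, e, MvPolynomial.eval_zero, MvPolynomial.constantCoeff_eq,
      hD.coeff_eq_zero (by simpa using hd.ne), WittVector.zero_coeff]
  refine ⟨x ξ, fun h => h0 ?_, fun i j hj => ?_, fun j hj => ?_⟩
  · funext q
    have := hx ξ q.1 q.2
    rw [h, dif_pos q.2.2] at this
    simpa using this.symm
  · rw [hx, dif_neg (not_lt.2 hj)]
  · rw [← hP]
    exact hξ ⟨j, hj⟩

lemma scale_FD7 {R S τ : Type} [CommRing R] [CommRing S] [Fintype τ] (f : R →+* S)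
    {D : MvPolynomial τ R} {d : ℕ} (hD : D.IsHomogeneous d) (c : S) (x : τ → S) :
    MvPolynomial.eval₂ f (fun i => c * x i) D = c ^ d * MvPolynomial.eval₂ f x D := by
  rw [MvPolynomial.eval₂_eq', MvPolynomial.eval₂_eq', mul_sum]
  refine sum_congr rfl fun a ha => ?_
  have h : ∑ i, a i = d := by
    have := hD (MvPolynomial.mem_support_iff.1 ha)
    rw [← this, Finsupp.weight_apply, Finsupp.sum_fintype _ _ (by simp)]
    simp
  simp only [mul_pow, prod_mul_distrib, prod_pow_eq_pow_sum, h]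
  ring

lemma frob_fix_FD7 (S : Set (AlgebraicClosure (ZMod p))) (hS : S.Finite) :
    ∃ r : ℕ, 0 < r ∧ ∀ a ∈ S, a ^ p ^ r = a := by
  have := hS.to_subtype
  let L := IntermediateField.adjoin (ZMod p) S
  have : FiniteDimensional (ZMod p) L :=
    IntermediateField.finiteDimensional_adjoin fun y _ => Algebra.IsIntegral.isIntegral y
  have : Finite L := Module.finite_of_finite (ZMod p)
  let _ := Fintype.ofFinite L
  have : CharP L p := charP_of_injective_algebraMap (algebraMap (ZMod p) L).injective p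
  obtain ⟨r, -, hr⟩ := FiniteField.card L p
  refine ⟨r, r.2, fun a ha => ?_⟩
  have := FiniteField.pow_card (⟨a, IntermediateField.subset_adjoin _ _ ha⟩ : L)
  rw [hr] at this
  exact congrArg Subtype.val this

lemma frob_iter_FD7 (o : WittVector p (AlgebraicClosure (ZMod p))) (r j : ℕ) :
    (WittVector.frobenius^[r] o).coeff j = o.coeff j ^ p ^ r := by
  induction r with
  | zero => simp
  | succ r ih =>
    rw [Function.iterate_succ_apply', WittVector.coeff_frobenius_charP, ih, ← pow_mul, pow_succ]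

lemma mem_FF_FD7 (hσ : ∀ o : WittVector p (AlgebraicClosure (ZMod p)),
      σ (algebraMap _ K o) = algebraMap _ K (WittVector.frobenius o))
    (hs : ∀ a, s (algebraMap K Ω a) = algebraMap K Ω (σ a))
    (o : WittVector p (AlgebraicClosure (ZMod p))) {m : ℕ} (ho : ∀ j, m ≤ j → o.coeff j = 0) :
    algebraMap K Ω (algebraMap _ K o) ∈ FF K s := by
  have h1 : ∀ r : ℕ, (s ^ r) (algebraMap K Ω (algebraMap _ K o)) =
      algebraMap K Ω (algebraMap _ K (WittVector.frobenius^[r] o)) := by
    intro r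
    induction r with
    | zero => rfl
    | succ r ih =>
      rw [Function.iterate_succ_apply', ← hσ, ← hs, ← ih, pow_succ']
      rfl
  obtain ⟨r, hr, h⟩ := frob_fix_FD7 (p := p) (o.coeff '' Set.Iio m) ((Set.finite_Iio m).image _)
  refine ⟨fun τ => τ.commutes _, r, hr, ?_⟩
  have h2 : WittVector.frobenius^[r] o = o := by
    ext j
    rw [frob_iter_FD7]
    by_cases hj : j < m
    · exact h _ ⟨j, hj, rfl⟩
    · rw [ho j (not_lt.1 hj), zero_pow (pow_ne_zero _ (Fact.out : p.Prime).ne_zero)]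
  rw [h1, h2]

theorem ac1_FF (hσ : ∀ o : WittVector p (AlgebraicClosure (ZMod p)),
      σ (algebraMap _ K o) = algebraMap _ K (WittVector.frobenius o))
    (hs : ∀ a, s (algebraMap K Ω a) = algebraMap K Ω (σ a)) (hv : Val v) (hp : v (p : Ω) = 1)
    (hO : ∀ a : K, a ≠ 0 → ((∃ o : WittVector p (AlgebraicClosure (ZMod p)), algebraMap _ K o = a) ↔
      0 ≤ v (algebraMap K Ω a)))
    (hZ : ∀ a : K, a ≠ 0 → ∃ m : ℤ, v (algebraMap K Ω a) = m) : AC1 (FF K s) v := by
  intro N d D hd hdN hD C
  have := charZero_K p K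
  have := charZero_of_injective_algebraMap (algebraMap K Ω).injective
  have hp0 : (p : Ω) ≠ 0 := Nat.cast_ne_zero.2 (Fact.out : p.Prime).ne_zero
  let ι : WittVector p (AlgebraicClosure (ZMod p)) →+* Ω := (algebraMap K Ω).comp (algebraMap _ K)
  have hι : Function.Injective ι :=
    (algebraMap K Ω).injective.comp (IsFractionRing.injective _ K)
  have hvp : ∀ z : ℤ, v ((p : Ω) ^ z) = z := fun z => by rw [mulv_zpow hv.mul hp0, hp, mul_one]
  have hG : ∀ o, Ge v 0 (ι o) := fun o => by
    by_cases h : algebraMap _ K o = 0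
    · exact Or.inl (by simp [ι, h])
    · exact Or.inr ((hO _ h).1 ⟨o, rfl⟩)
  have hint : ∀ (a : K) (z : ℤ), Ge v (-z) (algebraMap K Ω a) →
      ∃ o, ι o = (p : Ω) ^ z * algebraMap K Ω a := by
    intro a z h
    by_cases ha : a = 0
    · exact ⟨0, by simp [ha]⟩
    have ha' : algebraMap K Ω a ≠ 0 := by simpa using ha
    have hpK : (p : K) ≠ 0 := Nat.cast_ne_zero.2 (Fact.out : p.Prime).ne_zero
    have e : algebraMap K Ω ((p : K) ^ z * a) = (p : Ω) ^ z * algebraMap K Ω a := by simp
    obtain ⟨o, ho⟩ := (hO _ (mul_ne_zero (zpow_ne_zero z hpK) ha)).2 (by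
      rw [e, hv.mul _ _ (zpow_ne_zero z hp0) ha', hvp]
      linarith [h.resolve_left ha'])
    exact ⟨o, by rw [← e, ← ho]; rfl⟩
  obtain ⟨e, he⟩ : ∃ e : ℕ, ∀ a ∈ D.support, Ge v (-(e : ℤ)) ((D.coeff a : FF K s) : Ω) := by
    obtain ⟨B, hB⟩ := Finset.exists_le (D.support.image fun a => -v ((D.coeff a : FF K s) : Ω))
    obtain ⟨e, he⟩ := exists_nat_ge B
    refine ⟨e, fun a ha => Or.inr ?_⟩
    have := hB _ (mem_image_of_mem _ ha)
    push_cast
    linarith
  have hc : ∀ a ∈ D.support, ∃ o, ι o = (p : Ω) ^ (e : ℤ) * ((D.coeff a : FF K s) : Ω) := by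
    intro a ha
    obtain ⟨b, hb⟩ := fixed_mem (K := K) _ (D.coeff a).2.1
    rw [← hb]
    exact hint b e (hb ▸ he a ha)
  choose! o ho using hc
  let D0 : MvPolynomial (Fin N) (WittVector p (AlgebraicClosure (ZMod p))) :=
    ∑ a ∈ D.support, MvPolynomial.monomial a (o a)
  have hD0 : D0.IsHomogeneous d := MvPolynomial.IsHomogeneous.sum _ _ _ fun a ha =>
    MvPolynomial.isHomogeneous_monomial _ (by
      by_contra h
      exact MvPolynomial.mem_support_iff.1 ha (hD.coeff_eq_zero h))
  have hev : ∀ x, ι (MvPolynomial.eval x D0) =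
      (p : Ω) ^ (e : ℤ) * MvPolynomial.eval₂ (FF K s).subtype (fun i => ι (x i)) D := by
    intro x
    rw [MvPolynomial.eval₂_eq', mul_sum, map_sum, map_sum]
    refine sum_congr rfl fun a ha => ?_
    rw [MvPolynomial.eval_monomial, map_mul, ho a ha, Finsupp.prod_fintype _ _ (by simp),
      map_prod, mul_assoc]
    simp
  obtain ⟨c, hc⟩ := exists_nat_ge C
  obtain ⟨x, hx0, hx1, hx2⟩ := witt_zero (hd.trans hdN) hd D0 hD0 (c + e + 1) (Nat.succ_pos _)
  have hne : (univ.filter fun i => x i ≠ 0).Nonempty := by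
    obtain ⟨i, hi⟩ := Function.ne_iff.1 hx0
    exact ⟨i, by simpa using hi⟩
  obtain ⟨i0, hi0, hmin⟩ := exists_min_image _ (fun i => v (ι (x i))) hne
  have hi0' : x i0 ≠ 0 := (mem_filter.1 hi0).2
  have hnz : ∀ i, x i ≠ 0 → ι (x i) ≠ 0 := fun i hi => (map_ne_zero_iff ι hι).2 hi
  obtain ⟨a, ha⟩ := hZ (algebraMap _ K (x i0))
    ((map_ne_zero_iff _ (IsFractionRing.injective _ K)).2 hi0')
  have ha' : v (ι (x i0)) = a := ha
  have hale : a ≤ c + e := by
    by_contra h
    obtain ⟨u, hu⟩ := hint (algebraMap _ K (x i0)) (-((c + e + 1 : ℕ) : ℤ)) (Or.inr (by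
      rw [ha, Int.cast_neg, neg_neg, Int.cast_le]
      push_cast
      omega))
    have h2 : x i0 = (p : WittVector p (AlgebraicClosure (ZMod p))) ^ (c + e + 1) * u := by
      apply hι
      rw [map_mul, map_pow, map_natCast, hu, zpow_neg, zpow_natCast, ← mul_assoc,
        mul_inv_cancel₀ (pow_ne_zero _ hp0), one_mul]
      rfl
    have h3 := (WittVector.mem_span_p_pow_iff_le_coeff_eq_zero (x i0) (c + e + 1)).1
      (Ideal.mem_span_singleton.2 ⟨u, h2⟩)
    refine hi0' ?_
    ext j
    rw [WittVector.zero_coeff]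
    rcases lt_or_ge j (c + e + 1) with hj | hj
    · exact h3 j hj
    · exact hx1 i0 j hj
  have hvy : ∀ i, x i ≠ 0 → v ((p : Ω) ^ (-a) * ι (x i)) = -a + v (ι (x i)) := fun i hi => by
    rw [hv.mul _ _ (zpow_ne_zero _ hp0) (hnz i hi), hvp, Int.cast_neg]
  refine ⟨fun i => ⟨(p : Ω) ^ (-a) * ι (x i), mul_mem (zpow_mem (natCast_mem _ p) _)
    (mem_FF_FD7 hσ hs (x i) (hx1 i))⟩, fun i => ?_, ⟨i0, ?_, ?_⟩, ?_⟩
  · by_cases hi : x i = 0
    · exact Or.inl (by simp [hi])
    · refine Or.inr ?_
      have := hmin i (by simpa using hi)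
      simp only [hvy i hi]
      linarith
  · exact mul_ne_zero (zpow_ne_zero _ hp0) (hnz i0 hi0')
  · simp only [hvy i0 hi0', ha', neg_add_cancel]
  · obtain ⟨u, hu⟩ := Ideal.mem_span_singleton.1
      ((WittVector.mem_span_p_pow_iff_le_coeff_eq_zero _ _).2 hx2)
    have h1 := hev x
    rw [hu, map_mul, map_pow, map_natCast] at h1
    have h2 : MvPolynomial.eval₂ (FF K s).subtype (fun i => ι (x i)) D =
        (p : Ω) ^ (-(e : ℤ)) * ((p : Ω) ^ (N * (c + e + 1) - 1) * ι u) := by
      rw [h1, zpow_neg, ← mul_assoc, inv_mul_cancel₀ (zpow_ne_zero _ hp0), one_mul]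
    have h3 := scale_FD7 (FF K s).subtype hD ((p : Ω) ^ (-a)) fun i => ι (x i)
    rw [h2, ← zpow_natCast, ← zpow_mul, ← zpow_natCast, ← mul_assoc, ← mul_assoc,
      ← zpow_add₀ hp0, ← zpow_add₀ hp0] at h3
    refine Eq.mpr (congrArg (Ge v C) ((MvPolynomial.eval₂_comp_left (FF K s).subtype
      (RingHom.id _) _ D).trans h3)) (((Ge.self _).mul hv (hG u)).mono ?_)
    rw [hvp, add_zero]
    refine hc.trans ?_
    rw [← Int.cast_natCast, Int.cast_le]
    have h4 : 1 ≤ N * (c + e + 1) := Nat.mul_pos (hd.trans hdN) (Nat.succ_pos _)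
    have h5 : (d : ℤ) + 1 ≤ N := by exact_mod_cast hdN
    have h6 : (1 : ℤ) ≤ d := by exact_mod_cast hd
    push_cast [Nat.cast_sub h4]
    nlinarith [Int.natCast_nonneg c, Int.natCast_nonneg e, mul_le_mul_of_nonneg_right hale
      (Int.natCast_nonneg d), mul_le_mul_of_nonneg_right h5
      (by positivity : (0 : ℤ) ≤ c + e + 1)]

end Pool.Agent.P.MP_7d29e8_ag
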