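import Pool.Agent.P.MP_7d29e8_ag.FB1
import Pool.Agent.P.MP_7d29e8_ag.FB2
import Pool.Agent.P.MP_7d29e8_ag.FA3
import Pool.Agent.P.MP_7d29e8_ag.FD0

set_option autoImplicit false
set_option linter.unusedSectionVars false
set_option linter.unusedVariables false

/-! The centraliser of a maximal split torus has no rational nilpotent elements. -/

namespace Pool.Agent.P.MP_7d29e8_ag

open Finset SemidirectProduct
open scoped Classical

variable {Ω : Type} [Field Ω] [CharZero Ω] {n : Type} [Fintype n] [DecidableEq n]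
  {G : Subgroup (GL n Ω)} [IsAlgClosed Ω] {F : Subfield Ω} {v : Ω → ℚ}

/-- the centraliser in the Lie algebra -/
def cz_FE1 (G : Subgroup (GL n Ω)) (ρ : Matrix n n Ω) : Submodule Ω (Matrix n n Ω) where
  carrier := {X | X ∈ lie (GS G) Ω ∧ Commute X ρ}
  add_mem' ha hb := ⟨add_mem ha.1 hb.1, ha.2.add_left hb.2⟩
  zero_mem' := ⟨zero_mem _, Commute.zero_left _⟩
  smul_mem' c X hX := ⟨Submodule.smul_mem _ c hX.1, hX.2.smul_left c⟩

lemma comm_fn_FE1 {Y : Matrix n n Ω} {k : GL n Ω} {d d' : n → Ω} (h : Commute Y (cd k d))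
    (hd : ∀ i j, d i = d j → d' i = d' j) : Commute Y (cd k d') := by
  have := cd_comm h (fun a => if h : ∃ i, d i = a then d' h.choose else 0)
  convert this using 2
  funext i
  have h1 : ∃ j, d j = d i := ⟨i, rfl⟩
  simp only [Function.comp, dif_pos h1]
  exact (hd _ _ h1.choose_spec).symm

lemma rat_FE1 {k k' : GL n Ω} {d : n → Ω} {q : n → ℚ} (h : cd k d = cd k' fun i => (q i : Ω)) :
    ∃ q' : n → ℚ, d = fun i => (q' i : Ω) := by
  choose f hf using cd_range h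
  exact ⟨fun j => q (f j), funext hf⟩

theorem exists_min (F : Subfield Ω) (G : Subgroup (GL n Ω)) : ∃ ρ, RSF F G ρ ∧
    ∀ H, RSF F G H → Commute H ρ → ∀ X ∈ lie (GS G) Ω, Commute X ρ → Commute X H := by
  have h0 : RSF F G 0 := ⟨zero_mem _, fun i j => zero_mem _, 1, 0, by
    rw [← cd_zero (1 : GL n Ω)]; congr 1; funext i; simp⟩
  obtain ⟨ρ, hρ, hmin⟩ := WellFounded.has_min
    (InvImage.wf (fun ρ : Matrix n n Ω => Module.finrank Ω (cz_FE1 G ρ)) Nat.lt_wfRel.wf)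
    {ρ | RSF F G ρ} ⟨0, h0⟩
  refine ⟨ρ, hρ, fun H hH hc X hX hXρ => ?_⟩
  obtain ⟨ρ1, ρ2, k1, q1, ρ3⟩ := hρ
  obtain ⟨H1, H2, k2, q2, H3⟩ := hH
  obtain ⟨k, hk⟩ := simdiag ({ρ, H} : Set (Matrix n n Ω)) (by
    rintro A (rfl | rfl) B (rfl | rfl)
    · exact Commute.refl _
    · exact hc.symm
    · exact hc
    · exact Commute.refl _) (by
    rintro A (rfl | rfl)
    · exact ⟨_, _, ρ3⟩
    · exact ⟨_, _, H3⟩)
  obtain ⟨d, hd⟩ := hk ρ (by simp)
  obtain ⟨d', hd'⟩ := hk H (by simp)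
  obtain ⟨q, rfl⟩ := rat_FE1 (hd.symm.trans ρ3)
  obtain ⟨q', rfl⟩ := rat_FE1 (hd'.symm.trans H3)
  obtain ⟨ε, hε⟩ := Infinite.exists_notMem_finset
    (univ.image fun p : n × n => (q p.2 - q p.1) / (q' p.1 - q' p.2))
  have key : ∀ i j, q i + ε * q' i = q j + ε * q' j → q i = q j ∧ q' i = q' j := by
    intro i j hij
    by_cases h : q' i = q' j
    · exact ⟨by rw [h] at hij; exact add_right_cancel hij, h⟩
    · exfalso
      refine hε (mem_image.2 ⟨(i, j), mem_univ _, ?_⟩)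
      rw [div_eq_iff (sub_ne_zero.2 h)]
      linarith
  have e : ρ + (ε : Ω) • H = cd k fun i => ((q i + ε * q' i : ℚ) : Ω) := by
    rw [hd, hd', ← cd_smul, ← cd_add]; congr 1; funext i; simp
  have hR : RSF F G (ρ + (ε : Ω) • H) :=
    ⟨add_mem ρ1 (Submodule.smul_mem _ _ H1), fun i j => by
      rw [Matrix.add_apply, Matrix.smul_apply, smul_eq_mul]
      exact add_mem (ρ2 i j) (mul_mem (SubfieldClass.ratCast_mem F ε) (H2 i j)), k, _, e⟩
  have hle : cz_FE1 G (ρ + (ε : Ω) • H) ≤ cz_FE1 G ρ := by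
    intro Y hY
    refine ⟨hY.1, ?_⟩
    have h2 := hY.2
    rw [e] at h2
    rw [hd]
    exact comm_fn_FE1 h2 fun i j hij => by rw [(key i j (Rat.cast_injective hij)).1]
  have heq := Submodule.eq_of_le_of_finrank_le hle (not_lt.1 (hmin _ hR))
  have hX' : X ∈ cz_FE1 G (ρ + (ε : Ω) • H) := by rw [heq]; exact ⟨hX, hXρ⟩
  have h2 := hX'.2
  rw [e] at h2
  rw [hd']
  exact comm_fn_FE1 h2 fun i j hij => by rw [(key i j (Rat.cast_injective hij)).2]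

lemma br_FE1 {ρ X Y : Matrix n n Ω} (hX : X ∈ cz_FE1 G ρ) (hY : Y ∈ cz_FE1 G ρ) :
    X * Y - Y * X ∈ cz_FE1 G ρ :=
  ⟨lie.bracket (GS_one G) (GS_mul G) hX.1 hY.1, (hX.2.mul_left hY.2).sub_left (hY.2.mul_left hX.2)⟩

lemma self_br_FE1 (hG : ND G) {k : GL n Ω} {d : n → Ω} (hρ : cd k d ∈ lie (GS G) Ω)
    {e : Matrix n n Ω} (he : e ∈ cz_FE1 G (cd k d)) (hn : IsNilpotent e) :
    ∃ h ∈ cz_FE1 G (cd k d), h * e - e * h = e := by
  let m := cz_FE1 G (cd k d)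
  let B : m →ₗ[Ω] Module.Dual Ω m := LinearMap.mk₂ Ω (fun X Y => (X.1 * Y.1).trace)
    (fun X X' Y => by simp [add_mul]) (fun c X Y => by simp)
    (fun X Y Y' => by simp [mul_add]) (fun c X Y => by simp)
  have hB : Function.Injective B := by
    rw [injective_iff_map_eq_zero]
    intro X hX
    refine Subtype.ext (hG.cent hρ X.2.1 X.2.2 fun Y hY hc => ?_)
    exact LinearMap.congr_fun hX ⟨Y, hY, hc⟩
  have hB' : Function.Surjective B :=
    (LinearMap.injective_iff_surjective_of_finrank_eq_finrank Subspace.dual_finrank_eq.symm).1 hB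
  let T : m →ₗ[Ω] m :=
    { toFun := fun Y => ⟨Y.1 * e - e * Y.1, br_FE1 Y.2 he⟩
      map_add' := fun X Y => Subtype.ext (by simp [mul_add, add_mul]; abel)
      map_smul' := fun c X => Subtype.ext (by simp [smul_sub]) }
  by_contra hne
  have h1 : (⟨e, he⟩ : m) ∉ LinearMap.range T := by
    rintro ⟨Y, hY⟩
    exact hne ⟨Y.1, Y.2, congrArg Subtype.val hY⟩
  obtain ⟨l, hl, hl0⟩ := Submodule.exists_dual_map_eq_bot_of_notMem h1 inferInstance
  obtain ⟨Z, rfl⟩ := hB' l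
  have h2 : e * Z.1 - Z.1 * e = 0 := by
    refine hG.cent hρ (br_FE1 he Z.2).1 (br_FE1 he Z.2).2 fun Y hY hc => ?_
    have h3 : B Z (T ⟨Y, hY, hc⟩) = 0 := by
      have : B Z (T ⟨Y, hY, hc⟩) ∈ (LinearMap.range T).map (B Z) :=
        Submodule.mem_map_of_mem (LinearMap.mem_range_self _ _)
      rwa [hl0, Submodule.mem_bot] at this
    change (Z.1 * (Y * e - e * Y)).trace = 0 at h3
    rw [mul_sub, Matrix.trace_sub, ← mul_assoc, Matrix.trace_mul_comm, ← mul_assoc, ← mul_assoc]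
      at h3
    rw [sub_mul, Matrix.trace_sub, h3]
  apply hl
  change (Z.1 * e).trace = 0
  have h4 : Commute Z.1 e := (sub_eq_zero.1 h2).symm
  exact (Matrix.isNilpotent_trace_of_isNilpotent (h4.isNilpotent_mul_left hn)).eq_zero

lemma map_br_FE1 (θ : Ω ≃+* Ω) {h e : Matrix n n Ω} {c : Ω} (he : h * e - e * h = c • e) :
    h.map θ * e.map θ - e.map θ * h.map θ = θ c • e.map θ := by
  have := congrArg (ac (inr θ : SL n Ω)) he
  rw [map_sub, map_mul, map_mul, ac_smul] at this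
  simpa only [ac_inr, right_inr] using this

lemma map_comm_FE1 (θ : Ω ≃+* Ω) {X Y : Matrix n n Ω} (h : Commute X Y) :
    Commute (X.map θ) (Y.map θ) := by
  simpa only [ac_inr] using h.map (ac (inr θ : SL n Ω))

/-- a nilpotent element of the centraliser is an eigenvector of a fixed element -/
theorem nil_eig (hG : ND G) {Γ : Subgroup (Ω ≃+* Ω)} (hΓ : Γ ≤ Stb G) {k : GL n Ω} {d : n → Ω}
    (hρ : cd k d ∈ lie (GS G) Ω) (fρ : ∀ θ ∈ Γ, (cd k d).map θ = cd k d) {e : Matrix n n Ω}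
    (he : e ∈ lie (GS G) Ω) (hc : Commute e (cd k d)) (hn : IsNilpotent e) (h0 : e ≠ 0)
    (fe : ∀ θ ∈ Γ, e.map θ = e) : ∃ h ∈ lie (GS G) Ω, Commute h (cd k d) ∧
      (∀ θ ∈ Γ, h.map θ = h) ∧ ∃ c : Ω, c ≠ 0 ∧ h * e - e * h = c • e := by
  obtain ⟨h, hh, hb⟩ := self_br_FE1 hG hρ ⟨he, hc⟩ hn
  let V : Submodule Ω (Matrix n n Ω) :=
    { carrier := {X | X ∈ cz_FE1 G (cd k d) ∧ ∃ c : Ω, X * e - e * X = c • e}
      add_mem' := fun {X Y} ⟨a1, c, a2⟩ ⟨b1, c', b2⟩ => ⟨add_mem a1 b1, c + c', by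
        rw [add_smul, ← a2, ← b2, mul_add, add_mul]; abel⟩
      zero_mem' := ⟨zero_mem _, 0, by simp⟩
      smul_mem' := fun a X ⟨a1, c, a2⟩ => ⟨Submodule.smul_mem _ a a1, a * c, by
        rw [mul_smul, ← a2, smul_sub, smul_mul_assoc, mul_smul_comm]⟩ }
  have hV : ∀ θ ∈ (Γ : Set (Ω ≃+* Ω)), ∀ X ∈ V, X.map θ ∈ V := by
    rintro θ hθ X ⟨⟨a0, a1⟩, c, a2⟩
    refine ⟨⟨?_, ?_⟩, θ c, ?_⟩
    · rw [← ac_inr]
      exact lie_ac (fun g hg => (hΓ hθ g).2 hg) a0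
    · rw [← fρ θ hθ]; exact map_comm_FE1 θ a1
    · have := map_br_FE1 θ a2
      rwa [fe θ hθ] at this
  by_contra hne
  have h1 : ∀ X ∈ Submodule.span Ω {X | X ∈ V ∧ ∀ θ ∈ (Γ : Set (Ω ≃+* Ω)), X.map θ = X},
      X * e - e * X = 0 := by
    intro X hX
    induction hX using Submodule.span_induction with
    | mem X hX =>
      obtain ⟨⟨⟨a0, a1⟩, c, a2⟩, a3⟩ := hX
      by_cases hc0 : c = 0
      · rw [a2, hc0, zero_smul]
      · exact (hne ⟨X, a0, a1, a3, c, hc0, a2⟩).elim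
    | zero => simp
    | add X Y _ _ hX hY =>
      rw [add_mul, mul_add, add_sub_add_comm, hX, hY, add_zero]
    | smul a X _ hX => rw [smul_mul_assoc, mul_smul_comm, ← smul_sub, hX, smul_zero]
  exact h0 (hb.symm.trans (h1 h (desc_mat _ V hV ⟨hh, 1, by rw [hb, one_smul]⟩)))

/-- averaging a rational replica -/
theorem avg_rep {Γ : Subgroup (Ω ≃+* Ω)} {h e ρ : Matrix n n Ω} (hh' : h ∈ lie (GS G) Ω)
    (hρ : Commute h ρ) (fh : ∀ θ ∈ Γ, h.map θ = h) (fe : ∀ θ ∈ Γ, e.map θ = e) (h0 : e ≠ 0) {c : Ω}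
    (hc : c ≠ 0) (he : h * e - e * h = c • e) : ∃ H ∈ lie (GS G) Ω, Commute H ρ ∧
      (∀ θ ∈ Γ, H.map θ = H) ∧ (∃ (k : GL n Ω) (q : n → ℚ), H = cd k fun i => (q i : Ω)) ∧
      ¬ Commute e H := by
  obtain ⟨k, d, Z, hS, hZ, hZc, hY⟩ := jordan h
  have fS : ∀ θ ∈ Γ, cd (ga n Ω θ k) (θ ∘ d) = cd k d := fun θ hθ => by
    rw [← cd_map]; exact jordan_fix hS hZ hZc hY θ (fh θ hθ)
  have eS : cd k d * e - e * cd k d = c • e := cd_eig_jordan hZ hZc (hS ▸ he)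
  have fc : ∀ θ ∈ Γ, θ c = c := fun θ hθ => by
    have := map_br_FE1 θ he
    rw [fh θ hθ, fe θ hθ, he] at this
    exact (smul_left_injective Ω h0 this).symm
  obtain ⟨φ, hφ⟩ := exists_add hc
  let ψ : (Ω ≃+* Ω) → (Ω →+ Ω) := fun θ =>
    (Rat.castHom Ω).toAddMonoidHom.comp (φ.comp θ.toAddMonoidHom)
  have hψ : ∀ θ a, ψ θ a = (φ (θ a) : Ω) := fun θ a => rfl
  have hA : {q : n → ℚ | ∃ θ ∈ Γ, q = fun i => φ (θ (d i))}.Finite := by
    refine (Set.Finite.pi' fun _ : n => Set.finite_range fun i => φ (d i)).subset ?_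
    rintro q ⟨θ, hθ, rfl⟩ j
    obtain ⟨i, hi⟩ := cd_range (fS θ hθ) j
    exact ⟨i, congrArg φ hi.symm⟩
  have hB : {X : Matrix n n Ω | ∃ θ ∈ Γ, X = cd k (ψ θ ∘ d)}.Finite := by
    refine (hA.image fun q => cd k fun i => (q i : Ω)).subset ?_
    rintro X ⟨θ, hθ, rfl⟩
    exact ⟨_, ⟨θ, hθ, rfl⟩, rfl⟩
  have mB : ∀ X, X ∈ hB.toFinset ↔ ∃ θ ∈ Γ, X = cd k (ψ θ ∘ d) := fun X => hB.mem_toFinset
  refine ⟨∑ X ∈ hB.toFinset, X, ?_, ?_, fun τ hτ => ?_, ?_, fun hcm => ?_⟩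
  · refine Submodule.sum_mem _ fun X hX => ?_
    obtain ⟨θ, hθ, rfl⟩ := (mB X).1 hX
    exact lie_rep (hS ▸ hh') hZ hZc _
  · refine Commute.sum_left _ _ _ fun X hX => ?_
    obtain ⟨θ, hθ, rfl⟩ := (mB X).1 hX
    exact (cd_comm (hY ρ hρ.symm) _).symm
  · have him : hB.toFinset.image (ac (inr τ : SL n Ω)) = hB.toFinset := by
      refine eq_of_subset_of_card_le ?_ (card_image_of_injective _ (ac_inj _)).ge
      intro X hX
      obtain ⟨X', hX', rfl⟩ := mem_image.1 hX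
      obtain ⟨θ, hθ, rfl⟩ := (mB X').1 hX'
      refine (mB _).2 ⟨θ * τ⁻¹, mul_mem hθ (inv_mem hτ), ?_⟩
      rw [ac_inr, cd_map, ← cd_fun (fS τ hτ)]
      congr 1
      funext i
      simp only [Function.comp, hψ, map_ratCast]
      congr 2
      exact congrArg θ (τ.symm_apply_apply (d i)).symm
    rw [← ac_inr, map_sum, ← sum_image (f := fun X => X) fun a _ b _ h => ac_inj _ h, him]
  · have : ∃ q : n → ℚ, ∑ X ∈ hB.toFinset, X = cd k fun i => (q i : Ω) := by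
      refine sum_induction _ (fun X => ∃ q : n → ℚ, X = cd k fun i => (q i : Ω)) ?_ ?_ ?_
      · rintro _ _ ⟨q, rfl⟩ ⟨q', rfl⟩
        refine ⟨q + q', ?_⟩
        rw [← cd_add]; congr 1; funext i; simp
      · refine ⟨0, ?_⟩
        rw [← cd_zero k]; congr 1; funext i; simp
      · intro X hX
        obtain ⟨θ, hθ, rfl⟩ := (mB X).1 hX
        exact ⟨fun i => φ (θ (d i)), rfl⟩
    obtain ⟨q, hq⟩ := this
    exact ⟨k, q, hq⟩
  · have h1 : (∑ X ∈ hB.toFinset, X) * e - e * ∑ X ∈ hB.toFinset, X =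
        ((hB.toFinset.card : Ω) * (φ c : Ω)) • e := by
      rw [sum_mul, mul_sum, ← sum_sub_distrib, sum_congr rfl (g := fun _ => (φ c : Ω) • e),
        sum_const, mul_smul, Nat.cast_smul_eq_nsmul]
      intro X hX
      obtain ⟨θ, hθ, rfl⟩ := (mB X).1 hX
      rw [cd_eig eS, hψ, fc θ hθ]
    rw [hcm.eq, sub_self] at h1
    have h2 : hB.toFinset.card ≠ 0 := card_ne_zero.2 ⟨_, (mB _).2 ⟨1, one_mem _, rfl⟩⟩
    exact smul_ne_zero (mul_ne_zero (Nat.cast_ne_zero.2 h2) (Rat.cast_ne_zero.2 hφ)) h0 h1.symm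

theorem no_nil (H : HF F v (Stb G)) (hG : ND G) {ρ : Matrix n n Ω} (hρ : RSF F G ρ)
    (hm : ∀ H, RSF F G H → Commute H ρ → ∀ X ∈ lie (GS G) Ω, Commute X ρ → Commute X H)
    {e : Matrix n n Ω} (he : e ∈ lie (GS G) Ω) (hF : ∀ i j, e i j ∈ F) (hc : Commute e ρ)
    (hn : IsNilpotent e) : e = 0 := by
  obtain ⟨ρ1, ρ2, k, q, rfl⟩ := hρ
  obtain ⟨Γ, hΓ, -, h1, h2, -⟩ := H.lev
    (Set.range (fun p : n × n => cd k (fun i => (q i : Ω)) p.1 p.2) ∪
      Set.range fun p : n × n => e p.1 p.2)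
    ((Set.finite_range _).union (Set.finite_range _)) (by
      rintro _ (⟨p, rfl⟩ | ⟨p, rfl⟩)
      · exact ρ2 _ _
      · exact hF _ _)
  by_contra h0
  have fe : ∀ θ ∈ Γ, e.map θ = e := fun θ hθ =>
    Matrix.ext fun i j => h1 _ (Or.inr ⟨(i, j), rfl⟩) θ hθ
  obtain ⟨h, a1, a2, a3, c, a4, a5⟩ := nil_eig hG hΓ ρ1
    (fun θ hθ => Matrix.ext fun i j => h1 _ (Or.inl ⟨(i, j), rfl⟩) θ hθ) he hc hn h0 fe
  obtain ⟨H', b1, b2, b3, b4, b5⟩ := avg_rep a1 a2 a3 fe h0 a4 a5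
  exact b5 (hm H' ⟨b1, fun i j => h2 _ fun θ hθ => congrFun (congrFun (b3 θ hθ) i) j, b4⟩ b2 e he
    hc)

end Pool.Agent.P.MP_7d29e8_ag
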