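import Pool.Agent.P.MP_7d29e8_ag.HBru

set_option autoImplicit false
set_option linter.unusedSectionVars false
set_option linter.unusedVariables false

/-! Bases of root pairings. -/

namespace Pool.Agent.P.MP_7d29e8_ag

open Finset SemidirectProduct
open scoped Classical

variable {ι M N : Type} [AddCommGroup M] [Module ℚ M] [AddCommGroup N] [Module ℚ N]
  {P : RootPairing ι ℚ M N} [Finite ι] [P.IsCrystallographic] [P.IsReduced]

lemma closure_map_FF2 {V : Type} [AddCommGroup V] [Module ℚ V] {S : Submodule ℚ V} (v : ι → S)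
    (s : Set ι) {x : S} (h : x ∈ AddSubmonoid.closure (v '' s)) :
    (x : V) ∈ AddSubmonoid.closure ((fun i => (v i : V)) '' s) := by
  induction h using AddSubmonoid.closure_induction with
  | mem y hy =>
    obtain ⟨i, hi, rfl⟩ := hy
    exact AddSubmonoid.subset_closure ⟨i, hi, rfl⟩
  | zero => exact zero_mem _
  | add y z _ _ hy hz => exact add_mem hy hz

theorem exists_base {ρ : N} (hρ : ∀ i, P.root' i ρ ≠ 0) :
    ∃ b : P.Base, ∀ i ∈ b.support, 0 < P.root' i ρ := by
  let _f : Fintype ι := Fintype.ofFinite ι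
  let Q := P.restrictScalars' ℚ
  have hQ : Q.IsCrystallographic := ⟨fun i j => by
    obtain ⟨z, hz⟩ := RootPairing.IsValuedIn.exists_value (P := P) (S := ℤ) i j
    exact ⟨z, hz.trans (P.restrictScalars_pairing ℚ i j).symm⟩⟩
  have hR : Q.IsReduced := ⟨fun i j h => by
    have h' : ¬ LinearIndependent ℚ ![P.root i, P.root j] := by
      intro hl
      apply h
      rw [LinearIndependent.pair_iff] at hl ⊢
      intro s t hst
      exact hl s t (congrArg Subtype.val hst)
    rcases RootPairing.IsReduced.eq_or_eq_neg i j h' with e | e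
    · exact Or.inl (Subtype.ext e)
    · exact Or.inr (Subtype.ext e)⟩
  let f : Submodule.span ℚ (Set.range P.root) →+ ℚ :=
    (P.toLinearMap.flip ρ ∘ₗ (Submodule.span ℚ (Set.range P.root)).subtype).toAddMonoidHom
  have hf : ∀ i, f (Q.root i) = P.root' i ρ := fun i => rfl
  have hf0 : ∀ i, f (Q.root i) ≠ 0 := fun i => hρ i
  let _i := Q.indexNeg
  let b' : Q.Base := RootPairing.Base.mk' Q (IsAddIndecomposable.baseOf Q.root f)
    (Q.linearIndepOn_root_baseOf f hf0)
    (fun i => IsAddIndecomposable.mem_or_neg_mem_closure_baseOf Q.root f i (hf0 i) (by simp))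
  refine ⟨⟨b'.support, ?_, ?_, fun i => ?_, fun i => ?_⟩, fun i hi => ?_⟩
  · exact LinearIndependent.map' b'.linearIndepOn_root (Submodule.subtype _)
      (Submodule.ker_subtype _)
  · exact LinearIndependent.map' b'.linearIndepOn_coroot (Submodule.subtype _)
      (Submodule.ker_subtype _)
  · exact (b'.root_mem_or_neg_mem i).imp (closure_map_FF2 Q.root _) (closure_map_FF2 Q.root _)
  · exact (b'.coroot_mem_or_neg_mem i).imp (closure_map_FF2 Q.coroot _)
      (closure_map_FF2 Q.coroot _)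
  · have h1 : i ∈ IsAddIndecomposable.baseOf Q.root f := (Set.Finite.mem_toFinset _).1 hi
    exact IsAddIndecomposable.baseOf_subset_pos Q.root f h1

theorem exists_omega (b : P.Base) : ∃ ω : ι → M,
    (∀ i ∈ b.support, ω i ∈ Submodule.span ℚ (Set.range P.root)) ∧
    ∀ i ∈ b.support, ∀ j ∈ b.support, (i = j → P.toLinearMap (ω i) (P.coroot j) = 1) ∧
      (i ≠ j → P.toLinearMap (ω i) (P.coroot j) = 0) := by
  choose ω h1 h2 using fun i : ι =>
    exists_coweight (P := P.flip) b.flip fun j => if i = j then 1 else 0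
  refine ⟨ω, fun i _ => h1 i, fun i _ j hj => ?_⟩
  have e : P.toLinearMap (ω i) (P.coroot j) = if i = j then 1 else 0 := h2 i j hj
  exact ⟨fun h => by rw [e, if_pos h], fun h => by rw [e, if_neg h]⟩

theorem aut_supp (b : P.Base) (a : P.Aut) {ρ ρ' : N} (hρ : ∀ i ∈ b.support, 0 < P.root' i ρ)
    (hρ' : ∀ i ∈ b.support, 0 < P.root' i ρ') (h : a.coweightMap ρ = ρ') :
    ∀ i ∈ b.support, a.indexEquiv i ∈ b.support := by
  intro i hi
  have hinv : ∀ x, a.coweightMap (a⁻¹.coweightMap x) = x := fun x => by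
    rw [← cw_mul, inv_mul_cancel]; rfl
  have key : ∀ j, b.IsPos j ↔ b.IsPos (a.indexEquiv j) := fun j => by
    rw [← pos_iff hρ', ← pos_iff hρ, ← h, root_act]
  obtain ⟨ρ0, -, h0⟩ := exists_coweight b fun _ => 1
  have h1 : ∀ j, b.IsPos j → 1 ≤ P.root' j ρ0 := by
    intro j hj
    obtain ⟨f, hf, hs, e⟩ := root_expand hj
    obtain ⟨l, hl⟩ := (Pi.lt_def.mp hf).2
    rw [e]
    have hl' : (1 : ℚ) ≤ f l * P.root' l ρ0 := by
      rw [h0 l (hs hl.ne'), mul_one]
      exact_mod_cast hl
    refine hl'.trans (single_le_sum (f := fun i => (f i : ℚ) * P.root' i ρ0) (fun m hm => ?_)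
      (hs hl.ne'))
    rw [h0 m hm, mul_one]
    exact_mod_cast hf.le m
  obtain ⟨f, hf, hs, e⟩ := root_expand ((key i).1 (b.isPos_of_mem_support hi))
  obtain ⟨l, hl⟩ := (Pi.lt_def.mp hf).2
  have hls : l ∈ b.support := hs hl.ne'
  have hf0 : ∀ m, (0 : ℚ) ≤ f m := fun m => by exact_mod_cast hf.le m
  have hl1 : (1 : ℚ) ≤ f l := by exact_mod_cast hl
  have t1 : ∀ m ∈ b.support, 1 ≤ P.root' m (a⁻¹.coweightMap ρ0) := by
    intro m hm
    rw [root_act, idx_inv]
    apply h1
    rw [key, Equiv.apply_symm_apply]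
    exact b.isPos_of_mem_support hm
  have e1 := e (a⁻¹.coweightMap ρ0)
  rw [← root_act, hinv, h0 i hi, ← add_sum_erase _ _ hls] at e1
  have n1 : ∀ m ∈ b.support.erase l, 0 ≤ (f m : ℚ) * P.root' m (a⁻¹.coweightMap ρ0) :=
    fun m hm => mul_nonneg (hf0 m) (zero_le_one.trans (t1 m (mem_of_mem_erase hm)))
  have n2 := sum_nonneg n1
  have n3 := t1 l hls
  have n4 : (f l : ℚ) = 1 := by nlinarith
  have n5 : ∑ m ∈ b.support.erase l, (f m : ℚ) * P.root' m (a⁻¹.coweightMap ρ0) = 0 := by
    rw [n4] at e1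
    linarith
  have n6 : ∀ m ∈ b.support.erase l, (f m : ℚ) = 0 := fun m hm =>
    (mul_eq_zero.1 ((sum_eq_zero_iff_of_nonneg n1).1 n5 m hm)).resolve_right
      (zero_lt_one.trans_le (t1 m (mem_of_mem_erase hm))).ne'
  have e2 : P.root (a.indexEquiv i) = P.root l := by
    refine pair_ext (P := P) fun x => ?_
    change P.root' _ x = P.root' l x
    rw [e x, ← add_sum_erase _ _ hls, n4, one_mul,
      sum_eq_zero fun m hm => by rw [n6 m hm, zero_mul], add_zero]
  rw [P.root.injective e2]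
  exact hls

end Pool.Agent.P.MP_7d29e8_ag
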