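import Pool.Agent.P.MP_7d29e8_ag.FB1
import Pool.Agent.P.MP_7d29e8_ag.FB2
import Pool.Agent.P.MP_7d29e8_ag.FF0

set_option autoImplicit false
set_option linter.unusedSectionVars false
set_option linter.unusedVariables false

/-! The maximal torus attached to a regular split element. -/

namespace Pool.Agent.P.MP_7d29e8_ag

open Finset SemidirectProduct
open scoped Classical

variable {Ω : Type} [Field Ω] [CharZero Ω] {n : Type} [Fintype n] [DecidableEq n]
  {G : Subgroup (GL n Ω)}

/-- rational diagonal elements of the Lie algebra -/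
def NQ_FF3 (G : Subgroup (GL n Ω)) : Submodule ℚ (n → ℚ) where
  carrier := {x | Matrix.diagonal (fun i => (x i : Ω)) ∈ lie (GS G) Ω}
  add_mem' {x y} hx hy := by
    have := (lie (GS G) Ω).add_mem hx hy
    rw [Matrix.diagonal_add] at this
    simpa using this
  zero_mem' := by simp
  smul_mem' c x hx := by
    have := (lie (GS G) Ω).smul_mem (c : Ω) hx
    rw [← Matrix.diagonal_smul] at this
    change Matrix.diagonal _ ∈ lie (GS G) Ω
    convert this using 2
    funext i
    simp

/-- the pairing without roots -/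
noncomputable def PP_FF3 (N : Type) [AddCommGroup N] [Module ℚ N] [FiniteDimensional ℚ N] :
    RootPairing Empty ℚ (Module.Dual ℚ N) N where
  toLinearMap := LinearMap.id
  root := Function.Embedding.ofIsEmpty
  coroot := Function.Embedding.ofIsEmpty
  root_coroot_two i := i.elim
  reflectionPerm i := i.elim
  reflectionPerm_root i := i.elim
  reflectionPerm_coroot i := i.elim

theorem exists_PD (hG : ND G) {h₀ : n → ℚ}
    (h1 : Matrix.diagonal (fun i => (h₀ i : Ω)) ∈ lie (GS G) Ω)
    (h2 : ∀ X ∈ lie (GS G) Ω, Commute X (Matrix.diagonal fun i => (h₀ i : Ω)) →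
      ∃ d, X = Matrix.diagonal d) :
    ∃ (M N : Type) (_ : AddCommGroup M) (_ : Module ℚ M) (_ : AddCommGroup N) (_ : Module ℚ N)
      (P : RootPairing Empty ℚ M N) (wt : n → M) (ρ : N), PD G P wt ∧ hh P wt ρ = h₀ := by
  let wt : n → Module.Dual ℚ (NQ_FF3 G) := fun i => (LinearMap.proj i).comp (NQ_FF3 G).subtype
  have hw : ∀ x : NQ_FF3 G, hh (PP_FF3 (NQ_FF3 G)) wt x = x.1 := fun x => rfl
  refine ⟨Module.Dual ℚ (NQ_FF3 G), NQ_FF3 G, inferInstance, inferInstance, inferInstance,
    inferInstance, PP_FF3 _, wt, ⟨h₀, h1⟩, ⟨hG, ?_, fun x hx t ht => ?_, fun X hX h0 => ?_,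
      fun x => x.2⟩, rfl⟩
  · refine Submodule.span_eq_top_of_ne_zero fun z hz => ?_
    by_contra hne
    refine hz (Subtype.ext (funext fun i => ?_))
    by_contra h
    exact hne ⟨wt i, ⟨i, rfl⟩, h⟩
  · choose z hz using mem_lat.1 hx
    have h3 : cd (1 : GL n Ω) (fun i => (z i : Ω)) ∈ lie (GS G) Ω := by
      rw [cd_one]
      have := x.2
      change Matrix.diagonal _ ∈ lie (GS G) Ω at this
      convert this using 2
      funext i
      rw [← hw, hz, Rat.cast_intCast]
    have h4 := lie_cochar h3 ht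
    rw [cd_one] at h4
    refine ⟨dU fun i => Units.mk0 t ht ^ z i, hG.closed _ ?_, ?_⟩
    · simpa [hz] using h4
    · rw [dU_val]
      congr 1
      funext i
      rw [hz, Int.floor_intCast]
      simp
  · obtain ⟨d, rfl⟩ := h2 X hX (zer_iff.1 (h0.zer (P := PP_FF3 (NQ_FF3 G)) (x := ⟨h₀, h1⟩) rfl))
    obtain ⟨s, c, hs⟩ := rat_span d
    have h3 : ∀ φ : Ω →+ ℚ, (fun i => φ (d i)) ∈ NQ_FF3 G := fun φ => by
      have := lie_rep (G := G) (k := 1) (d := d) (Z := 0) (by rwa [add_zero, cd_one])
        IsNilpotent.zero (Commute.zero_left _) ((Rat.castHom Ω).toAddMonoidHom.comp φ)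
      rw [cd_one] at this
      exact this
    have h4 : Matrix.diagonal d = ∑ φ ∈ s, c φ • DD (PP_FF3 (NQ_FF3 G)) wt Ω ⟨_, h3 φ⟩ := by
      ext i j
      rw [Matrix.sum_apply]
      by_cases e : i = j
      · subst e
        simp only [DD, Matrix.smul_apply, Matrix.diagonal_apply_eq, hw, smul_eq_mul]
        exact hs i
      · simp [DD, e]
    rw [h4]
    exact Submodule.sum_mem _ fun φ _ => Submodule.smul_mem _ _ (Submodule.subset_span ⟨_, rfl⟩)

end Pool.Agent.P.MP_7d29e8_ag
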