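import Pool.Agent.P.MP_7d29e8_ag.FF0

set_option autoImplicit false
set_option linter.unusedSectionVars false
set_option linter.unusedVariables false

/-! The Iwasawa decomposition. -/

namespace Pool.Agent.P.MP_7d29e8_ag

open Finset SemidirectProduct
open scoped Classical

variable {Ω : Type} [Field Ω] [CharZero Ω] {n : Type} [Fintype n] [DecidableEq n]
  {ι M N : Type} [AddCommGroup M] [Module ℚ M] [AddCommGroup N] [Module ℚ N]
  {P : RootPairing ι ℚ M N} {wt : n → M} {G : Subgroup (GL n Ω)}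
  [Finite ι] [P.IsCrystallographic] [P.IsReduced] {b : P.Base} {ρ : N}

section Aux

variable (O : Type) {E : Type} [CommRing O] [Algebra Ω O] [Field E] [CharZero E] [Algebra O E]
  [Algebra Ω E] [IsScalarTower Ω O E]

/-- integral points times the opposite Borel subgroup -/
def IwS (G : Subgroup (GL n Ω)) (P : RootPairing ι ℚ M N) (wt : n → M) (ρ : N) (x : GL n E) :
    Prop :=
  ∃ κ : GL n O, ∃ a ∈ UU G E (hh P wt (-ρ)), ∃ t ∈ GE G E, Zer (hh P wt ρ) t.val ∧
    x = Matrix.GeneralLinearGroup.map (algebraMap O E) κ * a * t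

/-- right stabiliser -/
def IwT (G : Subgroup (GL n Ω)) (P : RootPairing ι ℚ M N) (wt : n → M) (ρ : N) :
    Submonoid (GL n E) where
  carrier := {g | ∀ x, IwS O G P wt ρ x → IwS O G P wt ρ (x * g)}
  mul_mem' ha hb x hx := by rw [← mul_assoc]; exact hb _ (ha _ hx)
  one_mem' x hx := by rwa [mul_one]

variable {O}

lemma IwS.int (κ : GL n O) :
    IwS O G P wt ρ (Matrix.GeneralLinearGroup.map (algebraMap O E) κ) :=
  ⟨κ, 1, one_mem _, 1, one_mem _, Sup.one fun _ => rfl, by simp⟩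

lemma IwS.left (κ : GL n O) {x : GL n E} (h : IwS O G P wt ρ x) :
    IwS O G P wt ρ (Matrix.GeneralLinearGroup.map (algebraMap O E) κ * x) := by
  obtain ⟨κ', a, ha, t, ht, hz, rfl⟩ := h
  exact ⟨κ * κ', a, ha, t, ht, hz, by rw [map_mul]; group⟩

lemma IwT.tor {t : GL n E} (ht : t ∈ GE G E) (hz : Zer (hh P wt ρ) t.val) :
    t ∈ IwT O G P wt ρ := by
  rintro _ ⟨κ, a, ha, t', ht', hz', rfl⟩
  exact ⟨κ, a, ha, t' * t, mul_mem ht' ht, hz'.mul hz, by group⟩

lemma IwT.neg {u : GL n E} (hu : u ∈ UU G E (hh P wt (-ρ))) : u ∈ IwT O G P wt ρ := by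
  rintro _ ⟨κ, a, ha, t, ht, hz, rfl⟩
  have h1 : ac (inl t) (DD P wt E (-ρ)) = DD P wt E (-ρ) :=
    ac_inl_iff.mpr (hh_neg (P := P) (wt := wt) ρ ▸ hz.neg')
  exact ⟨κ, a * (t * u * t⁻¹), mul_mem ha (UU_conj ht h1 hu), t, ht, hz, by group⟩

lemma int_const (w : GL n Ω) : ∃ κ : GL n O, Matrix.GeneralLinearGroup.map (algebraMap O E) κ =
    Matrix.GeneralLinearGroup.map (algebraMap Ω E) w :=
  ⟨Matrix.GeneralLinearGroup.map (algebraMap Ω O) w, Units.ext (Matrix.ext fun i j =>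
    (IsScalarTower.algebraMap_apply Ω O E _).symm)⟩

lemma int_ex {e : Matrix n n Ω} (he : IsNilpotent e) (o : O) :
    ∃ κ : GL n O, Matrix.GeneralLinearGroup.map (algebraMap O E) κ =
      ex (algebraMap O E o • e.map (algebraMap Ω E)) := by
  let _ : Algebra ℚ O := ((algebraMap Ω O).comp (algebraMap ℚ Ω)).toAlgebra
  refine ⟨⟨xp e o, xp e (-o), xp_mul_neg he o, xp_neg_mul he o⟩, Units.ext ?_⟩
  rw [ex_val (nil_smul he _)]
  exact xp_map he o (IsScalarTower.toAlgHom Ω O E)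

variable [IsDomain O] [ValuationRing O] [IsFractionRing O E]

lemma DS.iw_simple (D : DS G P wt) (hρ : ∀ i ∈ b.support, 0 < P.root' i ρ) {α : ι}
    (hα : α ∈ b.support) : ∃ w : GL n E, NW G P wt [α] w ∧ w ∈ IwT O G P wt ρ := by
  have hri : P.root (P.reflectionPerm α α) = - P.root α := by simp
  obtain ⟨f, hf, e, he, wf, we, hef, hsp⟩ := D.root_vec (P.reflectionPerm α α)
  rw [hri, neg_neg] at we
  have ne : IsNilpotent e := we.nil
  have nf : IsNilpotent f := wf.nil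
  set e₁ := e.map (algebraMap Ω E) with he₁
  set f₁ := f.map (algebraMap Ω E) with hf₁
  have le₁ : e₁ ∈ lie (GS G) E := lie.map he (Algebra.linearMap Ω E)
  have lf₁ : f₁ ∈ lie (GS G) E := lie.map hf (Algebra.linearMap Ω E)
  have we₁ : Wt wt (P.root α) e₁ := Sup.map we _
  have wf₂ : Wt wt (P.root (P.reflectionPerm α α)) f₁ := Sup.map wf _
  have wf₁ : Wt wt (-P.root α) f₁ := hri ▸ wf₂
  have hef₁ : e₁ * f₁ - f₁ * e₁ = DD P wt E (P.coroot α) := by
    have : P.coroot α = - P.coroot (P.reflectionPerm α α) := by simp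
    rw [this, DD_neg, ← DD_map (algebraMap Ω E), ← hef, Matrix.map_sub _ (map_sub _),
      Matrix.map_mul, Matrix.map_mul, neg_sub]
  have hw : Nrm P wt (inl (ex e₁ * ex (-f₁) * ex e₁)) (P.coreflection α) :=
    (sl2_nrm (P.root_coroot_two α) we₁ wf₁ hef₁).2.2.congr fun x => (P.coreflection_apply α x).symm
  have hmap : ∀ X : Matrix n n Ω, IsNilpotent X → Matrix.GeneralLinearGroup.map (algebraMap Ω E)
      (ex X) = ex (X.map (algebraMap Ω E)) := fun X hX => Units.ext (map_ex _ hX)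
  set w := ex e₁ * ex (-f₁) * ex e₁ with hwe
  have hN : NW G P wt [α] w := ⟨mul_mem (mul_mem (D.ex_mem le₁ we₁)
    (D.ex_mem (neg_mem lf₁) (Sup.neg wf₂))) (D.ex_mem le₁ we₁), ⟨ex e * ex (-f) * ex e, by
      rw [map_mul, map_mul, hmap _ ne, hmap _ nf.neg, Matrix.map_neg _ (map_neg _)]⟩, hw⟩
  obtain ⟨κw, hκw⟩ : ∃ κ : GL n O, Matrix.GeneralLinearGroup.map (algebraMap O E) κ = w := by
    obtain ⟨w₀, h0⟩ := hN.2.1
    exact h0 ▸ int_const w₀
  have key : ∀ r ∈ RG G P wt E (P.reflectionPerm α α), IwS O G P wt ρ (r * w) := by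
    rintro _ ⟨X, hX, wX, rfl⟩
    obtain ⟨a, rfl⟩ := hsp E X hX wX
    rcases ValuationRing.isInteger_or_isInteger O a with ⟨o, rfl⟩ | ⟨o, ho⟩
    · obtain ⟨κ, hκ⟩ := int_ex (E := E) nf o
      rw [← hκ, ← hκw, ← map_mul]
      exact IwS.int _
    by_cases ha : a = 0
    · rw [ha, zero_smul, ex_zero, one_mul, ← hκw]
      exact IwS.int _
    let u : Eˣ := Units.mk0 (-a⁻¹) (by simp [ha])
    have hL := (D.sl2 α).1
    choose k hk using mem_lat.mp hL
    have hk' : ∀ j, ⌊hh P wt (P.coroot α) j⌋ = k j := fun j => by simp [hk]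
    have h5 := weyl_scale we₁.nil wf₂.nil k ((we₁.hh (P := P) (P.coroot α)).mono fun a b h => by
        rw [hk, hk, P.root_coroot_two] at h; exact_mod_cast h)
      ((wf₁.hh (P := P) (P.coroot α)).mono fun a b h => by
        rw [hk, hk, map_neg, LinearMap.neg_apply, P.root_coroot_two] at h; exact_mod_cast h)
      (fun a b h => by
        by_contra h0
        have := (ac_entry (hw (P.coroot α)) a b).1 h0
        rw [P.coreflection_apply_self, hh_neg, Pi.neg_apply, hk, hk] at this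
        exact h (by have : -k a = k b := by exact_mod_cast this
                    omega)) u
    have e3 : -(((u⁻¹ : Eˣ) : E) • f₁) = a • f₁ := by simp [u]
    rw [e3] at h5
    have r1 : (ex ((u : E) • e₁))⁻¹ ∈ RG G P wt E α :=
      RG_inv ⟨_, Submodule.smul_mem _ _ le₁, Sup.smul we₁ _, rfl⟩
    have r2 : w * (ex ((u : E) • e₁))⁻¹ * w⁻¹ ∈ RG G P wt E (P.reflectionPerm α α) :=
      RG_conj hN.1 hw (P.coreflection α).surjective (fun x => by
        rw [root'_neg, root'_refl, root'_neg, neg_neg]) r1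
    obtain ⟨κ, hκ⟩ := int_ex (E := E) ne o
    have e4 : ex (a • f₁) * w = Matrix.GeneralLinearGroup.map (algebraMap O E) κ *
        dU (fun i => u ^ k i) * (w * (ex ((u : E) • e₁))⁻¹ * w⁻¹) * (w * w) := by
      rw [hκ, ho, show a⁻¹ • e₁ = -((u : E) • e₁) by simp [u],
        ← ex_inv (we₁.nil.smul _), mul_assoc _ (dU _), ← mul_assoc (dU _), ← mul_assoc (dU _), ← h5]
      group
    rw [e4]
    refine IwT.tor (mul_mem hN.1 hN.1) (nrm_iff_zer.mp ?_ ρ) _ (IwT.neg (D.RG_UU ?_ r2) _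
      (IwT.tor ?_ (Sup.diagonal (p := fun i j => hh P wt ρ i = hh P wt ρ j) (fun _ => rfl) _) _
        (IwS.int κ)))
    · rw [map_mul]
      exact (hw.mul hw).congr fun x => by simp
    · rw [root'_neg, map_neg, neg_neg]; exact hρ α hα
    · simpa only [hk'] using D.co_mem hL u
  refine ⟨w, hN, ?_⟩
  rintro _ ⟨κ, a, ha, t, ht, hz, rfl⟩
  obtain ⟨a', ha', r, hr, e5⟩ := D.split hρ hα (inv_mem ha)
  have hi := hN.inv
  have k5 : w⁻¹ * a'⁻¹ * w⁻¹⁻¹ ∈ UU G E (hh P wt (-ρ)) := by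
    refine D.UU_mono (x := -(ρ + P.coreflection α ρ)) (fun i hi => ?_)
      (UU_conj hi.1 ((hi.2.2 _).trans ?_) (inv_mem ha'))
    · by_contra hc
      have h5 : b.IsPos i := by
        rw [← pos_iff hρ]
        rw [map_neg, neg_pos, not_lt] at hc
        exact lt_of_le_of_ne hc (reg_ne hρ i).symm
      rw [map_neg, map_add, root'_refl] at hi
      by_cases h6 : i = α
      · rw [h6, root'_neg] at hi; linarith
      · linarith [pos_pos h5 hρ, pos_pos (h5.reflectionPerm hα h6) hρ]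
    · simp [add_comm]
  obtain ⟨x, hx⟩ := D.cent_tor (o := fun _ => 0) (reg_ne hρ) (by simp) ht hz
  have k6 := hi.2.2.tor (wN_surj _) (fun _ => rfl) hx
  rw [acu_inl] at k6
  have e6 : Matrix.GeneralLinearGroup.map (algebraMap O E) κ * a * t * w =
      Matrix.GeneralLinearGroup.map (algebraMap O E) κ * (r⁻¹ * w) * (w⁻¹ * a'⁻¹ * w⁻¹⁻¹) *
        (w⁻¹ * t * w⁻¹⁻¹) := by
    rw [← inv_inv a, e5]; group
  rw [e6]
  exact IwT.tor (mul_mem (mul_mem hi.1 ht) (inv_mem hi.1)) (k6.zer _) _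
    (IwT.neg k5 _ (IwS.left κ (key _ (RG_inv hr))))

end Aux

theorem DS.iwasawa (D : DS G P wt) (hρ : ∀ i ∈ b.support, 0 < P.root' i ρ) (O E : Type)
    [CommRing O] [IsDomain O] [ValuationRing O] [Algebra Ω O] [Field E] [CharZero E] [Algebra O E]
    [IsFractionRing O E] [Algebra Ω E] [IsScalarTower Ω O E] {g : GL n E} (hg : g ∈ GE G E) :
    ∃ κ : GL n O, ∃ c ∈ GE G E, NN (hh P wt (-ρ)) c.val ∧
      g = Matrix.GeneralLinearGroup.map (algebraMap O E) κ * c := by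
  have hW : ∀ l : List ι, (∀ i ∈ l, i ∈ b.support) → ∀ w : GL n E, NW G P wt l w →
      w ∈ IwT O G P wt ρ := by
    intro l
    induction l with
    | nil => exact fun _ w hw => IwT.tor hw.1 (nrm_iff_zer.mp hw.2.2 ρ)
    | cons i l ih =>
      intro hl w hw
      obtain ⟨w₀, hw₀, h0⟩ := D.iw_simple (O := O) (E := E) hρ (hl i List.mem_cons_self)
      have h1 := hw₀.inv.mul hw
      have h2 := ih (fun j hj => hl j (List.mem_cons_of_mem _ hj)) (w₀⁻¹ * w)
        ⟨h1.1, h1.2.1, h1.2.2.congr fun x => by simp⟩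
      simpa using mul_mem h0 h2
  have hU : ∀ c ∈ UU G E (hh P wt ρ), c ∈ IwT O G P wt ρ := by
    intro c hc
    obtain ⟨l, hl, hd⟩ := climb (b := b) (J := b.support) subset_rfl (-ρ)
    obtain ⟨w, hw⟩ := D.exists_NW (E := E) l
    have h1 : c ∈ UU G E (hh P wt (wN P l (-ρ))) := by
      refine D.UU_mono (fun i hi => pos_pos ((pos_iff hρ i).mp hi) fun j hj =>
        lt_of_le_of_ne (hd j hj) fun h0 => ?_) hc
      obtain ⟨k, rfl⟩ := (wI P l).surjective j
      rw [root'_wN, map_neg, eq_comm, neg_eq_zero] at h0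
      exact reg_ne hρ k h0
    have h2 := UU_conj hw.inv.1 (hw.inv.2.2 _) h1
    rw [wN_reverse] at h2
    have := mul_mem (mul_mem (hW l hl w hw) (IwT.neg h2)) (hW l.reverse (by simpa using hl) _ hw.inv)
    rwa [show w * (w⁻¹ * c * w⁻¹⁻¹) * w⁻¹ = c by group] at this
  obtain ⟨z, -, hz⟩ := D.qp_all (o := fun _ => 0) hρ (by simp) (fun _ _ => ⟨0, by simp⟩) hg
  obtain ⟨a, ha, t, ht, l, w, c, hc, x', h1, h2, h3, -, e⟩ := hz _ _ (RelB.one (by simp))
  have h4 := mul_mem (mul_mem (mul_mem (IwT.neg (O := O) ha) (IwT.tor ht (h1.zer _)))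
    (hW l h2 w h3)) (hU c hc) _ (IwS.int 1)
  rw [map_one, one_mul, ← e, mul_one] at h4
  obtain ⟨κ, a₁, ha₁, t₁, ht₁, hz₁, e₁⟩ := h4
  exact ⟨κ, a₁ * t₁, mul_mem ha₁.1 ht₁, (NN.of_unip ha₁.2).mul
    (hh_neg (P := P) (wt := wt) ρ ▸ hz₁.neg'.nn), e₁.trans (mul_assoc _ _ _)⟩

end Pool.Agent.P.MP_7d29e8_ag
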