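import Pool.Agent.P.MP_7d29e8_ag.FG1
import Pool.Agent.P.MP_7d29e8_ag.FB1

set_option autoImplicit false
set_option linter.unusedSectionVars false
set_option linter.unusedVariables false

/-! Split semisimple elements are conjugate into a Borel subalgebra. -/

namespace Pool.Agent.P.MP_7d29e8_ag

open Finset SemidirectProduct
open scoped Classical

variable {Ω : Type} [Field Ω] [CharZero Ω] {n : Type} [Fintype n] [DecidableEq n]
  {ι M N : Type} [AddCommGroup M] [Module ℚ M] [AddCommGroup N] [Module ℚ N]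
  {P : RootPairing ι ℚ M N} {wt : n → M} {G : Subgroup (GL n Ω)}
  [Finite ι] [P.IsCrystallographic] [P.IsReduced] {b : P.Base} {ρ : N}

lemma nn_poly_FG2 {q : n → ℚ} {k : GL n Ω} {d : n → Ω} (h : NN q (cd k d)) (p : Polynomial Ω) :
    NN q (cd k fun i => p.eval (d i)) := by
  have hp : ∀ m : ℕ, NN q (cd k (d ^ m)) := by
    intro m
    induction m with
    | zero =>
      have e : cd k (d ^ 0) = 1 := by
        rw [pow_zero, cd]
        have : Matrix.diagonal (1 : n → Ω) = 1 := Matrix.diagonal_one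
        rw [this, mul_one, Units.mul_inv]
      rw [e]
      exact NN.one
    | succ m ih =>
      rw [pow_succ, cd_mul]
      exact NN.mul ih h
  induction p using Polynomial.induction_on' with
  | add p p' hp hp' =>
    have e : (fun i => (p + p').eval (d i)) =
        (fun i => p.eval (d i)) + fun i => p'.eval (d i) := by
      funext i
      simp
    rw [e, cd_add]
    exact Sup.add hp hp'
  | monomial m a =>
    have e : (fun i => (Polynomial.monomial m a).eval (d i)) = a • d ^ m := by
      funext i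
      simp
    rw [e, cd_smul]
    exact Sup.smul (hp m) a

lemma nn_fun_FG2 {q : n → ℚ} {k : GL n Ω} {d d' : n → Ω} (h : NN q (cd k d))
    (hd : ∀ i j, d i = d j → d' i = d' j) : NN q (cd k d') := by
  have hf : Function.FactorsThrough d' d := fun i j e => hd i j e
  have := nn_poly_FG2 h (Lagrange.interpolate (univ.image d) id (Function.extend d d' 0))
  have e : (fun i => (Lagrange.interpolate (univ.image d) id (Function.extend d d' 0)).eval (d i)) =
      d' := by
    funext i
    have h1 := Lagrange.eval_interpolate_at_node (s := univ.image d) (v := id)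
      (Function.extend d d' 0) (Set.injOn_id _) (mem_image_of_mem d (mem_univ i))
    rw [id] at h1
    rw [h1, hf.extend_apply]
  rwa [e] at this

lemma core_FG2 (D : DS G P wt) (hρ : ∀ i ∈ b.support, 0 < P.root' i ρ) (O E : Type)
    [CommRing O] [IsDomain O] [ValuationRing O] [Algebra Ω O] [Field E] [CharZero E] [Algebra O E]
    [IsFractionRing O E] [Algebra Ω E] [IsScalarTower Ω O E] (σ : O →+* O) (τ : E →+* E)
    (hτ : ∀ a, τ (algebraMap O E a) = algebraMap O E (σ a))
    (hσ : ∀ c : Ω, σ (algebraMap Ω O c) = algebraMap Ω O c) (ε : O →ₐ[Ω] Ω)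
    (hε : ∀ a, ε (σ a) = ε a) (u : Ωˣ) (t : Eˣ) (ht : τ t = algebraMap Ω E u * t) {k : GL n Ω}
    {z : n → ℤ} (H : ∀ s : Ω, s ≠ 0 → cd k (fun i => s ^ z i) ∈ Cl (GS G) Ω) :
    ∃ g ∈ G, NN (hh P wt (-ρ)) (cd (g * k) fun i => (u : Ω) ^ z i) := by
  let mE : GL n O →* GL n E := Matrix.GeneralLinearGroup.map (algebraMap O E)
  let sE : GL n E →* GL n E := Matrix.GeneralLinearGroup.map τ
  let sO : GL n O →* GL n O := Matrix.GeneralLinearGroup.map σ
  let e0 : GL n O →* GL n Ω := Matrix.GeneralLinearGroup.map (ε : O →+* Ω)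
  let iO : GL n Ω →* GL n O := Matrix.GeneralLinearGroup.map (algebraMap Ω O)
  let iE : GL n Ω →* GL n E := Matrix.GeneralLinearGroup.map (algebraMap Ω E)
  have f1 : ∀ x, sE (mE x) = mE (sO x) := fun x => Units.ext (Matrix.ext fun i j => hτ _)
  have f2 : ∀ x, mE (iO x) = iE x := fun x =>
    Units.ext (Matrix.ext fun i j => (IsScalarTower.algebraMap_apply Ω O E _).symm)
  have f3 : ∀ x, e0 (sO x) = e0 x := fun x => Units.ext (Matrix.ext fun i j => hε _)
  have f4 : ∀ x, e0 (iO x) = x := fun x => Units.ext (Matrix.ext fun i j => ε.commutes _)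
  have f5 : ∀ x, sO (iO x) = iO x := fun x => Units.ext (Matrix.ext fun i j => hσ _)
  have f6 : ∀ x, sE (iE x) = iE x := fun x => by rw [← f2, f1, f5]
  have f7 : sE (dU fun i => t ^ z i) = iE (dU fun i => u ^ z i) * dU fun i => t ^ z i := by
    refine Units.ext ?_
    change (Matrix.diagonal fun i => ((t ^ z i : Eˣ) : E)).map τ =
      (Matrix.diagonal fun i => ((u ^ z i : Ωˣ) : Ω)).map (algebraMap Ω E) *
        Matrix.diagonal fun i => ((t ^ z i : Eˣ) : E)
    rw [Matrix.diagonal_map (map_zero _), Matrix.diagonal_map (map_zero _),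
      Matrix.diagonal_mul_diagonal]
    congr 1
    funext i
    simp only [Units.val_zpow_eq_zpow_val, map_zpow₀, ht, mul_zpow]
  have hS : ∀ s : Ω, s ≠ 0 → Matrix.diagonal (fun i => s ^ z i) ∈ Cl (GS (Gd G k)) Ω := by
    intro s hs
    have e : (dU fun i => Units.mk0 s hs ^ z i : GL n Ω).val =
        Matrix.diagonal fun i => s ^ z i := by simp
    refine Cl.self ⟨dU fun i => Units.mk0 s hs ^ z i, ?_, e⟩
    rw [mem_Gd, acu_inl]
    apply D.closed
    rw [Units.val_mul, Units.val_mul, e]
    exact H s hs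
  have hlam : iE k * (dU fun i => t ^ z i) * (iE k)⁻¹ ∈ GE G E := by
    rw [← map_inv]
    exact conj_cl (G₁ := Gd G k) (G₂ := G) (fun g hg => hg) (Cl.cochar z hS t)
  obtain ⟨κ, c, hc, hn, e⟩ := D.iwasawa hρ O E hlam
  change _ = mE κ * c at e
  have hκ : e0 κ ∈ G := by
    apply D.closed
    have h1 : mE κ ∈ GE G E := by
      have := (GE G E).mul_mem hlam ((GE G E).inv_mem hc)
      rwa [e, mul_inv_cancel_right] at this
    have h2 : κ.val ∈ Cl (GS G) O := by
      intro f hf
      apply IsFractionRing.injective O E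
      rw [map_zero]
      exact (ev_map κ.val (IsScalarTower.toAlgHom Ω O E) f).symm.trans (h1 f hf)
    exact Cl.map h2 ε
  have e2 := congrArg sE e
  rw [map_mul, map_mul, map_mul, map_inv, f6, f7, f1] at e2
  have e3 : mE ((sO κ)⁻¹ * iO (k * (dU fun i => u ^ z i) * k⁻¹) * κ) = sE c * c⁻¹ := by
    have h1 : mE κ = iE k * (dU fun i => t ^ z i) * (iE k)⁻¹ * c⁻¹ := by
      rw [e, mul_inv_cancel_right]
    have h2 : sE c = (mE (sO κ))⁻¹ *
        (iE k * (iE (dU fun i => u ^ z i) * dU fun i => t ^ z i) * (iE k)⁻¹) := by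
      rw [e2, inv_mul_cancel_left]
    rw [map_mul, map_mul, map_inv, f2, map_mul, map_mul, map_inv, h2, h1]
    group
  have n1 : NN (hh P wt (-ρ)) (sE c * c⁻¹).val := by
    rw [Units.val_mul, Matrix.coe_units_inv]
    exact NN.mul (Sup.map hn τ) (NN.inv hn c.isUnit)
  rw [← e3] at n1
  have n2 : NN (hh P wt (-ρ)) ((sO κ)⁻¹ * iO (k * (dU fun i => u ^ z i) * k⁻¹) * κ).val :=
    fun i j hij => IsFractionRing.injective O E ((n1 i j hij).trans (map_zero _).symm)
  have n3 : NN (hh P wt (-ρ)) (e0 ((sO κ)⁻¹ * iO (k * (dU fun i => u ^ z i) * k⁻¹) * κ)).val :=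
    Sup.map n2 (ε : O →+* Ω)
  rw [map_mul, map_mul, map_inv, f3, f4] at n3
  refine ⟨(e0 κ)⁻¹, G.inv_mem hκ, ?_⟩
  have e4 : (e0 κ)⁻¹ * (k * (dU fun i => u ^ z i) * k⁻¹) * e0 κ =
      (e0 κ)⁻¹ * k * (dU fun i => u ^ z i) * ((e0 κ)⁻¹ * k)⁻¹ := by group
  rw [e4, Units.val_mul, Units.val_mul _ (dU _), dU_val] at n3
  simpa only [cd, Units.val_zpow_eq_zpow_val] using n3

theorem DS.conj_borel (D : DS G P wt) (hρ : ∀ i ∈ b.support, 0 < P.root' i ρ) {k : GL n Ω}
    {h : n → ℚ} (hH : cd k (fun i => (h i : Ω)) ∈ lie (GS G) Ω) :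
    ∃ g ∈ G, NN (hh P wt (-ρ)) (cd (g * k) fun i => (h i : Ω)) := by
  obtain ⟨r, hr, z, hz⟩ : ∃ r : ℕ, 0 < r ∧ ∃ z : n → ℤ, ∀ i, (r : ℚ) * h i = z i := by
    refine ⟨∏ i, (h i).den, prod_pos fun i _ => Rat.den_pos _,
      fun i => (∏ j ∈ univ.erase i, (h j).den : ℕ) * (h i).num, fun i => ?_⟩
    rw [← mul_prod_erase _ _ (mem_univ i)]
    push_cast
    rw [mul_right_comm, Rat.den_mul_eq_num, mul_comm]
  have hZ : cd k (fun i => (z i : Ω)) ∈ lie (GS G) Ω := by
    have e : (fun i => (z i : Ω)) = (r : Ω) • fun i => (h i : Ω) := by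
      funext i
      have := congrArg (Rat.cast : ℚ → Ω) (hz i)
      push_cast at this
      simpa using this.symm
    rw [e, cd_smul]
    exact Submodule.smul_mem _ _ hH
  let O := PowerSeries Ω
  let E := FractionRing O
  have : CharZero E := charZero_of_injective_algebraMap (algebraMap Ω E).injective
  have h2 : (2 : Ω) ≠ 0 := two_ne_zero
  have hinj : Function.Injective ((algebraMap O E).comp (PowerSeries.rescale (2 : Ω))) :=
    (IsFractionRing.injective O E).comp (PowerSeries.rescale_injective h2)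
  have hX : algebraMap O E PowerSeries.X ≠ 0 := fun e =>
    PowerSeries.X_ne_zero (IsFractionRing.injective O E (e.trans (map_zero _).symm))
  obtain ⟨g, hg, hn⟩ := core_FG2 D hρ O E (PowerSeries.rescale (2 : Ω)) (IsFractionRing.lift hinj)
    (fun a => IsFractionRing.lift_algebraMap hinj a)
    (fun c => by
      ext m
      rw [PowerSeries.coeff_rescale, PowerSeries.algebraMap_apply, PowerSeries.coeff_C]
      split_ifs with hm <;> simp [hm])
    { (PowerSeries.constantCoeff : O →+* Ω) with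
      commutes' := fun c => by simp [O] }
    (fun a => by
      change PowerSeries.constantCoeff _ = PowerSeries.constantCoeff _
      rw [← PowerSeries.coeff_zero_eq_constantCoeff_apply,
        ← PowerSeries.coeff_zero_eq_constantCoeff_apply, PowerSeries.coeff_rescale, pow_zero,
        one_mul])
    (Units.mk0 2 h2) (Units.mk0 _ hX)
    (by
      rw [Units.val_mk0, Units.val_mk0, IsFractionRing.lift_algebraMap, RingHom.comp_apply,
        PowerSeries.rescale_X, map_mul, IsScalarTower.algebraMap_apply Ω O E]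
      rfl)
    (k := k) (z := z) (fun s hs => lie_cochar hZ hs)
  refine ⟨g, hg, nn_fun_FG2 hn fun i j e => ?_⟩
  have e1 : ((2 : ℚ) ^ z i : ℚ) = (2 : ℚ) ^ z j := by
    apply Rat.cast_injective (α := Ω)
    push_cast
    exact e
  have e2 : z i = z j := zpow_right_injective₀ (by norm_num) (by norm_num) e1
  have e3 : h i = h j := by
    apply mul_left_cancel₀ (Nat.cast_ne_zero.2 hr.ne' : (r : ℚ) ≠ 0)
    rw [hz, hz, e2]
  rw [e3]

end Pool.Agent.P.MP_7d29e8_ag
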