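import Pool.Agent.P.MP_7d29e8_ag.FF0
import Pool.Agent.P.MP_7d29e8_ag.FF2
import Pool.Agent.P.MP_7d29e8_ag.FB2

set_option autoImplicit false
set_option linter.unusedSectionVars false
set_option linter.unusedVariables false

/-! Automorphisms of the based root datum. -/

namespace Pool.Agent.P.MP_7d29e8_ag

open Finset SemidirectProduct
open scoped Classical

variable {Ω : Type} [Field Ω] [CharZero Ω] {n : Type} [Fintype n] [DecidableEq n]
  {ι M N : Type} [AddCommGroup M] [Module ℚ M] [AddCommGroup N] [Module ℚ N]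
  {P : RootPairing ι ℚ M N} {wt : n → M} {G : Subgroup (GL n Ω)}
  [Finite ι] [P.IsCrystallographic] [P.IsReduced] {b : P.Base} {ρ : N}

theorem DS.nrm_of (D : DS G P wt) {φ : SL n Ω} (hφ : ∀ g ∈ G, acu φ g ∈ G) {ρ' : N}
    (hρ' : ∀ i, P.root' i ρ' ≠ 0) (h : ac φ (DD P wt Ω ρ) = DD P wt Ω ρ') :
    ∃ a : N →ₗ[ℚ] N, Nrm P wt φ a := by
  have key : ∀ x, ∃ y, ac φ (DD P wt Ω x) = DD P wt Ω y := fun x => by
    have h1 : ac φ (DD P wt Ω x) ∈ lie (GS G) Ω := lie_ac hφ (D.DD_mem x)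
    have h2 : Zer (hh P wt ρ') (ac φ (DD P wt Ω x)) :=
      zer_ac h (Sup.diagonal (p := fun i j => hh P wt ρ i = hh P wt ρ j) (fun _ => rfl) _)
    have h3 := D.cent_reg hρ' h1 h2
    obtain ⟨d, hd⟩ := span_DD_diag h3
    have h4 : cd 1 d = cd φ.left fun i => (hh P wt x i : Ω) := by
      rw [cd_one, ← hd]; exact ac_diag φ _
    choose l hl using cd_range h4
    have h5 : d = fun j => ((hh P wt x (l j) : ℚ) : Ω) := funext hl
    rw [hd, h5] at h3
    obtain ⟨y, hy⟩ := span_DD_rat h3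
    exact ⟨y, by rw [hd, h5, DD, hy]⟩
  choose a ha using key
  refine ⟨⟨⟨a, fun x y => ?_⟩, fun c x => ?_⟩, ha⟩
  · refine DD_inj (P := P) (E := Ω) D.span ?_
    rw [← ha, DD_add, map_add, DD_add, ha, ha]
  · refine DD_inj (P := P) (E := Ω) D.span ?_
    rw [← ha, DD_smul, ac_smul, map_ratCast, ha, RingHom.id_apply, DD_smul]

lemma root_FH1 (D : DS G P wt) {φ : SL n Ω} (hφ : ∀ g ∈ G, acu φ g ∈ G) {a : N → N}
    (h : Nrm P wt φ a) (hs : Function.Surjective a) (i : ι) {m : M}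
    (hm : ∀ x, P.toLinearMap m (a x) = P.toLinearMap (P.root i) x) : m ∈ Set.range P.root := by
  obtain ⟨-, e, he, f, -, we, -, hef⟩ := D.sl2 i
  have h0 : e ≠ 0 := by
    rintro rfl
    have : DD P wt Ω (P.coroot i) = DD P wt Ω 0 := by
      rw [← hef]; simp [DD, hh_zero]
    exact P.ne_zero' i (DD_inj D.span this)
  refine D.roots m ?_ _ (lie_ac hφ he) (fun h1 => h0 (ac_inj φ (by rw [h1, map_zero])))
    (h.wt' hs hm we)
  rintro rfl
  have := hm (P.coroot i)
  simp at this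

lemma coroot_FH1 (D : DS G P wt) {φ : SL n Ω} {a : N → N} (h : Nrm P wt φ a)
    (hs : Function.Surjective a) {i j : ι} (hm : ∀ x, P.root' j x = P.root' i (a x)) :
    a (P.coroot j) = P.coroot i := by
  obtain ⟨x, hx⟩ := hs (P.coroot i)
  have e1 := D.BB_coroot x j
  rw [← h.BB_eq x, ← h.BB_eq (P.coroot j), hm, hx] at e1
  have e2 := D.BB_coroot (a (P.coroot j)) i
  rw [← hm] at e2
  have r1 : P.root' i (P.coroot i) = 2 := by simp
  have r2 : P.root' j (P.coroot j) = 2 := by simp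
  rw [r1] at e1
  rw [r2] at e2
  refine sub_eq_zero.mp (BB_self (P := P) D.span ?_)
  have e3 : BB P wt (a (P.coroot j) - P.coroot i) (a (P.coroot j) - P.coroot i) =
      BB P wt (a (P.coroot j)) (a (P.coroot j)) - BB P wt (a (P.coroot j)) (P.coroot i) -
        BB P wt (P.coroot i) (a (P.coroot j)) + BB P wt (P.coroot i) (P.coroot i) := by
    simp only [BB, hh_sub, ← sum_sub_distrib, ← sum_add_distrib]
    exact sum_congr rfl fun _ _ => by ring
  rw [e3]
  linarith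

theorem DS.aut (D : DS G P wt) {φ : SL n Ω} (hφ : ∀ g, acu φ g ∈ G ↔ g ∈ G) {ρ' : N}
    (hρ : ∀ i ∈ b.support, 0 < P.root' i ρ) (hρ' : ∀ i ∈ b.support, 0 < P.root' i ρ')
    (h : ac φ (DD P wt Ω ρ) = DD P wt Ω ρ') :
    ∃ a : P.Aut, (∀ i ∈ b.support, a.indexEquiv i ∈ b.support) ∧ Nrm P wt φ a.coweightMap := by
  have hφ1 : ∀ g ∈ G, acu φ g ∈ G := fun g hg => (hφ g).mpr hg
  have hφ2 : ∀ g ∈ G, acu φ⁻¹ g ∈ G := fun g hg => (hφ _).mp (by rwa [acu_acu_inv])
  obtain ⟨a, ha⟩ := D.nrm_of hφ1 (reg_ne hρ') h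
  obtain ⟨a', ha'⟩ := D.nrm_of (ρ := ρ') (ρ' := ρ) hφ2 (reg_ne hρ) (by rw [← h, ac_inv_ac])
  have i1 : ∀ x, a (a' x) = x := fun x =>
    DD_inj (P := P) (E := Ω) D.span (by rw [← ha, ← ha', ac_ac_inv])
  have i2 : ∀ x, a' (a x) = x := fun x =>
    DD_inj (P := P) (E := Ω) D.span (by rw [← ha', ← ha, ac_inv_ac])
  have s1 : Function.Surjective a := fun x => ⟨_, i1 x⟩
  have s2 : Function.Surjective a' := fun x => ⟨_, i2 x⟩
  have hw : ∀ c : N →ₗ[ℚ] N, ∃ w : M →ₗ[ℚ] M, ∀ m x,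
      P.toLinearMap (w m) x = P.toLinearMap m (c x) := fun c => by
    refine ⟨P.toPerfPair.symm.toLinearMap ∘ₗ c.dualMap ∘ₗ P.toLinearMap, fun m x => ?_⟩
    have : ∀ f : Module.Dual ℚ N, P.toLinearMap (P.toPerfPair.symm f) = f := fun f =>
      P.toPerfPair.apply_symm_apply f
    simp only [LinearMap.comp_apply, LinearEquiv.coe_coe, this, LinearMap.dualMap_apply]
  obtain ⟨w, hw1⟩ := hw a
  obtain ⟨w', hw2⟩ := hw a'
  have j1 : ∀ m, w (w' m) = m := fun m => pair_ext (P := P) fun x => by rw [hw1, hw2, i2]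
  have j2 : ∀ m, w' (w m) = m := fun m => pair_ext (P := P) fun x => by rw [hw2, hw1, i1]
  choose σ hσ using fun i => root_FH1 D hφ2 ha' s2 i (m := w (P.root i)) fun x => by rw [hw1, i1]
  choose τ hτ using fun i => root_FH1 D hφ1 ha s1 i (m := w' (P.root i)) fun x => by rw [hw2, i2]
  let e : ι ≃ ι := ⟨σ, τ, fun i => P.root.injective (by rw [hτ, hσ, j2]),
    fun i => P.root.injective (by rw [hσ, hτ, j1])⟩
  let A : P.Aut :=
    { weightMap := w
      coweightMap := a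
      indexEquiv := e
      weight_coweight_transpose := by
        ext x m
        exact hw1 m x
      root_weightMap := funext fun i => (hσ i).symm
      coroot_coweightMap := funext fun j => coroot_FH1 D ha s1 (i := τ j) fun x => by
        change P.toLinearMap (P.root j) x = P.toLinearMap (P.root (τ j)) (a x)
        rw [hτ, hw2, i2]
      bijective_weightMap := Function.bijective_iff_has_inverse.mpr ⟨w', j2, j1⟩
      bijective_coweightMap := Function.bijective_iff_has_inverse.mpr ⟨a', i2, i1⟩ }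
  exact ⟨A, aut_supp b A hρ hρ' (DD_inj (P := P) (E := Ω) D.span ((ha ρ).symm.trans h)), ha⟩

end Pool.Agent.P.MP_7d29e8_ag
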