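import Pool.Agent.P.MP_7d29e8_ag.FB2

set_option autoImplicit false
set_option linter.unusedSectionVars false
set_option linter.unusedVariables false

/-! The differential of an isomorphism. -/

namespace Pool.Agent.P.MP_7d29e8_ag

open Finset SemidirectProduct
open scoped Classical

variable {Ω : Type} [Field Ω] [CharZero Ω] {n n' : Type} [Fintype n] [DecidableEq n] [Fintype n']
  [DecidableEq n'] {G : Subgroup (GL n Ω)} {G' : Subgroup (GL n' Ω)}

/-- evaluation at a pair of matrices -/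
noncomputable def ev2_FI1 {R : Type} [CommRing R] [Algebra Ω R] (γ γ' : Matrix n n R) :
    MvPolynomial ((n × n) ⊕ (n × n)) Ω →ₐ[Ω] R :=
  MvPolynomial.aeval (Sum.elim (fun q : n × n => γ q.1 q.2) (fun q : n × n => γ' q.1 q.2))

lemma ev2_inl_FI1 {R : Type} [CommRing R] [Algebra Ω R] (γ γ' : Matrix n n R) (q : n × n) :
    ev2_FI1 (Ω := Ω) γ γ' (MvPolynomial.X (Sum.inl q)) = γ q.1 q.2 := by
  simp [ev2_FI1]

lemma ev2_inr_FI1 {R : Type} [CommRing R] [Algebra Ω R] (γ γ' : Matrix n n R) (q : n × n) :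
    ev2_FI1 (Ω := Ω) γ γ' (MvPolynomial.X (Sum.inr q)) = γ' q.1 q.2 := by
  simp [ev2_FI1]

lemma ev2_map_FI1 {R R' : Type} [CommRing R] [Algebra Ω R] [CommRing R'] [Algebra Ω R']
    (γ γ' : Matrix n n R) (φ : R →ₐ[Ω] R') (f : MvPolynomial ((n × n) ⊕ (n × n)) Ω) :
    ev2_FI1 (γ.map φ) (γ'.map φ) f = φ (ev2_FI1 γ γ' f) := by
  have : ev2_FI1 (γ.map φ) (γ'.map φ) = φ.comp (ev2_FI1 γ γ') := by
    refine MvPolynomial.algHom_ext fun p => ?_
    rcases p with p | p <;> simp [ev2_inl_FI1, ev2_inr_FI1]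
  rw [this]; rfl

lemma ev2_rename_FI1 {m : Type} [Fintype m] [DecidableEq m] {R : Type} [CommRing R] [Algebra Ω R]
    (γ γ' : Matrix m m R) (e : n → m) (f : MvPolynomial ((n × n) ⊕ (n × n)) Ω) :
    ev2_FI1 γ γ' (MvPolynomial.rename (Sum.map (Prod.map e e) (Prod.map e e)) f) =
      ev2_FI1 (γ.submatrix e e) (γ'.submatrix e e) f := by
  have : (ev2_FI1 (Ω := Ω) γ γ').comp (MvPolynomial.rename (Sum.map (Prod.map e e) (Prod.map e e))) =
      ev2_FI1 (γ.submatrix e e) (γ'.submatrix e e) := by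
    refine MvPolynomial.algHom_ext fun p => ?_
    rcases p with p | p <;> simp [ev2_inl_FI1, ev2_inr_FI1]
  rw [← this]; rfl

lemma clear_FI1 (f : MvPolynomial ((n × n) ⊕ (n × n)) Ω) :
    ∃ (N : ℕ) (f' : MvPolynomial (n × n) Ω), ∀ (R : Type) [CommRing R] [Algebra Ω R]
      (γ γ' : Matrix n n R), γ * γ' = 1 → ev γ f' = γ.det ^ N * ev2_FI1 γ γ' f := by
  have hd : ∀ (R : Type) [CommRing R] [Algebra Ω R] (γ : Matrix n n R),
      ev γ (gen Ω n).det = γ.det := by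
    intro R _ _ γ
    rw [AlgHom.map_det]; congr 1; exact gen_map γ
  induction f using MvPolynomial.induction_on with
  | C c => exact ⟨0, MvPolynomial.C c, fun R _ _ γ γ' _ => by simp [ev2_FI1]⟩
  | add f g hf hg =>
    obtain ⟨N, f', hf⟩ := hf
    obtain ⟨M, g', hg⟩ := hg
    refine ⟨N + M, (gen Ω n).det ^ M * f' + (gen Ω n).det ^ N * g', fun R _ _ γ γ' h => ?_⟩
    simp only [map_add, map_mul, map_pow, hf R γ γ' h, hg R γ γ' h, hd]
    ring
  | mul_X f p hf =>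
    obtain ⟨N, f', hf⟩ := hf
    rcases p with p | p
    · refine ⟨N, f' * MvPolynomial.X p, fun R _ _ γ γ' h => ?_⟩
      simp only [map_mul, hf R γ γ' h, ev_X, ev2_inl_FI1]
      ring
    · refine ⟨N + 1, f' * (gen Ω n).adjugate p.1 p.2, fun R _ _ γ γ' h => ?_⟩
      have h1 := AlgHom.map_adjugate (ev (Ω := Ω) γ) (gen Ω n)
      simp only [AlgHom.mapMatrix_apply, gen_map] at h1
      have h2 : γ.adjugate = γ.det • γ' := by
        calc γ.adjugate = γ.adjugate * (γ * γ') := by rw [h, mul_one]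
          _ = γ.det • γ' := by rw [← mul_assoc, Matrix.adjugate_mul, Matrix.smul_mul, one_mul]
      have h3 : ev γ ((gen Ω n).adjugate p.1 p.2) = γ.det * γ' p.1 p.2 := by
        have := congrFun (congrFun (h1.trans h2) p.1) p.2
        simpa using this
      simp only [map_mul, hf R γ γ' h, h3, ev2_inr_FI1]
      ring

theorem rv (f : MvPolynomial ((n × n) ⊕ (n × n)) Ω)
    (hf : ∀ g ∈ G, MvPolynomial.aeval (Sum.elim (fun q : n × n => g.val q.1 q.2)
      (fun q : n × n => (g⁻¹).val q.1 q.2)) f = 0)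
    {R : Type} [CommRing R] [Algebra Ω R] {γ γ' : Matrix n n R} (hγ : γ ∈ Cl (GS G) R)
    (h : γ * γ' = 1) : MvPolynomial.aeval (Sum.elim (fun q : n × n => γ q.1 q.2)
      (fun q : n × n => γ' q.1 q.2)) f = 0 := by
  obtain ⟨N, f', hf'⟩ := clear_FI1 f
  have h1 := hγ f' (by
    rintro _ ⟨g, hg, rfl⟩
    rw [hf' Ω g.val (g⁻¹).val g.mul_inv]
    exact mul_eq_zero_of_right _ (hf g hg))
  rw [hf' R γ γ' h] at h1
  exact ((Matrix.isUnit_det_of_right_inverse h).pow N).mul_right_eq_zero.mp h1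

lemma Reg.up {K : Type} [Field K] [Algebra K Ω] {ψ : G → G'} (h : Reg K ψ) : Reg Ω ψ := by
  intro i j
  obtain ⟨f, hf⟩ := h i j
  exact ⟨MvPolynomial.map (algebraMap K Ω) f, fun g => by
    rw [MvPolynomial.aeval_map_algebraMap, hf]⟩

open DualNumber in
/-- the tangent curve -/
noncomputable def cur_FI1 (X : Matrix n n Ω) : Matrix n n (DualNumber Ω) :=
  1 + (ε : DualNumber Ω) • X.map (algebraMap Ω (DualNumber Ω))

open DualNumber in
lemma cur_mul_FI1 (X : Matrix n n Ω) : cur_FI1 X * cur_FI1 (-X) = 1 := by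
  have hε : (ε : DualNumber Ω) * ε = 0 := eps_mul_eps
  simp only [cur_FI1, Matrix.map_neg _ (map_neg (algebraMap Ω (DualNumber Ω))), mul_add, add_mul,
    mul_one, one_mul, smul_neg, mul_neg, Matrix.mul_smul, Matrix.smul_mul, smul_smul, hε,
    zero_smul]
  abel

lemma cur_mem_FI1 {X : Matrix n n Ω} (hX : X ∈ lie (GS G) Ω) :
    cur_FI1 X ∈ Cl (GS G) (DualNumber Ω) :=
  lie.curve (GS_one G) (lie.map hX (Algebra.linearMap Ω (DualNumber Ω))) DualNumber.eps_mul_eps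

lemma cur_fst_FI1 (X : Matrix n n Ω) : (cur_FI1 X).map (TrivSqZeroExt.fstHom Ω Ω Ω) = 1 := by
  ext i j
  by_cases h : i = j <;> simp [cur_FI1, Matrix.one_apply, h]

lemma cur_snd_FI1 (X : Matrix n n Ω) (i j : n) : (cur_FI1 X i j).snd = X i j := by
  by_cases h : i = j <;> simp [cur_FI1, h, TrivSqZeroExt.algebraMap_eq_inl]

lemma cur_sub_FI1 {m : Type} [Fintype m] [DecidableEq m] (Z : Matrix m m Ω) {e : n → m}
    (he : Function.Injective e) : (cur_FI1 Z).submatrix e e = cur_FI1 (Z.submatrix e e) := by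
  refine Matrix.ext fun i j => ?_
  simp [cur_FI1, Matrix.one_apply, he.eq_iff]

lemma cur_eq_FI1 {δ : Matrix n n (DualNumber Ω)} (h : δ.map (TrivSqZeroExt.fstHom Ω Ω Ω) = 1) :
    δ = cur_FI1 (δ.map TrivSqZeroExt.snd) := by
  ext i j
  · exact (congrFun (congrFun h i) j).trans (congrFun (congrFun (cur_fst_FI1 _) i) j).symm
  · rw [cur_snd_FI1]; rfl

/-- the differential of a regular map -/
noncomputable def dif_FI1 {m : Type} (Φ : Matrix m m (MvPolynomial ((n × n) ⊕ (n × n)) Ω))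
    (X : Matrix n n Ω) : Matrix m m Ω :=
  Matrix.of fun i j => (ev2_FI1 (cur_FI1 X) (cur_FI1 (-X)) (Φ i j)).snd

lemma dif_mem_FI1 {m : Type} [Fintype m] [DecidableEq m] {H : Subgroup (GL m Ω)}
    (Φ : Matrix m m (MvPolynomial ((n × n) ⊕ (n × n)) Ω))
    (hΦ : ∀ g ∈ G, Φ.map (ev2_FI1 (Ω := Ω) g.val (g⁻¹).val) ∈ GS H)
    (h1 : Φ.map (ev2_FI1 (Ω := Ω) (1 : Matrix n n Ω) 1) = 1)
    {X : Matrix n n Ω} (hX : X ∈ lie (GS G) Ω) : dif_FI1 Φ X ∈ lie (GS H) Ω := by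
  refine lie.of_dual (GS_one H) ?_
  have e : Φ.map (ev2_FI1 (Ω := Ω) (cur_FI1 X) (cur_FI1 (-X))) = cur_FI1 (dif_FI1 Φ X) := by
    refine cur_eq_FI1 ?_
    rw [← h1]
    ext i j
    simp only [Matrix.map_apply]
    rw [← ev2_map_FI1, cur_fst_FI1, cur_fst_FI1]
  change cur_FI1 (dif_FI1 Φ X) ∈ _
  rw [← e]
  intro F hF
  rw [ev_map]
  refine rv (G := G) _ (fun g hg => ?_) (cur_mem_FI1 hX) (cur_mul_FI1 X)
  exact (ev_map Φ (ev2_FI1 (Ω := Ω) g.val (g⁻¹).val) F).symm.trans (hF _ (hΦ g hg))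

lemma sub_mem_FI1 {m : Type} [Fintype m] [DecidableEq m] {H : Subgroup (GL m Ω)} {e : n → m}
    (he : Function.Injective e) (hH : ∀ u ∈ H, u.val.submatrix e e ∈ GS G)
    {Z : Matrix m m Ω} (hZ : Z ∈ lie (GS H) Ω) : Z.submatrix e e ∈ lie (GS G) Ω := by
  have := dif_mem_FI1 (G := H) (H := G)
    (Matrix.of fun i j => MvPolynomial.X (Sum.inl (e i, e j))) (fun u hu => by
      have e1 : (Matrix.of fun i j => MvPolynomial.X (Sum.inl (e i, e j))).map
          (ev2_FI1 (Ω := Ω) u.val (u⁻¹).val) = u.val.submatrix e e := by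
        ext i j; simp [ev2_inl_FI1]
      rw [e1]; exact hH u hu) (by
      ext i j; simp [ev2_inl_FI1, Matrix.one_apply, he.eq_iff]) hZ
  have e2 : dif_FI1 (Matrix.of fun i j => MvPolynomial.X (Sum.inl (e i, e j))) Z =
      Z.submatrix e e := by
    ext i j; simp [dif_FI1, ev2_inl_FI1, cur_snd_FI1]
  rwa [e2] at this

lemma sub_zero_FI1 {m : Type} [Fintype m] [DecidableEq m] {H : Subgroup (GL m Ω)} {e : n → m}
    (he : Function.Injective e) {a b : m} (f : MvPolynomial ((n × n) ⊕ (n × n)) Ω)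
    (hH : ∀ u ∈ H, u.val a b = ev2_FI1 (u.val.submatrix e e) ((u⁻¹).val.submatrix e e) f)
    {Z : Matrix m m Ω} (hZ : Z ∈ lie (GS H) Ω) (h0 : Z.submatrix e e = 0) : Z a b = 0 := by
  have h1 : ev2_FI1 (cur_FI1 Z) (cur_FI1 (-Z)) (MvPolynomial.X (Sum.inl (a, b)) -
      MvPolynomial.rename (Sum.map (Prod.map e e) (Prod.map e e)) f) = 0 :=
    rv (G := H) _ (fun u hu => by
      change ev2_FI1 u.val (u⁻¹).val _ = 0
      rw [map_sub, ev2_inl_FI1, ev2_rename_FI1, ← hH u hu, sub_self])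
      (cur_mem_FI1 hZ) (cur_mul_FI1 Z)
  have h2 : cur_FI1 (0 : Matrix n n Ω) = (1 : Matrix n n Ω).map (Algebra.ofId Ω (DualNumber Ω)) := by
    rw [Matrix.map_one _ (map_zero _) (map_one _)]
    simp [cur_FI1]
  rw [map_sub, ev2_inl_FI1, ev2_rename_FI1, cur_sub_FI1 _ he, cur_sub_FI1 _ he,
    Matrix.submatrix_neg, Pi.neg_apply, Pi.neg_apply, h0, neg_zero, h2, ev2_map_FI1,
    sub_eq_zero] at h1
  have h3 := congrArg TrivSqZeroExt.snd h1
  rw [cur_snd_FI1] at h3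
  simpa [Algebra.ofId_apply, TrivSqZeroExt.algebraMap_eq_inl] using h3

/-- block diagonal units -/
def blk_FI1 (g : GL n Ω) (g' : GL n' Ω) : GL (n ⊕ n') Ω where
  val := Matrix.fromBlocks g.val 0 0 g'.val
  inv := Matrix.fromBlocks (g⁻¹).val 0 0 (g'⁻¹).val
  val_inv := by simp [Matrix.fromBlocks_multiply]
  inv_val := by simp [Matrix.fromBlocks_multiply]

/-- the graph as a matrix group -/
def gr_FI1 (ψ : G ≃* G') : Subgroup (GL (n ⊕ n') Ω) where
  carrier := {u | ∃ g : G, u = blk_FI1 g.val (ψ g).val}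
  mul_mem' := by
    rintro _ _ ⟨a, rfl⟩ ⟨b, rfl⟩
    exact ⟨a * b, Units.ext (by simp [blk_FI1, Matrix.fromBlocks_multiply])⟩
  one_mem' := ⟨1, Units.ext (by simp [blk_FI1])⟩
  inv_mem' := by
    rintro _ ⟨a, rfl⟩
    exact ⟨a⁻¹, Units.ext (by rw [map_inv]; rfl)⟩

lemma cd_blk_FI1 (k : GL n Ω) (k' : GL n' Ω) (d : n → Ω) (d' : n' → Ω) :
    cd (blk_FI1 k k') (Sum.elim d d') = Matrix.fromBlocks (cd k d) 0 0 (cd k' d') := by
  change Matrix.fromBlocks k.val 0 0 k'.val * _ * Matrix.fromBlocks (k⁻¹).val 0 0 (k'⁻¹).val = _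
  rw [← Matrix.fromBlocks_diagonal, Matrix.fromBlocks_multiply, Matrix.fromBlocks_multiply]
  simp [cd]

theorem graph_lie (ψ : G ≃* G') (hψ : Reg Ω ψ) (hψ' : Reg Ω ψ.symm) : ∃ Rl, RL G G' ψ Rl := by
  choose f hf using hψ
  choose f' hf' using hψ'
  have hf1 : ∀ (g : G) i j, ev2_FI1 g.val.val (g.val⁻¹).val (f i j) = (ψ g).val.val i j :=
    fun g i j => (hf i j g).symm
  have hf2 : ∀ (g : G') i j, ev2_FI1 g.val.val (g.val⁻¹).val (f' i j) = (ψ.symm g).val.val i j :=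
    fun g i j => (hf' i j g).symm
  refine ⟨fun X X' => Matrix.fromBlocks X 0 0 X' ∈ lie (GS (gr_FI1 ψ)) Ω, ?_, ?_, ?_, ?_, ?_, ?_, ?_⟩
  · intro X hX
    have key : ∀ g : G, (Matrix.fromBlocks (Matrix.of fun i j => MvPolynomial.X (Sum.inl (i, j)))
        0 0 (Matrix.of f)).map (ev2_FI1 (Ω := Ω) g.val.val (g.val⁻¹).val) =
        (blk_FI1 g.val (ψ g).val).val := by
      intro g
      ext (i | i) (j | j) <;> simp [blk_FI1, ev2_inl_FI1, hf1, -Matrix.coe_units_inv]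
    have := dif_mem_FI1 (H := gr_FI1 ψ) _ (fun g hg => ⟨_, ⟨⟨g, hg⟩, rfl⟩, (key ⟨g, hg⟩).symm⟩)
      (by simpa [blk_FI1] using key 1) hX
    refine ⟨dif_FI1 (Matrix.of f) X, ?_⟩
    refine (congrArg (· ∈ lie (GS (gr_FI1 ψ)) Ω) ?_).mp this
    ext (i | i) (j | j) <;> simp [dif_FI1, ev2_inl_FI1, cur_snd_FI1]
  · intro X hX
    have key : ∀ g : G', (Matrix.fromBlocks (Matrix.of f') 0 0
        (Matrix.of fun i j => MvPolynomial.X (Sum.inl (i, j)))).map
        (ev2_FI1 (Ω := Ω) g.val.val (g.val⁻¹).val) = (blk_FI1 (ψ.symm g).val g.val).val := by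
      intro g
      ext (i | i) (j | j) <;> simp [blk_FI1, ev2_inl_FI1, hf2, -Matrix.coe_units_inv]
    have := dif_mem_FI1 (H := gr_FI1 ψ) _
      (fun g hg => ⟨_, ⟨ψ.symm ⟨g, hg⟩, by rw [MulEquiv.apply_symm_apply]⟩, (key ⟨g, hg⟩).symm⟩)
      (by simpa [blk_FI1] using key 1) hX
    refine ⟨dif_FI1 (Matrix.of f') X, ?_⟩
    refine (congrArg (· ∈ lie (GS (gr_FI1 ψ)) Ω) ?_).mp this
    ext (i | i) (j | j) <;> simp [dif_FI1, ev2_inl_FI1, cur_snd_FI1]
  · intro X X' h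
    refine ⟨sub_mem_FI1 Sum.inl_injective ?_ h, sub_mem_FI1 Sum.inr_injective ?_ h,
      fun h0 => ?_, fun h0 => ?_⟩
    · rintro _ ⟨g, rfl⟩
      exact ⟨g.val, g.2, rfl⟩
    · rintro _ ⟨g, rfl⟩
      exact ⟨(ψ g).val, (ψ g).2, rfl⟩
    · ext i j
      refine sub_zero_FI1 (a := Sum.inr i) (b := Sum.inr j) Sum.inl_injective (f i j) ?_ h h0
      rintro _ ⟨g, rfl⟩
      exact (hf1 g i j).symm
    · ext i j
      refine sub_zero_FI1 (a := Sum.inl i) (b := Sum.inl j) Sum.inr_injective (f' i j) ?_ h h0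
      rintro _ ⟨g, rfl⟩
      have := (hf2 (ψ g) i j).symm
      rw [MulEquiv.symm_apply_apply] at this
      exact this
  · intro X X' Y Y' h h'
    have := Submodule.add_mem _ h h'
    rwa [Matrix.fromBlocks_add, add_zero, add_zero] at this
  · intro c X X' h
    have := Submodule.smul_mem _ c h
    rwa [Matrix.fromBlocks_smul, smul_zero, smul_zero] at this
  · intro X X' Y Y' h h'
    have := lie.bracket (GS_one _) (GS_mul _) h h'
    refine (congrArg (· ∈ lie (GS (gr_FI1 ψ)) Ω) ?_).mp this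
    rw [Matrix.fromBlocks_multiply, Matrix.fromBlocks_multiply]
    ext (i | i) (j | j) <;> simp
  · intro k k' h h' H
    have := cochar_lie (G := gr_FI1 ψ) (k := blk_FI1 k k') (h := Sum.elim h h') (fun t ht => by
      obtain ⟨g, h1, h2⟩ := H t ht
      refine Cl.self ⟨_, ⟨g, rfl⟩, ?_⟩
      change Matrix.fromBlocks g.val.val 0 0 (ψ g).val.val = _
      rw [h1, h2, ← cd_blk_FI1]
      congr 1
      funext i
      rcases i with i | i <;> rfl)
    rw [← cd_blk_FI1]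
    refine (congrArg (· ∈ lie (GS (gr_FI1 ψ)) Ω) ?_).mp this
    congr 1
    funext i
    rcases i with i | i <;> rfl

end Pool.Agent.P.MP_7d29e8_ag
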