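import Pool.Agent.P.MP_7d29e8_ag.FK0

set_option autoImplicit false
set_option linter.unusedSectionVars false
set_option linter.unusedVariables false

/-! Forbidden configurations: cycles and pairs of gadgets. -/

namespace Pool.Agent.P.MP_7d29e8_ag

open Finset
open scoped Classical

variable {ι : Type} {S : Finset ι} {c : ι → ι → ℤ} {k : ℕ} {v : ℕ → ι}

lemma CM.idx (h : CM S c) (hv : Nds S k v) (w : ℕ → ℕ)
    (hw : ∀ a < k, 0 < w a → ∑ b ∈ range k, c (v a) (v b) * w b ≤ 0) : ∀ a < k, w a = 0 := by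
  let x : ι → ℕ := fun i => ∑ a ∈ range k, if v a = i then w a else 0
  have hx : ∀ a < k, x (v a) = w a := fun a ha => by
    simp only [x]
    rw [sum_eq_single a]
    · simp
    · intro b hb hba
      rw [if_neg fun e => hba (hv.inj b (mem_range.mp hb) a ha e)]
    · intro h0; exact absurd (mem_range.mpr ha) h0
  have key := h.fb x fun i hi hpos => by
    obtain ⟨a, ha, hne⟩ := exists_ne_zero_of_sum_ne_zero hpos.ne'
    have e : v a = i := by by_contra e; exact hne (if_neg e)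
    subst e
    have ha' := mem_range.mp ha
    rw [hx a ha'] at hpos
    refine le_of_eq_of_le ?_ (hw a ha' hpos)
    simp only [x, Nat.cast_sum, mul_sum]
    rw [sum_comm]
    refine sum_congr rfl fun b hb => ?_
    rw [sum_eq_single (v b)]
    · simp
    · intro j _ hj; simp [hj.symm]
    · intro h0; exact absurd (hv.mem b (mem_range.mp hb)) h0
  intro a ha
  rw [← hx a ha]
  exact key _ (hv.mem a ha)

lemma CM.le_neg (h : CM S c) {i j : ι} (hi : i ∈ S) (hj : j ∈ S) (hij : i ≠ j) (h0 : c i j ≠ 0) :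
    c i j ≤ -1 ∧ c j i ≤ -1 := by
  have h1 := h.off i hi j hj hij
  have h2 := h.off j hj i hi hij.symm
  have h3 : c j i ≠ 0 := fun e => h0 (h.sym j hj i hi e)
  omega

lemma CM.key_FK1 (h : CM S c) (x : ι → ℕ)
    (hx : ∀ i ∈ S, 0 < x i → ∃ T ⊆ S, i ∉ T ∧ ∑ j ∈ T, c i j * x j ≤ -2 * x i) :
    ∀ i ∈ S, x i = 0 := by
  refine h.fb x fun i hi hpos => ?_
  obtain ⟨T, hT, hiT, hs⟩ := hx i hi hpos
  have h1 : ∑ j ∈ S, c i j * x j ≤ ∑ j ∈ insert i T, c i j * x j := by
    rw [← sum_sdiff (insert_subset hi hT)]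
    have : ∑ j ∈ S \ insert i T, c i j * x j ≤ 0 := sum_nonpos fun j hj => by
      obtain ⟨hj1, hj2⟩ := mem_sdiff.mp hj
      refine mul_nonpos_of_nonpos_of_nonneg (h.off i hi j hj1 ?_) (Nat.cast_nonneg _)
      rintro rfl; exact hj2 (mem_insert_self _ _)
    linarith
  rw [sum_insert hiT, h.diag i hi] at h1
  linarith

lemma CM.cyc_FK1 (h : CM S c) (A : Set ι)
    (hA : ∀ i ∈ S, i ∈ A → ∃ j ∈ S, ∃ j' ∈ S, j ∈ A ∧ j' ∈ A ∧ j ≠ j' ∧ i ≠ j ∧ i ≠ j' ∧
      c i j ≠ 0 ∧ c i j' ≠ 0) : ∀ i ∈ S, i ∉ A := by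
  have key := h.key_FK1 (fun i => if i ∈ A then 1 else 0) fun i hi hpos => by
    have hiA : i ∈ A := by by_contra e; simp [e] at hpos
    obtain ⟨j, hj, j', hj', a1, a2, a3, a4, a5, a6, a7⟩ := hA i hi hiA
    refine ⟨{j, j'}, insert_subset hj (singleton_subset_iff.mpr hj'), by simp [a4, a5], ?_⟩
    rw [sum_pair a3]
    have h1 := (h.le_neg hi hj a4 a6).1
    have h2 := (h.le_neg hi hj' a5 a7).1
    simp only [a1, a2, hiA, if_true, Nat.cast_one]
    omega
  intro i hi hiA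
  simpa [hiA] using key i hi

lemma CM.prod_le (h : CM S c) {i j : ι} (hi : i ∈ S) (hj : j ∈ S) (hij : i ≠ j) :
    c i j * c j i ≤ 3 := by
  by_contra hc
  have h1 := h.off i hi j hj hij
  obtain ⟨m, hm⟩ : ∃ m : ℕ, c i j = -m := ⟨(-c i j).toNat, by omega⟩
  have key := h.key_FK1 (fun l => if l = i then m else if l = j then 2 else 0) fun l hl hpos => by
    by_cases e : l = i
    · subst e
      refine ⟨{j}, singleton_subset_iff.mpr hj, by simpa using hij, ?_⟩
      simp only [sum_singleton, if_neg hij.symm, if_true, hm]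
      push_cast; omega
    · by_cases e' : l = j
      · subst e'
        refine ⟨{i}, singleton_subset_iff.mpr hi, by simpa using e, ?_⟩
        simp only [sum_singleton, if_neg e, if_true]
        rw [hm] at hc
        push_cast; nlinarith
      · simp [e, e'] at hpos
  simpa [hij.symm] using key j hj

lemma CM.ne_FK1 (h : CM S c) {i j : ι} (hi : i ∈ S) (hj : j ∈ S) (h0 : c i j ≠ 0) : c j i ≠ 0 :=
  fun e => h0 (h.sym j hj i hi e)

lemma Pth.prev_FK1 (h : CM S c) (hv : Pth S c k v) {t : ℕ} (h0 : 0 < t) (ht : t < k) :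
    c (v t) (v (t - 1)) ≠ 0 := by
  obtain ⟨s, rfl⟩ : ∃ s, t = s + 1 := ⟨t - 1, by omega⟩
  exact h.ne_FK1 (hv.mem s (by omega)) (hv.mem _ ht) (hv.adj s ht)

lemma Nds.ne_FK1 (hv : Nds S k v) {a b : ℕ} (ha : a < k) (hb : b < k) (hab : a ≠ b) :
    v a ≠ v b := fun e => hab (hv.inj a ha b hb e)

/-- a path has no chords -/
theorem CM.chord (h : CM S c) (hv : Pth S c k v) {a b : ℕ} (hab : a + 2 ≤ b) (hb : b < k) :
    c (v a) (v b) = 0 ∧ c (v b) (v a) = 0 := by
  have ha : a < k := by omega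
  suffices h0 : c (v a) (v b) = 0 from ⟨h0, h.sym _ (hv.mem a ha) _ (hv.mem b hb) h0⟩
  by_contra h0
  have h0' := h.ne_FK1 (hv.mem a ha) (hv.mem b hb) h0
  refine h.cyc_FK1 {i | ∃ t, a ≤ t ∧ t ≤ b ∧ v t = i} ?_ (v a) (hv.mem a ha)
    ⟨a, le_rfl, by omega, rfl⟩
  rintro _ - ⟨t, h1, h2, rfl⟩
  have mk : ∀ s s', a ≤ s → s ≤ b → a ≤ s' → s' ≤ b → s ≠ s' → t ≠ s → t ≠ s' →
      c (v t) (v s) ≠ 0 → c (v t) (v s') ≠ 0 → ∃ j ∈ S, ∃ j' ∈ S,
        j ∈ {i | ∃ t, a ≤ t ∧ t ≤ b ∧ v t = i} ∧ j' ∈ {i | ∃ t, a ≤ t ∧ t ≤ b ∧ v t = i} ∧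
        j ≠ j' ∧ v t ≠ j ∧ v t ≠ j' ∧ c (v t) j ≠ 0 ∧ c (v t) j' ≠ 0 :=
    fun s s' a1 a2 a3 a4 a5 a6 a7 a8 a9 =>
      ⟨v s, hv.mem s (by omega), v s', hv.mem s' (by omega), ⟨s, a1, a2, rfl⟩, ⟨s', a3, a4, rfl⟩,
        hv.toNds.ne_FK1 (by omega) (by omega) a5, hv.toNds.ne_FK1 (by omega) (by omega) a6,
        hv.toNds.ne_FK1 (by omega) (by omega) a7, a8, a9⟩
  by_cases e : t = a
  · subst e
    exact mk (t + 1) b (by omega) (by omega) (by omega) (by omega) (by omega) (by omega)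
      (by omega) (hv.adj t (by omega)) h0
  · by_cases e' : t = b
    · subst e'
      exact mk (t - 1) a (by omega) (by omega) (by omega) (by omega) (by omega) (by omega)
        (by omega) (Pth.prev_FK1 h hv (by omega) hb) h0'
    · exact mk (t - 1) (t + 1) (by omega) (by omega) (by omega) (by omega) (by omega) (by omega)
        (by omega) (Pth.prev_FK1 h hv (by omega) (by omega)) (hv.adj t (by omega))

lemma CM.nbr_FK1 (h : CM S c) (hv : Pth S c k v) {u : ι} (hu : u ∈ S) (hn : ∀ a < k, v a ≠ u)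
    {a b : ℕ} (hab : a < b) (hb : b < k) (h1 : c u (v a) ≠ 0) (h2 : c u (v b) ≠ 0) : False := by
  have ha : a < k := by omega
  refine h.cyc_FK1 {i | i = u ∨ ∃ t, a ≤ t ∧ t ≤ b ∧ v t = i} ?_ u hu (Or.inl rfl)
  rintro i - (rfl | ⟨t, t1, t2, rfl⟩)
  · exact ⟨v a, hv.mem a ha, v b, hv.mem b hb, Or.inr ⟨a, le_rfl, hab.le, rfl⟩,
      Or.inr ⟨b, hab.le, le_rfl, rfl⟩, hv.toNds.ne_FK1 ha hb hab.ne, (hn a ha).symm,
      (hn b hb).symm, h1, h2⟩
  · have ht : t < k := by omega
    by_cases e : t = a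
    · subst e
      exact ⟨u, hu, v (t + 1), hv.mem _ (by omega), Or.inl rfl,
        Or.inr ⟨t + 1, by omega, by omega, rfl⟩, (hn _ (by omega)).symm, hn t ht,
        hv.toNds.ne_FK1 ht (by omega) (by omega), h.ne_FK1 hu (hv.mem t ht) h1,
        hv.adj t (by omega)⟩
    · by_cases e' : t = b
      · subst e'
        exact ⟨u, hu, v (t - 1), hv.mem _ (by omega), Or.inl rfl,
          Or.inr ⟨t - 1, by omega, by omega, rfl⟩, (hn _ (by omega)).symm, hn t ht,
          hv.toNds.ne_FK1 ht (by omega) (by omega), h.ne_FK1 hu (hv.mem t ht) h2,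
          Pth.prev_FK1 h hv (by omega) ht⟩
      · exact ⟨v (t - 1), hv.mem _ (by omega), v (t + 1), hv.mem _ (by omega),
          Or.inr ⟨t - 1, by omega, by omega, rfl⟩, Or.inr ⟨t + 1, by omega, by omega, rfl⟩,
          hv.toNds.ne_FK1 (by omega) (by omega) (by omega),
          hv.toNds.ne_FK1 ht (by omega) (by omega), hv.toNds.ne_FK1 ht (by omega) (by omega),
          Pth.prev_FK1 h hv (by omega) ht, hv.adj t (by omega)⟩

/-- a node outside a path has at most one neighbour on it -/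
theorem CM.one_nbr (h : CM S c) (hv : Pth S c k v) {u : ι} (hu : u ∈ S) (hn : ∀ a < k, v a ≠ u)
    {a b : ℕ} (ha : a < k) (hb : b < k) (h1 : c u (v a) ≠ 0) (h2 : c u (v b) ≠ 0) : a = b := by
  rcases lt_trichotomy a b with e | e | e
  · exact (h.nbr_FK1 hv hu hn e hb h1 h2).elim
  · exact e
  · exact (h.nbr_FK1 hv hu hn e ha h2 h1).elim

lemma Gad.wt_FK1 (h : CM S c) {u : ι} {w : Finset ι} (hg : Gad S c u w) (hu : u ∈ S)
    (hw : u ∉ w) : ∃ y : ι → ℕ, (∀ a ∈ w, c a u * 2 ≤ -2 * y a) ∧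
      ∑ a ∈ w, c u a * y a ≤ -2 := by
  obtain ⟨hS, ⟨a, rfl, ha⟩ | ⟨a, b, hab, rfl, ha, hb⟩⟩ := hg
  · have h0 : c u a ≠ 0 := by intro e; rw [e] at ha; omega
    obtain ⟨h1, h2⟩ := h.le_neg hu (hS (mem_singleton_self a)) (by simpa using hw) h0
    by_cases e : c a u ≤ -2
    · refine ⟨fun _ => 2, fun b hb => ?_, ?_⟩
      · rw [mem_singleton.mp hb]; push_cast; omega
      · rw [sum_singleton]; push_cast; omega
    · have e' : c a u = -1 := by omega
      rw [e'] at ha
      refine ⟨fun _ => 1, fun b hb => ?_, ?_⟩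
      · rw [mem_singleton.mp hb]; push_cast; omega
      · rw [sum_singleton]; push_cast; omega
  · simp only [mem_insert, mem_singleton, not_or] at hw
    obtain ⟨h1, h2⟩ := h.le_neg hu (hS (by simp)) hw.1 ha
    obtain ⟨h3, h4⟩ := h.le_neg hu (hS (by simp)) hw.2 hb
    refine ⟨fun _ => 1, fun d hd => ?_, ?_⟩
    · rcases mem_insert.mp hd with rfl | hd
      · push_cast; omega
      · rw [mem_singleton.mp hd]; push_cast; omega
    · rw [sum_pair hab]; push_cast; omega

/-- no path carries gadgets at both ends -/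
theorem CM.gad (h : CM S c) (hv : Pth S c (k + 1) v) {w w' : Finset ι} (h1 : Gad S c (v 0) w)
    (h2 : Gad S c (v k) w') (hd : Disjoint w w') (hw : ∀ a ≤ k, v a ∉ w ∧ v a ∉ w') : False := by
  have hm : ∀ a ≤ k, v a ∈ S := fun a ha => hv.mem a (by omega)
  obtain ⟨y, hy1, hy2⟩ := h1.wt_FK1 h (hm 0 (by omega)) (hw 0 (by omega)).1
  obtain ⟨y', hy1', hy2'⟩ := h2.wt_FK1 h (hm k le_rfl) (hw k le_rfl).2
  let x : ι → ℕ := fun i =>
    if i ∈ w then y i else if i ∈ w' then y' i else if ∃ a ≤ k, v a = i then 2 else 0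
  have x1 : ∀ i ∈ w, x i = y i := fun i hi => if_pos hi
  have x2 : ∀ i ∈ w', x i = y' i := fun i hi => by
    simp only [x]; rw [if_neg (disjoint_right.mp hd hi), if_pos hi]
  have x3 : ∀ a ≤ k, x (v a) = 2 := fun a ha => by
    simp only [x]; rw [if_neg (hw a ha).1, if_neg (hw a ha).2, if_pos ⟨a, ha, rfl⟩]
  have key := h.key_FK1 x fun i hi hpos => by
    by_cases e1 : i ∈ w
    · refine ⟨{v 0}, singleton_subset_iff.mpr (hm 0 (by omega)), ?_, ?_⟩
      · rw [mem_singleton]; rintro rfl; exact (hw 0 (by omega)).1 e1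
      · rw [sum_singleton, x3 0 (by omega), x1 i e1]; exact_mod_cast hy1 i e1
    by_cases e2 : i ∈ w'
    · refine ⟨{v k}, singleton_subset_iff.mpr (hm k le_rfl), ?_, ?_⟩
      · rw [mem_singleton]; rintro rfl; exact (hw k le_rfl).2 e2
      · rw [sum_singleton, x3 k le_rfl, x2 i e2]; exact_mod_cast hy1' i e2
    obtain ⟨t, ht, rfl⟩ : ∃ a ≤ k, v a = i := by
      by_contra e3
      simp only [x] at hpos
      rw [if_neg e1, if_neg e2, if_neg e3] at hpos
      exact lt_irrefl _ hpos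
    have L : ∃ T ⊆ S, ∑ j ∈ T, c (v t) j * x j ≤ -2 ∧
        ∀ j ∈ T, j ∈ w ∨ ∃ s < t, v s = j := by
      by_cases e : t = 0
      · subst e
        refine ⟨w, h1.1, ?_, fun j hj => Or.inl hj⟩
        rwa [sum_congr rfl fun j hj => by rw [x1 j hj]]
      · refine ⟨{v (t - 1)}, singleton_subset_iff.mpr (hm _ (by omega)), ?_,
          fun j hj => Or.inr ⟨t - 1, by omega, (mem_singleton.mp hj).symm⟩⟩
        have := (h.le_neg hi (hm (t - 1) (by omega))
          (hv.toNds.ne_FK1 (by omega) (by omega) (by omega))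
          (Pth.prev_FK1 h hv (by omega) (by omega))).1
        rw [sum_singleton, x3 _ (by omega)]; push_cast; omega
    have R : ∃ T ⊆ S, ∑ j ∈ T, c (v t) j * x j ≤ -2 ∧
        ∀ j ∈ T, j ∈ w' ∨ ∃ s, t < s ∧ s ≤ k ∧ v s = j := by
      by_cases e : t = k
      · subst e
        refine ⟨w', h2.1, ?_, fun j hj => Or.inl hj⟩
        rwa [sum_congr rfl fun j hj => by rw [x2 j hj]]
      · refine ⟨{v (t + 1)}, singleton_subset_iff.mpr (hm _ (by omega)), ?_,
          fun j hj => Or.inr ⟨t + 1, by omega, by omega, (mem_singleton.mp hj).symm⟩⟩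
        have := (h.le_neg hi (hm (t + 1) (by omega))
          (hv.toNds.ne_FK1 (by omega) (by omega) (by omega)) (hv.adj t (by omega))).1
        rw [sum_singleton, x3 _ (by omega)]; push_cast; omega
    obtain ⟨T, hT, s1, m1⟩ := L
    obtain ⟨T', hT', s2, m2⟩ := R
    have hdis : Disjoint T T' := disjoint_left.mpr fun j hj hj' => by
      rcases m1 j hj with a1 | ⟨s, a1, rfl⟩
      · rcases m2 j hj' with a2 | ⟨s', a2, a3, rfl⟩
        · exact disjoint_left.mp hd a1 a2
        · exact (hw s' a3).1 a1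
      · rcases m2 _ hj' with a2 | ⟨s', a2, a3, a4⟩
        · exact (hw s (by omega)).2 a2
        · have := hv.inj s' (by omega) s (by omega) a4
          omega
    refine ⟨T ∪ T', union_subset hT hT', fun hj => ?_, ?_⟩
    · rcases mem_union.mp hj with hj | hj
      · rcases m1 _ hj with a1 | ⟨s, a1, a2⟩
        · exact e1 a1
        · have := hv.inj s (by omega) t (by omega) a2
          omega
      · rcases m2 _ hj with a1 | ⟨s, a1, a2, a3⟩
        · exact e2 a1
        · have := hv.inj s (by omega) t (by omega) a3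
          omega
    · rw [sum_union hdis, x3 t ht]; push_cast; omega
  have := key (v 0) (hm 0 (by omega))
  rw [x3 0 (by omega)] at this
  omega

lemma Pth.rev (h : CM S c) (hv : Pth S c k v) : Pth S c k fun a => v (k - 1 - a) where
  mem a ha := hv.mem _ (by omega)
  inj a ha b hb e := by
    have := hv.inj _ (by omega) _ (by omega) e
    omega
  adj a ha := by
    have := Pth.prev_FK1 h hv (t := k - 1 - a) (by omega) (by omega)
    rwa [show k - 1 - a - 1 = k - 1 - (a + 1) by omega] at this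

lemma Pth.sub (hv : Pth S c k v) (a l : ℕ) (hl : a + l ≤ k) : Pth S c l fun b => v (a + b) where
  mem b hb := hv.mem _ (by omega)
  inj b hb b' hb' e := by
    have := hv.inj _ (by omega) _ (by omega) e
    omega
  adj b hb := hv.adj (a + b) (by omega)

end Pool.Agent.P.MP_7d29e8_ag
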