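import Pool.Agent.P.MP_7d29e8_ag.FK1

set_option autoImplicit false
set_option linter.unusedSectionVars false
set_option linter.unusedVariables false

/-! Forbidden configurations of bounded size. -/

namespace Pool.Agent.P.MP_7d29e8_ag

open Finset
open scoped Classical

variable {ι : Type} {S : Finset ι} {c : ι → ι → ℤ} {v : ℕ → ι}

/-- upper bounds for the entries, read off from a list -/
def bnd_FK2 (E : List (ℕ × ℕ × ℤ)) (a b : ℕ) : ℤ :=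
  if a = b then 2 else
    ((E.find? fun p => decide (p.1 = a) && decide (p.2.1 = b)).map fun p => p.2.2).getD 0

lemma key_FK2 (h : CM S c) {k : ℕ} (hv : Nds S k v) (E : List (ℕ × ℕ × ℤ)) (w : List ℕ)
    (hE : ∀ p ∈ E, c (v p.1) (v p.2.1) ≤ p.2.2)
    (hs : ∀ a < k, ∑ b ∈ range k, bnd_FK2 E a b * (w.getD b 0 : ℕ) ≤ 0)
    (hk : 0 < k) (h0 : w.getD 0 0 ≠ 0) : False := by
  refine h0 (h.idx hv (fun b => w.getD b 0) (fun a ha _ => le_trans ?_ (hs a ha)) 0 hk)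
  refine Finset.sum_le_sum fun b hb => mul_le_mul_of_nonneg_right ?_ (Int.natCast_nonneg _)
  have hb' := mem_range.1 hb
  unfold bnd_FK2
  by_cases hab : a = b
  · subst hab
    rw [if_pos rfl, h.diag _ (hv.mem a ha)]
  · rw [if_neg hab]
    cases hf : E.find? fun p => decide (p.1 = a) && decide (p.2.1 = b) with
    | none =>
      exact h.off _ (hv.mem a ha) _ (hv.mem b hb') fun e => hab (hv.inj a ha b hb' e)
    | some p =>
      have h1 := List.find?_some hf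
      have h2 := hE p (List.mem_of_find?_eq_some hf)
      simp only [Bool.and_eq_true, decide_eq_true_eq] at h1
      rw [h1.1, h1.2] at h2
      exact h2

lemma adj_FK2 (h : CM S c) {k : ℕ} (hv : Pth S c k v) (a : ℕ) (ha : a + 1 < k) :
    c (v a) (v (a + 1)) ≤ -1 ∧ c (v (a + 1)) (v a) ≤ -1 :=
  h.le_neg (hv.mem a (by omega)) (hv.mem _ ha)
    (fun e => by have := hv.inj a (by omega) _ ha e; omega) (hv.adj a ha)

lemma snoc_FK2 {k : ℕ} (hv : Nds S k v) {u : ι} (hu : u ∈ S) (hn : ∀ a < k, v a ≠ u) :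
    Nds S (k + 1) fun a => if a < k then v a else u := by
  constructor
  · intro a ha
    split_ifs with h1
    · exact hv.mem a h1
    · exact hu
  · intro a ha b hb e
    by_cases h1 : a < k <;> by_cases h2 : b < k <;> simp only [h1, h2, if_true, if_false] at e
    · exact hv.inj a h1 b h2 e
    · exact absurd e (hn a h1)
    · exact absurd e.symm (hn b h2)
    · omega

theorem CM.no_G (h : CM S c) (hv : Pth S c 3 v) : c (v 0) (v 1) * c (v 1) (v 0) ≠ 3 := by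
  intro h3
  obtain ⟨a0, b0⟩ := adj_FK2 h hv 0 (by omega)
  obtain ⟨a1, b1⟩ := adj_FK2 h hv 1 (by omega)
  simp only [Nat.reduceAdd] at a0 b0 a1 b1
  by_cases h1 : c (v 1) (v 0) ≤ -3
  · exact key_FK2 h hv.toNds [(0, 1, -1), (1, 0, -3), (1, 2, -1), (2, 1, -1)] [1, 2, 1]
      (by simp [*]) (by decide) (by omega) (by decide)
  · have h2 : c (v 0) (v 1) ≤ -3 := by
      have h4 : c (v 1) (v 0) = -1 ∨ c (v 1) (v 0) = -2 := by omega
      rcases h4 with h4 | h4 <;> rw [h4] at h3 <;> omega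
    exact key_FK2 h hv.toNds [(0, 1, -3), (1, 0, -1), (1, 2, -1), (2, 1, -1)] [3, 2, 1]
      (by simp [*]) (by decide) (by omega) (by decide)

theorem CM.no_F (h : CM S c) (hv : Pth S c 5 v) : c (v 1) (v 2) * c (v 2) (v 1) < 2 := by
  by_contra h3
  obtain ⟨a0, b0⟩ := adj_FK2 h hv 0 (by omega)
  obtain ⟨a1, b1⟩ := adj_FK2 h hv 1 (by omega)
  obtain ⟨a2, b2⟩ := adj_FK2 h hv 2 (by omega)
  obtain ⟨a3, b3⟩ := adj_FK2 h hv 3 (by omega)
  simp only [Nat.reduceAdd] at a0 b0 a1 b1 a2 b2 a3 b3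
  by_cases h1 : c (v 1) (v 2) ≤ -2
  · exact key_FK2 h hv.toNds [(0, 1, -1), (1, 0, -1), (1, 2, -2), (2, 1, -1), (2, 3, -1),
      (3, 2, -1), (3, 4, -1), (4, 3, -1)] [2, 4, 3, 2, 1]
      (by simp [a0, b0, h1, b1, a2, b2, a3, b3]) (by decide) (by omega) (by decide)
  · have h2 : c (v 2) (v 1) ≤ -2 := by
      have h4 : c (v 1) (v 2) = -1 := by omega
      rw [h4] at h3
      omega
    exact key_FK2 h hv.toNds [(0, 1, -1), (1, 0, -1), (1, 2, -1), (2, 1, -2), (2, 3, -1),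
      (3, 2, -1), (3, 4, -1), (4, 3, -1)] [1, 2, 3, 2, 1]
      (by simp [a0, b0, a1, h2, a2, b2, a3, b3]) (by decide) (by omega) (by decide)

theorem CM.no_E6 (h : CM S c) (hv : Pth S c 5 v) {u u' : ι} (hu : u ∈ S) (hu' : u' ∈ S)
    (hn : ∀ a < 5, v a ≠ u ∧ v a ≠ u') (h0 : u ≠ u') (h1 : c u (v 2) ≠ 0) : c u u' = 0 := by
  by_contra h3
  obtain ⟨a0, b0⟩ := adj_FK2 h hv 0 (by omega)
  obtain ⟨a1, b1⟩ := adj_FK2 h hv 1 (by omega)
  obtain ⟨a2, b2⟩ := adj_FK2 h hv 2 (by omega)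
  obtain ⟨a3, b3⟩ := adj_FK2 h hv 3 (by omega)
  simp only [Nat.reduceAdd] at a0 b0 a1 b1 a2 b2 a3 b3
  obtain ⟨a4, b4⟩ := h.le_neg hu (hv.mem 2 (by omega)) (hn 2 (by omega)).1.symm h1
  obtain ⟨a5, b5⟩ := h.le_neg hu hu' h0 h3
  have n1 := snoc_FK2 hv.toNds hu fun a ha => (hn a ha).1
  have n2 := snoc_FK2 n1 hu' fun a ha => by
    split_ifs with h4
    · exact (hn a h4).2
    · exact h0
  exact key_FK2 h n2 [(0, 1, -1), (1, 0, -1), (1, 2, -1), (2, 1, -1), (2, 3, -1),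
      (3, 2, -1), (3, 4, -1), (4, 3, -1), (5, 2, -1), (2, 5, -1), (5, 6, -1), (6, 5, -1)]
      [1, 2, 3, 2, 1, 2, 1]
      (by simp [a0, b0, a1, b1, a2, b2, a3, b3, a4, b4, a5, b5]) (by decide) (by omega) (by decide)

theorem CM.no_E7 (h : CM S c) (hv : Pth S c 7 v) {u : ι} (hu : u ∈ S) (hn : ∀ a < 7, v a ≠ u) :
    c u (v 3) = 0 := by
  by_contra h3
  obtain ⟨a0, b0⟩ := adj_FK2 h hv 0 (by omega)
  obtain ⟨a1, b1⟩ := adj_FK2 h hv 1 (by omega)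
  obtain ⟨a2, b2⟩ := adj_FK2 h hv 2 (by omega)
  obtain ⟨a3, b3⟩ := adj_FK2 h hv 3 (by omega)
  obtain ⟨a4, b4⟩ := adj_FK2 h hv 4 (by omega)
  obtain ⟨a5, b5⟩ := adj_FK2 h hv 5 (by omega)
  simp only [Nat.reduceAdd] at a0 b0 a1 b1 a2 b2 a3 b3 a4 b4 a5 b5
  obtain ⟨a6, b6⟩ := h.le_neg hu (hv.mem 3 (by omega)) (hn 3 (by omega)).symm h3
  exact key_FK2 h (snoc_FK2 hv.toNds hu hn) [(0, 1, -1), (1, 0, -1), (1, 2, -1), (2, 1, -1),
      (2, 3, -1), (3, 2, -1), (3, 4, -1), (4, 3, -1), (4, 5, -1), (5, 4, -1), (5, 6, -1),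
      (6, 5, -1), (7, 3, -1), (3, 7, -1)] [1, 2, 3, 4, 3, 2, 1, 2]
      (by simp [a0, b0, a1, b1, a2, b2, a3, b3, a4, b4, a5, b5, a6, b6]) (by decide) (by omega)
      (by decide)

theorem CM.no_E8 (h : CM S c) (hv : Pth S c 8 v) {u : ι} (hu : u ∈ S) (hn : ∀ a < 8, v a ≠ u) :
    c u (v 2) = 0 := by
  by_contra h3
  obtain ⟨a0, b0⟩ := adj_FK2 h hv 0 (by omega)
  obtain ⟨a1, b1⟩ := adj_FK2 h hv 1 (by omega)
  obtain ⟨a2, b2⟩ := adj_FK2 h hv 2 (by omega)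
  obtain ⟨a3, b3⟩ := adj_FK2 h hv 3 (by omega)
  obtain ⟨a4, b4⟩ := adj_FK2 h hv 4 (by omega)
  obtain ⟨a5, b5⟩ := adj_FK2 h hv 5 (by omega)
  obtain ⟨a6, b6⟩ := adj_FK2 h hv 6 (by omega)
  simp only [Nat.reduceAdd] at a0 b0 a1 b1 a2 b2 a3 b3 a4 b4 a5 b5 a6 b6
  obtain ⟨a7, b7⟩ := h.le_neg hu (hv.mem 2 (by omega)) (hn 2 (by omega)).symm h3
  exact key_FK2 h (snoc_FK2 hv.toNds hu hn) [(0, 1, -1), (1, 0, -1), (1, 2, -1), (2, 1, -1),
      (2, 3, -1), (3, 2, -1), (3, 4, -1), (4, 3, -1), (4, 5, -1), (5, 4, -1), (5, 6, -1),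
      (6, 5, -1), (6, 7, -1), (7, 6, -1), (8, 2, -1), (2, 8, -1)] [2, 4, 6, 5, 4, 3, 2, 1, 3]
      (by simp [a0, b0, a1, b1, a2, b2, a3, b3, a4, b4, a5, b5, a6, b6, a7, b7]) (by decide)
      (by omega) (by decide)

end Pool.Agent.P.MP_7d29e8_ag
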