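import Pool.Agent.P.MP_7d29e8_ag.FK2

set_option autoImplicit false
set_option linter.unusedSectionVars false
set_option linter.unusedVariables false

/-! The shape of a component. -/

namespace Pool.Agent.P.MP_7d29e8_ag

open Finset
open scoped Classical

variable {ι : Type} {S : Finset ι} {c : ι → ι → ℤ}

lemma flip_FK3 (h : CM S c) {x y : ι} (hx : x ∈ S) (hy : y ∈ S) (h0 : c x y ≠ 0) : c y x ≠ 0 :=
  fun e => h0 (h.sym y hy x hx e)

lemma mem_FK3 {i a : ι} (hi : i ∈ S)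
    (r : Relation.ReflTransGen (fun x y => y ∈ S ∧ c x y ≠ 0) i a) : a ∈ S := by
  induction r with
  | refl => exact hi
  | tail _ hb _ => exact hb.1

lemma close_FK3 (h : CM S c) {i : ι} (hi : i ∈ S) {A : Set ι}
    (hA : ∀ a ∈ A, ∀ j ∈ S, j ∉ A → c a j = 0) {a : ι}
    (r : Relation.ReflTransGen (fun x y => y ∈ S ∧ c x y ≠ 0) i a) (ha : a ∈ A) : i ∈ A := by
  induction r with
  | refl => exact ha
  | @tail b a r hb ih =>
    apply ih
    by_contra hn
    exact flip_FK3 h (mem_FK3 hi r) hb.1 hb.2 (hA a ha b (mem_FK3 hi r) hn)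

/-- put a node in front of a list -/
def cons_FK3 (u : ι) (v : ℕ → ι) : ℕ → ι
  | 0 => u
  | a + 1 => v a

lemma cons_pth_FK3 {k : ℕ} {v : ℕ → ι} (hv : Pth S c k v) {u : ι} (hu : u ∈ S)
    (hn : ∀ a < k, v a ≠ u) (h0 : c u (v 0) ≠ 0) : Pth S c (k + 1) (cons_FK3 u v) := by
  refine ⟨⟨?_, ?_⟩, ?_⟩
  · intro a ha
    cases a with
    | zero => exact hu
    | succ a => exact hv.mem a (by omega)
  · intro a ha b hb e
    cases a with
    | zero =>
      cases b with
      | zero => rfl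
      | succ b => exact absurd e.symm (hn b (by omega))
    | succ a =>
      cases b with
      | zero => exact absurd e (hn a (by omega))
      | succ b => rw [hv.inj a (by omega) b (by omega) e]
  · intro a ha
    cases a with
    | zero => exact h0
    | succ a => exact hv.adj a (by omega)

lemma card_FK3 {k : ℕ} {v : ℕ → ι} (hv : Pth S c k v) : k ≤ S.card := by
  have := Finset.card_le_card_of_injOn (s := range k) (t := S) v
    (fun a ha => by simpa using hv.mem a (by simpa using ha))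
    (fun a ha b hb e => hv.inj a (by simpa using ha) b (by simpa using hb) e)
  simpa using this

/-- a path in the component of `i` -/
def Q_FK3 (S : Finset ι) (c : ι → ι → ℤ) (i : ι) (k : ℕ) (v : ℕ → ι) : Prop :=
  Pth S c k v ∧ ∀ a < k, Relation.ReflTransGen (fun x y => y ∈ S ∧ c x y ≠ 0) i (v a)

lemma Q_cons_FK3 (h : CM S c) {i : ι} {k : ℕ} {v : ℕ → ι} (hv : Q_FK3 S c i k v) (hk : 0 < k)
    {u : ι} (hu : u ∈ S) (hn : ∀ a < k, v a ≠ u) (h0 : c u (v 0) ≠ 0) :
    Q_FK3 S c i (k + 1) (cons_FK3 u v) := by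
  refine ⟨cons_pth_FK3 hv.1 hu hn h0, ?_⟩
  intro a ha
  cases a with
  | zero => exact (hv.2 0 hk).tail ⟨hu, flip_FK3 h hu (hv.1.mem 0 hk) h0⟩
  | succ a => exact hv.2 a (by omega)

lemma Q_up_FK3 {i : ι} {k : ℕ} {v : ℕ → ι} (hv : Q_FK3 S c i k v) (j : ℕ) (hj : j < k) :
    Q_FK3 S c i (k - j) fun b => v (j + b) :=
  ⟨hv.1.sub j (k - j) (by omega), fun a ha => hv.2 _ (by omega)⟩

lemma Q_down_FK3 (h : CM S c) {i : ι} {k : ℕ} {v : ℕ → ι} (hv : Q_FK3 S c i k v) (j : ℕ)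
    (hj : j < k) : Q_FK3 S c i (j + 1) fun b => v (j - b) := by
  refine ⟨?_, fun a ha => hv.2 _ (by omega)⟩
  have := (hv.1.sub 0 (j + 1) (by omega)).rev h
  simpa using this

lemma two_FK3 (h : CM S c) {k : ℕ} {v : ℕ → ι} (hv : Pth S c k v) {u u' : ι} (hu : u ∈ S)
    (hu' : u' ∈ S) (hne : u ≠ u') (hn : ∀ a < k, v a ≠ u) (hn' : ∀ a < k, v a ≠ u') {j j' : ℕ}
    (h0 : 0 < j) (hjj : j ≤ j') (h1 : j' + 1 < k) (a1 : c (v j) u ≠ 0) (a2 : c (v j') u' ≠ 0) :
    False := by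
  have hp := hv.sub j (j' - j + 1) (by omega)
  have e1 : j + (j' - j) = j' := by omega
  refine h.gad (k := j' - j) hp (w := {u, v (j - 1)}) (w' := {u', v (j' + 1)}) ?_ ?_ ?_ ?_
  · refine ⟨?_, Or.inr ⟨u, v (j - 1), (hn _ (by omega)).symm, rfl, a1, ?_⟩⟩
    · intro x hx
      rcases mem_insert.1 hx with rfl | hx
      · exact hu
      · rw [mem_singleton.1 hx]; exact hv.mem _ (by omega)
    · have := hv.adj (j - 1) (by omega)
      have e : j - 1 + 1 = j := by omega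
      rw [e] at this
      exact flip_FK3 h (hv.mem _ (by omega)) (hv.mem _ (by omega)) this
  · refine ⟨?_, Or.inr ⟨u', v (j' + 1), (hn' _ (by omega)).symm, rfl, ?_, ?_⟩⟩
    · intro x hx
      rcases mem_insert.1 hx with rfl | hx
      · exact hu'
      · rw [mem_singleton.1 hx]; exact hv.mem _ (by omega)
    · simp only [e1]; exact a2
    · simp only [e1]; exact hv.adj j' h1
  · rw [Finset.disjoint_left]
    intro x hx hx'
    simp only [mem_insert, mem_singleton] at hx hx'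
    rcases hx with rfl | rfl
    · rcases hx' with e | e
      · exact hne e
      · exact hn _ h1 e.symm
    · rcases hx' with e | e
      · exact hn' _ (by omega) e
      · have := hv.inj _ (by omega) _ h1 e
        omega
  · intro a ha
    simp only [mem_insert, mem_singleton, not_or]
    refine ⟨⟨hn _ (by omega), fun e => ?_⟩, hn' _ (by omega), fun e => ?_⟩
    · have := hv.inj _ (by omega) _ (by omega) e
      omega
    · have := hv.inj _ (by omega) _ (by omega) e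
      omega

theorem CM.shape (h : CM S c) {i : ι} (hi : i ∈ S) : ∃ (A : Set ι) (k : ℕ) (v : ℕ → ι),
    i ∈ A ∧ A ⊆ S ∧ (∀ a ∈ A, ∀ j ∈ S, j ∉ A → c a j = 0) ∧
    (∀ a ∈ A, Relation.ReflTransGen (fun x y => y ∈ S ∧ c x y ≠ 0) i a) ∧ Pth S c k v ∧
    (A = v '' Set.Iio k ∨ ∃ u ∈ S, ∃ j, 0 < j ∧ j + 1 < k ∧ (∀ a < k, v a ≠ u) ∧ c u (v j) ≠ 0 ∧
      A = insert u (v '' Set.Iio k)) := by
  have q1 : Q_FK3 S c i 1 fun _ => i :=
    ⟨⟨⟨fun _ _ => hi, fun a ha b hb _ => by omega⟩, fun a ha => by omega⟩,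
      fun _ _ => Relation.ReflTransGen.refl⟩
  obtain ⟨k, ⟨v, hv⟩, hmax⟩ : ∃ k, (∃ v, Q_FK3 S c i k v) ∧ ∀ l w, Q_FK3 S c i l w → l ≤ k :=
    ⟨Nat.findGreatest (fun k => ∃ v, Q_FK3 S c i k v) S.card,
      Nat.findGreatest_spec (P := fun k => ∃ v, Q_FK3 S c i k v) (card_FK3 q1.1) ⟨_, q1⟩,
      fun l w hw => Nat.le_findGreatest (P := fun k => ∃ v, Q_FK3 S c i k v) (card_FK3 hw.1)
        ⟨w, hw⟩⟩
  have hk : 0 < k := hmax 1 _ q1
  have inner : ∀ u ∈ S, (∀ a < k, v a ≠ u) → ∀ j < k, c u (v j) ≠ 0 → 0 < j ∧ j + 1 < k := by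
    intro u hu hn j hj h0
    have a1 := hmax _ _ (Q_cons_FK3 h (Q_up_FK3 hv j hj) (by omega) hu
      (fun a ha => hn _ (by omega)) h0)
    have a2 := hmax _ _ (Q_cons_FK3 h (Q_down_FK3 h hv j hj) (by omega) hu
      (fun a ha => hn _ (by omega)) h0)
    omega
  by_cases hc : ∃ u ∈ S, (∀ a < k, v a ≠ u) ∧ ∃ j < k, c u (v j) ≠ 0
  · obtain ⟨u, hu, hn, j, hj, h0⟩ := hc
    obtain ⟨j0, j1⟩ := inner u hu hn j hj h0
    have hcl : ∀ a ∈ insert u (v '' Set.Iio k), ∀ u' ∈ S, u' ∉ insert u (v '' Set.Iio k) →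
        c a u' = 0 := by
      intro a ha u' hu' hn'
      have hne : u ≠ u' := fun e => hn' (e ▸ Set.mem_insert _ _)
      have hm : ∀ b < k, v b ≠ u' := fun b hb e => hn' (Set.mem_insert_of_mem _ ⟨b, hb, e⟩)
      by_contra hz
      rcases ha with rfl | ⟨j', hj', rfl⟩
      · have hz' := flip_FK3 h hu hu' hz
        have a1 := hmax _ _ (Q_cons_FK3 h (Q_cons_FK3 h (Q_up_FK3 hv j hj) (by omega) hu
          (fun b hb => hn _ (by omega)) h0) (by omega) hu' (fun b hb => by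
            cases b with
            | zero => exact hne
            | succ b => exact hm _ (by omega)) hz')
        have a2 := hmax _ _ (Q_cons_FK3 h (Q_cons_FK3 h (Q_down_FK3 h hv j hj) (by omega) hu
          (fun b hb => hn _ (by omega)) h0) (by omega) hu' (fun b hb => by
            cases b with
            | zero => exact hne
            | succ b => exact hm _ (by omega)) hz')
        have e : j - 2 + 2 = j := by omega
        exact hz (h.no_E6 (hv.1.sub (j - 2) 5 (by omega)) hu hu'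
          (fun b hb => ⟨hn _ (by omega), hm _ (by omega)⟩) hne (by simpa only [e] using h0))
      · have hj'' : j' < k := hj'
        obtain ⟨i0, i1⟩ := inner u' hu' hm j' hj'' (flip_FK3 h (hv.1.mem _ hj'') hu' hz)
        have h0' := flip_FK3 h hu (hv.1.mem _ hj) h0
        rcases le_total j j' with hl | hl
        · exact two_FK3 h hv.1 hu hu' hne hn hm j0 hl i1 h0' hz
        · exact two_FK3 h hv.1 hu' hu hne.symm hm hn i0 hl j1 hz h0'
    refine ⟨insert u (v '' Set.Iio k), k, v,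
      close_FK3 h hi hcl (hv.2 0 hk) (Set.mem_insert_of_mem _ ⟨0, hk, rfl⟩), ?_, hcl, ?_, hv.1,
      Or.inr ⟨u, hu, j, j0, j1, hn, h0, rfl⟩⟩
    · rintro a (rfl | ⟨b, hb, rfl⟩)
      · exact hu
      · exact hv.1.mem b hb
    · rintro a (rfl | ⟨b, hb, rfl⟩)
      · exact (hv.2 j hj).tail ⟨hu, flip_FK3 h hu (hv.1.mem j hj) h0⟩
      · exact hv.2 b hb
  · have hcl : ∀ a ∈ v '' Set.Iio k, ∀ u ∈ S, u ∉ v '' Set.Iio k → c a u = 0 := by
      rintro a ⟨j, hj, rfl⟩ u hu hn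
      by_contra hz
      exact hc ⟨u, hu, fun b hb e => hn ⟨b, hb, e⟩, j, hj, flip_FK3 h (hv.1.mem j hj) hu hz⟩
    refine ⟨v '' Set.Iio k, k, v, close_FK3 h hi hcl (hv.2 0 hk) ⟨0, hk, rfl⟩, ?_, hcl, ?_, hv.1,
      Or.inl rfl⟩
    · rintro a ⟨b, hb, rfl⟩
      exact hv.1.mem b hb
    · rintro a ⟨b, hb, rfl⟩
      exact hv.2 b hb

end Pool.Agent.P.MP_7d29e8_ag
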