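import Pool.Agent.P.MP_7d29e8_ag.Mat

set_option autoImplicit false

namespace Pool.Agent.P.MP_7d29e8_ag

open scoped Classical
open Finset

/-- a set of coefficient vectors containing the simple roots and stable under reflections -/
structure RtSys {n : ℕ} (C : Matrix (Fin n) (Fin n) ℤ) (Rt : (Fin n → ℚ) → Prop) : Prop where
  base : ∀ k, Rt (Pi.single k 1)
  refl : ∀ m j, Rt m → Rt (m - Pi.single j (∑ l, m l * C l j))

section

variable {n : ℕ} {C : Matrix (Fin n) (Fin n) ℤ} {Rt : (Fin n → ℚ) → Prop}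

lemma RtSys.step (h : RtSys C Rt) {m : Fin n → ℚ} (hm : Rt m) (j : Fin n) (m' : Fin n → ℚ)
    (h1 : ∀ l, l ≠ j → m' l = m l) (h2 : m' j = m j - ∑ l, (C.transpose j l : ℚ) * m l) :
    Rt m' := by
  convert h.refl m j hm using 1
  funext l
  by_cases hl : l = j
  · subst hl
    simp [h2, mul_comm]
  · simp [h1 l hl, hl]

lemma RtSys.baseZ (h : RtSys C Rt) (k : Fin n) (m : Fin n → ℤ)
    (hm : ∀ l, m l = if l = k then 1 else 0) : Rt (fun l => (m l : ℚ)) := by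
  convert h.base k using 1
  funext l
  by_cases hl : l = k <;> simp [hm, hl]

lemma RtSys.stepZ (h : RtSys C Rt) {m : Fin n → ℤ} (hm : Rt (fun l => (m l : ℚ))) (j : Fin n)
    (m' : Fin n → ℤ) (h1 : ∀ l, m' l = if l = j then m j - ∑ l, m l * C l j else m l) :
    Rt (fun l => (m' l : ℚ)) :=
  h.step hm j _ (fun l hl => by simp [h1 l, hl]) (by simp [h1 j, mul_comm])

/-- vector with coordinates numbered from `1` -/
def sh (n : ℕ) (V : ℕ → ℚ) : Fin n → ℚ := fun l => V (l + 1)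

lemma U_fun (V : ℕ → ℚ) (i : ℕ) :
    U (sh n V) i = if 1 ≤ i ∧ i ≤ n then V i else 0 := by
  rcases i with _ | i
  · simp [U_zero]
  · by_cases hi : i < n
    · rw [U_mk _ hi, if_pos (by omega)]; rfl
    · rw [U_gt _ (by omega), if_neg (by omega)]

lemma RtSys.stepN (h : RtSys C Rt) {V : ℕ → ℚ} (hm : Rt (sh n V)) (j : ℕ) (hj : j < n)
    (V' : ℕ → ℚ) (h1 : ∀ l, l < n → l ≠ j → V' (l + 1) = V (l + 1))
    (h2 : V' (j + 1) = V (j + 1) - ∑ l, (C.transpose ⟨j, hj⟩ l : ℚ) * sh n V l) :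
    Rt (sh n V') :=
  h.step hm ⟨j, hj⟩ _ (fun l hl => h1 l l.2 fun e => hl (Fin.ext e)) h2

lemma supp_of {d m : Fin n → ℚ} (hd : ∀ k, 0 ≤ d k) (hz : ∀ k, IsZ (d k))
    (hm : ∀ k, 0 ≤ m k) (hs : ∑ l, m l * d l ≤ 1) {k : Fin n} (hk : 2 ≤ m k) : d k = 0 := by
  have h1 : m k * d k ≤ ∑ l, m l * d l :=
    single_le_sum (f := fun l => m l * d l) (fun l _ => mul_nonneg (hm l) (hd l)) (mem_univ k)
  refine (hz k).eq_zero (by linarith [hd k]) ?_
  nlinarith [hd k]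

end

lemma rootC {n : ℕ} {Rt : (Fin n → ℚ) → Prop} (h : RtSys (CartanMatrix.C n) Rt) (hn : 1 ≤ n) :
    Rt (fun l => if (l : ℕ) + 1 = n then 1 else 2) := by
  have key : ∀ j a, a + j = n → 1 ≤ a →
      Rt (sh n (fun i => if i = n then (1 : ℚ) else if a ≤ i then 2 else 0)) := by
    intro j
    induction j with
    | zero =>
      intro a ha h1
      convert h.base ⟨n - 1, by omega⟩ using 1
      funext l
      have := l.2
      simp only [Pi.single_apply, Fin.ext_iff, sh]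
      split_ifs <;> first | omega | rfl
    | succ j ih =>
      intro a ha h1
      refine h.stepN (ih (a + 1) (by omega) (by omega)) (a - 1) (by omega) _ (fun l hl hl' => ?_) ?_
      · split_ifs <;> first | omega | rfl
      · rw [CartanMatrix.C_transpose, rowB]
        simp only [U_fun]
        split_ifs <;> first | omega | norm_num
  convert key (n - 1) 1 (by omega) le_rfl using 2
  simp [sh]

lemma ones {n : ℕ} {C : Matrix (Fin n) (Fin n) ℤ} {Rt : (Fin n → ℚ) → Prop} (h : RtSys C Rt)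
    (N : ℕ) (hN : N ≤ n) (hrow : ∀ (y : Fin n → ℚ) (k : Fin n), (k : ℕ) < N →
      (∀ i : ℕ, (k : ℕ) + 1 ≤ i → U y i = 0) → ∑ l, (C.transpose k l : ℚ) * y l = - U y k) :
    ∀ a, 1 ≤ a → a ≤ N → Rt (sh n (fun i => if i ≤ a then (1 : ℚ) else 0)) := by
  intro a ha
  induction a, ha using Nat.le_induction with
  | base =>
    intro h1
    convert h.base ⟨0, by omega⟩ using 1
    funext l
    simp only [Pi.single_apply, Fin.ext_iff, sh]
    split_ifs <;> first | omega | rfl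
  | succ a ha ih =>
    intro h1
    refine h.stepN (ih (by omega)) a (by omega) _ (fun l hl hl' => ?_) ?_
    · split_ifs <;> first | omega | rfl
    · rw [hrow _ _ (by simp; omega) (fun i hi => by
        simp only [U_fun] at hi ⊢
        split_ifs <;> first | omega | rfl)]
      simp only [U_fun]
      split_ifs <;> first | omega | norm_num

lemma rootB {n : ℕ} {Rt : (Fin n → ℚ) → Prop} (h : RtSys (CartanMatrix.B n) Rt) (hn : 2 ≤ n) :
    Rt (fun l => if (l : ℕ) = 0 then 1 else 2) := by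
  have h0 := ones h (n - 1) (by omega) (fun y k hk hy => by
    rw [CartanMatrix.B_transpose, rowC, hy _ le_rfl, hy (k + 2) (by omega), if_neg (by omega)]; ring)
    (n - 1) (by omega) le_rfl
  have key : ∀ j a, a + j = n → 2 ≤ a →
      Rt (sh n (fun i => if a ≤ i then (2 : ℚ) else 1)) := by
    intro j
    induction j with
    | zero =>
      intro a ha h1
      refine h.stepN h0 (n - 1) (by omega) _ (fun l hl hl' => ?_) ?_
      · split_ifs <;> first | omega | rfl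
      · rw [CartanMatrix.B_transpose, rowC]
        simp only [U_fun]
        split_ifs <;> first | omega | norm_num
    | succ j ih =>
      intro a ha h1
      refine h.stepN (ih (a + 1) (by omega) (by omega)) (a - 1) (by omega) _ (fun l hl hl' => ?_) ?_
      · split_ifs <;> first | omega | rfl
      · rw [CartanMatrix.B_transpose, rowC]
        simp only [U_fun]
        split_ifs <;> first | omega | norm_num
  convert key (n - 2) 2 (by omega) le_rfl using 2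
  simp only [sh]
  split_ifs <;> first | omega | rfl

lemma rootD {n : ℕ} {Rt : (Fin n → ℚ) → Prop} (h : RtSys (CartanMatrix.D n) Rt) (hn : 4 ≤ n) :
    Rt (fun l => if (l : ℕ) = 0 ∨ n ≤ (l : ℕ) + 2 then 1 else 2) := by
  have h0 := ones h (n - 2) (by omega) (fun y k hk hy => by
    rw [CartanMatrix.D_transpose]
    by_cases h3 : (k : ℕ) + 3 = n
    · rw [rowD2 _ _ h3, hy _ le_rfl, hy (k + 2) (by omega), hy (k + 3) (by omega)]; ring
    · rw [rowD1 _ _ (by omega), hy _ le_rfl, hy (k + 2) (by omega)]; ring)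
    (n - 2) (by omega) le_rfl
  have h1 : Rt (sh n (fun i => if i ≤ n - 1 then (1 : ℚ) else 0)) := by
    refine h.stepN h0 (n - 2) (by omega) _ (fun l hl hl' => ?_) ?_
    · split_ifs <;> first | omega | rfl
    · rw [CartanMatrix.D_transpose, rowD3 _ _ (n - 3) (by omega) (by simp; omega)]
      simp only [U_fun]
      split_ifs <;> first | omega | norm_num
  have key : ∀ j a, a + j + 1 = n → 2 ≤ a →
      Rt (sh n (fun i => if a ≤ i ∧ i + 2 ≤ n then (2 : ℚ) else 1)) := by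
    intro j
    induction j with
    | zero =>
      intro a ha h2
      refine h.stepN h1 (n - 1) (by omega) _ (fun l hl hl' => ?_) ?_
      · split_ifs <;> first | omega | rfl
      · rw [CartanMatrix.D_transpose, rowD3 _ _ (n - 3) (by omega) (by simp; omega)]
        simp only [U_fun]
        split_ifs <;> first | omega | norm_num
    | succ j ih =>
      intro a ha h2
      refine h.stepN (ih (a + 1) (by omega) (by omega)) (a - 1) (by omega) _ (fun l hl hl' => ?_) ?_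
      · split_ifs <;> first | omega | rfl
      · rw [CartanMatrix.D_transpose]
        by_cases h3 : a + 2 = n
        · rw [rowD2 _ _ (by simp; omega)]
          simp only [U_fun]
          split_ifs <;> first | omega | norm_num
        · rw [rowD1 _ _ (by simp; omega)]
          simp only [U_fun]
          split_ifs <;> first | omega | norm_num
  convert key (n - 3) 2 (by omega) le_rfl using 2
  simp only [sh]
  split_ifs <;> first | omega | rfl

lemma rootE6 {Rt : (Fin 6 → ℚ) → Prop} (h : RtSys CartanMatrix.E₆ Rt) :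
    Rt (fun l => ((![1, 2, 2, 3, 2, 1] : Fin 6 → ℤ) l : ℚ)) := by
  have h0 := h.baseZ 0 ![1, 0, 0, 0, 0, 0] (by decide)
  have h1 := h.stepZ h0 2 ![1, 0, 1, 0, 0, 0] (by decide)
  have h2 := h.stepZ h1 3 ![1, 0, 1, 1, 0, 0] (by decide)
  have h3 := h.stepZ h2 1 ![1, 1, 1, 1, 0, 0] (by decide)
  have h4 := h.stepZ h3 4 ![1, 1, 1, 1, 1, 0] (by decide)
  have h5 := h.stepZ h4 3 ![1, 1, 1, 2, 1, 0] (by decide)
  have h6 := h.stepZ h5 2 ![1, 1, 2, 2, 1, 0] (by decide)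
  have h7 := h.stepZ h6 5 ![1, 1, 2, 2, 1, 1] (by decide)
  have h8 := h.stepZ h7 4 ![1, 1, 2, 2, 2, 1] (by decide)
  have h9 := h.stepZ h8 3 ![1, 1, 2, 3, 2, 1] (by decide)
  have h10 := h.stepZ h9 1 ![1, 2, 2, 3, 2, 1] (by decide)
  exact h10

lemma rootE7 {Rt : (Fin 7 → ℚ) → Prop} (h : RtSys CartanMatrix.E₇ Rt) :
    Rt (fun l => ((![2, 2, 3, 4, 3, 2, 1] : Fin 7 → ℤ) l : ℚ)) := by
  have h0 := h.baseZ 0 ![1, 0, 0, 0, 0, 0, 0] (by decide)
  have h1 := h.stepZ h0 2 ![1, 0, 1, 0, 0, 0, 0] (by decide)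
  have h2 := h.stepZ h1 3 ![1, 0, 1, 1, 0, 0, 0] (by decide)
  have h3 := h.stepZ h2 1 ![1, 1, 1, 1, 0, 0, 0] (by decide)
  have h4 := h.stepZ h3 4 ![1, 1, 1, 1, 1, 0, 0] (by decide)
  have h5 := h.stepZ h4 3 ![1, 1, 1, 2, 1, 0, 0] (by decide)
  have h6 := h.stepZ h5 2 ![1, 1, 2, 2, 1, 0, 0] (by decide)
  have h7 := h.stepZ h6 5 ![1, 1, 2, 2, 1, 1, 0] (by decide)
  have h8 := h.stepZ h7 4 ![1, 1, 2, 2, 2, 1, 0] (by decide)
  have h9 := h.stepZ h8 3 ![1, 1, 2, 3, 2, 1, 0] (by decide)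
  have h10 := h.stepZ h9 1 ![1, 2, 2, 3, 2, 1, 0] (by decide)
  have h11 := h.stepZ h10 6 ![1, 2, 2, 3, 2, 1, 1] (by decide)
  have h12 := h.stepZ h11 5 ![1, 2, 2, 3, 2, 2, 1] (by decide)
  have h13 := h.stepZ h12 4 ![1, 2, 2, 3, 3, 2, 1] (by decide)
  have h14 := h.stepZ h13 3 ![1, 2, 2, 4, 3, 2, 1] (by decide)
  have h15 := h.stepZ h14 2 ![1, 2, 3, 4, 3, 2, 1] (by decide)
  have h16 := h.stepZ h15 0 ![2, 2, 3, 4, 3, 2, 1] (by decide)
  exact h16

lemma rootE8 {Rt : (Fin 8 → ℚ) → Prop} (h : RtSys CartanMatrix.E₈ Rt) :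
    Rt (fun l => ((![2, 3, 4, 6, 5, 4, 3, 2] : Fin 8 → ℤ) l : ℚ)) := by
  have h0 := h.baseZ 0 ![1, 0, 0, 0, 0, 0, 0, 0] (by decide)
  have h1 := h.stepZ h0 2 ![1, 0, 1, 0, 0, 0, 0, 0] (by decide)
  have h2 := h.stepZ h1 3 ![1, 0, 1, 1, 0, 0, 0, 0] (by decide)
  have h3 := h.stepZ h2 1 ![1, 1, 1, 1, 0, 0, 0, 0] (by decide)
  have h4 := h.stepZ h3 4 ![1, 1, 1, 1, 1, 0, 0, 0] (by decide)
  have h5 := h.stepZ h4 3 ![1, 1, 1, 2, 1, 0, 0, 0] (by decide)
  have h6 := h.stepZ h5 2 ![1, 1, 2, 2, 1, 0, 0, 0] (by decide)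
  have h7 := h.stepZ h6 5 ![1, 1, 2, 2, 1, 1, 0, 0] (by decide)
  have h8 := h.stepZ h7 4 ![1, 1, 2, 2, 2, 1, 0, 0] (by decide)
  have h9 := h.stepZ h8 3 ![1, 1, 2, 3, 2, 1, 0, 0] (by decide)
  have h10 := h.stepZ h9 1 ![1, 2, 2, 3, 2, 1, 0, 0] (by decide)
  have h11 := h.stepZ h10 6 ![1, 2, 2, 3, 2, 1, 1, 0] (by decide)
  have h12 := h.stepZ h11 5 ![1, 2, 2, 3, 2, 2, 1, 0] (by decide)
  have h13 := h.stepZ h12 4 ![1, 2, 2, 3, 3, 2, 1, 0] (by decide)
  have h14 := h.stepZ h13 3 ![1, 2, 2, 4, 3, 2, 1, 0] (by decide)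
  have h15 := h.stepZ h14 2 ![1, 2, 3, 4, 3, 2, 1, 0] (by decide)
  have h16 := h.stepZ h15 0 ![2, 2, 3, 4, 3, 2, 1, 0] (by decide)
  have h17 := h.stepZ h16 7 ![2, 2, 3, 4, 3, 2, 1, 1] (by decide)
  have h18 := h.stepZ h17 6 ![2, 2, 3, 4, 3, 2, 2, 1] (by decide)
  have h19 := h.stepZ h18 5 ![2, 2, 3, 4, 3, 3, 2, 1] (by decide)
  have h20 := h.stepZ h19 4 ![2, 2, 3, 4, 4, 3, 2, 1] (by decide)
  have h21 := h.stepZ h20 3 ![2, 2, 3, 5, 4, 3, 2, 1] (by decide)
  have h22 := h.stepZ h21 1 ![2, 3, 3, 5, 4, 3, 2, 1] (by decide)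
  have h23 := h.stepZ h22 2 ![2, 3, 4, 5, 4, 3, 2, 1] (by decide)
  have h24 := h.stepZ h23 3 ![2, 3, 4, 6, 4, 3, 2, 1] (by decide)
  have h25 := h.stepZ h24 4 ![2, 3, 4, 6, 5, 3, 2, 1] (by decide)
  have h26 := h.stepZ h25 5 ![2, 3, 4, 6, 5, 4, 2, 1] (by decide)
  have h27 := h.stepZ h26 6 ![2, 3, 4, 6, 5, 4, 3, 1] (by decide)
  have h28 := h.stepZ h27 7 ![2, 3, 4, 6, 5, 4, 3, 2] (by decide)
  exact h28

lemma rootF4 {Rt : (Fin 4 → ℚ) → Prop} (h : RtSys CartanMatrix.F₄ Rt) :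
    Rt (fun l => ((![2, 3, 4, 2] : Fin 4 → ℤ) l : ℚ)) := by
  have h0 := h.baseZ 0 ![1, 0, 0, 0] (by decide)
  have h1 := h.stepZ h0 1 ![1, 1, 0, 0] (by decide)
  have h2 := h.stepZ h1 2 ![1, 1, 2, 0] (by decide)
  have h3 := h.stepZ h2 1 ![1, 2, 2, 0] (by decide)
  have h4 := h.stepZ h3 3 ![1, 2, 2, 2] (by decide)
  have h5 := h.stepZ h4 2 ![1, 2, 4, 2] (by decide)
  have h6 := h.stepZ h5 1 ![1, 3, 4, 2] (by decide)
  have h7 := h.stepZ h6 0 ![2, 3, 4, 2] (by decide)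
  exact h7

lemma rootG2 {Rt : (Fin 2 → ℚ) → Prop} (h : RtSys CartanMatrix.G₂ Rt) :
    Rt (fun l => ((![2, 3] : Fin 2 → ℤ) l : ℚ)) := by
  have h0 := h.baseZ 0 ![1, 0] (by decide)
  have h1 := h.stepZ h0 1 ![1, 3] (by decide)
  have h2 := h.stepZ h1 0 ![2, 3] (by decide)
  exact h2
end Pool.Agent.P.MP_7d29e8_ag
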