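import Pool.Agent.P.MP_7d29e8_ag.Mat

set_option autoImplicit false

namespace Pool.Agent.P.MP_7d29e8_ag

open scoped Classical
open Finset

section A

variable {n : ℕ}

lemma congA {c : Fin n → ℚ} (hc : ∀ k, IsZ (∑ l, (CartanMatrix.A n k l : ℚ) * c l))
    (m : Fin n) (hm : (m : ℕ) + 1 = n) :
    IsZ ((n + 1) * c m) ∧ ∀ i, i ≤ n + 1 → IsZ (U c i + i * c m) := by
  have h1 := chainZ (U c) (n + 1) (U_zero c) (fun i hi => by
    have := hc ⟨i, by omega⟩
    rwa [rowA] at this)
  have h2 := h1 (n + 1) le_rfl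
  rw [U_gt c (Nat.lt_succ_self n)] at h2
  have h3 := h1 n (by omega)
  have h4 : U c n = c m := by rw [← U_succ c m, hm]
  rw [h4] at h3
  have h5 : IsZ (c m + U c 1) := (h3.sub h2).of_eq (by push_cast; ring)
  refine ⟨(((IsZ.nat (n + 1)).mul h5).add h2).of_eq (by push_cast; ring), fun i hi => ?_⟩
  exact ((h1 i hi).add ((IsZ.nat i).mul h5)).of_eq (by ring)

lemma typeA {D y c c' : Fin n → ℚ} (h : Dat (CartanMatrix.A n) Eq D y c c') (m : Fin n)
    (hm : (m : ℕ) + 1 = n) (f : ℕ → ℤ) (hf : ∀ i, f i = ⌊i * c m⌋ - ⌊i * c' m⌋) :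
    QQ Eq y c c' ↔ ∀ k : Fin n, D k = f (k + 2) - 2 * f (k + 1) + f k := by
  set x : Fin n → ℚ := fun k => Int.fract (- c k) - Int.fract (- c' k) with hx
  have h1 : QQ Eq y c c' ↔ y = x := by
    simp only [QQ, oS_eq, funext_iff, hx]
  have h2 : ∀ i, i ≤ n + 1 → U x i = i * (c m - c' m) - f i := by
    intro i hi
    have e1 : Int.fract (- U c i) = Int.fract (i * c m) := by
      rw [fract_congr (b := - (i * c m)) (((congA h.zc m hm).2 i hi).of_eq (by ring)), neg_neg]
    have e2 : Int.fract (- U c' i) = Int.fract (i * c' m) := by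
      rw [fract_congr (b := - (i * c' m)) (((congA h.zc' m hm).2 i hi).of_eq (by ring)), neg_neg]
    have e3 : U x i = Int.fract (- U c i) - Int.fract (- U c' i) := by
      rcases i with _ | i
      · simp [U_zero]
      · by_cases hin : i < n
        · rw [U_mk _ hin, U_mk _ hin, U_mk _ hin]
        · rw [U_gt _ (by omega), U_gt _ (by omega), U_gt _ (by omega)]; simp
    rw [e3, e1, e2, hf, Int.fract, Int.fract]; push_cast; ring
  rw [h1, h.eq_iff]
  refine forall_congr' fun k => ?_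
  have := k.2
  rw [rowA, h2 _ (by omega), h2 _ (by omega), h2 _ (by omega)]
  push_cast
  constructor <;> intro e <;> linarith

lemma A_rev (k l : Fin n) : CartanMatrix.A n k.rev l.rev = CartanMatrix.A n k l := by
  have := k.2
  have := l.2
  simp only [CartanMatrix.A, Matrix.of_apply, Fin.ext_iff, Fin.val_rev]
  split_ifs <;> omega

lemma typeA' {R : Fin n → Fin n → Prop} {D y c c' : Fin n → ℚ}
    (h : Dat (CartanMatrix.A n) R D y c c') (hR : ∀ k l, R k l ↔ l = k ∨ l = k.rev) :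
    QQ R y c c' ↔ ∀ k : Fin n, D k + D k.rev = 2 * ∑ m with m.rev = m,
      CartanMatrix.A n k m * (Int.fract (- c m) - Int.fract (- c' m)) := by
  have hoS : ∀ (z : Fin n → ℚ) k, oS R z k = if k.rev = k then z k else z k + z k.rev := by
    intro z k
    split_ifs with hk
    · exact oS_single (fun l => by rw [hR, hk, or_self]) z
    · rw [oS_set (S := {k, k.rev}) (fun l => by simp [hR]), sum_pair (Ne.symm hk)]
  have hint : ∀ {c : Fin n → ℚ}, (∀ k, IsZ (∑ l, (CartanMatrix.A n k l : ℚ) * c l)) →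
      ∀ k : Fin n, IsZ (c k + c k.rev) := by
    intro c hc k
    have hk := k.2
    obtain ⟨h1, h2⟩ := congA hc ⟨n - 1, by omega⟩ (by simp; omega)
    have h3 := h2 (k + 1) (by omega)
    have h4 := h2 (k.rev + 1) (by have := k.rev.2; omega)
    rw [U_succ] at h3 h4
    refine ((h3.add h4).sub h1).of_eq ?_
    have : (((k.rev : ℕ) + 1 : ℕ) : ℚ) = n - k := by
      rw [Fin.val_rev, show n - (k + 1) + 1 = n - k by omega, Nat.cast_sub hk.le]
    rw [this]; push_cast; ring
  set z : Fin n → ℚ := fun m =>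
    if m.rev = m then 2 * (Int.fract (- c m) - Int.fract (- c' m)) else 0 with hz
  have h1 : QQ R y c c' ↔ (fun k => y k + y k.rev) = z := by
    simp only [QQ, funext_iff, hoS, hz]
    refine forall_congr' fun k => ?_
    split_ifs with hk
    · rw [hk]; constructor <;> intro e <;> linarith
    · rw [fract_of_isZ (hint h.zc k), fract_of_isZ (hint h.zc' k), sub_self]
  have h2 : ∀ k : Fin n, D k + D k.rev = ∑ l, (CartanMatrix.A n k l : ℚ) * (y l + y l.rev) := by
    intro k
    simp only [mul_add, sum_add_distrib]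
    rw [h.hD, h.hD]
    congr 1
    rw [← Equiv.sum_comp Fin.revPerm]
    simp [A_rev]
  have h3 : ∀ k : Fin n, ∑ l, (CartanMatrix.A n k l : ℚ) * z l = 2 * ∑ m with m.rev = m,
      CartanMatrix.A n k m * (Int.fract (- c m) - Int.fract (- c' m)) := by
    intro k
    rw [sum_filter, mul_sum]
    refine sum_congr rfl fun l _ => ?_
    simp only [hz]
    split_ifs <;> ring
  rw [h1]
  simp only [h2, ← h3]
  constructor
  · intro e k; rw [← e]
  · intro e
    rw [← sub_eq_zero]
    refine h.inj _ fun k => ?_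
    simp only [Pi.sub_apply, mul_sub, sum_sub_distrib]
    rw [e, sub_self]

end A

lemma typeB {n : ℕ} {D y c c' : Fin n → ℚ} (h : Dat (CartanMatrix.B n) Eq D y c c') (hn : 2 ≤ n)
    (hD : ∀ k : Fin n, (k : ℕ) ≠ 0 → D k = 0) (hq : QQ Eq y c c') : D = 0 := by
  obtain ⟨m, rfl⟩ : ∃ m, n = m + 2 := ⟨n - 2, by omega⟩
  have hrow : ∀ i (hi : i < m + 2), D ⟨i, hi⟩ =
      2 * U y (i + 1) - U y i - (if i + 2 = m + 2 then 2 else 1) * U y (i + 2) :=
    fun i hi => by rw [h.hD, rowB]
  have hlast := hrow (m + 1) (by omega)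
  rw [hD _ (by simp), U_gt y (i := m + 1 + 2) (by omega)] at hlast
  have h0 := hrow 0 (by omega)
  rw [U_zero] at h0
  have hy : U y 1 = D ⟨0, by omega⟩ := by
    rcases m with _ | m
    · simp only [zero_add, if_true] at h0 hlast; linarith
    · rw [if_neg (by omega)] at h0
      have hc := chain (U y) 1 (m + 2) (fun i hi1 hi => by
        have := hrow i (by omega)
        rw [hD _ (by simp; omega), if_neg (by omega)] at this
        linarith)
      have h1 := hc (m + 1) (by omega)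
      have h2 := hc m (by omega)
      have h3 := hrow (m + 1) (by omega)
      rw [hD _ (by simp), if_pos rfl] at h3
      rw [show 1 + (m + 1) = m + 1 + 1 by omega] at h1
      rw [show 1 + m = m + 1 by omega] at h2
      push_cast at h1
      simp only [zero_add] at h0
      linarith
  have hlt := hq.lt ⟨0, by omega⟩
  rw [oS_eq, ← U_mk y, zero_add, hy] at hlt
  have := (h.zD _).eq_zero hlt.1 hlt.2
  funext k
  by_cases hk : (k : ℕ) = 0
  · rw [show k = ⟨0, by omega⟩ from Fin.ext hk]; exact this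
  · exact hD k hk

lemma typeC {n : ℕ} {D y c c' : Fin n → ℚ} (h : Dat (CartanMatrix.C n) Eq D y c c') (hn : 2 ≤ n)
    (hD : ∀ k : Fin n, (k : ℕ) + 1 ≠ n → D k = 0) (hq : QQ Eq y c c') : D = 0 := by
  obtain ⟨m, rfl⟩ : ∃ m, n = m + 2 := ⟨n - 2, by omega⟩
  have hrow : ∀ i (hi : i < m + 2), D ⟨i, hi⟩ =
      2 * U y (i + 1) - (if i + 1 = m + 2 then 2 else 1) * U y i - U y (i + 2) :=
    fun i hi => by rw [h.hD, rowC]
  have hlast := hrow (m + 1) (by omega)
  rw [if_pos rfl, U_gt y (i := m + 1 + 2) (by omega)] at hlast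
  have hc := chain (U y) 0 (m + 2) (fun i _ hi => by
    have := hrow i (by omega)
    rw [hD _ (by simp; omega), if_neg (by omega)] at this
    linarith)
  have h1 := hc (m + 1 + 1) (by omega)
  have h2 := hc (m + 1) (by omega)
  have h3 := hc 2 (by omega)
  simp only [zero_add, U_zero] at h1 h2 h3
  push_cast at h1 h2 h3
  have hy : U y (1 + 1) = D ⟨m + 1, by omega⟩ := by
    rw [hlast, h1, h2, show 1 + 1 = 2 from rfl, h3]; ring
  have hlt := hq.lt ⟨1, by omega⟩
  rw [oS_eq, ← U_mk y, hy] at hlt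
  have := (h.zD _).eq_zero hlt.1 hlt.2
  funext k
  by_cases hk : (k : ℕ) + 1 = m + 2
  · rw [show k = ⟨m + 1, by omega⟩ from Fin.ext (by simp; omega)]; exact this
  · exact hD k hk

lemma typeE7 {D y c c' : Fin 7 → ℚ} (h : Dat CartanMatrix.E₇ Eq D y c c')
    (hD : ∀ k : Fin 7, (k : ℕ) ≠ 6 → D k = 0) (hq : QQ Eq y c c') : D = 0 := by
  have h0 := h.hD 0
  have h1 := h.hD 1
  have h2 := h.hD 2
  have h3 := h.hD 3
  have h4 := h.hD 4
  have h5 := h.hD 5
  have h6 := h.hD 6
  rw [hD _ (by decide)] at h0 h1 h2 h3 h4 h5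
  simp [CartanMatrix.E₇, Fin.sum_univ_succ] at h0 h1 h2 h3 h4 h5 h6
  have hlt := hq.lt 0
  rw [oS_eq] at hlt
  have : D 6 = 0 := (h.zD _).eq_zero (by linarith [hlt.1]) (by linarith [hlt.2])
  funext k
  by_cases hk : (k : ℕ) = 6
  · rw [show k = 6 from Fin.ext hk]; exact this
  · exact hD k hk

lemma typeE6 {R : Fin 6 → Fin 6 → Prop} {D y c c' : Fin 6 → ℚ}
    (h : Dat CartanMatrix.E₆ R D y c c')
    (hD : ∀ k : Fin 6, (k : ℕ) ≠ 0 → (k : ℕ) ≠ 5 → D k = 0)
    (hR : R = Eq ∨ ∀ k l : Fin 6, R k l ↔ l = k ∨ (l : ℕ) = [5, 1, 4, 3, 2, 0].getD k 0) :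
    QQ R y c c' ↔ ∀ k, oS R D k = 0 := by
  have h0 := h.hD 0
  have h1 := h.hD 1
  have h2 := h.hD 2
  have h3 := h.hD 3
  have h4 := h.hD 4
  have h5 := h.hD 5
  have d1 := hD 1 (by decide) (by decide)
  have d2 := hD 2 (by decide) (by decide)
  have d3 := hD 3 (by decide) (by decide)
  have d4 := hD 4 (by decide) (by decide)
  simp [CartanMatrix.E₆, Fin.sum_univ_succ] at h0 h1 h2 h3 h4 h5
  have hz := (h.zD 0).add (h.zD 5)
  rcases hR with hR | hR
  · refine h.rest_of (fun hq => ?_) hR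
    subst hR
    have hlt := hq.lt 1
    rw [oS_eq] at hlt
    have hs : D 0 + D 5 = 0 := hz.eq_zero (by linarith [hlt.1]) (by linarith [hlt.2])
    have hint : ∀ {c : Fin 6 → ℚ}, (∀ k, IsZ (∑ l, (CartanMatrix.E₆ k l : ℚ) * c l)) →
        IsZ (oS Eq c 4 - oS Eq c 0) := by
      intro c hc
      refine ((((((hc 1).add (hc 2)).add (hc 3)).add (hc 3)).add ((hc 4).add (hc 4))).add
        (hc 5)).of_eq ?_
      simp [CartanMatrix.E₆, Fin.sum_univ_succ, oS_eq]
      ring
    have he := hq.eq (hint h.zc) (hint h.zc')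
    rw [oS_eq, oS_eq] at he
    have e0 : D 0 = 0 := by linarith
    have e5 : D 5 = 0 := by linarith
    funext k
    fin_cases k <;> simp [e0, d1, d2, d3, d4, e5]
  · have o0 : ∀ z : Fin 6 → ℚ, oS R z 0 = z 0 + z 5 := fun z => by
      rw [oS_set (S := {0, 5}) (fun l => by rw [hR]; revert l; decide), sum_pair (by decide)]
    have o5 : ∀ z : Fin 6 → ℚ, oS R z 5 = z 0 + z 5 := fun z => by
      rw [oS_set (S := {0, 5}) (fun l => by rw [hR]; revert l; decide), sum_pair (by decide)]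
    have o2 : ∀ z : Fin 6 → ℚ, oS R z 2 = z 2 + z 4 := fun z => by
      rw [oS_set (S := {2, 4}) (fun l => by rw [hR]; revert l; decide), sum_pair (by decide)]
    have o4 : ∀ z : Fin 6 → ℚ, oS R z 4 = z 2 + z 4 := fun z => by
      rw [oS_set (S := {2, 4}) (fun l => by rw [hR]; revert l; decide), sum_pair (by decide)]
    have o1 : ∀ z : Fin 6 → ℚ, oS R z 1 = z 1 := fun z =>
      oS_single (fun l => by rw [hR]; revert l; decide) z
    have o3 : ∀ z : Fin 6 → ℚ, oS R z 3 = z 3 := fun z =>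
      oS_single (fun l => by rw [hR]; revert l; decide) z
    constructor
    · intro hq k
      have hlt := hq.lt 1
      rw [o1] at hlt
      have hs : D 0 + D 5 = 0 := hz.eq_zero (by linarith [hlt.1]) (by linarith [hlt.2])
      fin_cases k <;> simp [o0, o1, o2, o3, o4, o5, hs, d1, d2, d3, d4]
    · intro hk
      have hs := hk 0
      rw [o0] at hs
      refine h.of_zero fun k => ?_
      fin_cases k <;> simp [o0, o1, o2, o3, o4, o5] <;> linarith

end Pool.Agent.P.MP_7d29e8_ag
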