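import Pool.Agent.P.MP_7d29e8_ag.Crit
import Pool.Agent.P.MP_7d29e8_ag.Types
import Pool.Agent.P.MP_7d29e8_ag.TypeD
import Pool.Agent.P.MP_7d29e8_ag.Minus

set_option autoImplicit false

namespace Pool.Agent.P.MP_7d29e8_ag

open scoped Classical
open Finset

theorem Dat.table {n : ℕ} {C : Matrix (Fin n) (Fin n) ℤ} {R : Fin n → Fin n → Prop}
    {D y c c' : Fin n → ℚ} (h : Dat C R D y c c') {Rt : (Fin n → ℚ) → Prop} (hRt : RtSys C Rt)
    (hD : ∀ m, Rt m → (∀ k, 0 ≤ m k) → ∀ k, 2 ≤ m k → D k = 0) :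
    Table n C R D c c' (QQ R y c c') := by
  have hDD : C = CartanMatrix.D n → 4 ≤ n → ∀ k, ¬ Ends n k → (k : ℕ) ≠ 0 → D k = 0 := by
    rintro rfl hn k h1 h2
    refine hD _ (rootD hRt hn) (fun k => by split_ifs <;> norm_num) k ?_
    rw [if_neg]
    rintro (h | h)
    · exact h2 h
    · exact h1 (Or.inl h)
  have hall : ∀ m : Fin n → ℤ, Rt (fun l => (m l : ℚ)) → (∀ k, 0 ≤ m k) → ∀ k, 2 ≤ m k → D k = 0 :=
    fun m hm h0 k hk => hD _ hm (fun k => by exact_mod_cast h0 k) k (by exact_mod_cast hk)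
  have hzero : D = 0 → (QQ R y c c' ↔ ∀ k, oS R D k = 0) := fun h0 =>
    ⟨fun _ k => by simp [oS, h0], fun _ => h.D_zero h0⟩
  refine ⟨?_, ?_, ?_, ?_⟩
  · rintro rfl rfl m hm f hf
    exact typeA h m hm f hf
  · rintro rfl hR
    exact typeA' h hR
  · rintro hC hn rfl
    have := hDD hC hn
    subst hC
    obtain ⟨m, rfl⟩ : ∃ m, n = m + 4 := ⟨n - 4, by omega⟩
    exact typeD h this
  · rintro (⟨rfl | rfl, hn, rfl⟩ | ⟨hC, hn, S, h2, hS, hR⟩ | ⟨rfl, hC, hR⟩ | ⟨rfl, hC, rfl⟩ |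
      ⟨rfl, hC⟩ | ⟨rfl, hC⟩ | ⟨rfl, hC⟩)
    · refine h.rest_of (typeB h hn fun k hk => ?_) rfl
      exact hD _ (rootB hRt hn) (fun k => by split_ifs <;> norm_num) k (by rw [if_neg hk])
    · refine h.rest_of (typeC h hn fun k hk => ?_) rfl
      exact hD _ (rootC hRt (by omega)) (fun k => by split_ifs <;> norm_num) k (by rw [if_neg hk])
    · have := hDD hC hn
      subst hC
      obtain ⟨m, rfl⟩ : ∃ m, n = m + 4 := ⟨n - 4, by omega⟩
      exact typeD' h this S h2 hS hR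
    · obtain rfl := eq_of_heq hC
      refine typeE6 h (fun k h1 h2 => hall _ (rootE6 hRt) (by decide) k ?_) hR
      revert k; decide
    · obtain rfl := eq_of_heq hC
      refine h.rest_of (typeE7 h fun k h1 => hall _ (rootE7 hRt) (by decide) k ?_) rfl
      revert k; decide
    · obtain rfl := eq_of_heq hC
      exact hzero (funext fun k => hall _ (rootE8 hRt) (by decide) k (by revert k; decide))
    · obtain rfl := eq_of_heq hC
      exact hzero (funext fun k => hall _ (rootF4 hRt) (by decide) k (by revert k; decide))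
    · obtain rfl := eq_of_heq hC
      exact hzero (funext fun k => hall _ (rootG2 hRt) (by decide) k (by revert k; decide))

variable {ι M N : Type*} [AddCommGroup M] [Module ℚ M] [AddCommGroup N] [Module ℚ N]
  {P : RootPairing ι ℚ M N}

/-- a simple factor -/
structure Factor (b : P.Base) (Γ : Subgroup P.Aut) {T : Type} {n : ℕ} (e : T × Fin n → ι)
    (C : Matrix (Fin n) (Fin n) ℤ) (R : Fin n → Fin n → Prop) : Prop where
  inj : Function.Injective e
  mem : ∀ p, e p ∈ b.support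
  hC : ∀ p q, P.pairing (e p) (e q) = if p.1 = q.1 then C p.2 q.2 else 0
  h0 : ∀ p, ∀ j ∈ b.support, j ∉ Set.range e → P.pairing (e p) j = 0
  hR : ∀ p j, (∃ g ∈ Γ, g.indexEquiv (e p) = j) ↔ ∃ q, j = e q ∧ R p.2 q.2

variable {b : P.Base} {Γ : Subgroup P.Aut} {T : Type} [Fintype T] {n : ℕ} {e : T × Fin n → ι}
  {C : Matrix (Fin n) (Fin n) ℤ} {R : Fin n → Fin n → Prop}

lemma Factor.sum_pairing (F : Factor b Γ e C R) (t : T) (k : Fin n) (f : ι → ℚ) :
    ∑ j ∈ b.support, P.pairing (e (t, k)) j * f j = ∑ l, (C k l : ℚ) * f (e (t, l)) := by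
  rw [← sum_subset (s₁ := univ.image e) (fun j hj => by
      obtain ⟨q, _, rfl⟩ := mem_image.mp hj; exact F.mem q)
    (fun j hj hj' => by
      rw [F.h0 _ j hj (fun ⟨q, hq⟩ => hj' (mem_image.mpr ⟨q, mem_univ _, hq⟩)), zero_mul]),
    sum_image (fun p _ q _ h => F.inj h), Fintype.sum_prod_type, sum_eq_single t]
  · simp [F.hC]
  · intro t' _ ht'
    simp [F.hC, ht'.symm]
  · simp

lemma Factor.orb_eq (F : Factor b Γ e C R) (ω : ι → M) (p : T × Fin n) (x : N) :
    orb b Γ ω (e p) x = oS R (fun l => ∑ t, P.toLinearMap (ω (e (t, l))) x) p.2 := by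
  have : b.support.filter (fun j => ∃ g ∈ Γ, g.indexEquiv (e p) = j) =
      (univ.filter fun q : T × Fin n => R p.2 q.2).image e := by
    ext j
    simp only [mem_filter, mem_image, mem_univ, true_and, F.hR]
    constructor
    · rintro ⟨_, q, rfl, hq⟩; exact ⟨q, hq, rfl⟩
    · rintro ⟨q, hq, rfl⟩; exact ⟨F.mem q, q, rfl, hq⟩
  rw [orb, this, sum_image (fun p _ q _ h => F.inj h), oS, sum_filter, sum_filter,
    Fintype.sum_prod_type_right]
  refine sum_congr rfl fun l _ => ?_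
  split_ifs <;> simp

omit [Fintype T] in
lemma Factor.rtSys (F : Factor b Γ e C R) (t : T) :
    RtSys C (fun m => ∃ i, P.root i = ∑ l, m l • P.root (e (t, l))) := by
  constructor
  · intro k
    exact ⟨e (t, k), by simp [Pi.single_apply]⟩
  · rintro m j ⟨i, hi⟩
    refine ⟨P.reflectionPerm (e (t, j)) i, ?_⟩
    have : P.pairing i (e (t, j)) = ∑ l, m l * C l j := by
      rw [← P.root_coroot_eq_pairing, hi, map_sum, LinearMap.sum_apply]
      simp [F.hC]
    rw [P.root_reflectionPerm, P.reflection_apply_root, this, hi]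
    simp [sub_smul, Pi.single_apply]

variable [Finite ι] [P.IsCrystallographic]

lemma Factor.injC (F : Factor b Γ e C R) (t : T) (z : Fin n → ℚ)
    (hz : ∀ k, ∑ l, (C k l : ℚ) * z l = 0) : z = 0 := by
  let c : ι → ℚ := fun j => ∑ l, if e (t, l) = j then z l else 0
  have hc : ∀ l, c (e (t, l)) = z l := fun l => by
    simp [c, F.inj.eq_iff]
  have := sum_eq_zero_of b (c := c) (fun i _ => by
    by_cases hi : ∃ k, e (t, k) = i
    · obtain ⟨k, rfl⟩ := hi
      right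
      rw [map_sum]
      simp only [map_smul, smul_eq_mul, RootPairing.root'_coroot_eq_pairing]
      rw [sum_congr rfl (fun j _ => mul_comm _ _), F.sum_pairing]
      simp only [hc, hz]
    · left
      push Not at hi
      simp [c, hi])
  funext l
  rw [← hc, this _ (F.mem _)]; rfl

theorem Setup.table {L : AddSubgroup N} {ω : ι → M} (S : Setup b Γ L ω) [Nonempty T]
    (F : Factor b Γ e C R) {γ γ' μ μ' x : N}
    (hL : ∀ y ∈ L, ∀ i, ∃ z : ℤ, P.root' i y = z) (hγZ : ∀ i, ∃ z : ℤ, P.root' i γ = z)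
    (hμL : μ ∈ L) (hμL' : μ' ∈ L) (hx : x ∈ L)
    (hμ : ∀ i ∈ b.support, 0 ≤ P.root' i μ) (hμ' : ∀ i ∈ b.support, 0 ≤ P.root' i μ')
    (hγx : ∀ i ∈ b.support, P.root' i γ' = P.root' i (γ + x))
    (hκ : (x : N ⧸ rel Γ L) = (μ : N ⧸ rel Γ L) - (μ' : N ⧸ rel Γ L))
    (hm : ∀ i, P.root' i μ ≤ 1) (hm' : ∀ i, P.root' i μ' ≤ 1) :
    Table n C R (fun k => ∑ t, P.root' (e (t, k)) (μ - μ'))
      (fun k => ∑ t, P.toLinearMap (ω (e (t, k))) γ)
      (fun k => ∑ t, P.toLinearMap (ω (e (t, k))) γ')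
      (∀ p, Crit b Γ ω γ γ' μ μ' (e p)) := by
  obtain ⟨t0⟩ := ‹Nonempty T›
  have hsum : ∀ (k : Fin n) (v : N), ∑ t, P.root' (e (t, k)) v =
      ∑ l, (C k l : ℚ) * ∑ t, P.toLinearMap (ω (e (t, l))) v := fun k v => by
    simp only [mul_sum]
    rw [sum_comm]
    exact sum_congr rfl fun t _ => by rw [S.root_eq, F.sum_pairing]
  have hγx1 : ∀ i ∈ b.support, P.root' i (γ' - γ - x) = 0 := fun i hi => by
    have := hγx i hi
    simp only [map_add, map_sub] at this ⊢
    linarith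
  have hdat : Dat C R (fun k => ∑ t, P.root' (e (t, k)) (μ - μ'))
      (fun k => ∑ t, P.toLinearMap (ω (e (t, k))) (μ - μ'))
      (fun k => ∑ t, P.toLinearMap (ω (e (t, k))) γ)
      (fun k => ∑ t, P.toLinearMap (ω (e (t, k))) γ') := by
    refine ⟨fun k => hsum k _, fun k => IsZ.sum fun t _ => hL _ (L.sub_mem hμL hμL') _,
      fun k => ?_, fun k => ?_, fun k => ?_, F.injC t0⟩
    · rw [← hsum]; exact IsZ.sum fun t _ => hγZ _
    · rw [← hsum]
      refine IsZ.sum fun t _ => ?_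
      rw [hγx _ (F.mem _), map_add]
      exact IsZ.add (hγZ _) (hL x hx _)
    · obtain ⟨z, hz⟩ := S.yy_int hγx1 hκ (e (t0, k))
      rw [← F.orb_eq ω (t0, k), ← F.orb_eq ω (t0, k), ← F.orb_eq ω (t0, k)]
      simp only [← orbL_apply, map_sub]
      exact ⟨z, by linarith⟩
  have hQ : (∀ p, Crit b Γ ω γ γ' μ μ' (e p)) ↔ QQ R
      (fun k => ∑ t, P.toLinearMap (ω (e (t, k))) (μ - μ'))
      (fun k => ∑ t, P.toLinearMap (ω (e (t, k))) γ)
      (fun k => ∑ t, P.toLinearMap (ω (e (t, k))) γ') := by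
    have h1 : ∀ p : T × Fin n, Crit b Γ ω γ γ' μ μ' (e p) ↔
        oS R (fun k => ∑ t, P.toLinearMap (ω (e (t, k))) (μ - μ')) p.2 =
        Int.fract (- oS R (fun k => ∑ t, P.toLinearMap (ω (e (t, k))) γ) p.2) -
        Int.fract (- oS R (fun k => ∑ t, P.toLinearMap (ω (e (t, k))) γ') p.2) := fun p => by
      rw [← F.orb_eq ω p, ← F.orb_eq ω p, ← F.orb_eq ω p, Crit]
      simp only [← orbL_apply, map_sub]
      constructor <;> intro h <;> linarith
    simp only [h1]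
    exact ⟨fun h k => h (t0, k), fun h p => h p.2⟩
  rw [hQ]
  refine hdat.table (Rt := fun m => ∀ t, ∃ i, P.root i = ∑ l, m l • P.root (e (t, l)))
    ⟨fun k t => (F.rtSys t).base k, fun m j h t => (F.rtSys t).refl m j (h t)⟩ ?_
  intro m hm0 h0 k hk
  have key : ∀ v ∈ L, (∀ i ∈ b.support, 0 ≤ P.root' i v) → (∀ i, P.root' i v ≤ 1) →
      ∀ t, P.root' (e (t, k)) v = 0 := fun v hv h1 h2 t => by
    obtain ⟨i, hi⟩ := hm0 t
    refine supp_of (d := fun l => P.root' (e (t, l)) v) (fun l => h1 _ (F.mem _))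
      (fun l => hL v hv _) h0 ?_ hk
    have := h2 i
    have e1 : ∀ j, P.root' j v = P.toLinearMap (P.root j) v := fun _ => rfl
    rw [e1, hi, map_sum, LinearMap.sum_apply] at this
    simpa [e1] using this
  exact sum_eq_zero fun t _ => by rw [map_sub, key μ hμL hμ hm, key μ' hμL' hμ' hm', sub_zero]

end Pool.Agent.P.MP_7d29e8_ag
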