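import Pool.Agent.P.MP_7d29e8_ag.HRat

set_option autoImplicit false

/-! The invariants of rational points of a quasi-split frame. -/

namespace Pool.Agent.P.MP_7d29e8_ag

open Finset SemidirectProduct
open scoped Classical

variable {Ω : Type} [Field Ω] [CharZero Ω] {n : Type} [Fintype n] [DecidableEq n]
  {ι M N : Type} [AddCommGroup M] [Module ℚ M] [AddCommGroup N] [Module ℚ N]
  {P : RootPairing ι ℚ M N} {wt : n → M}

/-- the arithmetic setting in diagonal coordinates -/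
structure AS (G : Subgroup (GL n Ω)) (b : P.Base) (wt : n → M) (ω : ι → M) (v : Ω → ℚ)
    (I : Subgroup (SL n Ω)) (φ₀ : SL n Ω) (a₀ : P.Aut) (Γ : Subgroup P.Aut) : Prop where
  ds : DS G P wt
  su : Setup b Γ (lat P wt) ω
  iso : ∀ τ ∈ I, Iso v τ
  stab : ∀ τ ∈ I, ∀ g ∈ G, acu τ g ∈ G
  act : ∀ τ ∈ I, ∃ a ∈ Γ, Nrm P wt τ a.coweightMap
  int : ∀ z, z ≠ 0 → (∀ τ ∈ I, τ.right z = z) → ∃ m : ℤ, v z = m
  desc : ∀ V : Submodule Ω (Matrix n n Ω), (∀ τ ∈ I, ∀ X ∈ V, ac τ X ∈ V) →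
    V ≤ Submodule.span Ω {X | X ∈ V ∧ ∀ τ ∈ I, ac τ X = X}
  iso₀ : Iso v φ₀
  stab₀ : ∀ g ∈ G, acu φ₀ g ∈ G
  stab₀' : ∀ g ∈ G, acu φ₀⁻¹ g ∈ G
  act₀ : Nrm P wt φ₀ a₀.coweightMap
  mem₀ : a₀ ∈ Γ
  norm₀ : ∀ τ ∈ I, φ₀⁻¹ * τ * φ₀ ∈ I
  gen : Γ ≤ Subgroup.closure ({a | ∃ τ ∈ I, Nrm P wt τ a.coweightMap} ∪ {a₀})

/-- the image of inertia -/
def GI (wt : n → M) (I : Subgroup (SL n Ω)) (Γ : Subgroup P.Aut) : Subgroup P.Aut where
  carrier := {a | a ∈ Γ ∧ ∃ τ ∈ I, Nrm P wt τ a.coweightMap}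
  mul_mem' := fun ⟨h1, τ, h2, h3⟩ ⟨k1, τ', k2, k3⟩ => ⟨mul_mem h1 k1, τ' * τ, mul_mem k2 h2, k3.mul h3⟩
  one_mem' := ⟨one_mem _, 1, one_mem _, Nrm.one⟩
  inv_mem' := fun ⟨h1, τ, h2, h3⟩ => ⟨inv_mem h1, τ⁻¹, inv_mem h2, h3.inv (cw_inv _)⟩

lemma NP.zer {v : Ω → ℚ} {hv : Val v} {pw : ℚ → Ωˣ} {φ : SL n Ω} {m : GL n Ω} {h : n → ℚ}
    (H : NP hv pw φ m h) (hm : Zer h m.val) : NP hv pw φ 1 h := by
  have := mul_mem (Bdd.const m) H
  rw [NP]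
  convert this using 1
  funext j
  have e := left_comm_pw (φ := inl m) (ac_inl_iff.mpr hm) fun q => pw (j * q)
  rw [left_inl] at e
  simp only [Pi.mul_apply, e, one_mul]
  group

variable {G : Subgroup (GL n Ω)} {b : P.Base} {ω : ι → M} {v : Ω → ℚ} {hv : Val v} {pw : ℚ → Ωˣ}
  {I : Subgroup (SL n Ω)} {φ₀ : SL n Ω} {a₀ : P.Aut} {Γ : Subgroup P.Aut}
  (A : AS G b wt ω v I φ₀ a₀ Γ)
include A

lemma AS.fx_iff {x : N} : (∀ τ ∈ I, ac τ (DD P wt Ω x) = DD P wt Ω x) ↔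
    ∀ a ∈ GI wt I Γ, a.coweightMap x = x := by
  constructor
  · rintro h a ⟨-, τ, h1, h2⟩
    exact DD_inj A.ds.span ((h2 x).symm.trans (h τ h1))
  · intro h τ hτ
    obtain ⟨a, h1, h2⟩ := A.act τ hτ
    rw [h2, h a ⟨h1, τ, hτ, h2⟩]

lemma AS.fix {x : N} (h : ∀ τ ∈ I, ac τ (DD P wt Ω x) = DD P wt Ω x)
    (h₀ : a₀.coweightMap x = x) : ∀ a ∈ Γ, a.coweightMap x = x := fun a ha => by
  have := A.gen ha
  clear ha
  induction this using Subgroup.closure_induction with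
  | mem a ha =>
    rcases ha with ⟨τ, h1, h2⟩ | rfl
    · exact DD_inj A.ds.span ((h2 x).symm.trans (h τ h1))
    · exact h₀
  | one => rfl
  | mul a c _ _ h1 h2 => rw [cw_mul, h1, h2]
  | inv a _ h1 => conv_lhs => rw [← h1, ← cw_mul, mul_inv_cancel]
                  rfl

lemma AS.fx {x : N} (h : ∀ a ∈ Γ, a.coweightMap x = x) :
    ∀ τ ∈ I, ac τ (DD P wt Ω x) = DD P wt Ω x := A.fx_iff.mpr fun a ha => h a ha.1

lemma AS.real {a : P.Aut} (ha : a ∈ Γ) : ∃ φ : SL n Ω, Nrm P wt φ a.coweightMap := by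
  have := A.gen ha
  clear ha
  induction this using Subgroup.closure_induction with
  | mem a ha =>
    rcases ha with ⟨τ, -, h2⟩ | rfl
    · exact ⟨τ, h2⟩
    · exact ⟨φ₀, A.act₀⟩
  | one => exact ⟨1, Nrm.one⟩
  | mul a c _ _ h1 h2 =>
    obtain ⟨φ, h1⟩ := h1
    obtain ⟨φ', h2⟩ := h2
    exact ⟨_, h2.mul h1⟩
  | inv a _ h1 =>
    obtain ⟨φ, h1⟩ := h1
    exact ⟨_, h1.inv (cw_inv _)⟩

lemma AS.rat_ac {X : Matrix n n Ω} (h : ∀ τ ∈ I, ac τ X = X) :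
    ∀ τ ∈ I, ac τ (ac φ₀ X) = ac φ₀ X := fun τ hτ => by
  conv_rhs => rw [← h _ (A.norm₀ τ hτ), ← ac_mul]
  rw [← ac_mul]; congr 2; group

lemma AS.rat_acu {u : GL n Ω} (h : ∀ τ ∈ I, acu τ u = u) :
    ∀ τ ∈ I, acu τ (acu φ₀ u) = acu φ₀ u := fun τ hτ =>
  Units.ext (A.rat_ac (fun τ hτ => congrArg Units.val (h τ hτ)) τ hτ)

lemma AS.Gp_frob {u : GL n Ω} (hu : u ∈ Gp G I) : acu φ₀ u ∈ Gp G I :=
  Gp_acu A.stab₀ (fun φ hφ _ h => A.rat_acu h φ hφ) hu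

variable [Finite Γ]

lemma AS.tS_avg {ζ : N} (hζ : ∀ a ∈ Γ, a.coweightMap ζ = ζ) (c : ℚ) (x : N) :
    tS P wt ζ c (avg Γ x) = tS P wt ζ c x :=
  map_avg Γ _ x _ fun a ha => let ⟨_, h⟩ := A.real ha; h.tS_eq (hζ a ha) c x

variable [P.IsReduced] [Finite ι] [P.IsCrystallographic]

lemma AS.span_of {w : N} (hw : ∀ a ∈ Γ, a.coweightMap w = w)
    (H : ∀ ζ, (∀ a ∈ Γ, a.coweightMap ζ = ζ) → (∀ i ∈ b.support, P.root' i ζ = 0) →
      ∀ c, tS P wt ζ c w = 0) : w ∈ Submodule.span ℚ (Set.range P.coroot) := by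
  obtain ⟨ν, h1, h2, h3⟩ := A.su.exists_pt b.support subset_rfl A.su.stab w
  rw [avg_of_inv Γ w hw] at h3
  have h4 : ν = 0 := BB_self (P := P) A.ds.span (BB_zero fun c => by
    have := A.ds.tS_span (ζ := ν) c h2 h3
    rwa [map_sub, H ν h1 h2 c, zero_sub, neg_eq_zero] at this)
  rw [h4, sub_zero] at h3
  exact span_mono_range _ h3

variable [IsAlgClosed Ω]

theorem AS.correct (hv : Val v) {u : GL n Ω} (hu : u ∈ Gp G I) {w : N}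
    (hw : ∀ a ∈ Γ, a.coweightMap w = w) {J : Set ι} (hJ : ∀ a ∈ Γ, ∀ i ∈ J, a.indexEquiv i ∈ J)
    (H : ∀ ζ, (∀ a ∈ Γ, a.coweightMap ζ = ζ) → (∀ i ∈ b.support, i ∈ J → P.root' i ζ = 0) →
      ∀ c, DE (Eof fun i => c ≤ hh P wt ζ i) u.val ≠ 0 ∧
        v (DE (Eof fun i => c ≤ hh P wt ζ i) u.val) = tS P wt ζ c w) :
    ∃ q ∈ QL P, w - avg Γ q ∈ Submodule.span ℚ (P.coroot '' {i | i ∈ b.support ∧ i ∈ J}) := by
  have hsp := A.span_of hw fun ζ h1 h2 c => by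
    rw [← (H ζ h1 (fun i hi _ => h2 i hi) c).2,
      A.ds.DE_central (fun i => root'_eq_zero_of h2) c hu, mulv_one hv.mul]
  refine A.su.correct hJ hsp hw fun i hi hiJ => ?_
  obtain ⟨ζ₀, z1, z2⟩ := exists_coweight b fun j => if j ∈ O b Γ i then 1 else 0
  obtain ⟨r, hr, hL⟩ := exists_lat (P := P) (wt := wt) ζ₀
  have hr' : (0 : ℚ) < r := by exact_mod_cast hr
  set ζ := (r : ℚ) • ζ₀ with hζ
  have z3 : ∀ j ∈ b.support, P.root' j ζ = if j ∈ O b Γ i then (r : ℚ) else 0 := fun j hj => by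
    rw [hζ, map_smul, z2 j hj]; simp
  have z4 : ∀ a ∈ Γ, a.coweightMap ζ = ζ :=
    A.su.fix_of_root (Submodule.smul_mem _ _ z1) fun a ha j hj => by
      rw [z3 _ (A.su.stab a ha j hj), z3 j hj]
      refine if_congr ⟨fun h => ?_, A.su.act_mem_O ha⟩ rfl rfl
      have := A.su.act_mem_O (inv_mem ha) h
      rwa [idx_inv, Equiv.symm_apply_apply] at this
  have z5 : ∀ j ∈ b.support, j ∈ J → P.root' j ζ = 0 := fun j hj hjJ => by
    rw [z3 j hj, if_neg]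
    intro h
    obtain ⟨_, g, hg, e⟩ := mem_filter.mp h
    have := hJ g⁻¹ (inv_mem hg) _ hjJ
    rw [← e, idx_inv, Equiv.symm_apply_apply] at this
    exact hiJ this
  have hpos : 0 < BB P wt (P.coroot i) (P.coroot i) :=
    lt_of_le_of_ne (sum_nonneg fun _ _ => mul_self_nonneg _) fun h =>
      P.ne_zero' i (BB_self A.ds.span h.symm)
  obtain ⟨c, hc⟩ : ∃ c : ℕ, (c : ℚ) = r * (BB P wt (P.coroot i) (P.coroot i) / 2) := by
    choose k hk using mem_lat.mp hL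
    choose k' hk' using mem_lat.mp (A.su.co i)
    have h1 := A.ds.BB_coroot ζ i
    rw [z3 i hi, if_pos (mem_O_self hi)] at h1
    have h2 : BB P wt ζ (P.coroot i) = (∑ j, k j * k' j : ℤ) := by simp [BB, hk, hk']
    have h3 : 0 ≤ ∑ j, k j * k' j := by
      have : (0 : ℚ) ≤ (∑ j, k j * k' j : ℤ) := by rw [← h2, h1]; positivity
      exact_mod_cast this
    exact ⟨(∑ j, k j * k' j).toNat, by rw [← h1, h2]; exact_mod_cast Int.toNat_of_nonneg h3⟩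
  have hc0 : 0 < c := by
    have : (0 : ℚ) < c := by rw [hc]; positivity
    exact_mod_cast this
  have hB : ∀ x ∈ Submodule.span ℚ (Set.range P.coroot), BB P wt ζ x = c * orbL b Γ ω i x := by
    intro x hx
    conv_lhs => rw [A.su.expand hx, ← BL_apply, map_sum]
    rw [orbL_apply', mul_sum, ← sum_subset (O_sub b Γ i) fun j hj h => by
      rw [map_smul, BL_apply, A.ds.BB_coroot, z3 j hj, if_neg h]; simp]
    refine sum_congr rfl fun j h => ?_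
    rw [map_smul, BL_apply, A.ds.BB_coroot, z3 j (O_sub _ _ _ h), if_pos h, hc]
    · obtain ⟨-, g, hg, rfl⟩ := mem_filter.mp h
      obtain ⟨φ, hφ⟩ := A.real hg
      have := hφ.BB_eq (P.coroot (g.indexEquiv i)) (P.coroot (g.indexEquiv i))
      rw [coroot_act, Equiv.symm_apply_apply] at this
      rw [this, smul_eq_mul, mul_comm]
  obtain ⟨R, hR⟩ := exists_bound (hh P wt ζ)
  obtain ⟨y, h1, h2⟩ := A.ds.div (b := b) (fun j hj => by rw [z3 j hj]; split_ifs <;> simp)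
    hL hR hc0 (fun q hq => by
      obtain ⟨m, hm⟩ := A.su.orb_rel i (QL_le_rel Γ _ hq)
      exact ⟨m, by rw [hB q (QL_span hq), hm]⟩) (A.fx z4) hu
  have h3 := fun j : ℤ => H ζ z4 z5 j
  have h4 : y ≠ 0 := fun h => by
    rw [h, zero_pow hc0.ne'] at h1
    exact prod_ne_zero_iff.mpr (fun j _ => (h3 j).1) h1
  obtain ⟨m, hm⟩ := A.int y h4 h2
  refine ⟨m, ?_⟩
  have h5 := congrArg v h1
  rw [mulv_pow hv.mul h4, hm, XD, mulv_prod hv.mul _ fun j _ => (h3 j).1] at h5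
  simp only [(h3 _).2, tS_apply] at h5
  have h6 := A.ds.tS_span (ζ := 0) 0 (s := Set.univ) (by simp) (by simpa using hsp)
  rw [tS_apply, filter_true_of_mem fun i _ => by simp [hh_zero]] at h6
  rw [abel_sum (mem_lat.mp hL) hR] at h5
  simp only [add_mul, sum_add_distrib, ← mul_sum, h6, mul_zero, add_zero] at h5
  have h7 := (hB w hsp).symm.trans h5
  have : (c : ℚ) ≠ 0 := by exact_mod_cast hc0.ne'
  exact mul_left_cancel₀ this h7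

omit [Finite Γ] [IsAlgClosed Ω] in
lemma AS.minor (hpw : Pw v pw) {φ : SL n Ω} (hφ : Iso v φ) {g : GL n Ω} {ν₁ ν₂ ζ : N}
    (H₁ : NP hv pw φ 1 (hh P wt ν₁)) (H₂ : NP hv pw (inl g * φ) 1 (hh P wt ν₂))
    (h1 : ac φ (DD P wt Ω ζ) = DD P wt Ω ζ) {u t : GL n Ω} (h2 : Zer (hh P wt ζ) g.val) {x : N}
    (ht : Tor P wt v x t) (e : g = u * t) (c : ℚ) :
    DE (Eof fun i => c ≤ hh P wt ζ i) u.val ≠ 0 ∧
      v (DE (Eof fun i => c ≤ hh P wt ζ i) u.val) = tS P wt ζ c (ν₂ - ν₁ - x) := by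
  obtain ⟨q1, q2⟩ := NP.minor hpw hφ H₁ H₂ (ac_Eof h1 fun q => c ≤ q)
    (zer_comm h2 fun q => if c ≤ q then 1 else 0).symm
  obtain ⟨τ, rfl, -, h3⟩ := ht
  have hc : Commute (Eof fun i => c ≤ hh P wt ζ i) (dU τ).val := Matrix.commute_diagonal _ _
  rw [e, Units.val_mul, DE_mul_comm Eof_mul_self hc] at q1 q2
  refine ⟨left_ne_zero_of_mul q1, ?_⟩
  rw [hv.mul _ _ (left_ne_zero_of_mul q1) (right_ne_zero_of_mul q1), dU_val, DE_diagonal,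
    mulv_prod hv.mul _ fun i _ => Units.ne_zero _] at q2
  simp only [h3] at q2
  simp only [tS_apply, hh_sub, sum_sub_distrib] at q2 ⊢
  linarith

theorem AS.invts (hpw : Pw v pw) {ν₀ : N} (H₀ : NP hv pw φ₀ 1 (hh P wt ν₀))
    (f₀ : ∀ a ∈ Γ, a.coweightMap ν₀ = ν₀) {u t k : GL n Ω} (hu : u ∈ Gp G I) (ht : t ∈ G)
    (rt : ∀ τ ∈ I, acu τ t = t) {x : N} (tt : Tor P wt v x t) (hk : k ∈ G) {ν : N}
    (hν : ∀ i ∈ b.support, 0 ≤ P.root' i ν)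
    (h1 : ∀ τ ∈ I, ac τ (ac (inl k) (DD P wt Ω ν)) = ac (inl k) (DD P wt Ω ν))
    (h2 : ac (inl (u * t) * φ₀) (ac (inl k) (DD P wt Ω ν)) = ac (inl k) (DD P wt Ω ν))
    (H : NP hv pw (inl (u * t) * φ₀) k (hh P wt ν)) :
    (∀ a ∈ Γ, a.coweightMap ν = ν) ∧ ∃ q ∈ QL P, avg Γ (x + q) + ν₀ - ν ∈
      Submodule.span ℚ (P.coroot '' {i | i ∈ b.support ∧ P.root' i ν = 0}) := by
  have key : ∀ (φ : SL n Ω) (a : P.Aut), a ∈ Γ → (∀ g ∈ G, acu φ g ∈ G) →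
      Nrm P wt φ a.coweightMap → ∀ g ∈ G, ac (inl g * φ) (ac (inl k) (DD P wt Ω ν)) =
        ac (inl k) (DD P wt Ω ν) → a.coweightMap ν = ν := fun φ a ha s1 s2 g hg e => by
    refine A.ds.conj_dom b (k := k⁻¹ * g * acu φ k) (mul_mem (mul_mem (inv_mem hk) hg) (s1 k hk))
      ?_ (fun i hi => by rw [root_act]; exact hν _ (A.su.stab a ha i hi)) hν
    rw [← s2, map_mul, map_mul, ac_mul, ac_mul, ← ac_ac_inl, ← ac_mul (inl g), e, map_inv,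
      ac_inv_ac]
  have hg := mul_mem (Gp_mem hu).1 ht
  have f1 : ∀ τ ∈ I, ac τ (DD P wt Ω ν) = DD P wt Ω ν := fun τ hτ => by
    obtain ⟨a, ha, s2⟩ := A.act τ hτ
    rw [s2, key τ a ha (A.stab τ hτ) s2 1 (one_mem _) (by simpa using h1 τ hτ)]
  have f2 := A.fix f1 (key φ₀ a₀ A.mem₀ A.stab₀ A.act₀ _ hg h2)
  refine ⟨f2, ?_⟩
  obtain ⟨k', hk', e⟩ := A.ds.conj_rat A.stab A.desc f1 hk h1
  have H1 := (H.conj ((Iso.inl _).mul A.iso₀) k').zer (ac_inl_iff.mp (by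
    rw [map_mul, ac_mul, map_inv]
    exact (congrArg (ac (inl k')⁻¹) e.symm).trans (ac_inv_ac _ _)))
  set u₁ := k'⁻¹ * u * (t * acu φ₀ k' * t⁻¹) with hu₁
  have e1 : (inl k')⁻¹ * (inl (u * t) * φ₀) * inl k' = inl (u₁ * t) * φ₀ := by
    simp only [hu₁, map_mul, map_inv, inl_acu]; group
  have hu₁' : u₁ ∈ Gp G I :=
    mul_mem (mul_mem (Gp_inv hk') hu) (Gp_conj ht rt (A.Gp_frob hk'))
  rw [e1] at H1
  have z1 : Zer (hh P wt ν) (u₁ * t).val := ac_inl_iff.mp (by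
    have : ac (inl (u₁ * t) * φ₀) (DD P wt Ω ν) = DD P wt Ω ν := by
      rw [← e1, ac_mul, ac_mul, e, h2, ← e, ac_inv_ac]
    rwa [ac_mul, A.act₀, f2 _ A.mem₀] at this)
  obtain ⟨q, hq, h3⟩ := A.correct hv hu₁' (w := ν - ν₀ - avg Γ x) (J := {i | P.root' i ν = 0})
    (fun a ha => by rw [map_sub, map_sub, f2 a ha, f₀ a ha, act_avg Γ ha])
    (fun a ha i hi => by
      change P.root' _ ν = 0
      rw [← root_act, f2 a ha]; exact hi)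
    (fun ζ s1 s2 c => by
      rw [map_sub, A.tS_avg s1, ← map_sub]
      exact A.minor hpw A.iso₀ H₀ H1 (by rw [A.act₀, s1 _ A.mem₀])
        (A.ds.zer_of_zer (fun i => root'_facet hν s2)
          (A.ds.mem_iff.mpr (mul_mem (Gp_mem hu₁').1 ht)) z1) tt rfl c)
  refine ⟨q, hq, ?_⟩
  have e3 : avg Γ (x + q) + ν₀ - ν = -(ν - ν₀ - avg Γ x - avg Γ q) := by rw [avg_add]; abel
  rw [e3]
  exact neg_mem h3

omit [Finite Γ] [IsAlgClosed Ω] in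
lemma AS.lift {ρ : N} (hρ : ∀ i ∈ b.support, P.root' i ρ = 1)
    (hρ' : ∀ a ∈ GI wt I Γ, a.coweightMap ρ = ρ) (l : List ι)
    (hl : ∀ a ∈ GI wt I Γ, a.coweightMap (wN P l ρ) = wN P l ρ) :
    ∃ k ∈ Gp G I, Nrm P wt (inl k) (wN P l) := by
  obtain ⟨w, h1, -, h2⟩ := A.ds.exists_NW (E := Ω) l
  obtain ⟨k, hk, e⟩ := A.ds.conj_rat A.stab A.desc (A.fx_iff.mpr hρ') (A.ds.mem_iff.mp h1) (by
    rw [h2]; exact A.fx_iff.mpr hl)
  refine ⟨k, hk, ?_⟩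
  have h3 : Nrm P wt (inl (w⁻¹ * k)) id := nrm_iff_zer.mpr fun x => A.ds.zer_of_zer
    (fun i h => absurd h (reg_ne (b := b) (fun j hj => by rw [hρ j hj]; exact one_pos) i))
    (mul_mem (inv_mem h1) (A.ds.mem_iff.mpr (Gp_mem hk).1)) (ac_inl_iff.mp (by
      rw [map_mul, ac_mul, map_inv]
      exact (congrArg (ac (inl w)⁻¹) e).trans (ac_inv_ac _ _)))
  have := h2.mul h3
  rwa [← map_mul, mul_inv_cancel_left] at this

theorem AS.attain (hpw : Pw v pw) {ν₀ : N} (H₀ : NP hv pw φ₀ 1 (hh P wt ν₀))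
    (f₀ : ∀ a ∈ Γ, a.coweightMap ν₀ = ν₀) (κ : GL n Ω → N → Prop)
    (hT : ∀ x ∈ lat P wt, ∃ t ∈ G, (∀ τ ∈ I, acu τ t = t) ∧ κ t x ∧
      ∃ x', Tor P wt v x' t ∧ avg Γ x' = avg Γ x)
    {ν : N} (fν : ∀ a ∈ Γ, a.coweightMap ν = ν) {x : N} (hx : x ∈ lat P wt)
    (hs : avg Γ x + ν₀ - ν ∈
      Submodule.span ℚ (P.coroot '' {i | i ∈ b.support ∧ P.root' i ν = 0})) :
    ∃ q ∈ QL P, ∃ t ∈ G, ∃ u ∈ Gp G I, (∀ τ ∈ I, acu τ t = t) ∧ κ t (x - q) ∧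
      ac (inl (u * t) * φ₀) (DD P wt Ω ν) = DD P wt Ω ν ∧
      NP hv pw (inl (u * t) * φ₀) 1 (hh P wt ν) := by
  obtain ⟨ρ, r1, r2⟩ := exists_coweight b (fun _ => 1)
  have r3 := A.su.fix_of_root r1 fun a ha i hi => by rw [r2 _ (A.su.stab a ha i hi), r2 i hi]
  set J := b.support.filter fun i => P.root' i ν = 0 with hJ
  have hJΓ : ∀ a ∈ Γ, ∀ i ∈ J, a.indexEquiv i ∈ J := fun a ha i hi =>
    mem_filter.mpr ⟨A.su.stab a ha i (mem_filter.mp hi).1, by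
      rw [← root_act, fν a ha]; exact (mem_filter.mp hi).2⟩
  obtain ⟨l, ⟨u, hu, hn⟩, l1, l2⟩ := A.su.ell (Γ' := GI wt I Γ) (fun a ha => ha.1) r2
    (fun a ha => r3 a ha.1) (fun l => ∃ k ∈ Gp G I, Nrm P wt (inl k) (wN P l))
    ⟨1, one_mem _, by rw [map_one]; exact Nrm.one⟩ (by
      rintro l l' ⟨k, a1, a2⟩ ⟨k', b1, b2⟩
      exact ⟨k * k', mul_mem a1 b1, map_mul (inl : GL n Ω →* SL n Ω) k k' ▸
        (a2.mul b2).congr fun x => (wN_append l l' x).symm⟩)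
    (A.lift r2 fun a ha => r3 a ha.1) J (filter_subset _ _) hJΓ
  have hzer : ∀ ζ, (∀ i ∈ J, P.root' i ζ = 0) → Zer (hh P wt ζ) u.val := fun ζ h =>
    ac_inl_iff.mp ((hn ζ).trans (by rw [wN_fix fun i hi => h i (l1 i hi)]; rfl))
  have newt : ∀ t ∈ G, (∀ τ ∈ I, acu τ t = t) → ∀ x', Tor P wt v x' t →
      ∃ ν₁, NP hv pw (inl (u * t) * φ₀) 1 (hh P wt ν₁) ∧ (∀ a ∈ Γ, a.coweightMap ν₁ = ν₁) ∧
        ∀ i ∈ J, P.root' i ν₁ = 0 := by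
    intro t ht rt x' tt
    have n1 : Nrm P wt (inl (u * t) * φ₀) (wN P l ∘ₗ a₀.coweightMap) := by
      rw [map_mul]; exact (hn.mul tt.nrm).mul A.act₀
    obtain ⟨s₁, p1, m1⟩ := n1.fin
    obtain ⟨s₂, p2, m2⟩ := A.act₀.fin
    have m3 := m1.pow_id s₂
    have m4 := m2.pow_id s₁
    rw [← pow_mul] at m3 m4
    rw [mul_comm] at m4
    have hP : ∀ j, PP φ₀ (u * t) j ∈ G ∧ ∀ τ ∈ I, acu τ (PP φ₀ (u * t) j) = PP φ₀ (u * t) j := by
      intro j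
      induction j with
      | zero => exact ⟨one_mem _, fun τ _ => map_one _⟩
      | succ j ih =>
        exact ⟨mul_mem (mul_mem (Gp_mem hu).1 ht) (A.stab₀ _ ih.1), fun τ hτ => by
          rw [PP, map_mul, map_mul, (Gp_mem hu).2 τ hτ, rt τ hτ, A.rat_acu ih.2 τ hτ]⟩
    have m5 : Nrm P wt (inl (PP φ₀ (u * t) (s₁ * s₂))) id := by
      have := m3.mul (m4.inv (a' := id) fun _ => rfl)
      rwa [PP_spec, mul_inv_cancel_right] at this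
    obtain ⟨y, hy⟩ := A.ds.cent_tor (reg_ne (b := b) fun j hj => by rw [r2 j hj]; exact one_pos)
      hv.mul (A.ds.mem_iff.mpr (hP _).1) (nrm_iff_zer.mp m5 ρ)
    have H1 := H₀.torus hpw A.iso₀ (Nat.mul_pos p1 p2) m4 hy
    set ν₁ := ν₀ + ((s₁ * s₂ : ℕ) : ℚ)⁻¹ • y with hν₁
    have f1 : ∀ a ∈ GI wt I Γ, a.coweightMap ν₁ = ν₁ := by
      rintro a ⟨ha, τ, hτ, h⟩
      have := h.tor (cw_surj a) (A.iso τ hτ) hy
      rw [(hP _).2 τ hτ] at this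
      rw [hν₁, map_add, map_smul, f₀ a ha, this.unique A.ds.span hy]
    have f2 : wN P l (a₀.coweightMap ν₁) = ν₁ :=
      H1.fix hpw A.ds.span ((Iso.inl _).mul A.iso₀) n1 ((wN_surj l).comp (cw_surj a₀))
    obtain ⟨f3, f4⟩ := (l2 (a₀.coweightMap ν₁) (A.fx_iff.mp (by
      rw [← A.act₀]; exact A.rat_ac (A.fx_iff.mpr f1)))).2 fun i _ => by
        rw [f2, map_sub, A.su.orb_act A.mem₀, sub_self]
    have f5 : a₀.coweightMap ν₁ = ν₁ := f3.symm.trans f2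
    have f6 := A.fix (A.fx_iff.mpr f1) f5
    refine ⟨ν₁, H1, f6, fun i hi => ?_⟩
    obtain ⟨j, hj, h⟩ := f4 i hi
    rwa [f5, root_O hj f6] at h
  obtain ⟨ν₁, H1, f1, c1⟩ := newt 1 (one_mem _) (fun τ _ => map_one _) 0 (Tor.one hv.mul)
  have mi := fun ζ (s1 : ∀ a ∈ Γ, a.coweightMap ζ = ζ) (s2 : ∀ i ∈ J, P.root' i ζ = 0) c =>
    A.minor hpw A.iso₀ H₀ H1 (ζ := ζ) (by rw [A.act₀, s1 _ A.mem₀]) (u := u)
      (by simpa using hzer ζ s2) (Tor.one hv.mul) rfl c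
  obtain ⟨q, hq, h3⟩ := A.correct hv hu (w := ν₁ - ν₀) (J := J)
    (fun a ha => by rw [map_sub, f1 a ha, f₀ a ha]) hJΓ (fun ζ s1 s2 c => by
      simpa using mi ζ s1 (fun i hi => s2 i (mem_filter.mp hi).1 hi) c)
  have hqL : q ∈ lat P wt := (AddSubgroup.closure_le _).mpr (by
    rintro _ ⟨i, rfl⟩; exact A.su.co i) hq
  obtain ⟨t, ht, rt, hκ, x', tt, hx'⟩ := hT (x - q) (sub_mem hx hqL)
  obtain ⟨ν₂, H2, f2, c2⟩ := newt t ht rt x' tt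
  have s1 : ∀ a ∈ Γ, a.coweightMap (ν₂ - ν) = ν₂ - ν := fun a ha => by
    rw [map_sub, f2 a ha, fν a ha]
  have s2 : ∀ i ∈ J, P.root' i (ν₂ - ν) = 0 := fun i hi => by
    rw [map_sub, c2 i hi, (mem_filter.mp hi).2, sub_zero]
  have e : ν₂ - ν = 0 := BB_self (P := P) A.ds.span (BB_zero fun c => by
    have a1 := (mi _ s1 s2 c).2
    have a2 := (A.minor hpw A.iso₀ H₀ H2 (ζ := ν₂ - ν) (by rw [A.act₀, s1 _ A.mem₀]) (u := u)
      ((hzer _ s2).mul (tt.zer _)) tt rfl c).2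
    have a3 := A.ds.tS_span (ζ := ν₂ - ν) c (fun i hi => s2 i hi.2) h3
    have a4 := A.ds.tS_span (ζ := ν₂ - ν) c (fun i hi => s2 i (mem_filter.mpr hi)) hs
    have a5 := A.tS_avg s1 c x'
    rw [hx', avg_sub] at a5
    generalize tS P wt (ν₂ - ν) c = T at *
    simp only [map_sub, map_add, map_zero] at a1 a2 a3 a4 a5 ⊢
    linarith)
  rw [sub_eq_zero] at e
  subst e
  refine ⟨q, hq, t, ht, u, hu, rt, hκ, ?_, H2⟩
  rw [ac_mul, A.act₀, fν _ A.mem₀]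
  exact ac_inl_iff.mpr ((hzer _ c2).mul (tt.zer _))

end Pool.Agent.P.MP_7d29e8_ag
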