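import Pool.Agent.P.MP_7d29e8_ag.HCell

set_option autoImplicit false

/-! The big cell decomposition and centralisers. -/

namespace Pool.Agent.P.MP_7d29e8_ag

open Finset
open scoped Classical

variable {Ω : Type} [Field Ω] [CharZero Ω] {n : Type} [Fintype n] [DecidableEq n]
  {ι M N : Type} [AddCommGroup M] [Module ℚ M] [AddCommGroup N] [Module ℚ N]
  {P : RootPairing ι ℚ M N} {wt : n → M} {E : Type} [Field E] [CharZero E] [Algebra Ω E]

lemma delta_mul_nn {R : Type} [CommRing R] {h : n → ℚ} {u : Matrix n n R} (hu : NN h u)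
    (g : Matrix n n R) : delta h (g * u) = delta h g * delta h u := by
  simp only [delta, ← prod_mul_distrib]
  exact prod_congr rfl fun j _ =>
    DE_mul_right Eof_mul_self (Eof_up (fun i k h1 h2 => h2.trans_le h1) hu) g

lemma prod_zpow_eq_zpow_sum {A α : Type} [CommGroup A] (t : A) (s : Finset α) (f : α → ℤ) :
    ∏ i ∈ s, t ^ f i = t ^ ∑ i ∈ s, f i := by
  induction s using Finset.induction_on with
  | empty => simp
  | insert a s ha ih => rw [prod_insert ha, sum_insert ha, ih, zpow_add]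

lemma delta_one {R : Type} [CommRing R] (h : n → ℚ) : delta h (1 : Matrix n n R) = 1 := by
  simp [delta, DE_one Eof_mul_self]

omit [CharZero Ω] [CharZero E] in
lemma ev_delta (h : n → ℚ) (γ : Matrix n n E) :
    ev γ (delta h (gen Ω n)) = delta h γ ∧ (Qnum h (gen Ω n)).map (ev (Ω := Ω) γ) = Qnum h γ := by
  have h1 := delta_map (ev (Ω := Ω) γ).toRingHom h (gen Ω n)
  have h2 := Qnum_map (ev (Ω := Ω) γ).toRingHom h (gen Ω n)
  have e : (gen Ω n).map (ev (Ω := Ω) γ).toRingHom = γ := gen_map γ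
  rw [e] at h1 h2
  exact ⟨h1.symm, h2.symm⟩

lemma move_nat {h : n → ℚ} {l : List (Matrix n n Ω)} (hl : ∀ X ∈ l, IsNilpotent X) :
    ∀ g : Matrix n n Ω, (∃ a ∈ SLi l, delta h (g * a.val) ≠ 0) →
      ∃ a ∈ Submonoid.closure {u : GL n Ω | ∃ X ∈ l, ∃ k : ℕ, u = ex ((k : Ω) • X)},
        delta h (g * a.val) ≠ 0 := by
  induction l with
  | nil =>
    rintro g ⟨_, rfl, h1⟩
    exact ⟨1, one_mem _, h1⟩
  | cons X l ih =>
    rintro g ⟨_, ⟨t, s, hs, rfl⟩, h1⟩
    have hX := hl X List.mem_cons_self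
    obtain ⟨s', hs', h2⟩ := ih (fun Y hY => hl Y (List.mem_cons_of_mem _ hY))
      (g * (ex (t • X)).val) ⟨s, hs, by simpa [mul_assoc] using h1⟩
    let q : Polynomial Ω :=
      delta h (g.map Polynomial.C * xp X (Polynomial.X : Polynomial Ω) * s'.val.map Polynomial.C)
    have hq : ∀ a : Ω, q.eval a = delta h (g * (ex (a • X)).val * s'.val) := fun a => by
      have h3 := delta_map (Polynomial.evalRingHom a) h
        (g.map Polynomial.C * xp X (Polynomial.X : Polynomial Ω) * s'.val.map Polynomial.C)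
      have h4 := xp_map hX (Polynomial.X : Polynomial Ω) (Polynomial.aeval a)
      rw [Polynomial.aeval_X, Polynomial.coe_aeval_eq_eval, xp_self hX] at h4
      have e : ∀ Z : Matrix n n Ω, (Z.map Polynomial.C).map (Polynomial.evalRingHom a) = Z :=
        fun Z => by ext; simp
      rw [Matrix.map_mul, Matrix.map_mul, e, e, Polynomial.coe_evalRingHom, h4] at h3
      exact h3.symm
    obtain ⟨k, hk⟩ : ∃ k : ℕ, q.eval (k : Ω) ≠ 0 := by
      by_contra hc
      push Not at hc
      have : q = 0 := Polynomial.eq_zero_of_infinite_isRoot _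
        ((Set.infinite_range_of_injective Nat.cast_injective).mono (by
          rintro _ ⟨k, rfl⟩; exact hc k))
      exact h2 (by rw [← hq, this, Polynomial.eval_zero])
    refine ⟨ex ((k : Ω) • X) * s', mul_mem (Submonoid.subset_closure
      ⟨X, List.mem_cons_self, k, rfl⟩) (Submonoid.closure_mono ?_ hs'), ?_⟩
    · rintro _ ⟨Y, hY, k, rfl⟩
      exact ⟨Y, List.mem_cons_of_mem _ hY, k, rfl⟩
    · rwa [Units.val_mul, ← mul_assoc, ← hq]

/-- an element of the torus with prescribed valuations -/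
def Tor (P : RootPairing ι ℚ M N) (wt : n → M) (o : E → ℚ) (x : N) (g : GL n E) : Prop :=
  ∃ t : n → Eˣ, g = dU t ∧ (∀ i l, wt i = wt l → t i = t l) ∧ ∀ i, o (t i) = hh P wt x i

omit [DecidableEq n] in
lemma exists_of_rel (hs : Submodule.span ℚ (Set.range wt) = ⊤) (c : n → ℚ)
    (hc : ∀ a : n → ℤ, ∑ i, a i • wt i = 0 → ∑ i, a i * c i = 0) : ∃ x, ∀ i, c i = hh P wt x i := by
  let φ : (n → ℚ) →ₗ[ℚ] M := Fintype.linearCombination ℚ wt
  let ψ : (n → ℚ) →ₗ[ℚ] ℚ := Fintype.linearCombination ℚ c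
  have hφ : Function.Surjective φ := by
    rw [← LinearMap.range_eq_top, Fintype.range_linearCombination, hs]
  have hk : LinearMap.ker φ ≤ LinearMap.ker ψ := by
    intro a ha
    obtain ⟨r, hr⟩ : ∃ r : ℕ, 0 < r ∧ ∀ i, ∃ z : ℤ, r * a i = z := by
      refine ⟨∏ i, (a i).den, prod_pos fun i _ => Rat.den_pos _, fun i =>
        ⟨(∏ j ∈ univ.erase i, (a j).den : ℕ) * (a i).num, ?_⟩⟩
      rw [← mul_prod_erase _ _ (mem_univ i)]
      push_cast
      rw [mul_right_comm, Rat.den_mul_eq_num, mul_comm]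
    choose z hz using hr.2
    have h1 : ∑ i, a i • wt i = 0 := by simpa [φ, Fintype.linearCombination_apply] using ha
    have h2 := hc z (by
      simp only [← Int.cast_smul_eq_zsmul ℚ, ← hz, mul_smul, ← smul_sum, h1, smul_zero])
    simp only [← hz, mul_assoc, ← mul_sum] at h2
    have h3 : (r : ℚ) ≠ 0 := by exact_mod_cast hr.1.ne'
    simpa [ψ, Fintype.linearCombination_apply, h3] using h2
  obtain ⟨x, hx⟩ := (LinearMap.IsPerfPair.bijective_right P.toLinearMap).2
    ((LinearMap.ker φ).liftQ ψ hk ∘ₗ (φ.quotKerEquivOfSurjective hφ).symm.toLinearMap)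
  refine ⟨x, fun i => ?_⟩
  have h1 := LinearMap.congr_fun hx (φ (Pi.single i 1))
  have h2 : φ (Pi.single i 1) = wt i := by simp [φ]
  have h3 : ψ (Pi.single i 1) = c i := by simp [ψ]
  rw [LinearMap.comp_apply, LinearEquiv.coe_coe, LinearMap.quotKerEquivOfSurjective_symm_apply,
    Submodule.liftQ_apply, h2, h3] at h1
  exact h1.symm

variable {G : Subgroup (GL n Ω)} (D : DS G P wt) [P.IsReduced] [Finite ι]
include D

omit [CharZero E] [Finite ι] in
lemma DS.cl_zer {x ζ : N} (hζ : ∀ i, P.root' i x = 0 → P.root' i ζ = 0) {m : Matrix n n E}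
    (hm : m ∈ Cl (Units.val '' (Mid G P wt x : Set (GL n Ω))) E) : Zer (hh P wt ζ) m := by
  intro i j hij
  have := hm (MvPolynomial.X (i, j)) (by
    rintro _ ⟨a, ha, rfl⟩
    simpa using (D.mid_zer hζ ha).2 i j hij)
  simpa using this

omit [CharZero E] in
theorem DS.bc (x : N) {g : GL n E} (hg : g ∈ GE G E) (hδ : delta (hh P wt x) g.val ≠ 0) :
    ∃ a ∈ UU G E (-hh P wt x), ∃ m ∈ GE G E, ∃ c ∈ UU G E (hh P wt x),
      m.val ∈ Cl (Units.val '' (Mid G P wt x : Set (GL n Ω))) E ∧ g = a * m * c := by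
  set h := hh P wt x with hh'
  obtain ⟨l, hl, hs⟩ := exists_list G (-h)
  have hg' : g.val ∈ Cl (Cel G P wt x l) E := Cl.mono (D.dense_cell x hl hs) hg
  have key : ∀ s ∈ Cel G P wt x l, delta h s ≠ 0 → cinv h s ∈ GS G ∧
      pi0 h (s * cinv h s) ∈ Units.val '' (Mid G P wt x : Set (GL n Ω)) := by
    rintro _ ⟨a, ha, m, hm, c, hc, rfl⟩ hδ
    have ha' := (SLi_sub hl ha).2
    have hm' := (D.mid_zer (fun _ h => h) hm).2
    have e : (a * m * c).val * (c⁻¹).val = a.val * m.val := by simp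
    have h1 : cinv h (a * m * c).val = (c⁻¹).val :=
      cinv_unique hδ (inv_mem hc).2 (by rw [e]; exact (NN.of_unip ha').mul hm'.neg'.nn)
    refine ⟨⟨_, D.mem_iff.mp (inv_mem hc.1), h1.symm⟩, m, hm, ?_⟩
    rw [h1, e]
    refine (pi0_eq hm' ?_).symm
    have := ha'.mul_nn hm'.neg'.nn
    rwa [sub_mul, one_mul] at this
  have h1 : cinv h g.val ∈ Cl (GS G) E := by
    have := Cl.rat (S' := GS G) (Qnum h (gen Ω n)) (delta h (gen Ω n)) (fun s hs h0 => by
      rw [(ev_delta h s).1] at h0 ⊢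
      rw [(ev_delta h s).2]
      exact Cl.self (key s hs h0).1) hg' (by rwa [(ev_delta h _).1])
    rwa [(ev_delta h _).1, (ev_delta h _).2] at this
  have e2 : ∀ (E : Type) [Field E] [Algebra Ω E] (s : Matrix n n E),
      (ev s (delta h (gen Ω n)))⁻¹ • (pi0 h (gen Ω n * Qnum h (gen Ω n))).map (ev (Ω := Ω) s) =
        pi0 h (s * cinv h s) := by
    intro E _ _ s
    have : s * cinv h s = (delta h s)⁻¹ • (gen Ω n * Qnum h (gen Ω n)).map (ev (Ω := Ω) s) := by
      rw [Matrix.map_mul, gen_map, (ev_delta h s).2, cinv, Matrix.mul_smul]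
    rw [this, (ev_delta h s).1]
    ext i j
    by_cases hij : h i = h j <;> simp [pi0, hij, -Matrix.map_mul]
  have h2 : pi0 h (g.val * cinv h g.val) ∈
      Cl (Units.val '' (Mid G P wt x : Set (GL n Ω))) E := by
    rw [← e2]
    exact Cl.rat _ _ (fun s hs h0 => by
      rw [e2]; rw [(ev_delta h s).1] at h0
      exact Cl.self (key s hs h0).2) hg' (by rwa [(ev_delta h _).1])
  obtain ⟨c, hc⟩ := (cinv_pos hδ).unip_inv.1
  have hcU : c ∈ UU G E h := ⟨by change c.val ∈ Cl _ _; rwa [hc], by rw [hc]; exact cinv_pos hδ⟩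
  have h3 : NN (-h) (g * c).val := by rw [Units.val_mul, hc]; exact mul_cinv hδ
  obtain ⟨m, hm⟩ : IsUnit (pi0 h (g * c).val) := by
    rw [Matrix.isUnit_iff_isUnit_det, h3.det_pi0, ← Matrix.isUnit_iff_isUnit_det]
    exact (g * c).isUnit
  rw [← hc, ← Units.val_mul, ← hm] at h2
  have hmG : m ∈ GE G E := Cl.mono (by
    rintro _ ⟨a, ha, rfl⟩; exact (D.mid_zer (fun _ h => h) ha).1) h2
  refine ⟨g * c * m⁻¹, ⟨mul_mem (mul_mem hg hcU.1) (inv_mem hmG), ?_⟩, m, hmG, c⁻¹, inv_mem hcU,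
    h2, by group⟩
  have h4 : Zer h (m⁻¹).val := by
    rw [Matrix.coe_units_inv]; exact (hm ▸ pi0_zer _ : Zer h m.val).inv m.isUnit
  have := h3.sub_pi0.mul_nn h4.neg'.nn
  rwa [← hm, sub_mul, Units.mul_inv, ← Units.val_mul] at this

omit [CharZero E] in
theorem DS.move (x : N) {l : List (Matrix n n Ω)}
    (hl : ∀ X ∈ l, X ∈ lie (GS G) Ω ∧ Pos (-hh P wt x) X)
    (hs : ∀ X ∈ lie (GS G) Ω, Pos (-hh P wt x) X → X ∈ Submodule.span Ω {Y | Y ∈ l})
    {g : GL n E} (hg : g ∈ GE G E) :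
    ∃ a ∈ SLi l, delta (hh P wt x) (g.val * a.val.map (algebraMap Ω E)) ≠ 0 := by
  by_contra hc
  push Not at hc
  have key : ∀ γ : Matrix n n E, MvPolynomial.eval (fun q : n × n => γ q.1 q.2)
      (delta (hh P wt x) (g.val.map MvPolynomial.C * gen E n)) = delta (hh P wt x) (g.val * γ) := by
    intro γ
    rw [← delta_map, Matrix.map_mul]
    congr 2 <;> ext i j <;> simp [gen]
  have := Cl.ext_coeff (Cl.mono (D.dense_cell x hl hs) (inv_mem hg)) _ (by
    rintro _ ⟨a, ha, m, hm, c, hc', rfl⟩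
    refine (key ((a * m * c).val.map (algebraMap Ω E))).trans ?_
    rw [mul_assoc a, Units.val_mul, Matrix.map_mul, ← mul_assoc, delta_mul_nn, hc a ha, zero_mul]
    exact Sup.map ((D.mid_zer (fun _ h => h) hm).2.nn.mul (NN.of_unip hc'.2)) _)
  rw [key, Units.mul_inv, delta_one] at this
  exact one_ne_zero this

omit [CharZero E] in
lemma DS.cent_cl {x : N} {g : GL n E} (hg : g ∈ GE G E) (hz : Zer (hh P wt x) g.val) :
    g.val ∈ Cl (Units.val '' (Mid G P wt x : Set (GL n Ω))) E := by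
  have h0 : Pos (hh P wt x) ((1 : Matrix n n E) - 1) := by simpa using Sup.zero
  have h1 : Pos (-hh P wt x) ((1 : Matrix n n E) - 1) := by simpa using Sup.zero
  obtain ⟨a, ha, m, -, c, hc, hm, e⟩ := D.bc x hg (by simpa using delta_cell h1 hz g.isUnit h0)
  have := cell_unique h1 hz g.isUnit h0 ha.2 (D.cl_zer (fun _ h => h) hm) hc.2 (by
    rw [one_mul, mul_one, e]; rfl)
  rwa [this.2.1]

omit [CharZero E] in
theorem DS.zer_of_zer {x ζ : N} (hζ : ∀ i, P.root' i x = 0 → P.root' i ζ = 0) {g : GL n E}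
    (hg : g ∈ GE G E) (hz : Zer (hh P wt x) g.val) : Zer (hh P wt ζ) g.val :=
  D.cl_zer hζ (D.cent_cl hg hz)

omit [CharZero E] in
theorem DS.cent_tor {ρ : N} (hρ : ∀ i, P.root' i ρ ≠ 0) {o : E → ℚ}
    (ho : ∀ a b, a ≠ 0 → b ≠ 0 → o (a * b) = o a + o b) {g : GL n E}
    (hg : g ∈ GE G E) (hz : Zer (hh P wt ρ) g.val) : ∃ x, Tor P wt o x g := by
  have hcl := D.cent_cl hg hz
  have key : ∀ m ∈ Mid G P wt ρ, ∃ t : n → Ωˣ, m = dU t ∧
      ∀ a : n → ℤ, ∑ i, a i • wt i = 0 → ∏ i, t i ^ a i = 1 := by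
    intro m hm
    induction hm using Submonoid.closure_induction with
    | mem m hm =>
      rcases hm with ⟨z, hz, t, rfl⟩ | ⟨i, hi, -⟩
      · refine ⟨_, rfl, fun a ha => ?_⟩
        have h1 : ∑ i, ⌊hh P wt z i⌋ * a i = 0 := by
          choose k hk using mem_lat.mp hz
          have := congrArg (fun m => P.toLinearMap m z) ha
          simp only [map_sum, map_zsmul, LinearMap.sum_apply, LinearMap.smul_apply, map_zero,
            LinearMap.zero_apply, zsmul_eq_mul] at this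
          simp only [hh] at hk
          simp only [hk] at this
          simp only [hh, hk, Int.floor_intCast, mul_comm]
          exact_mod_cast this
        simp only [← zpow_mul]
        rw [prod_zpow_eq_zpow_sum, h1, zpow_zero]
      · exact absurd hi (hρ i)
    | one => exact ⟨1, (map_one _).symm, fun a _ => by simp⟩
    | mul a b _ _ ha hb =>
      obtain ⟨t, rfl, ht⟩ := ha
      obtain ⟨u, rfl, hu⟩ := hb
      exact ⟨t * u, (map_mul _ _ _).symm, fun a ha => by
        simp [mul_zpow, prod_mul_distrib, ht a ha, hu a ha]⟩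
  have hd : ∀ i j, i ≠ j → g.val i j = 0 := fun i j hij => by
    have := hcl (MvPolynomial.X (i, j)) (by
      rintro _ ⟨a, ha, rfl⟩
      obtain ⟨t, rfl, -⟩ := key a ha
      simp [hij])
    simpa using this
  have hd' : g.val = Matrix.diagonal fun i => g.val i i := by
    ext i j
    by_cases h : i = j
    · subst h; simp
    · simp [h, hd i j h]
  have h0 : ∀ i, g.val i i ≠ 0 := fun i => by
    have := ((Matrix.isUnit_iff_isUnit_det _).mp g.isUnit).ne_zero
    rw [hd', Matrix.det_diagonal] at this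
    exact prod_ne_zero_iff.mp this i (mem_univ i)
  have hsplit : ∀ {A : Type} [CommGroup A] (t : n → A) (a : n → ℤ), ∏ i, t i ^ a i = 1 ↔
      ∏ i, t i ^ (a i).toNat = ∏ i, t i ^ (-a i).toNat := fun t a => by
    rw [← div_eq_one (a := ∏ i, t i ^ (a i).toNat), ← prod_div_distrib]
    have : ∀ i, t i ^ (a i).toNat / t i ^ (-a i).toNat = t i ^ a i := fun i => by
      rw [← zpow_natCast, ← zpow_natCast, div_eq_mul_inv, ← zpow_sub, Int.toNat_sub_toNat_neg]
    simp only [this]
  have hrel : ∀ a : n → ℤ, ∑ i, a i • wt i = 0 → ∏ i, Units.mk0 _ (h0 i) ^ a i = 1 := by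
    intro a ha
    have := hcl (∏ i, MvPolynomial.X (i, i) ^ (a i).toNat -
      ∏ i, MvPolynomial.X (i, i) ^ (-a i).toNat) (by
      rintro _ ⟨m, hm, rfl⟩
      obtain ⟨t, rfl, ht⟩ := key m hm
      have := congrArg Units.val ((hsplit t a).mp (ht a ha))
      simpa [sub_eq_zero] using this)
    rw [hsplit]
    ext
    simpa [sub_eq_zero] using this
  obtain ⟨x, hx⟩ := exists_of_rel (P := P) D.span (fun i => o (g.val i i)) fun a ha => by
    have := congrArg (fun u : Eˣ => o u) (hrel a ha)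
    simp only [Units.coe_prod, Units.val_zpow_eq_zpow_val, Units.val_mk0, Units.val_one,
      mulv_one ho] at this
    rw [mulv_prod ho _ fun i _ => zpow_ne_zero _ (h0 i)] at this
    simpa only [mulv_zpow ho (h0 _)] using this
  refine ⟨x, fun i => Units.mk0 _ (h0 i), Units.ext hd', fun i l hil => ?_, hx⟩
  have := hrel (Pi.single i 1 - Pi.single l 1) (by simp [sub_smul, Pi.single_apply, hil])
  simp only [Pi.sub_apply, zpow_sub, prod_mul_distrib, prod_inv_distrib, Pi.single_apply] at this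
  simpa [mul_inv_eq_one] using this

end Pool.Agent.P.MP_7d29e8_ag
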