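import Pool.Agent.P.MP_7d29e8_ag.HCl

set_option autoImplicit false

/-! Graded matrices, principal minors and the big cell in `GL n`. -/

namespace Pool.Agent.P.MP_7d29e8_ag

open Finset

variable {n : Type} [Fintype n] [DecidableEq n] {R R' : Type} [CommRing R] [CommRing R']

/-- matrices supported on a relation -/
def Sup (p : n → n → Prop) (Y : Matrix n n R) : Prop := ∀ i j, ¬ p i j → Y i j = 0

section Sup

variable {p q r : n → n → Prop} {Y Z : Matrix n n R}

omit [DecidableEq n] in
lemma Sup.mul (hY : Sup p Y) (hZ : Sup q Z) (h : ∀ i k j, p i k → q k j → r i j) :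
    Sup r (Y * Z) := fun i j hij => by
  rw [Matrix.mul_apply]
  refine sum_eq_zero fun k _ => ?_
  by_cases h1 : p i k
  · rw [hZ k j fun h2 => hij (h i k j h1 h2), mul_zero]
  · rw [hY i k h1, zero_mul]

omit [Fintype n] [DecidableEq n] in
lemma Sup.mono (hY : Sup p Y) (h : ∀ i j, p i j → q i j) : Sup q Y :=
  fun i j hij => hY i j fun h1 => hij (h i j h1)

omit [Fintype n] [DecidableEq n] in
lemma Sup.add (hY : Sup p Y) (hZ : Sup p Z) : Sup p (Y + Z) := fun i j h => by
  simp [hY i j h, hZ i j h]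

omit [Fintype n] [DecidableEq n] in
lemma Sup.neg (hY : Sup p Y) : Sup p (-Y) := fun i j h => by simp [hY i j h]

omit [Fintype n] [DecidableEq n] in
lemma Sup.sub (hY : Sup p Y) (hZ : Sup p Z) : Sup p (Y - Z) := fun i j h => by
  simp [hY i j h, hZ i j h]

omit [Fintype n] [DecidableEq n] in
lemma Sup.smul (hY : Sup p Y) (c : R) : Sup p (c • Y) := fun i j h => by simp [hY i j h]

omit [Fintype n] [DecidableEq n] in
lemma Sup.zero : Sup p (0 : Matrix n n R) := fun _ _ _ => rfl

omit [Fintype n] [DecidableEq n] in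
lemma Sup.sum {α : Type*} (s : Finset α) {f : α → Matrix n n R} (h : ∀ a ∈ s, Sup p (f a)) :
    Sup p (∑ a ∈ s, f a) :=
  sum_induction f (Sup p) (fun _ _ => Sup.add) Sup.zero h

omit [Fintype n] in
lemma Sup.diagonal (h : ∀ i, p i i) (d : n → R) : Sup p (Matrix.diagonal d) := fun i j hij => by
  rw [Matrix.diagonal_apply_ne]; rintro rfl; exact hij (h i)

omit [Fintype n] in
lemma Sup.one (h : ∀ i, p i i) : Sup p (1 : Matrix n n R) := Sup.diagonal h _

omit [Fintype n] [DecidableEq n] in
lemma Sup.map {F : Type*} [FunLike F R R'] [ZeroHomClass F R R'] (hY : Sup p Y) (f : F) :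
    Sup p (Y.map f) := fun i j h => by simp [hY i j h]

end Sup

/-- strictly raising matrices -/
abbrev Pos (h : n → ℚ) (Y : Matrix n n R) : Prop := Sup (fun i j => h j < h i) Y
/-- weakly raising matrices -/
abbrev NN (h : n → ℚ) (Y : Matrix n n R) : Prop := Sup (fun i j => h j ≤ h i) Y
/-- degree zero matrices -/
abbrev Zer (h : n → ℚ) (Y : Matrix n n R) : Prop := Sup (fun i j => h i = h j) Y

section Graded

variable {h : n → ℚ} {Y Z u v : Matrix n n R}

omit [Fintype n] [DecidableEq n] in
lemma Pos.nn (hY : Pos h Y) : NN h Y := hY.mono fun _ _ => le_of_lt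

omit [Fintype n] [DecidableEq n] in
lemma Zer.nn (hY : Zer h Y) : NN h Y := hY.mono fun _ _ e => e.ge

omit [Fintype n] [DecidableEq n] in
lemma Zer.neg' (hY : Zer h Y) : Zer (-h) Y := hY.mono fun _ _ e => by simp [e]

omit [Fintype n] in
lemma NN.one : NN h (1 : Matrix n n R) := Sup.one fun _ => le_rfl

omit [Fintype n] in
lemma NN.of_unip (hu : Pos h (u - 1)) : NN h u := by
  have := hu.nn.add (NN.one (h := h)); simpa using this

omit [DecidableEq n] in
lemma NN.mul (hY : NN h Y) (hZ : NN h Z) : NN h (Y * Z) :=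
  Sup.mul hY hZ fun _ _ _ a b => b.trans a

omit [DecidableEq n] in
lemma Zer.mul (hY : Zer h Y) (hZ : Zer h Z) : Zer h (Y * Z) :=
  Sup.mul hY hZ fun _ _ _ a b => a.trans b

omit [DecidableEq n] in
lemma Pos.mul_nn (hY : Pos h Y) (hZ : NN h Z) : Pos h (Y * Z) :=
  Sup.mul hY hZ fun _ _ _ a b => b.trans_lt a

omit [DecidableEq n] in
lemma NN.mul_pos (hY : NN h Y) (hZ : Pos h Z) : Pos h (Y * Z) :=
  Sup.mul hY hZ fun _ _ _ a b => b.trans_le a

lemma Pos.unip_mul (hu : Pos h (u - 1)) (hv : Pos h (v - 1)) : Pos h (u * v - 1) := by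
  have := (hu.mul_nn (NN.of_unip hv)).add hv
  convert this using 1
  noncomm_ring

lemma Pos.nilpotent (hY : Pos h Y) : IsNilpotent Y := by
  let r : n → ℕ := fun i => (univ.filter fun l => h l < h i).card
  have hr : ∀ i j, h j < h i → r j < r i := fun i j hij =>
    card_lt_card ⟨fun l hl => by
      simp only [mem_filter, mem_univ, true_and] at hl ⊢; exact hl.trans hij,
      fun hs => by simpa using hs (x := j) (by simpa using hij)⟩
  have hk : ∀ k : ℕ, Sup (fun i j => r j + k ≤ r i ∨ k = 0) (Y ^ k) := by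
    intro k
    induction k with
    | zero => exact fun i j hij => absurd (Or.inr rfl) hij
    | succ k ih =>
      rcases Nat.eq_zero_or_pos k with rfl | hk
      · simpa using hY.mono fun i j hij => by have := hr i j hij; omega
      · rw [pow_succ]
        refine Sup.mul ih hY fun i l j h1 h2 => Or.inl ?_
        have := hr l j h2
        omega
  refine ⟨Fintype.card n + 1, Matrix.ext fun i j => hk _ i j ?_⟩
  have : r i ≤ Fintype.card n := card_le_univ _
  omega

lemma Pos.unip_inv (hu : Pos h (u - 1)) : IsUnit u ∧ Pos h (u⁻¹ - 1) := by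
  obtain ⟨N, hN⟩ := Pos.nilpotent (h := h) hu.neg
  set w := ∑ k ∈ range N, (-(u - 1)) ^ k with hw
  have h1 : u * w = 1 := by
    have := mul_neg_geom_sum (-(u - 1)) N
    rw [hN] at this
    simpa [hw] using this
  have hwn : NN h w := Sup.sum _ fun k _ => by
    clear hN hw h1
    rename_i hk
    clear hk
    induction k with
    | zero => simpa using NN.one
    | succ k ih => rw [pow_succ]; exact NN.mul ih (Pos.nn hu.neg)
  refine ⟨IsUnit.of_mul_eq_one _ h1, ?_⟩
  rw [Matrix.inv_eq_right_inv h1]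
  have := (hu.mul_nn hwn).neg
  convert this using 1
  rw [sub_mul, h1]; simp

lemma NN.inv {K : Type} [Field K] {g : Matrix n n K} (hg : NN h g) (hu : IsUnit g) : NN h g⁻¹ := by
  letI := hu.invertible
  have : g.BlockTriangular (-h) := fun i j hij => hg i j (by simpa using hij)
  intro i j hij
  exact Matrix.blockTriangular_inv_of_blockTriangular this (by simpa using hij)

lemma Zer.inv {K : Type} [Field K] {g : Matrix n n K} (hg : Zer h g) (hu : IsUnit g) :
    Zer h g⁻¹ := by
  intro i j hij
  rcases lt_or_gt_of_ne hij with h1 | h1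
  · exact hg.nn.inv hu i j (not_le.mpr h1)
  · exact hg.neg'.nn.inv hu i j (by simpa using h1)

/-- the degree zero part -/
def pi0 (h : n → ℚ) (X : Matrix n n R) : Matrix n n R :=
  Matrix.of fun i j => if h i = h j then X i j else 0

omit [Fintype n] [DecidableEq n] in
lemma pi0_zer (X : Matrix n n R) : Zer h (pi0 h X) := fun i j hij => by simp [pi0, hij]

omit [Fintype n] [DecidableEq n] in
lemma NN.sub_pi0 (hY : NN (-h) Y) : Pos (-h) (Y - pi0 h Y) := fun i j hij => by
  by_cases e : h i = h j
  · simp [pi0, e]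
  · have := hY i j (fun h1 => by
      simp only [Pi.neg_apply, neg_le_neg_iff, neg_lt_neg_iff, not_lt] at h1 hij
      exact e (le_antisymm h1 hij))
    simp [pi0, this]

omit [Fintype n] [DecidableEq n] in
lemma pi0_eq (hZ : Zer h Z) (hY : Pos (-h) (Y - Z)) : pi0 h Y = Z := by
  ext i j
  by_cases e : h i = h j
  · have := hY i j (by simp [e])
    simp only [Matrix.sub_apply, sub_eq_zero] at this
    simp [pi0, e, this]
  · simp [pi0, e, hZ i j e]

lemma NN.det_pi0 (hY : NN (-h) Y) : (pi0 h Y).det = Y.det := by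
  have h1 : Y.BlockTriangular h := fun i j hij => hY i j (by simpa using hij)
  have h2 : (pi0 h Y).BlockTriangular h := fun i j hij => pi0_zer Y i j hij.ne'
  rw [h1.det, h2.det]
  refine prod_congr rfl fun a _ => ?_
  congr 1
  ext ⟨i, hi⟩ ⟨j, hj⟩
  simp [Matrix.toSquareBlock_def, pi0, hi, hj]

end Graded

/-- principal minor attached to an idempotent -/
def DE (E g : Matrix n n R) : R := (E * g * E + (1 - E)).det

section DE

variable {E g u : Matrix n n R}

lemma DE_mul_right (hE : E * E = E) (hu : E * (u * E) = u * E) (g : Matrix n n R) :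
    DE E (g * u) = DE E g * DE E u := by
  rw [DE, DE, DE, ← Matrix.det_mul]
  congr 1
  have h2 : ∀ X : Matrix n n R, E * (E * X) = E * X := fun X => by rw [← mul_assoc, hE]
  simp only [mul_add, add_mul, mul_sub, sub_mul, mul_assoc, h2, hE, hu, mul_one, one_mul]
  abel

lemma DE_mul_left (hE : E * E = E) (hu : E * (u * E) = E * u) (g : Matrix n n R) :
    DE E (u * g) = DE E u * DE E g := by
  rw [DE, DE, DE, ← Matrix.det_mul]
  congr 1
  have h2 : ∀ X : Matrix n n R, E * (E * X) = E * X := fun X => by rw [← mul_assoc, hE]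
  have h3 : ∀ X : Matrix n n R, E * (u * (E * X)) = E * (u * X) := fun X => by
    rw [← mul_assoc u, ← mul_assoc, hu, mul_assoc]
  simp only [mul_add, add_mul, mul_sub, sub_mul, mul_assoc, h2, h3, hE, mul_one, one_mul]
  abel

lemma DE_mul_comm (hE : E * E = E) (hu : Commute E u) (g : Matrix n n R) :
    DE E (g * u) = DE E g * DE E u :=
  DE_mul_right hE (by rw [← mul_assoc, hu.eq, mul_assoc, hE]) g

lemma DE_one (hE : E * E = E) : DE E 1 = 1 := by simp [DE, hE]

lemma det_one_add_nil [IsDomain R] {N : Matrix n n R} (hN : IsNilpotent N) : (1 + N).det = 1 := by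
  have h := (Matrix.isNilpotent_charpoly_sub_pow_of_isNilpotent hN.neg).eq_zero
  have := Matrix.eval_charpoly (-N) 1
  rw [sub_eq_zero.mp h] at this
  simpa using this.symm

lemma DE_unip [IsDomain R] (hE : E * E = E) (hu : IsNilpotent (E * (u - 1) * E)) :
    DE E u = 1 := by
  rw [DE, ← det_one_add_nil hu]
  congr 1
  simp only [mul_sub, sub_mul, mul_one, hE]
  abel

lemma DE_map (f : R →+* R') (E g : Matrix n n R) : DE (E.map f) (g.map f) = f (DE E g) := by
  rw [DE, DE, RingHom.map_det]
  congr 1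
  simp only [← RingHom.mapMatrix_apply, map_add, map_mul, map_sub, map_one]

lemma DE_conj {y y' : Matrix n n R} (hy : y' * y = 1) (E g : Matrix n n R) :
    DE (y * E * y') (y * g * y') = DE E g := by
  have hy' : y * y' = 1 := mul_eq_one_comm.mp hy
  have h2 : ∀ X : Matrix n n R, y' * (y * X) = X := fun X => by rw [← mul_assoc, hy, one_mul]
  have : y * E * y' * (y * g * y') * (y * E * y') + (1 - y * E * y') =
      y * (E * g * E + (1 - E)) * y' := by
    simp only [mul_add, add_mul, mul_sub, sub_mul, mul_assoc, h2, mul_one, hy']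
  rw [DE, this, Matrix.det_mul, Matrix.det_mul, mul_comm, ← mul_assoc, ← Matrix.det_mul, hy]
  simp [DE]

/-- diagonal idempotent -/
def Eof (S : n → Prop) [DecidablePred S] : Matrix n n R :=
  Matrix.diagonal fun i => if S i then 1 else 0

variable {S : n → Prop} [DecidablePred S]

lemma Eof_mul_self : (Eof S : Matrix n n R) * Eof S = Eof S := by
  rw [Eof, Matrix.diagonal_mul_diagonal]
  congr 1; funext i; split_ifs <;> simp

omit [Fintype n] in
lemma Eof_map (f : R →+* R') : (Eof S : Matrix n n R).map f = Eof S := by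
  rw [Eof, Matrix.diagonal_map (map_zero f)]
  congr 1; funext i; split_ifs <;> simp

lemma Eof_mul_apply (X : Matrix n n R) (i j : n) :
    (Eof S * X : Matrix n n R) i j = if S i then X i j else 0 := by
  simp [Eof, Matrix.diagonal_mul]

lemma mul_Eof_apply (X : Matrix n n R) (i j : n) :
    (X * Eof S : Matrix n n R) i j = if S j then X i j else 0 := by
  simp [Eof, Matrix.mul_diagonal]

lemma DE_diagonal (d : n → R) :
    DE (Eof S) (Matrix.diagonal d) = ∏ i with S i, d i := by
  have : Eof S * Matrix.diagonal d * Eof S + (1 - Eof S) =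
      Matrix.diagonal fun i => if S i then d i else 1 := by
    ext i j
    by_cases h : i = j
    · subst h; by_cases hS : S i <;> simp [Eof, hS]
    · simp [Eof, h, Matrix.one_apply]
  rw [DE, this, Matrix.det_diagonal, prod_filter]

lemma Eof_up {h : n → ℚ} (hS : ∀ i j, h j ≤ h i → S j → S i) (hu : NN h u) :
    Eof S * (u * Eof S) = u * Eof S := by
  ext i j
  rw [Eof_mul_apply, mul_Eof_apply]
  by_cases hj : S j
  · by_cases hi : S i
    · simp [hi]
    · simp [hi, hj, hu i j fun h1 => hi (hS i j h1 hj)]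
  · simp [hj]

lemma Eof_down {h : n → ℚ} (hS : ∀ i j, h j ≤ h i → S j → S i) (hu : NN (-h) u) :
    Eof S * (u * Eof S) = Eof S * u := by
  ext i j
  rw [Eof_mul_apply, mul_Eof_apply, Eof_mul_apply]
  by_cases hi : S i
  · by_cases hj : S j
    · simp [hj]
    · simp [hi, hj, hu i j fun h1 => hj (hS j i (by simpa using h1) hi)]
  · simp [hi]

lemma DE_pos [IsDomain R] {h : n → ℚ} (hu : Pos h (u - 1)) : DE (Eof S) u = 1 :=
  DE_unip Eof_mul_self (Pos.nilpotent (h := h)
    ((NN.mul_pos (Sup.diagonal (p := fun i j => h j ≤ h i) (fun _ => le_rfl) _) hu).mul_nn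
      (Sup.diagonal (p := fun i j => h j ≤ h i) (fun _ => le_rfl) _)))

end DE

section Cell

/-- the block used to solve for column `j` -/
def Ablk (h : n → ℚ) (g : Matrix n n R) (j : n) : Matrix n n R :=
  Eof (fun i => h j < h i) * g * Eof (fun i => h j < h i) + (1 - Eof (fun i => h j < h i))

/-- equation of the complement of the big cell -/
def delta (h : n → ℚ) (g : Matrix n n R) : R := ∏ j, DE (Eof fun i => h j < h i) g

/-- numerator of the inverse of the upper unipotent part -/
def Qnum (h : n → ℚ) (g : Matrix n n R) : Matrix n n R :=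
  delta h g • 1 - Matrix.of fun i j => (∏ j' ∈ univ.erase j, (Ablk h g j').det) *
    ((Ablk h g j).adjugate * Eof (fun i => h j < h i) * g : Matrix n n R) i j

lemma delta_map (f : R →+* R') (h : n → ℚ) (g : Matrix n n R) :
    delta h (g.map f) = f (delta h g) := by
  simp only [delta, map_prod, ← DE_map, Eof_map]

lemma Ablk_map (f : R →+* R') (h : n → ℚ) (g : Matrix n n R) (j : n) :
    Ablk h (g.map f) j = f.mapMatrix (Ablk h g j) := by
  simp only [Ablk, map_add, map_mul, map_sub, map_one, RingHom.mapMatrix_apply, Eof_map]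

lemma Qnum_map (f : R →+* R') (h : n → ℚ) (g : Matrix n n R) :
    Qnum h (g.map f) = (Qnum h g).map f := by
  ext i j
  have e : ((Ablk h (g.map f) j).adjugate * Eof (fun i => h j < h i) * g.map f) =
      ((Ablk h g j).adjugate * Eof (fun i => h j < h i) * g).map f := by
    rw [Ablk_map, ← RingHom.map_adjugate, Matrix.map_mul, Matrix.map_mul, Eof_map]; rfl
  simp only [Qnum, Matrix.sub_apply, Matrix.smul_apply, Matrix.of_apply, Matrix.map_apply, e]
  simp only [delta_map, map_sub, map_mul, map_prod, Ablk_map, RingHom.map_det, smul_eq_mul]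
  congr 2
  by_cases hij : i = j <;> simp [Matrix.one_apply, hij]

variable {K : Type} [Field K] {h : n → ℚ} {g : Matrix n n K}

/-- inverse of the upper unipotent part -/
noncomputable def cinv (h : n → ℚ) (g : Matrix n n K) : Matrix n n K := (delta h g)⁻¹ • Qnum h g

lemma Ablk_det_ne (hδ : delta h g ≠ 0) (j : n) : (Ablk h g j).det ≠ 0 :=
  prod_ne_zero_iff.mp hδ j (mem_univ j)

lemma cinv_apply (hδ : delta h g ≠ 0) (i j : n) :
    (cinv h g - 1) i j = - ((Ablk h g j)⁻¹ * Eof (fun i => h j < h i) * g : Matrix n n K) i j := by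
  have e : delta h g = (Ablk h g j).det * ∏ j' ∈ univ.erase j, (Ablk h g j').det :=
    (mul_prod_erase univ (fun j => (Ablk h g j).det) (mem_univ j)).symm
  have h1 := Ablk_det_ne hδ j
  have h2 : ∏ j' ∈ univ.erase j, (Ablk h g j').det ≠ 0 := fun h0 => hδ (by rw [e, h0, mul_zero])
  simp only [cinv, Qnum, Matrix.sub_apply, Matrix.smul_apply, Matrix.of_apply, smul_eq_mul,
    Matrix.inv_def, Ring.inverse_eq_inv', Matrix.smul_mul]
  rw [e]
  field_simp
  ring

lemma cinv_pos (hδ : delta h g ≠ 0) : Pos h (cinv h g - 1) := by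
  intro i j hij
  set E : Matrix n n K := Eof (fun i => h j < h i) with hE
  have hEE : E * E = E := Eof_mul_self
  have hu : IsUnit (Ablk h g j).det := (Ablk_det_ne hδ j).isUnit
  have h1 : (1 - E) * Ablk h g j = 1 - E := by
    simp only [Ablk, ← hE, mul_add, mul_sub, sub_mul, ← mul_assoc, hEE, mul_one, one_mul]
    abel
  have h2 : (1 - E) * (Ablk h g j)⁻¹ = 1 - E := by
    conv_lhs => rw [← h1]
    rw [mul_assoc, Matrix.mul_nonsing_inv _ hu, mul_one]
  have h3 : (1 - E) * ((Ablk h g j)⁻¹ * E * g) = 0 := by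
    rw [← mul_assoc, ← mul_assoc, h2, sub_mul, hEE]; simp
  have h4 := congrFun (congrFun h3 i) j
  rw [sub_mul, one_mul, Matrix.sub_apply, hE, Eof_mul_apply, if_neg hij] at h4
  rw [cinv_apply hδ]
  simpa using h4

lemma Ablk_col {Z : Matrix n n K} (hZ : Pos h Z) (i j : n) :
    (Ablk h g j * Z) i j = if h j < h i then (g * Z) i j else 0 := by
  have h1 : ∀ k, (Eof (fun i => h j < h i) * Z : Matrix n n K) k j = Z k j := fun k => by
    rw [Eof_mul_apply]; split_ifs with hk
    · rfl
    · exact (hZ k j hk).symm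
  rw [Ablk, add_mul, sub_mul, one_mul, Matrix.add_apply, Matrix.sub_apply, h1, sub_self, add_zero,
    mul_assoc, mul_assoc, Eof_mul_apply]
  simp only [Matrix.mul_apply (M := g), h1]

lemma mul_cinv (hδ : delta h g ≠ 0) : NN (-h) (g * cinv h g) := by
  intro i j hij
  replace hij : h j < h i := by simpa using hij
  have hu : IsUnit (Ablk h g j).det := (Ablk_det_ne hδ j).isUnit
  have h1 := Ablk_col (g := g) (cinv_pos hδ) i j
  rw [if_pos hij] at h1
  have h2 : (Ablk h g j * (cinv h g - 1)) i j = - g i j := by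
    have : (Ablk h g j * (cinv h g - 1)) i j =
        - (Ablk h g j * ((Ablk h g j)⁻¹ * Eof (fun i => h j < h i) * g) : Matrix n n K) i j := by
      simp only [Matrix.mul_apply (M := Ablk h g j), cinv_apply hδ, mul_neg, sum_neg_distrib]
    rw [this, ← mul_assoc, ← mul_assoc, Matrix.mul_nonsing_inv _ hu, one_mul, Eof_mul_apply,
      if_pos hij]
  rw [h2, mul_sub, mul_one, Matrix.sub_apply] at h1
  linear_combination -h1

lemma cinv_unique (hδ : delta h g ≠ 0) {c : Matrix n n K} (hc : Pos h (c - 1))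
    (hg : NN (-h) (g * c)) : cinv h g = c := by
  have hZ : Pos h (cinv h g - c) := by
    have := (cinv_pos hδ).sub hc; simpa using this
  ext i j
  have hu : IsUnit (Ablk h g j).det := (Ablk_det_ne hδ j).isUnit
  have h1 : ∀ k, (Ablk h g j * (cinv h g - c)) k j = 0 := fun k => by
    rw [Ablk_col hZ]
    split_ifs with hk
    · rw [mul_sub]
      exact ((mul_cinv hδ).sub hg) k j (by simpa using hk)
    · rfl
  have h2 : (cinv h g - c) i j = ((Ablk h g j)⁻¹ * (Ablk h g j * (cinv h g - c))) i j := by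
    rw [← mul_assoc, Matrix.nonsing_inv_mul _ hu, one_mul]
  rw [Matrix.mul_apply] at h2
  simp only [h1, mul_zero, sum_const_zero] at h2
  exact sub_eq_zero.mp h2

lemma delta_cell {a m c : Matrix n n K} (ha : Pos (-h) (a - 1)) (hm : Zer h m) (hmu : IsUnit m)
    (hc : Pos h (c - 1)) : delta h (a * m * c) ≠ 0 := by
  refine prod_ne_zero_iff.mpr fun j _ => ?_
  have hS : ∀ i k, h k ≤ h i → h j < h k → h j < h i := fun i k h1 h2 => h2.trans_le h1
  rw [DE_mul_right Eof_mul_self (Eof_up hS (NN.of_unip hc)),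
    DE_mul_left Eof_mul_self (Eof_down hS (NN.of_unip ha)), DE_pos ha, DE_pos hc, one_mul, mul_one]
  have := DE_mul_right Eof_mul_self (Eof_up hS (hm.inv hmu).nn) m
  rw [Matrix.mul_nonsing_inv _ ((Matrix.isUnit_iff_isUnit_det m).mp hmu),
    DE_one Eof_mul_self] at this
  exact left_ne_zero_of_mul_eq_one this.symm

lemma cell_unique {a m c a' m' c' : Matrix n n K} (ha : Pos (-h) (a - 1)) (hm : Zer h m)
    (hmu : IsUnit m) (hc : Pos h (c - 1)) (ha' : Pos (-h) (a' - 1)) (hm' : Zer h m')
    (hc' : Pos h (c' - 1)) (e : a * m * c = a' * m' * c') : a = a' ∧ m = m' ∧ c = c' := by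
  have hδ := delta_cell ha hm hmu hc
  have key : ∀ {a m c : Matrix n n K}, Pos (-h) (a - 1) → Zer h m → Pos h (c - 1) →
      delta h (a * m * c) ≠ 0 → cinv h (a * m * c) = c⁻¹ ∧ pi0 h (a * m) = m := by
    intro a m c ha hm hc hδ
    have hcu := (Matrix.isUnit_iff_isUnit_det c).mp hc.unip_inv.1
    refine ⟨cinv_unique hδ hc.unip_inv.2 ?_, pi0_eq hm ?_⟩
    · rw [Matrix.mul_nonsing_inv_cancel_right _ _ hcu]
      exact (NN.of_unip ha).mul hm.neg'.nn
    · have := ha.mul_nn hm.neg'.nn
      rwa [sub_mul, one_mul] at this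
  have h1 := key ha hm hc hδ
  have h2 := key ha' hm' hc' (e ▸ hδ)
  have hcc : c = c' := by
    rw [← Matrix.nonsing_inv_nonsing_inv c ((Matrix.isUnit_iff_isUnit_det c).mp hc.unip_inv.1),
      ← h1.1, e, h2.1,
      Matrix.nonsing_inv_nonsing_inv c' ((Matrix.isUnit_iff_isUnit_det c').mp hc'.unip_inv.1)]
  subst hcc
  have e2 : a * m = a' * m' := hc.unip_inv.1.mul_right_cancel e
  have hmm : m = m' := by rw [← h1.2, e2, h2.2]
  subst hmm
  exact ⟨hmu.mul_right_cancel e2, rfl, rfl⟩

end Cell

end Pool.Agent.P.MP_7d29e8_ag
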