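import Pool.Agent.P.MP_7d29e8_ag.HNrm

set_option autoImplicit false

/-! The Bruhat decomposition, keeping track of valuations modulo coroots. -/

namespace Pool.Agent.P.MP_7d29e8_ag

open Finset SemidirectProduct
open scoped Classical

variable {Ω : Type} [Field Ω] [CharZero Ω] {n : Type} [Fintype n] [DecidableEq n]
  {ι M N : Type} [AddCommGroup M] [Module ℚ M] [AddCommGroup N] [Module ℚ N]
  {P : RootPairing ι ℚ M N} {wt : n → M} {E : Type} [Field E] [CharZero E] [Algebra Ω E]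

/-- the coroot lattice -/
def QL (P : RootPairing ι ℚ M N) : AddSubgroup N := AddSubgroup.closure (Set.range P.coroot)

lemma zsmul_QL (i : ι) {c : ℚ} (hc : ∃ z : ℤ, c = z) : c • P.coroot i ∈ QL P := by
  obtain ⟨z, rfl⟩ := hc
  rw [Int.cast_smul_eq_zsmul]
  exact zsmul_mem (AddSubgroup.subset_closure (Set.mem_range_self i)) z

/-- constant representatives of a word -/
def NW (G : Subgroup (GL n Ω)) (P : RootPairing ι ℚ M N) (wt : n → M) (l : List ι)
    (w : GL n E) : Prop :=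
  w ∈ GE G E ∧ w ∈ (Matrix.GeneralLinearGroup.map (n := n) (algebraMap Ω E)).range ∧
    Nrm P wt (inl w) (wN P l)

/-- Bruhat decomposition with torus part of valuation `x` modulo coroots -/
def RelB (G : Subgroup (GL n Ω)) (b : P.Base) (wt : n → M) (ρ : N) (o : E → ℚ) (g : GL n E)
    (x : N) : Prop :=
  ∃ a ∈ UU G E (hh P wt (-ρ)), ∃ t ∈ GE G E, ∃ (l : List ι) (w : GL n E),
    ∃ c ∈ UU G E (hh P wt ρ), ∃ x', Tor P wt o x' t ∧ (∀ i ∈ l, i ∈ b.support) ∧ NW G P wt l w ∧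
      x' - x ∈ QL P ∧ g = a * t * w * c

/-- left multiplication by `h` shifts the invariant by `z` -/
def Qp (G : Subgroup (GL n Ω)) (b : P.Base) (wt : n → M) (ρ : N) (o : E → ℚ) (h : GL n E)
    (z : N) : Prop :=
  ∀ g x, RelB G b wt ρ o g x → RelB G b wt ρ o (h * g) (z + x)

variable {G : Subgroup (GL n Ω)} {b : P.Base} {ρ : N} {o : E → ℚ}

omit [CharZero Ω] [CharZero E] in
lemma NW.mul {l l' : List ι} {w w' : GL n E} (h : NW G P wt l w) (h' : NW G P wt l' w') :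
    NW G P wt (l ++ l') (w * w') :=
  ⟨mul_mem h.1 h'.1, mul_mem h.2.1 h'.2.1, fun x => by
    rw [map_mul, ac_mul, h'.2.2, h.2.2, wN_append]⟩

omit [CharZero Ω] in
lemma NW.inv {l : List ι} {w : GL n E} (h : NW G P wt l w) : NW G P wt l.reverse w⁻¹ :=
  ⟨inv_mem h.1, inv_mem h.2.1, by rw [map_inv]; exact h.2.2.inv (wN_reverse' l)⟩

omit [CharZero Ω] [CharZero E] in
lemma NW.one : NW G P wt [] (1 : GL n E) := ⟨one_mem _, one_mem _, fun x => by simp⟩

omit [CharZero Ω] [CharZero E] in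
lemma Qp.mul {h h' : GL n E} {z z' : N} (H : Qp G b wt ρ o h z) (H' : Qp G b wt ρ o h' z') :
    Qp G b wt ρ o (h * h') (z + z') := fun g x hg => by
  rw [mul_assoc, add_assoc]; exact H _ _ (H' _ _ hg)

omit [CharZero Ω] [CharZero E] in
lemma Qp.neg {h : GL n E} (hh' : h ∈ UU G E (hh P wt (-ρ))) : Qp G b wt ρ o h 0 := by
  rintro _ x ⟨a, ha, t, ht, l, w, c, hc, x', h1, h2, h3, h4, rfl⟩
  exact ⟨h * a, mul_mem hh' ha, t, ht, l, w, c, hc, x', h1, h2, h3, by rwa [zero_add], by group⟩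

lemma Qp.tor (ho : ∀ a b, a ≠ 0 → b ≠ 0 → o (a * b) = o a + o b) {h : GL n E} {z : N}
    (hG : h ∈ GE G E) (hh' : Tor P wt o z h) : Qp G b wt ρ o h z := by
  rintro _ x ⟨a, ha, t, ht, l, w, c, hc, x', h1, h2, h3, h4, rfl⟩
  exact ⟨_, UU_conj hG (hh'.nrm _) ha, h * t, mul_mem hG ht, l, w, c, hc, z + x', hh'.mul ho h1,
    h2, h3, by rwa [add_sub_add_left_eq_sub], by group⟩

omit [CharZero Ω] [CharZero E] in
lemma RelB.one (ho : ∀ a b, a ≠ 0 → b ≠ 0 → o (a * b) = o a + o b) :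
    RelB G b wt ρ o (1 : GL n E) 0 :=
  ⟨1, one_mem _, 1, one_mem _, [], 1, 1, one_mem _, 0, Tor.one ho, by simp, NW.one, by simp,
    by simp⟩

omit [CharZero E] in
lemma Tor.lat (hZ : ∀ a, a ≠ 0 → ∃ z : ℤ, o a = z) {x : N} {t : GL n E} (h : Tor P wt o x t) :
    x ∈ lat P wt := by
  obtain ⟨τ, -, -, h⟩ := h
  exact mem_lat.mpr fun i => h i ▸ hZ _ (τ i).ne_zero

lemma pos_iff (hρ : ∀ i ∈ b.support, 0 < P.root' i ρ) (j : ι) : 0 < P.root' j ρ ↔ b.IsPos j :=
  ⟨isPos_of_pos fun i hi => (hρ i hi).le, fun h => pos_pos h hρ⟩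

lemma reg_ne (hρ : ∀ i ∈ b.support, 0 < P.root' i ρ) (j : ι) : P.root' j ρ ≠ 0 := by
  by_cases h : b.IsPos j
  · exact (pos_pos h hρ).ne'
  · have := pos_pos (neg_isPos h) hρ
    rw [root'_neg] at this
    linarith

lemma neg_neg_idx (i : ι) : P.reflectionPerm (P.reflectionPerm i i) (P.reflectionPerm i i) = i :=
  P.root.injective (by rw [P.root_reflectionPerm, P.reflection_apply_self, P.root_reflectionPerm,
    P.reflection_apply_self, neg_neg])

lemma coreflection_neg (i : ι) (x : N) :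
    P.coreflection (P.reflectionPerm i i) x = P.coreflection i x := by
  rw [P.coreflection_apply, P.coreflection_apply, root'_neg]; simp

variable (D : DS G P wt) [P.IsReduced] [Finite ι] [P.IsCrystallographic]
include D

omit [P.IsCrystallographic] [Finite ι] in
lemma DS.exists_NW (l : List ι) : ∃ w : GL n E, NW G P wt l w := by
  induction l with
  | nil => exact ⟨1, NW.one⟩
  | cons i l ih =>
    obtain ⟨w, hw⟩ := ih
    obtain ⟨w₀, h1, h2, h3, -⟩ := D.weyl (E := E) i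
    exact ⟨w₀ * w, NW.mul (l := [i]) ⟨h1, h2, h3⟩ hw⟩

lemma DS.split (hρ : ∀ i ∈ b.support, 0 < P.root' i ρ) {α : ι} (hα : α ∈ b.support)
    {a : GL n E} (ha : a ∈ UU G E (hh P wt (-ρ))) :
    ∃ a' ∈ UU G E (hh P wt (-(ρ + P.coreflection α ρ))),
      ∃ r ∈ RG G P wt E (P.reflectionPerm α α), a = a' * r := by
  have hz : ∀ r ∈ RG G P wt E (P.reflectionPerm α α),
      ac (inl r) (DD P wt E (-(ρ + P.coreflection α ρ))) = DD P wt E (-(ρ + P.coreflection α ρ)) := by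
    rintro _ ⟨X, -, wX, rfl⟩
    refine ac_inl_iff.mpr (ex_zer wX.nil (wX.zer ?_))
    change P.root' _ _ = 0
    rw [root'_neg, map_neg, map_add, root'_refl, root'_neg]; ring
  have := D.ugen _ ha
  clear ha
  induction this using Submonoid.closure_induction_right with
  | one => exact ⟨1, one_mem _, 1, RG_one _, by simp⟩
  | mul_right x _ y hy ih =>
    obtain ⟨a', ha', r, hr, rfl⟩ := ih
    obtain ⟨i, hi, hy⟩ := hy
    by_cases h : i = P.reflectionPerm α α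
    · subst h
      exact ⟨a', ha', r * y, D.RG_mul hr hy, mul_assoc _ _ _⟩
    · refine ⟨a' * (r * y * r⁻¹), mul_mem ha' (UU_conj (D.RG_sub hr) (hz r hr)
        (D.RG_UU ?_ hy)), r, hr, by group⟩
      have h1 : b.IsPos (P.reflectionPerm i i) := by
        rw [← pos_iff hρ, root'_neg, ← map_neg]; exact hi
      have h2 : P.reflectionPerm i i ≠ α := by
        rintro rfl
        exact h (neg_neg_idx i).symm
      have h3 := pos_pos (h1.reflectionPerm hα h2) hρ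
      rw [← root'_refl, root'_neg] at h3
      rw [map_neg] at hi ⊢
      rw [map_add]
      linarith

lemma DS.qp_simple (hρ : ∀ i ∈ b.support, 0 < P.root' i ρ)
    (ho : ∀ a b, a ≠ 0 → b ≠ 0 → o (a * b) = o a + o b) (hZ : ∀ a, a ≠ 0 → ∃ z : ℤ, o a = z)
    {α : ι} (hα : α ∈ b.support) {w₀ : GL n E} (hw₀ : NW G P wt [α] w₀) :
    Qp G b wt ρ o w₀ 0 := by
  have hrefl : ∀ {w₀ : GL n E}, NW G P wt [α] w₀ → ∀ {t x'}, Tor P wt o x' t →
      Tor P wt o (P.coreflection α x') (w₀ * t * w₀⁻¹) ∧ P.coreflection α x' - x' ∈ QL P := by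
    intro w₀ hw₀ t x' ht
    refine ⟨acu_inl w₀ t ▸ hw₀.2.2.tor (wN_surj _) (fun _ => rfl) ht, ?_⟩
    rw [P.coreflection_apply, sub_sub_cancel_left]
    exact neg_mem (zsmul_QL α (D.root_int (ht.lat hZ) α))
  have hpass : ∀ {t w : GL n E} {l x' j r}, t ∈ GE G E → Tor P wt o x' t → NW G P wt l w →
      r ∈ RG G P wt E j → (t * w)⁻¹ * r * (t * w) ∈ RG G P wt E (wI P l.reverse j) := by
    intro t w l x' j r ht h1 h3 hr
    have h5 := RG_conj (inv_mem ht) (h1.inv ho).nrm Function.surjective_id (fun _ => rfl) hr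
    have h6 := RG_conj h3.inv.1 h3.inv.2.2 (wN_surj _) (root'_wN _ j) h5
    convert h6 using 1
    group
  have key : ∀ r ∈ RG G P wt E α, ∀ t ∈ GE G E, ∀ (l : List ι) (w : GL n E),
      ∀ c ∈ UU G E (hh P wt ρ), ∀ x', Tor P wt o x' t → (∀ i ∈ l, i ∈ b.support) →
      NW G P wt l w → RelB G b wt ρ o (r * t * w * c) x' := by
    intro r hr t ht l w c hc x' h1 h2 h3
    by_cases hp : b.IsPos (wI P l.reverse α)
    · exact ⟨1, one_mem _, t, ht, l, w, _, mul_mem (D.RG_UU (pos_pos hp hρ) (hpass ht h1 h3 hr)) hc,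
        x', h1, h2, h3, by simp, by group⟩
    obtain ⟨w₁, g1, g2, g3, g4⟩ := D.weyl (E := E) (P.reflectionPerm α α)
    have hw₁ : NW G P wt [α] w₁ := ⟨g1, g2, g3.congr fun x => coreflection_neg α x⟩
    rw [neg_neg_idx] at g4
    rcases g4 r hr with rfl | ⟨r₁, k1, r₂, k2, a, rfl⟩
    · exact ⟨1, one_mem _, t, ht, l, w, c, hc, x', h1, h2, h3, by simp, by group⟩
    have hL := (D.sl2 (P.reflectionPerm α α)).1
    obtain ⟨k3, k4⟩ := hrefl hw₁ h1
    refine ⟨r₁, D.RG_UU ?_ k1, _, mul_mem (D.co_mem hL a) (mul_mem (mul_mem g1 ht) (inv_mem g1)),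
      α :: l, w₁ * w, _, mul_mem (D.RG_UU ?_ (hpass ht h1 h3 k2)) hc, _, (Tor.co ho hL a).mul ho k3,
      ?_, NW.mul hw₁ h3, ?_, by group⟩
    · rw [root'_neg, map_neg, neg_neg]; exact hρ α hα
    · have h5 := pos_pos (neg_isPos hp) hρ
      obtain ⟨x, hx⟩ := wN_surj (P := P) l.reverse ρ
      rw [← hx, root'_neg, root'_wN] at h5
      rw [← hx, root'_wN, root'_neg]
      exact h5
    · intro i hi
      rcases List.mem_cons.mp hi with rfl | hi
      · exact hα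
      · exact h2 i hi
    · rw [add_sub_assoc]
      exact add_mem (zsmul_QL _ (hZ _ a.ne_zero)) k4
  rintro _ x ⟨a, ha, t, ht, l, w, c, hc, x', h1, h2, h3, h4, rfl⟩
  obtain ⟨a', ha', r, hr, rfl⟩ := D.split hρ hα ha
  obtain ⟨k3, k4⟩ := hrefl hw₀ h1
  have k5 : w₀ * a' * w₀⁻¹ ∈ UU G E (hh P wt (-ρ)) := by
    refine D.UU_mono (x := -(ρ + P.coreflection α ρ)) (fun i hi => ?_)
      (UU_conj hw₀.1 ((hw₀.2.2 _).trans ?_) ha')
    · by_contra hc
      have h5 : b.IsPos i := by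
        rw [← pos_iff hρ]
        rw [map_neg, neg_pos, not_lt] at hc
        exact lt_of_le_of_ne hc (reg_ne hρ i).symm
      rw [map_neg, map_add, root'_refl] at hi
      by_cases h6 : i = α
      · rw [h6, root'_neg] at hi; linarith
      · linarith [pos_pos h5 hρ, pos_pos (h5.reflectionPerm hα h6) hρ]
    · simp [add_comm]
  have k6 : w₀ * r * w₀⁻¹ ∈ RG G P wt E α :=
    RG_conj hw₀.1 hw₀.2.2 (wN_surj _) (fun x => root'_refl α α x) hr
  obtain ⟨a₁, q1, t₁, q2, l₁, w₁, c₁, q3, x₁, q4, q5, q6, q7, q8⟩ := Qp.neg k5 _ _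
    (key _ k6 _ (mul_mem (mul_mem hw₀.1 ht) (inv_mem hw₀.1)) (α :: l) (w₀ * w) c hc _ k3 (by
      intro i hi
      rcases List.mem_cons.mp hi with rfl | hi
      · exact hα
      · exact h2 i hi) (NW.mul hw₀ h3))
  refine ⟨a₁, q1, t₁, q2, l₁, w₁, c₁, q3, x₁, q4, q5, q6, ?_, by rw [← q8]; group⟩
  convert add_mem (add_mem q7 k4) h4 using 1
  abel

theorem DS.qp_all (hρ : ∀ i ∈ b.support, 0 < P.root' i ρ)
    (ho : ∀ a b, a ≠ 0 → b ≠ 0 → o (a * b) = o a + o b) (hZ : ∀ a, a ≠ 0 → ∃ z : ℤ, o a = z)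
    {h : GL n E} (hh' : h ∈ GE G E) : ∃ z ∈ lat P wt, Qp G b wt ρ o h z := by
  have hT : ∀ t ∈ GE G E, Zer (hh P wt ρ) t.val → ∃ z ∈ lat P wt, Qp G b wt ρ o t z := by
    intro t ht hz
    obtain ⟨x, hx⟩ := D.cent_tor (reg_ne hρ) ho ht hz
    exact ⟨x, hx.lat hZ, Qp.tor ho ht hx⟩
  have hW : ∀ l : List ι, (∀ i ∈ l, i ∈ b.support) → ∀ w : GL n E, NW G P wt l w →
      ∃ z ∈ lat P wt, Qp G b wt ρ o w z := by
    intro l
    induction l with
    | nil => exact fun _ w hw => hT w hw.1 (nrm_iff_zer.mp hw.2.2 ρ)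
    | cons i l ih =>
      intro hl w hw
      obtain ⟨w₀, hw₀⟩ := D.exists_NW (E := E) [i]
      have h1 := hw₀.inv.mul hw
      obtain ⟨z, hz, h2⟩ := ih (fun j hj => hl j (List.mem_cons_of_mem _ hj)) (w₀⁻¹ * w)
        ⟨h1.1, h1.2.1, h1.2.2.congr fun x => by simp⟩
      have := (D.qp_simple hρ ho hZ (hl i List.mem_cons_self) hw₀).mul h2
      exact ⟨z, hz, by simpa using this⟩
  have hU : ∀ c ∈ UU G E (hh P wt ρ), ∃ z ∈ lat P wt, Qp G b wt ρ o c z := by
    intro c hc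
    obtain ⟨l, hl, hd⟩ := climb (b := b) (J := b.support) subset_rfl (-ρ)
    obtain ⟨w, hw⟩ := D.exists_NW (E := E) l
    have h1 : c ∈ UU G E (hh P wt (wN P l (-ρ))) := by
      refine D.UU_mono (fun i hi => pos_pos ((pos_iff hρ i).mp hi) fun j hj =>
        lt_of_le_of_ne (hd j hj) fun h0 => ?_) hc
      obtain ⟨k, rfl⟩ := (wI P l).surjective j
      rw [root'_wN, map_neg, eq_comm, neg_eq_zero] at h0
      exact reg_ne hρ k h0
    have h2 := UU_conj hw.inv.1 (hw.inv.2.2 _) h1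
    rw [wN_reverse] at h2
    obtain ⟨z, hz, h3⟩ := hW l hl w hw
    obtain ⟨z', hz', h4⟩ := hW l.reverse (by simpa using hl) _ hw.inv
    have := (h3.mul (Qp.neg h2)).mul h4
    exact ⟨_, add_mem (add_mem hz (zero_mem _)) hz', by convert this using 1; group⟩
  obtain ⟨l, hl, hs⟩ := exists_list G (-hh P wt ρ)
  obtain ⟨a₀, ha₀, hδ⟩ := D.move ρ hl hs hh'
  have h1 : Matrix.GeneralLinearGroup.map (algebraMap Ω E) a₀ ∈ UU G E (-hh P wt ρ) := by
    have := SLi_sub hl ha₀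
    refine ⟨Cl.map this.1 (Algebra.ofId Ω E), ?_⟩
    have h2 := Sup.map this.2 (algebraMap Ω E)
    rwa [Matrix.map_sub _ (map_sub _), Matrix.map_one _ (map_zero _) (map_one _)] at h2
  obtain ⟨a, ha, m, hm, c, hc, h2, e⟩ := D.bc ρ (mul_mem hh' h1.1) hδ
  obtain ⟨z, hz, h3⟩ := hT m hm (D.cl_zer (fun _ h => h) h2)
  obtain ⟨z', hz', h4⟩ := hU c hc
  rw [← hh_neg] at ha h1
  have := (((Qp.neg ha).mul h3).mul h4).mul (Qp.neg (inv_mem h1))
  rw [← e, mul_inv_cancel_right] at this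
  exact ⟨_, add_mem (add_mem (add_mem (zero_mem _) hz) hz') (zero_mem _), this⟩

omit D [CharZero E] in
lemma conj_unip {h : n → ℚ} {c : GL n E} (hc : Pos h (c.val - 1)) {Y : Matrix n n E}
    (hY : NN h Y) : Pos h (c.val * Y * (c⁻¹).val - Y) := by
  have h1 : Pos h ((c⁻¹).val - 1) := by rw [Matrix.coe_units_inv]; exact hc.unip_inv.2
  have := ((hc.mul_nn hY).mul_nn (NN.of_unip h1)).add (hY.mul_pos h1)
  convert this using 1
  noncomm_ring

/-- conjugate cocharacters are conjugate under the Weyl group -/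
theorem DS.conj_weyl (b : P.Base) {k : GL n Ω} (hk : k ∈ G) {x y : N}
    (h : ac (inl k) (DD P wt Ω x) = DD P wt Ω y) :
    ∃ l : List ι, (∀ i ∈ l, i ∈ b.support) ∧ wN P l x = y := by
  obtain ⟨ρ, -, hρ⟩ := exists_coweight b (fun _ => 1)
  have hρ' : ∀ i ∈ b.support, 0 < P.root' i ρ := fun i hi => by rw [hρ i hi]; exact one_pos
  obtain ⟨z, -, hz⟩ := D.qp_all (o := fun _ => 0) hρ' (by simp) (fun _ _ => ⟨0, by simp⟩)
    (D.mem_iff.mpr hk)
  obtain ⟨a, ha, t, ht, l, w, c, hc, x', h1, h2, h3, -, e⟩ := hz _ _ (RelB.one (by simp))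
  refine ⟨l, h2, hh_inj (P := P) D.span fun i => ?_⟩
  have hd : ∀ (x : N) (k : n → ℚ), NN k (DD P wt Ω x) := fun x k =>
    Sup.diagonal (p := fun i j => k j ≤ k i) (fun _ => le_rfl) _
  have p1 := conj_unip (inv_mem ha).2 (hd y _)
  have hn := h1.nrm.mul h3.2.2
  have p2 := pos_ac (hn ρ) (conj_unip hc.2 (hd x _))
  rw [map_sub, hn x, ← ac_inl, ← ac_mul, ← map_mul, ← map_mul] at p2
  rw [← ac_inl, ← h, ← ac_mul, ← map_mul, ← mul_one k, e, mul_assoc a, mul_assoc a,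
    inv_mul_cancel_left, ← mul_assoc a, ← mul_assoc a, ← e, mul_one, h] at p1
  have q1 := p1 i i (lt_irrefl _)
  have q2 := p2 i i (lt_irrefl _)
  rw [Matrix.sub_apply, sub_eq_zero] at q1 q2
  rw [q2] at q1
  simpa [DD] using q1

theorem DS.conj_dom (b : P.Base) {k : GL n Ω} (hk : k ∈ G) {x y : N}
    (h : ac (inl k) (DD P wt Ω x) = DD P wt Ω y) (hx : ∀ i ∈ b.support, 0 ≤ P.root' i x)
    (hy : ∀ i ∈ b.support, 0 ≤ P.root' i y) : x = y := by
  obtain ⟨l, hl, rfl⟩ := D.conj_weyl b hk h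
  exact (dom_unique hx _ l rfl hl hy).symm

end Pool.Agent.P.MP_7d29e8_ag
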