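import Pool.Agent.P.MP_7d29e8_ag.HUni

set_option autoImplicit false

/-! Density of the big cell and the decomposition of its points. -/

namespace Pool.Agent.P.MP_7d29e8_ag

open Finset
open scoped Classical

variable {Ω : Type} [Field Ω] [CharZero Ω] {n : Type} [Fintype n] [DecidableEq n]
  {ι M N : Type} [AddCommGroup M] [Module ℚ M] [AddCommGroup N] [Module ℚ N]
  {P : RootPairing ι ℚ M N} {wt : n → M} {E : Type} [Field E] [CharZero E] [Algebra Ω E]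

section Tan

open PowerSeries

/-- tangent vectors of formal curves in the closure -/
def Tan (S : Set (Matrix n n Ω)) : Set (Matrix n n Ω) :=
  {Y | ∃ γ ∈ Cl S Ω⟦X⟧, ∀ i j, (γ - 1 - (X : Ω⟦X⟧) • Y.map (algebraMap Ω Ω⟦X⟧)) i j ∈
    Ideal.span {(X : Ω⟦X⟧) ^ 2}}

omit [CharZero Ω] in
lemma Tan.mul {S₁ S₂ S : Set (Matrix n n Ω)} (h : ∀ a ∈ S₁, ∀ b ∈ S₂, a * b ∈ Cl S Ω)
    {Y₁ Y₂ : Matrix n n Ω} (h₁ : Y₁ ∈ Tan S₁) (h₂ : Y₂ ∈ Tan S₂) : Y₁ + Y₂ ∈ Tan S := by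
  obtain ⟨γ₁, a₁, b₁⟩ := h₁
  obtain ⟨γ₂, a₂, b₂⟩ := h₂
  refine ⟨γ₁ * γ₂, Cl.mul h a₁ a₂, fun i j => ?_⟩
  set A := Y₁.map (algebraMap Ω Ω⟦X⟧)
  set B := Y₂.map (algebraMap Ω Ω⟦X⟧)
  have e : γ₁ * γ₂ - 1 - (X : Ω⟦X⟧) • (Y₁ + Y₂).map (algebraMap Ω Ω⟦X⟧) =
      (γ₁ - 1 - (X : Ω⟦X⟧) • A) * γ₂ + (1 + (X : Ω⟦X⟧) • A) * (γ₂ - 1 - (X : Ω⟦X⟧) • B) +
        ((X : Ω⟦X⟧) ^ 2) • (A * B) := by
    rw [Matrix.map_add _ (map_add _), pow_two, mul_smul]
    simp only [smul_add, mul_sub, sub_mul, add_mul, mul_one, one_mul, Matrix.smul_mul,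
      Matrix.mul_smul, A, B]
    abel
  rw [e]
  simp only [Matrix.add_apply (A := _ + _), Matrix.add_apply (A := _ * _), Matrix.mul_apply,
    Matrix.smul_apply (r := (X : Ω⟦X⟧) ^ 2)]
  refine add_mem (add_mem (sum_mem fun k _ => Ideal.mul_mem_right _ _ (b₁ i k))
    (sum_mem fun k _ => Ideal.mul_mem_left _ _ (b₂ k j))) ?_
  exact Ideal.mul_mem_right _ _ (Ideal.mem_span_singleton_self _)

omit [CharZero Ω] [Fintype n] in
lemma Tan.zero {S : Set (Matrix n n Ω)} (h : (1 : Matrix n n Ω) ∈ S) : 0 ∈ Tan S := by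
  refine ⟨_, Cl.of_mem h, fun i j => ?_⟩
  rw [Matrix.map_one _ (map_zero _) (map_one _)]
  simp

lemma xp_self {e : Matrix n n Ω} (he : IsNilpotent e) (a : Ω) : xp e a = (ex (a • e)).val := by
  rw [ex_val (he.smul a)]; rfl

lemma xp_poly {S : Set (Matrix n n Ω)} {e : Matrix n n Ω} (he : IsNilpotent e)
    (h : ∀ a : Ω, (ex (a • e)).val ∈ Cl S Ω) {R : Type} [CommRing R] [Algebra Ω R] [Module ℚ R]
    (a : R) : xp e a ∈ Cl S R := by
  have h1 : xp e (Polynomial.X : Polynomial Ω) ∈ Cl S (Polynomial Ω) := by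
    refine Cl.poly Set.infinite_univ fun t _ => ?_
    have := xp_map he (Polynomial.X : Polynomial Ω) (Polynomial.aeval t)
    rw [Polynomial.aeval_X, Polynomial.coe_aeval_eq_eval] at this
    rw [this, xp_self he]
    exact h t
  have := Cl.map h1 (Polynomial.aeval a)
  rwa [xp_map he, Polynomial.aeval_X] at this

lemma xp_sq {e : Matrix n n Ω} (he : IsNilpotent e) {R : Type} [CommRing R] [Algebra Ω R]
    [Module ℚ R] (a : R) (i j : n) :
    (xp e a - 1 - a • e.map (algebraMap Ω R)) i j ∈ Ideal.span {a ^ 2} := by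
  obtain ⟨k, hk⟩ := he
  have hk' : e ^ (k + 2) = 0 := by rw [pow_add, hk, zero_mul]
  rw [xp_eq_sum hk', sum_range_succ', sum_range_succ']
  simp only [zero_add, pow_one, pow_zero, Nat.factorial_one, Nat.factorial_zero, Nat.cast_one,
    inv_one, one_smul, Matrix.map_one _ (map_zero _) (map_one _), add_sub_cancel_right,
    Matrix.sum_apply, Matrix.smul_apply, smul_eq_mul]
  exact sum_mem fun m _ => Ideal.mul_mem_right _ _
    (Ideal.mem_span_singleton.mpr (pow_dvd_pow _ (by omega)))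

lemma Tan.exp {S : Set (Matrix n n Ω)} {e : Matrix n n Ω} (he : IsNilpotent e)
    (h : ∀ a : Ω, (ex (a • e)).val ∈ Cl S Ω) : e ∈ Tan S :=
  ⟨_, xp_poly he h X, xp_sq he X⟩

open DualNumber in
lemma lie_of_exp {S : Set (Matrix n n Ω)} (h1 : (1 : Matrix n n Ω) ∈ S) {e : Matrix n n Ω}
    (he : IsNilpotent e) (h : ∀ a : Ω, (ex (a • e)).val ∈ Cl S Ω) : e ∈ lie S Ω := by
  refine lie.of_dual h1 ?_
  convert xp_poly he h (ε : DualNumber Ω) using 1
  refine Matrix.ext fun i j => ?_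
  have := xp_sq he (ε : DualNumber Ω) i j
  rw [pow_two, eps_mul_eps, Ideal.span_singleton_zero, Ideal.mem_bot, sub_sub, Matrix.sub_apply,
    sub_eq_zero] at this
  exact this.symm

lemma Tan.co {S : Set (Matrix n n Ω)} (k : n → ℤ)
    (h : ∀ t : Ω, t ≠ 0 → Matrix.diagonal (fun i => t ^ k i) ∈ Cl S Ω) (c : Ω) :
    c • Matrix.diagonal (fun i => (k i : Ω)) ∈ Tan S := by
  obtain ⟨t, ht⟩ : IsUnit (1 + C c * X : Ω⟦X⟧) := by
    rw [PowerSeries.isUnit_iff_constantCoeff]; simp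
  have hz : ∀ z : ℤ, (X : Ω⟦X⟧) ^ 2 ∣ ((t ^ z : Ω⟦X⟧ˣ) : Ω⟦X⟧) - 1 - (z : Ω⟦X⟧) * (C c * X) := by
    intro z
    induction z using Int.induction_on with
    | zero => simp
    | succ m ih =>
      obtain ⟨q, hq⟩ := ih
      refine ⟨q * t + m * C c ^ 2, ?_⟩
      rw [zpow_add_one, Units.val_mul, ht]
      push_cast at hq ⊢
      linear_combination (1 + C c * X) * hq
    | pred m ih =>
      obtain ⟨q, hq⟩ := ih
      refine ⟨(q + (m + 1) * C c ^ 2) * (t⁻¹ : Ω⟦X⟧ˣ), ?_⟩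
      have h1 : (1 + C c * X) * ((t⁻¹ : Ω⟦X⟧ˣ) : Ω⟦X⟧) = 1 := by rw [← ht]; simp
      rw [zpow_sub_one, Units.val_mul]
      push_cast at hq ⊢
      linear_combination ((t⁻¹ : Ω⟦X⟧ˣ) : Ω⟦X⟧) * hq + (1 - (m + 1) * (C c * X)) * h1
  refine ⟨_, Cl.cochar k h t, fun i j => ?_⟩
  by_cases hij : i = j
  · subst hij
    rw [Ideal.mem_span_singleton]
    convert hz (k i) using 1
    simp [PowerSeries.algebraMap_apply]; ring
  · simp [hij, Matrix.one_apply]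

end Tan

/-- products of one parameter groups -/
def SLi : List (Matrix n n Ω) → Set (GL n Ω)
  | [] => {1}
  | X :: l => {g | ∃ a : Ω, ∃ s ∈ SLi l, g = ex (a • X) * s}

/-- a dense submonoid of the Levi subgroup -/
def Mid (G : Subgroup (GL n Ω)) (P : RootPairing ι ℚ M N) (wt : n → M) (x : N) :
    Submonoid (GL n Ω) :=
  Submonoid.closure ({g | ∃ z ∈ lat P wt, ∃ t : Ωˣ, g = dU fun i => t ^ ⌊hh P wt z i⌋} ∪
    {g | ∃ i, P.root' i x = 0 ∧ g ∈ RG G P wt Ω i})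

/-- the dense subset of the big cell -/
def Cel (G : Subgroup (GL n Ω)) (P : RootPairing ι ℚ M N) (wt : n → M) (x : N)
    (l : List (Matrix n n Ω)) : Set (Matrix n n Ω) :=
  {g | ∃ a ∈ SLi l, ∃ m ∈ Mid G P wt x, ∃ c ∈ UU G Ω (hh P wt x), g = (a * m * c).val}

variable {G : Subgroup (GL n Ω)}

lemma ex_smul_mem {X : Matrix n n Ω} (hX : X ∈ lie (GS G) Ω) (hn : IsNilpotent X) (a : Ω) :
    ex (a • X) ∈ GE G Ω := by
  change _ ∈ Cl _ _
  rw [← xp_self hn]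
  exact xp_mem (GS_one G) (GS_mul G) hn hX a

lemma SLi_sub {h : n → ℚ} {l : List (Matrix n n Ω)} (hl : ∀ X ∈ l, X ∈ lie (GS G) Ω ∧ Pos h X) :
    SLi l ⊆ UU G Ω h := by
  induction l with
  | nil => rintro _ rfl; exact one_mem _
  | cons X l ih =>
    rintro _ ⟨a, s, hs, rfl⟩
    have := hl X List.mem_cons_self
    exact mul_mem (⟨ex_smul_mem this.1 this.2.nilpotent a, ex_pos (this.2.smul a)⟩ :
      ex (a • X) ∈ UU G Ω h) (ih (fun Y hY => hl Y (List.mem_cons_of_mem _ hY)) hs)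

lemma SLi_tan {l : List (Matrix n n Ω)} (hl : ∀ X ∈ l, IsNilpotent X) :
    ∀ Y ∈ Submodule.span Ω {X | X ∈ l}, Y ∈ Tan (Units.val '' SLi l) := by
  induction l with
  | nil =>
    intro Y hY
    have : Y = 0 := by simpa using hY
    rw [this]
    exact Tan.zero ⟨1, rfl, rfl⟩
  | cons X l ih =>
    intro Y hY
    have e : {Z | Z ∈ X :: l} = insert X {Z | Z ∈ l} := by ext; simp
    rw [e, Submodule.mem_span_insert] at hY
    obtain ⟨a, Z, hZ, rfl⟩ := hY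
    refine Tan.mul (S₁ := Units.val '' {g | ∃ a : Ω, g = ex (a • X)}) ?_
      (Tan.exp ((hl X List.mem_cons_self).smul a) fun b => Cl.self ⟨_, ⟨b * a, rfl⟩, ?_⟩)
      (ih (fun Y hY => hl Y (List.mem_cons_of_mem _ hY)) Z hZ)
    · rintro _ ⟨_, ⟨a, rfl⟩, rfl⟩ _ ⟨s, hs, rfl⟩
      exact Cl.self ⟨_, ⟨a, s, hs, rfl⟩, rfl⟩
    · rw [mul_smul]

lemma exists_list (G : Subgroup (GL n Ω)) (h : n → ℚ) : ∃ l : List (Matrix n n Ω),
    (∀ X ∈ l, X ∈ lie (GS G) Ω ∧ Pos h X) ∧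
    ∀ X ∈ lie (GS G) Ω, Pos h X → X ∈ Submodule.span Ω {Y | Y ∈ l} := by
  let V : Submodule Ω (Matrix n n Ω) :=
    { carrier := {X | X ∈ lie (GS G) Ω ∧ Pos h X}
      add_mem' := fun a b => ⟨add_mem a.1 b.1, a.2.add b.2⟩
      zero_mem' := ⟨zero_mem _, Sup.zero⟩
      smul_mem' := fun c _ a => ⟨Submodule.smul_mem _ c a.1, a.2.smul c⟩ }
  obtain ⟨s, hs⟩ := IsNoetherian.noetherian V
  have e : {Y | Y ∈ s.toList} = (s : Set (Matrix n n Ω)) := by ext; simp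
  refine ⟨s.toList, fun X hX => ?_, fun X h1 h2 => ?_⟩
  · have : X ∈ V := hs ▸ Submodule.subset_span (by simpa using hX)
    exact this
  · rw [e, hs]; exact ⟨h1, h2⟩

variable (D : DS G P wt) [P.IsReduced]
include D

lemma DS.mid_zer {x ζ : N} (hζ : ∀ i, P.root' i x = 0 → P.root' i ζ = 0) {m : GL n Ω}
    (hm : m ∈ Mid G P wt x) : m ∈ GE G Ω ∧ Zer (hh P wt ζ) m.val := by
  induction hm using Submonoid.closure_induction with
  | mem m hm =>
    rcases hm with ⟨z, hz, t, rfl⟩ | ⟨i, hi, X, hX, wX, rfl⟩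
    · exact ⟨D.co_mem hz t, Sup.diagonal (p := fun i j => hh P wt ζ i = hh P wt ζ j)
        (fun _ => rfl) _⟩
    · exact ⟨D.ex_mem hX wX, ex_zer wX.nil (wX.zer (hζ i hi))⟩
  | one => exact ⟨one_mem _, Sup.one fun _ => rfl⟩
  | mul a b _ _ ha hb => exact ⟨mul_mem ha.1 hb.1, ha.2.mul hb.2⟩

theorem DS.dense_cell [Finite ι] (x : N) {l : List (Matrix n n Ω)}
    (hl : ∀ X ∈ l, X ∈ lie (GS G) Ω ∧ Pos (-hh P wt x) X)
    (hs : ∀ X ∈ lie (GS G) Ω, Pos (-hh P wt x) X → X ∈ Submodule.span Ω {Y | Y ∈ l}) :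
    GS G ⊆ Cl (Cel G P wt x l) Ω := by
  letI := Fintype.ofFinite ι
  refine dense (GS_one G) D.prime ?_ fun Y hY => ?_
  · rintro _ ⟨a, ha, m, hm, c, hc, rfl⟩
    exact ⟨_, D.mem_iff.mp (mul_mem (mul_mem (SLi_sub hl ha).1
      (D.mid_zer (fun _ h => h) hm).1) hc.1), rfl⟩
  obtain ⟨X₀, Z, h0, w0, hZ, rfl, -⟩ := D.decomp hY
  have hadd : ∀ A ∈ Tan (Units.val '' (Mid G P wt x : Set (GL n Ω))),
      ∀ B ∈ Tan (Units.val '' (Mid G P wt x : Set (GL n Ω))),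
      A + B ∈ Tan (Units.val '' (Mid G P wt x : Set (GL n Ω))) := fun A hA B hB =>
    Tan.mul (by
      rintro _ ⟨a, ha, rfl⟩ _ ⟨b, hb, rfl⟩
      exact Cl.self ⟨_, mul_mem ha hb, rfl⟩) hA hB
  have hz : 0 ∈ Tan (Units.val '' (Mid G P wt x : Set (GL n Ω))) := Tan.zero ⟨1, one_mem _, rfl⟩
  have t0 : ∀ A ∈ Submodule.span Ω (Set.range (DD P wt Ω)), ∀ c : Ω,
      c • A ∈ Tan (Units.val '' (Mid G P wt x : Set (GL n Ω))) := by
    intro A hA
    induction hA using Submodule.span_induction with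
    | mem A hA =>
      obtain ⟨z, rfl⟩ := hA
      intro c
      obtain ⟨r, hr, hz⟩ := exists_lat (P := P) (wt := wt) z
      have := Tan.co (S := Units.val '' (Mid G P wt x : Set (GL n Ω)))
        (fun i => ⌊hh P wt ((r : ℚ) • z) i⌋) (fun t ht => Cl.self
          ⟨_, Submonoid.subset_closure (Or.inl ⟨_, hz, Units.mk0 t ht, rfl⟩), by simp⟩) (c / r)
      convert this using 1
      have e : (Matrix.diagonal fun i => ((⌊hh P wt ((r : ℚ) • z) i⌋ : ℤ) : Ω)) =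
          DD P wt Ω ((r : ℚ) • z) := by
        rw [DD]; congr 1; funext i
        obtain ⟨k, hk⟩ := mem_lat.mp hz i
        simp [hk]
      rw [e, DD_smul, smul_smul, Rat.cast_natCast,
        div_mul_cancel₀ _ (by exact_mod_cast hr.ne')]
    | zero => intro c; simpa using hz
    | add A B _ _ h1 h2 => intro c; rw [smul_add]; exact hadd _ (h1 c) _ (h2 c)
    | smul a A _ h1 => intro c; rw [smul_smul]; exact h1 _
  have t1 : X₀ + ∑ i with P.root' i x = 0, Z i ∈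
      Tan (Units.val '' (Mid G P wt x : Set (GL n Ω))) := by
    refine hadd _ (by simpa using t0 _ (D.cent _ h0 w0) 1) _
      (sum_induction _ (· ∈ Tan _) (fun a b ha hb => hadd a ha b hb) hz fun i hi => ?_)
    refine Tan.exp (hZ i).2.nil fun a => Cl.self ⟨_, Submonoid.subset_closure (Or.inr
      ⟨i, by simpa using hi, _, Submodule.smul_mem _ a (hZ i).1, Sup.smul (hZ i).2 a, rfl⟩), rfl⟩
  have t2 : ∑ i with P.root' i x < 0, Z i ∈ Tan (Units.val '' SLi l) := by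
    refine SLi_tan (fun X hX => (hl X hX).2.nilpotent) _ (hs _ (sum_mem fun i _ => (hZ i).1)
      (Sup.sum _ fun i hi => ?_))
    rw [← hh_neg]
    refine (hZ i).2.pos ?_
    rw [map_neg, neg_pos]
    exact (mem_filter.mp hi).2
  have t3 : ∑ i with 0 < P.root' i x, Z i ∈ Tan (Units.val '' (UU G Ω (hh P wt x) : Set _)) := by
    have hp : Pos (hh P wt x) (∑ i with 0 < P.root' i x, Z i) :=
      Sup.sum _ fun i hi => (hZ i).2.pos (mem_filter.mp hi).2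
    exact Tan.exp hp.nilpotent fun a => Cl.self ⟨_, ⟨ex_smul_mem (sum_mem fun i _ => (hZ i).1)
      hp.nilpotent a, ex_pos (hp.smul a)⟩, rfl⟩
  have t4 := Tan.mul (S := Cel G P wt x l) (by
      rintro _ ⟨a, ha, m, hm, rfl⟩ _ ⟨c, hc, rfl⟩
      exact Cl.self ⟨a, ha, m, hm, c, hc, rfl⟩)
    (Tan.mul (S := {g | ∃ a ∈ SLi l, ∃ m ∈ Mid G P wt x, g = (a * m).val}) (by
      rintro _ ⟨a, ha, rfl⟩ _ ⟨m, hm, rfl⟩
      exact Cl.self ⟨a, ha, m, hm, rfl⟩) t2 t1) t3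
  change _ ∈ Tan _
  convert t4 using 1
  have : ∑ i, Z i = ∑ i with P.root' i x < 0, Z i + ∑ i with P.root' i x = 0, Z i +
      ∑ i with 0 < P.root' i x, Z i := by
    simp only [sum_filter, ← sum_add_distrib]
    refine sum_congr rfl fun i _ => ?_
    rcases lt_trichotomy (P.root' i x) 0 with h | h | h
    · simp [h, h.ne, h.not_gt]
    · simp [h]
    · simp [h, h.ne', h.not_gt]
  rw [this]
  abel

end Pool.Agent.P.MP_7d29e8_ag
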