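import Mathlib

set_option autoImplicit false

/-! Points of Zariski closures of sets of matrices with values in commutative algebras. -/

namespace Pool.Agent.P.MP_7d29e8_ag

open MvPolynomial Finset

variable {Ω : Type} [Field Ω] {n : Type} [Fintype n] [DecidableEq n]

/-- evaluation of a polynomial at a matrix -/
noncomputable def ev {R : Type} [CommRing R] [Algebra Ω R] (γ : Matrix n n R) :
    MvPolynomial (n × n) Ω →ₐ[Ω] R := aeval (fun p => γ p.1 p.2)

/-- points of the Zariski closure -/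
def Cl (S : Set (Matrix n n Ω)) (R : Type) [CommRing R] [Algebra Ω R] : Set (Matrix n n R) :=
  {γ | ∀ f : MvPolynomial (n × n) Ω, (∀ g ∈ S, ev g f = 0) → ev γ f = 0}

/-- the generic matrix -/
noncomputable def gen (Ω : Type) [Field Ω] (n : Type) : Matrix n n (MvPolynomial (n × n) Ω) :=
  Matrix.of fun i j => X (i, j)

section Basic

variable {R R' : Type} [CommRing R] [Algebra Ω R] [CommRing R'] [Algebra Ω R']

omit [Fintype n] [DecidableEq n] in
@[simp] lemma ev_X (γ : Matrix n n R) (p : n × n) : ev (Ω := Ω) γ (X p) = γ p.1 p.2 := by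
  simp [ev]

omit [Fintype n] [DecidableEq n] in
@[simp] lemma ev_C (γ : Matrix n n R) (c : Ω) : ev γ (C c) = algebraMap Ω R c := by
  simp [ev]

omit [Fintype n] [DecidableEq n] in
lemma ev_map (γ : Matrix n n R) (φ : R →ₐ[Ω] R') (f : MvPolynomial (n × n) Ω) :
    ev (γ.map φ) f = φ (ev γ f) := by
  have : ev (γ.map φ) = φ.comp (ev γ) := by
    ext p; simp
  rw [this]; rfl

omit [Fintype n] [DecidableEq n] in
lemma gen_map (γ : Matrix n n R) : (gen Ω n).map (ev (Ω := Ω) γ) = γ := by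
  ext i j; simp [gen]

omit [Fintype n] [DecidableEq n] in
lemma ev_gen (f : MvPolynomial (n × n) Ω) : ev (gen Ω n) f = f := by
  have : ev (gen Ω n) = AlgHom.id Ω _ := by
    ext p : 1; simp [gen]
  rw [this]; rfl

omit [Fintype n] [DecidableEq n] in
lemma ev_algebraMap (g : Matrix n n Ω) (f : MvPolynomial (n × n) Ω) :
    ev (g.map (algebraMap Ω R)) f = algebraMap Ω R (ev g f) :=
  ev_map g (Algebra.ofId Ω R) f

omit [Fintype n] [DecidableEq n] in
lemma Cl.of_mem {S : Set (Matrix n n Ω)} {g : Matrix n n Ω} (hg : g ∈ S) :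
    g.map (algebraMap Ω R) ∈ Cl S R := fun f hf => by
  rw [ev_algebraMap, hf g hg, map_zero]

omit [Fintype n] [DecidableEq n] in
lemma Cl.self {S : Set (Matrix n n Ω)} {g : Matrix n n Ω} (hg : g ∈ S) : g ∈ Cl S Ω :=
  fun f hf => hf g hg

omit [Fintype n] [DecidableEq n] in
lemma Cl.map {S : Set (Matrix n n Ω)} {γ : Matrix n n R} (hγ : γ ∈ Cl S R) (φ : R →ₐ[Ω] R') :
    γ.map φ ∈ Cl S R' := fun f hf => by
  rw [ev_map, hγ f hf, map_zero]

omit [Fintype n] [DecidableEq n] in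
lemma Cl.mono {S S' : Set (Matrix n n Ω)} (h : S ⊆ Cl S' Ω) : Cl S R ⊆ Cl S' R :=
  fun _ hγ f hf => hγ f fun _ hg => h hg f hf

omit [Fintype n] [DecidableEq n] in
lemma Cl.mono' {S S' : Set (Matrix n n Ω)} (h : S ⊆ S') : Cl S R ⊆ Cl S' R :=
  Cl.mono fun _ hg => Cl.self (h hg)

lemma sum_mul_eq_zero_of_dual {ι : Type*} (s : Finset ι) (c m : ι → R)
    (h : ∀ l : R →ₗ[Ω] Ω, ∑ i ∈ s, l (c i) • m i = 0) : ∑ i ∈ s, c i * m i = 0 := by
  classical
  let b := Module.Basis.ofVectorSpace Ω R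
  let T := s.biUnion fun i => (b.repr (c i)).support
  have h1 : ∀ i ∈ s, c i = ∑ k ∈ T, b.repr (c i) k • b k := fun i hi => by
    conv_lhs => rw [← b.linearCombination_repr (c i), Finsupp.linearCombination_apply,
      Finsupp.sum]
    refine sum_subset (fun k hk => mem_biUnion.mpr ⟨i, hi, hk⟩) fun k _ hk => ?_
    rw [Finsupp.notMem_support_iff.mp hk, zero_smul]
  rw [sum_congr rfl fun i hi => by rw [h1 i hi, sum_mul], sum_comm]
  refine sum_eq_zero fun k _ => ?_
  have := h (b.coord k)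
  simp only [Module.Basis.coord_apply] at this
  calc ∑ i ∈ s, b.repr (c i) k • b k * m i = b k * ∑ i ∈ s, b.repr (c i) k • m i := by
        rw [mul_sum]; exact sum_congr rfl fun i _ => by simp
    _ = 0 := by rw [this, mul_zero]

omit [DecidableEq n] in
/-- polynomials with coefficients in `R` vanishing on `S` vanish on the closure -/
lemma Cl.ext_coeff {S : Set (Matrix n n Ω)} {γ : Matrix n n R} (hγ : γ ∈ Cl S R)
    (F : MvPolynomial (n × n) R)
    (hF : ∀ g ∈ S, eval (fun p => algebraMap Ω R (g p.1 p.2)) F = 0) :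
    eval (fun p => γ p.1 p.2) F = 0 := by
  rw [eval_eq']
  refine sum_mul_eq_zero_of_dual (Ω := Ω) _ _ _ fun l => ?_
  have := hγ (∑ d ∈ F.support, monomial d (l (coeff d F))) (fun g hg => by
    have h1 := congrArg l (hF g hg)
    rw [eval_eq', map_sum, map_zero] at h1
    rw [map_sum, ← h1]
    refine sum_congr rfl fun d _ => ?_
    rw [ev, aeval_monomial, Finsupp.prod_fintype _ _ (by simp)]
    simp only [← map_pow, ← map_prod]
    rw [mul_comm (coeff d F), ← Algebra.smul_def (R := Ω) (A := R), map_smul]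
    simp [mul_comm])
  rw [map_sum] at this
  rw [← this]
  refine sum_congr rfl fun d _ => ?_
  rw [ev, aeval_monomial, Finsupp.prod_fintype _ _ (by simp), Algebra.smul_def]

omit [DecidableEq n] in
lemma Cl.mul {S₁ S₂ S : Set (Matrix n n Ω)} (h : ∀ a ∈ S₁, ∀ b ∈ S₂, a * b ∈ Cl S Ω)
    {γ₁ γ₂ : Matrix n n R} (h₁ : γ₁ ∈ Cl S₁ R) (h₂ : γ₂ ∈ Cl S₂ R) : γ₁ * γ₂ ∈ Cl S R := by
  intro f hf
  have A : ∀ g ∈ S₁, ev (g.map (algebraMap Ω R) * γ₂) f = 0 := by
    intro g hg
    have := h₂ (ev (g.map C * gen Ω n) f) (fun g' hg' => by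
      rw [← ev_map, Matrix.map_mul, gen_map]
      have : (g.map C).map (ev (Ω := Ω) g') = g := by ext i j; simp
      rw [this]
      exact h g hg g' hg' f hf)
    rw [← ev_map, Matrix.map_mul, gen_map] at this
    have e : (g.map C).map (ev (Ω := Ω) γ₂) = g.map (algebraMap Ω R) := by ext i j; simp
    rwa [e] at this
  have B : ∀ δ : Matrix n n R, eval (fun p : n × n => δ p.1 p.2)
      (ev ((Matrix.of fun i j => (X (i, j) : MvPolynomial (n × n) R)) * γ₂.map C) f) =
      ev (δ * γ₂) f := by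
    intro δ
    have := ev_map ((Matrix.of fun i j => (X (i, j) : MvPolynomial (n × n) R)) * γ₂.map C)
      ((aeval (R := R) (fun p : n × n => δ p.1 p.2)).restrictScalars Ω) f
    rw [Matrix.map_mul] at this
    have e1 : (Matrix.of fun i j => (X (i, j) : MvPolynomial (n × n) R)).map
        ((aeval (R := R) (fun p : n × n => δ p.1 p.2)).restrictScalars Ω) = δ := by
      ext i j; simp
    have e2 : (γ₂.map C).map
        ((aeval (R := R) (fun p : n × n => δ p.1 p.2)).restrictScalars Ω) = γ₂ := by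
      ext i j; simp
    rw [e1, e2] at this
    rw [this]
    simp [coe_aeval_eq_eval]
  rw [← B]
  refine Cl.ext_coeff h₁ _ fun g hg => ?_
  exact (B (g.map (algebraMap Ω R))).trans (A g hg)

end Basic

section Curves

variable {E : Type} [Field E] [Algebra Ω E]

omit [Fintype n] [DecidableEq n] in
lemma Cl.poly {S : Set (Matrix n n Ω)} {γ : Matrix n n (Polynomial E)} {A : Set E}
    (hA : A.Infinite) (h : ∀ t ∈ A, γ.map (Polynomial.eval t) ∈ Cl S E) :
    γ ∈ Cl S (Polynomial E) := by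
  intro f hf
  refine Polynomial.eq_zero_of_infinite_isRoot _ (hA.mono fun t ht => ?_)
  have := ev_map γ ((Polynomial.aeval (R := E) t).restrictScalars Ω) f
  have e : γ.map ((Polynomial.aeval (R := E) t).restrictScalars Ω) = γ.map (Polynomial.eval t) := by
    ext i j; simp
  rw [e, h t ht f hf] at this
  simpa using this.symm

omit [Fintype n] in
lemma Cl.cochar [Infinite Ω] {S : Set (Matrix n n Ω)} (h : n → ℤ)
    (hS : ∀ t : Ω, t ≠ 0 → Matrix.diagonal (fun i => t ^ h i) ∈ Cl S Ω)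
    {R : Type} [CommRing R] [Algebra Ω R] (t : Rˣ) :
    Matrix.diagonal (fun i => ((t ^ h i : Rˣ) : R)) ∈ Cl S R := by
  have φ : ∀ {R : Type} [CommRing R] [Algebra Ω R] (t : Rˣ),
      ∃ φ : LaurentPolynomial Ω →ₐ[Ω] R, (∀ k, φ (LaurentPolynomial.T k) = (t ^ k : Rˣ)) ∧
        ∀ p, φ (Polynomial.toLaurent p) = Polynomial.aeval (t : R) p := by
    intro R _ _ t
    refine ⟨{ LaurentPolynomial.eval₂ (algebraMap Ω R) t with
      commutes' := fun c => LaurentPolynomial.eval₂_C _ _ c }, fun k => ?_, fun p => ?_⟩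
    · exact LaurentPolynomial.eval₂_T _ _ k
    · exact LaurentPolynomial.eval₂_toLaurent _ _ p
  have hmap : ∀ {R : Type} [CommRing R] [Algebra Ω R] (t : Rˣ)
      (φ : LaurentPolynomial Ω →ₐ[Ω] R), (∀ k, φ (LaurentPolynomial.T k) = (t ^ k : Rˣ)) →
      (Matrix.diagonal fun i => (LaurentPolynomial.T (h i) : LaurentPolynomial Ω)).map φ =
        Matrix.diagonal (fun i => ((t ^ h i : Rˣ) : R)) := by
    intro R _ _ t φ hφ
    rw [Matrix.diagonal_map (map_zero φ)]
    simp only [hφ]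
  have h0 : Matrix.diagonal (fun i => (LaurentPolynomial.T (h i) : LaurentPolynomial Ω)) ∈
      Cl S (LaurentPolynomial Ω) := by
    intro f hf
    obtain ⟨N, p, hp⟩ := LaurentPolynomial.exists_T_pow (ev
      (Matrix.diagonal fun i => (LaurentPolynomial.T (h i) : LaurentPolynomial Ω)) f)
    have hp0 : p = 0 := by
      refine Polynomial.eq_zero_of_infinite_isRoot _
        ((Set.finite_singleton (0 : Ω)).infinite_compl.mono fun t ht => ?_)
      obtain ⟨ψ, h1, h2⟩ := φ (Units.mk0 t ht)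
      have := congrArg ψ hp
      rw [h2, map_mul, ← ev_map, hmap _ ψ h1] at this
      have e : (Matrix.diagonal fun i => (((Units.mk0 t ht) ^ h i : Ωˣ) : Ω)) =
          Matrix.diagonal (fun i => t ^ h i) := by simp
      rw [e, hS t ht f hf, zero_mul] at this
      simpa using this
    rw [hp0, map_zero] at hp
    exact (LaurentPolynomial.isUnit_T (N : ℤ)).mul_left_eq_zero.mp hp.symm
  obtain ⟨ψ, h1, -⟩ := φ t
  rw [← hmap t ψ h1]
  exact Cl.map h0 ψ

omit [Fintype n] [DecidableEq n] in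
lemma clear_denom (Q : Matrix n n (MvPolynomial (n × n) Ω)) (δ f : MvPolynomial (n × n) Ω) :
    ∃ (N : ℕ) (f' : MvPolynomial (n × n) Ω), ∀ (E : Type) [Field E] [Algebra Ω E]
      (γ : Matrix n n E), ev γ δ ≠ 0 →
      ev γ f' = ev γ δ ^ N * ev ((ev γ δ)⁻¹ • Q.map (ev (Ω := Ω) γ)) f := by
  induction f using MvPolynomial.induction_on with
  | C c => exact ⟨0, C c, fun E _ _ γ _ => by simp⟩
  | add f g hf hg =>
    obtain ⟨N, f', hf⟩ := hf
    obtain ⟨M, g', hg⟩ := hg
    refine ⟨N + M, δ ^ M * f' + δ ^ N * g', fun E _ _ γ hγ => ?_⟩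
    simp only [map_add, map_mul, map_pow, hf E γ hγ, hg E γ hγ]
    ring
  | mul_X f p hf =>
    obtain ⟨N, f', hf⟩ := hf
    refine ⟨N + 1, f' * Q p.1 p.2, fun E _ _ γ hγ => ?_⟩
    simp only [map_mul, hf E γ hγ, ev_X, Matrix.smul_apply, Matrix.map_apply, smul_eq_mul]
    generalize ev ((ev γ δ)⁻¹ • Q.map (ev (Ω := Ω) γ)) f = u
    field_simp
    ring

omit [Fintype n] [DecidableEq n] in
/-- rational maps respect closures -/
lemma Cl.rat {S S' : Set (Matrix n n Ω)} (Q : Matrix n n (MvPolynomial (n × n) Ω))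
    (δ : MvPolynomial (n × n) Ω)
    (h : ∀ g ∈ S, ev g δ ≠ 0 → (ev g δ)⁻¹ • Q.map (ev (Ω := Ω) g) ∈ Cl S' Ω)
    {γ : Matrix n n E} (hγ : γ ∈ Cl S E) (hδ : ev γ δ ≠ 0) :
    (ev γ δ)⁻¹ • Q.map (ev (Ω := Ω) γ) ∈ Cl S' E := by
  intro f hf
  obtain ⟨N, f', hf'⟩ := clear_denom Q δ f
  have := hγ (f' * δ) (fun g hg => by
    by_cases h0 : ev g δ = 0
    · rw [map_mul, h0, mul_zero]
    · rw [map_mul, hf' Ω g h0, h g hg h0 f hf]; simp)
  rw [map_mul, hf' E γ hδ] at this
  simpa [hδ] using this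

lemma Cl.inv {S : Set (Matrix n n Ω)} (h : ∀ g ∈ S, g⁻¹ ∈ Cl S Ω)
    {γ : Matrix n n E} (hγ : γ ∈ Cl S E) (hδ : IsUnit γ) : γ⁻¹ ∈ Cl S E := by
  have e : ∀ (E : Type) [Field E] [Algebra Ω E] (γ : Matrix n n E),
      ev γ (gen Ω n).det = γ.det ∧
      (ev γ (gen Ω n).det)⁻¹ • (gen Ω n).adjugate.map (ev (Ω := Ω) γ) = γ⁻¹ := by
    intro E _ _ γ
    have h1 : ev γ (gen Ω n).det = γ.det := by
      rw [AlgHom.map_det]; congr 1; exact gen_map γ
    refine ⟨h1, ?_⟩
    rw [h1, Matrix.inv_def, Ring.inverse_eq_inv']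
    congr 1
    have := AlgHom.map_adjugate (ev (Ω := Ω) γ) (gen Ω n)
    simp only [AlgHom.mapMatrix_apply, gen_map] at this
    exact this
  rw [← (e E γ).2]
  refine Cl.rat _ _ (fun g hg _ => ?_) hγ ?_
  · rw [(e Ω g).2]; exact h g hg
  · rw [(e E γ).1]; exact ((Matrix.isUnit_iff_isUnit_det γ).mp hδ).ne_zero

end Curves

end Pool.Agent.P.MP_7d29e8_ag
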