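import Pool.Agent.P.MP_7d29e8_ag.Defs

set_option autoImplicit false

/-! Reductive groups over `ℚ_p` as matrix groups, Newton points, the Kottwitz homomorphism and
Kottwitz sets. Here `O` is the ring of Witt vectors of the algebraic closure of `𝔽_p`, `K` its
fraction field with Frobenius `σ` (fixed field `ℚ_p`), and `Ω` an algebraic closure of `K`. -/

namespace Pool.Agent.P.MP_7d29e8_ag

open scoped Classical
open MvPolynomial Matrix

variable (O K : Type) {Ω : Type} [CommRing O] [Field K] [Field Ω] [Algebra O K] [Algebra K Ω]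
  {n n' : Type} [Fintype n] [DecidableEq n] [Fintype n'] [DecidableEq n']

/-- the ideal of polynomials vanishing on `G` -/
noncomputable def vanG (G : Subgroup (GL n Ω)) : Ideal (MvPolynomial (n × n) Ω) :=
  vanishingIdeal Ω {x : n × n → Ω | ∃ g ∈ G, ∀ q, x q = g.val q.1 q.2}

variable {K} in
/-- `G` is the group of `Ω`-points of a connected reductive subgroup of `GL n` over `ℚ_p` -/
structure IsRed (σ : K ≃+* K) (G : Subgroup (GL n Ω)) : Prop where
  eqs : ∃ F : Set (MvPolynomial (n × n) K), (∀ f ∈ F, map (σ : K →+* K) f = f) ∧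
    ∀ g : GL n Ω, g ∈ G ↔ ∀ f ∈ F, aeval (fun q : n × n => g.val q.1 q.2) f = 0
  conn : (vanG G).IsPrime
  red : ∀ U ≤ G, (∀ g ∈ G, ∀ u ∈ U, g * u * g⁻¹ ∈ U) → (∀ u ∈ U, IsNilpotent (u.val - 1)) → U = ⊥

/-- the Lie algebra, as tangent space at `1` -/
def lieG (G : Subgroup (GL n Ω)) : Set (Matrix n n Ω) :=
  {X | ∀ f ∈ vanG G, ∑ q : n × n,
    eval (fun r : n × n => (1 : Matrix n n Ω) r.1 r.2) (pderiv q f) * X q.1 q.2 = 0}

/-- a map given by polynomials over `K` in the entries of `g` and `g⁻¹` -/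
def Reg {G : Subgroup (GL n Ω)} {G' : Subgroup (GL n' Ω)} (ψ : G → G') : Prop :=
  ∀ i j, ∃ f : MvPolynomial ((n × n) ⊕ (n × n)) K, ∀ g : G, (ψ g).val.val i j =
    aeval (Sum.elim (fun q : n × n => g.val.val q.1 q.2)
      (fun q : n × n => (g⁻¹).val.val q.1 q.2)) f

variable {K} in
/-- `g` is `K`-rational and `H` is the differential of the Newton cocharacter of the isocrystal
`(Kⁿ, φ = g σ)`: it commutes with `φ`, and its eigenspace for `m / r` has slope `m / r`. -/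
def Newton (p : ℕ) (σ : K ≃+* K) (g H : Matrix n n Ω) : Prop :=
  ∃ g₀ H₀ : Matrix n n K, g = g₀.map (algebraMap K Ω) ∧ H = H₀.map (algebraMap K Ω) ∧
    g₀ * H₀.map σ = H₀ * g₀ ∧
    ∀ (m : ℤ) (r : ℕ) (v : n → K), 0 < r → (r : K) • H₀ *ᵥ v = (m : K) • v →
      ∃ Λ : Submodule O (n → K), Λ.FG ∧ v ∈ Λ ∧
        (fun w => g₀ *ᵥ fun i => σ (w i))^[r] '' Λ = (fun w => (p : K) ^ m • w) '' Λ

variable {ι M N : Type} [AddCommGroup M] [Module ℚ M] [AddCommGroup N] [Module ℚ N]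
  (P : RootPairing ι ℚ M N)

/-- the cocharacter lattice of the torus with weights `wt` -/
def lat (wt : n → M) : AddSubgroup N where
  carrier := {x | ∀ i, ∃ z : ℤ, P.toLinearMap (wt i) x = z}
  zero_mem' _ := ⟨0, by simp⟩
  add_mem' h h' i := let ⟨a, ha⟩ := h i; let ⟨b, hb⟩ := h' i; ⟨a + b, by simp [ha, hb]⟩
  neg_mem' h i := let ⟨a, ha⟩ := h i; ⟨-a, by simp [ha]⟩

/-- the differential of the rational cocharacter `x` of the torus `y · diag · y⁻¹` -/
noncomputable def dd (y : GL n Ω) (wt : n → M) (x : N) : Matrix n n Ω :=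
  y.val * diagonal (fun i => (P.toLinearMap (wt i) x : Ω)) * (y⁻¹).val

/-- the value at `t` of the cocharacter `x` (for `x` in the lattice) -/
noncomputable def co (y : GL n Ω) (wt : n → M) (x : N) (t : Ω) : Matrix n n Ω :=
  y.val * diagonal (fun i => t ^ ⌊P.toLinearMap (wt i) x⌋) * (y⁻¹).val

/-- `X` has weight `m` for the torus -/
def IsWt (y : GL n Ω) (wt : n → M) (m : M) (X : Matrix n n Ω) : Prop :=
  ∀ x, dd P y wt x * X - X * dd P y wt x = (P.toLinearMap m x : Ω) • X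

/-- `g θ` acts on cocharacters through the automorphism `a` of the based root datum -/
def Act (b : P.Base) (y : GL n Ω) (wt : n → M) (g : GL n Ω) (θ : Ω ≃+* Ω) (a : P.Aut) : Prop :=
  (∀ i ∈ b.support, a.indexEquiv i ∈ b.support) ∧
    ∀ x, g.val * (dd P y wt x).map θ = dd P y wt (a.coweightMap x) * g.val

/-- `(y, wt)` is a maximal torus `T` of `G` with root datum `P`, the pair `(T, b)` is defined over
`K`, and `g₀ s` preserves it -/
structure Frame (G : Subgroup (GL n Ω)) (b : P.Base) (y : GL n Ω) (wt : n → M)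
    (s : Ω ≃+* Ω) (g₀ : GL n Ω) (a₀ : P.Aut) : Prop where
  span : Submodule.span ℚ (Set.range wt) = ⊤
  tor : ∀ x ∈ lat P wt, ∀ t ≠ 0, ∃ g ∈ G, g.val = co P y wt x t
  cent : ∀ X ∈ lieG G, IsWt P y wt 0 X → X ∈ Submodule.span Ω (Set.range (dd P y wt))
  roots : ∀ m ≠ 0, ∀ X ∈ lieG G, X ≠ 0 → IsWt P y wt m X → m ∈ Set.range P.root
  sl2 : ∀ i, P.coroot i ∈ lat P wt ∧ ∃ e ∈ lieG G, ∃ f ∈ lieG G, IsWt P y wt (P.root i) e ∧
    IsWt P y wt (-P.root i) f ∧ e * f - f * e = dd P y wt (P.coroot i)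
  gal : ∀ τ : Ω ≃ₐ[K] Ω, ∃ a, Act P b y wt 1 τ a
  fr : g₀ ∈ G ∧ Act P b y wt g₀ s a₀

/-- the image of the Galois group of `ℚ_p` in the automorphisms of the based root datum -/
noncomputable def Gam (b : P.Base) (y : GL n Ω) (wt : n → M) (a₀ : P.Aut) : Subgroup P.Aut :=
  Subgroup.closure ({a | ∃ τ : Ω ≃ₐ[K] Ω, Act P b y wt 1 τ a} ∪ {a₀})

/-- the graph of the Kottwitz homomorphism of `G(K)`: it kills unipotent elements and sends the
norm to `K` of `x(e)` to `v(N e) x` -/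
inductive Kap (p : ℕ) (G : Subgroup (GL n Ω)) (y : GL n Ω) (wt : n → M) : GL n Ω → N → Prop
  | unip (u : GL n Ω) (u₀ : Matrix n n K) : u ∈ G →
      u.val = u₀.map (algebraMap K Ω) → IsNilpotent (u₀ - 1) → Kap p G y wt u 0
  | norm (g : GL n Ω) (x : N) (e : Ω) (l : List (Ω ≃ₐ[K] Ω)) (r : ℤ) (u : Oˣ) :
      x ∈ lat P wt → e ≠ 0 → l.Nodup →
      (∀ τ : Ω ≃ₐ[K] Ω, ∃! ρ, ρ ∈ l ∧ ρ e = τ e ∧ (dd P y wt x).map ρ = (dd P y wt x).map τ) →
      (l.map fun ρ => ρ e).prod = algebraMap K Ω (algebraMap O K u) * (p : Ω) ^ r →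
      g.val = (l.map fun ρ : Ω ≃ₐ[K] Ω => (co P y wt x e).map ρ).prod → Kap p G y wt g (r • x)
  | mul (g h : GL n Ω) (x z : N) : Kap p G y wt g x → Kap p G y wt h z →
      Kap p G y wt (g * h) (x + z)

variable {K} in
/-- the elements of `G(K)` whose `σ`-conjugacy class lies in the Kottwitz set `B(G, μ)` -/
def Kot (p : ℕ) (σ : K ≃+* K) (G : Subgroup (GL n Ω)) (b : P.Base) (y : GL n Ω) (wt : n → M)
    (Γ : Subgroup P.Aut) (μ : N) : Set G :=
  {g | ∃ (k : G) (ν z : N) (c : ι → ℚ),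
    Newton O p σ g.val.val (k.val.val * dd P y wt ν * (k⁻¹).val.val) ∧
    (∀ i ∈ b.support, 0 ≤ P.root' i ν) ∧ (∀ i, 0 ≤ c i) ∧
    avg Γ μ - ν = ∑ i ∈ b.support, c i • P.coroot i ∧
    Kap O K P p G y wt g.val z ∧ z - μ ∈ rel Γ (lat P wt)}

end Pool.Agent.P.MP_7d29e8_ag
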