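import Pool.Agent.P.MP_7d29e8_ag.HLie

set_option autoImplicit false

namespace Pool.Agent.P.MP_7d29e8_ag

open MvPolynomial Finset

variable {Ω : Type} [Field Ω] {n : Type} [Fintype n] [DecidableEq n]

/-- the vanishing ideal -/
def van (S : Set (Matrix n n Ω)) : Ideal (MvPolynomial (n × n) Ω) where
  carrier := {f | ∀ g ∈ S, ev g f = 0}
  add_mem' ha hb g hg := by rw [map_add, ha g hg, hb g hg, add_zero]
  zero_mem' g _ := map_zero _
  smul_mem' c f hf g hg := by rw [smul_eq_mul, map_mul, hf g hg, mul_zero]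

/-- the differential as a bilinear map -/
noncomputable def dOneL : MvPolynomial (n × n) Ω →ₗ[Ω] Module.Dual Ω (Matrix n n Ω) :=
  LinearMap.mk₂ Ω (fun f X => dOne f X) (fun f g X => dOne_add_left f g X)
    (fun c f X => by simp [dOne, mul_sum, mul_assoc]) (fun f X Y => dOne_add f X Y)
    (fun c f X => dOne_smul f c X)

lemma exists_lin (φ : Module.Dual Ω (Matrix n n Ω)) :
    ∃ z : MvPolynomial (n × n) Ω, ev (1 : Matrix n n Ω) z = 0 ∧ dOneL z = φ := by
  refine ⟨∑ p : n × n, φ (Matrix.single p.1 p.2 1) • (X p - C ((1 : Matrix n n Ω) p.1 p.2)),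
    by simp, ?_⟩
  refine LinearMap.ext fun Y => ?_
  conv_rhs => rw [Matrix.matrix_eq_sum_single Y, ← Fintype.sum_prod_type']
  rw [map_sum, map_sum, LinearMap.sum_apply]
  refine sum_congr rfl fun p _ => ?_
  have : Matrix.single p.1 p.2 (Y p.1 p.2) = Y p.1 p.2 • Matrix.single p.1 p.2 (1 : Ω) := by simp
  rw [this, map_smul, map_smul, LinearMap.smul_apply, smul_eq_mul, smul_eq_mul, mul_comm]
  congr 1
  change dOne (X p - C ((1 : Matrix n n Ω) p.1 p.2)) Y = _
  simp only [dOne, map_sub, pderiv_C, sub_zero, pderiv_X]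
  rw [sum_eq_single p]
  · simp
  · intro q _ hq; simp [Pi.single_apply, hq.symm]
  · simp

lemma mem_sq_of_dOne {f : MvPolynomial (n × n) Ω} (h0 : ev (1 : Matrix n n Ω) f = 0)
    (h1 : dOneL f = 0) : f ∈ RingHom.ker (ev (Ω := Ω) (1 : Matrix n n Ω)) ^ 2 := by
  have hc : ∀ p : n × n, ev (1 : Matrix n n Ω) (pderiv p f) = 0 := fun p => by
    have := LinearMap.congr_fun h1 (Matrix.single p.1 p.2 1)
    simp only [dOneL, LinearMap.mk₂_apply, dOne, LinearMap.zero_apply] at this
    rw [sum_eq_single p] at this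
    · simpa using this
    · intro q _ hq
      rw [Matrix.single_apply_of_ne, smul_zero]
      rintro ⟨h1, h2⟩; exact hq (Prod.ext h1.symm h2.symm)
    · simp
  have := taylor f (J := RingHom.ker (ev (Ω := Ω) (1 : Matrix n n Ω))) (Y := gen Ω n - 1)
    (fun i j => by
      by_cases h : i = j <;> simp [RingHom.mem_ker, gen, Matrix.one_apply, h])
  rw [add_sub_cancel, ev_gen, h0] at this
  simpa [dOne, hc] using this

open PowerSeries in
theorem dense [Infinite Ω] {S G : Set (Matrix n n Ω)} (h1 : (1 : Matrix n n Ω) ∈ G)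
    (hp : (van G).IsPrime) (hSG : S ⊆ G)
    (hc : ∀ Y ∈ lie G Ω, ∃ γ ∈ Cl S Ω⟦X⟧, ∀ i j,
      (γ - 1 - (PowerSeries.X : Ω⟦X⟧) • Y.map (algebraMap Ω Ω⟦X⟧)) i j ∈
        Ideal.span {(PowerSeries.X : Ω⟦X⟧) ^ 2}) :
    G ⊆ Cl S Ω := by
  set 𝔪 := RingHom.ker (ev (Ω := Ω) (1 : Matrix n n Ω)) with h𝔪
  set I := van G with hI
  set ε : Ω⟦X⟧ := PowerSeries.X with hε
  let b := Module.finBasis Ω (lie G Ω)
  have hz : ∀ i, ∃ z : MvPolynomial (n × n) Ω, z ∈ 𝔪 ∧
      ∀ Y : lie G Ω, dOne z (Y : Matrix n n Ω) = b.repr Y i := by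
    intro i
    obtain ⟨φ, hφ⟩ := LinearMap.exists_extend (b.coord i)
    obtain ⟨z, h0, hz⟩ := exists_lin φ
    refine ⟨z, h0, fun Y => ?_⟩
    have := LinearMap.congr_fun hφ Y
    rw [← hz] at this
    exact this
  choose z hz𝔪 hzd using hz
  have step1 : ∀ f ∈ 𝔪, ∃ a : _ → Ω, f - ∑ i, a i • z i ∈ 𝔪 ^ 2 ⊔ I := by
    intro f hf
    refine ⟨fun i => dOne f (b i : Matrix n n Ω), ?_⟩
    set f' := f - ∑ i, dOne f (b i : Matrix n n Ω) • z i with hf'
    have hD : dOneL f' ∈ ((I.restrictScalars Ω).map dOneL).dualCoannihilator.dualAnnihilator := by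
      rw [Submodule.mem_dualAnnihilator]
      intro Y hY
      have hY' : Y ∈ lie G Ω := fun g hg =>
        (Submodule.mem_dualCoannihilator _).mp hY _ ⟨g, hg, rfl⟩
      have e1 : Y = ∑ i, b.repr ⟨Y, hY'⟩ i • (b i : Matrix n n Ω) := by
        have := congrArg Subtype.val (b.sum_repr ⟨Y, hY'⟩)
        rw [Submodule.coe_sum] at this
        exact this.symm
      rw [hf', map_sub, map_sum, LinearMap.sub_apply, LinearMap.sum_apply, sub_eq_zero]
      conv_lhs => rw [e1, map_sum]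
      refine sum_congr rfl fun i _ => ?_
      rw [map_smul, map_smul, LinearMap.smul_apply, smul_eq_mul, smul_eq_mul, mul_comm]
      congr 1
      exact (hzd i ⟨Y, hY'⟩).symm
    rw [Subspace.dualCoannihilator_dualAnnihilator_eq] at hD
    obtain ⟨g, hg, hgf⟩ := hD
    have : f' - g ∈ 𝔪 ^ 2 := by
      refine mem_sq_of_dOne ?_ (by rw [map_sub, hgf, sub_self])
      have h2 : ev (1 : Matrix n n Ω) g = 0 := hg 1 h1
      have h3 : ev (1 : Matrix n n Ω) f = 0 := hf
      have h4 : ∀ i, ev (1 : Matrix n n Ω) (z i) = 0 := hz𝔪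
      simp [hf', h2, h3, h4]
    have e : f' = (f' - g) + g := by ring
    rw [e]
    exact Submodule.add_mem_sup this hg
  have hγ : ∀ c : Fin (Module.finrank Ω (lie G Ω)) → Ω, ∃ γ ∈ Cl S Ω⟦X⟧,
      (∀ f ∈ 𝔪, ev γ f ∈ Ideal.span {ε}) ∧
      ∀ i, ev γ (z i) - ε * algebraMap Ω Ω⟦X⟧ (c i) ∈ Ideal.span {ε ^ 2} := by
    intro c
    obtain ⟨γ, hγ, hγ'⟩ := hc _ (b.equivFun.symm c).2
    set Y : Matrix n n Ω := (b.equivFun.symm c).1 with hY
    have hle : Ideal.span {ε ^ 2} ≤ Ideal.span {ε} :=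
      Ideal.span_singleton_le_span_singleton.mpr (dvd_pow_self _ two_ne_zero)
    have hent : ∀ i j, (γ - 1) i j ∈ Ideal.span {ε} := fun i j => by
      have := (Ideal.span {ε}).add_mem (hle (hγ' i j))
        (Ideal.mem_span_singleton.mpr ⟨algebraMap Ω Ω⟦X⟧ (Y i j), rfl⟩)
      simpa using this
    have ht : ∀ f ∈ 𝔪, ev γ f - dOne f (γ - 1) ∈ Ideal.span {ε ^ 2} := fun f hf => by
      have := taylor f hent
      have h3 : ev (1 : Matrix n n Ω) f = 0 := hf
      rw [add_sub_cancel, h3, Ideal.span_singleton_pow] at this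
      simpa using this
    refine ⟨γ, hγ, fun f hf => ?_, fun i => ?_⟩
    · have := (Ideal.span {ε}).add_mem (hle (ht f hf)) (dOne_mem f hent)
      simpa using this
    · have h2 := dOne_mem (z i) hγ'
      have h3 : dOne (z i) (γ - 1) =
          dOne (z i) (γ - 1 - ε • Y.map (algebraMap Ω Ω⟦X⟧)) + ε * algebraMap Ω Ω⟦X⟧ (c i) := by
        have e1 : algebraMap Ω Ω⟦X⟧ (c i) = dOne (z i) (Y.map (algebraMap Ω Ω⟦X⟧)) := by
          have := dOne_map (z i) Y (Algebra.linearMap Ω Ω⟦X⟧)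
          have e0 : dOne (z i) Y = c i := by
            rw [hY, hzd, ← Module.Basis.equivFun_apply, LinearEquiv.apply_symm_apply]
          rw [e0] at this
          exact this.symm
        rw [e1, ← dOne_smul, ← dOne_add, sub_add_cancel]
      have := (Ideal.span {ε ^ 2}).add_mem (ht _ (hz𝔪 i)) h2
      convert this using 1
      rw [h3]; ring
  choose γ hγS hγ𝔪 hγz using hγ
  have step2 : ∀ k, ∀ f ∈ 𝔪 ^ k, ∃ q : MvPolynomial (Fin (Module.finrank Ω (lie G Ω))) Ω,
      aeval z q ∈ 𝔪 ^ k ∧ f - aeval z q ∈ 𝔪 ^ (k + 1) ⊔ I ∧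
      ∀ c, ev (γ c) (aeval z q) - ε ^ k * algebraMap Ω Ω⟦X⟧ (eval c q) ∈
        Ideal.span {ε ^ (k + 1)} := by
    intro k
    induction k with
    | zero =>
      intro f _
      refine ⟨MvPolynomial.C (ev (1 : Matrix n n Ω) f), by simp, Ideal.mem_sup_left ?_,
        fun c => by simp⟩
      simp [h𝔪, RingHom.mem_ker]
    | succ k ih =>
      intro f hf
      rw [pow_succ] at hf
      refine Submodule.mul_induction_on hf (fun a ha m hm => ?_) ?_
      · obtain ⟨q, hq1, hq2, hq3⟩ := ih a ha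
        obtain ⟨l, hl⟩ := step1 m hm
        have hL : aeval z (∑ i, l i • (MvPolynomial.X i : MvPolynomial _ Ω)) = ∑ i, l i • z i := by
          simp
        have hLm : ∑ i, l i • z i ∈ 𝔪 :=
          𝔪.sum_mem fun i _ => (𝔪.restrictScalars Ω).smul_mem _ (hz𝔪 i)
        refine ⟨q * ∑ i, l i • MvPolynomial.X i, ?_, ?_, fun c => ?_⟩
        · rw [map_mul, hL, pow_succ]; exact Ideal.mul_mem_mul hq1 hLm
        · rw [map_mul, hL]
          have e : a * m - aeval z q * ∑ i, l i • z i =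
              (a - aeval z q) * m + aeval z q * (m - ∑ i, l i • z i) := by ring
          rw [e]
          refine Ideal.add_mem _ ?_ ?_
          · have := Ideal.mul_mem_mul hq2 hm
            rw [Ideal.sup_mul, ← pow_succ] at this
            exact (sup_le_sup_left Ideal.mul_le_left _ : _ ≤ 𝔪 ^ (k + 1 + 1) ⊔ I) this
          · have := Ideal.mul_mem_mul hq1 hl
            rw [Ideal.mul_sup, ← pow_add] at this
            exact (sup_le_sup_left Ideal.mul_le_right _ : _ ≤ 𝔪 ^ (k + 1 + 1) ⊔ I) this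
        · obtain ⟨u, hu⟩ := Ideal.mem_span_singleton.mp (hq3 c)
          have h5 : ev (γ c) (∑ i, l i • z i) - ε * algebraMap Ω Ω⟦X⟧ (∑ i, l i * c i) ∈
              Ideal.span {ε ^ 2} := by
            have := (Ideal.span {ε ^ 2}).sum_mem (t := univ) fun i _ =>
              Ideal.mul_mem_left _ (algebraMap Ω Ω⟦X⟧ (l i)) (hγz c i)
            convert this using 1
            simp only [map_sum, map_smul, map_mul, mul_sum, ← sum_sub_distrib]
            exact sum_congr rfl fun i _ => by rw [Algebra.smul_def]; ring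
          obtain ⟨w, hw⟩ := Ideal.mem_span_singleton.mp h5
          have e2 : eval c (q * ∑ i, l i • MvPolynomial.X i) = eval c q * ∑ i, l i * c i := by
            simp [smul_eval]
          rw [map_mul, hL, map_mul, e2, map_mul, eq_add_of_sub_eq hu, eq_add_of_sub_eq hw]
          refine Ideal.mem_span_singleton.mpr ⟨ε * u * w + u * algebraMap Ω Ω⟦X⟧ (∑ i, l i * c i) +
            algebraMap Ω Ω⟦X⟧ (eval c q) * w, by ring⟩
      · rintro x y ⟨q, hq1, hq2, hq3⟩ ⟨q', hq1', hq2', hq3'⟩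
        refine ⟨q + q', by rw [map_add]; exact Ideal.add_mem _ hq1 hq1', ?_, fun c => ?_⟩
        · convert Ideal.add_mem _ hq2 hq2' using 1
          rw [map_add]; ring
        · convert Ideal.add_mem _ (hq3 c) (hq3' c) using 1
          simp only [map_add]; ring
  have hI0 : ∀ c, ∀ f ∈ I, ev (γ c) f = 0 := fun c f hf => hγS c f fun g hg => hf g (hSG hg)
  have hpow : ∀ c k, ∀ f ∈ 𝔪 ^ k ⊔ I, ev (γ c) f ∈ Ideal.span {ε ^ k} := by
    intro c k f hf
    obtain ⟨a, ha, i, hi, rfl⟩ := Submodule.mem_sup.mp hf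
    rw [map_add, hI0 c i hi, add_zero, ← Ideal.span_singleton_pow]
    have : Ideal.map (ev (Ω := Ω) (γ c)) (𝔪 ^ k) ≤ Ideal.span {ε} ^ k := by
      rw [Ideal.map_pow]
      exact Ideal.pow_right_mono (Ideal.map_le_iff_le_comap.mpr fun f hf => Ideal.mem_comap.mpr (hγ𝔪 c f hf)) k
    exact this (Ideal.mem_map_of_mem _ ha)
  intro g hg f hf
  have step3 : ∀ k, f ∈ 𝔪 ^ k ⊔ I := by
    intro k
    induction k with
    | zero => simp
    | succ k ih =>
      obtain ⟨a, ha, i, hi, hai⟩ := Submodule.mem_sup.mp ih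
      obtain ⟨q, -, hq2, hq3⟩ := step2 k a ha
      have hq0 : q = 0 := by
        refine MvPolynomial.funext fun c => ?_
        have h2 := hpow c _ _ hq2
        have h3 : ev (γ c) a = 0 := by
          have := hγS c f hf
          rwa [← hai, map_add, hI0 c i hi, add_zero] at this
        rw [map_sub, h3, zero_sub] at h2
        have h4 := Ideal.add_mem _ h2 (hq3 c)
        have h5 : ε ^ (k + 1) ∣ ε ^ k * algebraMap Ω Ω⟦X⟧ (eval c q) := by
          rw [← dvd_neg]
          convert Ideal.mem_span_singleton.mp h4 using 1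
          ring
        rw [pow_succ, mul_dvd_mul_iff_left (pow_ne_zero k PowerSeries.X_ne_zero),
          PowerSeries.X_dvd_iff] at h5
        simpa using h5
      rw [hq0, map_zero, sub_zero] at hq2
      rw [← hai]
      exact Ideal.add_mem _ hq2 (Ideal.mem_sup_right hi)
  haveI := hp
  have hne : 𝔪.map (Ideal.Quotient.mk I) ≠ ⊤ := by
    intro htop
    have : (1 : MvPolynomial (n × n) Ω ⧸ I) ∈ 𝔪.map (Ideal.Quotient.mk I) := htop ▸ trivial
    obtain ⟨x, hx, hx1⟩ := (Ideal.mem_map_iff_of_surjective _ Ideal.Quotient.mk_surjective).mp this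
    have h2 : x - 1 ∈ I := Ideal.Quotient.eq.mp (by simpa using hx1)
    have h3 := h2 1 h1
    have h4 : ev (1 : Matrix n n Ω) x = 0 := hx
    simp [h4] at h3
  have hk := Ideal.iInf_pow_eq_bot_of_isDomain _ hne
  have : Ideal.Quotient.mk I f ∈ (⊥ : Ideal (MvPolynomial (n × n) Ω ⧸ I)) := by
    rw [← hk]
    refine Ideal.mem_iInf.mpr fun k => ?_
    obtain ⟨a, ha, i, hi, hai⟩ := Submodule.mem_sup.mp (step3 k)
    rw [← hai, map_add, Ideal.Quotient.eq_zero_iff_mem.mpr hi, add_zero, ← Ideal.map_pow]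
    exact Ideal.mem_map_of_mem _ ha
  exact (Ideal.Quotient.eq_zero_iff_mem.mp this) g hg

end Pool.Agent.P.MP_7d29e8_ag
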