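import Pool.Agent.P.MP_7d29e8_ag.HBru

set_option autoImplicit false

/-! Generalised minors are perfect powers on products of rational unipotent elements. -/

namespace Pool.Agent.P.MP_7d29e8_ag

open Finset SemidirectProduct
open scoped Classical

variable {Ω : Type} [Field Ω] [CharZero Ω] {n : Type} [Fintype n] [DecidableEq n]
  {ι M N : Type} [AddCommGroup M] [Module ℚ M] [AddCommGroup N] [Module ℚ N]
  {P : RootPairing ι ℚ M N} {wt : n → M}

/-- product of the principal minors of a grading -/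
noncomputable def XD (h : n → ℚ) (R : ℕ) {A : Type} [CommRing A] (g : Matrix n n A) : A :=
  ∏ j ∈ Ioc (-(R : ℤ)) R, DE (Eof fun i => (j : ℚ) ≤ h i) g

/-- the trace form -/
def BB (P : RootPairing ι ℚ M N) (wt : n → M) (x y : N) : ℚ := ∑ i, hh P wt x i * hh P wt y i

omit [DecidableEq n] in
lemma abel_sum {h : n → ℚ} {R : ℕ} (hZ : ∀ i, ∃ z : ℤ, h i = z) (hR : ∀ i, |h i| ≤ R)
    (w : n → ℚ) : ∑ j ∈ Ioc (-(R : ℤ)) R, ∑ i with (j : ℚ) ≤ h i, w i = ∑ i, (h i + R) * w i := by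
  simp only [sum_filter]
  rw [sum_comm]
  refine sum_congr rfl fun i _ => ?_
  obtain ⟨z, hz⟩ := hZ i
  have h1 := hR i
  rw [hz] at h1 ⊢
  have h2 : |z| ≤ R := by exact_mod_cast h1
  rw [abs_le] at h2
  rw [← sum_filter, sum_const, nsmul_eq_mul]
  congr 1
  have : (Ioc (-(R : ℤ)) R).filter (fun j : ℤ => (j : ℚ) ≤ z) = Ioc (-(R : ℤ)) z := by
    ext j; simp only [mem_filter, mem_Ioc, Int.cast_le]; omega
  rw [this, Int.card_Ioc]
  have : (((z - -(R : ℤ)).toNat : ℤ) : ℚ) = ((z + R : ℤ) : ℚ) := by congr 1; omega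
  exact_mod_cast this

lemma XD_map {A A' : Type} [CommRing A] [CommRing A'] (f : A →+* A') (h : n → ℚ) (R : ℕ)
    (g : Matrix n n A) : XD h R (g.map f) = f (XD h R g) := by
  simp only [XD, map_prod, ← DE_map, Eof_map]

lemma zer_comm {A : Type} [CommRing A] {h : n → ℚ} {c : Matrix n n A} (hc : Zer h c) (f : ℚ → A) :
    c * Matrix.diagonal (fun i => f (h i)) = Matrix.diagonal (fun i => f (h i)) * c := by
  ext i j
  rw [Matrix.mul_diagonal, Matrix.diagonal_mul]
  by_cases e : h i = h j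
  · rw [e, mul_comm]
  · simp [hc i j e]

omit [CharZero Ω] in
lemma DE_ac (φ : SL n Ω) (E X : Matrix n n Ω) : DE (ac φ E) (ac φ X) = φ.right (DE E X) := by
  rw [ac_apply, ac_apply, DE_conj (by simp)]
  exact DE_map φ.right.toRingHom E X

lemma ac_Eof {φ : SL n Ω} {h : n → ℚ} (H : ac φ (Matrix.diagonal fun i => (h i : Ω)) =
    Matrix.diagonal fun i => (h i : Ω)) (p : ℚ → Prop) [DecidablePred fun i => p (h i)] :
    ac φ (Eof fun i => p (h i)) = Eof fun i => p (h i) := by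
  have h1 : Zer h φ.left.val := fun i l hn => by
    by_contra h0; exact hn ((ac_entry H i l).1 h0)
  rw [ac_apply, Units.mul_inv_eq_iff_eq_mul]
  have e : (Eof fun i => p (h i) : Matrix n n Ω).map φ.right = Eof fun i => p (h i) :=
    Eof_map φ.right.toRingHom
  rw [e]
  have e2 : (Eof fun i => p (h i) : Matrix n n Ω) =
      Matrix.diagonal fun i => (fun q => if p q then (1 : Ω) else 0) (h i) := by
    rw [Eof]; congr 1; funext i; congr
  rw [e2]
  exact zer_comm h1 (fun q => if p q then (1 : Ω) else 0)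

lemma XD_ac {φ : SL n Ω} {h : n → ℚ} (H : ac φ (Matrix.diagonal fun i => (h i : Ω)) =
    Matrix.diagonal fun i => (h i : Ω)) (R : ℕ) (X : Matrix n n Ω) :
    XD h R (ac φ X) = φ.right (XD h R X) := by
  simp only [XD, map_prod, ← DE_ac]
  exact prod_congr rfl fun j _ => by rw [ac_Eof H fun q => (j : ℚ) ≤ q]

section Ord

open Polynomial

/-- order of vanishing -/
noncomputable def ordr (r : Ω) (f : RatFunc Ω) : ℚ :=
  (rootMultiplicity r f.num : ℚ) - rootMultiplicity r f.denom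

omit [CharZero Ω] in
lemma ordr_div (r : Ω) {p q : (Polynomial Ω)} (hp : p ≠ 0) (hq : q ≠ 0) :
    ordr r (algebraMap _ _ p / algebraMap _ _ q) =
      (rootMultiplicity r p : ℚ) - rootMultiplicity r q := by
  set x : RatFunc Ω := algebraMap _ _ p / algebraMap _ _ q with hx
  have h1 : x.num * q = p * x.denom := (RatFunc.num_mul_eq_mul_denom_iff hq).mpr hx
  have h2 := congrArg (rootMultiplicity r) h1
  rw [rootMultiplicity_mul (h1 ▸ mul_ne_zero hp x.denom_ne_zero),
    rootMultiplicity_mul (mul_ne_zero hp x.denom_ne_zero)] at h2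
  have h3 := congrArg (Nat.cast : ℕ → ℚ) h2
  push_cast at h3
  rw [ordr]; linarith

omit [CharZero Ω] in
lemma ordr_mul (r : Ω) (a b : RatFunc Ω) (ha : a ≠ 0) (hb : b ≠ 0) :
    ordr r (a * b) = ordr r a + ordr r b := by
  have h1 := mul_ne_zero (RatFunc.num_ne_zero ha) (RatFunc.num_ne_zero hb)
  have h2 := mul_ne_zero a.denom_ne_zero b.denom_ne_zero
  conv_lhs => rw [← a.num_div_denom, ← b.num_div_denom, div_mul_div_comm, ← map_mul, ← map_mul]
  rw [ordr_div r h1 h2, rootMultiplicity_mul h1, rootMultiplicity_mul h2, ordr, ordr]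
  push_cast; ring

omit [CharZero Ω] in
lemma ordr_poly (r : Ω) (p : (Polynomial Ω)) : ordr r (algebraMap _ _ p) = rootMultiplicity r p := by
  have := rootMultiplicity_C (1 : Ω) r
  rw [C_1] at this
  simp [ordr, this]

omit [CharZero Ω] in
lemma ordr_const (r c : Ω) : ordr r (algebraMap Ω (RatFunc Ω) c) = 0 := by
  rw [IsScalarTower.algebraMap_apply Ω (Polynomial Ω), ordr_poly]; simp

lemma mat_ext {A B : Matrix n n (Polynomial Ω)} {c : ℕ} (hc : 0 < c)
    (h : ∀ j : ℕ, A.map (evalRingHom ((c * j : ℕ) : Ω)) = B.map (evalRingHom ((c * j : ℕ) : Ω))) :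
    A = B := by
  ext1 i l
  refine eq_of_infinite_eval_eq _ _ ((Set.infinite_range_of_injective
    (f := fun j : ℕ => ((c * j : ℕ) : Ω)) fun a b e => ?_).mono ?_)
  · exact Nat.eq_of_mul_eq_mul_left hc (Nat.cast_injective e)
  · rintro _ ⟨j, rfl⟩
    exact congrFun (congrFun (h j) i) l

lemma poly_ext {f g : (Polynomial Ω)} (h : ∀ j : ℕ, f.eval (j : Ω) = g.eval (j : Ω)) : f = g :=
  eq_of_infinite_eval_eq _ _ ((Set.infinite_range_of_injective Nat.cast_injective).mono (by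
    rintro _ ⟨j, rfl⟩; exact h j))

lemma exists_path {u : Matrix n n Ω} (hu : IsNilpotent (u - 1)) :
    ∃ U : Matrix n n (Polynomial Ω), ∀ j : ℕ, U.map (evalRingHom (j : Ω)) = u ^ j := by
  obtain ⟨k, hk⟩ := hu
  refine ⟨∑ m ∈ range k, (C ((m.factorial : Ω)⁻¹) * descPochhammer Ω m) • ((u - 1) ^ m).map C,
    fun j => ?_⟩
  have h1 : u ^ j = ∑ m ∈ range (j + 1), (j.choose m : Ω) • (u - 1) ^ m := by
    conv_lhs => rw [← sub_add_cancel u 1, (Commute.one_right _).add_pow]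
    exact sum_congr rfl fun m _ => by
      rw [one_pow, mul_one, Nat.cast_smul_eq_nsmul, nsmul_eq_mul, Nat.cast_comm]
  have h2 : ∑ m ∈ range (j + 1), (j.choose m : Ω) • (u - 1) ^ m =
      ∑ m ∈ range (j + 1 + k), (j.choose m : Ω) • (u - 1) ^ m :=
    sum_subset (range_subset_range.mpr (by omega)) fun m _ hm => by
      rw [Nat.choose_eq_zero_of_lt (by simpa using hm)]; simp
  have h3 : ∑ m ∈ range k, (j.choose m : Ω) • (u - 1) ^ m =
      ∑ m ∈ range (j + 1 + k), (j.choose m : Ω) • (u - 1) ^ m :=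
    sum_subset (range_subset_range.mpr (by omega)) fun m _ hm => by
      rw [pow_eq_zero_of_le (by simpa using hm) hk]; simp
  rw [h1, h2, ← h3]
  ext a b
  simp [Matrix.sum_apply, eval_finsetSum, Nat.cast_choose_eq_descPochhammer_div, div_eq_inv_mul]

lemma exists_root [IsAlgClosed Ω] {f : (Polynomial Ω)} (h0 : f.eval 0 = 1) {c : ℕ} (hc : 0 < c)
    (hd : ∀ r, c ∣ rootMultiplicity r f) :
    ∃ y : Ω, f.eval 1 = y ^ c ∧ ∀ θ : Ω ≃+* Ω, f.map (θ : Ω →+* Ω) = f → θ y = y := by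
  set g : (Polynomial Ω) := ∏ a ∈ f.roots.toFinset, (X - C a) ^ (rootMultiplicity a f / c) with hg
  have hm : g.Monic := monic_prod_of_monic _ _ fun a _ => (monic_X_sub_C a).pow _
  have h1 : f = C f.leadingCoeff * g ^ c := by
    conv_lhs => rw [(IsAlgClosed.splits f).eq_prod_roots, prod_multiset_root_eq_finset_root]
    rw [hg, ← prod_pow]
    congr 1
    exact prod_congr rfl fun a _ => by rw [← pow_mul, Nat.div_mul_cancel (hd a)]
  have h2 : f.leadingCoeff * g.eval 0 ^ c = 1 := by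
    rw [← h0]; conv_rhs => rw [h1]
    simp
  have h3 : g.eval 0 ≠ 0 := fun h => by simp [h, hc.ne'] at h2
  refine ⟨g.eval 1 / g.eval 0, ?_, fun θ hθ => ?_⟩
  · rw [div_pow, eq_div_iff (pow_ne_zero _ h3)]
    conv_lhs => rw [h1]
    simp only [eval_mul, eval_C, eval_pow]
    linear_combination (g.eval 1 ^ c) * h2
  · have h4 : θ f.leadingCoeff = f.leadingCoeff := by
      conv_rhs => rw [← hθ, leadingCoeff_map]
      rfl
    have h5 : (g.map (θ : Ω →+* Ω)) ^ c = g ^ c := by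
      have h6 := hθ
      rw [h1, Polynomial.map_mul, Polynomial.map_pow, map_C] at h6
      simp only [RingHom.coe_coe, h4] at h6
      exact mul_left_cancel₀ (C_ne_zero.mpr (left_ne_zero_of_mul_eq_one h2)) h6
    have h6 : g.map (θ : Ω →+* Ω) = g := eq_of_monic_of_associated (hm.map _) hm
      (associated_of_dvd_dvd ((IsIntegrallyClosed.pow_dvd_pow_iff hc.ne').mp h5.dvd)
        ((IsIntegrallyClosed.pow_dvd_pow_iff hc.ne').mp h5.symm.dvd))
    have h7 : ∀ a : Ω, θ a = a → θ (g.eval a) = g.eval a := fun a ha => by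
      conv_rhs => rw [← h6, ← ha]
      exact (eval_map_apply (θ : Ω →+* Ω) a).symm
    rw [map_div₀, h7 1 (map_one θ), h7 0 (map_zero θ)]

end Ord

/-- the group generated by rational unipotent elements -/
def Gp (G : Subgroup (GL n Ω)) (I : Set (SL n Ω)) : Submonoid (GL n Ω) :=
  Submonoid.closure {u | u ∈ G ∧ (∀ φ ∈ I, acu φ u = u) ∧ IsNilpotent (u.val - 1)}

variable {G : Subgroup (GL n Ω)} (D : DS G P wt)
include D

lemma DS.tr_QL {q : N} (hq : q ∈ QL P) : ∑ i, hh P wt q i = 0 := by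
  induction hq using AddSubgroup.closure_induction with
  | mem q hq =>
    obtain ⟨j, rfl⟩ := hq
    obtain ⟨-, e, -, f, -, -, -, hef⟩ := D.sl2 j
    have := congrArg Matrix.trace hef
    rw [Matrix.trace_sub, Matrix.trace_mul_comm, sub_self, DD, Matrix.trace_diagonal] at this
    exact_mod_cast this.symm
  | zero => simp [hh_zero]
  | add x y _ _ h1 h2 => simp [hh_add, sum_add_distrib, h1, h2]
  | neg x _ h1 => simp [hh_neg, h1]

variable [P.IsReduced] [Finite ι]

lemma DS.UU_nn {E : Type} [Field E] [CharZero E] [Algebra Ω E] {x ζ : N}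
    (h : ∀ i, 0 < P.root' i x → 0 ≤ P.root' i ζ) {u : GL n E}
    (hu : u ∈ UU G E (hh P wt x)) : NN (hh P wt ζ) u.val := by
  have := D.ugen x hu
  clear hu
  induction this using Submonoid.closure_induction with
  | mem r hr =>
    obtain ⟨i, hi, X, -, wX, rfl⟩ := hr
    rcases (h i hi).eq_or_lt with h0 | h0
    · exact (ex_zer wX.nil (wX.zer h0.symm)).nn
    · exact NN.of_unip (ex_pos (wX.pos h0))
  | one => exact NN.one
  | mul a b _ _ ha hb => exact ha.mul hb

lemma DS.XD_rel {E : Type} [Field E] [CharZero E] [Algebra Ω E] {b : P.Base} {ρ ζ : N}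
    (hρ : ∀ i ∈ b.support, 0 < P.root' i ρ) (hζ : ∀ i ∈ b.support, 0 ≤ P.root' i ζ)
    (hL : ζ ∈ lat P wt) {R : ℕ} (hR : ∀ i, |hh P wt ζ i| ≤ R) {o : E → ℚ}
    (ho : ∀ a b, a ≠ 0 → b ≠ 0 → o (a * b) = o a + o b) (hc : ∀ c, o (algebraMap Ω E c) = 0)
    {g : GL n E} {x : N} (hg : RelB G b wt ρ o g x) (h0 : XD (hh P wt ζ) R g.val ≠ 0) :
    ∃ x', x' - x ∈ QL P ∧ o (XD (hh P wt ζ) R g.val) = ∑ i, (hh P wt ζ i + R) * hh P wt x' i := by
  obtain ⟨a, ha, t, ht, l, w, c, hc', x', h1, -, ⟨-, ⟨w₀, rfl⟩, -⟩, h4, rfl⟩ := hg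
  refine ⟨x', h4, ?_⟩
  have n1 : NN (-hh P wt ζ) a.val := by
    rw [← hh_neg]
    refine D.UU_nn (fun i hi => ?_) ha
    have h5 : b.IsPos (P.reflectionPerm i i) := by
      rw [← pos_iff hρ, root'_neg, ← map_neg]; exact hi
    have := pos_nonneg h5 hζ
    rwa [root'_neg, ← map_neg] at this
  have n2 : NN (hh P wt ζ) c.val := D.UU_nn (fun i hi => pos_nonneg ((pos_iff hρ i).mp hi) hζ) hc'
  have n3 := (h1.zer (-hh P wt ζ)).nn
  obtain ⟨τ, rfl, -, h5⟩ := h1
  have key : ∀ j : ℤ, DE (Eof fun i => (j : ℚ) ≤ hh P wt ζ i)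
      (a * dU τ * Matrix.GeneralLinearGroup.map (algebraMap Ω E) w₀ * c).val =
      (∏ i with (j : ℚ) ≤ hh P wt ζ i, (τ i : E)) *
        algebraMap Ω E (DE (Eof fun i => (j : ℚ) ≤ hh P wt ζ i) w₀.val) := by
    intro j
    have hS : ∀ i k, hh P wt ζ k ≤ hh P wt ζ i → (j : ℚ) ≤ hh P wt ζ k → (j : ℚ) ≤ hh P wt ζ i :=
      fun i k h1 h2 => h2.trans h1
    rw [Units.val_mul, DE_mul_right Eof_mul_self (Eof_up hS n2), DE_pos hc'.2, mul_one, mul_assoc,
      Units.val_mul, DE_mul_left Eof_mul_self (Eof_down hS n1), DE_pos ha.2, one_mul,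
      Units.val_mul, DE_mul_left Eof_mul_self (Eof_down hS n3), dU_val, DE_diagonal, ← DE_map,
      Eof_map]
    rfl
  rw [XD] at h0 ⊢
  rw [mulv_prod ho _ (prod_ne_zero_iff.mp h0), ← abel_sum (mem_lat.mp hL) hR]
  refine sum_congr rfl fun j hj => ?_
  have h6 := prod_ne_zero_iff.mp h0 j hj
  rw [key] at h6 ⊢
  rw [ho _ _ (left_ne_zero_of_mul h6) (right_ne_zero_of_mul h6), hc, add_zero,
    mulv_prod ho _ fun i _ => (τ i).ne_zero]
  exact sum_congr rfl fun i _ => h5 i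

open Polynomial in
theorem DS.div [P.IsCrystallographic] [IsAlgClosed Ω] {b : P.Base} {ζ : N}
    (hζ : ∀ i ∈ b.support, 0 ≤ P.root' i ζ)
    (hL : ζ ∈ lat P wt) {R : ℕ} (hR : ∀ i, |hh P wt ζ i| ≤ R) {c : ℕ} (hc : 0 < c)
    (hB : ∀ q ∈ QL P, ∃ z : ℤ, BB P wt ζ q = c * z) {I : Set (SL n Ω)}
    (hI : ∀ φ ∈ I, ac φ (DD P wt Ω ζ) = DD P wt Ω ζ) {u : GL n Ω} (hu : u ∈ Gp G I) :
    ∃ y : Ω, XD (hh P wt ζ) R u.val = y ^ c ∧ ∀ φ ∈ I, φ.right y = y := by
  obtain ⟨ρ, -, hρ⟩ := exists_coweight b (fun _ => 1)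
  have hρ' : ∀ i ∈ b.support, 0 < P.root' i ρ := fun i hi => by rw [hρ i hi]; exact one_pos
  have hZ : ∀ r : Ω, ∀ a : RatFunc Ω, a ≠ 0 → ∃ z : ℤ, ordr r a = z := fun r a _ =>
    ⟨rootMultiplicity r a.num - rootMultiplicity r a.denom, by simp [ordr]⟩
  have key : ∃ (Γ : Matrix n n (Polynomial Ω)) (γ : GL n (RatFunc Ω)),
      γ.val = Γ.map (algebraMap _ _) ∧ Γ.map (evalRingHom 0) = 1 ∧
      Γ.map (evalRingHom 1) = u.val ∧
      (∀ j : ℕ, ∀ φ ∈ I, ac φ (Γ.map (evalRingHom (j : Ω))) = Γ.map (evalRingHom (j : Ω))) ∧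
      ∀ r, ∃ z ∈ lat P wt, Qp G b wt ρ (ordr r) γ (c • z) := by
    induction hu using Submonoid.closure_induction with
    | mem u hu =>
      obtain ⟨hG, hr, hn⟩ := hu
      obtain ⟨U, hU⟩ := exists_path hn
      let κ : (Polynomial Ω) →+* (Polynomial Ω) := eval₂RingHom C (C ((c : Ω)⁻¹) * X)
      have hκ : ∀ j : ℕ, (U.map κ).map (evalRingHom ((c * j : ℕ) : Ω)) = u.val ^ j := fun j => by
        rw [← hU]
        ext a a'
        have : (c : Ω) ≠ 0 := by exact_mod_cast hc.ne'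
        simp [κ, ← comp.eq_def, eval_comp, this]
      have h1 : (U.map κ) ^ c = U := mat_ext hc fun j => by
        rw [← RingHom.mapMatrix_apply, map_pow, RingHom.mapMatrix_apply, hκ, hU, ← pow_mul,
          mul_comm]
      have h2 : U.map κ ∈ Cl (GS G) (Polynomial Ω) := by
        refine Cl.poly (Set.infinite_range_of_injective (f := fun j : ℕ => ((c * j : ℕ) : Ω))
          fun a b e => Nat.eq_of_mul_eq_mul_left hc (Nat.cast_injective e)) ?_
        rintro _ ⟨j, rfl⟩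
        exact (hκ j : (U.map κ).map (eval _) = _) ▸ Cl.self ⟨u ^ j, pow_mem hG j, by simp⟩
      have h3 : U.det = 1 := poly_ext fun j => by
        have := (evalRingHom (j : Ω)).map_det U
        rw [RingHom.mapMatrix_apply, hU, Matrix.det_pow, ← add_sub_cancel 1 u.val,
          det_one_add_nil hn, one_pow] at this
        simpa using this
      obtain ⟨γ, hγ⟩ : IsUnit ((U.map κ).map (algebraMap (Polynomial Ω) (RatFunc Ω))) := by
        rw [Matrix.isUnit_iff_isUnit_det, ← RingHom.mapMatrix_apply, ← RingHom.map_det,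
          ← RingHom.mapMatrix_apply, ← RingHom.map_det, h3]
        simp
      have h4 : γ ∈ GE G (RatFunc Ω) := by
        change γ.val ∈ Cl _ _
        rw [hγ]
        exact Cl.map h2 (IsScalarTower.toAlgHom Ω (Polynomial Ω) (RatFunc Ω))
      refine ⟨U, γ ^ c, ?_, by simpa using hU 0, by simpa using hU 1, fun j φ hφ => ?_,
        fun r => ?_⟩
      · rw [Units.val_pow_eq_pow_val, hγ, ← RingHom.mapMatrix_apply, ← map_pow, h1]; rfl
      · rw [hU, map_pow, ← acu_val, hr φ hφ]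
      · obtain ⟨z, hz, h5⟩ := D.qp_all hρ' (ordr_mul r) (hZ r) h4
        refine ⟨z, hz, ?_⟩
        clear h1 hκ h2 hγ hB hc
        induction c with
        | zero => intro g x hg; simpa using hg
        | succ c ih => rw [pow_succ, succ_nsmul]; exact ih.mul h5
    | one =>
      refine ⟨1, 1, by simp, by simp, by simp, fun j φ _ => by simp, fun r =>
        ⟨0, zero_mem _, fun g x hg => by simpa using hg⟩⟩
    | mul u u' _ _ h1 h2 =>
      obtain ⟨Γ, γ, a1, a2, a3, a4, a5⟩ := h1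
      obtain ⟨Γ', γ', b1, b2, b3, b4, b5⟩ := h2
      refine ⟨Γ * Γ', γ * γ', by simp [a1, b1], by rw [Matrix.map_mul, a2, b2, mul_one],
        by rw [Matrix.map_mul, a3, b3, Units.val_mul],
        fun j φ hφ => by rw [Matrix.map_mul, map_mul, a4 j φ hφ, b4 j φ hφ], fun r => ?_⟩
      obtain ⟨z, hz, h3⟩ := a5 r
      obtain ⟨z', hz', h4⟩ := b5 r
      exact ⟨z + z', add_mem hz hz', by rw [smul_add]; exact h3.mul h4⟩
  obtain ⟨Γ, γ, a1, a2, a3, a4, a5⟩ := key
  set f := XD (hh P wt ζ) R Γ with hf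
  have hev : ∀ a : Ω, f.eval a = XD (hh P wt ζ) R (Γ.map (evalRingHom a)) := fun a =>
    (XD_map (evalRingHom a) _ _ _).symm
  have h0 : f.eval 0 = 1 := by rw [hev, a2]; simp [XD, DE_one Eof_mul_self]
  have hf0 : f ≠ 0 := fun h => by simp [h] at h0
  obtain ⟨y, h1, h2⟩ := exists_root h0 hc fun r => by
    obtain ⟨z, hz, h3⟩ := a5 r
    have h4 := h3 _ _ (RelB.one (ordr_mul r))
    rw [mul_one, add_zero] at h4
    have h5 : XD (hh P wt ζ) R γ.val = algebraMap _ _ f := by rw [a1, XD_map]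
    obtain ⟨x', h6, h7⟩ := D.XD_rel hρ' hζ hL hR (ordr_mul r) (ordr_const r) h4 (by
      rw [h5]; simpa using hf0)
    obtain ⟨m, hm⟩ := hB _ h6
    have h8 := D.tr_QL h6
    choose k hk using mem_lat.mp hL
    choose k' hk' using mem_lat.mp hz
    have h9 : (rootMultiplicity r f : ℚ) = c * (m + ∑ i, (k i + R) * k' i : ℤ) := by
      rw [← ordr_poly, ← h5, h7]
      have e : ∀ i, hh P wt x' i = hh P wt (x' - c • z) i + c * k' i := fun i => by
        rw [hh_sub, ← Nat.cast_smul_eq_nsmul ℚ, hh_smul, hk']; ring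
      rw [BB] at hm
      rw [sum_congr rfl fun i _ => by rw [e i]]
      simp only [add_mul, mul_add, sum_add_distrib, hm, ← mul_sum, h8]
      push_cast
      simp only [hk, mul_add, sum_add_distrib, mul_sum, add_mul]
      simp [mul_left_comm, add_assoc]
    exact Int.natCast_dvd_natCast.mp ⟨_, by exact_mod_cast h9⟩
  refine ⟨y, by rw [← h1, hev, a3], fun φ hφ => h2 _ (poly_ext fun j => ?_)⟩
  have := eval_map_apply (p := f) (φ.right : Ω →+* Ω) (j : Ω)
  rw [map_natCast] at this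
  rw [this, hev, RingHom.coe_coe, ← XD_ac (hI φ hφ), a4 j φ hφ]

end Pool.Agent.P.MP_7d29e8_ag
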