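import Pool.Agent.P.MP_7d29e8_ag.HBru
import Pool.Agent.P.MP_7d29e8_ag.Crit

set_option autoImplicit false

/-! Twisted Coxeter elements and coroot corrections. -/

namespace Pool.Agent.P.MP_7d29e8_ag

open scoped Classical
open Finset

variable {ι M N : Type} [AddCommGroup M] [Module ℚ M] [AddCommGroup N] [Module ℚ N]
  {P : RootPairing ι ℚ M N}

lemma act_wN (a : P.Aut) (l : List ι) (x : N) :
    a.coweightMap (wN P l x) = wN P (l.map a.indexEquiv.symm) (a.coweightMap x) := by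
  induction l with
  | nil => rfl
  | cons i l ih =>
    rw [List.map_cons, wN_cons, wN_cons, ← ih, P.coreflection_apply, P.coreflection_apply, map_sub,
      map_smul, coroot_act, root_act, Equiv.apply_symm_apply]

lemma cw_inv (a : P.Aut) (x : N) : a.coweightMap (a⁻¹.coweightMap x) = x := by
  rw [← cw_mul, inv_mul_cancel]; rfl

lemma cw_surj (a : P.Aut) : Function.Surjective a.coweightMap := fun x => ⟨_, cw_inv a x⟩

lemma root_O {b : P.Base} {Γ : Subgroup P.Aut} {i j : ι} (hj : j ∈ O b Γ i) {y : N}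
    (hy : ∀ a ∈ Γ, a.coweightMap y = y) : P.root' j y = P.root' i y := by
  obtain ⟨_, g, hg, rfl⟩ := mem_filter.mp hj
  rw [← root_act, hy g hg]

lemma QL_le_rel (Γ : Subgroup P.Aut) (L : AddSubgroup N) : QL P ≤ rel Γ L :=
  AddSubgroup.closure_mono Set.subset_union_left

lemma QL_span {x : N} (hx : x ∈ QL P) : x ∈ Submodule.span ℚ (Set.range P.coroot) :=
  (AddSubgroup.closure_le (Submodule.span ℚ (Set.range P.coroot)).toAddSubgroup).mpr
    Submodule.subset_span hx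

variable [Finite ι] [P.IsCrystallographic] {b : P.Base} {Γ Γ' : Subgroup P.Aut}
  {L : AddSubgroup N} {ω : ι → M} (S : Setup b Γ L ω)
include S

omit [Finite ι] [P.IsCrystallographic] in
lemma Setup.mono (h : Γ' ≤ Γ) : Setup b Γ' L ω :=
  ⟨fun g hg => S.stab g (h hg), S.co, S.wmem, S.wdual⟩

omit [Finite ι] [P.IsCrystallographic] in
lemma Setup.w_span {j : ι} (hj : j ∈ b.support) {s : Set ι} (hs : s ⊆ b.support) (hd : j ∉ s)
    {x : N} (hx : x ∈ Submodule.span ℚ (P.coroot '' s)) : P.toLinearMap (ω j) x = 0 := by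
  induction hx using Submodule.span_induction with
  | mem x hx =>
    obtain ⟨k, hk, rfl⟩ := hx
    rw [S.wdual j hj k (hs hk), if_neg (fun e : j = k => hd (e ▸ hk))]
  | zero => simp
  | add x y _ _ hx hy => rw [map_add, hx, hy, add_zero]
  | smul a x _ hx => rw [map_smul, hx, smul_zero]

lemma Setup.fix_of_root {x : N} (hx : x ∈ Submodule.span ℚ (Set.range P.coroot))
    (h : ∀ a ∈ Γ, ∀ i ∈ b.support, P.root' (a.indexEquiv i) x = P.root' i x) :
    ∀ a ∈ Γ, a.coweightMap x = x := fun a ha => by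
  rw [← sub_eq_zero]
  exact eq_zero_of_central b (sub_mem (act_span a hx) hx) fun i hi => by
    rw [map_sub, root_act, h a ha i hi, sub_self]

lemma Setup.correct [Finite Γ] {J : Set ι} (hJ : ∀ a ∈ Γ, ∀ i ∈ J, a.indexEquiv i ∈ J) {w : N}
    (hw : w ∈ Submodule.span ℚ (Set.range P.coroot)) (hf : ∀ a ∈ Γ, a.coweightMap w = w)
    (hZ : ∀ i ∈ b.support, i ∉ J → ∃ z : ℤ, orbL b Γ ω i w = z) :
    ∃ q ∈ QL P, w - avg Γ q ∈ Submodule.span ℚ (P.coroot '' {i | i ∈ b.support ∧ i ∈ J}) := by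
  let rp : Finset ι → ι → ι := fun s i => if h : s.Nonempty then h.choose else i
  have hrp : ∀ i ∈ b.support, ∀ k, rp (O b Γ i) k ∈ O b Γ i := fun i hi k => by
    have h : (O b Γ i).Nonempty := ⟨i, mem_O_self hi⟩
    simp only [rp, dif_pos h]
    exact h.choose_spec
  have hrp' : ∀ i ∈ b.support, ∀ k k', rp (O b Γ i) k = rp (O b Γ i) k' := fun i hi k k' => by
    have h : (O b Γ i).Nonempty := ⟨i, mem_O_self hi⟩
    simp only [rp, dif_pos h]
  set q := ∑ i ∈ b.support with i ∉ J ∧ rp (O b Γ i) i = i, orbL b Γ ω i w • P.coroot i with hq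
  have hqQ : q ∈ QL P := sum_mem fun i hi =>
    zsmul_QL i (hZ i (mem_filter.mp hi).1 (mem_filter.mp hi).2.1)
  refine ⟨q, hqQ, ?_⟩
  have h1 := sub_mem hw (avg_span (Γ := Γ) (QL_span hqQ))
  rw [S.expand h1]
  refine sum_mem fun k hk => ?_
  by_cases hkJ : k ∈ J
  · exact Submodule.smul_mem _ _ (Submodule.subset_span ⟨k, ⟨hk, hkJ⟩, rfl⟩)
  have h2 := S.orb_inv hk (v := w - avg Γ q) fun g hg => by rw [map_sub, hf g hg, act_avg Γ hg]
  have h3 : orbL b Γ ω k q = orbL b Γ ω k w := by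
    have h4 := hrp k hk k
    rw [hq, map_sum, sum_eq_single (rp (O b Γ k) k), map_smul, S.orb_coroot k (O_sub _ _ _ h4),
      if_pos h4, smul_eq_mul, mul_one, orbL, orbL, O_eq h4]
    · intro i hi hne
      rw [map_smul, S.orb_coroot k (mem_filter.mp hi).1, if_neg, smul_zero]
      intro h5
      have := (mem_filter.mp hi).2.2
      rw [O_eq h5] at this
      exact hne (this.symm.trans (hrp' k hk _ _))
    · intro h5
      refine absurd (mem_filter.mpr ⟨O_sub _ _ _ h4, fun h6 => hkJ ?_, ?_⟩) h5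
      · obtain ⟨_, g, hg, e⟩ := mem_filter.mp h4
        have := hJ g⁻¹ (inv_mem hg) _ h6
        rwa [← e, idx_inv, Equiv.symm_apply_apply] at this
      · rw [O_eq h4]; exact hrp' k hk _ _
  rw [map_sub, S.orb_avg, h3, sub_self] at h2
  have h4 : ((O b Γ k).card : ℚ) ≠ 0 := by
    exact_mod_cast (card_pos.mpr ⟨k, mem_O_self hk⟩).ne'
  rw [(mul_eq_zero.mp h2.symm).resolve_left h4, zero_smul]
  exact zero_mem _

variable [P.IsReduced]

lemma Setup.long {ρ : N} (hρ' : ∀ a ∈ Γ, a.coweightMap ρ = ρ) {i : ι} :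
    ∃ l : List ι, (∀ j ∈ l, j ∈ O b Γ i) ∧ (∀ a ∈ Γ, a.coweightMap (wN P l ρ) = wN P l ρ) ∧
      ∀ j ∈ O b Γ i, P.root' j (wN P l ρ) ≤ 0 := by
  obtain ⟨l, h1, h2⟩ := climb (b := b) (J := O b Γ i) (O_sub b Γ i) (-ρ)
  refine ⟨l, h1, fun a ha => ?_, fun j hj => by simpa using h2 j hj⟩
  have h3 := dom_unique_J (b := b) (J := O b Γ i) (O_sub b Γ i) h2
    (l := l.map a.indexEquiv.symm ++ l.reverse) (fun j hj => by
      rcases List.mem_append.mp hj with h | h
      · obtain ⟨k, hk, rfl⟩ := List.mem_map.mp h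
        exact S.act_mem_O (inv_mem ha) (h1 k hk)
      · exact h1 j (List.mem_reverse.mp h)) (fun j hj => by
      rw [wN_append, wN_reverse, ← hρ' a ha, ← map_neg, ← act_wN, root_act]
      exact h2 _ (S.act_mem_O ha hj))
  rw [wN_append, wN_reverse] at h3
  conv_lhs at h3 => rw [← hρ' a ha, ← map_neg, ← act_wN]
  simpa using h3

theorem Setup.ell (hle : Γ' ≤ Γ) {ρ : N} (hρ : ∀ i ∈ b.support, P.root' i ρ = 1)
    (hρ' : ∀ a ∈ Γ', a.coweightMap ρ = ρ) (Lf : List ι → Prop) (h0 : Lf [])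
    (happ : ∀ l l', Lf l → Lf l' → Lf (l ++ l'))
    (hlf : ∀ l, (∀ a ∈ Γ', a.coweightMap (wN P l ρ) = wN P l ρ) → Lf l) (J : Finset ι)
    (hJ : J ⊆ b.support) (hJΓ : ∀ a ∈ Γ, ∀ i ∈ J, a.indexEquiv i ∈ J) :
    ∃ l, Lf l ∧ (∀ j ∈ l, j ∈ J) ∧ ∀ y, (∀ a ∈ Γ', a.coweightMap y = y) →
      (∀ a ∈ Γ', a.coweightMap (wN P l y) = wN P l y) ∧
      ((∀ i ∈ J, orbL b Γ ω i (wN P l y - y) = 0) →
        wN P l y = y ∧ ∀ i ∈ J, ∃ j ∈ O b Γ i, P.root' j y = 0) := by
  induction J using Finset.strongInduction with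
  | H J ih =>
    rcases J.eq_empty_or_nonempty with rfl | ⟨i, hi⟩
    · exact ⟨[], h0, by simp, fun y hy => ⟨hy, by simp⟩⟩
    have hOJ : O b Γ i ⊆ J := fun j hj => by
      obtain ⟨_, g, hg, rfl⟩ := mem_filter.mp hj
      exact hJΓ g hg i hi
    have hOO : O b Γ' i ⊆ O b Γ i := fun j hj => by
      obtain ⟨h, g, hg, e⟩ := mem_filter.mp hj
      exact mem_filter.mpr ⟨h, g, hle hg, e⟩
    obtain ⟨l', a1, a2, a3⟩ := ih (J \ O b Γ i)
      (sdiff_ssubset hOJ ⟨i, mem_O_self (hJ hi)⟩) (sdiff_subset.trans hJ) (fun g hg j hj => by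
        obtain ⟨h1, h2⟩ := mem_sdiff.mp hj
        refine mem_sdiff.mpr ⟨hJΓ g hg j h1, fun h => h2 ?_⟩
        have := S.act_mem_O (inv_mem hg) h
        rwa [idx_inv, Equiv.symm_apply_apply] at this)
    obtain ⟨l, b1, b2, b3⟩ := (S.mono hle).long hρ' (i := i)
    have hw : ∀ y, (∀ a ∈ Γ', a.coweightMap y = y) →
        wN P l y = y + P.root' i y • (wN P l ρ - ρ) := fun y hy => by
      have := wN_fix (P := P) (l := l) (x := y - P.root' i y • ρ) fun j hj => by
        rw [map_sub, map_smul, root_O (b1 j hj) hy, hρ j (O_sub _ _ _ (b1 j hj))]; simp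
      rw [map_sub, map_smul, sub_eq_iff_eq_add] at this
      rw [this]; module
    have hsp : wN P l ρ - ρ ∈ Submodule.span ℚ (P.coroot '' (O b Γ' i : Set ι)) := wN_sub_mem b1 ρ
    have hne : orbL b Γ ω i (wN P l ρ - ρ) ≠ 0 := by
      intro h
      have h1 := coeff_nonneg b (fun j => P.toLinearMap (ω j) (-(wN P l ρ - ρ))) fun j hj => by
        rw [S.root_proj]
        by_cases hj' : j ∈ O b Γ' i
        · right; rw [map_neg, map_sub, hρ j hj]; linarith [b3 j hj']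
        · left; rw [S.w_span hj (O_sub _ _ _) hj' (neg_mem hsp)]
      have h2 : orbL b Γ ω i (-(wN P l ρ - ρ)) = 0 := by rw [map_neg, h, neg_zero]
      rw [orbL_apply', sum_eq_zero_iff_of_nonneg fun j hj => h1 j (O_sub _ _ _ hj)] at h2
      have h3 := S.expand (span_mono_range _ (neg_mem hsp))
      rw [sum_eq_zero fun j hj => by
        by_cases hj' : j ∈ O b Γ' i
        · rw [h2 j (hOO hj'), zero_smul]
        · rw [S.w_span hj (O_sub _ _ _) hj' (neg_mem hsp), zero_smul]] at h3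
      have h4 := b3 i (mem_O_self (hJ hi))
      rw [sub_eq_zero.mp (neg_eq_zero.mp h3), hρ i (hJ hi)] at h4
      linarith
    refine ⟨l ++ l', happ _ _ (hlf l b2) a1, fun j hj => ?_, fun y hy => ?_⟩
    · rcases List.mem_append.mp hj with h | h
      · exact hOJ (hOO (b1 j h))
      · exact (mem_sdiff.mp (a2 j h)).1
    obtain ⟨c1, c2⟩ := a3 y hy
    rw [wN_append, hw _ c1]
    refine ⟨fun a ha => by rw [map_add, map_smul, map_sub, c1 a ha, b2 a ha, hρ' a ha],
      fun h => ?_⟩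
    obtain ⟨d1, d2⟩ := c2 fun j hj => by
      obtain ⟨h1, h2⟩ := mem_sdiff.mp hj
      have := h j h1
      rw [add_sub_right_comm, map_add, map_smul, S.orb_span (O_sub _ _ _)
        (fun k hk hk' => h2 (O_eq (hOO hk) ▸ O_eq hk' ▸ mem_O_self (hJ h1))) hsp] at this
      simpa using this
    have d3 := h i hi
    rw [d1, add_sub_cancel_left, map_smul, smul_eq_mul] at d3
    have d4 := (mul_eq_zero.mp d3).resolve_right hne
    rw [d1, d4]
    refine ⟨by simp, fun j hj => ?_⟩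
    by_cases hj' : j ∈ O b Γ i
    · exact ⟨i, O_eq hj' ▸ mem_O_self (hJ hi), d4⟩
    · exact d2 j (mem_sdiff.mpr ⟨hj, hj'⟩)

end Pool.Agent.P.MP_7d29e8_ag
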