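import Pool.Agent.P.MP_7d29e8_ag.HBig
import Pool.Agent.P.MP_7d29e8_ag.HBdd

set_option autoImplicit false

/-! Exponentials of nilpotent matrices and the relations in `SL 2`. -/

namespace Pool.Agent.P.MP_7d29e8_ag

open Finset IsNilpotent

section Ring

variable {A : Type} [Ring A] [Algebra ℚ A]

lemma exp_conj3 {e : A} (he : IsNilpotent e) {Y Y₁ Y₂ : A} (h1 : e * Y - Y * e = Y₁)
    (h2 : e * Y₁ - Y₁ * e = Y₂) (h3 : e * Y₂ - Y₂ * e = 0) :
    exp e * Y * exp (-e) = Y + Y₁ + (1 / 2 : ℚ) • Y₂ := by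
  have hL : ∀ {e : A}, IsNilpotent e → IsNilpotent (LinearMap.mulLeft ℚ e) ∧
      ∀ Y, exp (LinearMap.mulLeft ℚ e) Y = exp e * Y := fun {e} ⟨k, hk⟩ => by
    have h0 : LinearMap.mulLeft ℚ e ^ k = 0 := by rw [LinearMap.pow_mulLeft, hk]; simp
    refine ⟨⟨k, h0⟩, fun Y => ?_⟩
    simp [exp_eq_sum h0, exp_eq_sum hk, sum_mul, LinearMap.sum_apply]
  have hR : ∀ {e : A}, IsNilpotent e → IsNilpotent (LinearMap.mulRight ℚ e) ∧
      ∀ Y, exp (LinearMap.mulRight ℚ e) Y = Y * exp e := fun {e} ⟨k, hk⟩ => by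
    have h0 : LinearMap.mulRight ℚ e ^ k = 0 := by rw [LinearMap.pow_mulRight, hk]; simp
    refine ⟨⟨k, h0⟩, fun Y => ?_⟩
    simp [exp_eq_sum h0, exp_eq_sum hk, mul_sum, LinearMap.sum_apply]
  have hc : Commute (LinearMap.mulLeft ℚ e) (LinearMap.mulRight ℚ (-e)) :=
    LinearMap.commute_mulLeft_right _ _
  set T := LinearMap.mulLeft ℚ e + LinearMap.mulRight ℚ (-e) with hT
  have hTa : ∀ Z, T Z = e * Z - Z * e := fun Z => by simp [hT, sub_eq_add_neg]
  have hn : IsNilpotent T := hc.isNilpotent_add (hL he).1 (hR he.neg).1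
  have h4 : exp T Y = exp e * Y * exp (-e) := by
    rw [hT, exp_add_of_commute hc (hL he).1 (hR he.neg).1, Module.End.mul_apply, (hR he.neg).2,
      (hL he).2, mul_assoc]
  have h5 := exp_smul_eq_sum (M := A) (a := T) (m := Y) (k := 3)
    (by simp [_root_.pow_succ, hTa, h1, h2, h3]) hn
  rw [← h4]
  change exp T • Y = _
  rw [h5]
  simp [sum_range_succ, _root_.pow_succ, hTa, h1, h2]

lemma exp_comm {e Y : A} (he : IsNilpotent e) (h : Commute e Y) : Commute (exp e) Y := by
  obtain ⟨k, hk⟩ := he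
  rw [exp_eq_sum hk]
  exact Commute.sum_left _ _ _ fun i _ => (h.pow_left i).smul_left _

lemma sl2_conj {e f h : A} (he : IsNilpotent e) (hf : IsNilpotent f) (h1 : e * f - f * e = h)
    (h2 : h * e - e * h = (2 : ℚ) • e) (h3 : h * f - f * h = (-2 : ℚ) • f) :
    exp e * exp (-f) * exp e * h = - h * (exp e * exp (-f) * exp e) := by
  have a1 : exp e * h * exp (-e) = h - (2 : ℚ) • e := by
    rw [exp_conj3 he (Y₁ := (-2 : ℚ) • e) (Y₂ := 0) (by rw [← neg_sub, h2, neg_smul]) (by simp)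
      (by simp)]
    simp [sub_eq_add_neg]
  have a3 : exp (-f) * h * exp (- -f) = h - (2 : ℚ) • f := by
    rw [exp_conj3 hf.neg (Y₁ := (-2 : ℚ) • f) (Y₂ := 0) (by rw [← h3]; noncomm_ring) (by simp)
      (by simp)]
    simp [sub_eq_add_neg]
  have a4 : exp (-f) * e * exp (- -f) = e + h - f := by
    rw [exp_conj3 hf.neg (Y₁ := h) (Y₂ := (-2 : ℚ) • f) (by rw [← h1]; noncomm_ring)
      (by rw [← h3]; noncomm_ring) (by simp)]
    simp [smul_smul, sub_eq_add_neg]
  have i1 := exp_neg_mul_exp_self he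
  have i2 := exp_neg_mul_exp_self hf.neg
  have b1 : exp e * h = (h - (2 : ℚ) • e) * exp e := by rw [← a1, mul_assoc, i1, mul_one]
  have b2 : exp e * e = e * exp e := exp_comm he (Commute.refl e)
  have b3 : exp (-f) * h = (h - (2 : ℚ) • f) * exp (-f) := by rw [← a3, mul_assoc, i2, mul_one]
  have b4 : exp (-f) * e = (e + h - f) * exp (-f) := by rw [← a4, mul_assoc, i2, mul_one]
  have c1 : exp (-f) * (h - (2 : ℚ) • e) = (-h - (2 : ℚ) • e) * exp (-f) := by
    rw [mul_sub, mul_smul_comm, b3, b4, ← smul_mul_assoc, ← sub_mul]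
    congr 1
    simp only [two_smul]; abel
  have c2 : exp e * (-h - (2 : ℚ) • e) = -h * exp e := by
    rw [mul_sub, mul_neg, mul_smul_comm, b1, b2, ← smul_mul_assoc]
    noncomm_ring
  rw [mul_assoc, b1, ← mul_assoc, mul_assoc (exp e), c1, ← mul_assoc, c2]
  simp only [mul_assoc]

end Ring

variable {n : Type} [Fintype n] [DecidableEq n] {E : Type} [Field E] [CharZero E]

open scoped Classical in
/-- the exponential as an invertible matrix -/
noncomputable def ex (X : Matrix n n E) : GL n E :=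
  if h : IsNilpotent X then ⟨exp X, exp (-X), exp_mul_exp_neg_self h, exp_neg_mul_exp_self h⟩
  else 1

lemma ex_val {X : Matrix n n E} (h : IsNilpotent X) : (ex X).val = exp X := by
  rw [ex, dif_pos h]

lemma ex_inv {X : Matrix n n E} (h : IsNilpotent X) : (ex X)⁻¹ = ex (-X) := by
  rw [inv_eq_iff_mul_eq_one]
  ext1
  rw [Units.val_mul, ex_val h, ex_val h.neg, exp_mul_exp_neg_self h, Units.val_one]

@[simp] lemma ex_zero : ex (0 : Matrix n n E) = 1 := by
  ext1; rw [ex_val IsNilpotent.zero, exp_zero, Units.val_one]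

lemma ex_add {X Y : Matrix n n E} (hX : IsNilpotent X) (hY : IsNilpotent Y) (h : Commute X Y) :
    ex (X + Y) = ex X * ex Y := by
  ext1
  rw [Units.val_mul, ex_val hX, ex_val hY, ex_val (h.isNilpotent_add hX hY),
    exp_add_of_commute h hX hY]

lemma acu_ex (φ : SL n E) {X : Matrix n n E} (h : IsNilpotent X) :
    acu φ (ex X) = ex (ac φ X) := by
  ext1
  rw [acu_val, ex_val h, ex_val (h.map (ac φ)), map_exp h]

lemma conj_ex (g : GL n E) {X : Matrix n n E} (h : IsNilpotent X) :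
    g * ex X * g⁻¹ = ex (g.val * X * (g⁻¹).val) := by
  rw [← acu_inl, acu_ex _ h, ac_inl]

lemma map_ex {E' : Type} [Field E'] [CharZero E'] (f : E →+* E') {X : Matrix n n E}
    (h : IsNilpotent X) : (ex X).val.map f = (ex (X.map f)).val := by
  rw [ex_val h, ← RingHom.mapMatrix_apply, ← RingHom.mapMatrix_apply, ex_val (h.map f.mapMatrix),
    map_exp h]

lemma exp_sup {p q : n → n → Prop} {X : Matrix n n E} (h : IsNilpotent X) (hX : Sup p X)
    (h2 : ∀ i k j, p i k → p k j → q i j) (h3 : ∀ i k j, q i k → p k j → q i j) :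
    Sup q (exp X - 1 - X) := by
  obtain ⟨k, hk⟩ := h
  have hk' : X ^ (k + 2) = 0 := by rw [pow_add, hk, zero_mul]
  have hp : ∀ m, Sup q (X ^ (m + 2)) := fun m => by
    induction m with
    | zero => rw [zero_add, pow_two]; exact hX.mul hX h2
    | succ m ih => rw [add_right_comm, _root_.pow_succ]; exact ih.mul hX h3
  rw [exp_eq_sum hk', sum_range_succ', sum_range_succ']
  have : Sup q (∑ m ∈ range k, ((m + 1 + 1).factorial : ℚ)⁻¹ • X ^ (m + 1 + 1)) :=
    Sup.sum _ fun m _ i j hij => by simp [hp m i j hij]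
  convert this using 1
  simp

lemma ex_pos {h : n → ℚ} {X : Matrix n n E} (hX : Pos h X) : Pos h ((ex X).val - 1) := by
  have := (exp_sup hX.nilpotent hX (q := fun i j => h j < h i) (fun _ _ _ a b => b.trans a)
    (fun _ _ _ a b => b.trans a)).add hX
  rw [ex_val hX.nilpotent]
  simpa using this

lemma ex_zer {h : n → ℚ} {X : Matrix n n E} (hn : IsNilpotent X) (hX : Zer h X) :
    Zer h (ex X).val := by
  have := ((exp_sup hn hX (q := fun i j => h i = h j) (fun _ _ _ a b => a.trans b)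
    (fun _ _ _ a b => a.trans b)).add hX).add (Sup.one fun _ => rfl)
  rw [ex_val hn]
  simpa using this

/-- the Weyl element attached to a scalar -/
lemma weyl_scale {e f : Matrix n n E} (he : IsNilpotent e) (hf : IsNilpotent f) (k : n → ℤ)
    (h1 : Sup (fun i j => k i - k j = 2) e) (h2 : Sup (fun i j => k i - k j = -2) f)
    (h3 : Sup (fun i j => k i = - k j) (ex e * ex (-f) * ex e).val) (a : Eˣ) :
    ex ((a : E) • e) * ex (-(((a⁻¹ : Eˣ) : E) • f)) * ex ((a : E) • e) =
      dU (fun i => a ^ k i) * (ex e * ex (-f) * ex e) := by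
  set t : GL n E := dU fun i => a ^ (k i / 2) with ht
  have hc : ∀ (X : Matrix n n E) i j, (t.val * X * (t⁻¹).val) i j =
      ((a ^ (k i / 2 - k j / 2) : Eˣ) : E) * X i j := fun X i j => by
    rw [ht, ← map_inv, dU_val, dU_val, Matrix.mul_diagonal, Matrix.diagonal_mul, zpow_sub]
    simp only [Pi.inv_apply, Units.val_mul]; ring
  have e1 : t.val * e * (t⁻¹).val = (a : E) • e := by
    ext i j
    rw [hc]
    by_cases h : k i - k j = 2
    · rw [show k i / 2 - k j / 2 = 1 by omega]; simp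
    · simp [h1 i j h]
  have e2 : t.val * (-f) * (t⁻¹).val = -(((a⁻¹ : Eˣ) : E) • f) := by
    ext i j
    rw [hc]
    by_cases h : k i - k j = -2
    · rw [show k i / 2 - k j / 2 = -1 by omega]; simp
    · simp [h2 i j h]
  rw [← e1, ← e2, ← conj_ex _ he, ← conj_ex _ hf.neg]
  have : t * ex e * t⁻¹ * (t * ex (-f) * t⁻¹) * (t * ex e * t⁻¹) =
      t * (ex e * ex (-f) * ex e) * t⁻¹ := by group
  rw [this]
  ext i j
  rw [Units.val_mul, Units.val_mul, hc, Units.val_mul (dU _), dU_val, Matrix.diagonal_mul]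
  by_cases h : k i = - k j
  · rw [show k i / 2 - k j / 2 = k i by omega]
  · rw [h3 i j h]; simp

end Pool.Agent.P.MP_7d29e8_ag
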