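import Pool.Agent.P.MP_7d29e8_ag.HDefs
import Pool.Agent.P.MP_7d29e8_ag.HBdd

set_option autoImplicit false

/-! Lattice definition of slopes versus growth of the powers of the semilinear map. -/

namespace Pool.Agent.P.MP_7d29e8_ag

open SemidirectProduct Matrix

namespace Nw

variable {Ω : Type} [Field Ω] {n : Type} [Fintype n] [DecidableEq n] {v : Ω → ℚ}

lemma unif {α : Type} [Finite α] {P : α → ℚ → Prop} (mono : ∀ a C C', C' ≤ C → P a C → P a C')
    (h : ∀ a, ∃ C, P a C) : ∃ C, ∀ a, P a C := by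
  choose f hf using h
  obtain ⟨C, hC⟩ := (Set.finite_range f).bddBelow
  exact ⟨C, fun a => mono a _ _ (hC ⟨a, rfl⟩) (hf a)⟩

/-- action on vectors -/
def av (χ : SL n Ω) (x : n → Ω) : n → Ω := χ.left.val *ᵥ fun i => χ.right (x i)

lemma av_mul (χ χ' : SL n Ω) (x : n → Ω) : av (χ * χ') x = av χ (av χ' x) := by
  simp only [av, SemidirectProduct.mul_left, SemidirectProduct.mul_right, Units.val_mul, ga_val,
    ← Matrix.mulVec_mulVec]
  congr 1
  funext i
  exact (RingHom.map_mulVec (χ.right : Ω →+* Ω) _ _ i).symm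

lemma av_one (x : n → Ω) : av 1 x = x := Matrix.one_mulVec x

lemma av_add (χ : SL n Ω) (x y : n → Ω) : av χ (x + y) = av χ x + av χ y := by
  simp only [av, Pi.add_apply, map_add, ← Matrix.mulVec_add]; rfl

lemma av_smul (χ : SL n Ω) (a : Ω) (x : n → Ω) : av χ (a • x) = χ.right a • av χ x := by
  simp only [av, Pi.smul_apply, smul_eq_mul, map_mul, ← Matrix.mulVec_smul]; rfl

lemma av_col (χ : SL n Ω) (k : Matrix n n Ω) (i l : n) :
    av χ (fun t => k t l) i = (χ.left.val * k.map χ.right) i l := rfl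

variable (v) in
/-- maps preserving the valuation -/
def Vs : Subgroup (SL n Ω) where
  carrier := {χ | ∀ a, v (χ.right a) = v a}
  mul_mem' := fun {χ χ'} h h' a => (h (χ'.right a)).trans (h' a)
  one_mem' := fun _ => rfl
  inv_mem' := fun {χ} h a => by
    rw [← h, SemidirectProduct.inv_right]
    exact congrArg v (χ.right.apply_symm_apply a)

lemma ge_map {χ : SL n Ω} (h : χ ∈ Vs v) {C : ℚ} {a : Ω} : Ge v C (χ.right a) ↔ Ge v C a := by
  simp only [Ge, h a, EmbeddingLike.map_eq_zero_iff]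

lemma ge_mul (hv : Val v) {C : ℚ} {a b : Ω} (hb : b ≠ 0) : Ge v C (a * b) ↔ Ge v (C - v b) a := by
  by_cases ha : a = 0
  · simp [Ge, ha]
  · simp [Ge, ha, hb, hv.mul a b ha hb]

variable (v) in
/-- bound on all coordinates -/
def GV (C : ℚ) (x : n → Ω) : Prop := ∀ i, Ge v C (x i)

omit [Fintype n] [DecidableEq n] in
lemma GV.mono {C C' : ℚ} {x : n → Ω} (h : GV v C x) (hC : C' ≤ C) : GV v C' x :=
  fun i => (h i).mono hC

omit [Fintype n] [DecidableEq n] in
lemma GV.smul (hv : Val v) {C C' : ℚ} {x : n → Ω} {a : Ω} (ha : Ge v C' a) (h : GV v C x) :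
    GV v (C' + C) (a • x) := fun i => ha.mul hv (h i)

lemma ge_sum (hv : Val v) {α : Type} {s : Finset α} {f : α → Ω} {C : ℚ}
    (h : ∀ a ∈ s, Ge v C (f a)) : Ge v C (∑ a ∈ s, f a) :=
  Finset.sum_induction _ _ (fun _ _ => Ge.add hv) (Or.inl rfl) h

lemma av_bd (hv : Val v) {χ : SL n Ω} (h : χ ∈ Vs v) :
    ∃ B, ∀ C x, GV v C x → GV v (B + C) (av χ x) := by
  obtain ⟨B, hB⟩ := unif (P := fun (q : n × n) C => Ge v C (χ.left.val q.1 q.2))
    (fun _ _ _ h1 h2 => h2.mono h1) (fun _ => ⟨_, Ge.self _⟩)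
  exact ⟨B, fun C x hx i => ge_sum hv fun l _ => (hB (i, l)).mul hv ((ge_map h).2 (hx l))⟩

/-- vectors of slope `q` -/
def Good (hv : Val v) {φ : SL n Ω} (hφ : φ ∈ Vs v) (q : ℚ) : Submodule Ω (n → Ω) where
  carrier := {x | ∃ C, ∀ j : ℤ, GV v (C + j * q) (av (φ ^ j) x)}
  add_mem' := fun ⟨C, h⟩ ⟨C', h'⟩ => ⟨min C C', fun j i => by
    rw [av_add]
    exact ((h j i).mono (by linarith [min_le_left C C'])).add hv
      ((h' j i).mono (by linarith [min_le_right C C']))⟩
  zero_mem' := ⟨0, fun j i => Or.inl (by simp [av, mulVec, dotProduct])⟩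
  smul_mem' := fun a x ⟨C, h⟩ => ⟨v a + C, fun j => by
    rw [av_smul, add_assoc]
    exact (h j).smul hv ((ge_map (zpow_mem hφ j)).2 (Ge.self a))⟩

variable [CharZero Ω]

lemma comm {k y : GL n Ω} {h : n → ℚ}
    (e : y.val * diagonal (fun i => (h i : Ω)) * (y⁻¹).val =
      k.val * diagonal (fun i => (h i : Ω)) * (k⁻¹).val) (f : ℚ → Ω) :
    y.val * diagonal (fun i => f (h i)) * (y⁻¹).val =
      k.val * diagonal (fun i => f (h i)) * (k⁻¹).val := by
  have key : ∀ D : Matrix n n Ω, y.val * D * (y⁻¹).val = k.val * D * (k⁻¹).val ↔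
      (k⁻¹ * y).val * D = D * (k⁻¹ * y).val := fun D => by
    rw [Units.mul_inv_eq_iff_eq_mul, Units.val_mul, mul_assoc, mul_assoc, mul_assoc,
      Units.inv_mul_eq_iff_eq_mul]
  rw [key] at e ⊢
  ext i l
  have := congrFun (congrFun e i) l
  rw [mul_diagonal, diagonal_mul] at this ⊢
  by_cases h0 : (k⁻¹ * y).val i l = 0
  · simp [h0]
  · rw [mul_comm] at this ⊢
    rw [Rat.cast_injective (mul_right_cancel₀ h0 this)]

omit [CharZero Ω] in
lemma ac_diag (χ : SL n Ω) (k : GL n Ω) (h : n → ℚ) :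
    ac χ (k.val * diagonal (fun i => (h i : Ω)) * (k⁻¹).val) = (χ.left * ga n Ω χ.right k).val *
      diagonal (fun i => (h i : Ω)) * ((χ.left * ga n Ω χ.right k)⁻¹).val := by
  have : (diagonal fun i => (h i : Ω)).map χ.right = diagonal fun i => (h i : Ω) := by
    rw [diagonal_map (map_zero _)]; simp
  simp only [ac_apply, Matrix.map_mul, this, _root_.mul_inv_rev, Units.val_mul, ← map_inv, ga_val,
    mul_assoc]

lemma np_iff {hv : Val v} {pw : ℚ → Ωˣ} (hpw : Pw v pw) {φ : SL n Ω} (hφ : φ ∈ Vs v)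
    {k : GL n Ω} {h : n → ℚ} {H : Matrix n n Ω}
    (hH : H = k.val * diagonal (fun i => (h i : Ω)) * (k⁻¹).val) (hc : ac φ H = H) :
    NP hv pw φ k h ↔ ∀ l, (fun t => k.val t l) ∈ Good hv hφ (h l) := by
  have hj : ∀ j : ℕ, ac (φ ^ j) H = H := fun j => by
    induction j with
    | zero => simp
    | succ j ih => rw [pow_succ, ac_mul, hc, ih]
  set c : ℕ → GL n Ω := fun j => (k * dU fun i => pw (j * h i))⁻¹ * (φ ^ j).left with hcd
  have hk := bdd_ga (hv := hv) (Bdd.const k) (fun j : ℕ => (φ ^ j).right)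
    fun j => pow_mem hφ j
  have e1 : ∀ j, k * c j * ga n Ω (φ ^ j).right k =
      (φ ^ j).left * ga n Ω (φ ^ j).right k * (dU fun i => pw (j * h i))⁻¹ := fun j => by
    have h1 := hj j
    rw [hH, ac_diag] at h1
    have h2 : (φ ^ j).left * ga n Ω (φ ^ j).right k * (dU fun i => pw (j * h i)) *
        ((φ ^ j).left * ga n Ω (φ ^ j).right k)⁻¹ = k * (dU fun i => pw (j * h i)) * k⁻¹ :=
      Units.ext (comm h1 fun q => pw (j * q))
    rw [eq_mul_inv_iff_mul_eq, hcd]
    simp only [_root_.mul_inv_rev, mul_assoc] at h2 ⊢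
    rw [← mul_assoc _ _ (dU _), ← inv_mul_cancel_right (_ * dU _) ((φ ^ j).left *
      ga n Ω (φ ^ j).right k)]
    simp only [_root_.mul_inv_rev, mul_assoc, h2, inv_mul_cancel_left, mul_inv_cancel_left]
  have e2 : MB hv (fun j => (c j).val) ↔
      MB hv fun j => (k * c j * ga n Ω (φ ^ j).right k).val := by
    refine ⟨fun a => ((MB.const k.val).mul a).mul hk.1, fun a => ?_⟩
    have := ((MB.const (k⁻¹).val).mul a).mul hk.2
    simpa only [← Units.val_mul, mul_assoc, inv_mul_cancel_left, mul_inv_cancel, mul_one] using this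
  have e3 : ∀ (j : ℕ) i l C, Ge v C ((k * c j * ga n Ω (φ ^ j).right k).val i l) ↔
      Ge v (C + (j : ℤ) * h l) (av (φ ^ (j : ℤ)) (fun t => k.val t l) i) := fun j i l C => by
    rw [e1, ← map_inv, Units.val_mul, dU_val, mul_diagonal, ge_mul hv (Units.ne_zero _),
      Pi.inv_apply, Units.val_inv_eq_inv_val, mulv_inv hv.mul (Units.ne_zero _), hpw.val,
      zpow_natCast, av_col, sub_neg_eq_add]
    rfl
  have e4 : ∀ (j : ℕ) i l C, Ge v C (((c j)⁻¹).val i l) ↔
      Ge v (C + (-j : ℤ) * h l) (av (φ ^ (-j : ℤ)) (fun t => k.val t l) i) := fun j i l C => by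
    have h1 : av (φ ^ (-j : ℤ)) (fun t => k.val t l) i =
        (φ ^ j)⁻¹.right ((((φ ^ j).left)⁻¹ * k).val i l) := by
      rw [_root_.zpow_neg, zpow_natCast, av_col, SemidirectProduct.inv_left, ga_val,
        SemidirectProduct.inv_right, ← Matrix.map_mul]
      rfl
    rw [h1, ge_map (inv_mem (pow_mem hφ j)), hcd]
    simp only [_root_.mul_inv_rev, inv_inv, ← mul_assoc]
    rw [Units.val_mul, dU_val, mul_diagonal, ge_mul hv (Units.ne_zero _), hpw.val]
    push_cast
    rw [neg_mul, sub_eq_add_neg]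
  change MB hv (fun j => (c j).val) ∧ MB hv (fun j => ((c j)⁻¹).val) ↔ _
  rw [e2]
  constructor
  · rintro ⟨a1, a2⟩ l
    obtain ⟨C, hC⟩ := unif (P := fun (i : n) C => ∀ j : ℤ,
      Ge v (C + j * h l) (av (φ ^ j) (fun t => k.val t l) i))
      (fun _ _ _ h1 h2 j => (h2 j).mono (by linarith)) (fun i => by
        obtain ⟨C1, h1⟩ := a1 i l
        obtain ⟨C2, h2⟩ := a2 i l
        refine ⟨min C1 C2, fun j => ?_⟩
        obtain ⟨j, rfl | rfl⟩ := j.eq_nat_or_neg
        · exact (e3 _ _ _ _).1 ((h1 j).mono (min_le_left _ _))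
        · exact (e4 _ _ _ _).1 ((h2 j).mono (min_le_right _ _)))
    exact ⟨C, fun j i => hC i j⟩
  · intro a
    exact ⟨fun i l => let ⟨C, hC⟩ := a l; ⟨C, fun j => (e3 _ _ _ _).2 (hC j i)⟩,
      fun i l => let ⟨C, hC⟩ := a l; ⟨C, fun j => (e4 _ _ _ _).2 (hC _ i)⟩⟩

lemma eig_mem {k : GL n Ω} {h : n → ℚ} {q : ℚ} {x : n → Ω} {G : ℚ → Submodule Ω (n → Ω)}
    (hG : ∀ l, (fun t => k.val t l) ∈ G (h l))
    (hx : (k.val * diagonal (fun i => (h i : Ω)) * (k⁻¹).val) *ᵥ x = (q : Ω) • x) : x ∈ G q := by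
  have h1 : diagonal (fun i => (h i : Ω)) *ᵥ ((k⁻¹).val *ᵥ x) = (q : Ω) • ((k⁻¹).val *ᵥ x) := by
    rw [← mulVec_smul, ← hx, mulVec_mulVec, mulVec_mulVec, mul_assoc, Units.inv_mul_cancel_left]
  have h2 : x = ∑ l, ((k⁻¹).val *ᵥ x) l • fun t => k.val t l := by
    conv_lhs => rw [← one_mulVec x, ← Units.mul_inv k, ← mulVec_mulVec]
    funext t
    simp [mulVec, dotProduct, mul_comm]
  rw [h2]
  refine Submodule.sum_mem _ fun l _ => ?_
  by_cases h0 : ((k⁻¹).val *ᵥ x) l = 0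
  · rw [h0, zero_smul]; exact Submodule.zero_mem _
  · have h3 := congrFun h1 l
    rw [mulVec_diagonal, Pi.smul_apply, smul_eq_mul] at h3
    exact Submodule.smul_mem _ _ (Rat.cast_injective (mul_right_cancel₀ h0 h3) ▸ hG l)

end Nw

variable {p : ℕ} [Fact p.Prime] {O K Ω : Type} [CommRing O] [IsNoetherianRing O] [Field K]
  [Field Ω] [Algebra O K] [Algebra K Ω] [CharZero K] [CharZero Ω] {σ : K ≃+* K}
  {n : Type} [Fintype n] [DecidableEq n]

namespace Nw

/-- inclusion of rational vectors -/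
noncomputable def up (Ω : Type) [Field Ω] [Algebra K Ω] (y : n → K) : n → Ω := fun i => algebraMap K Ω (y i)

omit [Fintype n] [DecidableEq n] in
lemma up_smul (a : K) (y : n → K) : up Ω (a • y) = algebraMap K Ω a • up Ω y := by
  funext i; simp [up]

omit [DecidableEq n] in
lemma up_mulVec (a : Matrix n n K) (y : n → K) :
    up Ω (a *ᵥ y) = a.map (algebraMap K Ω) *ᵥ up Ω y :=
  funext fun i => RingHom.map_mulVec _ _ _ i

lemma lat_iff {v : Ω → ℚ} (hv : Val v) {φ : SL n Ω} (hφ : φ ∈ Vs v)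
    (hvp : v (p : Ω) = 1)
    (hO : ∀ a : K, a ≠ 0 → ((∃ o : O, algebraMap O K o = a) ↔
        0 ≤ v (algebraMap K Ω a)))
    {f : (n → K) → n → K} (hf : ∀ y, up Ω (f y) = av φ (up Ω y)) (hsur : f.Surjective)
    (m : ℤ) {r : ℕ} (hr : 0 < r) (w : n → K) :
    (∃ Λ : Submodule O (n → K), Λ.FG ∧ w ∈ Λ ∧
      f^[r] '' Λ = (fun w => (p : K) ^ m • w) '' Λ) ↔ up Ω w ∈ Good hv hφ (m / r) := by
  have hp : (p : K) ≠ 0 := Nat.cast_ne_zero.2 (Fact.out : p.Prime).ne_zero
  have hp' : (p : Ω) ≠ 0 := by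
    rw [← map_natCast (algebraMap K Ω)]; exact (_root_.map_ne_zero _).2 hp
  have hr' : (r : ℚ) ≠ 0 := by positivity
  have hpz : ∀ z : ℤ, Ge v z ((p : Ω) ^ z) := fun z =>
    Or.inr (by rw [mulv_zpow hv.mul hp', hvp, mul_one])
  have hfr : ∀ (i : ℕ) y, up Ω (f^[i] y) = av (φ ^ (i : ℤ)) (up Ω y) := fun i => by
    induction i with
    | zero => exact fun y => by simp [av_one]
    | succ i ih =>
      intro y
      rw [Function.iterate_succ_apply, ih, hf, ← av_mul, zpow_natCast, zpow_natCast, pow_succ]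
  have hsm : ∀ (χ : SL n Ω) (z : ℤ) y, av χ (up Ω ((p : K) ^ z • y)) =
      (p : Ω) ^ z • av χ (up Ω y) := fun χ z y => by
    rw [up_smul, av_smul, map_zpow₀, map_zpow₀, map_natCast, map_natCast]
  have hint : ∀ o : O, Ge v 0 (algebraMap K Ω (algebraMap O K o)) :=
    fun o => by
      by_cases h : algebraMap O K o = 0
      · exact Or.inl (by rw [h, map_zero])
      · exact Or.inr ((hO _ h).1 ⟨o, rfl⟩)
  let L : SL n Ω → ℚ → Set (n → K) := fun χ C => {y | GV v C (av χ (up Ω y))}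
  have hL : ∀ χ ∈ Vs v, ∀ C, ∃ M : Submodule O (n → K), ∀ y, y ∈ M ↔ y ∈ L χ C :=
    fun χ hχ C => ⟨
      { carrier := L χ C
        add_mem' := fun {a b} ha hb i => by
          have : up Ω (a + b) = up Ω a + up Ω b := by funext i; simp [up]
          rw [this, av_add]
          exact (ha i).add hv (hb i)
        zero_mem' := fun i => Or.inl (by simp [av, up, mulVec, dotProduct])
        smul_mem' := fun o y hy => by
          have := GV.smul hv ((ge_map hχ).2 (hint o)) hy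
          rwa [zero_add, ← av_smul, ← up_smul, algebraMap_smul] at this }, fun _ => Iff.rfl⟩
  constructor
  · rintro ⟨Λ, ⟨S, rfl⟩, hw, hΛ⟩
    obtain ⟨C, hC⟩ := unif (P := fun (q : S × n) C => Ge v C (up Ω (q.1 : n → K) q.2))
      (fun _ _ _ h1 h2 => h2.mono h1) (fun _ => ⟨_, Ge.self _⟩)
    obtain ⟨M, hM⟩ := hL 1 (one_mem _) C
    have h1 : Submodule.span O (S : Set (n → K)) ≤ M :=
      Submodule.span_le.2 fun y hy => (hM y).2 fun i => by rw [av_one]; exact hC (⟨y, hy⟩, i)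
    have h2 : ∀ j : ℤ, ∃ y ∈ Submodule.span O (S : Set (n → K)),
        av (φ ^ (r * j)) (up Ω w) = up Ω ((p : K) ^ (m * j) • y) := fun j => by
      induction j using Int.induction_on with
      | zero => exact ⟨w, hw, by simp [av_one]⟩
      | succ j ih =>
        obtain ⟨y, hy, e⟩ := ih
        obtain ⟨y', hy', e'⟩ := hΛ.subset ⟨y, hy, rfl⟩
        refine ⟨y', hy', ?_⟩
        rw [mul_add, mul_one, add_comm, _root_.zpow_add, av_mul, e, hsm, ← hfr, ← e', mul_add, mul_one,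
          zpow_add₀ hp, mul_smul, up_smul (_ ^ (m * _)), map_zpow₀, map_natCast]
      | pred j ih =>
        obtain ⟨y, hy, e⟩ := ih
        obtain ⟨y', hy', e'⟩ := hΛ.symm.subset ⟨y, hy, rfl⟩
        refine ⟨y', hy', ?_⟩
        have e2 : (p : K) ^ (m * -(j : ℤ)) • y =
            (p : K) ^ (m * (-(j : ℤ) - 1)) • f^[r] y' := by
          rw [e', smul_smul, ← zpow_add₀ hp]; congr 2; ring
        rw [mul_sub, mul_one, sub_eq_neg_add, _root_.zpow_add, av_mul, e, e2, hsm, hfr, ← av_mul,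
          ← _root_.zpow_add, neg_add_cancel, zpow_zero, av_one, up_smul, map_zpow₀, map_natCast]
    obtain ⟨B, hB⟩ := unif (P := fun (i : Fin r) B => ∀ C x, GV v C x →
      GV v (B + (i : ℕ) * (m / r) + C) (av (φ ^ ((i : ℕ) : ℤ)) x))
      (fun _ _ _ h1 h2 C x hx => (h2 C x hx).mono (by linarith)) (fun i => by
        obtain ⟨B, hB⟩ := av_bd hv (zpow_mem hφ ((i : ℕ) : ℤ))
        exact ⟨B - (i : ℕ) * (m / r), fun C x hx => by rw [sub_add_cancel]; exact hB C x hx⟩)
    refine ⟨B + C, fun j => ?_⟩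
    obtain ⟨y, hy, e⟩ := h2 (j / r)
    have hr0 : (0 : ℤ) < r := by exact_mod_cast hr
    obtain ⟨i, hi⟩ := Int.eq_ofNat_of_zero_le (Int.emod_nonneg j hr0.ne')
    have hir : i < r := by have := Int.emod_lt_of_pos j hr0; omega
    have h3 : j = i + r * (j / r) := by rw [← hi, Int.emod_add_mul_ediv]
    generalize j / r = j' at *
    have h4 := (hM y).1 (h1 hy)
    have h5 := hB ⟨i, hir⟩ _ _ (GV.smul hv (hpz (m * j')) h4)
    rw [← hsm, av_one, ← e, ← av_mul, ← _root_.zpow_add, ← h3] at h5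
    refine h5.mono (le_of_eq ?_)
    rw [h3]; push_cast; field_simp; ring
  · rintro ⟨C, hC⟩
    choose M hM using fun j : ℤ => hL (φ ^ j) (zpow_mem hφ j) (C + j * (m / r))
    have hm : ∀ y, y ∈ ⨅ j, M j ↔ ∀ j : ℤ, GV v (C + j * (m / r)) (av (φ ^ j) (up Ω y)) :=
      fun y => by simp only [Submodule.mem_iInf, hM]; rfl
    refine ⟨⨅ j, M j, ?_, (hm w).2 hC, Set.Subset.antisymm ?_ ?_⟩
    · refine (Submodule.fg_span (Set.finite_range fun i : n =>
        (Pi.single i ((p : K) ^ ⌊C⌋) : n → K))).of_le fun y hy => ?_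
      have h1 := (hm y).1 hy 0
      rw [zpow_zero, av_one] at h1
      rw [← Finset.univ_sum_single y]
      refine Submodule.sum_mem _ fun i _ => ?_
      by_cases h0 : y i = 0
      · rw [h0, Pi.single_zero]; exact Submodule.zero_mem _
      · obtain ⟨o, ho⟩ := (hO (y i * (p : K) ^ (-⌊C⌋))
          (mul_ne_zero h0 (zpow_ne_zero _ hp))).2 (by
            have h2 := (h1 i).resolve_left ((_root_.map_ne_zero _).2 h0)
            rw [map_mul, map_zpow₀, map_natCast, hv.mul _ _ ((_root_.map_ne_zero _).2 h0)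
              (zpow_ne_zero _ hp'), mulv_zpow hv.mul hp', hvp]
            have h3 := Int.floor_le C
            simp only [up] at h2
            push_cast at h2 ⊢
            linarith)
        have e : (Pi.single i (y i) : n → K) = o • Pi.single i ((p : K) ^ ⌊C⌋) := by
          rw [← Pi.single_smul, Algebra.smul_def, ho, mul_assoc, ← zpow_add₀ hp]; simp
        rw [e]
        exact Submodule.smul_mem _ _ (Submodule.subset_span ⟨i, rfl⟩)
    · rintro _ ⟨y, hy, rfl⟩
      refine ⟨(p : K) ^ (-m) • f^[r] y, (hm _).2 fun j => ?_, by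
        simp only [smul_smul, ← zpow_add₀ hp]; simp⟩
      rw [hsm, hfr, ← av_mul, ← _root_.zpow_add]
      refine (GV.smul hv (hpz (-m)) ((hm y).1 hy (j + r))).mono (le_of_eq ?_)
      push_cast; field_simp; ring
    · rintro _ ⟨y, hy, rfl⟩
      obtain ⟨z, hz⟩ := hsur.iterate r ((p : K) ^ m • y)
      refine ⟨z, (hm _).2 fun j => ?_, hz⟩
      rw [← sub_add_cancel j r, _root_.zpow_add, av_mul, ← hfr, hz, hsm]
      refine (GV.smul hv (hpz m) ((hm y).1 hy (j - r))).mono (le_of_eq ?_)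
      push_cast; field_simp; ring

end Nw

open Nw in
theorem newton_iff (s : Ω ≃+* Ω)
    (hs : ∀ a, s (algebraMap K Ω a) = algebraMap K Ω (σ a))
    {v : Ω → ℚ} {pw : ℚ → Ωˣ} (hv : Val v) (hpw : Pw v pw) (hvs : ∀ a, v (s a) = v a)
    (hvp : v (p : Ω) = 1)
    (hO : ∀ a : K, a ≠ 0 → ((∃ o : O, algebraMap O K o = a) ↔
        0 ≤ v (algebraMap K Ω a)))
    (hfix : ∀ a : Ω, (∀ τ : Ω ≃ₐ[K] Ω, τ a = a) →
      ∃ c : K, algebraMap K Ω c = a)
    (g k : GL n Ω) (h : n → ℚ) (H : Matrix n n Ω)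
    (hH : H = k.val * Matrix.diagonal (fun i => (h i : Ω)) * (k⁻¹).val) :
    Newton O p σ g.val H ↔ (∀ τ : Ω ≃ₐ[K] Ω, g.val.map τ = g.val) ∧
      (∀ τ : Ω ≃ₐ[K] Ω, H.map τ = H) ∧ ac (inl g * inr s) H = H ∧
      NP hv pw (inl g * inr s) k h := by
  set φ : SL n Ω := inl g * inr s with hφd
  have hl : φ.left = g := by simp [hφd]
  have hr : φ.right = s := by simp [hφd]
  have hφ : φ ∈ Vs v := fun a => by rw [hr, hvs]
  have rat : ∀ X : Matrix n n Ω, (∀ τ : Ω ≃ₐ[K] Ω, X.map τ = X) ↔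
      ∃ X₀ : Matrix n n K, X = X₀.map (algebraMap K Ω) := fun X => by
    constructor
    · intro a
      choose c hc using fun i j => hfix (X i j) fun τ => congrFun (congrFun (a τ) i) j
      exact ⟨Matrix.of c, by ext i j; exact (hc i j).symm⟩
    · rintro ⟨X₀, rfl⟩ τ
      ext i j
      exact τ.commutes _
  have inj : ∀ x y : n → K, up Ω x = up Ω y → x = y := fun x y e =>
    funext fun i => (algebraMap K Ω).injective (congrFun e i)
  have key : ∀ g₀ H₀ : Matrix n n K, g.val = g₀.map (algebraMap K Ω) →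
      H = H₀.map (algebraMap K Ω) →
      (g₀ * H₀.map σ = H₀ * g₀ ↔ ac φ H = H) ∧
      ∀ (m : ℤ) (r : ℕ) (w : n → K), 0 < r →
        ((r : K) • H₀ *ᵥ w = (m : K) • w ↔ H *ᵥ up Ω w = ((m / r : ℚ) : Ω) • up Ω w) ∧
        ((∃ Λ : Submodule O (n → K), Λ.FG ∧ w ∈ Λ ∧
          (fun w => g₀ *ᵥ fun i => σ (w i))^[r] '' Λ = (fun w => (p : K) ^ m • w) '' Λ) ↔
          up Ω w ∈ Good hv hφ (m / r)) := by
    intro g₀ H₀ e1 e2
    refine ⟨?_, fun m r w hr0 => ⟨?_, lat_iff hv hφ hvp hO (fun y => ?_) ?_ m hr0 w⟩⟩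
    · have e3 : H.map s = (H₀.map σ).map (algebraMap K Ω) := by
        rw [e2]; ext i j; exact hs _
      rw [ac_apply, hl, hr, Units.mul_inv_eq_iff_eq_mul, e3, e2, e1, ← Matrix.map_mul,
        ← Matrix.map_mul]
      exact (Matrix.map_injective (algebraMap K Ω).injective).eq_iff.symm
    · have h0 : (r : Ω) ≠ 0 := by exact_mod_cast hr0.ne'
      rw [← (show Function.Injective (up Ω) from inj).eq_iff, up_smul, up_smul, up_mulVec, ← e2,
        map_natCast, map_intCast, ← eq_inv_smul_iff₀ h0, smul_smul]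
      push_cast
      rw [div_eq_inv_mul]
    · rw [up_mulVec, ← e1, av, hl, hr]
      congr 1
      exact funext fun i => (hs _).symm
    · have h1 : IsUnit g₀ := by
        rw [Matrix.isUnit_iff_isUnit_det, isUnit_iff_ne_zero]
        intro h0
        have h2 := (Matrix.isUnit_iff_isUnit_det _).1 g.isUnit
        rw [e1, ← RingHom.mapMatrix_apply, ← RingHom.map_det, h0, map_zero] at h2
        exact not_isUnit_zero h2
      intro y
      obtain ⟨z, hz⟩ := Matrix.mulVec_surjective_iff_isUnit.2 h1 y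
      exact ⟨fun i => σ.symm (z i), by simpa using hz⟩
  constructor
  · rintro ⟨g₀, H₀, e1, e2, e3, e4⟩
    obtain ⟨k1, k2⟩ := key g₀ H₀ e1 e2
    refine ⟨(rat _).2 ⟨_, e1⟩, (rat _).2 ⟨_, e2⟩, k1.1 e3, (np_iff hpw hφ hH (k1.1 e3)).2 fun l => ?_⟩
    set E : Matrix n n Ω := diagonal fun i => if h i = h l then 1 else 0 with hE
    obtain ⟨P₀, hP⟩ := (rat (k.val * E * (k⁻¹).val)).1 fun τ => by
      have h1 : ac (inr τ.toRingEquiv) H = H := (ac_inr _ _).trans ((rat _).2 ⟨_, e2⟩ τ)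
      rw [hH, ac_diag] at h1
      refine Eq.trans ?_ (comm h1 fun q => if q = h l then 1 else 0)
      have h2 : E.map τ = E := by
        rw [hE, diagonal_map (map_zero _)]; simp [apply_ite]
      simp only [Matrix.map_mul, h2, left_inr, right_inr, one_mul, ← map_inv, ga_val]
      rfl
    have h3 : (fun t => k.val t l) = ∑ t, k.val t l • up Ω fun i => P₀ i t := by
      funext i
      have h4 : (k.val * E * (k⁻¹).val * k.val) i l = k.val i l := by
        rw [Units.inv_mul_cancel_right, hE, mul_diagonal, if_pos rfl, mul_one]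
      rw [← h4, hP, Matrix.mul_apply]
      simp [up, mul_comm]
    rw [h3]
    refine Submodule.sum_mem _ fun t _ => Submodule.smul_mem _ _ ?_
    obtain ⟨k3, k4⟩ := k2 (h l).num (h l).den (fun i => P₀ i t) (h l).den_pos
    rw [Rat.num_div_den] at k3 k4
    refine k4.1 (e4 _ _ _ (h l).den_pos (k3.2 ?_))
    have h5 : H * (k.val * E * (k⁻¹).val) = (h l : Ω) • (k.val * E * (k⁻¹).val) := by
      have h6 : diagonal (fun i => (h i : Ω)) * E = (h l : Ω) • E := by
        rw [hE, diagonal_mul_diagonal, ← diagonal_smul]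
        congr 1
        funext i
        by_cases e : h i = h l <;> simp [e]
      rw [hH, mul_assoc k.val E, mul_assoc _ _ (k.val * _), Units.inv_mul_cancel_left,
        mul_assoc k.val, ← mul_assoc _ E, h6, smul_mul_assoc, mul_smul_comm]
    rw [hP] at h5
    exact funext fun i => congrFun (congrFun h5 i) t
  · rintro ⟨a1, a2, a3, a4⟩
    obtain ⟨g₀, e1⟩ := (rat _).1 a1
    obtain ⟨H₀, e2⟩ := (rat _).1 a2
    obtain ⟨k1, k2⟩ := key g₀ H₀ e1 e2
    refine ⟨g₀, H₀, e1, e2, k1.2 a3, fun m r w hr0 hw => (k2 m r w hr0).2.2 ?_⟩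
    exact eig_mem (G := Good hv hφ) ((np_iff hpw hφ hH a3).1 a4) (hH ▸ (k2 m r w hr0).1.1 hw)

end Pool.Agent.P.MP_7d29e8_ag
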