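import Pool.Agent.P.MP_7d29e8_ag.HGam
import Pool.Agent.P.MP_7d29e8_ag.HVal
import Pool.Agent.P.MP_7d29e8_ag.HNewt

set_option autoImplicit false

/-! Passage to diagonal coordinates. -/

namespace Pool.Agent.P.MP_7d29e8_ag

open Finset SemidirectProduct MvPolynomial
open scoped Classical

section Conj

variable {Ω : Type} [Field Ω] {n : Type} [Fintype n] [DecidableEq n]

lemma conj_cl {G₁ G₂ : Subgroup (GL n Ω)} {y : GL n Ω} (h : ∀ g ∈ G₁, acu (inl y) g ∈ G₂)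
    {R : Type} [CommRing R] [Algebra Ω R] {γ : Matrix n n R} (hγ : γ ∈ Cl (GS G₁) R) :
    y.val.map (algebraMap Ω R) * γ * (y⁻¹).val.map (algebraMap Ω R) ∈ Cl (GS G₂) R := by
  refine Cl.mul (S₁ := {X | ∃ g ∈ G₁, X = y.val * g.val}) (S₂ := {(y⁻¹).val}) ?_
    (Cl.mul (S₁ := {y.val}) ?_ (Cl.of_mem rfl) hγ) (Cl.of_mem rfl)
  · rintro _ ⟨g, hg, rfl⟩ _ rfl
    exact Cl.self ⟨_, h g hg, rfl⟩
  · rintro _ rfl _ ⟨g, hg, rfl⟩
    exact Cl.self ⟨g, hg, rfl⟩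

open DualNumber in
lemma conj_lie {G₁ G₂ : Subgroup (GL n Ω)} {y : GL n Ω} (h : ∀ g ∈ G₁, acu (inl y) g ∈ G₂)
    {X : Matrix n n Ω} (hX : X ∈ lie (GS G₁) Ω) : ac (inl y) X ∈ lie (GS G₂) Ω := by
  have h1 := lie.curve (GS_one G₁) (lie.map hX (Algebra.linearMap Ω (DualNumber Ω)))
    (δ := ε) eps_mul_eps
  refine lie.of_dual (GS_one G₂) ?_
  convert conj_cl h h1 using 1
  rw [ac_inl, Matrix.map_mul, Matrix.map_mul, mul_add, add_mul, mul_one,
    ← Matrix.map_mul (L := y.val) (M := (y⁻¹).val), Units.mul_inv, Matrix.map_one _ (map_zero _) (map_one _), Matrix.mul_smul, Matrix.smul_mul]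
  rfl

/-- the conjugate of a subgroup -/
def Gd (G : Subgroup (GL n Ω)) (y : GL n Ω) : Subgroup (GL n Ω) := G.comap (acu (inl y))

lemma acu_acu_inv (φ : SL n Ω) (g : GL n Ω) : acu φ (acu φ⁻¹ g) = g := Units.ext (ac_ac_inv _ _)

lemma acu_inv_acu (φ : SL n Ω) (g : GL n Ω) : acu φ⁻¹ (acu φ g) = g := Units.ext (ac_inv_ac _ _)

lemma mem_Gd {G : Subgroup (GL n Ω)} {y g : GL n Ω} : g ∈ Gd G y ↔ acu (inl y) g ∈ G := Iff.rfl

lemma mem_Gd' {G : Subgroup (GL n Ω)} {y g : GL n Ω} : acu (inl y)⁻¹ g ∈ Gd G y ↔ g ∈ G := by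
  rw [mem_Gd, acu_acu_inv]

lemma lie_Gd {G : Subgroup (GL n Ω)} {y : GL n Ω} {X : Matrix n n Ω} :
    X ∈ lie (GS (Gd G y)) Ω ↔ ac (inl y) X ∈ lie (GS G) Ω :=
  ⟨conj_lie fun _ h => h, fun h => by
    have := conj_lie (y := y⁻¹) (G₂ := Gd G y) (fun g hg => by rwa [map_inv, mem_Gd']) h
    rwa [map_inv, ac_inv_ac] at this⟩

lemma prime_Gd {G : Subgroup (GL n Ω)} (y : GL n Ω) (h : (van (GS G)).IsPrime) :
    (van (GS (Gd G y))).IsPrime := by
  let Y : Matrix n n (MvPolynomial (n × n) Ω) :=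
    (y⁻¹).val.map (algebraMap Ω _) * gen Ω n * y.val.map (algebraMap Ω _)
  have hY : ∀ (g : Matrix n n Ω) f, ev g (ev Y f) = ev (ac (inl y)⁻¹ g) f := fun g f => by
    rw [← ev_map, ← map_inv, ac_inl, inv_inv]
    congr 2
    change (ev (Ω := Ω) g).toRingHom.mapMatrix Y = _
    simp only [Y, map_mul, RingHom.mapMatrix_apply, Matrix.map_map]
    congr 1
    · congr 1
      · ext; simp
      · exact gen_map g
    · ext; simp
  have : van (GS (Gd G y)) = (van (GS G)).comap (ev Y) := by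
    ext f
    constructor
    · rintro hf _ ⟨g, hg, rfl⟩
      rw [hY]
      exact hf _ ⟨_, mem_Gd'.mpr hg, rfl⟩
    · rintro hf _ ⟨g, hg, rfl⟩
      have := hf _ ⟨_, hg, rfl⟩
      rwa [hY, acu_val, ac_inv_ac] at this
  rw [this]
  exact Ideal.comap_isPrime _ _

/-- conjugation of semilinear maps -/
def Yc (y : GL n Ω) (φ : SL n Ω) : SL n Ω := (inl y)⁻¹ * φ * inl y

lemma Yc_mul (y : GL n Ω) (φ φ' : SL n Ω) : Yc y (φ * φ') = Yc y φ * Yc y φ' := by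
  simp only [Yc]; group

lemma Yc_inv (y : GL n Ω) (φ : SL n Ω) : Yc y φ⁻¹ = (Yc y φ)⁻¹ := by
  simp only [Yc]; group

lemma Yc_inl (y g : GL n Ω) : Yc y (inl g) = inl (acu (inl y)⁻¹ g) := by
  rw [inl_acu, inv_inv, Yc]

@[simp] lemma Yc_right (y : GL n Ω) (φ : SL n Ω) : (Yc y φ).right = φ.right := by simp [Yc]

lemma ac_Yc (y : GL n Ω) (φ : SL n Ω) (X : Matrix n n Ω) :
    ac (inl y) (ac (Yc y φ) X) = ac φ (ac (inl y) X) := by
  rw [Yc, ac_mul, ac_mul, ac_ac_inv]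

lemma ac_inj (φ : SL n Ω) : Function.Injective (ac φ) := fun X Y h => by
  rw [← ac_inv_ac φ X, h, ac_inv_ac]

lemma ac_Yc_iff {y : GL n Ω} {φ : SL n Ω} {X Z : Matrix n n Ω} :
    ac (Yc y φ) X = Z ↔ ac φ (ac (inl y) X) = ac (inl y) Z := by
  rw [← ac_Yc, (ac_inj _).eq_iff]

lemma Yc_stab {G : Subgroup (GL n Ω)} {y : GL n Ω} {φ : SL n Ω} (h : ∀ g ∈ G, acu φ g ∈ G) :
    ∀ g ∈ Gd G y, acu (Yc y φ) g ∈ Gd G y := fun g hg => by
  have := h _ hg
  rwa [show acu φ (acu (inl y) g) = acu (inl y) (acu (Yc y φ) g) from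
    Units.ext (ac_Yc _ _ _).symm] at this

end Conj

variable {K Ω : Type} [Field K] [Field Ω] [Algebra K Ω] [IsAlgClosure K Ω] [CharZero K] [CharZero Ω]
  {σ : K ≃+* K} {n : Type} [Fintype n] [DecidableEq n]
  {ι M N : Type} [AddCommGroup M] [Module ℚ M] [AddCommGroup N] [Module ℚ N]
  {P : RootPairing ι ℚ M N} {wt : n → M} {G : Subgroup (GL n Ω)} {b : P.Base}
  {y g₀ : GL n Ω} {s : Ω ≃+* Ω} {a₀ : P.Aut}

lemma vanG_eq (G : Subgroup (GL n Ω)) : vanG G = van (GS G) := by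
  ext f
  constructor
  · rintro h _ ⟨g, hg, rfl⟩
    exact h _ ⟨g, hg, fun _ => rfl⟩
  · rintro h x ⟨g, hg, e⟩
    rw [show x = fun q => g.val q.1 q.2 from funext e]
    exact h _ ⟨g, hg, rfl⟩

lemma lieG_iff {X : Matrix n n Ω} : X ∈ lieG G ↔ X ∈ lie (GS G) Ω := by
  rw [lieG, vanG_eq]
  exact forall₂_congr fun f _ => by
    simp only [dOne, ev, smul_eq_mul, aeval_eq_eval]

lemma dd_eq (x : N) : dd P y wt x = ac (inl y) (DD P wt Ω x) := rfl

lemma isWt_iff {m : M} {X : Matrix n n Ω} : IsWt P y wt m (ac (inl y) X) ↔ Wt wt m X := by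
  rw [wt_iff (P := P)]
  refine forall_congr' fun x => ?_
  rw [dd_eq, ← map_mul, ← map_mul, ← map_sub, ← (ac_inj (inl y)).eq_iff (b := _ • X), ac_smul]
  rfl

lemma IsRed.aeval (θ : Ω ≃+* Ω) (σ : K →+* K)
    (h : ∀ a, θ (algebraMap K Ω a) = algebraMap K Ω (σ a))
    {α : Type} (x : α → Ω) (f : MvPolynomial α K) :
    MvPolynomial.aeval (fun q => θ (x q)) (map σ f) = θ (MvPolynomial.aeval x f) := by
  induction f using MvPolynomial.induction_on with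
  | C a => simp [h]
  | add f g h1 h2 => simp [h1, h2]
  | mul_X f q h1 => simp [h1]

lemma IsRed.gal (hG : IsRed σ G) (τ : Ω ≃ₐ[K] Ω) :
    ∀ g ∈ G, acu (inr (τ : Ω ≃+* Ω)) g ∈ G := fun g hg => by
  obtain ⟨F, -, h⟩ := hG.eqs
  refine (h _).mpr fun f hf => ?_
  have := IsRed.aeval (τ : Ω ≃+* Ω) (RingHom.id _) τ.commutes
    (fun q : n × n => g.val q.1 q.2) f
  rw [(h g).mp hg f hf, map_zero, map_id] at this
  rw [acu_inr]
  exact this

lemma IsRed.frob (hG : IsRed σ G)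
    (hs : ∀ a, s (algebraMap K Ω a) = algebraMap K Ω (σ a))
    {g : GL n Ω} : acu (inr s) g ∈ G ↔ g ∈ G := by
  obtain ⟨F, h1, h⟩ := hG.eqs
  rw [h, h, acu_inr]
  refine forall₂_congr fun f hf => ?_
  have := IsRed.aeval s σ hs (fun q : n × n => g.val q.1 q.2) f
  rw [h1 f hf] at this
  exact this ▸ map_eq_zero_iff s s.injective

lemma IsRed.closed (hG : IsRed σ G) {g : GL n Ω} (hg : g.val ∈ Cl (GS G) Ω) : g ∈ G := by
  obtain ⟨F, -, h⟩ := hG.eqs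
  refine (h g).mpr fun f hf => ?_
  have := hg (map (algebraMap K Ω) f) (by
    rintro _ ⟨k, hk, rfl⟩
    rw [ev, aeval_map_algebraMap]
    exact (h k).mp hk f hf)
  rwa [ev, aeval_map_algebraMap] at this

lemma Frame.ds (hG : IsRed σ G) (hF : Frame K P G b y wt s g₀ a₀) : DS (Gd G y) P wt where
  closed g hg := hG.closed (by simpa [ac_inl] using conj_cl (G₂ := G) (y := y) (fun _ h => h) hg)
  prime := prime_Gd y (vanG_eq G ▸ hG.conn)
  span := hF.span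
  tor x hx t ht := by
    obtain ⟨g, hg, e⟩ := hF.tor x hx t ht
    exact ⟨_, mem_Gd'.mpr hg, by rw [acu_val, e]; exact ac_inv_ac _ _⟩
  cent X hX wX := by
    have := hF.cent _ (lieG_iff.mpr (lie_Gd.mp hX)) (isWt_iff.mpr wX)
    rw [← ac_inv_ac (inl y) X]
    generalize ac (inl y) X = Z at this
    induction this using Submodule.span_induction with
    | mem Z hZ =>
      obtain ⟨x, rfl⟩ := hZ
      exact Submodule.subset_span ⟨x, (ac_inv_ac _ _).symm⟩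
    | zero => simp
    | add _ _ _ _ h1 h2 => rw [map_add]; exact add_mem h1 h2
    | smul c _ _ h => rw [ac_smul]; exact Submodule.smul_mem _ _ h
  roots m hm X hX h0 wX := hF.roots m hm _ (lieG_iff.mpr (lie_Gd.mp hX))
    (fun h => h0 (ac_inj _ (h.trans (map_zero _).symm))) (isWt_iff.mpr wX)
  sl2 i := by
    obtain ⟨h0, e, he, f, hf, we, wf, h⟩ := hF.sl2 i
    refine ⟨h0, ac (inl y)⁻¹ e, lie_Gd.mpr ?_, ac (inl y)⁻¹ f, lie_Gd.mpr ?_,
      (isWt_iff (P := P) (y := y)).mp ?_, (isWt_iff (P := P) (y := y)).mp ?_, ?_⟩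
    iterate 4 rw [ac_ac_inv]; first | exact lieG_iff.mp ‹_› | assumption
    rw [← map_mul, ← map_mul, ← map_sub, h, dd_eq, ac_inv_ac]

lemma Act.nrm {g : GL n Ω} {θ : Ω ≃+* Ω} {a : P.Aut} (h : Act P b y wt g θ a) :
    Nrm P wt (Yc y (inl g * inr θ)) a.coweightMap := fun x => by
  rw [ac_Yc_iff, ac_mul, ac_inr, ac_inl, ← dd_eq, h.2, mul_assoc, Units.mul_inv, mul_one, dd_eq]

/-- inertia in diagonal coordinates -/
def II (K : Type) [Field K] [Algebra K Ω] (y : GL n Ω) : Subgroup (SL n Ω) where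
  carrier := {φ | ∃ τ : Ω ≃ₐ[K] Ω, φ = Yc y (inr (τ : Ω ≃+* Ω))}
  mul_mem' := by
    rintro _ _ ⟨τ, rfl⟩ ⟨τ', rfl⟩
    exact ⟨τ * τ', by rw [← Yc_mul, ← map_mul]; rfl⟩
  one_mem' := ⟨1, by rw [Yc]; exact (by simp : (1 : SL n Ω) = (inl y)⁻¹ * inr 1 * inl y)⟩
  inv_mem' := by
    rintro _ ⟨τ, rfl⟩
    exact ⟨τ⁻¹, by rw [← Yc_inv, ← map_inv]; rfl⟩

lemma II_fix {X : Matrix n n Ω} : (∀ τ ∈ II K y, ac τ X = X) ↔
    ∀ τ : Ω ≃ₐ[K] Ω, (ac (inl y) X).map τ = ac (inl y) X :=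
  ⟨fun h τ => (ac_inr _ _).symm.trans (ac_Yc_iff.mp (h _ ⟨τ, rfl⟩)), by
    rintro h _ ⟨τ, rfl⟩
    rw [ac_Yc_iff, ac_inr]
    exact h τ⟩

theorem Frame.as [Finite ι] (hG : IsRed σ G) (hF : Frame K P G b y wt s g₀ a₀)
    (hs : ∀ a, s (algebraMap K Ω a) = algebraMap K Ω (σ a))
    {ω : ι → M} (hω : ∀ i ∈ b.support, ω i ∈ Submodule.span ℚ (Set.range P.root))
    (hω' : ∀ i ∈ b.support, ∀ j ∈ b.support,
      (i = j → P.toLinearMap (ω i) (P.coroot j) = 1) ∧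
      (i ≠ j → P.toLinearMap (ω i) (P.coroot j) = 0))
    (r₀ : ∀ τ : Ω ≃ₐ[K] Ω, g₀.val.map τ = g₀.val) {v : Ω → ℚ}
    (h1 : ∀ (τ : Ω ≃ₐ[K] Ω) a, v (τ a) = v a) (h2 : ∀ a, v (s a) = v a)
    (h3 : ∀ a : K, a ≠ 0 → ∃ m : ℤ, v (algebraMap K Ω a) = m) :
    AS (Gd G y) b wt ω v (II K y) (Yc y (inl g₀ * inr s)) a₀ (Gam K P b y wt a₀) where
  ds := hF.ds hG
  su := by
    refine ⟨fun a ha => ?_, fun i => (hF.sl2 i).1, hω, fun i hi j hj => ?_⟩
    · induction ha using Subgroup.closure_induction with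
      | mem a ha =>
        rcases ha with ⟨τ, h⟩ | rfl
        · exact h.1
        · exact hF.fr.2.1
      | one => exact fun i hi => hi
      | mul a c _ _ h h' => exact fun i hi => h _ (h' i hi)
      | inv a _ h =>
        intro i hi
        obtain ⟨j, hj, rfl⟩ := surj_on_of_inj_on_of_card_le (s := b.support)
          (fun j _ => a.indexEquiv j) h (fun _ _ _ _ e => a.indexEquiv.injective e) le_rfl i hi
        rwa [idx_inv, Equiv.symm_apply_apply]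
    · split_ifs with h
      · exact (hω' i hi j hj).1 h
      · exact (hω' i hi j hj).2 h
  iso := by
    rintro _ ⟨τ, rfl⟩ z
    rw [Yc_right]; exact h1 τ z
  stab := by
    rintro _ ⟨τ, rfl⟩
    exact Yc_stab (hG.gal τ)
  act := by
    rintro _ ⟨τ, rfl⟩
    obtain ⟨a, ha⟩ := hF.gal τ
    exact ⟨a, Subgroup.subset_closure (Or.inl ⟨τ, ha⟩), by simpa using ha.nrm⟩
  int z hz h := by
    obtain ⟨k, rfl⟩ := fixed_mem z fun τ => by simpa using h _ ⟨τ, rfl⟩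
    exact h3 k (by simpa using hz)
  desc V hV X hX := by
    let L : Matrix n n Ω →ₗ[Ω] Matrix n n Ω :=
      { toFun := ac (inl y)⁻¹, map_add' := map_add _, map_smul' := fun c X => by
          rw [ac_smul]; simp }
    have h4 := descent (V.comap L) (fun τ X hX => by
      have := hV _ ⟨τ, rfl⟩ _ hX
      rwa [Yc, ac_mul, ac_mul, show ac (inl y) (L X) = X from ac_ac_inv _ _, ac_inr] at this)
      (show ac (inl y) X ∈ V.comap L by
        change ac _ _ ∈ V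
        rwa [ac_inv_ac])
    have h5 := Submodule.mem_map_of_mem (f := L) h4
    rw [Submodule.map_span, show L (ac (inl y) X) = X from ac_inv_ac _ _] at h5
    refine Submodule.span_mono ?_ h5
    rintro _ ⟨Z, ⟨a1, a2⟩, rfl⟩
    exact ⟨a1, II_fix.mpr (by rwa [show ac (inl y) (L Z) = Z from ac_ac_inv _ _])⟩
  iso₀ z := by simpa using h2 z
  stab₀ := Yc_stab fun g hg => by
    rw [acu_mul, acu_inl]
    exact mul_mem (mul_mem hF.fr.1 ((hG.frob hs).mpr hg)) (inv_mem hF.fr.1)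
  stab₀' := Yc_inv y _ ▸ Yc_stab fun g hg => by
    rw [← hG.frob hs, mul_inv_rev, acu_mul, acu_acu_inv, ← map_inv, acu_inl]
    exact mul_mem (mul_mem (inv_mem hF.fr.1) hg) (inv_mem (inv_mem hF.fr.1))
  act₀ := hF.fr.2.nrm
  mem₀ := Subgroup.subset_closure (Or.inr rfl)
  norm₀ := by
    rintro _ ⟨τ, rfl⟩
    refine ⟨AlgEquiv.ofRingEquiv (f := s⁻¹ * τ * s) fun a => s.injective ?_, ?_⟩
    · change s (s.symm (τ (s _))) = _
      rw [s.apply_symm_apply, hs, τ.commutes]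
    · have e : (inr (τ : Ω ≃+* Ω) : SL n Ω) * inl g₀ = inl g₀ * inr (τ : Ω ≃+* Ω) := by
        rw [← mul_inv_eq_iff_eq_mul, ← inl_acu]
        exact congrArg _ (Units.ext ((ac_inr _ _).trans (r₀ τ)))
      rw [← Yc_inv, ← Yc_mul, ← Yc_mul, mul_assoc, ← mul_assoc _ (inl g₀), e]
      congr 1
      change _ = inr (s⁻¹ * τ * s)
      simp only [map_mul, map_inv]
      group
  gen := Subgroup.closure_mono (Set.union_subset_union_left _ fun a ⟨τ, ha⟩ =>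
    ⟨_, ⟨τ, rfl⟩, by simpa using ha.nrm⟩)

end Pool.Agent.P.MP_7d29e8_ag
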