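import Pool.Agent.P.MP_7d29e8_ag.Fac
import Pool.Agent.P.MP_7d29e8_ag.HEll

set_option autoImplicit false

/-! From the classification of the points to the criterion. -/

namespace Pool.Agent.P.MP_7d29e8_ag

open scoped Classical
open Finset

lemma Table.congr {n : ℕ} {C : Matrix (Fin n) (Fin n) ℤ} {R : Fin n → Fin n → Prop}
    {D W W' V V' : Fin n → ℚ} {Q : Prop} (h : Table n C R D W W' Q)
    (H : ∀ k, (∀ l, R k l ↔ l = k) → V k = W k ∧ V' k = W' k) : Table n C R D V V' Q := by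
  obtain ⟨h1, h2, h3, h4⟩ := h
  have he : R = Eq → V = W ∧ V' = W' := fun e =>
    ⟨funext fun k => (H k fun l => e ▸ eq_comm).1, funext fun k => (H k fun l => e ▸ eq_comm).2⟩
  refine ⟨fun a e => ?_, fun a e => ?_, fun a c e => ?_, h4⟩
  · rw [(he e).1, (he e).2]; exact h1 a e
  · rw [h2 a e]
    refine forall_congr' fun k => ?_
    rw [sum_congr rfl fun m hm => ?_]
    have := H m fun l => by rw [e, (mem_filter.mp hm).2, or_self]
    rw [this.1, this.2]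
  · rw [(he e).1]; exact h3 a c e

variable {ι M N : Type} [AddCommGroup M] [Module ℚ M] [AddCommGroup N] [Module ℚ N]
  {P : RootPairing ι ℚ M N} [Finite ι] [P.IsCrystallographic] {b : P.Base} {Γ : Subgroup P.Aut}
  {L : AddSubgroup N} {ω : ι → M} (S : Setup b Γ L ω) [Finite Γ]

omit [Finite ι] [P.IsCrystallographic] in
lemma BG_shift {γ γ' x νb : N} (hx : x ∈ L) (hc : ∀ i ∈ b.support, P.root' i νb = 0)
    (hinv : ∀ g ∈ Γ, g.coweightMap νb = νb) (hz : avg Γ (γ' - γ - x) = - νb)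
    {ν : N} {κ : N ⧸ rel Γ L} (hp : (ν, κ) ∈ BG b Γ L γ) :
    (ν - νb, κ - (x : N ⧸ rel Γ L)) ∈ BG b Γ L γ' := by
  obtain ⟨hdom, hνinv, x0, hx0, hκ0, hspan⟩ := hp
  simp only at hdom hνinv hκ0 hspan
  have hroot : ∀ i ∈ b.support, P.root' i (ν - νb) = P.root' i ν := fun i hi => by
    rw [map_sub, hc i hi, sub_zero]
  have hJ : {i | i ∈ b.support ∧ P.root' i (ν - νb) = 0} =
      {i | i ∈ b.support ∧ P.root' i ν = 0} := by
    ext i
    exact and_congr_right fun hi => by rw [hroot i hi]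
  have heq : avg Γ (x0 - x + γ') - (ν - νb) = avg Γ (x0 + γ) - ν := by
    have : x0 - x + γ' = (x0 + γ) + (γ' - γ - x) := by abel
    rw [this, avg_add, hz]; abel
  refine ⟨fun i hi => by rw [hroot i hi]; exact hdom i hi, fun g hg => by
    rw [map_sub, hνinv g hg, hinv g hg], x0 - x, L.sub_mem hx0 hx, by simp [hκ0], ?_⟩
  simp only
  rw [hJ, heq]; exact hspan

include S

lemma Setup.sum_root_avg (i : ι) (x : N) :
    ∑ j ∈ O b Γ i, P.root' j (avg Γ x) = ∑ j ∈ O b Γ i, P.root' j x := by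
  have := map_avg Γ (∑ j ∈ O b Γ i, P.root' j) x (∑ j ∈ O b Γ i, P.root' j x) fun a ha => by
    simp only [LinearMap.sum_apply, root_act]
    exact sum_bij (fun j _ => a.indexEquiv j) (fun j hj => S.act_mem_O ha hj)
      (fun j _ k _ h => a.indexEquiv.injective h)
      (fun k hk => ⟨a.indexEquiv.symm k, S.act_mem_O (inv_mem ha) hk, by simp⟩) (fun _ _ => rfl)
  simpa using this

/-- an integral representative of the class of the inner form -/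
lemma Setup.gamma {w : N} (hw : w ∈ Submodule.span ℚ (Set.range P.coroot))
    (hf : ∀ a ∈ Γ, a.coweightMap w = w)
    (hZ : ∀ i, ∃ m : ℤ, ∑ j ∈ O b Γ i, P.root' j w = m) :
    ∃ γ ∈ Submodule.span ℚ (Set.range P.coroot), (∀ i, ∃ z : ℤ, P.root' i γ = z) ∧
      avg Γ γ = w := by
  choose m hm using hZ
  let r : ι → ι := fun i => if h : (O b Γ i).Nonempty then h.choose else i
  have hr : ∀ i j, j ∈ O b Γ i → r j = r i ∧ r i ∈ O b Γ i := fun i j hj => by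
    have h : (O b Γ i).Nonempty := ⟨j, hj⟩
    simp only [r, O_eq hj, dif_pos h]
    exact ⟨trivial, h.choose_spec⟩
  obtain ⟨γ, h1, h2⟩ := exists_coweight b fun j => if r j = j then (m j : ℚ) else 0
  refine ⟨γ, h1, fun i => ?_, ?_⟩
  · obtain ⟨f, -, -, h⟩ := b.exists_root_eq_sum_int i
    refine ⟨∑ j ∈ b.support, f j * if r j = j then m j else 0, ?_⟩
    change P.toLinearMap (P.root i) γ = _
    rw [h, map_sum, LinearMap.sum_apply, Int.cast_sum]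
    refine sum_congr rfl fun j hj => ?_
    have := h2 j hj
    rw [map_zsmul, LinearMap.smul_apply]
    change f j • P.root' j γ = _
    rw [this]; simp
  · rw [← sub_eq_zero]
    refine eq_zero_of_central b (sub_mem (avg_span h1) hw) fun i hi => ?_
    have h3 : ∑ j ∈ O b Γ i, P.root' j (avg Γ γ - w) = 0 := by
      simp only [map_sub, sum_sub_distrib]
      have h4 := (hr i i (mem_O_self hi)).2
      rw [S.sum_root_avg, sum_eq_single (r i) (fun j hj hne => by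
        rw [h2 j (O_sub _ _ _ hj), if_neg fun h => hne (h.symm.trans (hr i j hj).1)])
        (fun h => absurd h4 h), h2 _ (O_sub _ _ _ h4), if_pos (hr i _ h4).1, ← hm, O_eq h4,
        sub_self]
    rw [sum_congr rfl fun j hj => root_O hj fun a ha => by
      rw [map_sub, act_avg Γ ha, hf a ha], sum_const, nsmul_eq_mul, mul_eq_zero] at h3
    exact h3.resolve_left (by
      exact_mod_cast (card_pos.mpr ⟨i, mem_O_self hi⟩).ne')

theorem Setup.groups {A : Type} {D D' : A → N → N → Prop} {K : N → Prop} {γ γ₀ νb μ μ' : N}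
    (hγ : γ ∈ Submodule.span ℚ (Set.range P.coroot))
    (h₀ : ∀ i, orb b Γ ω i γ₀ = orb b Γ ω i γ) (hμL : μ ∈ L) (hμL' : μ' ∈ L)
    (hμ : ∀ i ∈ b.support, 0 ≤ P.root' i μ) (hμ' : ∀ i ∈ b.support, 0 ≤ P.root' i μ')
    (hc : ∀ i ∈ b.support, P.root' i νb = 0)
    (ha : ∀ g ν z, D g ν z → (ν, (z : N ⧸ rel Γ L)) ∈ BG b Γ L γ)
    (he : ∀ ν κ, (ν, κ) ∈ BG b Γ L γ → ∃ g z, D g ν z ∧ (z : N ⧸ rel Γ L) = κ)
    (hu : ∀ g ν z ν' z', D g ν z → D g ν' z' → ν = ν')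
    (ht : ∀ x, K x → ∀ g ν z, D g ν z → D' g (ν - νb) (z - x))
    (ht' : ∀ x, K x → ∀ g ν z, D' g ν z → D g (ν + νb) (z + x))
    (hk : ∀ g ν z ν' z', D g ν z → D' g ν' z' → K (z - z'))
    (hb : ∀ x, K x → x ∈ L ∧ (νb, (x : N ⧸ rel Γ L)) ∈ BG b Γ L γ) :
    (∀ g, (∃ ν z, D g ν z ∧ (∃ c : ι → ℚ, (∀ i, 0 ≤ c i) ∧
        avg Γ μ - ν = ∑ i ∈ b.support, c i • P.coroot i) ∧ z - μ ∈ rel Γ L) ↔
      ∃ ν z, D' g ν z ∧ (∃ c : ι → ℚ, (∀ i, 0 ≤ c i) ∧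
        avg Γ μ' - ν = ∑ i ∈ b.support, c i • P.coroot i) ∧ z - μ' ∈ rel Γ L) ↔
    (∃ z, K z ∧ z - (μ - μ') ∈ rel Γ L) ∧
      ∀ i ∈ b.support, Crit b Γ ω γ₀ (γ₀ + (μ - μ')) μ μ' i := by
  have main : ∀ x, K x → x - (μ - μ') ∈ rel Γ L → ∃ γ' : N,
      ((fun p => p - (νb, (x : N ⧸ rel Γ L))) '' BGmu b Γ L γ μ = BGmu b Γ L γ' μ' ↔
        ∀ i ∈ b.support, Crit b Γ ω γ₀ (γ₀ + (μ - μ')) μ μ' i) ∧
      (∀ ν κ, (ν, κ) ∈ BG b Γ L γ → (ν - νb, κ - (x : N ⧸ rel Γ L)) ∈ BG b Γ L γ') ∧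
      (∀ ν κ, (ν, κ) ∈ BG b Γ L γ' → (ν + νb, κ + (x : N ⧸ rel Γ L)) ∈ BG b Γ L γ) := by
    intro x hx hκ
    obtain ⟨hL, hB⟩ := hb x hx
    obtain ⟨γ', h1, h2⟩ := exists_coweight b fun i => P.root' i (γ + x)
    have h3 : ∀ i ∈ b.support, P.root' i (γ' - γ - x) = 0 := fun i hi => by
      have := h2 i hi
      simp only [map_add, map_sub] at this ⊢
      linarith
    have hz := S.hz hγ h1 hB hc h3
    refine ⟨γ', ?_, fun ν κ h => BG_shift hL hc hB.2.1 hz h, fun ν κ h => ?_⟩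
    · rw [S.criterion hγ h1 hμL hμL' hL hμ hμ' hB hc h2,
        and_iff_right (by rw [← QuotientAddGroup.mk_sub, QuotientAddGroup.eq_iff_sub_mem]; exact hκ)]
      refine forall₂_congr fun i hi => ?_
      obtain ⟨m, hm⟩ := S.orb_rel i hκ
      have h4 := S.orb_central i h3
      have h5 : - orbL b Γ ω i γ' = - orbL b Γ ω i (γ₀ + (μ - μ')) - m := by
        have := h₀ i
        simp only [← orbL_apply] at this
        simp only [map_add, map_sub] at hm h4 ⊢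
        linarith
      rw [yy, yy, h5, Int.fract_sub_intCast, Crit, h₀]
      simp only [orbL_apply]
    · have := BG_shift (γ' := γ) (νb := -νb) (L.neg_mem hL)
        (fun i hi => by rw [map_neg, hc i hi, neg_zero])
        (fun g hg => by rw [map_neg, hB.2.1 g hg]) (by
          have : γ - γ' - (-x) = -(γ' - γ - x) := by abel
          rw [this, ← avgL_apply, map_neg, avgL_apply, hz]) h
      simpa using this
  simp only [← QuotientAddGroup.eq_iff_sub_mem, QuotientAddGroup.mk_sub] at main ⊢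
  constructor
  · intro H
    obtain ⟨ν, h1, -, h2⟩ := S.basic_mem hγ hμL hμ
    obtain ⟨g, z, h3, h4⟩ := he _ _ h1
    obtain ⟨ν', z', h5, -, h6⟩ := (H g).mp ⟨ν, z, h3, h2, h4⟩
    have hx := hk _ _ _ _ _ h3 h5
    have hκ : ((z - z' : N) : N ⧸ rel Γ L) = (μ : N ⧸ rel Γ L) - (μ' : N ⧸ rel Γ L) := by
      rw [QuotientAddGroup.mk_sub, h4, h6]
    obtain ⟨γ', m1, m2, m3⟩ := main _ hx hκ
    refine ⟨⟨_, hx, hκ⟩, m1.mp (Set.ext fun ⟨ν₁, κ₁⟩ => ⟨?_, fun ⟨a1, a2, a3⟩ => ?_⟩)⟩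
    · rintro ⟨⟨ν₂, κ₂⟩, ⟨a1, a2, a3⟩, e⟩
      obtain ⟨g, z₂, a4, a5⟩ := he _ _ a1
      obtain ⟨ν₃, z₃, a6, a7, -⟩ := (H g).mp ⟨_, _, a4, a3, a5.trans a2⟩
      rw [← e]
      refine ⟨m2 _ _ a1, ?_, ?_⟩
      · simp only at a2
        simp [hκ, a2]
      · rw [hu _ _ _ _ _ a4 (ht' _ hx _ _ _ a6)]
        simpa using a7
    · obtain ⟨g, z₂, a4, a5⟩ := he _ _ (m3 _ _ a1)
      simp only at a2 a3
      have a6 := ht _ hx _ _ _ a4
      rw [add_sub_cancel_right] at a6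
      obtain ⟨ν₃, z₃, a7, a8, -⟩ := (H g).mpr ⟨_, _, a6, a3, by
        rw [QuotientAddGroup.mk_sub, a5, a2, add_sub_cancel_right]⟩
      refine ⟨(ν₁ + νb, κ₁ + (z - z' : N)), ⟨m3 _ _ a1, ?_, ?_⟩, by simp⟩
      · simp [hκ, a2]
      · rwa [hu _ _ _ _ _ a4 a7]
  · rintro ⟨⟨x, hx, hκ⟩, H⟩ g
    obtain ⟨γ', m1, m2, m3⟩ := main _ hx hκ
    have H' := m1.mpr H
    constructor
    · rintro ⟨ν, z, a1, a2, a3⟩
      obtain ⟨-, a4, a5⟩ := H'.le ⟨(ν, z), ⟨ha _ _ _ a1, a3, a2⟩, rfl⟩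
      exact ⟨_, _, ht _ hx _ _ _ a1, a5, by rw [QuotientAddGroup.mk_sub]; exact a4⟩
    · rintro ⟨ν, z, a1, a2, a3⟩
      have a4 := ht' _ hx _ _ _ a1
      have a5 := m2 _ _ (ha _ _ _ a4)
      rw [add_sub_cancel_right, QuotientAddGroup.mk_add, add_sub_cancel_right] at a5
      obtain ⟨⟨ν₁, κ₁⟩, ⟨-, -, a6⟩, e⟩ := H'.ge
        (⟨a5, a3, a2⟩ : (ν, (z : N ⧸ rel Γ L)) ∈ BGmu b Γ L γ' μ')
      refine ⟨_, _, a4, ?_, by rw [QuotientAddGroup.mk_add, a3, hκ]; abel⟩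
      rwa [← (Prod.mk.inj e).1, sub_add_cancel]

omit [Finite Γ] in
theorem Setup.table' (hL : ∀ y ∈ L, ∀ i, ∃ z : ℤ, P.root' i y = z) {γ γ₀ μ μ' : N}
    (hγZ : ∀ i, ∃ z : ℤ, P.root' i γ = z) (h₀ : ∀ i, orb b Γ ω i γ₀ = orb b Γ ω i γ)
    (hμL : μ ∈ L) (hμL' : μ' ∈ L)
    (hμ : ∀ i ∈ b.support, 0 ≤ P.root' i μ) (hμ' : ∀ i ∈ b.support, 0 ≤ P.root' i μ')
    (hm : ∀ i, |P.root' i μ| ≤ 1) (hm' : ∀ i, |P.root' i μ'| ≤ 1)
    (T : Type) [Fintype T] [Nonempty T] (m : ℕ) (e : T × Fin m → ι)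
    (C : Matrix (Fin m) (Fin m) ℤ) (R : Fin m → Fin m → Prop)
    (h1 : Function.Injective e) (h2 : ∀ q, e q ∈ b.support)
    (h3 : ∀ t k l, P.pairing (e (t, k)) (e (t, l)) = C k l)
    (h4 : ∀ t k, ∀ j ∈ b.support, (∀ l, j ≠ e (t, l)) → P.pairing (e (t, k)) j = 0)
    (h5 : ∀ q j, (∃ g ∈ Γ, g.indexEquiv (e q) = j) ↔ ∃ q', j = e q' ∧ R q.2 q'.2) :
    Table m C R (fun k => ∑ t, P.root' (e (t, k)) (μ - μ'))
      (fun k => ∑ t, P.toLinearMap (ω (e (t, k))) γ₀)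
      (fun k => ∑ t, P.toLinearMap (ω (e (t, k))) (γ₀ + (μ - μ')))
      (∀ q, Crit b Γ ω γ₀ (γ₀ + (μ - μ')) μ μ' (e q)) := by
  have F : Factor b Γ e C R := by
    refine ⟨h1, h2, ?_, ?_, h5⟩
    · rintro ⟨t, k⟩ ⟨t', l⟩
      split_ifs with h
      · obtain rfl : t = t' := h
        simpa using h3 t k l
      · simpa using h4 t k _ (h2 _) fun l' he => h (congrArg Prod.fst (h1 he)).symm
    · rintro ⟨t, k⟩ j hj hj'
      exact h4 t k j hj fun l he => hj' ⟨_, he.symm⟩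
  have h₁ : ∀ i, orb b Γ ω i (γ₀ + (μ - μ')) = orb b Γ ω i (γ + (μ - μ')) := fun i => by
    have := h₀ i
    simp only [← orbL_apply] at this ⊢
    rw [map_add, map_add, this]
  have := S.table F hL hγZ hμL hμL' (L.sub_mem hμL hμL') hμ hμ' (γ' := γ + (μ - μ'))
    (fun _ _ => rfl) (QuotientAddGroup.mk_sub _ _ _)
    (fun i => (le_abs_self _).trans (hm i)) (fun i => (le_abs_self _).trans (hm' i))
  simp only [Crit, h₀, h₁] at this ⊢
  refine this.congr fun k hk => ?_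
  obtain ⟨t⟩ := ‹Nonempty T›
  have a1 := h₀ (e (t, k))
  have a2 := h₁ (e (t, k))
  simp only [F.orb_eq, oS_single hk] at a1 a2
  exact ⟨a1, a2⟩

end Pool.Agent.P.MP_7d29e8_ag
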