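import Pool.Agent.P.MP_7d29e8_ag.HArith
import Pool.Agent.P.MP_7d29e8_ag.HLog

set_option autoImplicit false

/-! The class of the inner form is integral. -/

namespace Pool.Agent.P.MP_7d29e8_ag

open Finset SemidirectProduct
open scoped Classical

variable {Ω : Type} [Field Ω] [CharZero Ω] {n : Type} [Fintype n] [DecidableEq n]
  {ι M N : Type} [AddCommGroup M] [Module ℚ M] [AddCommGroup N] [Module ℚ N]
  {P : RootPairing ι ℚ M N} {wt : n → M}
  {G : Subgroup (GL n Ω)} {b : P.Base} {ω : ι → M} {v : Ω → ℚ} {hv : Val v} {pw : ℚ → Ωˣ}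
  {I : Subgroup (SL n Ω)} {φ₀ : SL n Ω} {a₀ : P.Aut} {Γ : Subgroup P.Aut}

/-- semilinear automorphisms preserving the group and the torus -/
def Good (G : Subgroup (GL n Ω)) (wt : n → M) (Γ : Subgroup P.Aut) (φ : SL n Ω) : Prop :=
  (∀ g ∈ G, acu φ g ∈ G) ∧ ∃ a ∈ Γ, Nrm P wt φ a.coweightMap

omit [CharZero Ω] in
lemma Good.mul {φ φ' : SL n Ω} (h : Good G wt Γ φ) (h' : Good G wt Γ φ') :
    Good G wt Γ (φ * φ') := by
  obtain ⟨h1, a, h2, h3⟩ := h
  obtain ⟨k1, a', k2, k3⟩ := h'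
  exact ⟨fun g hg => by rw [acu_mul]; exact h1 _ (k1 g hg), a' * a, mul_mem k2 h2, fun x => by
    rw [ac_mul, k3, h3]; rfl⟩

omit [CharZero Ω] in
lemma Good.pow {φ : SL n Ω} (h : Good G wt Γ φ) (m : ℕ) : Good G wt Γ (φ ^ m) := by
  induction m with
  | zero => exact ⟨fun g hg => by
      rwa [show acu (φ ^ 0) g = g from Units.ext (by simp)], 1, one_mem _, fun x => by simp⟩
  | succ m ih => rw [pow_succ]; exact ih.mul h

lemma DS.good_root (D : DS G P wt) {φ : SL n Ω} (h1 : ∀ g ∈ G, acu φ g ∈ G) {a : P.Aut}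
    (h2 : Nrm P wt φ a.coweightMap) {j : ι} {X : Matrix n n Ω} (hX : X ∈ lie (GS G) Ω)
    (wX : Wt wt (P.root j) X) :
    ac φ X ∈ lie (GS G) Ω ∧ Wt wt (P.root (a.indexEquiv.symm j)) (ac φ X) := by
  refine ⟨lie_of_exp (GS_one G) (wX.nil.map _) fun c => ?_, h2.wt' (cw_surj a) (fun x => ?_) wX⟩
  · have := h1 _ (D.mem_iff.mp (ex_smul_mem hX wX.nil (φ.right.symm c)))
    rw [acu_ex _ (wX.nil.smul _), ac_smul, RingEquiv.apply_symm_apply] at this
    exact D.mem_iff.mpr this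
  · have := root_act a (a.indexEquiv.symm j) x
    rwa [Equiv.apply_symm_apply] at this

variable (A : AS G b wt ω v I φ₀ a₀ Γ) [P.IsReduced] [Finite ι] [P.IsCrystallographic]
include A

theorem AS.orbit_int (hpw : Pw v pw) {ν₀ : N} (H₀ : NP hv pw φ₀ 1 (hh P wt ν₀))
    (f₀ : ∀ a ∈ Γ, a.coweightMap ν₀ = ν₀) {i : ι} :
    ∃ m : ℤ, ∑ j ∈ O b Γ i, P.root' j ν₀ = m := by
  choose e he f hf we wf hef hsp using A.ds.root_vec
  have hne : ∀ j, ∃ q : n × n, e j q.1 q.2 ≠ 0 := fun j => by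
    by_contra h
    push Not at h
    have h0 : e j = 0 := Matrix.ext fun a c => h (a, c)
    have : DD P wt Ω (P.coroot j) = DD P wt Ω 0 := by
      rw [← hef, h0]; simp [DD, hh_zero]
    exact P.ne_zero' j (DD_inj A.ds.span this)
  choose q hq using hne
  have hq' : ∀ j k, j ≠ k → e k (q j).1 (q j).2 = 0 := fun j k hjk => we k _ _ fun h => by
    by_contra h'
    exact hq j (we j _ _ fun h'' => hjk (P.root.injective (h''.symm.trans h)))
  let V : Submodule Ω (Matrix n n Ω) := Submodule.span Ω (e '' (O b Γ i : Set ι))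
  let Nm : Matrix n n Ω → Ω := fun Y => ∏ j ∈ O b Γ i, Y (q j).1 (q j).2 / e j (q j).1 (q j).2
  have hNm : ∀ y : ι → Ω, Nm (∑ j ∈ O b Γ i, y j • e j) = ∏ j ∈ O b Γ i, y j := fun y =>
    prod_congr rfl fun j hj => by
      rw [Matrix.sum_apply, sum_eq_single j (fun k _ hk => by simp [hq' j k hk.symm])
        (fun h => absurd hj h), Matrix.smul_apply, smul_eq_mul, mul_div_cancel_right₀ _ (hq j)]
  have key : ∀ φ, Good G wt Γ φ → ∃ C : Ω, ∀ Y ∈ V, ac φ Y ∈ V ∧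
      Nm (ac φ Y) = φ.right (Nm Y) * C := by
    rintro φ ⟨h1, a, ha, h2⟩
    have h3 : ∀ j, ∃ c : Ω, ac φ (e j) = c • e (a.indexEquiv.symm j) := fun j => by
      obtain ⟨s1, s2⟩ := A.ds.good_root h1 h2 (he j) (we j)
      simpa using hsp _ Ω _ s1 s2
    choose c hc using h3
    refine ⟨∏ j ∈ O b Γ i, c j, fun Y hY => ?_⟩
    obtain ⟨y, rfl⟩ := (Submodule.mem_span_image_finset_iff_exists_fun' Ω).mp hY
    have hb : ∀ {β : Type} [CommMonoid β] (F : ι → β),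
        ∏ j ∈ O b Γ i, F (a.indexEquiv j) = ∏ j ∈ O b Γ i, F j := fun F =>
      prod_bij (fun j _ => a.indexEquiv j) (fun j hj => A.su.act_mem_O ha hj)
        (fun j _ k _ h => a.indexEquiv.injective h)
        (fun k hk => ⟨a.indexEquiv.symm k, A.su.act_mem_O (inv_mem ha) hk, by simp⟩)
        (fun _ _ => rfl)
    have h4 : ac φ (∑ j ∈ O b Γ i, y j • e j) = ∑ j ∈ O b Γ i,
        (φ.right (y (a.indexEquiv j)) * c (a.indexEquiv j)) • e j := by
      have := hb (β := Multiplicative (Matrix n n Ω))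
        fun j => Multiplicative.ofAdd (ac φ (y j • e j))
      rw [map_sum]
      refine (congrArg Multiplicative.toAdd this).symm.trans (sum_congr rfl fun j _ => ?_)
      simp [ac_smul, hc, smul_smul]
      rfl
    rw [h4, hNm, hNm, map_prod, ← prod_mul_distrib]
    exact ⟨sum_mem fun j hj => Submodule.smul_mem _ _ (Submodule.subset_span ⟨j, hj, rfl⟩),
      hb fun j => φ.right (y j) * c j⟩
  have gI : ∀ τ ∈ I, Good G wt Γ τ := fun τ hτ => ⟨A.stab τ hτ, A.act τ hτ⟩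
  have g0 : Good G wt Γ φ₀ := ⟨A.stab₀, a₀, A.mem₀, A.act₀⟩
  have g0' : Good G wt Γ φ₀⁻¹ := ⟨A.stab₀', a₀⁻¹, inv_mem A.mem₀, A.act₀.inv (cw_inv _)⟩
  obtain ⟨X, hX, rX, nX⟩ : ∃ X ∈ V, (∀ τ ∈ I, ac τ X = X) ∧ Nm X ≠ 0 := by
    let F : Submodule ℚ (Matrix n n Ω) :=
      { carrier := {X | X ∈ V ∧ ∀ τ ∈ I, ac τ X = X}
        add_mem' := fun a c => ⟨add_mem a.1 c.1, fun τ h => by rw [map_add, a.2 τ h, c.2 τ h]⟩
        zero_mem' := ⟨zero_mem _, fun τ _ => map_zero _⟩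
        smul_mem' := fun c _ a => ⟨by rw [← Rat.cast_smul_eq_qsmul Ω]; exact V.smul_mem _ a.1,
          fun τ h => by rw [map_rat_smul, a.2 τ h]⟩ }
    obtain ⟨X, hX⟩ := Submodule.exists_forall_notMem_of_forall_ne_top (ι := O b Γ i)
      (fun j => LinearMap.ker ((Matrix.entryLinearMap ℚ Ω (q j).1 (q j).2) ∘ₗ F.subtype))
      fun j htop => by
        have h1 := A.desc V (fun τ hτ Y hY => ((key τ (gI τ hτ)).choose_spec Y hY).1)
          (Submodule.subset_span ⟨j, j.2, rfl⟩)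
        refine hq j ((Submodule.span_le
          (p := LinearMap.ker (Matrix.entryLinearMap Ω Ω (q j).1 (q j).2))).mpr
          (fun Y hY => ?_) h1)
        exact (htop.ge (Submodule.mem_top (x := (⟨Y, hY⟩ : F))) :)
    exact ⟨X, X.2.1, X.2.2, prod_ne_zero_iff.mpr fun j hj => div_ne_zero (hX ⟨j, hj⟩) (hq j)⟩
  have key' : ∀ φ, Good G wt Γ φ → ∀ Y ∈ V, ac φ Y ∈ V ∧
      Nm (ac φ Y) * φ.right (Nm X) = φ.right (Nm Y) * Nm (ac φ X) := fun φ hφ Y hY => by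
    obtain ⟨C, hC⟩ := key φ hφ
    exact ⟨(hC Y hY).1, by rw [(hC Y hY).2, (hC X hX).2]; ring⟩
  have nX' : ∀ φ : SL n Ω, φ.right (Nm X) ≠ 0 := fun φ => by simpa using nX
  have hinv : ∀ φ, Good G wt Γ φ → Good G wt Γ φ⁻¹ → Iso v φ → Nm (ac φ X) ≠ 0 ∧
      Nm (ac φ⁻¹ X) ≠ 0 ∧ v (Nm (ac φ X)) + v (Nm (ac φ⁻¹ X)) = 2 * v (Nm X) := by
    intro φ h1 h2 h3
    have h4 := (key' φ h1 _ (key' _ h2 X hX).1).2
    rw [ac_ac_inv] at h4
    have h5 := h4 ▸ mul_ne_zero nX (nX' φ)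
    have h6 := congrArg v h4
    rw [hv.mul _ _ nX (nX' φ), hv.mul _ _ (left_ne_zero_of_mul h5) (right_ne_zero_of_mul h5),
      h3, h3] at h6
    exact ⟨right_ne_zero_of_mul h5, by simpa using left_ne_zero_of_mul h5, by linarith⟩
  have n0 := (hinv φ₀ g0 g0' A.iso₀).1
  obtain ⟨m, hm⟩ := A.int (Nm (ac φ₀ X) / Nm X) (div_ne_zero n0 nX) fun τ hτ => by
    have := (key' τ (gI τ hτ) _ (key' _ g0 X hX).1).2
    rw [A.rat_ac rX τ hτ, rX τ hτ] at this
    rw [map_div₀, div_eq_div_iff (nX' τ) nX, this]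
  rw [div_eq_mul_inv, hv.mul _ _ n0 (inv_ne_zero nX), mulv_inv hv.mul nX] at hm
  refine ⟨m, ?_⟩
  have hpow : ∀ k : ℕ, Good G wt Γ (φ₀ ^ k)⁻¹ := fun k => inv_pow φ₀ k ▸ g0'.pow k
  have hv1 : ∀ k : ℕ, v (Nm (ac (φ₀ ^ k) X)) = k * m + v (Nm X) := fun k => by
    induction k with
    | zero => simp
    | succ k ih =>
      have h1 := congrArg v (key' _ g0 _ (key' _ (g0.pow k) X hX).1).2
      have n1 := (hinv _ (g0.pow k) (hpow k) (A.iso₀.pow k)).1
      have n2 := (hinv _ (g0.pow (k + 1)) (hpow _) (A.iso₀.pow _)).1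
      rw [← ac_mul, ← pow_succ', hv.mul _ _ n2 (nX' _), hv.mul _ _ (by simpa using n1) n0,
        A.iso₀, A.iso₀, ih] at h1
      push_cast; linarith
  set β := P.root' i ν₀ with hβ
  have hsc : ∀ (c : ℚ), ∀ Y ∈ V, Nm (ac (inl (dU fun k => pw (c * hh P wt ν₀ k))) Y) =
      (pw (c * β) : Ω) ^ (O b Γ i).card * Nm Y ∧
      ac (inl (dU fun k => pw (c * hh P wt ν₀ k))) Y ∈ V := fun c Y hY => by
    obtain ⟨y, rfl⟩ := (Submodule.mem_span_image_finset_iff_exists_fun' Ω).mp hY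
    have h1 : ∀ j ∈ O b Γ i, ac (inl (dU fun k => pw (c * hh P wt ν₀ k))) (y j • e j) =
        ((pw (c * β) : Ω) * y j) • e j := fun j hj => by
      ext k l
      rw [ac_inl, ← map_inv, dU_val, dU_val, Matrix.mul_diagonal, Matrix.diagonal_mul]
      simp only [Matrix.smul_apply, smul_eq_mul, Pi.inv_apply, ← pw_neg hpw]
      by_cases h : hh P wt ν₀ k - hh P wt ν₀ l = P.toLinearMap (P.root j) ν₀
      · have h2 : c * β = c * hh P wt ν₀ k + -(c * hh P wt ν₀ l) := by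
          rw [hβ, ← root_O hj f₀]
          change c * P.toLinearMap (P.root j) ν₀ = _
          rw [← h]; ring
        rw [h2, hpw.add, Units.val_mul]; ring
      · simp [(we j).hh (P := P) ν₀ k l h]
    rw [map_sum, sum_congr rfl h1, hNm, hNm, prod_mul_distrib, prod_const]
    exact ⟨rfl, sum_mem fun j hj => Submodule.smul_mem _ _ (Submodule.subset_span ⟨j, hj, rfl⟩)⟩
  have hb : ∀ ψ : ℕ → SL n Ω, (fun k => (ψ k).left) ∈ Bdd hv → (∀ k, Iso v (ψ k)) →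
      (fun k => Nm (ac (ψ k) X)) ∈ BS hv := fun ψ h1 h2 => by
    have h3 := (h1.1.mul ((MB.const X).map (fun k => (ψ k).right) h2)).mul h1.2
    have := (BS hv).prod_mem (t := O b Γ i) fun j _ => (BS hv).mul_mem (h3 (q j).1 (q j).2)
      ((BS hv).algebraMap_mem (e j (q j).1 (q j).2)⁻¹)
    convert this using 1
    funext k
    simp [Nm, div_eq_mul_inv, ac_apply]
  let ψ : ℕ → SL n Ω := fun k => inl (dU fun l => pw (-(k : ℚ) * hh P wt ν₀ l)) * φ₀ ^ k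
  have iψ : ∀ k, Iso v (ψ k) := fun k => (Iso.inl _).mul (A.iso₀.pow k)
  have bψ : (fun k => (ψ k).left) ∈ Bdd hv := by
    convert H₀ using 1
    rw [NP]
    congr! 2 with k
    simp only [ψ, mul_left, left_inl, right_inl, map_one, MulAut.one_apply, one_mul, ← map_inv,
      neg_mul, pw_neg hpw]
    rfl
  have bψ' : (fun k => ((ψ k)⁻¹).left) ∈ Bdd hv :=
    bdd_ga (inv_mem bψ) (fun k => ((ψ k)⁻¹).right) fun k => (iψ k).inv
  have n1 := fun k => hinv _ (g0.pow k) (hpow k) (A.iso₀.pow k)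
  have q1 := BS.nonneg (hb ψ bψ iψ) (q := m - (O b Γ i).card * β) (c := v (Nm X)) fun k => by
    have h1 := pow_ne_zero (O b Γ i).card (pw (-(k : ℚ) * β)).ne_zero
    simp only [ψ]
    rw [ac_mul, (hsc _ _ (key' _ (g0.pow k) X hX).1).1]
    refine ⟨mul_ne_zero h1 (n1 k).1, ?_⟩
    rw [hv.mul _ _ h1 (n1 k).1, mulv_pow hv.mul (Units.ne_zero _), hpw.val, hv1]; ring
  have q2 := BS.nonneg (hb _ bψ' fun k => (iψ k).inv) (q := (O b Γ i).card * β - m)
    (c := v (Nm X)) fun k => by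
    have h1 := pow_ne_zero (O b Γ i).card (pw ((k : ℚ) * β)).ne_zero
    have e1 : (ψ k)⁻¹ = (φ₀ ^ k)⁻¹ * inl (dU fun l => pw ((k : ℚ) * hh P wt ν₀ l)) := by
      simp only [ψ, mul_inv_rev, ← map_inv, neg_mul, pw_neg hpw]
      congr 3
    have h2 := (key' _ (hpow k) _ (hsc k _ hX).2).2
    rw [(hsc _ _ hX).1, ← ac_mul, ← e1] at h2
    have n3 : ((φ₀ ^ k)⁻¹).right ((pw ((k : ℚ) * β) : Ω) ^ (O b Γ i).card * Nm X) ≠ 0 := by
      simpa using nX
    have h3 := h2 ▸ mul_ne_zero n3 (n1 k).2.1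
    refine ⟨left_ne_zero_of_mul h3, ?_⟩
    have h4 := congrArg v h2
    rw [hv.mul _ _ (left_ne_zero_of_mul h3) (nX' _), hv.mul _ _ n3 (n1 k).2.1,
      (A.iso₀.pow k).inv, (A.iso₀.pow k).inv, hv.mul _ _ h1 nX,
      mulv_pow hv.mul (Units.ne_zero _), hpw.val] at h4
    have h5 := (n1 k).2.2
    rw [hv1] at h5
    linarith
  rw [sum_congr rfl fun j hj => root_O hj f₀, sum_const, nsmul_eq_mul]
  linarith

theorem AS.gamma [Finite Γ] (hpw : Pw v pw) {ν₀ : N} (H₀ : NP hv pw φ₀ 1 (hh P wt ν₀))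
    (f₀ : ∀ a ∈ Γ, a.coweightMap ν₀ = ν₀) {u t : GL n Ω} (hu : u ∈ Gp G I) (ht : t ∈ G)
    {x x₀ : N} (tt : Tor P wt v x t) (hx : avg Γ x = avg Γ x₀) (hL : x₀ ∈ lat P wt)
    (H₁ : NP hv pw ((inl (u * t))⁻¹ * φ₀) 1 (hh P wt 0)) :
    ∃ γ ∈ Submodule.span ℚ (Set.range P.coroot), (∀ i, ∃ z : ℤ, P.root' i γ = z) ∧
      avg Γ γ = ν₀ - avg Γ x₀ := by
  have hf : ∀ a ∈ Γ, a.coweightMap (ν₀ - avg Γ x₀) = ν₀ - avg Γ x₀ := fun a ha => by
    rw [map_sub, f₀ a ha, act_avg Γ ha]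
  refine A.su.gamma (A.span_of hf fun ζ h1 h2 c => ?_) hf fun i => ?_
  · have hz : Zer (hh P wt ζ) (u * t).val := A.ds.zer_of_zer (x := 0)
      (fun i _ => root'_eq_zero_of h2) (A.ds.mem_iff.mpr (mul_mem (Gp_mem hu).1 ht))
      fun i j h => absurd (by simp [hh_zero]) h
    have := (A.minor hpw ((Iso.inl _).inv.mul A.iso₀) H₁ (ν₂ := ν₀) (g := u * t)
      (by rwa [mul_inv_cancel_left]) (ζ := ζ) (by
        rw [ac_mul, A.act₀, h1 _ A.mem₀]
        exact (congrArg _ (ac_inl_iff.mpr hz).symm).trans (ac_inv_ac _ _)) hz tt rfl c).2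
    rw [A.ds.DE_central (fun i => root'_eq_zero_of h2) c hu, mulv_one hv.mul, sub_zero] at this
    rw [← hx, map_sub, A.tS_avg h1, ← map_sub, ← this]
  · obtain ⟨m, hm⟩ := A.orbit_int hpw H₀ f₀ (i := i)
    choose k hk using A.ds.root_int hL
    refine ⟨m - ∑ j ∈ O b Γ i, k j, ?_⟩
    simp only [map_sub, sum_sub_distrib, hm, A.su.sum_root_avg, hk]
    push_cast; rfl

omit [P.IsReduced] [Finite ι] [P.IsCrystallographic] in
lemma AS.finite : Finite Γ := by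
  choose φ hφ using fun a : Γ => A.real a.2
  choose l hl _ using fun a => (hφ a).row
  refine Finite.of_injective l fun a c h => Subtype.ext (RootPairing.Equiv.coweightHom_injective P
    (MulOpposite.unop_injective (LinearEquiv.ext fun x => hh_inj (P := P) A.ds.span fun i => ?_)))
  exact (hl a x i).trans (h ▸ (hl c x i).symm)

end Pool.Agent.P.MP_7d29e8_ag
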