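import Pool.Agent.P.MP_7d29e8_ag.HMain

set_option autoImplicit false

open Pool.Agent.P.MP_7d29e8_ag

/-- Kottwitz sets of a reductive group over `ℚ_p` and of its inner twist by a basic element: the
criterion for their equality, and its solution for every simple factor. -/
theorem Pool.Agent.P.MP_7d29e8_ag.groups_core
    (p : ℕ) [Fact p.Prime] (K Ω : Type) [Field K] [Field Ω]
    [Algebra (WittVector p (AlgebraicClosure (ZMod p))) K]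
    [IsFractionRing (WittVector p (AlgebraicClosure (ZMod p))) K] [Algebra K Ω] [IsAlgClosure K Ω]
    (σ : K ≃+* K) (hσ : ∀ o : WittVector p (AlgebraicClosure (ZMod p)),
      σ (algebraMap _ K o) = algebraMap _ K (WittVector.frobenius o))
    (s : Ω ≃+* Ω) (hs : ∀ a, s (algebraMap K Ω a) = algebraMap K Ω (σ a))
    {ι M N : Type} [AddCommGroup M] [Module ℚ M] [AddCommGroup N] [Module ℚ N]
    (P : RootPairing ι ℚ M N) [Finite ι] [P.IsCrystallographic] [P.IsReduced] (b : P.Base)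
    (ω : ι → M) (hω : ∀ i ∈ b.support, ω i ∈ Submodule.span ℚ (Set.range P.root))
    (hω' : ∀ i ∈ b.support, ∀ j ∈ b.support,
      (i = j → P.toLinearMap (ω i) (P.coroot j) = 1) ∧
      (i ≠ j → P.toLinearMap (ω i) (P.coroot j) = 0))
    {n n' : ℕ} (G : Subgroup (GL (Fin n) Ω)) (G' : Subgroup (GL (Fin n') Ω))
    (hG : IsRed σ G) (_hG' : IsRed σ G')
    (y : GL (Fin n) Ω) (wt : Fin n → M) (g₀ : GL (Fin n) Ω) (a₀ : P.Aut)
    (hF : Frame K P G b y wt s g₀ a₀)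
    (y' : GL (Fin n') Ω) (wt' : Fin n' → M) (g₀' : GL (Fin n') Ω) (a₀' : P.Aut)
    (hF' : Frame K P G' b y' wt' s g₀' a₀')
    (ν₀ x₀ : N)
    (hν₀ : Newton (WittVector p (AlgebraicClosure (ZMod p))) p σ g₀.val (dd P y wt ν₀))
    (hx₀ : Kap (WittVector p (AlgebraicClosure (ZMod p))) K P p G y wt g₀ x₀)
    (β : G) (νβ : N)
    (hβ : Newton (WittVector p (AlgebraicClosure (ZMod p))) p σ β.val.val (dd P y wt νβ))
    (hβ' : ∀ i, P.root' i νβ = 0)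
    (ψ : G ≃* G') (hψ : Reg K ψ) (hψ' : Reg K ψ.symm)
    (hψs : ∀ g h : G, h.val.val = β.val.val * g.val.val.map s * (β⁻¹).val.val →
      (ψ h).val.val = (ψ g).val.val.map s)
    (hL : lat P wt' = lat P wt)
    (hco : ∀ x ∈ lat P wt, ∀ t ≠ 0, ∀ g : G, g.val.val = co P y wt x t →
      (ψ g).val.val = co P y' wt' x t)
    (μ μ' : N) (hμL : μ ∈ lat P wt) (hμL' : μ' ∈ lat P wt)
    (hμ : ∀ i ∈ b.support, 0 ≤ P.root' i μ) (hμ' : ∀ i ∈ b.support, 0 ≤ P.root' i μ')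
    (hm : ∀ i, |P.root' i μ| ≤ 1) (hm' : ∀ i, |P.root' i μ'| ≤ 1) :
    ((fun g => ψ (g * β⁻¹)) ''
        Kot (WittVector p (AlgebraicClosure (ZMod p))) P p σ G b y wt (Gam K P b y wt a₀) μ =
        Kot (WittVector p (AlgebraicClosure (ZMod p))) P p σ G' b y' wt'
          (Gam K P b y' wt' a₀') μ' ↔
      (∃ z, Kap (WittVector p (AlgebraicClosure (ZMod p))) K P p G y wt β.val z ∧
          z - (μ - μ') ∈ rel (Gam K P b y wt a₀) (lat P wt)) ∧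
        ∀ i ∈ b.support, Crit b (Gam K P b y wt a₀) ω (ν₀ - x₀) (ν₀ - x₀ + (μ - μ')) μ μ' i) ∧
    ∀ (T : Type) [Fintype T] [Nonempty T] (m : ℕ) (e : T × Fin m → ι)
      (C : Matrix (Fin m) (Fin m) ℤ) (R : Fin m → Fin m → Prop),
      Function.Injective e → (∀ q, e q ∈ b.support) →
      (∀ t k l, P.pairing (e (t, k)) (e (t, l)) = C k l) →
      (∀ t k, ∀ j ∈ b.support, (∀ l, j ≠ e (t, l)) → P.pairing (e (t, k)) j = 0) →
      (∀ q j, (∃ g ∈ Gam K P b y wt a₀, g.indexEquiv (e q) = j) ↔ ∃ q', j = e q' ∧ R q.2 q'.2) →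
      Table m C R (fun k => ∑ t, P.root' (e (t, k)) (μ - μ'))
        (fun k => ∑ t, P.toLinearMap (ω (e (t, k))) (ν₀ - x₀))
        (fun k => ∑ t, P.toLinearMap (ω (e (t, k))) (ν₀ - x₀ + (μ - μ')))
        (∀ q, Crit b (Gam K P b y wt a₀) ω (ν₀ - x₀) (ν₀ - x₀ + (μ - μ')) μ μ' (e q)) := by
  have := charZero_K p K
  have := charZero_of_injective_algebraMap (algebraMap K Ω).injective
  have := IsAlgClosure.isAlgClosed K (K := Ω)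
  obtain ⟨v, pw, hv, hpw, hτ, hvs, hp, hO, hZ⟩ := exists_val σ hσ s hs
  have nn := newton_nt (P := P) (y := y) (wt := wt) hs hv hpw hvs hp hO
  have nn' := newton_nt (P := P) (y := y') (wt := wt') hs hv hpw hvs hp hO
  have H₀ := (nn g₀ 1 ν₀).mp (by simpa using hν₀)
  have Hβ := (nn β 1 νβ).mp (by simpa using hβ)
  have A := hF.as hG hs hω hω' (rt_iff.mp H₀.rt) hτ hvs hZ
  have := A.finite
  have T := graph_td hG hs hF.tor' β ψ hψ hψ' hψs hL hco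
  obtain ⟨γ, h1, h2, h3⟩ := A.gamma' hpw hvs hp hO H₀ hx₀
  have h₀ : ∀ i, orb b (Gam K P b y wt a₀) ω i (ν₀ - x₀) = orb b (Gam K P b y wt a₀) ω i γ := fun i => by
    simp only [← orbL_apply]
    rw [← A.su.orb_avg i γ, h3, map_sub, map_sub, A.su.orb_avg]
  refine ⟨?_, A.su.table' (fun x hx => A.ds.root_int hx) h2 h₀ hμL hμL' hμ hμ' hm hm'⟩
  rw [A.gam_eq β.2 T hF.fr.1 hF'.fr.1 hF'.fr.2]
  have tw := fun (g k : G) (ν : N) => Nt.twist hpw hF.tor' (fun g hg => (hG.frob hs).mpr hg) β.2 Hβ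
    (A.central hβ') g.2 k.2 (ν := ν)
  have hR : ∀ g : G, ∃ h : G, g.val * β.val⁻¹ = h.val ∧ (ψ (g * β⁻¹)).val = (ψ h).val :=
    fun g => ⟨g * β⁻¹, rfl, rfl⟩
  rw [← A.su.groups
    (D := fun (g : G) ν z => (∃ k : G, Nt K hv pw P y wt (SemidirectProduct.inr s) g k ν) ∧
      (∀ i ∈ b.support, 0 ≤ P.root' i ν) ∧
      Kap (WittVector p (AlgebraicClosure (ZMod p))) K P p G y wt g z)
    (D' := fun (g : G) ν z => (∃ k : G', Nt K hv pw P y' wt' (SemidirectProduct.inr s)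
      (ψ (g * β⁻¹)) k ν) ∧ (∀ i ∈ b.support, 0 ≤ P.root' i ν) ∧
      Kap (WittVector p (AlgebraicClosure (ZMod p))) K P p G' y' wt' (ψ (g * β⁻¹)) z)
    h1 h₀ hμL hμL' hμ hμ' (fun i _ => hβ' i)
    (fun g ν z ⟨⟨k, a1⟩, a2, a3⟩ => A.mem_BG hpw hvs hp hO H₀ hx₀ h3 k.2 a1 a2 a3)
    (fun ν κ h => let ⟨g, a1, z, a2, a3, a4⟩ := A.of_BG hpw hvs hp hO H₀ hx₀ exists_transversal hF.fr.1 h3 h
      ⟨⟨g, a1⟩, z, ⟨⟨1, a2⟩, h.1, a3⟩, a4⟩)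
    (fun g ν z ν' z' ⟨⟨k, a1⟩, a2, _⟩ ⟨⟨k', b1⟩, b2, _⟩ => A.uniq hpw hvs k.2 k'.2 a1 b1 a2 b2)
    (fun x hx g ν z ⟨⟨k, a1⟩, a2, a3⟩ => ⟨⟨ψ k, T.nt hpw (hR g) ⟨k, rfl, rfl⟩ ((tw g k ν).mp a1)⟩,
      fun i hi => by rw [map_sub, hβ', sub_zero]; exact a2 i hi,
      T.kap' (hR g) (sub_eq_add_neg z x ▸ Kap.mul _ _ _ _ a3 hx.inv)⟩)
    (fun x hx g ν z ⟨⟨k, a1⟩, a2, a3⟩ => ⟨⟨ψ.symm k, (tw g _ _).mpr (by
        rw [add_sub_cancel_right]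
        exact T.symm.nt hpw (hR g) ⟨ψ.symm k, rfl, by simp⟩ a1)⟩,
      fun i hi => by rw [map_add, hβ', add_zero]; exact a2 i hi, by
        simpa using Kap.mul _ _ _ _ (T.symm.kap' (hR g) a3) hx⟩)
    (fun g ν z ν' z' ⟨_, _, a3⟩ ⟨_, _, b3⟩ => by
      simpa [neg_add_eq_sub] using Kap.mul _ _ _ _ (T.symm.kap' (hR g) b3).inv a3)
    (fun x hx => ⟨(A.dec hv hp hO hx).1, A.mem_BG hpw hvs hp hO H₀ hx₀ h3 (one_mem _) Hβ
      (fun i _ => (hβ' i).ge) hx⟩)]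
  refine (((Equiv.mulRight β⁻¹).trans ψ.toEquiv).eq_preimage_iff_image_eq _ _).symm.trans
    (Set.ext_iff.trans (forall_congr' fun g => iff_congr ?_ ?_))
  · exact ⟨fun ⟨k, ν, z, c, a1, a2, a3, a4, a5, a6⟩ =>
      ⟨ν, z, ⟨⟨k, (nn _ _ _).mp a1⟩, a2, a5⟩, ⟨c, a3, a4⟩, a6⟩,
      fun ⟨ν, z, ⟨⟨k, a1⟩, a2, a5⟩, ⟨c, a3, a4⟩, a6⟩ =>
      ⟨k, ν, z, c, (nn _ _ _).mpr a1, a2, a3, a4, a5, a6⟩⟩
  · rw [← hL]
    exact ⟨fun ⟨k, ν, z, c, a1, a2, a3, a4, a5, a6⟩ =>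
      ⟨ν, z, ⟨⟨k, (nn' _ _ _).mp a1⟩, a2, a5⟩, ⟨c, a3, a4⟩, a6⟩,
      fun ⟨ν, z, ⟨⟨k, a1⟩, a2, a5⟩, ⟨c, a3, a4⟩, a6⟩ =>
      ⟨k, ν, z, c, (nn' _ _ _).mpr a1, a2, a3, a4, a5, a6⟩⟩
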