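import Pool.Agent.P.MP_7d29e8_ag.HFrame

set_option autoImplicit false

/-! The Kottwitz homomorphism. -/

namespace Pool.Agent.P.MP_7d29e8_ag

open Finset SemidirectProduct
open scoped Classical

variable {p : ℕ} [Fact p.Prime] {O K Ω : Type} [CommRing O] [Field K] [Field Ω] [Algebra O K]
  [Algebra K Ω] [IsAlgClosure K Ω] [CharZero K] [CharZero Ω] {σ : K ≃+* K}
  {n : Type} [Fintype n] [DecidableEq n]
  {ι M N : Type} [AddCommGroup M] [Module ℚ M] [AddCommGroup N] [Module ℚ N]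
  {P : RootPairing ι ℚ M N} {wt : n → M} {G : Subgroup (GL n Ω)} {b : P.Base}
  {y g₀ : GL n Ω} {s : Ω ≃+* Ω} {a₀ : P.Aut}

/-- the value of a cocharacter, as an invertible matrix -/
noncomputable def cou (P : RootPairing ι ℚ M N) (y : GL n Ω) (wt : n → M) (x : N)
    (e : Ωˣ) : GL n Ω := acu (inl y) (dU fun i => e ^ ⌊hh P wt x i⌋)

lemma cou_val (x : N) (e : Ωˣ) : (cou P y wt x e).val = co P y wt x e := by
  simp [cou, co, ac_inl, hh]

lemma cou_inv (x : N) (e : Ωˣ) : cou P y wt x e⁻¹ = (cou P y wt x e)⁻¹ := by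
  rw [cou, cou, ← map_inv, ← map_inv]
  congr 2
  funext i; simp

/-- rational points -/
def Rt (K : Type) [Field K] [Algebra K Ω] (g : GL n Ω) : Prop := ∀ τ : Ω ≃ₐ[K] Ω, acu (inr (τ : Ω ≃+* Ω)) g = g

lemma rt_iff {g : GL n Ω} : Rt K g ↔ ∀ τ : Ω ≃ₐ[K] Ω, g.val.map τ = g.val :=
  forall_congr' fun τ => by rw [Units.ext_iff, acu_val, ac_inr]; rfl

lemma Rt.mul {g h : GL n Ω} (a : Rt K g) (c : Rt K h) : Rt K (g * h) := fun τ => by
  rw [map_mul, a, c]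

lemma Rt.inv {g : GL n Ω} (a : Rt K g) : Rt K g⁻¹ := fun τ => by rw [map_inv, a]

lemma rt_II {g : GL n Ω} : (∀ τ ∈ II K y, acu τ g = g) ↔ Rt K (acu (inl y) g) := by
  rw [rt_iff, acu_val, ← II_fix]
  exact forall₂_congr fun τ _ => Units.ext_iff

lemma nil_map {u₀ : Matrix n n K} :
    IsNilpotent (u₀.map (algebraMap K Ω) - 1) ↔ IsNilpotent (u₀ - 1) := by
  have := IsNilpotent.map_iff (r := u₀ - 1) (f := (algebraMap K Ω).mapMatrix)
    (Matrix.map_injective (algebraMap K Ω).injective)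
  rwa [map_sub, map_one] at this

lemma Kap.unip' {u : GL n Ω} (h : u ∈ G) (r : Rt K u) (hn : IsNilpotent (u.val - 1)) :
    Kap O K P p G y wt u 0 := by
  choose u₀ h₀ using fun i j => fixed_mem (u.val i j) fun τ =>
    congrFun (congrFun (rt_iff.mp r τ) i) j
  have e : u.val = (Matrix.of u₀).map (algebraMap K Ω) :=
    Matrix.ext fun i j => (h₀ i j).symm
  exact Kap.unip u _ h e (nil_map.mp (e ▸ hn))

lemma rt_of_map {u : GL n Ω} {u₀ : Matrix n n K}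
    (e : u.val = u₀.map (algebraMap K Ω)) : Rt K u :=
  rt_iff.mpr fun τ => by rw [e]; ext; simp

lemma norm_eq {g : GL n Ω} {x : N} {e : Ω} (he : e ≠ 0) {l : List (Ω ≃ₐ[K] Ω)} :
    g.val = (l.map fun ρ : Ω ≃ₐ[K] Ω => (co P y wt x e).map ρ).prod ↔
    g = (l.map fun ρ : Ω ≃ₐ[K] Ω =>
      acu (inr (ρ : Ω ≃+* Ω)) (cou P y wt x (Units.mk0 e he))).prod := by
  rw [Units.ext_iff]
  refine iff_of_eq (congrArg _ ?_)
  rw [← Units.coeHom_apply, map_list_prod, List.map_map]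
  congr 2
  funext ρ
  simp only [Function.comp, Units.coeHom_apply, acu_val, ac_inr, cou_val]
  rfl

lemma Kap.inv {g : GL n Ω} {z : N} (h : Kap O K P p G y wt g z) : Kap O K P p G y wt g⁻¹ (-z) := by
  induction h with
  | unip u u₀ h1 h2 h3 =>
    rw [neg_zero]
    exact Kap.unip' (inv_mem h1) (rt_of_map h2).inv (unip_inv' (h2 ▸ nil_map.mpr h3))
  | norm g x e l r u h1 h2 h3 h4 h5 h6 =>
    rw [← neg_smul]
    refine Kap.norm _ x e⁻¹ l.reverse (-r) u⁻¹ h1 (inv_ne_zero h2) (List.nodup_reverse.mpr h3)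
      (fun τ => by simpa using h4 τ) ?_ ?_
    · rw [List.map_reverse, List.prod_reverse, zpow_neg, map_units_inv, map_inv₀, ← mul_inv,
        ← h5, List.prod_inv, List.map_map]
      congr 2
      funext ρ; simp
    · rw [norm_eq (inv_ne_zero h2), (norm_eq h2).mp h6, List.prod_inv_reverse, List.map_reverse,
        List.map_map]
      congr 3
      funext ρ
      simp only [Function.comp, ← map_inv, ← cou_inv]
      congr 2
      ext; simp
  | mul g h x z _ _ h1 h2 =>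
    rw [mul_inv_rev, neg_add_rev]
    exact Kap.mul _ _ _ _ h2 h1

lemma Kap.mem (tor : ∀ x ∈ lat P wt, ∀ t, cou P y wt x t ∈ G)
    (gal : ∀ τ : Ω ≃ₐ[K] Ω, ∀ g ∈ G, acu (inr (τ : Ω ≃+* Ω)) g ∈ G)
    {g : GL n Ω} {z : N} (h : Kap O K P p G y wt g z) : g ∈ G := by
  induction h with
  | unip u u₀ h1 _ _ => exact h1
  | norm g x e l r u h1 h2 _ _ _ h6 =>
    rw [(norm_eq h2).mp h6]
    refine list_prod_mem fun a ha => ?_
    obtain ⟨ρ, -, rfl⟩ := List.mem_map.mp ha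
    exact gal _ _ (tor x h1 _)
  | mul g h x z _ _ h1 h2 => exact mul_mem h1 h2

lemma Frame.tor' (hF : Frame K P G b y wt s g₀ a₀) : ∀ x ∈ lat P wt, ∀ t, cou P y wt x t ∈ G :=
  fun x hx t => by
    obtain ⟨g, hg, e⟩ := hF.tor x hx t t.ne_zero
    rwa [show cou P y wt x t = g from Units.ext ((cou_val _ _).trans e.symm)]

variable {ω : ι → M} {v : Ω → ℚ} {φ₀ : SL n Ω} {Γ : Subgroup P.Aut}
  (A : AS (Gd G y) b wt ω v (II K y) φ₀ a₀ Γ) [Finite Γ] (hv : Val v) (hp : v (p : Ω) = 1)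
  (hO : ∀ a : K, a ≠ 0 → ((∃ o : O, algebraMap O K o = a) ↔
    0 ≤ v (algebraMap K Ω a)))
include A hv hp hO

lemma AS.norm {g : GL n Ω} {x : N} {e : Ω} {l : List (Ω ≃ₐ[K] Ω)} {r : ℤ}
    {u : Oˣ} (h1 : x ∈ lat P wt) (h2 : e ≠ 0) (h3 : l.Nodup)
    (h4 : ∀ τ : Ω ≃ₐ[K] Ω, ∃! ρ, ρ ∈ l ∧ ρ e = τ e ∧
      (dd P y wt x).map ρ = (dd P y wt x).map τ)
    (h5 : (l.map fun ρ => ρ e).prod = algebraMap K Ω (algebraMap O K u) * (p : Ω) ^ r)
    (h6 : g.val = (l.map fun ρ : Ω ≃ₐ[K] Ω => (co P y wt x e).map ρ).prod) :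
    Rt K g ∧ ∃ x', Tor P wt v x' (acu (inl y)⁻¹ g) ∧ avg Γ x' = avg Γ (r • x) := by
  choose a ha hn using fun τ : Ω ≃ₐ[K] Ω => A.act _ ⟨τ, rfl⟩
  set E := Units.mk0 e h2
  let f : (Ω ≃ₐ[K] Ω) → n → Ωˣ := fun τ i =>
    Units.map (τ : Ω ≃+* Ω).toMonoidHom E ^ ⌊hh P wt ((a τ).coweightMap x) i⌋
  have hf : ∀ τ : Ω ≃ₐ[K] Ω, acu (inr (τ : Ω ≃+* Ω)) (cou P y wt x E) =
      acu (inl y) (dU (f τ)) := fun τ => by
    have := (hn τ).co x E
    rw [Yc_right, right_inr] at this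
    rw [← this]
    exact Units.ext (ac_Yc _ _ _).symm
  have hg : g = acu (inl y) (dU (∏ ρ ∈ l.toFinset, f ρ)) := by
    rw [(norm_eq h2).mp h6, List.prod_toFinset _ h3, ← MonoidHom.comp_apply, map_list_prod,
      List.map_map]
    exact congrArg _ (List.map_congr_left fun ρ _ => hf ρ)
  have hdd : ∀ τ : Ω ≃ₐ[K] Ω, (dd P y wt x).map τ =
      ac (inl y) (DD P wt Ω ((a τ).coweightMap x)) := fun τ =>
    (ac_inr _ _).symm.trans (ac_Yc_iff.mp (hn τ x))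
  constructor
  · intro τ
    choose π hπ hπ' using fun ρ => h4 (τ * ρ)
    have e1 : ∀ ρ, f (π ρ) = f (τ * ρ) := fun ρ => by
      have := (hπ ρ).2.2
      rw [hdd, hdd] at this
      funext i
      simp only [f, DD_inj A.ds.span (ac_inj _ this)]
      congr 1
      exact Units.ext (hπ ρ).2.1
    have e2 : ∏ ρ ∈ l.toFinset, f (π ρ) = ∏ ρ ∈ l.toFinset, f ρ := by
      have hi : ∀ ρ ∈ l.toFinset, ∀ ρ' ∈ l.toFinset, π ρ = π ρ' → ρ = ρ' := fun ρ h ρ' h' e => by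
        refine (h4 ρ).unique ⟨List.mem_toFinset.mp h, rfl, rfl⟩ ⟨List.mem_toFinset.mp h', ?_, ?_⟩
        · exact τ.injective ((hπ ρ').2.1.symm.trans (e ▸ (hπ ρ).2.1))
        · refine Matrix.map_injective τ.injective ?_
          exact (hπ ρ').2.2.symm.trans (e ▸ (hπ ρ).2.2)
      exact prod_bij (fun ρ _ => π ρ) (fun ρ _ => List.mem_toFinset.mpr (hπ ρ).1)
        (fun ρ h ρ' h' e => hi ρ h ρ' h' e) (fun ρ h => by
          obtain ⟨c, hc, e⟩ := surj_on_of_inj_on_of_card_le (s := l.toFinset) (fun ρ _ => π ρ)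
            (fun ρ _ => List.mem_toFinset.mpr (hπ ρ).1) (fun ρ ρ' h h' e => hi ρ h ρ' h' e)
            le_rfl ρ h
          exact ⟨c, hc, e.symm⟩) (fun _ _ => rfl)
    conv_lhs => rw [(norm_eq h2).mp h6, map_list_prod, List.map_map]
    rw [hg, ← e2, List.prod_toFinset _ h3, ← MonoidHom.comp_apply, map_list_prod, List.map_map]
    refine congrArg _ (List.map_congr_left fun ρ _ => ?_)
    simp only [Function.comp, MonoidHom.comp_apply, e1, ← hf, ← acu_mul, ← map_mul]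
    rfl
  · have hve : ∀ ρ : Ω ≃ₐ[K] Ω, v (ρ e) = v e := fun ρ => by
      simpa using A.iso _ ⟨ρ, rfl⟩ e
    have ht : ∀ S : Finset (Ω ≃ₐ[K] Ω), Tor P wt v
        (∑ ρ ∈ S, v e • (a ρ).coweightMap x) (dU (∏ ρ ∈ S, f ρ)) := fun S => by
      induction S using Finset.induction_on with
      | empty => simpa using Tor.one hv.mul
      | insert ρ S h ih =>
        rw [sum_insert h, prod_insert h, map_mul]
        refine Tor.mul hv.mul ?_ ih
        rw [← hve ρ]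
        exact Tor.co hv.mul ((hn ρ).lat h1) _
    refine ⟨_, by rw [hg, acu_inv_acu]; exact ht _, ?_⟩
    have hu : ∀ u : Oˣ, 0 ≤ v (algebraMap K Ω (algebraMap O K u)) := fun u =>
      (hO _ (u.isUnit.map _).ne_zero).mp ⟨_, rfl⟩
    have u0 : algebraMap K Ω (algebraMap O K u) ≠ 0 := ((u.isUnit.map _).map _).ne_zero
    have p0 : (p : Ω) ≠ 0 := Nat.cast_ne_zero.mpr (Fact.out : p.Prime).ne_zero
    have h7 := hu u⁻¹
    rw [map_units_inv, map_inv₀, mulv_inv hv.mul u0] at h7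
    have h8 := congrArg v h5
    rw [← List.prod_toFinset _ h3, mulv_prod hv.mul _ fun ρ _ => by simpa using h2,
      hv.mul _ _ u0 (zpow_ne_zero _ p0), mulv_zpow hv.mul p0, hp,
      le_antisymm (neg_nonneg.mp h7) (hu u), zero_add, mul_one] at h8
    simp only [hve] at h8
    simp only [← avgL_apply, map_sum, map_smul, map_zsmul]
    simp only [avgL_apply, avg_act Γ (ha _)]
    rw [← sum_smul, h8, Int.cast_smul_eq_zsmul]

theorem AS.dec {g : GL n Ω} {z : N} (h : Kap O K P p G y wt g z) :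
    z ∈ lat P wt ∧ ∃ u ∈ Gp (Gd G y) (II K y), ∃ t ∈ Gd G y, (∀ τ ∈ II K y, acu τ t = t) ∧
      ∃ x, Tor P wt v x t ∧ avg Γ x = avg Γ z ∧ acu (inl y)⁻¹ g = u * t := by
  induction h with
  | unip u u₀ h1 h2 h3 =>
    refine ⟨zero_mem _, _, Submonoid.subset_closure ⟨mem_Gd'.mpr h1, rt_II.mpr ?_, ?_⟩, 1,
      one_mem _, fun _ _ => map_one _, 0, Tor.one hv.mul, rfl, (mul_one _).symm⟩
    · rw [acu_acu_inv]; exact rt_of_map h2
    · simpa using (h2 ▸ nil_map.mpr h3 : IsNilpotent (u.val - 1)).map (ac (inl y)⁻¹)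
  | norm g x e l r u h1 h2 h3 h4 h5 h6 =>
    obtain ⟨a1, x', a2, a3⟩ := A.norm hv hp hO h1 h2 h3 h4 h5 h6
    refine ⟨zsmul_mem h1 r, 1, one_mem _, _, mem_Gd'.mpr ?_, rt_II.mpr ?_, x', a2, a3,
      (one_mul _).symm⟩
    · refine Kap.mem (fun x hx t => mem_Gd.mp (A.ds.mem_iff.mp (A.ds.co_mem hx t)))
        (fun τ g hg => ?_) (Kap.norm g x e l r u h1 h2 h3 h4 h5 h6)
      have := A.stab _ ⟨τ, rfl⟩ _ (mem_Gd'.mpr hg)
      rwa [Yc, acu_mul, acu_mul, acu_acu_inv, mem_Gd'] at this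
    · rwa [acu_acu_inv]
  | mul g h x z _ _ h1 h2 =>
    obtain ⟨a0, u, a1, t, a2, a3, x', a4, a5, a6⟩ := h1
    obtain ⟨b0, u', b1, t', b2, b3, z', b4, b5, b6⟩ := h2
    refine ⟨add_mem a0 b0, u * (t * u' * t⁻¹), mul_mem a1 (Gp_conj a2 a3 b1), t * t',
      mul_mem a2 b2, fun τ hτ => by rw [map_mul, a3 τ hτ, b3 τ hτ], x' + z', a4.mul hv.mul b4,
      by rw [avg_add, avg_add, a5, b5], by rw [map_mul, a6, b6]; group⟩

theorem AS.surj (htr : ∀ X : Matrix n n Ω, ∃ (e : Ω) (l : List (Ω ≃ₐ[K] Ω)) (u : Oˣ),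
      e ≠ 0 ∧ l.Nodup ∧ (∀ τ : Ω ≃ₐ[K] Ω, ∃! ρ, ρ ∈ l ∧ ρ e = τ e ∧ X.map ρ = X.map τ) ∧
      (l.map fun ρ => ρ e).prod = algebraMap K Ω (algebraMap O K u) * (p : Ω) ^ (1 : ℤ))
    {x : N} (hx : x ∈ lat P wt) : ∃ t ∈ Gd G y, (∀ τ ∈ II K y, acu τ t = t) ∧
    Kap O K P p G y wt (acu (inl y) t) x ∧ ∃ x', Tor P wt v x' t ∧ avg Γ x' = avg Γ x := by
  obtain ⟨e, l, u, h2, h3, h4, h5⟩ := htr (dd P y wt x)
  have h6 := (norm_eq (P := P) (y := y) (wt := wt) (x := x) (l := l) h2).mpr rfl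
  have h7 := Kap.norm (G := G) _ x e l 1 u hx h2 h3 h4 h5 h6
  obtain ⟨a1, x', a2, a3⟩ := A.norm hv hp hO hx h2 h3 h4 h5 h6
  obtain ⟨-, u, b1, t, b2, -, -, -, -, b3⟩ := A.dec hv hp hO h7
  rw [one_smul] at h7 a3
  exact ⟨_, b3 ▸ mul_mem (Gp_mem b1).1 b2, rt_II.mpr (by rwa [acu_acu_inv]),
    by rwa [acu_acu_inv], x', a2, a3⟩

omit A hv hp hO in
lemma Kap.Gp {u : GL n Ω} (hu : u ∈ Gp (Gd G y) (II K y)) :
    Kap O K P p G y wt (acu (inl y) u) 0 := by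
  induction hu using Submonoid.closure_induction with
  | mem u hu => exact Kap.unip' hu.1 (rt_II.mp hu.2.1) (by simpa using hu.2.2.map (ac (inl y)))
  | one => rw [map_one]; exact Kap.unip' (one_mem _) (fun _ => map_one _) (by simp)
  | mul a c _ _ h1 h2 => rw [map_mul, ← add_zero 0]; exact Kap.mul _ _ _ _ h1 h2

end Pool.Agent.P.MP_7d29e8_ag
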