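import Pool.Agent.P.MP_7d29e8_ag.HCl

set_option autoImplicit false

namespace Pool.Agent.P.MP_7d29e8_ag

open MvPolynomial Finset

variable {Ω : Type} [Field Ω] {n : Type} [Fintype n] [DecidableEq n]

/-- the differential at the identity -/
noncomputable def dOne {R : Type} [AddCommGroup R] [Module Ω R] (f : MvPolynomial (n × n) Ω)
    (X : Matrix n n R) : R :=
  ∑ p : n × n, ev (1 : Matrix n n Ω) (pderiv p f) • X p.1 p.2

section

variable {R R' : Type} [CommRing R] [Algebra Ω R] [CommRing R'] [Algebra Ω R']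

lemma dOne_map {R R' : Type} [AddCommGroup R] [Module Ω R] [AddCommGroup R'] [Module Ω R']
    (f : MvPolynomial (n × n) Ω) (X : Matrix n n R) (φ : R →ₗ[Ω] R') :
    dOne f (X.map φ) = φ (dOne f X) := by
  simp [dOne]

lemma dOne_add (f : MvPolynomial (n × n) Ω) (X Y : Matrix n n R) :
    dOne f (X + Y) = dOne f X + dOne f Y := by
  simp [dOne, sum_add_distrib]

lemma dOne_smul (f : MvPolynomial (n × n) Ω) (c : R) (X : Matrix n n R) :
    dOne f (c • X) = c * dOne f X := by
  simp [dOne, mul_sum]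

lemma dOne_add_left (f g : MvPolynomial (n × n) Ω) (X : Matrix n n R) :
    dOne (f + g) X = dOne f X + dOne g X := by
  simp [dOne, add_smul, sum_add_distrib]

lemma dOne_mul_X (f : MvPolynomial (n × n) Ω) (p : n × n) (Y : Matrix n n R) :
    dOne (f * X p) Y = (1 : Matrix n n R) p.1 p.2 * dOne f Y +
      algebraMap Ω R (ev (1 : Matrix n n Ω) f) * Y p.1 p.2 := by
  simp only [dOne, Derivation.leibniz, smul_eq_mul, map_add, map_mul, add_smul, sum_add_distrib,
    ev_X, pderiv_X, mul_sum]
  rw [add_comm]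
  congr 1
  · refine sum_congr rfl fun q _ => ?_
    by_cases h : p.1 = p.2 <;> simp [Matrix.one_apply, h]
  · rw [sum_eq_single p]
    · simp [Algebra.smul_def]
    · intro q _ hq; simp [Pi.single_apply, hq.symm]
    · simp

lemma dOne_mem (f : MvPolynomial (n × n) Ω) {J : Ideal R} {Y : Matrix n n R}
    (hY : ∀ i j, Y i j ∈ J) : dOne f Y ∈ J :=
  J.sum_mem fun p _ => by rw [Algebra.smul_def]; exact J.mul_mem_left _ (hY _ _)

lemma taylor (f : MvPolynomial (n × n) Ω) {J : Ideal R} {Y : Matrix n n R}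
    (hY : ∀ i j, Y i j ∈ J) :
    ev (1 + Y) f - algebraMap Ω R (ev (1 : Matrix n n Ω) f) - dOne f Y ∈ J ^ 2 := by
  induction f using MvPolynomial.induction_on with
  | C c => simp [dOne]
  | add f g hf hg =>
    convert (J ^ 2).add_mem hf hg using 1
    simp only [map_add, dOne_add_left]; ring
  | mul_X f p hf =>
    have h1 : dOne f Y * Y p.1 p.2 ∈ J ^ 2 := by
      rw [pow_two]; exact Ideal.mul_mem_mul (dOne_mem f hY) (hY _ _)
    convert (J ^ 2).add_mem h1 ((J ^ 2).mul_mem_right ((1 + Y) p.1 p.2) hf) using 1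
    have e : algebraMap Ω R ((1 : Matrix n n Ω) p.1 p.2) = (1 : Matrix n n R) p.1 p.2 := by
      by_cases h : p.1 = p.2 <;> simp [Matrix.one_apply, h]
    simp only [map_mul, ev_X, dOne_mul_X, e, Matrix.add_apply]
    ring

/-- the tangent space at the identity -/
def lie (S : Set (Matrix n n Ω)) (R : Type) [CommRing R] [Algebra Ω R] :
    Submodule R (Matrix n n R) where
  carrier := {X | ∀ f : MvPolynomial (n × n) Ω, (∀ g ∈ S, ev g f = 0) → dOne f X = 0}
  add_mem' ha hb f hf := by rw [dOne_add, ha f hf, hb f hf, add_zero]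
  zero_mem' f _ := by simp [dOne]
  smul_mem' c X hX f hf := by rw [dOne_smul, hX f hf, mul_zero]

variable {S : Set (Matrix n n Ω)}

lemma lie.map {X : Matrix n n R} (hX : X ∈ lie S R) (φ : R →ₗ[Ω] R') : X.map φ ∈ lie S R' :=
  fun f hf => by rw [dOne_map, hX f hf, map_zero]

lemma lie.curve (h1 : (1 : Matrix n n Ω) ∈ S) {X : Matrix n n R} (hX : X ∈ lie S R) {δ : R}
    (hδ : δ * δ = 0) : 1 + δ • X ∈ Cl S R := by
  intro f hf
  have := taylor f (J := Ideal.span {δ}) (Y := δ • X) (fun i j =>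
    Ideal.mem_span_singleton.mpr ⟨X i j, rfl⟩)
  rw [hf 1 h1, dOne_smul, hX f hf, Ideal.span_singleton_pow, pow_two, hδ] at this
  simpa using this

lemma dOne_mem_sq (h1 : (1 : Matrix n n Ω) ∈ S) {J : Ideal R} {Y : Matrix n n R}
    (hY : ∀ i j, Y i j ∈ J) (h : 1 + Y ∈ Cl S R) (f : MvPolynomial (n × n) Ω)
    (hf : ∀ g ∈ S, ev g f = 0) : dOne f Y ∈ J ^ 2 := by
  have := taylor f hY
  rw [h f hf, hf 1 h1] at this
  simpa using this

open DualNumber in
lemma lie.of_dual (h1 : (1 : Matrix n n Ω) ∈ S) {X : Matrix n n R}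
    (h : 1 + (ε : DualNumber R) • X.map (algebraMap R (DualNumber R)) ∈ Cl S (DualNumber R)) :
    X ∈ lie S R := by
  intro f hf
  have := dOne_mem_sq h1 (J := Ideal.span {(ε : DualNumber R)})
    (Y := (ε : DualNumber R) • X.map (algebraMap R (DualNumber R))) (fun i j => Ideal.mem_span_singleton.mpr ⟨_, rfl⟩) h f hf
  rw [Ideal.span_singleton_pow, pow_two, eps_mul_eps, Ideal.span_singleton_zero,
    Ideal.mem_bot] at this
  have h2 := dOne_map f ((ε : DualNumber R) • X.map (algebraMap R (DualNumber R)))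
    ((TrivSqZeroExt.sndHom R R).restrictScalars Ω)
  rw [this, map_zero] at h2
  rw [← h2]
  congr 1
  ext i j
  simp [TrivSqZeroExt.algebraMap_eq_inl]

open DualNumber in
lemma lie.conj (h1 : (1 : Matrix n n Ω) ∈ S) (hm : ∀ a ∈ S, ∀ b ∈ S, a * b ∈ S)
    {γ γ' X : Matrix n n R} (hγ : γ ∈ Cl S R) (hγ' : γ' ∈ Cl S R) (h : γ * γ' = 1)
    (hX : X ∈ lie S R) : γ * X * γ' ∈ lie S R := by
  refine lie.of_dual h1 ?_
  let φ : R →ₐ[Ω] DualNumber R := IsScalarTower.toAlgHom Ω R (DualNumber R)
  have hm' : ∀ a ∈ S, ∀ b ∈ S, a * b ∈ Cl S Ω := fun a ha b hb => Cl.self (hm a ha b hb)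
  have := Cl.mul hm' (Cl.mul hm' (Cl.map hγ φ)
    (lie.curve h1 (lie.map hX φ.toLinearMap) (eps_mul_eps (R := R)))) (Cl.map hγ' φ)
  convert this using 1
  have e : ∀ Z : Matrix n n R, Z.map (algebraMap R (DualNumber R)) = Z.map φ := fun _ => rfl
  have e2 : X.map φ.toLinearMap = X.map φ := rfl
  rw [e, e2, mul_add, add_mul, mul_one, ← Matrix.map_mul, h, Matrix.map_one _ (map_zero φ)
    (map_one φ), Matrix.map_mul, Matrix.map_mul]
  simp

open DualNumber in
lemma lie.bracket (h1 : (1 : Matrix n n Ω) ∈ S) (hm : ∀ a ∈ S, ∀ b ∈ S, a * b ∈ S)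
    {X Y : Matrix n n R} (hX : X ∈ lie S R) (hY : Y ∈ lie S R) : X * Y - Y * X ∈ lie S R := by
  let φ : R →ₐ[Ω] DualNumber R := IsScalarTower.toAlgHom Ω R (DualNumber R)
  have hX' := lie.map hX φ.toLinearMap
  have e2 : ∀ Z : Matrix n n R, Z.map φ.toLinearMap = Z.map φ := fun _ => rfl
  have hε : (ε : DualNumber R) * ε = 0 := eps_mul_eps
  have hX'' : -X.map φ.toLinearMap ∈ lie S (DualNumber R) := by
    have := lie.map ((lie S R).neg_mem hX) φ.toLinearMap
    rwa [Matrix.map_neg _ (map_neg _)] at this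
  have := lie.conj h1 hm (lie.curve h1 hX' hε) (lie.curve h1 hX'' hε)
    (by
      simp only [mul_add, add_mul, mul_one, one_mul, smul_neg, mul_neg, Matrix.mul_smul,
        Matrix.smul_mul, smul_smul, hε, zero_smul]
      abel) (lie.map hY φ.toLinearMap)
  have h2 := lie.map this ((TrivSqZeroExt.sndHom R R).restrictScalars Ω)
  convert h2 using 1
  have e3 : (1 + (ε : DualNumber R) • X.map φ.toLinearMap) * Y.map φ.toLinearMap *
      (1 + (ε : DualNumber R) • -X.map φ.toLinearMap) =
      Y.map φ + (ε : DualNumber R) • (X * Y - Y * X).map φ := by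
    simp only [e2, mul_add, add_mul, mul_one, one_mul, smul_neg, mul_neg, Matrix.mul_smul,
      Matrix.smul_mul, smul_smul, hε, zero_smul, smul_add, Matrix.map_sub _ (map_sub φ),
      Matrix.map_mul, smul_sub]
    abel
  rw [e3]
  ext i j
  simp [φ, TrivSqZeroExt.algebraMap_eq_inl]

end

section Exp

variable [CharZero Ω] {R R' : Type} [CommRing R] [Algebra Ω R] [CommRing R'] [Algebra Ω R']
  [Module ℚ R] [Module ℚ R']

/-- one parameter group of a nilpotent matrix -/
noncomputable def xp (e : Matrix n n Ω) (a : R) : Matrix n n R :=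
  IsNilpotent.exp (a • e.map (algebraMap Ω R))

omit [CharZero Ω] [Module ℚ R] in
lemma nil_smul {e : Matrix n n Ω} (he : IsNilpotent e) (a : R) :
    IsNilpotent (a • e.map (algebraMap Ω R)) :=
  (he.map (algebraMap Ω R).mapMatrix).smul a

omit [CharZero Ω] in
lemma xp_map {e : Matrix n n Ω} (he : IsNilpotent e) (a : R) (φ : R →ₐ[Ω] R') :
    (xp e a).map φ = xp e (φ a) := by
  have := IsNilpotent.map_exp (nil_smul he a) φ.mapMatrix
  have e1 : φ.mapMatrix (a • e.map (algebraMap Ω R)) = φ a • e.map (algebraMap Ω R') := by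
    ext i j; simp
  rw [e1] at this
  exact this

omit [CharZero Ω] in
lemma xp_add {e : Matrix n n Ω} (he : IsNilpotent e) (a b : R) :
    xp e (a + b) = xp e a * xp e b := by
  rw [xp, add_smul]
  exact IsNilpotent.exp_add_of_commute ((Commute.refl _).smul_left _ |>.smul_right _)
    (nil_smul he a) (nil_smul he b)

omit [CharZero Ω] in
@[simp] lemma xp_zero (e : Matrix n n Ω) : xp e (0 : R) = 1 := by simp [xp]

omit [CharZero Ω] in
lemma xp_mul_neg {e : Matrix n n Ω} (he : IsNilpotent e) (a : R) : xp e a * xp e (-a) = 1 := by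
  rw [← xp_add he]; simp

omit [CharZero Ω] in
lemma xp_neg_mul {e : Matrix n n Ω} (he : IsNilpotent e) (a : R) : xp e (-a) * xp e a = 1 := by
  rw [← xp_add he]; simp

lemma xp_eq_sum {e : Matrix n n Ω} {N : ℕ} (hN : e ^ N = 0) (a : R) :
    xp e a = ∑ k ∈ range N, a ^ k • (((k.factorial : Ω)⁻¹ • e ^ k).map (algebraMap Ω R)) := by
  have h0 : (a • e.map (algebraMap Ω R)) ^ N = 0 := by
    rw [smul_pow, ← RingHom.mapMatrix_apply, ← map_pow, hN, map_zero, smul_zero]
  rw [xp, IsNilpotent.exp_eq_sum h0]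
  refine sum_congr rfl fun k _ => ?_
  rw [smul_pow, ← RingHom.mapMatrix_apply, ← map_pow, smul_comm]
  congr 1
  have : ((k.factorial : Ω)⁻¹ • e ^ k) = (k.factorial : ℚ)⁻¹ • e ^ k := by
    rw [← Rat.cast_smul_eq_qsmul Ω]; simp
  rw [this, ← RingHom.mapMatrix_apply, map_rat_smul]

variable {S : Set (Matrix n n Ω)}

open DualNumber in
lemma xp_mem (h1 : (1 : Matrix n n Ω) ∈ S) (hm : ∀ a ∈ S, ∀ b ∈ S, a * b ∈ S)
    {e : Matrix n n Ω} (he : IsNilpotent e) (hl : e ∈ lie S Ω) (a : R) : xp e a ∈ Cl S R := by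
  suffices h : xp e (Polynomial.X : Polynomial Ω) ∈ Cl S (Polynomial Ω) by
    have := Cl.map h (Polynomial.aeval a)
    rwa [xp_map he, Polynomial.aeval_X] at this
  let D : Derivation Ω (MvPolynomial (n × n) Ω) (MvPolynomial (n × n) Ω) :=
    mkDerivation Ω (fun p => (gen Ω n * e.map C : Matrix n n _) p.1 p.2)
  have hDX : ∀ {R : Type} [CommRing R] [Algebra Ω R] (γ : Matrix n n R) (p : n × n),
      ev γ (D (X p)) = (γ * e.map (algebraMap Ω R)) p.1 p.2 := by
    intro R _ _ γ p
    simp [D, mkDerivation_X, Matrix.mul_apply, gen]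
  have hD : ∀ f, (∀ g ∈ S, ev g f = 0) → ∀ g ∈ S, ev g (D f) = 0 := by
    intro f hf g hg
    let φ : Ω →ₐ[Ω] DualNumber Ω := Algebra.ofId _ _
    have key : ∀ f : MvPolynomial (n × n) Ω,
        ev (g.map φ * (1 + (ε : DualNumber Ω) • e.map φ)) f =
          φ (ev g f) + ε * φ (ev g (D f)) := by
      intro f
      induction f using MvPolynomial.induction_on with
      | C c =>
        have : D (C c) = 0 := D.map_algebraMap c
        simp [this, φ]
      | add f f' hf hf' => simp only [map_add, hf, hf']; ring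
      | mul_X f p hf =>
        have e1 : (g.map φ * (1 + (ε : DualNumber Ω) • e.map φ)) p.1 p.2 =
            φ (g p.1 p.2) + ε * φ (ev g (D (X p))) := by
          rw [hDX, mul_add, mul_one, Matrix.mul_smul, ← Matrix.map_mul (f := φ)]
          simp only [Matrix.add_apply, Matrix.smul_apply, Matrix.map_apply, smul_eq_mul]
          simp
        rw [map_mul, hf, ev_X, e1, Derivation.leibniz]
        simp only [smul_eq_mul, map_add, map_mul, ev_X]
        linear_combination (φ (ev g (D f)) * φ (ev g (D (X p)))) * (eps_mul_eps (R := Ω))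
    have h2 := Cl.mul (fun a ha b hb => Cl.self (hm a ha b hb)) (Cl.map (Cl.self hg) φ)
      (lie.curve h1 (lie.map hl φ.toLinearMap) (eps_mul_eps (R := Ω))) f hf
    have h3 := (key f).symm.trans h2
    have := congrArg TrivSqZeroExt.snd h3
    simpa [φ, TrivSqZeroExt.algebraMap_eq_inl] using this
  obtain ⟨N, hN⟩ := he
  set M := xp e (Polynomial.X : Polynomial Ω) with hM
  have hM' : ∀ i j, Polynomial.derivative (M i j) =
      (M * e.map (algebraMap Ω (Polynomial Ω))) i j := by
    intro i j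
    have hN1 : e ^ (N + 1) = 0 := by rw [pow_succ, hN, zero_mul]
    rw [hM, xp_eq_sum hN1, sum_mul, sum_range_succ', sum_range_succ]
    have e0 : (((N.factorial : Ω)⁻¹ • e ^ N).map (algebraMap Ω (Polynomial Ω))) = 0 := by
      simp [hN]
    rw [e0]
    simp only [Matrix.add_apply, Matrix.sum_apply, Matrix.smul_apply, Matrix.map_apply,
      smul_eq_mul, map_add, map_sum, pow_zero, one_mul, Polynomial.algebraMap_apply,
      Algebra.algebraMap_self, RingHom.id_apply, Polynomial.derivative_C, add_zero, smul_zero,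
      zero_mul, Matrix.zero_apply, Matrix.smul_mul]
    refine sum_congr rfl fun k _ => ?_
    rw [← Matrix.map_mul, Matrix.smul_mul, ← pow_succ]
    simp only [Polynomial.derivative_mul, Polynomial.derivative_C, mul_zero, add_zero,
      Polynomial.derivative_X_pow_succ, Matrix.map_apply, Matrix.smul_apply, smul_eq_mul,
      Polynomial.algebraMap_apply, Algebra.algebraMap_self, RingHom.id_apply]
    rw [mul_comm (Polynomial.C _), mul_assoc, ← map_mul]
    congr 2
    rw [Nat.factorial_succ]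
    have : ((k : Ω) + 1) ≠ 0 := by exact_mod_cast k.succ_ne_zero
    have : (k.factorial : Ω) ≠ 0 := by exact_mod_cast k.factorial_ne_zero
    push_cast
    field_simp
  have hchain : ∀ f : MvPolynomial (n × n) Ω, Polynomial.derivative (ev M f) = ev M (D f) := by
    intro f
    induction f using MvPolynomial.induction_on with
    | C c =>
      have : D (C c) = 0 := D.map_algebraMap c
      simp [this]
    | add f f' hf hf' => simp only [map_add, hf, hf']
    | mul_X f p hf =>
      rw [map_mul, Polynomial.derivative_mul, hf, ev_X, hM', Derivation.leibniz]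
      simp only [smul_eq_mul, map_add, map_mul, ev_X, hDX]
      ring
  have hall : ∀ (k : ℕ) (f : MvPolynomial (n × n) Ω), (∀ g ∈ S, ev g f = 0) → (ev M f).coeff k = 0 := by
    intro k
    induction k with
    | zero =>
      intro f hf
      have := ev_map M (Polynomial.aeval (0 : Ω)) f
      rw [hM, xp_map ⟨N, hN⟩, Polynomial.aeval_X, xp_zero, hf 1 h1] at this
      rw [Polynomial.coeff_zero_eq_eval_zero]
      simpa using this.symm
    | succ k ih =>
      intro f hf
      have := ih _ (hD f hf)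
      rw [← hchain, Polynomial.coeff_derivative] at this
      have h0 : ((k : Ω) + 1) ≠ 0 := by exact_mod_cast k.succ_ne_zero
      exact (mul_eq_zero.mp this).resolve_right h0
  intro f hf
  ext k
  simp [hall k f hf]

end Exp

end Pool.Agent.P.MP_7d29e8_ag
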