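import Pool.Agent.P.MP_7d29e8_ag.HTr

set_option autoImplicit false

/-! The classification of points with given invariants. -/

namespace Pool.Agent.P.MP_7d29e8_ag

open Finset SemidirectProduct
open scoped Classical

variable {p : ℕ} [Fact p.Prime] {O K Ω : Type} [CommRing O] [Field K] [Field Ω] [Algebra O K]
  [Algebra K Ω] [IsAlgClosure K Ω] [CharZero K] [CharZero Ω] {σ : K ≃+* K}
  {n n' : Type} [Fintype n] [DecidableEq n] [Fintype n']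
  [DecidableEq n'] {ι M N : Type} [AddCommGroup M] [Module ℚ M] [AddCommGroup N] [Module ℚ N]
  {P : RootPairing ι ℚ M N} {wt : n → M} {wt' : n' → M} {G : Subgroup (GL n Ω)}
  {G' : Subgroup (GL n' Ω)} {y g₀ : GL n Ω} {y' : GL n' Ω} {s : Ω ≃+* Ω}
  {v : Ω → ℚ} {hv : Val v} {pw : ℚ → Ωˣ} {b : P.Base} {a₀ : P.Aut}

lemma newton_nt [IsNoetherianRing O] (hs : ∀ a, s (algebraMap K Ω a) = algebraMap K Ω (σ a))
    (hv : Val v) (hpw : Pw v pw) (hvs : ∀ a, v (s a) = v a) (hp : v (p : Ω) = 1)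
    (hO : ∀ a : K, a ≠ 0 → ((∃ o : O, algebraMap O K o = a) ↔
      0 ≤ v (algebraMap K Ω a))) (g k : GL n Ω) (ν : N) :
    Newton O p σ g.val (k.val * dd P y wt ν * (k⁻¹).val) ↔ Nt K hv pw P y wt (inr s) g k ν := by
  rw [newton_iff s hs hv hpw hvs hp hO fixed_mem g (k * y) (hh P wt ν) _ (by
    simp only [dd, hh, mul_inv_rev, Units.val_mul, mul_assoc]), np_iff, ← rt_iff, ← ac_inl]
  exact ⟨fun ⟨h1, h2, h3, h4⟩ => ⟨h1, fun τ => (ac_inr _ _).trans (h2 τ), h3, h4⟩,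
    fun ⟨h1, h2, h3, h4⟩ => ⟨h1, fun τ => (ac_inr _ _).symm.trans (h2 τ), h3, h4⟩⟩

lemma nt_diag (hvs : ∀ a, v (s a) = v a) {g k : GL n Ω} {ν : N} :
    Nt K hv pw P y wt (inr s) g k ν ↔ Rt K g ∧
    (∀ τ ∈ II K y, ac τ (ac (inl (acu (inl y)⁻¹ k)) (DD P wt Ω ν)) =
      ac (inl (acu (inl y)⁻¹ k)) (DD P wt Ω ν)) ∧
    ac (Yc y (inl g * inr s)) (ac (inl (acu (inl y)⁻¹ k)) (DD P wt Ω ν)) =
      ac (inl (acu (inl y)⁻¹ k)) (DD P wt Ω ν) ∧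
    NP hv pw (Yc y (inl g * inr s)) (acu (inl y)⁻¹ k) (hh P wt ν) := by
  have e : ac (inl y) (ac (inl (acu (inl y)⁻¹ k)) (DD P wt Ω ν)) =
      ac (inl k) (dd P y wt ν) := by rw [← Yc_inl, ac_Yc, dd_eq]
  have hi : Iso v (inl g * inr s : SL n Ω) := fun z => by simpa using hvs z
  have e1 : NP hv pw (Yc y (inl g * inr s)) (acu (inl y)⁻¹ k) (hh P wt ν) ↔
      NP hv pw (inl g * inr s) (k * y) (hh P wt ν) := by
    rw [← map_inv, acu_inl, inv_inv, mul_assoc]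
    refine ⟨fun h => ?_, fun h => h.conj hi y⟩
    have := h.conj (fun z => by simpa using hvs z) y⁻¹
    simpa [Yc, mul_assoc] using this
  rw [II_fix, ac_Yc_iff, e, e1, np_iff]
  exact ⟨fun ⟨h1, h2, h3, h4⟩ => ⟨h1, fun τ => (ac_inr _ _).symm.trans (h2 τ), h3, h4⟩,
    fun ⟨h1, h2, h3, h4⟩ => ⟨h1, fun τ => (ac_inr _ _).trans (h2 τ), h3, h4⟩⟩

lemma Yc_frob (g : GL n Ω) :
    Yc y (inl g * inr s) = inl (acu (inl y)⁻¹ (g * g₀⁻¹)) * Yc y (inl g₀ * inr s) := by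
  rw [← Yc_inl, ← Yc_mul, ← mul_assoc, ← map_mul, inv_mul_cancel_right]

lemma graph_td (hG : IsRed σ G)
    (hs : ∀ a, s (algebraMap K Ω a) = algebraMap K Ω (σ a))
    (tor : ∀ x ∈ lat P wt, ∀ t, cou P y wt x t ∈ G) (β : G)
    (ψ : G ≃* G') (hψ : Reg K ψ) (hψ' : Reg K ψ.symm)
    (hψs : ∀ g h : G, h.val.val = β.val.val * g.val.val.map s * (β⁻¹).val.val →
      (ψ h).val.val = (ψ g).val.val.map s) (hL : lat P wt' = lat P wt)
    (hco : ∀ x ∈ lat P wt, ∀ t ≠ 0, ∀ g : G, g.val.val = co P y wt x t →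
      (ψ g).val.val = co P y' wt' x t) :
    TD K P G G' y y' wt wt' (inl β.val * inr s) (inr s)
      fun a a' => ∃ g : G, a = g.val ∧ a' = (ψ g).val where
  one := ⟨1, rfl, by rw [map_one]; rfl⟩
  mul := by
    rintro _ _ _ _ ⟨g, rfl, rfl⟩ ⟨h, rfl, rfl⟩
    exact ⟨g * h, rfl, by rw [map_mul]; rfl⟩
  inv := by
    rintro _ _ ⟨g, rfl, rfl⟩
    exact ⟨g⁻¹, rfl, by rw [map_inv]; rfl⟩
  tot a ha := ⟨_, (ψ ⟨a, ha⟩).2, ⟨a, ha⟩, rfl, rfl⟩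
  tot' a ha := ⟨_, (ψ.symm ⟨a, ha⟩).2, _, rfl, by simp⟩
  lat := hL
  co x hx t := ⟨⟨_, tor x hx t⟩, rfl, Units.ext
    ((cou_val _ _).trans (hco x hx t t.ne_zero _ (cou_val _ _)).symm)⟩
  gal := by
    rintro τ _ _ ⟨g, rfl, rfl⟩
    refine ⟨⟨_, hG.gal τ _ g.2⟩, rfl, Units.ext (Matrix.ext fun i j => ?_)⟩
    obtain ⟨f, hf⟩ := hψ i j
    have := IsRed.aeval (τ : Ω ≃+* Ω) (RingHom.id _) τ.commutes
      (Sum.elim (fun q : n × n => g.val.val q.1 q.2) fun q : n × n => (g⁻¹).val.val q.1 q.2) f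
    rw [← hf, MvPolynomial.map_id] at this
    rw [hf, acu_val, ac_inr, Matrix.map_apply, ← this]
    congr 2
    funext q
    rcases q with q | q
    · simp [ac_inr]
    · simp only [Sum.elim_inr, Subgroup.coe_inv, ← map_inv, acu_val, ac_inr, Matrix.map_apply]
  fr := by
    rintro _ _ ⟨g, rfl, rfl⟩
    have : acu (inl β.val * inr s) g.val ∈ G := by
      rw [acu_mul, acu_inl]
      exact mul_mem (mul_mem β.2 ((hG.frob hs).mpr g.2)) (inv_mem β.2)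
    refine ⟨⟨_, this⟩, rfl, Units.ext ?_⟩
    rw [acu_val, ac_inr, hψs g ⟨_, this⟩ (by
      simp only [acu_val, ac_mul, ac_inr, ac_inl, Subgroup.coe_inv])]
  pol i j := let ⟨f, hf⟩ := hψ i j; ⟨f, by rintro _ _ ⟨g, rfl, rfl⟩; exact hf g⟩
  pol' i j := let ⟨f, hf⟩ := hψ' i j; ⟨f, by
    rintro _ _ ⟨g, rfl, rfl⟩
    simpa using hf (ψ g)⟩

variable [IsAlgClosed Ω] [Finite ι] [P.IsCrystallographic] [P.IsReduced] {ω : ι → M} {Γ : Subgroup P.Aut}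
  (A : AS (Gd G y) b wt ω v (II K y) (Yc y (inl g₀ * inr s)) a₀ Γ) [Finite Γ]
  (hpw : Pw v pw) (hvs : ∀ a, v (s a) = v a) (hp : v (p : Ω) = 1)
  (hO : ∀ a : K, a ≠ 0 → ((∃ o : O, algebraMap O K o = a) ↔
    0 ≤ v (algebraMap K Ω a)))
  {ν₀ x₀ : N} (H₀ : Nt K hv pw P y wt (inr s) g₀ 1 ν₀) (hx₀ : Kap O K P p G y wt g₀ x₀)

include A in
lemma AS.central {ζ : N} (hζ : ∀ i, P.root' i ζ = 0) :
    ∀ g ∈ G, ac (inl g) (dd P y wt ζ) = dd P y wt ζ := fun g hg => by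
  rw [dd_eq, ← ac_Yc_iff, Yc_inl]
  exact ac_inl_iff.mpr (A.ds.zer_of_zer (x := 0) (fun i _ => hζ i)
    (A.ds.mem_iff.mpr (mem_Gd'.mpr hg)) fun i j h => absurd (by simp [hh_zero]) h)

include A in
lemma AS.gam_eq {R : GL n Ω → GL n' Ω → Prop} {β : GL n Ω} (hβ : β ∈ G)
    (T : TD K P G G' y y' wt wt' (inl β * inr s) (inr s) R) (hg₀ : g₀ ∈ G) {g₁ : GL n' Ω}
    {a₁ : P.Aut} (hg₁ : g₁ ∈ G') (h₁ : Act P b y' wt' g₁ s a₁) :
    Gam K P b y' wt' a₁ = Gam K P b y wt a₀ := by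
  obtain ⟨k, hk, h⟩ := T.tot' g₁ hg₁
  have h2 := (T.symm.act (g' := k * β) (fun c => by
    rw [map_mul, mul_assoc, acu_mul, acu_mul (inl g₁), acu_inl, acu_inl]
    exact T.mul (T.mul h (T.fr c)) (T.inv h)) h₁).nrm
  rw [Yc_frob (g₀ := g₀)] at h2
  have h3 : ∀ x, (∀ i ∈ b.support, 0 ≤ P.root' i x) → a₀.coweightMap x = a₁.coweightMap x :=
    fun x hx => A.ds.conj_dom b (mem_Gd'.mpr (mul_mem (mul_mem hk hβ) (inv_mem hg₀)))
      (by rw [← h2, ac_mul, A.act₀])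
      (fun i hi => by rw [root_act]; exact hx _ (A.su.stab _ A.mem₀ i hi))
      (fun i hi => by rw [root_act]; exact hx _ (h₁.1 i hi))
  have h4 : a₁ = a₀ := RootPairing.Equiv.coweightHom_injective P
    (MulOpposite.unop_injective (LinearEquiv.ext fun x => by
      obtain ⟨z, -, hz⟩ := exists_coweight b fun i => |P.root' i x|
      have e1 := h3 (x + z) fun i hi => by
        rw [map_add, hz i hi]; linarith [neg_abs_le (P.root' i x)]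
      rw [map_add, map_add, h3 z fun i hi => by rw [hz i hi]; exact abs_nonneg _,
        add_left_inj] at e1
      exact e1.symm))
  rw [Gam, Gam, h4]
  congr 2
  ext a
  exact exists_congr fun τ => ⟨T.symm.act fun c => by simpa using T.gal τ c,
    T.act fun c => by simpa using T.gal τ c⟩

include A hpw hvs in
lemma AS.uniq {g k k' : GL n Ω} (hk : k ∈ G) (hk' : k' ∈ G) {ν ν' : N}
    (H : Nt K hv pw P y wt (inr s) g k ν) (H' : Nt K hv pw P y wt (inr s) g k' ν')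
    (h : ∀ i ∈ b.support, 0 ≤ P.root' i ν) (h' : ∀ i ∈ b.support, 0 ≤ P.root' i ν') : ν = ν' := by
  obtain ⟨-, -, a1, a2⟩ := (nt_diag hvs).mp H
  obtain ⟨-, -, b1, b2⟩ := (nt_diag hvs).mp H'
  exact A.ds.conj_dom b (mul_mem (inv_mem (mem_Gd'.mpr hk')) (mem_Gd'.mpr hk))
    (NP.unique hpw (fun z => by simpa using hvs z) a2 b2 a1 b1) h h'

include A hvs H₀ in
lemma AS.base : NP hv pw (Yc y (inl g₀ * inr s)) 1 (hh P wt ν₀) ∧
    ∀ a ∈ Γ, a.coweightMap ν₀ = ν₀ := by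
  obtain ⟨-, a1, a2, a3⟩ := (nt_diag hvs).mp H₀
  simp only [map_one, ac_one] at a1 a2 a3
  exact ⟨a3, A.fix a1 (DD_inj A.ds.span ((A.act₀ _).symm.trans a2))⟩

include A hpw hvs hp hO H₀ hx₀

lemma AS.gamma' : ∃ γ ∈ Submodule.span ℚ (Set.range P.coroot), (∀ i, ∃ z : ℤ, P.root' i γ = z) ∧
    avg Γ γ = ν₀ - avg Γ x₀ := by
  obtain ⟨h0, u, h1, t, h2, -, x, h3, h4, h5⟩ := A.dec hv hp hO hx₀
  obtain ⟨a1, a2⟩ := A.base hvs H₀
  refine A.gamma hpw a1 a2 h1 h2 h3 h4 h0 ?_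
  rw [← h5, ← Yc_inl, ← Yc_inv, ← Yc_mul, inv_mul_cancel_left]
  have : NP hv pw (inr s : SL n Ω) 1 (hh P wt 0) := by
    rw [NP]
    convert one_mem (Bdd hv) using 1
    funext j
    simp only [hh_zero, mul_zero, pw_zero hpw, ← map_pow, left_inr]
    rw [show (fun _ : n => (1 : Ωˣ)) = 1 from rfl]
    simp
  exact (this.conj hvs y).zer fun i j h => absurd (by simp [hh_zero]) h

theorem AS.mem_BG {γ : N} (hγ : avg Γ γ = ν₀ - avg Γ x₀) {g k : GL n Ω} (hk : k ∈ G)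
    {ν z : N} (H : Nt K hv pw P y wt (inr s) g k ν) (h : ∀ i ∈ b.support, 0 ≤ P.root' i ν)
    (hz : Kap O K P p G y wt g z) : (ν, (z : N ⧸ rel Γ (lat P wt))) ∈ BG b Γ (lat P wt) γ := by
  obtain ⟨-, u, h1, t, h2, h3, x, h4, h5, h6⟩ := A.dec hv hp hO (Kap.mul _ _ _ _ hz hx₀.inv)
  obtain ⟨a1, a2⟩ := A.base hvs H₀
  obtain ⟨-, b1, b2, b3⟩ := (nt_diag hvs).mp H
  rw [Yc_frob (g₀ := g₀), h6] at b2 b3
  obtain ⟨c1, q, c2, c3⟩ := A.invts hpw a1 a2 h1 h2 h3 h4 (mem_Gd'.mpr hk) h b1 b2 b3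
  refine ⟨h, c1, z + q, add_mem (A.dec hv hp hO hz).1 ((AddSubgroup.closure_le _).mpr (by
    rintro _ ⟨i, rfl⟩; exact A.su.co i) c2), ?_, ?_⟩
  · rw [QuotientAddGroup.eq_iff_sub_mem, add_sub_cancel_left]
    exact QL_le_rel _ _ c2
  · convert c3 using 2
    rw [avg_add, avg_add, avg_add, hγ, h5, ← sub_eq_add_neg, avg_sub]
    abel

theorem AS.of_BG (htr : ∀ X : Matrix n n Ω, ∃ (e : Ω) (l : List (Ω ≃ₐ[K] Ω)) (u : Oˣ),
      e ≠ 0 ∧ l.Nodup ∧ (∀ τ : Ω ≃ₐ[K] Ω, ∃! ρ, ρ ∈ l ∧ ρ e = τ e ∧ X.map ρ = X.map τ) ∧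
      (l.map fun ρ => ρ e).prod = algebraMap K Ω (algebraMap O K u) * (p : Ω) ^ (1 : ℤ))
    (hg₀ : g₀ ∈ G) {γ : N} (hγ : avg Γ γ = ν₀ - avg Γ x₀) {ν : N}
    {κ : N ⧸ rel Γ (lat P wt)} (h : (ν, κ) ∈ BG b Γ (lat P wt) γ) :
    ∃ g ∈ G, ∃ z, Nt K hv pw P y wt (inr s) g 1 ν ∧ Kap O K P p G y wt g z ∧
      (z : N ⧸ rel Γ (lat P wt)) = κ := by
  obtain ⟨-, h1, x, h2, h3, h4⟩ := h
  obtain ⟨a1, a2⟩ := A.base hvs H₀
  obtain ⟨q, b1, t, b2, u, b3, b4, b5, b6, b7⟩ := A.attain hpw a1 a2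
    (fun t x => Kap O K P p G y wt (acu (inl y) t) x) (fun x hx => A.surj hv hp hO htr hx) h1
    (sub_mem h2 (A.dec hv hp hO hx₀).1) (by
      convert h4 using 2
      rw [avg_add, avg_sub, hγ]
      abel)
  have e : acu (inl y)⁻¹ (acu (inl y) (u * t) * g₀ * g₀⁻¹) = u * t := by
    rw [mul_inv_cancel_right, acu_inv_acu]
  refine ⟨acu (inl y) (u * t) * g₀, mul_mem (mem_Gd.mp (mul_mem (Gp_mem b3).1 b2)) hg₀,
    0 + (x - x₀ - q) + x₀, (nt_diag hvs).mpr ⟨Rt.mul (rt_II.mp fun τ hτ => by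
      rw [map_mul, (Gp_mem b3).2 τ hτ, b4 τ hτ]) H₀.rt, ?_, ?_, ?_⟩,
    Kap.mul _ _ _ _ (by rw [map_mul]; exact Kap.mul _ _ _ _ (Kap.Gp b3) b5) hx₀, ?_⟩
  · simpa using A.fx h1
  · rw [Yc_frob (g₀ := g₀), e]; simpa using b6
  · rw [Yc_frob (g₀ := g₀), e]; simpa using b7
  · rw [← show _ = κ from h3, QuotientAddGroup.eq_iff_sub_mem]
    convert neg_mem (QL_le_rel Γ (lat P wt) b1) using 1
    abel

end Pool.Agent.P.MP_7d29e8_ag
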