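import Pool.Agent.P.MP_7d29e8_ag.HDiv

set_option autoImplicit false

/-! Growth of the powers of semilinear automorphisms. -/

namespace Pool.Agent.P.MP_7d29e8_ag

open Finset SemidirectProduct
open scoped Classical

variable {Ω : Type} [Field Ω] {n : Type} [Fintype n] [DecidableEq n]
  {ι M N : Type} [AddCommGroup M] [Module ℚ M] [AddCommGroup N] [Module ℚ N]
  {P : RootPairing ι ℚ M N} {wt : n → M} {v : Ω → ℚ} {hv : Val v} {pw : ℚ → Ωˣ}

/-- isometric semilinear automorphisms -/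
def Iso (v : Ω → ℚ) (φ : SL n Ω) : Prop := ∀ z, v (φ.right z) = v z

lemma Iso.mul {φ φ' : SL n Ω} (h : Iso v φ) (h' : Iso v φ') : Iso v (φ * φ') :=
  fun z => (h _).trans (h' z)

lemma Iso.inl (g : GL n Ω) : Iso v (inl g : SL n Ω) := fun _ => rfl

lemma Iso.pow {φ : SL n Ω} (h : Iso v φ) (j : ℕ) : Iso v (φ ^ j) := by
  induction j with
  | zero => exact fun _ => rfl
  | succ j ih => rw [pow_succ]; exact ih.mul h

lemma Iso.inv {φ : SL n Ω} (h : Iso v φ) : Iso v φ⁻¹ := fun z => by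
  rw [← h]; simp

lemma bdd_dU' {t : ℕ → n → Ωˣ} {c : n → ℚ} (ht : ∀ j i, v (t j i) = c i) :
    (fun j => dU (t j)) ∈ Bdd hv := by
  have key : ∀ {t : ℕ → n → Ωˣ} {c : n → ℚ}, (∀ j i, v (t j i) = c i) →
      MB hv fun j => (dU (t j)).val :=
    fun {t c} ht i l => ⟨c i, fun j => by
      by_cases h : i = l
      · subst h; exact Or.inr (by simp [ht])
      · exact Or.inl (by simp [h])⟩
  refine ⟨key ht, ?_⟩
  simp only [← map_inv]
  exact key (c := -c) fun j i => by simp [mulv_inv hv.mul, ht]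

lemma NP.conj {φ : SL n Ω} {k : GL n Ω} {h : n → ℚ} (H : NP hv pw φ k h) (hφ : Iso v φ)
    (y : GL n Ω) : NP hv pw ((inl y)⁻¹ * φ * inl y) (y⁻¹ * k) h := by
  have := mul_mem H (bdd_ga (Bdd.const y) (fun j => (φ ^ j).right) fun j => hφ.pow j)
  rw [NP]
  convert this using 1
  funext j
  have e : ((inl y)⁻¹ * φ * inl y : SL n Ω) ^ j = (inl y)⁻¹ * φ ^ j * inl y := by
    simpa using conj_pow (a := (inl y : SL n Ω)⁻¹) (b := φ) (i := j)
  rw [e, ← map_inv]
  simp [mul_assoc]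

lemma entry_bdd (hpw : Pw v pw) {A : ℕ → GL n Ω} {h h' : n → ℚ} {i l : n} {c : ℚ}
    (hA : ∀ j, (A j).val i l ≠ 0 ∧ v ((A j).val i l) = c)
    (H : (fun j : ℕ => (dU fun i => pw (j * h i))⁻¹ * A j * dU fun i => pw (j * h' i)) ∈ Bdd hv) :
    h i ≤ h' l := by
  have := BS.nonneg (H.1 i l) (q := h' l - h i) (c := c) fun j => by
    simp only [← map_inv, Units.val_mul, dU_val, Matrix.mul_diagonal, Matrix.diagonal_mul,
      Pi.inv_apply, Units.val_inv_eq_inv_val]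
    have h1 := inv_ne_zero (pw (j * h i)).ne_zero
    have h2 := (pw (j * h' l)).ne_zero
    refine ⟨mul_ne_zero (mul_ne_zero h1 (hA j).1) h2, ?_⟩
    rw [hv.mul _ _ (mul_ne_zero h1 (hA j).1) h2, hv.mul _ _ h1 (hA j).1,
      mulv_inv hv.mul (Units.ne_zero _), hpw.val, hpw.val, (hA j).2]
    ring
  linarith

lemma pw_zero (hpw : Pw v pw) : pw 0 = 1 := by
  have := hpw.add 0 0
  rw [add_zero] at this
  exact left_eq_mul.mp this

lemma pw_neg (hpw : Pw v pw) (a : ℚ) : pw (-a) = (pw a)⁻¹ := by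
  rw [eq_inv_iff_mul_eq_one, ← hpw.add, neg_add_cancel, pw_zero hpw]

lemma pw_zpow (hpw : Pw v pw) (a : ℚ) (z : ℤ) : pw a ^ z = pw (z * a) := by
  induction z using Int.induction_on with
  | zero => simp [pw_zero hpw]
  | succ k ih => rw [zpow_add_one, ih, ← hpw.add]; congr 1; push_cast; ring
  | pred k ih => rw [zpow_sub_one, ih, ← pw_neg hpw, ← hpw.add]; congr 1; push_cast; ring

/-- the twisted partial products -/
noncomputable def PP (φ : SL n Ω) (g : GL n Ω) : ℕ → GL n Ω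
  | 0 => 1
  | j + 1 => g * acu φ (PP φ g j)

lemma PP_spec (φ : SL n Ω) (g : GL n Ω) (j : ℕ) : (inl g * φ) ^ j = inl (PP φ g j) * φ ^ j := by
  induction j with
  | zero => simp [PP]
  | succ j ih => rw [pow_succ', ih, PP, map_mul, inl_acu, pow_succ']; group

variable [CharZero Ω]

lemma ac_pow_fix {φ : SL n Ω} {X : Matrix n n Ω} (h : ac φ X = X) (j : ℕ) : ac (φ ^ j) X = X := by
  induction j with
  | zero => simp
  | succ j ih => rw [pow_succ, ac_mul, h, ih]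

lemma left_comm_pw {φ : SL n Ω} {h : n → ℚ} (H : ac φ (Matrix.diagonal fun i => (h i : Ω)) =
    Matrix.diagonal fun i => (h i : Ω)) (f : ℚ → Ωˣ) :
    φ.left * dU (fun i => f (h i)) = dU (fun i => f (h i)) * φ.left :=
  Units.ext (zer_comm (fun i l hn => by by_contra h0; exact hn ((ac_entry H i l).1 h0))
    fun q => (f q : Ω))

theorem NP.unique (hpw : Pw v pw) {φ : SL n Ω} (hφ : Iso v φ) {k₁ k₂ : GL n Ω} {h₁ h₂ : n → ℚ}
    (H₁ : NP hv pw φ k₁ h₁) (H₂ : NP hv pw φ k₂ h₂)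
    (c₁ : ac φ (ac (inl k₁) (Matrix.diagonal fun i => (h₁ i : Ω))) =
      ac (inl k₁) (Matrix.diagonal fun i => (h₁ i : Ω)))
    (c₂ : ac φ (ac (inl k₂) (Matrix.diagonal fun i => (h₂ i : Ω))) =
      ac (inl k₂) (Matrix.diagonal fun i => (h₂ i : Ω))) :
    ac (inl (k₂⁻¹ * k₁)) (Matrix.diagonal fun i => (h₁ i : Ω)) =
      Matrix.diagonal fun i => (h₂ i : Ω) := by
  have d₁ := H₁.conj hφ k₁
  have d₂ := H₂.conj hφ k₂
  have f₁ : ∀ {k : GL n Ω} {X : Matrix n n Ω}, ac φ (ac (inl k) X) = ac (inl k) X →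
      ac ((inl k)⁻¹ * φ * inl k) X = X := fun c => by rw [ac_mul, ac_mul, c, ac_inv_ac]
  set φ₁ := (inl k₁)⁻¹ * φ * inl k₁ with e₁
  set φ₂ := (inl k₂)⁻¹ * φ * inl k₂ with e₂
  set A := k₂⁻¹ * k₁ with hA
  have hθ : ∀ j : ℕ, Iso v (φ₂ ^ j) := fun j =>
    (((Iso.inl k₂).inv.mul hφ).mul (Iso.inl k₂)).pow j
  have e : ∀ j : ℕ, (φ₁ ^ j).left = A⁻¹ * (φ₂ ^ j).left * ga n Ω (φ₂ ^ j).right A := fun j => by
    have : φ₁ = (inl A)⁻¹ * φ₂ * inl A := by rw [e₁, e₂, hA, map_mul, map_inv]; group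
    have e : ((inl A)⁻¹ * φ₂ * inl A : SL n Ω) ^ j = (inl A)⁻¹ * φ₂ ^ j * inl A := by
      simpa using conj_pow (a := (inl A : SL n Ω)⁻¹) (b := φ₂) (i := j)
    rw [this, e, ← map_inv]
    simp
  rw [NP, inv_mul_cancel] at d₁ d₂
  simp only [one_mul] at d₁ d₂
  have b₁ := mul_mem (mul_mem d₂ (bdd_ga (Bdd.const A) _ hθ)) (inv_mem d₁)
  have b₂ := mul_mem (mul_mem (inv_mem d₂) (Bdd.const A)) d₁
  rw [ac_inl, Units.mul_inv_eq_iff_eq_mul]
  ext i l
  rw [Matrix.mul_diagonal, Matrix.diagonal_mul, mul_comm]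
  by_cases h0 : A.val i l = 0
  · simp [h0]
  have q1 : h₂ i ≤ h₁ l := entry_bdd (hv := hv) hpw (A := fun _ => A) (fun _ => ⟨h0, rfl⟩) (by
    convert b₁ using 1
    funext j
    simp only [Pi.mul_apply, Pi.inv_apply, e]; group)
  have q2 : (-h₂) i ≤ (-h₁) l := entry_bdd (hv := hv) hpw
    (A := fun j => ga n Ω (φ₂ ^ j).right A) (c := v (A.val i l))
    (fun j => ⟨by simpa using h0, hθ j _⟩) (by
    convert b₂ using 1
    funext j
    have m₁ := left_comm_pw (ac_pow_fix (f₁ c₁) j) fun q => pw (j * q)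
    have m₂ := left_comm_pw (ac_pow_fix (f₁ c₂) j) fun q => pw (j * q)
    rw [← e₁] at m₁
    rw [← e₂] at m₂
    have n₁ : ∀ h : n → ℚ, (dU fun i => pw (j * (-h) i)) = (dU fun i => pw (j * h i))⁻¹ :=
      fun h => by rw [← map_inv]; congr 1; funext i; simp [pw_neg hpw]
    simp only [Pi.mul_apply, Pi.inv_apply, n₁, inv_inv, mul_inv_rev]
    rw [inv_mul_eq_iff_eq_mul.mpr (eq_mul_inv_iff_mul_eq.mpr m₁ |>.trans (mul_assoc _ _ _)),
      (inv_mul_eq_iff_eq_mul.mpr (eq_mul_inv_iff_mul_eq.mpr m₂.symm |>.trans (mul_assoc _ _ _))),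
      e]
    group)
  have : h₂ i = h₁ l := le_antisymm q1 (by simpa using q2)
  rw [this]

theorem NP.minor (hpw : Pw v pw) {φ : SL n Ω} (hφ : Iso v φ) {g : GL n Ω} {h₁ h₂ : n → ℚ}
    (H₁ : NP hv pw φ 1 h₁) (H₂ : NP hv pw (inl g * φ) 1 h₂) {S : n → Prop} [DecidablePred S]
    (hE : ac φ (Eof S) = Eof S) (hg : Commute (Eof S) g.val) :
    DE (Eof S) g.val ≠ 0 ∧ v (DE (Eof S) g.val) = ∑ i with S i, (h₂ i - h₁ i) := by
  have hne : ∀ g : GL n Ω, Commute (Eof S) g.val →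
      DE (Eof S) g.val * DE (Eof S) (g⁻¹).val = 1 := fun g hg => by
    rw [← DE_mul_comm Eof_mul_self hg.units_inv_right, Units.mul_inv, DE_one Eof_mul_self]
  have h0 := left_ne_zero_of_mul_eq_one (hne g hg)
  have hP : ∀ j, Commute (Eof S) (PP φ g j).val ∧ v (DE (Eof S) (PP φ g j).val) =
      j * v (DE (Eof S) g.val) := by
    intro j
    induction j with
    | zero => simp [PP, DE_one Eof_mul_self, mulv_one hv.mul]
    | succ j ih =>
      have c1 : Commute (Eof S) (ac φ (PP φ g j).val) := hE ▸ ih.1.map (ac φ)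
      refine ⟨hg.mul_right c1, ?_⟩
      have c2 := left_ne_zero_of_mul_eq_one (hne (acu φ _) c1)
      have c3 := DE_ac φ (Eof S) (PP φ g j).val
      rw [hE] at c3
      rw [acu_val] at c2
      rw [PP, Units.val_mul, acu_val, DE_mul_comm Eof_mul_self c1, hv.mul _ _ h0 c2, c3, hφ, ih.2]
      push_cast; ring
  have hd : ∀ t : n → Ωˣ, Commute (Eof S) (dU t).val := fun t => Matrix.commute_diagonal _ _
  let c : ℕ → GL n Ω := fun j =>
    (dU fun i => pw (j * h₂ i))⁻¹ * PP φ g j * dU fun i => pw (j * h₁ i)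
  have hc : c ∈ Bdd hv := by
    convert mul_mem H₂ (inv_mem H₁) using 1
    funext j
    simp only [Pi.mul_apply, Pi.inv_apply, PP_spec, mul_left, left_inl, right_inl, map_one, c,
      MulAut.one_apply]
    group
  have cc : ∀ j, Commute (Eof S) (c j).val := fun j =>
    ((hd _).units_inv_right.mul_right (hP j).1).mul_right (hd _)
  have hvc : ∀ j, v (DE (Eof S) (c j).val) =
      j * (v (DE (Eof S) g.val) - ∑ i with S i, (h₂ i - h₁ i)) := fun j => by
    have n1 := left_ne_zero_of_mul_eq_one (hne _ (hd fun i => pw (j * h₁ i)))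
    have n2 := left_ne_zero_of_mul_eq_one (hne _ (hd (fun i => pw (j * h₂ i))⁻¹))
    have n3 := left_ne_zero_of_mul_eq_one (hne _ (hP j).1)
    simp only [c]
    rw [← map_inv, Units.val_mul, Units.val_mul, DE_mul_comm Eof_mul_self (hd _),
      DE_mul_comm Eof_mul_self (hP j).1, hv.mul _ _ (mul_ne_zero n2 n3) n1, hv.mul _ _ n2 n3,
      (hP j).2, dU_val, dU_val, DE_diagonal, DE_diagonal,
      mulv_prod hv.mul _ fun i _ => Units.ne_zero _, mulv_prod hv.mul _ fun i _ => Units.ne_zero _]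
    simp only [Pi.inv_apply, ← pw_neg hpw, hpw.val, sum_neg_distrib, ← mul_sum, sum_sub_distrib]
    ring
  have hb : ∀ {a : ℕ → Matrix n n Ω}, MB hv a → (fun j => DE (Eof S) (a j)) ∈ BS hv := fun ha =>
    ((((MB.const _).mul ha).mul (MB.const _)).add (MB.const _)).det
  have q1 := BS.nonneg (hb hc.1) (c := 0) fun j =>
    ⟨left_ne_zero_of_mul_eq_one (hne _ (cc j)), by rw [hvc, add_zero]⟩
  have q2 := BS.nonneg (hb hc.2) (c := 0)
    (q := -(v (DE (Eof S) g.val) - ∑ i with S i, (h₂ i - h₁ i))) fun j =>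
    ⟨right_ne_zero_of_mul_eq_one (hne _ (cc j)), by
      rw [eq_inv_of_mul_eq_one_right (hne _ (cc j)),
        mulv_inv hv.mul (left_ne_zero_of_mul_eq_one (hne _ (cc j))), hvc]; ring⟩
  exact ⟨h0, by linarith⟩

omit [CharZero Ω] in
lemma tor_pw (hpw : Pw v pw) (x : N) : Tor P wt v x (dU fun i => pw (hh P wt x i)) :=
  ⟨_, rfl, fun i l e => by simp [hh, e], fun i => hpw.val _⟩

omit [CharZero Ω] in
lemma Tor.bdd {x : N} {t : ℕ → GL n Ω} (h : ∀ j, Tor P wt v x (t j)) : t ∈ Bdd hv := by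
  choose τ h1 h2 h3 using h
  rw [funext h1]
  exact bdd_dU' h3

theorem NP.torus (hpw : Pw v pw) {φ : SL n Ω} (hφ : Iso v φ) {g : GL n Ω} {ν x : N} {r : ℕ}
    (hr : 0 < r) (H : NP hv pw φ 1 (hh P wt ν)) (hn : Nrm P wt (φ ^ r) id)
    (ht : Tor P wt v x (PP φ g r)) : NP hv pw (inl g * φ) 1 (hh P wt (ν + (r : ℚ)⁻¹ • x)) := by
  have hT : ∀ j : ℕ, Tor P wt v ((j : ℚ) • x) (PP (φ ^ r) (PP φ g r) j) := by
    intro j
    induction j with
    | zero => simpa [PP] using Tor.one hv.mul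
    | succ j ih =>
      have := ht.mul hv.mul (hn.tor Function.surjective_id (hφ.pow r) ih)
      rw [Nat.cast_succ, add_smul, one_smul, add_comm]
      exact this
  refine Bdd.of_mod hr fun i _ => ?_
  have hr' : (r : ℚ) ≠ 0 := by exact_mod_cast hr.ne'
  have b1 : (fun j : ℕ => (dU fun k => pw (hh P wt (((r * j + i : ℕ) : ℚ) •
      (ν + (r : ℚ)⁻¹ • x)) k))⁻¹ * PP (φ ^ r) (PP φ g r) j *
      dU fun k => pw (hh P wt (((r * j : ℕ) : ℚ) • ν) k)) ∈ Bdd hv := by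
    refine Tor.bdd (P := P) (wt := wt) (x := -((i : ℚ) • (ν + (r : ℚ)⁻¹ • x))) fun j => ?_
    convert (((tor_pw hpw _).inv hv.mul).mul hv.mul (hT j)).mul hv.mul (tor_pw hpw _) using 1
    push_cast
    match_scalars <;> field_simp <;> ring
  have b2 := mul_mem (mul_mem b1 (Bdd.comp H fun j => r * j))
    (bdd_ga (Bdd.const ((inl g * φ) ^ i).left) (fun j => (φ ^ (r * j)).right) fun j => hφ.pow _)
  convert b2 using 1
  funext j
  simp only [Pi.mul_apply, hh_smul, one_mul]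
  rw [pow_add, pow_mul, PP_spec, PP_spec, ← pow_mul]
  simp only [mul_left, left_inl, right_inl, map_one, MulAut.one_apply, mul_right, one_mul]
  group

theorem NP.fix (hpw : Pw v pw) (hs : Submodule.span ℚ (Set.range wt) = ⊤) {φ : SL n Ω}
    (hφ : Iso v φ) {ν : N} (H : NP hv pw φ 1 (hh P wt ν)) {a : N →ₗ[ℚ] N} (hn : Nrm P wt φ a)
    (ha : Function.Surjective a) : a ν = ν := by
  have b1 := mul_mem (mul_mem (Bdd.comp H fun j => j + 1)
    (inv_mem (bdd_ga H (fun _ => φ.right) fun _ => hφ))) (inv_mem (Bdd.const φ.left))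
  have hT : ∀ j : ℕ, Tor P wt v ((j : ℚ) • (a ν - ν) - ν)
      ((dU fun k => pw (hh P wt (((j + 1 : ℕ) : ℚ) • ν) k))⁻¹ *
        acu φ (dU fun k => pw (hh P wt ((j : ℚ) • ν) k))) := fun j => by
    convert ((tor_pw hpw _).inv hv.mul).mul hv.mul (hn.tor ha hφ (tor_pw hpw _)) using 1
    rw [map_smul]; push_cast; module
  choose τ h1 h2 h3 using hT
  have b2 : (fun j => dU (τ j)) ∈ Bdd hv := by
    convert b1 using 1
    funext j
    rw [← h1]
    simp only [Pi.mul_apply, Pi.inv_apply, hh_smul, one_mul, pow_succ', mul_left, acu_eq, map_mul,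
      map_inv]
    group
  rw [← sub_eq_zero]
  refine hh_inj (P := P) hs fun i => ?_
  have q1 := BS.nonneg (b2.1 i i) (q := hh P wt (a ν - ν) i) (c := -hh P wt ν i) fun j =>
    ⟨by simp, by simp only [dU_val, Matrix.diagonal_apply_eq, h3, hh_sub, hh_smul]; ring⟩
  have q2 := BS.nonneg (b2.2 i i) (q := -hh P wt (a ν - ν) i) (c := hh P wt ν i) fun j =>
    ⟨by simp [← map_inv], by
      simp only [← map_inv, dU_val, Matrix.diagonal_apply_eq, Pi.inv_apply,
        Units.val_inv_eq_inv_val, mulv_inv hv.mul (Units.ne_zero _), h3, hh_sub, hh_smul]; ring⟩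
  rw [hh_zero]; linarith

end Pool.Agent.P.MP_7d29e8_ag
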