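import Pool.Agent.P.MP_7d29e8_ag.HBC

set_option autoImplicit false

/-! Semilinear automorphisms normalising the torus; Weyl group representatives. -/

namespace Pool.Agent.P.MP_7d29e8_ag

open Finset SemidirectProduct
open scoped Classical

variable {Ω : Type} [Field Ω] [CharZero Ω] {n : Type} [Fintype n] [DecidableEq n]
  {ι M N : Type} [AddCommGroup M] [Module ℚ M] [AddCommGroup N] [Module ℚ N]
  {P : RootPairing ι ℚ M N} {wt : n → M} {E : Type} [Field E] [CharZero E] [Algebra Ω E]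

/-- `φ` acts on cocharacters through `a` -/
def Nrm (P : RootPairing ι ℚ M N) (wt : n → M) (φ : SL n E) (a : N → N) : Prop :=
  ∀ x, ac φ (DD P wt E x) = DD P wt E (a x)

section Nrm

lemma ac_diag (φ : SL n E) (h : n → ℚ) : ac φ (Matrix.diagonal fun i => (h i : E)) =
    φ.left.val * Matrix.diagonal (fun i => (h i : E)) * (φ.left⁻¹).val := by
  rw [ac_apply, Matrix.diagonal_map (map_zero _)]; simp

lemma ac_entry {φ : SL n E} {h h' : n → ℚ} (H : ac φ (Matrix.diagonal fun i => (h i : E)) =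
    Matrix.diagonal fun i => (h' i : E)) (i l : n) :
    (φ.left.val i l ≠ 0 → h' i = h l) ∧ ((φ.left⁻¹).val l i ≠ 0 → h' i = h l) := by
  rw [ac_diag] at H
  constructor
  · intro h0
    have := Matrix.ext_iff.mpr ((Units.mul_inv_eq_iff_eq_mul _).mp H) i l
    rw [Matrix.mul_diagonal, Matrix.diagonal_mul, mul_comm] at this
    exact (Rat.cast_injective (mul_right_cancel₀ h0 this)).symm
  · intro h0
    rw [mul_assoc, ← Units.eq_inv_mul_iff_mul_eq] at H
    have := Matrix.ext_iff.mpr H l i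
    rw [Matrix.mul_diagonal, Matrix.diagonal_mul, mul_comm] at this
    exact (Rat.cast_injective (mul_left_cancel₀ h0 this)).symm

lemma ac_sup {φ : SL n E} {h h' : n → ℚ} (H : ac φ (Matrix.diagonal fun i => (h i : E)) =
    Matrix.diagonal fun i => (h' i : E)) {p : ℚ → ℚ → Prop} {X : Matrix n n E}
    (hX : Sup (fun i j => p (h i) (h j)) X) : Sup (fun i j => p (h' i) (h' j)) (ac φ X) := by
  have h1 : Sup (fun i l => h' i = h l) φ.left.val := fun i l hn => by
    by_contra h0; exact hn ((ac_entry H i l).1 h0)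
  have h2 : Sup (fun l i => h' i = h l) (φ.left⁻¹).val := fun l i hn => by
    by_contra h0; exact hn ((ac_entry H i l).2 h0)
  exact (h1.mul (hX.map φ.right) (r := fun i l => p (h' i) (h l)) fun i k l a b => a ▸ b).mul h2
    fun i k l a b => b ▸ a

variable {φ φ' : SL n E} {a a' : N → N}

lemma Nrm.mul (h : Nrm P wt φ a) (h' : Nrm P wt φ' a') : Nrm P wt (φ * φ') (a ∘ a') :=
  fun x => by rw [ac_mul, h', h]; rfl

lemma Nrm.inv (h : Nrm P wt φ a) (h' : ∀ x, a (a' x) = x) : Nrm P wt φ⁻¹ a' := fun x => by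
  conv_lhs => rw [← h' x, ← h, ac_inv_ac]

lemma Nrm.one : Nrm P wt (1 : SL n E) id := fun x => ac_one _

lemma Nrm.congr (h : Nrm P wt φ a) (h' : ∀ x, a x = a' x) : Nrm P wt φ a' :=
  fun x => (h x).trans (by rw [h'])

lemma pos_ac {x y : N} (h : ac φ (DD P wt E x) = DD P wt E y) {X : Matrix n n E}
    (hX : Pos (hh P wt x) X) : Pos (hh P wt y) (ac φ X) :=
  ac_sup h (p := fun a b => b < a) hX

lemma zer_ac {x y : N} (h : ac φ (DD P wt E x) = DD P wt E y) {X : Matrix n n E}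
    (hX : Zer (hh P wt x) X) : Zer (hh P wt y) (ac φ X) :=
  ac_sup h (p := fun a b => a = b) hX

lemma Nrm.wt' (h : Nrm P wt φ a) (hs : Function.Surjective a) {m m' : M}
    (hm : ∀ x, P.toLinearMap m' (a x) = P.toLinearMap m x) {X : Matrix n n E} (hX : Wt wt m X) :
    Wt wt m' (ac φ X) := by
  refine (wt_iff (P := P)).mpr fun y => ?_
  obtain ⟨x, rfl⟩ := hs y
  rw [← h, ← map_mul, ← map_mul, ← map_sub, wt_iff.mp hX x, ac_smul, hm, map_ratCast]

lemma nrm_iff_zer {g : GL n E} : Nrm P wt (inl g) id ↔ ∀ x, Zer (hh P wt x) g.val := by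
  refine forall_congr' fun x => ?_
  rw [zer_iff, ac_inl, Units.mul_inv_eq_iff_eq_mul]; rfl

lemma ac_inl_iff {g : GL n E} {h : n → ℚ} : ac (inl g) (Matrix.diagonal fun i => (h i : E)) =
    Matrix.diagonal (fun i => (h i : E)) ↔ Zer h g.val := by
  rw [zer_iff, ac_inl, Units.mul_inv_eq_iff_eq_mul]

variable {o : E → ℚ} {x y : N} {t u : GL n E}

omit [CharZero E] in
lemma Tor.zer (h : Tor P wt o x t) (k : n → ℚ) : Zer k t.val := by
  obtain ⟨τ, rfl, -⟩ := h
  exact Sup.diagonal (p := fun i j => k i = k j) (fun _ => rfl) _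

lemma Tor.nrm (h : Tor P wt o x t) : Nrm P wt (inl t) id := nrm_iff_zer.mpr fun _ => h.zer _

omit [CharZero E] in
lemma Tor.mul (ho : ∀ a b, a ≠ 0 → b ≠ 0 → o (a * b) = o a + o b) (h : Tor P wt o x t)
    (h' : Tor P wt o y u) : Tor P wt o (x + y) (t * u) := by
  obtain ⟨τ, rfl, h1, h2⟩ := h
  obtain ⟨σ, rfl, h3, h4⟩ := h'
  exact ⟨τ * σ, (map_mul _ _ _).symm, fun i l e => by simp [h1 i l e, h3 i l e], fun i => by
    simp [ho, h2, h4, hh_add]⟩

omit [CharZero E] in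
lemma Tor.inv (ho : ∀ a b, a ≠ 0 → b ≠ 0 → o (a * b) = o a + o b) (h : Tor P wt o x t) :
    Tor P wt o (-x) t⁻¹ := by
  obtain ⟨τ, rfl, h1, h2⟩ := h
  exact ⟨τ⁻¹, (map_inv _ _).symm, fun i l e => by simp [h1 i l e], fun i => by
    simp [mulv_inv ho, h2, hh_neg]⟩

omit [CharZero E] in
lemma Tor.one (ho : ∀ a b, a ≠ 0 → b ≠ 0 → o (a * b) = o a + o b) : Tor P wt o 0 (1 : GL n E) :=
  ⟨1, (map_one _).symm, fun _ _ _ => rfl, fun i => by simp [mulv_one ho, hh_zero]⟩

omit [CharZero E] in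
lemma Tor.co (ho : ∀ a b, a ≠ 0 → b ≠ 0 → o (a * b) = o a + o b) (hx : x ∈ lat P wt) (t : Eˣ) :
    Tor P wt o (o t • x) (dU fun i => t ^ ⌊hh P wt x i⌋) :=
  ⟨_, rfl, fun i l e => by simp [hh, e], fun i => by
    obtain ⟨z, hz⟩ := mem_lat.mp hx i
    simp [mulv_zpow ho, hh_smul, hz, mul_comm]⟩

omit [CharZero E] in
lemma Tor.comm (h : Tor P wt o x t) (h' : Tor P wt o y u) : t * u = u * t := by
  obtain ⟨τ, rfl, -⟩ := h
  obtain ⟨σ, rfl, -⟩ := h'
  rw [← map_mul, ← map_mul, mul_comm]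

lemma Nrm.row (h : Nrm P wt φ a) : ∃ l : n → n, (∀ x i, hh P wt (a x) i = hh P wt x (l i)) ∧
    ∀ τ : n → Eˣ, (∀ i j, wt i = wt j → τ i = τ j) →
      acu φ (dU τ) = dU fun i => Units.map φ.right.toMonoidHom (τ (l i)) := by
  have : ∀ i, ∃ l, φ.left.val i l ≠ 0 := fun i => by
    by_contra hc
    push Not at hc
    have := congrFun (congrFun φ.left.mul_inv i) i
    simp [Matrix.mul_apply, hc] at this
  choose l hl using this
  refine ⟨l, fun x i => (ac_entry (h x) i _).1 (hl i), fun τ hτ => ?_⟩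
  rw [acu_eq, mul_inv_eq_iff_eq_mul]
  ext i j
  rw [Units.val_mul, Units.val_mul, ga_val, dU_val, dU_val, Matrix.diagonal_map (map_zero _),
    Matrix.mul_diagonal, Matrix.diagonal_mul, mul_comm]
  by_cases h0 : φ.left.val i j = 0
  · simp [h0]
  · rw [hτ j (l i) (pair_ext (P := P) fun x =>
      ((ac_entry (h x) i j).1 h0).symm.trans ((ac_entry (h x) i _).1 (hl i)))]
    rfl

lemma Nrm.tor (h : Nrm P wt φ a) (hs : Function.Surjective a) (ho : ∀ z, o (φ.right z) = o z)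
    (ht : Tor P wt o x t) : Tor P wt o (a x) (acu φ t) := by
  obtain ⟨l, h1, h2⟩ := h.row
  obtain ⟨τ, rfl, h3, h4⟩ := ht
  refine ⟨_, h2 τ h3, fun i j e => ?_, fun i => ?_⟩
  · rw [h3 (l i) (l j) (pair_ext (P := P) fun x => ?_)]
    exact (h1 x i).symm.trans (by rw [hh, e]; exact h1 x j)
  · rw [h1, ← h4]; exact ho _

lemma Nrm.lat (h : Nrm P wt φ a) (hx : x ∈ lat P wt) : a x ∈ lat P wt := mem_lat.mpr fun i => by
  obtain ⟨l, h1, -⟩ := h.row
  rw [h1]; exact hx (l i)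

lemma Nrm.co (h : Nrm P wt φ a) (x : N) (t : Eˣ) : acu φ (dU fun i => t ^ ⌊hh P wt x i⌋) =
    dU fun i => Units.map φ.right.toMonoidHom t ^ ⌊hh P wt (a x) i⌋ := by
  obtain ⟨l, h1, h2⟩ := h.row
  rw [h2 _ fun i j e => by simp [hh, e]]
  simp only [h1, map_zpow]

end Nrm

lemma wN_surj (l : List ι) : Function.Surjective (wN P l) := fun x => ⟨_, wN_reverse' l x⟩

variable {G : Subgroup (GL n Ω)}

lemma RG_conj {g : GL n E} (hg : g ∈ GE G E) {a : N → N} (h : Nrm P wt (inl g) a)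
    (hs : Function.Surjective a) {j j' : ι} (hj : ∀ x, P.root' j' (a x) = P.root' j x)
    {r : GL n E} (hr : r ∈ RG G P wt E j) : g * r * g⁻¹ ∈ RG G P wt E j' := by
  obtain ⟨X, hX, wX, rfl⟩ := hr
  exact ⟨_, lie_conj hg hX, h.wt' hs hj wX, conj_ex g wX.nil⟩

lemma UU_conj {g : GL n E} (hg : g ∈ GE G E) {x y : N}
    (h : ac (inl g) (DD P wt E x) = DD P wt E y) {u : GL n E} (hu : u ∈ UU G E (hh P wt x)) :
    g * u * g⁻¹ ∈ UU G E (hh P wt y) := by
  refine ⟨mul_mem (mul_mem hg hu.1) (inv_mem hg), ?_⟩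
  have := pos_ac h hu.2
  rwa [map_sub, map_one] at this

lemma RG_inv {i : ι} {r : GL n E} (hr : r ∈ RG G P wt E i) : r⁻¹ ∈ RG G P wt E i := by
  obtain ⟨X, hX, wX, rfl⟩ := hr
  exact ⟨-X, neg_mem hX, Sup.neg wX, ex_inv wX.nil⟩

lemma RG_one (i : ι) : (1 : GL n E) ∈ RG G P wt E i := ⟨0, zero_mem _, Sup.zero, ex_zero.symm⟩

variable (D : DS G P wt) [P.IsReduced]
include D

lemma DS.RG_mul {i : ι} {r r' : GL n E} (hr : r ∈ RG G P wt E i) (hr' : r' ∈ RG G P wt E i) :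
    r * r' ∈ RG G P wt E i := by
  obtain ⟨X, hX, wX, rfl⟩ := hr
  obtain ⟨Y, hY, wY, rfl⟩ := hr'
  obtain ⟨e, -, f, -, -, -, -, h⟩ := D.root_vec i
  refine ⟨X + Y, add_mem hX hY, Sup.add wX wY, (ex_add wX.nil wY.nil ?_).symm⟩
  obtain ⟨a, rfl⟩ := h E X hX wX
  obtain ⟨b, rfl⟩ := h E Y hY wY
  exact ((Commute.refl _).smul_left _).smul_right _

omit [P.IsReduced] in
lemma DS.root_int {x : N} (hx : x ∈ lat P wt) (i : ι) : ∃ z : ℤ, P.root' i x = z := by
  obtain ⟨-, e, -, f, -, we, -, hef⟩ := D.sl2 i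
  have h0 : e ≠ 0 := by
    rintro rfl
    have : DD P wt Ω (P.coroot i) = DD P wt Ω 0 := by
      rw [← hef]; simp [DD, hh_zero]
    exact P.ne_zero' i (DD_inj D.span this)
  obtain ⟨k, l, hkl⟩ : ∃ k l, e k l ≠ 0 := by
    by_contra h; push Not at h; exact h0 (Matrix.ext h)
  obtain ⟨a, ha⟩ := mem_lat.mp hx k
  obtain ⟨b, hb⟩ := mem_lat.mp hx l
  refine ⟨a - b, ?_⟩
  by_contra hc
  refine hkl (we.hh (P := P) x k l fun h => hc ?_)
  simp only [ha, hb] at h
  push_cast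
  exact h.symm

lemma DS.UU_mono [Finite ι] {x y : N} (h : ∀ i, 0 < P.root' i x → 0 < P.root' i y) :
    UU G E (hh P wt x) ≤ UU G E (hh P wt y) := fun g hg => by
  refine Submonoid.closure_le (S := (UU G E (hh P wt y)).toSubmonoid).mpr ?_ (D.ugen x hg)
  rintro r ⟨i, hi, hr⟩
  exact D.RG_UU (h i hi) hr

theorem DS.weyl (i : ι) : ∃ w ∈ GE G E,
    w ∈ (Matrix.GeneralLinearGroup.map (n := n) (algebraMap Ω E)).range ∧
    Nrm P wt (inl w) (P.coreflection i) ∧ ∀ r ∈ RG G P wt E (P.reflectionPerm i i), r = 1 ∨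
      ∃ r₁ ∈ RG G P wt E i, ∃ r₂ ∈ RG G P wt E i, ∃ a : Eˣ,
        r = r₁ * dU (fun k => a ^ ⌊hh P wt (P.coroot i) k⌋) * w * r₂ := by
  obtain ⟨hL, e, he, f, hf, we, wf, hef⟩ := D.sl2 i
  have hri : P.root (P.reflectionPerm i i) = - P.root i := by simp
  obtain ⟨e', he', f', hf', we', wf', hef', hsp⟩ := D.root_vec (P.reflectionPerm i i)
  obtain ⟨c, hc⟩ := D.dim_one he' hf' we' wf' hef' hf (hri ▸ wf)
  have hc0 : c ≠ 0 := by
    rintro rfl
    have : DD P wt Ω (P.coroot i) = DD P wt Ω 0 := by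
      rw [← hef, hc]; simp [DD, hh_zero]
    exact P.ne_zero' i (DD_inj D.span this)
  have ne : IsNilpotent e := we.nil
  have nf : IsNilpotent f := (hri ▸ wf : Wt wt (P.root (P.reflectionPerm i i)) f).nil
  set e₁ := e.map (algebraMap Ω E) with he₁
  set f₁ := f.map (algebraMap Ω E) with hf₁
  have le₁ : e₁ ∈ lie (GS G) E := lie.map he (Algebra.linearMap Ω E)
  have lf₁ : f₁ ∈ lie (GS G) E := lie.map hf (Algebra.linearMap Ω E)
  have we₁ : Wt wt (P.root i) e₁ := Sup.map we _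
  have wf₁ : Wt wt (-P.root i) f₁ := Sup.map wf _
  have wf₂ : Wt wt (P.root (P.reflectionPerm i i)) f₁ := hri ▸ wf₁
  have hef₁ : e₁ * f₁ - f₁ * e₁ = DD P wt E (P.coroot i) := by
    rw [← DD_map (algebraMap Ω E), ← hef, Matrix.map_sub _ (map_sub _), Matrix.map_mul,
      Matrix.map_mul]
  have hw : Nrm P wt (inl (ex e₁ * ex (-f₁) * ex e₁)) (P.coreflection i) := by
    intro x
    have h1 := sl2_conj we₁.nil wf₂.nil hef₁ (by
      rw [wt_iff.mp we₁, P.root_coroot_two, Rat.cast_smul_eq_qsmul]) (by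
      rw [wt_iff.mp wf₁, map_neg, LinearMap.neg_apply, P.root_coroot_two, Rat.cast_smul_eq_qsmul])
    set x₀ := x - (P.root' i x / 2) • P.coroot i with hx₀
    have h0 : P.toLinearMap (P.root i) x₀ = 0 := by
      change P.root' i x₀ = 0
      simp [hx₀]
    have c1 : Commute e₁ (DD P wt E x₀) := by
      have := (wt_iff (P := P)).mp we₁ x₀
      rw [h0, Rat.cast_zero, zero_smul, sub_eq_zero] at this
      exact this.symm
    have c2 : Commute (-f₁) (DD P wt E x₀) := by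
      have := (wt_iff (P := P)).mp wf₁ x₀
      rw [map_neg, LinearMap.neg_apply, h0, neg_zero, Rat.cast_zero, zero_smul,
        sub_eq_zero] at this
      exact (Commute.symm this).neg_left
    have c3 := ((exp_comm we₁.nil c1).mul_left (exp_comm wf₂.nil.neg c2)).mul_left
      (exp_comm we₁.nil c1)
    have e1 : x = x₀ + (P.root' i x / 2) • P.coroot i := by simp [hx₀]
    have e2 : P.coreflection i x = x₀ + (P.root' i x / 2) • (-P.coroot i) := by
      rw [P.coreflection_apply, hx₀]; module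
    rw [ac_inl, Units.mul_inv_eq_iff_eq_mul, e2, Units.val_mul, Units.val_mul, ex_val we₁.nil,
      ex_val wf₂.nil.neg]
    conv_lhs => rw [e1]
    rw [DD_add, DD_add, DD_smul, DD_smul, DD_neg, mul_add, add_mul, c3.eq, Matrix.mul_smul,
      Matrix.smul_mul, h1]
  refine ⟨ex e₁ * ex (-f₁) * ex e₁, mul_mem (mul_mem (D.ex_mem le₁ we₁)
    (D.ex_mem (neg_mem lf₁) (Sup.neg wf₂))) (D.ex_mem le₁ we₁), ⟨ex e * ex (-f) * ex e, ?_⟩, hw, ?_⟩
  · have : ∀ X : Matrix n n Ω, IsNilpotent X → Matrix.GeneralLinearGroup.map (algebraMap Ω E)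
        (ex X) = ex (X.map (algebraMap Ω E)) := fun X hX => Units.ext (map_ex _ hX)
    rw [map_mul, map_mul, this _ ne, this _ nf.neg, Matrix.map_neg _ (map_neg _)]
  rintro _ ⟨X, hX, wX, rfl⟩
  obtain ⟨a, rfl⟩ := hsp E X hX wX
  by_cases ha : a = 0
  · left; simp [ha]
  right
  have hc1 : algebraMap Ω E c ≠ 0 := by simpa using hc0
  let u : Eˣ := Units.mk0 (-(algebraMap Ω E c / a)) (by simp [ha, hc0])
  have e3 : a • e'.map (algebraMap Ω E) = -(((u⁻¹ : Eˣ) : E) • f₁) := by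
    ext k l
    simp only [hf₁, hc, u, Matrix.smul_apply, Matrix.map_apply, smul_eq_mul, Matrix.neg_apply,
      Units.val_inv_eq_inv_val, Units.val_mk0, map_mul]
    field_simp
  choose k hk using mem_lat.mp hL
  have hk' : ∀ j, ⌊hh P wt (P.coroot i) j⌋ = k j := fun j => by simp [hk]
  have h5 := weyl_scale we₁.nil wf₂.nil k ((we₁.hh (P := P) (P.coroot i)).mono fun a b h => by
      rw [hk, hk, P.root_coroot_two] at h; exact_mod_cast h)
    ((wf₁.hh (P := P) (P.coroot i)).mono fun a b h => by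
      rw [hk, hk, map_neg, LinearMap.neg_apply, P.root_coroot_two] at h; exact_mod_cast h)
    (fun a b h => by
      by_contra h0
      have := (ac_entry (hw (P.coroot i)) a b).1 h0
      rw [P.coreflection_apply_self, hh_neg, Pi.neg_apply, hk, hk] at this
      exact h (by have : -k a = k b := by exact_mod_cast this
                  omega)) u
  have r1 : (ex ((u : E) • e₁))⁻¹ ∈ RG G P wt E i :=
    RG_inv ⟨_, Submodule.smul_mem _ _ le₁, Sup.smul we₁ _, rfl⟩
  refine ⟨_, r1, _, r1, u, ?_⟩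
  simp only [hk']
  rw [mul_assoc _ (dU _), ← h5, e3]
  group

end Pool.Agent.P.MP_7d29e8_ag
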