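import Pool.Agent.P.MP_7d29e8_ag.HNP
import Pool.Agent.P.MP_7d29e8_ag.HEll

set_option autoImplicit false

/-! Rational points: conjugation by rational unipotent elements and traces. -/

namespace Pool.Agent.P.MP_7d29e8_ag

open Finset SemidirectProduct
open scoped Classical

variable {Ω : Type} [Field Ω] [CharZero Ω] {n : Type} [Fintype n] [DecidableEq n]
  {ι M N : Type} [AddCommGroup M] [Module ℚ M] [AddCommGroup N] [Module ℚ N]
  {P : RootPairing ι ℚ M N} {wt : n → M}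

section Trace

omit [CharZero Ω] in
lemma trace_ac (φ : SL n Ω) (X : Matrix n n Ω) : (ac φ X).trace = φ.right X.trace := by
  rw [ac_apply, Matrix.trace_mul_cycle, Units.inv_mul, one_mul]
  simp [Matrix.trace]

/-- partial traces -/
noncomputable def tS (P : RootPairing ι ℚ M N) (wt : n → M) (ζ : N) (c : ℚ) : N →ₗ[ℚ] ℚ :=
  ∑ i with c ≤ hh P wt ζ i, P.toLinearMap (wt i)

omit [DecidableEq n] in
lemma tS_apply (ζ : N) (c : ℚ) (x : N) :
    tS P wt ζ c x = ∑ i with c ≤ hh P wt ζ i, hh P wt x i := by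
  simp [tS, LinearMap.sum_apply, hh]

lemma Nrm.tS_eq {φ : SL n Ω} {a : N → N} (h : Nrm P wt φ a) {ζ : N} (hζ : a ζ = ζ) (c : ℚ) (x : N) :
    tS P wt ζ c (a x) = tS P wt ζ c x := by
  have e : ∀ x, (Eof (fun i => c ≤ hh P wt ζ i) * DD P wt Ω x).trace = ((tS P wt ζ c x : ℚ) : Ω) :=
    fun x => by
      rw [tS_apply, sum_filter]
      simp only [Matrix.trace, Matrix.diag, Eof_mul_apply, DD, Matrix.diagonal_apply_eq]
      push_cast
      exact sum_congr rfl fun i _ => by split_ifs <;> simp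
  have h1 := trace_ac φ (Eof (fun i => c ≤ hh P wt ζ i) * DD P wt Ω x)
  rw [map_mul, h, ac_Eof ((h ζ).trans (by rw [hζ]; rfl)) fun q => c ≤ q, e, e, map_ratCast] at h1
  exact_mod_cast h1

lemma Nrm.BB_eq {φ : SL n Ω} {a : N → N} (h : Nrm P wt φ a) (x y : N) :
    BB P wt (a x) (a y) = BB P wt x y := by
  have e : ∀ x y, (DD P wt Ω x * DD P wt Ω y).trace = ((BB P wt x y : ℚ) : Ω) := fun x y => by
    simp [DD, BB, Matrix.diagonal_mul_diagonal]
  have h1 := trace_ac φ (DD P wt Ω x * DD P wt Ω y)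
  rw [map_mul, h, h, e, e, map_ratCast] at h1
  exact_mod_cast h1

omit [DecidableEq n] in
lemma exists_bound (h : n → ℚ) : ∃ R : ℕ, ∀ i, |h i| ≤ R := by
  obtain ⟨R, hR⟩ := exists_nat_ge (∑ i, |h i|)
  exact ⟨R, fun i => (single_le_sum (fun i _ => abs_nonneg (h i)) (mem_univ i)).trans hR⟩

omit [DecidableEq n] in
lemma BB_zero {ζ w : N} (H : ∀ c, tS P wt ζ c w = 0) : BB P wt ζ w = 0 := by
  obtain ⟨r, hr, hL⟩ := exists_lat (P := P) (wt := wt) ζ
  have hr' : (0 : ℚ) < r := by exact_mod_cast hr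
  obtain ⟨R, hR⟩ := exists_bound (hh P wt ((r : ℚ) • ζ))
  have h1 := abel_sum (mem_lat.mp hL) hR (hh P wt w)
  have h2 : ∀ c : ℚ, ∑ i with c ≤ hh P wt ((r : ℚ) • ζ) i, hh P wt w i = 0 := fun c => by
    rw [← H (c / r), tS_apply]
    exact sum_congr (filter_congr fun i _ => by rw [hh_smul, div_le_iff₀' hr']) fun _ _ => rfl
  have h3 := h2 (-R)
  rw [filter_true_of_mem fun i _ => (abs_le.mp (hR i)).1] at h3
  rw [sum_eq_zero fun (j : ℤ) _ => h2 j] at h1
  simp only [add_mul, sum_add_distrib, ← mul_sum, h3, hh_smul, mul_assoc] at h1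
  simpa [hr'.ne', BB] using h1

omit [DecidableEq n] in
lemma BB_self (hs : Submodule.span ℚ (Set.range wt) = ⊤) {x : N} (h : BB P wt x x = 0) : x = 0 :=
  hh_inj (P := P) hs fun i => by
    rw [hh_zero]
    exact mul_self_eq_zero.mp
      ((sum_eq_zero_iff_of_nonneg fun i _ => mul_self_nonneg _).mp h i (mem_univ i))

/-- the trace form as a linear map -/
noncomputable def BL (P : RootPairing ι ℚ M N) (wt : n → M) (ζ : N) : N →ₗ[ℚ] ℚ :=
  ∑ i, hh P wt ζ i • P.toLinearMap (wt i)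

omit [DecidableEq n] in
lemma BL_apply (ζ x : N) : BL P wt ζ x = BB P wt ζ x := by
  simp [BL, BB, LinearMap.sum_apply, hh]

lemma Nrm.fin {φ : SL n Ω} {a : N → N} (h : Nrm P wt φ a) : ∃ r, 0 < r ∧ Nrm P wt (φ ^ r) id := by
  have h1 : ∀ j : ℕ, Nrm P wt (φ ^ j) a^[j] := fun j => by
    induction j with
    | zero => simpa using Nrm.one
    | succ j ih => rw [pow_succ, Function.iterate_succ]; exact ih.mul h
  choose l hl using fun j => (h1 j).row
  have key : ∀ j k, j < k → l j = l k → ∃ r, 0 < r ∧ Nrm P wt (φ ^ r) id := fun j k hjk e => by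
    refine ⟨k - j, by omega, fun x => ?_⟩
    have h2 : ac (φ ^ k) (DD P wt Ω x) = ac (φ ^ j) (DD P wt Ω x) := by
      rw [h1, h1, DD, DD]; simp only [(hl _).1, e]
    have h3 : φ ^ (k - j) = (φ ^ j)⁻¹ * φ ^ k := by
      rw [eq_inv_mul_iff_mul_eq, ← pow_add]; congr 1; omega
    rw [h3, ac_mul, h2, ac_inv_ac]; rfl
  obtain ⟨j, k, hjk, e⟩ := Finite.exists_ne_map_eq_of_infinite l
  rcases lt_or_gt_of_ne hjk with h | h
  · exact key j k h e
  · exact key k j h e.symm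

lemma Nrm.pow_id {φ : SL n Ω} (h : Nrm P wt φ id) (j : ℕ) : Nrm P wt (φ ^ j) id := by
  induction j with
  | zero => simpa using Nrm.one
  | succ j ih => rw [pow_succ]; exact ih.mul h

omit [CharZero Ω] in
lemma Tor.unique (hs : Submodule.span ℚ (Set.range wt) = ⊤) {o : Ω → ℚ} {x y : N} {t : GL n Ω}
    (h : Tor P wt o x t) (h' : Tor P wt o y t) : x = y := by
  obtain ⟨τ, rfl, -, h1⟩ := h
  obtain ⟨σ, e, -, h2⟩ := h'
  refine hh_inj (P := P) hs fun i => ?_
  have := congrFun (Matrix.diagonal_injective (congrArg Units.val e)) i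
  rw [← h1, ← h2]; exact congrArg o this

omit [CharZero Ω] in
lemma ac_ac_inl (φ : SL n Ω) (k : GL n Ω) (X : Matrix n n Ω) :
    ac φ (ac (inl k) X) = ac (inl (acu φ k)) (ac φ X) := by
  rw [inl_acu, ac_mul, ac_mul, ac_inv_ac]

end Trace

section Gp

variable {G : Subgroup (GL n Ω)} {I : Set (SL n Ω)}

omit [CharZero Ω] in
lemma Gp_mem {u : GL n Ω} (hu : u ∈ Gp G I) : u ∈ G ∧ ∀ φ ∈ I, acu φ u = u := by
  induction hu using Submonoid.closure_induction with
  | mem u hu => exact ⟨hu.1, hu.2.1⟩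
  | one => exact ⟨one_mem _, fun φ _ => map_one _⟩
  | mul a b _ _ ha hb =>
    exact ⟨mul_mem ha.1 hb.1, fun φ hφ => by rw [map_mul, ha.2 φ hφ, hb.2 φ hφ]⟩

omit [CharZero Ω] in
lemma unip_inv' {u : GL n Ω} (hu : IsNilpotent (u.val - 1)) : IsNilpotent ((u⁻¹).val - 1) := by
  have : (u⁻¹).val - 1 = -((u⁻¹).val * (u.val - 1)) := by simp [mul_sub]
  rw [this]
  refine (Commute.isNilpotent_mul_left ?_ hu).neg
  exact ((Commute.refl u.val).units_inv_left).sub_right (Commute.one_right _)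

omit [CharZero Ω] in
lemma Gp_inv {u : GL n Ω} (hu : u ∈ Gp G I) : u⁻¹ ∈ Gp G I := by
  induction hu using Submonoid.closure_induction with
  | mem u hu => exact Submonoid.subset_closure ⟨inv_mem hu.1, fun φ hφ => by
      rw [map_inv, hu.2.1 φ hφ], unip_inv' hu.2.2⟩
  | one => rw [inv_one]; exact one_mem _
  | mul a b _ _ ha hb => rw [mul_inv_rev]; exact mul_mem hb ha

omit [CharZero Ω] in
lemma Gp_acu {ψ : SL n Ω} (h1 : ∀ g ∈ G, acu ψ g ∈ G) (h2 : ∀ φ ∈ I, ∀ u : GL n Ω,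
    (∀ φ ∈ I, acu φ u = u) → acu φ (acu ψ u) = acu ψ u) {u : GL n Ω} (hu : u ∈ Gp G I) :
    acu ψ u ∈ Gp G I := by
  induction hu using Submonoid.closure_induction with
  | mem u hu => exact Submonoid.subset_closure ⟨h1 u hu.1, fun φ hφ => h2 φ hφ u hu.2.1, by
      simpa using hu.2.2.map (ac ψ)⟩
  | one => rw [map_one]; exact one_mem _
  | mul a b _ _ ha hb => rw [map_mul]; exact mul_mem ha hb

omit [CharZero Ω] in
lemma Gp_conj {t : GL n Ω} (ht : t ∈ G) (hr : ∀ φ ∈ I, acu φ t = t) {u : GL n Ω}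
    (hu : u ∈ Gp G I) : t * u * t⁻¹ ∈ Gp G I := by
  rw [← acu_inl]
  refine Gp_acu (fun g hg => ?_) (fun φ hφ u hu => ?_) hu
  · rw [acu_inl]; exact mul_mem (mul_mem ht hg) (inv_mem ht)
  · rw [acu_inl, map_mul, map_mul, map_inv, hr φ hφ, hu φ hφ]

end Gp

variable {G : Subgroup (GL n Ω)} (D : DS G P wt) [P.IsReduced] [Finite ι]
include D

omit [Finite ι] in
lemma DS.BB_coroot (x : N) (i : ι) :
    BB P wt x (P.coroot i) = P.root' i x * (BB P wt (P.coroot i) (P.coroot i) / 2) := by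
  obtain ⟨w, -, -, h, -⟩ := D.weyl (E := Ω) i
  have := h.BB_eq (P.coroot i) x
  rw [P.coreflection_apply_self, P.coreflection_apply] at this
  simp only [BB, hh_neg, hh_sub, hh_smul, Pi.neg_apply, neg_mul, sum_neg_distrib, mul_sub,
    sum_sub_distrib, mul_left_comm _ (P.root' i x), ← mul_sum] at this
  simp only [BB, mul_comm (hh P wt x _)]
  linarith

omit [Finite ι] in
lemma DS.tS_span {ζ : N} (c : ℚ) {s : Set ι} (hs : ∀ i ∈ s, P.root' i ζ = 0) {x : N}
    (hx : x ∈ Submodule.span ℚ (P.coroot '' s)) : tS P wt ζ c x = 0 := by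
  refine (Submodule.span_le (p := LinearMap.ker (tS P wt ζ c))).mpr ?_ hx
  rintro _ ⟨i, hi, rfl⟩
  obtain ⟨w, -, -, h, -⟩ := D.weyl (E := Ω) i
  have := h.tS_eq (ζ := ζ) (by rw [P.coreflection_apply, hs i hi]; simp) c (P.coroot i)
  rw [P.coreflection_apply_self, map_neg] at this
  change tS P wt ζ c _ = 0
  linarith

lemma DS.DE_central {ζ : N} (hζ : ∀ i, P.root' i ζ = 0) (c : ℚ) {I : Set (SL n Ω)} {u : GL n Ω}
    (hu : u ∈ Gp G I) : DE (Eof fun i => c ≤ hh P wt ζ i) u.val = 1 := by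
  have hc : ∀ g ∈ G, Commute (Eof fun i => c ≤ hh P wt ζ i) g.val := fun g hg => by
    have h1 := D.zer_of_zer (x := 0) (fun i _ => hζ i) (D.mem_iff.mpr hg)
      (fun i j h => absurd (by simp [hh_zero]) h)
    exact (zer_comm h1 fun q => if c ≤ q then 1 else 0).symm
  induction hu using Submonoid.closure_induction with
  | mem u hu =>
    have h1 := (hc u hu.1).sub_right (Commute.one_right _)
    refine DE_unip Eof_mul_self ?_
    rw [mul_assoc, ← h1.eq, ← mul_assoc, Eof_mul_self]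
    exact h1.isNilpotent_mul_left hu.2.2
  | one => exact DE_one Eof_mul_self
  | mul a b _ hb' ha hb =>
    rw [Units.val_mul, DE_mul_comm Eof_mul_self (hc b (Gp_mem hb').1), ha, hb, one_mul]

theorem DS.conj_rat {I : Subgroup (SL n Ω)} (stab : ∀ τ ∈ I, ∀ g ∈ G, acu τ g ∈ G)
    (desc : ∀ V : Submodule Ω (Matrix n n Ω), (∀ τ ∈ I, ∀ X ∈ V, ac τ X ∈ V) →
      V ≤ Submodule.span Ω {X | X ∈ V ∧ ∀ τ ∈ I, ac τ X = X})
    {ν : N} (hν : ∀ τ ∈ I, ac τ (DD P wt Ω ν) = DD P wt Ω ν) {k : GL n Ω} (hk : k ∈ G)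
    (hH : ∀ τ ∈ I, ac τ (ac (inl k) (DD P wt Ω ν)) = ac (inl k) (DD P wt Ω ν)) :
    ∃ k' ∈ Gp G I, ac (inl k') (DD P wt Ω ν) = ac (inl k) (DD P wt Ω ν) := by
  have hkE := D.mem_iff.mpr hk
  let V : Submodule Ω (Matrix n n Ω) :=
    { carrier := {X | X ∈ lie (GS G) Ω ∧ Pos (hh P wt (-ν)) (ac (inl k)⁻¹ X)}
      add_mem' := fun a b => ⟨add_mem a.1 b.1, by rw [map_add]; exact a.2.add b.2⟩
      zero_mem' := ⟨zero_mem _, by rw [map_zero]; exact Sup.zero⟩
      smul_mem' := fun c _ a => ⟨Submodule.smul_mem _ c a.1, by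
        rw [ac_smul]; exact a.2.smul _⟩ }
  have hn : ∀ X ∈ V, IsNilpotent X := fun X hX => by
    simpa [ac_ac_inv] using hX.2.nilpotent.map (ac (inl k))
  have hV : ∀ τ ∈ I, ∀ X ∈ V, ac τ X ∈ V := fun τ hτ X hX => by
    refine ⟨lie_of_exp (GS_one G) ((hn X hX).map _) fun a => ?_, ?_⟩
    · have := stab τ hτ _ (D.mem_iff.mp (ex_smul_mem hX.1 (hn X hX) (τ.right.symm a)))
      rw [acu_ex _ ((hn X hX).smul _), ac_smul, RingEquiv.apply_symm_apply] at this
      exact D.mem_iff.mpr this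
    · have h1 : ac ((inl k)⁻¹ * τ * inl k) (DD P wt Ω (-ν)) = DD P wt Ω (-ν) := by
        rw [DD_neg, map_neg, ac_mul, ac_mul, hH τ hτ, ac_inv_ac]
      have := pos_ac h1 hX.2
      rwa [ac_mul, ac_mul, ac_ac_inv] at this
  have hsp : Submodule.span Ω {X | X ∈ V ∧ ∀ τ ∈ I, ac τ X = X} = V :=
    le_antisymm (Submodule.span_le.mpr fun X hX => hX.1) (desc V hV)
  obtain ⟨s, hs1, hs2⟩ := (Submodule.fg_span_iff_fg_span_finset_subset _).mp
    (hsp.symm ▸ IsNoetherian.noetherian V)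
  rw [hsp] at hs2
  have hl : ∀ X ∈ s.toList.map (ac (inl k)⁻¹), X ∈ lie (GS G) Ω ∧ Pos (-hh P wt ν) X := by
    intro X hX
    obtain ⟨Y, hY, rfl⟩ := List.mem_map.mp hX
    have := (hs1 (mem_toList.mp hY)).1
    refine ⟨?_, hh_neg (P := P) (wt := wt) ν ▸ this.2⟩
    rw [← map_inv]
    exact lie_conj (inv_mem hkE) this.1
  obtain ⟨a, ha, hδ⟩ := D.move ν hl (fun X h1 h2 => by
    have h3 : ac (inl k) X ∈ V := ⟨lie_conj hkE h1, by rwa [ac_inv_ac, hh_neg]⟩
    rw [hs2] at h3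
    rw [← ac_inv_ac (inl k) X]
    generalize ac (inl k) X = Y at h3
    induction h3 using Submodule.span_induction with
    | mem Y hY => exact Submodule.subset_span (List.mem_map.mpr ⟨Y, mem_toList.mpr hY, rfl⟩)
    | zero => simp
    | add Y Z _ _ h1 h2 => rw [map_add]; exact add_mem h1 h2
    | smul c Y _ h1 => rw [ac_smul]; exact Submodule.smul_mem _ _ h1) hkE
  obtain ⟨a, ha, hδ⟩ := move_nat (fun X hX => (hl X hX).2.nilpotent) k.val ⟨a, ha, by
    simpa using hδ⟩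
  have hw : k * a * k⁻¹ ∈ Gp G I := by
    clear hδ
    induction ha using Submonoid.closure_induction with
    | mem u hu =>
      obtain ⟨X, hX, m, rfl⟩ := hu
      obtain ⟨Y, hY, rfl⟩ := List.mem_map.mp hX
      obtain ⟨h1, h2⟩ := hs1 (mem_toList.mp hY)
      rw [← acu_inl, acu_ex _ ((hl _ hX).2.nilpotent.smul _), ac_smul, ac_ac_inv, map_natCast]
      refine Submonoid.subset_closure ⟨D.mem_iff.mp (ex_smul_mem h1.1 (hn Y h1) _),
        fun φ hφ => ?_, ?_⟩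
      · rw [acu_ex _ ((hn Y h1).smul _), ac_smul, map_natCast, h2 φ hφ]
      · rw [ex_val ((hn Y h1).smul _)]
        exact IsNilpotent.isNilpotent_exp_sub_one ((hn Y h1).smul _)
    | one => simp
    | mul a b _ _ ha hb => convert mul_mem ha hb using 1; group
  have haG : k * a ∈ GE G Ω := by
    have := mul_mem (D.mem_iff.mpr (Gp_mem hw).1) hkE
    rwa [inv_mul_cancel_right] at this
  obtain ⟨a₁, ha₁, m, hm, c, hc, h1, e⟩ := D.bc ν haG hδ
  have hmz := ac_inl_iff.mpr (D.cl_zer (fun _ h => h) h1)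
  have hc' := UU_conj hm hmz hc
  set c' := m * c * m⁻¹ with hc'e
  have h2 : ac (inl (a₁ * c')) (DD P wt Ω ν) = ac (inl (k * a * k⁻¹)) (ac (inl k) (DD P wt Ω ν)) := by
    rw [← ac_mul, ← map_mul, inv_mul_cancel_right, e]
    conv_lhs => rw [DD, ← hmz, ← ac_mul, ← map_mul, hc'e]
    congr 2; group
  have h3 : ∀ τ ∈ I, acu τ a₁ = a₁ ∧ acu τ c' = c' := fun τ hτ => by
    have h4 : ac (inl ((a₁ * c')⁻¹ * acu τ (a₁ * c'))) (DD P wt Ω ν) = DD P wt Ω ν := by
      conv_lhs => rw [map_mul, ac_mul, ← hν τ hτ, ← ac_ac_inl, h2, ac_ac_inl, hH τ hτ,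
        (Gp_mem hw).2 τ hτ, ← h2, map_inv, ac_inv_ac]
    set m' := (a₁ * c')⁻¹ * acu τ (a₁ * c') with hm'
    have hG : m' ∈ GE G Ω := mul_mem (inv_mem (mul_mem ha₁.1 hc'.1))
      (D.mem_iff.mpr (stab τ hτ _ (D.mem_iff.mp (mul_mem ha₁.1 hc'.1))))
    have h5 := UU_conj (inv_mem hG) (by rw [map_inv, ← h4, ac_inv_ac, h4]) hc'
    have p1 : Pos (-hh P wt ν) ((acu τ a₁).val - 1) := by
      have := pos_ac (φ := τ) (x := -ν) (y := -ν) (by rw [DD_neg, map_neg, hν τ hτ])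
        (hh_neg (P := P) (wt := wt) ν ▸ ha₁.2)
      rwa [map_sub, map_one, hh_neg] at this
    have p2 : Pos (hh P wt ν) ((acu τ c').val - 1) := by
      have := pos_ac (hν τ hτ) hc'.2
      rwa [map_sub, map_one] at this
    have := cell_unique p1 (Sup.one fun _ => rfl) isUnit_one p2 ha₁.2 (ac_inl_iff.mp h4)
      h5.2 (by
        rw [mul_one, ← Units.val_mul, ← Units.val_mul, ← Units.val_mul, ← map_mul]
        congr 1
        rw [hm']; group)
    have h6 : m' = 1 := Units.ext this.2.1.symm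
    exact ⟨Units.ext this.1, Units.ext (by simpa [h6] using this.2.2)⟩
  refine ⟨(k * a * k⁻¹)⁻¹ * (a₁ * c'), mul_mem (Gp_inv hw) (mul_mem (Submonoid.subset_closure
    ⟨D.mem_iff.mp ha₁.1, fun τ hτ => (h3 τ hτ).1, ha₁.2.nilpotent⟩) (Submonoid.subset_closure
    ⟨D.mem_iff.mp hc'.1, fun τ hτ => (h3 τ hτ).2, hc'.2.nilpotent⟩)), ?_⟩
  rw [map_mul, ac_mul, h2, map_inv, ac_inv_ac]

end Pool.Agent.P.MP_7d29e8_ag
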