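import Pool.Agent.P.MP_7d29e8_ag.Core

set_option autoImplicit false

/-! Words in simple reflections. -/

namespace Pool.Agent.P.MP_7d29e8_ag

open scoped Classical
open Finset

variable {ι M N : Type*} [AddCommGroup M] [Module ℚ M] [AddCommGroup N] [Module ℚ N]
  (P : RootPairing ι ℚ M N)

/-- action of a word on cocharacters -/
noncomputable def wN : List ι → (N →ₗ[ℚ] N)
  | [] => LinearMap.id
  | i :: l => (P.coreflection i).toLinearMap ∘ₗ wN l

/-- action of a word on roots -/
def wI : List ι → Equiv.Perm ι
  | [] => 1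
  | i :: l => P.reflectionPerm i * wI l

variable {P}

@[simp] lemma wN_nil (x : N) : wN P [] x = x := rfl
@[simp] lemma wN_cons (i : ι) (l : List ι) (x : N) :
    wN P (i :: l) x = P.coreflection i (wN P l x) := rfl
@[simp] lemma wI_nil (j : ι) : wI P [] j = j := rfl
@[simp] lemma wI_cons (i : ι) (l : List ι) (j : ι) :
    wI P (i :: l) j = P.reflectionPerm i (wI P l j) := rfl

lemma wN_append (l l' : List ι) (x : N) : wN P (l ++ l') x = wN P l (wN P l' x) := by
  induction l with
  | nil => rfl
  | cons i l ih => simp [ih]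

lemma wN_reverse (l : List ι) (x : N) : wN P l.reverse (wN P l x) = x := by
  induction l generalizing x with
  | nil => rfl
  | cons i l ih => simp [wN_append, ih]

lemma wN_reverse' (l : List ι) (x : N) : wN P l (wN P l.reverse x) = x := by
  simpa using wN_reverse (P := P) l.reverse x

lemma root'_refl (i j : ι) (x : N) :
    P.root' j (P.coreflection i x) = P.root' (P.reflectionPerm i j) x :=
  (LinearMap.congr_fun (P.flip.coroot'_reflectionPerm (i := i) (j := j)) x).symm

lemma root'_neg (j : ι) (x : N) : P.root' (P.reflectionPerm j j) x = - P.root' j x := by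
  rw [← root'_refl, P.coreflection_apply]; simp; ring

lemma root'_wN (l : List ι) (j : ι) (x : N) : P.root' (wI P l j) (wN P l x) = P.root' j x := by
  induction l with
  | nil => rfl
  | cons i l ih => simp [root'_refl, ih]

lemma wN_coroot (l : List ι) (j : ι) : wN P l (P.coroot j) = P.coroot (wI P l j) := by
  induction l with
  | nil => rfl
  | cons i l ih => simp [ih]

lemma wN_refl (l : List ι) (j : ι) (x : N) :
    wN P l (P.coreflection j x) = P.coreflection (wI P l j) (wN P l x) := by
  rw [P.coreflection_apply, P.coreflection_apply, map_sub, map_smul, wN_coroot, root'_wN]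

lemma wN_sub_mem {J : Set ι} {l : List ι} (hl : ∀ i ∈ l, i ∈ J) (x : N) :
    wN P l x - x ∈ Submodule.span ℚ (P.coroot '' J) := by
  induction l with
  | nil => simp
  | cons i l ih =>
    rw [wN_cons, P.coreflection_apply, sub_right_comm]
    exact Submodule.sub_mem _ (ih fun j hj => hl j (List.mem_cons_of_mem _ hj))
      (Submodule.smul_mem _ _ (Submodule.subset_span ⟨i, hl i List.mem_cons_self, rfl⟩))

lemma wN_fix {l : List ι} {x : N} (hl : ∀ i ∈ l, P.root' i x = 0) : wN P l x = x := by
  induction l with
  | nil => rfl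
  | cons i l ih =>
    rw [wN_cons, ih fun j hj => hl j (List.mem_cons_of_mem _ hj), P.coreflection_apply,
      hl i List.mem_cons_self]
    simp

variable {b : P.Base}

lemma root_expand {j : ι} (hj : b.IsPos j) : ∃ f : ι → ℤ, 0 < f ∧ f.support ⊆ b.support ∧
    ∀ x, P.root' j x = ∑ i ∈ b.support, f i * P.root' i x := by
  obtain ⟨f, hf₀, hf₁, hf₂⟩ := b.exists_root_eq_sum_int j
  refine ⟨f, hf₁.resolve_right ?_, hf₀, fun x => ?_⟩
  · rw [RootPairing.Base.isPos_iff, RootPairing.Base.height_eq_sum hf₂] at hj
    contrapose! hj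
    exact Finset.sum_nonpos fun i _ ↦ hj.le i
  · have e : ∀ j, P.root' j x = P.toLinearMap (P.root j) x := fun _ => rfl
    simp only [e, hf₂, map_sum, LinearMap.sum_apply, map_zsmul, LinearMap.smul_apply,
      zsmul_eq_mul]

lemma pos_nonneg {j : ι} (hj : b.IsPos j) {x : N} (hx : ∀ i ∈ b.support, 0 ≤ P.root' i x) :
    0 ≤ P.root' j x := by
  obtain ⟨f, h0, -, h⟩ := root_expand hj
  rw [h]
  exact sum_nonneg fun i hi => mul_nonneg (by exact_mod_cast h0.le i) (hx i hi)

lemma pos_pos {j : ι} (hj : b.IsPos j) {x : N} (hx : ∀ i ∈ b.support, 0 < P.root' i x) :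
    0 < P.root' j x := by
  obtain ⟨f, h0, hs, h⟩ := root_expand hj
  rw [h]
  obtain ⟨i, hi⟩ := (Pi.lt_def.mp h0).2
  exact sum_pos' (fun i hi => mul_nonneg (by exact_mod_cast h0.le i) (hx i hi).le)
    ⟨i, hs hi.ne', mul_pos (by exact_mod_cast hi) (hx i (hs hi.ne'))⟩

lemma neg_isPos {j : ι} (hj : ¬ b.IsPos j) : b.IsPos (P.reflectionPerm j j) :=
  (RootPairing.Base.IsPos.neg_iff_not b j).mpr hj

lemma isPos_of_pos {j : ι} {x : N} (hx : ∀ i ∈ b.support, 0 ≤ P.root' i x)
    (h : 0 < P.root' j x) : b.IsPos j := by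
  by_contra hj
  have := pos_nonneg (neg_isPos hj) hx
  rw [root'_neg] at this
  linarith

lemma root'_eq_zero_of {j : ι} {x : N} (hx : ∀ i ∈ b.support, P.root' i x = 0) :
    P.root' j x = 0 :=
  central_all b hx (Submodule.subset_span ⟨j, rfl⟩)

/-- roots vanishing on a dominant element are supported on simple roots vanishing on it -/
lemma root'_facet {j : ι} {x z : N} (hx : ∀ i ∈ b.support, 0 ≤ P.root' i x)
    (hz : ∀ i ∈ b.support, P.root' i x = 0 → P.root' i z = 0) (hj : P.root' j x = 0) :
    P.root' j z = 0 := by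
  have key : ∀ j, b.IsPos j → P.root' j x = 0 → P.root' j z = 0 := by
    intro j hj h0
    obtain ⟨f, hf, -, h⟩ := root_expand hj
    rw [h, sum_eq_zero_iff_of_nonneg
      fun i hi => mul_nonneg (by exact_mod_cast hf.le i) (hx i hi)] at h0
    rw [h]
    refine sum_eq_zero fun i hi => ?_
    rcases mul_eq_zero.mp (h0 i hi) with h1 | h1
    · rw [h1, zero_mul]
    · rw [hz i hi h1, mul_zero]
  by_cases h : b.IsPos j
  · exact key j h hj
  · have := key _ (neg_isPos h) (by rw [root'_neg, hj, neg_zero])
    rwa [root'_neg, neg_eq_zero] at this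

variable [Finite ι] [P.IsCrystallographic]

lemma exists_coweight (b : P.Base) (c : ι → ℚ) :
    ∃ x ∈ Submodule.span ℚ (Set.range P.coroot), ∀ i ∈ b.support, P.root' i x = c i := by
  let φ : (b.support → ℚ) →ₗ[ℚ] (b.support → ℚ) :=
    { toFun := fun d i => P.root' i (∑ j : b.support, d j • P.coroot j)
      map_add' := fun d e => by ext i; simp [add_smul, sum_add_distrib]
      map_smul' := fun a d => by ext i; simp [mul_sum, mul_assoc] }
  have hinj : Function.Injective φ := by
    rw [injective_iff_map_eq_zero]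
    intro d hd
    have h0 : ∑ j : b.support, d j • P.coroot j = 0 :=
      eq_zero_of_central b (Submodule.sum_mem _ fun j _ => Submodule.smul_mem _ _
        (Submodule.subset_span ⟨j, rfl⟩)) fun i hi => congrFun hd ⟨i, hi⟩
    exact funext (Fintype.linearIndependent_iff.mp b.linearIndepOn_coroot d h0)
  obtain ⟨d, hd⟩ := (LinearMap.injective_iff_surjective.mp hinj) (fun i => c i)
  exact ⟨∑ j : b.support, d j • P.coroot j, Submodule.sum_mem _ fun j _ => Submodule.smul_mem _ _
    (Submodule.subset_span ⟨j, rfl⟩), fun i hi => congrFun hd ⟨i, hi⟩⟩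

variable [P.IsReduced]

lemma deletion {J : Set ι} (hJ : J ⊆ b.support) {a : ι} (ha : a ∈ J) :
    ∀ l : List ι, (∀ i ∈ l, i ∈ J) → ¬ b.IsPos (wI P l a) →
      ∃ l' : List ι, (∀ i ∈ l', i ∈ J) ∧ l'.length + 1 = l.length ∧
        ∀ x, wN P l (P.coreflection a x) = wN P l' x := by
  intro l
  induction l with
  | nil => intro _ h; exact absurd (b.isPos_of_mem_support (hJ ha)) h
  | cons c l ih =>
    intro hl h
    have hl' : ∀ i ∈ l, i ∈ J := fun j hj => hl j (List.mem_cons_of_mem _ hj)
    by_cases h1 : b.IsPos (wI P l a)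
    · have : wI P l a = c := by
        by_contra hne
        exact h (h1.reflectionPerm (hJ (hl c List.mem_cons_self)) hne)
      exact ⟨l, hl', rfl, fun x => by rw [wN_cons, wN_refl, this, P.coreflection_same]⟩
    · obtain ⟨l', h2, h3, h4⟩ := ih hl' h1
      refine ⟨c :: l', ?_, by simp [h3], fun x => by simp [h4]⟩
      intro i hi
      rcases List.mem_cons.mp hi with rfl | hi
      · exact hl _ List.mem_cons_self
      · exact h2 i hi

lemma dom_unique {x : N} (hx : ∀ i ∈ b.support, 0 ≤ P.root' i x) :
    ∀ (k : ℕ) (l : List ι), l.length = k → (∀ i ∈ l, i ∈ b.support) →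
      (∀ i ∈ b.support, 0 ≤ P.root' i (wN P l x)) → wN P l x = x := by
  intro k
  induction k using Nat.strong_induction_on with
  | _ k ih =>
    intro l hk hl hd
    rcases List.eq_nil_or_concat l with rfl | ⟨l0, a, rfl⟩
    · rfl
    simp only [List.concat_eq_append, List.mem_append, List.mem_singleton, List.length_append,
      List.length_singleton, wN_append, wN_cons, wN_nil] at hk hl hd ⊢
    have ha : a ∈ b.support := hl a (Or.inr rfl)
    by_cases h1 : b.IsPos (wI P l0 a)
    · have h2 := pos_nonneg h1 hd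
      rw [root'_wN, root'_refl, root'_neg] at h2
      have h3 : P.coreflection a x = x := by
        rw [P.coreflection_apply, show P.root' a x = 0 by linarith [hx a ha]]; simp
      rw [h3] at hd ⊢
      exact ih _ (by omega) l0 rfl (fun i hi => hl i (Or.inl hi)) hd
    · obtain ⟨l', h2, h3, h4⟩ := deletion (J := b.support) subset_rfl ha l0
        (fun i hi => hl i (Or.inl hi)) h1
      rw [h4] at hd ⊢
      exact ih _ (by omega) l' rfl h2 hd

lemma climb {J : Set ι} (hJ : J ⊆ b.support) (x : N) :
    ∃ l : List ι, (∀ i ∈ l, i ∈ J) ∧ ∀ i ∈ J, 0 ≤ P.root' i (wN P l x) := by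
  letI := Fintype.ofFinite ι
  generalize hk : (univ.filter fun j => b.IsPos j ∧ P.root' j x < 0).card = k
  induction k using Nat.strong_induction_on generalizing x with
  | _ k ih =>
    by_cases h : ∀ i ∈ J, 0 ≤ P.root' i x
    · exact ⟨[], by simp, h⟩
    push Not at h
    obtain ⟨a, ha, hax⟩ := h
    have hlt : (univ.filter fun j => b.IsPos j ∧ P.root' j (P.coreflection a x) < 0).card < k := by
      rw [← hk]
      have hmem : a ∈ univ.filter fun j => b.IsPos j ∧ P.root' j x < 0 := by
        simpa using ⟨b.isPos_of_mem_support (hJ ha), hax⟩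
      refine lt_of_le_of_lt ?_ (card_erase_lt_of_mem hmem)
      refine card_le_card_of_injOn (P.reflectionPerm a) (fun j hj => ?_)
        (fun i _ j _ h => (P.reflectionPerm a).injective h)
      simp only [coe_filter, mem_univ, true_and, Set.mem_ofPred_eq, root'_refl] at hj
      have hja : j ≠ a := by
        rintro rfl
        have := hj.2
        rw [root'_neg] at this
        linarith
      have h1 := hj.1.reflectionPerm (hJ ha) hja
      simp only [coe_erase, coe_filter, mem_univ, true_and, Set.mem_sdiff, Set.mem_ofPred_eq,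
        Set.mem_singleton_iff]
      refine ⟨⟨h1, hj.2⟩, fun e => ?_⟩
      have : j = P.reflectionPerm a a := by rw [← P.reflectionPerm_self a j, e]
      have h2 := hj.1
      rw [this] at h2
      exact (RootPairing.Base.IsPos.neg_iff_not b a).mp h2 (b.isPos_of_mem_support (hJ ha))
    obtain ⟨l, h1, h2⟩ := ih _ hlt (P.coreflection a x) rfl
    refine ⟨l ++ [a], fun i hi => ?_, fun i hi => by simpa [wN_append] using h2 i hi⟩
    rcases List.mem_append.mp hi with hi | hi
    · exact h1 i hi
    · rw [List.mem_singleton.mp hi]; exact ha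

/-- uniqueness of the dominant representative for a parabolic subgroup -/
lemma dom_unique_J {J : Set ι} (hJ : J ⊆ b.support) {x : N} (hx : ∀ i ∈ J, 0 ≤ P.root' i x)
    {l : List ι} (hl : ∀ i ∈ l, i ∈ J) (hd : ∀ i ∈ J, 0 ≤ P.root' i (wN P l x)) :
    wN P l x = x := by
  obtain ⟨z, -, hz⟩ := exists_coweight b
    (fun i => if i ∈ J then 0 else |P.root' i x| + |P.root' i (wN P l x)|)
  have hfix : wN P l z = z := wN_fix fun i hi => by rw [hz i (hJ (hl i hi)), if_pos (hl i hi)]
  have := dom_unique (b := b) (x := x + z) (fun i hi => by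
    rw [map_add, hz i hi]
    split_ifs with h
    · simpa using hx i h
    · linarith [neg_abs_le (P.root' i x), abs_nonneg (P.root' i (wN P l x))]) _ l rfl
    (fun i hi => hJ (hl i hi)) (fun i hi => by
      rw [map_add, hfix, map_add, hz i hi]
      split_ifs with h
      · simpa using hd i h
      · linarith [abs_nonneg (P.root' i x), neg_abs_le (P.root' i (wN P l x))])
  rw [map_add, hfix] at this
  exact add_right_cancel this

end Pool.Agent.P.MP_7d29e8_ag
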