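import Pool.Agent.P.MP_7d29e8_ag.HExp
import Pool.Agent.P.MP_7d29e8_ag.HDense
import Pool.Agent.P.MP_7d29e8_ag.HWeyl
import Pool.Agent.P.MP_7d29e8_ag.HDefs

set_option autoImplicit false

/-! Groups with a diagonal maximal torus: weight spaces and root groups. -/

namespace Pool.Agent.P.MP_7d29e8_ag

open Finset
open scoped Classical

variable {Ω : Type} [Field Ω] [CharZero Ω] {n : Type} [Fintype n] [DecidableEq n]
  {ι M N : Type} [AddCommGroup M] [Module ℚ M] [AddCommGroup N] [Module ℚ N]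
  {P : RootPairing ι ℚ M N} {wt : n → M} {E : Type} [Field E] [CharZero E] [Algebra Ω E]

/-- the weights of a cocharacter -/
def hh (P : RootPairing ι ℚ M N) (wt : n → M) (x : N) : n → ℚ := fun i => P.toLinearMap (wt i) x

/-- the differential of a cocharacter -/
def DD (P : RootPairing ι ℚ M N) (wt : n → M) (E : Type) [Field E] (x : N) : Matrix n n E :=
  Matrix.diagonal fun i => (hh P wt x i : E)

/-- a subgroup as a set of matrices -/
def GS (G : Subgroup (GL n Ω)) : Set (Matrix n n Ω) := {X | ∃ g ∈ G, g.val = X}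

/-- matrices of a given weight -/
def Wt (wt : n → M) (m : M) {R : Type} [CommRing R] (X : Matrix n n R) : Prop :=
  Sup (fun i j => wt i - wt j = m) X

section Basic

omit [Fintype n] [DecidableEq n] in
lemma hh_add (x y : N) (i : n) : hh P wt (x + y) i = hh P wt x i + hh P wt y i := by simp [hh]

omit [Fintype n] [DecidableEq n] in
lemma hh_sub (x y : N) (i : n) : hh P wt (x - y) i = hh P wt x i - hh P wt y i := by simp [hh]

omit [Fintype n] [DecidableEq n] in
lemma hh_smul (c : ℚ) (x : N) (i : n) : hh P wt (c • x) i = c * hh P wt x i := by simp [hh]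

omit [Fintype n] [DecidableEq n] in
lemma hh_neg (x : N) : hh P wt (-x) = - hh P wt x := by funext i; simp [hh]

omit [Fintype n] [DecidableEq n] in
lemma hh_zero (i : n) : hh P wt 0 i = 0 := by simp [hh]

omit [Fintype n] [DecidableEq n] in
lemma mem_lat {x : N} : x ∈ lat P wt ↔ ∀ i, ∃ z : ℤ, hh P wt x i = z := Iff.rfl

omit [DecidableEq n] in
lemma exists_lat (x : N) : ∃ r : ℕ, 0 < r ∧ (r : ℚ) • x ∈ lat P wt := by
  refine ⟨∏ i, (hh P wt x i).den, prod_pos fun i _ => Rat.den_pos _, mem_lat.mpr fun i => ?_⟩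
  refine ⟨(∏ j ∈ univ.erase i, (hh P wt x j).den : ℕ) * (hh P wt x i).num, ?_⟩
  rw [hh_smul, ← mul_prod_erase _ _ (mem_univ i)]
  push_cast
  rw [mul_right_comm, Rat.den_mul_eq_num, mul_comm]

lemma pair_ext {m m' : M} (h : ∀ x, P.toLinearMap m x = P.toLinearMap m' x) : m = m' :=
  (LinearMap.IsPerfPair.bijective_left P.toLinearMap).1 (LinearMap.ext h)

omit [Fintype n] [DecidableEq n] in
lemma hh_inj (hs : Submodule.span ℚ (Set.range wt) = ⊤) {x y : N}
    (h : ∀ i, hh P wt x i = hh P wt y i) : x = y := by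
  refine (LinearMap.IsPerfPair.bijective_right P.toLinearMap).1 ?_
  exact LinearMap.ext_on_range hs h

omit [Fintype n] [DecidableEq n] in
lemma Wt.hh {R : Type} [CommRing R] {m : M} {X : Matrix n n R} (h : Wt wt m X) (x : N) :
    Sup (fun i j => hh P wt x i - hh P wt x j = P.toLinearMap m x) X :=
  h.mono fun i j e => by simp [MP_7d29e8_ag.hh, ← e]

omit [DecidableEq n] in
lemma Wt.mul {R : Type} [CommRing R] {m m' : M} {X Y : Matrix n n R} (h : Wt wt m X)
    (h' : Wt wt m' Y) : Wt wt (m + m') (X * Y) :=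
  Sup.mul h h' fun _ _ _ a b => by rw [← a, ← b]; abel

omit [Fintype n] [DecidableEq n] in
lemma Wt.pos {R : Type} [CommRing R] {m : M} {X : Matrix n n R} (h : Wt wt m X) {x : N}
    (hx : 0 < P.toLinearMap m x) : Pos (MP_7d29e8_ag.hh P wt x) X :=
  (h.hh x).mono fun _ _ e => by linarith

omit [Fintype n] [DecidableEq n] in
lemma Wt.zer {R : Type} [CommRing R] {m : M} {X : Matrix n n R} (h : Wt wt m X) {x : N}
    (hx : P.toLinearMap m x = 0) : Zer (MP_7d29e8_ag.hh P wt x) X :=
  (h.hh x).mono fun _ _ e => by linarith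

lemma Wt.nil {R : Type} [CommRing R] {i : ι} {X : Matrix n n R} (h : Wt wt (P.root i) X) :
    IsNilpotent X :=
  (h.pos (P := P) (x := P.coroot i) (by simp)).nilpotent

lemma DD_comm (x : N) (X : Matrix n n E) (i j : n) :
    (DD P wt E x * X - X * DD P wt E x) i j = ((hh P wt x i - hh P wt x j : ℚ) : E) * X i j := by
  simp [DD, Matrix.diagonal_mul, Matrix.mul_diagonal]; ring

lemma wt_iff {m : M} {X : Matrix n n E} : Wt wt m X ↔
    ∀ x, DD P wt E x * X - X * DD P wt E x = (P.toLinearMap m x : E) • X := by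
  constructor
  · intro h x
    ext i j
    rw [DD_comm, Matrix.smul_apply, smul_eq_mul]
    by_cases e : hh P wt x i - hh P wt x j = P.toLinearMap m x
    · rw [e]
    · rw [h.hh x i j e, mul_zero, mul_zero]
  · intro h i j hij
    by_contra h0
    refine hij (pair_ext (P := P) fun x => ?_)
    have := congrFun (congrFun (h x) i) j
    rw [DD_comm, Matrix.smul_apply, smul_eq_mul] at this
    have := Rat.cast_injective (mul_right_cancel₀ h0 this)
    simpa [hh] using this

lemma zer_iff {h : n → ℚ} {X : Matrix n n E} :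
    Zer h X ↔ X * Matrix.diagonal (fun i => (h i : E)) = Matrix.diagonal (fun i => (h i : E)) * X := by
  constructor
  · intro H
    ext i j
    rw [Matrix.mul_diagonal, Matrix.diagonal_mul]
    by_cases e : h i = h j
    · rw [e, mul_comm]
    · simp [H i j e]
  · intro H i j e
    have := congrFun (congrFun H i) j
    rw [Matrix.mul_diagonal, Matrix.diagonal_mul, mul_comm] at this
    by_contra h0
    exact e (Rat.cast_injective (mul_right_cancel₀ h0 this)).symm

omit [Fintype n] in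
lemma DD_add (x y : N) : DD P wt E (x + y) = DD P wt E x + DD P wt E y := by
  simp [DD, hh_add, Matrix.diagonal_add]

omit [Fintype n] in
lemma DD_smul (c : ℚ) (x : N) : DD P wt E (c • x) = (c : E) • DD P wt E x := by
  simp [DD, hh_smul, ← Matrix.diagonal_smul]

omit [Fintype n] in
lemma DD_neg (x : N) : DD P wt E (-x) = - DD P wt E x := by
  simp [DD, hh_neg, Matrix.diagonal_neg]

omit [Fintype n] in
lemma DD_map {E' : Type} [Field E'] [CharZero E'] (f : E →+* E') (x : N) :
    (DD P wt E x).map f = DD P wt E' x := by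
  simp [DD, Matrix.diagonal_map]

omit [Fintype n] in
lemma DD_inj (hs : Submodule.span ℚ (Set.range wt) = ⊤) {x y : N}
    (h : DD P wt E x = DD P wt E y) : x = y :=
  hh_inj (P := P) hs fun i => Rat.cast_injective (congrFun (Matrix.diagonal_injective h) i)

omit [CharZero Ω] in
lemma GS_one (G : Subgroup (GL n Ω)) : (1 : Matrix n n Ω) ∈ GS G := ⟨1, G.one_mem, rfl⟩

omit [CharZero Ω] in
lemma GS_mul (G : Subgroup (GL n Ω)) : ∀ a ∈ GS G, ∀ b ∈ GS G, a * b ∈ GS G := by
  rintro _ ⟨a, ha, rfl⟩ _ ⟨b, hb, rfl⟩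
  exact ⟨a * b, G.mul_mem ha hb, rfl⟩

/-- points with values in a field extension -/
def GE (G : Subgroup (GL n Ω)) (E : Type) [Field E] [Algebra Ω E] : Subgroup (GL n E) where
  carrier := {g | g.val ∈ Cl (GS G) E}
  mul_mem' ha hb := Cl.mul (fun a ha b hb => Cl.self (GS_mul G a ha b hb)) ha hb
  one_mem' := by
    have := Cl.of_mem (R := E) (GS_one G)
    rwa [Matrix.map_one _ (map_zero _) (map_one _)] at this
  inv_mem' {g} hg := by
    have := Cl.inv (S := GS G) (by
      rintro _ ⟨a, ha, rfl⟩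
      exact Cl.self ⟨a⁻¹, G.inv_mem ha, Matrix.coe_units_inv a⟩) hg g.isUnit
    rwa [← Matrix.coe_units_inv] at this

omit [CharZero Ω] [CharZero E] in
lemma lie_conj {G : Subgroup (GL n Ω)} {g : GL n E} (hg : g ∈ GE G E) {X : Matrix n n E}
    (hX : X ∈ lie (GS G) E) : g.val * X * (g⁻¹).val ∈ lie (GS G) E :=
  lie.conj (GS_one G) (GS_mul G) hg ((GE G E).inv_mem hg) (by simp) hX

omit [CharZero Ω] [CharZero E] in
lemma dual_sep {a : E} (h : ∀ l : E →ₗ[Ω] Ω, l a = 0) : a = 0 :=
  (Module.forall_dual_apply_eq_zero_iff Ω a).mp h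

end Basic

/-- a closed connected subgroup with diagonal maximal torus and root datum `P` -/
structure DS (G : Subgroup (GL n Ω)) (P : RootPairing ι ℚ M N) (wt : n → M) : Prop where
  closed : ∀ g : GL n Ω, g.val ∈ Cl (GS G) Ω → g ∈ G
  prime : (van (GS G)).IsPrime
  span : Submodule.span ℚ (Set.range wt) = ⊤
  tor : ∀ x ∈ lat P wt, ∀ t : Ω, t ≠ 0 → Matrix.diagonal (fun i => t ^ ⌊hh P wt x i⌋) ∈ GS G
  cent : ∀ X ∈ lie (GS G) Ω, Wt wt 0 X → X ∈ Submodule.span Ω (Set.range (DD P wt Ω))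
  roots : ∀ m ≠ 0, ∀ X ∈ lie (GS G) Ω, X ≠ 0 → Wt wt m X → m ∈ Set.range P.root
  sl2 : ∀ i, P.coroot i ∈ lat P wt ∧ ∃ e ∈ lie (GS G) Ω, ∃ f ∈ lie (GS G) Ω,
    Wt wt (P.root i) e ∧ Wt wt (-P.root i) f ∧ e * f - f * e = DD P wt Ω (P.coroot i)

variable {G : Subgroup (GL n Ω)} (D : DS G P wt)
include D

omit [CharZero Ω] in
lemma DS.mem_iff {g : GL n Ω} : g ∈ GE G Ω ↔ g ∈ G :=
  ⟨D.closed g, fun h => Cl.self ⟨g, h, rfl⟩⟩

lemma DS.co_cl {x : N} (hx : x ∈ lat P wt) {R : Type} [CommRing R] [Algebra Ω R] (t : Rˣ) :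
    Matrix.diagonal (fun i => ((t ^ ⌊hh P wt x i⌋ : Rˣ) : R)) ∈ Cl (GS G) R :=
  Cl.cochar _ (fun t ht => Cl.self (D.tor x hx t ht)) t

omit [CharZero E] in
lemma DS.co_mem {x : N} (hx : x ∈ lat P wt) (t : Eˣ) :
    dU (fun i => t ^ ⌊hh P wt x i⌋) ∈ GE G E := D.co_cl hx t

open DualNumber in
lemma DS.DD_mem (x : N) : DD P wt E x ∈ lie (GS G) E := by
  obtain ⟨r, hr, hx⟩ := exists_lat (P := P) (wt := wt) x
  have h1 : DD P wt E ((r : ℚ) • x) ∈ lie (GS G) E := by
    refine lie.of_dual (GS_one G) ?_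
    let t : (DualNumber E)ˣ := ⟨1 + ε, 1 - ε, by
      rw [mul_sub, add_mul, add_mul, eps_mul_eps]; simp, by
      rw [mul_add, sub_mul, sub_mul, eps_mul_eps]; simp⟩
    have ht : ∀ z : ℤ, ((t ^ z : (DualNumber E)ˣ) : DualNumber E) = 1 + ε * (z : DualNumber E) := by
      intro z
      induction z using Int.induction_on with
      | zero => simp
      | succ k ih =>
        rw [zpow_add_one, Units.val_mul, ih]
        simp only [t]; push_cast
        linear_combination (k : DualNumber E) * (eps_mul_eps (R := E))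
      | pred k ih =>
        rw [zpow_sub_one, Units.val_mul, ih]
        simp only [t, Units.inv_mk]; push_cast
        linear_combination (k : DualNumber E) * (eps_mul_eps (R := E))
    convert D.co_cl hx t using 1
    refine Matrix.ext fun i j => ?_
    by_cases h : i = j
    · subst h
      obtain ⟨z, hz⟩ := mem_lat.mp hx i
      simp [DD, ht, hz]
    · simp [DD, h, Matrix.one_apply]
  have := (lie (GS G) E).smul_mem ((r : E)⁻¹) h1
  rwa [DD_smul, smul_smul, Rat.cast_natCast, inv_mul_cancel₀ (by exact_mod_cast hr.ne'),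
    one_smul] at this

/-- weight components -/
lemma DS.comp_mem {X : Matrix n n E} (hX : X ∈ lie (GS G) E) (m : M) :
    (Matrix.of fun i j => if wt i - wt j = m then X i j else 0) ∈ lie (GS G) E := by
  have hx : ∀ q : n × n, ∃ x : N, wt q.1 - wt q.2 ≠ m →
      P.toLinearMap m x ≠ P.toLinearMap (wt q.1 - wt q.2) x := fun q => by
    by_cases h : wt q.1 - wt q.2 = m
    · exact ⟨0, fun h' => absurd h h'⟩
    · by_contra hc
      push Not at hc
      exact h (pair_ext (P := P) fun x => (hc x).2.symm)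
  choose x hx using hx
  let φ : n × n → n → n → E := fun q i j =>
    ((hh P wt (x q) i - hh P wt (x q) j - P.toLinearMap (wt q.1 - wt q.2) (x q) : ℚ) : E) /
      ((P.toLinearMap m (x q) - P.toLinearMap (wt q.1 - wt q.2) (x q) : ℚ) : E)
  have key : ∀ s : Finset (n × n),
      (Matrix.of fun i j => (∏ q ∈ s, φ q i j) * X i j) ∈ lie (GS G) E := by
    intro s
    induction s using Finset.induction_on with
    | empty => simp only [prod_empty, one_mul]; exact hX
    | insert q s hq ih =>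
      have := (lie (GS G) E).smul_mem
        ((P.toLinearMap m (x q) - P.toLinearMap (wt q.1 - wt q.2) (x q) : ℚ) : E)⁻¹
        ((lie (GS G) E).sub_mem (lie.bracket (GS_one G) (GS_mul G) (D.DD_mem (x q)) ih)
          ((lie (GS G) E).smul_mem ((P.toLinearMap (wt q.1 - wt q.2) (x q) : ℚ) : E) ih))
      convert this using 1
      ext i j
      rw [Matrix.smul_apply, Matrix.sub_apply, DD_comm]
      simp only [Matrix.of_apply, prod_insert hq, φ, Matrix.smul_apply, smul_eq_mul]
      push_cast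
      ring
  convert key (univ.filter fun q => wt q.1 - wt q.2 ≠ m) using 1
  ext i j
  simp only [Matrix.of_apply]
  split_ifs with h
  · rw [prod_eq_one, one_mul]
    intro q hq
    have h1 := hx q (by simpa using hq)
    have h2 : hh P wt (x q) i - hh P wt (x q) j = P.toLinearMap m (x q) := by simp [hh, ← h]
    simp only [φ, h2]
    exact div_self (by exact_mod_cast sub_ne_zero.mpr h1)
  · rw [prod_eq_zero (i := (i, j)) (by simpa using h), zero_mul]
    simp [φ, hh]

variable [P.IsReduced]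

lemma DS.dim_one {i : ι} {e f : Matrix n n Ω} (he : e ∈ lie (GS G) Ω) (hf : f ∈ lie (GS G) Ω)
    (we : Wt wt (P.root i) e) (wf : Wt wt (-P.root i) f)
    (hef : e * f - f * e = DD P wt Ω (P.coroot i))
    {X : Matrix n n Ω} (hX : X ∈ lie (GS G) Ω) (wX : Wt wt (P.root i) X) : ∃ c : Ω, X = c • e := by
  have hsp : ∀ Y ∈ Submodule.span Ω (Set.range (DD P wt Ω)), ∃ c : Ω, Y * e - e * Y = c • e := by
    intro Y hY
    induction hY using Submodule.span_induction with
    | mem Y hY => obtain ⟨x, rfl⟩ := hY; exact ⟨_, wt_iff.mp we x⟩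
    | zero => exact ⟨0, by simp⟩
    | add Y Z _ _ h1 h2 =>
      obtain ⟨c, h1⟩ := h1
      obtain ⟨d, h2⟩ := h2
      exact ⟨c + d, by rw [add_smul, ← h1, ← h2]; noncomm_ring⟩
    | smul a Y _ h1 =>
      obtain ⟨c, h1⟩ := h1
      exact ⟨a * c, by rw [mul_smul, ← h1, smul_sub, Matrix.smul_mul, Matrix.mul_smul]⟩
  obtain ⟨c, hc⟩ := hsp _ (D.cent _ (lie.bracket (GS_one G) (GS_mul G) hX hf) (by
    have h1 := wX.mul wf
    have h2 := wf.mul wX
    rw [add_neg_cancel] at h1
    rw [neg_add_cancel] at h2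
    exact Sup.sub h1 h2))
  refine ⟨c / 2, ?_⟩
  have h0 : e * X - X * e = 0 := by
    by_contra h0
    have := IsAddTorsionFree.of_module_rat M
    refine P.nsmul_notMem_range_root (n := 2) (i := i) (D.roots _ ?_ _
      (lie.bracket (GS_one G) (GS_mul G) he hX) h0 ?_)
    · simpa using P.ne_zero i
    · rw [two_smul]; exact Sup.sub (we.mul wX) (wX.mul we)
  have h1 := (wt_iff (P := P)).mp wX (P.coroot i)
  rw [← hef, P.root_coroot_two] at h1
  have h2 : (2 : Ω) • X = c • e := by
    have e1 : (X * f - f * X) * e - e * (X * f - f * X) =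
        ((e * f - f * e) * X - X * (e * f - f * e)) + (f * (e * X - X * e) - (e * X - X * e) * f) := by
      noncomm_ring
    rw [← hc, e1, h0, h1]; simp
  rw [div_eq_inv_mul, mul_smul, ← h2, smul_smul]; simp

/-- a root vector spanning the root space over every extension -/
lemma DS.root_vec (i : ι) : ∃ e ∈ lie (GS G) Ω, ∃ f ∈ lie (GS G) Ω,
    Wt wt (P.root i) e ∧ Wt wt (-P.root i) f ∧ e * f - f * e = DD P wt Ω (P.coroot i) ∧
    ∀ (E : Type) [Field E] [Algebra Ω E], ∀ X ∈ lie (GS G) E, Wt wt (P.root i) X →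
      ∃ a : E, X = a • e.map (algebraMap Ω E) := by
  obtain ⟨-, e, he, f, hf, we, wf, hef⟩ := D.sl2 i
  refine ⟨e, he, f, hf, we, wf, hef, fun E _ _ X hX wX => ?_⟩
  have h0 : e ≠ 0 := by
    rintro rfl
    have : DD P wt Ω (P.coroot i) = DD P wt Ω 0 := by
      rw [← hef]; simp [DD, hh_zero]
    exact P.ne_zero' i (DD_inj D.span this)
  obtain ⟨k, l, hkl⟩ : ∃ k l, e k l ≠ 0 := by
    by_contra h; push Not at h; exact h0 (Matrix.ext h)
  refine ⟨X k l / algebraMap Ω E (e k l), ?_⟩
  ext a b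
  have h1 : algebraMap Ω E (e k l) ≠ 0 := by simpa using hkl
  rw [Matrix.smul_apply, Matrix.map_apply, smul_eq_mul, div_mul_eq_mul_div, eq_div_iff h1,
    ← sub_eq_zero]
  refine dual_sep (Ω := Ω) fun φ => ?_
  obtain ⟨c, hc⟩ := D.dim_one he hf we wf hef (lie.map hX φ) (Sup.map wX φ)
  have h2 : ∀ a b, φ (X a b) = c * e a b := fun a b => congrFun (congrFun hc a) b
  rw [map_sub, mul_comm (X a b), mul_comm (X k l), ← Algebra.smul_def, ← Algebra.smul_def,
    map_smul, map_smul, h2, h2]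
  simp; ring

omit [P.IsReduced] [CharZero Ω] [CharZero E] in
lemma DS.roots' {m : M} (hm : m ≠ 0) {X : Matrix n n E} (hX : X ∈ lie (GS G) E) (h0 : X ≠ 0)
    (wX : Wt wt m X) : m ∈ Set.range P.root := by
  by_contra h
  refine h0 (Matrix.ext fun a b => dual_sep (Ω := Ω) fun φ => ?_)
  by_contra h1
  refine h (D.roots m hm _ (lie.map hX φ) (fun h2 => h1 ?_) (Sup.map wX φ))
  exact congrFun (congrFun h2 a) b

lemma DS.ex_mem {i : ι} {X : Matrix n n E} (hX : X ∈ lie (GS G) E) (wX : Wt wt (P.root i) X) :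
    ex X ∈ GE G E := by
  obtain ⟨e, he, f, -, we, -, -, h⟩ := D.root_vec i
  obtain ⟨a, rfl⟩ := h E X hX wX
  change (ex _).val ∈ Cl _ _
  rw [ex_val wX.nil]
  exact xp_mem (GS_one G) (GS_mul G) we.nil he a

end Pool.Agent.P.MP_7d29e8_ag
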