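import Pool.Agent.P.MP_7d29e8_ag.HKap

set_option autoImplicit false

/-! Transfer of the invariants along inner twists. -/

namespace Pool.Agent.P.MP_7d29e8_ag

open Finset SemidirectProduct
open scoped Classical

lemma unip_of_path {Ω : Type} [Field Ω] {n : Type} [Fintype n] [DecidableEq n] {w : Matrix n n Ω}
    (V : n → n → Polynomial Ω) (h : ∀ (j : ℕ) i l, (w ^ j) i l = (V i l).eval (j : Ω)) :
    IsNilpotent (w - 1) := by
  obtain ⟨d, hd⟩ := (Set.finite_range fun q : n × n => (V q.1 q.2).natDegree).bddAbove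
  refine ⟨d + 1, Matrix.ext fun i l => ?_⟩
  have h1 := congrFun (Polynomial.fwdDiff_iter_eq_zero_of_degree_lt (P := V i l) (n := d + 1)
    (Nat.lt_succ_of_le (hd ⟨(i, l), rfl⟩))) 0
  rw [fwdDiff_iter_eq_sum_shift] at h1
  rw [sub_eq_add_neg, (Commute.one_right w).neg_right.add_pow, Matrix.sum_apply]
  refine (sum_congr rfl fun k _ => ?_).trans h1
  have e : w ^ k * (-1) ^ (d + 1 - k) * ((d + 1).choose k : Matrix n n Ω) =
      ((-1 : ℤ) ^ (d + 1 - k) * (d + 1).choose k) • w ^ k := by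
    rw [zsmul_eq_mul', mul_assoc]; push_cast; rfl
  rw [e, Matrix.smul_apply, h]
  simp

variable {p : ℕ} [Fact p.Prime] {O K Ω : Type} [CommRing O] [Field K] [Field Ω] [Algebra O K]
  [Algebra K Ω] [IsAlgClosure K Ω] [CharZero K] [CharZero Ω] {σ : K ≃+* K}
  {n n' : Type} [Fintype n] [DecidableEq n] [Fintype n']
  [DecidableEq n'] {ι M N : Type} [AddCommGroup M] [Module ℚ M] [AddCommGroup N] [Module ℚ N]
  {P : RootPairing ι ℚ M N} {wt : n → M} {wt' : n' → M} {G : Subgroup (GL n Ω)}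
  {G' : Subgroup (GL n' Ω)} {y : GL n Ω} {y' : GL n' Ω} {s : Ω ≃+* Ω}
  {v : Ω → ℚ} {hv : Val v} {pw : ℚ → Ωˣ}

lemma fix_iff {x z : N} {r : ℕ} (hr : 0 < r) (hx : (r : ℚ) • x ∈ lat P wt)
    (hz : (r : ℚ) • z ∈ lat P wt) (φ : SL n Ω) : ac φ (dd P y wt x) = dd P y wt z ↔
      acu φ (cou P y wt ((r : ℚ) • x) (Units.mk0 2 two_ne_zero)) =
        cou P y wt ((r : ℚ) • z) (Units.mk0 2 two_ne_zero) := by
  have key : ∀ h h' : n → ℚ, ac φ (ac (inl y) (Matrix.diagonal fun i => (h i : Ω))) =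
      ac (inl y) (Matrix.diagonal fun i => (h' i : Ω)) ↔
      ∀ i j, (Yc y φ).left.val i j ≠ 0 → h' i = h j := fun h h' => by
    rw [← ac_Yc_iff]
    refine ⟨fun H i j => (ac_entry H i j).1, fun H => ?_⟩
    rw [ac_diag, Units.mul_inv_eq_iff_eq_mul]
    ext i j
    rw [Matrix.mul_diagonal, Matrix.diagonal_mul, mul_comm]
    by_cases h0 : (Yc y φ).left.val i j = 0
    · rw [h0, mul_zero, mul_zero]
    · rw [H i j h0]
  have e : ∀ x, (cou P y wt x (Units.mk0 2 two_ne_zero)).val =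
      ac (inl y) (Matrix.diagonal fun i => (((2 : ℚ) ^ ⌊hh P wt x i⌋ : ℚ) : Ω)) := fun x => by
    simp [cou]
  rw [Units.ext_iff, acu_val, e, e, key]
  refine (key _ _).trans (forall₂_congr fun i j => imp_congr_right fun _ => ?_)
  obtain ⟨a, ha⟩ := mem_lat.mp hz i
  obtain ⟨c, hc⟩ := mem_lat.mp hx j
  change hh P wt z i = hh P wt x j ↔ _
  rw [zpow_right_inj₀ two_pos (by norm_num), ha, hc, Int.floor_intCast, Int.floor_intCast,
    ← Int.cast_inj (α := ℚ), ← ha, ← hc, hh_smul, hh_smul, mul_right_inj' (by positivity)]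

/-- the point `x(p)` -/
noncomputable def pwc (P : RootPairing ι ℚ M N) (y : GL n Ω) (wt : n → M)
    (pw : ℚ → Ωˣ) (x : N) : GL n Ω := acu (inl y) (dU fun i => pw (hh P wt x i))

lemma pwc_eq (hpw : Pw v pw) {x : N} {r : ℕ} (hr : 0 < r) (hx : (r : ℚ) • x ∈ lat P wt) :
    pwc P y wt pw x = cou P y wt ((r : ℚ) • x) (pw (r : ℚ)⁻¹) := by
  rw [pwc, cou]
  congr 2
  funext i
  obtain ⟨a, ha⟩ := mem_lat.mp hx i
  rw [pw_zpow hpw, ha, Int.floor_intCast, ← ha, hh_smul, mul_comm, inv_mul_cancel_left₀]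
  positivity

lemma pwc_add (hpw : Pw v pw) (x z : N) :
    pwc P y wt pw (x + z) = pwc P y wt pw x * pwc P y wt pw z := by
  rw [pwc, pwc, pwc, ← map_mul, ← map_mul]
  congr 2
  funext i
  rw [hh_add, hpw.add, Pi.mul_apply]

/-- the Newton condition relative to the Frobenius `φ` -/
structure Nt (K : Type) [Field K] [Algebra K Ω] (hv : Val v) (pw : ℚ → Ωˣ) (P : RootPairing ι ℚ M N) (y : GL n Ω)
    (wt : n → M) (φ : SL n Ω) (g k : GL n Ω) (ν : N) : Prop where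
  rt : Rt K g
  fx : ∀ τ : Ω ≃ₐ[K] Ω, ac (inr (τ : Ω ≃+* Ω)) (ac (inl k) (dd P y wt ν)) =
    ac (inl k) (dd P y wt ν)
  cm : ac (inl g * φ) (ac (inl k) (dd P y wt ν)) = ac (inl k) (dd P y wt ν)
  bd : (fun j : ℕ => (k * pwc P y wt pw ((j : ℚ) • ν))⁻¹ * PP φ g j) ∈ Bdd hv

lemma np_iff {g k : GL n Ω} {ν : N} : NP hv pw (inl g * inr s) (k * y) (hh P wt ν) ↔
    (fun j : ℕ => (k * pwc P y wt pw ((j : ℚ) • ν))⁻¹ * PP (inr s) g j) ∈ Bdd hv := by
  rw [NP, ← (Bdd hv).mul_mem_cancel_left (Bdd.const y)]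
  refine iff_of_eq (congrArg (· ∈ Bdd hv) (funext fun j => ?_))
  simp only [Pi.mul_apply, PP_spec, pwc, acu_inl, hh_smul, ← map_pow, mul_left, left_inl,
    left_inr, map_one, mul_one]
  group

lemma Nt.twist (hpw : Pw v pw) (tor : ∀ x ∈ lat P wt, ∀ t, cou P y wt x t ∈ G)
    {φ : SL n Ω} (hφ : ∀ g ∈ G, acu φ g ∈ G) {β : GL n Ω} (hβ : β ∈ G) {νβ : N}
    (H : Nt K hv pw P y wt φ β 1 νβ)
    (hc : ∀ g ∈ G, ac (inl g) (dd P y wt νβ) = dd P y wt νβ) {g k : GL n Ω} (hg : g ∈ G)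
    (hk : k ∈ G) {ν : N} :
    Nt K hv pw P y wt φ g k ν ↔ Nt K hv pw P y wt (inl β * φ) (g * β⁻¹) k (ν - νβ) := by
  obtain ⟨h1, h2, h3, h4⟩ := H
  simp only [map_one, ac_one, one_mul] at h2 h3 h4
  have e1 : ac (inl k) (dd P y wt (ν - νβ)) = ac (inl k) (dd P y wt ν) - dd P y wt νβ := by
    rw [← hc k hk, ← map_sub, dd_eq, dd_eq, dd_eq, ← map_sub, sub_eq_add_neg, DD_add, DD_neg,
      sub_eq_add_neg]
  have e2 : (inl (g * β⁻¹) * (inl β * φ) : SL n Ω) = inl g * φ := by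
    rw [← mul_assoc, ← map_mul, inv_mul_cancel_right]
  have e3 : ac (inl g * φ) (dd P y wt νβ) = dd P y wt νβ := by
    rw [← e2, ac_mul, h3, hc _ (mul_mem hg (inv_mem hβ))]
  have hP : ∀ g ∈ G, ∀ j, PP φ g j ∈ G := fun g hg j => by
    induction j with
    | zero => exact one_mem _
    | succ j ih => exact mul_mem hg (hφ _ ih)
  have hw : ∀ x, pwc P y wt pw x ∈ G := fun x => by
    obtain ⟨r, hr, hx⟩ := exists_lat (P := P) (wt := wt) x
    rw [pwc_eq hpw hr hx]; exact tor _ hx _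
  have e4 : ∀ j : ℕ, (k * pwc P y wt pw ((j : ℚ) • (ν - νβ)))⁻¹ * PP (inl β * φ) (g * β⁻¹) j =
      ((k * pwc P y wt pw ((j : ℚ) • ν))⁻¹ * PP φ g j) *
        ((pwc P y wt pw ((j : ℚ) • νβ))⁻¹ * PP φ β j)⁻¹ := fun j => by
    have a1 : PP (inl β * φ) (g * β⁻¹) j = PP φ g j * (PP φ β j)⁻¹ := by
      have := PP_spec (inl β * φ) (g * β⁻¹) j
      rw [e2, PP_spec, PP_spec, ← mul_assoc, mul_left_inj, ← map_mul] at this
      rw [inl_injective this, mul_inv_cancel_right]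
    have a2 : pwc P y wt pw ((j : ℚ) • ν) =
        pwc P y wt pw ((j : ℚ) • (ν - νβ)) * pwc P y wt pw ((j : ℚ) • νβ) := by
      rw [← pwc_add hpw, ← smul_add, sub_add_cancel]
    have a3 : ∀ c ∈ G, c * pwc P y wt pw ((j : ℚ) • νβ) = pwc P y wt pw ((j : ℚ) • νβ) * c :=
      fun c hc' => by
        have := congrArg (acu (inl y)) (left_comm_pw (φ := Yc y (inl c)) (h := hh P wt νβ)
          (ac_Yc_iff.mpr (hc c hc')) fun q => pw (j * q))
        simpa only [Yc_inl, left_inl, map_mul, acu_acu_inv, pwc, hh_smul] using this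
    have a4 := a3 _ (mul_mem (inv_mem (mul_mem hk (hw ((j : ℚ) • (ν - νβ)))))
      (mul_mem (hP g hg j) (inv_mem (hP β hβ j))))
    rw [a1, a2]
    generalize pwc P y wt pw ((j : ℚ) • (ν - νβ)) = A at *
    generalize pwc P y wt pw ((j : ℚ) • νβ) = B at *
    rw [show ((k * (A * B))⁻¹ * PP φ g j) * (B⁻¹ * PP φ β j)⁻¹ =
      B⁻¹ * ((k * A)⁻¹ * (PP φ g j * (PP φ β j)⁻¹) * B) by group, a4, inv_mul_cancel_left]
  have e5 : (fun j : ℕ => (k * pwc P y wt pw ((j : ℚ) • (ν - νβ)))⁻¹ *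
      PP (inl β * φ) (g * β⁻¹) j) ∈ Bdd hv ↔
      (fun j : ℕ => (k * pwc P y wt pw ((j : ℚ) • ν))⁻¹ * PP φ g j) ∈ Bdd hv := by
    rw [funext e4]
    exact (Bdd hv).mul_mem_cancel_right (inv_mem h4)
  constructor
  · rintro ⟨b1, b2, b3, b4⟩
    exact ⟨b1.mul h1.inv, fun τ => by rw [e1, map_sub, b2, h2], by rw [e2, e1, map_sub, b3, e3],
      e5.mpr b4⟩
  · rintro ⟨b1, b2, b3, b4⟩
    refine ⟨by simpa using b1.mul h1, fun τ => ?_, ?_, e5.mp b4⟩
    · have := b2 τ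
      rwa [e1, map_sub, h2, sub_left_inj] at this
    · rwa [e2, e1, map_sub, e3, sub_left_inj] at b3

/-- the graph of an isomorphism compatible with all the structures -/
structure TD (K : Type) [Field K] [Algebra K Ω] (P : RootPairing ι ℚ M N) (G : Subgroup (GL n Ω)) (G' : Subgroup (GL n' Ω))
    (y : GL n Ω) (y' : GL n' Ω) (wt : n → M) (wt' : n' → M) (φ : SL n Ω)
    (φ' : SL n' Ω) (R : GL n Ω → GL n' Ω → Prop) : Prop where
  one : R 1 1
  mul : ∀ {a a' c c'}, R a a' → R c c' → R (a * c) (a' * c')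
  inv : ∀ {a a'}, R a a' → R a⁻¹ a'⁻¹
  tot : ∀ a ∈ G, ∃ a' ∈ G', R a a'
  tot' : ∀ a' ∈ G', ∃ a ∈ G, R a a'
  lat : lat P wt' = lat P wt
  co : ∀ x ∈ MP_7d29e8_ag.lat P wt, ∀ t, R (cou P y wt x t) (cou P y' wt' x t)
  gal : ∀ (τ : Ω ≃ₐ[K] Ω) {a a'}, R a a' →
    R (acu (inr (τ : Ω ≃+* Ω)) a) (acu (inr (τ : Ω ≃+* Ω)) a')
  fr : ∀ {a a'}, R a a' → R (acu φ a) (acu φ' a')
  pol : ∀ i j, ∃ f : MvPolynomial ((n × n) ⊕ (n × n)) K, ∀ a a', R a a' → a'.val i j =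
    MvPolynomial.aeval (Sum.elim (fun q : n × n => a.val q.1 q.2)
      (fun q : n × n => (a⁻¹).val q.1 q.2)) f
  pol' : ∀ i j, ∃ f : MvPolynomial ((n' × n') ⊕ (n' × n')) K, ∀ a' a, R a a' → a.val i j =
    MvPolynomial.aeval (Sum.elim (fun q : n' × n' => a'.val q.1 q.2)
      (fun q : n' × n' => (a'⁻¹).val q.1 q.2)) f

variable {φ : SL n Ω} {φ' : SL n' Ω} {R : GL n Ω → GL n' Ω → Prop}
  (T : TD K P G G' y y' wt wt' φ φ' R)
include T

lemma TD.symm : TD K P G' G y' y wt' wt φ' φ fun a' a => R a a' :=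
  ⟨T.one, T.mul, T.inv, T.tot', T.tot, T.lat.symm, fun x hx => T.co x (T.lat ▸ hx),
    fun τ _ _ h => T.gal τ h, T.fr, T.pol', T.pol⟩

lemma TD.fn {a : GL n Ω} {a' c' : GL n' Ω} (h : R a a') (h' : R a c') : a' = c' :=
  Units.ext (Matrix.ext fun i j => let ⟨_, hf⟩ := T.pol i j; (hf _ _ h).trans (hf _ _ h').symm)

lemma TD.pow {a : GL n Ω} {a' : GL n' Ω} (h : R a a') (j : ℕ) : R (a ^ j) (a' ^ j) := by
  induction j with
  | zero => exact T.one
  | succ j ih => rw [pow_succ, pow_succ]; exact T.mul ih h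

lemma TD.rt {a : GL n Ω} {a' : GL n' Ω} (h : R a a') (r : Rt K a) : Rt K a' := fun τ =>
  T.fn (r τ ▸ T.gal τ h) h

lemma TD.fix' {χ : SL n Ω} {χ' : SL n' Ω}
    (hχ : ∀ {a a'}, R a a' → R (acu χ a) (acu χ' a')) {x z : N}
    (h : ac χ (dd P y wt x) = dd P y wt z) : ac χ' (dd P y' wt' x) = dd P y' wt' z := by
  obtain ⟨r, hr, hx⟩ := exists_lat (P := P) (wt := wt) x
  obtain ⟨r', hr', hz⟩ := exists_lat (P := P) (wt := wt) z
  have hx' := nsmul_mem hx r'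
  have hz' := nsmul_mem hz r
  rw [← Nat.cast_smul_eq_nsmul ℚ, smul_smul, ← Nat.cast_mul] at hx' hz'
  rw [mul_comm] at hx'
  rw [fix_iff (Nat.mul_pos hr hr') hx' hz'] at h
  rw [fix_iff (Nat.mul_pos hr hr') (T.lat ▸ hx') (T.lat ▸ hz')]
  exact T.fn (h ▸ hχ (T.co _ hx' _)) (T.co _ hz' _)

lemma TD.fix {χ : SL n Ω} {χ' : SL n' Ω}
    (hχ : ∀ {a a'}, R a a' → R (acu χ a) (acu χ' a')) {k : GL n Ω} {k' : GL n' Ω}
    (hk : R k k') {x : N} (h : ac χ (ac (inl k) (dd P y wt x)) = ac (inl k) (dd P y wt x)) :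
    ac χ' (ac (inl k') (dd P y' wt' x)) = ac (inl k') (dd P y' wt' x) := by
  refine ac_Yc_iff.mp (T.fix' (fun h => ?_) (ac_Yc_iff.mpr h))
  simp only [Yc, acu_mul, ← map_inv, acu_inl]
  exact T.mul (T.mul (T.inv hk) (hχ (T.mul (T.mul hk h) (T.inv hk)))) (T.inv (T.inv hk))

lemma TD.act {b : P.Base} {θ : Ω ≃+* Ω} {g : GL n Ω} {g' : GL n' Ω}
    (hχ : ∀ {a a'}, R a a' → R (acu (inl g * inr θ) a) (acu (inl g' * inr θ) a')) {a : P.Aut}
    (h : Act P b y wt g θ a) : Act P b y' wt' g' θ a := ⟨h.1, fun x => by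
  have := T.fix' hχ (x := x) (z := a.coweightMap x) (by
    rw [ac_mul, ac_inr, ac_inl, h.2, Units.mul_inv_cancel_right])
  rwa [ac_mul, ac_inr, ac_inl, Units.mul_inv_eq_iff_eq_mul] at this⟩

lemma TD.bdd {c : ℕ → GL n Ω} {c' : ℕ → GL n' Ω} (h : ∀ j, R (c j) (c' j))
    (hc : c ∈ Bdd hv) : c' ∈ Bdd hv := by
  have key : ∀ {c : ℕ → GL n Ω} {c' : ℕ → GL n' Ω}, (∀ j, R (c j) (c' j)) →
      c ∈ Bdd hv → MB hv fun j => (c' j).val := fun h hc i l => by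
    obtain ⟨f, hf⟩ := T.pol i l
    rw [funext fun j => hf _ _ (h j)]
    exact BS.aeval (by rintro (q | q); exacts [hc.1 _ _, hc.2 _ _]) f
  exact ⟨key h hc, key (fun j => T.inv (h j)) (inv_mem hc)⟩

theorem TD.nt (hpw : Pw v pw) {g k : GL n Ω} {g' k' : GL n' Ω} (hg : R g g')
    (hk : R k k') {ν : N} (H : Nt K hv pw P y wt φ g k ν) : Nt K hv pw P y' wt' φ' g' k' ν := by
  refine ⟨T.rt hg H.rt, fun τ => T.fix (T.gal τ) hk (H.fx τ), T.fix (fun h => ?_) hk H.cm,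
    T.bdd (fun j => T.mul (T.inv (T.mul hk ?_)) ?_) H.bd⟩
  · rw [acu_mul, acu_mul, acu_inl, acu_inl]
    exact T.mul (T.mul hg (T.fr h)) (T.inv hg)
  · obtain ⟨r, hr, hx⟩ := exists_lat (P := P) (wt := wt) ((j : ℚ) • ν)
    rw [pwc_eq hpw hr hx, pwc_eq hpw hr (T.lat ▸ hx)]
    exact T.co _ hx _
  · induction j with
    | zero => exact T.one
    | succ j ih => exact T.mul hg (T.fr ih)

lemma TD.unip {u : GL n Ω} {u' : GL n' Ω} (h : R u u') (hu : IsNilpotent (u.val - 1)) :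
    IsNilpotent (u'.val - 1) := by
  obtain ⟨U, hU⟩ := exists_path hu
  obtain ⟨W, hW⟩ := exists_path (unip_inv' hu)
  choose f hf using T.pol
  refine unip_of_path (fun i l => MvPolynomial.aeval (Sum.elim (fun q : n × n => U q.1 q.2)
    fun q : n × n => W q.1 q.2) (f i l)) fun j i l => ?_
  rw [← Units.val_pow_eq_pow_val, hf i l _ _ (T.pow h j)]
  have := MvPolynomial.comp_aeval_apply (Sum.elim (fun q : n × n => U q.1 q.2)
    fun q : n × n => W q.1 q.2) ((Polynomial.aeval (j : Ω)).restrictScalars K) (f i l)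
  simp only [AlgHom.restrictScalars_apply, Polynomial.coe_aeval_eq_eval] at this
  rw [this]
  congr 2
  funext q
  rcases q with q | q
  · simpa using (congrFun (congrFun (hU j) q.1) q.2).symm
  · simpa [← inv_pow] using (congrFun (congrFun (hW j) q.1) q.2).symm

lemma TD.trans {x : N} {ρ τ : Ω ≃ₐ[K] Ω}
    (h : (dd P y wt x).map ρ = (dd P y wt x).map τ) :
    (dd P y' wt' x).map ρ = (dd P y' wt' x).map τ := by
  have := T.fix (T.gal (τ⁻¹ * ρ)) T.one (x := x) (by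
    rw [map_one, ac_one, ac_inr]
    refine Matrix.map_injective τ.injective (Eq.trans ?_ h)
    ext; simp)
  rw [map_one, ac_one, ac_inr] at this
  conv_rhs => rw [← this]
  ext; simp

theorem TD.kap {g : GL n Ω} {z : N} (h : Kap O K P p G y wt g z) :
    ∃ g', R g g' ∧ Kap O K P p G' y' wt' g' z := by
  induction h with
  | unip u u₀ h1 h2 h3 =>
    obtain ⟨u', a1, a2⟩ := T.tot u h1
    exact ⟨u', a2, Kap.unip' a1 (T.rt a2 (rt_of_map h2)) (T.unip a2 (h2 ▸ nil_map.mpr h3))⟩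
  | norm g x e l r u h1 h2 h3 h4 h5 h6 =>
    refine ⟨_, ?_, Kap.norm _ x e l r u (T.lat ▸ h1) h2 h3 (fun τ => ?_) h5
      ((norm_eq h2).mpr rfl)⟩
    · rw [(norm_eq h2).mp h6]
      clear h3 h4 h5 h6
      induction l with
      | nil => exact T.one
      | cons ρ l ih => exact T.mul (T.gal ρ (T.co x h1 _)) ih
    · exact (existsUnique_congr fun ρ => and_congr_right fun _ => and_congr_right fun _ =>
        ⟨T.trans, T.symm.trans⟩).mp (h4 τ)
  | mul g h x z _ _ h1 h2 =>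
    obtain ⟨g', a1, a2⟩ := h1
    obtain ⟨h', b1, b2⟩ := h2
    exact ⟨_, T.mul a1 b1, Kap.mul _ _ _ _ a2 b2⟩

lemma TD.kap' {g : GL n Ω} {g' : GL n' Ω} (hg : R g g') {z : N}
    (h : Kap O K P p G y wt g z) : Kap O K P p G' y' wt' g' z :=
  let ⟨_, h1, h2⟩ := T.kap h; T.fn h1 hg ▸ h2

end Pool.Agent.P.MP_7d29e8_ag
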