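import Pool.Agent.P.MP_7d29e8_ag.HRoot

set_option autoImplicit false

/-! Unipotent radicals are generated by root groups. -/

namespace Pool.Agent.P.MP_7d29e8_ag

open Finset
open scoped Classical

variable {Ω : Type} [Field Ω] [CharZero Ω] {n : Type} [Fintype n] [DecidableEq n]
  {ι M N : Type} [AddCommGroup M] [Module ℚ M] [AddCommGroup N] [Module ℚ N]
  {P : RootPairing ι ℚ M N} {wt : n → M} {E : Type} [Field E] [CharZero E] [Algebra Ω E]

/-- root groups -/
def RG (G : Subgroup (GL n Ω)) (P : RootPairing ι ℚ M N) (wt : n → M) (E : Type) [Field E]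
    [CharZero E] [Algebra Ω E] (i : ι) : Set (GL n E) :=
  {g | ∃ X ∈ lie (GS G) E, Wt wt (P.root i) X ∧ g = ex X}

/-- the unipotent radical of the parabolic subgroup attached to a grading -/
def UU (G : Subgroup (GL n Ω)) (E : Type) [Field E] [Algebra Ω E] (h : n → ℚ) :
    Subgroup (GL n E) where
  carrier := {g | g ∈ GE G E ∧ Pos h (g.val - 1)}
  mul_mem' ha hb := ⟨(GE G E).mul_mem ha.1 hb.1, ha.2.unip_mul hb.2⟩
  one_mem' := ⟨(GE G E).one_mem, by simpa using Sup.zero⟩
  inv_mem' {g} hg := ⟨(GE G E).inv_mem hg.1, by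
    rw [Matrix.coe_units_inv]; exact hg.2.unip_inv.2⟩

variable {G : Subgroup (GL n Ω)} (D : DS G P wt)
include D

lemma DS.decomp [Fintype ι] {X : Matrix n n E} (hX : X ∈ lie (GS G) E) :
    ∃ (X₀ : Matrix n n E) (Y : ι → Matrix n n E), X₀ ∈ lie (GS G) E ∧ Wt wt 0 X₀ ∧
      (∀ i, Y i ∈ lie (GS G) E ∧ Wt wt (P.root i) (Y i)) ∧ X = X₀ + ∑ i, Y i ∧
      ∀ p, Sup p X → Sup p X₀ ∧ ∀ i, Sup p (Y i) := by
  have hw : ∀ m, Wt wt m (Matrix.of fun i j => if wt i - wt j = m then X i j else 0) :=
    fun m i j h => by simp [h]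
  have hs : ∀ m p, Sup p X → Sup p (Matrix.of fun i j => if wt i - wt j = m then X i j else 0) :=
    fun m p hp i j h => by simp [hp i j h]
  refine ⟨_, fun i => _, D.comp_mem hX 0, hw 0, fun i => ⟨D.comp_mem hX (P.root i), hw _⟩, ?_,
    fun p hp => ⟨hs _ p hp, fun i => hs _ p hp⟩⟩
  ext a b
  simp only [Matrix.add_apply, Matrix.sum_apply, Matrix.of_apply]
  by_cases h0 : X a b = 0
  · simp [h0]
  by_cases h1 : wt a - wt b = 0
  · rw [if_pos h1, sum_eq_zero, add_zero]
    intro i _
    rw [if_neg]
    rw [h1]; exact (P.ne_zero i).symm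
  · obtain ⟨i, hi⟩ := D.roots' h1 (D.comp_mem hX _) (fun h => h0 (by
      simpa using congrFun (congrFun h a) b)) (hw _)
    rw [if_neg h1, zero_add, sum_eq_single i, if_pos hi.symm]
    · intro j _ hj
      rw [if_neg]
      rw [← hi]; exact fun h => hj (P.root.injective h).symm
    · simp

lemma DS.lead {x : N} (hx : x ∈ lat P wt) {g : GL n E} (hg : g ∈ GE G E) {d : ℕ} (hd : 0 < d)
    (hl : Sup (fun i j => ⌊hh P wt x j⌋ + d ≤ ⌊hh P wt x i⌋) (g.val - 1)) :
    (Matrix.of fun i j => if ⌊hh P wt x i⌋ = ⌊hh P wt x j⌋ + d then (g.val - 1) i j else 0) ∈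
      lie (GS G) E := by
  set k : n → ℤ := fun i => ⌊hh P wt x i⌋ with hk
  let Y : Matrix n n (Polynomial E) := Matrix.of fun i j =>
    Polynomial.C ((g.val - 1) i j) * Polynomial.X ^ (k i - k j).toNat
  have h1 : 1 + Y ∈ Cl (GS G) (Polynomial E) := by
    refine Cl.poly (Set.finite_singleton (0 : E)).infinite_compl fun t ht => ?_
    have h2 := (GE G E).mul_mem ((GE G E).mul_mem (D.co_mem hx (Units.mk0 t ht)) hg)
      ((GE G E).inv_mem (D.co_mem hx (Units.mk0 t ht)))
    change _ ∈ Cl _ _ at h2
    convert h2 using 1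
    ext i j
    rw [← map_inv, Units.val_mul, Units.val_mul, dU_val, dU_val, Matrix.mul_diagonal,
      Matrix.diagonal_mul]
    have ht' : t ≠ 0 := ht
    simp only [Matrix.map_apply, Matrix.add_apply, Y, Matrix.of_apply, Polynomial.eval_add,
      Polynomial.eval_mul, Polynomial.eval_C, Polynomial.eval_pow, Polynomial.eval_X,
      Pi.inv_apply, Units.val_inv_eq_inv_val, Units.val_zpow_eq_zpow_val, Units.val_mk0]
    by_cases hij : i = j
    · subst hij
      have := zpow_ne_zero (k i) ht'
      simp only [Matrix.one_apply_eq, Polynomial.eval_one, Matrix.sub_apply, sub_self,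
        Int.toNat_zero, pow_zero, mul_one]
      field_simp
      ring
    · rw [Matrix.one_apply_ne hij, Matrix.sub_apply, Matrix.one_apply_ne hij, sub_zero]
      by_cases h3 : k j + d ≤ k i
      · rw [← zpow_natCast, Int.toNat_of_nonneg (by omega), zpow_sub₀ ht']
        simp only [Polynomial.eval_zero, hk]; ring
      · have := hl i j h3
        rw [Matrix.sub_apply, Matrix.one_apply_ne hij, sub_zero] at this
        simp [this]
  intro f hf
  have h2 := dOne_mem_sq (GS_one G) (J := Ideal.span {Polynomial.X ^ d}) (Y := Y) (fun i j => by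
    by_cases h3 : k j + d ≤ k i
    · exact Ideal.mem_span_singleton.mpr (Dvd.dvd.mul_left (pow_dvd_pow _ (by omega)) _)
    · simp only [Y, Matrix.of_apply, hl i j h3, map_zero, zero_mul]; exact zero_mem _) h1 f hf
  rw [Ideal.span_singleton_pow, Ideal.mem_span_singleton, ← pow_mul, Polynomial.X_pow_dvd_iff] at h2
  have h3 := dOne_map f Y ((Polynomial.lcoeff E d).restrictScalars Ω)
  rw [LinearMap.restrictScalars_apply, Polynomial.lcoeff_apply, h2 d (by omega)] at h3
  refine Eq.trans ?_ h3
  congr 1
  ext i j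
  simp only [Matrix.of_apply, Matrix.map_apply, Y, LinearMap.restrictScalars_apply,
    Polynomial.lcoeff_apply, Polynomial.coeff_C_mul, Polynomial.coeff_X_pow]
  by_cases h4 : k i = k j + d
  · rw [if_pos h4, if_pos (by omega), mul_one]
  · rw [if_neg h4, if_neg (by omega), mul_zero]

variable [P.IsReduced]

lemma DS.RG_sub {i : ι} : RG G P wt E i ⊆ GE G E := by
  rintro _ ⟨X, hX, wX, rfl⟩; exact D.ex_mem hX wX

lemma DS.RG_UU {i : ι} {x : N} (hx : 0 < P.root' i x) : RG G P wt E i ⊆ UU G E (hh P wt x) := by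
  rintro _ ⟨X, hX, wX, rfl⟩; exact ⟨D.ex_mem hX wX, ex_pos (wX.pos hx)⟩

theorem DS.ugen [Finite ι] (x : N) {g : GL n E} (hg : g ∈ UU G E (hh P wt x)) :
    g ∈ Submonoid.closure {r | ∃ i, 0 < P.root' i x ∧ r ∈ RG G P wt E i} := by
  letI := Fintype.ofFinite ι
  obtain ⟨r, hr, hx⟩ := exists_lat (P := P) (wt := wt) x
  have hr' : (0 : ℚ) < r := by exact_mod_cast hr
  set k : n → ℤ := fun i => ⌊hh P wt ((r : ℚ) • x) i⌋ with hk
  have hkq : ∀ i, (k i : ℚ) = r * hh P wt x i := fun i => by
    obtain ⟨z, hz⟩ := mem_lat.mp hx i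
    rw [← hh_smul, hk]; simp [hz]
  set C := Submonoid.closure {r | ∃ i, 0 < P.root' i x ∧ r ∈ RG G P wt E i} with hC
  obtain ⟨B, hB⟩ : ∃ B : ℕ, ∀ i j, k i < k j + B := by
    refine ⟨∑ q : n × n, (k q.1 - k q.2).toNat + 1, fun i j => ?_⟩
    have := single_le_sum (f := fun q : n × n => (k q.1 - k q.2).toNat)
      (fun _ _ => Nat.zero_le _) (mem_univ (i, j))
    simp only at this
    omega
  have key : ∀ m : ℕ, ∀ g ∈ GE G E, Sup (fun i j => k j + 1 ≤ k i) (g.val - 1) →
      Sup (fun i j => k j + (B - m) ≤ k i) (g.val - 1) → g ∈ C := by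
    intro m
    induction m with
    | zero =>
      intro g _ _ h2
      have : g = 1 := Units.ext (sub_eq_zero.mp (Matrix.ext fun i j => h2 i j (by
        have := hB i j; omega)))
      rw [this]; exact C.one_mem
    | succ m ih =>
      intro g hg h1 h2
      by_cases hm : (B : ℤ) - m ≤ 1
      · exact ih g hg h1 (h1.mono fun i j h => by omega)
      obtain ⟨d, hd⟩ : ∃ d : ℕ, (d : ℤ) = B - (m + 1 : ℕ) := ⟨B - (m + 1), by omega⟩
      have hd0 : 0 < d := by omega
      rw [← hd] at h2
      obtain ⟨X₀, Y, -, w0, hY, hsum, hs⟩ := D.decomp (D.lead hx hg hd0 h2)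
      obtain ⟨s0, sY⟩ := hs (fun i j => k i = k j + d) fun i j h => if_neg h
      have hX0 : X₀ = 0 := Matrix.ext fun i j => by
        by_cases h : wt i - wt j = 0
        · refine s0 i j ?_
          have : k i = k j := by simp only [hk, hh, sub_eq_zero.mp h]
          omega
        · exact w0 i j h
      have hYC : ∀ i, ex (Y i) ∈ C := fun i => by
        by_cases h0 : Y i = 0
        · rw [h0, ex_zero]; exact C.one_mem
        refine Submonoid.subset_closure ⟨i, ?_, _, (hY i).1, (hY i).2, rfl⟩
        by_contra hneg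
        refine h0 (Matrix.ext fun a b => ?_)
        by_cases h : hh P wt x a - hh P wt x b = P.toLinearMap (P.root i) x
        · refine sY i a b fun h' => hneg ?_
          change 0 < P.toLinearMap (P.root i) x
          have h3 : (k b : ℚ) < k a := by exact_mod_cast (by omega : k b < k a)
          rw [hkq, hkq] at h3
          rw [← h]; nlinarith
        · exact (hY i).2.hh x a b h
      have key2 : ∀ s : Finset ι, ∀ g ∈ GE G E, Sup (fun i j => k j + d ≤ k i) (g.val - 1) →
          Sup (fun i j => k j + (d + 1) ≤ k i) (g.val - 1 - ∑ i ∈ s, Y i) → g ∈ C := by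
        intro s
        induction s using Finset.induction_on with
        | empty =>
          intro g hg h1 h2
          rw [sum_empty, sub_zero] at h2
          exact ih g hg (h1.mono fun i j h => by omega) (h2.mono fun i j h => by omega)
        | insert a s ha ihs =>
          intro g hg h1 h2
          have hn : IsNilpotent (Y a) := (hY a).2.nil
          have sa : Sup (fun i j => k j + d ≤ k i) (Y a) := (sY a).mono fun i j h => by omega
          have s1 : Sup (fun i j => k j + (d + 1) ≤ k i) ((ex (-Y a)).val - 1 - -Y a) := by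
            rw [ex_val hn.neg]
            exact exp_sup hn.neg sa.neg (fun _ _ _ _ _ => by omega) (fun _ _ _ _ _ => by omega)
          have s2 : Sup (fun i j => k j ≤ k i) g.val := by
            have := (h1.mono (q := fun i j => k j ≤ k i) fun i j h => by omega).add
              (Sup.one fun _ => le_rfl)
            simpa using this
          have s3 : Sup (fun i j => k j + (d + 1) ≤ k i) (((ex (-Y a)).val - 1 - -Y a) * g.val) :=
            s1.mul s2 fun _ _ _ _ _ => by omega
          have s4 : Sup (fun i j => k j + (d + 1) ≤ k i) (Y a * (g.val - 1)) :=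
            sa.mul h1 fun _ _ _ _ _ => by omega
          have := ihs (ex (-Y a) * g) ((GE G E).mul_mem
            (D.ex_mem ((lie _ E).neg_mem (hY a).1) (Sup.neg (hY a).2)) hg) (by
              have := (((s3.sub s4).mono (q := fun i j => k j + d ≤ k i)
                fun i j h => by omega).add h1).sub sa
              convert this using 1
              rw [Units.val_mul]; noncomm_ring) (by
              have := (s3.sub s4).add h2
              convert this using 1
              rw [Units.val_mul, sum_insert ha]; noncomm_ring)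
          have h5 := C.mul_mem (hYC a) this
          rwa [← ex_inv hn, mul_inv_cancel_left] at h5
      refine key2 univ g hg h2 fun i j h => ?_
      rw [hX0, zero_add] at hsum
      rw [← hsum, Matrix.sub_apply, Matrix.of_apply]
      split_ifs with h3
      · exact sub_self _
      · rw [h2 i j (by simp only [hk] at h ⊢; omega), sub_zero]
  have h1 : Sup (fun i j => k j + 1 ≤ k i) (g.val - 1) := hg.2.mono fun i j h => by
    have : (k j : ℚ) < k i := by rw [hkq, hkq]; nlinarith
    exact_mod_cast this
  exact key B g hg.1 h1 (h1.mono fun i j h => by omega)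

end Pool.Agent.P.MP_7d29e8_ag
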