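import Pool.Agent.P.MP_7d29e8_ag.HBdd

set_option autoImplicit false

/-! The valuation of a complete discrete valuation ring extends uniquely to algebraic extensions
of the fraction field. -/

namespace Pool.Agent.P.MP_7d29e8_ag

open Filter Topology

theorem hva_ext (K L : Type) [NontriviallyNormedField K] [IsUltrametricDist K] [CompleteSpace K]
    [Field L] [Algebra K L] [Algebra.IsAlgebraic K L] :
    ∃ f : AbsoluteValue L ℝ, (∀ x y, f (x + y) ≤ max (f x) (f y)) ∧
      (∀ a, f (algebraMap K L a) = ‖a‖) ∧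
      (∀ g : AbsoluteValue L ℝ, (∀ a, g (algebraMap K L a) = ‖a‖) → ∀ x, g x = f x) ∧
      ∀ x, ∃ n : ℕ, 0 < n ∧ ∃ a : K, f x = ‖a‖ ^ (1 / (n : ℝ)) := by
  refine ⟨MulRingNorm.mulRingNormEquivAbsoluteValue (spectralMulAlgNorm K L).toMulRingNorm,
    fun x y => isNonarchimedean_spectralNorm (K := K) x y, fun a => spectralNorm_extends a,
    fun g hg x => spectralNorm_unique_field_norm_ext hg x, fun x => ⟨(minpoly K x).natDegree,
      minpoly.natDegree_pos (Algebra.IsIntegral.isIntegral x), (minpoly K x).coeff 0,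
      spectralNorm.spectralNorm_eq_norm_coeff_zero_rpow K L x⟩⟩

variable {O K : Type} [CommRing O] [IsDomain O] [IsDiscreteValuationRing O] [Field K] [Algebra O K]
  [IsFractionRing O K] {π : O}

omit [IsDiscreteValuationRing O] in
theorem hva_ne (hπ : Irreducible π) : algebraMap O K π ≠ 0 := fun h =>
  hπ.ne_zero (IsFractionRing.injective O K (by rw [h, map_zero]))

omit [IsDiscreteValuationRing O] in
theorem hva_uniq (hπ : Irreducible π) {u u' : Oˣ} {m m' : ℤ}
    (h : algebraMap O K u * algebraMap O K π ^ m = algebraMap O K u' * algebraMap O K π ^ m') :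
    m = m' := by
  have key : ∀ {u u' : Oˣ} {m m' : ℤ}, algebraMap O K u * algebraMap O K π ^ m =
      algebraMap O K u' * algebraMap O K π ^ m' → ¬ m < m' := by
    intro u u' m m' h hlt
    obtain ⟨k, rfl⟩ : ∃ k : ℕ, m' = m + (k + 1 : ℕ) := ⟨(m' - m - 1).toNat, by omega⟩
    rw [zpow_add₀ (hva_ne hπ), mul_comm (_ ^ m), ← mul_assoc,
      mul_left_inj' (zpow_ne_zero _ (hva_ne hπ)), zpow_natCast, ← map_pow, ← map_mul] at h
    have h2 := IsFractionRing.injective O K h
    refine hπ.not_isUnit (isUnit_of_dvd_unit (y := (u : O)) ?_ u.isUnit)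
    rw [h2, pow_succ, ← mul_assoc]
    exact dvd_mul_left _ _
  exact le_antisymm (not_lt.1 (key h.symm)) (not_lt.1 (key h))

theorem hva_ord (hπ : Irreducible π) : ∃ ord : K → ℤ,
    (∀ (u : Oˣ) (m : ℤ), ord (algebraMap O K u * algebraMap O K π ^ m) = m) ∧
    ∀ a ≠ 0, ∃ u : Oˣ, a = algebraMap O K u * algebraMap O K π ^ ord a := by
  have h : ∀ a : K, ∃ m : ℤ, a ≠ 0 → ∃ u : Oˣ, a = algebraMap O K u * algebraMap O K π ^ m := by
    intro a
    by_cases ha : a = 0
    · exact ⟨0, fun h => absurd ha h⟩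
    · obtain ⟨n, u, hu⟩ :=
        IsDiscreteValuationRing.exists_units_eq_smul_zpow_of_irreducible (K := K) hπ ha
      exact ⟨n, fun _ => ⟨u, by rw [hu, Units.smul_def, Algebra.smul_def]⟩⟩
  choose ord hord using h
  refine ⟨ord, fun u m => ?_, hord⟩
  obtain ⟨u', hu'⟩ := hord (algebraMap O K u * algebraMap O K π ^ m)
    (mul_ne_zero (u.isUnit.map (algebraMap O K)).ne_zero (zpow_ne_zero _ (hva_ne hπ)))
  exact (hva_uniq hπ hu').symm

theorem hva_abv (hπ : Irreducible π) : ∃ f : AbsoluteValue K ℝ,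
    (∀ (u : Oˣ) (m : ℤ), f (algebraMap O K u * algebraMap O K π ^ m) = (2 : ℝ) ^ (-m)) ∧
    (∀ x y, f (x + y) ≤ max (f x) (f y)) ∧
    ∀ (a : K) (N : ℤ), f a ≤ (2 : ℝ) ^ (-N) ↔
      ∃ o : O, a = algebraMap O K π ^ N * algebraMap O K o := by
  classical
  obtain ⟨ord, h1, h2⟩ := hva_ord (K := K) hπ
  have hmul : ∀ a b : K, a ≠ 0 → b ≠ 0 → ord (a * b) = ord a + ord b := by
    intro a b ha hb
    obtain ⟨u, hu⟩ := h2 a ha
    obtain ⟨u', hu'⟩ := h2 b hb
    have := h1 (u * u') (ord a + ord b)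
    rw [← this]
    congr 1
    rw [zpow_add₀ (hva_ne hπ), Units.val_mul, map_mul]
    conv_lhs => rw [hu, hu']
    ring
  have hmem : ∀ (a : K) (N : ℤ), a ≠ 0 →
      (N ≤ ord a ↔ ∃ o : O, a = algebraMap O K π ^ N * algebraMap O K o) := by
    intro a N ha
    constructor
    · intro hN
      obtain ⟨u, hu⟩ := h2 a ha
      obtain ⟨k, hk⟩ : ∃ k : ℕ, ord a = N + k := ⟨(ord a - N).toNat, by omega⟩
      refine ⟨u * π ^ k, ?_⟩
      rw [hu, hk, zpow_add₀ (hva_ne hπ), map_mul, map_pow, zpow_natCast]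
      ring
    · rintro ⟨o, rfl⟩
      have ho : o ≠ 0 := fun h => ha (by rw [h, map_zero, mul_zero])
      obtain ⟨k, u, rfl⟩ := IsDiscreteValuationRing.eq_unit_mul_pow_irreducible ho hπ
      have : algebraMap O K π ^ N * algebraMap O K (u * π ^ k) =
          algebraMap O K u * algebraMap O K π ^ (N + k) := by
        rw [zpow_add₀ (hva_ne hπ), map_mul, map_pow, zpow_natCast]; ring
      rw [this, h1]
      omega
  set F : K → ℝ := fun a => if a = 0 then 0 else (2 : ℝ) ^ (-ord a) with hF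
  have hF0 : ∀ a, 0 ≤ F a := fun a => by
    simp only [hF]; split_ifs <;> positivity
  have hle : ∀ (a : K) (N : ℤ), F a ≤ (2 : ℝ) ^ (-N) ↔
      ∃ o : O, a = algebraMap O K π ^ N * algebraMap O K o := by
    intro a N
    by_cases ha : a = 0
    · simp only [hF, if_pos ha]
      exact ⟨fun _ => ⟨0, by simp [ha]⟩, fun _ => by positivity⟩
    · simp only [hF, if_neg ha]
      rw [← hmem a N ha, zpow_le_zpow_iff_right₀ one_lt_two, neg_le_neg_iff]
  have hna : ∀ x y, F (x + y) ≤ max (F x) (F y) := by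
    intro x y
    by_cases hx : x = 0
    · rw [hx, zero_add]; exact le_max_right _ _
    by_cases hy : y = 0
    · rw [hy, add_zero]; exact le_max_left _ _
    obtain ⟨o, ho⟩ := (hmem x _ hx).1 (min_le_left (ord x) (ord y))
    obtain ⟨o', ho'⟩ := (hmem y _ hy).1 (min_le_right (ord x) (ord y))
    have := (hle (x + y) (min (ord x) (ord y))).2 ⟨o + o', by rw [map_add, mul_add, ← ho, ← ho']⟩
    refine this.trans ?_
    simp only [hF, if_neg hx, if_neg hy]
    rcases min_choice (ord x) (ord y) with h | h <;> rw [h]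
    · exact le_max_left _ _
    · exact le_max_right _ _
  refine ⟨⟨⟨F, fun a b => ?_⟩, hF0, fun a => ?_, fun a b => (hna a b).trans ?_⟩,
    fun u m => ?_, hna, hle⟩
  · by_cases ha : a = 0
    · simp [hF, ha]
    by_cases hb : b = 0
    · simp [hF, hb]
    simp only [hF, if_neg ha, if_neg hb, if_neg (mul_ne_zero ha hb), hmul a b ha hb]
    rw [neg_add, zpow_add₀ two_ne_zero]
  · change F a = 0 ↔ a = 0
    by_cases ha : a = 0
    · simp [hF, ha]
    · simp only [hF, if_neg ha, ha, iff_false]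
      exact zpow_ne_zero _ two_ne_zero
  · exact max_le_add_of_nonneg (hF0 a) (hF0 b)
  · change F _ = _
    simp only [hF, h1]
    rw [if_neg (mul_ne_zero (u.isUnit.map (algebraMap O K)).ne_zero (zpow_ne_zero _ (hva_ne hπ)))]

omit [IsDiscreteValuationRing O] in
theorem hva_complete (hπ : Irreducible π) [IsPrecomplete (Ideal.span {π}) O]
    (f : AbsoluteValue K ℝ) (hf : ∀ (a : K) (N : ℤ), f a ≤ (2 : ℝ) ^ (-N) ↔
      ∃ o : O, a = algebraMap O K π ^ N * algebraMap O K o) :
    letI := f.toNormedField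
    CompleteSpace K := by
  letI := f.toNormedField
  have hd : ∀ x y : K, dist x y = f (x - y) := fun x y => dist_eq_norm x y
  refine Metric.complete_of_convergent_controlled_sequences (fun N => (2 : ℝ) ^ (-(N : ℤ)))
    (fun N => by positivity) fun u hu => ?_
  have h0 : ∀ n, ∃ o : O, u n - u 0 = algebraMap O K o := fun n => by
    obtain ⟨o, ho⟩ := (hf (u n - u 0) 0).1 (by
      have := (hu 0 n 0 (Nat.zero_le _) le_rfl).le
      rwa [hd] at this)
    exact ⟨o, by simpa using ho⟩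
  choose o ho using h0
  have hmod : ∀ (N : ℕ) (x y : O), x ≡ y [SMOD (Ideal.span {π} ^ N • ⊤ : Submodule O O)] ↔
      f (algebraMap O K x - algebraMap O K y) ≤ (2 : ℝ) ^ (-(N : ℤ)) := by
    intro N x y
    rw [SModEq.sub_mem, smul_eq_mul, Ideal.mul_top, Ideal.span_singleton_pow,
      Ideal.mem_span_singleton, hf, ← map_sub]
    refine exists_congr fun c => ?_
    rw [zpow_natCast, ← map_pow, ← map_mul]
    exact (IsFractionRing.injective O K).eq_iff.symm
  obtain ⟨l, hl⟩ := IsPrecomplete.prec (I := Ideal.span {π}) (M := O) inferInstance (f := o)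
    fun {m n} hmn => by
      rw [hmod, ← ho, ← ho, sub_sub_sub_cancel_right, ← hd]
      exact (hu m m n le_rfl hmn).le
  refine ⟨u 0 + algebraMap O K l, tendsto_iff_dist_tendsto_zero.2 ?_⟩
  refine squeeze_zero (fun _ => dist_nonneg) (g := fun N : ℕ => ((2 : ℝ)⁻¹) ^ N) (fun n => ?_)
    (tendsto_pow_atTop_nhds_zero_of_lt_one (by norm_num) (by norm_num))
  have := (hmod n _ _).1 (hl n)
  rw [← ho, zpow_neg, zpow_natCast, ← inv_pow] at this
  rw [hd, ← sub_sub]
  exact this

theorem hva_val (hπ : Irreducible π) [IsPrecomplete (Ideal.span {π}) O] (L : Type) [Field L]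
    [Algebra K L] [Algebra.IsAlgebraic K L] : ∃ v : L → ℚ, Val v ∧
      (∀ (u : Oˣ) (m : ℤ), v (algebraMap K L (algebraMap O K u * algebraMap O K π ^ m)) = m) ∧
      ∀ θ : L ≃+* L, (∀ (u : Oˣ) (m : ℤ), ∃ u' : Oˣ,
        θ (algebraMap K L (algebraMap O K u * algebraMap O K π ^ m)) =
          algebraMap K L (algebraMap O K u' * algebraMap O K π ^ m)) → ∀ x, v (θ x) = v x := by
  obtain ⟨f, hf1, hf2, hf3⟩ := hva_abv (K := K) hπ
  obtain ⟨ord, -, hord⟩ := hva_ord (K := K) hπ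
  obtain ⟨g, hg1, hg2, hg3, hg4⟩ : ∃ g : AbsoluteValue L ℝ,
      (∀ x y, g (x + y) ≤ max (g x) (g y)) ∧ (∀ a, g (algebraMap K L a) = f a) ∧
      (∀ g' : AbsoluteValue L ℝ, (∀ a, g' (algebraMap K L a) = f a) → ∀ x, g' x = g x) ∧
      ∀ x, ∃ n : ℕ, 0 < n ∧ ∃ a : K, g x = f a ^ (1 / (n : ℝ)) := by
    letI : NontriviallyNormedField K :=
      { f.toNormedField with
        non_trivial := ⟨algebraMap O K (1 : Oˣ) * algebraMap O K π ^ (-1 : ℤ), by
          change 1 < f _
          rw [hf1]; norm_num⟩ }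
    haveI : IsUltrametricDist K := IsUltrametricDist.isUltrametricDist_of_forall_norm_add_le_max_norm
      hf2
    haveI : CompleteSpace K := hva_complete hπ f hf3
    exact hva_ext K L
  have hq : ∀ x : L, ∃ q : ℚ, (x ≠ 0 → g x = (2 : ℝ) ^ (-(q : ℝ))) ∧ (x = 0 → q = 0) := by
    intro x
    by_cases hx : x = 0
    · exact ⟨0, fun h => absurd hx h, fun _ => rfl⟩
    obtain ⟨n, hn, a, ha⟩ := hg4 x
    have ha0 : a ≠ 0 := by
      rintro rfl
      rw [map_zero, Real.zero_rpow (by positivity)] at ha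
      exact hx (g.eq_zero.1 ha)
    obtain ⟨u, hu⟩ := hord a ha0
    refine ⟨(ord a : ℚ) / n, fun _ => ?_, fun h => absurd h hx⟩
    rw [ha, hu, hf1, ← hu, ← Real.rpow_intCast, ← Real.rpow_mul zero_le_two]
    congr 1
    push_cast
    ring
  choose v hv hv0 using hq
  have hle : ∀ q q' : ℚ, (2 : ℝ) ^ (-(q : ℝ)) ≤ (2 : ℝ) ^ (-(q' : ℝ)) ↔ q' ≤ q := fun q q' => by
    rw [Real.rpow_le_rpow_left_iff one_lt_two, neg_le_neg_iff, Rat.cast_le]
  have heq : ∀ q q' : ℚ, (2 : ℝ) ^ (-(q : ℝ)) = (2 : ℝ) ^ (-(q' : ℝ)) → q = q' := fun q q' h =>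
    le_antisymm ((hle _ _).1 h.ge) ((hle _ _).1 h.le)
  refine ⟨v, ⟨fun a b ha hb => heq _ _ ?_, fun a b ha hb hab => ?_⟩, fun u m => ?_,
    fun θ hθ x => ?_⟩
  · rw [← hv _ (mul_ne_zero ha hb), map_mul, hv a ha, hv b hb, ← Real.rpow_add two_pos]
    congr 1
    push_cast
    ring
  · have := hg1 a b
    rw [hv _ hab, hv a ha, hv b hb, le_max_iff, hle, hle] at this
    exact min_le_iff.2 this
  · have h0 : algebraMap K L (algebraMap O K u * algebraMap O K π ^ m) ≠ 0 :=
      (map_ne_zero _).2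
        (mul_ne_zero (u.isUnit.map (algebraMap O K)).ne_zero (zpow_ne_zero _ (hva_ne hπ)))
    refine heq _ _ ?_
    rw [← hv _ h0, hg2, hf1, ← Real.rpow_intCast]
    congr 1
    push_cast
    ring
  · by_cases hx : x = 0
    · rw [hx, map_zero]
    refine heq _ _ ?_
    rw [← hv _ hx, ← hv _ ((map_ne_zero θ).2 hx)]
    refine hg3 (g.comp (f := (θ : L →+* L)) θ.injective) (fun a => ?_) x
    change g (θ (algebraMap K L a)) = f a
    by_cases ha : a = 0
    · simp [ha]
    obtain ⟨u, hu⟩ := hord a ha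
    obtain ⟨u', hu'⟩ := hθ u (ord a)
    rw [hu, hu', hg2, hf1, hf1]

end Pool.Agent.P.MP_7d29e8_ag
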