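import Mathlib

set_option autoImplicit false

/-! Equivariant homomorphisms from a lattice are norms. -/

namespace Pool.Agent.P.MP_7d29e8_ag

open Finset
open scoped Classical

variable {Q E A : Type} [Group Q] [Fintype Q] [AddCommGroup E] [AddCommGroup A]

/-- additive on a submodule -/
def AdOn (Y : Submodule ℤ E) (f : E → A) : Prop := ∀ a ∈ Y, ∀ b ∈ Y, f (a + b) = f a + f b

lemma AdOn.zsmul {Y : Submodule ℤ E} {f : E → A} (h : AdOn Y f) (k : ℤ) {a : E} (ha : a ∈ Y) :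
    f (k • a) = k • f a :=
  map_zsmul (AddMonoidHom.mk' (fun y : Y => f y) fun a b => h a a.2 b b.2) k ⟨a, ha⟩

lemma AdOn.sub {Y : Submodule ℤ E} {f : E → A} (h : AdOn Y f) {a b : E} (ha : a ∈ Y) (hb : b ∈ Y) :
    f (a - b) = f a - f b :=
  map_sub (AddMonoidHom.mk' (fun y : Y => f y) fun a b => h a a.2 b b.2) ⟨a, ha⟩ ⟨b, hb⟩

/-- every equivariant additive map is a norm -/
def PrN (ρ : Q →* Module.End ℤ E) (α : Q →* Module.End ℤ A) (Y : Submodule ℤ E) : Prop :=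
  ∀ f : E → A, AdOn Y f → (∀ g, ∀ a ∈ Y, f (ρ g a) = α g (f a)) →
    ∃ f' : E → A, AdOn Y f' ∧ ∀ a ∈ Y, f a = ∑ g, α g (f' (ρ g⁻¹ a))

omit [Fintype Q] in
lemma rep_mul (ρ : Q →* Module.End ℤ E) (g h : Q) (a : E) : ρ (g * h) a = ρ g (ρ h a) := by
  rw [map_mul]; rfl

lemma sum_shift (α : Q →* Module.End ℤ A) (h : Q) (F : Q → A) :
    α h (∑ g, α g (F g)) = ∑ g, α g (F (h⁻¹ * g)) := by
  rw [map_sum]
  exact Fintype.sum_equiv (Equiv.mulLeft h) _ _ fun g => by simp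

variable {ρ : Q →* Module.End ℤ E} {α : Q →* Module.End ℤ A}

lemma prn_step [Module.Free ℤ E] [Module.Finite ℤ E]
    (h90 : ∀ c : Q → A, (∀ g h, c (g * h) = α g (c h) + c g) → ∃ a, ∀ g, c g = α g a - a)
    (ns : ∀ a, (∀ g, α g a = a) → ∃ d, a = ∑ g, α g d) {l : ℕ} (hl : l.Prime)
    {Y : Submodule ℤ E} (hY : ∀ g, ∀ a ∈ Y, ρ g a ∈ Y) {e : E} (h1 : e ∉ Y)
    (h2 : (l : ℤ) • e ∈ Y) (h3 : ∀ g, ρ g e - e ∈ Y) (H : PrN ρ α (Y ⊔ ℤ ∙ e)) : PrN ρ α Y := by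
  intro f hf hg
  obtain ⟨a, ha⟩ := h90 (fun g => f (ρ g e - e)) fun g h => by
    rw [← hg g _ (h3 h), ← hf _ (hY g _ (h3 h)) _ (h3 g), rep_mul, map_sub]
    congr 1; abel
  obtain ⟨d, hd⟩ := ns (f ((l : ℤ) • e) - (l : ℤ) • a) fun g => by
    have e1 : ρ g ((l : ℤ) • e) = (l : ℤ) • (ρ g e - e) + (l : ℤ) • e := by
      rw [map_zsmul, smul_sub]; abel
    rw [map_sub, ← hg g _ h2, e1, hf _ (Y.smul_mem _ (h3 g)) _ h2, hf.zsmul _ (h3 g), ha,
      map_zsmul, smul_sub]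
    abel
  obtain ⟨x, hx, w, hw⟩ : ∃ x : E → ℤ, AdOn Y x ∧ ∃ w : ℤ, x ((l : ℤ) • e) = 1 - w * l := by
    let b := Module.Free.chooseBasis ℤ Y
    obtain ⟨i, hi⟩ : ∃ i, ¬ (l : ℤ) ∣ b.repr ⟨_, h2⟩ i := by
      by_contra hc
      push Not at hc
      choose k hk using hc
      let _ := Fintype.ofFinite (Module.Free.ChooseBasisIndex ℤ Y)
      have h4 : (⟨_, h2⟩ : Y) = (l : ℤ) • ∑ i, k i • b i := by
        rw [← b.sum_repr ⟨_, h2⟩, smul_sum]
        exact sum_congr rfl fun i _ => by rw [hk, mul_smul]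
      have h5 := smul_right_injective E (r := (l : ℤ)) (by exact_mod_cast hl.ne_zero)
        (congrArg Subtype.val h4)
      exact h1 (h5 ▸ (∑ i, k i • b i).2)
    obtain ⟨w, u, hu⟩ := (Nat.prime_iff_prime_int.mp hl).irreducible.coprime_iff_not_dvd.mpr hi
    refine ⟨fun y => if h : y ∈ Y then u * b.repr ⟨y, h⟩ i else 0, fun a ha c hc => ?_, w, ?_⟩
    · simp only [dif_pos ha, dif_pos hc, dif_pos (Y.add_mem ha hc)]
      rw [show (⟨a + c, Y.add_mem ha hc⟩ : Y) = ⟨a, ha⟩ + ⟨c, hc⟩ from rfl, map_add,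
        Finsupp.add_apply, mul_add]
    · simp only [dif_pos h2]
      linarith
  set φ := f ((l : ℤ) • e) - (l : ℤ) • a with hφ
  let f₁ : E → A := fun y => f y - ∑ g, α g (x (ρ g⁻¹ y) • d)
  let a₂ : A := a - ∑ g, α g (x (ρ g⁻¹ e - e) • d) + w • φ
  have hφ' : ∀ g, α g φ = φ := fun g => by
    rw [hd, sum_shift α g fun _ => d]
  have k1 : AdOn Y f₁ := fun y hy z hz => by
    simp only [f₁, map_add, hf y hy z hz, hx _ (hY _ y hy) _ (hY _ z hz), add_smul,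
      sum_add_distrib]
    abel
  have k2 : ∀ g, ∀ y ∈ Y, f₁ (ρ g y) = α g (f₁ y) := fun g y hy => by
    simp only [f₁]
    rw [map_sub, hg g y hy, sum_shift α g fun h => x (ρ h⁻¹ y) • d]
    simp only [mul_inv_rev, inv_inv, rep_mul]
  have k3 : ∀ g, f₁ (ρ g e - e) = α g a₂ - a₂ := fun g => by
    simp only [f₁, a₂]
    rw [ha, map_add, map_sub (α g), map_zsmul, hφ', sum_shift α g fun h => x (ρ h⁻¹ e - e) • d]
    have : ∀ h : Q, α h (x (ρ h⁻¹ (ρ g e - e)) • d) =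
        α h (x (ρ (g⁻¹ * h)⁻¹ e - e) • d) - α h (x (ρ h⁻¹ e - e) • d) := fun h => by
      rw [← map_sub, ← sub_smul, ← hx.sub (h3 _) (h3 _), mul_inv_rev, inv_inv, rep_mul, map_sub]
      congr 3; abel
    simp only [this, sum_sub_distrib]
    abel
  have k4 : f₁ ((l : ℤ) • e) = (l : ℤ) • a₂ := by
    have : ∀ h : Q, α h (x (ρ h⁻¹ ((l : ℤ) • e)) • d) =
        (l : ℤ) • α h (x (ρ h⁻¹ e - e) • d) + (1 - w * l) • α h d := fun h => by
      have e1 : ρ h⁻¹ ((l : ℤ) • e) = (l : ℤ) • (ρ h⁻¹ e - e) + (l : ℤ) • e := by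
        rw [map_zsmul, smul_sub]; abel
      rw [e1, hx _ (Y.smul_mem _ (h3 _)) _ h2, hx.zsmul _ (h3 _), hw, add_smul, map_add,
        map_zsmul, map_zsmul, map_zsmul, smul_eq_mul, mul_smul]
    simp only [f₁, a₂, this, sum_add_distrib, ← smul_sum, ← hd]
    rw [show f ((l : ℤ) • e) = φ + (l : ℤ) • a by rw [hφ]; abel]
    module
  have hk : ∀ y : E, ∃ k : ℤ, y ∈ Y ⊔ ℤ ∙ e → y - k • e ∈ Y := fun y => by
    by_cases hy : y ∈ Y ⊔ ℤ ∙ e
    · obtain ⟨a, ha, c, hc, rfl⟩ := Submodule.mem_sup.mp hy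
      obtain ⟨k, rfl⟩ := Submodule.mem_span_singleton.mp hc
      exact ⟨k, fun _ => by simpa using ha⟩
    · exact ⟨0, fun h => absurd h hy⟩
  choose k hk using hk
  let F : E → A := fun y => f₁ (y - k y • e) + k y • a₂
  have hm : ∀ y ∈ Y, ∀ j : ℤ, y + j • e ∈ Y ⊔ ℤ ∙ e := fun y hy j =>
    Submodule.add_mem_sup hy (Submodule.smul_mem _ _ (Submodule.mem_span_singleton_self e))
  have hF : ∀ y ∈ Y, ∀ j : ℤ, F (y + j • e) = f₁ y + j • a₂ := fun y hy j => by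
    have h4 := hk _ (hm y hy j)
    set j' := k (y + j • e) with hj'
    have h5 : (j - j') • e ∈ Y := by
      convert Y.sub_mem h4 hy using 1
      rw [sub_smul]; abel
    obtain ⟨c, hc⟩ : (l : ℤ) ∣ j - j' := by
      by_contra hc
      obtain ⟨w, u, hu⟩ := (Nat.prime_iff_prime_int.mp hl).irreducible.coprime_iff_not_dvd.mpr hc
      refine h1 ?_
      have := Y.add_mem (Y.smul_mem w h2) (Y.smul_mem u h5)
      rwa [smul_smul, smul_smul, ← add_smul, hu, one_smul] at this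
    have h6 : y + j • e - j' • e = y + c • (l : ℤ) • e := by
      rw [smul_smul, mul_comm, ← hc, sub_smul]; abel
    simp only [F, ← hj']
    rw [h6, k1 y hy _ (Y.smul_mem _ h2), k1.zsmul _ h2, k4, smul_smul, mul_comm, ← hc, sub_smul]
    abel
  have hdec : ∀ y ∈ Y ⊔ ℤ ∙ e, ∃ y₀ ∈ Y, ∃ j : ℤ, y = y₀ + j • e := fun y hy =>
    ⟨_, hk y hy, k y, by abel⟩
  obtain ⟨F', p1, p2⟩ := H F (fun y hy' z hz' => by
    obtain ⟨y, hy, i, rfl⟩ := hdec y hy'
    obtain ⟨z, hz, j, rfl⟩ := hdec z hz'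
    rw [show y + i • e + (z + j • e) = (y + z) + (i + j) • e by rw [add_smul]; abel,
      hF _ (Y.add_mem hy hz), hF y hy, hF z hz, k1 y hy z hz, add_smul]
    abel) (fun g y hy' => by
    obtain ⟨y, hy, i, rfl⟩ := hdec y hy'
    rw [show ρ g (y + i • e) = (ρ g y + i • (ρ g e - e)) + i • e by
      rw [map_add, map_zsmul, smul_sub]; abel,
      hF _ (Y.add_mem (hY g y hy) (Y.smul_mem _ (h3 g))), hF y hy,
      k1 _ (hY g y hy) _ (Y.smul_mem _ (h3 g)), k1.zsmul _ (h3 g), k2 g y hy, k3,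
      map_add (α g) (f₁ y), map_zsmul (α g) i a₂, smul_sub]
    abel)
  refine ⟨fun y => x y • d + F' y, fun y hy z hz => ?_, fun y hy => ?_⟩
  · simp only [hx y hy z hz, p1 y (Submodule.mem_sup_left hy) z (Submodule.mem_sup_left hz),
      add_smul]
    abel
  · have := hF y hy 0
    rw [zero_smul, add_zero, zero_smul, add_zero, p2 y (Submodule.mem_sup_left hy)] at this
    simp only [map_add, sum_add_distrib, this, f₁]
    abel

omit [Fintype Q] in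
lemma exists_inv [Module.Finite ℤ E] {l : ℕ} [hl : Fact l.Prime] (hQ : IsPGroup l Q)
    {Y : Submodule ℤ E} (hY : ∀ g, ∀ a ∈ Y, ρ g a ∈ Y) {k : ℕ}
    (hk : ∀ a, ((l : ℤ) ^ k) • a ∈ Y) (ht : Y ≠ ⊤) :
    ∃ e ∉ Y, (l : ℤ) • e ∈ Y ∧ ∀ g, ρ g e - e ∈ Y := by
  let _ : MulAction Q (E ⧸ Y) :=
    { smul := fun g => Y.mapQ Y (ρ g) (hY g)
      one_smul := fun w => by
        obtain ⟨a, rfl⟩ := Y.mkQ_surjective w
        change Y.mkQ (ρ 1 a) = _
        simp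
      mul_smul := fun g h w => by
        obtain ⟨a, rfl⟩ := Y.mkQ_surjective w
        change Y.mkQ (ρ (g * h) a) = Y.mkQ (ρ g (ρ h a))
        rw [rep_mul] }
  have l0 : (l : ℤ) ^ k ≠ 0 := pow_ne_zero _ (by exact_mod_cast hl.out.ne_zero)
  have hw : ∀ w : E ⧸ Y, ((l : ℤ) ^ k) • w = 0 := fun w => by
    obtain ⟨a, rfl⟩ := Y.mkQ_surjective w
    rw [← map_zsmul]
    exact (Submodule.Quotient.mk_eq_zero Y).mpr (hk a)
  have : Finite (E ⧸ Y) := Module.finite_of_fg_torsion _ fun w =>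
    ⟨⟨_, mem_nonZeroDivisors_of_ne_zero l0⟩, hw w⟩
  obtain ⟨a, ha⟩ : ∃ a, a ∉ Y := by
    by_contra hc
    push Not at hc
    exact ht (eq_top_iff.mpr fun a _ => hc a)
  have hd : l ∣ Nat.card (E ⧸ Y) := by
    have h1 : addOrderOf (Y.mkQ a) ∣ l ^ k := addOrderOf_dvd_of_nsmul_eq_zero (by
      have := hw (Y.mkQ a)
      rwa [← Nat.cast_pow, natCast_zsmul] at this)
    obtain ⟨j, -, hj⟩ := (Nat.dvd_prime_pow hl.out).mp h1
    refine Dvd.dvd.trans ?_ (addOrderOf_dvd_natCard (Y.mkQ a))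
    rw [hj]
    refine dvd_pow_self _ fun h0 => ha ?_
    rw [h0, pow_zero, AddMonoid.addOrderOf_eq_one_iff] at hj
    exact (Submodule.Quotient.mk_eq_zero Y).mp hj
  obtain ⟨w, h1, h2⟩ := hQ.exists_fixed_point_of_prime_dvd_card_of_fixed_point (E ⧸ Y) hd
    (a := 0) fun g => map_zero (Y.mapQ Y (ρ g) (hY g))
  obtain ⟨c, rfl⟩ := Y.mkQ_surjective w
  have h3 : ∀ g, ρ g c - c ∈ Y := fun g => (Submodule.Quotient.eq Y).mp (h1 g)
  have h4 : ∃ j : ℕ, ((l : ℤ) ^ j) • c ∈ Y := ⟨k, hk c⟩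
  have h5 : Nat.find h4 ≠ 0 := fun h0 => h2 (by
    have := Nat.find_spec h4
    rw [h0, pow_zero, one_smul] at this
    exact ((Submodule.Quotient.mk_eq_zero Y).mpr this).symm)
  obtain ⟨j, hj⟩ := Nat.exists_eq_succ_of_ne_zero h5
  refine ⟨((l : ℤ) ^ j) • c, Nat.find_min h4 (by omega), ?_, fun g => ?_⟩
  · have := Nat.find_spec h4
    rwa [hj, pow_succ', mul_smul] at this
  · rw [map_zsmul, ← smul_sub]
    exact Y.smul_mem _ (h3 g)

lemma prn_down [Module.Free ℤ E] [Module.Finite ℤ E]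
    (h90 : ∀ c : Q → A, (∀ g h, c (g * h) = α g (c h) + c g) → ∃ a, ∀ g, c g = α g a - a)
    (ns : ∀ a, (∀ g, α g a = a) → ∃ d, a = ∑ g, α g d) {l : ℕ} [hl : Fact l.Prime]
    (hQ : IsPGroup l Q) (ht : PrN ρ α ⊤) {k : ℕ} (Y : Submodule ℤ E)
    (hY : ∀ g, ∀ a ∈ Y, ρ g a ∈ Y) (hk : ∀ a, ((l : ℤ) ^ k) • a ∈ Y) : PrN ρ α Y := by
  induction Y using WellFoundedGT.induction with
  | ind Y ih =>
    by_cases h : Y = ⊤
    · exact h ▸ ht
    obtain ⟨e, h1, h2, h3⟩ := exists_inv hQ hY hk h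
    have he : e ∈ Y ⊔ ℤ ∙ e := Submodule.mem_sup_right (Submodule.mem_span_singleton_self e)
    refine prn_step h90 ns hl.out hY h1 h2 h3 (ih _ (lt_of_le_of_ne le_sup_left fun h => h1 (h ▸ he))
      (fun g a ha' => ?_) fun a => Submodule.mem_sup_left (hk a))
    obtain ⟨a, ha, c, hc, rfl⟩ := Submodule.mem_sup.mp ha'
    obtain ⟨j, rfl⟩ := Submodule.mem_span_singleton.mp hc
    rw [map_add, map_zsmul, ← sub_add_cancel (ρ g e) e]
    exact add_mem (Submodule.mem_sup_left (hY g a ha))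
      (Submodule.smul_mem _ _ (add_mem (Submodule.mem_sup_left (h3 g)) he))

lemma prn_pgroup [Module.Free ℤ E] [Module.Finite ℤ E]
    (h90 : ∀ c : Q → A, (∀ g h, c (g * h) = α g (c h) + c g) → ∃ a, ∀ g, c g = α g a - a)
    (ns : ∀ a, (∀ g, α g a = a) → ∃ d, a = ∑ g, α g d) {l : ℕ} [hl : Fact l.Prime]
    (hQ : IsPGroup l Q) : PrN ρ α ⊤ := by
  let ρ' : Q →* Module.End ℤ (Q → E) :=
    { toFun := fun g => LinearMap.pi fun h => (ρ g).comp (LinearMap.proj (g⁻¹ * h))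
      map_one' := by ext φ h; simp
      map_mul' := fun g g' => by
        refine LinearMap.ext fun φ => funext fun h => ?_
        simp [mul_assoc] }
  have hρ : ∀ g φ h, ρ' g φ h = ρ g (φ (g⁻¹ * h)) := fun _ _ _ => rfl
  have ht : PrN ρ' α ⊤ := fun f hf hg => by
    let F := AddMonoidHom.mk' f fun a b => hf a trivial b trivial
    refine ⟨fun φ => f (Pi.single 1 (φ 1)), fun a _ b _ => by
      simp only [Pi.add_apply, Pi.single_add, hf _ trivial _ trivial], fun φ _ => ?_⟩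
    conv_lhs => rw [← univ_sum_single φ]
    refine (map_sum F _ _).trans (sum_congr rfl fun g _ => ?_)
    rw [← hg g _ trivial]
    refine congrArg f (funext fun h => ?_)
    rw [hρ, hρ]
    by_cases e : h = g
    · subst e; simp
    · rw [Pi.single_eq_of_ne e, Pi.single_eq_of_ne (by
        rwa [Ne, inv_mul_eq_one, eq_comm]), map_zero]
  obtain ⟨k, hk⟩ := IsPGroup.iff_card.mp hQ
  have hc : (Fintype.card Q : ℤ) = (l : ℤ) ^ k := by
    rw [← Nat.card_eq_fintype_card, hk]; simp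
  have l0 : (l : ℤ) ^ k ≠ 0 := pow_ne_zero _ (by exact_mod_cast hl.out.ne_zero)
  let π : (Q → E) →ₗ[ℤ] E := ∑ h, LinearMap.proj h
  have hπ : ∀ φ, π φ = ∑ h, φ h := fun φ => by simp [π]
  have hπ' : ∀ g φ, π (ρ' g φ) = ρ g (π φ) := fun g φ => by
    rw [hπ, hπ, map_sum]
    exact (Fintype.sum_equiv (Equiv.mulLeft g) _ _ fun h => by simp [hρ]).symm
  let Y : Submodule ℤ (Q → E) := (LinearMap.range ((l : ℤ) ^ k • LinearMap.id)).comap π
  have hY : ∀ φ, φ ∈ Y ↔ ∃ y, (l : ℤ) ^ k • y = π φ := fun φ => Iff.rfl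
  have hs : ∀ φ, ∃ y, φ ∈ Y → (l : ℤ) ^ k • y = π φ := fun φ => by
    by_cases h : φ ∈ Y
    · obtain ⟨y, hy⟩ := (hY φ).mp h
      exact ⟨y, fun _ => hy⟩
    · exact ⟨0, fun h' => absurd h' h⟩
  choose r hr using hs
  have inj := smul_right_injective E l0
  have hst : ∀ g, ∀ φ ∈ Y, ρ' g φ ∈ Y := fun g φ h =>
    (hY _).mpr ⟨ρ g (r φ), by rw [← map_zsmul, hr φ h, hπ']⟩
  have hcm : ∀ y : E, π (fun _ => y) = (l : ℤ) ^ k • y := fun y => by
    rw [hπ, sum_const, card_univ, ← hc, natCast_zsmul]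
  have hc' : ∀ y : E, (fun _ => y) ∈ Y := fun y => (hY _).mpr ⟨y, (hcm y).symm⟩
  intro f hf hg
  obtain ⟨f', p1, p2⟩ := prn_down h90 ns hQ ht (k := k) Y hst
    (fun φ => (hY _).mpr ⟨π φ, by rw [map_zsmul]⟩) (fun φ => f (r φ)) (fun a ha b hb => by
      rw [← hf _ trivial _ trivial]
      refine congrArg f (inj ?_)
      simp only [smul_add, hr _ ha, hr _ hb, hr _ (Y.add_mem ha hb), map_add])
    (fun g a ha => by
      rw [← hg _ _ trivial]
      refine congrArg f (inj ?_)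
      simp only [← map_zsmul, hr _ ha, hr _ (hst g a ha), hπ'])
  refine ⟨fun y => f' fun _ => y, fun a _ b _ => p1 _ (hc' a) _ (hc' b), fun y _ => ?_⟩
  have := p2 _ (hc' y)
  rwa [show r (fun _ => y) = y from inj ((hr _ (hc' y)).trans (hcm y))] at this

omit [AddCommGroup E] in
lemma sum_coset (H : Subgroup Q) (F : Q → A) :
    ∑ g, F g = ∑ c : Q ⧸ H, ∑ h : H, F (c.out * h) := by
  rw [← Fintype.sum_prod_type']
  refine (Fintype.sum_bijective (fun q : (Q ⧸ H) × H => q.1.out * q.2) ⟨?_, fun g => ?_⟩ _ _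
    fun _ => rfl).symm
  · rintro ⟨c, h⟩ ⟨c', h'⟩ e
    have h1 : c = c' := by
      simpa using congrArg (QuotientGroup.mk : Q → Q ⧸ H) e
    subst h1
    exact Prod.ext rfl (Subtype.ext (mul_left_cancel e))
  · exact ⟨(g, ⟨(g : Q ⧸ H).out⁻¹ * g, QuotientGroup.eq.mp (by simp)⟩), by simp⟩

theorem prn_all [Module.Free ℤ E] [Module.Finite ℤ E]
    (h90 : ∀ (H : Subgroup Q) (c : H → A), (∀ g h, c (g * h) = α g (c h) + c g) →
      ∃ a, ∀ g, c g = α g a - a)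
    (ns : ∀ (H : Subgroup Q) a, (∀ g : H, α g a = a) → ∃ d, a = ∑ g : H, α g d) :
    PrN ρ α ⊤ := by
  intro f hf hg
  let I : AddSubgroup ℤ :=
    { carrier := {m | ∃ f' : E → A, AdOn ⊤ f' ∧ ∀ a, m • f a = ∑ g, α g (f' (ρ g⁻¹ a))}
      zero_mem' := ⟨0, fun _ _ _ _ => by simp, fun a => by simp⟩
      add_mem' := fun ⟨f₁, a1, a2⟩ ⟨f₂, b1, b2⟩ => ⟨f₁ + f₂, fun a _ b _ => by
        simp only [Pi.add_apply, a1 a trivial b trivial, b1 a trivial b trivial]; abel,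
        fun a => by simp only [add_smul, a2, b2, Pi.add_apply, map_add, sum_add_distrib]⟩
      neg_mem' := fun ⟨f₁, a1, a2⟩ => ⟨-f₁, fun a _ b _ => by
        simp only [Pi.neg_apply, a1 a trivial b trivial]; abel,
        fun a => by simp only [neg_smul, a2, Pi.neg_apply, map_neg, sum_neg_distrib]⟩ }
  obtain ⟨m, hm⟩ := Int.subgroup_cyclic I
  have h1 : m.natAbs = 1 := by
    by_contra hc
    obtain ⟨l, hl, hd⟩ := Nat.exists_prime_and_dvd hc
    have := Fact.mk hl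
    obtain ⟨S⟩ : Nonempty (Sylow l Q) := inferInstance
    obtain ⟨f', p1, p2⟩ := prn_pgroup (ρ := ρ.comp (S : Subgroup Q).subtype)
      (α := α.comp (S : Subgroup Q).subtype) (h90 S) (ns S) S.isPGroup' f hf fun g => hg g
    have h2 : ((S : Subgroup Q).index : ℤ) ∈ I := ⟨f', p1, fun a => by
      rw [sum_coset (S : Subgroup Q), natCast_zsmul, Subgroup.index, Nat.card_eq_fintype_card,
        ← card_univ, ← sum_const]
      refine sum_congr rfl fun c _ => ?_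
      simp only [rep_mul, mul_inv_rev, ← map_sum]
      have := p2 (ρ c.out⁻¹ a) trivial
      simp only [MonoidHom.comp_apply, Subgroup.coe_subtype, InvMemClass.coe_inv] at this
      rw [← this, ← hg _ _ trivial, ← rep_mul]
      simp⟩
    rw [hm, AddSubgroup.mem_closure_singleton] at h2
    obtain ⟨j, hj⟩ := h2
    refine S.not_dvd_index (hd.trans ?_)
    have := congrArg Int.natAbs hj
    rw [smul_eq_mul, Int.natAbs_mul, Int.natAbs_natCast] at this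
    exact ⟨_, by rw [← this, mul_comm]⟩
  have h2 : (1 : ℤ) ∈ I := by
    rw [hm, AddSubgroup.mem_closure_singleton]
    exact ⟨m, by rw [smul_eq_mul, ← Int.natAbs_mul_self, h1]; rfl⟩
  obtain ⟨f', p1, p2⟩ := h2
  exact ⟨f', p1, fun a _ => by rw [← p2, one_smul]⟩

end Pool.Agent.P.MP_7d29e8_ag
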