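import Pool.Agent.P.MP_7d29e8_ag.FD7

set_option autoImplicit false

/-! Norms are surjective over the completed maximal unramified extension. -/

namespace Pool.Agent.P.MP_7d29e8_ag

open Finset
open scoped Classical

section

variable {p : ℕ} [Fact p.Prime] {K Ω : Type} [Field K] [Field Ω]
  [Algebra (WittVector p (AlgebraicClosure (ZMod p))) K]
  [IsFractionRing (WittVector p (AlgebraicClosure (ZMod p))) K] [Algebra K Ω] [IsAlgClosure K Ω]
  {v : Ω → ℚ}

omit [IsAlgClosure K Ω] in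
theorem ac1_K (hv : Val v) (hp : v (p : Ω) = 1)
    (hO : ∀ a : K, a ≠ 0 → ((∃ o : WittVector p (AlgebraicClosure (ZMod p)), algebraMap _ K o = a) ↔
      0 ≤ v (algebraMap K Ω a)))
    (hZ : ∀ a : K, a ≠ 0 → ∃ m : ℤ, v (algebraMap K Ω a) = m) : AC1 ((algebraMap K Ω).fieldRange) v := by
  intro N d D hd hdN hD C
  have := charZero_K p K
  have := charZero_of_injective_algebraMap (algebraMap K Ω).injective
  have hp0 : (p : Ω) ≠ 0 := Nat.cast_ne_zero.2 (Fact.out : p.Prime).ne_zero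
  let ι : WittVector p (AlgebraicClosure (ZMod p)) →+* Ω := (algebraMap K Ω).comp (algebraMap _ K)
  have hι : Function.Injective ι :=
    (algebraMap K Ω).injective.comp (IsFractionRing.injective _ K)
  have hvp : ∀ z : ℤ, v ((p : Ω) ^ z) = z := fun z => by rw [mulv_zpow hv.mul hp0, hp, mul_one]
  have hG : ∀ o, Ge v 0 (ι o) := fun o => by
    by_cases h : algebraMap _ K o = 0
    · exact Or.inl (by simp [ι, h])
    · exact Or.inr ((hO _ h).1 ⟨o, rfl⟩)
  have hint : ∀ (a : K) (z : ℤ), Ge v (-z) (algebraMap K Ω a) →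
      ∃ o, ι o = (p : Ω) ^ z * algebraMap K Ω a := by
    intro a z h
    by_cases ha : a = 0
    · exact ⟨0, by simp [ha]⟩
    have ha' : algebraMap K Ω a ≠ 0 := by simpa using ha
    have hpK : (p : K) ≠ 0 := Nat.cast_ne_zero.2 (Fact.out : p.Prime).ne_zero
    have e : algebraMap K Ω ((p : K) ^ z * a) = (p : Ω) ^ z * algebraMap K Ω a := by simp
    obtain ⟨o, ho⟩ := (hO _ (mul_ne_zero (zpow_ne_zero z hpK) ha)).2 (by
      rw [e, hv.mul _ _ (zpow_ne_zero z hp0) ha', hvp]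
      linarith [h.resolve_left ha'])
    exact ⟨o, by rw [← e, ← ho]; rfl⟩
  obtain ⟨e, he⟩ : ∃ e : ℕ, ∀ a ∈ D.support, Ge v (-(e : ℤ)) ((D.coeff a : (algebraMap K Ω).fieldRange) : Ω) := by
    obtain ⟨B, hB⟩ := Finset.exists_le (D.support.image fun a => -v ((D.coeff a : (algebraMap K Ω).fieldRange) : Ω))
    obtain ⟨e, he⟩ := exists_nat_ge B
    refine ⟨e, fun a ha => Or.inr ?_⟩
    have := hB _ (mem_image_of_mem _ ha)
    push_cast
    linarith
  have hc : ∀ a ∈ D.support, ∃ o, ι o = (p : Ω) ^ (e : ℤ) * ((D.coeff a : (algebraMap K Ω).fieldRange) : Ω) := by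
    intro a ha
    obtain ⟨b, hb⟩ := RingHom.mem_fieldRange.mp (D.coeff a).2
    rw [← hb]
    exact hint b e (hb ▸ he a ha)
  choose! o ho using hc
  let D0 : MvPolynomial (Fin N) (WittVector p (AlgebraicClosure (ZMod p))) :=
    ∑ a ∈ D.support, MvPolynomial.monomial a (o a)
  have hD0 : D0.IsHomogeneous d := MvPolynomial.IsHomogeneous.sum _ _ _ fun a ha =>
    MvPolynomial.isHomogeneous_monomial _ (by
      by_contra h
      exact MvPolynomial.mem_support_iff.1 ha (hD.coeff_eq_zero h))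
  have hev : ∀ x, ι (MvPolynomial.eval x D0) =
      (p : Ω) ^ (e : ℤ) * MvPolynomial.eval₂ (algebraMap K Ω).fieldRange.subtype (fun i => ι (x i)) D := by
    intro x
    rw [MvPolynomial.eval₂_eq', mul_sum, map_sum, map_sum]
    refine sum_congr rfl fun a ha => ?_
    rw [MvPolynomial.eval_monomial, map_mul, ho a ha, Finsupp.prod_fintype _ _ (by simp),
      map_prod, mul_assoc]
    simp
  obtain ⟨c, hc⟩ := exists_nat_ge C
  obtain ⟨x, hx0, hx1, hx2⟩ := witt_zero (hd.trans hdN) hd D0 hD0 (c + e + 1) (Nat.succ_pos _)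
  have hne : (univ.filter fun i => x i ≠ 0).Nonempty := by
    obtain ⟨i, hi⟩ := Function.ne_iff.1 hx0
    exact ⟨i, by simpa using hi⟩
  obtain ⟨i0, hi0, hmin⟩ := exists_min_image _ (fun i => v (ι (x i))) hne
  have hi0' : x i0 ≠ 0 := (mem_filter.1 hi0).2
  have hnz : ∀ i, x i ≠ 0 → ι (x i) ≠ 0 := fun i hi => (map_ne_zero_iff ι hι).2 hi
  obtain ⟨a, ha⟩ := hZ (algebraMap _ K (x i0))
    ((map_ne_zero_iff _ (IsFractionRing.injective _ K)).2 hi0')
  have ha' : v (ι (x i0)) = a := ha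
  have hale : a ≤ c + e := by
    by_contra h
    obtain ⟨u, hu⟩ := hint (algebraMap _ K (x i0)) (-((c + e + 1 : ℕ) : ℤ)) (Or.inr (by
      rw [ha, Int.cast_neg, neg_neg, Int.cast_le]
      push_cast
      omega))
    have h2 : x i0 = (p : WittVector p (AlgebraicClosure (ZMod p))) ^ (c + e + 1) * u := by
      apply hι
      rw [map_mul, map_pow, map_natCast, hu, zpow_neg, zpow_natCast, ← mul_assoc,
        mul_inv_cancel₀ (pow_ne_zero _ hp0), one_mul]
      rfl
    have h3 := (WittVector.mem_span_p_pow_iff_le_coeff_eq_zero (x i0) (c + e + 1)).1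
      (Ideal.mem_span_singleton.2 ⟨u, h2⟩)
    refine hi0' ?_
    ext j
    rw [WittVector.zero_coeff]
    rcases lt_or_ge j (c + e + 1) with hj | hj
    · exact h3 j hj
    · exact hx1 i0 j hj
  have hvy : ∀ i, x i ≠ 0 → v ((p : Ω) ^ (-a) * ι (x i)) = -a + v (ι (x i)) := fun i hi => by
    rw [hv.mul _ _ (zpow_ne_zero _ hp0) (hnz i hi), hvp, Int.cast_neg]
  refine ⟨fun i => ⟨(p : Ω) ^ (-a) * ι (x i), mul_mem (zpow_mem (natCast_mem _ p) _)
    ⟨algebraMap _ K (x i), rfl⟩⟩, fun i => ?_, ⟨i0, ?_, ?_⟩, ?_⟩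
  · by_cases hi : x i = 0
    · exact Or.inl (by simp [hi])
    · refine Or.inr ?_
      have := hmin i (by simpa using hi)
      simp only [hvy i hi]
      linarith
  · exact mul_ne_zero (zpow_ne_zero _ hp0) (hnz i0 hi0')
  · simp only [hvy i0 hi0', ha', neg_add_cancel]
  · obtain ⟨u, hu⟩ := Ideal.mem_span_singleton.1
      ((WittVector.mem_span_p_pow_iff_le_coeff_eq_zero _ _).2 hx2)
    have h1 := hev x
    rw [hu, map_mul, map_pow, map_natCast] at h1
    have h2 : MvPolynomial.eval₂ (algebraMap K Ω).fieldRange.subtype (fun i => ι (x i)) D =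
        (p : Ω) ^ (-(e : ℤ)) * ((p : Ω) ^ (N * (c + e + 1) - 1) * ι u) := by
      rw [h1, zpow_neg, ← mul_assoc, inv_mul_cancel₀ (zpow_ne_zero _ hp0), one_mul]
    have h3 := scale_FD7 (algebraMap K Ω).fieldRange.subtype hD ((p : Ω) ^ (-a)) fun i => ι (x i)
    rw [h2, ← zpow_natCast, ← zpow_mul, ← zpow_natCast, ← mul_assoc, ← mul_assoc,
      ← zpow_add₀ hp0, ← zpow_add₀ hp0] at h3
    refine Eq.mpr (congrArg (Ge v C) ((MvPolynomial.eval₂_comp_left (algebraMap K Ω).fieldRange.subtype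
      (RingHom.id _) _ D).trans h3)) (((Ge.self _).mul hv (hG u)).mono ?_)
    rw [hvp, add_zero]
    refine hc.trans ?_
    rw [← Int.cast_natCast, Int.cast_le]
    have h4 : 1 ≤ N * (c + e + 1) := Nat.mul_pos (hd.trans hdN) (Nat.succ_pos _)
    have h5 : (d : ℤ) + 1 ≤ N := by exact_mod_cast hdN
    have h6 : (1 : ℤ) ≤ d := by exact_mod_cast hd
    push_cast [Nat.cast_sub h4]
    nlinarith [Int.natCast_nonneg c, Int.natCast_nonneg e, mul_le_mul_of_nonneg_right hale
      (Int.natCast_nonneg d), mul_le_mul_of_nonneg_right h5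
      (by positivity : (0 : ℤ) ≤ c + e + 1)]

end

variable {K Ω : Type} [Field K] [Field Ω] [Algebra K Ω] {v : Ω → ℚ}

lemma ac1_lift (h : AC1 (algebraMap K Ω).fieldRange v) {N d : ℕ} (D : MvPolynomial (Fin N) Ω)
    (hc : ∀ m, ∃ k : K, algebraMap K Ω k = D.coeff m) (hd : 0 < d) (hN : d < N)
    (hD : D.IsHomogeneous d) (C : ℚ) :
    ∃ x : Fin N → K, (∃ i, x i ≠ 0 ∧ v (algebraMap K Ω (x i)) = 0) ∧
      Ge v C (MvPolynomial.eval (fun i => algebraMap K Ω (x i)) D) := by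
  obtain ⟨D₀, rfl⟩ : D ∈ Set.range (MvPolynomial.map (algebraMap K Ω).fieldRange.subtype) := by
    refine MvPolynomial.mem_range_map_iff_coeffs_subset.mpr fun a ha => ?_
    obtain ⟨m, -, rfl⟩ := MvPolynomial.mem_coeffs_iff.mp ha
    exact ⟨⟨_, hc m⟩, rfl⟩
  obtain ⟨x, -, ⟨i, h1, h2⟩, h3⟩ := h N d D₀ hd hN (hD.of_map Subtype.val_injective) C
  choose k hk using fun i => RingHom.mem_fieldRange.mp (x i).2
  refine ⟨k, ⟨i, fun h0 => h1 (by rw [← hk, h0, map_zero]), by rw [hk, h2]⟩, ?_⟩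
  have := MvPolynomial.map_eval (algebraMap K Ω).fieldRange.subtype x D₀
  simp only [hk]
  exact Eq.mpr (congrArg (Ge v C) this.symm) h3

lemma near_mul (hv : Val v) {R : ℚ} (hR : 0 ≤ R) {x y : Ω} (hx : Ge v R (x - 1))
    (hy : Ge v R (y - 1)) : Ge v R (x * y - 1) := by
  rw [show x * y - 1 = (x - 1) * (y - 1) + ((x - 1) + (y - 1)) by ring]
  exact ((hx.mul hv hy).mono (by linarith)).add hv (hx.add hv hy)

lemma near_pow (hv : Val v) {R : ℚ} (hR : 0 ≤ R) {x : Ω} (hx : Ge v R (x - 1)) (k : ℕ) :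
    Ge v R (x ^ k - 1) := by
  induction k with
  | zero => exact Or.inl (by simp)
  | succ k ih => rw [pow_succ]; exact near_mul hv hR ih hx

lemma near_root [IsAlgClosed Ω] [CharZero Ω] (hv : Val v)
    (hτ : ∀ (τ : Ω ≃ₐ[K] Ω) a, v (τ a) = v a) {m : ℕ} (hm : 0 < m) {z : Ω}
    (hz : Ge v (m * (v m + 1)) (z - 1)) :
    ∃ η : Ω, η ≠ 0 ∧ η ^ m = z ∧ ∀ τ : Ω ≃ₐ[K] Ω, τ z = z → τ η = η := by
  have m0 : (m : Ω) ≠ 0 := by exact_mod_cast hm.ne'
  have hR : 0 ≤ v m := (Ge.nat hv m).resolve_left m0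
  have : NeZero (m : Ω) := ⟨m0⟩
  have : NeZero m := ⟨hm.ne'⟩
  obtain ⟨ζ, hζ⟩ := HasEnoughRootsOfUnity.exists_primitiveRoot Ω m
  obtain ⟨α, hα⟩ := IsAlgClosed.exists_pow_nat_eq z hm
  have h1 := congrArg (Polynomial.eval 1) (X_pow_sub_C_eq_prod hζ hm hα)
  simp only [Polynomial.eval_sub, Polynomial.eval_pow, Polynomial.eval_X, Polynomial.eval_C,
    Polynomial.eval_prod, one_pow] at h1
  obtain ⟨i, -, hi⟩ : ∃ i ∈ range m, Ge v (v m + 1) (1 - ζ ^ i * α) := by
    by_contra hc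
    simp only [Ge, not_exists, not_and, not_or, not_le] at hc
    have h2 := hz.neg hv
    rw [neg_sub, h1] at h2
    have h3 := h2.resolve_left (prod_ne_zero_iff.mpr fun i hi => (hc i hi).1)
    rw [mulv_prod hv.mul _ fun i hi => (hc i hi).1] at h3
    have h4 := sum_lt_sum_of_nonempty (nonempty_range_iff.mpr hm.ne') fun i hi => (hc i hi).2
    simp only [sum_const, card_range, nsmul_eq_mul] at h4
    linarith
  set η := ζ ^ i * α with hη
  have h2 : η ^ m = z := by rw [hη, mul_pow, ← pow_mul, mul_comm i, pow_mul, hζ.pow_eq_one, one_pow,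
    one_mul, hα]
  have h3 : Ge v (v m + 1) (η - 1) := by simpa using hi.neg hv
  refine ⟨η, fun h0 => ?_, h2, fun τ hτ' => ?_⟩
  · rw [h0, sub_zero] at hi
    have := hi.resolve_left one_ne_zero
    rw [mulv_one hv.mul] at this
    linarith
  have h4 : Ge v (v m + 1) (τ η - 1) := by
    have e : τ η - 1 = τ (η - 1) := by simp
    rw [e]
    exact h3.imp (fun h => by rw [h, map_zero]) fun h => by rwa [hτ]
  have h5 := geom_sum₂_mul (τ η) η m
  rw [← map_pow, h2, hτ', sub_self] at h5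
  refine sub_eq_zero.mp ((mul_eq_zero.mp h5).resolve_left fun h0 => ?_)
  have h6 : Ge v (v m + 1) (∑ j ∈ range m, (τ η ^ j * η ^ (m - 1 - j) - 1)) :=
    Ge.sum hv fun j _ => near_mul hv (by linarith) (near_pow hv (by linarith) h4 _)
      (near_pow hv (by linarith) h3 _)
  rw [sum_sub_distrib, h0] at h6
  have h7 := (h6.neg hv).resolve_left (by simpa using hm.ne')
  simp only [sum_const, card_range, nsmul_eq_mul, mul_one, zero_sub, neg_neg] at h7
  linarith

lemma hilbert90 {L : Type} [Field L] [Algebra K L] (H : Subgroup (L ≃ₐ[K] L)) [Fintype H]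
    (c : H → L) (h0 : ∀ g, c g ≠ 0) (hc : ∀ g h, c (g * h) = g.1 (c h) * c g) :
    ∃ a : L, a ≠ 0 ∧ ∀ g, g.1 a = c g * a := by
  have li := (linearIndependent_monoidHom L L).comp (fun g : H => (g.1 : L →* L))
    fun g h e => Subtype.ext (AlgEquiv.ext fun z => DFunLike.congr_fun e z)
  obtain ⟨z, hz⟩ : ∃ z, ∑ g : H, c g * g.1 z ≠ 0 := by
    by_contra hn
    push Not at hn
    refine h0 1 (Fintype.linearIndependent_iff.mp li c ?_ 1)
    funext z
    simpa [Finset.sum_apply] using hn z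
  refine ⟨(∑ g : H, c g * g.1 z)⁻¹, inv_ne_zero hz, fun g => ?_⟩
  have : c g * g.1 (∑ h : H, c h * h.1 z) = ∑ h : H, c h * h.1 z := by
    rw [map_sum, mul_sum]
    exact Fintype.sum_equiv (Equiv.mulLeft g) _ _ fun h => by
      simp only [Equiv.coe_mulLeft, hc, map_mul, Subgroup.coe_mul, AlgEquiv.mul_apply]; ring
  rw [map_inv₀]
  conv_rhs => rw [← this]
  rw [mul_inv, ← mul_assoc, mul_inv_cancel₀ (h0 g), one_mul]

variable {L : Type} [Field L] [Algebra K L] [FiniteDimensional K L] [IsGalois K L]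

lemma norm_form (H : Subgroup (L ≃ₐ[K] L)) {a : L} (hH : ∀ g : H, g.1 a = a) {N : ℕ}
    (β β' : Fin N → L) (hF : ∀ (g : H) i, g.1 (β' i) = β' i) :
    ∃ D : MvPolynomial (Fin N) L,
      D.IsHomogeneous (Fintype.card ((L ≃ₐ[K] L) ⧸ H) * Fintype.card H) ∧
      (∀ j, ∃ k : K, algebraMap K L k = D.coeff j) ∧ ∀ x : Fin N → K,
        MvPolynomial.eval (fun i => algebraMap K L (x i)) D = ∏ c : (L ≃ₐ[K] L) ⧸ H,
          c.out (∏ h : H, h.1 (∑ i, x i • β i) - a * (∑ i, x i • β' i) ^ Fintype.card H) := by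
  let μ : (L ≃ₐ[K] L) → MvPolynomial (Fin N) L →+* MvPolynomial (Fin N) L :=
    fun g => MvPolynomial.map (g : L →+* L)
  have hμ' : ∀ g h q, μ g (μ h q) = μ (g * h) q := fun g h q => MvPolynomial.map_map _ _ q
  obtain ⟨l₁, hl₁⟩ : ∃ l, l = ∑ i, MvPolynomial.C (β i) * MvPolynomial.X (R := L) i := ⟨_, rfl⟩
  obtain ⟨l₂, hl₂⟩ : ∃ l, l = ∑ i, MvPolynomial.C (β' i) * MvPolynomial.X (R := L) i := ⟨_, rfl⟩
  obtain ⟨W, hW'⟩ : ∃ W, W = ∏ h : H, μ h l₁ - MvPolynomial.C a * l₂ ^ Fintype.card H := ⟨_, rfl⟩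
  have w1 : ∀ g : H, μ g W = W := fun g => by
    have e1 : μ g l₂ = l₂ := by simp [μ, hl₂, hF]
    have e2 : μ g (MvPolynomial.C a) = MvPolynomial.C a := by simp [μ, hH]
    simp only [hW', map_sub, map_mul, map_pow, e1, e2, map_prod, hμ']
    congr 1
    exact Fintype.prod_equiv (Equiv.mulLeft g) _ _ fun h => rfl
  have w2 : ∀ g, μ g (∏ c : (L ≃ₐ[K] L) ⧸ H, μ c.out W) = ∏ c : (L ≃ₐ[K] L) ⧸ H, μ c.out W := by
    intro g
    simp only [map_prod, hμ']
    refine Fintype.prod_equiv (MulAction.toPerm g) _ _ fun c => ?_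
    have h1 : (g • c).out⁻¹ * (g * c.out) ∈ H := QuotientGroup.eq.mp (by
      rw [QuotientGroup.out_eq']
      exact (MulAction.Quotient.mk_smul_out H g c).symm)
    have h2 := congrArg (μ (g • c).out) (w1 ⟨_, h1⟩)
    rw [hμ', mul_inv_cancel_left] at h2
    exact h2
  have hl : ∀ β : Fin N → L,
      (∑ i, MvPolynomial.C (β i) * MvPolynomial.X (R := L) i).IsHomogeneous 1 := fun β =>
    MvPolynomial.IsHomogeneous.sum _ _ _ fun i _ => (MvPolynomial.isHomogeneous_X L i).C_mul _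
  have hW : W.IsHomogeneous (Fintype.card H) := by
    rw [hW']
    refine MvPolynomial.IsHomogeneous.sub ?_ ?_
    · have := MvPolynomial.IsHomogeneous.prod univ (fun h : H => μ h l₁) (fun _ => 1)
        fun h _ => (hl₁ ▸ hl β).map _
      rwa [sum_const, card_univ, smul_eq_mul, mul_one] at this
    · have := ((hl₂ ▸ hl β').pow (Fintype.card H)).C_mul a
      rwa [one_mul] at this
  refine ⟨∏ c : (L ≃ₐ[K] L) ⧸ H, μ c.out W, ?_, fun j => ?_, fun x => ?_⟩
  · have := MvPolynomial.IsHomogeneous.prod univ (fun c : (L ≃ₐ[K] L) ⧸ H => μ c.out W)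
      (fun _ => Fintype.card H) fun c _ => hW.map _
    rwa [sum_const, card_univ, smul_eq_mul] at this
  · refine (IsGalois.mem_range_algebraMap_iff_fixed (F := K) _).mpr fun g => ?_
    conv_rhs => rw [← w2 g, MvPolynomial.coeff_map]
    rfl
  · have hev : ∀ g q, MvPolynomial.eval (fun i => algebraMap K L (x i)) (μ g q) =
        g (MvPolynomial.eval (fun i => algebraMap K L (x i)) q) := fun g q => by
      have := MvPolynomial.map_eval (g : L →+* L) (fun i => algebraMap K L (x i)) q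
      simp only [RingHom.coe_coe, Function.comp_def, AlgEquiv.commutes] at this
      exact this.symm
    have e1 : ∀ β : Fin N → L, MvPolynomial.eval (fun i => algebraMap K L (x i))
        (∑ i, MvPolynomial.C (β i) * MvPolynomial.X (R := L) i) = ∑ i, x i • β i := fun β => by
      simp [Algebra.smul_def, mul_comm]
    simp only [map_prod, hev, hW', map_sub, map_mul, map_pow, hl₁, hl₂, e1, MvPolynomial.eval_C]

variable [IsAlgClosure K Ω] [CharZero K] [Algebra L Ω] [IsScalarTower K L Ω]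

lemma func_bd (hv : Val v) (hτ : ∀ (τ : Ω ≃ₐ[K] Ω) a, v (τ a) = v a) (f : L →ₗ[K] K) :
    ∃ c : ℚ, ∀ (w : L) (C : ℚ), Ge v C (algebraMap L Ω w) →
      Ge v (C + c) (algebraMap K Ω (f w)) := by
  obtain ⟨γ, hγ⟩ := (LinearMap.BilinForm.toDual _ (traceForm_nondegenerate K L)).surjective f
  refine ⟨v (algebraMap L Ω γ), fun w C hw => ?_⟩
  have := charZero_of_injective_algebraMap (algebraMap K Ω).injective
  have := IsAlgClosure.isAlgClosed K (K := Ω)
  have h1 : f w = Algebra.trace K L (γ * w) := by rw [← hγ]; rfl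
  rw [h1, IsScalarTower.algebraMap_apply K L Ω, trace_eq_sum_automorphisms, map_sum]
  refine Ge.sum hv fun g _ => ?_
  have h2 := hw.mul hv (Ge.self (v := v) (algebraMap L Ω γ))
  rw [← g.liftNormal_commutes Ω, map_mul, mul_comm]
  exact h2.imp (fun h => by rw [h, map_zero]) fun h => by rwa [hτ]

lemma exists_vars (hv : Val v) (hτ : ∀ (τ : Ω ≃ₐ[K] Ω) a, v (τ a) = v a)
    (H : Subgroup (L ≃ₐ[K] L)) : ∃ (N : ℕ) (β β' : Fin N → L) (B : ℚ),
      Fintype.card ((L ≃ₐ[K] L) ⧸ H) * Fintype.card H < N ∧ (∀ (g : H) i, g.1 (β' i) = β' i) ∧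
      ∀ (x : Fin N → K) i, Ge v B (algebraMap L Ω (∑ i, x i • β i)) →
        Ge v B (algebraMap L Ω (∑ i, x i • β' i)) → Ge v 1 (algebraMap K Ω (x i)) := by
  let F := IntermediateField.fixedField H
  let b := Module.finBasis K (L × F)
  obtain ⟨ret, hret⟩ := F.val.toLinearMap.exists_leftInverse_of_injective
    (LinearMap.ker_eq_bot.mpr Subtype.val_injective)
  choose c₁ hc₁ using fun i => func_bd hv hτ ((b.coord i).comp (LinearMap.inl K L F))
  choose c₂ hc₂ using fun i => func_bd hv hτ (((b.coord i).comp (LinearMap.inr K L F)).comp ret)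
  obtain ⟨B₁, hB₁⟩ := Finite.exists_le fun i => 1 - c₁ i
  obtain ⟨B₂, hB₂⟩ := Finite.exists_le fun i => 1 - c₂ i
  refine ⟨_, fun i => (b i).1, fun i => (b i).2, max B₁ B₂, ?_, fun g i => (b i).2.2 g,
    fun x i h1 h2 => ?_⟩
  · have h1 := H.card_eq_card_quotient_mul_card_subgroup
    rw [IsGalois.card_aut_eq_finrank, Nat.card_eq_fintype_card, Nat.card_eq_fintype_card] at h1
    rw [Module.finrank_prod, ← h1]
    exact Nat.lt_add_of_pos_right Module.finrank_pos
  · have h3 := ((hc₁ i _ _ h1).mono (C' := 1) (by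
      linarith [hB₁ i, le_max_left B₁ B₂])).add hv ((hc₂ i _ _ h2).mono (C' := 1) (by
      linarith [hB₂ i, le_max_right B₁ B₂]))
    have h4 : ∀ z : F, ret (z : L) = z := fun z => LinearMap.congr_fun hret z
    rw [← map_add] at h3
    convert h3 using 2
    simp only [map_sum, map_smul, LinearMap.comp_apply, h4, ← sum_add_distrib, ← smul_add,
      ← map_add, LinearMap.inl_apply, LinearMap.inr_apply, Prod.mk_add_mk, add_zero, zero_add,
      Prod.mk.eta]
    simp [Finsupp.single_apply]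

theorem norm_surj (hv : Val v) (hτ : ∀ (τ : Ω ≃ₐ[K] Ω) a, v (τ a) = v a)
    (hA : AC1 (algebraMap K Ω).fieldRange v) (H : Subgroup (L ≃ₐ[K] L)) {a : L} (ha : a ≠ 0)
    (hH : ∀ g : H, g.1 a = a) : ∃ d : L, d ≠ 0 ∧ a = ∏ g : H, g.1 d := by
  have := charZero_of_injective_algebraMap (algebraMap K Ω).injective
  have := charZero_of_injective_algebraMap (algebraMap K L).injective
  have := IsAlgClosure.isAlgClosed K (K := Ω)
  have : IsAlgClosure L Ω := ⟨this, Algebra.IsAlgebraic.tower_top (K := K) L⟩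
  have hg : ∀ (g : L ≃ₐ[K] L) (z : L), v (algebraMap L Ω (g z)) = v (algebraMap L Ω z) :=
    fun g z => by rw [← g.liftNormal_commutes Ω, hτ]
  obtain ⟨N, β, β', B, hN, hF, hB⟩ := exists_vars hv hτ H
  obtain ⟨D, hD, d1, d2⟩ := norm_form H hH β β' hF
  have m0 : 0 < Fintype.card H := Fintype.card_pos
  have r0 : 0 < Fintype.card ((L ≃ₐ[K] L) ⧸ H) := Fintype.card_pos
  generalize hm : Fintype.card H = m at *
  generalize hr : Fintype.card ((L ≃ₐ[K] L) ⧸ H) = r at *
  obtain ⟨B', hB'⟩ : ∃ B', B' = m * B + |v (algebraMap L Ω a)| := ⟨_, rfl⟩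
  obtain ⟨x, ⟨i, x0, x1⟩, hx⟩ := ac1_lift hA (MvPolynomial.map (algebraMap L Ω) D) (fun j => by
    obtain ⟨k, hk⟩ := d1 j
    exact ⟨k, by rw [MvPolynomial.coeff_map, ← hk, ← IsScalarTower.algebraMap_apply]⟩)
    (mul_pos r0 m0) hN (hD.map _) (r * (B' + m * (v m + 1)))
  have h1 := MvPolynomial.map_eval (algebraMap L Ω) (fun i => algebraMap K L (x i)) D
  simp only [Function.comp_def, ← IsScalarTower.algebraMap_apply] at h1
  rw [← h1, d2, map_prod] at hx
  have e5 := hB x i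
  have hw : ∀ g : H, g.1 (∑ i, x i • β' i) = ∑ i, x i • β' i := fun g => by
    simp only [map_sum, Algebra.smul_def, map_mul, AlgEquiv.commutes, hF]
  generalize ∑ i, x i • β i = w₁ at *
  generalize ∑ i, x i • β' i = w₂ at *
  obtain ⟨u₁, hu₁⟩ : ∃ u, u = ∏ h : H, h.1 w₁ := ⟨_, rfl⟩
  obtain ⟨u₂, hu₂⟩ : ∃ u, u = a * w₂ ^ m := ⟨_, rfl⟩
  rw [← hu₁, ← hu₂] at hx
  have e4 : Ge v (B' + m * (v m + 1)) (algebraMap L Ω (u₁ - u₂)) := by
    by_cases h0 : u₁ - u₂ = 0
    · exact Or.inl (by simp [h0])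
    have h3 : ∀ c : (L ≃ₐ[K] L) ⧸ H, algebraMap L Ω (c.out (u₁ - u₂)) ≠ 0 := fun c => by
      rwa [map_ne_zero, map_ne_zero]
    have h4 := hx.resolve_left (prod_ne_zero_iff.mpr fun c _ => h3 c)
    rw [mulv_prod hv.mul _ fun c _ => h3 c] at h4
    simp only [hg, sum_const, card_univ, hr, nsmul_eq_mul] at h4
    exact Or.inr (le_of_mul_le_mul_left h4 (by exact_mod_cast r0))
  have m1 : (0 : ℚ) < m := by exact_mod_cast m0
  have hR : 0 ≤ v m := (Ge.nat hv m).resolve_left (by exact_mod_cast m0.ne')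
  have a0 : algebraMap L Ω a ≠ 0 := by simpa using ha
  have e6 : ¬ Ge v B' (algebraMap L Ω u₂) := fun h => by
    have := (e5 ?_ ?_).resolve_left (by simpa using x0)
    · linarith
    · by_contra h1
      simp only [Ge, not_or, not_le] at h1
      have h2 := (e4.mono (C' := B') (by nlinarith)).add hv h
      have h3 : ∀ g : H, algebraMap L Ω (g.1 w₁) ≠ 0 := fun g => by simpa using h1.1
      rw [← map_add, sub_add_cancel, hu₁, map_prod] at h2
      have h4 := h2.resolve_left (prod_ne_zero_iff.mpr fun g _ => h3 g)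
      rw [mulv_prod hv.mul _ fun g _ => h3 g] at h4
      simp only [hg, sum_const, card_univ, hm, nsmul_eq_mul] at h4
      nlinarith [abs_nonneg (v (algebraMap L Ω a)), h1.2]
    · by_contra h1
      simp only [Ge, not_or, not_le] at h1
      rw [hu₂, map_mul, map_pow] at h
      have h4 := h.resolve_left (mul_ne_zero a0 (pow_ne_zero _ h1.1))
      rw [hv.mul _ _ a0 (pow_ne_zero _ h1.1), mulv_pow hv.mul h1.1] at h4
      nlinarith [le_abs_self (v (algebraMap L Ω a)), h1.2]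
  simp only [Ge, not_or, not_le] at e6
  have u0 : u₂ ≠ 0 := by simpa using e6.1
  obtain ⟨η, η0, h1, h2⟩ := near_root hv hτ m0 (z := algebraMap L Ω (u₁ / u₂)) (by
    have h1 := e4.mul hv (Ge.self (v := v) (algebraMap L Ω u₂)⁻¹)
    rw [mulv_inv hv.mul e6.1] at h1
    have h2 : algebraMap L Ω (u₁ / u₂) - 1 = algebraMap L Ω (u₁ - u₂) * (algebraMap L Ω u₂)⁻¹ := by
      rw [map_div₀, map_sub, sub_mul, mul_inv_cancel₀ e6.1, div_eq_mul_inv]
    rw [h2]
    exact h1.mono (by linarith [e6.2]))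
  obtain ⟨θ, rfl⟩ := fixed_mem (K := L) η fun τ => h2 (τ.restrictScalars K) (τ.commutes _)
  have h4 : ∀ g : H, g.1 θ = θ := fun g => by
    refine (algebraMap L Ω).injective ((g.1.liftNormal_commutes Ω θ).symm.trans (h2 _ ?_))
    rw [g.1.liftNormal_commutes Ω, map_div₀ g.1, hu₂, map_mul g.1, map_pow g.1, hH, hw, hu₁,
      map_prod g.1]
    congr 2
    exact Fintype.prod_equiv (Equiv.mulLeft g) _ _ fun h => rfl
  have h5 : θ ^ m = u₁ / u₂ := (algebraMap L Ω).injective (by rw [map_pow, h1])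
  have h6 : θ ≠ 0 := by simpa using η0
  have h7 : u₁ ≠ 0 := fun h => pow_ne_zero m h6 (by rw [h5, h, zero_div])
  have h8 : w₂ ≠ 0 := fun h => u0 (by rw [hu₂, h, zero_pow m0.ne', mul_zero])
  have h9 : w₁ ≠ 0 := fun h => h7 (by
    rw [hu₁, h]; exact prod_eq_zero (mem_univ 1) (map_zero _))
  refine ⟨w₁ / (w₂ * θ), div_ne_zero h9 (mul_ne_zero h8 h6), ?_⟩
  simp only [map_div₀, map_mul, hw, h4, prod_div_distrib, prod_const, card_univ, hm, ← hu₁,
    mul_pow, h5]
  rw [hu₂]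
  field_simp

end Pool.Agent.P.MP_7d29e8_ag
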