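import Pool.Agent.P.MP_7d29e8_ag.HKap

set_option autoImplicit false

/-! The Kottwitz homomorphism is single valued modulo `rel`. -/

namespace Pool.Agent.P.MP_7d29e8_ag

open Finset SemidirectProduct
open scoped Classical

variable {K Ω : Type} [Field K] [Field Ω] [Algebra K Ω]
  {n : Type} [Fintype n] [DecidableEq n]
  {ι M N : Type} [AddCommGroup M] [Module ℚ M] [AddCommGroup N] [Module ℚ N]
  {P : RootPairing ι ℚ M N} {wt : n → M}

omit [DecidableEq n] in
lemma free_span (wt : n → M) : Module.Finite ℤ (Submodule.span ℤ (Set.range wt)) ∧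
    Module.Free ℤ (Submodule.span ℤ (Set.range wt)) := by
  have := IsAddTorsionFree.of_module_rat M
  have := Module.Finite.span_of_finite ℤ (Set.finite_range wt)
  exact ⟨this, Module.free_of_finite_type_torsion_free'⟩

omit [DecidableEq n] in
lemma exists_dual (hs : Submodule.span ℚ (Set.range wt) = ⊤) :
    ∃ (J : Type) (_ : Fintype J) (x : J → N) (s : J → n → ℤ), (∀ j, x j ∈ lat P wt) ∧
      ∀ z : N, z = ∑ j, (∑ i, s j i * hh P wt z i) • x j := by
  obtain ⟨h1, h2⟩ := free_span wt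
  let b := Module.Free.chooseBasis ℤ (Submodule.span ℤ (Set.range wt))
  let w : n → Submodule.span ℤ (Set.range wt) := fun i => ⟨wt i, Submodule.subset_span ⟨i, rfl⟩⟩
  choose s hs' using fun j => (Submodule.mem_span_range_iff_exists_fun ℤ).mp (b j).2
  choose x hx using fun j => exists_of_rel (P := P) hs (fun i => (b.repr (w i) j : ℚ)) fun a ha => by
    have h3 : ∑ i, a i • w i = 0 := Subtype.ext (by simpa [w] using ha)
    have h4 := congrArg (fun y => b.repr y j) h3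
    simp only [map_sum, map_zsmul, map_zero, Finsupp.coe_finsetSum, Finset.sum_apply,
      Finsupp.coe_smul, Pi.smul_apply, smul_eq_mul, Finsupp.coe_zero, Pi.zero_apply] at h4
    exact_mod_cast h4
  refine ⟨_, inferInstance, x, s, fun j => mem_lat.mpr fun i => ⟨_, (hx j i).symm⟩, fun z =>
    hh_inj (P := P) hs fun i => ?_⟩
  have h3 := congrArg (fun y : Submodule.span ℤ (Set.range wt) => P.toLinearMap y.1 z)
    (b.sum_repr (w i))
  simp only [w, AddSubmonoidClass.coe_finsetSum, SetLike.val_smul, ← hs', map_sum, map_zsmul,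
    LinearMap.sum_apply, LinearMap.smul_apply, zsmul_eq_mul] at h3
  simp only [hh, map_sum, map_smul, smul_eq_mul] at hx ⊢
  rw [← h3]
  exact sum_congr rfl fun j _ => by rw [← hx, mul_comm]

omit [DecidableEq n] in
lemma exists_comb (hs : Submodule.span ℚ (Set.range wt) = ⊤) (μ : N →ₗ[ℚ] ℚ)
    (h : ∀ x ∈ lat P wt, ∃ z : ℤ, μ x = z) : ∃ k : n → ℤ, ∀ z, ∑ i, k i * hh P wt z i = μ z := by
  obtain ⟨J, _, x, s, h1, h2⟩ := exists_dual (P := P) hs
  choose m hm using fun j => h _ (h1 j)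
  refine ⟨fun i => ∑ j, m j * s j i, fun z => ?_⟩
  conv_rhs => rw [h2 z]
  simp only [map_sum, map_smul, hm, smul_eq_mul]
  push_cast
  simp only [sum_mul]
  rw [sum_comm]
  exact sum_congr rfl fun j _ => sum_congr rfl fun i _ => by ring

omit [DecidableEq n] in
lemma exists_sep (hs : Submodule.span ℚ (Set.range wt) = ⊤) (R : AddSubgroup N) {w : N}
    (hw : w ∈ lat P wt) (h : w ∉ R) : ∃ (μ : N →ₗ[ℚ] ℚ) (c : ℕ), 0 < c ∧
      (∀ x ∈ lat P wt, x ∈ R → ∃ z : ℤ, μ x = z) ∧ (∀ x ∈ lat P wt, ∃ z : ℤ, c * μ x = z) ∧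
      ¬ ∃ z : ℤ, μ w = z := by
  obtain ⟨J, _, x, s, h1, h2⟩ := exists_dual (P := P) hs
  obtain ⟨χ, hχ⟩ := CharacterModule.exists_character_apply_ne_zero_of_ne_zero
    (a := (w : N ⧸ R)) (fun h0 => h ((QuotientAddGroup.eq_zero_iff w).mp h0))
  choose q hq using fun j => QuotientAddGroup.mk_surjective (χ (x j : N ⧸ R))
  let μ : N →ₗ[ℚ] ℚ := ∑ j, ∑ i, (s j i * q j) • P.toLinearMap (wt i)
  have key : ∀ z ∈ lat P wt, ∃ m : J → ℤ, μ z = ∑ j, m j • q j ∧ z = ∑ j, m j • x j := by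
    intro z hz
    choose k hk using mem_lat.mp hz
    refine ⟨fun j => ∑ i, s j i * k i, ?_, ?_⟩
    · simp only [hh] at hk
      simp only [μ, LinearMap.sum_apply, LinearMap.smul_apply, hk, smul_eq_mul, zsmul_eq_mul]
      push_cast
      simp only [sum_mul]
      exact sum_congr rfl fun j _ => sum_congr rfl fun i _ => by ring
    · conv_lhs => rw [h2 z]
      refine sum_congr rfl fun j _ => ?_
      rw [← Int.cast_smul_eq_zsmul ℚ]
      simp [hk]
  have key2 : ∀ z ∈ lat P wt, (χ (z : N ⧸ R) = 0 ↔ ∃ m : ℤ, μ z = m) := fun z hz => by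
    obtain ⟨m, a1, a2⟩ := key z hz
    have : χ (z : N ⧸ R) = ((μ z : ℚ) : AddCircle (1 : ℚ)) := by
      rw [a1]
      conv_lhs => rw [a2]
      simp only [QuotientAddGroup.mk_sum, QuotientAddGroup.mk_zsmul, map_sum, map_zsmul, hq]
    rw [this, AddCircle.coe_eq_zero_iff]
    simp [eq_comm]
  refine ⟨μ, ∏ j, (q j).den, prod_pos fun j _ => Rat.den_pos _, fun z hz hR => (key2 z hz).mp (by
    rw [(QuotientAddGroup.eq_zero_iff z).mpr hR, map_zero]), fun z hz => ?_,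
    fun h0 => hχ ((key2 w hw).mpr h0)⟩
  obtain ⟨m, a1, -⟩ := key z hz
  refine ⟨∑ j, m j * ((∏ l ∈ univ.erase j, (q l).den : ℕ) * (q j).num), ?_⟩
  rw [a1, mul_sum]
  push_cast
  refine sum_congr rfl fun j _ => ?_
  rw [← mul_prod_erase _ _ (mem_univ j), ← Rat.mul_den_eq_num, zsmul_eq_mul]
  ring

lemma zpow_sum_ne {α : Type} {e : Ω} (he : e ≠ 0) (s : Finset α) (f : α → ℤ) :
    e ^ ∑ i ∈ s, f i = ∏ i ∈ s, e ^ f i := by
  induction s using Finset.induction_on with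
  | empty => simp
  | insert a s ha ih => rw [prod_insert ha, sum_insert ha, zpow_add₀ he, ih]

/-- the invariant of a rational point of the torus attached to a character -/
def RR (K : Type) [Field K] [Algebra K Ω] (P : RootPairing ι ℚ M N) (wt : n → M) (v : Ω → ℚ)
    (μ : N →ₗ[ℚ] ℚ) (k : (Ω ≃ₐ[K] Ω) → n → ℤ) (t : n → Ωˣ) (q : ℚ) : Prop :=
  ∃ a : Ω, a ≠ 0 ∧ (∀ τ : Ω ≃ₐ[K] Ω, τ a = a * ∏ i, (t i : Ω) ^ k τ i) ∧
    ∃ x, (∀ i, v (t i) = hh P wt x i) ∧ q = μ x - v a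

variable {v : Ω → ℚ} {μ : N →ₗ[ℚ] ℚ} {k : (Ω ≃ₐ[K] Ω) → n → ℤ}

omit [DecidableEq n] in
lemma RR.mul (hv : Val v) {t t' : n → Ωˣ} {q q' : ℚ} (h : RR K P wt v μ k t q)
    (h' : RR K P wt v μ k t' q') : RR K P wt v μ k (t * t') (q + q') := by
  obtain ⟨a, a0, a1, x, a2, rfl⟩ := h
  obtain ⟨c, c0, c1, y, c2, rfl⟩ := h'
  refine ⟨a * c, mul_ne_zero a0 c0, fun τ => ?_, x + y, fun i => ?_, ?_⟩
  · simp only [map_mul, a1, c1, Pi.mul_apply, Units.val_mul, mul_zpow, prod_mul_distrib]; ring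
  · simp [hv.mul, a2, c2, hh_add]
  · rw [map_add, hv.mul _ _ a0 c0]; ring

omit [DecidableEq n] in
lemma RR.orbit (hv : Val v) {A : (Ω ≃ₐ[K] Ω) → N → N}
    (hk : ∀ τ x, ∑ i, k τ i * hh P wt (A τ x) i = μ x - μ (A τ x)) {α : Type} (Z : Finset α)
    (e : α → Ω) (ξ : α → N) (c : ℚ) (he : ∀ z ∈ Z, e z ≠ 0) (hξ : ∀ z ∈ Z, ξ z ∈ lat P wt)
    (hc : ∀ z ∈ Z, ∃ m : ℤ, μ (ξ z) - c = m)
    (hπ : ∀ τ : Ω ≃ₐ[K] Ω, ∃ π : α → α, (∀ z ∈ Z, π z ∈ Z) ∧ Set.InjOn π Z ∧
      ∀ z ∈ Z, e (π z) = τ (e z) ∧ ξ (π z) = A τ (ξ z))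
    {t : n → Ωˣ} (ht : ∀ i, (t i : Ω) = ∏ z ∈ Z, e z ^ ⌊hh P wt (ξ z) i⌋) :
    RR K P wt v μ k t (c * ∑ z ∈ Z, v (e z)) := by
  choose! m hm using hc
  have hf : ∀ z ∈ Z, ∀ i, ((⌊hh P wt (ξ z) i⌋ : ℤ) : ℚ) = hh P wt (ξ z) i := fun z hz i => by
    obtain ⟨j, hj⟩ := mem_lat.mp (hξ z hz) i
    simp [hj]
  refine ⟨∏ z ∈ Z, e z ^ m z, prod_ne_zero_iff.mpr fun z hz => zpow_ne_zero _ (he z hz),
    fun τ => ?_, ∑ z ∈ Z, v (e z) • ξ z, fun i => ?_, ?_⟩
  · obtain ⟨π, p1, p2, p3⟩ := hπ τ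
    have h1 : Z.image π = Z := eq_of_subset_of_card_le (image_subset_iff.mpr p1)
      (card_image_of_injOn p2).ge
    have h2 : (∏ z ∈ Z, e z ^ m z) * ∏ i, (t i : Ω) ^ k τ i =
        ∏ z ∈ Z, e z ^ (m z + ∑ i, ⌊hh P wt (ξ z) i⌋ * k τ i) := by
      simp only [ht, ← prod_zpow, ← zpow_mul]
      rw [prod_comm, ← prod_mul_distrib]
      exact prod_congr rfl fun z hz => by rw [zpow_add₀ (he z hz), zpow_sum_ne (he z hz)]
    rw [h2, map_prod]
    conv_rhs => rw [← h1, prod_image p2]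
    refine prod_congr rfl fun z hz => ?_
    rw [map_zpow₀, (p3 z hz).1]
    congr 1
    refine Int.cast_injective (α := ℚ) ?_
    push_cast
    simp only [hf _ (p1 z hz)]
    simp only [← hm _ (p1 z hz), ← hm z hz, (p3 z hz).2, mul_comm _ (k τ _ : ℚ), hk]
    ring
  · rw [ht, mulv_prod hv.mul _ fun z hz => zpow_ne_zero _ (he z hz)]
    simp only [hh, map_sum, map_smul, smul_eq_mul]
    exact sum_congr rfl fun z hz => by rw [mulv_zpow hv.mul (he z hz), mul_comm]; exact congrArg _ (hf z hz i)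
  · rw [mulv_prod hv.mul _ fun z hz => zpow_ne_zero _ (he z hz), map_sum, mul_sum,
      ← sum_sub_distrib]
    exact sum_congr rfl fun z hz => by
      rw [mulv_zpow hv.mul (he z hz), map_smul, ← hm z hz, smul_eq_mul]; ring

section Minor

variable {R : Type} [CommRing R] {S : n → Prop} {h : n → ℚ} {u : Matrix n n R}

lemma Eof_up' (hS : ∀ i j, h j < h i → S j → S i) (hu : Pos h (u - 1)) :
    Eof S * (u * Eof S) = u * Eof S := by
  ext i j
  rw [Eof_mul_apply, mul_Eof_apply]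
  by_cases hj : S j
  · by_cases hi : S i
    · simp [hi]
    · have h1 := hu i j fun h1 => hi (hS i j h1 hj)
      rw [Matrix.sub_apply, Matrix.one_apply_ne (by rintro rfl; exact hi hj), sub_zero] at h1
      simp [hi, hj, h1]
  · simp [hj]

lemma Eof_down' (hS : ∀ i j, h j < h i → S j → S i) (hu : Pos (-h) (u - 1)) :
    Eof S * (u * Eof S) = Eof S * u := by
  ext i j
  rw [Eof_mul_apply, mul_Eof_apply, Eof_mul_apply]
  by_cases hi : S i
  · by_cases hj : S j
    · simp [hj]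
    · have h1 := hu i j fun h1 => hj (hS j i (by simpa using h1) hi)
      rw [Matrix.sub_apply, Matrix.one_apply_ne (by rintro rfl; exact hj hi), sub_zero] at h1
      simp [hi, hj, h1]
  · simp [hi]

end Minor

variable [CharZero Ω]

lemma ac_Eof' {φ : SL n Ω} {a : N → N} (H : Nrm P wt φ a) {S S' : n → Prop}
    (h : ∀ i l, (∀ x, hh P wt (a x) i = hh P wt x l) → (S' i ↔ S l)) :
    ac φ (Eof S) = Eof S' := by
  rw [ac_apply, Units.mul_inv_eq_iff_eq_mul,
    show (Eof S : Matrix n n Ω).map φ.right = Eof S from Eof_map φ.right.toRingHom]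
  ext i l
  rw [Eof_mul_apply, mul_Eof_apply]
  by_cases h0 : φ.left.val i l = 0
  · simp [h0]
  · simp only [h i l fun x => (ac_entry (H x) i l).1 h0]

lemma sum_Eof {φ : SL n Ω} {a : N → N} (H : Nrm P wt φ a) {S S' : n → Prop}
    (h : ac φ (Eof S) = Eof S') (x : N) :
    ∑ i with S' i, hh P wt (a x) i = ∑ i with S i, hh P wt x i := by
  have e : ∀ (S : n → Prop) x, (Eof S * DD P wt Ω x).trace =
      ((∑ i with S i, hh P wt x i : ℚ) : Ω) := fun S x => by
    rw [sum_filter]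
    simp only [Matrix.trace, Matrix.diag, Eof_mul_apply, DD, Matrix.diagonal_apply_eq]
    push_cast
    exact sum_congr rfl fun i _ => by split_ifs <;> simp
  have h1 := trace_ac φ (Eof S * DD P wt Ω x)
  rw [map_mul, H, h, e, e, map_ratCast] at h1
  exact_mod_cast h1

variable {G : Subgroup (GL n Ω)} {b : P.Base}

omit [CharZero Ω] in
lemma RelB.minor {E : Type} [Field E] [Algebra Ω E] {ρ : N} {o : E → ℚ}
    (ho : ∀ a b, a ≠ 0 → b ≠ 0 → o (a * b) = o a + o b) (hc : ∀ c, o (algebraMap Ω E c) = 0)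
    {g : GL n E} {x : N} (hg : RelB G b wt ρ o g x) :
    ∃ x', x' - x ∈ QL P ∧ ∀ S : n → Prop, (∀ i j, hh P wt ρ j < hh P wt ρ i → S j → S i) →
      DE (Eof S) g.val ≠ 0 → o (DE (Eof S) g.val) = ∑ i with S i, hh P wt x' i := by
  obtain ⟨a, ha, t, ht, l, w, c, hc', x', h1, -, ⟨-, ⟨w₀, rfl⟩, -⟩, h4, rfl⟩ := hg
  refine ⟨x', h4, fun S hS h6 => ?_⟩
  obtain ⟨τ, rfl, -, h5⟩ := h1
  have key : DE (Eof S) (a * dU τ * Matrix.GeneralLinearGroup.map (algebraMap Ω E) w₀ * c).val =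
      (∏ i with S i, (τ i : E)) * algebraMap Ω E (DE (Eof S) w₀.val) := by
    rw [Units.val_mul, DE_mul_right Eof_mul_self (Eof_up' hS hc'.2), DE_pos hc'.2, mul_one,
      mul_assoc, Units.val_mul, DE_mul_left Eof_mul_self (Eof_down' hS (hh_neg (P := P) (wt := wt) ρ ▸ ha.2)),
      DE_pos ha.2, one_mul, Units.val_mul, DE_mul_left Eof_mul_self (by
        ext i j
        by_cases e : i = j
        · subst e; by_cases h : S i <;> simp [Eof, h]
        · simp [Eof, e]), dU_val, DE_diagonal, ← DE_map, Eof_map]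
    rfl
  rw [key] at h6 ⊢
  rw [ho _ _ (left_ne_zero_of_mul h6) (right_ne_zero_of_mul h6), hc, add_zero,
    mulv_prod ho _ fun i _ => (τ i).ne_zero]
  exact sum_congr rfl fun i _ => h5 i

open Polynomial in
omit [CharZero Ω] in
lemma eval_one_eq [IsAlgClosed Ω] {f : Polynomial Ω} (h0 : f.eval 0 = 1) {Z : Finset Ω}
    (hZ : f.roots.toFinset ⊆ Z) : f.eval 1 = ∏ r ∈ Z, (1 - r⁻¹) ^ rootMultiplicity r f := by
  have f0 : f ≠ 0 := fun h => by simp [h] at h0
  have h1 : ∀ a, f.eval a =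
      f.leadingCoeff * ∏ r ∈ f.roots.toFinset, (a - r) ^ rootMultiplicity r f := fun a => by
    conv_lhs => rw [(IsAlgClosed.splits f).eq_prod_roots, prod_multiset_root_eq_finset_root]
    simp [eval_prod]
  rw [← prod_subset hZ fun r _ hr => by
    rw [rootMultiplicity_eq_zero (by simpa [f0] using hr), pow_zero]]
  refine Eq.trans ?_ ((congrArg (· * _) h0).trans (one_mul _))
  rw [h1, h1, mul_assoc, ← prod_mul_distrib]
  refine congrArg _ (prod_congr rfl fun r hr => ?_)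
  have : r ≠ 0 := by
    rintro rfl
    simp [h0] at hr
  rw [← mul_pow]
  congr 1
  field_simp
  ring

open Polynomial in
theorem DS.path (D : DS G P wt) [P.IsReduced] [Finite ι] [P.IsCrystallographic] {ρ : N}
    (hρ' : ∀ i ∈ b.support, 0 < P.root' i ρ) {c : ℕ} (hc : 0 < c) {I : Set (SL n Ω)}
    {u : GL n Ω} (hu : u ∈ Gp G I) : ∃ (Γ : Matrix n n (Polynomial Ω)) (γ : GL n (RatFunc Ω)),
      γ.val = Γ.map (algebraMap _ _) ∧ Γ.map (evalRingHom 0) = 1 ∧
      Γ.map (evalRingHom 1) = u.val ∧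
      (∀ j : ℕ, ∀ φ ∈ I, ac φ (Γ.map (evalRingHom (j : Ω))) = Γ.map (evalRingHom (j : Ω))) ∧
      ∀ r, ∃ z ∈ lat P wt, Qp G b wt ρ (ordr r) γ (c • z) := by
  have hZ : ∀ r : Ω, ∀ a : RatFunc Ω, a ≠ 0 → ∃ z : ℤ, ordr r a = z := fun r a _ =>
    ⟨rootMultiplicity r a.num - rootMultiplicity r a.denom, by simp [ordr]⟩
  induction hu using Submonoid.closure_induction with
  | mem u hu =>
    obtain ⟨hG, hr, hn⟩ := hu
    obtain ⟨U, hU⟩ := exists_path hn
    let κ : (Polynomial Ω) →+* (Polynomial Ω) := eval₂RingHom C (C ((c : Ω)⁻¹) * X)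
    have hκ : ∀ j : ℕ, (U.map κ).map (evalRingHom ((c * j : ℕ) : Ω)) = u.val ^ j := fun j => by
      rw [← hU]
      ext a a'
      have : (c : Ω) ≠ 0 := by exact_mod_cast hc.ne'
      simp [κ, ← comp.eq_def, eval_comp, this]
    have h1 : (U.map κ) ^ c = U := mat_ext hc fun j => by
      rw [← RingHom.mapMatrix_apply, map_pow, RingHom.mapMatrix_apply, hκ, hU, ← pow_mul,
        mul_comm]
    have h2 : U.map κ ∈ Cl (GS G) (Polynomial Ω) := by
      refine Cl.poly (Set.infinite_range_of_injective (f := fun j : ℕ => ((c * j : ℕ) : Ω))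
        fun a b e => Nat.eq_of_mul_eq_mul_left hc (Nat.cast_injective e)) ?_
      rintro _ ⟨j, rfl⟩
      exact (hκ j : (U.map κ).map (eval _) = _) ▸ Cl.self ⟨u ^ j, pow_mem hG j, by simp⟩
    have h3 : U.det = 1 := poly_ext fun j => by
      have := (evalRingHom (j : Ω)).map_det U
      rw [RingHom.mapMatrix_apply, hU, Matrix.det_pow, ← add_sub_cancel 1 u.val,
        det_one_add_nil hn, one_pow] at this
      simpa using this
    obtain ⟨γ, hγ⟩ : IsUnit ((U.map κ).map (algebraMap (Polynomial Ω) (RatFunc Ω))) := by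
      rw [Matrix.isUnit_iff_isUnit_det, ← RingHom.mapMatrix_apply, ← RingHom.map_det,
        ← RingHom.mapMatrix_apply, ← RingHom.map_det, h3]
      simp
    have h4 : γ ∈ GE G (RatFunc Ω) := by
      change γ.val ∈ Cl _ _
      rw [hγ]
      exact Cl.map h2 (IsScalarTower.toAlgHom Ω (Polynomial Ω) (RatFunc Ω))
    refine ⟨U, γ ^ c, ?_, by simpa using hU 0, by simpa using hU 1, fun j φ hφ => ?_,
      fun r => ?_⟩
    · rw [Units.val_pow_eq_pow_val, hγ, ← RingHom.mapMatrix_apply, ← map_pow, h1]; rfl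
    · rw [hU, map_pow, ← acu_val, hr φ hφ]
    · obtain ⟨z, hz, h5⟩ := D.qp_all hρ' (ordr_mul r) (hZ r) h4
      refine ⟨z, hz, ?_⟩
      clear h1 hκ h2 hγ hc
      induction c with
      | zero => intro g x hg; simpa using hg
      | succ c ih => rw [pow_succ, succ_nsmul]; exact ih.mul h5
  | one =>
    refine ⟨1, 1, by simp, by simp, by simp, fun j φ _ => by simp, fun r =>
      ⟨0, zero_mem _, fun g x hg => by simpa using hg⟩⟩
  | mul u u' _ _ h1 h2 =>
    obtain ⟨Γ, γ, a1, a2, a3, a4, a5⟩ := h1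
    obtain ⟨Γ', γ', b1, b2, b3, b4, b5⟩ := h2
    refine ⟨Γ * Γ', γ * γ', by simp [a1, b1], by rw [Matrix.map_mul, a2, b2, mul_one],
      by rw [Matrix.map_mul, a3, b3, Units.val_mul],
      fun j φ hφ => by rw [Matrix.map_mul, map_mul, a4 j φ hφ, b4 j φ hφ], fun r => ?_⟩
    obtain ⟨z, hz, h3⟩ := a5 r
    obtain ⟨z', hz', h4⟩ := b5 r
    exact ⟨z + z', add_mem hz hz', by rw [smul_add]; exact h3.mul h4⟩

open Polynomial in
theorem DS.gp_rr (D : DS G P wt) [P.IsReduced] [Finite ι] [P.IsCrystallographic] [IsAlgClosed Ω]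
    (hv : Val v) {φ : (Ω ≃ₐ[K] Ω) → SL n Ω} (hφ : ∀ τ z, (φ τ).right z = τ z)
    {A : (Ω ≃ₐ[K] Ω) → N →ₗ[ℚ] N} (hA : ∀ τ, Nrm P wt (φ τ) (A τ))
    (hA' : ∀ τ, Function.Surjective (A τ)) {ρ : N} (hρ : ∀ i ∈ b.support, 0 < P.root' i ρ)
    (hρ' : ∀ τ, A τ ρ = ρ) (hk : ∀ τ x, ∑ i, k τ i * hh P wt (A τ x) i = μ x - μ (A τ x))
    {c : ℕ} (hc : 0 < c) (h1 : ∀ x ∈ QL P, ∃ z : ℤ, μ x = z)
    (h2 : ∀ x ∈ lat P wt, ∃ z : ℤ, c * μ x = z) {I : Set (SL n Ω)} (hI : ∀ τ, φ τ ∈ I)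
    {t : n → Ωˣ} (hu : dU t ∈ Gp G I) : RR K P wt v μ k t 0 := by
  obtain ⟨Γ, γ, a1, a2, a3, a4, a5⟩ := D.path hρ hc hu
  let f : (n → Prop) → Polynomial Ω := fun S => DE (Eof S) Γ
  have hev : ∀ S a, (f S).eval a = DE (Eof S) (Γ.map (evalRingHom a)) := fun S a => by
    have := DE_map (evalRingHom a) (Eof S) Γ
    rw [Eof_map] at this
    exact this.symm
  have f0 : ∀ S, (f S).eval 0 = 1 := fun S => by rw [hev, a2, DE_one Eof_mul_self]
  have f1 : ∀ S, (f S).eval 1 = ∏ i with S i, (t i : Ω) := fun S => by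
    rw [hev, a3, dU_val, DE_diagonal]
  have fn : ∀ S, f S ≠ 0 := fun S h => by simpa [h] using f0 S
  have hQ : QL P ≤ lat P wt := (AddSubgroup.closure_le _).mpr (by
    rintro _ ⟨i, rfl⟩; exact (D.sl2 i).1)
  have key : ∀ r, ∃ x ∈ lat P wt, (∃ m : ℤ, μ x - 0 = m) ∧ ∀ S : n → Prop,
      (∀ i j, hh P wt ρ j < hh P wt ρ i → S j → S i) →
      (rootMultiplicity r (f S) : ℚ) = ∑ i with S i, hh P wt x i := fun r => by
    obtain ⟨z, hz, h3⟩ := a5 r
    have h4 := h3 _ _ (RelB.one (ordr_mul r))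
    rw [mul_one, add_zero] at h4
    obtain ⟨x, h5, h6⟩ := h4.minor (ordr_mul r) (ordr_const r)
    refine ⟨x, by simpa using add_mem (hQ h5) (nsmul_mem hz c), ?_, fun S hS => ?_⟩
    · obtain ⟨m, hm⟩ := h1 _ h5
      obtain ⟨m', hm'⟩ := h2 _ hz
      rw [map_sub, map_nsmul, nsmul_eq_mul] at hm
      exact ⟨m + m', by push_cast; linarith⟩
    · have h7 : DE (Eof S) γ.val = algebraMap _ _ (f S) := by
        have := DE_map (algebraMap (Polynomial Ω) (RatFunc Ω)) (Eof S) Γ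
        rwa [Eof_map, ← a1] at this
      rw [← h6 S hS (by rw [h7]; simpa using fn S), h7, ordr_poly]
  choose x x1 x2 x3 using key
  let S₁ : n → n → Prop := fun i j => hh P wt ρ i < hh P wt ρ j
  let S₂ : n → n → Prop := fun i j => hh P wt ρ i < hh P wt ρ j ∨ j = i
  have u1 : ∀ i l j, hh P wt ρ j < hh P wt ρ l → S₁ i j → S₁ i l := fun i l j a c => c.trans a
  have u2 : ∀ i l j, hh P wt ρ j < hh P wt ρ l → S₂ i j → S₂ i l := fun i l j a c =>
    Or.inl (c.elim (fun c => c.trans a) fun c => c ▸ a)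
  have ins : ∀ i, @filter n (S₂ i) (fun _ => Classical.propDecidable _) univ =
      insert i (@filter n (S₁ i) (fun _ => Classical.propDecidable _) univ) := fun i => by
    ext j; simp [S₁, S₂, or_comm]
  have nin : ∀ i, i ∉ @filter n (S₁ i) (fun _ => Classical.propDecidable _) univ := fun i => by
    simp [S₁]
  have m1 : ∀ r i, (rootMultiplicity r (f (S₂ i)) : ℤ) =
      ⌊hh P wt (x r) i⌋ + rootMultiplicity r (f (S₁ i)) := fun r i => by
    obtain ⟨j, hj⟩ := mem_lat.mp (x1 r) i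
    have := x3 r _ (u2 i)
    rw [ins, sum_insert (nin i), ← x3 r _ (u1 i), hj] at this
    rw [hj, Int.floor_intCast]
    exact_mod_cast this
  have rt : ∀ r, x r ≠ 0 → ∃ i, (f (S₁ i)).IsRoot r ∨ (f (S₂ i)).IsRoot r := fun r hr => by
    by_contra hn
    push Not at hn
    refine hr (hh_inj (P := P) D.span fun i => ?_)
    obtain ⟨j, hj⟩ := mem_lat.mp (x1 r) i
    have := m1 r i
    rw [rootMultiplicity_eq_zero (hn i).1, rootMultiplicity_eq_zero (hn i).2, hj] at this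
    simp only [Int.floor_intCast, Nat.cast_zero, add_zero] at this
    rw [hj, ← this, hh_zero]; simp
  let Z' : Finset Ω := univ.biUnion fun i => (f (S₁ i)).roots.toFinset ∪ (f (S₂ i)).roots.toFinset
  have hZ' : ∀ r, r ∈ Z' ↔ ∃ i, (f (S₁ i)).IsRoot r ∨ (f (S₂ i)).IsRoot r := fun r => by
    simp [Z', fn]
  have z1 : ∀ r ∈ Z', 1 - r⁻¹ ≠ 0 := fun r hr h0 => by
    obtain ⟨i, hi⟩ := (hZ' r).mp hr
    rw [sub_eq_zero, eq_comm, inv_eq_one] at h0
    subst h0
    rcases hi with hi | hi <;> exact prod_ne_zero_iff.mpr (fun i _ => (t i).ne_zero)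
      ((f1 _).symm.trans hi)
  have eqv : ∀ (τ : Ω ≃ₐ[K] Ω) r, x (τ r) = A τ (x r) := fun τ r => by
    have e1 : ∀ S S' : n → Prop, (∀ i j, hh P wt ρ j < hh P wt ρ i → S j → S i) →
        (∀ i j, hh P wt ρ j < hh P wt ρ i → S' j → S' i) →
        (∀ i l, (∀ x, hh P wt (A τ x) i = hh P wt x l) → (S' i ↔ S l)) →
        ∑ i with S' i, hh P wt (x (τ r) - A τ (x r)) i = 0 := fun S S' hS hS' h => by
      have e2 := ac_Eof' (hA τ) h
      have e3 : (f S).map (τ : Ω →+* Ω) = f S' := poly_ext fun j => by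
        have := eval_map_apply (p := f S) (τ : Ω →+* Ω) (j : Ω)
        rw [map_natCast] at this
        rw [this, hev, hev, RingHom.coe_coe, ← hφ, ← DE_ac, e2, a4 j _ (hI τ)]
      have e4 := eq_rootMultiplicity_map (p := f S) (τ : Ω →+* Ω).injective r
      rw [e3] at e4
      simp only [hh_sub, sum_sub_distrib]
      rw [sum_Eof (hA τ) e2, ← x3 _ _ hS, ← x3 _ _ hS', e4]
      exact sub_self _
    rw [← sub_eq_zero]
    refine hh_inj (P := P) D.span fun i => ?_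
    have hl : ∀ j l, (∀ x, hh P wt (A τ x) j = hh P wt x l) → hh P wt ρ j = hh P wt ρ l :=
      fun j l h => by rw [← h, hρ']
    have e5 := e1 (S₁ i) (S₁ i) (u1 i) (u1 i) fun j l h => by simp only [S₁, hl j l h]
    have e6 := e1 (fun l => S₁ i l ∨ ∀ x, hh P wt x l = hh P wt (A τ x) i)
      (fun j => S₁ i j ∨ wt j = wt i)
      (fun l j a c => Or.inl (c.elim (fun c => c.trans a) fun c => by
        rwa [c ρ, hρ'] at a))
      (fun l j a c => Or.inl (c.elim (fun c => c.trans a) fun c => by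
        simpa only [S₁, hh, c] using a))
      fun j l h => by
        refine or_congr (by simp only [S₁, hl j l h]) ⟨fun e x => by rw [← h, hh, e]; rfl,
          fun e => pair_ext (P := P) fun y => ?_⟩
        obtain ⟨y, rfl⟩ := hA' τ y
        exact (h y).trans (e y)
    have e7 : @filter n (fun j => S₁ i j ∨ wt j = wt i) (fun _ => Classical.propDecidable _) univ =
        @filter n (S₁ i) (fun _ => Classical.propDecidable _) univ ∪
          univ.filter fun j => wt j = wt i := by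
      ext j; simp
    rw [e7, sum_union (disjoint_left.mpr fun j h e => by
        simp only [mem_filter, mem_univ, true_and] at h e
        simp [S₁, hh, e] at h), e5, zero_add,
      sum_congr rfl (g := fun _ => hh P wt (x (τ r) - A τ (x r)) i) fun j hj => by
        rw [hh, (mem_filter.mp hj).2]; rfl, sum_const, smul_eq_zero] at e6
    rw [hh_zero]
    exact e6.resolve_left (card_ne_zero.mpr ⟨i, by simp⟩)
  have := RR.orbit (μ := μ) hv hk (Z'.filter fun r => x r ≠ 0) (fun r => 1 - r⁻¹) x 0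
    (fun r hr => z1 r (mem_filter.mp hr).1) (fun r _ => x1 r) (fun r _ => x2 r)
    (fun τ => ⟨τ, fun r hr => ?_, τ.injective.injOn, fun r _ => ⟨by simp, eqv τ r⟩⟩) (t := t)
    fun i => ?_
  · rwa [zero_mul] at this
  · have h3 : x (τ r) ≠ 0 := fun h0 => (mem_filter.mp hr).2 (by
      have h4 := hA τ (x r)
      rw [← eqv, h0, ← map_zero (A τ), ← hA τ] at h4
      exact DD_inj D.span (ac_inj _ h4))
    exact mem_filter.mpr ⟨(hZ' _).mpr (rt _ h3), h3⟩
  · rw [prod_filter_of_ne (p := fun r => x r ≠ 0) fun r _ h h0 => h (by simp [h0, hh_zero])]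
    have h3 := f1 (S₂ i)
    rw [ins, prod_insert (nin i), ← f1,
      eval_one_eq (f0 _) (Z := Z') (fun r hr => mem_biUnion.mpr ⟨i, mem_univ _, mem_union_right _ hr⟩),
      eval_one_eq (f0 _) (Z := Z') (fun r hr => mem_biUnion.mpr ⟨i, mem_univ _, mem_union_left _ hr⟩)]
      at h3
    refine mul_right_cancel₀ (prod_ne_zero_iff.mpr fun r hr => pow_ne_zero _ (z1 r hr))
      (h3.symm.trans ?_)
    rw [← prod_mul_distrib]
    exact prod_congr rfl fun r hr => by
      rw [← zpow_natCast, m1, zpow_add₀ (z1 r hr), zpow_natCast]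

end Pool.Agent.P.MP_7d29e8_ag
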