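import Pool.Agent.P.MP_7d29e8_ag.KA
import Pool.Agent.P.MP_7d29e8_ag.KB
import Pool.Agent.P.MP_7d29e8_ag.KC

set_option autoImplicit false

/-! The Kottwitz homomorphism is defined everywhere and single valued modulo `rel`. -/

namespace Pool.Agent.P.MP_7d29e8_ag

open Finset SemidirectProduct
open scoped Classical

variable {p : ℕ} [Fact p.Prime] {O K Ω : Type} [CommRing O] [Field K] [Field Ω] [Algebra O K]
  [Algebra K Ω] [IsAlgClosure K Ω] [CharZero K] [CharZero Ω]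
  {n : Type} [Fintype n] [DecidableEq n]
  {ι M N : Type} [AddCommGroup M] [Module ℚ M] [AddCommGroup N] [Module ℚ N]
  {P : RootPairing ι ℚ M N} {wt : n → M} {G : Subgroup (GL n Ω)} {b : P.Base}
  {y : GL n Ω} {a₀ : P.Aut}

theorem DS.cent_rel (D : DS G P wt) [P.IsReduced] [Finite ι] {ρ : N} (hρ : ∀ i, P.root' i ρ ≠ 0)
    {g : GL n Ω} (hg : g ∈ GE G Ω) (hz : Zer (hh P wt ρ) g.val) : ∃ t : n → Ωˣ, g = dU t ∧
      ∀ a : n → ℤ, ∑ i, a i • wt i = 0 → ∏ i, t i ^ a i = 1 := by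
  have hcl := D.cent_cl hg hz
  have key : ∀ m ∈ Mid G P wt ρ, ∃ t : n → Ωˣ, m = dU t ∧
      ∀ a : n → ℤ, ∑ i, a i • wt i = 0 → ∏ i, t i ^ a i = 1 := by
    intro m hm
    induction hm using Submonoid.closure_induction with
    | mem m hm =>
      rcases hm with ⟨z, hz, t, rfl⟩ | ⟨i, hi, -⟩
      · refine ⟨_, rfl, fun a ha => ?_⟩
        have h1 : ∑ i, ⌊hh P wt z i⌋ * a i = 0 := by
          choose k hk using mem_lat.mp hz
          have := congrArg (fun m => P.toLinearMap m z) ha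
          simp only [map_sum, map_zsmul, LinearMap.sum_apply, LinearMap.smul_apply, map_zero,
            LinearMap.zero_apply, zsmul_eq_mul] at this
          simp only [hh] at hk
          simp only [hk] at this
          simp only [hh, hk, Int.floor_intCast, mul_comm]
          exact_mod_cast this
        simp only [← zpow_mul]
        rw [prod_zpow_eq_zpow_sum, h1, zpow_zero]
      · exact absurd hi (hρ i)
    | one => exact ⟨1, (map_one _).symm, fun a _ => by simp⟩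
    | mul a b _ _ ha hb =>
      obtain ⟨t, rfl, ht⟩ := ha
      obtain ⟨u, rfl, hu⟩ := hb
      exact ⟨t * u, (map_mul _ _ _).symm, fun a ha => by
        simp [mul_zpow, prod_mul_distrib, ht a ha, hu a ha]⟩
  have hd : ∀ i j, i ≠ j → g.val i j = 0 := fun i j hij => by
    have := hcl (MvPolynomial.X (i, j)) (by
      rintro _ ⟨a, ha, rfl⟩
      obtain ⟨t, rfl, -⟩ := key a ha
      simp [hij])
    simpa using this
  have hd' : g.val = Matrix.diagonal fun i => g.val i i := by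
    ext i j
    by_cases h : i = j
    · subst h; simp
    · simp [h, hd i j h]
  have h0 : ∀ i, g.val i i ≠ 0 := fun i => by
    have := ((Matrix.isUnit_iff_isUnit_det _).mp g.isUnit).ne_zero
    rw [hd', Matrix.det_diagonal] at this
    exact prod_ne_zero_iff.mp this i (mem_univ i)
  have hsplit : ∀ {A : Type} [CommGroup A] (t : n → A) (a : n → ℤ), ∏ i, t i ^ a i = 1 ↔
      ∏ i, t i ^ (a i).toNat = ∏ i, t i ^ (-a i).toNat := fun t a => by
    rw [← div_eq_one (a := ∏ i, t i ^ (a i).toNat), ← prod_div_distrib]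
    have : ∀ i, t i ^ (a i).toNat / t i ^ (-a i).toNat = t i ^ a i := fun i => by
      rw [← zpow_natCast, ← zpow_natCast, div_eq_mul_inv, ← zpow_sub, Int.toNat_sub_toNat_neg]
    simp only [this]
  have hrel : ∀ a : n → ℤ, ∑ i, a i • wt i = 0 → ∏ i, Units.mk0 _ (h0 i) ^ a i = 1 := by
    intro a ha
    have := hcl (∏ i, MvPolynomial.X (i, i) ^ (a i).toNat -
      ∏ i, MvPolynomial.X (i, i) ^ (-a i).toNat) (by
      rintro _ ⟨m, hm, rfl⟩
      obtain ⟨t, rfl, ht⟩ := key m hm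
      have := congrArg Units.val ((hsplit t a).mp (ht a ha))
      simpa [sub_eq_zero] using this)
    rw [hsplit]
    ext
    simpa [sub_eq_zero] using this
  exact ⟨fun i => Units.mk0 _ (h0 i), Units.ext hd', hrel⟩

section Act

variable {a : (Ω ≃ₐ[K] Ω) → P.Aut}
  (hn : ∀ τ : Ω ≃ₐ[K] Ω, Nrm P wt (Yc y (inr (τ : Ω ≃+* Ω))) (a τ).coweightMap)
include hn

omit [IsAlgClosure K Ω] [CharZero K] in
lemma act_co (τ : Ω ≃ₐ[K] Ω) (x : N) (E : Ωˣ) : acu (inr (τ : Ω ≃+* Ω)) (cou P y wt x E) =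
    acu (inl y) (dU fun i =>
      Units.map (τ : Ω ≃+* Ω).toMonoidHom E ^ ⌊hh P wt ((a τ).coweightMap x) i⌋) := by
  have := (hn τ).co x E
  rw [Yc_right, right_inr] at this
  rw [← this]
  exact Units.ext (ac_Yc _ _ _).symm

omit [IsAlgClosure K Ω] [CharZero K] in
lemma act_eq (hs : Submodule.span ℚ (Set.range wt) = ⊤) {τ τ' : Ω ≃ₐ[K] Ω} {x : N}
    (h : (dd P y wt x).map τ = (dd P y wt x).map τ') :
    (a τ).coweightMap x = (a τ').coweightMap x := by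
  have hdd : ∀ τ : Ω ≃ₐ[K] Ω, (dd P y wt x).map τ =
      ac (inl y) (DD P wt Ω ((a τ).coweightMap x)) := fun τ =>
    (ac_inr _ _).symm.trans (ac_Yc_iff.mp (hn τ x))
  rw [hdd, hdd] at h
  exact DD_inj hs (ac_inj _ h)

omit [IsAlgClosure K Ω] [CharZero K] in
lemma act_mul (hs : Submodule.span ℚ (Set.range wt) = ⊤) (τ τ' : Ω ≃ₐ[K] Ω) (x : N) :
    (a (τ * τ')).coweightMap x = (a τ).coweightMap ((a τ').coweightMap x) := by
  refine DD_inj (E := Ω) hs ((hn _ x).symm.trans ?_)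
  have := (hn τ).mul (hn τ') x
  rwa [← Yc_mul, ← map_mul] at this

lemma norm_diag {g : GL n Ω} {x : N} {e : Ω} {l : List (Ω ≃ₐ[K] Ω)} (h2 : e ≠ 0) (h3 : l.Nodup) :
    g.val = (l.map fun ρ : Ω ≃ₐ[K] Ω => (co P y wt x e).map ρ).prod ↔
    g = acu (inl y) (dU (∏ ρ ∈ l.toFinset, fun i => Units.map (ρ : Ω ≃+* Ω).toMonoidHom
      (Units.mk0 e h2) ^ ⌊hh P wt ((a ρ).coweightMap x) i⌋)) := by
  rw [norm_eq h2, List.prod_toFinset _ h3, ← MonoidHom.comp_apply, map_list_prod, List.map_map]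
  exact iff_of_eq (congrArg (g = List.prod ·) (List.map_congr_left fun ρ _ => act_co hn ρ x _))

end Act

variable {ω : ι → M} {v : Ω → ℚ} {φ₀ : SL n Ω} {Γ : Subgroup P.Aut}
  (A : AS (Gd G y) b wt ω v (II K y) φ₀ a₀ Γ) [Finite Γ] (hv : Val v) (hp : v (p : Ω) = 1)
  (hO : ∀ a : K, a ≠ 0 → ((∃ o : O, algebraMap O K o = a) ↔
    0 ≤ v (algebraMap K Ω a)))
include A hv hp hO

theorem AS.dec_rr {a : (Ω ≃ₐ[K] Ω) → P.Aut}
    (hn : ∀ τ : Ω ≃ₐ[K] Ω, Nrm P wt (Yc y (inr (τ : Ω ≃+* Ω))) (a τ).coweightMap)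
    {μ : N →ₗ[ℚ] ℚ} {k : (Ω ≃ₐ[K] Ω) → n → ℤ}
    (hk : ∀ τ x, ∑ i, k τ i * hh P wt ((a τ).coweightMap x) i = μ x - μ ((a τ).coweightMap x))
    (hμ : ∀ τ, ∀ x ∈ lat P wt, ∃ m : ℤ, μ ((a τ).coweightMap x) - μ x = m)
    {g : GL n Ω} {z : N} (h : Kap O K P p G y wt g z) :
    ∃ u ∈ Gp (Gd G y) (II K y), ∃ t : n → Ωˣ, dU t ∈ Gd G y ∧
      (∀ τ ∈ II K y, acu τ (dU t) = dU t) ∧ RR K P wt v μ k t (μ z) ∧
      acu (inl y)⁻¹ g = u * dU t := by
  induction h with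
  | unip u u₀ h1 h2 h3 =>
    refine ⟨_, Submonoid.subset_closure ⟨mem_Gd'.mpr h1, rt_II.mpr ?_, ?_⟩, 1,
      by simp, by simp, ⟨1, one_ne_zero, by simp, 0, by simp [hh_zero, mulv_one hv.mul],
        by simp [mulv_one hv.mul]⟩, by simp⟩
    · rw [acu_acu_inv]; exact rt_of_map h2
    · simpa using (h2 ▸ nil_map.mpr h3 : IsNilpotent (u.val - 1)).map (ac (inl y)⁻¹)
  | norm g x e l r u h1 h2 h3 h4 h5 h6 =>
    have a1 := (A.norm hv hp hO h1 h2 h3 h4 h5 h6).1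
    obtain ⟨-, u', b1, t', b2, -, -, -, -, b3⟩ :=
      A.dec hv hp hO (Kap.norm g x e l r u h1 h2 h3 h4 h5 h6)
    have b4 : acu (inl y)⁻¹ g ∈ Gd G y := b3 ▸ mul_mem (Gp_mem b1).1 b2
    have hg := (norm_diag hn h2 h3).mp h6
    refine ⟨1, one_mem _, _, ?_, rt_II.mpr (hg ▸ a1), ?_, by rw [one_mul, hg, acu_inv_acu]⟩
    · rwa [hg, acu_inv_acu] at b4
    have hu : ∀ u : Oˣ, 0 ≤ v (algebraMap K Ω (algebraMap O K u)) := fun u =>
      (hO _ (u.isUnit.map _).ne_zero).mp ⟨_, rfl⟩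
    have u0 : algebraMap K Ω (algebraMap O K u) ≠ 0 := ((u.isUnit.map _).map _).ne_zero
    have p0 : (p : Ω) ≠ 0 := Nat.cast_ne_zero.mpr (Fact.out : p.Prime).ne_zero
    have h7 := hu u⁻¹
    rw [map_units_inv, map_inv₀, mulv_inv hv.mul u0] at h7
    have h8 := congrArg v h5
    rw [← List.prod_toFinset _ h3, mulv_prod hv.mul _ fun ρ _ => by simpa using h2,
      hv.mul _ _ u0 (zpow_ne_zero _ p0), mulv_zpow hv.mul p0, hp,
      le_antisymm (neg_nonneg.mp h7) (hu u), zero_add, mul_one] at h8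
    rw [map_zsmul, zsmul_eq_mul, mul_comm, ← h8]
    refine RR.orbit (A := fun τ => (a τ).coweightMap) hv hk l.toFinset (fun ρ => ρ e)
      (fun ρ => (a ρ).coweightMap x) (μ x) (fun ρ _ => by simpa using h2)
      (fun ρ _ => (hn ρ).lat h1) (fun ρ _ => hμ ρ x h1) (fun τ => ?_) fun i => by simp
    choose π hπ hπ' using fun ρ => h4 (τ * ρ)
    refine ⟨π, fun ρ _ => List.mem_toFinset.mpr (hπ ρ).1, fun ρ h ρ' h' e => ?_, fun ρ _ =>
      ⟨(hπ ρ).2.1, (act_eq hn A.ds.span (hπ ρ).2.2).trans (act_mul hn A.ds.span _ _ _)⟩⟩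
    refine (h4 ρ).unique ⟨List.mem_toFinset.mp h, rfl, rfl⟩ ⟨List.mem_toFinset.mp h', ?_, ?_⟩
    · exact τ.injective ((hπ ρ').2.1.symm.trans (e ▸ (hπ ρ).2.1))
    · refine Matrix.map_injective τ.injective ?_
      exact (hπ ρ').2.2.symm.trans (e ▸ (hπ ρ).2.2)
  | mul g h x z _ _ h1 h2 =>
    obtain ⟨u, a1, t, a2, a3, a4, a6⟩ := h1
    obtain ⟨u', b1, t', b2, b3, b4, b6⟩ := h2
    exact ⟨u * (dU t * u' * (dU t)⁻¹), mul_mem a1 (Gp_conj a2 a3 b1), t * t',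
      by rw [map_mul]; exact mul_mem a2 b2,
      fun τ hτ => by rw [map_mul, map_mul, a3 τ hτ, b3 τ hτ], by rw [map_add]; exact a4.mul hv b4,
      by rw [map_mul, a6, b6, map_mul]; group⟩

variable [P.IsReduced] [Finite ι] [P.IsCrystallographic]

theorem AS.kap_unique {g : GL n Ω} {z z' : N} (h : Kap O K P p G y wt g z)
    (h' : Kap O K P p G y wt g z') : z - z' ∈ rel Γ (lat P wt) := by
  have := IsAlgClosure.isAlgClosed K (K := Ω)
  by_contra hc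
  have hw := Kap.mul _ _ _ _ h h'.inv
  rw [mul_inv_cancel, ← sub_eq_add_neg] at hw
  obtain ⟨μ, c, c0, m1, m2, m3⟩ := exists_sep A.ds.span _ (A.dec hv hp hO hw).1 hc
  choose a ha hn using fun τ : Ω ≃ₐ[K] Ω => A.act _ ⟨τ, rfl⟩
  have hμ : ∀ a ∈ Γ, ∀ x ∈ lat P wt, ∃ m : ℤ, μ (a.coweightMap x) - μ x = m := fun a ha x hx => by
    obtain ⟨φ, hφ⟩ := A.real ha
    rw [← map_sub]
    exact m1 _ (sub_mem (hφ.lat hx) hx) (AddSubgroup.subset_closure (Or.inr ⟨a, ha, x, hx, rfl⟩))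
  choose k hk using fun τ => exists_comb (P := P) A.ds.span (μ ∘ₗ (a τ)⁻¹.coweightMap - μ)
    (hμ _ (inv_mem (ha τ)))
  have hk' : ∀ τ x, ∑ i, k τ i * hh P wt ((a τ).coweightMap x) i =
      μ x - μ ((a τ).coweightMap x) := fun τ x => by
    have := cw_inv (a τ)⁻¹ x
    rw [inv_inv] at this
    rw [hk, LinearMap.sub_apply, LinearMap.comp_apply, this]
  obtain ⟨u, a1, t, -, -, a4, a5⟩ := A.dec_rr hv hp hO hn hk' (fun τ => hμ _ (ha τ)) hw
  rw [map_one, eq_comm, mul_eq_one_iff_eq_inv, ← map_inv] at a5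
  obtain ⟨ρ, r1, r2⟩ := exists_coweight b (fun _ => 1)
  have r3 := A.su.fix_of_root r1 fun a ha i hi => by rw [r2 _ (A.su.stab a ha i hi), r2 i hi]
  have a6 := A.ds.gp_rr (b := b) hv (φ := fun τ : Ω ≃ₐ[K] Ω => Yc y (inr (τ : Ω ≃+* Ω)))
    (fun τ z => by simp) hn (fun τ => cw_surj _) (fun i hi => by rw [r2 i hi]; exact one_pos)
    (fun τ => r3 _ (ha τ)) hk' c0 (fun x hx => m1 x ((AddSubgroup.closure_le _).mpr (by
      rintro _ ⟨i, rfl⟩; exact (A.ds.sl2 i).1) hx)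
      (AddSubgroup.closure_mono Set.subset_union_left hx)) m2 (I := II K y) (fun τ => ⟨τ, rfl⟩)
    (a5 ▸ a1)
  obtain ⟨e, e0, e1, x, e2, e3⟩ := a4.mul hv a6
  obtain ⟨m, hm⟩ := A.int e e0 (by
    rintro _ ⟨τ, rfl⟩
    simpa using e1 τ)
  have e4 : x = 0 := hh_inj (P := P) A.ds.span fun i => by
    rw [← e2, hh_zero]; simp [mulv_one hv.mul]
  exact m3 ⟨-m, by rw [e4, hm] at e3; simpa using e3⟩

end Pool.Agent.P.MP_7d29e8_ag
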