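import Pool.Agent.P.MP_7d29e8_ag.KD

set_option autoImplicit false

/-! The Kottwitz homomorphism is defined on every rational point. -/

namespace Pool.Agent.P.MP_7d29e8_ag

open Finset SemidirectProduct
open scoped Classical

variable {p : ℕ} [Fact p.Prime] {O K Ω : Type} [CommRing O] [Field K] [Field Ω] [Algebra O K]
  [Algebra K Ω] [IsAlgClosure K Ω] [CharZero K] [CharZero Ω]
  {n : Type} [Fintype n] [DecidableEq n]
  {ι M N : Type} [AddCommGroup M] [Module ℚ M] [AddCommGroup N] [Module ℚ N]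
  {P : RootPairing ι ℚ M N} {wt : n → M} {G : Subgroup (GL n Ω)} {b : P.Base}
  {y : GL n Ω} {a₀ : P.Aut} {v : Ω → ℚ}

section Field

variable {L : Type} [Field L] [Algebra K L] [FiniteDimensional K L] [IsGalois K L]

omit [IsGalois K L] in
lemma exists_generic {e : L} (he : e ≠ 0) : ∃ θ : L, θ ≠ 0 ∧
    (∀ g h : L ≃ₐ[K] L, g θ = h θ → g = h) ∧ ∀ g h : L ≃ₐ[K] L, g (e * θ) = h (e * θ) → g = h := by
  let q : Option ({g : L ≃ₐ[K] L // g ≠ 1} × Bool) → Submodule K L := fun o => o.elim ⊥ fun o =>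
    LinearMap.ker ((o.1.1.toLinearMap - LinearMap.id) ∘ₗ LinearMap.mulLeft K (if o.2 then e else 1))
  obtain ⟨θ, hθ⟩ := Submodule.exists_forall_notMem_of_forall_ne_top q (by
    rintro (_ | ⟨g, c⟩)
    · exact bot_ne_top
    · refine fun h => g.2 (AlgEquiv.ext fun z => ?_)
      have h0 : (if c then e else 1) ≠ 0 := by split_ifs <;> simp [he]
      have : (if c then e else 1)⁻¹ * z ∈ q (some (g, c)) := h ▸ trivial
      simpa [q, h0, sub_eq_zero] using this)
  have key : ∀ c : Bool, ∀ g h : L ≃ₐ[K] L,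
      g ((if c then e else 1) * θ) = h ((if c then e else 1) * θ) → g = h := fun c g h e => by
    by_contra hn
    refine hθ (some (⟨h⁻¹ * g, fun h1 => hn (inv_mul_eq_one.mp h1).symm⟩, c)) ?_
    simp only [q, Option.elim_some, LinearMap.mem_ker, LinearMap.comp_apply,
      LinearMap.mulLeft_apply, LinearMap.sub_apply, AlgEquiv.toLinearMap_apply,
      LinearMap.id_apply, AlgEquiv.mul_apply, e, sub_eq_zero]
    exact h.symm_apply_apply _
  exact ⟨θ, fun h => hθ none (by simp [q, h]), by simpa using key false, by simpa using key true⟩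

variable [Algebra L Ω] [IsScalarTower K L Ω]

omit [CharZero Ω] in
lemma prn_units (hv : Val v) (hτ : ∀ (τ : Ω ≃ₐ[K] Ω) a, v (τ a) = v a)
    (hA : AC1 (algebraMap K Ω).fieldRange v) {E : Type} [AddCommGroup E] [Module.Free ℤ E]
    [Module.Finite ℤ E] (ρ : (L ≃ₐ[K] L) →* Module.End ℤ E) :
    PrN ρ (Representation.ofMulDistribMulAction (L ≃ₐ[K] L) Lˣ) ⊤ := by
  refine prn_all (fun H c hc => ?_) fun H a ha => ?_
  · obtain ⟨a, a0, ha⟩ := hilbert90 H (fun g => ((c g).toMul : L)) (fun g => Units.ne_zero _)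
      fun g h => by rw [hc]; rfl
    refine ⟨Additive.ofMul (Units.mk0 a a0), fun g => ?_⟩
    rw [eq_sub_iff_add_eq]
    exact Additive.toMul.injective (Units.ext (ha g).symm)
  · obtain ⟨d, d0, hd⟩ := norm_surj hv hτ hA H (a := (a.toMul : L)) (Units.ne_zero _)
      fun g => congrArg (fun u : Additive Lˣ => (u.toMul : L)) (ha g)
    refine ⟨Additive.ofMul (Units.mk0 d d0), Additive.toMul.injective (Units.ext ?_)⟩
    rw [hd, toMul_sum, Units.coe_prod]
    rfl

variable {a : (Ω ≃ₐ[K] Ω) → P.Aut}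
  (hn : ∀ τ : Ω ≃ₐ[K] Ω, Nrm P wt (Yc y (inr (τ : Ω ≃+* Ω))) (a τ).coweightMap)
  (hs : Submodule.span ℚ (Set.range wt) = ⊤)
  (hy : ∀ i j, y.val i j ∈ (algebraMap L Ω).range ∧ (y⁻¹).val i j ∈ (algebraMap L Ω).range)

omit [IsAlgClosure K Ω] [CharZero K] [FiniteDimensional K L] [IsGalois K L] [IsScalarTower K L Ω]
  [CharZero Ω] [Algebra K L] in
include hy in
lemma dd_agree {τ τ' : Ω ≃ₐ[K] Ω} (h : ∀ z, τ (algebraMap L Ω z) = τ' (algebraMap L Ω z)) (x : N) :
    (dd P y wt x).map τ = (dd P y wt x).map τ' := by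
  have h1 : ∀ X : Matrix n n Ω, (∀ i j, X i j ∈ (algebraMap L Ω).range) → X.map τ = X.map τ' :=
    fun X hX => by
      ext i j
      obtain ⟨z, hz⟩ := hX i j
      simp [← hz, h]
  simp only [dd, Matrix.map_mul, h1 _ fun i j => (hy i j).1, h1 _ fun i j => (hy i j).2,
    Matrix.diagonal_map (map_zero _), map_ratCast]

include hn hs hy in
theorem tor_norm (hv : Val v) (hτ : ∀ (τ : Ω ≃ₐ[K] Ω) a, v (τ a) = v a)
    (hA : AC1 (algebraMap K Ω).fieldRange v) (T : n → Lˣ)
    (hrel : ∀ c : n → ℤ, ∑ i, c i • wt i = 0 → ∏ i, T i ^ c i = 1)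
    (hrat : ∀ τ : Ω ≃ₐ[K] Ω, acu (Yc y (inr (τ : Ω ≃+* Ω)))
      (dU fun i => Units.map (algebraMap L Ω).toMonoidHom (T i)) =
      dU fun i => Units.map (algebraMap L Ω).toMonoidHom (T i)) :
    ∃ (J : Type) (_ : Fintype J) (x : J → N) (e : J → Lˣ), (∀ j, x j ∈ lat P wt) ∧
      ∀ i, T i = ∏ j, ∏ g : L ≃ₐ[K] L,
        (g • e j) ^ ⌊hh P wt ((a (g.liftNormal Ω)).coweightMap (x j)) i⌋ := by
  obtain ⟨f1, f2⟩ := free_span wt
  let Y := Submodule.span ℤ (Set.range wt)
  have tr : ∀ (c : P.Aut) m x, P.toLinearMap (c.weightMap m) x = P.toLinearMap m (c.coweightMap x) :=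
    fun c m x => LinearMap.congr_fun
      (RootPairing.Hom.weight_coweight_transpose_apply P P x c.toHom) m
  choose l l1 l2 using fun τ => (hn τ).row
  have hl : ∀ τ i, (a τ).weightMap (wt i) = wt (l τ i) := fun τ i =>
    pair_ext (P := P) fun x => (tr _ _ _).trans (l1 τ x i)
  have hY : ∀ τ, ∀ m ∈ Y, ((a τ).weightMap.restrictScalars ℤ) m ∈ Y := fun τ m hm => by
    refine (Submodule.span_le (p := Y.comap _)).mpr ?_ hm
    rintro _ ⟨i, rfl⟩
    exact Submodule.subset_span ⟨l τ i, (hl τ i).symm⟩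
  have ag : ∀ {τ τ' : Ω ≃ₐ[K] Ω}, (∀ z, τ (algebraMap L Ω z) = τ' (algebraMap L Ω z)) →
      ∀ x, (a τ).coweightMap x = (a τ').coweightMap x := fun h x => act_eq hn hs (dd_agree hy h x)
  let ρ : (L ≃ₐ[K] L) →* Module.End ℤ Y :=
    { toFun := fun g => ((a (g⁻¹.liftNormal Ω)).weightMap.restrictScalars ℤ).restrict (hY _)
      map_one' := LinearMap.ext fun m => Subtype.ext (pair_ext (P := P) fun x => by
        refine (tr _ _ _).trans (congrArg (P.toLinearMap m.1) ?_)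
        rw [ag (τ' := 1) fun z => by simp]
        exact DD_inj (E := Ω) hs ((hn 1 x).symm.trans (by
          rw [show Yc y (inr ((1 : Ω ≃ₐ[K] Ω) : Ω ≃+* Ω)) = 1 from (by simp :
            (inl y)⁻¹ * inr 1 * inl y = (1 : SL n Ω)), ac_one])))
      map_mul' := fun g h => LinearMap.ext fun m => Subtype.ext (pair_ext (P := P) fun x => by
        refine (tr _ _ _).trans (Eq.trans ?_ ((tr _ _ _).trans (tr _ _ _)).symm)
        rw [← act_mul hn hs, ag (τ' := h⁻¹.liftNormal Ω * g⁻¹.liftNormal Ω) fun z => by simp]) }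
  have hρ : ∀ g m x, P.toLinearMap (ρ g m).1 x =
      P.toLinearMap m.1 ((a (g⁻¹.liftNormal Ω)).coweightMap x) := fun g m x => tr _ _ _
  let w : n → Y := fun i => ⟨wt i, Submodule.subset_span ⟨i, rfl⟩⟩
  choose cf hcf using fun m : Y => (Submodule.mem_span_range_iff_exists_fun ℤ).mp m.2
  let f : Y → Additive Lˣ := fun m => ∑ i, cf m i • Additive.ofMul (T i)
  have hf : ∀ (c : n → ℤ) (m : Y), ∑ i, c i • wt i = m → f m = ∑ i, c i • Additive.ofMul (T i) := by
    intro c m h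
    have := hrel (cf m - c) (by simp [sub_smul, hcf, h])
    rw [← sub_eq_zero, ← sum_sub_distrib]
    refine Additive.toMul.injective ?_
    simpa only [← sub_smul, toMul_sum, toMul_zsmul, toMul_ofMul, toMul_zero, Pi.sub_apply]
      using this
  have ad : AdOn ⊤ f := fun m _ m' _ => by
    rw [hf (cf m + cf m') _ (by simp [add_smul, sum_add_distrib, hcf])]
    simp only [f, Pi.add_apply, add_zsmul, sum_add_distrib]
  have fw : ∀ i, f (w i) = Additive.ofMul (T i) := fun i => by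
    rw [hf (Pi.single i 1) _ (by simp [w, Pi.single_apply])]
    simp [Pi.single_apply]
  have ρw : ∀ g i, ρ g (w i) = w (l (g⁻¹.liftNormal Ω) i) := fun g i => Subtype.ext (hl _ i)
  obtain ⟨f', p1, p2⟩ := prn_units (Ω := Ω) hv hτ hA ρ f ad fun g m _ => by
    have e1 : m = ∑ i, cf m i • w i := Subtype.ext (by simp [w, hcf])
    let F := AddMonoidHom.mk' f fun a b => ad a trivial b trivial
    change F _ = _ 
    conv_lhs => rw [e1]
    simp only [f, map_sum, map_zsmul]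
    refine sum_congr rfl fun i _ => congrArg _ ?_
    rw [ρw]
    refine (fw _).trans (congrArg Additive.ofMul ?_)
    have h1 := hrat (g⁻¹.liftNormal Ω)
    rw [l2 _ _ fun i j e => by
      have := hrel (Pi.single i 1 - Pi.single j 1) (by simp [sub_smul, Pi.single_apply, e])
      simp only [Pi.sub_apply, zpow_sub, prod_mul_distrib, prod_inv_distrib, Pi.single_apply] at this
      rw [show T i = T j by simpa [mul_inv_eq_one] using this]] at h1
    have h2 := congrFun (Matrix.diagonal_injective (congrArg Units.val h1)) i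
    simp only [Yc_right, right_inr] at h2
    have h3 : g⁻¹ (T (l (g⁻¹.liftNormal Ω) i) : L) = T i :=
      (algebraMap L Ω).injective ((g⁻¹.liftNormal_commutes Ω _).symm.trans h2)
    refine Units.ext ?_
    change _ = g (T i : L)
    rw [← h3]
    exact (g.apply_symm_apply _).symm
  obtain ⟨J, _, x, s, h1, h2⟩ := exists_dual (P := P) hs
  refine ⟨J, inferInstance, x, fun j => (f' (∑ i, s j i • w i)).toMul, h1, fun i => ?_⟩
  have h3 := congrArg Additive.toMul ((fw i).symm.trans (p2 _ trivial))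
  rw [toMul_ofMul] at h3
  rw [h3, toMul_sum, prod_comm]
  refine prod_congr rfl fun g _ => ?_
  have h4 : ρ g⁻¹ (w i) = ∑ j, ⌊hh P wt ((a (g.liftNormal Ω)).coweightMap (x j)) i⌋ •
      ∑ i, s j i • w i := Subtype.ext (pair_ext (P := P) fun z => by
    rw [hρ, inv_inv]
    conv_lhs => rw [h2 z]
    simp only [w, map_sum, map_smul, AddSubmonoidClass.coe_finsetSum, SetLike.val_smul, map_zsmul,
      LinearMap.sum_apply, LinearMap.smul_apply, zsmul_eq_mul, smul_eq_mul]
    refine sum_congr rfl fun j _ => ?_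
    obtain ⟨c, hc⟩ := mem_lat.mp ((hn (g.liftNormal Ω)).lat (h1 j)) i
    rw [hc, Int.floor_intCast, mul_comm, ← hc]
    rfl)
  let F := AddMonoidHom.mk' f' fun a b => p1 a trivial b trivial
  change Additive.toMul (Representation.ofMulDistribMulAction _ _ g (F _)) = _
  rw [h4, map_sum, map_sum, toMul_sum]
  refine prod_congr rfl fun j _ => ?_
  rw [map_zsmul, map_zsmul, toMul_zsmul]
  rfl

omit [Fact p.Prime] in
include hn hy in
lemma kap_gen (hu : ∀ c : K, c ≠ 0 → ∃ (u : Oˣ) (r : ℤ),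
      algebraMap K Ω c = algebraMap K Ω (algebraMap O K u) * (p : Ω) ^ r)
    {x : N} (hx : x ∈ lat P wt) (e : Lˣ) (he : ∀ g h : L ≃ₐ[K] L, g e = h e → g = h) :
    ∃ z, Kap O K P p G y wt (acu (inl y) (dU fun i => Units.map (algebraMap L Ω).toMonoidHom
      (∏ g : L ≃ₐ[K] L, (g • e) ^ ⌊hh P wt ((a (g.liftNormal Ω)).coweightMap x) i⌋))) z := by
  have inj : Function.Injective fun g : L ≃ₐ[K] L => g.liftNormal Ω := fun g h e =>
    AlgEquiv.ext fun z => (algebraMap L Ω).injective (by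
      rw [← g.liftNormal_commutes Ω, ← h.liftNormal_commutes Ω]; exact DFunLike.congr_fun e _)
  have e0 : algebraMap L Ω e ≠ 0 := by simp
  have nd := (nodup_toList (univ : Finset (L ≃ₐ[K] L))).map inj
  obtain ⟨u, r, h5⟩ := hu (Algebra.norm K (e : L)) (Algebra.norm_ne_zero_iff.mpr e.ne_zero)
  have e1 : ((univ : Finset (L ≃ₐ[K] L)).toList.map fun g => g.liftNormal Ω).toFinset =
      univ.image fun g : L ≃ₐ[K] L => g.liftNormal Ω := by ext; simp
  refine ⟨_, Kap.norm _ x _ _ r u hx e0 nd (fun τ => ?_) ?_ ((norm_diag hn e0 nd).mpr ?_)⟩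
  · have h1 : ∀ z, (τ.restrictNormal L).liftNormal Ω (algebraMap L Ω z) = τ (algebraMap L Ω z) :=
      fun z => by simp
    refine ⟨_, ⟨List.mem_map.mpr ⟨τ.restrictNormal L, by simp, rfl⟩, h1 _, dd_agree hy h1 x⟩, ?_⟩
    rintro _ ⟨h2, h3, -⟩
    obtain ⟨g, -, rfl⟩ := List.mem_map.mp h2
    rw [he g (τ.restrictNormal L) ((algebraMap L Ω).injective (by
      rw [← g.liftNormal_commutes Ω, h3, AlgEquiv.restrictNormal_commutes]))]
  · rw [← h5, ← List.prod_toFinset _ nd, e1, prod_image inj.injOn,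
      IsScalarTower.algebraMap_apply K L Ω, Algebra.norm_eq_prod_automorphisms, map_prod]
    simp
  · rw [e1, prod_image inj.injOn]
    congr 2
    funext i
    rw [map_prod, Finset.prod_apply]
    refine prod_congr rfl fun g _ => ?_
    rw [map_zpow]
    congr 1
    exact Units.ext (g.liftNormal_commutes Ω _).symm

end Field

variable {ω : ι → M} {φ₀ : SL n Ω} {Γ : Subgroup P.Aut}
  (A : AS (Gd G y) b wt ω v (II K y) φ₀ a₀ Γ) (hv : Val v)
  (hA : AC1 (algebraMap K Ω).fieldRange v)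
  (hu : ∀ c : K, c ≠ 0 → ∃ (u : Oˣ) (r : ℤ),
    algebraMap K Ω c = algebraMap K Ω (algebraMap O K u) * (p : Ω) ^ r)
include A hv hA hu

theorem AS.kap_tor {t : n → Ωˣ} (hrel : ∀ c : n → ℤ, ∑ i, c i • wt i = 0 → ∏ i, t i ^ c i = 1)
    (hrat : ∀ τ ∈ II K y, acu τ (dU t) = dU t) :
    ∃ z, Kap O K P p G y wt (acu (inl y) (dU t)) z := by
  choose a ha hn using fun τ : Ω ≃ₐ[K] Ω => A.act _ ⟨τ, rfl⟩
  have hτ : ∀ (τ : Ω ≃ₐ[K] Ω) e, v (τ e) = v e := fun τ e => by simpa using A.iso _ ⟨τ, rfl⟩ e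
  let S : Set Ω := Set.range (fun q : n × n => y.val q.1 q.2) ∪
    Set.range (fun q : n × n => (y⁻¹).val q.1 q.2) ∪ Set.range fun i => (t i : Ω)
  let L : IntermediateField K Ω := FiniteGaloisIntermediateField.adjoin K S
  have hS : ∀ c ∈ S, c ∈ (algebraMap L Ω).range := fun c hc =>
    ⟨⟨c, FiniteGaloisIntermediateField.subset_adjoin K S hc⟩, rfl⟩
  have hy : ∀ i j, y.val i j ∈ (algebraMap L Ω).range ∧ (y⁻¹).val i j ∈ (algebraMap L Ω).range :=
    fun i j => ⟨hS _ (Or.inl (Or.inl ⟨(i, j), rfl⟩)), hS _ (Or.inl (Or.inr ⟨(i, j), rfl⟩))⟩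
  choose T₀ hT₀ using fun i => hS _ (Or.inr ⟨i, rfl⟩)
  let j : Lˣ →* Ωˣ := Units.map (algebraMap L Ω).toMonoidHom
  have ji : Function.Injective j := Units.map_injective (algebraMap L Ω).injective
  obtain ⟨T, hT⟩ : ∃ T : n → Lˣ, t = fun i => j (T i) :=
    ⟨fun i => Units.mk0 (T₀ i) fun h => (t i).ne_zero ((hT₀ i).symm.trans (by rw [h, map_zero])),
      funext fun i => Units.ext (hT₀ i).symm⟩
  rw [hT] at hrel hrat ⊢
  obtain ⟨J, _, x, e, h1, h2⟩ := tor_norm hn A.ds.span hy hv hτ hA T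
    (fun c hc => ji (by simpa only [map_prod, map_zpow, map_one] using hrel c hc))
    fun τ => hrat _ ⟨τ, rfl⟩
  let B : Subgroup (n → Lˣ) :=
    { carrier := {T | ∃ z, Kap O K P p G y wt (acu (inl y) (dU fun i => j (T i))) z}
      one_mem' := ⟨0, by simpa [← Pi.one_def] using Kap.Gp (O := O) (p := p) (P := P) (wt := wt) (one_mem (Gp (Gd G y) (II K y)))⟩
      mul_mem' := fun ⟨z, hz⟩ ⟨z', hz'⟩ => ⟨z + z', by
        have := Kap.mul _ _ _ _ hz hz'
        rw [← map_mul, ← map_mul] at this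
        simpa only [Pi.mul_def, map_mul j] using this⟩
      inv_mem' := fun ⟨z, hz⟩ => ⟨-z, by
        have := hz.inv
        rw [← map_inv, ← map_inv] at this
        simpa only [Pi.inv_def, map_inv j] using this⟩ }
  change T ∈ B
  rw [show T = ∏ c, fun i => ∏ g : L ≃ₐ[K] L,
    (g • e c) ^ ⌊hh P wt ((a (g.liftNormal Ω)).coweightMap (x c)) i⌋ from funext fun i => by
      rw [h2, Finset.prod_apply]]
  refine prod_mem fun c _ => ?_
  obtain ⟨θ, θ0, k1, k2⟩ := exists_generic (K := K) (e c).ne_zero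
  have := B.mul_mem (kap_gen hn hy hu (h1 c) (e c * Units.mk0 θ θ0) k2)
    (B.inv_mem (kap_gen hn hy hu (h1 c) (Units.mk0 θ θ0) k1))
  convert this using 1
  funext i
  simp [smul_mul', mul_zpow, prod_mul_distrib]

theorem AS.kap_total [P.IsReduced] [Finite ι] [P.IsCrystallographic] {g : GL n Ω} (hg : g ∈ G)
    (hr : Rt K g) : ∃ z, Kap O K P p G y wt g z := by
  obtain ⟨ρ, r1, r2⟩ := exists_coweight b (fun _ => 1)
  have r3 := A.fx (A.su.fix_of_root r1 fun a ha i hi => by rw [r2 _ (A.su.stab a ha i hi), r2 i hi])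
  have k1 : ∀ τ ∈ II K y, acu τ (acu (inl y)⁻¹ g) = acu (inl y)⁻¹ g :=
    rt_II.mpr (by rwa [acu_acu_inv])
  obtain ⟨k, k2, k3⟩ := A.ds.conj_rat A.stab A.desc r3 (mem_Gd'.mpr hg) fun τ hτ => by
    rw [ac_ac_inl, k1 τ hτ, r3 τ hτ]
  obtain ⟨t, e, ht⟩ := A.ds.cent_rel (reg_ne (b := b) fun j hj => by rw [r2 j hj]; exact one_pos)
    (A.ds.mem_iff.mpr (mul_mem (inv_mem (Gp_mem k2).1) (mem_Gd'.mpr hg)))
    (ac_inl_iff.mp (by
      change _ = DD P wt Ω ρ
      rw [map_mul, ac_mul, map_inv]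
      exact (congrArg _ k3.symm).trans (ac_inv_ac _ _)))
  obtain ⟨z, hz⟩ := A.kap_tor hv hA hu ht fun τ hτ => by
    rw [← e, map_mul, map_inv, (Gp_mem k2).2 τ hτ, k1 τ hτ]
  have := Kap.mul _ _ _ _ (Kap.Gp k2) hz
  rw [← map_mul, ← e, mul_inv_cancel_left, acu_acu_inv] at this
  exact ⟨_, this⟩

end Pool.Agent.P.MP_7d29e8_ag
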