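import Pool.Agent.P.MP_7d29e8_ag.KE
import Pool.Agent.P.MP_7d29e8_ag.HMain
import Pool.Agent.P.MP_7d29e8_ag.FL

set_option autoImplicit false

/-! Invariance under twisted conjugation, and the statements in terms of frames. -/

namespace Pool.Agent.P.MP_7d29e8_ag

open Finset SemidirectProduct
open scoped Classical

section

variable {p : ℕ} {O K Ω : Type} [CommRing O] [Field K] [Field Ω] [Algebra O K]
  [Algebra K Ω] {σ : K ≃+* K} {n : Type} [Fintype n] [DecidableEq n]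
  {ι M N : Type} [AddCommGroup M] [Module ℚ M] [AddCommGroup N] [Module ℚ N]
  {P : RootPairing ι ℚ M N} {wt : n → M} {G : Subgroup (GL n Ω)} {b : P.Base}
  {y g₀ : GL n Ω} {s : Ω ≃+* Ω} {a₀ : P.Aut}
  (hs : ∀ a, s (algebraMap K Ω a) = algebraMap K Ω (σ a))
include hs

lemma exists_cj : ∃ c : (Ω ≃ₐ[K] Ω) ≃ (Ω ≃ₐ[K] Ω), ∀ τ : Ω ≃ₐ[K] Ω,
    (c τ : Ω ≃+* Ω) * s = s * (τ : Ω ≃+* Ω) :=
  ⟨⟨fun τ => AlgEquiv.ofRingEquiv (f := s * τ * s⁻¹) fun a => by
      change s (τ (s.symm _)) = _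
      rw [← σ.apply_symm_apply a, ← hs, s.symm_apply_apply, τ.commutes],
    fun τ => AlgEquiv.ofRingEquiv (f := s⁻¹ * τ * s) fun a => s.injective (by
      change s (s.symm (τ (s _))) = _
      rw [s.apply_symm_apply, hs, τ.commutes]),
    fun τ => AlgEquiv.ext fun z => by
      change s.symm (s (τ (s.symm (s z)))) = _
      simp,
    fun τ => AlgEquiv.ext fun z => by
      change s (s.symm (τ (s (s.symm z)))) = _
      simp⟩,
    fun τ => RingEquiv.ext fun z => by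
      change s (τ (s.symm (s z))) = s (τ z)
      simp⟩

variable [IsAlgClosure K Ω] [CharZero K] [CharZero Ω]

theorem Kap.frob [Fact p.Prime] (hG : IsRed σ G) (h0 : g₀ ∈ G) (r0 : Rt K g₀) (ha : Act P b y wt g₀ s a₀)
    (hu : ∀ u : Oˣ, ∃ u' : Oˣ, σ (algebraMap O K u) = algebraMap O K u')
    {g : GL n Ω} {z : N} (h : Kap O K P p G y wt g z) :
    Kap O K P p G y wt (acu (inl g₀ * inr s) g) (a₀.coweightMap z) := by
  obtain ⟨c, hc⟩ := exists_cj hs
  have e1 : ∀ τ : Ω ≃ₐ[K] Ω, (inr (c τ : Ω ≃+* Ω) : SL n Ω) * (inl g₀ * inr s) =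
      (inl g₀ * inr s) * inr (τ : Ω ≃+* Ω) := fun τ => by
    have e : (inr (c τ : Ω ≃+* Ω) : SL n Ω) * inl g₀ = inl g₀ * inr (c τ : Ω ≃+* Ω) := by
      rw [← mul_inv_eq_iff_eq_mul, ← inl_acu, r0]
    rw [← mul_assoc, e, mul_assoc, mul_assoc, ← map_mul, ← map_mul, hc]
  have e2 : ∀ (τ : Ω ≃ₐ[K] Ω) z, c τ (s z) = s (τ z) := fun τ z => DFunLike.congr_fun (hc τ) z
  induction h with
  | unip u u₀ h1 h2 h3 =>
    rw [map_zero]
    refine Kap.unip' ?_ (fun τ => ?_) ?_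
    · rw [acu_mul, acu_inl]
      exact mul_mem (mul_mem h0 ((hG.frob hs).mpr h1)) (inv_mem h0)
    · obtain ⟨τ, rfl⟩ := c.surjective τ
      rw [← acu_mul, e1, acu_mul, rt_of_map h2]
    · simpa using (h2 ▸ nil_map.mpr h3 : IsNilpotent (u.val - 1)).map (ac (inl g₀ * inr s))
  | norm g x e l r u h1 h2 h3 h4 h5 h6 =>
    obtain ⟨u', hu'⟩ := hu u
    have s0 : s e ≠ 0 := by simpa using h2
    have e3 : ∀ τ : Ω ≃ₐ[K] Ω, (dd P y wt (a₀.coweightMap x)).map (c τ) =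
        ac (inl g₀ * inr s) ((dd P y wt x).map τ) := fun τ => by
      have := ac_Yc_iff.mp (ha.nrm x)
      rw [← dd_eq, ← dd_eq] at this
      rw [← this]
      exact (ac_inr (c τ : Ω ≃+* Ω) _).symm.trans (by
        rw [← ac_mul, e1, ac_mul, ac_inr]; rfl)
    rw [map_zsmul]
    refine Kap.norm _ _ (s e) (l.map c) r u' (ha.nrm.lat h1) s0 (h3.map c.injective)
      (fun τ => ?_) ?_ ?_
    · obtain ⟨τ, rfl⟩ := c.surjective τ
      obtain ⟨ρ, ⟨a1, a2, a3⟩, a4⟩ := h4 τ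
      refine ⟨c ρ, ⟨List.mem_map_of_mem a1, by rw [e2, e2, a2], by rw [e3, e3, a3]⟩, ?_⟩
      rintro _ ⟨b1, b2, b3⟩
      obtain ⟨ρ', b4, rfl⟩ := List.mem_map.mp b1
      rw [e2, e2] at b2
      rw [e3, e3] at b3
      rw [a4 ρ' ⟨b4, s.injective b2, ac_inj _ b3⟩]
    · have := congrArg s h5
      rw [map_list_prod, List.map_map, map_mul, hs, hu', map_zpow₀, map_natCast] at this
      rw [← this, List.map_map]
      exact congrArg _ (List.map_congr_left fun ρ _ => e2 ρ e)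
    · rw [norm_eq s0, (norm_eq h2).mp h6, map_list_prod, List.map_map, List.map_map]
      refine congrArg _ (List.map_congr_left fun ρ _ => ?_)
      have := congrArg (acu (inl y)) (ha.nrm.co x (Units.mk0 e h2))
      rw [← acu_mul, Yc, ← mul_assoc, ← mul_assoc, mul_inv_cancel, one_mul, acu_mul] at this
      simp only [Function.comp]
      rw [← acu_mul, ← e1, acu_mul, cou, this, cou]
      congr 4
      funext i
      congr 1
      ext
      simp
  | mul g h x z _ _ h1 h2 =>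
    rw [map_mul, map_add]
    exact Kap.mul _ _ _ _ h1 h2

omit [IsAlgClosure K Ω] [CharZero K] [CharZero Ω] in
lemma Rt.frob {k : GL n Ω} (h : Rt K k) : Rt K (acu (inr s) k) := fun τ => by
  obtain ⟨c, hc⟩ := exists_cj hs
  obtain ⟨τ, rfl⟩ := c.surjective τ
  rw [← acu_mul, ← map_mul, hc, map_mul, acu_mul, h]

lemma Nt.conj {v : Ω → ℚ} {hv : Val v} {pw : ℚ → Ωˣ} (hvs : ∀ a, v (s a) = v a) {g k h : GL n Ω}
    {ν : N} (H : Nt K hv pw P y wt (inr s) g k ν) (r : Rt K h) :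
    Nt K hv pw P y wt (inr s) (h * g * (acu (inr s) h)⁻¹) (h * k) ν := by
  have e : (inl (h * g * (acu (inr s) h)⁻¹) * inr s : SL n Ω) =
      (inl h⁻¹)⁻¹ * (inl g * inr s) * inl h⁻¹ := by
    simp only [map_mul, map_inv, inl_acu]; group
  refine ⟨(r.mul H.rt).mul (r.frob hs).inv, fun τ => ?_, ?_, np_iff.mp ?_⟩
  · rw [map_mul, ac_mul, ac_ac_inl, r, H.fx]
  · rw [e, map_mul, map_inv, inv_inv, ac_mul (inl h), ac_mul, ac_mul, ac_inv_ac, H.cm]
  · have := (np_iff.mpr H.bd).conj (fun z => by simpa using hvs z) h⁻¹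
    rwa [← e, inv_inv, ← mul_assoc] at this

omit hs [IsAlgClosure K Ω] [CharZero K] [CharZero Ω] in
lemma Frame.one (hF : Frame K P G b y wt s g₀ a₀) : Frame K P G b y wt 1 1 1 :=
  ⟨hF.span, hF.tor, hF.cent, hF.roots, hF.sl2, hF.gal, one_mem _, fun _ h => h, fun x => by
    simp only [Units.val_one, one_mul, mul_one]; rfl⟩

omit hs [IsAlgClosure K Ω] [CharZero K] [CharZero Ω] in
lemma IsRed.one (hG : IsRed σ G) : IsRed (RingEquiv.refl K) G :=
  ⟨let ⟨F, _, h⟩ := hG.eqs; ⟨F, fun f _ => MvPolynomial.map_id f, h⟩, hG.conn, hG.red⟩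

omit hs [IsAlgClosure K Ω] [CharZero K] [CharZero Ω] in
lemma rel_one_le : rel (Gam K P b y wt 1) (lat P wt) ≤ rel (Gam K P b y wt a₀) (lat P wt) := by
  refine AddSubgroup.closure_mono (Set.union_subset_union_right _ ?_)
  rintro _ ⟨g, hg, x, hx, rfl⟩
  refine ⟨g, (Subgroup.closure_le _).mpr ?_ hg, x, hx, rfl⟩
  rintro a (ha | rfl)
  · exact Subgroup.subset_closure (Or.inl ha)
  · exact one_mem _

variable [Finite ι] [P.IsCrystallographic] [P.IsReduced]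

lemma Frame.rat {ω : ι → M} {v : Ω → ℚ} {φ₀ : SL n Ω} {a₁ : P.Aut} {Γ : Subgroup P.Aut}
    (A : AS (Gd G y) b wt ω v (II K y) φ₀ a₁ Γ) (hF : Frame K P G b y wt s g₀ a₀) :
    ∃ g₁, Rt K g₁ ∧ Frame K P G b y wt s g₁ a₀ := by
  have := IsAlgClosure.isAlgClosed K (K := Ω)
  obtain ⟨c, hc⟩ := exists_cj hs
  obtain ⟨ρ, r1, r2⟩ := exists_coweight b (fun _ => 1)
  have r3 := A.fx (A.su.fix_of_root r1 fun a ha i hi => by rw [r2 _ (A.su.stab a ha i hi), r2 i hi])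
  have r4 : a₀.coweightMap ρ = ρ := sub_eq_zero.mp (eq_zero_of_central b
    (sub_mem (act_span a₀ r1) r1) fun i hi => by
      rw [map_sub, root_act, r2 _ (hF.fr.2.1 i hi), r2 i hi, sub_self])
  have n0 := hF.fr.2.nrm
  rw [Yc_mul, Yc_inl] at n0
  set k := acu (inl y)⁻¹ g₀ with hk
  have k0 : k ∈ Gd G y := mem_Gd'.mpr hF.fr.1
  have e1 : ac (inl k⁻¹) (DD P wt Ω ρ) = ac (Yc y (inr s)) (DD P wt Ω ρ) := by
    have := n0 ρ
    rw [r4, ac_mul] at this
    conv_lhs => rw [← this, map_inv, ac_inv_ac]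
  obtain ⟨k', k2, k3⟩ := A.ds.conj_rat A.stab A.desc r3 (inv_mem k0) (by
    rintro _ ⟨τ, rfl⟩
    obtain ⟨τ, rfl⟩ := c.surjective τ
    rw [e1, ← ac_mul, ← Yc_mul, ← map_mul, hc, map_mul, Yc_mul, ac_mul, r3 _ ⟨τ, rfl⟩])
  obtain ⟨x, hx⟩ := A.ds.cent_tor (o := fun _ => 0)
    (reg_ne (b := b) fun j hj => by rw [r2 j hj]; exact one_pos) (by simp)
    (A.ds.mem_iff.mpr (mul_mem (inv_mem (Gp_mem k2).1) (inv_mem k0)))
    (ac_inl_iff.mp (by
      change _ = DD P wt Ω ρ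
      rw [map_mul, ac_mul, map_inv]
      exact (congrArg _ k3.symm).trans (ac_inv_ac _ _)))
  refine ⟨acu (inl y) k'⁻¹, rt_II.mp fun τ hτ => by rw [map_inv, (Gp_mem k2).2 τ hτ],
    hF.span, hF.tor, hF.cent, hF.roots, hF.sl2, hF.gal, (inv_mem (Gp_mem k2).1 : _ ∈ Gd G y),
    hF.fr.2.1, fun z => ?_⟩
  have e2 := (hx.nrm.mul n0) z
  rw [← mul_assoc, ← map_mul, inv_mul_cancel_right, ← acu_inv_acu (inl y) k'⁻¹, ← Yc_inl, ← Yc_mul,
    ac_Yc_iff, ac_mul, ac_inr, ac_inl, Units.mul_inv_eq_iff_eq_mul] at e2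
  exact e2

end

variable {p : ℕ} [Fact p.Prime] {K Ω : Type} [Field K] [Field Ω]
  [Algebra (WittVector p (AlgebraicClosure (ZMod p))) K]
  [IsFractionRing (WittVector p (AlgebraicClosure (ZMod p))) K] [Algebra K Ω] [IsAlgClosure K Ω]
  {σ : K ≃+* K} (hσ : ∀ o : WittVector p (AlgebraicClosure (ZMod p)),
    σ (algebraMap _ K o) = algebraMap _ K (WittVector.frobenius o))
  {s : Ω ≃+* Ω} (hs : ∀ a, s (algebraMap K Ω a) = algebraMap K Ω (σ a))
  {n : Type} [Fintype n] [DecidableEq n] {G : Subgroup (GL n Ω)} (hG : IsRed σ G)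
  {ι M N : Type} [AddCommGroup M] [Module ℚ M] [AddCommGroup N] [Module ℚ N]
  {P : RootPairing ι ℚ M N} [Finite ι] [P.IsCrystallographic] [P.IsReduced] {b : P.Base}
  {y g₀ : GL n Ω} {wt : n → M} {a₀ : P.Aut} (hF : Frame K P G b y wt s g₀ a₀)
include hσ hs hG hF

theorem kap_main : (∀ g : GL n Ω, (∃ z, Kap (WittVector p (AlgebraicClosure (ZMod p))) K P p G y wt g z) ↔
      g ∈ G ∧ ∃ g₁ : Matrix n n K, g.val = g₁.map (algebraMap K Ω)) ∧
    (∀ g z z', Kap (WittVector p (AlgebraicClosure (ZMod p))) K P p G y wt g z →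
      Kap (WittVector p (AlgebraicClosure (ZMod p))) K P p G y wt g z' →
      z - z' ∈ rel (Gam K P b y wt 1) (lat P wt)) ∧
    ∀ x, (∃ g, Kap (WittVector p (AlgebraicClosure (ZMod p))) K P p G y wt g x) ↔ x ∈ lat P wt := by
  have := charZero_K p K
  have := charZero_of_injective_algebraMap (algebraMap K Ω).injective
  have := IsAlgClosure.isAlgClosed K (K := Ω)
  obtain ⟨v, pw, hv, hpw, hτ, hvs, hp, hO, hZ⟩ := exists_val σ hσ s hs
  obtain ⟨ω, hω, hω'⟩ := exists_omega b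
  have A := hF.one.as hG.one (fun _ => rfl) hω hω' (fun τ => by simp) hτ (fun _ => rfl) hZ
  have := A.finite
  obtain ⟨ord, -, hord⟩ := hva_ord (K := K) (show Irreducible
    (p : WittVector p (AlgebraicClosure (ZMod p))) from WittVector.irreducible p)
  refine ⟨fun g => ⟨fun ⟨z, hz⟩ => ?_, fun ⟨h1, g₁, h2⟩ => A.kap_total hv (ac1_K hv hp hO hZ)
    (fun c hc => ?_) h1 (rt_of_map h2)⟩, fun g z z' => A.kap_unique hv hp hO, fun x =>
      ⟨fun ⟨g, h⟩ => (A.dec hv hp hO h).1, fun hx => ?_⟩⟩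
  · obtain ⟨-, u, a1, t, a2, a3, -, -, -, a4⟩ := A.dec hv hp hO hz
    have r : Rt K g := by
      rw [← acu_acu_inv (inl y) g, ← rt_II, a4]
      exact fun τ hτ => by rw [map_mul, (Gp_mem a1).2 τ hτ, a3 τ hτ]
    choose g₁ h₁ using fun i j => fixed_mem (g.val i j) fun τ =>
      congrFun (congrFun (rt_iff.mp r τ) i) j
    exact ⟨mem_Gd'.mp (a4 ▸ mul_mem (Gp_mem a1).1 a2), Matrix.of g₁,
      Matrix.ext fun i j => (h₁ i j).symm⟩
  · obtain ⟨u, hu⟩ := hord c hc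
    exact ⟨u, ord c, by conv_lhs => rw [hu]
                        simp⟩
  · obtain ⟨t, -, -, h, -⟩ := A.surj hv hp hO exists_transversal hx
    exact ⟨_, h⟩

theorem kap_sigma {k : GL n Ω} {x : N}
    (h : Kap (WittVector p (AlgebraicClosure (ZMod p))) K P p G y wt k x) :
    ∃ z, Kap (WittVector p (AlgebraicClosure (ZMod p))) K P p G y wt (acu (inr s) k) z ∧
      z = a₀.coweightMap x := by
  have := charZero_K p K
  have := charZero_of_injective_algebraMap (algebraMap K Ω).injective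
  obtain ⟨v, pw, hv, hpw, hτ, hvs, hp, hO, hZ⟩ := exists_val σ hσ s hs
  obtain ⟨ω, hω, hω'⟩ := exists_omega b
  have A := hF.one.as hG.one (fun _ => rfl) hω hω' (fun τ => by simp) hτ (fun _ => rfl) hZ
  obtain ⟨g₁, r1, F1⟩ := Frame.rat hs A hF
  choose g₂ h₂ using fun i j => fixed_mem (g₁.val i j) fun τ =>
    congrFun (congrFun (rt_iff.mp r1 τ) i) j
  obtain ⟨x₁, h1⟩ := ((kap_main hσ hs hG hF).1 g₁).mpr ⟨F1.fr.1, Matrix.of g₂,
    Matrix.ext fun i j => (h₂ i j).symm⟩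
  have h2 := Kap.mul _ _ _ _ (Kap.mul _ _ _ _ h1.inv (h.frob hs hG F1.fr.1 r1 F1.fr.2 fun u =>
    ⟨Units.map (WittVector.frobenius (p := p)).toMonoidHom u, hσ _⟩)) h1
  rw [acu_mul, acu_inl] at h2
  exact ⟨_, by simpa [mul_assoc] using h2, rfl⟩

theorem kot_conj (μ : N) (g h k : G) (k₁ : Matrix n n K)
    (hk : k.val.val = k₁.map (algebraMap K Ω))
    (e : h.val.val * k.val.val.map s = k.val.val * g.val.val)
    (hg : g ∈ Kot (WittVector p (AlgebraicClosure (ZMod p))) P p σ G b y wt (Gam K P b y wt a₀) μ) :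
    h ∈ Kot (WittVector p (AlgebraicClosure (ZMod p))) P p σ G b y wt (Gam K P b y wt a₀) μ := by
  have := charZero_K p K
  have := charZero_of_injective_algebraMap (algebraMap K Ω).injective
  have := IsAlgClosure.isAlgClosed K (K := Ω)
  obtain ⟨v, pw, hv, hpw, hτ, hvs, hp, hO, hZ⟩ := exists_val σ hσ s hs
  have nn := newton_nt (P := P) (y := y) (wt := wt) hs hv hpw hvs hp hO
  have e' : h.val = k.val * g.val * (acu (inr s) k.val)⁻¹ :=
    eq_mul_inv_of_mul_eq (Units.ext (by simpa [ac_inr] using e))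
  obtain ⟨c, ν, z, d, a1, a2, a3, a4, a5, a6⟩ := hg
  obtain ⟨x, hx⟩ := ((kap_main hσ hs hG hF).1 k.val).mpr ⟨k.2, k₁, hk⟩
  obtain ⟨_, h1, rfl⟩ := kap_sigma hσ hs hG hF hx
  refine ⟨k * c, ν, _, d, (nn _ _ _).mpr (e' ▸ ((nn _ _ _).mp a1).conj hs hvs (rt_of_map hk)),
    a2, a3, a4, e' ▸ Kap.mul _ _ _ _ (Kap.mul _ _ _ _ hx a5) h1.inv, ?_⟩
  have h2 : a₀.coweightMap x - x ∈ rel (Gam K P b y wt a₀) (lat P wt) :=
    AddSubgroup.subset_closure (Or.inr ⟨a₀, Subgroup.subset_closure (Or.inr rfl), x,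
      ((kap_main hσ hs hG hF).2.2 x).mp ⟨_, hx⟩, rfl⟩)
  convert sub_mem a6 h2 using 1
  abel

theorem newton_uniq (g : GL n Ω) (k k' : G) (ν ν' : N)
    (h : Newton (WittVector p (AlgebraicClosure (ZMod p))) p σ g.val
      (k.val.val * dd P y wt ν * (k⁻¹).val.val))
    (h' : Newton (WittVector p (AlgebraicClosure (ZMod p))) p σ g.val
      (k'.val.val * dd P y wt ν' * (k'⁻¹).val.val))
    (d : ∀ i ∈ b.support, 0 ≤ P.root' i ν) (d' : ∀ i ∈ b.support, 0 ≤ P.root' i ν') : ν = ν' := by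
  have := charZero_K p K
  have := charZero_of_injective_algebraMap (algebraMap K Ω).injective
  have := IsAlgClosure.isAlgClosed K (K := Ω)
  obtain ⟨v, pw, hv, hpw, hτ, hvs, hp, hO, hZ⟩ := exists_val σ hσ s hs
  have nn := newton_nt (P := P) (y := y) (wt := wt) hs hv hpw hvs hp hO
  obtain ⟨ω, hω, hω'⟩ := exists_omega b
  obtain ⟨g₁, r1, F1⟩ := Frame.rat hs
    (hF.one.as hG.one (fun _ => rfl) hω hω' (fun τ => by simp) hτ (fun _ => rfl) hZ) hF
  have A := F1.as hG hs hω hω' (rt_iff.mp r1) hτ hvs hZ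
  have := A.finite
  exact A.uniq hpw hvs k.2 k'.2 ((nn _ _ _).mp h) ((nn _ _ _).mp h') d d'

end Pool.Agent.P.MP_7d29e8_ag
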