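import Pool.Agent.P.MP_7d29e8_ag.HNewt
import Pool.Agent.P.MP_7d29e8_ag.FD8

set_option autoImplicit false

/-! Every nonzero vector of an isocrystal has an exact rational growth rate. -/

namespace Pool.Agent.P.MP_7d29e8_ag

open Finset SemidirectProduct

namespace Nw

variable {E : Type} [Field E] {n : Type} [Fintype n] [DecidableEq n] {v : E → ℚ}

/-- strict lower bound for the valuation -/
def Gt (v : E → ℚ) (C : ℚ) (a : E) : Prop := a = 0 ∨ C < v a

lemma Gt.add (hv : Val v) {C : ℚ} {a b : E} (ha : Gt v C a) (hb : Gt v C b) : Gt v C (a + b) := by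
  by_cases h1 : a = 0
  · rwa [h1, zero_add]
  by_cases h2 : b = 0
  · rwa [h2, add_zero]
  by_cases h3 : a + b = 0
  · exact Or.inl h3
  exact Or.inr ((lt_min (ha.resolve_left h1) (hb.resolve_left h2)).trans_le (hv.add a b h1 h2 h3))

lemma Gt.mul (hv : Val v) {C C' : ℚ} {a b : E} (ha : Gt v C a) (hb : Ge v C' b) :
    Gt v (C + C') (a * b) := by
  by_cases h1 : a = 0
  · exact Or.inl (by rw [h1, zero_mul])
  by_cases h2 : b = 0
  · exact Or.inl (by rw [h2, mul_zero])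
  exact Or.inr (by
    rw [hv.mul a b h1 h2]; exact add_lt_add_of_lt_of_le (ha.resolve_left h1) (hb.resolve_left h2))

lemma ngt_mul (hv : Val v) {C C' : ℚ} {a b : E} (ha : ¬ Gt v C a) (hb : ¬ Gt v C' b) :
    ¬ Gt v (C + C') (a * b) := by
  obtain ⟨a1, a2⟩ := not_or.mp ha
  obtain ⟨b1, b2⟩ := not_or.mp hb
  rintro (h | h)
  · exact mul_ne_zero a1 b1 h
  · rw [hv.mul a b a1 b1] at h; linarith

lemma ngt_add (hv : Val v) {C : ℚ} {a b : E} (ha : Gt v C a) (hb : ¬ Gt v C b) :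
    ¬ Gt v C (a + b) := fun h => hb (by
  have h1 : Gt v C (-a) := ha.imp neg_eq_zero.2 fun e => by rwa [mulv_neg hv.mul]
  have := h1.add hv h
  rwa [neg_add_cancel_left] at this)

lemma gt_map {χ : SL n E} (h : χ ∈ Vs v) {C : ℚ} {a : E} : Gt v C (χ.right a) ↔ Gt v C a := by
  simp only [Gt, h a, EmbeddingLike.map_eq_zero_iff]

/-- the action on vectors as an additive map -/
def avh (χ : SL n E) : (n → E) →+ (n → E) := AddMonoidHom.mk' (av χ) (av_add χ)

lemma av_sum (χ : SL n E) {α : Type} (s : Finset α) (c : α → E) (x : α → n → E) :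
    av χ (∑ a ∈ s, c a • x a) = ∑ a ∈ s, χ.right (c a) • av χ (x a) :=
  (map_sum (avh χ) _ _).trans (sum_congr rfl fun _ _ => av_smul _ _ _)

lemma av_inv (χ : SL n E) (x : n → E) : av χ⁻¹ (av χ x) = x := by
  rw [← av_mul, inv_mul_cancel, av_one]

lemma dual_bd (hv : Val v) (l : (n → E) →ₗ[E] E) :
    ∃ B, ∀ C y, GV v C y → Ge v (B + C) (l y) := by
  obtain ⟨B, hB⟩ := unif (P := fun (i : n) C => Ge v C (l fun j => if i = j then 1 else 0))
    (fun _ _ _ h1 h2 => h2.mono h1) (fun _ => ⟨_, Ge.self _⟩)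
  refine ⟨B, fun C y hy => ?_⟩
  rw [LinearMap.pi_apply_eq_sum_univ, add_comm]
  exact ge_sum hv fun i _ => (hy i).mul hv (hB i)

omit [DecidableEq n] in
lemma gv_ex (x : n → E) : ∃ C, GV v C x :=
  unif (P := fun (i : n) C => Ge v C (x i)) (fun _ _ _ h1 h2 => h2.mono h1) fun _ => ⟨_, Ge.self _⟩

/-- vectors with prescribed growth along `J` -/
def LJ (hv : Val v) (φ : SL n E) (q : ℚ) (J : ℤ → Prop) (C : ℚ) : AddSubgroup (n → E) where
  carrier := {y | ∀ j, J j → GV v (C + j * q) (av (φ ^ j) y)}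
  add_mem' h h' j hj i := by rw [av_add]; exact (h j hj i).add hv (h' j hj i)
  zero_mem' j _ i := Or.inl (congrFun (map_zero (avh (φ ^ j))) i)
  neg_mem' {y} h j hj i := by
    rw [show av (φ ^ j) (-y) = -av (φ ^ j) y from map_neg (avh _) _]
    exact neg_FD8 hv (h j hj i)

lemma LJ.mono {hv : Val v} {φ : SL n E} {q : ℚ} {J J' : ℤ → Prop} {C C' : ℚ} {y : n → E}
    (h : y ∈ LJ hv φ q J C) (hJ : ∀ j, J' j → J j) (hC : C' ≤ C) : y ∈ LJ hv φ q J' C' :=
  fun j hj => (h j (hJ j hj)).mono (by linarith)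

lemma LJ.smul {hv : Val v} {φ : SL n E} (hφ : φ ∈ Vs v) {q : ℚ} {J : ℤ → Prop} {C C' : ℚ}
    {y : n → E} {a : E} (ha : Ge v C' a) (h : y ∈ LJ hv φ q J C) :
    a • y ∈ LJ hv φ q J (C' + C) := fun j hj => by
  rw [av_smul, add_assoc]
  exact (h j hj).smul hv ((ge_map (zpow_mem hφ j)).2 ha)

/-- vectors of slope at least `q` -/
def Fw (hv : Val v) {φ : SL n E} (hφ : φ ∈ Vs v) (q : ℚ) : Submodule E (n → E) where
  carrier := {x | ∃ C, x ∈ LJ hv φ q (0 ≤ ·) C}
  add_mem' := fun ⟨C, h⟩ ⟨C', h'⟩ => ⟨min C C', add_mem (LJ.mono h (fun _ => id) (min_le_left _ _))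
    (LJ.mono h' (fun _ => id) (min_le_right _ _))⟩
  zero_mem' := ⟨0, zero_mem _⟩
  smul_mem' := fun a _ ⟨_, h⟩ => ⟨_, LJ.smul hφ (Ge.self a) h⟩

lemma Fw.mono {hv : Val v} {φ : SL n E} {hφ : φ ∈ Vs v} {q q' : ℚ} (h : q ≤ q') :
    Fw hv hφ q' ≤ Fw hv hφ q := fun _ ⟨C, hC⟩ => ⟨C, fun j hj => (hC j hj).mono (by
  have : (0 : ℚ) ≤ j := by exact_mod_cast hj
  nlinarith)⟩

theorem slope_ex (hv : Val v) {φ : SL n E} (hφ : φ ∈ Vs v) {x : n → E} (hx : x ≠ 0) :
    ∃ q, x ∈ Fw hv hφ q ∧ ∀ q', q < q' → x ∉ Fw hv hφ q' := by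
  classical
  obtain ⟨e, he⟩ : ∃ e : ℕ → n → E, ∀ i, e i = av (φ ^ i) x := ⟨_, fun _ => rfl⟩
  have e1 : ∀ i, e (i + 1) = av φ (e i) := fun i => by rw [he, he, pow_succ', av_mul]
  have h0 : ∃ m, ¬ LinearIndependent E fun i : Fin (m + 1) => e i := ⟨Module.finrank E (n → E),
    fun h => by simpa using h.fintype_card_le_finrank⟩
  obtain ⟨m, li, sp⟩ : ∃ m, (LinearIndependent E fun i : Fin m => e i) ∧
      e m ∈ Submodule.span E (Set.range fun i : Fin m => e i) := by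
    have h1 : LinearIndependent E fun i : Fin (Nat.find h0) => e i := by
      rcases h : Nat.find h0 with _ | m
      · exact linearIndependent_empty_type
      · exact not_not.mp (Nat.find_min h0 (by omega))
    exact ⟨_, h1, by_contra fun h => Nat.find_spec h0 (linearIndependent_finSucc'.mpr ⟨h1, h⟩)⟩
  obtain ⟨a, ha⟩ : ∃ a : ℕ → E, e m = ∑ i ∈ range m, a i • e i := by
    obtain ⟨a, ha⟩ := (Submodule.mem_span_range_iff_exists_fun E).mp sp
    exact ⟨fun i => if h : i < m then a ⟨i, h⟩ else 0, by rw [← ha, sum_range]; simp⟩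
  obtain ⟨g, hg⟩ := (Fintype.linearCombination E fun i : Fin m => e i).exists_leftInverse_of_injective
    (LinearMap.ker_eq_bot.mpr li.fintypeLinearCombination_injective)
  obtain ⟨B, hB⟩ := unif (P := fun (i : Fin m) B => ∀ C y, GV v C y → Ge v (B + C) (g y i))
    (fun _ _ _ h1 h2 C y hy => (h2 C y hy).mono (by linarith))
    fun i => dual_bd hv ((LinearMap.proj i).comp g)
  have hB' : ∀ (c : ℕ → E) C, GV v C (∑ i ∈ range m, c i • e i) → ∀ i < m, Ge v (B + C) (c i) :=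
    fun c C h i hi => by
      have h1 := hB ⟨i, hi⟩ C _ h
      have h2 := congrFun (DFunLike.congr_fun hg fun i : Fin m => c i) ⟨i, hi⟩
      rw [LinearMap.comp_apply, Fintype.linearCombination_apply] at h2
      rwa [sum_range, h2] at h1
  obtain ⟨i₁, b1, b2⟩ := exists_min_image ((range m).filter (a · ≠ 0)) (fun i => v (a i) / (m - i))
    (by
      by_contra h
      refine hx ?_
      rw [← av_inv (φ ^ m) x, ← he, ha, sum_eq_zero fun i hi => by
        rw [show a i = 0 from by_contra fun c => h ⟨i, mem_filter.mpr ⟨hi, c⟩⟩, zero_smul]]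
      exact map_zero (avh _))
  set q := v (a i₁) / (m - i₁) with hq
  have pos : ∀ i < m, (0 : ℚ) < m - i := fun i hi => sub_pos.mpr (by exact_mod_cast hi)
  have a1 : ∀ i < m, Ge v ((m - i) * q) (a i) := fun i hi => by
    by_cases h : a i = 0
    · exact Or.inl h
    · exact Or.inr (by
        rw [mul_comm]; exact (le_div_iff₀ (pos i hi)).mp (b2 i (mem_filter.mpr ⟨mem_range.mpr hi, h⟩)))
  have h2 : ∃ i, i < m ∧ ¬ Gt v ((m - i) * q) (a i) := by
    obtain ⟨c1, c2⟩ := mem_filter.mp b1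
    refine ⟨i₁, mem_range.mp c1, not_or.mpr ⟨c2, not_lt.mpr (le_of_eq ?_)⟩⟩
    rw [hq, mul_div_cancel₀ _ (pos _ (mem_range.mp c1)).ne']
  obtain ⟨i₀, ⟨a2, a3⟩, a4⟩ : ∃ i₀, (i₀ < m ∧ ¬ Gt v ((m - i₀) * q) (a i₀)) ∧
      ∀ i < i₀, Gt v ((m - i) * q) (a i) := ⟨_, Nat.find_spec h2, fun i hi => by_contra fun h =>
        Nat.find_min h2 hi ⟨hi.trans (Nat.find_spec h2).1, h⟩⟩
  clear_value q
  have key : ∀ j, i₀ ≤ j → ∃ c : ℕ → E, e j = ∑ i ∈ range m, c i • e i ∧
      (∀ i < m, Ge v ((j - i) * q) (c i)) ∧ (∀ i < i₀, Gt v ((j - i) * q) (c i)) ∧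
      ∃ i < m, ¬ Gt v ((j - i) * q) (c i) := by
    intro j hj
    induction j, hj using Nat.le_induction with
    | base =>
      refine ⟨fun i => if i = i₀ then 1 else 0, by simp [a2], fun i _ => ?_,
        fun i hi => Or.inl (if_neg hi.ne), i₀, a2, ?_⟩
      · by_cases h : i = i₀
        · exact Or.inr (by simp [h, mulv_one hv.mul])
        · exact Or.inl (if_neg h)
      · simp [Gt, mulv_one hv.mul]
    | succ j hj ih =>
      obtain ⟨c, c1, c2, c3, c4⟩ := ih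
      obtain ⟨m, rfl⟩ : ∃ m', m = m' + 1 := ⟨m - 1, by omega⟩
      obtain ⟨d, d0, d1⟩ : ∃ d : ℕ → E, d 0 = 0 ∧ ∀ i, d (i + 1) = φ.right (c i) :=
        ⟨fun i => i.casesOn 0 fun i => φ.right (c i), rfl, fun _ => rfl⟩
      have w : ∀ i : ℕ, (((j + 1 : ℕ) : ℚ) - i) * q = (j - m) * q + ((m + 1 : ℕ) - i) * q :=
        fun i => by push_cast; ring
      have w' : ∀ i : ℕ, (((j + 1 : ℕ) : ℚ) - (i + 1 : ℕ)) * q = (j - i) * q :=
        fun i => by push_cast; ring
      have d2 : ∀ i ≤ i₀, Gt v (((j + 1 : ℕ) - i) * q) (d i) := fun i hi => by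
        rcases i with _ | i
        · exact Or.inl d0
        · rw [d1, w', gt_map hφ]; exact c3 i (by omega)
      have c5 := (ge_map hφ).2 (c2 m (by omega))
      refine ⟨fun i => d i + φ.right (c m) * a i, ?_, fun i hi => Ge.add hv ?_ ?_,
        fun i hi => (d2 i hi.le).add hv ?_, ?_⟩
      · simp only [add_smul, sum_add_distrib, mul_smul, ← smul_sum]
        rw [← ha, sum_range_succ' fun i => d i • e i, e1, c1, av_sum, sum_range_succ]
        simp only [d0, d1, e1, zero_smul, add_zero]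
      · rcases i with _ | i
        · exact Or.inl d0
        · rw [d1, w', ge_map hφ]; exact c2 i (by omega)
      · rw [w]; exact c5.mul hv (a1 i hi)
      · rw [w, add_comm, mul_comm (φ.right _)]; exact (a4 i hi).mul hv c5
      · by_cases h : Gt v ((j - m) * q) (c m)
        · obtain ⟨i, hi, h'⟩ := c4
          have : i ≠ m := fun e => h' (e ▸ h)
          refine ⟨i + 1, by omega, ?_⟩
          beta_reduce
          rw [add_comm (d _)]
          refine ngt_add hv ?_ ?_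
          · rw [w]; exact ((gt_map hφ).2 h).mul hv (a1 _ (by omega))
          · rwa [d1, w', gt_map hφ]
        · refine ⟨i₀, a2, ngt_add hv (d2 _ le_rfl) ?_⟩
          rw [w]; exact ngt_mul hv (by rwa [gt_map hφ]) a3
  obtain ⟨C, hC⟩ := unif (P := fun (i : Fin m) C => GV v (C + (i : ℕ) * q) (e i))
    (fun _ _ _ h1 h2 => h2.mono (by linarith)) fun i => let ⟨C, h⟩ := gv_ex (v := v) (e i);
      ⟨C - (i : ℕ) * q, by rwa [sub_add_cancel]⟩
  refine ⟨q, ⟨C, fun j hj => ?_⟩, fun q' hq' ⟨C', hC'⟩ => ?_⟩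
  · obtain ⟨j, rfl⟩ := Int.eq_ofNat_of_zero_le hj
    rw [zpow_natCast, ← he, Int.cast_natCast]
    by_cases h : i₀ ≤ j
    · obtain ⟨c, c1, c2, -⟩ := key j h
      intro t
      rw [c1, Finset.sum_apply]
      exact ge_sum hv fun i hi => (((hC ⟨i, mem_range.mp hi⟩).smul hv
        (c2 i (mem_range.mp hi))) t).mono (le_of_eq (by ring))
    · exact hC ⟨j, by omega⟩
  · obtain ⟨j, hj⟩ := exists_nat_gt ((m * |q| - B - C') / (q' - q))
    obtain ⟨c, c1, -, -, i, hi, c4⟩ := key (j + i₀) (by omega)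
    have h3 := hC' (j + i₀ : ℕ) (Int.natCast_nonneg _)
    rw [zpow_natCast, ← he, Int.cast_natCast, c1] at h3
    refine c4 ((hB' c _ h3 i hi).imp_right fun h => lt_of_lt_of_le ?_ h)
    rw [div_lt_iff₀ (sub_pos.mpr hq')] at hj
    have h4 : (i : ℚ) * |q| ≤ m * |q| := by gcongr
    have h5 : -((i : ℚ) * q) ≤ i * |q| := by
      rw [← mul_neg]; gcongr; exact neg_le_abs q
    have h6 : (0 : ℚ) ≤ i₀ * (q' - q) := mul_nonneg (Nat.cast_nonneg _) (sub_pos.mpr hq').le
    push_cast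
    nlinarith

end Nw

end Pool.Agent.P.MP_7d29e8_ag
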