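import Pool.Agent.P.MP_7d29e8_ag.KG

set_option autoImplicit false

/-! The slope decomposition of an isocrystal over a complete discretely valued field. -/

namespace Pool.Agent.P.MP_7d29e8_ag

open Finset SemidirectProduct

namespace Nw

lemma seq_ex {α : Type} {P : ℕ → α → Prop} {R : ℕ → α → α → Prop}
    (h : ∀ k y, P k y → ∃ y', P (k + 1) y' ∧ R k y y') {y : α} (h0 : P 0 y) :
    ∃ z : ℕ → α, z 0 = y ∧ ∀ k, P k (z k) ∧ R k (z k) (z (k + 1)) := by
  have : Nonempty α := ⟨y⟩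
  choose! f hf using h
  let z : ℕ → α := fun k => k.rec y f
  have h1 : ∀ k, P k (z k) := fun k => by
    induction k with
    | zero => exact h0
    | succ k ih => exact (hf k _ ih).1
  exact ⟨z, rfl, fun k => ⟨h1 k, (hf k _ (h1 k)).2⟩⟩

variable {E : Type} [Field E] {n : Type} [Fintype n] [DecidableEq n] {v : E → ℚ}
  {hv : Val v} {φ : SL n E} (hφ : φ ∈ Vs v) {q : ℚ}

lemma LJ.zero {J : ℤ → Prop} (hJ : J 0) {C : ℚ} {y : n → E} (h : y ∈ LJ hv φ q J C) :
    GV v C y := by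
  have := h 0 hJ
  rwa [zpow_zero, av_one, Int.cast_zero, zero_mul, add_zero] at this

include hφ

lemma lj_lim (hc : Cpl v Set.univ) {J : ℤ → Prop} (hJ : J 0) {C : ℚ} {z : ℕ → n → E}
    (h : ∀ k : ℕ, z (k + 1) - z k ∈ LJ hv φ q J (C + k)) :
    ∃ x, ∀ k : ℕ, x - z k ∈ LJ hv φ q J (C + k) := by
  choose x _ hx using fun t => hc (fun k => z k t) (fun _ => trivial) fun C' =>
    ⟨⌈C' - C⌉₊, fun j hj => (LJ.zero hJ (h j) t).mono (by linarith [Nat.ceil_le.mp hj])⟩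
  have tel : ∀ k k' : ℕ, k ≤ k' → z k' - z k ∈ LJ hv φ q J (C + k) := fun k k' hk => by
    induction k', hk using Nat.le_induction with
    | base => rw [sub_self]; exact zero_mem _
    | succ j hj ih =>
      have := add_mem (LJ.mono (h j) (fun _ => id)
        (show C + k ≤ C + j by gcongr)) ih
      rwa [sub_add_sub_cancel] at this
  refine ⟨x, fun k j hj t => ?_⟩
  obtain ⟨B, hB⟩ := av_bd hv (zpow_mem hφ j)
  choose I hI using fun t => hx t (C + k + j * q - B)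
  have h1 := hB _ (x - z (max k (univ.sup I))) (fun t => hI t _
    ((le_sup (mem_univ t)).trans (le_max_right _ _))) t
  rw [← sub_add_sub_cancel x (z (max k (univ.sup I))), av_add]
  exact (h1.mono (by linarith)).add hv (tel k _ (le_max_left _ _) j hj t)

lemma lj_far (m : ℕ) : ∃ k : ℕ, ∀ y ∈ LJ hv φ q (0 ≤ ·) k, y ∈ LJ hv φ q (-(m : ℤ) ≤ ·) 0 := by
  obtain ⟨B, hB⟩ := unif (P := fun (i : Fin (m + 1)) B => ∀ C x, GV v C x →
    GV v (B + C + (-(i : ℕ) : ℤ) * q) (av (φ ^ (-(i : ℕ) : ℤ)) x))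
    (fun _ _ _ h1 h2 C x hx => (h2 C x hx).mono (by linarith)) (fun i => by
      obtain ⟨B, hB⟩ := av_bd hv (zpow_mem hφ (-(i : ℕ) : ℤ))
      exact ⟨B - (-(i : ℕ) : ℤ) * q, fun C x hx => (hB C x hx).mono (by linarith)⟩)
  refine ⟨⌈-B⌉₊, fun y hy j hj => ?_⟩
  obtain ⟨i, rfl | rfl⟩ := j.eq_nat_or_neg
  · exact (hy _ (Int.natCast_nonneg i)).mono (by linarith [Nat.cast_nonneg (α := ℚ) ⌈-B⌉₊])
  · exact (hB ⟨i, by omega⟩ _ _ (LJ.zero le_rfl hy)).mono (by linarith [Nat.le_ceil (-B)])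

variable {p : ℕ} (h0 : (p : E) ≠ 0) (hp : v (p : E) = 1)
include h0 hp

lemma lj_shift {J J' : ℤ → Prop} {C C' : ℚ} {y : n → E} (h : y ∈ LJ hv φ q J C) (z i : ℤ)
    (hJ : ∀ j, J' j → J (j + i)) (hC : C' ≤ z + C + i * q) :
    (p : E) ^ z • av (φ ^ i) y ∈ LJ hv φ q J' C' := by
  refine LJ.mono (LJ.smul hφ (C' := z) (C := C + i * q)
    (Or.inr (by rw [mulv_zpow hv.mul h0, hp, mul_one])) fun j hj => ?_) (fun _ => id) (by linarith)
  rw [← av_mul, ← zpow_add]
  exact (h _ (hJ j hj)).mono (le_of_eq (by push_cast; ring))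

variable {O : Type} [CommRing O] [IsNoetherianRing O] [Algebra O E]
  (hO : ∀ a : E, a ≠ 0 → ((∃ o : O, algebraMap O E o = a) ↔ 0 ≤ v a))
  (hA : ∀ k : ℕ, IsArtinian O (O ⧸ Ideal.span {(p : O) ^ k}))
include hO hA

lemma lj_stab (k : ℕ) : ∃ N : ℕ, ∀ m, N ≤ m → ∀ y ∈ LJ hv φ q (-(N : ℤ) ≤ ·) 0,
    ∃ y' ∈ LJ hv φ q (-(m : ℤ) ≤ ·) 0, y' - y ∈ LJ hv φ q (0 ≤ ·) k := by
  have hint : ∀ o : O, Ge v 0 (algebraMap O E o) := fun o => by
    by_cases h : algebraMap O E o = 0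
    · exact Or.inl h
    · exact Or.inr ((hO _ h).1 ⟨o, rfl⟩)
  let L : ℕ → Submodule O (n → E) := fun m => { LJ hv φ q (-(m : ℤ) ≤ ·) 0 with
    smul_mem' := fun o y hy => by
      have := LJ.smul hφ (hint o) hy
      rwa [zero_add, algebraMap_smul] at this }
  have hL : ∀ m m', m ≤ m' → L m' ≤ L m := fun m m' h y hy =>
    LJ.mono (hv := hv) hy (fun j hj => by omega) le_rfl
  have fg : (L 0).FG := by
    refine (Submodule.fg_span (Set.finite_range fun i : n => (Pi.single i 1 : n → E))).of_le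
      fun y hy => ?_
    rw [← univ_sum_single y]
    refine Submodule.sum_mem _ fun i _ => ?_
    by_cases h1 : y i = 0
    · rw [h1, Pi.single_zero]; exact zero_mem _
    · obtain ⟨o, ho⟩ := (hO _ h1).2 ((LJ.zero (hv := hv) (J := (-((0 : ℕ) : ℤ) ≤ ·)) (by simp) hy i).resolve_left h1)
      rw [show (Pi.single i (y i) : n → E) = o • Pi.single i 1 by
        rw [← Pi.single_smul, Algebra.smul_def, ho, mul_one]]
      exact Submodule.smul_mem _ _ (Submodule.subset_span ⟨i, rfl⟩)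
  obtain ⟨r, s, hs⟩ := Submodule.fg_iff_exists_fin_generating_family.mp fg
  let e := Fintype.linearCombination O s
  have he : LinearMap.range e = L 0 := (Fintype.range_linearCombination O s).trans hs
  let π : (Fin r → O) →ₗ[O] Fin r → O ⧸ Ideal.span {(p : O) ^ k} :=
    (Ideal.span {(p : O) ^ k}).mkQ.compLeft _
  have := hA k
  obtain ⟨N, hN⟩ := IsArtinian.monotone_stabilizes (R := O)
    ⟨fun m => OrderDual.toDual (((L m).comap e).map π), fun m m' h =>
      Submodule.map_mono (Submodule.comap_mono (hL m m' h))⟩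
  refine ⟨N, fun m hm y hy => ?_⟩
  obtain ⟨c, rfl⟩ : y ∈ LinearMap.range e := he ▸ hL 0 N N.zero_le hy
  have h1 : ((L N).comap e).map π = ((L m).comap e).map π := hN m hm
  obtain ⟨c', h2, h3⟩ := h1.le ⟨c, hy, rfl⟩
  choose d hd using fun i => Ideal.mem_span_singleton'.mp
    ((Submodule.Quotient.eq _).mp (congrFun h3 i))
  refine ⟨_, h2, ?_⟩
  have h4 : e c' - e c = (p : E) ^ (k : ℤ) • av (φ ^ (0 : ℤ)) (e d) := by
    rw [zpow_zero, av_one, ← map_sub, show c' - c = (p : O) ^ k • d from funext fun i => by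
      rw [Pi.sub_apply, ← hd, mul_comm]; rfl, map_smul, ← algebraMap_smul E, map_pow, map_natCast,
      zpow_natCast]
  rw [h4]
  exact lj_shift hφ h0 hp (he.le ⟨d, rfl⟩) _ _ (fun j hj => by simpa using hj) (by simp)

variable (hc : Cpl v Set.univ)
include hc

lemma lj_one : ∃ N : ℕ, ∀ y ∈ LJ hv φ q (-(N : ℤ) ≤ ·) 0,
    ∃ w ∈ LJ hv φ q (0 ≤ ·) 1, w + y ∈ LJ hv φ q (fun _ => True) 0 := by
  choose N hN using lj_stab (hv := hv) (q := q) hφ h0 hp hO hA
  refine ⟨N 1, fun y hy => ?_⟩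
  obtain ⟨z, rfl, hz⟩ := seq_ex (P := fun k y => y ∈ LJ hv φ q (-(N (k + 1) : ℤ) ≤ ·) 0)
    (R := fun k y y' => y' - y ∈ LJ hv φ q (0 ≤ ·) (1 + k)) (fun k y hy => by
      obtain ⟨y', a, b⟩ := hN (k + 1) _ (le_max_left _ (N (k + 1 + 1))) y hy
      exact ⟨y', LJ.mono a (fun j hj => by omega) le_rfl,
        LJ.mono b (fun _ => id) (by push_cast; linarith)⟩) hy
  obtain ⟨x, hx⟩ := lj_lim hφ hc le_rfl fun k => (hz k).2
  refine ⟨x - z 0, by simpa using hx 0, fun j _ => ?_⟩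
  obtain ⟨k, hk⟩ := lj_far (hv := hv) (q := q) hφ j.natAbs
  obtain ⟨y', a, b⟩ := hN (k + 1) _ (le_max_left _ j.natAbs) _ (hz k).1
  have h1 := add_mem (hk _ (sub_mem (LJ.mono (hx k) (fun _ => id) (by linarith))
    (LJ.mono b (fun _ => id) (by push_cast; linarith)))) (LJ.mono a (fun j hj => by omega) le_rfl)
  rw [sub_add_cancel, show x = x - z k - (y' - z k) + y' by abel]
  exact h1 j (by omega)

lemma fw_split : ∃ q', q < q' ∧ Fw hv hφ q ≤ Good hv hφ q ⊔ Fw hv hφ q' := by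
  obtain ⟨N₀, hN⟩ := lj_one (hv := hv) (q := q) hφ h0 hp hO hA hc
  obtain ⟨N, a, n1, n2, n3⟩ : ∃ (N : ℕ) (a : ℤ), 0 < N ∧ N₀ ≤ N ∧ (N : ℚ) * q = a :=
    ⟨(N₀ + 1) * q.den, (N₀ + 1) * q.num, by have := q.den_pos; positivity,
      by have := q.den_pos; nlinarith, by
        push_cast; rw [mul_assoc, Rat.den_mul_eq_num]⟩
  have n4 : (0 : ℚ) < N := by exact_mod_cast n1
  have e1 : ∀ (z i : ℤ) (y : n → E),
      (p : E) ^ (-z) • av (φ ^ (-i)) ((p : E) ^ z • av (φ ^ i) y) = y := fun z i y => by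
    rw [av_smul, map_zpow₀, map_natCast, smul_smul, ← zpow_add₀ h0, ← av_mul, ← zpow_add]
    simp [av_one]
  refine ⟨q + 1 / N, by simpa using n1, ?_⟩
  rintro y ⟨C, hC⟩
  rw [← e1 ⌈-C⌉ 0 y, neg_zero, zpow_zero, av_one]
  refine Submodule.smul_mem _ _ ?_
  have hy := lj_shift hφ h0 hp (J' := (((0 : ℕ) : ℤ) * N ≤ ·)) (C' := (0 : ℕ)) hC ⌈-C⌉ 0
    (fun j hj => by simpa using hj) (by simpa using by linarith [Int.le_ceil (-C)])
  rw [zpow_zero] at hy
  generalize (p : E) ^ ⌈-C⌉ • av 1 y = y at hy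
  obtain ⟨z, rfl, hz⟩ := seq_ex (P := fun k y => y ∈ LJ hv φ q ((k : ℤ) * N ≤ ·) k)
    (R := fun k y y' => y' - y ∈ LJ hv φ q (fun _ => True) (0 + k)) (fun k y hy => by
      obtain ⟨w, a1, a2⟩ := hN _ (lj_shift hφ h0 hp hy (-k - (k + 1) * a) ((k + 1) * N)
        (fun j hj => by have : (N₀ : ℤ) ≤ N := by exact_mod_cast n2
                        nlinarith) (le_of_eq (by push_cast; rw [← n3]; ring)))
      refine ⟨-((p : E) ^ (-(-k - (k + 1) * a : ℤ)) • av (φ ^ (-((k + 1) * N : ℤ))) w),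
        neg_mem (lj_shift hφ h0 hp a1 _ _ (fun j hj => by push_cast at hj; linarith)
          (le_of_eq (by push_cast; rw [← n3]; ring))), ?_⟩
      have a3 := neg_mem (lj_shift hφ h0 hp (J' := fun _ => True) (C' := 0 + k) a2
        (-(-k - (k + 1) * a)) (-((k + 1) * N))
        (fun _ _ => trivial) (le_of_eq (by push_cast; rw [← n3]; ring)))
      rwa [av_add, smul_add, e1, neg_add, ← sub_eq_add_neg] at a3) hy
  obtain ⟨x, hx⟩ := lj_lim hφ hc trivial fun k => (hz k).2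
  refine Submodule.mem_sup.mpr ⟨-(x - z 0), neg_mem ⟨_, fun j => hx 0 j trivial⟩, x,
    ⟨-1, fun j hj => ?_⟩, by abel⟩
  obtain ⟨j, rfl⟩ := Int.eq_ofNat_of_zero_le hj
  have h1 := add_mem (LJ.mono (hx (j / N)) (fun _ _ => trivial) (zero_add _).ge) (hz (j / N)).1
  rw [sub_add_cancel] at h1
  refine (h1 j (show ((j / N : ℕ) : ℤ) * N ≤ j by exact_mod_cast Nat.div_mul_le_self j N)).mono ?_
  have h2 : (j : ℚ) < ((j / N : ℕ) + 1) * N := by
    rw [add_mul, one_mul]; exact_mod_cast Nat.lt_div_mul_add n1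
  rw [← div_lt_iff₀ n4] at h2
  rw [Int.cast_natCast, mul_add, mul_one_div]
  linarith

theorem good_top : ⨆ q, Good hv hφ q = ⊤ := by
  classical
  have key : ∀ d q, Module.finrank E (Fw hv hφ q) = d → Fw hv hφ q ≤ ⨆ q, Good hv hφ q := by
    intro d
    induction d using Nat.strong_induction_on with
    | _ d ih =>
      rintro q rfl
      obtain ⟨S, hS⟩ := IsNoetherian.noetherian (Fw hv hφ q)
      choose! r r1 r2 using fun x (hx : x ≠ 0) => slope_ex hv hφ hx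
      by_cases h : (S.filter (· ≠ 0)).Nonempty
      · obtain ⟨x, a1, a2⟩ := exists_min_image _ r h
        obtain ⟨a3, a4⟩ := mem_filter.mp a1
        obtain ⟨q', b1, b2⟩ := fw_split (hv := hv) (q := r x) hφ h0 hp hO hA hc
        have b3 : x ∈ Fw hv hφ q := hS ▸ Submodule.subset_span a3
        have b4 : Fw hv hφ q ≤ Fw hv hφ (r x) := hS ▸ Submodule.span_le.mpr fun y hy => by
          by_cases e : y = 0
          · exact e ▸ zero_mem _
          · exact Fw.mono (a2 y (mem_filter.mpr ⟨hy, e⟩)) (r1 y e)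
        refine b4.trans (b2.trans (sup_le (le_iSup _ _) (ih _ ?_ q' rfl)))
        refine Submodule.finrank_lt_finrank_of_lt (lt_of_le_of_ne (Fw.mono ?_) fun e =>
          r2 x a4 q' b1 (e ▸ b3))
        exact (not_lt.mp fun c => r2 x a4 q c b3).trans b1.le
      · exact hS ▸ Submodule.span_le.mpr fun y hy => by
          rw [show y = 0 from by_contra fun c => h ⟨y, mem_filter.mpr ⟨hy, c⟩⟩]
          exact zero_mem _
  obtain ⟨B, hB⟩ := av_bd hv hφ
  refine top_le_iff.mp fun x _ => key _ B rfl ?_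
  obtain ⟨C, hC⟩ := gv_ex (v := v) x
  refine ⟨C, fun j hj => ?_⟩
  obtain ⟨j, rfl⟩ := Int.eq_ofNat_of_zero_le hj
  rw [zpow_natCast]
  induction j with
  | zero => simpa [av_one] using hC
  | succ j ih =>
    rw [pow_succ', av_mul]
    exact (hB _ _ (ih (Int.natCast_nonneg j))).mono (le_of_eq (by push_cast; ring))

theorem good_basis : ∃ (k : GL n E) (h : n → ℚ), ∀ l, (fun t => k.val t l) ∈ Good hv hφ (h l) := by
  obtain ⟨b, h1, h2, h3⟩ := exists_linearIndependent E (⋃ q, (Good hv hφ q : Set (n → E)))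
  rw [← Submodule.iSup_eq_span, good_top hφ h0 hp hO hA hc] at h2
  let B := Module.Basis.mk h3 (by rw [Subtype.range_coe, h2])
  let e := (Pi.basisFun E n).indexEquiv B
  choose h hh using fun l => Set.mem_iUnion.mp (h1 (e l).2)
  obtain ⟨k, hk⟩ := (Matrix.linearIndependent_cols_iff_isUnit
    (A := Matrix.of fun t l => (e l : n → E) t)).mp (h3.comp e e.injective)
  exact ⟨k, h, fun l => by rw [hk]; exact hh l⟩

end Nw

end Pool.Agent.P.MP_7d29e8_ag
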