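import Pool.Agent.P.MP_7d29e8_ag.KG
import Pool.Agent.P.MP_7d29e8_ag.FB2

set_option autoImplicit false

/-! Independence of the slope pieces; the Newton cocharacter factors through the group. -/

namespace Pool.Agent.P.MP_7d29e8_ag

open Finset SemidirectProduct

namespace Nw

variable {E : Type} [Field E] {v : E → ℚ} {V : Type} [AddCommGroup V] [Module E V]

/-- a semilinear action of the integers preserving the valuation -/
structure SA (v : E → ℚ) (T : ℤ → V →+ V) (θ : ℤ → E → E) : Prop where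
  zero : ∀ x, T 0 x = x
  add : ∀ i j x, T (i + j) x = T i (T j x)
  smul : ∀ j a x, T j (a • x) = θ j a • T j x
  ge : ∀ j C a, Ge v C a → Ge v C (θ j a)

/-- vectors of slope `q`: the orbit lies in the span of a finite family, with bounds -/
def SG (v : E → ℚ) (T : ℤ → V →+ V) (q : ℚ) (x : V) : Prop :=
  ∃ (β : Type) (_ : Fintype β) (B : β → V) (C : ℚ), ∀ j : ℤ, ∃ c : β → E,
    T j x = ∑ b, c b • B b ∧ ∀ b, Ge v (C + j * q) (c b)

variable {T : ℤ → V →+ V} {θ : ℤ → E → E}

lemma SG.weak (hv : Val v) {q : ℚ} {x : V} (h : SG v T q x) (l : V →ₗ[E] E) :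
    ∃ C, ∀ j : ℤ, Ge v (C + j * q) (l (T j x)) := by
  obtain ⟨β, _, B, C, h⟩ := h
  obtain ⟨D, hD⟩ := gv_ex (v := v) fun b => l (B b)
  refine ⟨C + D, fun j => ?_⟩
  obtain ⟨c, e, hc⟩ := h j
  rw [e, map_sum]
  exact ge_sum hv fun b _ => by
    rw [map_smul]; exact ((hc b).mul hv (hD b)).mono (le_of_eq (by ring))

lemma SG.zero (q : ℚ) : SG v T q 0 :=
  ⟨Empty, inferInstance, Empty.elim, 0, fun _ => ⟨Empty.elim, by simp, fun b => b.elim⟩⟩

lemma SG.add {q : ℚ} {x y : V} (h : SG v T q x) (h' : SG v T q y) : SG v T q (x + y) := by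
  obtain ⟨β, _, B, C, h⟩ := h
  obtain ⟨β', _, B', C', h'⟩ := h'
  refine ⟨β ⊕ β', inferInstance, Sum.elim B B', min C C', fun j => ?_⟩
  obtain ⟨c, e, hc⟩ := h j
  obtain ⟨c', e', hc'⟩ := h' j
  refine ⟨Sum.elim c c', by simp [e, e'], ?_⟩
  rintro (b | b)
  · exact (hc b).mono (by linarith [min_le_left C C'])
  · exact (hc' b).mono (by linarith [min_le_right C C'])

lemma SG.smul (hv : Val v) (S : SA v T θ) {q : ℚ} {x : V} (h : SG v T q x) (a : E) :
    SG v T q (a • x) := by
  obtain ⟨β, _, B, C, h⟩ := h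
  refine ⟨β, inferInstance, B, v a + C, fun j => ?_⟩
  obtain ⟨c, e, hc⟩ := h j
  exact ⟨fun b => θ j a * c b, by simp only [S.smul, e, smul_sum, mul_smul], fun b =>
    ((S.ge j _ _ (Ge.self a)).mul hv (hc b)).mono (le_of_eq (by ring))⟩

lemma SG.shift (S : SA v T θ) {q : ℚ} {x : V} (h : SG v T q x) (i : ℤ) : SG v T q (T i x) := by
  obtain ⟨β, _, B, C, h⟩ := h
  refine ⟨β, inferInstance, B, C + i * q, fun j => ?_⟩
  obtain ⟨c, e, hc⟩ := h (j + i)
  exact ⟨c, by rw [← S.add, e], fun b => (hc b).mono (le_of_eq (by push_cast; ring))⟩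

lemma SG.sum {α : Type} {s : Finset α} {f : α → V} {q : ℚ} (h : ∀ a ∈ s, SG v T q (f a)) :
    SG v T q (∑ a ∈ s, f a) := sum_induction _ _ (fun _ _ => SG.add) (SG.zero q) h

lemma SG.eq_zero (hv : Val v) (S : SA v T θ) {q q' : ℚ} (hq : q < q') {x : V} (h : SG v T q x)
    (h' : ∀ l : V →ₗ[E] E, ∃ C, ∀ j : ℕ, Ge v (C + j * q') (l (T j x))) : x = 0 := by
  let W := Submodule.span E (Set.range fun j => T j x)
  have hW : ∀ y ∈ W, SG v T q y := fun y hy => Submodule.span_induction
    (fun _ ⟨j, e⟩ => e ▸ h.shift S j) (SG.zero q) (fun _ _ _ _ => SG.add)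
    (fun a _ _ h => h.smul hv S a) hy
  have : Module.Finite E W := by
    obtain ⟨β, _, B, C, h⟩ := h
    have := Module.Finite.span_of_finite E (Set.finite_range B)
    refine Submodule.finiteDimensional_of_le (S₂ := Submodule.span E (Set.range B))
      (Submodule.span_le.mpr ?_)
    rintro _ ⟨j, rfl⟩
    obtain ⟨c, e, -⟩ := h j
    exact (Submodule.mem_span_range_iff_exists_fun E).mpr ⟨c, e.symm⟩
  let b := Module.finBasis E W
  choose l hl using fun i => LinearMap.exists_extend (b.coord i)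
  refine (Module.forall_dual_apply_eq_zero_iff E x).mp fun f => by_contra fun hf => ?_
  obtain ⟨C, hC⟩ := unif (P := fun i C => ∀ j : ℕ, Ge v (C + j * q') (l i (T j x)))
    (fun _ _ _ h1 h2 j => (h2 j).mono (by linarith)) fun i => h' (l i)
  obtain ⟨D, hD⟩ := unif (P := fun i C => ∀ j : ℤ, Ge v (C + j * q) (f (T j (b i))))
    (fun _ _ _ h1 h2 j => (h2 j).mono (by linarith)) fun i => (hW _ (b i).2).weak hv f
  obtain ⟨j, hj⟩ := exists_nat_gt ((v (f x) - C - D) / (q' - q))
  rw [div_lt_iff₀ (sub_pos.mpr hq)] at hj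
  have e1 : T j x = ∑ i, l i (T j x) • (b i : V) := by
    have h1 := congrArg W.subtype (b.sum_repr ⟨T j x, Submodule.subset_span ⟨_, rfl⟩⟩)
    rw [map_sum] at h1
    refine h1.symm.trans (sum_congr rfl fun i _ => ?_)
    rw [map_smul]
    exact congrArg (· • (b i : V)) (DFunLike.congr_fun (hl i) _).symm
  have e2 : f x = ∑ i, θ (-j) (l i (T j x)) * f (T (-j) (b i)) := by
    conv_lhs => rw [← S.zero x, ← neg_add_cancel (j : ℤ), S.add, e1]
    simp only [map_sum, S.smul, map_smul, smul_eq_mul]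
  have h2 : Ge v (C + j * q' + (D + (-j : ℤ) * q)) (f x) :=
    e2 ▸ ge_sum hv fun i _ => (S.ge _ _ _ (hC i j)).mul hv (hD i _)
  have h3 := h2.resolve_left hf
  push_cast at h3
  linarith

theorem SG.indep (hv : Val v) (S : SA v T θ) (s : Finset ℚ) (z : ℚ → V)
    (h : ∀ q ∈ s, SG v T q (z q)) (h0 : ∑ q ∈ s, z q = 0) : ∀ q ∈ s, z q = 0 := by
  induction s using Finset.induction_on_min with
  | empty => simp
  | insert a s ha ih =>
    have na : a ∉ s := fun c => lt_irrefl _ (ha a c)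
    rw [sum_insert na] at h0
    have h1 : z a = 0 := by
      rcases s.eq_empty_or_nonempty with rfl | hs
      · simpa using h0
      obtain ⟨q', b1, b2⟩ := exists_min_image s id hs
      refine (h a (mem_insert_self _ _)).eq_zero hv S (ha q' b1) fun l => ?_
      obtain ⟨C, hC⟩ := unif (P := fun (q : s) C => ∀ j : ℤ, Ge v (C + j * q) (l (T j (z q))))
        (fun _ _ _ h1 h2 j => (h2 j).mono (by linarith))
        fun q => (h q (mem_insert_of_mem q.2)).weak hv l
      refine ⟨C, fun j => ?_⟩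
      rw [eq_neg_of_add_eq_zero_left h0, map_neg, map_neg, map_sum, map_sum]
      refine neg_FD8 hv (ge_sum hv fun q hq => (hC ⟨q, hq⟩ j).mono ?_)
      have : q' ≤ q := b2 q hq
      push_cast
      gcongr
    rw [h1, zero_add] at h0
    exact forall_mem_insert _ _ _ |>.mpr ⟨h1, ih (fun q hq => h q (mem_insert_of_mem hq)) h0⟩

theorem SG.fiber (hv : Val v) (S : SA v T θ) {α : Type} (s : Finset α) (w : α → ℚ) (y : α → V)
    (h : ∀ a ∈ s, SG v T (w a) (y a)) (h0 : ∑ a ∈ s, y a = 0) (q : ℚ) :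
    ∑ a ∈ s with w a = q, y a = 0 := by
  by_cases hq : q ∈ s.image w
  · refine SG.indep hv S (s.image w) (fun q => ∑ a ∈ s with w a = q, y a)
      (fun q _ => SG.sum fun a ha => (mem_filter.mp ha).2 ▸ h a (mem_filter.mp ha).1) ?_ q hq
    rw [sum_fiberwise_of_maps_to fun a ha => mem_image_of_mem w ha, h0]
  · exact sum_eq_zero fun a ha =>
      absurd (mem_image.mpr ⟨a, (mem_filter.mp ha).1, (mem_filter.mp ha).2⟩) hq

variable {n : Type} [Fintype n] [DecidableEq n] {hv : Val v} {φ : SL n E} {hφ : φ ∈ Vs v}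
  {k : GL n E} {h : n → ℚ} (hk : ∀ l, (fun t => k.val t l) ∈ Good hv hφ (h l))
include hk

theorem good_comm : ac φ (cd k fun i => (h i : E)) = cd k fun i => (h i : E) := by
  have S : SA v (fun j : ℤ => avh (φ ^ j)) fun j => (φ ^ j).right :=
    ⟨av_one, fun i j x => by rw [zpow_add]; exact av_mul _ _ _, fun j => av_smul _,
      fun j C a => (ge_map (zpow_mem hφ j)).2⟩
  have g : ∀ {q x}, x ∈ Good hv hφ q → SG v (fun j : ℤ => avh (φ ^ j)) q x := fun ⟨C, hC⟩ =>
    ⟨n, inferInstance, fun i => Pi.single i 1, C, fun j => ⟨_, pi_eq_sum_univ' _, hC j⟩⟩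
  set y := φ.left * ga n E φ.right k with hy
  have key : ∀ i l, h i ≠ h l → (k⁻¹ * y).val i l = 0 := fun i l hil => by
    have e : ∀ c : n → E, ∑ m, c m • (fun t => k.val t m) = k.val.mulVec c := fun c => by
      funext t; simp [Matrix.mulVec, dotProduct, mul_comm]
    have h1 := SG.fiber hv S univ (fun o : Option n => h (o.getD l))
      (fun o => o.elim ((-1 : E) • avh (φ ^ (1 : ℤ)) fun t => k.val t l)
        fun m => (k⁻¹ * y).val m l • fun t => k.val t m) (by
          rintro (_ | m) -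
          · exact ((g (hk l)).shift S 1).smul hv S _
          · exact (g (hk m)).smul hv S _) (by
          rw [Fintype.sum_option]
          simp only [Option.elim]
          rw [e, neg_one_smul, neg_add_eq_zero, zpow_one]
          funext t
          exact congrFun (congrFun (congrArg Units.val (mul_inv_cancel_left k y)).symm t) l) (h i)
    rw [sum_filter, Fintype.sum_option] at h1
    simp only [Option.elim, Option.getD, if_neg hil.symm, zero_add, ← ite_zero_smul] at h1
    rw [e] at h1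
    have h2 := congrFun (Matrix.mulVec_injective_of_isUnit k.isUnit
      (h1.trans (Matrix.mulVec_zero _).symm)) i
    simpa using h2
  rw [cd, ac_diag, ← hy, Units.mul_inv_eq_iff_eq_mul, mul_assoc, mul_assoc,
    ← Units.inv_mul_eq_iff_eq_mul, ← mul_assoc, ← Units.val_mul]
  ext i l
  rw [Matrix.mul_diagonal, Matrix.diagonal_mul]
  by_cases e : h i = h l
  · rw [e, mul_comm]
  · rw [key i l e, zero_mul, mul_zero]

end Nw

end Pool.Agent.P.MP_7d29e8_ag
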