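import Pool.Agent.P.MP_7d29e8_ag.KF
import Pool.Agent.P.MP_7d29e8_ag.KH
import Pool.Agent.P.MP_7d29e8_ag.KI
import Pool.Agent.P.MP_7d29e8_ag.FJ

set_option autoImplicit false

/-! Existence of the Newton point. -/

namespace Pool.Agent.P.MP_7d29e8_ag

open Finset SemidirectProduct

namespace Nw

variable {E : Type} [Field E] {v : E → ℚ} {n : Type} [Fintype n] [DecidableEq n]

/-- semilinear maps normalising `G` -/
def NG (G : Subgroup (GL n E)) : Subgroup (SL n E) where
  carrier := {χ | χ.left ∈ G ∧ ∀ g, ga n E χ.right g ∈ G ↔ g ∈ G}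
  mul_mem' {a b} ha hb := ⟨mul_mem ha.1 ((ha.2 _).2 hb.1), fun g => by
    rw [mul_right, map_mul]; exact (ha.2 _).trans (hb.2 g)⟩
  one_mem' := ⟨one_mem G, fun _ => Iff.rfl⟩
  inv_mem' {a} ha := by
    have h : ∀ g, ga n E a.right⁻¹ g ∈ G ↔ g ∈ G := fun g => by
      rw [← ha.2, map_inv]; simp
    exact ⟨(h _).2 (inv_mem ha.1), h⟩

variable {G : Subgroup (GL n E)}

/-- the twisted action on functions on `G` -/
def tw (χ : NG G) : (G → E) →+* (G → E) where
  toFun F x := χ.val.right (F ⟨ga n E χ.val⁻¹.right (x.val * χ.val.left),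
    ((χ⁻¹).2.2 _).2 (mul_mem x.2 χ.2.1)⟩)
  map_one' := funext fun _ => map_one _
  map_mul' _ _ := funext fun _ => map_mul _ _ _
  map_zero' := funext fun _ => map_zero _
  map_add' _ _ := funext fun _ => map_add _ _ _

lemma tw_mul (χ χ' : NG G) (F : G → E) : tw (χ * χ') F = tw χ (tw χ' F) := funext fun x => by
  refine congrArg (fun g => χ.val.right (χ'.val.right (F g))) (Subtype.ext ?_)
  simp [mul_assoc]

lemma SG.mul (hv : Val v) {V : Type} [CommRing V] [Algebra E V] {T : ℤ → V →+* V} {q q' : ℚ}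
    {x y : V} (h : SG v (fun j => (T j).toAddMonoidHom) q x)
    (h' : SG v (fun j => (T j).toAddMonoidHom) q' y) :
    SG v (fun j => (T j).toAddMonoidHom) (q + q') (x * y) := by
  obtain ⟨β, _, B, C, h⟩ := h
  obtain ⟨β', _, B', C', h'⟩ := h'
  refine ⟨β × β', inferInstance, fun b => B b.1 * B' b.2, C + C', fun j => ?_⟩
  obtain ⟨c, e, hc⟩ := h j
  obtain ⟨c', e', hc'⟩ := h' j
  refine ⟨fun b => c b.1 * c' b.2, ?_, fun b =>
    ((hc b.1).mul hv (hc' b.2)).mono (le_of_eq (by ring))⟩
  refine (map_mul (T j) x y).trans ((congrArg₂ (· * ·) e e').trans ?_)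
  rw [sum_mul_sum, Fintype.sum_prod_type]
  simp only [smul_mul_smul_comm]

lemma SG.one (hv : Val v) {V : Type} [CommRing V] [Algebra E V] {T : ℤ → V →+* V} :
    SG v (fun j => (T j).toAddMonoidHom) 0 1 :=
  ⟨Unit, inferInstance, fun _ => 1, 0, fun j => ⟨fun _ => 1, by simp, fun _ =>
    Or.inr (by simp [mulv_one hv.mul])⟩⟩

theorem good_lie [CharZero E] {hv : Val v} {φ : SL n E} {hφ : φ ∈ Vs v} (hG : φ ∈ NG G)
    {k : GL n E} {h : n → ℚ} (hk : ∀ l, (fun t => k.val t l) ∈ Good hv hφ (h l)) :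
    cd k (fun i => (h i : E)) ∈ lie (GS G) E := by
  classical
  let T : ℤ → (G → E) →+* (G → E) := fun j => tw (⟨φ, hG⟩ ^ j)
  have S : SA v (fun j => (T j).toAddMonoidHom) fun j => (φ ^ j).right :=
    ⟨fun F => funext fun x => congrArg F (Subtype.ext (mul_one _)),
      fun i j F => by simp only [T, zpow_add]; exact tw_mul _ _ _,
      fun j a F => funext fun x => map_mul (φ ^ j).right _ _,
      fun j C a => (ge_map (zpow_mem hφ j)).2⟩
  let m : n × n → G → E := fun q x => (x.val.val * k.val) q.1 q.2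
  have hm : ∀ q, SG v (fun j => (T j).toAddMonoidHom) (h q.2) (m q) := fun q => by
    obtain ⟨C, hC⟩ := hk q.2
    refine ⟨n, inferInstance, fun c x => x.val.val q.1 c, C, fun j => ⟨_, funext fun x => ?_, hC j⟩⟩
    have e : ((ga n E (φ ^ j)⁻¹.right (x.val * (φ ^ j).left)).val * k.val).map (φ ^ j).right =
        x.val.val * ((φ ^ j).left.val * k.val.map (φ ^ j).right) := by
      rw [Matrix.map_mul, ← mul_assoc, ← Units.val_mul, ← ga_val, inv_right, map_inv]
      simp
    refine (congrFun (congrFun e q.1) q.2).trans ?_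
    rw [Matrix.mul_apply, Finset.sum_apply]
    exact sum_congr rfl fun c _ => mul_comm _ _
  have hp : ∀ (q : n × n) (d : ℕ), SG v (fun j => (T j).toAddMonoidHom) (d * h q.2) (m q ^ d) :=
    fun q d => by
      induction d with
      | zero => simpa using SG.one hv
      | succ d ih => rw [pow_succ, Nat.cast_succ, add_mul, one_mul]; exact ih.mul hv (hm q)
  have hd : ∀ (d : n × n → ℕ) (s : Finset (n × n)), SG v (fun j => (T j).toAddMonoidHom)
      (∑ q ∈ s, d q * h q.2) (∏ q ∈ s, m q ^ d q) := fun d s => by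
    induction s using Finset.induction_on with
    | empty => exact SG.one hv
    | insert a s ha ih => rw [sum_insert ha, prod_insert ha]; exact (hp _ _).mul hv ih
  obtain ⟨N, z, n0, hz⟩ : ∃ (N : ℕ) (z : n → ℤ), N ≠ 0 ∧ ∀ i, (z i : ℚ) = N * h i := by
    choose z hz using fun i => dvd_prod_of_mem (fun i => (h i).den) (mem_univ i)
    refine ⟨∏ i, (h i).den, fun i => z i * (h i).num,
      prod_ne_zero_iff.mpr fun i _ => (h i).den_nz, fun i => ?_⟩
    rw [hz i]; push_cast; rw [← Rat.den_mul_eq_num]; ring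
  have h1 : cd k (fun i => (z i : E)) ∈ lie (GS G) E := by
    refine cochar_lie fun t ht f hf => ?_
    set f' := ev (gen E n * (k⁻¹).val.map MvPolynomial.C) f with hf'
    have e1 : ∀ Y : Matrix n n E, ev (Y * (k⁻¹).val) f =
        ∑ d ∈ f'.support, f'.coeff d * ∏ q : n × n, Y q.1 q.2 ^ d q := fun Y => by
      have e : ((k⁻¹).val.map MvPolynomial.C).map (ev (Ω := E) Y) = (k⁻¹).val := by
        ext i j; simp
      have := ev_map (gen E n * (k⁻¹).val.map MvPolynomial.C) (ev Y) f
      rw [Matrix.map_mul, gen_map, e] at this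
      rw [this, ← hf', ev, MvPolynomial.aeval_def, MvPolynomial.eval₂_eq']
      rfl
    have h2 := SG.fiber hv S f'.support (fun d => ∑ q : n × n, d q * h q.2)
      (fun d => f'.coeff d • ∏ q, m q ^ d q) (fun d _ => (hd d univ).smul hv S _) (by
        funext x
        have := e1 (x.val.val * k.val)
        rw [Units.mul_inv_cancel_right, hf _ ⟨_, x.2, rfl⟩] at this
        simpa [m] using this.symm)
    rw [cd, e1, ← sum_fiberwise_of_maps_to fun d hd =>
      mem_image_of_mem (fun d : n × n →₀ ℕ => ∑ q : n × n, d q * h q.2) hd]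
    refine sum_eq_zero fun r _ => ?_
    have h3 := congrArg (t ^ ⌊N * r⌋ * ·) (congrFun (h2 r) 1)
    simp only [Finset.sum_apply, Pi.zero_apply, mul_zero, mul_sum] at h3
    rw [← h3]
    refine sum_congr rfl fun d hd => ?_
    have e2 : ⌊N * r⌋ = ∑ q : n × n, z q.2 * d q := by
      rw [← (mem_filter.mp hd).2, ← Int.floor_intCast (R := ℚ) (∑ q : n × n, z q.2 * d q), mul_sum]
      push_cast
      exact congrArg _ (sum_congr rfl fun q _ => by rw [hz]; ring)
    have e3 : ∀ s : Finset (n × n), t ^ (∑ q ∈ s, z q.2 * d q) = ∏ q ∈ s, (t ^ z q.2) ^ d q :=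
      fun s => by
        induction s using Finset.induction_on with
        | empty => simp
        | insert a s ha ih =>
          rw [sum_insert ha, prod_insert ha, zpow_add₀ ht, ih, zpow_mul, zpow_natCast]
    simp only [e2, e3, m, Matrix.mul_diagonal, mul_pow, prod_mul_distrib, Pi.smul_apply,
      Finset.prod_apply, Pi.pow_apply, smul_eq_mul, OneMemClass.coe_one, Units.val_one, one_mul]
    ring
  have h4 := Submodule.smul_mem _ (N : E)⁻¹ h1
  rwa [cd, ← smul_mul_assoc, ← mul_smul_comm, ← Matrix.diagonal_smul,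
    show ((N : E)⁻¹ • fun i => (z i : E)) = fun i => (h i : E) from funext fun i => by
      rw [Pi.smul_apply, smul_eq_mul, ← Rat.cast_intCast, hz]
      push_cast
      exact inv_mul_cancel_left₀ (Nat.cast_ne_zero.mpr n0) _] at h4

end Nw

variable {p : ℕ} [Fact p.Prime] {K Ω : Type} [Field K] [Field Ω]
  [Algebra (WittVector p (AlgebraicClosure (ZMod p))) K]
  [IsFractionRing (WittVector p (AlgebraicClosure (ZMod p))) K] [Algebra K Ω] [IsAlgClosure K Ω]
  {σ : K ≃+* K} (hσ : ∀ o : WittVector p (AlgebraicClosure (ZMod p)),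
    σ (algebraMap _ K o) = algebraMap _ K (WittVector.frobenius o))
  {s : Ω ≃+* Ω} (hs : ∀ a, s (algebraMap K Ω a) = algebraMap K Ω (σ a))
  {n : Type} [Fintype n] [DecidableEq n] {G : Subgroup (GL n Ω)} (hG : IsRed σ G)
  {ι M N : Type} [AddCommGroup M] [Module ℚ M] [AddCommGroup N] [Module ℚ N]
  {P : RootPairing ι ℚ M N} [Finite ι] [P.IsCrystallographic] [P.IsReduced] {b : P.Base}
  {y g₀ : GL n Ω} {wt : n → M} {a₀ : P.Aut} (hF : Frame K P G b y wt s g₀ a₀)
include hσ hs hG hF

open Nw in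
theorem newton_ex (g : GL n Ω) (hg : g ∈ G) (g₁ : Matrix n n K)
    (e : g.val = g₁.map (algebraMap K Ω)) : ∃ (k : G) (ν : N),
      Newton (WittVector p (AlgebraicClosure (ZMod p))) p σ g.val
        (k.val.val * dd P y wt ν * (k⁻¹).val.val) ∧ ∀ i ∈ b.support, 0 ≤ P.root' i ν := by
  have := charZero_K p K
  have := charZero_W (p := p)
  have := charZero_of_injective_algebraMap (algebraMap K Ω).injective
  have := IsAlgClosure.isAlgClosed K (K := Ω)
  obtain ⟨v, pw, hv, hpw, hτ, hvs, hp, hO, hZ⟩ := exists_val σ hσ s hs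
  have p0 := (Fact.out : p.Prime).ne_zero
  obtain ⟨gK, rfl⟩ : IsUnit g₁ := by
    rw [Matrix.isUnit_iff_isUnit_det, isUnit_iff_ne_zero]
    intro h0
    have h2 := (Matrix.isUnit_iff_isUnit_det _).1 g.isUnit
    rw [e, ← RingHom.mapMatrix_apply, ← RingHom.map_det, h0, map_zero] at h2
    exact not_isUnit_zero h2
  have hw : Val fun a : K => v (algebraMap K Ω a) :=
    ⟨fun a c h1 h2 => by rw [map_mul, hv.mul _ _ (by simpa using h1) (by simpa using h2)],
      fun a c h1 h2 h3 => by
        rw [map_add]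
        exact hv.add _ _ (by simpa using h1) (by simpa using h2) (by rwa [← map_add, map_ne_zero])⟩
  have ge : ∀ C (a : K), Ge (fun a : K => v (algebraMap K Ω a)) C a ↔
      Ge v C (algebraMap K Ω a) := fun C a => or_congr (map_eq_zero _).symm Iff.rfl
  have hψ : (inl gK * inr σ : SL n K) ∈ Vs fun a : K => v (algebraMap K Ω a) := fun a => by
    simp only [mul_right, right_inl, right_inr, one_mul, ← hs, hvs]
  have hφ : (inl g * inr s : SL n Ω) ∈ Vs v := fun a => by simpa using hvs a
  obtain ⟨k, h, hk⟩ := good_basis (hv := hw) hψ (Nat.cast_ne_zero.mpr p0) (by simpa using hp) hO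
    (fun k => (isFiniteLength_iff_isNoetherian_isArtinian.mp (isFiniteLength_quotient_span_singleton _
      (mem_nonZeroDivisors_of_ne_zero (pow_ne_zero k (Nat.cast_ne_zero.mpr p0))))).2)
    (fun a _ ha => by
      obtain ⟨_, ⟨x, rfl⟩, hx⟩ := cpl_K hv hp hO (fun j => algebraMap K Ω (a j)) (fun j => ⟨_, rfl⟩)
        fun C => (ha C).imp fun J hJ j hj => by rw [← map_sub, ← ge]; exact hJ j hj
      exact ⟨x, trivial, fun C => (hx C).imp fun J hJ j hj => by
        rw [ge, map_sub]; exact hJ j hj⟩)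
  have u1 : ∀ x, up Ω (av (inl gK * inr σ : SL n K) x) = av (inl g * inr s) (up Ω x) := fun x => by
    simp only [av, mul_left, left_inl, left_inr, map_one, mul_one, mul_right, right_inl,
      right_inr, one_mul, up_mulVec, e]
    congr 1
    exact funext fun i => (hs _).symm
  generalize (inl gK * inr σ : SL n K) = ψ at *
  have u2 : ∀ (j : ℤ) x, up Ω (av (ψ ^ j) x) = av ((inl g * inr s) ^ j) (up Ω x) := fun j => by
    induction j using Int.induction_on with
    | zero => exact fun x => by rw [zpow_zero, zpow_zero, av_one, av_one]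
    | succ j ih => exact fun x => by rw [zpow_add_one, zpow_add_one, av_mul, av_mul, ih, u1]
    | pred j ih =>
      intro x
      rw [zpow_sub_one, zpow_sub_one, av_mul, av_mul, ih, ← av_inv (inl g * inr s) (up Ω _), ← u1,
        ← av_mul ψ, mul_inv_cancel, av_one]
  let k' : GL n Ω := Units.map (algebraMap K Ω).mapMatrix.toMonoidHom k
  have hk' : ∀ l, (fun t => k'.val t l) ∈ Nw.Good hv hφ (h l) := fun l =>
    (hk l).imp fun C hC j i =>
      (congrArg (Ge v _) (congrFun (u2 j fun t => k.val t l) i)).mp ((ge _ _).1 (hC j i))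
  have c1 := good_comm hk'
  have c2 := good_lie (G := G) ⟨by simpa using hg, fun x => by
    simpa [acu_inr] using hG.frob hs⟩ hk'
  have hN := (newton_iff (O := WittVector p (AlgebraicClosure (ZMod p))) s hs hv hpw hvs hp hO
    fixed_mem g k' h _ rfl).mpr ⟨fun τ => by rw [e]; ext i j; exact τ.commutes _, fun τ => ?_, c1,
      (Nw.np_iff hpw hφ rfl c1).mpr hk'⟩
  · have e0 := ac_inv_cd_FJ y k' fun i => (h i : Ω)
    obtain ⟨c, hc, x, hx, e1⟩ := (hF.ds hG).conj b (k := y⁻¹ * k') (h := h)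
      (by rw [← e0, lie_Gd, ac_ac_inv]; exact c2)
    refine ⟨⟨_, mem_Gd.mp hc⟩, x, ?_, hx⟩
    have e2 : cd k' (fun i => (h i : Ω)) = ac (inl (acu (inl y) c)) (dd P y wt x) := by
      rw [← ac_ac_inv (inl y) (cd _ _), e0, e1, dd_eq, ← ac_mul, ← ac_mul, inl_acu,
        inv_mul_cancel_right]
    exact (congrArg (Newton _ p σ g.val) e2).mp hN
  · have e1 : k'.val * Matrix.diagonal (fun i => (h i : Ω)) * (k'⁻¹).val =
        (k.val * Matrix.diagonal (fun i => (h i : K)) * (k⁻¹).val).map (algebraMap K Ω) := by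
      rw [Matrix.map_mul, Matrix.map_mul, Matrix.diagonal_map (map_zero _)]
      simp only [map_ratCast]
      rfl
    rw [e1]; ext i j; exact τ.commutes _

end Pool.Agent.P.MP_7d29e8_ag
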