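import Pool.Agent.P.MP_7d29e8_ag.KH
import Pool.Agent.P.MP_7d29e8_ag.KI

set_option autoImplicit false

/-! Twisted linear equations over the completed maximal unramified extension. -/

namespace Pool.Agent.P.MP_7d29e8_ag

open Finset

namespace Nw

section

open Polynomial

variable {k : Type} [Field k] [IsAlgClosed k] {p : ℕ} (hp : 1 < p) (m : ℕ) (β : ℕ → k)
include hp

lemma root_one (γ : k) : ∃ x, ∑ i ∈ range m, β i * x ^ p ^ (i + 1) - x - γ = 0 := by
  obtain ⟨x, hx⟩ := IsAlgClosed.exists_root (∑ i ∈ range m, C (β i) * X ^ p ^ (i + 1) - X - C γ)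
    fun h => by
      have h1 := coeff_eq_zero_of_degree_lt (n := 1) (h.trans_lt (by simp))
      rw [coeff_sub, coeff_sub, finsetSum_coeff, sum_eq_zero fun i _ => by
        rw [coeff_C_mul_X_pow, if_neg (Nat.one_lt_pow i.succ_ne_zero hp).ne]] at h1
      simp at h1
  exact ⟨x, by simpa [eval_finsetSum] using hx⟩

lemma root_two (h : ∃ i < m, β i ≠ 0) :
    ∃ x ≠ 0, ∑ i ∈ range m, β i * x ^ p ^ (i + 1) - x = 0 := by
  obtain ⟨j, hj, h0⟩ := h
  have pos : ∀ i, p ^ (i + 1) - 1 ≠ 0 := fun i => by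
    have : 1 < p ^ (i + 1) := Nat.one_lt_pow i.succ_ne_zero hp
    omega
  obtain ⟨x, hx⟩ := IsAlgClosed.exists_root (∑ i ∈ range m, C (β i) * X ^ (p ^ (i + 1) - 1) - 1)
    fun h => by
      have h1 := coeff_eq_zero_of_degree_lt (n := p ^ (j + 1) - 1)
        (h.trans_lt (by exact_mod_cast Nat.pos_of_ne_zero (pos j)))
      rw [coeff_sub, finsetSum_coeff, sum_eq_single j (fun i _ hi => by
        rw [coeff_C_mul_X_pow, if_neg fun e => hi ?_]
        have := pos i
        have h2 : p ^ (j + 1) = p ^ (i + 1) := by omega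
        have := Nat.pow_right_injective hp h2
        omega) (fun c => absurd (mem_range.mpr hj) c), coeff_C_mul_X_pow, if_pos rfl, coeff_one,
        if_neg (pos j), sub_zero] at h1
      exact h0 h1
  have h1 : ∑ i ∈ range m, β i * x ^ (p ^ (i + 1) - 1) = 1 := by
    simpa [eval_finsetSum, sub_eq_zero] using hx
  refine ⟨x, ?_, ?_⟩
  · rintro rfl
    simp [pos] at h1
  · rw [sub_eq_zero]
    conv_rhs => rw [← one_mul x, ← h1, sum_mul]
    exact sum_congr rfl fun i _ => by
      rw [mul_assoc, ← pow_succ, Nat.sub_add_cancel (Nat.one_le_pow _ _ (by omega))]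

end

variable {E : Type} [Field E] {v : E → ℚ} {σ : E ≃+* E}

/-- the twisted linear operator -/
def Lo (σ : E ≃+* E) (m : ℕ) (b : ℕ → E) : E →+ E :=
  AddMonoidHom.mk' (fun t => ∑ i ∈ range m, b i * (σ ^ (i + 1)) t - t) fun s t => by
    simp only [map_add, mul_add, sum_add_distrib]; ring

/-- solvability in the residue field -/
def AP (v : E → ℚ) (σ : E ≃+* E) : Prop :=
  ∀ (m : ℕ) (b : ℕ → E), (∀ i < m, Ge v 0 (b i)) →
    (∀ c, Ge v 0 c → ∃ t, Ge v 0 t ∧ Ge v 1 (Lo σ m b t - c)) ∧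
    ((∃ i < m, ¬ Ge v 1 (b i)) → ∃ t, ¬ Ge v 1 t ∧ Ge v 1 (Lo σ m b t - 0))

theorem lo_solve (hv : Val v) (hσ : ∀ a, v (σ a) = v a) {p : ℕ} (h0 : (p : E) ≠ 0)
    (hp : v (p : E) = 1) (hc : Cpl v Set.univ) (A : AP v σ) {m : ℕ} {b : ℕ → E}
    (hb : ∀ i < m, Ge v 0 (b i)) {c t₀ : E} {z : ℤ} (h : Ge v z (Lo σ m b t₀ - c)) :
    ∃ t, Lo σ m b t = c ∧ Ge v z (t - t₀) := by
  have pz : ∀ z : ℤ, Ge v z ((p : E) ^ z) := fun z =>
    Or.inr (by rw [mulv_zpow hv.mul h0, hp, mul_one])
  have hs : ∀ (i : ℕ) a, v ((σ ^ i) a) = v a := fun i => by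
    induction i with
    | zero => exact fun _ => rfl
    | succ i ih => exact fun a => by rw [pow_succ]; exact (ih _).trans (hσ a)
  have l1 : ∀ (z : ℤ) t, Lo σ m b ((p : E) ^ z * t) = (p : E) ^ z * Lo σ m b t := fun z t => by
    simp only [Lo, AddMonoidHom.mk'_apply, map_mul, map_zpow₀, map_natCast, mul_sub, mul_sum]
    exact congrArg (· - _) (sum_congr rfl fun _ _ => by ring)
  have l2 : ∀ C t, Ge v C t → Ge v C (Lo σ m b t) := fun C t ht =>
    sub_FD8 hv (ge_sum hv fun i hi => ((hb i (mem_range.mp hi)).mul hv (C' := C)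
      (ht.imp (fun e => by rw [e, map_zero]) fun e => by rwa [hs])).mono (by linarith)) ht
  obtain ⟨t, rfl, ht⟩ := seq_ex (P := fun k t => Ge v (z + k) (Lo σ m b t - c))
    (R := fun k t t' => Ge v (z + k) (t' - t)) (fun k t ht => by
      obtain ⟨s, s1, s2⟩ := (A m b hb).1 ((p : E) ^ (-(z + k)) * (c - Lo σ m b t))
        (((pz _).mul hv (neg_sub (Lo σ m b t) c ▸ neg_FD8 hv ht)).mono (by push_cast; linarith))
      refine ⟨t + (p : E) ^ (z + k) * s, ?_, ?_⟩
      · have := (pz (z + k)).mul hv s2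
        rw [mul_sub, ← mul_assoc, ← zpow_add₀ h0, add_neg_cancel, zpow_zero, one_mul] at this
        rw [map_add, l1]
        convert this using 1
        · push_cast; ring
        · ring
      · rw [add_sub_cancel_left]
        exact ((pz _).mul hv s1).mono (by push_cast; linarith)) (y := t₀) (by simpa using h)
  obtain ⟨x, -, hx⟩ := hc t (fun _ => trivial) fun C =>
    ⟨⌈C - z⌉₊, fun j hj => (ht j).2.mono (by linarith [Nat.ceil_le.mp hj])⟩
  refine ⟨x, sub_eq_zero.mp (by_contra fun hne => ?_), ?_⟩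
  · obtain ⟨J, hJ⟩ := hx (v (Lo σ m b x - c) + 1)
    set j := max J ⌈v (Lo σ m b x - c) + 1 - z⌉₊
    have h1 := (l2 _ _ (hJ j (le_max_left _ _))).add hv ((ht j).1.mono
      (by linarith [Nat.ceil_le.mp (le_max_right J ⌈v (Lo σ m b x - c) + 1 - z⌉₊)]))
    rw [map_sub, sub_add_sub_cancel] at h1
    linarith [h1.resolve_left hne]
  · obtain ⟨J, hJ⟩ := hx z
    have := (hJ J le_rfl).add hv (tel_FD8 hv (J := 0) (fun j _ => (ht j).2.mono
      (by linarith [Nat.cast_nonneg (α := ℚ) j])) J.zero_le)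
    rwa [sub_add_sub_cancel] at this

end Nw

open Nw in
theorem ap_K {p : ℕ} [Fact p.Prime] {K Ω : Type} [Field K] [Field Ω]
    [Algebra (WittVector p (AlgebraicClosure (ZMod p))) K]
    [IsFractionRing (WittVector p (AlgebraicClosure (ZMod p))) K] [Algebra K Ω] [IsAlgClosure K Ω]
    {σ : K ≃+* K} (hσ : ∀ o : WittVector p (AlgebraicClosure (ZMod p)),
      σ (algebraMap _ K o) = algebraMap _ K (WittVector.frobenius o))
    {v : Ω → ℚ} (hv : Val v) (hp : v (p : Ω) = 1)
    (hO : ∀ a : K, a ≠ 0 → ((∃ o : WittVector p (AlgebraicClosure (ZMod p)), algebraMap _ K o = a) ↔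
      0 ≤ v (algebraMap K Ω a))) : AP (fun a : K => v (algebraMap K Ω a)) σ := by
  have ge : ∀ C (a : K), Ge (fun a : K => v (algebraMap K Ω a)) C a ↔
      Ge v C (algebraMap K Ω a) := fun C a => or_congr (map_eq_zero _).symm Iff.rfl
  have g0 : ∀ a : K, Ge (fun a : K => v (algebraMap K Ω a)) 0 a ↔
      ∃ o : WittVector p (AlgebraicClosure (ZMod p)), algebraMap _ K o = a := fun a => by
    simpa [ge] using int_FD8 hv hp hO 0 a
  have g1 : ∀ o : WittVector p (AlgebraicClosure (ZMod p)),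
      Ge (fun a : K => v (algebraMap K Ω a)) 1 (algebraMap _ K o) ↔
        WittVector.constantCoeff o = 0 := fun o => by
    have := int_FD8 hv hp hO 1 (algebraMap _ K o)
    rw [Nat.cast_one, pow_one] at this
    rw [ge, this, WittVector.constantCoeff_apply, ← WittVector.mem_span_p_iff_coeff_zero_eq_zero,
      Ideal.mem_span_singleton]
    exact exists_congr fun c => ((IsFractionRing.injective _ K).eq_iff).trans eq_comm
  have fr : ∀ (i : ℕ) (o : WittVector p (AlgebraicClosure (ZMod p))), ∃ o',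
      (σ ^ i) (algebraMap _ K o) = algebraMap _ K o' ∧
        WittVector.constantCoeff o' = WittVector.constantCoeff o ^ p ^ i := fun i o => by
    induction i with
    | zero => exact ⟨o, rfl, by simp⟩
    | succ i ih =>
      obtain ⟨o', h1, h2⟩ := ih
      refine ⟨WittVector.frobenius o', by rw [pow_succ', ← hσ, ← h1]; rfl, ?_⟩
      rw [pow_succ, pow_mul, ← h2]
      exact WittVector.coeff_frobenius_charP p o' 0
  choose F f1 f2 using fr
  intro m b hb
  choose! b' hb' using fun i hi => (g0 _).1 (hb i hi)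
  have key : ∀ o c, Ge (fun a : K => v (algebraMap K Ω a)) 1
      (Lo σ m b (algebraMap _ K o) - algebraMap _ K c) ↔
      ∑ i ∈ range m, WittVector.constantCoeff (b' i) * WittVector.constantCoeff o ^ p ^ (i + 1) -
        WittVector.constantCoeff o - WittVector.constantCoeff c = 0 := fun o c => by
    have e : Lo σ m b (algebraMap _ K o) - algebraMap _ K c =
        algebraMap _ K (∑ i ∈ range m, b' i * F (i + 1) o - o - c) := by
      simp only [Lo, AddMonoidHom.mk'_apply, map_sub, map_sum, map_mul, f1]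
      rw [sum_congr rfl fun i hi => by rw [← hb' i (mem_range.mp hi)]]
    rw [e, g1]
    simp only [map_sub, map_sum, map_mul, f2]
  have p1 := (Fact.out : p.Prime).one_lt
  refine ⟨fun c hc => ?_, fun ⟨i, hi, h⟩ => ?_⟩
  · obtain ⟨c, rfl⟩ := (g0 c).1 hc
    obtain ⟨x, hx⟩ := root_one p1 m (fun i => WittVector.constantCoeff (b' i))
      (WittVector.constantCoeff c)
    obtain ⟨o, rfl⟩ := WittVector.constantCoeff_surjective p x
    exact ⟨_, (g0 _).2 ⟨o, rfl⟩, (key o c).2 hx⟩
  · obtain ⟨x, x0, hx⟩ := root_two p1 m (fun i => WittVector.constantCoeff (b' i))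
      ⟨i, hi, fun e => h (hb' i hi ▸ (g1 _).2 e)⟩
    obtain ⟨o, rfl⟩ := WittVector.constantCoeff_surjective p x
    exact ⟨algebraMap _ K o, fun e => x0 ((g1 o).1 e), by simpa using (key o 0).2 (by simpa using hx)⟩

end Pool.Agent.P.MP_7d29e8_ag
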