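import Pool.Agent.P.MP_7d29e8_ag.KK

set_option autoImplicit false

/-! An isocrystal of slope zero is spanned by its fixed vectors. -/

namespace Pool.Agent.P.MP_7d29e8_ag

open Finset

namespace Nw

variable {E : Type} [Field E] {v : E → ℚ} {σ : E ≃+* E} {V : Type} [AddCommGroup V] [Module E V]
  {T : ℤ → V →+ V} {θ : ℤ → E → E} (hv : Val v) (hσ : ∀ a, v (σ a) = v a) (S : SA v T θ)
  (h1 : ∀ a, θ 1 a = σ a)
include hv hσ S h1

theorem slope_rec [Module.Finite E V] {x : V} (hx : x ≠ 0) (h : SG v T 0 x) :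
    ∃ (m : ℕ) (e : ℕ → V) (a : ℕ → E), (∀ i, e (i + 1) = T 1 (e i)) ∧
      (∀ c : ℕ → E, ∑ i ∈ range m, c i • e i = 0 → ∀ i < m, c i = 0) ∧
      e m = ∑ i ∈ range m, a i • e i ∧ (∀ i < m, Ge v 0 (a i)) ∧ ∃ i < m, ¬ Ge v 1 (a i) := by
  classical
  have gt : ∀ {C a}, Gt v C (σ a) ↔ Gt v C a := fun {C a} => by
    simp only [Gt, hσ a, EmbeddingLike.map_eq_zero_iff]
  have ge : ∀ {C a}, Ge v C (σ a) ↔ Ge v C a := fun {C a} => by
    simp only [Ge, hσ a, EmbeddingLike.map_eq_zero_iff]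
  obtain ⟨e, he⟩ : ∃ e : ℕ → V, ∀ i, e i = T i x := ⟨_, fun _ => rfl⟩
  have e1 : ∀ i, e (i + 1) = T 1 (e i) := fun i => by
    rw [he, he, ← S.add, Nat.cast_succ, add_comm]
  have h0 : ∃ m, ¬ LinearIndependent E fun i : Fin (m + 1) => e i := ⟨Module.finrank E V,
    fun h => by simpa using h.fintype_card_le_finrank⟩
  obtain ⟨m, li, sp⟩ : ∃ m, (LinearIndependent E fun i : Fin m => e i) ∧
      e m ∈ Submodule.span E (Set.range fun i : Fin m => e i) := by
    have h1 : LinearIndependent E fun i : Fin (Nat.find h0) => e i := by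
      rcases h : Nat.find h0 with _ | m
      · exact linearIndependent_empty_type
      · exact not_not.mp (Nat.find_min h0 (by omega))
    exact ⟨_, h1, by_contra fun h => Nat.find_spec h0 (linearIndependent_finSucc'.mpr ⟨h1, h⟩)⟩
  obtain ⟨a, ha⟩ : ∃ a : ℕ → E, e m = ∑ i ∈ range m, a i • e i := by
    obtain ⟨a, ha⟩ := (Submodule.mem_span_range_iff_exists_fun E).mp sp
    exact ⟨fun i => if h : i < m then a ⟨i, h⟩ else 0, by rw [← ha, sum_range]; simp⟩
  obtain ⟨g, hg⟩ := (Fintype.linearCombination E fun i : Fin m => e i).exists_leftInverse_of_injective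
    (LinearMap.ker_eq_bot.mpr li.fintypeLinearCombination_injective)
  have hg' : ∀ (c : ℕ → E) (i : Fin m), g (∑ i ∈ range m, c i • e i) i = c i := fun c i => by
    have h2 := congrFun (DFunLike.congr_fun hg fun i : Fin m => c i) i
    rw [LinearMap.comp_apply, Fintype.linearCombination_apply] at h2
    rwa [sum_range]
  obtain ⟨i₁, b1, b2⟩ := exists_min_image ((range m).filter (a · ≠ 0)) (fun i => v (a i) / (m - i))
    (by
      by_contra h
      refine hx ?_
      rw [← S.zero x, ← neg_add_cancel (m : ℤ), S.add, ← he, ha, sum_eq_zero fun i hi => by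
        rw [show a i = 0 from by_contra fun c => h ⟨i, mem_filter.mpr ⟨hi, c⟩⟩, zero_smul]]
      exact map_zero _)
  set q := v (a i₁) / (m - i₁) with hq
  have pos : ∀ i < m, (0 : ℚ) < m - i := fun i hi => sub_pos.mpr (by exact_mod_cast hi)
  have a1 : ∀ i < m, Ge v ((m - i) * q) (a i) := fun i hi => by
    by_cases h : a i = 0
    · exact Or.inl h
    · exact Or.inr (by
        rw [mul_comm]; exact (le_div_iff₀ (pos i hi)).mp (b2 i (mem_filter.mpr ⟨mem_range.mpr hi, h⟩)))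
  have h2 : ∃ i, i < m ∧ ¬ Gt v ((m - i) * q) (a i) := by
    obtain ⟨c1, c2⟩ := mem_filter.mp b1
    refine ⟨i₁, mem_range.mp c1, not_or.mpr ⟨c2, not_lt.mpr (le_of_eq ?_)⟩⟩
    rw [hq, mul_div_cancel₀ _ (pos _ (mem_range.mp c1)).ne']
  obtain ⟨i₀, ⟨a2, a3⟩, a4⟩ : ∃ i₀, (i₀ < m ∧ ¬ Gt v ((m - i₀) * q) (a i₀)) ∧
      ∀ i < i₀, Gt v ((m - i) * q) (a i) := ⟨_, Nat.find_spec h2, fun i hi => by_contra fun h =>
        Nat.find_min h2 hi ⟨hi.trans (Nat.find_spec h2).1, h⟩⟩
  clear_value q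
  have key : ∀ j, i₀ ≤ j → ∃ c : ℕ → E, e j = ∑ i ∈ range m, c i • e i ∧
      (∀ i < m, Ge v ((j - i) * q) (c i)) ∧ (∀ i < i₀, Gt v ((j - i) * q) (c i)) ∧
      ∃ i < m, ¬ Gt v ((j - i) * q) (c i) := by
    intro j hj
    induction j, hj using Nat.le_induction with
    | base =>
      refine ⟨fun i => if i = i₀ then 1 else 0, by simp [a2], fun i _ => ?_,
        fun i hi => Or.inl (if_neg hi.ne), i₀, a2, ?_⟩
      · by_cases h : i = i₀
        · exact Or.inr (by simp [h, mulv_one hv.mul])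
        · exact Or.inl (if_neg h)
      · simp [Gt, mulv_one hv.mul]
    | succ j hj ih =>
      obtain ⟨c, c1, c2, c3, c4⟩ := ih
      obtain ⟨m, rfl⟩ : ∃ m', m = m' + 1 := ⟨m - 1, by omega⟩
      obtain ⟨d, d0, d1⟩ : ∃ d : ℕ → E, d 0 = 0 ∧ ∀ i, d (i + 1) = σ (c i) :=
        ⟨fun i => i.casesOn 0 fun i => σ (c i), rfl, fun _ => rfl⟩
      have w : ∀ i : ℕ, (((j + 1 : ℕ) : ℚ) - i) * q = (j - m) * q + ((m + 1 : ℕ) - i) * q :=
        fun i => by push_cast; ring
      have w' : ∀ i : ℕ, (((j + 1 : ℕ) : ℚ) - (i + 1 : ℕ)) * q = (j - i) * q :=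
        fun i => by push_cast; ring
      have d2 : ∀ i ≤ i₀, Gt v (((j + 1 : ℕ) - i) * q) (d i) := fun i hi => by
        rcases i with _ | i
        · exact Or.inl d0
        · rw [d1, w', gt]; exact c3 i (by omega)
      have c5 := ge.2 (c2 m (by omega))
      refine ⟨fun i => d i + σ (c m) * a i, ?_, fun i hi => Ge.add hv ?_ ?_,
        fun i hi => (d2 i hi.le).add hv ?_, ?_⟩
      · simp only [add_smul, sum_add_distrib, mul_smul, ← smul_sum]
        rw [← ha, sum_range_succ' fun i => d i • e i, e1, c1, map_sum, sum_range_succ]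
        simp only [d0, d1, e1, zero_smul, add_zero, S.smul, h1]
      · rcases i with _ | i
        · exact Or.inl d0
        · rw [d1, w', ge]; exact c2 i (by omega)
      · rw [w]; exact c5.mul hv (a1 i hi)
      · rw [w, add_comm, mul_comm (σ _)]; exact (a4 i hi).mul hv c5
      · by_cases h : Gt v ((j - m) * q) (c m)
        · obtain ⟨i, hi, h'⟩ := c4
          have : i ≠ m := fun e => h' (e ▸ h)
          refine ⟨i + 1, by omega, ?_⟩
          beta_reduce
          rw [add_comm (d _)]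
          refine ngt_add hv ?_ ?_
          · rw [w]; exact (gt.2 h).mul hv (a1 _ (by omega))
          · rwa [d1, w', gt]
        · refine ⟨i₀, a2, ngt_add hv (d2 _ le_rfl) ?_⟩
          rw [w]; exact ngt_mul hv (by rwa [gt]) a3
  have q0 : q = 0 := by
    rcases lt_trichotomy q 0 with c | c | c
    · obtain ⟨C, hC⟩ := unif (P := fun (i : Fin m) C => ∀ j : ℤ, Ge v (C + j * 0) (g (T j x) i))
        (fun _ _ _ h1 h2 j => (h2 j).mono (by linarith))
        fun i => h.weak hv ((LinearMap.proj i).comp g)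
      obtain ⟨j, hj⟩ := exists_nat_gt (C / q + m)
      obtain ⟨d, c1, -, -, i, hi, c4⟩ := key (j + i₀) (by omega)
      have h3 := hC ⟨i, hi⟩ (j + i₀ : ℕ)
      rw [← he, c1, hg'] at h3
      refine absurd (h3.imp_right fun h => lt_of_lt_of_le ?_ h) c4
      rw [← lt_sub_iff_add_lt, div_lt_iff_of_neg c] at hj
      have h4 := pos i hi
      have h5 : (0 : ℚ) ≤ i₀ := Nat.cast_nonneg _
      push_cast
      nlinarith
    · exact c
    · refine absurd (h.eq_zero hv S c fun l => ?_) hx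
      obtain ⟨C, hC⟩ := unif (P := fun (i : Fin m) C => Ge v (C + (i : ℕ) * q) (l (e i)))
        (fun _ _ _ h1 h2 => h2.mono (by linarith)) fun i =>
          ⟨v (l (e i)) - (i : ℕ) * q, Or.inr (by linarith)⟩
      refine ⟨C, fun j => ?_⟩
      rw [← he]
      by_cases h : i₀ ≤ j
      · obtain ⟨d, c1, c2, -⟩ := key j h
        rw [c1, map_sum]
        exact ge_sum hv fun i hi => by
          rw [map_smul]
          exact ((c2 i (mem_range.mp hi)).mul hv (hC ⟨i, mem_range.mp hi⟩)).mono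
            (le_of_eq (by ring))
      · exact hC ⟨j, by omega⟩
  subst q0
  refine ⟨m, e, a, e1, fun c hc i hi => ?_, ha, fun i hi => by simpa using a1 i hi, i₀, a2,
    fun c => a3 (c.imp_right fun c => by linarith)⟩
  rw [← hg' c ⟨i, hi⟩, hc, map_zero, Pi.zero_apply]

variable {p : ℕ} (h0 : (p : E) ≠ 0) (hp : v (p : E) = 1) (hc : Cpl v Set.univ) (A : AP v σ)
include h0 hp hc A

theorem fix_one [Module.Finite E V] {x : V} (hx : x ≠ 0) (h : SG v T 0 x) :
    ∃ y ≠ 0, T 1 y = y := by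
  obtain ⟨m, e, a, e1, li, ha, a1, i, hi, a2⟩ := slope_rec hv hσ S h1 hx h
  have ge : ∀ (j : ℕ) {C a}, Ge v C ((σ ^ j) a) ↔ Ge v C a := fun j => by
    induction j with
    | zero => exact Iff.rfl
    | succ j ih =>
      intro C a
      rw [pow_succ]
      exact (ih (a := σ a)).trans (by simp only [Ge, hσ a, EmbeddingLike.map_eq_zero_iff])
  obtain ⟨m, rfl⟩ : ∃ m', m = m' + 1 := ⟨m - 1, by omega⟩
  have hb : ∀ j < m + 1, Ge v 0 ((σ ^ (j + 1)) (a (m - j))) := fun j _ => (ge _).2 (a1 _ (by omega))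
  obtain ⟨t₀, t1, t2⟩ := (A (m + 1) _ hb).2 ⟨m - i, by omega, by
    rwa [ge, show m - (m - i) = i by omega]⟩
  obtain ⟨t, t3, t4⟩ := lo_solve hv hσ h0 hp hc A hb (z := 1) (c := 0) (t₀ := t₀) (Int.cast_one (R := ℚ) ▸ t2)
  have t5 : t ≠ 0 := fun c => t1 (by
    have := neg_FD8 hv t4
    rwa [c, zero_sub, neg_neg, Int.cast_one] at this)
  obtain ⟨c, hc⟩ : ∃ c : ℕ → E, ∀ i, c i = ∑ l ∈ range (i + 1), (σ ^ l) (t * a (i - l)) :=
    ⟨_, fun _ => rfl⟩
  have c0 : ∀ i, σ (c i) = ∑ l ∈ range (i + 1), (σ ^ (l + 1)) (t * a (i - l)) := fun i => by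
    rw [hc, map_sum]
    exact sum_congr rfl fun l _ => by rw [pow_succ']; rfl
  have c1 : ∀ i, c (i + 1) = σ (c i) + t * a (i + 1) := fun i => by
    rw [c0, hc, sum_range_succ']
    simp only [Nat.add_sub_add_right, pow_zero, Nat.sub_zero]
    rfl
  have c2 : σ (c m) = t := by
    rw [c0, ← sub_eq_zero, ← t3]
    simp only [Lo, AddMonoidHom.mk'_apply, map_mul, mul_comm]
  refine ⟨∑ i ∈ range (m + 1), c i • e i, fun z => t5 ?_, ?_⟩
  · rw [← c2, li c z m (by omega), map_zero]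
  · rw [map_sum, sum_range_succ]
    simp only [S.smul, h1, ← e1]
    rw [c2, ha, smul_sum, sum_range_succ', sum_range_succ', ← add_assoc, ← sum_add_distrib]
    simp only [c1, add_smul, mul_smul]
    simp [hc 0, mul_smul]

theorem fix_span [Module.Finite E V] {x : V} (h : SG v T 0 x) :
    x ∈ Submodule.span E {y | T 1 y = y} := by
  set U := Submodule.span E {y | T 1 y = y} with hU
  have f1 : ∀ y, T 1 y = y → ∀ j, T j y = y := fun y hy j => by
    induction j using Int.induction_on with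
    | zero => exact S.zero y
    | succ j ih => rw [S.add, hy, ih]
    | pred j ih => rw [← hy, ← S.add, sub_add_cancel, ih, hy]
  have f2 : ∀ j, U.toAddSubgroup ≤ U.toAddSubgroup.comap (T j) := fun j y hy =>
    Submodule.span_induction (p := fun y _ => T j y ∈ U)
      (fun y hy => (f1 y hy j).symm ▸ Submodule.subset_span hy) ((map_zero (T j)).symm ▸ zero_mem U)
      (fun _ _ _ _ a b => map_add (T j) _ _ ▸ add_mem a b)
      (fun a _ _ b => S.smul j a _ ▸ U.smul_mem _ b) hy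
  let T' : ℤ → (V ⧸ U) →+ (V ⧸ U) := fun j => QuotientAddGroup.map _ _ (T j) (f2 j)
  have e : ∀ j y, T' j (U.mkQ y) = U.mkQ (T j y) := fun _ _ => rfl
  have S' : SA v T' θ := ⟨fun y => ?_, fun i j y => ?_, fun j a y => ?_, S.ge⟩
  rotate_left
  · obtain ⟨y, rfl⟩ := U.mkQ_surjective y
    rw [e, S.zero]
  · obtain ⟨y, rfl⟩ := U.mkQ_surjective y
    rw [e, e, e, S.add]
  · obtain ⟨y, rfl⟩ := U.mkQ_surjective y
    rw [← map_smul, e, e, S.smul, map_smul]
  have f3 : ∀ u ∈ U, ∀ a : E, ∃ w ∈ U, T 1 w - w = a • u := fun u hu => by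
    induction hu using Submodule.span_induction with
    | mem y hy =>
      intro a
      obtain ⟨t, ht, -⟩ := lo_solve hv hσ h0 hp hc A (m := 1) (b := fun _ => 1)
        (fun _ _ => Or.inr (mulv_one hv.mul).ge) (c := a) (t₀ := 0) (z := ⌊v a⌋) (by
          rw [map_zero, zero_sub]
          exact neg_FD8 hv (Or.inr (Int.floor_le _)))
      refine ⟨t • y, U.smul_mem _ (Submodule.subset_span hy), ?_⟩
      rw [S.smul, h1, show T 1 y = y from hy, ← sub_smul, ← ht]
      simp [Lo]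
    | zero => exact fun a => ⟨0, zero_mem _, by simp⟩
    | add y z _ _ hy hz =>
      intro a
      obtain ⟨w, a1, a2⟩ := hy a
      obtain ⟨w', b1, b2⟩ := hz a
      exact ⟨w + w', add_mem a1 b1, by rw [map_add, smul_add, ← a2, ← b2]; abel⟩
    | smul b y _ hy => exact fun a => smul_smul a b y ▸ hy (a * b)
  by_contra hx
  obtain ⟨y, y0, hy⟩ := fix_one hv hσ S' h1 h0 hp hc A (x := U.mkQ x)
    (fun c => hx ((Submodule.Quotient.mk_eq_zero U).mp c)) (by
      obtain ⟨β, _, B, C, h⟩ := h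
      refine ⟨β, inferInstance, fun b => U.mkQ (B b), C, fun j => ?_⟩
      obtain ⟨c, e', hc⟩ := h j
      exact ⟨c, by simp only [e, e', map_sum, map_smul], hc⟩)
  obtain ⟨y, rfl⟩ := U.mkQ_surjective y
  obtain ⟨w, w1, w2⟩ := f3 _ ((Submodule.Quotient.eq U).mp ((e 1 y).symm.trans hy)) 1
  refine y0 ((Submodule.Quotient.mk_eq_zero U).mpr ?_)
  rw [← sub_add_cancel y w]
  refine add_mem (Submodule.subset_span ?_) w1
  rw [Set.mem_ofPred_eq, map_sub, sub_eq_sub_iff_sub_eq_sub, w2, one_smul]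

end Nw

end Pool.Agent.P.MP_7d29e8_ag
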