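import Pool.Agent.P.MP_7d29e8_ag.KL
import Pool.Agent.P.MP_7d29e8_ag.KJ

set_option autoImplicit false

/-! The algebra of endomorphisms of slope zero and its regular representation. -/

namespace Pool.Agent.P.MP_7d29e8_ag

open Finset SemidirectProduct

namespace Nw

lemma fix_poly {K τ : Type} [Field K] (σ : K →+* K) (I : Submodule K (MvPolynomial τ K))
    (hI : ∀ f ∈ I, MvPolynomial.map σ f ∈ I) (f : MvPolynomial τ K) (hf : f ∈ I) :
    f ∈ Submodule.span K {g | g ∈ I ∧ MvPolynomial.map σ g = g} := by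
  classical
  induction h : f.support.card using Nat.strong_induction_on generalizing f with
  | _ c ih =>
    subst h
    have lt : ∀ g ∈ I, ∀ d ∈ f.support, g.coeff d = 0 → (∀ d, f.coeff d = 0 → g.coeff d = 0) →
        g ∈ Submodule.span K {g | g ∈ I ∧ MvPolynomial.map σ g = g} := fun g hg d hd h1 h2 =>
      ih _ (card_lt_card ⟨fun x hx => MvPolynomial.mem_support_iff.mpr fun e =>
        MvPolynomial.mem_support_iff.mp hx (h2 x e),
        fun c => MvPolynomial.mem_support_iff.mp (c hd) h1⟩) g hg rfl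
    by_cases h0 : f = 0
    · exact h0 ▸ zero_mem _
    obtain ⟨d, hd⟩ := MvPolynomial.support_nonempty.mpr h0
    have d0 := MvPolynomial.mem_support_iff.mp hd
    set g := MvPolynomial.map σ ((f.coeff d)⁻¹ • f) - (f.coeff d)⁻¹ • f with hg
    have g1 : g ∈ I := sub_mem (hI _ (I.smul_mem _ hf)) (I.smul_mem _ hf)
    have g2 : ∀ d, f.coeff d = 0 → g.coeff d = 0 := fun d h => by
      simp [hg, MvPolynomial.coeff_map, h]
    by_cases h1 : g = 0
    · rw [← smul_inv_smul₀ d0 f]
      exact Submodule.smul_mem _ _ (Submodule.subset_span ⟨I.smul_mem _ hf, sub_eq_zero.mp h1⟩)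
    obtain ⟨d', hd'⟩ := MvPolynomial.support_nonempty.mpr h1
    have d1 := MvPolynomial.mem_support_iff.mp hd'
    rw [← sub_add_cancel f ((f.coeff d' / g.coeff d') • g)]
    refine add_mem (lt _ (sub_mem hf (I.smul_mem _ g1)) d'
      (MvPolynomial.mem_support_iff.mpr fun e => d1 (g2 _ e)) (by simp [d1]) fun x hx => by
        simp [hx, g2 x hx]) (Submodule.smul_mem _ _ (lt g g1 d hd ?_ g2))
    simp [hg, MvPolynomial.coeff_map, d0]

lemma cent_bd {Ω : Type} [Field Ω] [CharZero Ω] {n : Type} [Fintype n] [DecidableEq n] {v : Ω → ℚ}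
    {hv : Val v} {pw : ℚ → Ωˣ} {φ : SL n Ω} (hφ : φ ∈ Vs v) {k : GL n Ω} {h : n → ℚ}
    {H X : Matrix n n Ω} (hH : H = cd k fun i => (h i : Ω)) (hc : ac φ H = H)
    (hN : NP hv pw φ k h) (hX : X * H = H * X) :
    ∃ C, ∀ (j : ℤ) (q : n × n), Ge v C (ac (φ ^ j) X q.1 q.2) := by
  have hj : ∀ j : ℕ, ac (φ ^ j) H = H := fun j => by
    induction j with
    | zero => simp
    | succ j ih => rw [pow_succ, ac_mul, hc, ih]
  have cm : ∀ Y : Matrix n n Ω, Y * H = H * Y → ∀ t : ℚ → Ωˣ,
      ac (inl (k * dU fun i => t (h i))) (ac (inl k⁻¹) Y) = Y := fun Y hY t => by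
    have h1 := congrArg (ac (inl k⁻¹)) hY
    rw [map_mul, map_mul, hH, ac_cd, inv_mul_cancel, cd_one] at h1
    rw [map_mul, ac_mul, ac_inl (dU _), show (dU fun i => t (h i)).val * ac (inl k⁻¹) Y =
      ac (inl k⁻¹) Y * (dU fun i => t (h i)).val from ?_, Units.mul_inv_cancel_right, map_inv,
      ac_ac_inv]
    ext i l
    have h2 := congrFun (congrFun h1 i) l
    rw [Matrix.mul_diagonal, Matrix.diagonal_mul] at h2
    rw [dU_val, Matrix.mul_diagonal, Matrix.diagonal_mul]
    by_cases h0 : ac (inl k⁻¹) Y i l = 0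
    · rw [h0, mul_zero, zero_mul]
    · rw [mul_comm] at h2 ⊢
      rw [Rat.cast_injective (mul_right_cancel₀ h0 h2)]
  set c : ℕ → GL n Ω := fun j => (k * dU fun i => pw (j * h i))⁻¹ * (φ ^ j).left with hcd
  have e0 : ∀ (j : ℕ) Y, ac (φ ^ j) Y =
      ac (inl (k * dU fun i => pw (j * h i))) (ac (inl (c j)) (Y.map (φ ^ j).right)) := fun j Y => by
    rw [← ac_mul, ← map_mul, hcd, mul_inv_cancel_left]; rfl
  have a1 : MB hv fun j : ℕ => ac (φ ^ j) X := by
    have := ((MB.const k.val).mul ((hN.1.mul ((MB.const X).map (fun j : ℕ => (φ ^ j).right)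
      fun j => pow_mem hφ j)).mul hN.2)).mul (MB.const (k⁻¹).val)
    convert this using 2 with j
    have h1 := cm (ac (φ ^ j) X) (by rw [← hj j, ← map_mul, ← map_mul, hX]) fun q => pw (j * q)
    conv_rhs at h1 => rw [e0]
    rw [← ac_ac_inv (inl k) (ac (φ ^ j) X), ← map_inv, ac_inj_FA2 _ h1]
    rfl
  have a2 : MB hv fun j : ℕ => ac (φ ^ j)⁻¹ X := by
    have := ((hN.2.mul (MB.const (ac (inl k⁻¹) X))).mul hN.1).map (fun j : ℕ => (φ ^ j)⁻¹.right)
      fun j => inv_mem (pow_mem hφ j)
    convert this using 2 with j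
    refine ac_inj_FA2 (φ ^ j) ?_
    rw [ac_ac_inv, e0, Matrix.map_map, inv_right]
    conv_lhs => rw [← cm X hX fun q => pw (j * q), ← ac_ac_inv (inl (c j)) (ac (inl k⁻¹) X)]
    congr 2
    ext a b
    exact ((φ ^ j).right.apply_symm_apply _).symm
  obtain ⟨C, hC⟩ := unif (P := fun (q : n × n) C => ∀ j : ℤ, Ge v C (ac (φ ^ j) X q.1 q.2))
    (fun _ _ _ h1 h2 j => (h2 j).mono h1) fun q => by
      obtain ⟨C1, h1⟩ := a1 q.1 q.2
      obtain ⟨C2, h2⟩ := a2 q.1 q.2
      refine ⟨min C1 C2, fun j => ?_⟩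
      obtain ⟨j, rfl | rfl⟩ := j.eq_nat_or_neg
      · rw [zpow_natCast]; exact (h1 j).mono (min_le_left _ _)
      · rw [zpow_neg, zpow_natCast]; exact (h2 j).mono (min_le_right _ _)
  exact ⟨C, fun j q => hC q j⟩

variable {K : Type} [Field K] {n m : Type} [Fintype n] [DecidableEq n] [Fintype m] [DecidableEq m]
  (L : m → n × n → K) (e : m → Matrix n n K) (u : m → K)
  {R R' : Type} [CommRing R] [Algebra K R] [CommRing R'] [Algebra K R']

/-- the left regular representation in the basis `e` -/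
def rho (X : Matrix n n R) : Matrix m m R := Matrix.of fun i j =>
  ∑ q : n × n, algebraMap K R (L i q) * (X * (e j).map (algebraMap K R)) q.1 q.2

/-- its left inverse -/
def pii (Z : Matrix m m R) : Matrix n n R := Matrix.of fun a b =>
  ∑ i, ∑ j, Z i j * algebraMap K R (u j * e i a b)

omit [DecidableEq n] [Fintype m] [DecidableEq m] in
lemma rho_map (f : R →ₐ[K] R') (X : Matrix n n R) : (rho L e X).map f = rho L e (X.map f) := by
  ext i j; simp [rho, Matrix.mul_apply]

omit [Fintype n] [DecidableEq n] [DecidableEq m] in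
lemma pii_map (f : R →ₐ[K] R') (Z : Matrix m m R) : (pii e u Z).map f = pii e u (Z.map f) := by
  ext i j; simp [pii]

omit [DecidableEq n] [Fintype m] [DecidableEq m] in
lemma rho_sub (X Y : Matrix n n R) : rho L e (X - Y) = rho L e X - rho L e Y := by
  ext i j; simp [rho, sub_mul, mul_sub]

omit [Fintype n] [DecidableEq n] [DecidableEq m] in
lemma pii_eq (Z : Matrix m m R) : pii e u Z =
    ∑ j, algebraMap K R (u j) • ∑ i, Z i j • (e i).map (algebraMap K R) := by
  ext a b
  simp only [pii, Matrix.of_apply, Matrix.sum_apply, Matrix.smul_apply, Matrix.map_apply,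
    smul_eq_mul, map_mul, mul_sum]
  rw [sum_comm]
  exact sum_congr rfl fun _ _ => sum_congr rfl fun _ _ => by ring

/-- a basis of a subalgebra, with dual basis and unit -/
structure RB : Prop where
  dual : ∀ i j, ∑ q : n × n, L i q * e j q.1 q.2 = if i = j then 1 else 0
  one : ∑ j, u j • e j = 1
  mul : ∀ i j, e i * e j ∈ Submodule.span K (Set.range e)

variable (R) in
/-- the span after extension of scalars -/
def WW : Submodule R (Matrix n n R) := Submodule.span R (Set.range fun i => (e i).map (algebraMap K R))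

variable {L e u}

omit [Fintype n] [DecidableEq n] [DecidableEq m] in
lemma ww_map {X : Matrix n n K} (h : X ∈ Submodule.span K (Set.range e)) :
    X.map (algebraMap K R) ∈ WW e R := by
  obtain ⟨c, rfl⟩ := (Submodule.mem_span_range_iff_exists_fun K).mp h
  refine (Submodule.mem_span_range_iff_exists_fun R).mpr ⟨fun i => algebraMap K R (c i), ?_⟩
  ext a b; simp [Matrix.sum_apply, Algebra.smul_def]

omit [Fintype n] [DecidableEq n] [DecidableEq m] in
lemma pii_mem (Z : Matrix m m R) : pii e u Z ∈ WW e R := by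
  rw [pii_eq]
  exact Submodule.sum_mem _ fun _ _ => Submodule.smul_mem _ _ (Submodule.sum_mem _ fun i _ =>
    Submodule.smul_mem _ _ (Submodule.subset_span ⟨i, rfl⟩))

variable (B : RB L e u)
include B

lemma RB.one' : ∑ j, algebraMap K R (u j) • (e j).map (algebraMap K R) = 1 := by
  have := congrArg (algebraMap K R).mapMatrix B.one
  rw [map_one, map_sum] at this
  rw [← this]
  exact sum_congr rfl fun _ _ => by ext; simp

lemma RB.one_mem : (1 : Matrix n n R) ∈ WW e R :=
  (Submodule.mem_span_range_iff_exists_fun R).mpr ⟨_, B.one'⟩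

lemma RB.mul_mem {X Y : Matrix n n R} (hX : X ∈ WW e R) (hY : Y ∈ WW e R) : X * Y ∈ WW e R := by
  obtain ⟨c, rfl⟩ := (Submodule.mem_span_range_iff_exists_fun R).mp hX
  obtain ⟨d, rfl⟩ := (Submodule.mem_span_range_iff_exists_fun R).mp hY
  rw [sum_mul_sum]
  refine Submodule.sum_mem _ fun i _ => Submodule.sum_mem _ fun j _ => ?_
  rw [smul_mul_smul_comm, ← Matrix.map_mul]
  exact Submodule.smul_mem _ _ (ww_map (B.mul i j))

lemma RB.coef {X : Matrix n n R} {j : m} {c : m → R}
    (h : X * (e j).map (algebraMap K R) = ∑ i, c i • (e i).map (algebraMap K R)) (i : m) :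
    rho L e X i j = c i := by
  simp only [rho, Matrix.of_apply, h, Matrix.sum_apply, Matrix.smul_apply, Matrix.map_apply,
    smul_eq_mul, mul_sum]
  rw [sum_comm, sum_congr rfl fun l _ => show ∑ q : n × n, algebraMap K R (L i q) *
    (c l * algebraMap K R (e l q.1 q.2)) = c l * algebraMap K R (if i = l then 1 else 0) by
      rw [← B.dual, map_sum, mul_sum]
      exact sum_congr rfl fun _ _ => by rw [map_mul]; ring]
  simp [apply_ite]

lemma RB.act {X : Matrix n n R} (hX : X ∈ WW e R) (j : m) :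
    X * (e j).map (algebraMap K R) = ∑ i, rho L e X i j • (e i).map (algebraMap K R) := by
  obtain ⟨c, hc⟩ := (Submodule.mem_span_range_iff_exists_fun R).mp
    (B.mul_mem hX (Submodule.subset_span ⟨j, rfl⟩))
  simp only [B.coef hc.symm, hc]

lemma RB.mul_pii {X : Matrix n n R} (hX : X ∈ WW e R) (Z : Matrix m m R) :
    X * pii e u Z = pii e u (rho L e X * Z) := by
  simp only [pii_eq, mul_sum, mul_smul_comm, B.act hX, Matrix.mul_apply, sum_smul, smul_sum]
  refine sum_congr rfl fun j _ => ?_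
  rw [sum_comm]
  exact sum_congr rfl fun _ _ => sum_congr rfl fun _ _ => by rw [mul_comm, mul_smul]

lemma RB.pii_one : pii e u (1 : Matrix m m R) = 1 := by
  rw [pii_eq]
  conv_rhs => rw [← B.one' (R := R)]
  simp [Matrix.one_apply]

lemma RB.pii_rho {X : Matrix n n R} (hX : X ∈ WW e R) : pii e u (rho L e X) = X := by
  rw [← mul_one (rho L e X), ← B.mul_pii hX, B.pii_one, mul_one]

lemma RB.rho_one : rho L e (1 : Matrix n n R) = 1 := by
  ext i j
  rw [B.coef (c := fun i => (1 : Matrix m m R) i j) (by simp [Matrix.one_apply])]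

lemma RB.rho_mul {X Y : Matrix n n R} (hX : X ∈ WW e R) (hY : Y ∈ WW e R) :
    rho L e (X * Y) = rho L e X * rho L e Y := by
  ext i j
  refine B.coef (c := fun i => (rho L e X * rho L e Y) i j) ?_ i
  simp only [mul_assoc, B.act hY, mul_sum, mul_smul_comm, B.act hX, Matrix.mul_apply, sum_smul,
    smul_sum]
  rw [sum_comm]
  exact sum_congr rfl fun _ _ => sum_congr rfl fun _ _ => by rw [mul_comm, mul_smul]

lemma RB.nil {X : Matrix n n R} (hX : X ∈ WW e R) (h : IsNilpotent (rho L e X)) :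
    IsNilpotent X := by
  obtain ⟨r, hr⟩ := h
  have key : ∀ r : ℕ, X ^ r ∈ WW e R ∧ rho L e (X ^ r) = rho L e X ^ r := fun r => by
    induction r with
    | zero => exact ⟨pow_zero X ▸ B.one_mem, by rw [pow_zero, pow_zero, B.rho_one]⟩
    | succ r ih => exact ⟨pow_succ X r ▸ B.mul_mem ih.1 hX, by
        rw [pow_succ, pow_succ, B.rho_mul ih.1 hX, ih.2]⟩
  exact ⟨r, by rw [← B.pii_rho (key r).1, (key r).2, hr]; simp [pii_eq]⟩

end Nw

end Pool.Agent.P.MP_7d29e8_ag
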