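import Pool.Agent.P.MP_7d29e8_ag.KM

set_option autoImplicit false

/-! The inner form attached to a basic element exists as a matrix group. -/

namespace Pool.Agent.P.MP_7d29e8_ag

open Finset SemidirectProduct Nw

section

variable {K Ω : Type} [Field K] [Field Ω] [Algebra K Ω] [IsAlgClosure K Ω] [CharZero K] [CharZero Ω]
  {σ : K ≃+* K} {s : Ω ≃+* Ω}
  (hs : ∀ a, s (algebraMap K Ω a) = algebraMap K Ω (σ a))
  {n m : Type} [Fintype n] [DecidableEq n] [Fintype m] [DecidableEq m] {G : Subgroup (GL n Ω)}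
  (hG : IsRed σ G) {β : GL n Ω} (hβ : β ∈ G)
  {L : m → n × n → K} {e : m → Matrix n n K} {u : m → K} (B : RB L e u)
  (he : ∀ i, ac (inl β * inr s) ((e i).map (algebraMap K Ω)) = (e i).map (algebraMap K Ω))
  (hW : ∀ g ∈ G, g.val ∈ WW e Ω)
include hs hG hβ B he hW

theorem inner_of_basis : ∃ (G' : Subgroup (GL m Ω)) (ψ : G ≃* G'), IsRed σ G' ∧ Reg K ψ ∧
    Reg K ψ.symm ∧ ∀ g h : G, h.val.val = β.val * g.val.val.map s * (β⁻¹).val →
      (ψ h).val.val = (ψ g).val.val.map s := by
  classical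
  let r : G →* Matrix m m Ω := ⟨⟨fun g => rho L e g.val.val, B.rho_one⟩,
    fun g h => B.rho_mul (hW _ g.2) (hW _ h.2)⟩
  have hr : ∀ g : G, (r.toHomUnits g).val = rho L e g.val.val := fun _ => rfl
  have inj : Function.Injective r.toHomUnits := fun g h c => Subtype.ext (Units.ext (by
    rw [← B.pii_rho (hW _ g.2), ← B.pii_rho (hW _ h.2), ← hr, ← hr, c]))
  have eqv : ∀ X ∈ WW e Ω, rho L e (ac (inl β * inr s) X) = (rho L e X).map s := fun X hX => by
    ext i j
    refine B.coef (c := fun i => s (rho L e X i j)) ?_ i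
    conv_lhs => rw [← he j, ← map_mul, B.act hX, map_sum]
    exact sum_congr rfl fun l _ => by rw [ac_smul, he]; simp
  obtain ⟨F, -, hF⟩ := hG.eqs
  let I : Submodule K (MvPolynomial (m × m) K) :=
    { carrier := {f | ∀ g : G, ev (rho L e g.val.val) f = 0}
      add_mem' := fun a b g => by rw [map_add, a g, b g, add_zero]
      zero_mem' := fun _ => map_zero _
      smul_mem' := fun c f a g => by rw [map_smul, a g, smul_zero] }
  have hI : ∀ f ∈ I, MvPolynomial.map (σ : K →+* K) f ∈ I := fun f hf g => by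
    have hg : acu (inl β * inr s)⁻¹ g.val ∈ G := by
      rw [← hG.frob hs, mul_inv_rev, acu_mul, acu_acu_inv, ← map_inv, acu_inl]
      exact mul_mem (mul_mem (inv_mem hβ) g.2) (inv_mem (inv_mem hβ))
    have h1 := IsRed.aeval s σ hs
      (fun q : m × m => rho L e (acu (inl β * inr s)⁻¹ g.val).val q.1 q.2) f
    replace h1 := h1.trans ((congrArg s (hf ⟨_, hg⟩)).trans (map_zero s))
    have h2 := eqv _ (hW _ hg)
    rw [acu_val, ac_ac_inv] at h2
    rw [h2]
    exact h1
  refine ⟨r.toHomUnits.range, MonoidHom.ofInjective inj, ⟨⟨{f | f ∈ I ∧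
    MvPolynomial.map (σ : K →+* K) f = f}, fun f hf => hf.2, fun z => ⟨?_, fun hz => ?_⟩⟩, ?_, ?_⟩,
    fun i j => ⟨rho L e (Matrix.of fun a b => MvPolynomial.X (Sum.inl (a, b))) i j, fun g => ?_⟩,
    fun a b => ⟨pii e u (Matrix.of fun i j => MvPolynomial.X (Sum.inl (i, j))) a b, fun z => ?_⟩,
    fun g h c => ?_⟩
  · rintro ⟨g, rfl⟩ f hf
    exact hf.1 g
  · have h1 : ∀ f ∈ I, ev z.val f = 0 := fun f hf => Submodule.span_induction
      (p := fun f _ => ev z.val f = 0) hz (map_zero _)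
      (fun _ _ _ _ a b => by rw [map_add, a, b, add_zero])
      (fun _ _ _ a => by rw [map_smul, a, smul_zero]) (fix_poly _ I hI f hf)
    have h2 : ∀ Z : Matrix m m Ω, (pii e u (gen K m)).map (ev Z) = pii e u Z := fun Z => by
      rw [pii_map, gen_map]
    have h3 : ∀ (Z : Matrix m m Ω) i j, ev Z ((rho L e (pii e u (gen K m)) - gen K m) i j) =
        (rho L e (pii e u Z) - Z) i j := fun Z i j => by
      rw [← h2, ← rho_map]
      simp [gen]
    have h4 : rho L e (pii e u z.val) = z.val := by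
      ext i j
      have := h1 ((rho L e (pii e u (gen K m)) - gen K m) i j) fun g => by
        rw [h3, B.pii_rho (hW _ g.2), sub_self]; rfl
      rwa [h3, Matrix.sub_apply, sub_eq_zero] at this
    have h5 : pii e u z.val * pii e u (z⁻¹).val = 1 := by
      rw [B.mul_pii (pii_mem _), h4, Units.mul_inv, B.pii_one]
    refine ⟨⟨⟨_, _, h5, mul_eq_one_comm.mp h5⟩, (hF _).mpr fun f hf => ?_⟩, Units.ext h4⟩
    have := h1 (ev (pii e u (gen K m)) f) fun g => by
      rw [← ev_map, h2, B.pii_rho (hW _ g.2)]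
      exact (hF _).mp g.2 f hf
    rwa [← ev_map, h2] at this
  · have h1 : ∀ (g : Matrix n n Ω) f, ev g (ev (rho L e (gen Ω n)) f) = ev (rho L e g) f :=
      fun g f => by
        rw [← ev_map]
        exact congrArg (ev · f) ((rho_map L e ((ev g).restrictScalars K) _).trans
          (congrArg _ (gen_map g)))
    have : (van (GS G)).IsPrime := vanG_eq G ▸ hG.conn
    rw [vanG_eq, show van (GS r.toHomUnits.range) =
      (van (GS G)).comap (ev (rho L e (gen Ω n))) from Ideal.ext fun f => ⟨?_, ?_⟩]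
    · exact Ideal.comap_isPrime _ _
    · rintro h _ ⟨g, hg, rfl⟩
      exact (h1 _ f).trans (h _ ⟨_, ⟨⟨g, hg⟩, rfl⟩, rfl⟩)
    · rintro h _ ⟨_, ⟨g, rfl⟩, rfl⟩
      exact (h1 _ f).symm.trans (h _ ⟨_, g.2, rfl⟩)
  · intro U hU h1 h2
    have h3 := hG.red ((U.comap r.toHomUnits).map G.subtype) (Subgroup.map_subtype_le _) (by
      rintro g hg _ ⟨x, hx, rfl⟩
      refine ⟨⟨g, hg⟩ * x * ⟨g, hg⟩⁻¹, ?_, rfl⟩
      rw [SetLike.mem_coe, Subgroup.mem_comap, map_mul, map_mul, map_inv]
      exact h1 _ ⟨_, rfl⟩ _ hx) (by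
      rintro _ ⟨x, hx, rfl⟩
      refine B.nil (sub_mem (hW _ x.2) B.one_mem) ?_
      rw [rho_sub, B.rho_one]
      exact h2 _ hx)
    refine eq_bot_iff.mpr fun z hz => ?_
    obtain ⟨x, rfl⟩ := hU hz
    have h4 : x.val ∈ (⊥ : Subgroup (GL n Ω)) := h3 ▸ ⟨x, hz, rfl⟩
    rw [show x = 1 from Subtype.ext h4, map_one]
    exact one_mem _
  · refine Eq.trans ?_ (congrFun (congrFun (rho_map L e (MvPolynomial.aeval _) _) i) j).symm
    exact congrArg (rho L e · i j) (by ext; simp)
  · obtain ⟨g, rfl⟩ := (MonoidHom.ofInjective inj).surjective z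
    refine Eq.trans ?_ (congrFun (congrFun (pii_map e u (MvPolynomial.aeval _) _) a) b).symm
    rw [MulEquiv.symm_apply_apply, ← B.pii_rho (hW _ g.2)]
    exact congrArg (pii e u · a b) (by ext; simp; rfl)
  · refine Eq.trans ?_ (eqv _ (hW _ g.2))
    rw [ac_mul, ac_inr, ac_inl, ← c]
    rfl

end

variable {p : ℕ} [Fact p.Prime] {K Ω : Type} [Field K] [Field Ω]
  [Algebra (WittVector p (AlgebraicClosure (ZMod p))) K]
  [IsFractionRing (WittVector p (AlgebraicClosure (ZMod p))) K] [Algebra K Ω] [IsAlgClosure K Ω]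
  {σ : K ≃+* K} (hσ : ∀ o : WittVector p (AlgebraicClosure (ZMod p)),
    σ (algebraMap _ K o) = algebraMap _ K (WittVector.frobenius o))
  {s : Ω ≃+* Ω} (hs : ∀ a, s (algebraMap K Ω a) = algebraMap K Ω (σ a))
  {n : Type} [Fintype n] [DecidableEq n] {G : Subgroup (GL n Ω)} (hG : IsRed σ G)
include hσ hs hG

theorem inner_ex (β : G)
    (hβ : Basic (WittVector p (AlgebraicClosure (ZMod p))) p σ G β.val.val) :
    ∃ (n' : ℕ) (G' : Subgroup (GL (Fin n') Ω)) (ψ : G ≃* G'), IsRed σ G' ∧ Reg K ψ ∧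
      Reg K ψ.symm ∧ ∀ g h : G, h.val.val = β.val.val * g.val.val.map s * (β⁻¹).val.val →
        (ψ h).val.val = (ψ g).val.val.map s := by
  classical
  have := charZero_K p K
  have := charZero_of_injective_algebraMap (algebraMap K Ω).injective
  obtain ⟨v, pw, hv, hpw, hτ, hvs, hp, hO, hZ⟩ := exists_val σ hσ s hs
  have p0 := (Fact.out : p.Prime).ne_zero
  obtain ⟨k, h, H, hH, -, hc, hN⟩ := hβ
  obtain ⟨-, a2, a3, a4⟩ := (newton_iff s hs hv hpw hvs hp hO fixed_mem β.val k h H hH).mp hN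
  obtain ⟨g₁, -, e, -⟩ := hN
  obtain ⟨gK, rfl⟩ : IsUnit g₁ := by
    rw [Matrix.isUnit_iff_isUnit_det, isUnit_iff_ne_zero]
    intro h0
    have h2 := (Matrix.isUnit_iff_isUnit_det _).1 β.val.isUnit
    rw [e, ← RingHom.mapMatrix_apply, ← RingHom.map_det, h0, map_zero] at h2
    exact not_isUnit_zero h2
  have hw : Val fun a : K => v (algebraMap K Ω a) :=
    ⟨fun a c h1 h2 => by rw [map_mul, hv.mul _ _ (by simpa using h1) (by simpa using h2)],
      fun a c h1 h2 h3 => by
        rw [map_add]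
        exact hv.add _ _ (by simpa using h1) (by simpa using h2) (by rwa [← map_add, map_ne_zero])⟩
  have ge : ∀ C (a : K), Ge (fun a : K => v (algebraMap K Ω a)) C a ↔
      Ge v C (algebraMap K Ω a) := fun C a => or_congr (map_eq_zero _).symm Iff.rfl
  have hσv : ∀ a, v (algebraMap K Ω (σ a)) = v (algebraMap K Ω a) := fun a => by rw [← hs, hvs]
  have hψ : (inl gK * inr σ : SL n K) ∈ Vs fun a : K => v (algebraMap K Ω a) := fun a => by
    simpa using hσv a
  have hφ : (inl β.val * inr s : SL n Ω) ∈ Vs v := fun a => by simpa using hvs a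
  have u1 : ∀ X, (ac (inl gK * inr σ : SL n K) X).map (algebraMap K Ω) =
      ac (inl β.val * inr s) (X.map (algebraMap K Ω)) := fun X => by
    rw [ac_mul, ac_mul, ac_inr, ac_inr, ac_inl, ac_inl, eq_comm, Units.mul_inv_eq_iff_eq_mul, e,
      ← Matrix.map_mul, Units.inv_mul_cancel_right, Matrix.map_mul]
    congr 1
    ext i j
    exact hs _
  have r1 : ∀ a, ((inl gK * inr σ : SL n K) ^ (1 : ℤ)).right a = σ a := fun a => by simp
  generalize (inl gK * inr σ : SL n K) = ψ at *
  have u2 : ∀ (j : ℤ) X, (ac (ψ ^ j) X).map (algebraMap K Ω) =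
      ac ((inl β.val * inr s) ^ j) (X.map (algebraMap K Ω)) := fun j => by
    induction j using Int.induction_on with
    | zero => exact fun x => by rw [zpow_zero, zpow_zero, ac_one, ac_one]
    | succ j ih => exact fun x => by rw [zpow_add_one, zpow_add_one, ac_mul, ac_mul, ih, u1]
    | pred j ih =>
      intro x
      rw [zpow_sub_one, zpow_sub_one, ac_mul, ac_mul _ _ (x.map _), ih,
        ← ac_inv_ac (inl β.val * inr s) (Matrix.map _ _), ← u1, ac_ac_inv]
  have S : SA (fun a : K => v (algebraMap K Ω a)) (fun j : ℤ => (ac (ψ ^ j)).toAddMonoidHom)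
      fun j => (ψ ^ j).right :=
    ⟨ac_one, fun i j x => by rw [zpow_add]; exact ac_mul _ _ _, fun j => ac_smul _,
      fun j C a => (ge_map (zpow_mem hψ j)).2⟩
  obtain ⟨b, b1, b2, b3⟩ := exists_linearIndependent K {X : Matrix n n K | ac (ψ ^ (1 : ℤ)) X = X}
  have := b3.finite
  obtain ⟨N, ⟨ε⟩⟩ := Finite.exists_equiv_fin b
  have b4 : Set.range (fun i => (ε.symm i : Matrix n n K)) = b :=
    (ε.symm.surjective.range_comp Subtype.val).trans Subtype.range_coe
  obtain ⟨l, hl⟩ := (Fintype.linearCombination K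
    fun i => (ε.symm i : Matrix n n K)).exists_leftInverse_of_injective (LinearMap.ker_eq_bot.mpr
      (b3.comp _ ε.symm.injective).fintypeLinearCombination_injective)
  obtain ⟨u, hu⟩ := (Submodule.mem_span_range_iff_exists_fun K (x := (1 : Matrix n n K))
    (v := fun i => (ε.symm i : Matrix n n K))).mp (by
      rw [b4, b2]; exact Submodule.subset_span (map_one _))
  refine ⟨N, inner_of_basis hs hG β.2 (L := fun i q => l (Matrix.single q.1 q.2 1) i) (u := u)
    ⟨fun i j => ?_, hu, fun i j => ?_⟩ (fun i => ?_) fun g hg => ?_⟩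
  · have h1 := congrFun (DFunLike.congr_fun hl (Pi.single j 1)) i
    rw [LinearMap.comp_apply, Fintype.linearCombination_apply_single, one_smul,
      LinearMap.id_apply, Pi.single_apply] at h1
    rw [← h1]
    conv_rhs => rw [Matrix.matrix_eq_sum_single (ε.symm j : Matrix n n K)]
    simp only [map_sum, Finset.sum_apply, Fintype.sum_prod_type]
    refine sum_congr rfl fun a _ => sum_congr rfl fun c _ => ?_
    rw [mul_comm, ← smul_eq_mul, ← Pi.smul_apply, ← map_smul, Matrix.smul_single, smul_eq_mul,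
      mul_one]
  · rw [b4, b2]
    exact Submodule.subset_span ((map_mul _ _ _).trans
      (congrArg₂ (· * ·) (b1 (ε.symm i).2) (b1 (ε.symm j).2)))
  · rw [← u1, ← zpow_one ψ, show ac (ψ ^ (1 : ℤ)) _ = _ from b1 (ε.symm i).2]
  · let V : Submodule Ω (Matrix n n Ω) :=
      LinearMap.eqLocus (LinearMap.mulRight Ω H) (LinearMap.mulLeft Ω H)
    refine Submodule.span_le.mpr ?_ (descent (K := K) V (fun τ X hX => ?_) (hc g hg))
    · rintro X ⟨h1, h2⟩
      choose X₀ h₀ using fun i j => fixed_mem (X i j) fun τ => congrFun (congrFun (h2 τ) i) j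
      obtain rfl : (Matrix.of X₀).map (algebraMap K Ω) = X := Matrix.ext h₀
      refine ww_map ?_
      rw [b4, b2]
      obtain ⟨C, hC⟩ := cent_bd hφ hH a3 a4 h1
      refine fix_span hw hσv S r1 (Nat.cast_ne_zero.mpr p0) (by simpa using hp) (fun a _ ha => ?_)
        (ap_K hσ hv hp hO) ⟨n × n, inferInstance, fun q => Matrix.single q.1 q.2 1, C, fun j =>
          ⟨fun q => ac (ψ ^ j) (Matrix.of X₀) q.1 q.2, ?_, fun q => ?_⟩⟩
      · obtain ⟨_, ⟨x, rfl⟩, hx⟩ := cpl_K hv hp hO (fun j => algebraMap K Ω (a j))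
          (fun j => ⟨_, rfl⟩)
          fun C => (ha C).imp fun J hJ j hj => by rw [← map_sub, ← ge]; exact hJ j hj
        exact ⟨x, trivial, fun C => (hx C).imp fun J hJ j hj => by
          rw [ge, map_sub]; exact hJ j hj⟩
      · simp only [Matrix.smul_single, smul_eq_mul, mul_one, Fintype.sum_prod_type]
        exact Matrix.matrix_eq_sum_single _
      · rw [mul_zero, add_zero, ge]
        exact (congrArg (Ge v C) (congrFun (congrFun (u2 j _) q.1) q.2)).mpr (hC j q)
    · have := congrArg (fun Y : Matrix n n Ω => Y.map τ) (show X * H = H * X from hX)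
      simp only [Matrix.map_mul, a2 τ] at this
      exact this

end Pool.Agent.P.MP_7d29e8_ag
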