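import Pool.Agent.P.MP_7d29e8_ag.KN

set_option autoImplicit false

/-! The general linear group as an example. -/

namespace Pool.Agent.P.MP_7d29e8_ag

open Finset SemidirectProduct Nw

section

variable {K Ω : Type} [Field K] [Field Ω] [Algebra K Ω] [CharZero Ω] {n : Type} [Fintype n]
  [DecidableEq n]

lemma van_top : vanG (⊤ : Subgroup (GL n Ω)) = ⊥ := by
  rw [vanG_eq]
  refine eq_bot_iff.mpr fun f hf => ?_
  have e : ∀ X : Matrix n n Ω, ev X (gen Ω n).det = X.det := fun X => by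
    rw [AlgHom.map_det, AlgHom.mapMatrix_apply, gen_map]
  have h1 : f * (gen Ω n).det = 0 := MvPolynomial.funext fun x => by
    have e1 : ∀ g, MvPolynomial.eval x g = ev (Matrix.of fun a b => x (a, b)) g := fun g => rfl
    rw [e1, map_mul, e, map_zero]
    by_cases h : (Matrix.of fun a b => x (a, b)).det = 0
    · rw [h, mul_zero]
    · rw [hf (Matrix.of fun a b => x (a, b)) ⟨Matrix.GeneralLinearGroup.mkOfDetNeZero _ h, trivial, rfl⟩,
        zero_mul]
  refine (mul_eq_zero.mp h1).resolve_right fun c => ?_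
  simpa [c] using e 1

theorem isRed_top (σ : K ≃+* K) : IsRed σ (⊤ : Subgroup (GL n Ω)) := by
  refine ⟨⟨∅, by simp, by simp⟩, van_top (n := n) (Ω := Ω) ▸ Ideal.isPrime_bot, fun U _ h1 h2 =>
    eq_bot_iff.mpr fun u hu => Units.ext (sub_eq_zero.mp ?_)⟩
  have tr : ∀ X : Matrix n n Ω, IsNilpotent X → X.trace = 0 := fun X h =>
    (Matrix.isNilpotent_trace_of_isNilpotent h).eq_zero
  have h3 := h2 u hu
  obtain ⟨N, hN⟩ : ∃ N, u.val = N + 1 := ⟨u.val - 1, by simp⟩
  rw [Units.val_one]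
  rw [hN, add_sub_cancel_right] at h3 ⊢
  have key : ∀ g : GL n Ω, (N * (g.val * N * (g⁻¹).val)).trace = 0 := fun g => by
    have a1 := tr _ (h2 _ (mul_mem hu (h1 g trivial u hu)))
    have a2 := tr _ (h2 _ (h1 g trivial u hu))
    have e : (g * u * g⁻¹).val = g.val * N * (g⁻¹).val + 1 := by
      rw [Units.val_mul, Units.val_mul, hN, mul_add, add_mul, mul_one, Units.mul_inv]
    rw [e, add_sub_cancel_right] at a2
    rw [Units.val_mul, e, hN, show ∀ A B : Matrix n n Ω, (A + 1) * (B + 1) - 1 = A * B + A + B from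
      fun A B => by noncomm_ring, Matrix.trace_add, Matrix.trace_add, a2, tr N h3] at a1
    simpa using a1
  have off : ∀ i j, i ≠ j → N j i = 0 := fun i j hij => by
    set E : Matrix n n Ω := Matrix.single i j 1 with hE
    have e0 : E * E = 0 := Matrix.single_mul_single_of_ne _ _ _ _ hij.symm _
    let g : GL n Ω := ⟨1 + E, 1 - E, by rw [add_mul, mul_sub, mul_sub, e0]; simp,
      by rw [sub_mul, mul_add, mul_add, e0]; simp⟩
    have a1 : (N * ((1 + E) * N * (1 - E))).trace = 0 := key g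
    have a2 : (N * ((1 - E) * N * (1 + E))).trace = 0 := key g⁻¹
    have a3 : (N * N).trace = 0 := by simpa using key 1
    have a4 : N * ((1 + E) * N * (1 - E)) + N * ((1 - E) * N * (1 + E)) =
        N * N + N * N - (N * (E * N * E) + N * (E * N * E)) := by noncomm_ring
    have a5 := congrArg Matrix.trace a4
    rw [Matrix.trace_add, a1, a2, Matrix.trace_sub, Matrix.trace_add, Matrix.trace_add, a3, hE,
      Matrix.single_mul_mul_single, Matrix.trace_mul_single] at a5
    simp only [one_mul, mul_one, MulOpposite.smul_eq_mul_unop, MulOpposite.unop_op] at a5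
    exact mul_self_eq_zero.mp (by linear_combination a5 / 2)
  obtain ⟨r, hr⟩ := h3
  have e : N = Matrix.diagonal fun i => N i i := by
    ext i j
    by_cases h : i = j
    · simp [h]
    · rw [off j i (Ne.symm h), Matrix.diagonal_apply_ne _ h]
  rw [e, Matrix.diagonal_pow] at hr
  rw [e]
  exact (congrArg _ (funext fun i => eq_zero_of_pow_eq_zero (n := r) (by
    simpa using congrFun (congrFun hr i) i))).trans Matrix.diagonal_zero

theorem minu_top (h : n → ℤ) (hh : ∀ i j, |h i - h j| ≤ 1) :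
    Minu (⊤ : Subgroup (GL n Ω)) fun t => Matrix.diagonal fun i => t ^ h i := by
  refine ⟨⟨1, h, fun t _ => by simp⟩, fun t ht => ⟨dU fun i => Units.mk0 t ht ^ h i, trivial,
    by simp⟩, fun X _ h0 j hj => ?_⟩
  obtain ⟨a, b, h1⟩ : ∃ a b, X a b ≠ 0 := by
    by_contra c
    push Not at c
    exact h0 (Matrix.ext c)
  have h2 := congrFun (congrFun (hj 2 two_ne_zero) a) b
  rw [Matrix.smul_apply, Matrix.diagonal_mul, Matrix.mul_diagonal, smul_eq_mul, mul_comm (X a b),
    ← mul_assoc, ← zpow_add₀ two_ne_zero] at h2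
  have h3 : ((2 : ℚ) ^ h a) = 2 ^ (j + h b) := Rat.cast_injective (α := Ω) (by
    push_cast; exact mul_right_cancel₀ h1 h2)
  have h4 := zpow_right_injective₀ two_pos (by norm_num) h3
  rw [show j = h a - h b by omega]
  exact hh a b

omit [CharZero Ω] in
lemma good_of_eig {v : Ω → ℚ} {hv : Val v} {φ : SL n Ω} (hφ : φ ∈ Vs v) {p : ℕ} (h0 : (p : Ω) ≠ 0)
    (hp : v (p : Ω) = 1) {x : n → Ω} (h : av (φ ^ (2 : ℤ)) x = (p : Ω) • x) :
    x ∈ Nw.Good hv hφ (1 / 2) := by
  have h1 : ∀ i : ℤ, av (φ ^ (i * 2)) x = (p : Ω) ^ i • x := fun i => by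
    induction i using Int.induction_on with
    | zero => simp [av_one]
    | succ i ih =>
      rw [add_mul, one_mul, zpow_add, av_mul, h, av_smul, ih, map_natCast, smul_smul,
        zpow_add_one₀ h0, mul_comm]
    | pred i ih =>
      rw [← inv_smul_smul₀ h0 (av _ x), ← map_natCast (φ ^ ((-(i : ℤ) - 1) * 2)).right p, ← av_smul,
        map_natCast, ← h, ← av_mul, ← zpow_add, show (-(i : ℤ) - 1) * 2 + 2 = -i * 2 by ring, ih,
        smul_smul, zpow_sub_one₀ h0, mul_comm]
  obtain ⟨C, hC⟩ := gv_ex (v := v) x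
  obtain ⟨D, hD⟩ := gv_ex (v := v) (av φ x)
  have pz : ∀ z : ℤ, Ge v z ((p : Ω) ^ z) := fun z =>
    Or.inr (by rw [mulv_zpow hv.mul h0, hp, mul_one])
  refine ⟨min C (D - 1 / 2), fun j => ?_⟩
  obtain ⟨i, rfl | rfl⟩ := j.even_or_odd'
  · rw [mul_comm 2 i, h1]
    exact (hC.smul hv (pz i)).mono (by push_cast; linarith [min_le_left C (D - 1 / 2)])
  · rw [mul_comm 2 i, add_comm (i * 2), zpow_add, zpow_one, av_mul, h1, av_smul, map_zpow₀,
      map_natCast]
    exact (hD.smul hv (pz i)).mono (by push_cast; linarith [min_le_right C (D - 1 / 2)])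

end

variable {p : ℕ} [Fact p.Prime] {K Ω : Type} [Field K] [Field Ω]
  [Algebra (WittVector p (AlgebraicClosure (ZMod p))) K]
  [IsFractionRing (WittVector p (AlgebraicClosure (ZMod p))) K] [Algebra K Ω] [IsAlgClosure K Ω]
  {σ : K ≃+* K} (hσ : ∀ o : WittVector p (AlgebraicClosure (ZMod p)),
    σ (algebraMap _ K o) = algebraMap _ K (WittVector.frobenius o))
  {s : Ω ≃+* Ω} (hs : ∀ a, s (algebraMap K Ω a) = algebraMap K Ω (σ a))
include hσ hs

theorem gl_two : IsRed σ (⊤ : Subgroup (GL (Fin 2) Ω)) ∧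
    Minu (⊤ : Subgroup (GL (Fin 2) Ω)) (fun t => Matrix.diagonal ![t, 1]) ∧
    ∃ β : (⊤ : Subgroup (GL (Fin 2) Ω)), β.val.val = !![0, (p : Ω); 1, 0] ∧
      Basic (WittVector p (AlgebraicClosure (ZMod p))) p σ ⊤ β.val.val ∧
      Newton (WittVector p (AlgebraicClosure (ZMod p))) p σ β.val.val
        (Matrix.diagonal fun _ => 1 / 2) := by
  have := charZero_K p K
  have := charZero_of_injective_algebraMap (algebraMap K Ω).injective
  obtain ⟨v, pw, hv, hpw, hτ, hvs, hp, hO, hZ⟩ := exists_val σ hσ s hs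
  have p0 : (p : Ω) ≠ 0 := Nat.cast_ne_zero.mpr (Fact.out : p.Prime).ne_zero
  let β : GL (Fin 2) Ω := Matrix.GeneralLinearGroup.mkOfDetNeZero !![0, (p : Ω); 1, 0] (by simp [p0])
  have hβ : β.val = !![0, (p : Ω); 1, 0] := rfl
  have hH : (Matrix.diagonal fun _ => 1 / 2 : Matrix (Fin 2) (Fin 2) Ω) = (1 : GL (Fin 2) Ω).val *
      Matrix.diagonal (fun _ => ((1 / 2 : ℚ) : Ω)) * ((1 : GL (Fin 2) Ω)⁻¹).val := by simp
  have hs' : (Matrix.diagonal fun _ => 1 / 2 : Matrix (Fin 2) (Fin 2) Ω) = (1 / 2 : Ω) • 1 := by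
    rw [Matrix.smul_one_eq_diagonal]
  have hφ : (inl β * inr s : SL (Fin 2) Ω) ∈ Vs v := fun a => by simpa using hvs a
  have c1 : ac (inl β * inr s) (Matrix.diagonal fun _ => 1 / 2) = Matrix.diagonal fun _ => 1 / 2 := by
    rw [hs', ac_smul, map_one]; simp [map_ofNat]
  have hN := (newton_iff (O := WittVector p (AlgebraicClosure (ZMod p))) s hs hv hpw hvs hp hO
    fixed_mem β 1 (fun _ => 1 / 2) _ hH).mpr ⟨fun τ => by
      rw [hβ]; ext i j; fin_cases i <;> fin_cases j <;> simp, fun τ => by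
      rw [Matrix.diagonal_map (map_zero _)]; simp [map_ofNat], c1, (Nw.np_iff hpw hφ hH c1).mpr fun l =>
        good_of_eig hφ p0 hp (by
          rw [zpow_two, av_mul]
          funext i
          fin_cases l <;> fin_cases i <;>
            simp [av, hβ, Matrix.mulVec, dotProduct, Fin.sum_univ_two])⟩
  refine ⟨isRed_top σ, ?_, ⟨β, trivial⟩, rfl, ⟨1, _, _, hH, fun f hf => ?_, fun g _ => ?_, hN⟩, hN⟩
  · convert minu_top (Ω := Ω) ![1, 0] (by decide) using 3 with t
    funext i
    fin_cases i <;> simp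
  · rw [van_top] at hf
    simp [show f = 0 from hf]
  · rw [hs', mul_smul_comm, smul_mul_assoc, mul_one, one_mul]

end Pool.Agent.P.MP_7d29e8_ag
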