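import Pool.Agent.P.MP_7d29e8_ag.KO

set_option autoImplicit false

/-! The criterion for `GL₂` and the units of the quaternion algebra. -/

namespace Pool.Agent.P.MP_7d29e8_ag

open Finset SemidirectProduct Nw
open scoped Classical

section

variable {Ω : Type} [Field Ω] [CharZero Ω] {n : Type} [Fintype n] [DecidableEq n]
  {ι M N : Type} [AddCommGroup M] [Module ℚ M] [AddCommGroup N] [Module ℚ N]
  {P : RootPairing ι ℚ M N} {wt : n → M} {y : GL n Ω} {G : Subgroup (GL n Ω)}

omit [Fintype n] [DecidableEq n] in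
lemma two_zpow_inj {a b : ℤ} (h : (2 : Ω) ^ a = 2 ^ b) : a = b :=
  zpow_right_injective₀ (two_pos (α := ℚ)) (by norm_num)
    (Rat.cast_injective (α := Ω) (by push_cast; exact h))

lemma minu_of (D : DS (Gd G y) P wt) {x : N} (hx : x ∈ lat P wt) (hr : ∀ i, |P.root' i x| ≤ 1)
    {k : GL n Ω} (hk : k ∈ G) : Minu G fun t => k.val * co P y wt x t * (k⁻¹).val := by
  have e : ∀ t, k.val * co P y wt x t * (k⁻¹).val = cd (k * y) fun i => t ^ ⌊hh P wt x i⌋ :=
    fun t => by rw [← ac_cd]; rfl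
  refine ⟨⟨k * y, _, fun t _ => e t⟩, fun t ht => ?_, fun X hX h0 j hj => ?_⟩
  · obtain ⟨g, hg, e'⟩ := D.tor x hx t ht
    refine ⟨k * acu (inl y) g * k⁻¹, mul_mem (mul_mem hk hg) (inv_mem hk), ?_⟩
    rw [Units.val_mul, Units.val_mul, acu_val, e']; rfl
  · set Y := ac (inl (k * y) : SL n Ω)⁻¹ X with hY
    have h1 : Y ∈ lie (GS (Gd G y)) Ω := by
      rw [lie_Gd, hY, map_mul, mul_inv_rev, ac_mul, ac_ac_inv, ← map_inv]
      exact conj_lie (fun a ha => by
        rw [acu_inl]; exact mul_mem (mul_mem (inv_mem hk) ha) (inv_mem (inv_mem hk))) (lieG_iff.mp hX)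
    obtain ⟨a, b, h2⟩ : ∃ a b, Y a b ≠ 0 := by
      by_contra c
      push Not at c
      exact h0 (ac_inj _ ((Matrix.ext c : Y = 0).trans (map_zero _).symm))
    have h3 := congrArg (ac (inl (k * y) : SL n Ω)⁻¹) (hj 2 two_ne_zero)
    beta_reduce at h3
    rw [e, ac_smul, map_mul (ac _), map_mul (ac _), cd_eq_ac, ac_inv_ac, ← hY] at h3
    have h4 := congrFun (congrFun h3 a) b
    rw [Matrix.smul_apply, Matrix.diagonal_mul, Matrix.mul_diagonal, smul_eq_mul, mul_comm (Y a b),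
      ← mul_assoc, show (inl (k * y) : SL n Ω)⁻¹.right (2 ^ j) = 2 ^ j from rfl,
      ← zpow_add₀ two_ne_zero] at h4
    have h5 := two_zpow_inj (mul_right_cancel₀ h2 h4)
    obtain ⟨u, hu⟩ := mem_lat.mp hx a
    obtain ⟨w, hw⟩ := mem_lat.mp hx b
    rw [hu, hw, Int.floor_intCast, Int.floor_intCast] at h5
    have h6 : (j : ℚ) = P.toLinearMap (wt a - wt b) x := by
      rw [map_sub, LinearMap.sub_apply]
      change _ = hh P wt x a - hh P wt x b
      rw [hu, hw, h5]; push_cast; ring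
    by_cases h7 : wt a - wt b = 0
    · rw [h7, map_zero, LinearMap.zero_apply] at h6
      rw [show j = 0 by exact_mod_cast h6]; simp
    · obtain ⟨i, hi⟩ := D.roots _ h7 _ (D.comp_mem h1 _)
        (fun c => h2 (by simpa using congrFun (congrFun c a) b)) fun i l h => if_neg h
      have := hr i
      rw [show P.root' i x = j by rw [h6, ← hi]] at this
      exact_mod_cast this

lemma lie_top (X : Matrix n n Ω) : X ∈ lie (GS (Gd ⊤ y)) Ω :=
  lie_Gd.mpr (lieG_iff.mp fun f hf => by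
    rw [van_top] at hf
    simp [show f = 0 from hf])

lemma hh_surj (D : DS (Gd ⊤ y) P wt) (c : n → ℚ) : ∃ x, ∀ i, c i = hh P wt x i :=
  exists_of_rel D.span c fun a ha => sum_eq_zero fun i _ => by
    have h1 := D.cent _ (lie_top (Matrix.single i i 1)) fun k l h =>
      Matrix.single_apply_of_ne _ _ _ _ _ fun e => h (by rw [← e.1, ← e.2]; exact sub_self _)
    have h2 : ∑ l, (a l : Ω) * Matrix.single i i (1 : Ω) l l = 0 :=
      Submodule.span_induction (p := fun X _ => ∑ l, (a l : Ω) * X l l = 0) (by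
        rintro _ ⟨x, rfl⟩
        have := congrArg (fun m => ((P.toLinearMap m x : ℚ) : Ω)) ha
        simpa [DD, hh] using this) (by simp)
        (fun _ _ _ _ e e' => by simp [mul_add, sum_add_distrib, e, e'])
        (fun r _ _ e => by simp [mul_left_comm _ r, ← mul_sum, e]) h1
    have h3 : a i = 0 := by simpa [Matrix.single_apply] using h2
    simp [h3]

lemma eig_val {v : Ω → ℚ} {hv : Val v} {φ : SL n Ω} {hφ : φ ∈ Vs v} {q : ℚ} {w : n → Ω} {a : Ω}
    (h : w ∈ Nw.Good hv hφ q) {t : n} (ht : w t ≠ 0) (ha : a ≠ 0) (e : av φ w = a • w) :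
    v a = q := by
  have key : ∀ j : ℤ, ∃ c ≠ 0, av (φ ^ j) w = c • w ∧ v c = j * v a := fun j => by
    induction j using Int.induction_on with
    | zero => exact ⟨1, one_ne_zero, by simp [av_one], by simp [mulv_one hv.mul]⟩
    | succ j ih =>
      obtain ⟨c, c0, c1, c2⟩ := ih
      have h0 : (φ ^ (j : ℤ)).right a ≠ 0 := by simpa using ha
      exact ⟨_, mul_ne_zero h0 c0, by rw [zpow_add_one, av_mul, e, av_smul, c1, smul_smul], by
        rw [hv.mul _ _ h0 c0, zpow_mem hφ, c2]; push_cast; ring⟩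
    | pred j ih =>
      obtain ⟨c, c0, c1, c2⟩ := ih
      have h0 : (φ ^ (-(j : ℤ) - 1)).right a ≠ 0 := by simpa using ha
      refine ⟨_, mul_ne_zero (inv_ne_zero h0) c0, ?_, by
        rw [hv.mul _ _ (inv_ne_zero h0) c0, mulv_inv hv.mul h0, zpow_mem hφ, c2]; push_cast; ring⟩
      rw [mul_smul, eq_inv_smul_iff₀ h0, ← av_smul, ← e, ← av_mul, ← zpow_add_one, sub_add_cancel, c1]
  obtain ⟨C, hC⟩ := h
  have h1 : ∀ j : ℤ, C + j * q ≤ j * v a + v (w t) := fun j => by
    obtain ⟨c, c0, c1, c2⟩ := key j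
    have := (hC j t).resolve_left (by rw [c1]; exact mul_ne_zero c0 ht)
    rwa [c1, Pi.smul_apply, smul_eq_mul, hv.mul _ _ c0 ht, c2] at this
  by_contra c
  obtain ⟨j, hj⟩ := exists_nat_gt ((v (w t) - C) / |q - v a|)
  rw [div_lt_iff₀ (abs_pos.mpr (sub_ne_zero.mpr (Ne.symm c)))] at hj
  have h2 := h1 j
  have h3 := h1 (-j)
  push_cast at h2 h3
  rcases abs_cases (q - v a) with e | e <;> rw [e.1] at hj <;> linarith

omit [CharZero Ω] in
lemma kap_det {O K : Type} [CommRing O] [Field K] [Algebra O K] [Algebra K Ω] {p : ℕ} {v : Ω → ℚ}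
    (hv : Val v) (h0 : (p : Ω) ≠ 0) (hp : v (p : Ω) = 1)
    (hO : ∀ a : K, a ≠ 0 → ((∃ o : O, algebraMap O K o = a) ↔ 0 ≤ v (algebraMap K Ω a)))
    {g : GL n Ω} {z : N} (h : Kap O K P p G y wt g z) : v g.val.det = ∑ i, hh P wt z i := by
  induction h with
  | unip u u₀ _ h2 h3 =>
    rw [h2, ← RingHom.mapMatrix_apply, ← RingHom.map_det, ← add_sub_cancel 1 u₀, det_one_add_nil h3,
      map_one, mulv_one hv.mul]
    simp [hh_zero]
  | norm g x e l r u h1 h2 _ _ h5 h6 =>
    choose c hc using mem_lat.mp h1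
    have e1 : (co P y wt x e).det = e ^ ∑ i, c i := by
      rw [co, Matrix.det_units_conj, Matrix.det_diagonal, ← Units.val_mk0 h2]
      simp only [← Units.val_zpow_eq_zpow_val, ← Units.coe_prod, prod_zpow_eq_zpow_sum]
      exact congrArg (fun z : ℤ => ((Units.mk0 e h2 ^ z : Ωˣ) : Ω)) (sum_congr rfl fun i _ => by
        rw [show P.toLinearMap (wt i) x = c i from hc i, Int.floor_intCast])
    have e2 : g.val.det = (l.map fun ρ => ρ e).prod ^ ∑ i, c i := by
      rw [h6]
      clear h5 h6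
      rename_i a1 a2
      clear a1 a2
      induction l with
      | nil => simp
      | cons ρ l ih =>
        rw [List.map_cons, List.map_cons, List.prod_cons, List.prod_cons, Matrix.det_mul, ih,
          mul_zpow, ← map_zpow₀ ρ, ← e1]
        exact congrArg (· * _) (AlgEquiv.map_det ρ _).symm
    have u1 : ∀ u : Oˣ, algebraMap O K u ≠ 0 := fun u => (u.isUnit.map _).ne_zero
    have u2 : ∀ u : Oˣ, algebraMap K Ω (algebraMap O K u) ≠ 0 := fun u => by simpa using u1 u
    have u3 : v (algebraMap K Ω (algebraMap O K u)) = 0 := by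
      have a1 := (hO _ (u1 u)).1 ⟨_, rfl⟩
      have a2 := (hO _ (u1 u⁻¹)).1 ⟨_, rfl⟩
      have a3 := hv.mul _ _ (u2 u) (u2 u⁻¹)
      rw [← map_mul, ← map_mul, Units.mul_inv, map_one, map_one, mulv_one hv.mul] at a3
      linarith
    rw [e2, h5, mulv_zpow hv.mul (mul_ne_zero (u2 u) (zpow_ne_zero _ h0)),
      hv.mul _ _ (u2 u) (zpow_ne_zero _ h0), u3, mulv_zpow hv.mul h0, hp,
      ← Int.cast_smul_eq_zsmul ℚ]
    simp only [hh_smul, hc, ← mul_sum]
    push_cast; ring
  | mul g h x z _ _ h1 h2 =>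
    rw [Units.val_mul, Matrix.det_mul, hv.mul _ _ g.det_ne_zero h.det_ne_zero, h1, h2,
      ← sum_add_distrib]
    simp only [hh_add]

end

end Pool.Agent.P.MP_7d29e8_ag
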