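import Pool.Agent.P.MP_7d29e8_ag.KP

set_option autoImplicit false

/-! The criterion holds for `GL₂` with the trivial cocharacter and its anisotropic inner form. -/

namespace Pool.Agent.P.MP_7d29e8_ag

open Finset SemidirectProduct Nw
open scoped Classical

section

variable {Ω : Type} [Field Ω] [CharZero Ω]
  {ι M N : Type} [AddCommGroup M] [Module ℚ M] [AddCommGroup N] [Module ℚ N]
  {P : RootPairing ι ℚ M N} {wt : Fin 2 → M} {y : GL (Fin 2) Ω} (D : DS (Gd ⊤ y) P wt)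
include D

lemma two_root (i : ι) : ∃ ε : ℚ, (ε = 1 ∨ ε = -1) ∧
    (∀ x, P.root' i x = ε * (hh P wt x 0 - hh P wt x 1)) ∧
    hh P wt (P.coroot i) 0 = ε ∧ hh P wt (P.coroot i) 1 = -ε := by
  obtain ⟨-, e, -, f, -, we, -, hef⟩ := D.sl2 i
  obtain ⟨a, b, h⟩ : ∃ a b, e a b ≠ 0 := by
    by_contra c
    push Not at c
    refine P.ne_zero' i (DD_inj (P := P) (E := Ω) D.span (y := 0) ?_)
    rw [← hef, show e = 0 from Matrix.ext c]; simp [DD, hh_zero]
  have h1 : wt a - wt b = P.root i := by_contra fun c => h (we a b c)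
  have h2 : ∀ x, P.root' i x = hh P wt x a - hh P wt x b := fun x => by
    change P.toLinearMap (P.root i) x = _
    rw [← h1, map_sub, LinearMap.sub_apply]; rfl
  have h3 := D.tr_QL (AddSubgroup.subset_closure ⟨i, rfl⟩)
  have h4 := h2 (P.coroot i)
  rw [Fin.sum_univ_two] at h3
  rw [RootPairing.root'_coroot_eq_pairing, P.pairing_same] at h4
  fin_cases a <;> fin_cases b <;> simp only [Fin.zero_eta, Fin.mk_one, sub_self] at h2 h4
  · norm_num at h4
  · exact ⟨1, Or.inl rfl, fun x => by rw [h2, one_mul], by linarith, by linarith⟩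
  · exact ⟨-1, Or.inr rfl, fun x => by rw [h2]; ring, by linarith, by linarith⟩
  · norm_num at h4

lemma two_nonempty (b : P.Base) : b.support.Nonempty := by
  obtain ⟨x, hx⟩ := hh_surj D ![1, 0]
  obtain ⟨i, -⟩ := D.roots (wt 0 - wt 1) (fun c => by
    have h1 := hx 0
    rw [hh, sub_eq_zero.mp c, ← hh, ← hx 1] at h1
    simp at h1) _ (lie_top (Matrix.single 0 1 1))
      (fun c => by simpa using congrFun (congrFun c 0) 1) fun k l h =>
      Matrix.single_apply_of_ne _ _ _ _ _ fun e => h (by rw [← e.1, ← e.2])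
  by_contra c
  have := b.root_mem_or_neg_mem i
  rw [not_nonempty_iff_eq_empty.mp c] at this
  simp [P.ne_zero i] at this

variable {b : P.Base} {ω : ι → M}
  (hω : ∀ i ∈ b.support, ω i ∈ Submodule.span ℚ (Set.range P.root))
  (hω' : ∀ i ∈ b.support, ∀ j ∈ b.support, (i = j → P.toLinearMap (ω i) (P.coroot j) = 1) ∧
    (i ≠ j → P.toLinearMap (ω i) (P.coroot j) = 0))
include hω'

lemma two_single {i j : ι} (hi : i ∈ b.support) (hj : j ∈ b.support) : i = j := by
  by_contra c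
  obtain ⟨ε, e1, -, e2, e3⟩ := two_root D i
  obtain ⟨δ, d1, -, d2, d3⟩ := two_root D j
  have h1 : P.coroot i = (ε * δ) • P.coroot j := hh_inj (P := P) D.span fun l => by
    rw [hh_smul]
    fin_cases l <;> rcases d1 with rfl | rfl <;> simp [e2, e3, d2, d3]
  have h2 := (hω' i hi i hi).1 rfl
  rw [h1, map_smul, (hω' i hi j hj).2 c] at h2
  simp at h2

lemma two_triv {φ : SL (Fin 2) Ω} {a : P.Aut} (h : Nrm P wt φ a.coweightMap)
    (ha : ∀ i ∈ b.support, a.indexEquiv i ∈ b.support) (x : N) : a.coweightMap x = x := by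
  obtain ⟨i, hi⟩ := two_nonempty D b
  obtain ⟨ε, e1, e2, -⟩ := two_root D i
  obtain ⟨l, hl, -⟩ := h.row
  obtain ⟨z, hz⟩ := hh_surj D ![1, 0]
  have h1 := root_act a i z
  rw [two_single D hω' (ha i hi) hi, e2, e2, hl, hl, ← hz, ← hz, ← hz, ← hz] at h1
  have h2 : ∀ j, l j = j := by
    have h3 := mul_left_cancel₀ (show ε ≠ 0 by rcases e1 with rfl | rfl <;> simp) h1
    rw [Fin.forall_fin_two]
    generalize l 0 = u, l 1 = w at h3
    fin_cases u <;> fin_cases w <;> simp at h3 ⊢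
    norm_num at h3
  exact hh_inj (P := P) D.span fun j => by rw [hl, h2]

include hω

lemma two_orb (Γ : Subgroup P.Aut) {i : ι} (hi : i ∈ b.support) (x : N) :
    orb b Γ ω i x = P.root' i x / 2 := by
  obtain ⟨r, hr⟩ : ∃ r : ℚ, ∀ x, P.toLinearMap (ω i) x = r * (hh P wt x 0 - hh P wt x 1) :=
    Submodule.span_induction
      (p := fun m _ => ∃ r : ℚ, ∀ x, P.toLinearMap m x = r * (hh P wt x 0 - hh P wt x 1))
      (by rintro _ ⟨j, rfl⟩; exact (two_root D j).imp fun _ h => h.2.1) ⟨0, by simp⟩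
      (fun _ _ _ _ ⟨r, h⟩ ⟨r', h'⟩ => ⟨r + r', fun x => by simp [h, h', add_mul]⟩)
      (fun c _ _ ⟨r, h⟩ => ⟨c * r, fun x => by simp [h, mul_assoc]⟩) (hω i hi)
  obtain ⟨ε, e1, e2, e3, e4⟩ := two_root D i
  have h1 := (hω' i hi i hi).1 rfl
  rw [hr, e3, e4] at h1
  rw [orb, sum_eq_single i (fun j hj c => absurd (two_single D hω' (mem_filter.mp hj).1 hi) c)
    (fun c => absurd (mem_filter.mpr ⟨hi, 1, one_mem _, rfl⟩) c), hr, e2,
    show r = ε / 2 by rcases e1 with rfl | rfl <;> linarith]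
  ring

end

variable {p : ℕ} [Fact p.Prime] {K Ω : Type} [Field K] [Field Ω]
  [Algebra (WittVector p (AlgebraicClosure (ZMod p))) K]
  [IsFractionRing (WittVector p (AlgebraicClosure (ZMod p))) K] [Algebra K Ω] [IsAlgClosure K Ω]
  {σ : K ≃+* K} (hσ : ∀ o : WittVector p (AlgebraicClosure (ZMod p)),
    σ (algebraMap _ K o) = algebraMap _ K (WittVector.frobenius o))
  {s : Ω ≃+* Ω} (hs : ∀ a, s (algebraMap K Ω a) = algebraMap K Ω (σ a))
  {n' : Type} [Fintype n'] [DecidableEq n'] {G' : Subgroup (GL n' Ω)}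
  {ψ : (⊤ : Subgroup (GL (Fin 2) Ω)) ≃* G'}
include hσ hs

theorem two_crit {μ' : Ω → Matrix n' n' Ω} (hμ' : ∀ t ≠ 0, ∀ g : (⊤ : Subgroup (GL (Fin 2) Ω)),
      g.val.val = Matrix.diagonal ![t, 1] → μ' t = (ψ g).val.val)
    {β : GL (Fin 2) Ω} (hβ : β.val = !![0, (p : Ω); 1, 0])
    {ι M N : Type} [AddCommGroup M] [Module ℚ M] [AddCommGroup N] [Module ℚ N]
    {P : RootPairing ι ℚ M N} [Finite ι] [P.IsCrystallographic] [P.IsReduced] {b : P.Base}
    {ω : ι → M} {y g₀ : GL (Fin 2) Ω} {wt : Fin 2 → M} {a₀ a₀' : P.Aut} {y' g₀' : GL n' Ω}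
    {wt' : n' → M} {ν₀ x₀ m m' : N}
    (c : Coord (WittVector p (AlgebraicClosure (ZMod p))) p σ s ⊤ G' ψ (fun _ => 1) μ'
      b ω y wt g₀ a₀ y' wt' g₀' a₀' ν₀ x₀ m m') (Γ : Subgroup P.Aut) :
    (∃ z, Kap (WittVector p (AlgebraicClosure (ZMod p))) K P p ⊤ y wt β z ∧
      z - (m - m') ∈ rel Γ (lat P wt)) ∧
    ∀ i ∈ b.support, Crit b Γ ω (ν₀ - x₀) (ν₀ - x₀ + (m - m')) m m' i := by
  have := charZero_K p K
  have := charZero_of_injective_algebraMap (algebraMap K Ω).injective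
  obtain ⟨v, pw, hv, hpw, hτ, hvs, hp, hO, hZ⟩ := exists_val σ hσ s hs
  have p0 : (p : Ω) ≠ 0 := Nat.cast_ne_zero.mpr (Fact.out : p.Prime).ne_zero
  have hG := isRed_top (Ω := Ω) (n := Fin 2) σ
  have D := c.fr.ds hG
  have km := kap_main hσ hs hG c.fr
  have m0 : ∀ i, hh P wt m i = 0 := fun i => by
    obtain ⟨g, -, hg⟩ := c.rep
    have h1 := hg 2 two_ne_zero
    rw [eq_comm, Units.mul_inv_eq_iff_eq_mul, one_mul] at h1
    replace h1 := (Units.mul_right_inj g).mp (h1.trans (mul_one _).symm)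
    rw [co_eq_FJ, cd_eq_one_FI2] at h1
    obtain ⟨z, hz⟩ := mem_lat.mp c.mem.1 i
    have h2 := h1 i
    rw [hz, Int.floor_intCast] at h2
    rw [hz, two_zpow_inj (h2.trans (zpow_zero 2).symm), Int.cast_zero]
  have m1 : hh P wt m' 0 + hh P wt m' 1 = -1 ∧ |hh P wt m' 0 - hh P wt m' 1| = 1 := by
    obtain ⟨g', hg', hg⟩ := c.rep'
    obtain ⟨g, e⟩ := ψ.surjective ⟨g', hg'⟩
    obtain ⟨τ, -, hτ⟩ := c.fr.tor m' c.mem.2 2 two_ne_zero
    let d : GL (Fin 2) Ω := Matrix.GeneralLinearGroup.mkOfDetNeZero (Matrix.diagonal ![2⁻¹, 1])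
      (by simp)
    have h1 : (⟨d, trivial⟩ : (⊤ : Subgroup _)) = g * ⟨τ, trivial⟩ * g⁻¹ :=
      ψ.injective (Subtype.ext (Units.ext (by
        rw [← hμ' 2⁻¹ (by simp) ⟨d, trivial⟩ rfl, hg 2 two_ne_zero, map_mul, map_mul, map_inv, e,
          ← c.hco m' c.mem.2 2 two_ne_zero ⟨τ, trivial⟩ hτ]
        rfl)))
    have h2 : cd 1 ![(2 : Ω)⁻¹, 1] = cd (g.val * y) fun i => 2 ^ ⌊hh P wt m' i⌋ := by
      rw [cd_one, ← ac_cd, ← co_eq_FJ, ← hτ]
      exact congrArg (fun z : (⊤ : Subgroup (GL (Fin 2) Ω)) => z.val.val) h1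
    obtain ⟨i, hi⟩ := cd_range h2 0
    obtain ⟨j, hj⟩ := cd_range h2 1
    choose z hz using mem_lat.mp c.mem.2
    simp only [hz, Int.floor_intCast] at hi hj ⊢
    have h3 : -1 = z i := two_zpow_inj (Ω := Ω) (by rw [← hi]; simp)
    have h4 : 0 = z j := two_zpow_inj (Ω := Ω) (by rw [← hj]; simp)
    fin_cases i <;> fin_cases j <;> simp only [Fin.zero_eta, Fin.mk_one] at h3 h4
    · omega
    · rw [← h3, ← h4]; simp
    · rw [← h3, ← h4]; simp
    · omega
  have n0 : ν₀ ∈ lat P wt ∧ v g₀.val.det = ∑ i, hh P wt ν₀ i := by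
    have hφ : (inl g₀ * inr s : SL (Fin 2) Ω) ∈ Vs v := fun a => by simpa using hvs a
    obtain ⟨a1, -, a3, a4⟩ := (newton_iff s hs hv hpw hvs hp hO fixed_mem g₀ y (hh P wt ν₀) _
      rfl).mp c.nu
    have a5 := (Nw.np_iff hpw hφ rfl a3).mp a4
    obtain ⟨x, hx⟩ := hh_surj D ![1, 0]
    have a6 := c.fr.fr.2.nrm x
    rw [two_triv D c.hω' c.fr.fr.2.nrm c.fr.fr.2.1, DD, ac_diag,
      Units.mul_inv_eq_iff_eq_mul] at a6
    set d := (Yc y (inl g₀ * inr s)).left with hd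
    have a7 : d.val = Matrix.diagonal fun i => d.val i i := by
      have b1 := congrFun (congrFun a6 0) 1
      have b2 := congrFun (congrFun a6 1) 0
      simp only [Matrix.mul_diagonal, Matrix.diagonal_mul, ← hx] at b1 b2
      ext i j
      fin_cases i <;> fin_cases j
      · simp
      · simpa [eq_comm] using b1
      · simpa [eq_comm] using b2
      · simp
    have a8 : g₀.val * y.val.map s = y.val * Matrix.diagonal fun i => d.val i i := by
      rw [← a7, hd, Yc]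
      simp [mul_assoc]
    have a9 : ∀ i, d.val i i ≠ 0 := fun i => by
      have := d.det_ne_zero
      rw [a7, Matrix.det_diagonal] at this
      exact prod_ne_zero_iff.mp this i (mem_univ i)
    have b1 : ∀ l, av (inl g₀ * inr s) (fun t => y.val t l) = d.val l l • fun t => y.val t l :=
      fun l => funext fun i => by
        rw [av_col, Pi.smul_apply, smul_eq_mul, mul_comm, ← Matrix.mul_diagonal fun i => d.val i i,
          ← a8]
        simp
    have b2 : ∀ l, ∃ t, y.val t l ≠ 0 ∧ ∃ u, (y⁻¹).val l u ≠ 0 := fun l => by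
      have := congrFun (congrFun y.inv_mul l) l
      rw [Matrix.mul_apply, Matrix.one_apply_eq] at this
      obtain ⟨t, -, ht⟩ := exists_ne_zero_of_sum_ne_zero (this ▸ one_ne_zero)
      exact ⟨t, right_ne_zero_of_mul ht, t, left_ne_zero_of_mul ht⟩
    have b3 : ∀ l, v (d.val l l) = hh P wt ν₀ l := fun l =>
      let ⟨t, ht, _⟩ := b2 l; eig_val (a5 l) ht (a9 l) (b1 l)
    refine ⟨mem_lat.mpr fun l => ?_, ?_⟩
    · obtain ⟨t, ht, u, hu⟩ := b2 l
      obtain ⟨x, hx⟩ := hh_surj D (Pi.single l 1)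
      have c1 : ∀ i, dd P y wt x i u = y.val i l * (y⁻¹).val l u := fun i => by
        rw [dd, Matrix.mul_apply, sum_eq_single l (fun j _ hj => ?_) (by simp)] <;>
          rw [Matrix.mul_diagonal, ← hh, ← hx]
        · simp
        · simp [hj]
      choose w hw using fun i => fixed_mem (K := K) (dd P y wt x i u) fun τ => by
        obtain ⟨a, ha⟩ := c.fr.gal τ
        have := ha.2 x
        rw [two_triv D c.hω' ha.nrm ha.1, Units.val_one, one_mul, mul_one] at this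
        exact congrFun (congrFun this i) u
      choose g₁ h₁ using fun i j => fixed_mem (K := K) (g₀.val i j) fun τ =>
        congrFun (congrFun (a1 τ) i) j
      have c2 : algebraMap K Ω (∑ j, g₁ t j * σ (w j)) =
          d.val l l * y.val t l * s ((y⁻¹).val l u) := by
        have := congrFun (congrFun a8 t) l
        rw [Matrix.mul_diagonal, mul_comm, Matrix.mul_apply] at this
        simp only [map_sum, map_mul, h₁, ← hs, hw, c1, ← this, sum_mul, mul_assoc, Matrix.map_apply]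
      have c3 : s ((y⁻¹).val l u) ≠ 0 := by simpa using hu
      obtain ⟨z, hz⟩ := hZ (∑ j, g₁ t j * σ (w j)) fun e =>
        mul_ne_zero (mul_ne_zero (a9 l) ht) c3 (by rw [← c2, e, map_zero])
      obtain ⟨z', hz'⟩ := hZ (w t) fun e => mul_ne_zero ht hu (by rw [← c1, ← hw, e, map_zero])
      rw [c2, hv.mul _ _ (mul_ne_zero (a9 l) ht) c3, hv.mul _ _ (a9 l) ht, hvs, b3] at hz
      rw [hw, c1, hv.mul _ _ ht hu] at hz'
      exact ⟨z - z', by push_cast; linarith⟩
    · have c1 := congrArg (fun X => v X.det) a8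
      have c2 : (y.val.map s).det = s y.val.det := (RingEquiv.map_det s _).symm
      simp only [Matrix.det_mul, c2, Matrix.det_diagonal] at c1
      rw [hv.mul _ _ g₀.det_ne_zero (by simpa using y.det_ne_zero), hvs,
        hv.mul _ _ y.det_ne_zero (prod_ne_zero_iff.mpr fun i _ => a9 i),
        mulv_prod hv.mul _ fun i _ => a9 i] at c1
      simp only [b3] at c1
      linarith
  refine ⟨?_, fun i hi => ?_⟩
  · obtain ⟨z, hz⟩ := (km.1 β).mpr ⟨trivial, !![0, (p : K); 1, 0], by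
      rw [hβ]; ext i j; fin_cases i <;> fin_cases j <;> simp⟩
    have h1 := kap_det hv p0 hp hO hz
    rw [hβ, Matrix.det_fin_two_of, Fin.sum_univ_two] at h1
    simp only [mul_zero, mul_one, zero_sub, mulv_neg hv.mul, hp] at h1
    obtain ⟨i, -⟩ := two_nonempty D b
    obtain ⟨ε, e1, -, e2, e3⟩ := two_root D i
    obtain ⟨r, hr⟩ := mem_lat.mp (sub_mem ((km.2.2 z).mp ⟨_, hz⟩) (sub_mem c.mem.1 c.mem.2)) 0
    refine ⟨z, hz, AddSubgroup.closure_mono Set.subset_union_left ?_⟩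
    rw [show z - (m - m') = (r * ε) • P.coroot i from hh_inj (P := P) D.span ?_]
    · exact zsmul_QL i (by rcases e1 with rfl | rfl; exacts [⟨r, by simp⟩, ⟨-r, by simp⟩])
    · have := m1.1
      simp only [hh_sub, m0] at hr
      simp only [Fin.forall_fin_two, hh_sub, hh_smul, m0, e2, e3]
      rcases e1 with rfl | rfl <;> constructor <;> linarith
  · obtain ⟨ε, e1, e2, -⟩ := two_root D i
    have h1 : P.root' i m = 0 := by simp [e2, m0]
    have h2 : P.root' i m' = 1 := by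
      have h3 := (c.dom i hi).2
      rw [← abs_of_nonneg h3, e2, abs_mul, m1.2]
      rcases e1 with rfl | rfl <;> simp
    obtain ⟨r, hr⟩ := mem_lat.mp (sub_mem n0.1 ((km.2.2 x₀).mp ⟨_, c.ka⟩)) 0
    obtain ⟨z, hz⟩ : ∃ z : ℤ, P.root' i (ν₀ - x₀) = 2 * z := by
      have h3 := n0.2.symm.trans (kap_det hv p0 hp hO c.ka)
      simp only [Fin.sum_univ_two] at h3
      rw [e2]
      simp only [hh_sub] at hr ⊢
      rcases e1 with rfl | rfl
      · exact ⟨r, by linarith⟩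
      · exact ⟨-r, by push_cast; linarith⟩
    rw [Crit, two_orb D c.hω c.hω' Γ hi, two_orb D c.hω c.hω' Γ hi, two_orb D c.hω c.hω' Γ hi,
      two_orb D c.hω c.hω' Γ hi, map_add, map_sub _ m, hz, h1, h2,
      show -(2 * (z : ℚ) / 2) = (-z : ℤ) by push_cast; ring,
      show -((2 * (z : ℚ) + (0 - 1)) / 2) = (-z : ℤ) + 1 / 2 by push_cast; ring,
      Int.fract_intCast, Int.fract_intCast_add, Int.fract_eq_self.mpr ⟨by norm_num, by norm_num⟩]
    norm_num

theorem two_minu (hG' : IsRed σ G') (β : (⊤ : Subgroup (GL (Fin 2) Ω))) (hψ : Reg K ψ)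
    (hψ' : Reg K ψ.symm) (hψs : ∀ g h : (⊤ : Subgroup (GL (Fin 2) Ω)),
      h.val.val = β.val.val * g.val.val.map s * (β⁻¹).val.val →
      (ψ h).val.val = (ψ g).val.val.map s) :
    Minu (⊤ : Subgroup (GL (Fin 2) Ω)) (fun _ => 1) ∧ ∃ μ', Minu G' μ' ∧
      ∀ t ≠ 0, ∀ g : (⊤ : Subgroup (GL (Fin 2) Ω)),
        g.val.val = Matrix.diagonal ![t, 1] → μ' t = (ψ g).val.val := by
  have := charZero_K p K
  have := charZero_of_injective_algebraMap (algebraMap K Ω).injective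
  have triv : ∀ {n : Type} [Fintype n] [DecidableEq n] (G : Subgroup (GL n Ω)),
      Minu G fun _ => 1 := fun G => ⟨⟨1, 0, fun t _ => by simp⟩, fun t _ => ⟨1, one_mem _, rfl⟩,
    fun X _ h0 j hj => by
      have h1 := hj 2 two_ne_zero
      rw [one_mul, mul_one, eq_comm, ← sub_eq_zero, ← one_smul Ω X, smul_smul, ← sub_smul, mul_one,
        smul_eq_zero, sub_eq_zero] at h1
      rw [two_zpow_inj ((h1.resolve_right h0).trans (zpow_zero 2).symm)]; simp⟩
  have hG := isRed_top (Ω := Ω) (n := Fin 2) σ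
  obtain ⟨ι, M, N, _, _, _, _, P, _, _, _, b, ω, y, wt, g₀, a₀, y', wt', g₀', a₀', ν₀, x₀, m, m',
    c⟩ := exists_coord hσ hs hG hG' β ψ hψ hψ' hψs (triv _) (triv _)
  have D := c.fr.ds hG
  obtain ⟨x, hx⟩ := hh_surj D ![1, 0]
  have hL : x ∈ lat P wt := mem_lat.mpr fun i => ⟨![1, 0] i, by rw [← hx]; fin_cases i <;> simp⟩
  refine ⟨triv _, _, minu_of (c.fr'.ds hG') (c.hL ▸ hL) (fun i => ?_) (ψ ⟨y, trivial⟩⁻¹).2,
    fun t ht g hg => ?_⟩
  · obtain ⟨ε, e1, e2, -⟩ := two_root D i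
    rw [e2, ← hx, ← hx]
    rcases e1 with rfl | rfl <;> simp
  · rw [← c.hco x hL t ht (⟨y, trivial⟩ * g * ⟨y, trivial⟩⁻¹) (by
      rw [co, show (fun i => t ^ ⌊P.toLinearMap (wt i) x⌋) = ![t, 1] from funext fun i => by
        rw [← hh, ← hx]; fin_cases i <;> simp, ← hg]; rfl)]
    rw [← Units.val_mul, ← Units.val_mul, ← Subgroup.coe_inv, ← Subgroup.coe_mul,
      ← Subgroup.coe_mul, ← map_inv, ← map_mul, ← map_mul]
    congr 3
    group

end Pool.Agent.P.MP_7d29e8_ag
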