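import Pool.Agent.P.MP_7d29e8_ag.Defs

set_option autoImplicit false

namespace Pool.Agent.P.MP_7d29e8_ag

open scoped Classical
open Finset

/-- being an integer -/
def IsZ (q : ℚ) : Prop := ∃ z : ℤ, q = z

lemma IsZ.add {a b : ℚ} (ha : IsZ a) (hb : IsZ b) : IsZ (a + b) := by
  obtain ⟨x, rfl⟩ := ha; obtain ⟨y, rfl⟩ := hb; exact ⟨x + y, by simp⟩

lemma IsZ.sub {a b : ℚ} (ha : IsZ a) (hb : IsZ b) : IsZ (a - b) := by
  obtain ⟨x, rfl⟩ := ha; obtain ⟨y, rfl⟩ := hb; exact ⟨x - y, by simp⟩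

lemma IsZ.mul {a b : ℚ} (ha : IsZ a) (hb : IsZ b) : IsZ (a * b) := by
  obtain ⟨x, rfl⟩ := ha; obtain ⟨y, rfl⟩ := hb; exact ⟨x * y, by simp⟩

lemma IsZ.neg {a : ℚ} (ha : IsZ a) : IsZ (- a) := by
  obtain ⟨x, rfl⟩ := ha; exact ⟨-x, by simp⟩

lemma IsZ.nat (k : ℕ) : IsZ k := ⟨k, by simp⟩

lemma IsZ.zero : IsZ 0 := ⟨0, by simp⟩

lemma IsZ.of_eq {a b : ℚ} (ha : IsZ a) (h : b = a) : IsZ b := h ▸ ha

lemma IsZ.sum {α : Type*} {s : Finset α} {f : α → ℚ} (h : ∀ i ∈ s, IsZ (f i)) :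
    IsZ (∑ i ∈ s, f i) :=
  Finset.sum_induction f IsZ (fun _ _ => IsZ.add) IsZ.zero h

lemma IsZ.eq_zero {a : ℚ} (ha : IsZ a) (h1 : -1 < a) (h2 : a < 1) : a = 0 := by
  obtain ⟨x, rfl⟩ := ha
  have h3 : -1 < x := by exact_mod_cast h1
  have h4 : x < 1 := by exact_mod_cast h2
  have : x = 0 := by omega
  simp [this]

lemma IsZ.tri {a : ℚ} (ha : IsZ a) (h1 : -2 < a) (h2 : a < 2) : a = -1 ∨ a = 0 ∨ a = 1 := by
  obtain ⟨x, rfl⟩ := ha
  have h3 : -2 < x := by exact_mod_cast h1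
  have h4 : x < 2 := by exact_mod_cast h2
  have : x = -1 ∨ x = 0 ∨ x = 1 := by omega
  rcases this with h | h | h <;> simp [h]

lemma fract_congr {a b : ℚ} (h : IsZ (a - b)) : Int.fract (- a) = Int.fract (- b) := by
  obtain ⟨z, hz⟩ := h
  exact Int.fract_eq_fract.mpr ⟨-z, by push_cast; linarith⟩

lemma fract_of_isZ {a : ℚ} (h : IsZ a) : Int.fract (- a) = 0 := by
  rw [fract_congr (b := 0) (by simpa using h)]; simp

lemma half_pos' {a a' : ℚ} (h : IsZ (1 / 2 + a - a')) (h2 : 1 / 2 ≤ Int.fract (- a)) :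
    1 / 2 = Int.fract (- a) - Int.fract (- a') := by
  obtain ⟨z, hz⟩ := h
  have : Int.fract (- a') = Int.fract (- a) - 1 / 2 := by
    refine Int.fract_eq_iff.mpr ⟨by linarith, by linarith [Int.fract_lt_one (-a)],
      z + ⌊-a⌋, ?_⟩
    rw [Int.fract]; push_cast; linarith
  linarith

lemma half_neg' {a a' : ℚ} (h : IsZ (- (1 / 2) + a - a')) (h2 : Int.fract (- a) < 1 / 2) :
    - (1 / 2) = Int.fract (- a) - Int.fract (- a') := by
  obtain ⟨z, hz⟩ := h
  have : Int.fract (- a') = Int.fract (- a) + 1 / 2 := by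
    refine Int.fract_eq_iff.mpr ⟨by linarith [Int.fract_nonneg (-a)], by linarith,
      z + ⌊-a⌋, ?_⟩
    rw [Int.fract]; push_cast; linarith
  linarith

/-- orbit sums -/
noncomputable def oS {n : ℕ} (R : Fin n → Fin n → Prop) (z : Fin n → ℚ) (k : Fin n) : ℚ :=
  ∑ l with R k l, z l

lemma oS_eq {n : ℕ} (z : Fin n → ℚ) (k : Fin n) : oS Eq z k = z k := by
  rw [oS, sum_eq_single k] <;> simp +contextual

lemma oS_single {n : ℕ} {R : Fin n → Fin n → Prop} {k : Fin n} (h : ∀ l, R k l ↔ l = k)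
    (z : Fin n → ℚ) : oS R z k = z k := by
  rw [oS, sum_eq_single k] <;> simp +contextual [h]

lemma oS_set {n : ℕ} {R : Fin n → Fin n → Prop} {k : Fin n} {S : Finset (Fin n)}
    (h : ∀ l, R k l ↔ l ∈ S) (z : Fin n → ℚ) : oS R z k = ∑ l ∈ S, z l := by
  rw [oS]; congr 1; ext l; simp [h]

/-- the numerical data attached to a simple factor -/
structure Dat {n : ℕ} (C : Matrix (Fin n) (Fin n) ℤ) (R : Fin n → Fin n → Prop)
    (D y c c' : Fin n → ℚ) : Prop where
  hD : ∀ k, D k = ∑ l, (C k l : ℚ) * y l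
  zD : ∀ k, IsZ (D k)
  zc : ∀ k, IsZ (∑ l, (C k l : ℚ) * c l)
  zc' : ∀ k, IsZ (∑ l, (C k l : ℚ) * c' l)
  K : ∀ k, IsZ (oS R y k + oS R c k - oS R c' k)
  inj : ∀ z : Fin n → ℚ, (∀ k, ∑ l, (C k l : ℚ) * z l = 0) → z = 0

/-- the condition to be solved -/
def QQ {n : ℕ} (R : Fin n → Fin n → Prop) (y c c' : Fin n → ℚ) : Prop :=
  ∀ k, oS R y k = Int.fract (- oS R c k) - Int.fract (- oS R c' k)

section General

variable {n : ℕ} {C : Matrix (Fin n) (Fin n) ℤ} {R : Fin n → Fin n → Prop} {D y c c' : Fin n → ℚ}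

lemma Dat.at_zero (h : Dat C R D y c c') {k : Fin n} (h0 : oS R y k = 0) :
    oS R y k = Int.fract (- oS R c k) - Int.fract (- oS R c' k) := by
  have := h.K k
  rw [h0, zero_add] at this
  rw [h0, fract_congr this, sub_self]

lemma Dat.of_zero (h : Dat C R D y c c') (h0 : ∀ k, oS R y k = 0) : QQ R y c c' :=
  fun k => h.at_zero (h0 k)

lemma QQ.lt (h : QQ R y c c') (k : Fin n) : -1 < oS R y k ∧ oS R y k < 1 := by
  rw [h k]
  have := Int.fract_nonneg (- oS R c k)
  have := Int.fract_nonneg (- oS R c' k)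
  have := Int.fract_lt_one (- oS R c k)
  have := Int.fract_lt_one (- oS R c' k)
  constructor <;> linarith

lemma QQ.eq (h : QQ R y c c') {k l : Fin n} (h1 : IsZ (oS R c k - oS R c l))
    (h2 : IsZ (oS R c' k - oS R c' l)) : oS R y k = oS R y l := by
  rw [h k, h l, fract_congr h1, fract_congr h2]

lemma Dat.eq_iff (h : Dat C R D y c c') (x : Fin n → ℚ) :
    y = x ↔ ∀ k, D k = ∑ l, (C k l : ℚ) * x l := by
  constructor
  · rintro rfl; exact h.hD
  · intro hx
    rw [← sub_eq_zero]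
    refine h.inj _ fun k => ?_
    simp only [Pi.sub_apply, mul_sub, sum_sub_distrib]
    rw [← h.hD, ← hx, sub_self]

lemma Dat.D_zero (h : Dat C R D y c c') (h0 : D = 0) : QQ R y c c' := by
  have : y = 0 := (h.eq_iff 0).mpr fun k => by simp [h0]
  exact h.of_zero fun k => by simp [oS, this]

lemma Dat.rest_of (h : Dat C R D y c c') (h0 : QQ R y c c' → D = 0) (hR : R = Eq) :
    QQ R y c c' ↔ ∀ k, oS R D k = 0 := by
  subst hR
  simp only [oS_eq]
  exact ⟨fun hq k => by rw [h0 hq]; rfl, fun hk => h.D_zero (funext hk)⟩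

end General

/-- coordinates numbered from `1`, extended by zero -/
noncomputable def U {n : ℕ} (y : Fin n → ℚ) (i : ℕ) : ℚ :=
  ∑ l : Fin n, if (l : ℕ) + 1 = i then y l else 0

section Rows

variable {n : ℕ} (y : Fin n → ℚ)

lemma U_zero : U y 0 = 0 := by simp [U]

lemma U_succ (k : Fin n) : U y (k + 1) = y k := by
  rw [U, sum_eq_single k]
  · simp
  · intro l _ hl
    rw [if_neg]; intro e; exact hl (Fin.ext (by omega))
  · simp

lemma U_mk {i : ℕ} (h : i < n) : U y (i + 1) = y ⟨i, h⟩ := U_succ y ⟨i, h⟩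

lemma U_gt {i : ℕ} (h : n < i) : U y i = 0 :=
  sum_eq_zero fun l _ => by rw [if_neg]; have := l.2; omega

lemma rowA (k : Fin n) : ∑ l, (CartanMatrix.A n k l : ℚ) * y l =
    2 * U y (k + 1) - U y k - U y (k + 2) := by
  simp only [U, mul_sum, ← sum_sub_distrib]
  refine sum_congr rfl fun l _ => ?_
  simp only [CartanMatrix.A, Matrix.of_apply, Fin.ext_iff]
  split_ifs <;> first | omega | (push_cast; ring)

lemma rowB (k : Fin n) : ∑ l, (CartanMatrix.B n k l : ℚ) * y l =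
    2 * U y (k + 1) - U y k - (if (k : ℕ) + 2 = n then 2 else 1) * U y (k + 2) := by
  simp only [U, mul_sum, ← sum_sub_distrib]
  refine sum_congr rfl fun l _ => ?_
  have := l.2
  simp only [CartanMatrix.B, Matrix.of_apply, Fin.ext_iff]
  split_ifs <;> first | omega | (push_cast; ring)

lemma rowC (k : Fin n) : ∑ l, (CartanMatrix.C n k l : ℚ) * y l =
    2 * U y (k + 1) - (if (k : ℕ) + 1 = n then 2 else 1) * U y k - U y (k + 2) := by
  simp only [U, mul_sum, ← sum_sub_distrib]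
  refine sum_congr rfl fun l _ => ?_
  have := k.2
  simp only [CartanMatrix.C, Matrix.of_apply, Fin.ext_iff]
  split_ifs <;> first | omega | (push_cast; ring)

lemma rowD1 (k : Fin n) (hk : (k : ℕ) + 3 < n) : ∑ l, (CartanMatrix.D n k l : ℚ) * y l =
    2 * U y (k + 1) - U y k - U y (k + 2) := by
  simp only [U, mul_sum, ← sum_sub_distrib]
  refine sum_congr rfl fun l _ => ?_
  simp only [CartanMatrix.D, Matrix.of_apply, Fin.ext_iff]
  split_ifs <;> first | omega | (push_cast; ring)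

lemma rowD2 (k : Fin n) (hk : (k : ℕ) + 3 = n) : ∑ l, (CartanMatrix.D n k l : ℚ) * y l =
    2 * U y (k + 1) - U y k - U y (k + 2) - U y (k + 3) := by
  simp only [U, mul_sum, ← sum_sub_distrib]
  refine sum_congr rfl fun l _ => ?_
  simp only [CartanMatrix.D, Matrix.of_apply, Fin.ext_iff]
  split_ifs <;> first | omega | (push_cast; ring)

lemma rowD3 (k : Fin n) (m : ℕ) (hm : m + 3 = n) (hk : m < k) :
    ∑ l, (CartanMatrix.D n k l : ℚ) * y l = 2 * U y (k + 1) - U y (m + 1) := by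
  simp only [U, mul_sum, ← sum_sub_distrib]
  refine sum_congr rfl fun l _ => ?_
  have := k.2
  have := l.2
  simp only [CartanMatrix.D, Matrix.of_apply, Fin.ext_iff]
  split_ifs <;> first | omega | (push_cast; ring)

end Rows

lemma chain (V : ℕ → ℚ) (a N : ℕ) (h : ∀ i, a ≤ i → i + 2 ≤ N → V (i + 2) = 2 * V (i + 1) - V i) :
    ∀ j, a + j ≤ N → V (a + j) = V a + j * (V (a + 1) - V a) := by
  intro j
  induction j using Nat.twoStepInduction with
  | zero => simp
  | one => simp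
  | more j h1 h2 =>
    intro hj
    have := h (a + j) (by omega) (by omega)
    rw [← add_assoc, this, add_assoc, h2 (by omega), h1 (by omega)]
    push_cast; ring

lemma chainZ (V : ℕ → ℚ) (N : ℕ) (h0 : V 0 = 0)
    (h : ∀ i, i + 2 ≤ N → IsZ (2 * V (i + 1) - V i - V (i + 2))) :
    ∀ j, j ≤ N → IsZ (V j - j * V 1) := by
  intro j
  induction j using Nat.twoStepInduction with
  | zero => intro _; simpa [h0] using IsZ.zero
  | one => intro _; simpa using IsZ.zero
  | more j h1 h2 =>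
    intro hj
    refine ((((h2 (by omega)).add (h2 (by omega))).sub (h1 (by omega))).sub (h j hj)).of_eq ?_
    push_cast; ring

end Pool.Agent.P.MP_7d29e8_ag
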